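import Pool.Agent.Lib.MP_775b3b_nt.Idx

/-! Index bookkeeping, part 2. -/

namespace Pool.Agent.Lib.MP_775b3b_nt

theorem idx2_reps {G : Type*} [CommGroup G] (H K : Subgroup G)
    (T : Finset (K ⧸ H.subgroupOf K)) (hT : ∀ q ∈ T, q ≠ 1) :
    ∃ R : Finset G, R.card = T.card ∧ (∀ x ∈ R, x ∈ K ∧ x ∉ H) ∧
      ∀ x ∈ R, ∀ y ∈ R, x / y ∈ H → x = y := by
  classical
  have hinj : Function.Injective fun q : K ⧸ H.subgroupOf K => ((q.out : K) : G) := by
    intro q q' h
    have h1 : q.out = q'.out := Subtype.ext h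
    rw [← QuotientGroup.out_eq' q, ← QuotientGroup.out_eq' q', h1]
  refine ⟨T.image fun q => ((q.out : K) : G), Finset.card_image_of_injective _ hinj, ?_, ?_⟩
  · intro x hx
    obtain ⟨q, hq, rfl⟩ := Finset.mem_image.1 hx
    refine ⟨q.out.2, fun h => hT q hq ?_⟩
    rw [← QuotientGroup.out_eq' q, QuotientGroup.eq_one_iff]
    exact h
  · intro x hx y hy h
    obtain ⟨q, -, rfl⟩ := Finset.mem_image.1 hx
    obtain ⟨q', -, rfl⟩ := Finset.mem_image.1 hy
    have h1 : q' = q := by
      rw [← QuotientGroup.out_eq' q, ← QuotientGroup.out_eq' q', QuotientGroup.eq,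
        Subgroup.mem_subgroupOf, Subgroup.coe_mul, Subgroup.coe_inv, mul_comm, ← div_eq_mul_inv]
      exact h
    rw [h1]

/-- From bounds on systems of representatives to bounds on the indices.  Finiteness at `i₀`: if
the quotient were infinite, take a large system at `i₀` and `∅` elsewhere
(`Pi.single` or `Function.update`, or a dependent `if`).  Then take for `R i` the representatives
(`Quotient.out`) of the nontrivial classes. -/
theorem sum_relIndex_le {ι : Type*} {Γ : ι → Type*} [∀ i, CommGroup (Γ i)] (s : Finset ι)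
    (H K : ∀ i, Subgroup (Γ i)) (c : ℝ)
    (h : ∀ R : ∀ i, Finset (Γ i), (∀ i ∈ s, ∀ x ∈ R i, x ∈ K i ∧ x ∉ H i) →
      (∀ i ∈ s, ∀ x ∈ R i, ∀ y ∈ R i, x / y ∈ H i → x = y) → ∑ i ∈ s, ((R i).card : ℝ) ≤ c) :
    (∀ i ∈ s, (H i).relIndex (K i) ≠ 0) ∧
      ∑ i ∈ s, ((H i).relIndex (K i) : ℝ) ≤ c + s.card := by
  classical
  have key : ∀ T : ∀ i, Finset (K i ⧸ (H i).subgroupOf (K i)), (∀ i, ∀ q ∈ T i, q ≠ 1) →
      ∑ i ∈ s, ((T i).card : ℝ) ≤ c := by
    intro T hT
    choose R h1 h2 h3 using fun i => idx2_reps (H i) (K i) (T i) (hT i)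
    have := h R (fun i _ => h2 i) fun i _ => h3 i
    simpa only [h1] using this
  have hfin : ∀ i ∈ s, Finite (K i ⧸ (H i).subgroupOf (K i)) := by
    intro i hi
    by_contra hf
    rw [not_finite_iff_infinite] at hf
    obtain ⟨m, hm⟩ := exists_nat_gt c
    obtain ⟨T, hT⟩ := Infinite.exists_subset_card_eq (K i ⧸ (H i).subgroupOf (K i)) (m + 1)
    have h1 := key (Function.update (fun _ => ∅) i (T.erase 1)) (by
      intro j q hq
      by_cases hj : j = i
      · subst hj
        rw [Function.update_self] at hq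
        exact Finset.ne_of_mem_erase hq
      · rw [Function.update_of_ne hj] at hq
        exact absurd hq (Finset.notMem_empty _))
    have h2 := Finset.single_le_sum
      (f := fun j => (((Function.update (fun j => (∅ : Finset (K j ⧸ (H j).subgroupOf (K j)))) i
        (T.erase 1)) j).card : ℝ)) (fun j _ => Nat.cast_nonneg _) hi
    simp only [Function.update_self] at h2
    have h3 : m ≤ (T.erase 1).card := by
      have := Finset.pred_card_le_card_erase (s := T) (a := 1)
      omega
    have h4 : (m : ℝ) ≤ (T.erase 1).card := by exact_mod_cast h3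
    linarith
  refine ⟨fun i hi => ?_, ?_⟩
  · have := hfin i hi
    exact Nat.card_pos.ne'
  · have hT : ∀ i, ∃ T : Finset (K i ⧸ (H i).subgroupOf (K i)), (∀ q ∈ T, q ≠ 1) ∧
        (i ∈ s → (H i).relIndex (K i) = T.card + 1) := by
      intro i
      by_cases hi : i ∈ s
      · have := hfin i hi
        have := Fintype.ofFinite (K i ⧸ (H i).subgroupOf (K i))
        refine ⟨Finset.univ.erase 1, fun q hq => Finset.ne_of_mem_erase hq, fun _ => ?_⟩
        rw [Finset.card_erase_add_one (Finset.mem_univ _), Finset.card_univ,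
          ← Nat.card_eq_fintype_card]
        rfl
      · exact ⟨∅, fun q hq => absurd hq (Finset.notMem_empty _), fun h => absurd h hi⟩
    choose T h1 h2 using hT
    have h3 := key T h1
    have h4 : ∑ i ∈ s, ((H i).relIndex (K i) : ℝ) = ∑ i ∈ s, (((T i).card : ℝ) + 1) :=
      Finset.sum_congr rfl fun i hi => by rw [h2 i hi]; push_cast; rfl
    rw [h4, Finset.sum_add_distrib, Finset.sum_const, nsmul_eq_mul, mul_one]
    linarith

/-- `M ≃ ℤ^r × torsion` (`AddCommGroup.equiv_free_prod_directSum_zmod`), or: `M / torsion` is free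
of rank `r`, and `W` lies in the kernel of the surjection `M → (M / torsion) → (ZMod 2)^r`. -/
theorem two_pow_finrank_le {M : Type*} [AddCommGroup M] [Module.Finite ℤ M] (W : AddSubgroup M)
    (hW : ∀ x ∈ W, ∃ y t : M, x = 2 • y + t ∧ 2 • t = 0) (h0 : W.index ≠ 0) :
    2 ^ Module.finrank ℤ M ≤ W.index := by
  classical
  let N := M ⧸ Submodule.torsion ℤ M
  have hr : Module.finrank ℤ N = Module.finrank ℤ M := finrank_quotient_eq_of_le_torsion le_rfl
  let b := Module.finBasis ℤ N
  let f : M →+ (Fin (Module.finrank ℤ N) → ZMod 2) :=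
    { toFun := fun x i => ((b.repr ((Submodule.torsion ℤ M).mkQ x) i : ℤ) : ZMod 2)
      map_zero' := by ext i; simp
      map_add' := fun x y => by ext i; simp }
  have hf : Function.Surjective f := by
    intro v
    obtain ⟨x, hx⟩ := (Submodule.torsion ℤ M).mkQ_surjective
      (b.equivFun.symm fun i => ((v i).val : ℤ))
    refine ⟨x, funext fun i => ?_⟩
    show ((b.repr ((Submodule.torsion ℤ M).mkQ x) i : ℤ) : ZMod 2) = v i
    rw [hx, ← Module.Basis.equivFun_apply, LinearEquiv.apply_symm_apply]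
    simp
  have hle : W ≤ f.ker := by
    intro x hx
    obtain ⟨y, t, rfl, ht⟩ := hW x hx
    have h1 : (Submodule.torsion ℤ M).mkQ t = 0 := by
      rw [Submodule.mkQ_apply, Submodule.Quotient.mk_eq_zero]
      exact ⟨⟨2, mem_nonZeroDivisors_of_ne_zero two_ne_zero⟩, by
        show (2 : ℤ) • t = 0
        rw [← ht]
        exact ofNat_zsmul t 2⟩
    have h2 : f t = 0 := by
      ext i
      show ((b.repr ((Submodule.torsion ℤ M).mkQ t) i : ℤ) : ZMod 2) = 0
      rw [h1]
      simp
    rw [AddMonoidHom.mem_ker, map_add, h2, add_zero, map_nsmul]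
    ext i
    rw [Pi.smul_apply, two_nsmul, Pi.zero_apply]
    exact CharTwo.add_self_eq_zero _
  have h1 := AddSubgroup.index_dvd_of_le hle
  rw [AddSubgroup.index_ker, AddMonoidHom.range_eq_top.2 hf, AddSubgroup.card_top] at h1
  have h2 : Nat.card (Fin (Module.finrank ℤ N) → ZMod 2) = 2 ^ Module.finrank ℤ M := by
    rw [Nat.card_fun, Nat.card_zmod, Nat.card_eq_fintype_card, Fintype.card_fin, hr]
  rw [h2] at h1
  exact Nat.le_of_dvd (Nat.pos_of_ne_zero h0) h1

end Pool.Agent.Lib.MP_775b3b_nt
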