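import Pool.Agent.Lib.MP_775b3b_nt.Defs

/-! Lower bound for the number of curves. -/

namespace Pool.Agent.Lib.MP_775b3b_nt

open Finset Classical in
/-- At least half of the integers in `[1, a]` are free of fourth powers. -/
theorem lower_free (a : ℕ) :
    (a : ℝ) ≤ 2 * ((Ioc 0 a).filter fun A => ∀ p : ℕ, p.Prime → ¬ p ^ 4 ∣ A).card := by
  rcases Nat.eq_zero_or_pos a with rfl | ha
  · simp
  have h1 := card_filter_add_card_filter_not (s := Ioc 0 a)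
    (fun A => ∀ p : ℕ, p.Prime → ¬ p ^ 4 ∣ A)
  rw [Nat.card_Ioc, Nat.sub_zero] at h1
  have h2 : ((Ioc 0 a).filter fun A => ¬ ∀ p : ℕ, p.Prime → ¬ p ^ 4 ∣ A) ⊆
      (Ioc 1 a).biUnion fun d => (Ioc 0 a).filter fun A => d ^ 4 ∣ A := by
    intro A hA
    obtain ⟨hA1, hA2⟩ := mem_filter.1 hA
    push Not at hA2
    obtain ⟨p, hp, hpA⟩ := hA2
    obtain ⟨h3, h4⟩ := mem_Ioc.1 hA1
    refine mem_biUnion.2 ⟨p, mem_Ioc.2 ⟨hp.one_lt, ?_⟩, mem_filter.2 ⟨hA1, hpA⟩⟩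
    exact ((Nat.le_self_pow (by norm_num) p).trans (Nat.le_of_dvd h3 hpA)).trans h4
  have h3 := (card_le_card h2).trans card_biUnion_le
  simp only [Nat.Ioc_filter_dvd_card_eq_div] at h3
  have h4 : ((∑ d ∈ Ioc 1 a, a / d ^ 4 : ℕ) : ℝ) ≤ a / 4 * ∑ d ∈ Ioc 1 a, ((d : ℝ) ^ 2)⁻¹ := by
    rw [Nat.cast_sum, mul_sum]
    refine sum_le_sum fun d hd => Nat.cast_div_le.trans ?_
    have h5 : (2 : ℝ) ≤ d := by exact_mod_cast (mem_Ioc.1 hd).1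
    have h6 : (4 : ℝ) ≤ (d : ℝ) ^ 2 := by nlinarith
    have h7 : (0 : ℝ) < (d : ℝ) ^ 2 := by positivity
    rw [Nat.cast_pow, ← div_eq_mul_inv, div_div]
    refine div_le_div_of_nonneg_left (Nat.cast_nonneg _) (by positivity) ?_
    nlinarith
  have h5 := sum_Ioc_inv_sq_le_sub (α := ℝ) (k := 1) (n := a) one_ne_zero ha
  have h6 : (0 : ℝ) ≤ (a : ℝ)⁻¹ := by positivity
  have h7 : ∑ d ∈ Ioc 1 a, ((d : ℝ) ^ 2)⁻¹ ≤ 1 := by
    simp only [Nat.cast_one, inv_one] at h5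
    linarith
  have h8 : (a : ℝ) / 4 * ∑ d ∈ Ioc 1 a, ((d : ℝ) ^ 2)⁻¹ ≤ a / 4 * 1 :=
    mul_le_mul_of_nonneg_left h7 (by positivity)
  have h9 := (Nat.cast_le (α := ℝ)).2 h3
  have h10 := congrArg (Nat.cast : ℕ → ℝ) h1
  rw [Nat.cast_add] at h10
  have h11 : (0 : ℝ) ≤ a := Nat.cast_nonneg _
  linarith

/-- Let `T` be the least natural number `≥ 1` with `X ≤ T^6` (so `S ⊆ box T`).  If `T ≥ 7`, put
`U = T - 1`, so `U^6 < X`, `a = U^2 / 2`, `b = U^3 / 6` (natural division): all `1 ≤ A ≤ a`,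
`1 ≤ B ≤ b` have height `< X` and `disc > 0`; the non minimal ones number at most
`∑ d ≥ 2, (a / d^4) (b / d^6) ≤ a b / 2`; so `card S ≥ a b / 2 ≥ T^5 / c`.  If `T ≤ 6` use
`1 ≤ card S`. -/
theorem exists_box : ∃ c : ℝ, 0 ≤ c ∧ ∀ (X : ℝ) (S : Finset (ℤ × ℤ)),
    (∀ e : ℤ × ℤ, e ∈ S ↔ 4 * e.1 ^ 3 + 27 * e.2 ^ 2 ≠ 0 ∧
      (∀ p : ℕ, p.Prime → ¬ ((p : ℤ) ^ 4 ∣ e.1 ∧ (p : ℤ) ^ 6 ∣ e.2)) ∧
      ((max (4 * |e.1| ^ 3) (27 * e.2 ^ 2) : ℤ) : ℝ) < X) → S.Nonempty →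
    ∃ T : ℕ, 1 ≤ T ∧ S ⊆ box T ∧ (T : ℝ) ^ 5 ≤ c * S.card := by
  classical
  refine ⟨7776, by norm_num, fun X S hS hne => ?_⟩
  have hex : ∃ T : ℕ, 1 ≤ T ∧ X ≤ (T : ℝ) ^ 6 := by
    refine ⟨⌈X⌉₊ + 1, by omega, ?_⟩
    have h1 : (1 : ℝ) ≤ ((⌈X⌉₊ + 1 : ℕ) : ℝ) := by exact_mod_cast Nat.le_add_left 1 _
    refine le_trans ?_ (le_self_pow₀ h1 (by norm_num))
    push_cast
    linarith [Nat.le_ceil X]
  obtain ⟨hT1, hTX⟩ := Nat.find_spec hex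
  have hmin := fun U => Nat.find_min hex (m := U)
  generalize Nat.find hex = T at hT1 hTX hmin
  refine ⟨T, hT1, fun e he => ?_, ?_⟩
  · obtain ⟨h1, -, h3⟩ := (hS e).1 he
    have h4 : max (4 * |e.1| ^ 3) (27 * e.2 ^ 2) < (T : ℤ) ^ 6 := by
      exact_mod_cast h3.trans_le hTX
    obtain ⟨h5, h6⟩ := max_lt_iff.1 h4
    refine mem_box.2 ⟨?_, ?_, h1⟩
    · refine le_of_pow_le_pow_left₀ (n := 3) (by norm_num) (by positivity) ?_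
      have h7 : 0 ≤ |e.1| ^ 3 := by positivity
      nlinarith
    · refine le_of_pow_le_pow_left₀ (n := 2) (by norm_num) (by positivity) ?_
      rw [sq_abs]
      have h7 : 0 ≤ e.2 ^ 2 := by positivity
      nlinarith
  have hc1 : (1 : ℝ) ≤ S.card := by exact_mod_cast hne.card_pos
  by_cases hT : T ≤ 6
  · have h1 : (T : ℝ) ≤ 6 := by exact_mod_cast hT
    have h2 : (T : ℝ) ^ 5 ≤ 6 ^ 5 := pow_le_pow_left₀ (Nat.cast_nonneg _) h1 5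
    linarith
  obtain ⟨U, rfl⟩ : ∃ U, T = U + 1 := ⟨T - 1, by omega⟩
  have hU : 6 ≤ U := by omega
  have hUX : (U : ℝ) ^ 6 < X := by
    by_contra h
    exact hmin U (Nat.lt_succ_self U) ⟨by omega, not_lt.1 h⟩
  obtain ⟨a, ha⟩ : ∃ a, a = U ^ 2 / 2 := ⟨_, rfl⟩
  obtain ⟨b, hb⟩ : ∃ b, b = U ^ 3 / 6 := ⟨_, rfl⟩
  have ha1 : 2 * a ≤ U ^ 2 := ha ▸ Nat.mul_div_le _ _
  have hb1 : 6 * b ≤ U ^ 3 := hb ▸ Nat.mul_div_le _ _
  have hU2 : 6 ^ 2 ≤ U ^ 2 := Nat.pow_le_pow_left hU 2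
  have hU3 : 6 ^ 3 ≤ U ^ 3 := Nat.pow_le_pow_left hU 3
  have ha2 : U ^ 2 ≤ 4 * a := by omega
  have hb2 : U ^ 3 ≤ 12 * b := by omega
  obtain ⟨F, hF⟩ : ∃ F, F = (Finset.Ioc 0 a).filter fun A => ∀ p : ℕ, p.Prime → ¬ p ^ 4 ∣ A :=
    ⟨_, rfl⟩
  have hFa : (a : ℝ) ≤ 2 * F.card := by
    rw [hF]
    convert lower_free a
  have hcard : (F ×ˢ Finset.Ioc 0 b).card ≤ S.card := by
    refine Finset.card_le_card_of_injOn (fun x => ((x.1 : ℤ), (x.2 : ℤ))) (fun x hx => ?_)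
      fun x _ y _ hxy => ?_
    · obtain ⟨hx1, hx2⟩ := Finset.mem_product.1 (Finset.mem_coe.1 hx)
      rw [hF] at hx1
      obtain ⟨hx3, hx4⟩ := Finset.mem_filter.1 hx1
      obtain ⟨h1, h2⟩ := Finset.mem_Ioc.1 hx3
      obtain ⟨h3, h4⟩ := Finset.mem_Ioc.1 hx2
      refine Finset.mem_coe.2 ((hS _).2 ⟨?_, fun p hp h => hx4 p hp ?_, ?_⟩)
      · have h5 : (0 : ℤ) < x.1 := by exact_mod_cast h1
        positivity
      · have h5 : (p : ℤ) ^ 4 ∣ (x.1 : ℤ) := h.1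
        exact_mod_cast h5
      · refine lt_of_le_of_lt ?_ hUX
        have h5 : (2 * x.1) ^ 3 ≤ (U ^ 2) ^ 3 := Nat.pow_le_pow_left (by omega) 3
        have h6 : (6 * x.2) ^ 2 ≤ (U ^ 3) ^ 2 := Nat.pow_le_pow_left (by omega) 2
        have h7 : 4 * x.1 ^ 3 ≤ U ^ 6 := by nlinarith
        have h8 : 27 * x.2 ^ 2 ≤ U ^ 6 := by nlinarith
        have h9 : max (4 * |(x.1 : ℤ)| ^ 3) (27 * (x.2 : ℤ) ^ 2) ≤ (U : ℤ) ^ 6 := by
          rw [Nat.abs_cast]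
          exact max_le (by exact_mod_cast h7) (by exact_mod_cast h8)
        have h10 := (Int.cast_le (R := ℝ)).2 h9
        rw [Int.cast_pow, Int.cast_natCast] at h10
        exact h10
    · obtain ⟨h1, h2⟩ := Prod.mk.inj hxy
      exact Prod.ext (by exact_mod_cast h1) (by exact_mod_cast h2)
  rw [Finset.card_product, Nat.card_Ioc, Nat.sub_zero] at hcard
  have h1 : (F.card : ℝ) * b ≤ S.card := by exact_mod_cast hcard
  have h2 : (U : ℝ) ^ 2 ≤ 4 * a := by exact_mod_cast ha2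
  have h3 : (U : ℝ) ^ 3 ≤ 12 * b := by exact_mod_cast hb2
  have h4 : (6 : ℝ) ≤ U := by exact_mod_cast hU
  have h5 : (U : ℝ) ^ 2 * U ^ 3 ≤ (8 * F.card) * (12 * b) :=
    mul_le_mul (by linarith) h3 (by positivity) (by positivity)
  have h6 : ((U + 1 : ℕ) : ℝ) ^ 5 ≤ (2 * U) ^ 5 :=
    pow_le_pow_left₀ (Nat.cast_nonneg _) (by push_cast; linarith) 5
  nlinarith

end Pool.Agent.Lib.MP_775b3b_nt
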