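import Pool.Agent.Lib.MP_775b3b_nt.OrdP

/-! Classes of points are unramified at good primes. -/

namespace Pool.Agent.Lib.MP_775b3b_nt

open Cub MP_439fea_co

variable {e : ℤ × ℤ} {F : Type*} [Field F]

theorem ptsel_not_mem {S : Type*} [CommRing S] {d d' b D w t k s : S} (h1 : d * d' = b ^ 2)
    (h2 : D = d' + d * w) (h3 : (t * D + (1 - t) * b) * k = 1) (m : Ideal S) (hm : m.IsMaximal)
    (hs : (d ∈ m → s ∈ m) ∧ (d ∉ m → 1 - s ∈ m)) :
    s ^ 2 * d + 2 * s * (1 - s) * b + (1 - s) ^ 2 * d' ∉ m := by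
  intro hu
  have hp := hm.isPrime
  have h0 : ¬ (s ∈ m ∧ 1 - s ∈ m) := fun h => hp.ne_top ((Ideal.eq_top_iff_one m).2 (by
    simpa using m.add_mem h.1 h.2))
  by_cases hd : d ∈ m
  · have hs1 := hs.1 hd
    have h4 : (1 - s) ^ 2 * d' ∈ m := by
      have := m.sub_mem hu (m.mul_mem_right (s * d + 2 * (1 - s) * b) hs1)
      rwa [show s ^ 2 * d + 2 * s * (1 - s) * b + (1 - s) ^ 2 * d' - s * (s * d + 2 * (1 - s) * b) =
        (1 - s) ^ 2 * d' by ring] at this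
    have h5 : d' ∈ m := (hp.mem_or_mem h4).resolve_left fun h => h0 ⟨hs1, hp.mem_of_pow_mem 2 h⟩
    have h6 : b ∈ m := hp.mem_of_pow_mem 2 (h1 ▸ m.mul_mem_right _ hd)
    have h7 : D ∈ m := h2 ▸ m.add_mem h5 (m.mul_mem_right _ hd)
    refine hp.ne_top ((Ideal.eq_top_iff_one m).2 ?_)
    rw [← h3]
    exact m.mul_mem_right _ (m.add_mem (m.mul_mem_left _ h7) (m.mul_mem_left _ h6))
  · have hs1 := hs.2 hd
    have h4 : s ^ 2 * d ∈ m := by
      have := m.sub_mem hu (m.mul_mem_right (2 * s * b + (1 - s) * d') hs1)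
      rwa [show s ^ 2 * d + 2 * s * (1 - s) * b + (1 - s) ^ 2 * d' -
        (1 - s) * (2 * s * b + (1 - s) * d') = s ^ 2 * d by ring] at this
    exact h0 ⟨hp.mem_of_pow_mem 2 ((hp.mem_or_mem h4).resolve_right hd), hs1⟩

theorem ptsel_val_int (v : Valuation F (WithZero (Multiplicative ℤ))) (n : ℤ) : v (n : F) ≤ 1 := by
  obtain ⟨m, rfl | rfl⟩ := Int.eq_nat_or_neg n
  · simpa using val_nat_le_one v m
  · simpa using val_nat_le_one v m

theorem ptsel_big (v : Valuation F (WithZero (Multiplicative ℤ))) {x y : F}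
    (hxy : y ^ 2 = x ^ 3 + (e.1 : F) * x + (e.2 : F)) (hx : 1 < v x) : v y ^ 2 = v x ^ 3 := by
  have h1 : v ((e.1 : F) * x + (e.2 : F)) < v (x ^ 3) := by
    have h2 : v x < v x ^ 3 := lt_self_pow₀ hx (by norm_num)
    rw [map_pow]
    refine lt_of_le_of_lt (v.map_add_le ?_ ((ptsel_val_int v _).trans hx.le)) h2
    rw [map_mul]
    exact mul_le_of_le_one_left' (ptsel_val_int v _)
  rw [← map_pow, hxy, add_assoc, v.map_add_eq_of_lt_left h1, map_pow]

theorem ptsel_small (v : Valuation F (WithZero (Multiplicative ℤ))) {x y : F}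
    (hxy : y ^ 2 = x ^ 3 + (e.1 : F) * x + (e.2 : F)) (hx : v x ≤ 1) : v y ≤ 1 := by
  have h1 : v y ^ 2 ≤ 1 := by
    rw [← map_pow, hxy]
    refine v.map_add_le (v.map_add_le ?_ ?_) (ptsel_val_int v _)
    · rw [map_pow]; exact pow_le_one₀ zero_le hx
    · rw [map_mul]; exact mul_le_one' (ptsel_val_int v _) hx
  exact (pow_le_one_iff two_ne_zero).1 h1

theorem ptsel_le_exp {γ : WithZero (Multiplicative ℤ)} (h : γ < 1) : γ ≤ WithZero.exp (-1 : ℤ) := by
  rcases eq_or_ne γ 0 with rfl | h0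
  · exact zero_le
  · rw [← WithZero.exp_log h0, ← WithZero.exp_zero, WithZero.exp_lt_exp] at h
    rw [← WithZero.exp_log h0, WithZero.exp_le_exp]
    omega

theorem ptsel_exp_lt : WithZero.exp (-1 : ℤ) < 1 := by
  rw [← WithZero.exp_zero, WithZero.exp_lt_exp]
  norm_num

theorem ptsel_disc [NumberField F] {N : ℕ} (hU : Unr F N) {p : Nat.Primes} (hp : ¬ Bad N e p)
    (v : P F) (hv : val v ((p : ℕ) : F) < 1) :
    WithZero.exp (-1 : ℤ) ≤ val v ((disc e : ℤ) : F) := by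
  have h1 : ¬ (p : ℕ) ∣ N := fun h => hp (Or.inl h)
  have h2 : ¬ (p : ℕ) ^ 2 ∣ (disc e).natAbs := fun h => hp (Or.inr (by
    have := Int.natCast_dvd_natCast.2 h
    rwa [Int.dvd_natAbs, Nat.cast_pow] at this))
  have h3 : val v ((disc e : ℤ) : F) = val v (((disc e).natAbs : ℕ) : F) := by
    rcases Int.natAbs_eq (disc e) with h | h
    · conv_lhs => rw [h]
      simp
    · conv_lhs => rw [h]
      simp
  rw [h3]
  have h4 : ∀ n : ℕ, ¬ (p : ℕ) ∣ n → val v (n : F) = 1 := fun n hn =>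
    le_antisymm (val_natCast_le_one v n)
      (not_lt.1 fun h => hn ((val_natCast_lt_one_iff v p.2 hv n).1 h))
  by_cases h5 : (p : ℕ) ∣ (disc e).natAbs
  · obtain ⟨m, hm⟩ := h5
    have h6 : ¬ (p : ℕ) ∣ m := fun h => h2 (by
      rw [hm, sq]; exact Nat.mul_dvd_mul_left _ h)
    rw [hm, Nat.cast_mul, map_mul, h4 m h6, mul_one, hU v p h1 hv]
  · rw [h4 _ h5]
    exact ptsel_exp_lt.le

theorem ptsel_or (v : Valuation F (WithZero (Multiplicative ℤ))) {a b c : F}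
    (h : b ^ 2 = a ^ 3 + (e.1 : F) * a * c ^ 4 + (e.2 : F) * c ^ 6)
    (hd : WithZero.exp (-1 : ℤ) ≤ v ((disc e : ℤ) : F)) (ha : v a ≤ 1) (hc : v c = 1)
    (hb : v b < 1) (hD : v (3 * a ^ 2 + (e.1 : F) * c ^ 4) < 1) : False := by
  set D := 3 * a ^ 2 + (e.1 : F) * c ^ 4 with hD'
  have h1 : c ^ 12 * ((disc e : ℤ) : F) = D ^ 2 * (((4 : ℤ) : F) * D - ((9 : ℤ) : F) * a ^ 2) +
      b ^ 2 * (((27 : ℤ) : F) * b ^ 2 + ((108 : ℤ) : F) * a ^ 3 - ((54 : ℤ) : F) * (a * D)) := by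
    rw [h, hD']
    simp only [disc]
    push_cast
    ring
  have hi : ∀ (n : ℤ) (z : F), v z ≤ 1 → v ((n : F) * z) ≤ 1 := fun n z hz => by
    rw [map_mul]; exact mul_le_one' (ptsel_val_int v n) hz
  have hq : ∀ (n : ℕ) (z : F), v z ≤ 1 → v (z ^ n) ≤ 1 := fun n z hz => by
    rw [map_pow]; exact pow_le_one₀ zero_le hz
  have hs : ∀ z w : F, v z < 1 → v w ≤ 1 → v (z ^ 2 * w) ≤ WithZero.exp (-1 : ℤ) ^ 2 :=
    fun z w hz hw => by
      rw [map_mul, map_pow]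
      exact (mul_le_of_le_one_right' hw).trans (pow_le_pow_left₀ zero_le (ptsel_le_exp hz) 2)
  have h2 : v (c ^ 12 * ((disc e : ℤ) : F)) ≤ WithZero.exp (-1 : ℤ) ^ 2 := by
    rw [h1]
    refine v.map_add_le (hs _ _ hD (v.map_sub_le (hi _ _ hD.le) (hi _ _ (hq _ _ ha))))
      (hs _ _ hb (v.map_sub_le (v.map_add_le (hi _ _ (hq _ _ hb.le)) (hi _ _ (hq _ _ ha)))
        (hi _ _ ?_)))
    rw [map_mul]; exact mul_le_one' ha hD.le
  rw [map_mul, map_pow, hc, one_pow, one_mul] at h2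
  have h3 := hd.trans h2
  rw [sq, ← WithZero.exp_add, WithZero.exp_le_exp] at h3
  omega

theorem ptsel_c [NumberField F] (p : Nat.Primes) {x y : F}
    (hxy : y ^ 2 = x ^ 3 + (e.1 : F) * x + (e.2 : F)) :
    ∃ c : F, c ≠ 0 ∧ ∀ v : P F, val v ((p : ℕ) : F) < 1 → val v c ≤ 1 ∧ val v (x * c ^ 2) ≤ 1 ∧
      val v (y * c ^ 3) ≤ 1 ∧ (val v c = 1 ∨ val v (y * c ^ 3) = 1) := by
  classical
  obtain ⟨c, hc, -⟩ := approx (finite_over_prime (k := F) p).toFinset
    (fun v => if 1 < val v x then y / x else 1) (WithZero.exp (-1 : ℤ)) WithZero.exp_ne_zero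
  have key : ∀ v : P F, val v ((p : ℕ) : F) < 1 → ∀ z : F, 1 ≤ val v z →
      (if 1 < val v x then y / x else 1) = z → val v c = val v z := by
    intro v hv z hz hz'
    have h1 := hc v (by simpa using hv)
    rw [hz'] at h1
    exact Valuation.map_eq_of_sub_lt _ ((h1.trans_lt ptsel_exp_lt).trans_le hz)
  have big : ∀ v : P F, val v ((p : ℕ) : F) < 1 → 1 < val v x →
      1 ≤ val v c ∧ val v c ^ 2 = val v x ∧ val v c ^ 3 = val v y := by
    intro v hv hx
    have h0 : val v x ≠ 0 := (zero_lt_one.trans hx).ne'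
    have h1 := ptsel_big (val v) hxy hx
    have h2 : val v (y / x) ^ 2 = val v x := by
      rw [map_div₀, div_pow, h1, div_eq_iff (pow_ne_zero _ h0), ← pow_succ']
    have h3 : 1 ≤ val v (y / x) := (one_le_pow_iff two_ne_zero).1 (h2 ▸ hx.le)
    have h4 := key v hv _ h3 (if_pos hx)
    rw [h4]
    refine ⟨h3, h2, ?_⟩
    rw [pow_succ, h2, map_div₀, mul_div_cancel₀ _ h0]
  have small : ∀ v : P F, val v ((p : ℕ) : F) < 1 → ¬ 1 < val v x → val v c = 1 := by
    intro v hv hx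
    simpa using key v hv 1 (by simp) (if_neg hx)
  have hc0 : c ≠ 0 := by
    obtain ⟨v, hv⟩ := exists_over_prime F p.2
    rintro rfl
    by_cases hx : 1 < val v x
    · simpa using (big v hv hx).1
    · simpa using small v hv hx
  refine ⟨c⁻¹, inv_ne_zero hc0, fun v hv => ?_⟩
  have h0 : val v c ≠ 0 := (Valuation.ne_zero_iff _).2 hc0
  simp only [map_mul, map_pow, map_inv₀]
  by_cases hx : 1 < val v x
  · obtain ⟨h1, h2, h3⟩ := big v hv hx
    have h4 : val v y * (val v c)⁻¹ ^ 3 = 1 := by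
      rw [← h3, ← mul_pow, mul_inv_cancel₀ h0, one_pow]
    refine ⟨inv_le_one_of_one_le₀ h1, le_of_eq ?_, h4.le, Or.inr h4⟩
    rw [← h2, ← mul_pow, mul_inv_cancel₀ h0, one_pow]
  · rw [small v hv hx]
    simp only [inv_one, one_pow, mul_one]
    exact ⟨le_rfl, not_lt.1 hx, ptsel_small (val v) hxy (not_lt.1 hx), Or.inl trivial⟩

theorem ptsel_comb [NumberField F] (p : Nat.Primes) {b D : F} (hb : b ∈ intP p F)
    (hD : D ∈ intP p F)
    (h : ∀ v : P F, val v ((p : ℕ) : F) < 1 → val v b < 1 → val v D < 1 → False) :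
    ∃ t ∈ intP p F, ∃ k ∈ intP p F, (t * D + (1 - t) * b) * k = 1 := by
  classical
  obtain ⟨t, ht, -⟩ := approx (finite_over_prime (k := F) p).toFinset
    (fun v => if val v b < 1 then 1 else 0) (WithZero.exp (-1 : ℤ)) WithZero.exp_ne_zero
  have key : ∀ v : P F, val v ((p : ℕ) : F) < 1 →
      val v t ≤ 1 ∧ val v (t * D + (1 - t) * b) = 1 := by
    intro v hv
    have h1 := (ht v (by simpa using hv)).trans_lt ptsel_exp_lt
    have hb1 := mem_intP_iff_val.1 hb v hv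
    have hD1 := mem_intP_iff_val.1 hD v hv
    have h2 : val v (D - b) ≤ 1 := Valuation.map_sub_le _ hD1 hb1
    by_cases hc : val v b < 1
    · rw [if_pos hc] at h1
      have h3 : val v D = 1 := le_antisymm hD1 (not_lt.1 (h v hv hc))
      constructor
      · have := Valuation.map_add_le (val v) h1.le (show val v 1 ≤ 1 by simp)
        simpa using this
      · rw [← h3]
        apply Valuation.map_eq_of_sub_lt
        rw [h3, show t * D + (1 - t) * b - D = (t - 1) * (D - b) by ring, map_mul]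
        exact (mul_le_of_le_one_right' h2).trans_lt h1
    · rw [if_neg hc, sub_zero] at h1
      have h3 : val v b = 1 := le_antisymm hb1 (not_lt.1 hc)
      refine ⟨h1.le, ?_⟩
      rw [← h3]
      apply Valuation.map_eq_of_sub_lt
      rw [h3, show t * D + (1 - t) * b - b = t * (D - b) by ring, map_mul]
      exact (mul_le_of_le_one_right' h2).trans_lt h1
  refine ⟨t, mem_intP_iff_val.2 fun v hv => (key v hv).1, (t * D + (1 - t) * b)⁻¹,
    mem_intP_iff_val.2 fun v hv => by rw [map_inv₀, (key v hv).2, inv_one], mul_inv_cancel₀ ?_⟩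
  obtain ⟨v, hv⟩ := exists_over_prime F p.2
  intro h0
  have := (key v hv).2
  rw [h0, map_zero] at this
  exact zero_ne_one this

/-- Good `p`.  For `v ∣ p` with `1 < val v x`: `val v y ^ 2 = val v x ^ 3`, so `val v x` is a square;
by `approx` find `c` with `val v c ^ 2 * val v x = 1` there, and `val v c = 1` at the other `v ∣ p`.
`a = x c^2`, `b = y c^3`, `D = 3 a^2 + A c^4` lie in `intP p F`, `b^2 = a^3 + A a c^4 + B c^6`.
At each `v ∣ p`, `val v D = 1` or `val v b = 1`: if `val v c < 1` then `val v a = 1 = val v b`;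
otherwise use `- c^12 disc = 9 a^2 D^2 - 4 D^3 - 108 a^3 b^2 + 54 a D b^2 - 27 b^4` and `Unr`.
So `κ = t D + (1 - t) b` is a unit of `intP p F` for a `t` from `approx`.
In `S = intP p (Cub e F)`: `d' = c^2 d = a - c^2 θ`, `d'' = adj d' = a^2 + A c^4 + a c^2 θ + c^4 θ^2`,
`d' d'' = b^2`, `D = d'' + d' (2 a + c^2 θ)`.  With `s` from `exists_sep d'`, `z = s d' + (1 - s) b`,
`z^2 = d' u`, `u = s^2 d' + 2 s (1 - s) b + (1 - s)^2 d''`, and `u` is in no maximal ideal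
(if `d', d''` are both in it then so are `b`, `D`, `κ`).  So `d (c / z)^2 = u⁻¹`. -/
theorem pt_mem_Sel [NumberField F] {N : ℕ} (hU : Unr F N) {x y : F}
    (hxy : y ^ 2 = x ^ 3 + (e.1 : F) * x + (e.2 : F)) (hy : y ≠ 0) (d : (Cub e F)ˣ)
    (hdx : (d : Cub e F) = algebraMap F (Cub e F) x - th) : d ∈ Sel N e F := by
  refine mem_Sel.2 ⟨⟨y, by rw [hdx, nm_x_sub_th, hxy]⟩, fun p hp => ?_⟩
  obtain ⟨c, hc0, hc⟩ := ptsel_c p hxy
  have hcm : c ∈ intP p F := mem_intP_iff_val.2 fun v hv => (hc v hv).1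
  have ham : x * c ^ 2 ∈ intP p F := mem_intP_iff_val.2 fun v hv => (hc v hv).2.1
  have hbm : y * c ^ 3 ∈ intP p F := mem_intP_iff_val.2 fun v hv => (hc v hv).2.2.1
  set a := x * c ^ 2 with ha
  set b := y * c ^ 3 with hb
  have hab : b ^ 2 = a ^ 3 + (e.1 : F) * a * c ^ 4 + (e.2 : F) * c ^ 6 := by
    rw [ha, hb]
    linear_combination c ^ 6 * hxy
  have hDm : 3 * a ^ 2 + (e.1 : F) * c ^ 4 ∈ intP p F :=
    add_mem (mul_mem (ofNat_mem _ 3) (pow_mem ham 2)) (mul_mem (intCast_mem _ _) (pow_mem hcm 4))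
  obtain ⟨t, ht, k, hk, htk⟩ := ptsel_comb p hbm hDm fun v hv h1 h2 =>
    ptsel_or (val v) hab (ptsel_disc hU hp v hv) (hc v hv).2.1
      ((hc v hv).2.2.2.resolve_right h1.ne) h1 h2
  let S := intP p (Cub e F)
  let i : F →+* Cub e F := algebraMap F (Cub e F)
  let A : S := ⟨i a, map_mem_intP i ham⟩
  let B : S := ⟨i b, map_mem_intP i hbm⟩
  let C : S := ⟨i c, map_mem_intP i hcm⟩
  let T : S := ⟨i t, map_mem_intP i ht⟩
  let K : S := ⟨i k, map_mem_intP i hk⟩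
  let θ : S := ⟨th, mem_intP_of_isIntegral isIntegral_th⟩
  have hθ : θ ^ 3 + (e.1 : S) * θ + (e.2 : S) = 0 := Subtype.ext th_cube
  have hAB : B ^ 2 = A ^ 3 + (e.1 : S) * A * C ^ 4 + (e.2 : S) * C ^ 6 := by
    apply Subtype.ext
    have := congrArg i hab
    simp only [map_add, map_mul, map_pow, map_intCast] at this
    exact this
  have hTK : (T * (3 * A ^ 2 + (e.1 : S) * C ^ 4) + (1 - T) * B) * K = 1 := by
    apply Subtype.ext
    have := congrArg i htk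
    simp only [map_add, map_mul, map_pow, map_intCast, map_sub, map_one, map_ofNat] at this
    exact this
  have h1 : (A - C ^ 2 * θ) * (A ^ 2 + (e.1 : S) * C ^ 4 + A * C ^ 2 * θ + C ^ 4 * θ ^ 2) =
      B ^ 2 := by linear_combination -hAB - C ^ 6 * hθ
  have h2 : 3 * A ^ 2 + (e.1 : S) * C ^ 4 =
      (A ^ 2 + (e.1 : S) * C ^ 4 + A * C ^ 2 * θ + C ^ 4 * θ ^ 2) +
        (A - C ^ 2 * θ) * (2 * A + C ^ 2 * θ) := by ring
  obtain ⟨s, hs⟩ := exists_sep (A - C ^ 2 * θ)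
  obtain ⟨u', hu', huu⟩ := exists_inv_of_forall _ fun m hm => ptsel_not_mem h1 h2 hTK m hm (hs m hm)
  set u := s ^ 2 * (A - C ^ 2 * θ) + 2 * s * (1 - s) * B +
    (1 - s) ^ 2 * (A ^ 2 + (e.1 : S) * C ^ 4 + A * C ^ 2 * θ + C ^ 4 * θ ^ 2) with hu
  have h3 : (s * (A - C ^ 2 * θ) + (1 - s) * B) ^ 2 = (A - C ^ 2 * θ) * u := by
    rw [hu]
    linear_combination -(1 - s) ^ 2 * h1
  set z := s * (A - C ^ 2 * θ) + (1 - s) * B with hz
  have h4 : ((A - C ^ 2 * θ : S) : Cub e F) = i c ^ 2 * d := by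
    rw [hdx]
    change i (x * c ^ 2) - i c ^ 2 * th = i c ^ 2 * (i x - th)
    rw [map_mul, map_pow]
    ring
  have h5 : (z : Cub e F) ^ 2 = i c ^ 2 * d * u := by
    rw [← h4]
    exact congrArg Subtype.val h3
  have h6 : i c * i c⁻¹ = 1 := by rw [← map_mul, mul_inv_cancel₀ hc0, map_one]
  have h7 : (d : Cub e F) * (d⁻¹ : (Cub e F)ˣ) = 1 := d.mul_inv
  have h8 : ((z : Cub e F) * i c⁻¹) ^ 2 = d * u := by
    rw [mul_pow, h5]
    linear_combination (d * u * (i c * i c⁻¹ + 1) : Cub e F) * h6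
  let W : (Cub e F)ˣ := Units.mkOfMulEqOne ((z : Cub e F) * i c⁻¹)
    ((z : Cub e F) * i c⁻¹ * u' * (d⁻¹ : (Cub e F)ˣ)) (by
      linear_combination (u' * (d⁻¹ : (Cub e F)ˣ)) * h8 + (u * u' : Cub e F) * h7 + huu)
  have h9 : ((d⁻¹ * W ^ 2 : (Cub e F)ˣ) : Cub e F) = u := by
    rw [Units.val_mul, Units.val_pow_eq_pow_val]
    change _ * ((z : Cub e F) * i c⁻¹) ^ 2 = _
    rw [h8]
    linear_combination (u : Cub e F) * h7
  rw [← (usq S).inv_mem_iff]
  refine ⟨W, h9 ▸ u.2, ?_⟩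
  rw [Units.inv_eq_of_mul_eq_one_right (h9 ▸ huu)]
  exact hu'

end Pool.Agent.Lib.MP_775b3b_nt
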