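import Pool.Agent.Lib.MP_775b3b_nt.Idx2
import Pool.Agent.Lib.MP_775b3b_nt.PtSel
import Pool.Agent.Lib.MP_651af7_nt.MW

/-! Two-descent: the rank is bounded by the size of `Sel / SQ`. -/

namespace Pool.Agent.Lib.MP_775b3b_nt

open Cub MP_439fea_co

/-- the curve `y^2 = x^3 + A x + B` -/
abbrev crv (e : ℤ × ℤ) (F : Type*) [Field F] : WeierstrassCurve F := ⟨0, 0, 0, e.1, e.2⟩

variable {e : ℤ × ℤ} {F : Type*} [Field F]

theorem crv_isElliptic [CharZero F] (hd : disc e ≠ 0) : (crv e F).IsElliptic := by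
  refine ⟨isUnit_iff_ne_zero.2 fun h0 => hd ?_⟩
  have h1 : (crv e F).Δ = -16 * (disc e : F) := by
    simp only [WeierstrassCurve.Δ, WeierstrassCurve.b₂, WeierstrassCurve.b₄, WeierstrassCurve.b₆,
      WeierstrassCurve.b₈, disc]
    push_cast
    ring
  rw [h1] at h0
  have h2 : (disc e : F) = 0 := (mul_eq_zero.1 h0).resolve_left (by norm_num)
  exact_mod_cast h2

theorem pt_eqn {x y : F} : (crv e F).toAffine.Equation x y ↔
    y ^ 2 = x ^ 3 + (e.1 : F) * x + (e.2 : F) := by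
  rw [WeierstrassCurve.Affine.equation_iff]
  simp

theorem pt_negY (x y : F) : (crv e F).toAffine.negY x y = -y := by
  simp [WeierstrassCurve.Affine.negY]

theorem pt_addX (x₁ x₂ l : F) : (crv e F).toAffine.addX x₁ x₂ l = l ^ 2 - x₁ - x₂ := by
  simp [WeierstrassCurve.Affine.addX]

open WeierstrassCurve.Affine WeierstrassCurve.Affine.Point in
theorem pt_half [CharZero F] [DecidableEq F] (hd : disc e ≠ 0) {x y : F}
    (h : (crv e F).toAffine.Nonsingular x y) {X w u : F} (h0 : X ^ 2 * x + (e.2 : F) = w ^ 2)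
    (h1 : (e.1 : F) - X ^ 2 - 2 * X * x = 2 * w * u) (h2 : 2 * X + x = u ^ 2) :
    ∃ Q : (crv e F).toAffine.Point, 2 • Q = .some x y h := by
  have := crv_isElliptic (F := F) hd
  have hE : (w + u * X) ^ 2 = X ^ 3 + (e.1 : F) * X + (e.2 : F) := by
    linear_combination -h0 - X * h1 - X ^ 2 * h2
  have hD : 3 * X ^ 2 + (e.1 : F) = 2 * u * (w + u * X) := by
    linear_combination h1 + 2 * X * h2
  have hY : w + u * X ≠ 0 := by
    intro hz
    rw [hz] at hE hD
    have hA : (e.1 : F) = -3 * X ^ 2 := by linear_combination hD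
    have hB : (e.2 : F) = 2 * X ^ 3 := by linear_combination -hE - X * hD
    apply hd
    have h3 : (disc e : F) = 0 := by
      simp only [disc]
      push_cast
      rw [hA, hB]
      ring
    exact_mod_cast h3
  have hns : (crv e F).toAffine.Nonsingular X (w + u * X) :=
    equation_iff_nonsingular.mp (pt_eqn.2 hE)
  have hd0 : (w + u * X) - (crv e F).toAffine.negY X (w + u * X) ≠ 0 := by
    rw [pt_negY, sub_neg_eq_add, ← two_mul]
    exact mul_ne_zero two_ne_zero hY
  have hy : w + u * X ≠ (crv e F).toAffine.negY X (w + u * X) := sub_ne_zero.mp hd0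
  have hsl : (crv e F).toAffine.slope X X (w + u * X) (w + u * X) = u := by
    rw [slope_of_Y_ne rfl hy, div_eq_iff hd0, pt_negY]
    simp only [mul_zero, zero_mul, add_zero, sub_zero]
    linear_combination hD
  have hx : (crv e F).toAffine.addX X X
      ((crv e F).toAffine.slope X X (w + u * X) (w + u * X)) = x := by
    rw [hsl, pt_addX]
    linear_combination -h2
  have hadd := add_self_of_Y_ne (h₁ := hns) hy
  rcases (X_eq_iff (h₁ := nonsingular_add hns hns fun hxy => hy hxy.right) (h₂ := h)).mp hx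
    with h' | h'
  · exact ⟨_, (two_nsmul _).trans (hadd.trans h')⟩
  · refine ⟨-some X (w + u * X) hns, ?_⟩
    rw [two_nsmul, ← neg_add, hadd, h', neg_neg]

/-- `x - θ = (c + b θ + a θ^2)^2` forces `a ≠ 0`.  With `x₁ = b / a`,
`(x₁ - θ)(c + b θ + a θ^2) = w + u θ`, so `(x₁ - X)^2 (x - X) - (w + u X)^2 = -(X^3 + A X + B)`
coefficientwise.  The point `(x₁, w + u x₁)` is on the curve, `w + u x₁ ≠ 0` (else `x₁` is a
double root and `disc e = 0`), its tangent has slope `u`, and its double is `(x, ± y)`.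
Compare `Split.halve` in `MP_651af7_nt/MWWeak.lean`. -/
theorem exists_half [CharZero F] [DecidableEq F] (hd : disc e ≠ 0) {x y : F}
    (h : (crv e F).toAffine.Nonsingular x y) {s : Cub e F}
    (hs : algebraMap F (Cub e F) x - th = s ^ 2) :
    ∃ Q : (crv e F).toAffine.Point, 2 • Q = .some x y h := by
  have e0 := congrArg Cub.c0 hs
  have e1 := congrArg Cub.c1 hs
  have e2 := congrArg Cub.c2 hs
  simp only [sq, sub_c0, sub_c1, sub_c2, mul_c0, mul_c1, mul_c2, algebraMap_c0, algebraMap_c1,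
    algebraMap_c2, th_c0, th_c1, th_c2, Algebra.algebraMap_self, RingHom.id_apply] at e0 e1 e2
  have ha : s.c2 ≠ 0 := by
    intro ha
    rw [ha] at e1 e2
    have hb : s.c1 = 0 := by
      have h3 : s.c1 ^ 2 = 0 := by linear_combination -e2
      exact pow_eq_zero_iff two_ne_zero |>.1 h3
    rw [hb] at e1
    have h4 : (1 : F) = 0 := by linear_combination -e1
    exact one_ne_zero h4
  obtain ⟨X, hX⟩ : ∃ X, s.c1 = X * s.c2 := ⟨s.c1 / s.c2, by field_simp⟩
  have hm : (algebraMap F (Cub e F) X - th) * s =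
      ⟨X * s.c0 + s.c2 * (e.2 : F), X * s.c1 - s.c0 + s.c2 * (e.1 : F), 0⟩ := by
    ext <;> simp [hX] <;> ring
  have hk : (algebraMap F (Cub e F) X - th) * (algebraMap F (Cub e F) X - th) *
      (algebraMap F (Cub e F) x - th) =
      (⟨X * s.c0 + s.c2 * (e.2 : F), X * s.c1 - s.c0 + s.c2 * (e.1 : F), 0⟩ : Cub e F) *
        ⟨X * s.c0 + s.c2 * (e.2 : F), X * s.c1 - s.c0 + s.c2 * (e.1 : F), 0⟩ := by
    rw [hs, ← hm]
    ring
  have k0 := congrArg Cub.c0 hk
  have k1 := congrArg Cub.c1 hk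
  have k2 := congrArg Cub.c2 hk
  simp only [sub_c0, sub_c1, sub_c2, mul_c0, mul_c1, mul_c2, algebraMap_c0, algebraMap_c1,
    algebraMap_c2, th_c0, th_c1, th_c2, Algebra.algebraMap_self, RingHom.id_apply] at k0 k1 k2
  exact pt_half hd h (X := X) (w := X * s.c0 + s.c2 * (e.2 : F))
    (u := X * s.c1 - s.c0 + s.c2 * (e.1 : F)) (by linear_combination k0)
    (by linear_combination k1) (by linear_combination k2)

open WeierstrassCurve.Affine in
theorem pt_collinear [DecidableEq F] {x₁ y₁ x₂ y₂ : F}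
    (h₁ : (crv e F).toAffine.Equation x₁ y₁) (h₂ : (crv e F).toAffine.Equation x₂ y₂)
    (hx : x₁ ≠ x₂) :
    ∃ t : Cub e F, (algebraMap F (Cub e F) x₁ - th) * (algebraMap F (Cub e F) x₂ - th) *
      (algebraMap F (Cub e F)
        ((crv e F).toAffine.addX x₁ x₂ ((crv e F).toAffine.slope x₁ x₂ y₁ y₂)) - th) = t ^ 2 := by
  rw [pt_eqn] at h₁ h₂
  have hx' : x₁ - x₂ ≠ 0 := sub_ne_zero.2 hx
  have hl : (crv e F).toAffine.slope x₁ x₂ y₁ y₂ * (x₁ - x₂) = y₁ - y₂ := by
    rw [slope_of_X_ne hx, div_mul_cancel₀ _ hx']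
  rw [pt_addX]
  generalize (crv e F).toAffine.slope x₁ x₂ y₁ y₂ = l at hl ⊢
  obtain rfl : y₂ = y₁ - l * (x₁ - x₂) := by linear_combination hl
  have hA : (e.1 : F) - (x₁ * x₂ + (x₁ + x₂) * (l ^ 2 - x₁ - x₂)) = 2 * l * (y₁ - l * x₁) := by
    apply mul_left_cancel₀ hx'
    linear_combination h₂ - h₁
  refine ⟨⟨y₁ - l * x₁, l, 0⟩, ?_⟩
  ext
  · simp [sq]
    linear_combination -h₁ - x₁ * hA
  · simp [sq]
    linear_combination hA
  · simp [sq]
    ring

/-- `W = 2 E + E[2]`.  Send a point `(x, y)`, `y ≠ 0`, to the class of the unit `x - θ`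
(`nm_x_sub_th`, `isUnit_iff`) in the finite quotient `H ⧸ SQ`, and `0` and the points with `y = 0`
to an extra element.  Points with the same image differ by an element of `W`: if `x₁ = x₂` then
`P = ± Q`; otherwise `R = P - Q = (x₃, y₃)` and `(x₁ - θ)(x₂ - θ)(x₃ - θ) = (m θ + c)^2` for the
line through `P` and `-Q`; if `y₃ = 0` then `R ∈ E[2]`, otherwise `x₃ - θ` is a square and
`exists_half` applies. -/
theorem exists_index_le [CharZero F] [DecidableEq F] (hd : disc e ≠ 0) (H : Subgroup (Cub e F)ˣ)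
    (hH : ∀ x y : F, y ^ 2 = x ^ 3 + (e.1 : F) * x + (e.2 : F) → y ≠ 0 → ∀ d : (Cub e F)ˣ,
      (d : Cub e F) = algebraMap F (Cub e F) x - th → d ∈ H) {n : ℕ} (hn : Bd (SQ e F) H n) :
    ∃ W : AddSubgroup (crv e F).toAffine.Point,
      (∀ x ∈ W, ∃ y t, x = 2 • y + t ∧ 2 • t = 0) ∧ W.index ≠ 0 ∧ W.index ≤ n + 1 := by
  classical
  let W : AddSubgroup (crv e F).toAffine.Point :=
    (nsmulAddMonoidHom (α := (crv e F).toAffine.Point) 2).range ⊔
      (nsmulAddMonoidHom (α := (crv e F).toAffine.Point) 2).ker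
  have mem₁ : ∀ Q : (crv e F).toAffine.Point, 2 • Q ∈ W := fun Q =>
    AddSubgroup.mem_sup_left ⟨Q, rfl⟩
  have mem₂ : ∀ Q : (crv e F).toAffine.Point, 2 • Q = 0 → Q ∈ W := fun Q hQ =>
    AddSubgroup.mem_sup_right hQ
  let Pr : Option (H ⧸ (SQ e F).subgroupOf H) → (crv e F).toAffine.Point → Prop := fun o P =>
    (o = none ∧ 2 • P = 0) ∨ ∃ x y hn, P = .some x y hn ∧ ∃ d : H,
      ((d : (Cub e F)ˣ) : Cub e F) = algebraMap F (Cub e F) x - th ∧
        o = some (QuotientGroup.mk d)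
  have cover : ∀ P, ∃ o, Pr o P := by
    rintro (_ | ⟨x, y, hn⟩)
    · exact ⟨none, Or.inl ⟨rfl, nsmul_zero 2⟩⟩
    · by_cases hy : y = 0
      · refine ⟨none, Or.inl ⟨rfl, ?_⟩⟩
        rw [two_nsmul]
        exact WeierstrassCurve.Affine.Point.add_self_of_Y_eq (by rw [pt_negY, hy, neg_zero])
      · have hE := pt_eqn.1 hn.1
        have hu : IsUnit (algebraMap F (Cub e F) x - th) := by
          rw [isUnit_iff, nm_x_sub_th, ← hE]
          exact pow_ne_zero 2 hy
        exact ⟨_, Or.inr ⟨x, y, hn, rfl, ⟨hu.unit, hH x y hE hy _ hu.unit_spec⟩, hu.unit_spec,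
          rfl⟩⟩
  have key : ∀ o P Q, Pr o P → Pr o Q → P - Q ∈ W := by
    rintro o P Q (⟨rfl, hP⟩ | ⟨x₁, y₁, n₁, rfl, d₁, a₁, rfl⟩) (⟨ho, hQ⟩ | ⟨x₂, y₂, n₂, rfl, d₂, a₂, ho⟩)
    · exact mem₂ _ (by rw [nsmul_sub, hP, hQ, sub_zero])
    · exact absurd ho (by simp)
    · exact absurd ho (by simp)
    · by_cases hx : x₁ = x₂
      · rcases (WeierstrassCurve.Affine.Point.X_eq_iff (h₁ := n₁) (h₂ := n₂)).mp hx with h' | h'
        · rw [h', sub_self]
          exact W.zero_mem
        · rw [← neg_eq_iff_eq_neg] at h'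
          rw [← h', sub_neg_eq_add, ← two_nsmul]
          exact mem₁ _
      · have hq := QuotientGroup.eq.1 (Option.some.inj ho)
        rw [Subgroup.mem_subgroupOf, Subgroup.mem_square] at hq
        obtain ⟨r, hr⟩ := hq
        have hr' : (d₂ : (Cub e F)ˣ) = d₁ * (r * r) := by
          rw [← hr]
          simp
        rw [sub_eq_add_neg, WeierstrassCurve.Affine.Point.neg_some,
          WeierstrassCurve.Affine.Point.add_of_X_ne hx]
        have n₂' : (crv e F).toAffine.Equation x₂ ((crv e F).toAffine.negY x₂ y₂) :=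
          (WeierstrassCurve.Affine.equation_neg ..).mpr n₂.1
        obtain ⟨t, ht⟩ := pt_collinear n₁.1 n₂' hx
        rw [← a₁, ← a₂, hr'] at ht
        obtain ⟨Q, hQ⟩ := exists_half hd
          (WeierstrassCurve.Affine.nonsingular_add n₁
            ((WeierstrassCurve.Affine.nonsingular_neg ..).mpr n₂) fun hxy => hx hxy.left)
          (s := t * (((d₁ : (Cub e F)ˣ) * r)⁻¹ : (Cub e F)ˣ)) (by
            have hi := Units.mul_inv ((d₁ : (Cub e F)ˣ) * r)
            rw [mul_pow, ← ht]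
            simp only [Units.val_mul] at hi ⊢
            linear_combination (-(algebraMap F (Cub e F) _ - th) *
              (((d₁ : (Cub e F)ˣ) : Cub e F) * r *
                ((((d₁ : (Cub e F)ˣ) * r)⁻¹ : (Cub e F)ˣ) : Cub e F) + 1)) * hi)
        rw [← hQ]
        exact mem₁ Q
  choose φ hφ using cover
  have hfin : Finite (H ⧸ (SQ e F).subgroupOf H) := Nat.finite_of_card_ne_zero hn.1
  have hinj : Function.Injective fun q : (crv e F).toAffine.Point ⧸ W => φ q.out := by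
    intro q q' hq
    have h1 := key _ _ _ (hφ q.out) (by rw [show φ q.out = φ q'.out from hq]; exact hφ q'.out)
    rw [← QuotientAddGroup.out_eq' q, ← QuotientAddGroup.out_eq' q']
    exact QuotientAddGroup.eq_iff_sub_mem.mpr h1
  have hfin' : Finite ((crv e F).toAffine.Point ⧸ W) := Finite.of_injective _ hinj
  refine ⟨W, fun x hx => ?_, Nat.card_pos.ne', ?_⟩
  · obtain ⟨_, ⟨y, rfl⟩, t, ht, rfl⟩ := AddSubgroup.mem_sup.1 hx
    exact ⟨y, t, rfl, ht⟩
  · have h1 := Nat.card_le_card_of_injective _ hinj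
    rw [Finite.card_option] at h1
    exact h1.trans (Nat.succ_le_succ hn.2)

theorem rank_le [NumberField F] [DecidableEq F] {N : ℕ} (hU : Unr F N) (hd : disc e ≠ 0) {m : ℕ}
    (h : Bd (SQ e F) (Sel N e F) (2 ^ m)) :
    Module.finrank ℤ (crv e F).toAffine.Point ≤ m + 1 := by
  have := crv_isElliptic (F := F) hd
  have : Module.Finite ℤ (crv e F).toAffine.Point :=
    Module.Finite.iff_addGroup_fg.mpr (Pool.Agent.MP_651af7_nt.MW.fg (crv e F))
  obtain ⟨W, h1, h2, h3⟩ := exists_index_le hd (Sel N e F)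
    (fun x y hxy hy d hdx => pt_mem_Sel hU hxy hy d hdx) h
  have h4 := (two_pow_finrank_le W h1 h2).trans h3
  have h5 : 2 ^ m + 1 ≤ 2 ^ (m + 1) := by
    have := Nat.one_le_two_pow (n := m)
    rw [pow_succ]
    omega
  exact (Nat.pow_le_pow_iff_right one_lt_two).1 (h4.trans h5)

end Pool.Agent.Lib.MP_775b3b_nt
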