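import Pool.Agent.Lib.MP_775b3b_nt.Hyp

/-! The second form determines the curve and the class. -/

namespace Pool.Agent.Lib.MP_775b3b_nt

open Cub

variable {e e' : ℤ × ℤ} {k : Type*} [Field k] [CharZero k] {d v0 v1 v2 : Cub e k} {ν : k}

omit [CharZero k] in
/-- the five numbers determining the second form -/
def gvec (d v0 v1 v2 : Cub e k) : Fin 5 → k :=
  ![Gv d v0 v0, Gv d v0 v1, Gv d v1 v1, Gv d v1 v2, Gv d v2 v2]

/-- interpolation of a binary quartic at five points -/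
theorem gvec_eq_of_quart {d' w0 w1 w2 : Cub e' k} {ν' : k} (h : Hyp d ν v0 v1 v2)
    (h' : Hyp d' ν' w0 w1 w2) (hq : ∀ m : Fin 5, quart d v0 v1 v2 (pt5 m).1 (pt5 m).2 =
      quart d' w0 w1 w2 (pt5 m).1 (pt5 m).2) : gvec d v0 v1 v2 = gvec d' w0 w1 w2 := by
  have e0 := hq 0
  have e1 := hq 1
  have e2 := hq 2
  have e3 := hq 3
  have e4 := hq 4
  rw [h.quart_eq, h'.quart_eq] at e0 e1 e2 e3 e4
  simp only [pt5, Matrix.cons_val_zero, Matrix.cons_val_one, Matrix.cons_val, Int.cast_one,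
    Int.cast_zero, Int.cast_neg, Int.cast_ofNat] at e0 e1 e2 e3 e4
  have g00 : Gv d v0 v0 = Gv d' w0 w0 := by linear_combination e0
  have g22 : Gv d v2 v2 = Gv d' w2 w2 := by linear_combination e1 / 4
  have g11 : Gv d v1 v1 = Gv d' w1 w1 := by
    linear_combination (e2 + e3 - 2 * e0 - 2 * e1) / 12
  have g12 : Gv d v1 v2 = Gv d' w1 w2 := by
    linear_combination (-3 * e0 + 12 * e1 + 3 * e2 + e3 - e4) / 48
  have g01 : Gv d v0 v1 = Gv d' w0 w1 := by
    linear_combination (e2 - e3) / 8 + 2 * g12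
  simp only [gvec, g00, g01, g11, g12, g22]

omit [CharZero k] in
/-- the linear map `vᵢ ↦ wᵢ` -/
def detPsi (d v0 v1 v2 : Cub e k) (w0 w1 w2 : Cub e' k) : Cub e k →ₗ[k] Cub e' k where
  toFun x := Bf d x v2 • w0 + Bf d x v1 • w1 + Bf d x v0 • w2
  map_add' x y := by
    simp only [Bf_add_left, add_smul]
    abel
  map_smul' a x := by
    simp only [Bf_smul_left, RingHom.id_apply, smul_add, mul_smul]

omit [CharZero k] in
theorem detPsi_apply (d v0 v1 v2 : Cub e k) (w0 w1 w2 : Cub e' k) (x : Cub e k) :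
    detPsi d v0 v1 v2 w0 w1 w2 x = Bf d x v2 • w0 + Bf d x v1 • w1 + Bf d x v0 • w2 := rfl

omit [CharZero k] in
theorem det_psi_basis (h : Hyp d ν v0 v1 v2) (w0 w1 w2 : Cub e' k) :
    detPsi d v0 v1 v2 w0 w1 w2 v0 = w0 ∧ detPsi d v0 v1 v2 w0 w1 w2 v1 = w1 ∧
      detPsi d v0 v1 v2 w0 w1 w2 v2 = w2 := by
  refine ⟨?_, ?_, ?_⟩
  · rw [detPsi_apply, h.h02, h.h01, h.h00]
    simp
  · rw [detPsi_apply, h.h12, h.h11, Bf_comm d v1 v0, h.h01]
    simp
  · rw [detPsi_apply, h.h22, Bf_comm d v2 v1, h.h12, Bf_comm d v2 v0, h.h02]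
    simp

omit [CharZero k] in
theorem det_psi_comb (h : Hyp d ν v0 v1 v2) (w0 w1 w2 : Cub e' k) (a b c : k) :
    detPsi d v0 v1 v2 w0 w1 w2 (a • v0 + b • v1 + c • v2) = a • w0 + b • w1 + c • w2 := by
  obtain ⟨p0, p1, p2⟩ := det_psi_basis h w0 w1 w2
  rw [map_add, map_add, map_smul, map_smul, map_smul, p0, p1, p2]

theorem det_psi_th {d' w0 w1 w2 : Cub e' k} {ν' : k} (h : Hyp d ν v0 v1 v2)
    (h' : Hyp d' ν' w0 w1 w2) (hg : gvec d v0 v1 v2 = gvec d' w0 w1 w2) (x : Cub e k) :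
    detPsi d v0 v1 v2 w0 w1 w2 (th * x) = th * detPsi d v0 v1 v2 w0 w1 w2 x := by
  have g00 : Gv d v0 v0 = Gv d' w0 w0 := congrFun hg 0
  have g01 : Gv d v0 v1 = Gv d' w0 w1 := congrFun hg 1
  have g11 : Gv d v1 v1 = Gv d' w1 w1 := congrFun hg 2
  have g12 : Gv d v1 v2 = Gv d' w1 w2 := congrFun hg 3
  have g22 : Gv d v2 v2 = Gv d' w2 w2 := congrFun hg 4
  have g02 : Gv d v0 v2 = Gv d' w0 w2 := by
    linear_combination (h.trace - h'.trace - g11) / 2
  have t0 : detPsi d v0 v1 v2 w0 w1 w2 (th * v0) = th * w0 := by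
    rw [detPsi_apply, h'.expand (th * w0)]
    simp only [← Gv_eq_Bf', g00, g01, g02]
  have t1 : detPsi d v0 v1 v2 w0 w1 w2 (th * v1) = th * w1 := by
    rw [detPsi_apply, h'.expand (th * w1)]
    simp only [← Gv_eq_Bf', g12, g11, Gv_comm d v1 v0, Gv_comm d' w1 w0, g01]
  have t2 : detPsi d v0 v1 v2 w0 w1 w2 (th * v2) = th * w2 := by
    rw [detPsi_apply, h'.expand (th * w2)]
    simp only [← Gv_eq_Bf', g22, Gv_comm d v2 v0, Gv_comm d' w2 w0, Gv_comm d v2 v1,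
      Gv_comm d' w2 w1, g02, g12]
  have hx : th * x = Bf d x v2 • (th * v0) + Bf d x v1 • (th * v1) + Bf d x v0 • (th * v2) := by
    conv_lhs => rw [h.expand x]
    simp only [mul_add, mul_smul_comm]
  rw [hx, map_add, map_add, map_smul, map_smul, map_smul, t0, t1, t2, detPsi_apply]
  simp only [mul_add, mul_smul_comm]

omit [CharZero k] in
theorem det_psi_iso {d' w0 w1 w2 : Cub e' k} {ν' : k} (h : Hyp d ν v0 v1 v2)
    (h' : Hyp d' ν' w0 w1 w2) (x y : Cub e k) :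
    Bf d' (detPsi d v0 v1 v2 w0 w1 w2 x) (detPsi d v0 v1 v2 w0 w1 w2 y) = Bf d x y := by
  have hy : Bf d x y = Bf d y v2 * Bf d x v0 + Bf d y v1 * Bf d x v1 + Bf d y v0 * Bf d x v2 := by
    conv_lhs => rw [h.expand y]
    simp only [Bf_add_right, Bf_smul_right]
  rw [hy, detPsi_apply, detPsi_apply]
  simp only [Bf_add_left, Bf_add_right, Bf_smul_left, Bf_smul_right, h'.h00, h'.h01, h'.h02,
    h'.h11, h'.h12, h'.h22, Bf_comm d' w1 w0, Bf_comm d' w2 w0, Bf_comm d' w2 w1]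
  ring

/-- `θ vᵢ = G(i,2) v0 + G(i,1) v1 + G(i,0) v2` with the same matrix `Θ` for both bases (use
`Hyp.trace` for `G(0,2)`).  `Θ^3 + A Θ + B = 0` and `Θ^3 + A' Θ + B' = 0`, so
`(A - A') θ x + (B - B') x = 0` for all `x`; take `x = 1`.  One way: the linear equivalences
`L, L' : (Fin 3 → k) ≃ Cub`, `ψ = L' ∘ L⁻¹` has `ψ (θ x) = θ ψ x`; apply it to `th_cube * x`. -/
theorem eq_of_gvec {d' w0 w1 w2 : Cub e' k} {ν' : k} (h : Hyp d ν v0 v1 v2)
    (h' : Hyp d' ν' w0 w1 w2) (hg : gvec d v0 v1 v2 = gvec d' w0 w1 w2) : e = e' := by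
  set ψ := detPsi d v0 v1 v2 w0 w1 w2 with hψ
  have hth : ∀ x, ψ (th * x) = th * ψ x := det_psi_th h h' hg
  set x : Cub e k := Bf d' 1 w2 • v0 + Bf d' 1 w1 • v1 + Bf d' 1 w0 • v2 with hx
  have h1 : ψ x = 1 := by
    rw [hψ, hx, det_psi_comb h]
    exact (h'.expand 1).symm
  have h2 : th * (th * (th * x)) + (e.1 : k) • (th * x) + (e.2 : k) • x = 0 := by
    have hc := th_cube (e := e) (k := k)
    rw [Int.cast_smul_eq_zsmul, Int.cast_smul_eq_zsmul, zsmul_eq_mul, zsmul_eq_mul]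
    linear_combination x * hc
  have h3 := congrArg ψ h2
  rw [map_add, map_add, map_smul, map_smul, hth, hth, hth, h1, map_zero] at h3
  have c0 := congrArg Cub.c0 h3
  have c1 := congrArg Cub.c1 h3
  simp at c0 c1
  have a1 : (e.1 : k) = (e'.1 : k) := by linear_combination c1
  have a2 : (e.2 : k) = (e'.2 : k) := by linear_combination c0
  exact Prod.ext (Int.cast_injective a1) (Int.cast_injective a2)

/-- the linear map `ψ : vᵢ ↦ wᵢ` commutes with `θ`, so it is multiplication by `r = ψ 1`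
(`eq_coords`), and it is an isometry: `(δ' r^2 x y).c2 = (δ x y).c2`, so `δ = δ' r^2` -/
theorem div_mem_SQ_of_gvec {δ δ' : (Cub e k)ˣ} {w0 w1 w2 : Cub e k} {ν' : k}
    (h : Hyp (δ : Cub e k) ν v0 v1 v2) (h' : Hyp (δ' : Cub e k) ν' w0 w1 w2)
    (hg : gvec (δ : Cub e k) v0 v1 v2 = gvec (δ' : Cub e k) w0 w1 w2) : δ / δ' ∈ SQ e k := by
  set ψ := detPsi (δ : Cub e k) v0 v1 v2 w0 w1 w2 with hψ
  have hth : ∀ x, ψ (th * x) = th * ψ x := det_psi_th h h' hg
  set r := ψ 1 with hr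
  have hmul : ∀ x, ψ x = x * r := by
    intro x
    have t1 : ψ th = th * r := by rw [hr, ← hth, mul_one]
    conv_lhs => rw [eq_coords x]
    conv_rhs => rw [eq_coords x]
    rw [map_add, map_add, map_smul, map_smul, map_smul, hth, t1, ← hr]
    simp only [add_mul, smul_mul_assoc, one_mul, mul_assoc]
  have hδ : (δ' : Cub e k) * (r * r) - δ = 0 := by
    refine eq_zero_of_c2 fun z => ?_
    have h1 := det_psi_iso h h' z 1
    rw [← hψ, hmul z, ← hr, Bf, Bf] at h1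
    have e1 : ((δ' : Cub e k) * (r * r) - δ) * z = δ' * (z * r) * r - δ * z * 1 := by ring
    rw [e1, sub_c2, h1, sub_self]
  have hδ' : (δ : Cub e k) = δ' * (r * r) := (sub_eq_zero.1 hδ).symm
  have hu : IsUnit r := by
    have h1 : IsUnit ((δ' : Cub e k) * (r * r)) := hδ' ▸ δ.isUnit
    exact isUnit_of_mul_isUnit_left (isUnit_of_mul_isUnit_right h1)
  obtain ⟨u, hu⟩ := hu
  rw [Subgroup.mem_square]
  refine ⟨u, ?_⟩
  rw [div_eq_iff_eq_mul]
  apply Units.ext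
  rw [Units.val_mul, Units.val_mul, hu, hδ', mul_comm]

end Pool.Agent.Lib.MP_775b3b_nt
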