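import Pool.Agent.Lib.MP_775b3b_nt.Defs

/-! Standard coordinates. -/

namespace Pool.Agent.Lib.MP_775b3b_nt

open Cub NumberField

variable {e : ℤ × ℤ} {k : Type*} [Field k]

section Coord

variable {T : ℝ}

theorem wc_add (x y : Cub e ℂ) : wc T (x + y) = wc T x + wc T y := by
  ext i
  fin_cases i <;> simp [wc] <;> ring

theorem wc_sub (x y : Cub e ℂ) : wc T (x - y) = wc T x - wc T y := by
  ext i
  fin_cases i <;> simp [wc] <;> ring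

theorem wc_smul (a : ℂ) (x : Cub e ℂ) : wc T (a • x) = a • wc T x := by
  ext i
  fin_cases i <;> simp [wc] <;> ring

theorem wc_conj (x : Cub e ℂ) (i : Fin 3) :
    wc T (map (starRingEnd ℂ) x) i = starRingEnd ℂ (wc T x i) := by
  fin_cases i <;> simp [wc, map_ofNat]

theorem sB_wc (hT : T ≠ 0) (x y : Cub e ℂ) : sB (wc T x) (wc T y) = (x * y).c2 := by
  have hT' : (T : ℂ) ≠ 0 := Complex.ofReal_ne_zero.2 hT
  simp [sB, wc]
  field_simp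
  ring

theorem sG_wc (hT : T ≠ 0) (x y : Cub e ℂ) :
    sG ((e.1 : ℂ) / T ^ 2) ((e.2 : ℂ) / T ^ 3) T (wc T x) (wc T y) = (th * x * y).c2 := by
  have hT' : (T : ℂ) ≠ 0 := Complex.ofReal_ne_zero.2 hT
  simp [sG, wc]
  field_simp
  ring

theorem sTri_wc (hT : T ≠ 0) (x y z : Cub e ℂ) :
    sTri ((e.1 : ℂ) / T ^ 2) ((e.2 : ℂ) / T ^ 3) T (wc T x) (wc T y) (wc T z) = (x * y * z).c2 := by
  have hT' : (T : ℂ) ≠ 0 := Complex.ofReal_ne_zero.2 hT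
  simp [sTri, wc]
  field_simp
  ring

theorem sCross_wc (hT : T ≠ 0) (x y : Cub e ℂ) : sCross (wc T x) (wc T y) = wc T (cross x y) := by
  have hT' : (T : ℂ) ≠ 0 := Complex.ofReal_ne_zero.2 hT
  ext i
  fin_cases i <;> simp [sCross, wc, cross] <;> field_simp <;> ring

theorem coord_mul_le (w w' : Fin 3 → ℂ) (i j : Fin 3) : ‖w i * w' j‖ ≤ ‖w‖ * ‖w'‖ := by
  rw [norm_mul]
  gcongr
  exacts [norm_le_pi_norm w i, norm_le_pi_norm w' j]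

theorem norm_sB_le (w w' : Fin 3 → ℂ) : ‖sB w w'‖ ≤ 3 * ‖w‖ * ‖w'‖ := by
  have h := coord_mul_le w w'
  calc _ ≤ ‖w‖ * ‖w'‖ + ‖w‖ * ‖w'‖ + ‖w‖ * ‖w'‖ :=
        norm_add_le_of_le (norm_add_le_of_le (h 0 2) (h 1 1)) (h 2 0)
    _ = _ := by ring

theorem norm_sG_le {a b : ℂ} (ha : ‖a‖ ≤ 1) (hb : ‖b‖ ≤ 1) (hT : 0 ≤ T) (w w' : Fin 3 → ℂ) :
    ‖sG a b T w w'‖ ≤ 4 * T * ‖w‖ * ‖w'‖ := by
  have h := coord_mul_le w w'
  have h1 : ‖a / 2 * (w 1 * w' 2 + w 2 * w' 1)‖ ≤ 1 / 2 * (‖w‖ * ‖w'‖ + ‖w‖ * ‖w'‖) := by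
    rw [norm_mul, norm_div, Complex.norm_two]
    gcongr
    exact norm_add_le_of_le (h 1 2) (h 2 1)
  have h2 : ‖b * (w 2 * w' 2)‖ ≤ 1 * (‖w‖ * ‖w'‖) := by
    rw [norm_mul]
    gcongr
    exact h 2 2
  rw [sG, norm_mul, Complex.norm_real, Real.norm_of_nonneg hT]
  refine (mul_le_mul_of_nonneg_left (norm_sub_le_of_le (norm_sub_le_of_le
    (norm_add_le_of_le (h 0 1) (h 1 0)) h1) h2) hT).trans_eq ?_
  ring

variable {d : Cub e k} {ν : k} {ε : (k →+* ℂ) → Cub e ℂ}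

theorem im_add (σ : k →+* ℂ) (x y : Cub e k) : im T ε σ (x + y) = im T ε σ x + im T ε σ y := by
  rw [im, map_add, mul_add, wc_add, im, im]

theorem im_sub (σ : k →+* ℂ) (x y : Cub e k) : im T ε σ (x - y) = im T ε σ x - im T ε σ y := by
  rw [im, map_sub, mul_sub, wc_sub, im, im]

theorem im_smul (σ : k →+* ℂ) (a : k) (x : Cub e k) : im T ε σ (a • x) = σ a • im T ε σ x := by
  rw [im, im, ← wc_smul]
  congr 1
  ext <;> simp <;> ring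

theorem Eps.im_conj (h : Eps d ν ε) (σ : k →+* ℂ) (x : Cub e k) (i : Fin 3) :
    im T ε (ComplexEmbedding.conjugate σ) x i = starRingEnd ℂ (im T ε σ x i) := by
  rw [im, im, ← wc_conj, map_mul, (h σ).2.2]
  rfl

theorem Eps.sB_im (h : Eps d ν ε) (hT : T ≠ 0) (σ : k →+* ℂ) (x y : Cub e k) :
    sB (im T ε σ x) (im T ε σ y) = σ (Bf d x y) := by
  rw [im, im, sB_wc hT, Bf, ← map_c2, map_mul, map_mul, ← (h σ).1]
  congr 1
  ring

theorem Eps.sG_im (h : Eps d ν ε) (hT : T ≠ 0) (σ : k →+* ℂ) (x y : Cub e k) :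
    sG ((e.1 : ℂ) / T ^ 2) ((e.2 : ℂ) / T ^ 3) T (im T ε σ x) (im T ε σ y) = σ (Gv d x y) := by
  rw [im, im, sG_wc hT, Gv, ← map_c2, map_mul, map_mul, map_mul, map_th, ← (h σ).1]
  congr 1
  ring

/-- `mul_cross_mul`; cancel the unit `ε σ` -/
theorem Eps.sHyp (h : Eps d ν ε) (hT : T ≠ 0) {v0 v1 v2 : Cub e k} (hv : Hyp d ν v0 v1 v2)
    (σ : k →+* ℂ) : SHyp (im T ε σ v0) (im T ε σ v1) (im T ε σ v2) := by
  refine ⟨by rw [h.sB_im hT, hv.h00, map_zero], by rw [h.sB_im hT, hv.h22, map_zero],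
    by rw [h.sB_im hT, hv.h02, map_one], ?_⟩
  rw [im, im, im, sCross_wc hT]
  congr 1
  obtain ⟨h1, h2, -⟩ := h σ
  have h3 : IsUnit (ε σ) := isUnit_iff.2 (h2 ▸ (map_ne_zero σ).2 hv.nu0)
  refine h3.mul_left_cancel ?_
  rw [mul_cross_mul, h2, ← mul_assoc, ← sq, h1, ← map_mul, hv.h1]
  ext <;> simp [cross]

theorem Eps.im_ne_zero (h : Eps d ν ε) (hν : ν ≠ 0) (hT : T ≠ 0) (σ : k →+* ℂ) {x : Cub e k}
    (hx : x ≠ 0) : im T ε σ x ≠ 0 := by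
  intro h0
  have hT' : (T : ℂ) ≠ 0 := Complex.ofReal_ne_zero.2 hT
  have h3 : IsUnit (ε σ) := isUnit_iff.2 ((h σ).2.1 ▸ (map_ne_zero σ).2 hν)
  have h4 : ε σ * map σ x = 0 := eq_zero_of_c2 fun z => by
    rw [← sB_wc hT, ← im, h0]
    simp [sB]
  exact hx (map_injective σ.injective ((h3.mul_right_eq_zero.1 h4).trans (map_zero _).symm))

end Coord

end Pool.Agent.Lib.MP_775b3b_nt
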