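import Pool.Agent.Lib.MP_775b3b_nt.Defs

/-! Square roots at the complex embeddings, and standard coordinates. -/

namespace Pool.Agent.Lib.MP_775b3b_nt

open Cub NumberField

variable {e : ℤ × ℤ}

/-- a choice that is compatible with two involutions -/
theorem eps_inv {α β : Type*} (c : α → α) (hc : ∀ a, c (c a) = a) (c' : β → β)
    (hc' : ∀ b, c' (c' b) = b) (P : α → β → Prop) (hP : ∀ a b, P a b → P (c a) (c' b))
    (h1 : ∀ a, ∃ b, P a b) (h2 : ∀ a, c a = a → ∃ b, P a b ∧ c' b = b) :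
    ∃ f : α → β, ∀ a, P a (f a) ∧ f (c a) = c' (f a) := by
  obtain ⟨_, -⟩ := exists_wellFoundedLT α
  have h3 : ∀ a, ∃ b, P a b ∧ (c a = a → c' b = b) := by
    intro a
    by_cases h : c a = a
    · obtain ⟨b, hb, hb'⟩ := h2 a h
      exact ⟨b, hb, fun _ => hb'⟩
    · obtain ⟨b, hb⟩ := h1 a
      exact ⟨b, hb, fun h' => absurd h' h⟩
  choose g hg hg' using h3
  refine ⟨fun a => if a ≤ c a then g a else c' (g (c a)), fun a => ⟨?_, ?_⟩⟩
  · by_cases h : a ≤ c a
    · simp only [if_pos h]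
      exact hg a
    · simp only [if_neg h]
      have := hP _ _ (hg (c a))
      rwa [hc] at this
  · simp only [hc]
    rcases lt_trichotomy a (c a) with h | h | h
    · rw [if_neg h.not_ge, if_pos h.le]
    · rw [if_pos h.ge, if_pos h.le, hg' a h.symm, ← h]
    · rw [if_pos h.le, if_neg h.not_ge, hc']

theorem eps_root {t : ℂ} (ht : t ^ 3 + (e.1 : ℂ) * t + (e.2 : ℂ) = 0) :
    starRingEnd ℂ t ^ 3 + (e.1 : ℂ) * starRingEnd ℂ t + (e.2 : ℂ) = 0 := by
  simpa using congrArg (starRingEnd ℂ) ht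

theorem eps_ev {t : ℂ} (ht : t ^ 3 + (e.1 : ℂ) * t + (e.2 : ℂ) = 0) (x : Cub e ℂ) :
    ev (starRingEnd ℂ t) (eps_root ht) (map (starRingEnd ℂ) x) = starRingEnd ℂ (ev t ht x) := by
  simp [ev_apply]

theorem eps_real (x : Cub e ℝ) :
    map (starRingEnd ℂ) (map Complex.ofRealHom x) = map Complex.ofRealHom x := by
  ext <;> simp

theorem eps_conj_conj (x : Cub e ℂ) : map (starRingEnd ℂ) (map (starRingEnd ℂ) x) = x := by
  ext <;> simp

theorem eps_all {r : Fin 3 → ℂ} (hr : Roots e r) {t : ℂ}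
    (ht : t ^ 3 + (e.1 : ℂ) * t + (e.2 : ℂ) = 0) : ∃ i, t = r i := by
  obtain ⟨h1, h2, h3⟩ := hr
  have h : (t - r 0) * (t - r 1) * (t - r 2) = 0 := by
    linear_combination ht - t ^ 2 * h1 + t * h2 - h3
  rcases mul_eq_zero.1 h with h | h
  · rcases mul_eq_zero.1 h with h | h
    · exact ⟨0, sub_eq_zero.1 h⟩
    · exact ⟨1, sub_eq_zero.1 h⟩
  · exact ⟨2, sub_eq_zero.1 h⟩

/-- Let `r` be the complex roots.  Conjugation permutes them (they are distinct and are all the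
roots).  If `x` is real, `ev (conj r i) x = conj (ev (r i) x)`; at a real root the value is a
positive real.  Choose square roots `s i` compatible with conjugation (for instance
`s i = (ev (r i) x) ^ (1/2 : ℂ)` when `0 ≤ (r i).im` and the conjugate of the value at the
conjugate root otherwise), interpolate (`Roots.exists_ev`), conclude with `Roots.ext`. -/
theorem exists_sqrt_real (hd : disc e ≠ 0) (x : Cub e ℝ)
    (hx : ∀ (r : ℝ) (hr : r ^ 3 + (e.1 : ℝ) * r + (e.2 : ℝ) = 0), 0 < ev r hr x) :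
    ∃ y : Cub e ℝ, y ^ 2 = x := by
  obtain ⟨r, hr⟩ := exists_roots e ℂ
  obtain ⟨S, hS⟩ := eps_inv (α := {t : ℂ // t ^ 3 + (e.1 : ℂ) * t + (e.2 : ℂ) = 0})
    (fun t => ⟨starRingEnd ℂ t.1, eps_root t.2⟩) (fun t => Subtype.ext (Complex.conj_conj t.1))
    (starRingEnd ℂ) Complex.conj_conj (fun t b => b ^ 2 = ev t.1 t.2 (map Complex.ofRealHom x))
    (fun t b h => by
      rw [← map_pow, h, ← eps_ev t.2, eps_real])
    (fun t => IsAlgClosed.exists_pow_nat_eq _ two_pos)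
    (fun t h => by
      obtain ⟨t, ht⟩ := t
      obtain ⟨u, rfl⟩ := Complex.conj_eq_iff_real.1 (congrArg Subtype.val h)
      have hu : u ^ 3 + (e.1 : ℝ) * u + (e.2 : ℝ) = 0 := by exact_mod_cast ht
      refine ⟨(√(ev u hu x) : ℝ), ?_, Complex.conj_ofReal _⟩
      rw [← Complex.ofReal_pow, Real.sq_sqrt (hx u hu).le]
      simp [ev_apply])
  obtain ⟨y, hy⟩ := hr.exists_ev hd fun i => S ⟨r i, hr.root i⟩
  have hy' : ∀ t : {t : ℂ // t ^ 3 + (e.1 : ℂ) * t + (e.2 : ℂ) = 0}, ev t.1 t.2 y = S t := by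
    rintro ⟨t, ht⟩
    obtain ⟨i, rfl⟩ := eps_all hr ht
    exact hy i
  have hc : map (starRingEnd ℂ) y = y := by
    refine hr.ext hd fun i => ?_
    have h1 := eps_ev (eps_root (hr.root i)) y
    have h2 := hy' ⟨_, eps_root (hr.root i)⟩
    have h3 := (hS ⟨r i, hr.root i⟩).2
    simp only [Complex.conj_conj] at h1
    rw [h1, h2, h3, Complex.conj_conj, hy]
  have hm : map Complex.ofRealHom (⟨y.c0.re, y.c1.re, y.c2.re⟩ : Cub e ℝ) = y := by
    ext
    · exact Complex.conj_eq_iff_re.1 (congrArg Cub.c0 hc)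
    · exact Complex.conj_eq_iff_re.1 (congrArg Cub.c1 hc)
    · exact Complex.conj_eq_iff_re.1 (congrArg Cub.c2 hc)
  refine ⟨⟨y.c0.re, y.c1.re, y.c2.re⟩, map_injective Complex.ofRealHom.injective ?_⟩
  rw [map_pow, hm]
  refine hr.ext hd fun i => ?_
  rw [map_pow, hy]
  exact (hS ⟨r i, hr.root i⟩).1

theorem exists_sqrt_complex (hd : disc e ≠ 0) (x : Cub e ℂ) : ∃ y : Cub e ℂ, y ^ 2 = x := by
  obtain ⟨r, hr⟩ := exists_roots e ℂ
  choose s hs using fun i => IsAlgClosed.exists_pow_nat_eq (ev (r i) (hr.root i) x) two_pos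
  obtain ⟨y, hy⟩ := hr.exists_ev hd s
  exact ⟨y, hr.ext hd fun i => by rw [map_pow, hy, hs]⟩

variable {k : Type*} [Field k] [NumberField k]

/-- at a real `σ` use `exists_sqrt_real`; otherwise choose a root for `(mk σ).embedding` and its
conjugate for the other embedding -/
theorem exists_eps0 (hd : disc e ≠ 0) {d : (Cub e k)ˣ} (h : d ∈ pos e k) :
    ∃ ε : (k →+* ℂ) → Cub e ℂ, ∀ σ, ε σ ^ 2 = map σ (d : Cub e k) ∧
      ε (ComplexEmbedding.conjugate σ) = map (starRingEnd ℂ) (ε σ) := by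
  refine eps_inv ComplexEmbedding.conjugate (ComplexEmbedding.involutive_conjugate k)
    (map (starRingEnd ℂ)) eps_conj_conj (fun σ y => y ^ 2 = map σ (d : Cub e k))
    (fun σ y hy => ?_) (fun σ => exists_sqrt_complex hd _) fun σ hσ => ?_
  · rw [← map_pow, hy]
    rfl
  · have hσ' : ComplexEmbedding.IsReal σ := ComplexEmbedding.isReal_iff.2 hσ
    obtain ⟨y, hy⟩ := exists_sqrt_real hd (map hσ'.embedding (d : Cub e k)) (h hσ'.embedding)
    refine ⟨map Complex.ofRealHom y, ?_, eps_real y⟩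
    rw [← map_pow, hy]
    ext
    · exact hσ'.coe_embedding_apply _
    · exact hσ'.coe_embedding_apply _
    · exact hσ'.coe_embedding_apply _

/-- multiply by the sign `nm (ε σ) / σ ν` -/
theorem exists_eps (hd : disc e ≠ 0) {d : (Cub e k)ˣ} (h : d ∈ pos e k) {ν : k}
    (hν : nm (d : Cub e k) = ν ^ 2) : ∃ ε, Eps (d : Cub e k) ν ε := by
  obtain ⟨ε, hε⟩ := exists_eps0 hd h
  have hν0 : ν ≠ 0 := fun h0 => nm_ne_zero d (by rw [hν, h0]; ring)
  refine ⟨fun σ => (nm (ε σ) / σ ν) • ε σ, fun σ => ?_⟩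
  have h0 : σ ν ≠ 0 := (map_ne_zero σ).2 hν0
  have h1 : nm (ε σ) ^ 2 = σ ν ^ 2 := by rw [← nm_pow, (hε σ).1, nm_map, hν, map_pow]
  have h2 : (nm (ε σ) / σ ν) ^ 2 = 1 := by rw [div_pow, h1, div_self (pow_ne_zero 2 h0)]
  refine ⟨?_, ?_, ?_⟩
  · rw [smul_pow, h2, one_smul, (hε σ).1]
  · rw [nm_smul, pow_succ, h2, one_mul, div_mul_eq_mul_div, ← sq, h1, sq, mul_div_assoc,
      div_self h0, mul_one]
  · simp only []
    rw [map_smul', (hε σ).2, nm_map, map_div₀, ComplexEmbedding.conjugate_coe_eq]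

/-- `m = g / ∏ σ, ε σ` is a real square root of 1 of norm 1; multiply `ε σ₀` by `m` at one real
embedding `σ₀` (`InfinitePlace.nrRealPlaces_pos_of_odd_finrank`) -/
theorem exists_eps_prod (hd : disc e ≠ 0) (hk : Odd (Module.finrank ℚ k)) {d : (Cub e k)ˣ}
    (h : d ∈ pos e k) {ν : k} (hν : nm (d : Cub e k) = ν ^ 2) {g : Cub e ℂ}
    (hg : map (starRingEnd ℂ) g = g) (hg2 : g ^ 2 = ∏ σ : k →+* ℂ, map σ (d : Cub e k))
    (hg3 : nm g = ∏ σ : k →+* ℂ, σ ν) : ∃ ε, Eps (d : Cub e k) ν ε ∧ ∏ σ, ε σ = g := by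
  classical
  obtain ⟨ε, hε⟩ := exists_eps hd h hν
  have hν0 : ν ≠ 0 := fun h0 => nm_ne_zero d (by rw [hν, h0]; ring)
  have h1 : (∏ σ, ε σ) ^ 2 = g ^ 2 := by
    rw [hg2, ← Finset.prod_pow]
    exact Finset.prod_congr rfl fun σ _ => (hε σ).1
  have h2 : nm (∏ σ, ε σ) = nm g := by
    rw [hg3]
    exact (map_prod (nmHom e ℂ) ε Finset.univ).trans (Finset.prod_congr rfl fun σ _ => (hε σ).2.1)
  have h3 : map (starRingEnd ℂ) (∏ σ, ε σ) = ∏ σ, ε σ := by
    rw [map_prod, ← Equiv.prod_comp (ComplexEmbedding.involutive_conjugate k).toPerm ε]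
    exact Finset.prod_congr rfl fun σ _ => (hε σ).2.2.symm
  have h4 : IsUnit (∏ σ, ε σ) := by
    rw [isUnit_iff, h2, hg3]
    exact Finset.prod_ne_zero_iff.2 fun σ _ => (map_ne_zero σ).2 hν0
  obtain ⟨u, hu⟩ := h4.exists_right_inv
  have hu' : map (starRingEnd ℂ) u = u := by
    have h5 := congrArg (map (starRingEnd ℂ)) hu
    rw [map_mul, h3, map_one] at h5
    exact h4.mul_left_cancel (h5.trans hu.symm)
  have m1 : (g * u) ^ 2 = 1 := by rw [mul_pow, ← h1, ← mul_pow, hu, one_pow]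
  have m2 : nm (g * u) = 1 := by rw [nm_mul, ← h2, ← nm_mul, hu, nm_one]
  have m3 : map (starRingEnd ℂ) (g * u) = g * u := by rw [map_mul, hg, hu']
  obtain ⟨⟨w, hw⟩⟩ := Fintype.card_pos_iff.1 (InfinitePlace.nrRealPlaces_pos_of_odd_finrank hk)
  have hw' : ComplexEmbedding.conjugate w.embedding = w.embedding :=
    ComplexEmbedding.isReal_iff.1 (InfinitePlace.isReal_iff.1 hw)
  refine ⟨fun σ => ε σ * if σ = w.embedding then g * u else 1, fun σ => ?_, ?_⟩
  · by_cases hσ : σ = w.embedding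
    · subst hσ
      refine ⟨?_, ?_, ?_⟩
      · simp only [if_true]
        rw [mul_pow, m1, mul_one, (hε _).1]
      · simp only [if_true]
        rw [nm_mul, m2, mul_one, (hε _).2.1]
      · simp only [hw', if_true]
        rw [map_mul, m3, ← (hε _).2.2, hw']
    · have hσ' : ComplexEmbedding.conjugate σ ≠ w.embedding := fun h0 => hσ (by
        rw [← ComplexEmbedding.involutive_conjugate k σ, h0, hw'])
      simp only [if_neg hσ, if_neg hσ', mul_one]
      exact hε σ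
  · rw [Finset.prod_mul_distrib, Finset.prod_ite_eq' Finset.univ w.embedding fun _ => g * u,
      if_pos (Finset.mem_univ _), mul_left_comm, hu, mul_one]

end Pool.Agent.Lib.MP_775b3b_nt
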