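import Pool.Agent.Lib.MP_775b3b_nt.Defs

/-! Hyperbolic bases: algebra. -/

namespace Pool.Agent.Lib.MP_775b3b_nt

open Cub

variable {e e' : ℤ × ℤ} {k : Type*} [Field k]

theorem Bf_comm (d x y : Cub e k) : Bf d x y = Bf d y x := by
  rw [Bf, Bf, mul_right_comm]

theorem Gv_comm (d x y : Cub e k) : Gv d x y = Gv d y x := by
  rw [Gv, Gv, mul_right_comm]

theorem Bf_add_left (d x x' y : Cub e k) : Bf d (x + x') y = Bf d x y + Bf d x' y := by
  simp only [Bf, mul_add, add_mul, add_c2]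

theorem Bf_sub_left (d x x' y : Cub e k) : Bf d (x - x') y = Bf d x y - Bf d x' y := by
  simp only [Bf, mul_sub, sub_mul, sub_c2]

theorem Bf_smul_left (d : Cub e k) (a : k) (x y : Cub e k) : Bf d (a • x) y = a * Bf d x y := by
  simp only [Bf, mul_smul_comm, smul_mul_assoc, smul_c2, smul_eq_mul]

theorem Bf_add_right (d x y y' : Cub e k) : Bf d x (y + y') = Bf d x y + Bf d x y' := by
  simp only [Bf, mul_add, add_c2]

theorem Bf_sub_right (d x y y' : Cub e k) : Bf d x (y - y') = Bf d x y - Bf d x y' := by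
  simp only [Bf, mul_sub, sub_c2]

theorem Bf_smul_right (d : Cub e k) (a : k) (x y : Cub e k) : Bf d x (a • y) = a * Bf d x y := by
  simp only [Bf, mul_smul_comm, smul_c2, smul_eq_mul]

theorem Gv_eq_Bf (d x y : Cub e k) : Gv d x y = Bf (d * th) x y := rfl

theorem Gv_eq_Bf' (d x y : Cub e k) : Gv d x y = Bf d (th * x) y := by
  rw [Gv, Bf, mul_assoc d]

variable {d v0 v1 v2 : Cub e k} {ν : k}

/-- `adj_cross_sq`, `mul_adj` -/
theorem Bf_cross (hν : nm d = ν ^ 2) (hν0 : ν ≠ 0) {x y n : Cub e k} (hn : d * n = ν • cross x y) :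
    Bf d n n = Bf d x y ^ 2 - Bf d x x * Bf d y y ∧ ∀ z, Bf d n z = ν * det3 x y z := by
  refine ⟨?_, fun z => by rw [Bf, hn, smul_mul_assoc, smul_c2, cross_mul_c2, smul_eq_mul]⟩
  have h1 : adj d * (d * n) * (d * n) = ν ^ 2 • (d * n * n) := by
    rw [← hν, Algebra.smul_def, ← mul_adj]
    ring
  have h2 : adj d * (d * n) * (d * n) = ν ^ 2 • (adj d * cross x y * cross x y) := by
    rw [hn, mul_smul_comm, mul_smul_comm, smul_mul_assoc, smul_smul, sq]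
  have h3 := congrArg Cub.c2 (h1.symm.trans h2)
  rw [smul_c2, smul_c2, adj_cross_sq, smul_eq_mul, smul_eq_mul] at h3
  exact mul_left_cancel₀ (pow_ne_zero 2 hν0) h3

theorem exists_cross (hν : nm d = ν ^ 2) (hν0 : ν ≠ 0) (x y : Cub e k) :
    ∃ n, d * n = ν • cross x y := by
  refine ⟨ν⁻¹ • (adj d * cross x y), ?_⟩
  rw [mul_smul_comm, ← mul_assoc, mul_adj, ← Algebra.smul_def, smul_smul, hν, sq,
    inv_mul_cancel_left₀ hν0]

theorem Hyp.h01 (h : Hyp d ν v0 v1 v2) : Bf d v0 v1 = 0 := by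
  rw [Bf_comm, (Bf_cross h.nu h.nu0 h.h1).2, det3_self_right, mul_zero]

theorem Hyp.h12 (h : Hyp d ν v0 v1 v2) : Bf d v1 v2 = 0 := by
  rw [(Bf_cross h.nu h.nu0 h.h1).2, det3_self_left, mul_zero]

theorem Hyp.h11 (h : Hyp d ν v0 v1 v2) : Bf d v1 v1 = 1 := by
  rw [(Bf_cross h.nu h.nu0 h.h1).1, Bf_comm d v2 v0, h.h02, h.h00]
  ring

theorem hyp_det (h : Hyp d ν v0 v1 v2) : ν * det3 v0 v1 v2 = 1 := by
  rw [← det3_rot v2 v0 v1, ← (Bf_cross h.nu h.nu0 h.h1).2, h.h11]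

theorem hyp_det_comb (a b c : k) (x y z : Cub e k) :
    det3 (a • x + b • y + c • z) y z = a * det3 x y z ∧
    det3 x (a • x + b • y + c • z) z = b * det3 x y z ∧
    det3 x y (a • x + b • y + c • z) = c * det3 x y z ∧
    det3 y x (a • x + b • y + c • z) = -(c * det3 x y z) := by
  refine ⟨?_, ?_, ?_, ?_⟩ <;> simp [det3] <;> ring

theorem hyp_det_th (x y z : Cub e k) :
    det3 (th * x) y z + det3 x (th * y) z + det3 x y (th * z) = 0 := by
  simp [det3]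
  ring

/-- `cramer`, with `ν * det3 v2 v0 v1 = 1` -/
theorem Hyp.expand (h : Hyp d ν v0 v1 v2) (x : Cub e k) :
    x = Bf d x v2 • v0 + Bf d x v1 • v1 + Bf d x v0 • v2 := by
  obtain ⟨a, b, c, rfl⟩ : ∃ a b c : k, x = a • v0 + b • v1 + c • v2 := by
    refine ⟨ν * det3 x v1 v2, ν * det3 v0 x v2, ν * det3 v0 v1 x, ?_⟩
    rw [mul_smul, mul_smul, mul_smul, ← smul_add, ← smul_add, ← cramer, smul_smul, hyp_det h,
      one_smul]
  simp only [Bf_add_left, Bf_smul_left, Bf_comm d v1 v0, Bf_comm d v2 v0, Bf_comm d v2 v1, h.h00,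
    h.h01, h.h02, h.h11, h.h12, h.h22, mul_zero, mul_one, add_zero, zero_add]

/-- the trace of multiplication by `θ` in the basis `v0, v1, v2`:
`det3 (θ v0) v1 v2 + det3 v0 (θ v1) v2 + det3 v0 v1 (θ v2) = 0` identically; expand `θ vᵢ` -/
theorem Hyp.trace (h : Hyp d ν v0 v1 v2) : Gv d v1 v1 + 2 * Gv d v0 v2 = 0 := by
  have h1 := hyp_det_th v0 v1 v2
  rw [h.expand (th * v0), h.expand (th * v1), h.expand (th * v2), (hyp_det_comb _ _ _ _ _ _).1,
    (hyp_det_comb _ _ _ _ _ _).2.1, (hyp_det_comb _ _ _ _ _ _).2.2.1, ← Gv_eq_Bf', ← Gv_eq_Bf',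
    ← Gv_eq_Bf', Gv_comm d v2 v0] at h1
  linear_combination ν * h1 - (Gv d v1 v1 + 2 * Gv d v0 v2) * hyp_det h

variable [CharZero k]

omit [CharZero k] in
theorem hyp_cross (h : Hyp d ν v0 v1 v2) : ν • cross v1 v0 = -(d * v0) := by
  rw [eq_neg_iff_add_eq_zero]
  refine eq_zero_of_c2 fun z => ?_
  have h1 : det3 v1 v0 z = -(Bf d z v0 * det3 v0 v1 v2) := by
    conv_lhs => rw [h.expand z]
    exact (hyp_det_comb _ _ _ _ _ _).2.2.2
  rw [add_mul, add_c2, smul_mul_assoc, smul_c2, cross_mul_c2, smul_eq_mul, h1, Bf_comm]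
  change _ + Bf d v0 z = 0
  linear_combination -(Bf d v0 z) * hyp_det h

/-- needs `cross v1 v0` in terms of `v0`: `ν • cross v1 v0 = -(d * v0)`; check by pairing with the
basis (`Hyp.expand`, `eq_zero_of_c2`): it is enough that
`Bf d (tr1 u v0 v1) z = ν * det3 (tr2 u v0 v1 v2) v0 z` for `z = v0, v1, v2` -/
theorem Hyp.translate (h : Hyp d ν v0 v1 v2) (u : k) :
    Hyp d ν v0 (tr1 u v0 v1) (tr2 u v0 v1 v2) := by
  refine ⟨h.nu, h.nu0, h.h00, ?_, ?_, ?_⟩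
  · simp only [tr2, Bf_sub_left, Bf_sub_right, Bf_smul_left, Bf_smul_right, Bf_comm d v1 v0,
      Bf_comm d v2 v0, Bf_comm d v2 v1, h.h00, h.h01, h.h02, h.h11, h.h12, h.h22]
    ring
  · simp only [tr2, Bf_sub_right, Bf_smul_right, h.h00, h.h01, h.h02]
    ring
  · have h1 : cross (tr2 u v0 v1 v2) v0 = cross v2 v0 - u • cross v1 v0 := by
      ext <;> simp [cross, tr2] <;> ring
    rw [h1, smul_sub, smul_comm ν u, hyp_cross h, ← h.h1, tr1, mul_add, mul_smul_comm, smul_neg,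
      sub_neg_eq_add]

theorem Hyp.Vq_iso (h : Hyp d ν v0 v1 v2) (x y : k) :
    Bf d (Vq v0 v1 v2 x y) (Vq v0 v1 v2 x y) = 0 ∧ Bf d (Vq v0 v1 v2 x y) v0 = -(2 * y ^ 2) := by
  constructor
  · simp only [Vq, Bf_sub_left, Bf_sub_right, Bf_add_left, Bf_add_right, Bf_smul_left,
      Bf_smul_right, Bf_comm d v1 v0, Bf_comm d v2 v0, Bf_comm d v2 v1, h.h00, h.h01, h.h02, h.h11,
      h.h12, h.h22]
    ring
  · simp only [Vq, Bf_sub_left, Bf_add_left, Bf_smul_left, Bf_comm d v1 v0, Bf_comm d v2 v0, h.h00,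
      h.h01, h.h02]
    ring

theorem Hyp.quart_eq (h : Hyp d ν v0 v1 v2) (x y : k) : quart d v0 v1 v2 x y =
    Gv d v0 v0 * x ^ 4 + 4 * Gv d v0 v1 * x ^ 3 * y + 6 * Gv d v1 v1 * x ^ 2 * y ^ 2 -
      8 * Gv d v1 v2 * x * y ^ 3 + 4 * Gv d v2 v2 * y ^ 4 := by
  have h1 := h.trace
  simp only [quart, Vq, Gv_eq_Bf, Bf_sub_left, Bf_sub_right, Bf_add_left, Bf_add_right,
    Bf_smul_left, Bf_smul_right, Bf_comm _ v1 v0, Bf_comm _ v2 v0, Bf_comm _ v2 v1] at h1 ⊢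
  linear_combination (-2 * x ^ 2 * y ^ 2) * h1

theorem Gv_tr1 (d v0 v1 : Cub e k) (u : k) :
    Gv d v0 (tr1 u v0 v1) = Gv d v0 v1 + u * Gv d v0 v0 := by
  simp only [tr1, Gv_eq_Bf, Bf_add_right, Bf_smul_right]

/-- otherwise `d v0^2 = c` is a nonzero scalar (`isReduced`), `c^3 = (ν nm v0)^2`, so `c` is a
square and so is `d` -/
theorem Hyp.Gv_ne_zero {δ : (Cub e k)ˣ} (hd : disc e ≠ 0) (h : Hyp (δ : Cub e k) ν v0 v1 v2)
    (hδ : δ ∉ SQ e k) : Gv (δ : Cub e k) v0 v0 ≠ 0 := by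
  intro h0
  obtain ⟨c, hc⟩ : ∃ c : k, (δ : Cub e k) * v0 * v0 = algebraMap k (Cub e k) c := by
    refine ⟨((δ : Cub e k) * v0 * v0).c0, Cub.ext rfl ?_ h.h00⟩
    rw [c1_eq, algebraMap_c1, ← h0, Gv]
    congr 1
    ring
  have hc0 : c ≠ 0 := by
    rintro rfl
    have := isReduced (k := k) hd
    rw [map_zero, mul_assoc, Units.mul_right_eq_zero, ← sq] at hc
    have h1 := h.h02
    rw [IsNilpotent.eq_zero ⟨2, hc⟩, Bf] at h1
    simp at h1
  have h1 := congrArg nm hc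
  rw [nm_mul, nm_mul, nm_algebraMap, h.nu] at h1
  have h2 : c * (ν * nm v0 / c ^ 2) ^ 2 = 1 := by
    field_simp
    linear_combination h1
  have h3 : ((ν * nm v0 / c ^ 2) • ((δ : Cub e k) * v0)) *
      ((ν * nm v0 / c ^ 2) • ((δ : Cub e k) * v0)) = δ := by
    rw [smul_mul_smul_comm, ← sq, show (δ : Cub e k) * v0 * (δ * v0) = δ * v0 * v0 * δ by ring, hc,
      ← Algebra.smul_def, smul_smul, mul_comm _ c, h2, one_smul]
  refine hδ (Subgroup.mem_square.2 ⟨Units.mkOfMulEqOne _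
    (((ν * nm v0 / c ^ 2) • ((δ : Cub e k) * v0)) * (δ⁻¹ : (Cub e k)ˣ))
    (by rw [← mul_assoc, h3, Units.mul_inv]), Units.ext h3.symm⟩)

end Pool.Agent.Lib.MP_775b3b_nt
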