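import Pool.Agent.Lib.MP_775b3b_nt.OrdP

/-! Local isotropy. -/

namespace Pool.Agent.Lib.MP_775b3b_nt

open MP_439fea_co Cub

variable {e : ℤ × ℤ} {k : Type*} [Field k] [NumberField k]

theorem lociso_cw {F : Type*} [Field F] [Finite F] (b : Fin 3 → Fin 3 → F) :
    ∃ a : Fin 3 → F, a ≠ 0 ∧ ∑ i, ∑ j, b i j * a i * a j = 0 := by
  classical
  have := Fintype.ofFinite F
  obtain ⟨p, hp⟩ := CharP.exists F
  have hp' := CharP.char_is_prime F p
  let f : MvPolynomial (Fin 3) F :=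
    ∑ i, ∑ j, MvPolynomial.C (b i j) * MvPolynomial.X i * MvPolynomial.X j
  have hf : f.totalDegree < Fintype.card (Fin 3) := by
    refine lt_of_le_of_lt (MvPolynomial.totalDegree_finsetSum_le (d := 2) fun i _ =>
      MvPolynomial.totalDegree_finsetSum_le fun j _ => ?_) (by simp)
    refine (MvPolynomial.totalDegree_mul _ _).trans ?_
    have := MvPolynomial.totalDegree_mul (MvPolynomial.C (b i j)) (MvPolynomial.X (R := F) i)
    simp only [MvPolynomial.totalDegree_C, MvPolynomial.totalDegree_X] at this ⊢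
    omega
  have h1 := char_dvd_card_solutions p hf
  by_contra hne
  have h2 : Fintype.card {x : Fin 3 → F // MvPolynomial.eval x f = 0} = 1 := by
    refine Fintype.card_eq_one_iff.2 ⟨⟨0, by simp [f]⟩, fun y => Subtype.ext ?_⟩
    by_contra h0
    exact hne ⟨y.1, h0, by simpa [f] using y.2⟩
  rw [h2] at h1
  exact hp'.not_dvd_one h1

theorem lociso_mul_lt (v : P k) {a b : k} (ha : val v a < 1) (hb : val v b ≤ 1) :
    val v (a * b) < 1 := by
  rw [map_mul]
  exact lt_of_le_of_lt (mul_le_of_le_one_right' hb) ha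

theorem lociso_val (v : P k) (b : Fin 3 → Fin 3 → k) (hb : ∀ i j, val v (b i j) ≤ 1) :
    ∃ a : Fin 3 → k, (∀ i, val v (a i) ≤ 1) ∧ (¬ ∀ i, val v (a i) < 1) ∧
      val v (∑ i, ∑ j, b i j * a i * a j) < 1 := by
  choose c hc using fun i j => v.exists_valuation_sub_lt_of_integer (hb i j) 1
  have := v.isMaximal
  have : Finite (NumberField.RingOfIntegers k ⧸ v.asIdeal) :=
    Ideal.finiteQuotientOfFreeOfNeBot _ v.ne_bot
  let := Ideal.Quotient.field v.asIdeal
  obtain ⟨a, ha, h⟩ := lociso_cw fun i j => Ideal.Quotient.mk v.asIdeal (c i j)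
  choose s hs using Ideal.Quotient.mk_surjective (I := v.asIdeal)
  have h1 : ∀ i, val v (s (a i) : k) ≤ 1 := fun i => v.valuation_le_one _
  refine ⟨fun i => (s (a i) : k), h1, fun h0 => ha (funext fun i => ?_), ?_⟩
  · rw [← hs (a i)]
    exact Ideal.Quotient.eq_zero_iff_mem.2 ((Val_lt_iff_mem v _).1 (h0 i))
  · have h2 : ∑ i, ∑ j, c i j * s (a i) * s (a j) ∈ v.asIdeal := by
      rw [← Ideal.Quotient.eq_zero_iff_mem]
      simpa [hs] using h
    have h3 := (Val_lt_iff_mem v _).2 h2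
    have h4 : val v (∑ i, ∑ j, ((c i j : k) - b i j) * s (a i) * s (a j)) < 1 :=
      Valuation.map_sum_lt _ one_ne_zero fun i _ => Valuation.map_sum_lt _ one_ne_zero fun j _ =>
        lociso_mul_lt v (lociso_mul_lt v (hc i j) (h1 i)) (h1 j)
    have h5 := Valuation.map_sub_lt _ h3 h4
    simp only [sub_mul, Finset.sum_sub_distrib] at h5
    push_cast at h5
    rwa [sub_sub_cancel] at h5

theorem lociso_le {p : Nat.Primes} (v : P k) (hv : val v ((p : ℕ) : k) < 1) {x : Cub e k}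
    (hx : x ∈ Ord p e k) : x ∈ cubOf e (val v).integer :=
  ⟨mem_intP_iff_val.1 hx.1 v hv, mem_intP_iff_val.1 hx.2.1 v hv, mem_intP_iff_val.1 hx.2.2 v hv⟩

omit [NumberField k] in
theorem lociso_th (S : Subring k) : (th : Cub e k) ∈ cubOf e S := ⟨S.zero_mem, S.one_mem, S.zero_mem⟩

theorem lociso_small (v : P k) {t w : Cub e k} (ht : t ∈ cubOf e (val v).integer)
    (h0 : val v w.c0 < 1) (h1 : val v w.c1 < 1) (h2 : val v w.c2 < 1) :
    val v (t * w).c0 < 1 ∧ val v (t * w).c1 < 1 ∧ val v (t * w).c2 < 1 := by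
  have a1 := mul_mem ht (lociso_th (e := e) (val v).integer)
  have a2 := mul_mem a1 (lociso_th (e := e) (val v).integer)
  have e1 : t * w = w.c0 • t + w.c1 • (t * th) + w.c2 • (t * th * th) := by
    conv_lhs => rw [eq_coords w]
    simp only [mul_add, mul_smul_comm, mul_one, mul_assoc]
  rw [e1]
  exact ⟨Valuation.map_add_lt _ (Valuation.map_add_lt _ (lociso_mul_lt v h0 ht.1)
      (lociso_mul_lt v h1 a1.1)) (lociso_mul_lt v h2 a2.1),
    Valuation.map_add_lt _ (Valuation.map_add_lt _ (lociso_mul_lt v h0 ht.2.1)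
      (lociso_mul_lt v h1 a1.2.1)) (lociso_mul_lt v h2 a2.2.1),
    Valuation.map_add_lt _ (Valuation.map_add_lt _ (lociso_mul_lt v h0 ht.2.2)
      (lociso_mul_lt v h1 a1.2.2)) (lociso_mul_lt v h2 a2.2.2)⟩

theorem lociso_unit (v : P k) {u t : Cub e k} (hu : u ∈ cubOf e (val v).integer)
    (ht : t ∈ cubOf e (val v).integer) (htu : t * u = 1) : ∃ r s : Cub e k,
      val v (u * r * s).c2 = 1 ∧ val v (u * s * s).c2 ≤ 1 ∧ val v (u * r * r).c2 < 1 := by
  have hθ := lociso_th (e := e) (val v).integer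
  let τ : Fin 3 → Cub e k := ![1, th, th * th]
  have hτ : ∀ i, τ i ∈ cubOf e (val v).integer := fun i => by
    fin_cases i
    · exact one_mem _
    · exact hθ
    · exact mul_mem hθ hθ
  obtain ⟨a, ha, hn, h⟩ := lociso_val v (fun i j => (u * τ i * τ j).c2)
    fun i j => (mul_mem (mul_mem hu (hτ i)) (hτ j)).2.2
  let r : Cub e k := ⟨a 0, a 1, a 2⟩
  have hr : r ∈ cubOf e (val v).integer := ⟨ha 0, ha 1, ha 2⟩
  have e1 : (u * r * r).c2 = ∑ i, ∑ j, (u * τ i * τ j).c2 * a i * a j := by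
    simp [Fin.sum_univ_three, τ, r]
    ring
  by_contra hne
  have h1 : ∀ i, val v (u * r * τ i).c2 < 1 := fun i =>
    lt_of_le_of_ne (mul_mem (mul_mem hu hr) (hτ i)).2.2 fun h1 =>
      hne ⟨r, τ i, h1, (mul_mem (mul_mem hu (hτ i)) (hτ i)).2.2, e1 ▸ h⟩
  have b2 : val v (u * r).c2 < 1 := by simpa only [τ, Matrix.cons_val_zero, mul_one] using h1 0
  have b1 : val v (u * r).c1 < 1 := by rw [c1_eq]; exact h1 1
  have b0 : val v (u * r).c0 < 1 := by
    rw [c0_eq, mul_comm (e.1 : k)]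
    exact Valuation.map_add_lt _ (h1 2) (lociso_mul_lt v b2 (intCast_mem (val v).integer e.1))
  have b := lociso_small v ht b0 b1 b2
  rw [← mul_assoc, htu, one_mul] at b
  refine hn fun i => ?_
  fin_cases i
  · exact b.1
  · exact b.2.1
  · exact b.2.2

/-- Let `p` be the prime under `v` (`exists_prime_under`).  Bad `p`: `d z^2 = 1 + p^3 y`,
`y ∈ Ord p`; take `x = z`, `y = z θ^2`.  Good `p` (odd, `val v 4 = 1`): `u = d z^2` is a unit of
`Ord p`; the form `(a0, a1, a2) ↦ (u (a0 + a1 θ + a2 θ^2)^2).c2` has a nontrivial zero over the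
finite residue field of `v` (`char_dvd_card_solutions`; or choose `approx` integral
representatives of the coefficients and work in `𝓞 k ⧸ v.asIdeal`); lift it to `r` with a
coordinate of valuation 1, `x = z r`.  If `val v ((u r θ^i).c2) < 1` for `i = 0, 1, 2`, all
coordinates of `u r` (`c1_eq`, `c0_eq`), hence of `r = u⁻¹ (u r)`, have valuation `< 1`.
So `y = z θ^i` works for some `i`. -/
theorem exists_loc_iso {N : ℕ} (hU : Unr k N) (h2 : 2 ∣ N) (hd : disc e ≠ 0) {d : (Cub e k)ˣ}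
    (h : d ∈ Sel1 N e k) (v : P k) : ∃ x y : Cub e k, val v (Bf (d : Cub e k) x y) = 1 ∧
      val v (Bf (d : Cub e k) y y) ≤ 1 ∧ val v (Bf (d : Cub e k) x x) < val v 4 := by
  obtain ⟨p, hp, hv⟩ := exists_prime_under v
  obtain ⟨⟨-, hg⟩, -, hb⟩ := (mem_Sel1.1 h).imp_left mem_Sel.1
  have h4 : p ≠ 2 → val v (4 : k) = 1 := fun hp2 => by
    have h1 := val_natCast_le_one v 4
    have h3 := val_natCast_lt_one_iff v hp hv 4
    push_cast at h1 h3
    refine le_antisymm h1 (not_lt.1 fun h5 => hp2 ?_)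
    exact (Nat.prime_dvd_prime_iff_eq hp Nat.prime_two).1
      (hp.dvd_of_dvd_pow (n := 2) (h3.1 h5))
  have key : ∀ (z r s : Cub e k), Bf (d : Cub e k) (z * r) (z * s) = (d * z ^ 2 * r * s).c2 :=
    fun z r s => by rw [Bf]; congr 1; ring
  by_cases hB : Bad N e ⟨p, hp⟩
  · obtain ⟨z, y, hy, -, -, h1, -⟩ := stq_intP_le hd (hb _ hB) 3
    have hy' := lociso_le v hv hy
    have hθ := lociso_th (e := e) (val v).integer
    have e1 : (d : Cub e k) * z ^ 2 = 1 + (p : k) ^ 3 • y := by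
      rw [Algebra.smul_def, map_pow, map_natCast, ← Units.val_pow_eq_pow_val, ← Units.val_mul]
      exact h1
    have h3 : val v ((p : k) ^ 3) < 1 := by
      rw [map_pow]
      exact pow_lt_one' hv (by norm_num)
    refine ⟨(z : Cub e k) * 1, (z : Cub e k) * (th * th), ?_, ?_, ?_⟩
    · have e2 : ((1 + (p : k) ^ 3 • y) * 1 * (th * th)).c2 = 1 + (p : k) ^ 3 * (y * (th * th)).c2 := by
        simp
        ring
      rw [key, e1, e2]
      exact Valuation.map_one_add_of_lt _ (lociso_mul_lt v h3 (mul_mem hy' (mul_mem hθ hθ)).2.2)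
    · have hu : (1 + (p : k) ^ 3 • y : Cub e k) ∈ cubOf e (val v).integer :=
        (cubOf e (val v).integer).add_mem (one_mem _) (mem_cubOf.2 ⟨(val v).integer.mul_mem h3.le hy'.1,
          (val v).integer.mul_mem h3.le hy'.2.1, (val v).integer.mul_mem h3.le hy'.2.2⟩)
      rw [key, e1]
      exact (mul_mem (mul_mem hu (mul_mem hθ hθ)) (mul_mem hθ hθ)).2.2
    · have e2 : ((1 + (p : k) ^ 3 • y) * 1 * 1).c2 = (p : k) ^ 3 * y.c2 := by simp
      rw [key, e1, e2, map_mul]
      refine lt_of_le_of_lt (mul_le_of_le_one_right' hy'.2.2) ?_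
      rcases eq_or_ne p 2 with rfl | hp2
      · rw [show ((2 : ℕ) : k) ^ 3 = 4 * (2 : ℕ) by norm_num, map_mul]
        exact mul_lt_of_lt_one_right (zero_lt_iff.2 ((Valuation.ne_zero_iff _).2 (by norm_num))) hv
      · rwa [h4 hp2]
  · obtain ⟨z, h1, h3⟩ := hg _ hB
    have hp2 : p ≠ 2 := by
      rintro rfl
      exact hB (Or.inl h2)
    obtain ⟨r, s, a1, a2, a3⟩ := lociso_unit v (lociso_le v hv (intP_le_Ord hU hB h1))
      (lociso_le v hv (intP_le_Ord hU hB h3)) (Units.inv_mul _)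
    rw [Units.val_mul, Units.val_pow_eq_pow_val, ← key] at a1 a2 a3
    exact ⟨_, _, a1, a2, by rwa [h4 hp2]⟩

end Pool.Agent.Lib.MP_775b3b_nt
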