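import Mathlib

/-! Geometry of numbers in a number field, in terms of the complex embeddings. -/

namespace Pool.Agent.Lib.MP_775b3b_nt

open NumberField

variable (k : Type*) [Field k] [NumberField k]

/-- A conjugation invariant vector has real coordinates in `canonicalEmbedding.latticeBasis k`
(a basis of `(k →+* ℂ) → ℂ` over `ℂ` made of the images of `integralBasis k`): apply the
conjugation `μ ↦ fun σ => conj (μ (conjugate σ))`, which fixes the basis vectors, and use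
uniqueness of coordinates. -/
theorem exists_real_coords : ∃ (n : ℕ) (w : Fin n → k), (∀ i, IsIntegral ℤ (w i)) ∧
    ∀ μ : (k →+* ℂ) → ℂ, (∀ σ, μ (ComplexEmbedding.conjugate σ) = starRingEnd ℂ (μ σ)) →
      ∃ x : Fin n → ℝ, ∀ σ, μ σ = ∑ i, (x i : ℂ) * σ (w i) := by
  classical
  let e := (Fintype.equivFin (Module.Free.ChooseBasisIndex ℤ (𝓞 k))).symm
  refine ⟨_, fun i => integralBasis k (e i), fun i => ?_, fun μ hμ => ?_⟩
  · change IsIntegral ℤ (integralBasis k (e i))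
    rw [integralBasis_apply]
    exact (RingOfIntegers.basis k (e i)).2
  have h1 : ∀ σ, μ σ = ∑ i, (canonicalEmbedding.latticeBasis k).repr μ (e i) *
      σ (integralBasis k (e i)) := by
    intro σ
    have h := congrFun ((canonicalEmbedding.latticeBasis k).sum_repr μ) σ
    rw [← h, Finset.sum_apply, ← e.sum_comp]
    refine Finset.sum_congr rfl fun i _ => ?_
    rw [Pi.smul_apply, canonicalEmbedding.latticeBasis_apply, canonicalEmbedding.apply_at,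
      smul_eq_mul]
  refine ⟨fun i => ((canonicalEmbedding.latticeBasis k).repr μ (e i)).re, fun σ => ?_⟩
  have h2 : μ σ = ∑ i, starRingEnd ℂ ((canonicalEmbedding.latticeBasis k).repr μ (e i)) *
      σ (integralBasis k (e i)) := by
    have h3 := congrArg (starRingEnd ℂ) (hμ σ)
    rw [Complex.conj_conj, h1 (ComplexEmbedding.conjugate σ), map_sum] at h3
    rw [← h3]
    refine Finset.sum_congr rfl fun i _ => ?_
    rw [map_mul, ComplexEmbedding.conjugate_coe_eq, Complex.conj_conj]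
  have h4 : μ σ = (μ σ + μ σ) / 2 := by ring
  rw [h4]
  nth_rewrite 1 [h1 σ]
  rw [h2, ← Finset.sum_add_distrib, Finset.sum_div]
  refine Finset.sum_congr rfl fun i _ => ?_
  rw [Complex.re_eq_add_conj]
  ring

omit [NumberField k] in
theorem mink_int {n : ℕ} {w : Fin n → k} (hw : ∀ i, IsIntegral ℤ (w i)) (a : Fin n → ℤ) :
    IsIntegral ℤ (∑ i, (a i : k) * w i) :=
  IsIntegral.sum _ fun i _ => IsIntegral.mul (isIntegral_algebraMap (R := ℤ) (A := k)) (hw i)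

theorem mink_le {n : ℕ} (w : Fin n → k) (a : Fin n → ℤ) (x : Fin n → ℝ) {δ : ℝ}
    (h : ∀ i, |(a i : ℝ) + x i| ≤ δ) (σ : k →+* ℂ) :
    ‖σ (∑ i, (a i : k) * w i) + ∑ i, (x i : ℂ) * σ (w i)‖ ≤
      δ * ∑ τ : k →+* ℂ, ∑ i, ‖τ (w i)‖ := by
  rcases Nat.eq_zero_or_pos n with rfl | hn
  · simp
  have hδ : 0 ≤ δ := (abs_nonneg _).trans (h ⟨0, hn⟩)
  refine le_trans ?_ (mul_le_mul_of_nonneg_left (Finset.single_le_sum
    (f := fun τ : k →+* ℂ => ∑ i, ‖τ (w i)‖) (fun _ _ => by positivity) (Finset.mem_univ σ)) hδ)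
  rw [map_sum, ← Finset.sum_add_distrib, Finset.mul_sum]
  refine (norm_sum_le _ _).trans (Finset.sum_le_sum fun i _ => ?_)
  have e : σ ((a i : k) * w i) + (x i : ℂ) * σ (w i) = (((a i : ℝ) + x i : ℝ) : ℂ) * σ (w i) := by
    rw [map_mul, map_intCast]
    push_cast
    ring
  rw [e, norm_mul, Complex.norm_real, Real.norm_eq_abs]
  exact mul_le_mul_of_nonneg_right (h i) (norm_nonneg _)

/-- `u = - ∑ ⌊x i⌋ w i` -/
theorem exists_int_near : ∃ C : ℝ, 0 ≤ C ∧ ∀ μ : (k →+* ℂ) → ℂ,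
    (∀ σ, μ (ComplexEmbedding.conjugate σ) = starRingEnd ℂ (μ σ)) →
      ∃ u : k, IsIntegral ℤ u ∧ ∀ σ : k →+* ℂ, ‖σ u + μ σ‖ ≤ C := by
  obtain ⟨n, w, hw, h⟩ := exists_real_coords k
  refine ⟨∑ σ : k →+* ℂ, ∑ i, ‖σ (w i)‖, by positivity, fun μ hμ => ?_⟩
  obtain ⟨x, hx⟩ := h μ hμ
  refine ⟨∑ i, ((-⌊x i⌋ : ℤ) : k) * w i, mink_int k hw _, fun σ => ?_⟩
  rw [hx σ]
  refine (mink_le k w (fun i => -⌊x i⌋) x (δ := 1) (fun i => ?_) σ).trans_eq (one_mul _)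
  push_cast
  rw [neg_add_eq_sub, abs_le]
  constructor <;> linarith [Int.floor_le (x i), Int.lt_floor_add_one (x i)]

/-- pigeonhole on the fractional parts of `y * x i`, `0 ≤ y ≤ m ^ n`, cells
`⌊m * fract (y * x i)⌋ ∈ [0, m)` -/
theorem exists_dirichlet (η : ℝ) (hη : 0 < η) : ∃ n₀ : ℕ, ∀ μ : (k →+* ℂ) → ℂ,
    (∀ σ, μ (ComplexEmbedding.conjugate σ) = starRingEnd ℂ (μ σ)) →
      ∃ y : ℕ, 1 ≤ y ∧ y ≤ n₀ ∧ ∃ x : k, IsIntegral ℤ x ∧
        ∀ σ : k →+* ℂ, ‖σ x + (y : ℂ) * μ σ‖ ≤ η := by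
  obtain ⟨n, w, hw, h⟩ := exists_real_coords k
  obtain ⟨C, hC⟩ : ∃ C : ℝ, C = ∑ σ : k →+* ℂ, ∑ i, ‖σ (w i)‖ := ⟨_, rfl⟩
  have hC0 : 0 ≤ C := by rw [hC]; positivity
  obtain ⟨m, hm⟩ := exists_nat_gt (C / η)
  have hm0 : (0 : ℝ) < m := (div_nonneg hC0 hη.le).trans_lt hm
  refine ⟨m ^ n, fun μ hμ => ?_⟩
  obtain ⟨x, hx⟩ := h μ hμ
  have hc : ∀ (y : ℕ) (i : Fin n), ⌊(m : ℝ) * Int.fract (y * x i)⌋₊ < m := fun y i => by
    rw [Nat.floor_lt (mul_nonneg hm0.le (Int.fract_nonneg _))]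
    exact mul_lt_of_lt_one_right hm0 (Int.fract_lt_one _)
  obtain ⟨a, b, hab, hf⟩ : ∃ a b : Fin (m ^ n + 1), a < b ∧ ∀ i,
      ⌊(m : ℝ) * Int.fract ((a : ℕ) * x i)⌋₊ = ⌊(m : ℝ) * Int.fract ((b : ℕ) * x i)⌋₊ := by
    obtain ⟨a, b, hab, hf⟩ := Fintype.exists_ne_map_eq_of_card_lt
      (fun (y : Fin (m ^ n + 1)) (i : Fin n) => (⟨_, hc y i⟩ : Fin m)) (by simp)
    have hf' : ∀ i, ⌊(m : ℝ) * Int.fract ((a : ℕ) * x i)⌋₊ =
        ⌊(m : ℝ) * Int.fract ((b : ℕ) * x i)⌋₊ := fun i => congrArg Fin.val (congrFun hf i)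
    rcases lt_or_gt_of_ne hab with h1 | h1
    · exact ⟨a, b, h1, hf'⟩
    · exact ⟨b, a, h1, fun i => (hf' i).symm⟩
  have hab' : (a : ℕ) < b := hab
  refine ⟨b - a, by omega, by have := b.2; omega,
    ∑ i, ((⌊(a : ℕ) * x i⌋ - ⌊(b : ℕ) * x i⌋ : ℤ) : k) * w i, mink_int k hw _, fun σ => ?_⟩
  have e : (((b : ℕ) - a : ℕ) : ℂ) * μ σ =
      ∑ i, (((((b : ℕ) : ℝ) - (a : ℕ)) * x i : ℝ) : ℂ) * σ (w i) := by
    rw [hx σ, Finset.mul_sum]
    refine Finset.sum_congr rfl fun i _ => ?_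
    push_cast [Nat.cast_sub hab'.le]
    ring
  rw [e]
  refine (mink_le k w _ _ (δ := 1 / m) (fun i => ?_) σ).trans ?_
  · have h1 := Nat.floor_le (mul_nonneg hm0.le (Int.fract_nonneg (((a : ℕ) : ℝ) * x i)))
    have h2 := Nat.floor_le (mul_nonneg hm0.le (Int.fract_nonneg (((b : ℕ) : ℝ) * x i)))
    have h3 := Nat.lt_floor_add_one ((m : ℝ) * Int.fract (((a : ℕ) : ℝ) * x i))
    have h4 := Nat.lt_floor_add_one ((m : ℝ) * Int.fract (((b : ℕ) : ℝ) * x i))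
    rw [hf i] at h1 h3
    have e2 : ((⌊(a : ℕ) * x i⌋ - ⌊(b : ℕ) * x i⌋ : ℤ) : ℝ) + (((b : ℕ) : ℝ) - (a : ℕ)) * x i =
        Int.fract (((b : ℕ) : ℝ) * x i) - Int.fract (((a : ℕ) : ℝ) * x i) := by
      simp only [Int.fract]
      push_cast
      ring
    rw [e2, le_div_iff₀ hm0, ← abs_of_pos hm0, ← abs_mul, abs_le]
    constructor <;> linarith
  · rw [← hC, one_div, inv_mul_le_iff₀ hm0]
    rw [div_lt_iff₀ hη] at hm
    exact hm.le

/-- a nonzero algebraic integer has a conjugate of absolute value at least 1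
(`InfinitePlace.one_le_of_lt_one` or the norm) -/
theorem exists_one_le {x : k} (hx : IsIntegral ℤ x) (h0 : x ≠ 0) : ∃ σ : k →+* ℂ, 1 ≤ ‖σ x‖ := by
  by_contra hcon
  push Not at hcon
  obtain ⟨w⟩ := (inferInstance : Nonempty (InfinitePlace k))
  have h1 : ∀ z : InfinitePlace k, z x < 1 := fun z => by
    rw [← InfinitePlace.norm_embedding_eq]
    exact hcon _
  have h2 := InfinitePlace.one_le_of_lt_one (w := w) (a := (⟨x, hx⟩ : 𝓞 k))
    (fun h => h0 (congrArg Subtype.val h)) (fun z _ => h1 z)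
  exact absurd (h1 w) (not_lt.2 h2)

/-- prescribed signs: apply `exists_int_near` with `μ σ = -(C + 2) * (± 1)` at the real `σ`
(`σ = ofReal ∘ ρ`) and `0` at the others -/
theorem exists_int_sign (s : (k →+* ℝ) → Prop) : ∃ u : k, IsIntegral ℤ u ∧
    ∀ ρ : k →+* ℝ, (s ρ → 1 < ρ u) ∧ (¬ s ρ → ρ u < -1) := by
  classical
  obtain ⟨C, hC0, h⟩ := exists_int_near k
  let f : (k →+* ℂ) → ℝ := fun σ =>
    if hσ : ComplexEmbedding.IsReal σ then (if s hσ.embedding then -(C + 2) else C + 2) else 0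
  obtain ⟨u, hu, hb⟩ := h (fun σ => (f σ : ℂ)) fun σ => by
    rw [Complex.conj_ofReal]
    by_cases hσ : ComplexEmbedding.IsReal σ
    · rw [ComplexEmbedding.isReal_iff.1 hσ]
    · have h2 : ¬ ComplexEmbedding.IsReal (ComplexEmbedding.conjugate σ) := fun h3 =>
        hσ (ComplexEmbedding.isReal_conjugate_iff.1 h3)
      simp only [f, dif_neg hσ, dif_neg h2]
  refine ⟨u, hu, fun ρ => ?_⟩
  have hr : ComplexEmbedding.IsReal (Complex.ofRealHom.comp ρ) := by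
    rw [ComplexEmbedding.isReal_iff]
    ext x
    simp
  have he : hr.embedding = ρ := by
    ext x
    have := hr.coe_embedding_apply x
    exact Complex.ofReal_injective this
  have h1 := hb (Complex.ofRealHom.comp ρ)
  have h2 : (Complex.ofRealHom.comp ρ) u = (ρ u : ℂ) := rfl
  rw [h2, ← Complex.ofReal_add, Complex.norm_real, Real.norm_eq_abs, abs_le] at h1
  simp only [f, dif_pos hr, he] at h1
  constructor
  · intro hs
    rw [if_pos hs] at h1
    linarith [h1.1]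
  · intro hs
    rw [if_neg hs] at h1
    linarith [h1.2]

end Pool.Agent.Lib.MP_775b3b_nt
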