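import Pool.Agent.Lib.MP_775b3b_nt.IntP

/-! The rings `intP p k` for number fields. -/

namespace Pool.Agent.Lib.MP_775b3b_nt

open MP_439fea_co

section NF

variable {k : Type*} [Field k] [NumberField k] {p : Nat.Primes}

open NumberField in
theorem intp2_val_le_one (v : P k) {x : k} (hx : IsIntegral ℤ x) : val v x ≤ 1 :=
  v.valuation_le_one (K := k) (⟨x, hx⟩ : 𝓞 k)

open NumberField in
theorem intp2_exists_mul (x : k) : ∃ m : ℕ, m ≠ 0 ∧ IsIntegral ℤ ((m : k) * x) := by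
  have h : IsAlgebraic ℤ x :=
    (IsFractionRing.isAlgebraic_iff ℤ ℚ k).2 (Algebra.IsAlgebraic.isAlgebraic x)
  obtain ⟨m, s, hm, hs⟩ := h.exists_nsmul_eq (𝓞 k)
  refine ⟨m, hm, ?_⟩
  rw [← nsmul_eq_mul, hs]
  exact s.isIntegral_coe

/-- `→`: `val_natCast_lt_one_iff`.  `←`: take `m ≠ 0` with `m x` integral
(`exists_integral_multiple` or `IsAlgebraic.exists_nsmul_eq`), `n = ordCompl[p] m`, and
`exists_int_of_val_le_one`. -/
theorem mem_intP_iff_val {x : k} :
    x ∈ intP p k ↔ ∀ v : P k, val v ((p : ℕ) : k) < 1 → val v x ≤ 1 := by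
  constructor
  · rintro ⟨n, hn, hx⟩ v hv
    have h1 : val v (n : k) = 1 := le_antisymm (val_natCast_le_one v n)
      (not_lt.1 fun h => hn ((val_natCast_lt_one_iff v p.2 hv n).1 h))
    have h2 := intp2_val_le_one v hx
    rwa [map_mul, h1, one_mul] at h2
  · intro h
    obtain ⟨m, hm, hx⟩ := intp2_exists_mul x
    obtain ⟨e, n, hn, rfl⟩ := Nat.exists_eq_pow_mul_and_not_dvd hm p p.2.ne_one
    refine ⟨n, hn, ?_⟩
    obtain ⟨y, hy⟩ := exists_int_of_val_le_one (x := (n : k) * x) fun v => by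
      by_cases hv : val v ((p : ℕ) : k) < 1
      · rw [map_mul]
        exact mul_le_one' (val_natCast_le_one v n) (h v hv)
      · have h1 : val v ((p : ℕ) : k) = 1 := le_antisymm (val_natCast_le_one v p) (not_lt.1 hv)
        have h2 := intp2_val_le_one v hx
        rwa [Nat.cast_mul, Nat.cast_pow, mul_assoc, map_mul, map_pow, h1, one_pow, one_mul] at h2
    rw [← hy]
    exact y.isIntegral_coe

theorem finite_over_prime (p : Nat.Primes) : {v : P k | val v ((p : ℕ) : k) < 1}.Finite :=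
  (finite_supp (x := ((p : ℕ) : k)) (Nat.cast_ne_zero.2 p.2.ne_zero)).subset fun _ hv => ne_of_lt hv

theorem intp2_val_absNorm (v : P k) : val v ((Ideal.absNorm v.asIdeal : ℕ) : k) < 1 := by
  have := (Val_lt_iff_mem v _).2 (Ideal.absNorm_mem v.asIdeal)
  simpa using this

open NumberField IsDedekindDomain in
/-- `Ideal.card_primesOverFinset_le_finrank`, `liesOver_iff_val` in `MP_439fea_co/Act.lean` -/
theorem ncard_over_prime_le (p : Nat.Primes) :
    {v : P k | val v ((p : ℕ) : k) < 1}.ncard ≤ Module.finrank ℚ k := by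
  have hf := finite_over_prime (k := k) p
  rw [Set.ncard_eq_toFinset_card _ hf]
  have h1 : ∏ v ∈ hf.toFinset, v.asIdeal ∣ Ideal.span {(((p : ℕ) : ℕ) : 𝓞 k)} := by
    apply Finset.prod_dvd_of_coprime
    · intro i _ j _ hij
      exact Ideal.isCoprime_iff_sup_eq.2 (i.isMaximal.coprime_of_ne j.isMaximal
        (fun h => hij (HeightOneSpectrum.ext h)))
    · intro v hv
      rw [Ideal.dvd_span_singleton, ← Val_lt_iff_mem]
      simpa using hv
  have h2 := map_dvd Ideal.absNorm h1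
  rw [Ideal.absNorm_span_natCast, RingOfIntegers.rank, map_prod] at h2
  have h3 : (p : ℕ) ^ hf.toFinset.card ∣ ∏ v ∈ hf.toFinset, Ideal.absNorm v.asIdeal := by
    rw [← Finset.prod_const]
    refine Finset.prod_dvd_prod_of_dvd _ _ fun v hv => ?_
    exact Val_dvd_of_lt v p.2 (by simpa using hv) (intp2_val_absNorm v)
  exact (Nat.pow_dvd_pow_iff_le_right p.2.one_lt).1 (h3.trans h2)

theorem exists_mul_isIntegral (x : k) : ∃ m : ℕ, m ≠ 0 ∧ IsIntegral ℤ ((m : k) * x) :=
  intp2_exists_mul x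

open NumberField IsDedekindDomain in
/-- `N = absNorm (differentIdeal ℤ (𝓞 k))` with `pow_sub_one_dvd_differentIdeal` (see
`MP_f61260_nt/RadBeta.lean`), or `N = (discr k).natAbs` with
`not_dvd_discr_iff_forall_liesOver`; `Val_le_iff_mem` -/
theorem exists_unr (k : Type*) [Field k] [NumberField k] :
    ∃ N₀ : ℕ, N₀ ≠ 0 ∧ ∀ N, N₀ ∣ N → Unr k N := by
  refine ⟨(discr k).natAbs, Int.natAbs_ne_zero.2 (discr_ne_zero k), fun N hN v p hp hv => ?_⟩
  have hp0 : ((p : ℕ) : k) ≠ 0 := Nat.cast_ne_zero.2 p.2.ne_zero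
  have h1 := val_eq_exp v hp0
  rw [h1, ← WithZero.exp_zero, WithZero.exp_lt_exp] at hv
  rw [h1]
  congr 1
  by_contra hne
  have h2 : (((p : ℕ) : ℕ) : 𝓞 k) ∈ v.asIdeal ^ 2 := by
    rw [← Val_le_iff_mem]
    have e : ((((p : ℕ) : ℕ) : 𝓞 k) : k) = ((p : ℕ) : k) := by simp
    rw [e, h1, WithZero.exp_le_exp]
    push_cast
    omega
  have hpz : Prime ((p : ℕ) : ℤ) := Nat.prime_iff_prime_int.mp p.2
  have hmax : (Ideal.span {((p : ℕ) : ℤ)}).IsMaximal := hpz.isMaximal_span_singleton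
  have hb : Ideal.span {((p : ℕ) : ℤ)} ≠ ⊥ := by simpa using p.2.ne_zero
  let := FractionRing.liftAlgebra ℤ (FractionRing (𝓞 k))
  have h3 := pow_sub_one_dvd_differentIdeal ℤ v.asIdeal 2 hb (by
    rw [Ideal.map_span, Set.image_singleton, Ideal.dvd_span_singleton]
    simpa using h2)
  have h4 := Ideal.dvd_iff_le.1 h3 (discr_mem_differentIdeal k (𝓞 k))
  have h5 : (((discr k).natAbs : ℕ) : 𝓞 k) ∈ v.asIdeal := by
    have h6 : ((discr k : ℤ) : 𝓞 k) ∈ v.asIdeal := by simpa using h4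
    rcases Int.natAbs_eq (discr k) with e | e
    · rw [e] at h6
      simpa using h6
    · rw [e] at h6
      simpa using h6
  have h7 : val v (((discr k).natAbs : ℕ) : k) < 1 := by
    have := (Val_lt_iff_mem v _).2 h5
    simpa using this
  refine hp ((Val_dvd_of_lt v p.2 ?_ h7).trans hN)
  rw [h1, ← WithZero.exp_zero, WithZero.exp_lt_exp]
  exact hv

end NF

end Pool.Agent.Lib.MP_775b3b_nt
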