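import Pool.Agent.Lib.MP_775b3b_nt.Idx
import Pool.Agent.Lib.MP_775b3b_nt.IntP2

/-! Local triviality costs a bounded index at each bad prime. -/

namespace Pool.Agent.Lib.MP_775b3b_nt

open Cub MP_439fea_co WithZero

theorem stidx_le {a : ℤᵐ⁰} (h : a < 1) : a ≤ exp (-1) := by
  have h0 : (exp (-1) : ℤᵐ⁰) ≠ 0 := exp_ne_zero
  rw [← lt_mul_exp_iff_le h0, ← exp_add]
  simpa using h

theorem stidx_newton {k : Type*} [Field k] [CharZero k] (v : Valuation k ℤᵐ⁰) {x : kˣ}
    (hx : x ∈ Sq v) (n : ℕ) :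
    ∃ (z : kˣ) (s : k), ((x * z ^ 2 : kˣ) : k) = 1 + 4 * s ∧ v s ≤ exp (-((n : ℤ) + 1)) := by
  induction n with
  | zero =>
    obtain ⟨z, o, ho, rfl⟩ := mem_Sq.1 hx
    refine ⟨z⁻¹, ((o : k) - 1) / 4, ?_, ?_⟩
    · have : z ^ 2 * o * z⁻¹ ^ 2 = o := by
        rw [mul_right_comm, ← mul_pow, mul_inv_cancel, one_pow, one_mul]
      rw [this]
      ring
    · have h := mem_One.1 ho
      have : v (((o : k) - 1) / 4) < 1 := by
        rw [map_div₀, div_lt_one₀ (local_val_four_pos v)]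
        exact h
      simpa using stidx_le this
  | succ n ih =>
    obtain ⟨z, s, e, hs⟩ := ih
    have h1 : (exp (-((n : ℤ) + 1)) : ℤᵐ⁰) < 1 := by
      rw [← exp_zero, exp_lt_exp]
      omega
    have h2 : v (2 * s) < 1 :=
      local_mul_lt v (by simpa using val_nat_le_one v 2) (hs.trans_lt h1)
    have h3 : v (1 + 2 * s) = 1 := v.map_one_add_of_lt h2
    have h4 : (1 + 2 * s : k) ≠ 0 := fun h => by
      rw [h, map_zero] at h3
      exact zero_ne_one h3
    refine ⟨z * (Units.mk0 _ h4)⁻¹, -(s ^ 2 / (1 + 2 * s) ^ 2), ?_, ?_⟩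
    · rw [mul_pow, ← mul_assoc, Units.val_mul, e, Units.val_pow_eq_pow_val,
        Units.val_inv_eq_inv_val, Units.val_mk0]
      have h5 : (1 + 2 * s) * (1 + 2 * s)⁻¹ = 1 := mul_inv_cancel₀ h4
      rw [div_eq_mul_inv, ← inv_pow]
      linear_combination ((1 + 2 * s) * (1 + 2 * s)⁻¹ + 1) * h5
    · rw [Valuation.map_neg, map_div₀, map_pow, map_pow, h3, one_pow, div_one, pow_two]
      refine (mul_le_mul' hs hs).trans ?_
      rw [← exp_add, exp_le_exp]
      push_cast
      omega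

/-- Newton: if `u = 1 + t`, `val t < val 4`, `z = 1 + t / 2`, then `u / z^2 - 1 = -(t^2/4)/z^2` has
valuation `val t * (val t / val 4) ≤ val t * exp (-1)` -/
theorem sq_refine {k : Type*} [Field k] [NumberField k] (v : P k) {x : kˣ} (hx : x ∈ Sq (val v))
    (γ : ℤᵐ⁰) (hγ : γ ≠ 0) : ∃ z : kˣ, val v (((x * z ^ 2 : kˣ) : k) - 1) ≤ γ := by
  obtain ⟨n, hn⟩ := Val_exists_exp_le hγ
  obtain ⟨z, s, e, hs⟩ := stidx_newton (val v) hx n
  refine ⟨z, ?_⟩
  rw [e, add_sub_cancel_left, map_mul]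
  refine (mul_le_mul' (val_four_le_one (val v)) hs).trans ?_
  rw [one_mul]
  refine le_trans ?_ hn
  rw [exp_le_exp]
  omega

theorem stidx_min {ι : Type*} (S : Finset ι) (g : ι → ℤᵐ⁰) (hg : ∀ i ∈ S, g i ≠ 0) :
    ∃ γ : ℤᵐ⁰, γ ≠ 0 ∧ ∀ i ∈ S, γ ≤ g i := by
  rcases S.eq_empty_or_nonempty with rfl | hS
  · exact ⟨1, one_ne_zero, fun i hi => absurd hi (Finset.notMem_empty i)⟩
  · obtain ⟨i, hi, h⟩ := S.exists_min_image g hS
    exact ⟨g i, hg i hi, h⟩

theorem stidx_mem {k : Type*} [Field k] [NumberField k] {p : Nat.Primes} {d : kˣ}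
    (hd : ∀ v : P k, val v ((p : ℕ) : k) < 1 → d ∈ Sq (val v)) : d ∈ stq p (intP p k) := by
  classical
  intro n
  have hp0 : ((p : ℕ) : k) ≠ 0 := Nat.cast_ne_zero.2 p.2.ne_zero
  have hv0 : ∀ v : P k, val v ((p : ℕ) : k) ≠ 0 := fun v => (Valuation.ne_zero_iff _).2 hp0
  have h1 : ∀ v : P k, ∃ z : kˣ, val v ((p : ℕ) : k) < 1 →
      val v (((d * z ^ 2 : kˣ) : k) - 1) ≤ val v ((p : ℕ) : k) ^ (n + 1) := by
    intro v
    by_cases h : val v ((p : ℕ) : k) < 1
    · obtain ⟨z, hz⟩ := sq_refine v (hd v h) _ (pow_ne_zero (n + 1) (hv0 v))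
      exact ⟨z, fun _ => hz⟩
    · exact ⟨1, fun h' => absurd h' h⟩
  choose z hz using h1
  set S := (finite_over_prime (k := k) p).toFinset with hS
  obtain ⟨γ, hγ, hγ'⟩ := stidx_min S (fun v => val v ((p : ℕ) : k) ^ (n + 1) * val v (z v : k))
    fun v _ => mul_ne_zero (pow_ne_zero _ (hv0 v)) ((Valuation.ne_zero_iff _).2 (z v).ne_zero)
  obtain ⟨w, hw, -⟩ := approx S (fun v => (z v : k)) γ hγ
  have key : ∀ v : P k, val v ((p : ℕ) : k) < 1 →
      val v ((d : k) * w ^ 2 - 1) ≤ val v ((p : ℕ) : k) ^ (n + 1) := by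
    intro v hv
    have hvS : v ∈ S := by simpa [hS] using hv
    have hz0 : (z v : k) ≠ 0 := (z v).ne_zero
    have hε : val v ((p : ℕ) : k) ^ (n + 1) ≤ 1 := pow_le_one₀ zero_le hv.le
    have a1 : val v (w / z v - 1) ≤ val v ((p : ℕ) : k) ^ (n + 1) := by
      rw [show w / z v - 1 = (w - z v) / z v by field_simp, map_div₀,
        div_le_iff₀ (zero_lt_iff.2 ((Valuation.ne_zero_iff _).2 hz0))]
      exact (hw v hvS).trans (hγ' v hvS)
    have a2 : val v (w / z v) ≤ 1 := by
      rw [show w / z v = (w / z v - 1) + 1 by ring]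
      exact (val v).map_add_le (a1.trans hε) (by simp)
    have a3 : val v (w / z v + 1) ≤ 1 := (val v).map_add_le a2 (by simp)
    have a4 := hz v hv
    rw [Units.val_mul, Units.val_pow_eq_pow_val] at a4
    rw [show (d : k) * w ^ 2 - 1 = ((d : k) * (z v : k) ^ 2 - 1) * (w / z v) ^ 2 +
      (w / z v - 1) * (w / z v + 1) by field_simp; ring]
    refine (val v).map_add_le ?_ ?_
    · rw [map_mul, map_pow]
      exact (mul_le_mul' a4 (pow_le_one₀ zero_le a2)).trans (mul_one _).le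
    · rw [map_mul]
      exact (mul_le_mul' a1 a3).trans (mul_one _).le
  have key1 : ∀ v : P k, val v ((p : ℕ) : k) < 1 → val v ((d : k) * w ^ 2) = 1 := by
    intro v hv
    have : val v ((d : k) * w ^ 2 - 1) < 1 :=
      (key v hv).trans_lt (pow_lt_one₀ zero_le hv (Nat.succ_ne_zero n))
    simpa using (val v).map_one_add_of_lt this
  have hw0 : w ≠ 0 := by
    obtain ⟨v, hv⟩ := exists_over_prime k p.2
    intro h
    have := key1 v hv
    simp [h] at this
  have fin : ∀ u : k, (∀ v : P k, val v ((p : ℕ) : k) < 1 →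
      val v u ≤ val v ((p : ℕ) : k) ^ (n + 1)) → u / ((p : ℕ) : k) ^ n ∈ intP p k := by
    intro u hu
    refine mem_intP_iff_val.2 fun v hv => ?_
    rw [map_div₀, map_pow, div_le_one₀ (zero_lt_iff.2 (pow_ne_zero _ (hv0 v)))]
    refine (hu v hv).trans ?_
    rw [pow_succ]
    exact (mul_le_mul' le_rfl hv.le).trans (mul_one _).le
  have hu0 : (d : k) * w ^ 2 ≠ 0 := mul_ne_zero d.ne_zero (pow_ne_zero _ hw0)
  refine ⟨Units.mk0 w hw0, _, fin _ key, _, fin (((d : k) * w ^ 2)⁻¹ - 1) fun v hv => ?_, ?_, ?_⟩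
  · rw [show ((d : k) * w ^ 2)⁻¹ - 1 = -(((d : k) * w ^ 2 - 1) / ((d : k) * w ^ 2)) by
      field_simp; ring, Valuation.map_neg, map_div₀, key1 v hv, div_one]
    exact key v hv
  · rw [Units.val_mul, Units.val_pow_eq_pow_val, Units.val_mk0,
      mul_div_cancel₀ _ (pow_ne_zero _ hp0)]
    ring
  · rw [Units.val_inv_eq_inv_val, Units.val_mul, Units.val_pow_eq_pow_val, Units.val_mk0,
      mul_div_cancel₀ _ (pow_ne_zero _ hp0)]
    ring

/-- `⨅ v ∣ p, Sq (val v) ≤ stq p (intP p k)` by `sq_refine`, `approx`, `mem_intP_iff_val`;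
`prod_index_Sq_le`, `ncard_over_prime_le` -/
theorem stq_index_field (k : Type*) [Field k] [NumberField k] (p : Nat.Primes) :
    (stq p (intP p k)).index ≠ 0 ∧ (stq p (intP p k)).index ≤ 2 ^ (3 * Module.finrank ℚ k) := by
  classical
  set S := (finite_over_prime (k := k) p).toFinset with hS
  have hc : S.card ≤ Module.finrank ℚ k := by
    rw [hS, ← Set.ncard_eq_toFinset_card _ (finite_over_prime p)]
    exact ncard_over_prime_le p
  have hle : (⨅ v : S, Sq (val v.1)) ≤ stq p (intP p k) := by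
    intro d hd
    refine stidx_mem fun v hv => ?_
    exact Subgroup.mem_iInf.1 hd ⟨v, by simpa [hS] using hv⟩
  have h0 : (⨅ v : S, Sq (val v.1)).index ≠ 0 :=
    Subgroup.index_iInf_ne_zero fun v => index_Sq_ne_zero v.1
  have hd := Subgroup.index_dvd_of_le hle
  refine ⟨ne_zero_of_dvd_ne_zero h0 hd, (Nat.le_of_dvd (Nat.pos_of_ne_zero h0) hd).trans ?_⟩
  refine (Subgroup.index_iInf_le _).trans ?_
  rw [Finset.prod_coe_sort S fun v => (Sq (val v)).index]
  refine (prod_index_Sq_le S).trans ?_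
  rw [show (4 : ℕ) = 2 ^ 2 by norm_num, ← pow_mul, ← pow_add]
  exact Nat.pow_le_pow_right two_pos (by omega)

theorem stidx_field (K : Type*) [Field K] [inst : Algebra ℚ K] [hf : Module.Finite ℚ K] {n : ℕ}
    (hK : Module.finrank ℚ K ≤ n) (p : Nat.Primes) :
    (stq p (intP p K)).index ≠ 0 ∧ (stq p (intP p K)).index ≤ 2 ^ (3 * n) := by
  have : CharZero K := algebraRat.charZero K
  obtain rfl : inst = DivisionRing.toRatAlgebra := Subsingleton.elim _ _
  have : NumberField K := { to_finiteDimensional := hf }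
  obtain ⟨h0, h1⟩ := stq_index_field K p
  exact ⟨h0, h1.trans (Nat.pow_le_pow_right two_pos (by omega))⟩

theorem stidx_int {ι : Type*} [Fintype ι] {R : Type*} [CommRing R] {K : ι → Type*}
    [∀ i, CommRing (K i)] (f : ∀ i, R →+* K i) (hf : ∀ x, (∀ i, f i x = 0) → x = 0)
    {p : Nat.Primes} {x : R} (hx : ∀ i, f i x ∈ intP p (K i)) : x ∈ intP p R := by
  classical
  choose m hm hi using hx
  refine ⟨∏ i, m i, fun h => ?_, ?_⟩
  · obtain ⟨i, -, h⟩ := (Prime.dvd_finsetProd_iff p.2.prime _).1 h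
    exact hm i h
  · have h1 : ∀ i, IsIntegral ℤ (f i (((∏ j, m j : ℕ) : R) * x)) := by
      intro i
      have h2 : IsIntegral ℤ ((∏ j ∈ Finset.univ.erase i, m j : ℕ) : K i) := by
        simpa using isIntegral_algebraMap (R := ℤ) (A := K i)
          (x := ((∏ j ∈ Finset.univ.erase i, m j : ℕ) : ℤ))
      have := h2.mul (hi i)
      rwa [← mul_assoc, ← Nat.cast_mul, Finset.prod_erase_mul _ _ (Finset.mem_univ i),
        ← map_natCast (f i), ← map_mul] at this
    choose q hq hq0 using h1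
    refine ⟨∏ i, q i, Polynomial.monic_prod_of_monic _ _ fun i _ => hq i, hf _ fun i => ?_⟩
    rw [Polynomial.hom_eval₂, Polynomial.eval₂_finsetProd]
    refine Finset.prod_eq_zero (Finset.mem_univ i) ?_
    rw [← hq0 i]
    congr 1
    exact Subsingleton.elim _ _

theorem stidx_pi {ι : Type*} [Fintype ι] {R : Type*} [CommRing R] {K : ι → Type*}
    [∀ i, CommRing (K i)] (f : ∀ i, R →+* K i) (hf : ∀ x, (∀ i, f i x = 0) → x = 0)
    (hs : ∀ y : ∀ i, K i, ∃ x, ∀ i, f i x = y i) {p : Nat.Primes} {d : Rˣ}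
    (hd : ∀ i, Units.map (f i : R →* K i) d ∈ stq p (intP p (K i))) : d ∈ stq p (intP p R) := by
  intro n
  have inj : ∀ a b : R, (∀ i, f i a = f i b) → a = b := fun a b h =>
    sub_eq_zero.1 (hf _ fun i => by rw [map_sub, h i, sub_self])
  choose z y hy y' hy' h1 h2 using fun i => hd i n
  obtain ⟨a, ha⟩ := hs fun i => (z i : K i)
  obtain ⟨b, hb⟩ := hs fun i => ((z i)⁻¹ : (K i)ˣ)
  obtain ⟨u, hu⟩ := hs y
  obtain ⟨u', hu'⟩ := hs y'
  have hab : a * b = 1 := inj _ _ fun i => by rw [map_mul, ha, hb, map_one, Units.mul_inv]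
  let w : Rˣ := ⟨a, b, hab, by rw [mul_comm, hab]⟩
  have hw : ∀ i, Units.map (f i : R →* K i) w = z i := fun i => Units.ext (ha i)
  refine ⟨w, u, stidx_int f hf fun i => by rw [hu]; exact hy i,
    u', stidx_int f hf fun i => by rw [hu']; exact hy' i, inj _ _ fun i => ?_, inj _ _ fun i => ?_⟩
  · rw [map_add, map_one, map_mul (f i) (_ ^ n), map_pow, map_natCast, hu, ← h1 i, ← hw i, ← map_pow,
      ← map_mul]
    rfl
  · rw [map_add, map_one, map_mul (f i) (_ ^ n), map_pow, map_natCast, hu', ← h2 i, ← hw i,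
      ← map_pow, ← map_mul, ← map_inv]
    rfl

/-- `R` is a reduced Artinian ring, `IsArtinianRing.equivPi R : R ≃+* ∀ m : MaximalSpectrum R, R ⧸ m`;
the factors are number fields of degree `≤ n`, there are at most `n` of them (the dimensions add
up to `finrank ℚ R`); an element with integral components is integral (`IsIntegral.pi` or sum of
`Pi.single`, or product of the monic polynomials). -/
theorem stq_index (n : ℕ) (R : Type*) [CommRing R] [Algebra ℚ R] [Module.Finite ℚ R] [IsReduced R]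
    (hR : Module.finrank ℚ R ≤ n) (p : Nat.Primes) :
    (stq p (intP p R)).index ≠ 0 ∧ (stq p (intP p R)).index ≤ 2 ^ (3 * n * n) := by
  classical
  have : IsArtinianRing R := IsArtinianRing.of_finite ℚ R
  have : Fintype (MaximalSpectrum R) := Fintype.ofFinite _
  let e := IsArtinianRing.equivPi R
  let f : ∀ I : MaximalSpectrum R, R →+* R ⧸ I.asIdeal := fun I => Ideal.Quotient.mk I.asIdeal
  have he : ∀ x I, e x I = f I x := fun x I => IsArtinianRing.equivPi_apply R x I
  have hsum : ∑ I : MaximalSpectrum R, Module.finrank ℚ (R ⧸ I.asIdeal) ≤ n := by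
    rw [← Module.finrank_pi_fintype, ← (e.restrictScalars ℚ).toLinearEquiv.finrank_eq]
    exact hR
  have hpos : ∀ I : MaximalSpectrum R, 1 ≤ Module.finrank ℚ (R ⧸ I.asIdeal) := by
    intro I
    have := I.isMaximal
    have : Nontrivial (R ⧸ I.asIdeal) := Ideal.Quotient.nontrivial_iff.2 I.isMaximal.ne_top
    exact Module.finrank_pos
  have hcard : (Finset.univ : Finset (MaximalSpectrum R)).card ≤ n := by
    refine le_trans ?_ hsum
    rw [Finset.card_eq_sum_ones]
    exact Finset.sum_le_sum fun I _ => hpos I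
  have hB : ∀ I : MaximalSpectrum R,
      Bd ((stq p (intP p (R ⧸ I.asIdeal))).comap (Units.map (f I : R →* R ⧸ I.asIdeal))) ⊤
        (2 ^ (3 * n)) := by
    intro I
    have := I.isMaximal
    have h1 : Module.finrank ℚ (R ⧸ I.asIdeal) ≤ n :=
      (Finset.single_le_sum (f := fun J : MaximalSpectrum R => Module.finrank ℚ (R ⧸ J.asIdeal))
        (fun _ _ => Nat.zero_le _) (Finset.mem_univ I)).trans hsum
    let _ : Field (R ⧸ I.asIdeal) := Ideal.Quotient.field I.asIdeal
    obtain ⟨a, b⟩ := stidx_field (R ⧸ I.asIdeal) h1 p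
    exact (Bd.of_index a b ⊤).comap _ fun _ _ => Subgroup.mem_top _
  have h := ((Bd.biInf Finset.univ _ ⊤ _ fun I _ => hB I).of_le_left
    (H' := stq p (intP p R)) fun d hd => by
      refine stidx_pi f (fun x hx => e.injective ?_) (fun y => ⟨e.symm y, fun I => ?_⟩) fun I => ?_
      · funext I
        rw [he, hx, map_zero]
        rfl
      · rw [← he, e.apply_symm_apply]
      · exact Subgroup.mem_iInf.1 (Subgroup.mem_iInf.1 hd I) (Finset.mem_univ I)).mono
    (m := 2 ^ (3 * n * n)) (by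
      rw [← pow_mul]
      exact Nat.pow_le_pow_right two_pos (Nat.mul_le_mul_left _ hcard))
  rwa [Bd, Subgroup.relIndex_top_right] at h

end Pool.Agent.Lib.MP_775b3b_nt
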