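import Pool.Agent.Lib.MP_775b3b_nt.HasseR
import Pool.Agent.Lib.MP_775b3b_nt.LocIso
import Pool.Agent.Lib.MP_775b3b_nt.StIdx
import Pool.Agent.Lib.MP_775b3b_nt.Eps
import Pool.Agent.Lib.MP_775b3b_nt.Coord
import Pool.Agent.Lib.MP_775b3b_nt.Mink
import Pool.Agent.Lib.MP_775b3b_nt.Hyp

/-! The ternary form of a class in `Sel1` is isotropic. -/

namespace Pool.Agent.Lib.MP_775b3b_nt

open Cub MP_439fea_co NumberField

variable {e : ℤ × ℤ} {k : Type} [Field k] [NumberField k]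

theorem lgiso_near (v : P k) {A B : k} (hA : A ≠ 0)
    (h : val v (B - A) < val v 4 * val v A) : ∃ o ∈ One (val v), B = A * (o : kˣ) := by
  have hA' : 0 < val v A := zero_lt_iff.2 ((Valuation.ne_zero_iff _).2 hA)
  have hB : B ≠ 0 := by
    rintro rfl
    rw [zero_sub, Valuation.map_neg] at h
    exact absurd (mul_le_of_le_one_left' (val_four_le_one (val v))) (not_le.2 h)
  refine ⟨Units.mk0 (B / A) (div_ne_zero hB hA), ?_, ?_⟩
  · rw [mem_One, Units.val_mk0, div_sub_one hA, map_div₀, div_lt_iff₀ hA']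
    exact h
  · rw [Units.val_mk0, mul_div_cancel₀ _ hA]

theorem lgiso_small {γ : WithZero (Multiplicative ℤ)} (hγ : γ ≠ 0)
    (δ : WithZero (Multiplicative ℤ)) : ∃ η, η ≠ 0 ∧ η * δ < γ := by
  by_cases hδ : δ = 0
  · exact ⟨1, one_ne_zero, by rw [hδ, mul_zero]; exact zero_lt_iff.2 hγ⟩
  · refine ⟨γ * WithZero.exp (-1) * δ⁻¹,
      mul_ne_zero (mul_ne_zero hγ WithZero.exp_ne_zero) (inv_ne_zero hδ), ?_⟩
    rw [inv_mul_cancel_right₀ hδ]
    refine mul_lt_of_lt_one_right (zero_lt_iff.2 hγ) ?_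
    rw [← WithZero.exp_zero, WithZero.exp_lt_exp]
    norm_num

/-- If `b ∈ Sq v`, every `c` is a local norm: with `b z^2` very close to 1 (`sq_refine`),
`((c+1)/2)^2 - b (z (c-1)/2)^2` is close to `c`.  Otherwise `val v (r^2 - b X^2) ≥ val v (4 r^2)`
for all `r ≠ 0`, `X`; write `s = r^2 o` with `val v (o - 1) < val v 16` (`sq_refine`); then
`(s - b X^2) / (r^2 - b X^2) ∈ One v`, `Y^2 - b Z^2 ≠ 0`, and
`c = (s - b X^2) / (Y^2 - b Z^2)`. -/
theorem mem_Nm_of_repr (v : P k) (b c s : kˣ) (hs : s ∈ Sq (val v)) (X Y Z : k)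
    (h : (s : k) = b * X ^ 2 + c * (Y ^ 2 - b * Z ^ 2)) : c ∈ Nm (val v) b := by
  have h4 : val v (4 : k) ≠ 0 := (local_val_four_pos (val v)).ne'
  by_cases hb : b ∈ Sq (val v)
  · obtain ⟨η, h1, h2⟩ := lgiso_small
      (mul_ne_zero h4 ((Valuation.ne_zero_iff (val v)).2 c.ne_zero))
      (val v ((((c : k) - 1) / 2) ^ 2))
    obtain ⟨z, hz⟩ := sq_refine v hb η h1
    have h3 : (((c : k) + 1) / 2) ^ 2 - b * (z * (c - 1) / 2) ^ 2 - c =
        -((((b * z ^ 2 : kˣ) : k) - 1) * (((c : k) - 1) / 2) ^ 2) := by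
      push_cast
      ring
    obtain ⟨o, ho, e⟩ := lgiso_near v (B := (((c : k) + 1) / 2) ^ 2 - b * (z * (c - 1) / 2) ^ 2)
      c.ne_zero (by
        rw [h3, Valuation.map_neg, map_mul]
        exact (mul_le_mul_left hz _).trans_lt h2)
    exact mem_Nm.2 ⟨c * o, ⟨_, _, by rw [Units.val_mul, ← e]⟩, o⁻¹, inv_mem ho, by simp⟩
  · obtain ⟨η, h1, h2⟩ := lgiso_small (mul_ne_zero h4 h4) 1
    rw [mul_one] at h2
    obtain ⟨z, hz⟩ := sq_refine v hs η h1
    set r : k := (z : k)⁻¹ with hr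
    have hr0 : r ^ 2 ≠ 0 := pow_ne_zero _ (inv_ne_zero z.ne_zero)
    have hr1 : 0 < val v (r ^ 2) := zero_lt_iff.2 ((Valuation.ne_zero_iff _).2 hr0)
    have h3 : val v 4 * val v (r ^ 2) ≤ val v (r ^ 2 - b * X ^ 2) := by
      by_contra hc
      rw [not_le, Valuation.map_sub_swap] at hc
      obtain ⟨o, ho, e⟩ := lgiso_near v hr0 hc
      have hX : X ≠ 0 := by
        rintro rfl
        exact mul_ne_zero hr0 o.ne_zero (by rw [← e]; ring)
      refine hb (mem_Sq.2 ⟨Units.mk0 (r / X) (div_ne_zero (inv_ne_zero z.ne_zero) hX), o, ho,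
        Units.ext ?_⟩)
      rw [Units.val_mul, Units.val_pow_eq_pow_val, Units.val_mk0, div_pow, div_mul_eq_mul_div, ← e,
        mul_div_cancel_right₀ _ (pow_ne_zero _ hX)]
    have hA : r ^ 2 - b * X ^ 2 ≠ 0 := by
      intro h0
      rw [h0, map_zero] at h3
      exact absurd h3 (not_le.2 (zero_lt_iff.2 (mul_ne_zero h4 hr1.ne')))
    have h5 : (s : k) - b * X ^ 2 - (r ^ 2 - b * X ^ 2) = (((s * z ^ 2 : kˣ) : k) - 1) * r ^ 2 := by
      have := z.ne_zero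
      push_cast
      rw [hr]
      field_simp
      ring
    obtain ⟨o, ho, e⟩ := lgiso_near v (B := (s : k) - b * X ^ 2) hA (by
      rw [h5, map_mul]
      refine (mul_lt_mul_of_pos_right (hz.trans_lt h2) hr1).trans_le ?_
      rw [mul_assoc]
      exact mul_le_mul_right h3 _)
    have e' : (c : k) * (Y ^ 2 - b * Z ^ 2) = (r ^ 2 - b * X ^ 2) * o := by
      rw [← e, h]
      ring
    have hN : Y ^ 2 - b * Z ^ 2 ≠ 0 := by
      intro h0
      rw [h0, mul_zero] at e'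
      exact mul_ne_zero hA o.ne_zero e'.symm
    refine mem_Nm.2 ⟨Units.mk0 _ hA / Units.mk0 _ hN,
      div_mem (show Units.mk0 _ hA ∈ Ng b from ⟨r, X, rfl⟩)
        (show Units.mk0 _ hN ∈ Ng b from ⟨Y, Z, rfl⟩), o, ho, Units.ext ?_⟩
    rw [Units.val_mul, Units.val_div_eq_div_val, Units.val_mk0, Units.val_mk0, div_mul_eq_mul_div,
      ← e', mul_div_cancel_right₀ _ hN]

theorem lgiso_big (a : Cub e ℂ) (C : ℝ) : ∃ N : ℕ, ∀ n : ℕ, N ≤ n → ∀ E : Cub e ℂ,
    ‖E.c0‖ ≤ C → ‖E.c1‖ ≤ C → ‖E.c2‖ ≤ C →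
      0 < ((((n : ℂ) • th + a * E) * ((n : ℂ) • th + a * E)).c2).re := by
  let f : ℂ × ℂ × ℂ → ℂ × ℂ := fun p => ((a * ⟨p.1, p.2.1, p.2.2⟩).c1,
    (a * ⟨p.1, p.2.1, p.2.2⟩ * (a * ⟨p.1, p.2.1, p.2.2⟩)).c2)
  have hf : Continuous f := by
    simp only [f, mul_c0, mul_c1, mul_c2]
    fun_prop
  obtain ⟨D, hD⟩ := (isCompact_closedBall (0 : ℂ × ℂ × ℂ) C).exists_bound_of_continuousOn
    hf.continuousOn
  obtain ⟨N, hN⟩ := exists_nat_gt (3 * |D| + 1)
  refine ⟨N, fun n hn E h0 h1 h2 => ?_⟩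
  have h3 := hD (E.c0, E.c1, E.c2) (by
    rw [mem_closedBall_zero_iff, norm_prod_le_iff, norm_prod_le_iff]
    exact ⟨h0, h1, h2⟩)
  rw [norm_prod_le_iff] at h3
  have h4 : ‖(a * E).c1‖ ≤ D := h3.1
  have h5 : ‖(a * E * (a * E)).c2‖ ≤ D := h3.2
  have h6 : (((n : ℂ) • th + a * E) * ((n : ℂ) • th + a * E)).c2 =
      (n : ℂ) * n + 2 * n * (a * E).c1 + (a * E * (a * E)).c2 := by
    generalize a * E = G
    simp
    ring
  have h7 := (abs_le.1 ((Complex.abs_re_le_norm _).trans h4)).1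
  have h8 := (abs_le.1 ((Complex.abs_re_le_norm _).trans h5)).1
  have h9 : (N : ℝ) ≤ n := by exact_mod_cast hn
  have h10 := le_abs_self D
  have h11 := abs_nonneg D
  rw [h6]
  generalize (a * E).c1 = u at h7 ⊢
  generalize (a * E * (a * E)).c2 = u' at h8 ⊢
  simp only [Complex.add_re, Complex.mul_re, Complex.natCast_re, Complex.natCast_im, mul_zero,
    sub_zero, Complex.re_ofNat, Complex.im_ofNat, Complex.mul_im, zero_mul, add_zero]
  nlinarith [mul_nonneg (show (0 : ℝ) ≤ n by positivity) (show 0 ≤ u.re + |D| by linarith),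
    mul_nonneg (show (0 : ℝ) ≤ n by positivity) (show 0 ≤ n - 3 * |D| - 1 by linarith),
    mul_nonneg h11 (show (0 : ℝ) ≤ n - 1 by linarith)]

/-- approximate `n (ε σ)⁻¹ θ` coordinatewise by `exists_int_near`, `n` large:
`σ (Bf d w w) = ((n θ + ε σ * E σ)^2).c2 = n^2 + O(n)` -/
theorem exists_pos_value {d : Cub e k} {ν : k} (hν0 : ν ≠ 0) {ε : (k →+* ℂ) → Cub e ℂ}
    (hε : Eps d ν ε) : ∃ w : Cub e k, ∀ σ : k →+* ℂ, 0 < (σ (Bf d w w)).re := by
  obtain ⟨C, -, hC⟩ := exists_int_near k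
  choose N hN using fun σ : k →+* ℂ => lgiso_big (ε σ) C
  obtain ⟨n, hn⟩ := Finite.bddAbove_range N
  let t : (k →+* ℂ) → Cub e ℂ := fun σ => (n : ℂ) • (σ ν)⁻¹ • (adj (ε σ) * th)
  have ht : ∀ σ, ε σ * t σ = (n : ℂ) • th := by
    intro σ
    have h1 : σ ν ≠ 0 := (map_ne_zero σ).2 hν0
    simp only [t]
    rw [mul_smul_comm, mul_smul_comm, ← mul_assoc, mul_adj, (hε σ).2.1, ← Algebra.smul_def,
      smul_smul (σ ν)⁻¹, inv_mul_cancel₀ h1, one_smul]
  have hc : ∀ σ, t (ComplexEmbedding.conjugate σ) = map (starRingEnd ℂ) (t σ) := by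
    intro σ
    simp only [t]
    rw [map_smul', map_smul', map_mul, map_th, (hε σ).2.2, adj_map, map_natCast, map_inv₀,
      ComplexEmbedding.conjugate_coe_eq]
  obtain ⟨u0, -, h0⟩ := hC (fun σ => -(t σ).c0) fun σ => by rw [hc, map_c0, map_neg]
  obtain ⟨u1, -, h1⟩ := hC (fun σ => -(t σ).c1) fun σ => by rw [hc, map_c1, map_neg]
  obtain ⟨u2, -, h2⟩ := hC (fun σ => -(t σ).c2) fun σ => by rw [hc, map_c2, map_neg]
  refine ⟨⟨u0, u1, u2⟩, fun σ => ?_⟩
  have h3 := hN σ n (hn ⟨σ, rfl⟩) (map σ ⟨u0, u1, u2⟩ - t σ)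
    (by simpa [sub_eq_add_neg] using h0 σ) (by simpa [sub_eq_add_neg] using h1 σ)
    (by simpa [sub_eq_add_neg] using h2 σ)
  rw [← ht σ, ← mul_add, add_sub_cancel, mul_mul_mul_comm, ← sq, (hε σ).1, ← map_mul, ← map_mul,
    map_c2, ← mul_assoc] at h3
  exact h3

/-- `b = Bf d w w` from `exists_pos_value`.  Take `z ∉ k w`, `y = z - (Bf z w / b) w ≠ 0`,
`c = Bf d y y`; if `c = 0` done.  `n` with `d n = ν cross w y` has `Bf n n = - b c`, `n ⊥ w, y`
(`Bf_cross`), and `w, y, n` span (`cramer`).  If `b = m^2`, `m y + n` is isotropic.  Otherwise,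
at each `v` the given `x, x'` have `s = Bf x x'^2 - Bf x x * Bf x' x' ∈ Sq v`, and `s = Bf n' n'`
for `d n' = ν cross x x'`; writing `n' = X w + Y y + Z n`, `mem_Nm_of_repr` and `hasseR` give
`c = r^2 - b t^2`; then `c w - b t y + r n` is isotropic. -/
theorem exists_isotropic {d : Cub e k} {ν : k} (hν : nm d = ν ^ 2) (hν0 : ν ≠ 0)
    {ε : (k →+* ℂ) → Cub e ℂ} (hε : Eps d ν ε)
    (hloc : ∀ v : P k, ∃ x y : Cub e k, val v (Bf d x y) = 1 ∧ val v (Bf d y y) ≤ 1 ∧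
      val v (Bf d x x) < val v 4) : ∃ x : Cub e k, x ≠ 0 ∧ Bf d x x = 0 := by
  obtain ⟨w, hw⟩ := exists_pos_value hν0 hε
  have hb : Bf d w w ≠ 0 := by
    intro h0
    obtain ⟨σ⟩ : Nonempty (k →+* ℂ) := inferInstance
    have := hw σ
    rw [h0, map_zero] at this
    exact lt_irrefl _ this
  have hz : ∃ z : Cub e k, z - (Bf d z w / Bf d w w) • w ≠ 0 := by
    by_contra hc
    push Not at hc
    have h1 := sub_eq_zero.1 (hc 1)
    have h2 := sub_eq_zero.1 (hc th)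
    have h3 := congrArg Cub.c0 h1
    have h4 := congrArg Cub.c1 h1
    have h5 := congrArg Cub.c1 h2
    simp only [one_c0, one_c1, th_c1, smul_c0, smul_c1, smul_eq_mul] at h3 h4 h5
    rcases mul_eq_zero.1 h4.symm with h6 | h6
    · rw [h6, zero_mul] at h3
      exact one_ne_zero h3
    · rw [h6, mul_zero] at h5
      exact one_ne_zero h5
  obtain ⟨z, hz⟩ := hz
  set y := z - (Bf d z w / Bf d w w) • w with hy
  have hyw : Bf d y w = 0 := by
    rw [hy, Bf_sub_left, Bf_smul_left, div_mul_cancel₀ _ hb, sub_self]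
  have hwy : Bf d w y = 0 := by rw [Bf_comm, hyw]
  clear_value y
  by_cases hc : Bf d y y = 0
  · exact ⟨y, hz, hc⟩
  obtain ⟨n, hn⟩ := exists_cross hν hν0 w y
  obtain ⟨hnn, hn'⟩ := Bf_cross hν hν0 hn
  have hnw : Bf d n w = 0 := by rw [hn', det3_self_left, mul_zero]
  have hny : Bf d n y = 0 := by rw [hn', det3_self_right, mul_zero]
  have hwn : Bf d w n = 0 := by rw [Bf_comm, hnw]
  have hyn : Bf d y n = 0 := by rw [Bf_comm, hny]
  have hq : ∀ X Y Z : k, Bf d (X • w + Y • y + Z • n) (X • w + Y • y + Z • n) =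
      Bf d w w * X ^ 2 + Bf d y y * (Y ^ 2 - Bf d w w * Z ^ 2) := by
    intro X Y Z
    simp only [Bf_add_left, Bf_add_right, Bf_smul_left, Bf_smul_right, hyw, hwy, hnw, hny, hwn, hyn,
      hnn]
    ring
  have hq' : ∀ X Y Z : k, X • w + Y • y + Z • n = 0 → X = 0 ∧ Z = 0 := by
    intro X Y Z h0
    have h1 := congrArg (fun u => Bf d u w) h0
    have h2 := congrArg (fun u => Bf d u n) h0
    have h3 : ∀ u : Cub e k, Bf d 0 u = 0 := fun u => by simp [Bf]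
    simp only [Bf_add_left, Bf_smul_left, hyw, hnw, hwn, hyn, hnn, hwy, h3] at h1 h2
    refine ⟨(mul_eq_zero.1 (by linear_combination h1)).resolve_right hb,
      (mul_eq_zero.1 (by linear_combination -h2)).resolve_right (mul_ne_zero hb hc)⟩
  by_cases hsq : IsSquare (Bf d w w)
  · obtain ⟨m, hm⟩ := hsq
    refine ⟨(0 : k) • w + m • y + (1 : k) • n, fun h0 => one_ne_zero (hq' _ _ _ h0).2, ?_⟩
    rw [hq, hm]
    ring
  have hΔ : det3 w y n ≠ 0 := by
    intro h0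
    have h1 := hn' n
    rw [h0, hnn, hwy] at h1
    exact mul_ne_zero hb hc (by linear_combination -h1)
  obtain ⟨r, t, hrt⟩ := hasseR (Units.mk0 _ hb) hsq
    (fun ρ => by simpa using hw (Complex.ofRealHom.comp ρ)) (Units.mk0 _ hc) fun v => by
      obtain ⟨x, x', h1, h2, h3⟩ := hloc v
      obtain ⟨n', hn1⟩ := exists_cross hν hν0 x x'
      have hn2 := (Bf_cross hν hν0 hn1).1
      have hu : Bf d x x' ≠ 0 := by
        intro h0
        rw [h0, map_zero] at h1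
        exact zero_ne_one h1
      obtain ⟨o, ho, e1⟩ := lgiso_near v (B := Bf d n' n') (pow_ne_zero 2 hu) (by
        rw [hn2, sub_sub_cancel_left, Valuation.map_neg, map_mul, map_pow, h1, one_pow, mul_one]
        exact (mul_le_of_le_one_right' h2).trans_lt h3)
      have e2 : n' = (det3 n' y n / det3 w y n) • w + (det3 w n' n / det3 w y n) • y +
          (det3 w y n' / det3 w y n) • n := by
        simp only [div_eq_inv_mul, mul_smul, ← smul_add]
        rw [← cramer, smul_smul, inv_mul_cancel₀ hΔ, one_smul]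
      refine mem_Nm_of_repr v _ _ (Units.mk0 _ hu ^ 2 * o) (mem_Sq.2 ⟨_, o, ho, rfl⟩)
        (det3 n' y n / det3 w y n) (det3 w n' n / det3 w y n) (det3 w y n' / det3 w y n) ?_
      rw [Units.val_mul, Units.val_pow_eq_pow_val, Units.val_mk0, Units.val_mk0, Units.val_mk0,
        ← e1, ← hq, ← e2]
  rw [Units.val_mk0, Units.val_mk0] at hrt
  refine ⟨Bf d y y • w + (-(Bf d w w * t)) • y + r • n, fun h0 => hc (hq' _ _ _ h0).1, ?_⟩
  rw [hq]
  linear_combination (Bf d w w * Bf d y y) * hrt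

theorem iso_of_sel1 {N : ℕ} (hU : Unr k N) (h2 : 2 ∣ N) (hd : disc e ≠ 0) {d : (Cub e k)ˣ}
    (h : d ∈ Sel1 N e k) : ∃ x : Cub e k, x ≠ 0 ∧ Bf (d : Cub e k) x x = 0 := by
  obtain ⟨ν, hν⟩ := (mem_Sel.1 (mem_Sel1.1 h).1).1
  obtain ⟨ε, hε⟩ := exists_eps hd (mem_Sel1.1 h).2.1 hν
  have hν0 : ν ≠ 0 := fun h0 => nm_ne_zero d (by rw [hν, h0]; ring)
  exact exists_isotropic hν hν0 hε (exists_loc_iso hU h2 hd h)

end Pool.Agent.Lib.MP_775b3b_nt
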