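import Pool.Agent.Lib.MP_775b3b_nt.Defs

/-! Elementary counts of pairs `(A, B)`. -/

namespace Pool.Agent.Lib.MP_775b3b_nt

theorem om2_card_Icc (X : ℕ) : (Finset.Icc (-(X : ℤ)) (X : ℤ)).card = 2 * X + 1 := by
  rw [Int.card_Icc]
  omega

theorem card_box_le (T : ℕ) (hT : 1 ≤ T) : (box T).card ≤ 9 * T ^ 5 := by
  have h1 : (box T).card ≤ (2 * T ^ 2 + 1) * (2 * T ^ 3 + 1) := by
    refine (Finset.card_filter_le _ _).trans (le_of_eq ?_)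
    rw [Finset.card_product, ← om2_card_Icc, ← om2_card_Icc]
    push_cast
    rfl
  have h2 : 1 ≤ T ^ 2 := Nat.one_le_pow _ _ hT
  have h3 : 1 ≤ T ^ 3 := Nat.one_le_pow _ _ hT
  calc (box T).card ≤ (2 * T ^ 2 + 1) * (2 * T ^ 3 + 1) := h1
    _ ≤ (3 * T ^ 2) * (3 * T ^ 3) := Nat.mul_le_mul (by omega) (by omega)
    _ = 9 * T ^ 5 := by ring

/-- pairwise congruent integers in an interval -/
theorem om2_cong_card (S : Finset ℤ) (X q : ℕ) (hq : 0 < q) (hS : ∀ x ∈ S, |x| ≤ (X : ℤ))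
    (hc : ∀ x ∈ S, ∀ y ∈ S, (q : ℤ) ∣ x - y) : (S.card : ℝ) ≤ 2 * (X : ℝ) / q + 1 := by
  have hq' : (0 : ℤ) < q := by exact_mod_cast hq
  have h1 : S.card ≤ (Finset.Icc (0 : ℤ) (((2 * X / q : ℕ) : ℤ))).card := by
    refine Finset.card_le_card_of_injOn (fun x => (x + X) / q) ?_ ?_
    · intro x hx
      have h := abs_le.1 (hS x hx)
      simp only [Finset.coe_Icc, Set.mem_Icc]
      refine ⟨Int.ediv_nonneg (by omega) hq'.le, ?_⟩
      push_cast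
      exact Int.ediv_le_ediv hq' (by omega)
    · intro x hx y hy hxy
      have h2 : (x + X) % q = (y + X) % q := by
        refine Int.emod_emod_of_dvd _ (dvd_refl _) ▸ ?_
        rw [Int.emod_emod_of_dvd _ (dvd_refl _), Int.emod_eq_emod_iff_emod_sub_eq_zero]
        have := hc x hx y hy
        rw [show x + X - (y + X) = x - y by ring]
        exact Int.emod_eq_zero_of_dvd this
      have h3 := Int.emod_add_mul_ediv (x + X) q
      have h4 := Int.emod_add_mul_ediv (y + X) q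
      have h5 : (x + X) / q = (y + X) / q := hxy
      rw [h2, h5] at h3
      omega
  rw [Int.card_Icc] at h1
  have h2 : S.card ≤ 2 * X / q + 1 := by
    generalize 2 * X / q = m at h1
    omega
  have h3 : ((2 * X / q : ℕ) : ℝ) ≤ ((2 * X : ℕ) : ℝ) / q := Nat.cast_div_le
  have h4 : (S.card : ℝ) ≤ ((2 * X / q : ℕ) : ℝ) + 1 := by exact_mod_cast h2
  push_cast at h3
  linarith

theorem om2_class_card (X q : ℕ) (hq : 0 < q) (a : ℤ) :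
    (((Finset.Icc (-(X : ℤ)) (X : ℤ)).filter (fun x => (q : ℤ) ∣ x - a)).card : ℝ) ≤
      2 * (X : ℝ) / q + 1 := by
  refine om2_cong_card _ X q hq (fun x hx => ?_) (fun x hx y hy => ?_)
  · exact abs_le.2 (Finset.mem_Icc.1 (Finset.mem_filter.1 hx).1)
  · have := (Finset.mem_filter.1 hx).2.sub (Finset.mem_filter.1 hy).2
    rwa [show x - a - (y - a) = x - y by ring] at this

theorem om2_not_dvd {p : ℕ} (h5 : 5 ≤ p) {r : ℕ} (hr : r = 2 ∨ r = 3) :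
    ¬ (p : ℤ) ∣ (r : ℤ) := by
  intro h
  have h1 : p ∣ r := by exact_mod_cast h
  have := Nat.le_of_dvd (by omega) h1
  omega

theorem om2_fibre {p : ℕ} (hp : p.Prime) (h5 : 5 ≤ p) (X : ℕ) (A : ℤ) (hA : ¬ (p : ℤ) ∣ A) :
    (((Finset.Icc (-(X : ℤ)) (X : ℤ)).filter
      (fun B => (p : ℤ) ^ 2 ∣ 4 * A ^ 3 + 27 * B ^ 2)).card : ℝ) ≤
      2 * (2 * (X : ℝ) / (p : ℝ) ^ 2 + 1) := by
  have hp' : Prime (p : ℤ) := Nat.prime_iff_prime_int.1 hp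
  have h2 : ¬ (p : ℤ) ∣ 2 := by exact_mod_cast om2_not_dvd h5 (r := 2) (Or.inl rfl)
  have h3 : ¬ (p : ℤ) ∣ 3 := by exact_mod_cast om2_not_dvd h5 (r := 3) (Or.inr rfl)
  rcases ((Finset.Icc (-(X : ℤ)) (X : ℤ)).filter
      (fun B => (p : ℤ) ^ 2 ∣ 4 * A ^ 3 + 27 * B ^ 2)).eq_empty_or_nonempty with h | ⟨B0, hB0⟩
  · rw [h]
    simp only [Finset.card_empty, Nat.cast_zero]
    positivity
  have hd0 := (Finset.mem_filter.1 hB0).2
  have hB : ¬ (p : ℤ) ∣ B0 := by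
    intro h
    have h4 : (p : ℤ) ∣ 4 * A ^ 3 + 27 * B0 ^ 2 := (dvd_pow_self _ two_ne_zero).trans hd0
    have h6 : (p : ℤ) ∣ 27 * B0 ^ 2 := ((dvd_pow h two_ne_zero)).mul_left _
    have h7 : (p : ℤ) ∣ 2 ^ 2 * A ^ 3 := by
      have := (dvd_add_left h6).1 h4
      rwa [show (4 : ℤ) = 2 ^ 2 by norm_num] at this
    rcases hp'.dvd_or_dvd h7 with h8 | h8
    · exact h2 (hp'.dvd_of_dvd_pow h8)
    · exact hA (hp'.dvd_of_dvd_pow h8)
  have hsub : (Finset.Icc (-(X : ℤ)) (X : ℤ)).filter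
      (fun B => (p : ℤ) ^ 2 ∣ 4 * A ^ 3 + 27 * B ^ 2) ⊆
      (Finset.Icc (-(X : ℤ)) (X : ℤ)).filter (fun x => ((p ^ 2 : ℕ) : ℤ) ∣ x - B0) ∪
      (Finset.Icc (-(X : ℤ)) (X : ℤ)).filter (fun x => ((p ^ 2 : ℕ) : ℤ) ∣ x - (-B0)) := by
    intro B hBm
    obtain ⟨hI, hd⟩ := Finset.mem_filter.1 hBm
    have h4 : (p : ℤ) ^ 2 ∣ 3 ^ 3 * ((B - B0) * (B - (-B0))) := by
      have := hd.sub hd0
      rwa [show 4 * A ^ 3 + 27 * B ^ 2 - (4 * A ^ 3 + 27 * B0 ^ 2) =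
        3 ^ 3 * ((B - B0) * (B - (-B0))) by ring] at this
    have h6 : (p : ℤ) ^ 2 ∣ (B - B0) * (B - (-B0)) :=
      hp'.pow_dvd_of_dvd_mul_left 2 (fun h => h3 (hp'.dvd_of_dvd_pow h)) h4
    rw [Finset.mem_union, Finset.mem_filter, Finset.mem_filter]
    push_cast
    by_cases h7 : (p : ℤ) ∣ B - B0
    · have h8 : ¬ (p : ℤ) ∣ B - (-B0) := by
        intro h8
        have h9 := h8.sub h7
        rw [show B - (-B0) - (B - B0) = 2 * B0 by ring] at h9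
        exact (hp'.dvd_or_dvd h9).elim h2 hB
      exact Or.inl ⟨hI, hp'.pow_dvd_of_dvd_mul_right 2 h8 h6⟩
    · exact Or.inr ⟨hI, hp'.pow_dvd_of_dvd_mul_left 2 h7 h6⟩
  have hq : 0 < p ^ 2 := pow_pos hp.pos 2
  have h10 := om2_class_card X (p ^ 2) hq B0
  have h11 := om2_class_card X (p ^ 2) hq (-B0)
  have h12 := (Finset.card_le_card hsub).trans (Finset.card_union_le _ _)
  have h13 := (Nat.cast_le (α := ℝ)).2 h12
  rw [Nat.cast_add] at h13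
  rw [Nat.cast_pow (α := ℝ)] at h10 h11
  linarith

theorem om2_prime (T : ℕ) (hT : 1 ≤ T) {p : ℕ} (hp : p.Prime) :
    (((box T).filter (fun e => (p : ℤ) ^ 2 ∣ disc e)).card : ℝ) ≤
      100 * ((T : ℝ) ^ 5 / (p : ℝ) ^ 2 + (T : ℝ) ^ 2) := by
  have hT' : (1 : ℝ) ≤ T := by exact_mod_cast hT
  have hp0 : (0 : ℝ) < p := by exact_mod_cast hp.pos
  have hp1 : (1 : ℝ) ≤ p := by exact_mod_cast hp.pos
  by_cases h5 : p < 5
  · have h1 : (((box T).filter (fun e => (p : ℤ) ^ 2 ∣ disc e)).card : ℝ) ≤ 9 * (T : ℝ) ^ 5 := by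
      exact_mod_cast (Finset.card_filter_le _ _).trans (card_box_le T hT)
    have h2 : p ≤ 3 := by
      by_contra h
      have h4 : p = 4 := by omega
      rw [h4] at hp
      exact absurd hp (by norm_num)
    have h3 : (p : ℝ) ≤ 3 := by exact_mod_cast h2
    have h4 : (T : ℝ) ^ 5 / 9 ≤ (T : ℝ) ^ 5 / (p : ℝ) ^ 2 :=
      div_le_div_of_nonneg_left (by positivity) (by positivity) (by nlinarith)
    have h6 : (0 : ℝ) ≤ (T : ℝ) ^ 2 := by positivity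
    have h7 : (0 : ℝ) ≤ (T : ℝ) ^ 5 := by positivity
    linarith
  have h5' : 5 ≤ p := not_lt.1 h5
  have hp' : Prime (p : ℤ) := Nat.prime_iff_prime_int.1 hp
  have h3 : ¬ (p : ℤ) ∣ 3 := by exact_mod_cast om2_not_dvd h5' (r := 3) (Or.inr rfl)
  set IA := Finset.Icc (-((T ^ 2 : ℕ) : ℤ)) ((T ^ 2 : ℕ) : ℤ) with hIA
  set IB := Finset.Icc (-((T ^ 3 : ℕ) : ℤ)) ((T ^ 3 : ℕ) : ℤ) with hIB
  have hsub : (box T).filter (fun e => (p : ℤ) ^ 2 ∣ disc e) ⊆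
      ((IA.filter (fun A => ¬ (p : ℤ) ∣ A)).biUnion (fun A =>
        (IB.filter (fun B => (p : ℤ) ^ 2 ∣ 4 * A ^ 3 + 27 * B ^ 2)).image (fun B => (A, B)))) ∪
      (IA.filter (fun x => (p : ℤ) ∣ x - 0) ×ˢ IB.filter (fun x => (p : ℤ) ∣ x - 0)) := by
    intro e he
    obtain ⟨hb, hd⟩ := Finset.mem_filter.1 he
    obtain ⟨h1, h2, -⟩ := mem_box.1 hb
    have hA : e.1 ∈ IA := Finset.mem_Icc.2 (abs_le.1 (by exact_mod_cast h1))
    have hB : e.2 ∈ IB := Finset.mem_Icc.2 (abs_le.1 (by exact_mod_cast h2))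
    rw [Finset.mem_union]
    by_cases h : (p : ℤ) ∣ e.1
    · right
      rw [Finset.mem_product, Finset.mem_filter, Finset.mem_filter, sub_zero, sub_zero]
      refine ⟨⟨hA, h⟩, hB, ?_⟩
      have h4 : (p : ℤ) ∣ 4 * e.1 ^ 3 + 27 * e.2 ^ 2 := (dvd_pow_self _ two_ne_zero).trans hd
      have h6 : (p : ℤ) ∣ 4 * e.1 ^ 3 := (dvd_pow h three_ne_zero).mul_left _
      have h7 : (p : ℤ) ∣ 3 ^ 3 * e.2 ^ 2 := by
        have := (dvd_add_right h6).1 h4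
        rwa [show (27 : ℤ) = 3 ^ 3 by norm_num] at this
      rcases hp'.dvd_or_dvd h7 with h8 | h8
      · exact absurd (hp'.dvd_of_dvd_pow h8) h3
      · exact hp'.dvd_of_dvd_pow h8
    · left
      rw [Finset.mem_biUnion]
      exact ⟨e.1, Finset.mem_filter.2 ⟨hA, h⟩,
        Finset.mem_image.2 ⟨e.2, Finset.mem_filter.2 ⟨hB, hd⟩, rfl⟩⟩
  have hc1 : ((((IA.filter (fun A => ¬ (p : ℤ) ∣ A)).biUnion (fun A =>
        (IB.filter (fun B => (p : ℤ) ^ 2 ∣ 4 * A ^ 3 + 27 * B ^ 2)).image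
          (fun B => (A, B)))).card : ℕ) : ℝ) ≤
      (2 * (T : ℝ) ^ 2 + 1) * (2 * (2 * (T : ℝ) ^ 3 / (p : ℝ) ^ 2 + 1)) := by
    have h1 := (Nat.cast_le (α := ℝ)).2 (Finset.card_biUnion_le
      (s := IA.filter (fun A => ¬ (p : ℤ) ∣ A)) (t := fun A =>
        (IB.filter (fun B => (p : ℤ) ^ 2 ∣ 4 * A ^ 3 + 27 * B ^ 2)).image (fun B => (A, B))))
    refine h1.trans ?_
    rw [Nat.cast_sum]
    refine (Finset.sum_le_card_nsmul _ _ (2 * (2 * (T : ℝ) ^ 3 / (p : ℝ) ^ 2 + 1))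
      (fun A hA => ?_)).trans ?_
    · refine ((Nat.cast_le (α := ℝ)).2 Finset.card_image_le).trans ?_
      have := om2_fibre hp h5' (T ^ 3) A (Finset.mem_filter.1 hA).2
      rwa [Nat.cast_pow (α := ℝ)] at this
    · rw [nsmul_eq_mul]
      refine mul_le_mul_of_nonneg_right ?_ (by positivity)
      have h2 : (IA.filter (fun A => ¬ (p : ℤ) ∣ A)).card ≤ 2 * T ^ 2 + 1 :=
        (Finset.card_filter_le _ _).trans (om2_card_Icc _).le
      exact_mod_cast h2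
  have hc2 : (((IA.filter (fun x => (p : ℤ) ∣ x - 0) ×ˢ
      IB.filter (fun x => (p : ℤ) ∣ x - 0)).card : ℕ) : ℝ) ≤
      (2 * (T : ℝ) ^ 2 / p + 1) * (2 * (T : ℝ) ^ 3 / p + 1) := by
    rw [Finset.card_product, Nat.cast_mul]
    have h1 := om2_class_card (T ^ 2) p hp.pos 0
    have h2 := om2_class_card (T ^ 3) p hp.pos 0
    rw [Nat.cast_pow (α := ℝ)] at h1 h2
    exact mul_le_mul h1 h2 (by positivity) (by positivity)
  have hc3 := (Nat.cast_le (α := ℝ)).2 ((Finset.card_le_card hsub).trans (Finset.card_union_le _ _))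
  rw [Nat.cast_add] at hc3
  refine hc3.trans ((add_le_add hc1 hc2).trans ?_)
  generalize (T : ℝ) = t at hT'
  set u : ℝ := (p : ℝ)⁻¹ with hu
  have hu0 : 0 < u := inv_pos.2 hp0
  have hu1 : u ≤ 1 := inv_le_one_of_one_le₀ hp1
  simp only [div_eq_mul_inv, ← inv_pow, ← hu]
  have ht2 : 1 ≤ t ^ 2 := one_le_pow₀ hT'
  have ht : t ≤ t ^ 2 := by nlinarith
  have e1 : (2 * t ^ 2 + 1) * (2 * (2 * t ^ 3 * u ^ 2 + 1)) ≤
      (3 * t ^ 2) * (2 * (2 * t ^ 3 * u ^ 2 + 1)) :=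
    mul_le_mul_of_nonneg_right (by linarith) (by positivity)
  have e2 : 2 * t ^ 3 * u ≤ t ^ 5 * u ^ 2 + t := by
    have : 0 ≤ t * (t ^ 2 * u - 1) ^ 2 := by positivity
    nlinarith
  have e3 : t ^ 2 * u ≤ t ^ 2 := mul_le_of_le_one_right (by positivity) hu1
  have e4 : 0 ≤ t ^ 5 * u ^ 2 := by positivity
  nlinarith

/-- Swap the sums: `∑ e, om2 e = ∑ p ≤ 6 T^3 prime, card {e ∈ box T | p^2 ∣ disc e}`
(`p^2 ≤ |disc e| ≤ 31 T^6`).  `p = 2, 3`: at most `card (box T)`.  `p ≥ 5`: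
* `p ∤ A`: then `p ∤ B`, and two solutions `B, B'` for the same `A` have `p^2 ∣ B - B'` or
  `p^2 ∣ B + B'`; so at most `2 (2 T^3/p^2 + 1)` values of `B` for each of the `≤ 3 T^2` values `A`;
* `p ∣ A`, `A ≠ 0`: then `p ∣ B`; at most `(2 T^2/p) (2 T^3/p + 1)` pairs;
* `A = 0`: treat apart, `om2 (0, B) ≤ card primeFactors (27 B^2) ≤ log₂ (27 T^6) ≤ 11 T`,
  for at most `3 T^3` values of `B`.
Use `∑ 1/p^2 ≤ 1` and that there are at most `6 T^3` values of `p`. -/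
theorem sum_om2_le : ∃ C : ℝ, ∀ T : ℕ, 1 ≤ T → ∑ e ∈ box T, (om2 e : ℝ) ≤ C * (T : ℝ) ^ 5 := by
  refine ⟨800, fun T hT => ?_⟩
  set Pr := (Finset.Ioo 0 (6 * T ^ 3)).filter Nat.Prime with hPr
  have h1 : ∀ e ∈ box T, om2 e ≤ (Pr.filter (fun p : ℕ => (p : ℤ) ^ 2 ∣ disc e)).card := by
    intro e he
    refine Finset.card_le_card (fun p hp => ?_)
    obtain ⟨hp1, hp2⟩ := Finset.mem_filter.1 hp
    have hp3 := Nat.prime_of_mem_primeFactors hp1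
    obtain ⟨hA, hB, hd⟩ := mem_box.1 he
    refine Finset.mem_filter.2 ⟨Finset.mem_filter.2 ⟨Finset.mem_Ioo.2 ⟨hp3.pos, ?_⟩, hp3⟩, hp2⟩
    have h2 : (p : ℤ) ^ 2 ≤ |disc e| := Int.le_of_dvd (abs_pos.2 hd) ((dvd_abs _ _).2 hp2)
    have h3 : |disc e| ≤ 31 * (T : ℤ) ^ 6 := by
      have h4 : |e.1| ^ 3 ≤ ((T : ℤ) ^ 2) ^ 3 := pow_le_pow_left₀ (abs_nonneg _) hA 3
      have h5 : |e.2| ^ 2 ≤ ((T : ℤ) ^ 3) ^ 2 := pow_le_pow_left₀ (abs_nonneg _) hB 2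
      calc |disc e| ≤ |4 * e.1 ^ 3| + |27 * e.2 ^ 2| := abs_add_le _ _
        _ = 4 * |e.1| ^ 3 + 27 * |e.2| ^ 2 := by
          rw [abs_mul, abs_mul, abs_pow, abs_pow]
          norm_num
        _ ≤ _ := by nlinarith
    have hT' : (0 : ℤ) < (T : ℤ) ^ 6 := by positivity
    have h6 : (p : ℤ) ^ 2 < (6 * (T : ℤ) ^ 3) ^ 2 := by nlinarith
    have h7 : (p : ℤ) < 6 * (T : ℤ) ^ 3 := lt_of_pow_lt_pow_left₀ 2 (by positivity) h6
    exact_mod_cast h7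
  have h2 : ∑ e ∈ box T, (Pr.filter (fun p : ℕ => (p : ℤ) ^ 2 ∣ disc e)).card =
      ∑ p ∈ Pr, ((box T).filter (fun e => (p : ℤ) ^ 2 ∣ disc e)).card := by
    simp only [Finset.card_filter]
    exact Finset.sum_comm
  have h3 : ∑ e ∈ box T, (om2 e : ℝ) ≤
      ∑ p ∈ Pr, (((box T).filter (fun e => (p : ℤ) ^ 2 ∣ disc e)).card : ℝ) := by
    have := (Finset.sum_le_sum h1).trans h2.le
    exact_mod_cast this
  have h4 : ∑ p ∈ Pr, (((box T).filter (fun e => (p : ℤ) ^ 2 ∣ disc e)).card : ℝ) ≤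
      ∑ p ∈ Finset.Ioo (0 : ℕ) (6 * T ^ 3),
        100 * ((T : ℝ) ^ 5 / ((p : ℕ) : ℝ) ^ 2 + (T : ℝ) ^ 2) := by
    refine (Finset.sum_le_sum (fun p hp => om2_prime T hT (Finset.mem_filter.1 hp).2)).trans ?_
    exact Finset.sum_le_sum_of_subset_of_nonneg (Finset.filter_subset _ _)
      (fun p _ _ => by positivity)
  refine h3.trans (h4.trans ?_)
  have h5 := sum_Ioo_inv_sq_le (α := ℝ) 0 (6 * T ^ 3)
  simp only [div_eq_mul_inv] at h5 ⊢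
  rw [← Finset.mul_sum, Finset.sum_add_distrib, ← Finset.mul_sum, Finset.sum_const, Nat.card_Ioo,
    nsmul_eq_mul]
  have h6 : ((6 * T ^ 3 - 0 - 1 : ℕ) : ℝ) ≤ 6 * (T : ℝ) ^ 3 := by
    have : 6 * T ^ 3 - 0 - 1 ≤ 6 * T ^ 3 := by omega
    exact_mod_cast this
  have h7 : (T : ℝ) ^ 5 * ∑ i ∈ Finset.Ioo (0 : ℕ) (6 * T ^ 3), (((i : ℕ) : ℝ) ^ 2)⁻¹ ≤
      (T : ℝ) ^ 5 * 2 :=
    mul_le_mul_of_nonneg_left (by simpa using h5) (by positivity)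
  have h8 : ((6 * T ^ 3 - 0 - 1 : ℕ) : ℝ) * (T : ℝ) ^ 2 ≤ 6 * (T : ℝ) ^ 3 * (T : ℝ) ^ 2 :=
    mul_le_mul_of_nonneg_right h6 (by positivity)
  nlinarith

/-- `card D = ∑ j, card (fibre j)` and `∑ j, 1 / 4 ^ j ≤ 2` -/
theorem card_le_of_level {ι : Type*} (D : Finset ι) (lev : ι → ℕ) (c : ℝ) (hc : 0 ≤ c)
    (h : ∀ j, ((D.filter (fun x => lev x = j)).card : ℝ) ≤ c / 4 ^ j) : (D.card : ℝ) ≤ 2 * c := by
  obtain ⟨n, hn⟩ : ∃ n, ∀ x ∈ D, lev x ∈ Finset.range n :=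
    ⟨D.sup lev + 1, fun x hx => Finset.mem_range.2 (Nat.lt_succ_of_le (Finset.le_sup hx))⟩
  rw [Finset.card_eq_sum_card_fiberwise hn, Nat.cast_sum]
  calc _ ≤ ∑ j ∈ Finset.range n, c * (1 / 2) ^ j := by
        refine Finset.sum_le_sum (fun j _ => (h j).trans ?_)
        rw [div_eq_mul_inv, ← inv_pow]
        exact mul_le_mul_of_nonneg_left (pow_le_pow_left₀ (by norm_num) (by norm_num) j) hc
    _ ≤ 2 * c := by
        rw [← Finset.mul_sum, mul_comm 2]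
        exact mul_le_mul_of_nonneg_left (sum_geometric_two_le n) hc

end Pool.Agent.Lib.MP_775b3b_nt
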