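import Pool.Agent.Lib.MP_775b3b_nt.Red2
import Pool.Agent.Lib.MP_775b3b_nt.Det
import Pool.Agent.Lib.MP_775b3b_nt.Iso
import Pool.Agent.Lib.MP_775b3b_nt.Om2

/-! Counting classes over `ℚ` (binary quartic forms). -/

namespace Pool.Agent.Lib.MP_775b3b_nt

open Cub

theorem qcount_one {e : ℤ × ℤ} {T : ℕ} (hT : 1 ≤ T) (he : e ∈ box T) {N : ℕ}
    {d : (Cub e ℚ)ˣ} {ν : ℚ} {z : Nat.Primes → (Cub e ℚ)ˣ} {ε : (ℚ →+* ℂ) → Cub e ℂ}
    (hz : Loc d z) (hε : Eps (d : Cub e ℚ) ν ε) {x y : Cub e ℚ} (hx : InLat z ((N : ℚ) • x))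
    (hy : InLat z ((N : ℚ) • y)) {a b : ℝ} (ha : ∀ σ, ‖im T ε σ x‖ ≤ a)
    (hb : ∀ σ, ‖im T ε σ y‖ ≤ b) : ∃ n : ℤ, (n : ℚ) = (N : ℚ) ^ 2 * Gv (d : Cub e ℚ) x y ∧
      |(n : ℝ)| ≤ 4 * N ^ 2 * T * (a * b) := by
  have h1 := hz.isIntegral_Gv hx hy
  rw [Gv_eq_Bf, Bf_smul_left, Bf_smul_right, ← Gv_eq_Bf, ← mul_assoc, ← sq] at h1
  obtain ⟨n, hn⟩ := IsIntegrallyClosed.isIntegral_iff.1 h1
  rw [eq_intCast] at hn
  refine ⟨n, hn, ?_⟩
  have hT0 : (0 : ℝ) < T := by exact_mod_cast hT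
  obtain ⟨h2, h3, -⟩ := mem_box.1 he
  have h4 : ‖(e.1 : ℂ) / ((T : ℝ) : ℂ) ^ 2‖ ≤ 1 := by
    rw [norm_div, norm_pow, Complex.norm_intCast, Complex.norm_real, Real.norm_of_nonneg hT0.le,
      div_le_one (by positivity)]
    exact_mod_cast h2
  have h5 : ‖(e.2 : ℂ) / ((T : ℝ) : ℂ) ^ 3‖ ≤ 1 := by
    rw [norm_div, norm_pow, Complex.norm_intCast, Complex.norm_real, Real.norm_of_nonneg hT0.le,
      div_le_one (by positivity)]
    exact_mod_cast h3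
  have h6 := norm_sG_le h4 h5 hT0.le (im T ε (Rat.castHom ℂ) x) (im T ε (Rat.castHom ℂ) y)
  rw [hε.sG_im hT0.ne'] at h6
  have h7 : (n : ℂ) = (N : ℂ) ^ 2 * Rat.castHom ℂ (Gv (d : Cub e ℚ) x y) := by
    have := congrArg (Rat.castHom ℂ) hn
    simpa using this
  have h8 := ha (Rat.castHom ℂ)
  have h9 := hb (Rat.castHom ℂ)
  have ha0 : 0 ≤ a := (norm_nonneg _).trans h8
  calc |(n : ℝ)| = ‖(n : ℂ)‖ := (Complex.norm_intCast n).symm
    _ = (N : ℝ) ^ 2 * ‖Rat.castHom ℂ (Gv (d : Cub e ℚ) x y)‖ := by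
      rw [h7, norm_mul, norm_pow, Complex.norm_natCast]
    _ ≤ (N : ℝ) ^ 2 * (4 * T * a * b) := by
      refine mul_le_mul_of_nonneg_left (h6.trans ?_) (by positivity)
      gcongr
    _ = _ := by ring

/-- the five numbers `N^2 * gvec` are integers (`Loc.isIntegral_Gv`, `IsIntegrallyClosed`) of size
`≤ 4 N^2 C^2 T * (1/16^j, 1/4^j, 1, 4^j, 16^j)` (`Eps.sG_im`, `norm_sG_le`) -/
theorem gvec_int {e : ℤ × ℤ} {T : ℕ} (hT : 1 ≤ T) (he : e ∈ box T) {N : ℕ} {C : ℝ}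
    {d : (Cub e ℚ)ˣ} {ν : ℚ} {z : Nat.Primes → (Cub e ℚ)ˣ} {ε : (ℚ →+* ℂ) → Cub e ℂ} {j : ℕ}
    {v0 v1 v2 : Cub e ℚ} (hz : Loc d z) (hε : Eps (d : Cub e ℚ) ν ε)
    (h : Red N C T (d : Cub e ℚ) ν z ε j v0 v1 v2) : ∃ n : Fin 5 → ℤ, ∀ i,
      (n i : ℚ) = (N : ℚ) ^ 2 * gvec (d : Cub e ℚ) v0 v1 v2 i ∧
        |(n i : ℝ)| ≤ 4 * N ^ 2 * C ^ 2 * T * 4 ^ (j * (i : ℕ)) / 16 ^ j := by
  obtain ⟨n0, a0, b0⟩ := qcount_one hT he hz hε h.l0 h.l0 h.s0 h.s0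
  obtain ⟨n1, a1, b1⟩ := qcount_one hT he hz hε h.l0 h.l1 h.s0 h.s1
  obtain ⟨n2, a2, b2⟩ := qcount_one hT he hz hε h.l1 h.l1 h.s1 h.s1
  obtain ⟨n3, a3, b3⟩ := qcount_one hT he hz hε h.l1 h.l2 h.s1 h.s2
  obtain ⟨n4, a4, b4⟩ := qcount_one hT he hz hε h.l2 h.l2 h.s2 h.s2
  have h16 : (16 : ℝ) ^ j = (4 ^ j) ^ 2 := by
    rw [← pow_mul, mul_comm, pow_mul]
    norm_num
  have h4 : (0 : ℝ) < 4 ^ j := by positivity
  refine ⟨![n0, n1, n2, n3, n4], fun i => ?_⟩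
  rw [pow_mul, h16]
  fin_cases i
  · exact ⟨a0, b0.trans (le_of_eq (by simp; field_simp))⟩
  · exact ⟨a1, b1.trans (le_of_eq (by simp; field_simp))⟩
  · exact ⟨a2, b2.trans (le_of_eq (by simp; field_simp))⟩
  · exact ⟨a3, b3.trans (le_of_eq (by simp; field_simp))⟩
  · exact ⟨a4, b4.trans (le_of_eq (by simp; field_simp))⟩

/-- if the set is nonempty all five bounds are `≥ 1`, and `2 x + 1 ≤ 3 x` -/
theorem card_int5_le (c : ℝ) (j : ℕ) (Z : Finset (Fin 5 → ℤ))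
    (h : ∀ n ∈ Z, n 0 ≠ 0 ∧ ∀ i, |(n i : ℝ)| ≤ c * 4 ^ (j * (i : ℕ)) / 16 ^ j) :
    (Z.card : ℝ) ≤ 3 ^ 5 * |c| ^ 5 := by
  rcases Z.eq_empty_or_nonempty with rfl | ⟨m, hm⟩
  · simp only [Finset.card_empty, Nat.cast_zero]
    positivity
  set b : Fin 5 → ℝ := fun i => c * 4 ^ (j * (i : ℕ)) / 16 ^ j with hb
  have h1 : 1 ≤ c / 16 ^ j := by
    have h2 := (h m hm).2 0
    have h3 : (1 : ℝ) ≤ |(m 0 : ℝ)| := by exact_mod_cast Int.one_le_abs (h m hm).1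
    simpa using h3.trans h2
  have h16 : (0 : ℝ) < 16 ^ j := by positivity
  have hc : 0 < c := by
    have := (one_le_div h16).1 h1
    linarith
  have h2 : ∀ i, 1 ≤ b i := fun i => by
    refine h1.trans ?_
    simp only [hb]
    gcongr
    exact le_mul_of_one_le_right hc.le (one_le_pow₀ (by norm_num))
  have h3 : Z ⊆ Fintype.piFinset fun i => Finset.Icc (-⌊b i⌋) ⌊b i⌋ := by
    intro n hn
    rw [Fintype.mem_piFinset]
    intro i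
    rw [Finset.mem_Icc, ← abs_le, Int.le_floor, Int.cast_abs]
    exact (h n hn).2 i
  have h4 : ∀ i, ((Finset.Icc (-⌊b i⌋) ⌊b i⌋).card : ℝ) ≤ 3 * b i := fun i => by
    have h5 : 0 ≤ ⌊b i⌋ := Int.floor_nonneg.2 (by linarith [h2 i])
    have h6 : ((Finset.Icc (-⌊b i⌋) ⌊b i⌋).card : ℤ) = ⌊b i⌋ + 1 - -⌊b i⌋ :=
      Int.card_Icc_of_le _ _ (by linarith)
    have h7 : ((Finset.Icc (-⌊b i⌋) ⌊b i⌋).card : ℝ) = ⌊b i⌋ + 1 - -⌊b i⌋ := by exact_mod_cast h6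
    linarith [Int.floor_le (b i), h2 i]
  calc (Z.card : ℝ) ≤ (Fintype.piFinset fun i => Finset.Icc (-⌊b i⌋) ⌊b i⌋).card := by
        exact_mod_cast Finset.card_le_card h3
    _ = ∏ i, ((Finset.Icc (-⌊b i⌋) ⌊b i⌋).card : ℝ) := by
        rw [Fintype.card_piFinset, Nat.cast_prod]
    _ ≤ ∏ i, 3 * b i := Finset.prod_le_prod (fun _ _ => Nat.cast_nonneg _) fun i _ => h4 i
    _ = _ := by
        have h16' : (16 : ℝ) ^ j = (4 ^ j) ^ 2 := by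
          rw [← pow_mul, mul_comm, pow_mul]
          norm_num
        have h4' : (0 : ℝ) < 4 ^ j := by positivity
        rw [abs_of_pos hc]
        simp only [hb, pow_mul, h16', Fin.prod_univ_five]
        simp
        field_simp

/-- For each `x = ⟨e, d⟩` in `(box T).sigma R` choose `ν, z, ε` (`exists_loc`, `exists_eps`,
`iso_of_sel1`) and a reduced basis of level `j x` (`exists_red`).  For level `j`, map
`(x, u)`, `u ∈ range (4^j)`, to the integer vector of the translated basis (`Red.translate` with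
`c = 1`, `gvec_int`).  It is injective: `eq_of_gvec` (then `subst`), `div_mem_SQ_of_gvec`,
`Gv_tr1` with `Hyp.Gv_ne_zero`.  So `card (level j) * 4^j ≤ C T^5`; `card_le_of_level`. -/
theorem countQ {N : ℕ} (h2 : 2 ∣ N) (hU : Unr ℚ N) : ∃ C : ℝ, ∀ T : ℕ, 1 ≤ T →
    ∀ R : (e : ℤ × ℤ) → Finset (Cub e ℚ)ˣ,
      (∀ e ∈ box T, ∀ d ∈ R e, d ∈ Sel1 N e ℚ ∧ d ∉ SQ e ℚ) →
      (∀ e ∈ box T, ∀ d ∈ R e, ∀ d' ∈ R e, d / d' ∈ SQ e ℚ → d = d') →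
      ∑ e ∈ box T, ((R e).card : ℝ) ≤ C * (T : ℝ) ^ 5 := by
  classical
  obtain ⟨M, C, hM, hC, hred⟩ := exists_red ℚ
  set c0 : ℝ := 4 * ((2 * M : ℕ) : ℝ) ^ 2 * (C * (1 + 1) ^ 2) ^ 2 with hc0
  refine ⟨2 * (3 ^ 5 * c0 ^ 5), fun T hT R hR hinj => ?_⟩
  have hT0 : (0 : ℝ) < T := by exact_mod_cast hT
  set D := (box T).sigma R with hD
  have hex : ∀ x : D, ∃ (j : ℕ) (ν : ℚ) (v0 v1 v2 : Cub x.1.1 ℚ) (n : ℕ → Fin 5 → ℤ),
      Hyp (x.1.2 : Cub x.1.1 ℚ) ν v0 v1 v2 ∧ ∀ u : ℕ, u < 4 ^ j → ∀ i,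
        (n u i : ℚ) = ((2 * M : ℕ) : ℚ) ^ 2 *
          gvec (x.1.2 : Cub x.1.1 ℚ) v0 (tr1 (u : ℚ) v0 v1) (tr2 (u : ℚ) v0 v1 v2) i ∧
        |(n u i : ℝ)| ≤ c0 * T * 4 ^ (j * (i : ℕ)) / 16 ^ j := by
    rintro ⟨⟨e, d⟩, hx⟩
    obtain ⟨he, hd⟩ := Finset.mem_sigma.1 hx
    have hdisc := (mem_box.1 he).2.2
    have hs := (hR e he d hd).1
    obtain ⟨ν, hν⟩ := (mem_Sel.1 (mem_Sel1.1 hs).1).1
    obtain ⟨ε, hε⟩ := exists_eps hdisc (mem_Sel1.1 hs).2.1 hν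
    obtain ⟨z, hz⟩ := exists_loc hU hdisc hs
    obtain ⟨j, v0, v1, v2, hr⟩ := hred e T hT0 d ν z ε hν hz hε (iso_of_sel1 hU h2 hdisc hs)
    have hn : ∀ u : ℕ, ∃ n : Fin 5 → ℤ, u < 4 ^ j → ∀ i,
        (n i : ℚ) = ((2 * M : ℕ) : ℚ) ^ 2 *
          gvec (d : Cub e ℚ) v0 (tr1 (u : ℚ) v0 v1) (tr2 (u : ℚ) v0 v1 v2) i ∧
        |(n i : ℝ)| ≤ c0 * T * 4 ^ (j * (i : ℕ)) / 16 ^ j := by
      intro u
      by_cases hu : u < 4 ^ j
      · have hi : IsIntegral ℤ (u : ℚ) := by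
          simpa using isIntegral_algebraMap (R := ℤ) (A := ℚ) (x := (u : ℤ))
        obtain ⟨n, hn⟩ := gvec_int hT he hz hε (hr.translate hi zero_le_one fun σ => by
          rw [map_natCast, Complex.norm_natCast, one_mul]
          exact_mod_cast hu.le)
        exact ⟨n, fun _ => hn⟩
      · exact ⟨0, fun h => absurd h hu⟩
    choose n hn using hn
    exact ⟨j, ν, v0, v1, v2, n, hr.hyp, hn⟩
  choose lev ν v0 v1 v2 n hyp hn using hex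
  have hM2 : ((2 * M : ℕ) : ℚ) ^ 2 ≠ 0 := by positivity
  have hg : ∀ (x x' : D) (u u' : ℕ), u < 4 ^ lev x → u' < 4 ^ lev x' → n x u = n x' u' →
      gvec (x.1.2 : Cub x.1.1 ℚ) (v0 x) (tr1 (u : ℚ) (v0 x) (v1 x))
        (tr2 (u : ℚ) (v0 x) (v1 x) (v2 x)) =
      gvec (x'.1.2 : Cub x'.1.1 ℚ) (v0 x') (tr1 (u' : ℚ) (v0 x') (v1 x'))
        (tr2 (u' : ℚ) (v0 x') (v1 x') (v2 x')) := by
    intro x x' u u' hu hu' h
    funext i
    apply mul_left_cancel₀ hM2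
    rw [← (hn x u hu i).1, ← (hn x' u' hu' i).1, h]
  have key : ∀ (x x' : D) (u u' : ℕ), u < 4 ^ lev x → u' < 4 ^ lev x' → n x u = n x' u' →
      x = x' := by
    rintro ⟨⟨e, d⟩, hx⟩ ⟨⟨e', d'⟩, hx'⟩ u u' hu hu' h
    have h1 := hg _ _ u u' hu hu' h
    have h3 : e = e' := eq_of_gvec ((hyp ⟨⟨e, d⟩, hx⟩).translate u)
      ((hyp ⟨⟨e', d'⟩, hx'⟩).translate u') h1
    subst h3
    have h4 : d = d' := hinj e (Finset.mem_sigma.1 hx).1 d (Finset.mem_sigma.1 hx).2 d'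
      (Finset.mem_sigma.1 hx').2 (div_mem_SQ_of_gvec ((hyp ⟨⟨e, d⟩, hx⟩).translate u)
        ((hyp ⟨⟨e, d'⟩, hx'⟩).translate u') h1)
    subst h4
    rfl
  have hne : ∀ x : D, Gv (x.1.2 : Cub x.1.1 ℚ) (v0 x) (v0 x) ≠ 0 := fun x =>
    (hyp x).Gv_ne_zero (mem_box.1 (Finset.mem_sigma.1 x.2).1).2.2
      (hR _ (Finset.mem_sigma.1 x.2).1 _ (Finset.mem_sigma.1 x.2).2).2
  have hc : 0 ≤ c0 := by positivity
  have hlev := card_le_of_level (Finset.univ : Finset D) lev (3 ^ 5 * |c0 * T| ^ 5)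
    (by positivity) fun j => by
      set F := (Finset.univ : Finset D).filter fun x => lev x = j with hF
      have hi : Set.InjOn (fun p : D × ℕ => n p.1 p.2) (F ×ˢ Finset.range (4 ^ j) : Finset _) := by
        rintro ⟨x, u⟩ hp ⟨x', u'⟩ hp' h
        simp only [hF, Finset.coe_product, Finset.coe_filter, Finset.mem_univ, true_and,
          Finset.coe_range, Set.mem_prod, Set.mem_ofPred_eq, Set.mem_Iio] at hp hp'
        have hu : u < 4 ^ lev x := by rw [hp.1]; exact hp.2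
        have hu' : u' < 4 ^ lev x' := by rw [hp'.1]; exact hp'.2
        obtain rfl := key x x' u u' hu hu' h
        have h1 := congrFun (hg x x u u' hu hu' h) 1
        simp only [gvec, Matrix.cons_val_one, Matrix.cons_val_zero, Gv_tr1, add_right_inj] at h1
        have h3 : u = u' := by exact_mod_cast mul_right_cancel₀ (hne x) h1
        rw [h3]
      have hcard := card_int5_le (c0 * T) j
        ((F ×ˢ Finset.range (4 ^ j)).image fun p : D × ℕ => n p.1 p.2) fun m hm => by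
          obtain ⟨⟨x, u⟩, hp, rfl⟩ := Finset.mem_image.1 hm
          simp only [hF, Finset.mem_product, Finset.mem_filter, Finset.mem_univ, true_and,
            Finset.mem_range] at hp
          obtain ⟨rfl, hu⟩ := hp
          refine ⟨fun h0 => ?_, fun i => (hn x u hu i).2⟩
          have h1 := (hn x u hu 0).1
          simp only at h0
          rw [h0, Int.cast_zero] at h1
          exact mul_ne_zero hM2 (hne x) h1.symm
      rw [Finset.card_image_of_injOn hi, Finset.card_product, Finset.card_range] at hcard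
      rw [le_div_iff₀ (by positivity)]
      exact_mod_cast hcard
  rw [Finset.card_univ, Fintype.card_coe, hD, Finset.card_sigma, Nat.cast_sum,
    abs_of_nonneg (by positivity)] at hlev
  exact hlev.trans (le_of_eq (by ring))

end Pool.Agent.Lib.MP_775b3b_nt
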