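import Pool.Agent.Lib.MP_775b3b_nt.StIdx

/-! The index of `Sel1` in `Sel`. -/

namespace Pool.Agent.Lib.MP_775b3b_nt

open Cub MP_439fea_co

theorem stidx2_rank (e : ℤ × ℤ) (k : Type*) [Field k] [NumberField k] :
    Module.finrank ℚ (Cub e k) = 3 * Module.finrank ℚ k := by
  rw [← Module.finrank_mul_finrank ℚ k (Cub e k), finrank_eq, mul_comm]

/-- signs at the pairs `(ρ, r)`; at most `finrank` real embeddings, at most 3 real roots -/
theorem pos_index (e : ℤ × ℤ) (k : Type*) [Field k] [NumberField k] :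
    (pos e k).index ≠ 0 ∧ (pos e k).index ≤ 2 ^ (3 * Module.finrank ℚ k) := by
  classical
  have : Module.Finite ℚ (Cub e k) := Module.Finite.trans k _
  have h := Bd.of_fun (H := pos e k) (K := ⊤)
    (fun (d : (Cub e k)ˣ) (φ : Cub e k →ₐ[ℚ] ℝ) => decide (0 < φ d)) fun x _ y _ hxy ρ r hr => by
      have h1 := decide_eq_decide.1 (congrFun hxy ((ev r hr).comp (map ρ)).toRatAlgHom)
      simp only [RingHom.toRatAlgHom_apply] at h1
      have hx := (x.isUnit.map ((ev r hr).comp (map ρ))).ne_zero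
      have hy := (y.isUnit.map ((ev r hr).comp (map ρ))).ne_zero
      change 0 < ((ev r hr).comp (map ρ)) ((x / y : (Cub e k)ˣ) : Cub e k)
      rw [div_eq_mul_inv, Units.val_mul, map_mul, map_units_inv]
      rcases hy.lt_or_gt with h2 | h2
      · exact mul_pos_of_neg_of_neg (hx.lt_or_gt.resolve_right fun h3 => h2.not_gt (h1.1 h3))
          (inv_lt_zero.2 h2)
      · exact mul_pos (h1.2 h2) (inv_pos.2 h2)
  rw [Bd, Subgroup.relIndex_top_right, Nat.card_fun, Nat.card_eq_fintype_card (α := Bool),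
    Fintype.card_bool] at h
  refine ⟨h.1, h.2.trans (Nat.pow_le_pow_right two_pos ?_)⟩
  exact (card_algHom_le_finrank ℚ (Cub e k) ℝ).trans_eq (stidx2_rank e k)

/-- the bad primes number at most `card N.primeFactors + om2 e` -/
theorem sel1_index (k : Type*) [Field k] [NumberField k] {N : ℕ} (hN : N ≠ 0) :
    ∃ c : ℕ, ∀ e : ℤ × ℤ, disc e ≠ 0 → Bd (Sel1 N e k) (Sel N e k) (2 ^ (c * (1 + om2 e))) := by
  refine ⟨3 * Module.finrank ℚ k + 3 * (3 * Module.finrank ℚ k) * (3 * Module.finrank ℚ k) *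
    (N.primeFactors.card + 1), fun e hd => ?_⟩
  have : Module.Finite ℚ (Cub e k) := Module.Finite.trans k _
  have : IsReduced (Cub e k) := isReduced hd
  obtain ⟨s, hs, hc⟩ : ∃ s : Finset Nat.Primes, (∀ p, Bad N e p → p ∈ s) ∧
      s.card ≤ N.primeFactors.card + om2 e := by
    refine ⟨(N.primeFactors ∪ (disc e).natAbs.primeFactors.filter
      fun p : ℕ => (p : ℤ) ^ 2 ∣ disc e).subtype Nat.Prime, fun p hp => ?_, ?_⟩
    · refine Finset.mem_subtype.2 (Finset.mem_union.2 (hp.imp (fun h => ?_) fun h => ?_))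
      · exact Nat.mem_primeFactors.2 ⟨p.2, h, hN⟩
      · exact Finset.mem_filter.2 ⟨Nat.mem_primeFactors.2 ⟨p.2, Int.natCast_dvd.1
          ((dvd_pow_self _ two_ne_zero).trans h), Int.natAbs_ne_zero.2 hd⟩, h⟩
    · exact (Finset.card_subtype _ _).trans_le
        ((Finset.card_filter_le _ _).trans (Finset.card_union_le _ _))
  have h1 := (Bd.of_index (pos_index e k).1 (pos_index e k).2 (Sel N e k)).inf
    (Bd.biInf s (fun p => stq p (intP p (Cub e k))) (Sel N e k) _ fun p _ =>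
      Bd.of_index (stq_index _ _ (stidx2_rank e k).le p).1 (stq_index _ _ (stidx2_rank e k).le p).2 _)
  rw [Bd, ← Subgroup.inf_relIndex_left] at h1
  refine Bd.mono (Bd.of_le_left h1 (inf_le_inf_left _ (inf_le_inf_left _
    (le_iInf₂ fun p hp => iInf₂_le p (hs p hp))))) ?_
  rw [← pow_mul, ← pow_add]
  refine Nat.pow_le_pow_right two_pos ?_
  have h2 := Nat.mul_le_mul_left (3 * (3 * Module.finrank ℚ k) * (3 * Module.finrank ℚ k)) hc
  nlinarith [Nat.zero_le (3 * Module.finrank ℚ k * om2 e), Nat.zero_le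
    (3 * (3 * Module.finrank ℚ k) * (3 * Module.finrank ℚ k) * (N.primeFactors.card * om2 e + 1))]

theorem SQ_le_Sel1 {k : Type*} [Field k] [CharZero k] (N : ℕ) (e : ℤ × ℤ) :
    SQ e k ≤ Sel1 N e k := by
  intro d hd
  obtain ⟨z, rfl⟩ := Subgroup.mem_square.1 hd
  have h : z * z * z⁻¹ ^ 2 = 1 := by rw [← sq, ← mul_pow, mul_inv_cancel, one_pow]
  refine mem_Sel1.2 ⟨mem_Sel.2 ⟨⟨nm (z : Cub e k), by rw [Units.val_mul, nm_mul, sq]⟩,
    fun p _ => ⟨z⁻¹, ?_, ?_⟩⟩, fun ρ r hr => ?_,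
    fun p _ n => ⟨z⁻¹, 0, zero_mem _, 0, zero_mem _, ?_, ?_⟩⟩
  · rw [h]
    exact one_mem _
  · rw [h, inv_one]
    exact one_mem _
  · rw [Units.val_mul, map_mul, map_mul]
    exact mul_self_pos.2 (z.isUnit.map ((ev r hr).comp (map ρ))).ne_zero
  · rw [h, mul_zero, add_zero, Units.val_one]
  · rw [h, mul_zero, add_zero, inv_one, Units.val_one]

end Pool.Agent.Lib.MP_775b3b_nt
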