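import Pool.Agent.Lib.MP_775b3b_nt.Step
import Pool.Agent.Lib.MP_775b3b_nt.IntP2

/-! The tower. -/

namespace Pool.Agent.Lib.MP_775b3b_nt

open Cub

theorem tower_map_Sel {k k' : Type*} [Field k] [Field k'] (f : k →+* k') {N : ℕ} {e : ℤ × ℤ}
    {d : (Cub e k)ˣ} (h : d ∈ Sel N e k) :
    Units.map (map f : Cub e k →+* Cub e k').toMonoidHom d ∈ Sel N e k' := by
  rw [mem_Sel] at h ⊢
  obtain ⟨⟨ν, hν⟩, h2⟩ := h
  refine ⟨⟨f ν, ?_⟩, fun p hp => ?_⟩
  · show nm (map f (d : Cub e k)) = _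
    rw [nm_map, hν, map_pow]
  · obtain ⟨z, h3, h4⟩ := h2 p hp
    refine ⟨Units.map (map f : Cub e k →+* Cub e k').toMonoidHom z, ?_, ?_⟩
    · rw [← map_pow, ← map_mul]
      exact map_mem_intP (map f) h3
    · rw [← map_pow, ← map_mul, ← map_inv]
      exact map_mem_intP (map f) h4

theorem tower_base {k k' : Type*} [Field k] [Field k'] (g : k' ≃+* k) {N : ℕ} {e : ℤ × ℤ} {n : ℕ}
    (h : Bd (SQ e k) (Sel N e k) n) : Bd (SQ e k') (Sel N e k') n := by
  refine (h.comap (Units.map (map (g : k' →+* k) : Cub e k' →+* Cub e k).toMonoidHom)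
    (fun x hx => tower_map_Sel _ hx)).of_le_left ?_
  intro x hx
  obtain ⟨y, hy⟩ := Subgroup.mem_square.1 (Subgroup.mem_comap.1 hx)
  refine Subgroup.mem_square.2
    ⟨Units.map (map (g.symm : k →+* k') : Cub e k →+* Cub e k').toMonoidHom y, ?_⟩
  rw [← map_mul, ← hy]
  ext <;> simp

theorem tower_central {G : Type*} [Group G] [Finite G] {j : ℕ} (h : Nat.card G = 2 ^ (j + 1)) :
    ∃ σ : G, σ ∈ Subgroup.center G ∧ orderOf σ = 2 := by
  have : Fact (Nat.Prime 2) := ⟨Nat.prime_two⟩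
  have hG : IsPGroup 2 G := IsPGroup.of_card h
  have : Nontrivial G := by
    rw [← Finite.one_lt_card_iff_nontrivial, h]
    exact Nat.one_lt_two_pow (Nat.succ_ne_zero j)
  have := hG.center_nontrivial
  have hC : IsPGroup 2 (Subgroup.center G) := hG.to_subgroup _
  obtain ⟨n, hn0, hn⟩ := hC.nontrivial_iff_card.1 inferInstance
  obtain ⟨σ, hσ⟩ := exists_prime_orderOf_dvd_card' (G := Subgroup.center G) 2
    (by rw [hn]; exact dvd_pow_self 2 hn0.ne')
  exact ⟨σ, σ.2, by rw [← hσ]; exact Subgroup.orderOf_coe σ⟩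

theorem tower_arith (j m : ℕ) :
    (16 * 2 ^ (2 ^ j * (m + 8) - 8)) ^ 2 = 2 ^ (2 ^ (j + 1) * (m + 8) - 8) := by
  have h1 : 1 ≤ 2 ^ j := Nat.one_le_two_pow
  have h2 : 8 ≤ 2 ^ j * (m + 8) := by nlinarith
  have h3 : 2 ^ (j + 1) * (m + 8) - 8 = (4 + (2 ^ j * (m + 8) - 8)) * 2 := by
    rw [pow_succ, mul_right_comm]
    omega
  rw [h3, pow_mul, pow_add]
  norm_num

/-- Induction on `j`, for all `F`.  `j = 0`: `algebraMap K F` is bijective (`Bd.map`; or
transport along the ring isomorphism).  Step: the Galois group is a nontrivial 2-group, take `σ`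
central of order 2 (`IsPGroup.center_nontrivial`, `exists_prime_orderOf_dvd_card`),
`F₁ = fixedField (zpowers σ)`, Galois over `K` of degree `2 ^ j`; `β = y - σ y ≠ 0`; `N₀` includes
2 and denominators of `β`, `β⁻¹` (`exists_mul_isIntegral`). -/
theorem sel_tower (K : Type) [Field K] [NumberField K] (j : ℕ) :
    ∀ (F : Type) [Field F] [NumberField F] [Algebra K F] [IsGalois K F],
      Module.finrank K F = 2 ^ j → ∃ N₀ : ℕ, N₀ ≠ 0 ∧ ∀ N, N₀ ∣ N → ∀ e : ℤ × ℤ, disc e ≠ 0 →
        ∀ m : ℕ, Bd (SQ e K) (Sel N e K) (2 ^ m) →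
          Bd (SQ e F) (Sel N e F) (2 ^ (2 ^ j * (m + 8) - 8)) := by
  induction j with
  | zero =>
    intro F _ _ _ _ hF
    refine ⟨1, one_ne_zero, fun N _ e _ m h => ?_⟩
    have hb : Function.Bijective (algebraMap K F) :=
      Algebra.finrank_eq_one_iff_bijective_algebraMap.1 (by simpa using hF)
    have := tower_base (RingEquiv.ofBijective _ hb).symm h
    simpa using this
  | succ j ih =>
    intro F _ _ _ _ hF
    have : FiniteDimensional K F := Module.Finite.of_restrictScalars_finite ℚ K F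
    have hcard : Nat.card (F ≃ₐ[K] F) = 2 ^ (j + 1) := by
      rw [IsGalois.card_aut_eq_finrank, hF]
    obtain ⟨σ, hc, ho⟩ := tower_central hcard
    set H : Subgroup (F ≃ₐ[K] F) := Subgroup.zpowers σ with hH
    have hn : H.Normal := by
      refine ⟨fun a ha g => ?_⟩
      have ha' : a ∈ Subgroup.center (F ≃ₐ[K] F) := (Subgroup.zpowers_le.2 hc) ha
      rw [Subgroup.mem_center_iff.1 ha' g, mul_inv_cancel_right]
      exact ha
    set F₁ := IntermediateField.fixedField H with hF₁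
    have : IsGalois K F₁ := IsGalois.of_fixedField_normal_subgroup H
    have : NumberField F₁ := NumberField.of_module_finite K F₁
    have h2 : Module.finrank F₁ F = 2 := by
      rw [hF₁, IntermediateField.finrank_fixedField_eq_card, hH, Nat.card_zpowers, ho]
    have h1 : Module.finrank K F₁ = 2 ^ j := by
      have := Module.finrank_mul_finrank K F₁ F
      rw [h2, hF, pow_succ] at this
      omega
    obtain ⟨N₁, hN₁, H₁⟩ := ih F₁ h1
    have hσσ : σ * σ = 1 := by
      rw [← pow_two, ← ho, pow_orderOf_eq_one]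
    have hσ : ∀ x, σ (σ x) = x := fun x => by
      rw [← AlgEquiv.mul_apply, hσσ, AlgEquiv.one_apply]
    have hσ1 : σ ≠ 1 := by
      rintro rfl
      simp at ho
    obtain ⟨y, hy⟩ : ∃ y, σ y ≠ y := by
      by_contra hcon
      push Not at hcon
      exact hσ1 (AlgEquiv.ext hcon)
    have hβ0 : y - σ y ≠ 0 := fun h => hy (sub_eq_zero.1 h).symm
    have hβ : σ (y - σ y) = -(y - σ y) := by
      rw [map_sub, hσ, neg_sub]
    have hfix : ∀ x, σ x = x ↔ ∃ z, algebraMap F₁ F z = x := by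
      intro x
      constructor
      · intro hx
        refine ⟨⟨x, ?_⟩, rfl⟩
        rw [hF₁, IntermediateField.mem_fixedField_iff]
        intro f hf
        have : H ≤ MulAction.stabilizer (F ≃ₐ[K] F) x := Subgroup.zpowers_le.2 hx
        exact this hf
      · rintro ⟨⟨z, hz⟩, rfl⟩
        rw [hF₁, IntermediateField.mem_fixedField_iff] at hz
        exact hz σ (Subgroup.mem_zpowers σ)
    obtain ⟨a, ha0, ha⟩ := exists_mul_isIntegral (y - σ y)
    obtain ⟨b, hb0, hb⟩ := exists_mul_isIntegral (y - σ y)⁻¹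
    refine ⟨N₁ * (2 * (a * b)), by positivity, fun N hN e hd m h => ?_⟩
    have h3 := H₁ N ((dvd_mul_right _ _).trans hN) e hd m h
    have hN' : 2 * (a * b) ∣ N := (dvd_mul_left _ _).trans hN
    have hab : a * b ∣ N := (dvd_mul_left _ _).trans hN'
    rw [← tower_arith]
    refine sel_step (σ : F →+* F) hσ hfix hβ0 hβ ((dvd_mul_right _ _).trans hN') ?_ hd h3
    intro p hp
    exact ⟨⟨a, fun hpa => hp (hpa.trans ((dvd_mul_right _ _).trans hab)), ha⟩,
      ⟨b, fun hpb => hp (hpb.trans ((dvd_mul_left _ _).trans hab)), hb⟩⟩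

end Pool.Agent.Lib.MP_775b3b_nt
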