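import Pool.Agent.Lib.MP_775b3b_nt.UCount
import Pool.Agent.Lib.MP_775b3b_nt.QCount
import Pool.Agent.Lib.MP_775b3b_nt.Pt
import Pool.Agent.Lib.MP_775b3b_nt.Tower
import Pool.Agent.Lib.MP_775b3b_nt.Lower
import Pool.Agent.Lib.MP_775b3b_nt.Idx2
import Pool.Agent.Lib.MP_775b3b_nt.StIdx2

/-! Assembly. -/

namespace Pool.Agent.Lib.MP_775b3b_nt

open Cub

theorem bottom {K Kt : Type} [Field K] [NumberField K] [Field Kt] [NumberField Kt]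
    (S : Setup K Kt) {N : ℕ} (hN : N ≠ 0) (h2 : 2 ∣ N) (hU : Unr K N) (hQ : Unr ℚ N) :
    ∃ C : ℝ, ∀ T : ℕ, 1 ≤ T → ∃ m : ℤ × ℤ → ℕ,
      (∀ e ∈ box T, Bd (SQ e K) (Sel N e K) (2 ^ m e)) ∧
        ∑ e ∈ box T, (m e : ℝ) ≤ C * (T : ℝ) ^ 5 := by
  obtain ⟨c, hc⟩ := sel1_index K hN
  obtain ⟨C1, h1⟩ := countQ h2 hQ
  obtain ⟨C2, h2'⟩ := countU S h2 hU
  obtain ⟨C3, h3⟩ := sum_om2_le
  refine ⟨c * (9 + C3) + (C1 + 9) + (C2 + 9), fun T hT => ?_⟩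
  obtain ⟨a1, b1⟩ := sum_relIndex_le (box T) (fun e => SQ e ℚ) (fun e => Sel1 N e ℚ) _ (h1 T hT)
  obtain ⟨a2, b2⟩ := sum_relIndex_le (box T) (fun e => SQ e K)
    (fun e => (SQ e ℚ).comap (S.cor e) ⊓ Sel1 N e K) _ (h2' T hT)
  have hb : ((box T).card : ℝ) ≤ 9 * (T : ℝ) ^ 5 := by exact_mod_cast card_box_le T hT
  refine ⟨fun e => (SQ e K).relIndex ((SQ e ℚ).comap (S.cor e) ⊓ Sel1 N e K) +
    (SQ e ℚ).relIndex (Sel1 N e ℚ) + c * (1 + om2 e), fun e he => ?_, ?_⟩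
  · have hd : disc e ≠ 0 := (mem_box.1 he).2.2
    have k1 : Bd (SQ e ℚ) (Sel1 N e ℚ) (2 ^ (SQ e ℚ).relIndex (Sel1 N e ℚ)) :=
      ⟨a1 e he, Nat.lt_two_pow_self.le⟩
    have k2 : Bd (SQ e K) ((SQ e ℚ).comap (S.cor e) ⊓ Sel1 N e K)
        (2 ^ (SQ e K).relIndex ((SQ e ℚ).comap (S.cor e) ⊓ Sel1 N e K)) :=
      ⟨a2 e he, Nat.lt_two_pow_self.le⟩
    have k3 := k2.trans (k1.comap (S.cor e) fun x hx => S.cor_mem_Sel1 hd hx)
    have k4 := (k3.of_le_right (inf_le_left : Sel1 N e K ⊓ Sel N e K ≤ _)).trans (hc e hd)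
    rwa [← pow_add, ← pow_add] at k4
  · have h4 := h3 T hT
    have hc0 : (0 : ℝ) ≤ c := Nat.cast_nonneg c
    push_cast
    rw [Finset.sum_add_distrib, Finset.sum_add_distrib, ← Finset.mul_sum, Finset.sum_add_distrib,
      Finset.sum_const, nsmul_eq_mul, mul_one]
    have h5 : (c : ℝ) * (((box T).card : ℝ) + ∑ e ∈ box T, (om2 e : ℝ)) ≤
        c * (9 * (T : ℝ) ^ 5 + C3 * (T : ℝ) ^ 5) := by gcongr
    linarith

theorem sum_rank_le (F : Type) [Field F] [NumberField F] [DecidableEq F] [IsGalois ℚ F] (k : ℕ)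
    (hF : Module.finrank ℚ F = 3 * 2 ^ k) : ∃ C : ℝ, 0 ≤ C ∧ ∀ T : ℕ, 1 ≤ T →
      ∑ e ∈ box T, (Module.finrank ℤ (crv e F).toAffine.Point : ℝ) ≤ C * (T : ℝ) ^ 5 := by
  have hG : Nat.card (F ≃ₐ[ℚ] F) = 3 * 2 ^ k := by rw [IsGalois.card_aut_eq_finrank, hF]
  have : Fact (Nat.Prime 2) := ⟨Nat.prime_two⟩
  obtain ⟨H, hH⟩ := Sylow.exists_subgroup_card_pow_prime (G := F ≃ₐ[ℚ] F) 2 (n := k)
    (by rw [hG]; exact Dvd.intro_left 3 rfl)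
  let K := IntermediateField.fixedField H
  have hKF : Module.finrank K F = 2 ^ k := by
    rw [IntermediateField.finrank_fixedField_eq_card, hH]
  have hK : Module.finrank ℚ K = 3 := by
    have h1 := Module.finrank_mul_finrank ℚ K F
    rw [hKF, hF] at h1
    exact Nat.eq_of_mul_eq_mul_right (Nat.two_pow_pos k) h1
  obtain ⟨S⟩ := exists_setup K F hK
  obtain ⟨N1, n1, h1⟩ := sel_tower K k F hKF
  obtain ⟨N2, n2, h2⟩ := exists_unr F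
  obtain ⟨N3, n3, h3⟩ := exists_unr K
  obtain ⟨N4, n4, h4⟩ := exists_unr ℚ
  obtain ⟨C, hC⟩ := bottom S (N := 2 * N1 * N2 * N3 * N4) (by positivity)
    ⟨N1 * N2 * N3 * N4, by ring⟩ (h3 _ ⟨2 * N1 * N2 * N4, by ring⟩)
    (h4 _ ⟨2 * N1 * N2 * N3, by ring⟩)
  refine ⟨2 ^ k * (|C| + 72) + 9, by positivity, fun T hT => ?_⟩
  obtain ⟨m, hm, hs⟩ := hC T hT
  have hb : ((box T).card : ℝ) ≤ 9 * (T : ℝ) ^ 5 := by exact_mod_cast card_box_le T hT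
  have h5 : ∀ e ∈ box T, (Module.finrank ℤ (crv e F).toAffine.Point : ℝ) ≤
      2 ^ k * ((m e : ℝ) + 8) + 1 := fun e he => by
    have hd : disc e ≠ 0 := (mem_box.1 he).2.2
    have h6 := rank_le (h2 _ ⟨2 * N1 * N3 * N4, by ring⟩) hd
      (h1 _ ⟨2 * N2 * N3 * N4, by ring⟩ e hd (m e) (hm e he))
    have h7 : Module.finrank ℤ (crv e F).toAffine.Point ≤ 2 ^ k * (m e + 8) + 1 := by omega
    exact_mod_cast h7
  refine (Finset.sum_le_sum h5).trans ?_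
  rw [Finset.sum_add_distrib, ← Finset.mul_sum, Finset.sum_add_distrib, Finset.sum_const,
    Finset.sum_const, nsmul_eq_mul, nsmul_eq_mul, mul_one]
  have h8 : C * (T : ℝ) ^ 5 ≤ |C| * (T : ℝ) ^ 5 := by gcongr; exact le_abs_self C
  have h9 : (2 : ℝ) ^ k * (∑ e ∈ box T, (m e : ℝ) + ((box T).card : ℝ) * 8) ≤
      2 ^ k * (|C| * (T : ℝ) ^ 5 + 9 * (T : ℝ) ^ 5 * 8) := by
    gcongr
    exact hs.trans h8
  linarith

end Pool.Agent.Lib.MP_775b3b_nt
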