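import Pool.Agent.Lib.MP_775b3b_nt.HasseR

/-! The norm theorem with one place omitted. -/

namespace Pool.Agent.Lib.MP_775b3b_nt

open WithZero NumberField IsDedekindDomain MP_439fea_co

variable {K : Type} [Field K] [NumberField K]

theorem zhasse_ord_zpow (v : P K) (x : K) (n : ℤ) : ord v (x ^ n) = n * ord v x := by
  simp only [ord, map_zpow₀, log_zpow, smul_eq_mul, mul_neg]

theorem zhasse_ord_zero {v : P K} {x : K} (h : val v x = 1) : ord v x = 0 := by
  simp [ord, h]

theorem zhasse_ord_mul (v : P K) (x y : Kˣ) :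
    ord v ((x * y : Kˣ) : K) = ord v (x : K) + ord v (y : K) := by
  rw [Units.val_mul, ord_mul v x.ne_zero y.ne_zero]

/-- `x` with `ord w x = 1`; `S₁ = (S₀ ∪ supp x).erase w`; correct the `z` given by `PidOut S₀` by a
power of `x` (needed only when `w ∈ S₀`) -/
theorem exists_pidOut_not (w : P K) : ∃ S₁ : Finset (P K), w ∉ S₁ ∧
    ∀ S : Finset (P K), S₁ ⊆ S → PidOut S := by
  classical
  obtain ⟨S₀, hS₀⟩ := exists_pidOut K
  obtain ⟨x, hx⟩ := w.valuation_surjective K (exp (-1))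
  have hx0 : x ≠ 0 := by
    rintro rfl
    rw [map_zero] at hx
    exact exp_ne_zero hx.symm
  have hx1 : ord w x = 1 := by simp [ord, hx]
  refine ⟨(S₀ ∪ (finite_supp hx0).toFinset).erase w, Finset.notMem_erase _ _, fun S hS k hk => ?_⟩
  obtain ⟨z, hz⟩ := hS₀ S₀ subset_rfl k hk
  refine ⟨z * Units.mk0 x hx0 ^ (k w - ord w (z : K)), fun v hv => ?_⟩
  rw [zhasse_ord_mul, Units.val_zpow_eq_zpow_val, Units.val_mk0, zhasse_ord_zpow]
  by_cases hvw : v = w
  · rw [hvw, hx1]
    ring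
  · have h1 : v ∉ S₀ ∪ (finite_supp hx0).toFinset := fun h => hv (hS (Finset.mem_erase.2 ⟨hvw, h⟩))
    rw [Finset.mem_union, not_or, Set.Finite.mem_toFinset, Set.mem_ofPred_eq, not_not] at h1
    rw [hz v h1.1, zhasse_ord_zero h1.2, mul_zero, add_zero]

/-- `half_index` with one more subgroup of index two that contains `U` -/
theorem zhasse_full {A ι : Type} [CommGroup A] (s : Finset ι) (U : Subgroup A)
    (Q N : ι → Subgroup A) (hQN : ∀ i ∈ s, Q i ≤ N i) (hQ : ∀ i ∈ s, (Q i).index ≠ 0)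
    (E : Subgroup A) (hE : E.index = 2) (hU : U ≤ E)
    (h : ∏ i ∈ s, (Q i).index ≤ (⨅ i ∈ s, Q i).relIndex U) :
    ∏ i ∈ s, (N i).index ≤ (⨅ i ∈ s, N i).relIndex U := by
  have e1 : ∀ X : ι → Subgroup A, ∏ i ∈ s.insertNone, (Option.elim i E X).index =
      2 * ∏ i ∈ s, (X i).index := fun X => by
    rw [Finset.prod_insertNone, Option.elim_none, hE]
    rfl
  have e2 : ∀ X : ι → Subgroup A, (⨅ i ∈ s.insertNone, Option.elim i E X).relIndex U =
      (⨅ i ∈ s, X i).relIndex U := fun X => by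
    rw [← Subgroup.inf_relIndex_right, ← Subgroup.inf_relIndex_right (⨅ i ∈ s, X i)]
    congr 1
    ext x
    simp only [Subgroup.mem_inf, Subgroup.mem_iInf]
    refine and_congr_left fun hx => ⟨fun H i hi => H (some i) (Finset.some_mem_insertNone.2 hi), ?_⟩
    rintro H (_ | i) hi
    · exact hU hx
    · exact H i (Finset.some_mem_insertNone.1 hi)
  have h1 := half_index s.insertNone U (fun i => Option.elim i E Q) (fun i => Option.elim i E N) (by
      rintro (_ | i) hi
      · exact le_rfl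
      · exact hQN i (Finset.some_mem_insertNone.1 hi)) (by
      rintro (_ | i) hi
      · exact hE ▸ two_ne_zero
      · exact hQ i (Finset.some_mem_insertNone.1 hi)) (by
      rw [e1, e2]
      omega)
  rw [e1, e2] at h1
  omega

/-- the elements of even order at `w` -/
def zhasse_ev (w : P K) : Subgroup Kˣ where
  carrier := {x | Even (ord w (x : K))}
  one_mem' := by
    change Even (ord w ((1 : Kˣ) : K))
    rw [Units.val_one, ord_one]
    exact Even.zero
  mul_mem' := by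
    intro x y hx hy
    change Even (ord w ((x * y : Kˣ) : K))
    rw [zhasse_ord_mul]
    exact hx.add hy
  inv_mem' := by
    intro x hx
    change Even (ord w ((x⁻¹ : Kˣ) : K))
    rw [Units.val_inv_eq_inv_val, ord_inv]
    exact hx.neg

theorem zhasse_ev_index {w : P K} {b : Kˣ} (hb : Odd (ord w (b : K))) : (zhasse_ev w).index = 2 := by
  refine Subgroup.index_eq_two_iff.2 ⟨b, fun x => ?_⟩
  change Xor (Even (ord w ((x * b : Kˣ) : K))) (Even (ord w (x : K)))
  rw [zhasse_ord_mul, xor_iff_iff_not, Int.even_add', Int.not_even_iff_odd]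
  exact iff_congr Iff.rfl Iff.rfl |>.1 ⟨fun h => h.2 hb, fun h => iff_of_true h hb⟩

open Classical in
theorem zhasse_unit {w : P K} {b : Kˣ} (hb : Odd (ord w (b : K))) {S' T : Finset (P K)}
    (hS : PidOut S') (hw : w ∉ S') (hbS : b ∈ US (insert w S')) (hbT : ∀ v ∈ T, b ∈ Sq (val v))
    {u : Kˣ} (hu : u ∈ US (insert w S')) : ∃ c : Kˣ, (∀ v ∈ T, c ∈ Sq (val v)) ∧ u * c ∈ US S' := by
  obtain ⟨b', h1, h2, k, hk⟩ : ∃ b' ∈ US (insert w S'), (∀ v ∈ T, b' ∈ Sq (val v)) ∧
      Even (ord w ((u * b' : Kˣ) : K)) := by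
    rcases Int.even_or_odd (ord w (u : K)) with h | h
    · exact ⟨1, one_mem _, fun _ _ => one_mem _, by rwa [mul_one]⟩
    · exact ⟨b, hbS, hbT, by rw [zhasse_ord_mul]; exact h.add_odd hb⟩
  obtain ⟨y, hy⟩ := hS (fun v => if v = w then -k else 0)
    ((Set.finite_singleton w).subset fun v hv => by_contra fun hne => hv (if_neg hne))
  refine ⟨b' * (y * y), fun v hv => mul_mem (h2 v hv)
    (hasse_Sqs_le_Sq v (mem_Sqs.2 ⟨y, (sq y).symm⟩)), mem_US.2 fun v hv => ?_⟩
  apply hasse_val_eq_one_of_ord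
  rw [← mul_assoc, zhasse_ord_mul, zhasse_ord_mul v y, hy v hv]
  split_ifs with hvw
  · rw [hvw, hk]
    ring
  · rw [zhasse_ord_zero (mem_US.1 (mul_mem hu h1) v (by simp [hvw, hv])), add_zero, add_zero]

/-- Follow the proof of `hasseR`.  `b` is not a square (`local_not_od_sq`).
`S' = (S₁ ∪ supp 2 ∪ supp a ∪ supp b).erase w ⊇ S₁`, `S = insert w S'`, `T` from
`hasser_aux b hb S _ _ (r + S.card - 1)`.  Each dual unit `u ∈ US S` is replaced by
`u * b ^ ε * (y ^ 2)⁻¹ ∈ US S'` (`ε` makes `ord w` even, `y` from `PidOut S'` with `ord w y` half of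
it and `ord = 0` elsewhere outside `S'`; `b ∈ Sq` on `T`).  With `U' = US (S' ∪ T)`,
`hasser_isSquare S' T` gives `(⨅ Q).relIndex U' = 2 ^ (r + S'.card + T.card)`, which is at least
`∏ (Q i).index` over `S' ⊕ real embeddings`.  Apply `half_index` with one more index, for which
`Q = N = {x | Even (ord w x)}` (index two, contains `U'`), to get
`∏ v ∈ S', (Nm v b).index ≤ N'.relIndex U' ≤ N'.relIndex U`, `N' = ⨅ v ∈ S', Nm v b`,
`U = US (S ∪ T)` (`relIndex_le_of_le_right`).  The product is `≥ 2 ^ m'`,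
`m' = card {v ∈ S' | b ∉ Sq v}` (`nonnorm'`), and `herbR b hb (S ∪ T)` gives
`2 * (Ng b).relIndex U ≤ 2 ^ (m' + 1)`.  Conclude as in `hasseR`. -/
theorem hasseR1 (b : Kˣ) (hpos : ∀ ρ : K →+* ℝ, 0 < ρ (b : K)) (w : P K)
    (h2 : val w (2 : K) = 1) (hb : localOd (val w (b : K))) (a : Kˣ)
    (h : ∀ v : P K, v ≠ w → a ∈ Nm (val v) b) : a ∈ Ng b := by
  classical
  have hb' : ¬ IsSquare (b : K) := by
    rintro ⟨y, hy⟩
    rw [hy, map_mul] at hb
    exact local_not_od_sq _ hb
  have hodd : Odd (ord w (b : K)) := by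
    obtain ⟨k, hk⟩ := hb
    rw [ord, hk, log_exp]
    exact (odd_two_mul_add_one k).neg
  obtain ⟨S₁, hw1, hS₁⟩ := exists_pidOut_not w
  have f2 := finite_supp (K := K) (x := 2) (by norm_num)
  have fa := finite_supp (K := K) a.ne_zero
  have fb := finite_supp (K := K) b.ne_zero
  set S' : Finset (P K) := (S₁ ∪ (f2.toFinset ∪ (fa.toFinset ∪ fb.toFinset))).erase w with hSdef
  have hwS : w ∉ S' := Finset.notMem_erase _ _
  have hout : ∀ v ∉ insert w S', val v (2 : K) = 1 ∧ val v (a : K) = 1 ∧ val v (b : K) = 1 := by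
    intro v hv
    simp only [hSdef, Finset.mem_insert, Finset.mem_erase, Finset.mem_union, Set.Finite.mem_toFinset,
      Set.mem_ofPred_eq] at hv
    tauto
  have h2' : ∀ v ∉ S', val v (2 : K) = 1 := fun v hv => by
    by_cases hvw : v = w
    · rwa [hvw]
    · exact (hout v (by simp [hvw, hv])).1
  have haS : a ∈ US (insert w S') := mem_US.2 fun v hv => (hout v hv).2.1
  have hbS : b ∈ US (insert w S') := mem_US.2 fun v hv => (hout v hv).2.2
  have hS0 : S₁ ⊆ S' := Finset.subset_erase.2 ⟨Finset.subset_union_left, hw1⟩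
  obtain ⟨T, hd, hc, hbT, hT⟩ := hasser_aux b hb' (insert w S') (fun v hv => (hout v hv).1) hbS
    (Fintype.card (InfinitePlace K) + S'.card) (by rw [Finset.card_insert_of_notMem hwS]; omega)
  obtain ⟨hwT, hd'⟩ := Finset.disjoint_insert_left.1 hd
  have hS : PidOut S' := hS₁ S' hS0
  have hST : PidOut (S' ∪ T) := hS₁ _ (hS0.trans Finset.subset_union_left)
  have hsub : S' ∪ T ⊆ insert w S' ∪ T := Finset.union_subset_union_left (Finset.subset_insert _ _)
  have hT' : ∀ v ∈ T, ∃ u ∈ US S', u ∉ Sq (val v) ∧ ∀ v' ∈ T, v' ≠ v → u ∈ Sq (val v') := by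
    intro v hv
    obtain ⟨u, hu, hu1, hu2⟩ := hT v hv
    obtain ⟨c, hc1, hc2⟩ := zhasse_unit hodd hS hwS hbS hbT hu
    exact ⟨u * c, hc2, fun e => hu1 ((Subgroup.mul_mem_cancel_right _ (hc1 v hv)).1 e),
      fun v' hv' hne => mul_mem (hu2 v' hv' hne) (hc1 v' hv')⟩
  set U' := US (S' ∪ T) with hU'
  have := Fintype.ofFinite (K →+* ℝ)
  let s : Finset (P K ⊕ (K →+* ℝ)) := S'.disjSum Finset.univ
  let Q : P K ⊕ (K →+* ℝ) → Subgroup Kˣ := Sum.elim (fun v => Sq (val v)) PosR
  let N' : P K ⊕ (K →+* ℝ) → Subgroup Kˣ := Sum.elim (fun v => Nm (val v) b) fun _ => ⊤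
  have hQ : (⨅ i ∈ s, Q i) ⊓ U' = Sqs K ⊓ U' := by
    apply le_antisymm
    · intro x hx
      obtain ⟨hx1, hx2⟩ := Subgroup.mem_inf.1 hx
      simp only [Subgroup.mem_iInf] at hx1
      exact Subgroup.mem_inf.2 ⟨mem_Sqs_iff_isSquare.2
        (hasser_isSquare S' T hS hST hd' h2' hT' x hx2
          (fun v hv => hx1 (.inl v) (Finset.inl_mem_disjSum.2 hv))
          fun ρ => hx1 (.inr ρ) (Finset.inr_mem_disjSum.2 (Finset.mem_univ ρ))), hx2⟩
    · refine inf_le_inf_right _ (le_iInf₂ ?_)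
      rintro (v | ρ) _
      · exact hasse_Sqs_le_Sq v
      · exact hasser_Sqs_le ρ
  have hQ1 : (⨅ i ∈ s, Q i).relIndex U' =
      2 ^ (Fintype.card (InfinitePlace K) + (S'.card + T.card)) := by
    rw [← Subgroup.inf_relIndex_right, hQ, Subgroup.inf_relIndex_right, hU', relIndex_Sqs_US,
      Finset.card_union_of_disjoint hd']
  have hQ2 : ∏ i ∈ s, (Q i).index ≤ (⨅ i ∈ s, Q i).relIndex U' := by
    rw [Finset.prod_disjSum]
    refine (Nat.mul_le_mul (prod_index_Sq_le S') (Finset.prod_le_pow_card _ _ 2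
      fun ρ _ => Nat.le_of_dvd two_pos (hasser_index ρ))).trans (le_of_eq ?_)
    have h3 := two_mul_card_infinitePlace' (K := K)
    rw [hQ1, hc, show (4 : ℕ) = 2 ^ 2 by norm_num, ← pow_mul, ← pow_add, ← pow_add,
      Finset.card_univ, ← Nat.card_eq_fintype_card (α := K →+* ℝ)]
    congr 1
    omega
  have hN := zhasse_full s U' Q N' (by
      rintro (v | ρ) _
      · exact Sq_le_Nm _ _
      · exact le_top) (by
      rintro (v | ρ) _
      · exact index_Sq_ne_zero v
      · exact ne_zero_of_dvd_ne_zero two_ne_zero (hasser_index ρ)) (zhasse_ev w)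
    (zhasse_ev_index hodd) (fun x hx => by
      change Even (ord w (x : K))
      rw [zhasse_ord_zero (mem_US.1 hx w (by simp [hwS, hwT]))]
      exact Even.zero) hQ2
  have e1 : ∏ i ∈ s, (N' i).index = ∏ v ∈ S', (Nm (val v) b).index := by
    simp [s, N', Finset.prod_disjSum]
  have e2 : ⨅ i ∈ s, N' i = ⨅ v ∈ S', Nm (val v) b := by
    simp [s, N', iInf_sum]
  rw [e1, e2] at hN
  have hN0 : ∀ v : P K, (Nm (val v) b).index ≠ 0 := by
    intro v h0
    have h1 := Subgroup.index_dvd_of_le (Sq_le_Nm (val v) b)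
    rw [h0] at h1
    exact index_Sq_ne_zero v (eq_zero_of_zero_dvd h1)
  have hN1 : 2 ^ (S'.filter (fun v => b ∉ Sq (val v))).card ≤
      ∏ v ∈ S', (Nm (val v) b).index := by
    refine le_trans ?_ (Finset.prod_le_prod_of_subset_of_one_le' (Finset.filter_subset
      (fun v => b ∉ Sq (val v)) S') (fun v _ _ => Nat.one_le_iff_ne_zero.2 (hN0 v)))
    refine Finset.pow_card_le_prod _ _ _ (fun v hv => ?_)
    obtain ⟨c, hc'⟩ := nonnorm' v b (Finset.mem_filter.1 hv).2
    have h1 : (Nm (val v) b).index ≠ 1 := by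
      intro h1
      rw [Subgroup.index_eq_one] at h1
      rw [h1] at hc'
      exact hc' (Subgroup.mem_top c)
    have h3 := hN0 v
    omega
  obtain ⟨h0, h1⟩ := herbR b hb' (insert w S' ∪ T) (hS₁ _ ((hS0.trans Finset.subset_union_left).trans hsub))
    (fun v hv => (hout v fun e => hv (Finset.mem_union_left _ e)).1)
    (US_mono Finset.subset_union_left hbS)
  have hfil : ((insert w S' ∪ T).filter (fun v => b ∉ Sq (val v))).card ≤
      (S'.filter (fun v => b ∉ Sq (val v))).card + 1 := by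
    refine (Finset.card_le_card fun v hv => ?_).trans (Finset.card_insert_le w _)
    simp only [Finset.mem_filter, Finset.mem_union, Finset.mem_insert] at hv ⊢
    rcases hv with ⟨(hv | hv) | hv, hv'⟩
    · exact Or.inl hv
    · exact Or.inr ⟨hv, hv'⟩
    · exact absurd (hbT v hv) hv'
  rw [hasser_zero hpos, add_zero] at h1
  have h1' := h1.trans (Nat.pow_le_pow_right two_pos hfil)
  rw [pow_succ] at h1'
  set U := US (insert w S' ∪ T) with hU
  set N : Subgroup Kˣ := ⨅ v ∈ S', Nm (val v) b with hNdef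
  have hle : Ng b ≤ N := le_iInf₂ fun v _ => hasse_Ng_le_Nm v b
  have h3 := Subgroup.relIndex_inf_mul_relIndex (Ng b) N U
  rw [inf_eq_left.2 hle] at h3
  have h6 : N.relIndex U ≠ 0 := by
    intro h6
    rw [h6, mul_zero] at h3
    exact h0 h3.symm
  have h4' : N.relIndex U' ≤ N.relIndex U := Subgroup.relIndex_le_of_le_right (US_mono hsub) h6
  have h4 : (Ng b).relIndex U ≤ N.relIndex U := by omega
  have h5 : (Ng b).relIndex (N ⊓ U) = 1 := by
    have h7 : (Ng b).relIndex (N ⊓ U) ≠ 0 := by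
      intro h7
      rw [h7, zero_mul] at h3
      exact h0 h3.symm
    have h8 : (Ng b).relIndex (N ⊓ U) * N.relIndex U ≤ 1 * N.relIndex U := by omega
    have h9 := Nat.le_of_mul_le_mul_right h8 (Nat.pos_of_ne_zero h6)
    omega
  refine Subgroup.relIndex_eq_one.1 h5 (Subgroup.mem_inf.2 ⟨?_, ?_⟩)
  · simp only [hNdef, Subgroup.mem_iInf]
    exact fun v hv => h v fun e => hwS (e ▸ hv)
  · exact US_mono Finset.subset_union_left haS

end Pool.Agent.Lib.MP_775b3b_nt
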