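import Pool.Agent.Lib.MP_775b3b_nt.ZZeta2

/-! A divergent sum over places of degree one. -/

namespace Pool.Agent.Lib.MP_775b3b_nt

open NumberField MP_439fea_co

variable {k k' : Type*} [Field k] [NumberField k] [Field k'] [NumberField k']

/-- As `zeta_key`.  Suppose all these sums are `< B`.  Split the set `G` of that proof into the good
places, whose product is at most `exp B` (`1 + x ≤ exp x`, `N ^ (-s) ≤ N⁻¹`), and the others, whose
product has its square bounded by `C / (s - 1)`.  So `(c / ε)^2 ≤ (R exp B)^2 C / ε`. -/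
theorem zeta_div (Y : ℕ) (good : P k → Prop) (f g : P k → P k')
    (h : ∀ v : P k, (Ideal.absNorm v.asIdeal).Prime → Y < Ideal.absNorm v.asIdeal → ¬ good v →
      Ideal.absNorm (f v).asIdeal = Ideal.absNorm v.asIdeal ∧
      Ideal.absNorm (g v).asIdeal = Ideal.absNorm v.asIdeal ∧ f v ≠ g v ∧
      ∀ v' : P k, (Ideal.absNorm v'.asIdeal).Prime → Y < Ideal.absNorm v'.asIdeal → ¬ good v' →
        (f v = f v' ∨ f v = g v' ∨ g v = g v') → v = v') (B : ℝ) :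
    ∃ V : Finset (P k), (∀ v ∈ V, good v ∧ (Ideal.absNorm v.asIdeal).Prime ∧
      Y < Ideal.absNorm v.asIdeal) ∧ B ≤ ∑ v ∈ V, (Ideal.absNorm v.asIdeal : ℝ)⁻¹ := by
  classical
  by_contra hB
  have hB' : ∀ V : Finset (P k), (∀ v ∈ V, good v ∧ (Ideal.absNorm v.asIdeal).Prime ∧
      Y < Ideal.absNorm v.asIdeal) → ∑ v ∈ V, (Ideal.absNorm v.asIdeal : ℝ)⁻¹ < B :=
    fun V hV => not_le.1 fun h' => hB ⟨V, hV, h'⟩
  obtain ⟨c, δ, hc, hδ, h1⟩ := zeta_lower k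
  obtain ⟨C, δ', hδ', h2⟩ := zeta_upper k'
  obtain ⟨R₀, hR₀, h3⟩ := euler_good k Y
  obtain ⟨R, hRd⟩ : ∃ R : ℝ, R = R₀ * Real.exp B := ⟨_, rfl⟩
  have hR : 0 < R := hRd ▸ mul_pos hR₀ (Real.exp_pos _)
  obtain ⟨ε, e0, e1, e2, e3⟩ : ∃ ε : ℝ, 0 < ε ∧ ε < δ ∧ ε < δ' ∧ ε < c ^ 2 / (R ^ 2 * (|C| + 1)) := by
    have h0 : 0 < min δ (min δ' (c ^ 2 / (R ^ 2 * (|C| + 1)))) :=
      lt_min hδ (lt_min hδ' (by positivity))
    obtain ⟨ε, a, b⟩ := exists_between h0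
    exact ⟨ε, a, (lt_min_iff.1 b).1, (lt_min_iff.1 (lt_min_iff.1 b).2).1,
      (lt_min_iff.1 (lt_min_iff.1 b).2).2⟩
  obtain ⟨T, hT, h4⟩ := h1 (1 + ε) (by linarith) (by linarith)
  obtain ⟨V, h5⟩ := euler_upper T hT (s := 1 + ε) (by linarith)
  have h6 := h4.trans (h5.trans (h3 (1 + ε) (by linarith) V))
  set G₀ := V.filter fun v => (Ideal.absNorm v.asIdeal).Prime ∧ Y < Ideal.absNorm v.asIdeal
    with hG₀
  have hg₀ : ∀ v ∈ G₀, (Ideal.absNorm v.asIdeal).Prime ∧ Y < Ideal.absNorm v.asIdeal :=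
    fun v hv => (Finset.mem_filter.1 hv).2
  rw [← Finset.prod_filter_mul_prod_filter_not G₀ good] at h6
  have hgood : ∏ v ∈ G₀.filter good, (1 + (Ideal.absNorm v.asIdeal : ℝ) ^ (-(1 + ε))) ≤
      Real.exp B := by
    have a1 := hB' (G₀.filter good) fun v hv =>
      ⟨(Finset.mem_filter.1 hv).2, hg₀ v (Finset.mem_filter.1 hv).1⟩
    refine le_trans ?_ (Real.exp_le_exp.2 a1.le)
    rw [Real.exp_sum]
    refine Finset.prod_le_prod (fun v _ => by positivity) fun v _ => ?_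
    have a2 := zzeta2_two v
    have x1 : (Ideal.absNorm v.asIdeal : ℝ) ^ (-(1 + ε)) ≤ (Ideal.absNorm v.asIdeal : ℝ)⁻¹ := by
      rw [← Real.rpow_neg_one]
      exact Real.rpow_le_rpow_of_exponent_le (by linarith) (by linarith)
    linarith [Real.add_one_le_exp ((Ideal.absNorm v.asIdeal : ℝ)⁻¹)]
  set G := G₀.filter fun v => ¬ good v with hG
  have hg : ∀ v ∈ G, (Ideal.absNorm v.asIdeal).Prime ∧ Y < Ideal.absNorm v.asIdeal ∧ ¬ good v :=
    fun v hv => ⟨(hg₀ v (Finset.mem_filter.1 hv).1).1, (hg₀ v (Finset.mem_filter.1 hv).1).2,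
      (Finset.mem_filter.1 hv).2⟩
  have hf1 : ∏ v ∈ G.image f, (1 + (Ideal.absNorm v.asIdeal : ℝ) ^ (-(1 + ε))) =
      ∏ v ∈ G, (1 + (Ideal.absNorm v.asIdeal : ℝ) ^ (-(1 + ε))) := by
    rw [Finset.prod_image fun v hv v' hv' e =>
      (h v (hg v hv).1 (hg v hv).2.1 (hg v hv).2.2).2.2.2 v' (hg v' hv').1 (hg v' hv').2.1
        (hg v' hv').2.2 (Or.inl e)]
    exact Finset.prod_congr rfl fun v hv => by
      rw [(h v (hg v hv).1 (hg v hv).2.1 (hg v hv).2.2).1]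
  have hg1 : ∏ v ∈ G.image g, (1 + (Ideal.absNorm v.asIdeal : ℝ) ^ (-(1 + ε))) =
      ∏ v ∈ G, (1 + (Ideal.absNorm v.asIdeal : ℝ) ^ (-(1 + ε))) := by
    rw [Finset.prod_image fun v hv v' hv' e =>
      (h v (hg v hv).1 (hg v hv).2.1 (hg v hv).2.2).2.2.2 v' (hg v' hv').1 (hg v' hv').2.1
        (hg v' hv').2.2 (Or.inr (Or.inr e))]
    exact Finset.prod_congr rfl fun v hv => by
      rw [(h v (hg v hv).1 (hg v hv).2.1 (hg v hv).2.2).2.1]
  have hd : Disjoint (G.image f) (G.image g) := by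
    refine Finset.disjoint_left.2 fun u hu hu' => ?_
    obtain ⟨v, hv, rfl⟩ := Finset.mem_image.1 hu
    obtain ⟨v', hv', e⟩ := Finset.mem_image.1 hu'
    have h7 := h v (hg v hv).1 (hg v hv).2.1 (hg v hv).2.2
    have h8 := h7.2.2.2 v' (hg v' hv').1 (hg v' hv').2.1 (hg v' hv').2.2 (Or.inr (Or.inl e.symm))
    exact h7.2.2.1 (h8 ▸ e.symm)
  obtain ⟨T', hT', h7⟩ := euler_lower (G.image f ∪ G.image g) (1 + ε)
  have h8 := h2 (1 + ε) (by linarith) (by linarith) T' hT'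
  rw [← h7, Finset.prod_union hd, hf1, hg1] at h8
  rw [add_sub_cancel_left] at h6 h8
  have hQ : 0 ≤ ∏ v ∈ G, (1 + (Ideal.absNorm v.asIdeal : ℝ) ^ (-(1 + ε))) :=
    Finset.prod_nonneg fun _ _ => by positivity
  generalize ∏ v ∈ G, (1 + (Ideal.absNorm v.asIdeal : ℝ) ^ (-(1 + ε))) = Q at h6 h8 hQ
  have h6' : c / ε ≤ R * Q := by
    refine h6.trans ?_
    rw [hRd, mul_assoc]
    exact mul_le_mul_of_nonneg_left (mul_le_mul_of_nonneg_right hgood hQ) hR₀.le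
  have h9 : (c / ε) ^ 2 ≤ R ^ 2 * (C / ε) := by
    refine (pow_le_pow_left₀ (by positivity) h6' 2).trans ?_
    rw [mul_pow, sq Q]
    exact mul_le_mul_of_nonneg_left h8 (by positivity)
  rw [lt_div_iff₀ (by positivity)] at e3
  rw [div_pow, div_le_iff₀ (by positivity),
    show R ^ 2 * (C / ε) * ε ^ 2 = ε * (R ^ 2 * C) by field_simp] at h9
  have h10 : ε * (R ^ 2 * C) ≤ ε * (R ^ 2 * (|C| + 1)) :=
    mul_le_mul_of_nonneg_left (mul_le_mul_of_nonneg_left (by linarith [le_abs_self C])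
      (by positivity)) e0.le
  linarith

/-- at most `finrank ℚ k` places have the same prime norm (`Finset.sum_comp`,
`ncard_over_prime_le`, `finite_over_prime`, `intp2_val_absNorm`; see the end of the proof of
`euler_good`) -/
theorem sum_norm_le (V : Finset (P k)) (h : ∀ v ∈ V, (Ideal.absNorm v.asIdeal).Prime) :
    ∑ v ∈ V, (Ideal.absNorm v.asIdeal : ℝ)⁻¹ ≤
      Module.finrank ℚ k * ∑ q ∈ V.image fun v => Ideal.absNorm v.asIdeal, (q : ℝ)⁻¹ := by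
  classical
  rw [Finset.sum_comp (fun q : ℕ => (q : ℝ)⁻¹) (fun v : P k => Ideal.absNorm v.asIdeal),
    Finset.mul_sum]
  refine Finset.sum_le_sum fun q hq => ?_
  obtain ⟨v, hv, rfl⟩ := Finset.mem_image.1 hq
  rw [nsmul_eq_mul]
  refine mul_le_mul_of_nonneg_right (Nat.cast_le.2 ?_) (by positivity)
  refine le_trans ?_ (ncard_over_prime_le (k := k) ⟨_, h v hv⟩)
  rw [← Set.ncard_coe_finset]
  refine Set.ncard_le_ncard (fun u hu => ?_) (finite_over_prime ⟨_, h v hv⟩)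
  have h4 : Ideal.absNorm u.asIdeal = Ideal.absNorm v.asIdeal := (Finset.mem_filter.1 hu).2
  have h5 := (Val_lt_iff_mem u _).2 (Ideal.absNorm_mem u.asIdeal)
  rw [h4] at h5
  simpa using h5

end Pool.Agent.Lib.MP_775b3b_nt
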