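import Pool.Agent.Lib.MP_775b3b_nt.ZDefs

/-! The cubic algebra over a field in which the cubic has exactly one root. -/

namespace Pool.Agent.Lib.MP_775b3b_nt

open Cub

section Ring

variable {e : ℤ × ℤ} {R : Type*} [CommRing R] {r : R}

/-- the norm from `R[θ]/(τ)`; modulo `τ`, `x = α + β θ` with `α = x0 - (r^2 + A) x2`,
`β = x1 - r x2` -/
def n2 (r : R) (x : Cub e R) : R :=
  (x.c0 - (r ^ 2 + (e.1 : R)) * x.c2) ^ 2 -
    r * (x.c0 - (r ^ 2 + (e.1 : R)) * x.c2) * (x.c1 - r * x.c2) +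
    (r ^ 2 + (e.1 : R)) * (x.c1 - r * x.c2) ^ 2

theorem ZFF1_B (hr : fv e r = 0) : (e.2 : R) = -r ^ 3 - (e.1 : R) * r := by
  rw [fv] at hr
  linear_combination hr

/-- substitute `B = -r^3 - A r` -/
theorem nm_eq_evr_mul (hr : fv e r = 0) (x : Cub e R) : nm x = evr r x * n2 r x := by
  simp only [nm, evr, n2, ZFF1_B hr]
  ring

theorem n2_mul (hr : fv e r = 0) (x y : Cub e R) : n2 r (x * y) = n2 r x * n2 r y := by
  simp only [n2, mul_c0, mul_c1, mul_c2, ZFF1_B hr]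
  ring

theorem evr_mul (hr : fv e r = 0) (x y : Cub e R) : evr r (x * y) = evr r x * evr r y := by
  simp only [evr, mul_c0, mul_c1, mul_c2, ZFF1_B hr]
  ring

theorem evr_pow (hr : fv e r = 0) (x : Cub e R) (n : ℕ) : evr r (x ^ n) = evr r x ^ n := by
  induction n with
  | zero => simp [evr]
  | succ n ih => rw [pow_succ, evr_mul hr, ih, pow_succ]

theorem evr_tau (r s : R) : evr r (tau e s) = r ^ 2 + s * r + s ^ 2 + (e.1 : R) := by
  simp only [evr, tau]
  ring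

theorem mul_tau (hr : fv e r = 0) (x : Cub e R) : x * tau e r = evr r x • tau e r := by
  ext <;> simp only [mul_c0, mul_c1, mul_c2, smul_c0, smul_c1, smul_c2, tau, evr, smul_eq_mul,
    ZFF1_B hr] <;> ring

theorem neg_disc_eq (hr : fv e r = 0) :
    -(disc e : R) = (3 * r ^ 2 + (e.1 : R)) ^ 2 * (-(3 * r ^ 2) - 4 * (e.1 : R)) := by
  simp only [disc, Int.cast_add, Int.cast_mul, Int.cast_pow, Int.cast_ofNat, ZFF1_B hr]
  ring

end Ring

variable {e : ℤ × ℤ} {κ : Type*} [Field κ] {r : κ}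

/-- odd characteristic, a root, and minus the discriminant is not a square -/
structure FT (e : ℤ × ℤ) (r : κ) : Prop where
  two : (2 : κ) ≠ 0
  root : fv e r = 0
  ns : ¬ IsSquare (-(disc e : κ))

theorem FT.deriv_ne (h : FT e r) : 3 * r ^ 2 + (e.1 : κ) ≠ 0 := by
  intro h0
  apply h.ns
  rw [neg_disc_eq h.root, h0]
  exact ⟨0, by ring⟩

theorem FT.ns' (h : FT e r) : ¬ IsSquare (-(3 * r ^ 2) - 4 * (e.1 : κ)) := by
  rintro ⟨s, hs⟩
  apply h.ns
  rw [neg_disc_eq h.root, hs]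
  exact ⟨(3 * r ^ 2 + (e.1 : κ)) * s, by ring⟩

/-- `4 n2 = (2 α - r β)^2 - (-3 r^2 - 4 A) β^2` -/
theorem FT.n2_zero (h : FT e r) {x : Cub e κ} (hx : n2 r x = 0) : x = x.c2 • tau e r := by
  rw [n2] at hx
  have hβ : x.c1 - r * x.c2 = 0 := by
    by_contra hβ
    apply h.ns'
    refine ⟨(2 * (x.c0 - (r ^ 2 + (e.1 : κ)) * x.c2) - r * (x.c1 - r * x.c2)) /
      (x.c1 - r * x.c2), ?_⟩
    rw [div_mul_div_comm, eq_div_iff (mul_ne_zero hβ hβ)]
    linear_combination (-4) * hx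
  have hα : x.c0 - (r ^ 2 + (e.1 : κ)) * x.c2 = 0 := by
    rw [hβ] at hx
    exact pow_eq_zero_iff two_ne_zero |>.1 (by linear_combination hx)
  ext <;> simp only [smul_c0, smul_c1, smul_c2, tau, smul_eq_mul]
  · linear_combination hα
  · linear_combination hβ
  · ring

/-- `evr r x = 0`, `n2 r x = 0`, `evr r τ = 3 r^2 + A ≠ 0` -/
theorem FT.sq_zero (h : FT e r) {x : Cub e κ} (hx : x ^ 2 = 0) : x = 0 := by
  have h1 : evr r x = 0 := by
    have := evr_pow h.root x 2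
    rw [hx] at this
    exact pow_eq_zero_iff two_ne_zero |>.1 (by rw [← this]; simp [evr])
  have h2 : n2 r x = 0 := by
    have := n2_mul h.root x x
    rw [← sq, hx] at this
    exact mul_self_eq_zero.1 (by rw [← this]; simp [n2])
  have h3 := h.n2_zero h2
  have h4 : x.c2 * (3 * r ^ 2 + (e.1 : κ)) = 0 := by
    rw [h3] at h1
    simp only [evr, smul_c0, smul_c1, smul_c2, tau, smul_eq_mul] at h1
    linear_combination h1
  rw [h3, (mul_eq_zero.1 h4).resolve_right h.deriv_ne, zero_smul]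

theorem FT.zero_div (h : FT e r) {x : Cub e κ} (hx : nm x = 0) :
    x * tau e r = 0 ∨ x * lin e r = 0 := by
  rw [nm_eq_evr_mul h.root] at hx
  rcases mul_eq_zero.1 hx with h1 | h1
  · left
    rw [mul_tau h.root, h1, zero_smul]
  · right
    rw [h.n2_zero h1, smul_mul_assoc, mul_comm, lin_mul_tau, h.root, map_zero, smul_zero]

/-- the only root is `r`: `f s = (s - r) (s^2 + r s + r^2 + A)` and
`(2 s + r)^2 = -3 r^2 - 4 A` if the second factor vanishes -/
theorem FT.root_unique (h : FT e r) {s : κ} (hs : fv e s = 0) : s = r := by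
  by_contra hne
  have h1 := h.root
  rw [fv] at h1 hs
  have h2 : (s - r) * (s ^ 2 + r * s + r ^ 2 + (e.1 : κ)) = 0 := by linear_combination hs - h1
  have h3 := (mul_eq_zero.1 h2).resolve_left (sub_ne_zero.2 hne)
  exact h.ns' ⟨2 * s + r, by linear_combination (-4) * h3⟩

/-- For any `w`, `(w * lin e r).c2 = -(w.c1 - r w.c2)`.  If it vanishes for `w = u y^2` then
`n2 u * n2 y ^ 2 = n2 w = α^2`; `n2 y ≠ 0` (`n2_zero`), so `n2 u` is a nonzero square and
`nm u = evr r u * n2 u` makes `evr r u` a square. -/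
theorem FT.ff3 (h : FT e r) {u : Cub e κ} (hu : IsSquare (nm u)) (hu0 : nm u ≠ 0)
    (hn : ¬ IsSquare (evr r u)) {α β : κ} (hy : ¬ (α = 0 ∧ β = 0)) :
    (u * lin e r * (⟨α, β, 0⟩ : Cub e κ) ^ 2).c2 ≠ 0 := by
  intro h0
  obtain ⟨y, hy'⟩ : ∃ y : Cub e κ, y = ⟨α, β, 0⟩ := ⟨_, rfl⟩
  have hy2 : n2 r y ≠ 0 := fun h1 => by
    have h2 := h.n2_zero h1
    rw [hy', zero_smul] at h2
    exact hy ⟨congrArg Cub.c0 h2, congrArg Cub.c1 h2⟩
  rw [← hy', mul_right_comm, sq] at h0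
  have h1 : n2 r (u * (y * y)) = n2 r u * (n2 r y * n2 r y) := by
    rw [n2_mul h.root, n2_mul h.root]
  obtain ⟨w, hw⟩ : ∃ w, w = u * (y * y) := ⟨_, rfl⟩
  rw [← hw] at h0 h1
  have h2 : w.c1 - r * w.c2 = 0 := by
    simp only [mul_c2, lin] at h0
    linear_combination -h0
  rw [n2, h2] at h1
  obtain ⟨a, ha⟩ : ∃ a, a = w.c0 - (r ^ 2 + (e.1 : κ)) * w.c2 := ⟨_, rfl⟩
  rw [← ha] at h1
  obtain ⟨s, hs⟩ := hu
  have h3 := nm_eq_evr_mul h.root u
  have h4 : n2 r u ≠ 0 := fun h5 => hu0 (by rw [h3, h5, mul_zero])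
  have h5 : a ≠ 0 := fun h6 => mul_ne_zero h4 (mul_ne_zero hy2 hy2) (by rw [← h1, h6]; ring)
  refine hn ⟨s * n2 r y / a, ?_⟩
  rw [div_mul_div_comm, eq_div_iff (mul_ne_zero h5 h5)]
  linear_combination evr r u * h1 + n2 r y ^ 2 * (hs - h3)

/-- `X^3 + A X + B` is irreducible (`Polynomial.irreducible_iff_roots_eq_zero_of_degree_le_three`
or similar), so it is coprime to `x0 + x1 X + x2 X^2 ≠ 0`; apply `Polynomial.aeval th` to a Bezout
relation (`th_cube`, `eq_coords`), `isUnit_iff`. -/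
theorem ff_noroot (h : ∀ r : κ, fv e r ≠ 0) {x : Cub e κ} (hx : x ≠ 0) : nm x ≠ 0 := by
  open Polynomial in
  obtain ⟨P, hP⟩ : ∃ P : κ[X], P = X ^ 3 + C (e.1 : κ) * X + C (e.2 : κ) := ⟨_, rfl⟩
  open Polynomial in
  obtain ⟨Q, hQ⟩ : ∃ Q : κ[X], Q = C x.c2 * X ^ 2 + C x.c1 * X + C x.c0 := ⟨_, rfl⟩
  have hd : P.natDegree = 3 := by
    rw [hP]
    compute_degree!
  have hP0 : P ≠ 0 := by
    rintro rfl
    simp at hd
  have hi : Irreducible P := by
    rw [Polynomial.irreducible_iff_roots_eq_zero_of_degree_le_three (by omega) (by omega),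
      Multiset.eq_zero_iff_forall_notMem]
    intro r hr
    rw [Polynomial.mem_roots hP0, Polynomial.IsRoot, hP] at hr
    exact h r (by simpa [fv] using hr)
  have h1 : Polynomial.aeval (th : Cub e κ) P = 0 := by
    rw [hP, ← th_cube]
    simp
  have h2 : Polynomial.aeval (th : Cub e κ) Q = x := by
    rw [hQ]
    ext <;> simp [pow_succ]
  have hQ0 : Q ≠ 0 := fun h0 => hx (by rw [← h2, h0, map_zero])
  have hQd : Q.natDegree ≤ 2 := by
    rw [hQ]
    compute_degree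
  obtain ⟨a, b, hab⟩ := hi.coprime_iff_not_dvd.2 fun hdvd => by
    have := Polynomial.natDegree_le_of_dvd hdvd hQ0
    omega
  have h3 := congrArg (Polynomial.aeval (th : Cub e κ)) hab
  rw [map_add, map_mul, map_mul, h1, h2, mul_zero, zero_add, map_one] at h3
  exact isUnit_iff.1 (IsUnit.of_mul_eq_one_right _ h3)

end Pool.Agent.Lib.MP_775b3b_nt
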