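import Pool.Agent.Lib.MP_775b3b_nt.Desc

/-! One quadratic step. -/

namespace Pool.Agent.Lib.MP_775b3b_nt

open Cub

variable {e : ℤ × ℤ}

theorem step_two {G : Type*} [CommGroup G] {H K : Subgroup G}
    (h : ∀ x ∈ K, ∀ y ∈ K, x ∉ H → y ∉ H → x / y ∈ H) : Bd H K 2 := by
  have h1 := Bd.of_fun (H := H) (K := K) (fun x => x ∈ H) (fun x hx y hy hxy => by
    by_cases hxH : x ∈ H
    · exact H.div_mem hxH (hxy ▸ hxH)
    · exact h x hx y hy hxH (fun hyH => hxH (hxy ▸ hyH)))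
  simpa using h1

theorem step_sq_mem_usq {R : Type*} [CommRing R] (S : Subring R) (t : Rˣ) : t ^ 2 ∈ usq S :=
  ⟨t⁻¹, by simp, by simp⟩

theorem step_map_usq {R R' : Type*} [CommRing R] [CommRing R'] {p : Nat.Primes} (f : R →+* R')
    {d : Rˣ} (hd : d ∈ usq (intP p R)) : Units.map (f : R →* R') d ∈ usq (intP p R') := by
  obtain ⟨z, h1, h2⟩ := hd
  refine ⟨Units.map (f : R →* R') z, ?_, ?_⟩
  · rw [← map_pow, ← map_mul]
    exact map_mem_intP f h1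
  · rw [← map_pow, ← map_mul, ← map_inv]
    exact map_mem_intP f h2

theorem step_map_Sel {k k' : Type*} [Field k] [Field k'] (f : k →+* k') {N : ℕ}
    {d : (Cub e k)ˣ} (hd : d ∈ Sel N e k) :
    Units.map (map (e := e) f : Cub e k →* Cub e k') d ∈ Sel N e k' := by
  rw [mem_Sel] at hd ⊢
  obtain ⟨⟨ν, hν⟩, h2⟩ := hd
  refine ⟨⟨f ν, ?_⟩, fun p hp => step_map_usq (map f) (h2 p hp)⟩
  have : ((Units.map (map (e := e) f : Cub e k →* Cub e k') d : (Cub e k')ˣ) : Cub e k') =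
      map f (d : Cub e k) := rfl
  rw [this, nm_map, hν, map_pow]

theorem step_sq_mem_Sel {k : Type*} [Field k] {N : ℕ} (t : (Cub e k)ˣ) : t ^ 2 ∈ Sel N e k := by
  rw [mem_Sel]
  exact ⟨⟨nm (t : Cub e k), by rw [Units.val_pow_eq_pow_val, nm_pow]⟩,
    fun p _ => step_sq_mem_usq _ t⟩

theorem step_fixed {k k' : Type*} [Field k] [Field k'] [Algebra k k'] (σ : k' →+* k')
    (hfix : ∀ x, σ x = x ↔ ∃ y, algebraMap k k' y = x) {d : (Cub e k')ˣ}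
    (hd : map σ (d : Cub e k') = d) :
    ∃ d₀ : (Cub e k)ˣ, Units.map (map (e := e) (algebraMap k k') : Cub e k →* Cub e k') d₀ = d := by
  obtain ⟨a0, h0⟩ := (hfix _).1 (congrArg Cub.c0 hd)
  obtain ⟨a1, h1⟩ := (hfix _).1 (congrArg Cub.c1 hd)
  obtain ⟨a2, h2⟩ := (hfix _).1 (congrArg Cub.c2 hd)
  have hx : map (algebraMap k k') (⟨a0, a1, a2⟩ : Cub e k) = d := by
    ext
    · exact h0
    · exact h1
    · exact h2
  have hu : IsUnit (⟨a0, a1, a2⟩ : Cub e k) := by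
    rw [isUnit_iff]
    intro h
    apply nm_ne_zero d
    rw [← hx, nm_map, h, map_zero]
  obtain ⟨d₀, hd₀⟩ := hu
  refine ⟨d₀, Units.ext ?_⟩
  rw [← hx, ← hd₀]
  rfl

theorem step_descend {k k' : Type*} [Field k] [Field k'] [CharZero k'] [Algebra k k']
    (σ : k' →+* k') (hσ : ∀ x, σ (σ x) = x)
    (hfix : ∀ x, σ x = x ↔ ∃ y, algebraMap k k' y = x) {β : k'} (hβ0 : β ≠ 0) (hβ : σ β = -β)
    {N : ℕ} (h2 : 2 ∣ N)
    (hN : ∀ p : Nat.Primes, ¬ (p : ℕ) ∣ N → β ∈ intP p k' ∧ β⁻¹ ∈ intP p k')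
    {d₀ : (Cub e k)ˣ}
    (hG : Units.map (map (e := e) (algebraMap k k') : Cub e k →* Cub e k') d₀ ∈ Sel N e k') {μ : k'}
    (hμ : algebraMap k k' (nm (d₀ : Cub e k)) = μ ^ 2) (hs : σ μ = μ) : d₀ ∈ Sel N e k := by
  rw [mem_Sel] at hG ⊢
  have hinj : Function.Injective (algebraMap k k') := (algebraMap k k').injective
  obtain ⟨ν, rfl⟩ := (hfix _).1 hs
  refine ⟨⟨ν, hinj (by rw [hμ, map_pow])⟩, fun p hp => ?_⟩
  have hpN : ¬ (p : ℕ) ∣ N := fun h => hp (Or.inl h)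
  have hp2 : (p : ℕ) ≠ 2 := fun h => hpN (h ▸ h2)
  obtain ⟨hb, hb'⟩ := hN p hpN
  have hfx : ∀ y, σ (algebraMap k k' y) = algebraMap k k' y := fun y => (hfix _).2 ⟨y, rfl⟩
  obtain ⟨z, hz, h3, h4⟩ := usq_descend (R := Cub e k') hp2 (map σ)
    (fun x => by ext <;> simp [hσ]) (β := algebraMap k' (Cub e k') β)
    (β' := algebraMap k' (Cub e k') β⁻¹) (by rw [map_algebraMap, hβ, map_neg])
    (map_mem_intP _ hb) (map_mem_intP _ hb') (by rw [← map_mul, mul_inv_cancel₀ hβ0, map_one])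
    (d := Units.map (map (e := e) (algebraMap k k') : Cub e k →* Cub e k') d₀)
    (by
      ext
      · exact hfx _
      · exact hfx _
      · exact hfx _) (hG.2 p hp)
  obtain ⟨z₀, rfl⟩ := step_fixed σ hfix hz
  rw [← map_pow, ← map_mul] at h3 h4
  rw [← map_inv] at h4
  exact ⟨z₀, mem_intP_of_map (f := map (algebraMap k k')) (map_injective hinj) h3,
    mem_intP_of_map (f := map (algebraMap k k')) (map_injective hinj) h4⟩

/-- Let `s = Units.map (map σ)`, `ι = Units.map (map (algebraMap k k'))`, `G = Sel N e k'`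
(stable under `s`), `H₀ = {d ∈ G | s d / d ∈ SQ}`.
(1) `d ↦ d * s d` maps `G` to `H₀`, and `d * s d ∈ SQ` iff `d ∈ H₀`: `Bd H₀ G [H₀ : SQ]`.
(2) for `d ∈ H₀` choose `z` with `s d = d z^2`; `z * s z` is a square root of 1.  Equal values
give `H₁ = {d ∈ G | ∃ z, s d = d z^2 ∧ z * s z = 1}` index `≤ 8` in `H₀` (`Bd.of_fun`).
(3) for `d ∈ H₁`, `h90` gives `t` with `d t^2` fixed, `= ι d₀`.  `nm d₀ = ν^2` in `k'` with
`σ ν = ± ν`, so `nm d₀` or `β^2 nm d₀` is a square in `k`.  Index `≤ 2`: the subgroup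
`H₂ = (Sel N e k).map ι ⊔ SQ`; `d₀ ∈ usq (intP p _)` by `usq_descend` and `mem_intP_of_map`.
(4) `Bd SQ H₂ n` by `Bd.map`, `Bd.of_cover`. -/
theorem sel_step {k k' : Type*} [Field k] [Field k'] [CharZero k] [CharZero k'] [Algebra k k']
    (σ : k' →+* k') (hσ : ∀ x, σ (σ x) = x)
    (hfix : ∀ x, σ x = x ↔ ∃ y, algebraMap k k' y = x) {β : k'} (hβ0 : β ≠ 0) (hβ : σ β = -β)
    {N : ℕ} (h2 : 2 ∣ N)
    (hN : ∀ p : Nat.Primes, ¬ (p : ℕ) ∣ N → β ∈ intP p k' ∧ β⁻¹ ∈ intP p k') (hd : disc e ≠ 0)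
    {n : ℕ} (h : Bd (SQ e k) (Sel N e k) n) : Bd (SQ e k') (Sel N e k') ((16 * n) ^ 2) := by
  classical
  set s : (Cub e k')ˣ →* (Cub e k')ˣ := Units.map (map (e := e) σ : Cub e k' →* Cub e k') with hs
  set ι : (Cub e k)ˣ →* (Cub e k')ˣ :=
    Units.map (map (e := e) (algebraMap k k') : Cub e k →* Cub e k') with hι
  have hsv : ∀ d : (Cub e k')ˣ, ((s d : (Cub e k')ˣ) : Cub e k') = map σ (d : Cub e k') :=
    fun d => rfl
  have hιv : ∀ d : (Cub e k)ˣ,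
      ((ι d : (Cub e k')ˣ) : Cub e k') = map (algebraMap k k') (d : Cub e k) := fun d => rfl
  have hss : ∀ d, s (s d) = d := fun d => Units.ext (by
    rw [hsv, hsv]
    ext <;> simp [hσ])
  have hfx : ∀ y, σ (algebraMap k k' y) = algebraMap k k' y := fun y => (hfix _).2 ⟨y, rfl⟩
  have hsq : ∀ t : (Cub e k')ˣ, t ^ 2 ∈ SQ e k' := fun t => ⟨t, sq t⟩
  set G := Sel N e k' with hG
  let H₀ : Subgroup (Cub e k')ˣ := (SQ e k').comap (MonoidHom.id _ * s)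
  have hH₀ : ∀ d, d ∈ H₀ ↔ d * s d ∈ SQ e k' := fun d => Iff.rfl
  let H₁ : Subgroup (Cub e k')ˣ :=
    { carrier := {d | ∃ z, s d = d * z ^ 2 ∧ z * s z = 1}
      one_mem' := ⟨1, by simp, by simp⟩
      mul_mem' := by
        rintro a b ⟨z, h1, h2⟩ ⟨w, h3, h4⟩
        refine ⟨z * w, ?_, ?_⟩
        · rw [map_mul, h1, h3, mul_pow, mul_mul_mul_comm]
        · rw [map_mul, mul_mul_mul_comm, h2, h4, one_mul]
      inv_mem' := by
        rintro a ⟨z, h1, h2⟩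
        refine ⟨z⁻¹, ?_, ?_⟩
        · rw [map_inv, h1, mul_inv, inv_pow]
        · rw [map_inv, ← mul_inv, h2, inv_one] }
  have hH₁ : ∀ d, d ∈ H₁ ↔ ∃ z, s d = d * z ^ 2 ∧ z * s z = 1 := fun d => Iff.rfl
  let H₂ : Subgroup (Cub e k')ˣ := (Sel N e k).map ι ⊔ SQ e k'
  -- (4)
  have b4 : Bd (SQ e k') H₂ n := by
    refine (h.map ι (H' := SQ e k') ?_).of_cover ?_
    · rintro x ⟨y, rfl⟩
      exact ⟨ι y, map_mul ι y y⟩
    · intro x hx
      obtain ⟨y, hy, z, hz, rfl⟩ := Subgroup.mem_sup.1 hx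
      exact ⟨y, hy, by rwa [mul_div_cancel_left]⟩
  -- (3)
  have key : ∀ d ∈ G, ∀ (t : (Cub e k')ˣ) (d₀ : (Cub e k)ˣ) (μ : k'), d * t ^ 2 = ι d₀ →
      algebraMap k k' (nm (d₀ : Cub e k)) = μ ^ 2 → σ μ = μ → d ∈ H₂ := by
    intro d hdG t d₀ μ h1 h3 h4
    have h5 : d₀ ∈ Sel N e k := step_descend σ hσ hfix hβ0 hβ h2 hN
      (by rw [← hι, ← h1]; exact G.mul_mem hdG (step_sq_mem_Sel t)) h3 h4
    refine Subgroup.mem_sup.2 ⟨ι d₀, ⟨d₀, h5, rfl⟩, t⁻¹ ^ 2, hsq _, ?_⟩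
    rw [← h1, inv_pow, mul_inv_cancel_right]
  have key2 : ∀ d ∈ H₁ ⊓ G, d ∉ H₂ → ∃ (t : (Cub e k')ˣ) (d₀ : (Cub e k)ˣ) (μ : k'),
      d * t ^ 2 = ι d₀ ∧ algebraMap k k' (nm (d₀ : Cub e k)) = μ ^ 2 ∧ σ μ = -μ := by
    rintro d ⟨⟨z, h1, h3⟩, hdG⟩ hn
    obtain ⟨t, ht⟩ := h90 σ hσ hβ0 hβ (z := (z : Cub e k')) (by
      rw [← hsv, ← Units.val_mul, h3, Units.val_one])
    have ht' : t = z * s t := Units.ext (by rw [Units.val_mul, hsv]; exact ht)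
    have hf : s (d * t ^ 2) = d * t ^ 2 := by
      rw [map_mul, map_pow, h1, mul_assoc, ← mul_pow, ← ht']
    obtain ⟨d₀, hd₀⟩ := step_fixed σ hfix (d := d * t ^ 2) (by rw [← hsv, hf])
    obtain ⟨μ, hμ⟩ := (mem_Sel.1 (G.mul_mem hdG (step_sq_mem_Sel t))).1
    have h4 : algebraMap k k' (nm (d₀ : Cub e k)) = μ ^ 2 := by
      rw [← hμ, ← hd₀, ← nm_map]
      rfl
    have h5 : σ μ ^ 2 = μ ^ 2 := by rw [← map_pow, ← h4, hfx]
    rcases sq_eq_sq_iff_eq_or_eq_neg.1 h5 with h6 | h6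
    · exact absurd (key d hdG t d₀ μ hd₀.symm h4 h6) hn
    · exact ⟨t, d₀, μ, hd₀.symm, h4, h6⟩
  have b3 : Bd H₂ (H₁ ⊓ G) 2 := by
    refine step_two fun x hx y hy hxn hyn => ?_
    obtain ⟨t, x₀, μ, h1, h3, h4⟩ := key2 x hx hxn
    obtain ⟨u, y₀, ν, h5, h6, h7⟩ := key2 y hy hyn
    refine key (x / y) (G.div_mem hx.2 hy.2) (t / u) (x₀ / y₀) (μ / ν) ?_ ?_ ?_
    · rw [map_div, ← h1, ← h5, div_pow, div_mul_div_comm]
    · have h8 : nm ((x₀ / y₀ : (Cub e k)ˣ) : Cub e k) = nm (x₀ : Cub e k) / nm (y₀ : Cub e k) := by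
        rw [eq_div_iff (nm_ne_zero y₀), ← nm_mul, ← Units.val_mul, div_mul_cancel]
      rw [h8, map_div₀, h3, h6, div_pow]
    · rw [map_div₀, h4, h7, neg_div_neg_eq]
  -- (2)
  have b2 : Bd H₁ (H₀ ⊓ G) 8 := by
    obtain ⟨hfin, hcard⟩ := card_mu2 (e := e) (k := k') hd
    have hz : ∀ d, ∃ z, (d ∈ H₀ → s d = d * z ^ 2) ∧ (z * s z) ^ 2 = 1 := by
      intro d
      by_cases hd0 : d ∈ H₀
      · obtain ⟨w, hw⟩ := (hH₀ d).1 hd0
        have h1 : s d = d * (w / d) ^ 2 := by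
          rw [div_pow, sq w, ← hw, sq d, mul_div_mul_left_eq_div, mul_div_cancel]
        refine ⟨w / d, fun _ => h1, ?_⟩
        have h3 := congrArg s h1
        rw [hss, map_mul, map_pow, h1, mul_assoc, ← mul_pow] at h3
        exact mul_eq_left.1 h3.symm
      · exact ⟨1, fun h => absurd h hd0, by simp⟩
    choose z hz1 hz2 using hz
    refine (Bd.of_fun (α := {m : (Cub e k')ˣ // m ^ 2 = 1}) (fun d => ⟨z d * s (z d), hz2 d⟩)
      fun x hx y hy hxy => ?_).mono hcard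
    have h1 : z x * s (z x) = z y * s (z y) := congrArg Subtype.val hxy
    refine (hH₁ _).2 ⟨z x / z y, ?_, ?_⟩
    · rw [map_div, hz1 x hx.1, hz1 y hy.1, div_pow, div_mul_div_comm]
    · rw [map_div, div_mul_div_comm, h1, div_self']
  have b5 : Bd H₂ (H₀ ⊓ G) (2 * 8) :=
    Bd.trans (b3.of_le_right (inf_le_inf_left _ inf_le_right)) b2
  have b6 : Bd (SQ e k') (H₀ ⊓ G) (n * (2 * 8)) :=
    Bd.trans (b4.of_le_right inf_le_left) b5
  -- (1)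
  have b1 : Bd H₀ G (n * (2 * 8)) := by
    refine b6.comap (MonoidHom.id _ * s) fun x hx => ⟨?_, ?_⟩
    · refine (hH₀ _).2 ⟨x * s x, ?_⟩
      show x * s x * s (x * s x) = _
      rw [map_mul, hss, mul_comm (s x) x]
    · exact G.mul_mem hx (step_map_Sel σ hx)
  exact (Bd.trans b6 b1).mono (le_of_eq (by ring))

end Pool.Agent.Lib.MP_775b3b_nt
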