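import Pool.Agent.Lib.MP_775b3b_nt.ZDefs
import Pool.Agent.Lib.MP_775b3b_nt.Step

/-! Transport of local conditions along field homomorphisms. -/

namespace Pool.Agent.Lib.MP_775b3b_nt

open Cub MP_439fea_co WithZero

variable {e : ℤ × ℤ} {k k' : Type*} [Field k] [NumberField k] [Field k'] [NumberField k']

/-- `val_algebraMap`: `val w (ι x) = val v x ^ m = exp (-1)` forces `m = 1` -/
theorem over_und [Algebra k k'] (w : P k') {x : k}
    (hx : val w (algebraMap k k' x) = exp (-1 : ℤ)) : Over (algebraMap k k') w (und k w) := by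
  obtain ⟨m, hm, h⟩ := val_algebraMap k w
  have hx0 : x ≠ 0 := by
    rintro rfl
    rw [map_zero, map_zero] at hx
    exact exp_ne_zero hx.symm
  rw [h, val_eq_exp _ hx0, ← exp_nsmul, exp_inj, nsmul_eq_mul, mul_neg, neg_inj] at hx
  have h1 : m = 1 := by
    have h2 : (m : ℤ) ∣ 1 := ⟨_, hx.symm⟩
    exact Nat.dvd_one.1 (by exact_mod_cast h2)
  intro y
  rw [h, h1, pow_one]

/-- `letI := φ.toAlgebra`, `over_und` -/
theorem exists_over_hom (φ : k →+* k') (w : P k') {x : k} (hx : val w (φ x) = exp (-1 : ℤ)) :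
    ∃ v : P k, Over φ w v := by
  let := φ.toAlgebra
  exact ⟨und k w, over_und w hx⟩

/-- `exists_over`, `val_algebraMap_lt_iff` -/
theorem exists_above [Algebra k k'] (v : P k) : ∃ w : P k', und k w = v ∧
    ∀ x : k, (val w (algebraMap k k' x) < 1 ↔ val v x < 1) := by
  obtain ⟨w, hw⟩ := exists_over k' v
  refine ⟨w, hw, fun x => ?_⟩
  have h := val_algebraMap_lt_iff w x 1
  rwa [map_one, map_one, map_one, hw] at h

/-- `val_smul` -/
theorem over_smul {k₀ : Type*} [Field k₀] [Algebra k₀ k] (g : k ≃ₐ[k₀] k) (v : P k) :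
    Over (g : k →+* k) (g • v) v := by
  intro x
  exact val_smul g v x

/-- an endomorphism of a number field is surjective (`RingHom.toRatAlgHom`, `AlgHom.bijective`), so
a uniformiser of `w` is in the image; `exists_over_hom` -/
theorem exists_over_end (φ : k →+* k) (w : P k) : ∃ v : P k, Over φ w v := by
  obtain ⟨π, hπ⟩ := w.valuation_exists_uniformizer k
  obtain ⟨x, hx⟩ := (AlgHom.bijective φ.toRatAlgHom).2 π
  refine exists_over_hom φ w (x := x) ?_
  have h1 : φ x = π := hx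
  rw [h1]
  exact hπ

variable {φ : k →+* k'} {w : P k'} {v : P k}

theorem Over.natCast (h : Over φ w v) (n : ℕ) : val w (n : k') = val v (n : k) := by
  rw [← h, map_natCast φ]

theorem Over.intCast (h : Over φ w v) (n : ℤ) : val w (n : k') = val v (n : k) := by
  rw [← h, map_intCast φ]

theorem Over.two (h : Over φ w v) : val w (2 : k') = val v (2 : k) := by
  rw [← h, map_ofNat φ]

theorem Over.mem_Ov (h : Over φ w v) {x : Cub e k} : map φ x ∈ Ov e w ↔ x ∈ Ov e v := by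
  rw [MP_775b3b_nt.mem_Ov, MP_775b3b_nt.mem_Ov, map_c0, map_c1, map_c2, h, h, h]

theorem Over.sm (h : Over φ w v) {x : Cub e k} : Sm w (map φ x) ↔ Sm v x := by
  rw [Sm, Sm, map_c0, map_c1, map_c2, h, h, h]

theorem Over.usv (h : Over φ w v) {d : (Cub e k)ˣ} (hd : d ∈ usv e v) : uz e φ d ∈ usv e w := by
  obtain ⟨z, h1, h2⟩ := mem_usv.1 hd
  refine mem_usv.2 ⟨uz e φ z, ?_, ?_⟩
  · rw [← map_pow, ← map_mul, uz_val]
    exact h.mem_Ov.2 h1
  · rw [← map_pow, ← map_mul, uz_val, nm_map, h, h2]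

theorem Over.sqv (h : Over φ w v) {d : (Cub e k)ˣ} (hd : d ∈ sqv e v) : uz e φ d ∈ sqv e w := by
  obtain ⟨z, h1⟩ := mem_sqv.1 hd
  refine mem_sqv.2 ⟨uz e φ z, ?_⟩
  have h2 := h.sm.2 h1
  rwa [map_sub, map_one, ← uz_val, map_mul, map_pow] at h2

theorem Over.L2 (h : Over φ w v) {d : (Cub e k)ˣ} (hd : d ∈ L2 e v) : uz e φ d ∈ L2 e w := by
  refine mem_L2.2 fun hA hB => ?_
  rw [h.intCast] at hA hB
  obtain ⟨z, h1, h2, h3⟩ := mem_L2.1 hd hA hB
  refine ⟨uz e φ z, ?_, ?_, ?_⟩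
  · rw [← map_pow, ← map_mul, uz_val]
    exact h.mem_Ov.2 h1
  · rw [← map_pow, ← map_mul, uz_val, nm_map, h, h2]
  · rw [← map_pow, ← map_mul, uz_val, map_c1, h]
    exact h3

/-- `uz_tauU` -/
theorem Over.Tv (h : Over φ w v) {r : ℤ} {d : (Cub e k)ˣ} (hd : d ∈ Tv e v r) :
    uz e φ d ∈ Tv e w r := by
  rcases mem_Tv.1 hd with h1 | h1
  · exact mem_Tv.2 (Or.inl (h.sqv h1))
  · refine mem_Tv.2 (Or.inr ?_)
    have h2 := h.sqv h1
    rwa [map_mul, uz_tauU] at h2

theorem Over.eis (h : Over φ w v) : Eis e w ↔ Eis e v := by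
  rw [Eis, Eis, h.intCast, h.intCast]

theorem Over.eis2 (h : Over φ w v) : Eis2 e w ↔ Eis2 e v := by
  rw [Eis2, Eis2, h.intCast, h.intCast, h.two]

theorem Over.tyV (h : Over φ w v) {r : ℤ} (hw : TyV e w r) : TyV e v r := by
  obtain ⟨h1, h2, h3⟩ := hw
  refine ⟨h.two ▸ h1, ?_, fun y hy => h3 (φ y) ?_⟩
  · rw [← h, map_fv, map_intCast φ, h2]
  · rwa [← h, map_add, map_pow, map_intCast φ] at hy

theorem Over.res1 (h : Over φ w v) (hw : Res1 w) : Res1 v := by
  intro y hy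
  obtain ⟨n, hn⟩ := hw (φ y) (by rwa [h])
  refine ⟨n, ?_⟩
  rwa [← h, map_sub, map_intCast φ]

/-- for `g` an automorphism both directions hold (use `g.symm`) -/
theorem sqv_smul_iff {k₀ : Type*} [Field k₀] [Algebra k₀ k] (g : k ≃ₐ[k₀] k) (v : P k)
    (d : (Cub e k)ˣ) : uz e (g : k →+* k) d ∈ sqv e (g • v) ↔ d ∈ sqv e v := by
  refine ⟨fun h => ?_, (over_smul g v).sqv⟩
  have h1 : Over (g.symm : k →+* k) v (g • v) := by
    intro x
    have h2 := over_smul g v (g.symm x)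
    have h3 : (g : k →+* k) (g.symm x) = x := g.apply_symm_apply x
    rw [h3] at h2
    exact h2.symm
  have h2 := h1.sqv h
  have h3 : uz e (g.symm : k →+* k) (uz e (g : k →+* k) d) = d := by
    ext1
    rw [uz_val, uz_val]
    ext
    · exact g.symm_apply_apply _
    · exact g.symm_apply_apply _
    · exact g.symm_apply_apply _
  rwa [h3] at h2

theorem uz_mem_Sel (φ : k →+* k') {N : ℕ} {d : (Cub e k)ˣ} (h : d ∈ Sel N e k) :
    uz e φ d ∈ Sel N e k' := step_map_Sel φ h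

theorem uz_mem_Z (φ : k →+* k) {D : Finset ℕ} {d : (Cub e k)ˣ} (h : d ∈ Z e D k) :
    uz e φ d ∈ Z e D k := by
  obtain ⟨h1, h2, h3, h4⟩ := mem_Z.1 h
  refine mem_Z.2 ⟨uz_mem_nsq φ h1, fun w hw => ?_, fun l hl w hw => ?_, fun w hw => ?_⟩
  · obtain ⟨v, hv⟩ := exists_over_end φ w
    exact hv.L2 (h2 v (hv.two ▸ hw))
  · obtain ⟨v, hv⟩ := exists_over_end φ w
    exact hv.Tv (h3 l hl v (hv.natCast l ▸ hw))
  · obtain ⟨v, hv⟩ := exists_over_end φ w
    exact hv.usv (h4 v fun l hl => hv.natCast l ▸ hw l hl)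

theorem uz_mem_TT (φ : k →+* k) {N : ℕ} {D : Finset ℕ} {d : (Cub e k)ˣ} (h : d ∈ TT e N D k) :
    uz e φ d ∈ TT e N D k := by
  obtain ⟨h1, h2, h3⟩ := mem_TT.1 h
  refine mem_TT.2 ⟨uz_mem_Sel φ h1, fun w hw => ?_, fun l hl w hw => ?_⟩
  · obtain ⟨v, hv⟩ := exists_over_end φ w
    exact hv.L2 (h2 v (hv.two ▸ hw))
  · obtain ⟨v, hv⟩ := exists_over_end φ w
    exact hv.Tv (h3 l hl v (hv.natCast l ▸ hw))

theorem SQ_le_TT {N : ℕ} {D : Finset ℕ} : SQ e k ≤ TT e N D k := by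
  intro d h
  refine mem_TT.2 ⟨?_, fun _ _ => sqv_le_L2 (SQ_le_sqv h),
    fun _ _ _ _ => sqv_le_Tv (SQ_le_sqv h)⟩
  obtain ⟨z, rfl⟩ := h
  rw [← sq]
  exact step_sq_mem_Sel z

/-- `exists_above`, `over_und` -/
theorem Deg1.down [Algebra k k'] {l : ℕ} (h : Deg1 k' l) : Deg1 k l := by
  intro v hv
  obtain ⟨w, rfl, hw⟩ := exists_above (k' := k') v
  have h1 := (hw (l : k)).2 hv
  rw [map_natCast (algebraMap k k')] at h1
  obtain ⟨h2, h3⟩ := h w h1
  have h4 : Over (algebraMap k k') w (und k w) :=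
    over_und w (x := (l : k)) (by rwa [map_natCast (algebraMap k k')])
  exact ⟨h4.natCast l ▸ h2, h4.res1 h3⟩

theorem unr_down [Algebra k k'] {l : ℕ}
    (h : ∀ w : P k', val w (l : k') < 1 → val w (l : k') = exp (-1 : ℤ)) (v : P k)
    (hv : val v (l : k) < 1) : val v (l : k) = exp (-1 : ℤ) := by
  obtain ⟨w, rfl, hw⟩ := exists_above (k' := k') v
  have h1 := (hw (l : k)).2 hv
  rw [map_natCast (algebraMap k k')] at h1
  have h2 := h w h1
  have h4 : Over (algebraMap k k') w (und k w) :=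
    over_und w (x := (l : k)) (by rwa [map_natCast (algebraMap k k')])
  exact h4.natCast l ▸ h2

theorem Nice.down [Algebra k k'] {D : Finset ℕ} (h : Nice e D k') : Nice e D k := by
  refine ⟨h.pos, fun v hv => ?_, h.prime, fun l hl v hv => ?_⟩
  · obtain ⟨w, rfl, hw⟩ := exists_above (k' := k') v
    have h1 := (hw (2 : k)).2 hv
    rw [map_ofNat (algebraMap k k')] at h1
    have h2 := h.two w h1
    have h4 : Over (algebraMap k k') w (und k w) :=
      over_und w (x := (2 : k)) (by rw [map_ofNat (algebraMap k k')]; exact h2.1)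
    exact h4.eis2.1 h2
  · obtain ⟨w, rfl, hw⟩ := exists_above (k' := k') v
    have h1 := (hw (l : k)).2 hv
    rw [map_natCast (algebraMap k k')] at h1
    have h2 := h.ty l hl w h1
    have h4 : Over (algebraMap k k') w (und k w) :=
      over_und w (x := fv e (rt e l : k))
        (by rw [map_fv, map_intCast (algebraMap k k')]; exact h2.2.1)
    exact h4.tyV h2

end Pool.Agent.Lib.MP_775b3b_nt
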