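import Pool.Agent.Lib.MP_775b3b_nt.ZRes
import Pool.Agent.Lib.MP_775b3b_nt.ZFF1
import Pool.Agent.Lib.MP_775b3b_nt.ZOver

/-! Twisting primes and twisting places. -/

namespace Pool.Agent.Lib.MP_775b3b_nt

open Cub MP_439fea_co WithZero

variable {e : ℤ × ℤ} {k k' : Type*} [Field k] [NumberField k] [Field k'] [NumberField k']

theorem zty0_le (v : P k) {a y : k} (ha : val v a ≤ 1) (h : val v (a - y ^ 2) < 1) :
    val v y ≤ 1 := by
  have h1 := Valuation.map_sub_le _ ha h.le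
  rw [sub_sub_cancel, map_pow] at h1
  exact (pow_le_one_iff_of_nonneg zero_le two_ne_zero).1 h1

theorem zty0_int (v : P k) (h : Res1 v) {a y : k} (ha : val v a ≤ 1)
    (hy : val v (a - y ^ 2) < 1) : ∃ m : ℤ, val v (a - (m : k) ^ 2) < 1 := by
  have h1 := zty0_le v ha hy
  obtain ⟨m, hm⟩ := h y h1
  refine ⟨m, ?_⟩
  have e1 : a - (m : k) ^ 2 = (a - y ^ 2) + (y - m) * (y + m) := by ring
  rw [e1]
  exact Valuation.map_add_lt _ hy (lociso_mul_lt v hm (Valuation.map_add_le _ h1 (val_int_le v m)))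

theorem zty0_prod (v : P k) {c : k} (hc : val v c ≤ 1) {ι : Type*} (s : Finset ι) (a : ι → k)
    (ha : ∀ i ∈ s, val v (a i) ≤ 1) (h : ∀ i ∈ s, val v (c - a i) < 1) :
    val v (c ^ s.card - ∏ i ∈ s, a i) < 1 := by
  classical
  induction s using Finset.induction_on with
  | empty => simp
  | insert i s hi ih =>
    have h1 := ih (fun j hj => ha j (Finset.mem_insert_of_mem hj))
      fun j hj => h j (Finset.mem_insert_of_mem hj)
    have e1 : c ^ (s.card + 1) - a i * ∏ j ∈ s, a j =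
        (c - a i) * c ^ s.card + (c ^ s.card - ∏ j ∈ s, a j) * a i := by ring
    rw [Finset.card_insert_of_notMem hi, Finset.prod_insert hi, e1]
    exact Valuation.map_add_lt _ (lociso_mul_lt v (h i (Finset.mem_insert_self _ _))
      (by rw [map_pow]; exact pow_le_one' hc _))
      (lociso_mul_lt v h1 (ha i (Finset.mem_insert_self _ _)))

/-- `Classical.epsilon_spec`: lift the root to `r₀ : ℤ`; `f (r₀ + l) = f r₀ + l (3 r₀^2 + A)`
modulo `l^2` and `l ∤ 3 r₀^2 + A` by `neg_disc_eq` -/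
theorem rt_spec {l : ℕ} (hl : l.Prime) (h : Ty e l) :
    (l : ℤ) ∣ fv e (rt e l) ∧ ¬ (l : ℤ) ^ 2 ∣ fv e (rt e l) := by
  have : Fact l.Prime := ⟨hl⟩
  refine Classical.epsilon_spec (p := fun r : ℤ => (l : ℤ) ∣ fv e r ∧ ¬ (l : ℤ) ^ 2 ∣ fv e r) ?_
  obtain ⟨-, ⟨r, hr⟩, hns⟩ := h
  obtain ⟨r, rfl⟩ := ZMod.intCast_surjective r
  have h1 : (l : ℤ) ∣ fv e r := by
    rw [← ZMod.intCast_zmod_eq_zero_iff_dvd, ← fv_intCast]
    exact hr
  by_cases h2 : (l : ℤ) ^ 2 ∣ fv e r
  · have e1 : fv e (r + l) = fv e r + l * (3 * r ^ 2 + e.1) + (l : ℤ) ^ 2 * (3 * r + l) := by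
      simp only [fv, Int.cast_id]
      ring
    refine ⟨r + l, ?_, fun h3 => hns ?_⟩
    · rw [e1]
      exact dvd_add (dvd_add h1 (dvd_mul_right _ _)) ((dvd_pow_self _ two_ne_zero).mul_right _)
    · rw [e1] at h3
      have h4 : (l : ℤ) ^ 2 ∣ l * (3 * r ^ 2 + e.1) :=
        (dvd_add_right h2).1 ((dvd_add_left (dvd_mul_right _ _)).1 h3)
      rw [sq] at h4
      have h5 := (mul_dvd_mul_iff_left (Int.natCast_ne_zero.2 hl.ne_zero)).1 h4
      rw [← ZMod.intCast_zmod_eq_zero_iff_dvd] at h5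
      push_cast at h5
      rw [neg_disc_eq hr, h5]
      exact ⟨0, by simp⟩
  · exact ⟨r, h1, h2⟩

/-- `fv_intCast`, `f r = l m` with `l ∤ m` (`ordp_val_one`), `val_natCast_lt_one_iff` for `2` -/
theorem tyV_of {l : ℕ} (hl : l.Prime) (h : Ty e l) {v : P k} (hv : val v (l : k) = exp (-1 : ℤ))
    (hs : SqZ v l) : TyV e v (rt e l) := by
  have hv1 : val v (l : k) < 1 := by
    rw [hv, ← exp_zero, exp_lt_exp]
    norm_num
  obtain ⟨⟨m, hm⟩, h2⟩ := rt_spec hl h
  refine ⟨?_, ?_, fun y hy => h.2.2 ?_⟩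
  · refine le_antisymm (by simpa using val_natCast_le_one v 2) (not_lt.1 fun h3 => h.1 ?_)
    exact (Nat.prime_dvd_prime_iff_eq hl Nat.prime_two).1
      ((val_natCast_lt_one_iff v hl hv1 2).1 (by simpa using h3))
  · have h3 : ¬ (l : ℤ) ∣ m := fun h3 => h2 (by rw [hm, sq]; exact mul_dvd_mul_left _ h3)
    rw [fv_intCast, hm, Int.cast_mul, map_mul, Int.cast_natCast, hv,
      ordp_val_one (p := ⟨l, hl⟩) v hv1 h3, mul_one]
  · have h3 := hs (-disc e) ⟨y, by
      rw [← Valuation.map_neg]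
      convert hy using 2
      push_cast
      ring⟩
    simpa using h3

theorem sqZ_of_res1 {l : ℕ} (hl : l.Prime) {v : P k} (hv : val v (l : k) < 1) (h : Res1 v) :
    SqZ v l := by
  rintro n ⟨y, hy⟩
  obtain ⟨m, hm⟩ := zty0_int v h (val_int_le v n) hy
  have h1 : (l : ℤ) ∣ n - m ^ 2 := by
    by_contra h1
    have h2 := ordp_val_one (p := ⟨l, hl⟩) v hv h1
    push_cast at h2
    exact hm.ne h2
  rw [← ZMod.intCast_zmod_eq_zero_iff_dvd] at h1
  push_cast at h1
  exact ⟨m, by rw [← sq]; exact sub_eq_zero.1 h1⟩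

/-- if `val v n < 1` then `l ∣ n` and `(n : ZMod l) = 0` -/
theorem SqZ.up {φ : k →+* k'} {w : P k'} {v : P k} (ho : Over φ w v) {l : ℕ} (hl : l.Prime)
    (hv : val v (l : k) < 1) (hd : SqDesc φ w) (h : SqZ v l) : SqZ w l := by
  rintro n ⟨y, hy⟩
  by_cases h1 : (l : ℤ) ∣ n
  · rw [(ZMod.intCast_zmod_eq_zero_iff_dvd n l).2 h1]
    exact ⟨0, by simp⟩
  · have h2 := ordp_val_one (p := ⟨l, hl⟩) v hv h1
    obtain ⟨y', hy'⟩ := hd (n : k) (by rw [ho, h2]) ⟨y, by rwa [map_intCast]⟩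
    exact h n ⟨y', by rwa [ho] at hy'⟩

omit [NumberField k] in
theorem sqDesc_of_res1 (φ : k →+* k') {w : P k'} (h : Res1 w) : SqDesc φ w := by
  rintro x hx ⟨y, hy⟩
  obtain ⟨m, hm⟩ := zty0_int w h hx.le hy
  exact ⟨m, by rwa [map_sub, map_pow, map_intCast]⟩

/-- Let `Γ` be the stabiliser of `w`, of order `2 j + 1`, and `ι x ≡ y^2`.  Then `ι x ≡ (g y)^2` for
`g ∈ Γ` (`val_smul`), so `ι x ^ (2 j + 1) ≡ (∏ g : Γ, g y)^2`.  The product is fixed by `Γ`, so `avg`
(with `N = ⊤`, `γ = exp (-1)`) gives a congruent element fixed by the whole group, which is `ι y'`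
(`IsGalois.mem_range_algebraMap_iff_fixed`); then `x ≡ (y' / x ^ j)^2`. -/
theorem sqDesc_of_odd [Algebra k k'] [IsGalois k k'] (w : P k')
    (h : Odd (Nat.card (MulAction.stabilizer (k' ≃ₐ[k] k') w))) :
    SqDesc (algebraMap k k') w := by
  classical
  rintro x hx ⟨y, hy⟩
  have : FiniteDimensional k k' := Module.Finite.of_restrictScalars_finite ℚ k k'
  have := Fintype.ofFinite (MulAction.stabilizer (k' ≃ₐ[k] k') w)
  obtain ⟨j, hj⟩ := h
  have hst : ∀ (g : MulAction.stabilizer (k' ≃ₐ[k] k') w) (a : k'),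
      val w ((g : k' ≃ₐ[k] k') • a) = val w a := fun g => (mem_stabilizer_iff_val _ w).1 g.2
  have hy1 : val w y ≤ 1 := zty0_le w hx.le hy
  obtain ⟨z, hz⟩ : ∃ z : k', z = ∏ g : MulAction.stabilizer (k' ≃ₐ[k] k') w,
      (g : k' ≃ₐ[k] k') • y := ⟨_, rfl⟩
  have hz1 : val w z ≤ 1 := by
    rw [hz, map_prod]
    exact Finset.prod_le_one' fun g _ => (hst g y).trans_le hy1
  have hz2 : val w (algebraMap k k' x ^ (2 * j + 1) - z ^ 2) < 1 := by
    rw [hz, ← Finset.prod_pow, ← hj, Nat.card_eq_fintype_card, ← Finset.card_univ]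
    refine zty0_prod w hx.le _ _ (fun g _ => ?_) fun g _ => ?_
    · rw [map_pow, hst]
      exact pow_le_one' hy1 2
    · have e1 : (g : k' ≃ₐ[k] k') • (algebraMap k k' x - y ^ 2) =
          algebraMap k k' x - ((g : k' ≃ₐ[k] k') • y) ^ 2 := by
        simp only [AlgEquiv.smul_def, map_sub, map_pow, AlgEquiv.commutes]
      rw [← e1, hst]
      exact hy
  obtain ⟨x', hx1, hx2⟩ := avg (⊤ : Subgroup (k' ≃ₐ[k] k')) w z (exp (-1 : ℤ)) exp_ne_zero
    fun n _ hn => by
      have e1 : n • z = z := by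
        rw [hz, Finset.smul_prod']
        refine Fintype.prod_equiv (Equiv.mulLeft
          (⟨n, hn⟩ : MulAction.stabilizer (k' ≃ₐ[k] k') w)) _ _ fun a => ?_
        simp [mul_smul]
      rw [e1, sub_self, map_zero]
      exact zero_le
  obtain ⟨y', rfl⟩ := (IsGalois.mem_range_algebraMap_iff_fixed (F := k) x').2
    fun f => hx1 f (Subgroup.mem_top f)
  have hx3 : val w (algebraMap k k' y' - z) < 1 :=
    hx2.trans_lt (by rw [← exp_zero, exp_lt_exp]; norm_num)
  have hx0 : algebraMap k k' x ≠ 0 := by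
    intro h0
    rw [h0, map_zero] at hx
    exact zero_ne_one hx
  refine ⟨y' / x ^ j, ?_⟩
  have e2 : algebraMap k k' (x - (y' / x ^ j) ^ 2) =
      ((algebraMap k k' x ^ (2 * j + 1) - z ^ 2) -
        (algebraMap k k' y' - z) * (algebraMap k k' y' - z + (z + z))) /
          algebraMap k k' x ^ (2 * j) := by
    rw [map_sub, map_pow, map_div₀, map_pow]
    field_simp
    ring
  rw [e2, map_div₀, map_pow, hx, one_pow, div_one]
  exact Valuation.map_sub_lt _ hz2 (lociso_mul_lt w hx3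
    (Valuation.map_add_le _ hx3.le (Valuation.map_add_le _ hz1 hz1)))

/-- the residue ring `𝓞 k ⧸ v.asIdeal` has prime cardinality, so it is generated by `1`
(`ZMod.ringEquivOfPrime` or additive subgroup of prime order); `exists_valuation_sub_lt_of_integer`
as in `lociso_val` -/
theorem res1_of_absNorm {v : P k} (h : (Ideal.absNorm v.asIdeal).Prime) : Res1 v := by
  intro y hy
  obtain ⟨a, ha⟩ := v.exists_valuation_sub_lt_of_integer hy 1
  have : Finite (NumberField.RingOfIntegers k ⧸ v.asIdeal) :=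
    Ideal.finiteQuotientOfFreeOfNeBot _ v.ne_bot
  have := Fintype.ofFinite (NumberField.RingOfIntegers k ⧸ v.asIdeal)
  have hc : Fintype.card (NumberField.RingOfIntegers k ⧸ v.asIdeal) =
      Ideal.absNorm v.asIdeal := by
    rw [Ideal.absNorm_apply, Submodule.cardQuot_apply, Nat.card_eq_fintype_card]
  obtain ⟨c, hc'⟩ := (ZMod.ringEquivOfPrime _ h hc).surjective (Ideal.Quotient.mk v.asIdeal a)
  obtain ⟨n, rfl⟩ := ZMod.intCast_surjective c
  rw [map_intCast, ← map_intCast (Ideal.Quotient.mk v.asIdeal), Ideal.Quotient.eq,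
    ← Val_lt_iff_mem] at hc'
  have ha' : val v ((a : k) - y) < 1 := ha
  have h1 := Valuation.map_add_lt _ hc' ha'
  refine ⟨n, ?_⟩
  rw [Valuation.map_sub_swap]
  convert h1 using 2
  push_cast
  simp

/-- `y = a / b` in lowest terms; `l ∤ b`; `n = a b'` with `b b' ≡ 1` modulo the prime under `v` -/
theorem res1_rat (v : P ℚ) : Res1 v := by
  intro y hy
  obtain ⟨a, ha⟩ := v.exists_valuation_sub_lt_of_integer hy 1
  refine ⟨Rat.ringOfIntegersEquiv a, ?_⟩
  rw [Valuation.map_sub_swap, Rat.ringOfIntegersEquiv_apply_coe]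
  exact ha

theorem zty0_gal : @IsGalois ℚ _ ℚ _ DivisionRing.toRatAlgebra := by
  convert IsGalois.self ℚ
  exact Subsingleton.elim _ _

/-- a uniformiser `a / b` of `v` has valuation a power of `val v l` -/
theorem deg1_rat {l : ℕ} (hl : l.Prime) : Deg1 ℚ l := by
  intro v hv
  have := zty0_gal
  exact ⟨val_prime_of_inertia hl v hv fun g _ => AlgEquiv.ext fun x => map_ratCast g x,
    res1_rat v⟩

/-- `ncard_over_prime_le`, `finite_over_prime` -/
theorem place_rat_unique {l : ℕ} (hl : l.Prime) {v v' : P ℚ} (hv : val v (l : ℚ) < 1)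
    (hv' : val v' (l : ℚ) < 1) : v = v' := by
  have := zty0_gal
  obtain ⟨g, hg⟩ := exists_smul_eq_of_prime hl hv hv'
  have h1 : g = 1 := AlgEquiv.ext fun x => map_ratCast g x
  rw [← hg, h1, one_smul]

end Pool.Agent.Lib.MP_775b3b_nt
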