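import Pool.Agent.Lib.MP_775b3b_nt.ZZeta2
import Pool.Agent.Lib.MP_775b3b_nt.ZTy0

/-! Primes with prescribed splitting. -/

namespace Pool.Agent.Lib.MP_775b3b_nt

open NumberField MP_439fea_co WithZero

variable {F : Type} [Field F] [NumberField F] [IsGalois ℚ F]

theorem ZPrime_smul_eq {k G G' : Type*} [Field k] [Group G] [MulSemiringAction G k] [Group G']
    [MulSemiringAction G' k] {g : G} {g' : G'} (h : ∀ x : k, g • x = g' • x) (w : P k) :
    g • w = g' • w := by
  apply IsDedekindDomain.HeightOneSpectrum.ext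
  rw [smul_asIdeal, smul_asIdeal, Ideal.pointwise_smul_def, Ideal.pointwise_smul_def]
  congr 1
  exact RingHom.ext fun x => RingOfIntegers.ext (h x)

theorem ZPrime_lt : exp (-1 : ℤ) < (1 : ℤᵐ⁰) := by
  rw [← exp_zero, exp_lt_exp]
  norm_num

/-- `zeta_key` with `f = g = id` gives a place `w₀` of prime norm `l > max Y N₀` (`exists_unr`);
`val w₀ l < 1` (`intp2_val_absNorm`); the other places above `l` are conjugate
(`exists_smul_eq_of_prime`, `absNorm_smul`), `res1_of_absNorm` -/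
theorem exists_deg1 (F : Type) [Field F] [NumberField F] [IsGalois ℚ F] (Y : ℕ) :
    ∃ l : ℕ, l.Prime ∧ Y < l ∧ Deg1 F l := by
  obtain ⟨N₀, hN, hU⟩ := exists_unr F
  obtain ⟨w, hp, hY⟩ : ∃ w : P F, (Ideal.absNorm w.asIdeal).Prime ∧
      max Y N₀ < Ideal.absNorm w.asIdeal := by
    by_contra hc
    exact zeta_key (max Y N₀) (id : P F → P F) id fun v h1 h2 => absurd ⟨v, h1, h2⟩ hc
  refine ⟨_, hp, (le_max_left _ _).trans_lt hY, fun v hv => ⟨?_, ?_⟩⟩
  · exact hU N₀ dvd_rfl v ⟨_, hp⟩ (fun hd => absurd (Nat.le_of_dvd (Nat.pos_of_ne_zero hN) hd)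
      (not_le.2 ((le_max_right _ _).trans_lt hY))) hv
  · obtain ⟨g, rfl⟩ := exists_smul_eq_of_prime hp (intp2_val_absNorm w) hv
    exact res1_of_absNorm (by rwa [absNorm_smul])

/-- an integral primitive element (`Field.exists_primitive_element`, `exists_mul_isIntegral`);
the finitely many nonzero differences have valuation 1 outside a finite set (`finite_supp`,
`exists_prime_under`, `prime_under_unique`) -/
theorem exists_separating (F : Type) [Field F] [NumberField F] [IsGalois ℚ F] :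
    ∃ (α : F) (Y : ℕ), IsIntegral ℤ α ∧ ∀ (l : ℕ) (w : P F), l.Prime → Y < l → val w (l : F) < 1 →
      ∀ g g' : F ≃ₐ[ℚ] F, val w (g α - g' α) < 1 → g = g' := by
  obtain ⟨β, hβ⟩ := Field.exists_primitive_element ℚ F
  obtain ⟨m, hm, hα⟩ := exists_mul_isIntegral β
  have hne : ∀ g g' : F ≃ₐ[ℚ] F, g ≠ g' → g (m * β) - g' (m * β) ≠ 0 := fun g g' hg h0 => by
    rw [sub_eq_zero, map_mul, map_mul, map_natCast, map_natCast,
      mul_right_inj' (Nat.cast_ne_zero.2 hm)] at h0
    refine hg (AlgEquiv.coe_toAlgHom_injective (AlgHom.ext_of_adjoin_eq_top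
      (Algebra.adjoin_eq_top_of_primitive_element (Algebra.IsAlgebraic.isAlgebraic β) hβ) ?_))
    rintro _ rfl
    exact h0
  have hfin : (⋃ p : {p : (F ≃ₐ[ℚ] F) × (F ≃ₐ[ℚ] F) // p.1 ≠ p.2},
      {w : P F | val w (p.1.1 (m * β) - p.1.2 (m * β)) ≠ 1}).Finite :=
    Set.finite_iUnion fun p => finite_supp (hne _ _ p.2)
  choose pr hpr hpr' using fun w : P F => exists_prime_under w
  obtain ⟨Y, hY⟩ := (hfin.image pr).bddAbove
  refine ⟨m * β, Y, hα, fun l w hl hYl hw g g' hg => ?_⟩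
  by_contra hgg
  have h1 := hY ⟨w, Set.mem_iUnion.2 ⟨⟨(g, g'), hgg⟩, hg.ne⟩, rfl⟩
  rw [prime_under_unique w (hpr w) hl (hpr' w) hw] at h1
  omega

/-- Let `Γ = C ⊓ stabilizer w`.  The coefficients of `∏ c : Γ, (X - C (c α))` are fixed by `Γ` and
`w`-integral, so by `avg` (`N = C`, `γ = exp (-1)`) congruent to elements of the fixed field, hence
to integers (`h`).  Applying `g` (which preserves `val w`) to `∑ aᵢ αⁱ = 0` gives
`val w (∏ c : Γ, (g α - c α)) < 1`, so `g = c` for some `c`. -/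
theorem stabilizer_le {α : F} (hα : IsIntegral ℤ α) {w : P F}
    (hs : ∀ g g' : F ≃ₐ[ℚ] F, val w (g α - g' α) < 1 → g = g') (C : Subgroup (F ≃ₐ[ℚ] F))
    (h : ∀ y : F, (∀ c ∈ C, c y = y) → val w y ≤ 1 → ∃ n : ℤ, val w (y - n) < 1) :
    MulAction.stabilizer (F ≃ₐ[ℚ] F) w ≤ C := by
  classical
  intro g hg
  obtain ⟨Γ, hΓ⟩ : ∃ Γ, Γ = C ⊓ MulAction.stabilizer (F ≃ₐ[ℚ] F) w := ⟨_, rfl⟩
  have := Fintype.ofFinite Γ
  obtain ⟨A, hA⟩ : ∃ A : 𝓞 F, (A : F) = α := ⟨⟨α, hα⟩, rfl⟩
  obtain ⟨Q, hQ⟩ : ∃ Q, Q = MulSemiringAction.charpoly Γ A := ⟨_, rfl⟩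
  have hc : ∀ i, Q.coeff i - g • Q.coeff i ∈ w.asIdeal := fun i => by
    obtain ⟨x, hx1, hx2⟩ := avg C w (Q.coeff i : F) (exp (-1 : ℤ)) exp_ne_zero fun n hn hw => by
      have h1 := MulSemiringAction.smul_coeff_charpoly A i (⟨n, hΓ ▸ ⟨hn, hw⟩⟩ : Γ)
      rw [← hQ] at h1
      have h2 : n • (Q.coeff i : F) = Q.coeff i := congrArg (fun y : 𝓞 F => (y : F)) h1
      rw [h2, sub_self, map_zero]
      exact zero_le
    have hx3 := hx2.trans_lt ZPrime_lt
    have hx4 : val w x ≤ 1 := by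
      rw [← sub_add_cancel x (Q.coeff i : F)]
      exact Valuation.map_add_le _ hx3.le (intp2_val_le_one w (Q.coeff i).isIntegral_coe)
    obtain ⟨n, hn⟩ := h x hx1 hx4
    have h3 : val w ((Q.coeff i : F) - n) < 1 := by
      have := Valuation.map_sub_lt _ hn hx3
      rwa [sub_sub_sub_cancel_left] at this
    have h4 := (mem_stabilizer_iff_val g w).1 hg ((Q.coeff i : F) - n)
    have h5 := Valuation.map_sub_lt _ h3 (h4 ▸ h3)
    rw [smul_sub, show g • (n : F) = n from map_intCast g n, sub_sub_sub_cancel_right] at h5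
    exact (Val_lt_iff_mem w _).1 h5
  have h1 : (Q - g • Q).eval (g • A) ∈ w.asIdeal := by
    rw [Polynomial.eval_eq_sum_range]
    exact Ideal.sum_mem _ fun i _ => Ideal.mul_mem_right _ _ (by
      rw [Polynomial.coeff_sub, Polynomial.coeff_smul]
      exact hc i)
  rw [Polynomial.eval_sub, Polynomial.smul_eval_smul, hQ, MulSemiringAction.eval_charpoly,
    smul_zero, sub_zero, MulSemiringAction.charpoly_eq, Polynomial.eval_prod] at h1
  have := w.isPrime
  obtain ⟨c, -, hc'⟩ := Ideal.IsPrime.prod_mem_iff.1 h1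
  rw [Polynomial.eval_sub, Polynomial.eval_X, Polynomial.eval_C, ← Val_lt_iff_mem] at hc'
  have h2 : g = c := hs g c (by rw [← hA]; exact hc')
  have h3 : (c : F ≃ₐ[ℚ] F) ∈ C ⊓ MulAction.stabilizer (F ≃ₐ[ℚ] F) w := hΓ ▸ c.2
  exact h2 ▸ h3.1

/-- `c` of order three (`exists_prime_orderOf_dvd_card'`), `C = zpowers c`,
`L = IntermediateField.fixedField C`.  Suppose the claim fails.  For a place `v` of `L` of prime
norm `l > max Y Y₀` choose `f v` above it (`exists_above`); `res1_of_absNorm` and `stabilizer_le`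
show that the stabiliser of `f v` is in `C`; it is not of order three (all places above `l` are
conjugate, `MulAction.stabilizer_smul_eq_stabilizer_map_conj`), so it is trivial; `g v = c • f v`,
both of norm `l` (`absNorm_le_pow_card_stabilizer`, `l ∣ absNorm ≠ 0`), both above `v`
(`und_smul`, or `mem_stabilizer_iff_val`-like uniqueness through `val _ x < 1`); `zeta_key`. -/
theorem exists_stab_three (F : Type) [Field F] [NumberField F] [IsGalois ℚ F]
    (h3 : 3 ∣ Module.finrank ℚ F) (Y : ℕ) : ∃ l : ℕ, l.Prime ∧ Y < l ∧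
      ∀ w : P F, val w (l : F) < 1 → Nat.card (MulAction.stabilizer (F ≃ₐ[ℚ] F) w) = 3 := by
  have : Fact (Nat.Prime 3) := ⟨Nat.prime_three⟩
  obtain ⟨c, hc⟩ := exists_prime_orderOf_dvd_card' (G := F ≃ₐ[ℚ] F) 3
    (by rwa [IsGalois.card_aut_eq_finrank])
  obtain ⟨α, Y₀, hα, hsep⟩ := exists_separating F
  obtain ⟨L, hL⟩ : ∃ L, L = IntermediateField.fixedField (Subgroup.zpowers c) := ⟨_, rfl⟩
  have hmem : ∀ y : F, y ∈ L ↔ ∀ g ∈ Subgroup.zpowers c, g y = y := fun y => by
    rw [hL, IntermediateField.mem_fixedField_iff]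
  choose f hf hf' using fun v : P L => exists_above (k' := F) v
  have hund : ∀ w : P F, und L (c • w) = und L w := fun w => by
    rw [← und_smul ({ c.toRingEquiv with
      commutes' := fun x => (hmem x).1 x.2 c (Subgroup.mem_zpowers c) } : F ≃ₐ[L] F) w]
    exact congrArg _ (ZPrime_smul_eq (fun _ => rfl) w)
  by_contra hcon
  refine zeta_key (max Y Y₀) f (fun v => c • f v) fun v hp hY => ?_
  have hl : val (f v) ((Ideal.absNorm v.asIdeal : ℕ) : F) < 1 := by
    have := (hf' v _).2 (intp2_val_absNorm v)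
    rwa [map_natCast] at this
  have hle := stabilizer_le hα (hsep _ (f v) hp ((le_max_right _ _).trans_lt hY) hl)
    (Subgroup.zpowers c) fun y hy hy1 => by
      have h1 := val_algebraMap_lt_iff (f v) (1 : L) ⟨y, (hmem y).2 hy⟩
      rw [map_one, map_one, map_one, hf] at h1
      obtain ⟨n, hn⟩ := res1_of_absNorm hp ⟨y, (hmem y).2 hy⟩
        (not_lt.1 fun h2 => not_lt.2 hy1 (h1.2 h2))
      refine ⟨n, ?_⟩
      have := (hf' v _).2 hn
      rwa [map_sub, map_intCast] at this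
  have hd := Subgroup.card_dvd_of_le hle
  rw [Nat.card_zpowers, hc] at hd
  have h1 : Nat.card (MulAction.stabilizer (F ≃ₐ[ℚ] F) (f v)) = 1 := by
    refine ((Nat.dvd_prime Nat.prime_three).1 hd).resolve_right fun h3 => hcon
      ⟨_, hp, (le_max_left _ _).trans_lt hY, fun w hw => ?_⟩
    obtain ⟨g, rfl⟩ := exists_smul_eq_of_prime hp hl hw
    rw [MulAction.stabilizer_smul_eq_stabilizer_map_conj, Subgroup.card_map_of_injective
      (MulAut.conj g).injective, h3]
  have h2 : Ideal.absNorm (f v).asIdeal = Ideal.absNorm v.asIdeal := by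
    have h3 := absNorm_le_pow_card_stabilizer hp (f v) hl
    rw [h1, pow_one] at h3
    exact le_antisymm h3 (Nat.le_of_dvd (Nat.pos_of_ne_zero fun h0 =>
      (f v).ne_bot (Ideal.absNorm_eq_zero_iff.1 h0))
      (Val_dvd_of_lt _ hp hl (intp2_val_absNorm _)))
  refine ⟨h2, by rw [absNorm_smul, h2], fun h3 => ?_, fun v' _ _ h3 => ?_⟩
  · have h4 : c ∈ MulAction.stabilizer (F ≃ₐ[ℚ] F) (f v) := h3.symm
    rw [Subgroup.card_eq_one.1 h1, Subgroup.mem_bot] at h4
    rw [h4, orderOf_one] at hc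
    omega
  · rcases h3 with h3 | h3 | h3 <;> simpa only [hund, hf] using congrArg (und L) h3

variable {K : Type} [Field K] [NumberField K] [Algebra K F]

/-- `IsGalois.tower_top_of_isGalois`; the stabiliser in `F ≃ₐ[K] F` injects in the stabiliser in
`F ≃ₐ[ℚ] F` (`AlgEquiv.restrictScalars`, `mem_stabilizer_iff_val`), so its order divides three -/
theorem sqDesc_of_three {w : P F} (h : Nat.card (MulAction.stabilizer (F ≃ₐ[ℚ] F) w) = 3) :
    SqDesc (algebraMap K F) w := by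
  have := IsGalois.tower_top_of_isGalois ℚ K F
  refine sqDesc_of_odd w (Odd.of_dvd_nat (by decide : Odd 3) ?_)
  rw [← h, ← Subgroup.card_map_of_injective (AlgEquiv.restrictScalarsHom_injective ℚ)]
  refine Subgroup.card_dvd_of_le ?_
  rintro _ ⟨σ, hσ, rfl⟩
  exact (mem_stabilizer_iff_val _ w).2 ((mem_stabilizer_iff_val σ w).1 hσ)

/-- `w` above `v`, `c ≠ 1` in its stabiliser, of order three.  Its restriction `c'` to `K`
(`AlgEquiv.restrictNormal`) fixes `v` (`mem_stabilizer_iff_val`, `val_algebraMap`), and `c' ≠ 1`,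
otherwise `c` comes from `F ≃ₐ[K] F`, of order `2^j`.  The group `K ≃ₐ[ℚ] K` has order three. -/
theorem smul_eq_of_three [IsGalois ℚ K] (hK : Module.finrank ℚ K = 3) {j : ℕ}
    (hF : Module.finrank K F = 2 ^ j) {l : ℕ}
    (h : ∀ w : P F, val w (l : F) < 1 → Nat.card (MulAction.stabilizer (F ≃ₐ[ℚ] F) w) = 3)
    (v : P K) (hv : val v (l : K) < 1) (g : K ≃ₐ[ℚ] K) : g • v = v := by
  have := IsGalois.tower_top_of_isGalois ℚ K F
  obtain ⟨w, hw, hw'⟩ := exists_above (k' := F) v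
  have h3 := h w (by have := (hw' _).2 hv; rwa [map_natCast] at this)
  have : Nontrivial (MulAction.stabilizer (F ≃ₐ[ℚ] F) w) :=
    Finite.one_lt_card_iff_nontrivial.1 (by omega)
  obtain ⟨c, hc⟩ := exists_ne (1 : MulAction.stabilizer (F ≃ₐ[ℚ] F) w)
  have h1 : c.1.restrictNormal K ∈ MulAction.stabilizer (K ≃ₐ[ℚ] K) v := by
    refine (mem_stabilizer_iff_val _ v).2 fun x => ?_
    obtain ⟨e, he, h2⟩ := val_algebraMap K w
    rw [hw] at h2
    refine pow_left_injective he ?_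
    change val v (c.1.restrictNormal K x) ^ e = val v x ^ e
    rw [← h2, ← h2, AlgEquiv.restrictNormal_commutes]
    exact (mem_stabilizer_iff_val c.1 w).1 c.2 _
  have h2 : c.1.restrictNormal K ≠ 1 := fun h0 => by
    let σ : F ≃ₐ[K] F := { c.1.toRingEquiv with
      commutes' := fun x => by
        have := AlgEquiv.restrictNormal_commutes c.1 K x
        rw [h0] at this
        exact this.symm }
    have h4 : AlgEquiv.restrictScalarsHom ℚ σ = c.1 := AlgEquiv.ext fun _ => rfl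
    have h5 : c.1 ^ 2 ^ j = 1 := by
      rw [← h4, ← map_pow, ← hF, ← IsGalois.card_aut_eq_finrank, pow_card_eq_one', map_one]
    have h6 : c ^ 3 = 1 := by rw [← h3, pow_card_eq_one']
    have h7 : c ^ 2 ^ j = 1 := Subtype.ext h5
    exact hc (orderOf_eq_one_iff.1 (Nat.eq_one_of_dvd_coprimes
      (Nat.Coprime.pow_right j (by norm_num : Nat.Coprime 3 2))
      (orderOf_dvd_of_pow_eq_one h6) (orderOf_dvd_of_pow_eq_one h7)))
  have : Fact (Nat.card (K ≃ₐ[ℚ] K)).Prime :=
    ⟨by rw [IsGalois.card_aut_eq_finrank, hK]; exact Nat.prime_three⟩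
  rcases (MulAction.stabilizer (K ≃ₐ[ℚ] K) v).eq_bot_or_eq_top_of_prime_card with h4 | h4
  · rw [h4, Subgroup.mem_bot] at h1
    exact absurd h1 h2
  · exact MulAction.mem_stabilizer_iff.1 (h4 ▸ Subgroup.mem_top g)

omit [IsGalois ℚ F] in
/-- as in the proof of `exists_unr` -/
theorem val_two_of_odd (h : Odd (discr F)) (w : P F) (hw : val w (2 : F) < 1) :
    val w (2 : F) = exp (-1 : ℤ) := by
  have h1 := val_eq_exp w (two_ne_zero : (2 : F) ≠ 0)
  have hv := hw
  rw [h1, ← exp_zero, exp_lt_exp] at hv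
  rw [h1]
  congr 1
  by_contra hne
  have h2 : ((2 : ℕ) : 𝓞 F) ∈ w.asIdeal ^ 2 := by
    rw [← Val_le_iff_mem]
    have e : (((2 : ℕ) : 𝓞 F) : F) = 2 :=
      (map_natCast (algebraMap (𝓞 F) F) 2).trans Nat.cast_ofNat
    rw [e, h1, exp_le_exp]
    push_cast
    omega
  have hpz : Prime ((2 : ℕ) : ℤ) := Nat.prime_iff_prime_int.mp Nat.prime_two
  have hmax : (Ideal.span {((2 : ℕ) : ℤ)}).IsMaximal := hpz.isMaximal_span_singleton
  have hb : Ideal.span {((2 : ℕ) : ℤ)} ≠ ⊥ := by simp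
  let := FractionRing.liftAlgebra ℤ (FractionRing (𝓞 F))
  have h3 := pow_sub_one_dvd_differentIdeal ℤ w.asIdeal 2 hb (by
    rw [Ideal.map_span, Set.image_singleton, Ideal.dvd_span_singleton]
    simpa using h2)
  have h4 := Ideal.dvd_iff_le.1 h3 (discr_mem_differentIdeal F (𝓞 F))
  have h5 : (((discr F).natAbs : ℕ) : 𝓞 F) ∈ w.asIdeal := by
    have h6 : ((discr F : ℤ) : 𝓞 F) ∈ w.asIdeal := by simpa using h4
    rcases Int.natAbs_eq (discr F) with e | e
    · rw [e] at h6
      simpa using h6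
    · rw [e] at h6
      simpa using h6
  have h7 : val w (((discr F).natAbs : ℕ) : F) < 1 := by
    have := (Val_lt_iff_mem w _).2 h5
    simpa using this
  exact (Int.natAbs_odd.2 h).not_two_dvd_nat
    (Val_dvd_of_lt w Nat.prime_two (by simpa using hw) h7)

/-- a set of `m` large primes with a property that holds for arbitrarily large primes -/
theorem exists_primes (q : ℕ → Prop) (h : ∀ Y, ∃ l, Y < l ∧ q l) (m Y : ℕ) :
    ∃ Q : Finset ℕ, Q.card = m ∧ ∀ l ∈ Q, Y < l ∧ q l := by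
  induction m with
  | zero => exact ⟨∅, rfl, by simp⟩
  | succ m ih =>
    obtain ⟨Q, h1, h2⟩ := ih
    obtain ⟨l, h3, h4⟩ := h (max Y (Q.sup id))
    have h5 : l ∉ Q := fun h6 =>
      absurd ((le_max_right _ _).trans_lt h3) (not_lt.2 (Finset.le_sup (f := id) h6))
    refine ⟨insert l Q, by rw [Finset.card_insert_of_notMem h5, h1], fun x hx => ?_⟩
    rcases Finset.mem_insert.1 hx with rfl | hx
    · exact ⟨(le_max_left _ _).trans_lt h3, h4⟩
    · exact h2 x hx

end Pool.Agent.Lib.MP_775b3b_nt
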