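import Pool.Agent.Lib.MP_775b3b_nt.YDefs
import Pool.Agent.Lib.MP_775b3b_nt.YZeta
import Pool.Agent.Lib.MP_775b3b_nt.ZPrime

/-! Primes whose Frobenius is a given involution. -/

namespace Pool.Agent.Lib.MP_775b3b_nt

open NumberField MP_439fea_co WithZero

theorem YPrime1_sub {G : Type*} [Group G] {τ : G} (h2 : τ * τ = 1) :
    ∃ C : Subgroup G, ∀ g, g ∈ C ↔ g = 1 ∨ g = τ := by
  refine ⟨{ carrier := {g | g = 1 ∨ g = τ}
            one_mem' := Or.inl rfl
            mul_mem' := ?_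
            inv_mem' := ?_ }, fun _ => Iff.rfl⟩
  · rintro a b (rfl | rfl) (rfl | rfl)
    · exact Or.inl (one_mul _)
    · exact Or.inr (one_mul _)
    · exact Or.inr (mul_one _)
    · exact Or.inl h2
  · rintro a (rfl | rfl)
    · exact Or.inl inv_one
    · exact Or.inr (inv_eq_of_mul_eq_one_right h2)

theorem YPrime1_nonempty (F : Type*) [Field F] [NumberField F] : Nonempty (P F) := by
  obtain ⟨M, hM⟩ := Ideal.exists_maximal (𝓞 F)
  exact ⟨⟨M, hM.isPrime, Ring.ne_bot_of_isMaximal_of_not_isField hM (RingOfIntegers.not_isField F)⟩⟩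

/-- As `exists_stab_three` with `C = zpowers τ = {1, τ}`, `M = fixedField C`, `f v` above `v`,
`g v = τ • f v`, `good v := τ • f v = f v`, and `zeta_div` for `max Y (max Y₀ (max N₀ 4))`
(`exists_separating`, `exists_unr`) and `finrank ℚ M * B`; `sum_norm_le`.  For a good `v` of norm
`q`: `stab` from `stabilizer_le`, `res` from `res1_of_absNorm`, `move` from the separating element
(`τ α - 1 α`; an integral element has valuation at most one). -/
theorem exists_TP {F : Type} [Field F] [NumberField F] [IsGalois ℚ F] {τ : F ≃ₐ[ℚ] F}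
    (h1 : τ ≠ 1) (h2 : τ * τ = 1) (Y : ℕ) (B : ℝ) : ∃ (Q : Finset ℕ) (w : ℕ → P F),
      B ≤ ∑ q ∈ Q, (q : ℝ)⁻¹ ∧ ∀ q ∈ Q, Y < q ∧ TP τ q (w q) := by
  classical
  obtain ⟨α, Y₀, hα, hsep⟩ := exists_separating F
  obtain ⟨N₀, hN, hU⟩ := exists_unr F
  obtain ⟨C, hC⟩ := YPrime1_sub h2
  obtain ⟨L, hL⟩ : ∃ L, L = IntermediateField.fixedField C := ⟨_, rfl⟩
  have hmem : ∀ y : F, y ∈ L ↔ τ y = y := fun y => by
    rw [hL, IntermediateField.mem_fixedField_iff]
    refine ⟨fun h => h τ ((hC τ).2 (Or.inr rfl)), fun h g hg => ?_⟩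
    rcases (hC g).1 hg with rfl | rfl
    · rfl
    · exact h
  choose f hf hf' using fun v : P L => exists_above (k' := F) v
  have hund : ∀ w : P F, und L (τ • w) = und L w := fun w => by
    rw [← und_smul ({ τ.toRingEquiv with
      commutes' := fun x => (hmem x).1 x.2 } : F ≃ₐ[L] F) w]
    exact congrArg _ (ZPrime_smul_eq (fun _ => rfl) w)
  have hl : ∀ v : P L, val (f v) ((Ideal.absNorm v.asIdeal : ℕ) : F) < 1 := fun v => by
    have := (hf' v _).2 (intp2_val_absNorm v)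
    rwa [map_natCast] at this
  have hres : ∀ v : P L, (Ideal.absNorm v.asIdeal).Prime → ∀ y : F, τ y = y →
      val (f v) y ≤ 1 → ∃ n : ℤ, val (f v) (y - n) < 1 := fun v hp y hy hy1 => by
    have h1 := val_algebraMap_lt_iff (f v) (1 : L) ⟨y, (hmem y).2 hy⟩
    rw [map_one, map_one, map_one, hf] at h1
    obtain ⟨n, hn⟩ := res1_of_absNorm hp ⟨y, (hmem y).2 hy⟩
      (not_lt.1 fun h2 => not_lt.2 hy1 (h1.2 h2))
    refine ⟨n, ?_⟩
    have := (hf' v _).2 hn
    rwa [map_sub, map_intCast] at this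
  have hle : ∀ v : P L, (Ideal.absNorm v.asIdeal).Prime → Y₀ < Ideal.absNorm v.asIdeal →
      ∀ g : F ≃ₐ[ℚ] F, g • f v = f v → g = 1 ∨ g = τ := fun v hp hY g hg =>
    (hC g).1 (stabilizer_le hα (hsep _ (f v) hp hY (hl v)) C
      (fun y hy hy1 => hres v hp y (hy τ ((hC τ).2 (Or.inr rfl))) hy1) hg)
  obtain ⟨V, hV, hB⟩ := zeta_div (max Y (max Y₀ (max N₀ 4))) (fun v : P L => τ • f v = f v) f
    (fun v => τ • f v) (fun v hp hY hg => by
      have h3 : Nat.card (MulAction.stabilizer (F ≃ₐ[ℚ] F) (f v)) = 1 := by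
        rw [Subgroup.card_eq_one, Subgroup.eq_bot_iff_forall]
        intro g hg'
        rcases hle v hp (by omega) g hg' with rfl | rfl
        · rfl
        · exact absurd hg' hg
      have h4 : Ideal.absNorm (f v).asIdeal = Ideal.absNorm v.asIdeal := by
        have h5 := absNorm_le_pow_card_stabilizer hp (f v) (hl v)
        rw [h3, pow_one] at h5
        exact le_antisymm h5 (Nat.le_of_dvd (Nat.pos_of_ne_zero fun h0 =>
          (f v).ne_bot (Ideal.absNorm_eq_zero_iff.1 h0))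
          (Val_dvd_of_lt _ hp (hl v) (intp2_val_absNorm _)))
      refine ⟨h4, by rw [absNorm_smul, h4], fun h5 => hg h5.symm, fun v' _ _ _ h5 => ?_⟩
      rcases h5 with h5 | h5 | h5 <;> simpa only [hund, hf] using congrArg (und L) h5)
    (Module.finrank ℚ L * B)
  have hS := hB.trans (sum_norm_le V fun v hv => (hV v hv).2.1)
  have hpos : (0 : ℝ) < Module.finrank ℚ L := Nat.cast_pos.2 Module.finrank_pos
  obtain ⟨w₀⟩ := YPrime1_nonempty F
  have hex : ∀ q : ℕ, ∃ w : P F, q ∈ V.image (fun v => Ideal.absNorm v.asIdeal) →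
      Y < q ∧ TP τ q w := fun q => by
    by_cases hq : q ∈ V.image (fun v => Ideal.absNorm v.asIdeal)
    · obtain ⟨v, hv, rfl⟩ := Finset.mem_image.1 hq
      obtain ⟨hg, hp, hY⟩ := hV v hv
      refine ⟨f v, fun _ => ⟨by omega, hp, by omega, ?_, hg, hle v hp (by omega), hres v hp,
        α, intp2_val_le_one _ hα, fun h => h1 (hsep _ (f v) hp (by omega) (hl v) τ 1 h)⟩⟩
      exact hU N₀ dvd_rfl (f v) ⟨_, hp⟩ (fun hd => absurd
        (Nat.le_of_dvd (Nat.pos_of_ne_zero hN) hd) (not_le.2 (by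
          change N₀ < Ideal.absNorm v.asIdeal
          omega))) (hl v)
    · exact ⟨w₀, fun h => absurd h hq⟩
  choose w hw using hex
  exact ⟨_, w, le_of_mul_le_mul_left hS hpos, hw⟩

end Pool.Agent.Lib.MP_775b3b_nt
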