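import Pool.Agent.Lib.MP_775b3b_nt.Mink
import Pool.Agent.Lib.MP_439fea_co.Hasse

/-! The Hasse norm theorem for `K(√b)`, `b` totally positive, `K` any number field.

Copy the proofs of `herb`, `exists_not_mem_Sq`, `exists_mem_Sq_not_mem_Sq`, `exists_aux`,
`isSquare_of_local`, `hasse` from `MP_439fea_co/Herb.lean` and `Hasse.lean`, treating every real
embedding `ρ` as one more place with local squares `PosR ρ` (index 2) and local norms `⊤` if
`0 < ρ b`, `PosR ρ` if `ρ b < 0` (global norms `x^2 - b y^2 ≠ 0` are then positive at `ρ`). -/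

namespace Pool.Agent.Lib.MP_775b3b_nt

open WithZero NumberField IsDedekindDomain MP_439fea_co

universe u

variable {K : Type u} [Field K] [NumberField K]

/-- positive at `ρ` -/
def PosR (ρ : K →+* ℝ) : Subgroup Kˣ where
  carrier := {x | 0 < ρ (x : K)}
  one_mem' := by simp
  mul_mem' := by
    intro a b ha hb
    simpa using mul_pos ha hb
  inv_mem' := by
    intro a ha
    simpa using ha

instance finite_realEmb : Finite (K →+* ℝ) :=
  Finite.of_injective (fun ρ : K →+* ℝ => Complex.ofRealHom.comp ρ) fun ρ ρ' h =>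
    RingHom.ext fun x => Complex.ofReal_injective (RingHom.congr_fun h x)

/-- `card_add_two_mul_card_eq_rank`, `card_eq_nrRealPlaces_add_nrComplexPlaces`,
`card_real_embeddings`, `ComplexEmbedding.IsReal.embedding` -/
theorem two_mul_card_infinitePlace' :
    2 * Fintype.card (InfinitePlace K) = Module.finrank ℚ K + Nat.card (K →+* ℝ) := by
  classical
  have e : (K →+* ℝ) ≃ {φ : K →+* ℂ // ComplexEmbedding.IsReal φ} :=
    { toFun := fun ρ => ⟨Complex.ofRealHom.comp ρ, ComplexEmbedding.isReal_iff.2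
        (RingHom.ext fun x => Complex.conj_ofReal _)⟩
      invFun := fun φ => φ.2.embedding
      left_inv := fun ρ => RingHom.ext fun x => Complex.ofReal_injective
        (ComplexEmbedding.IsReal.coe_embedding_apply _ x)
      right_inv := fun φ => Subtype.ext (RingHom.ext fun x => φ.2.coe_embedding_apply x) }
  rw [Nat.card_congr e, Nat.card_eq_fintype_card, InfinitePlace.card_real_embeddings,
    InfinitePlace.card_eq_nrRealPlaces_add_nrComplexPlaces,
    ← InfinitePlace.card_add_two_mul_card_eq_rank]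
  ring

/-- approximation with signs: multiply the `x` of `herb_approx` by `1 + n u`, `u` from
`exists_int_sign`, `n ≠ 0` a natural number with `val v n < val v 4` on `F` -/
theorem approxR (F : Finset (P K)) (y : P K → Kˣ) (s : (K →+* ℝ) → Prop) :
    ∃ x : Kˣ, (∀ v ∈ F, x / y v ∈ One (val v)) ∧ ∀ ρ : K →+* ℝ, x ∈ PosR ρ ↔ s ρ := by
  obtain ⟨x, hx⟩ := herb_approx F y
  obtain ⟨u, hu, hu'⟩ := exists_int_sign K fun ρ => (s ρ ↔ 0 < ρ (x : K))
  choose p hp hp' using exists_prime_under (K := K)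
  obtain ⟨n, n1, hn⟩ : ∃ n : ℕ, 1 ≤ n ∧ ∀ v ∈ F, val v (n : K) < val v 4 := by
    refine ⟨4 * ∏ v ∈ F, p v, Nat.mul_pos four_pos (Finset.prod_pos fun v _ => (hp v).pos),
      fun v hv => ?_⟩
    have h1 := (val_natCast_lt_one_iff v (hp v) (hp' v) _).2 (Finset.dvd_prod_of_mem p hv)
    have h2 : 0 < val v (4 : K) := zero_lt_iff.2 (by simp)
    rw [Nat.cast_mul, map_mul, Nat.cast_ofNat]
    exact mul_lt_of_lt_one_right h2 h1
  have n2 : (1 : ℝ) ≤ n := by exact_mod_cast n1
  have h1 : ∀ ρ : K →+* ℝ, ((s ρ ↔ 0 < ρ (x : K)) → 0 < ρ (1 + n * u)) ∧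
      (¬ (s ρ ↔ 0 < ρ (x : K)) → ρ (1 + n * u) < 0) := fun ρ => by
    rw [map_add, map_one, map_mul, map_natCast]
    exact ⟨fun h => by nlinarith [(hu' ρ).1 h], fun h => by nlinarith [(hu' ρ).2 h]⟩
  by_cases h0 : 1 + (n : K) * u = 0
  · refine ⟨x, hx, fun ρ => ?_⟩
    have h2 := h1 ρ
    rw [h0, map_zero] at h2
    exact absurd (h2.2 fun h => lt_irrefl _ (h2.1 h)) (lt_irrefl _)
  refine ⟨x * Units.mk0 _ h0, fun v hv => ?_, fun ρ => ?_⟩
  · rw [mul_div_right_comm]
    refine Subgroup.mul_mem _ (hx v hv) (mem_One.2 ?_)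
    rw [Units.val_mk0, add_sub_cancel_left, map_mul]
    exact (mul_le_of_le_one_right' (v.valuation_le_one (K := K) ⟨u, hu⟩)).trans_lt (hn v hv)
  · change 0 < ρ ((x * Units.mk0 _ h0 : Kˣ) : K) ↔ _
    rw [Units.val_mul, Units.val_mk0, map_mul]
    have h2 : ρ (x : K) ≠ 0 := (map_ne_zero ρ).2 x.ne_zero
    by_cases h3 : s ρ ↔ 0 < ρ (x : K)
    · rw [mul_pos_iff_of_pos_right ((h1 ρ).1 h3), h3]
    · have h4 := (h1 ρ).2 h3
      rcases h2.lt_or_gt with h5 | h5
      · exact iff_of_true (mul_pos_of_neg_of_neg h5 h4)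
          (by_contra fun h => h3 (iff_of_false h h5.not_gt))
      · exact iff_of_false (mul_neg_of_pos_of_neg h5 h4).not_gt fun h => h3 (iff_of_true h h5)

theorem hasser_card {L : Type*} [Field L] [NumberField L] [Algebra K L] {b : Kˣ} {θ : L}
    {σ : L ≃ₐ[K] L} (hθ : θ ^ 2 = algebraMap K L b) (hσθ : σ θ = -θ)
    (hdec : ∀ y : L, ∃ x₁ x₂ : K, y = algebraMap K L x₁ + algebraMap K L x₂ * θ) :
    2 * Nat.card (K →+* ℝ) ≤ Nat.card (L →+* ℝ) + 2 * Nat.card {ρ : K →+* ℝ // ρ (b : K) < 0} := by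
  classical
  have h := Nat.card_le_card_of_surjective
    (fun z : (L →+* ℝ) ⊕ {ρ : K →+* ℝ // ρ (b : K) < 0} × Bool =>
      (z.elim (fun φ => (φ.comp (algebraMap K L), decide (0 < φ θ))) fun q => (q.1.1, q.2) :
        (K →+* ℝ) × Bool)) ?_
  · rw [Nat.card_prod, Nat.card_sum, Nat.card_prod, Nat.card_eq_fintype_card (α := Bool),
      Fintype.card_bool] at h
    omega
  rintro ⟨ρ, ε⟩
  rcases ((map_ne_zero ρ).2 b.ne_zero).lt_or_gt with h | h
  · exact ⟨.inr (⟨ρ, h⟩, ε), rfl⟩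
  obtain ⟨ψ, hψ⟩ : ∃ ψ : L →+* ℂ, ∀ x, ψ (algebraMap K L x) = ρ x :=
    ⟨_, ComplexEmbedding.lift_algebraMap_apply L (Complex.ofRealHom.comp ρ)⟩
  have h1 : ψ θ ^ 2 = (√(ρ b) : ℝ) ^ 2 := by
    rw [← map_pow, hθ, hψ, ← Complex.ofReal_pow, Real.sq_sqrt h.le]
  have h2 : ComplexEmbedding.IsReal ψ := ComplexEmbedding.isReal_iff.2 (RingHom.ext fun y => by
    obtain ⟨x₁, x₂, rfl⟩ := hdec y
    rcases sq_eq_sq_iff_eq_or_eq_neg.1 h1 with h3 | h3 <;> simp [hψ, h3])
  obtain ⟨φ, hφ⟩ : ∃ φ : L →+* ℝ, ∀ x, φ (algebraMap K L x) = ρ x :=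
    ⟨h2.embedding, fun x => Complex.ofReal_injective ((h2.coe_embedding_apply _).trans (hψ x))⟩
  have h3 : φ θ ≠ 0 := fun h3 => h.ne' (by rw [← hφ, ← hθ, map_pow, h3, zero_pow two_ne_zero])
  by_cases h4 : decide (0 < φ θ) = ε
  · exact ⟨.inl φ, Prod.ext (RingHom.ext hφ) h4⟩
  · refine ⟨.inl (φ.comp (σ : L →+* L)), Prod.ext (RingHom.ext fun x => ?_) ?_⟩
    · exact (congrArg φ (σ.commutes x)).trans (hφ x)
    · change decide (0 < φ (σ θ)) = ε
      rw [hσθ, map_neg]
      rcases h3.lt_or_gt with h5 | h5 <;> cases ε <;> simp_all [le_of_lt]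

omit [NumberField K] in
theorem hasser_Ng_le {u : Kˣ} {ρ : K →+* ℝ} (h : ρ (u : K) < 0) : Ng u ≤ PosR ρ := by
  rintro a ⟨x, y, ha⟩
  refine lt_of_le_of_ne ?_ ((map_ne_zero ρ).2 a.ne_zero).symm
  rw [ha, map_sub, map_mul, map_pow, map_pow]
  nlinarith [sq_nonneg (ρ x), sq_nonneg (ρ y)]

omit [NumberField K] in
theorem hasser_Sqs_le (ρ : K →+* ℝ) : Sqs K ≤ PosR ρ := fun a ha => by
  obtain ⟨z, rfl⟩ := mem_Sqs.1 ha
  change 0 < ρ ((z ^ 2 : Kˣ) : K)
  rw [Units.val_pow_eq_pow_val, map_pow]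
  exact sq_pos_of_ne_zero ((map_ne_zero ρ).2 z.ne_zero)

omit [NumberField K] in
theorem hasser_index (ρ : K →+* ℝ) : (PosR ρ).index ∣ 2 := by
  refine Subgroup.index_dvd_two_iff.2 ⟨-1, fun a => ?_⟩
  rcases ((map_ne_zero ρ).2 a.ne_zero).lt_or_gt with h | h
  · left
    change 0 < ρ ((a * -1 : Kˣ) : K)
    simpa using h
  · exact Or.inr h

omit [NumberField K] in
theorem hasser_zero {b : Kˣ} (h : ∀ ρ : K →+* ℝ, 0 < ρ (b : K)) :
    Nat.card {ρ : K →+* ℝ // ρ (b : K) < 0} = 0 := by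
  have : IsEmpty {ρ : K →+* ℝ // ρ (b : K) < 0} := ⟨fun ρ => (h ρ.1).not_gt ρ.2⟩
  exact Nat.card_of_isEmpty

open Classical in
/-- as `herb`; every `ρ` with `0 < ρ b` has two extensions to real embeddings of `L = K(√b)`
(`x₁ + x₂ θ ↦ ρ x₁ ± ρ x₂ √(ρ b)`), so
`2 * card (K →+* ℝ) ≤ card (L →+* ℝ) + 2 * card {ρ | ρ b < 0}`. -/
theorem herbR (b : Kˣ) (hb : ¬ IsSquare (b : K)) (S : Finset (P K))
    (hS : PidOut S) (h2 : ∀ v ∉ S, val v (2 : K) = 1) (hbS : b ∈ US S) :
    (Ng b).relIndex (US S) ≠ 0 ∧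
      2 * (Ng b).relIndex (US S) ≤ 2 ^ ((S.filter (fun v => b ∉ Sq (val v))).card +
        Nat.card {ρ : K →+* ℝ // ρ (b : K) < 0}) := by
  obtain ⟨L, _, _, _, θ, σ, _, hfin, hθ, hσθ, hdec, hτ, hfix⟩ := exists_quadExt (b : K) hb
  have hθ0 : θ ≠ 0 := fun h => by
    rw [h, zero_pow two_ne_zero] at hθ
    exact b.ne_zero ((map_eq_zero _).1 hθ.symm)
  have hσσ : ∀ y, σ (σ y) = y := fun y => by
    obtain ⟨x₁, x₂, rfl⟩ := hdec y
    simp [hσθ]
  have hσ2 : σ * σ = 1 := AlgEquiv.ext hσσ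
  let ι : Kˣ →* Lˣ := Units.map (algebraMap K L : K →* L)
  let s : Lˣ →* Lˣ := Units.map (σ : L →* L)
  have hι : Function.Injective ι := Units.map_injective (algebraMap K L).injective
  have hval : ∀ (w : P L) (y : L), val w (σ y) = val (σ • w) y := fun w y => by
    have h5 := val_smul σ (σ • w) y
    rwa [← mul_smul, hσ2, one_smul] at h5
  have hun : ∀ w ∉ herbOver L S, ∀ x : K, val w (algebraMap K L x) = val (und K w) x := by
    intro w hw
    rw [mem_herbOver] at hw
    refine herb_unram hσθ hdec hσ2 w ?_ ?_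
    · rw [← map_ofNat (algebraMap K L) 2, val_algebraMap_eq_one_iff]
      exact h2 _ hw
    · have h3 := (val_algebraMap_eq_one_iff w (b : K)).2 (mem_US.1 hbS _ hw)
      rw [← hθ, map_pow] at h3
      exact (pow_eq_one_iff_of_nonneg zero_le two_ne_zero).1 h3
  obtain ⟨k0, k1⟩ := herbrand s (fun x => Units.ext (hσσ x)) (Units.ext (by simp [s]))
    (US (herbOver L S)) (fun x hx => mem_US.2 fun w hw => by
      refine (hval w x).trans (mem_US.1 hx _ ?_)
      rwa [mem_herbOver, und_smul, ← mem_herbOver]) (neg_one_mem_US _) ((US S).map ι)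
    (fun x => ⟨by
      rintro ⟨y, hy, rfl⟩
      exact ⟨mem_US.2 fun w hw => (val_algebraMap_eq_one_iff w (y : K)).2
        (mem_US.1 hy _ (mt mem_herbOver.2 hw)), Units.ext (σ.commutes _)⟩, by
      rintro ⟨hx, hx'⟩
      obtain ⟨y, hy⟩ := hfix x (congrArg Units.val hx')
      have hy0 : y ≠ 0 := fun h => x.ne_zero (by rw [← hy, h, map_zero])
      refine ⟨Units.mk0 y hy0, mem_US.2 fun v hv => ?_, Units.ext hy⟩
      obtain ⟨w, rfl⟩ := exists_over L v
      refine (val_algebraMap_eq_one_iff w y).1 ?_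
      rw [hy]
      exact mem_US.1 hx w (mt mem_herbOver.1 hv)⟩)
    (fun x hx hx' => by
      have h3 : (x : L) * σ x = 1 := congrArg Units.val hx'
      obtain ⟨y, hy0, hy⟩ : ∃ y : L, y ≠ 0 ∧ (x : L) * σ y = y := by
        by_cases h : (x : L) = -1
        · exact ⟨θ, hθ0, by rw [h, hσθ]; ring⟩
        · refine ⟨1 + x, fun h' => h (eq_neg_of_add_eq_zero_right h'), ?_⟩
          rw [map_add, map_one, mul_add, h3]
          ring
      have h4 : ∀ w ∉ herbOver L S, val (σ • w) y = val w y := fun w hw => by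
        rw [← hval]
        conv_rhs => rw [← hy, map_mul, mem_US.1 hx w hw, one_mul]
      choose ov hov using exists_over (K := K) L
      obtain ⟨z, hz⟩ := hS (fun v => ord (ov v) y) (((finite_supp hy0).image (und K)).subset
        fun v hv => ⟨ov v, fun h => hv (by simp [ord, h]), hov v⟩)
      refine ⟨Units.mk0 y hy0 / ι z, mem_US.2 fun w hw => ?_, Units.ext ?_⟩
      · have h5 : val w y = val (ov (und K w)) y := by
          obtain ⟨τ, hτ'⟩ := exists_smul_eq (hov (und K w))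
          rcases hτ τ with rfl | rfl
          · rw [one_smul] at hτ'
            rw [hτ']
          · conv_lhs => rw [← hτ']
            exact h4 _ (by rw [mem_herbOver, hov, ← mem_herbOver]; exact hw)
        have h6 : val w (algebraMap K L z) = val w y := by
          rw [hun w hw, val_eq_exp _ z.ne_zero, hz _ (mt mem_herbOver.2 hw), h5,
            val_eq_exp _ hy0]
        have h7 : val w y ≠ 0 := by simpa using hy0
        simp [ι, h6, h7]
      · have h8 : σ y ≠ 0 := by simpa using hy0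
        have h9 : algebraMap K L z ≠ 0 := by simp
        simp only [ι, s, Units.val_div_eq_div_val, Units.val_mk0, Units.coe_map, MonoidHom.coe_coe,
          map_div₀, AlgEquiv.commutes]
        field_simp
        exact hy)
  have hle : (US (herbOver L S)).map (MonoidHom.id _ * s) ≤ (Ng b).map ι := by
    rintro _ ⟨x, -, rfl⟩
    obtain ⟨x₁, x₂, hx⟩ := hdec x
    have h3 : algebraMap K L (x₁ ^ 2 - b * x₂ ^ 2) = x * σ x := by
      rw [hx, map_add, map_mul σ, AlgEquiv.commutes, AlgEquiv.commutes, hσθ, map_sub, map_mul,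
        ← hθ, map_pow, map_pow]
      ring
    have h4 : x₁ ^ 2 - b * x₂ ^ 2 ≠ 0 := fun h => by
      rw [h, map_zero] at h3
      exact mul_ne_zero x.ne_zero (by simp) h3.symm
    exact ⟨Units.mk0 _ h4, ⟨x₁, x₂, rfl⟩, Units.ext h3⟩
  have hdvd := Subgroup.relIndex_dvd_of_le_left ((US S).map ι) hle
  rw [Subgroup.relIndex_map_map_of_injective _ _ hι] at hdvd
  refine ⟨ne_zero_of_dvd_ne_zero k0 hdvd, ?_⟩
  have r1 : Module.finrank ℤ (Additive ((US S).map ι)) = Module.finrank ℤ (Additive (US S)) :=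
    (MulEquiv.toAdditive ((US S).equivMapOfInjective ι hι)).toIntLinearEquiv.finrank_eq.symm
  have r2 := finrank_US S
  have r3 := finrank_US (herbOver L S)
  have r4 := two_mul_card_infinitePlace' (K := K)
  have r5 := two_mul_card_infinitePlace' (K := L)
  have r6 := Module.finrank_mul_finrank ℚ K L
  have r7 := herb_card hθ hσθ S
  have r9 := hasser_card hθ hσθ hdec
  rw [hfin] at r6
  rw [r1] at k1
  have r8 := (Nat.mul_le_mul_right _ (Nat.le_of_dvd (Nat.pos_of_ne_zero k0) hdvd)).trans k1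
  refine Nat.le_of_mul_le_mul_right ?_ (Nat.two_pow_pos
    (Module.finrank ℤ (Additive (US (herbOver L S)))))
  rw [mul_assoc, ← pow_add]
  refine (Nat.mul_le_mul_left 2 r8).trans ?_
  rw [← pow_succ']
  exact Nat.pow_le_pow_right two_pos (by omega)

/-- first inequality; use `two_pow_le_relIndex` with index type `P K ⊕ (K →+* ℝ)` and `approxR` -/
theorem exists_not_mem_SqR (u : Kˣ) (hu : ¬ IsSquare (u : K)) (S₀ : Finset (P K)) :
    ∃ v ∉ S₀, u ∉ Sq (val v) := by
  classical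
  by_contra hcon
  push Not at hcon
  have := Fintype.ofFinite (K →+* ℝ)
  obtain ⟨S₁, hS₁⟩ := exists_pidOut K
  let T := S₀.filter (fun v => u ∉ Sq (val v))
  let R : Finset (K →+* ℝ) := Finset.univ.filter fun ρ => ρ (u : K) < 0
  let N : P K ⊕ (K →+* ℝ) → Subgroup Kˣ := Sum.elim (fun v => Nm (val v) u) PosR
  have h1 : ∀ i, ∃ x : Kˣ, i ∈ T.disjSum R → x ∉ N i ∧ ∀ j ∈ T.disjSum R, i ≠ j → x ∈ N j := by
    rintro (v | ρ)
    · by_cases hv : v ∈ T
      · obtain ⟨a, ha⟩ := nonnorm' v u (Finset.mem_filter.1 hv).2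
        obtain ⟨x, hx, hx'⟩ := approxR T (fun v' => if v' = v then a else 1) fun _ => True
        refine ⟨x, fun _ => ⟨fun h => ha ?_, ?_⟩⟩
        · have h2 := hx v hv
          rw [if_pos rfl] at h2
          have := (Nm (val v) u).div_mem h (Subgroup.mem_sup_right h2)
          rwa [div_div_cancel] at this
        · rintro (v' | ρ) hv' hne
          · have h2 := hx v' (Finset.inl_mem_disjSum.1 hv')
            rw [if_neg fun h => hne (by rw [h]), div_one] at h2
            exact Subgroup.mem_sup_right h2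
          · exact (hx' ρ).2 trivial
      · exact ⟨1, fun h => absurd (Finset.inl_mem_disjSum.1 h) hv⟩
    · obtain ⟨x, hx, hx'⟩ := approxR T (fun _ => 1) fun ρ' => ρ' ≠ ρ
      refine ⟨x, fun _ => ⟨fun h => (hx' ρ).1 h rfl, ?_⟩⟩
      rintro (v' | ρ') hv' hne
      · have h2 := hx v' (Finset.inl_mem_disjSum.1 hv')
        rw [div_one] at h2
        exact Subgroup.mem_sup_right h2
      · exact (hx' ρ').2 fun h => hne (by rw [h])
  choose x hx using h1
  let S := S₀ ∪ S₁ ∪ (finite_supp (two_ne_zero (α := K))).toFinset ∪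
    (finite_supp u.ne_zero).toFinset ∪
      (T.disjSum R).biUnion fun v => (finite_supp (x v).ne_zero).toFinset
  have hT : S.filter (fun v => u ∉ Sq (val v)) = T := by
    ext v
    simp only [T, Finset.mem_filter]
    exact and_congr_left fun h => ⟨fun _ => by_contra fun h' => h (hcon v h'),
      fun h' => by simp [S, h']⟩
  obtain ⟨k0, k1⟩ := herbR u hu S (hS₁ S fun v hv => by simp [S, hv])
    (fun v hv => by_contra fun h => hv (by simp [S, h]))
    (mem_US.2 fun v hv => by_contra fun h => hv (by simp [S, h]))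
  have k2 := two_pow_le_relIndex (T.disjSum R) (US S) (Ng u) N (by
      rintro (v | ρ) h
      · exact le_sup_left
      · exact hasser_Ng_le (Finset.mem_filter.1 (Finset.inr_mem_disjSum.1 h)).2) x
    (fun v hv => mem_US.2 fun v' hv' => by_contra fun h => hv'
      (Finset.mem_union_right _ (Finset.mem_biUnion.2 ⟨v, hv, by simpa using h⟩)))
    (fun v hv => (hx v hv).1) (fun v hv => (hx v hv).2) k0
  have k3 : (S.filter (fun v => u ∉ Sq (val v))).card = T.card := by rw [hT]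
  have k4 : 2 * (Ng u).relIndex (US S) ≤ 2 ^ (T.disjSum R).card := by
    rw [Finset.card_disjSum, ← k3, ← Nat.subtype_card R (p := fun ρ => ρ (u : K) < 0)
      fun ρ => Finset.mem_filter_univ ρ]
    exact k1
  omega

theorem hasser_mem_Sq (b u : Kˣ) (hb : ¬ IsSquare (b : K))
    (hu : ¬ IsSquare (u : K)) (hbu : ¬ IsSquare ((b : K) * u)) (S₀ : Finset (P K)) :
    ∃ v ∉ S₀, b ∈ Sq (val v) ∧ u ∉ Sq (val v) := by
  classical
  obtain ⟨L, _, _, _, θ, σ, _, -, hθ, hσθ, -, -, hfix⟩ := exists_quadExt (b : K) hb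
  obtain ⟨w, hw, hw'⟩ := exists_not_mem_SqR (Units.map (algebraMap K L : K →* L) u) (by
    rintro ⟨y, hy⟩
    have hy' : algebraMap K L u = y * y := hy
    have h1 : (σ y) ^ 2 = y ^ 2 := by rw [← map_pow, sq, ← hy', AlgEquiv.commutes]
    rcases sq_eq_sq_iff_eq_or_eq_neg.1 h1 with h | h
    · obtain ⟨x, rfl⟩ := hfix y h
      exact hu ⟨x, (algebraMap K L).injective (by rw [hy', map_mul])⟩
    · obtain ⟨x, hx⟩ := hfix (θ * y) (by rw [map_mul, h, hσθ]; ring)
      exact hbu ⟨x, (algebraMap K L).injective (by rw [map_mul, map_mul, hx, hy', ← hθ]; ring)⟩)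
    (herbOver L (S₀ ∪ (finite_supp (two_ne_zero (α := K))).toFinset ∪
      (finite_supp b.ne_zero).toFinset ∪ (finite_supp u.ne_zero).toFinset))
  simp only [mem_herbOver, Finset.mem_union, Set.Finite.mem_toFinset, Set.mem_ofPred_eq, not_or,
    not_not] at hw
  have h1 : u ∉ Sq (val (und K w)) := fun h => hw' (map_mem_Sq w h)
  refine ⟨und K w, hw.1.1.1, by_contra fun h => hw' ?_, h1⟩
  have h2 := map_mem_Sq w (mul_mem_Sq _ hw.1.1.2 (mem_Un.2 hw.1.2) (mem_Un.2 hw.2) h h1)
  have h3 : Units.map (algebraMap K L : K →* L) b ∈ Sq (val w) :=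
    Subgroup.mem_sup_left (mem_Sqs_iff_isSquare.2 ⟨θ, by rw [← sq, hθ]; rfl⟩)
  rw [map_mul] at h2
  exact (Subgroup.mul_mem_cancel_left _ h3).1 h2

theorem hasser_aux (b : Kˣ) (hb : ¬ IsSquare (b : K)) (S : Finset (P K))
    (h2 : ∀ v ∉ S, val v (2 : K) = 1) (hbS : b ∈ US S) (n : ℕ)
    (hn : n + 1 ≤ Fintype.card (InfinitePlace K) + S.card) :
    ∃ T : Finset (P K), Disjoint S T ∧ T.card = n ∧ (∀ v ∈ T, b ∈ Sq (val v)) ∧
      ∀ v ∈ T, ∃ u ∈ US S, u ∉ Sq (val v) ∧ ∀ v' ∈ T, v' ≠ v → u ∈ Sq (val v') := by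
  classical
  have _ := hbS
  induction n with
  | zero => exact ⟨∅, by simp, rfl, by simp, by simp⟩
  | succ n ih =>
    obtain ⟨T, hd, hc, hbT, hT⟩ := ih (by omega)
    obtain ⟨u, hu, huT, hu1, hu2⟩ := hasse_exists_unit b S T hd h2 (by omega)
    obtain ⟨w, hw, hbw, huw⟩ := hasser_mem_Sq b u hb hu1 hu2 (S ∪ T)
    have hwS : w ∉ S := fun h => hw (Finset.mem_union_left _ h)
    have hwT : w ∉ T := fun h => hw (Finset.mem_union_right _ h)
    refine ⟨insert w T, ?_, ?_, ?_, ?_⟩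
    · rw [Finset.disjoint_insert_right]
      exact ⟨hwS, hd⟩
    · rw [Finset.card_insert_of_notMem hwT, hc]
    · intro v hv
      rcases Finset.mem_insert.1 hv with rfl | hv
      · exact hbw
      · exact hbT v hv
    · intro v hv
      rcases Finset.mem_insert.1 hv with rfl | hv
      · refine ⟨u, hu, huw, fun v' hv' hne => ?_⟩
        rcases Finset.mem_insert.1 hv' with rfl | hv'
        · exact absurd rfl hne
        · exact huT v' hv'
      · obtain ⟨u', hu', hu'1, hu'2⟩ := hT v hv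
        by_cases hq : u' ∈ Sq (val w)
        · refine ⟨u', hu', hu'1, fun v' hv' hne => ?_⟩
          rcases Finset.mem_insert.1 hv' with rfl | hv'
          · exact hq
          · exact hu'2 v' hv' hne
        · refine ⟨u' * u, Subgroup.mul_mem _ hu' hu, ?_, fun v' hv' hne => ?_⟩
          · intro h
            exact hu'1 ((Subgroup.mul_mem_cancel_right _ (huT v hv)).1 h)
          · rcases Finset.mem_insert.1 hv' with rfl | hv'
            · exact mul_mem_Sq _ (h2 _ hwS) (hasse_mem_Un hu' hwS) (hasse_mem_Un hu hwS) hq huw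
            · exact Subgroup.mul_mem _ (hu'2 v' hv' hne) (huT v' hv')

open Classical in
theorem hasser_isSquare (S T : Finset (P K)) (hS : PidOut S)
    (hST : PidOut (S ∪ T)) (hd : Disjoint S T) (h2 : ∀ v ∉ S, val v (2 : K) = 1)
    (hT : ∀ v ∈ T, ∃ u ∈ US S, u ∉ Sq (val v) ∧ ∀ v' ∈ T, v' ≠ v → u ∈ Sq (val v'))
    (x : Kˣ) (hx : x ∈ US (S ∪ T)) (hx' : ∀ v ∈ S, x ∈ Sq (val v))
    (hpos : ∀ ρ : K →+* ℝ, 0 < ρ (x : K)) : IsSquare (x : K) := by
  by_contra hsq
  obtain ⟨h0, h1⟩ := herbR x hsq (S ∪ T) hST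
    (fun v hv => h2 v (fun h => hv (Finset.mem_union_left _ h))) hx
  rw [hasser_zero hpos, add_zero] at h1
  set s := (S ∪ T).filter (fun v => x ∉ Sq (val v)) with hs
  have hsT : ∀ v ∈ s, v ∈ T ∧ x ∉ Sq (val v) := by
    intro v hv
    obtain ⟨hv1, hv2⟩ := Finset.mem_filter.1 hv
    rcases Finset.mem_union.1 hv1 with h | h
    · exact absurd (hx' v h) hv2
    · exact ⟨h, hv2⟩
  have hy : ∀ v : P K, ∃ y : Kˣ, v ∈ s → y ∈ US (S ∪ T) ∧ y ∉ Nm (val v) x ∧
      ∀ v' ∈ T, v' ≠ v → y ∈ Nm (val v') x := by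
    intro v
    by_cases hv : v ∈ s
    · obtain ⟨hvT, hvx⟩ := hsT v hv
      have hvS : v ∉ S := Finset.disjoint_right.1 hd hvT
      obtain ⟨a, ha⟩ := nonnorm' v x hvx
      obtain ⟨z, hz⟩ := hS (fun w => if w = v then ord v (a : K) else 0) (by
        refine (Set.finite_singleton v).subset ?_
        intro w hw
        by_contra hne
        exact hw (if_neg hne))
      have hz1 : ∀ w ∉ S, w ≠ v → val w (z : K) = 1 := by
        intro w hw hne
        apply hasse_val_eq_one_of_ord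
        rw [hz w hw, if_neg hne]
      have hz2 : val v ((z * a⁻¹ : Kˣ) : K) = 1 := by
        apply hasse_val_eq_one_of_ord
        rw [Units.val_mul, ord_mul v z.ne_zero (a⁻¹).ne_zero, hz v hvS, if_pos rfl,
          Units.val_inv_eq_inv_val, ord_inv]
        ring
      obtain ⟨u, hu, hu'⟩ := hasse_fix S T hd h2 hT (fun w => if w = v then z * a⁻¹ else z) (by
        intro w hw
        by_cases hne : w = v
        · rw [if_pos hne, hne]
          exact mem_Un.2 hz2
        · rw [if_neg hne]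
          exact mem_Un.2 (hz1 w (Finset.disjoint_right.1 hd hw) hne))
      refine ⟨z * u, fun _ => ⟨?_, ?_, ?_⟩⟩
      · refine Subgroup.mul_mem _ (mem_US.2 fun w hw => ?_)
          (US_mono Finset.subset_union_left hu)
        refine hz1 w (fun h => hw (Finset.mem_union_left _ h)) ?_
        rintro rfl
        exact hw (Finset.mem_union_right _ hvT)
      · intro h
        have h3 := hu' v hvT
        rw [if_pos rfl] at h3
        have h4 : a = z * u * (z * a⁻¹ * u)⁻¹ := by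
          rw [mul_right_comm z a⁻¹ u, mul_inv, inv_inv, ← mul_assoc, mul_inv_cancel, one_mul]
        apply ha
        rw [h4]
        exact Subgroup.mul_mem _ h (Subgroup.inv_mem _ (Sq_le_Nm _ _ h3))
      · intro v' hv' hne
        have h3 := hu' v' hv'
        rw [if_neg hne] at h3
        exact Sq_le_Nm _ _ h3
    · exact ⟨1, fun h => absurd h hv⟩
  choose y hy using hy
  have h3 := two_pow_le_relIndex s (US (S ∪ T)) (Ng x) (fun v => Nm (val v) x)
    (fun v _ => hasse_Ng_le_Nm v x) y (fun v hv => (hy v hv).1) (fun v hv => (hy v hv).2.1)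
    (fun v hv v' hv' hne => (hy v hv).2.2 v' (hsT v' hv').1 (Ne.symm hne)) h0
  have h4 : 0 < 2 ^ s.card := by positivity
  omega

/-- Then `exists_mem_Sq_not_mem_Sq` and `exists_aux` go through unchanged; `isSquare_of_local`
gets the extra hypothesis `∀ ρ, 0 < ρ x`; in `hasse` use `half_index` with index type
`P K ⊕ (K →+* ℝ)`, `Q (inr ρ) = PosR ρ` (index at most 2), `N (inr ρ) = ⊤`, and
`two_mul_card_infinitePlace'`. -/
theorem hasseR (b : Kˣ) (hb : ¬ IsSquare (b : K)) (hpos : ∀ ρ : K →+* ℝ, 0 < ρ (b : K)) (a : Kˣ)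
    (h : ∀ v : P K, a ∈ Nm (val v) b) : a ∈ Ng b := by
  classical
  obtain ⟨S₀, hS₀⟩ := exists_pidOut K
  have f2 := finite_supp (K := K) (x := 2) (by norm_num)
  have fa := finite_supp (K := K) a.ne_zero
  have fb := finite_supp (K := K) b.ne_zero
  set S : Finset (P K) := S₀ ∪ (f2.toFinset ∪ (fa.toFinset ∪ fb.toFinset)) with hSdef
  have h2 : ∀ v ∉ S, val v (2 : K) = 1 := by
    intro v hv
    by_contra hne
    exact hv (Finset.mem_union_right _ (Finset.mem_union_left _ (f2.mem_toFinset.2 hne)))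
  have haS : a ∈ US S := by
    refine mem_US.2 fun v hv => ?_
    by_contra hne
    exact hv (Finset.mem_union_right _ (Finset.mem_union_right _
      (Finset.mem_union_left _ (fa.mem_toFinset.2 hne))))
  have hbS : b ∈ US S := by
    refine mem_US.2 fun v hv => ?_
    by_contra hne
    exact hv (Finset.mem_union_right _ (Finset.mem_union_right _
      (Finset.mem_union_right _ (fb.mem_toFinset.2 hne))))
  have hS0 : S₀ ⊆ S := Finset.subset_union_left
  have hr : 0 < Fintype.card (InfinitePlace K) := Fintype.card_pos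
  obtain ⟨T, hd, hc, hbT, hT⟩ := hasser_aux b hb S h2 hbS
    (Fintype.card (InfinitePlace K) + S.card - 1) (by omega)
  have hS : PidOut S := hS₀ S hS0
  have hST : PidOut (S ∪ T) := hS₀ _ (hS0.trans Finset.subset_union_left)
  have h2' : ∀ v ∉ S ∪ T, val v (2 : K) = 1 :=
    fun v hv => h2 v (fun h => hv (Finset.mem_union_left _ h))
  set U := US (S ∪ T) with hU
  have := Fintype.ofFinite (K →+* ℝ)
  let s : Finset (P K ⊕ (K →+* ℝ)) := S.disjSum Finset.univ
  let Q : P K ⊕ (K →+* ℝ) → Subgroup Kˣ := Sum.elim (fun v => Sq (val v)) PosR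
  let N' : P K ⊕ (K →+* ℝ) → Subgroup Kˣ := Sum.elim (fun v => Nm (val v) b) fun _ => ⊤
  have hQ : (⨅ i ∈ s, Q i) ⊓ U = Sqs K ⊓ U := by
    apply le_antisymm
    · intro x hx
      obtain ⟨hx1, hx2⟩ := Subgroup.mem_inf.1 hx
      simp only [Subgroup.mem_iInf] at hx1
      exact Subgroup.mem_inf.2 ⟨mem_Sqs_iff_isSquare.2
        (hasser_isSquare S T hS hST hd h2 hT x hx2
          (fun v hv => hx1 (.inl v) (Finset.inl_mem_disjSum.2 hv))
          fun ρ => hx1 (.inr ρ) (Finset.inr_mem_disjSum.2 (Finset.mem_univ ρ))), hx2⟩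
    · refine inf_le_inf_right _ (le_iInf₂ ?_)
      rintro (v | ρ) _
      · exact hasse_Sqs_le_Sq v
      · exact hasser_Sqs_le ρ
  have hQ1 : (⨅ i ∈ s, Q i).relIndex U =
      2 ^ (Fintype.card (InfinitePlace K) + (S.card + T.card)) := by
    rw [← Subgroup.inf_relIndex_right, hQ, Subgroup.inf_relIndex_right, hU, relIndex_Sqs_US,
      Finset.card_union_of_disjoint hd]
  have hQ2 : ∏ i ∈ s, (Q i).index ≤ 2 * (⨅ i ∈ s, Q i).relIndex U := by
    rw [Finset.prod_disjSum]
    refine (Nat.mul_le_mul (prod_index_Sq_le S) (Finset.prod_le_pow_card _ _ 2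
      fun ρ _ => Nat.le_of_dvd two_pos (hasser_index ρ))).trans (le_of_eq ?_)
    have h3 := two_mul_card_infinitePlace' (K := K)
    rw [hQ1, hc, show (4 : ℕ) = 2 ^ 2 by norm_num, ← pow_mul, ← pow_add, ← pow_add, ← pow_succ',
      Finset.card_univ, ← Nat.card_eq_fintype_card (α := K →+* ℝ)]
    congr 1
    omega
  have hN := half_index s U Q N' (by
      rintro (v | ρ) _
      · exact Sq_le_Nm _ _
      · exact le_top) (by
      rintro (v | ρ) _
      · exact index_Sq_ne_zero v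
      · exact ne_zero_of_dvd_ne_zero two_ne_zero (hasser_index ρ)) hQ2
  have e1 : ∏ i ∈ s, (N' i).index = ∏ v ∈ S, (Nm (val v) b).index := by
    simp [s, N', Finset.prod_disjSum]
  have e2 : ⨅ i ∈ s, N' i = ⨅ v ∈ S, Nm (val v) b := by
    simp [s, N', iInf_sum]
  rw [e1, e2] at hN
  have hN0 : ∀ v : P K, (Nm (val v) b).index ≠ 0 := by
    intro v h0
    have h1 := Subgroup.index_dvd_of_le (Sq_le_Nm (val v) b)
    rw [h0] at h1
    exact index_Sq_ne_zero v (eq_zero_of_zero_dvd h1)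
  have hN1 : 2 ^ (S.filter (fun v => b ∉ Sq (val v))).card ≤
      ∏ v ∈ S, (Nm (val v) b).index := by
    refine le_trans ?_ (Finset.prod_le_prod_of_subset_of_one_le' (Finset.filter_subset
      (fun v => b ∉ Sq (val v)) S) (fun v _ _ => Nat.one_le_iff_ne_zero.2 (hN0 v)))
    refine Finset.pow_card_le_prod _ _ _ (fun v hv => ?_)
    obtain ⟨c, hc'⟩ := nonnorm' v b (Finset.mem_filter.1 hv).2
    have h1 : (Nm (val v) b).index ≠ 1 := by
      intro h1
      rw [Subgroup.index_eq_one] at h1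
      rw [h1] at hc'
      exact hc' (Subgroup.mem_top c)
    have h3 := hN0 v
    omega
  obtain ⟨h0, h1⟩ := herbR b hb (S ∪ T) hST h2' (US_mono Finset.subset_union_left hbS)
  have hfil : (S ∪ T).filter (fun v => b ∉ Sq (val v)) = S.filter (fun v => b ∉ Sq (val v)) := by
    ext v
    simp only [Finset.mem_filter, Finset.mem_union]
    constructor
    · rintro ⟨hv | hv, hv'⟩
      · exact ⟨hv, hv'⟩
      · exact absurd (hbT v hv) hv'
    · rintro ⟨hv, hv'⟩
      exact ⟨Or.inl hv, hv'⟩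
  rw [hasser_zero hpos, add_zero, hfil, ← hU] at h1
  rw [← hU] at h0
  set N : Subgroup Kˣ := ⨅ v ∈ S, Nm (val v) b with hNdef
  have hle : Ng b ≤ N := le_iInf₂ fun v _ => hasse_Ng_le_Nm v b
  have h3 := Subgroup.relIndex_inf_mul_relIndex (Ng b) N U
  rw [inf_eq_left.2 hle] at h3
  have h4 : (Ng b).relIndex U ≤ N.relIndex U := by omega
  have h5 : (Ng b).relIndex (N ⊓ U) = 1 := by
    have h6 : N.relIndex U ≠ 0 := by
      intro h6
      rw [h6, mul_zero] at h3
      exact h0 h3.symm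
    have h7 : (Ng b).relIndex (N ⊓ U) ≠ 0 := by
      intro h7
      rw [h7, zero_mul] at h3
      exact h0 h3.symm
    have h8 : (Ng b).relIndex (N ⊓ U) * N.relIndex U ≤ 1 * N.relIndex U := by omega
    have h9 := Nat.le_of_mul_le_mul_right h8 (Nat.pos_of_ne_zero h6)
    omega
  refine Subgroup.relIndex_eq_one.1 h5 (Subgroup.mem_inf.2 ⟨?_, ?_⟩)
  · simp only [hNdef, Subgroup.mem_iInf]
    exact fun v _ => h v
  · exact US_mono Finset.subset_union_left haS

end Pool.Agent.Lib.MP_775b3b_nt
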