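import Pool.Agent.Lib.MP_775b3b_nt.Pl

/-! Charts of the Lagrangian Grassmannian adapted to a pair of dual bases. -/

namespace Pool.Agent.Lib.MP_775b3b_nt

open Matrix

section Ring

variable {R : Type*} [CommRing R]

/-- functional supported on `100, 010, 001` -/
def lo (w : Fin 3 → R) : Cu → R := cb 0 (w 2) (w 1) 0 (w 0) 0 0 0

/-- functional supported on `011, 101, 110` -/
def hi (w : Fin 3 → R) : Cu → R := cb 0 0 0 (w 0) 0 (w 1) (w 2) 0

/-- base functionals of the chart -/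
def PhiX (W H : Matrix (Fin 3) (Fin 3) R) : Matrix (Fin 4) Cu R :=
  Matrix.of ![cb 1 0 0 0 0 0 0 0, hi (fun i => H i 0), lo (fun i => W i 1), lo (fun i => W i 2)]

/-- fibre functionals of the chart -/
def PhiY (W H : Matrix (Fin 3) (Fin 3) R) : Matrix (Fin 4) Cu R :=
  Matrix.of ![cb 0 0 0 0 0 0 0 1, lo (fun i => W i 0), hi (fun i => -H i 1), hi (fun i => -H i 2)]

/-- change of basis -/
def Us (R : Type*) [CommRing R] (s : ℕ) : Matrix (Fin 3) (Fin 3) R :=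
  !![1, -(s : R), -(s : R) ^ 3; 0, 1, 0; 0, 0, 1]

/-- dual change of basis -/
def Ut (R : Type*) [CommRing R] (s : ℕ) : Matrix (Fin 3) (Fin 3) R :=
  !![1, 0, 0; (s : R), 1, 0; (s : R) ^ 3, 0, 1]

theorem dual_Us {W H : Matrix (Fin 3) (Fin 3) R} (h : Wᵀ * H = 1) (s : ℕ) :
    (W * Us R s)ᵀ * (H * Ut R s) = 1 := by
  have h1 : (Us R s)ᵀ * Ut R s = 1 := by
    ext i j
    fin_cases i <;> fin_cases j <;> simp [Us, Ut, Matrix.mul_apply, Fin.sum_univ_three]
  rw [transpose_mul, Matrix.mul_assoc, ← Matrix.mul_assoc Wᵀ, h, Matrix.one_mul, h1]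

theorem chart_cb {α β : Type*} (f : α → β) (x0 x1 x2 x3 x4 x5 x6 x7 : α) (c : Cu) :
    f (cb x0 x1 x2 x3 x4 x5 x6 x7 c) =
      cb (f x0) (f x1) (f x2) (f x3) (f x4) (f x5) (f x6) (f x7) c := by
  rcases cu_cases c with rfl | rfl | rfl | rfl | rfl | rfl | rfl | rfl <;> rfl

theorem chart_lo : ∀ (π : Equiv.Perm (Fin 3)) (c : Cu),
    (cb none (some 2) (some 1) none (some 0) none none none c : Option (Fin 3)).map π =
      cb none (some 2) (some 1) none (some 0) none none none (c ∘ π.symm) := by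
  decide +kernel

theorem chart_hi : ∀ (π : Equiv.Perm (Fin 3)) (c : Cu),
    (cb none none none (some 0) none (some 1) (some 2) none c : Option (Fin 3)).map π =
      cb none none none (some 0) none (some 1) (some 2) none (c ∘ π.symm) := by
  decide +kernel

theorem chart_bot : ∀ (π : Equiv.Perm (Fin 3)) (c : Cu),
    (cb 1 0 0 0 0 0 0 0 : Cu → ℕ) c = cb 1 0 0 0 0 0 0 0 (c ∘ π.symm) ∧
      (cb 0 0 0 0 0 0 0 1 : Cu → ℕ) c = cb 0 0 0 0 0 0 0 1 (c ∘ π.symm) := by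
  decide +kernel

theorem chart_dual {W H : Matrix (Fin 3) (Fin 3) R} (h : Wᵀ * H = 1) (a b : Fin 3) :
    H a 0 * W b 0 + H a 1 * W b 1 + H a 2 * W b 2 = if a = b then 1 else 0 := by
  have h0 : H * Wᵀ = 1 := mul_eq_one_comm.1 h
  have h1 := congrFun (congrFun h0 a) b
  simpa only [Matrix.mul_apply, Fin.sum_univ_three, transpose_apply, one_apply] using h1

/-- six permutations, eight vertices; or induction on swaps -/
theorem lo_perm (w : Fin 3 → R) (π : Equiv.Perm (Fin 3)) (c : Cu) :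
    lo (fun i => w (π i)) c = lo w (c ∘ π.symm) := by
  have h := congrArg (fun o : Option (Fin 3) => o.elim 0 w) (chart_lo π c)
  rw [chart_cb (Option.map π), chart_cb (fun o : Option (Fin 3) => o.elim 0 w),
    chart_cb (fun o : Option (Fin 3) => o.elim 0 w)] at h
  exact h

theorem hi_perm (w : Fin 3 → R) (π : Equiv.Perm (Fin 3)) (c : Cu) :
    hi (fun i => w (π i)) c = hi w (c ∘ π.symm) := by
  have h := congrArg (fun o : Option (Fin 3) => o.elim 0 w) (chart_hi π c)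
  rw [chart_cb (Option.map π), chart_cb (fun o : Option (Fin 3) => o.elim 0 w),
    chart_cb (fun o : Option (Fin 3) => o.elim 0 w)] at h
  exact h

theorem bot_perm (π : Equiv.Perm (Fin 3)) (c : Cu) :
    (cb 1 0 0 0 0 0 0 0 : Cu → R) c = cb 1 0 0 0 0 0 0 0 (c ∘ π.symm) ∧
      (cb 0 0 0 0 0 0 0 1 : Cu → R) c = cb 0 0 0 0 0 0 0 1 (c ∘ π.symm) := by
  have h1 := congrArg (Nat.cast : ℕ → R) (chart_bot π c).1
  have h2 := congrArg (Nat.cast : ℕ → R) (chart_bot π c).2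
  simp only [chart_cb (Nat.cast : ℕ → R), Nat.cast_zero, Nat.cast_one] at h1 h2
  exact ⟨h1, h2⟩

theorem PhiX_map {R' : Type*} [CommRing R'] (f : R →+* R') (W H : Matrix (Fin 3) (Fin 3) R) :
    (PhiX W H).map f = PhiX (W.map f) (H.map f) ∧ (PhiY W H).map f = PhiY (W.map f) (H.map f) := by
  constructor <;> ext i c <;> fin_cases i <;> simp [PhiX, PhiY, lo, hi, chart_cb f]

/-- `H * Wᵀ = 1` (`mul_eq_one_comm`); the `(i, j)` entry of `Xᵀ Y - (Xᵀ Y)ᵀ` is `om` of the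
columns `i, j` -/
theorem chart_symm {W H : Matrix (Fin 3) (Fin 3) R} (h : Wᵀ * H = 1) {M : Matrix Cu (Fin 4) R}
    (hM : Lag M) : ((PhiX W H * M)ᵀ * (PhiY W H * M)).IsSymm := by
  have h1 := chart_dual h
  have h00 := h1 0 0
  have h01 := h1 0 1
  have h02 := h1 0 2
  have h10 := h1 1 0
  have h11 := h1 1 1
  have h12 := h1 1 2
  have h20 := h1 2 0
  have h21 := h1 2 1
  have h22 := h1 2 2
  simp only [Fin.reduceEq, if_true, if_false] at h00 h01 h02 h10 h11 h12 h20 h21 h22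
  ext j i
  have h2 := hM i j
  simp only [om] at h2
  simp only [transpose_apply, Matrix.mul_apply, Fin.sum_univ_four, sum_cu, PhiX, PhiY, lo, hi,
    of_apply, cons_val_zero, cons_val_one, cons_val, cb_000, cb_001, cb_010, cb_011, cb_100,
    cb_101, cb_110, cb_111]
  linear_combination h2 +
    (M (cu 0 1 1) i * M (cu 1 0 0) j - M (cu 0 1 1) j * M (cu 1 0 0) i) * h00 +
    (M (cu 0 1 1) i * M (cu 0 1 0) j - M (cu 0 1 1) j * M (cu 0 1 0) i) * h01 +
    (M (cu 0 1 1) i * M (cu 0 0 1) j - M (cu 0 1 1) j * M (cu 0 0 1) i) * h02 +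
    (M (cu 1 0 1) i * M (cu 1 0 0) j - M (cu 1 0 1) j * M (cu 1 0 0) i) * h10 +
    (M (cu 1 0 1) i * M (cu 0 1 0) j - M (cu 1 0 1) j * M (cu 0 1 0) i) * h11 +
    (M (cu 1 0 1) i * M (cu 0 0 1) j - M (cu 1 0 1) j * M (cu 0 0 1) i) * h12 +
    (M (cu 1 1 0) i * M (cu 1 0 0) j - M (cu 1 1 0) j * M (cu 1 0 0) i) * h20 +
    (M (cu 1 1 0) i * M (cu 0 1 0) j - M (cu 1 1 0) j * M (cu 0 1 0) i) * h21 +
    (M (cu 1 1 0) i * M (cu 0 0 1) j - M (cu 1 1 0) j * M (cu 0 0 1) i) * h22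

/-- `e 000`, `e 111` are rows; `e (100), ..` are `∑ j, H i j • lo (W · j)`, and `e (011), ..` are
`∑ j, W i j • hi (H · j)` -/
theorem exists_PQ {W H : Matrix (Fin 3) (Fin 3) R} (h : Wᵀ * H = 1) (Z : Matrix (Fin 4) Cu R) :
    ∃ P Q : Matrix (Fin 4) (Fin 4) R, Z = P * PhiX W H + Q * PhiY W H := by
  have h1 := chart_dual h
  have h00 := h1 0 0
  have h01 := h1 0 1
  have h02 := h1 0 2
  have h10 := h1 1 0
  have h11 := h1 1 1
  have h12 := h1 1 2
  have h20 := h1 2 0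
  have h21 := h1 2 1
  have h22 := h1 2 2
  simp only [Fin.reduceEq, if_true, if_false] at h00 h01 h02 h10 h11 h12 h20 h21 h22
  let l : Fin 4 → Fin 3 → R := fun r k =>
    Z r (cu 1 0 0) * H 0 k + Z r (cu 0 1 0) * H 1 k + Z r (cu 0 0 1) * H 2 k
  let u : Fin 4 → Fin 3 → R := fun r k =>
    Z r (cu 0 1 1) * W 0 k + Z r (cu 1 0 1) * W 1 k + Z r (cu 1 1 0) * W 2 k
  refine ⟨Matrix.of fun r => ![Z r (cu 0 0 0), u r 0, l r 1, l r 2],
    Matrix.of fun r => ![Z r (cu 1 1 1), l r 0, -u r 1, -u r 2], ?_⟩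
  ext r c
  rcases cu_cases c with rfl | rfl | rfl | rfl | rfl | rfl | rfl | rfl <;>
    simp only [Matrix.add_apply, Matrix.mul_apply, Fin.sum_univ_four, PhiX, PhiY, lo, hi,
      of_apply, cons_val_zero, cons_val_one, cons_val, cb_000, cb_001, cb_010, cb_011, cb_100,
      cb_101, cb_110, cb_111, l, u]
  · ring
  · linear_combination -Z r (cu 1 0 0) * h02 - Z r (cu 0 1 0) * h12 - Z r (cu 0 0 1) * h22
  · linear_combination -Z r (cu 1 0 0) * h01 - Z r (cu 0 1 0) * h11 - Z r (cu 0 0 1) * h21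
  · linear_combination -Z r (cu 0 1 1) * h00 - Z r (cu 1 0 1) * h01 - Z r (cu 1 1 0) * h02
  · linear_combination -Z r (cu 1 0 0) * h00 - Z r (cu 0 1 0) * h10 - Z r (cu 0 0 1) * h20
  · linear_combination -Z r (cu 0 1 1) * h10 - Z r (cu 1 0 1) * h11 - Z r (cu 1 1 0) * h12
  · linear_combination -Z r (cu 0 1 1) * h20 - Z r (cu 1 0 1) * h21 - Z r (cu 1 1 0) * h22
  · ring

end Ring

end Pool.Agent.Lib.MP_775b3b_nt
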