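import Pool.Agent.Lib.MP_775b3b_nt.Chart

/-! Charts over `ℂ`. -/

namespace Pool.Agent.Lib.MP_775b3b_nt

open Matrix

/-- the coefficients of the quadratic form of a chart -/
def chart2S (M : Matrix Cu (Fin 4) ℂ) (i j : Fin 3) : ℂ :=
  d4 (M (cu 0 0 0)) (M (![cu 0 1 1, cu 1 0 1, cu 1 1 0] j)) (M (![cu 0 1 0, cu 0 0 1, cu 1 0 0] i))
    (M (![cu 0 0 1, cu 1 0 0, cu 0 1 0] i))

theorem chart2_det {W H : Matrix (Fin 3) (Fin 3) ℂ} (h : Wᵀ * H = 1) (M : Matrix Cu (Fin 4) ℂ) :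
    (PhiX W H * M).det = W.det * ∑ i, ∑ j, H i 0 * H j 0 * chart2S M i j := by
  have h1 : W * Hᵀ = 1 := by
    have h2 := congrArg Matrix.transpose (mul_eq_one_comm.1 h)
    rwa [transpose_mul, transpose_transpose, transpose_one] at h2
  have h2 : adjugate W = W.det • Hᵀ := by
    rw [← Matrix.mul_one (adjugate W), ← h1, ← Matrix.mul_assoc, adjugate_mul, Matrix.smul_mul,
      Matrix.one_mul]
  have h3 : ∀ i, W.det * H i 0 = adjugate W 0 i := fun i => by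
    rw [h2]
    rfl
  have h4 : W.det * ∑ i, ∑ j, H i 0 * H j 0 * chart2S M i j =
      ∑ i, ∑ j, adjugate W 0 i * H j 0 * chart2S M i j := by
    simp only [Finset.mul_sum, ← h3, mul_assoc]
  have r0 : (PhiX W H * M) 0 = M (cu 0 0 0) := by
    ext k
    simp [Matrix.mul_apply, sum_cu, PhiX]
  have r1 : (PhiX W H * M) 1 =
      fun k => H 0 0 * M (cu 0 1 1) k + H 1 0 * M (cu 1 0 1) k + H 2 0 * M (cu 1 1 0) k := by
    ext k
    simp [Matrix.mul_apply, sum_cu, PhiX, hi]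
  have r2 : (PhiX W H * M) 2 =
      fun k => W 2 1 * M (cu 0 0 1) k + W 1 1 * M (cu 0 1 0) k + W 0 1 * M (cu 1 0 0) k := by
    ext k
    simp [Matrix.mul_apply, sum_cu, PhiX, lo]
  have r3 : (PhiX W H * M) 3 =
      fun k => W 2 2 * M (cu 0 0 1) k + W 1 2 * M (cu 0 1 0) k + W 0 2 * M (cu 1 0 0) k := by
    ext k
    simp [Matrix.mul_apply, sum_cu, PhiX, lo]
  rw [h4, det_eq_d4, r0, r1, r2, r3, adjugate_fin_three]
  simp only [Fin.sum_univ_three, chart2S, d4, of_apply, cons_val', cons_val_zero, cons_val_one,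
    cons_val, cons_val_fin_one]
  ring

theorem chart2_zero {W H : Matrix (Fin 3) (Fin 3) ℂ} {S : Fin 3 → Fin 3 → ℂ} (h : Wᵀ * H = 1)
    (h0 : ∀ s : Fin 7, ∑ i, ∑ j, (H i 0 + ((s : ℕ) : ℂ) * H i 1 + ((s : ℕ) : ℂ) ^ 3 * H i 2) *
      (H j 0 + ((s : ℕ) : ℂ) * H j 1 + ((s : ℕ) : ℂ) ^ 3 * H j 2) * S i j = 0) : S 0 0 = 0 := by
  obtain ⟨F, hF⟩ : ∃ F : Fin 3 → Fin 3 → ℂ, ∀ k l, F k l = ∑ i, ∑ j, H i k * H j l * S i j :=
    ⟨_, fun _ _ => rfl⟩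
  have h1 := Matrix.eq_zero_of_forall_index_sum_mul_pow_eq_zero
    (f := fun s : Fin 7 => ((s : ℕ) : ℂ))
    (v := ![F 0 0, F 0 1 + F 1 0, F 1 1, F 0 2 + F 2 0, F 1 2 + F 2 1, 0, F 2 2])
    (fun s t hst => Fin.ext (Nat.cast_injective hst)) fun s => by
      refine Eq.trans ?_ (h0 s)
      simp [Fin.sum_univ_succ, hF]
      ring
  have c0 : F 0 0 = 0 := congrFun h1 0
  have c1 : F 0 1 + F 1 0 = 0 := congrFun h1 1
  have c2 : F 1 1 = 0 := congrFun h1 2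
  have c3 : F 0 2 + F 2 0 = 0 := congrFun h1 3
  have c4 : F 1 2 + F 2 1 = 0 := congrFun h1 4
  have c6 : F 2 2 = 0 := congrFun h1 6
  have h2 : ∀ i, H i 0 * W 0 0 + H i 1 * W 0 1 + H i 2 * W 0 2 =
      (1 : Matrix (Fin 3) (Fin 3) ℂ) i 0 := fun i => by
      rw [← mul_eq_one_comm.1 h]
      simp [Matrix.mul_apply, Fin.sum_univ_three]
  have h3 : ∑ i, ∑ j, (H i 0 * W 0 0 + H i 1 * W 0 1 + H i 2 * W 0 2) *
      (H j 0 * W 0 0 + H j 1 * W 0 1 + H j 2 * W 0 2) * S i j = S 0 0 := by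
    simp [h2, Fin.sum_univ_three]
  rw [← h3]
  simp only [hF, Fin.sum_univ_three] at c0 c1 c2 c3 c4 c6 ⊢
  linear_combination W 0 0 ^ 2 * c0 + W 0 0 * W 0 1 * c1 + W 0 1 ^ 2 * c2 + W 0 0 * W 0 2 * c3 +
    W 0 1 * W 0 2 * c4 + W 0 2 ^ 2 * c6

theorem chart2_mul {l m n : Type} [Fintype m] {A : Matrix l m ℂ} {B : Matrix m n ℂ} {α β : ℝ}
    (hA : ∀ i k, ‖A i k‖ ≤ α) (hB : ∀ k j, ‖B k j‖ ≤ β) (i : l) (j : n) :
    ‖(A * B) i j‖ ≤ Fintype.card m * (α * β) := by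
  rw [Matrix.mul_apply, ← nsmul_eq_mul, ← Finset.card_univ]
  refine (norm_sum_le _ _).trans (Finset.sum_le_card_nsmul _ _ _ fun k _ => ?_)
  exact (norm_mul_le _ _).trans
    (mul_le_mul (hA i k) (hB k j) (norm_nonneg _) ((norm_nonneg _).trans (hA i k)))

theorem chart2_M0 (a b T : ℂ) : M0 a b T = M0 a b 1 * diagonal ![T, 1, 1, 1] := by
  ext c k
  rw [mul_diagonal]
  rcases cu_cases c with rfl | rfl | rfl | rfl | rfl | rfl | rfl | rfl <;> fin_cases k <;>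
    simp [M0]

theorem chart2_M1 {a b : ℂ} (ha : ‖a‖ ≤ 1) (hb : ‖b‖ ≤ 1) (c : Cu) (k : Fin 4) :
    ‖M0 a b 1 c k‖ ≤ 4 := by
  rcases cu_cases c with rfl | rfl | rfl | rfl | rfl | rfl | rfl | rfl <;> fin_cases k <;>
    simp [M0] <;> linarith

theorem chart2_three {B E : ℝ} {u : ℝ} (hu : 0 ≤ u) {w x : Fin 3 → ℂ} (hw : ∀ i, ‖w i‖ ≤ B)
    (hx : ∀ i, u * ‖x i‖ ≤ E) :
    ‖(u : ℂ) * (w 0 * x 0 + w 1 * x 1 + w 2 * x 2)‖ ≤ (3 * B + 1) * E := by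
  have hE : 0 ≤ E := (mul_nonneg hu (norm_nonneg _)).trans (hx 0)
  have h1 : ∀ i, ‖(u : ℂ) * (w i * x i)‖ ≤ B * E := fun i => by
    rw [norm_mul, norm_mul, Complex.norm_real, Real.norm_of_nonneg hu, mul_left_comm]
    exact mul_le_mul (hw i) (hx i) (mul_nonneg hu (norm_nonneg _))
      ((norm_nonneg _).trans (hw i))
  rw [mul_add, mul_add]
  refine norm_add₃_le.trans ?_
  linarith [h1 0, h1 1, h1 2]

theorem chart2_XY {B C : ℝ} {W H : Matrix (Fin 3) (Fin 3) ℂ} (hW : ∀ i l, ‖W i l‖ ≤ B)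
    (hH : ∀ i l, ‖H i l‖ ≤ B) (j : ℕ) {h : Fin 3 → Matrix (Fin 2) (Fin 2) ℂ}
    (hh : ∀ i l, ‖h i 0 l‖ ≤ C / 2 ^ j ∧ ‖h i 1 l‖ ≤ C * 2 ^ j) :
    (∀ i c, ‖(diagonal (fun i => (dvec j i : ℂ)) * PhiX W H * kron h) i c‖ ≤
      (3 * B + 1) * C ^ 3) ∧
    ∀ i c, ‖(diagonal (fun i => (dvec j i : ℂ)⁻¹) * PhiY W H * kron h) i c‖ ≤
      (3 * B + 1) * C ^ 3 := by
  have hB : 0 ≤ B := (norm_nonneg _).trans (hW 0 0)
  obtain ⟨t, ht⟩ : ∃ t : ℝ, t = 2 ^ j := ⟨_, rfl⟩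
  have ht0 : 0 < t := by
    rw [ht]
    positivity
  have h8 : (8 : ℝ) ^ j = t ^ 3 := by
    rw [ht, ← pow_mul, mul_comm, pow_mul]
    norm_num
  have hd : dvec j = ![t ^ 3, t⁻¹, t, t] := by rw [dvec, h8, ← ht]
  rw [← ht] at hh
  have hC : 0 ≤ C := nonneg_of_mul_nonneg_left ((norm_nonneg _).trans (hh 0 0).2) ht0
  have hC3 : C ^ 3 ≤ (3 * B + 1) * C ^ 3 := le_mul_of_one_le_left (by positivity) (by linarith)
  have hk : ∀ (x y z : Fin 2) (c : Cu) (u : ℝ), 0 ≤ u →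
      u * (![C / t, C * t] x * ![C / t, C * t] y * ![C / t, C * t] z) = C ^ 3 →
      u * ‖kron h (cu x y z) c‖ ≤ C ^ 3 := fun x y z c u hu e => by
    have h1 : ∀ (i : Fin 3) (x l : Fin 2), ‖h i x l‖ ≤ ![C / t, C * t] x := fun i x l => by
      fin_cases x
      exacts [(hh i l).1, (hh i l).2]
    rw [← e, kron_apply, norm_mul, norm_mul, cu_zero, cu_one, cu_two]
    have h2 := (norm_nonneg _).trans (h1 0 x 0)
    have h3 := (norm_nonneg _).trans (h1 0 y 0)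
    gcongr <;> apply h1
  have hlo : ∀ (w : Fin 3 → ℂ), (∀ i, ‖w i‖ ≤ B) → ∀ c,
      ‖(t : ℂ) * ∑ b, lo w b * kron h b c‖ ≤ (3 * B + 1) * C ^ 3 := fun w hw c => by
    have h1 := chart2_three (E := C ^ 3) ht0.le hw
      (x := ![kron h (cu 1 0 0) c, kron h (cu 0 1 0) c, kron h (cu 0 0 1) c]) fun i => by
        fin_cases i <;> refine hk _ _ _ c t ht0.le ?_ <;> simp <;> field_simp
    convert h1 using 3
    simp [sum_cu, lo]
    ring
  have hhi : ∀ (w : Fin 3 → ℂ), (∀ i, ‖w i‖ ≤ B) → ∀ c,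
      ‖(t : ℂ)⁻¹ * ∑ b, hi w b * kron h b c‖ ≤ (3 * B + 1) * C ^ 3 := fun w hw c => by
    have h1 := chart2_three (E := C ^ 3) (inv_pos.2 ht0).le hw
      (x := ![kron h (cu 0 1 1) c, kron h (cu 1 0 1) c, kron h (cu 1 1 0) c]) fun i => by
        fin_cases i <;> refine hk _ _ _ c t⁻¹ (inv_pos.2 ht0).le ?_ <;> simp <;> field_simp
    convert h1 using 3
    · simp
    · simp [sum_cu, hi]
  constructor
  · intro i c
    rw [Matrix.mul_assoc, diagonal_mul, hd, Matrix.mul_apply]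
    fin_cases i
    · refine le_trans ?_ ((hk 0 0 0 c (t ^ 3) (by positivity) (by simp; field_simp)).trans hC3)
      simp [sum_cu, PhiX, abs_of_pos ht0]
    · simpa [PhiX] using hhi _ (fun i => hH i 0) c
    · simpa [PhiX] using hlo _ (fun i => hW i 1) c
    · simpa [PhiX] using hlo _ (fun i => hW i 2) c
  · intro i c
    rw [Matrix.mul_assoc, diagonal_mul, hd, Matrix.mul_apply]
    fin_cases i
    · refine le_trans ?_ ((hk 1 1 1 c (t ^ 3)⁻¹ (by positivity) (by simp; field_simp)).trans hC3)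
      simp [sum_cu, PhiY, abs_of_pos ht0]
    · simpa [PhiY] using hlo _ (fun i => hW i 0) c
    · simpa [PhiY] using hhi (fun i => -H i 1) (fun i => by simpa using hH i 1) c
    · simpa [PhiY] using hhi (fun i => -H i 2) (fun i => by simpa using hH i 2) c

/-- with `X = PhiX W H * M`, `Y = PhiY W H * M`, `S = Y * X⁻¹` -/
theorem exists_chart {W H : Matrix (Fin 3) (Fin 3) ℂ} (h : Wᵀ * H = 1) {M : Matrix Cu (Fin 4) ℂ}
    (hM : Lag M) (hX : (PhiX W H * M).det ≠ 0) : ∃ S : Matrix (Fin 4) (Fin 4) ℂ, S.IsSymm ∧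
      ∀ P Q : Matrix (Fin 4) (Fin 4) ℂ, ((P * PhiX W H + Q * PhiY W H) * M).det =
        (P + Q * S).det * (PhiX W H * M).det := by
  have h1 := chart_symm h hM
  set X := PhiX W H * M with hXd
  set Y := PhiY W H * M with hYd
  have hu : IsUnit X.det := hX.isUnit
  have h2 : Yᵀ * X = Xᵀ * Y := by
    have h3 := h1.eq
    rwa [transpose_mul, transpose_transpose] at h3
  refine ⟨Y * X⁻¹, ?_, fun P Q => ?_⟩
  · show (Y * X⁻¹)ᵀ = Y * X⁻¹
    calc (Y * X⁻¹)ᵀ = X⁻¹ᵀ * (Yᵀ * X) * X⁻¹ := by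
          rw [transpose_mul, Matrix.mul_assoc, Matrix.mul_assoc, mul_nonsing_inv _ hu,
            Matrix.mul_one]
      _ = Y * X⁻¹ := by
          rw [h2, ← Matrix.mul_assoc, ← transpose_mul, mul_nonsing_inv _ hu, transpose_one,
            Matrix.one_mul]
  · rw [← det_mul, Matrix.add_mul, Matrix.add_mul, Matrix.mul_assoc P, Matrix.mul_assoc Q,
      Matrix.mul_assoc Q, Matrix.mul_assoc Y, nonsing_inv_mul _ hu, Matrix.mul_one]

/-- `det (PhiX W H * M) = det W * Qd (H · 0)`, where `Qd y = ∑ i j, y i * y j * Σ i j`,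
`Σ i j = d4 (M 000) (M (hi vertex j)) (M (lo vertex (i+1))) (M (lo vertex (i+2)))` (the cofactors
`W (i+1) 1 * W (i+2) 2 - W (i+2) 1 * W (i+1) 2` equal `det W * H i 0`), `Σ 0 0 = - Pl M (qf 0)`.
`s ↦ Qd (H₀ + s H₁ + s^3 H₂)` has degree at most 6 with coefficients the six polar values; if it
vanishes for `s = 0, ..., 6`, then `Qd` vanishes on the span of the columns of `H`, which contains
`(1, 0, 0) = ∑ j, W 0 j • H_j`. -/
theorem exists_chart_ne {W H : Matrix (Fin 3) (Fin 3) ℂ} (h : Wᵀ * H = 1)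
    {M : Matrix Cu (Fin 4) ℂ} (hM : Pl M (qf 0) ≠ 0) :
    ∃ s : Fin 7, (PhiX (W * Us ℂ s) (H * Ut ℂ s) * M).det ≠ 0 := by
  by_contra h0
  push Not at h0
  refine hM ?_
  have h1 := chart2_zero (S := chart2S M) h fun s => by
    have h2 := dual_Us h s
    have h3 := h0 s
    rw [chart2_det h2] at h3
    have h4 : (W * Us ℂ s).det ≠ 0 := fun h5 => by
      have h6 := congrArg Matrix.det h2
      rw [det_mul, det_transpose, h5, zero_mul, det_one] at h6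
      exact zero_ne_one h6
    rw [← (mul_eq_zero.1 h3).resolve_left h4]
    have h5 : ∀ i, (H * Ut ℂ s) i 0 = H i 0 + ((s : ℕ) : ℂ) * H i 1 + ((s : ℕ) : ℂ) ^ 3 * H i 2 :=
      fun i => by
        simp [Matrix.mul_apply, Fin.sum_univ_three, Ut]
        ring
    simp only [h5]
  rw [← neg_eq_zero, ← h1, Pl_eq]
  simp [chart2S, qf, d4]
  ring

/-- With `t = 2^j`: `‖kron h b c‖ ≤ C^3 t^(2 |b| - 3)`, so the entries of
`diagonal (dvec j) * PhiX W H * kron h` and `diagonal (dvec j)⁻¹ * PhiY W H * kron h` are at most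
`3 B C^3`; `M0 a b T = M0 a b 1 * diagonal (T, 1, 1, 1)`; `Matrix.det_le` or `det_eq_d4`. -/
theorem chart_bound (B C : ℝ) : ∃ c : ℝ, 0 ≤ c ∧ ∀ (W H : Matrix (Fin 3) (Fin 3) ℂ),
    (∀ i l, ‖W i l‖ ≤ B) → (∀ i l, ‖H i l‖ ≤ B) → ∀ (j : ℕ) (h : Fin 3 → Matrix (Fin 2) (Fin 2) ℂ),
    (∀ i l, ‖h i 0 l‖ ≤ C / 2 ^ j ∧ ‖h i 1 l‖ ≤ C * 2 ^ j) → ∀ (a b : ℂ) (T : ℝ), ‖a‖ ≤ 1 →
    ‖b‖ ≤ 1 → 0 ≤ T → ∀ P Q : Matrix (Fin 4) (Fin 4) ℂ, (∀ i l, ‖P i l‖ ≤ 1) →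
    (∀ i l, ‖Q i l‖ ≤ 1) →
    ‖((P * diagonal (fun i => (dvec j i : ℂ)) * PhiX W H +
      Q * diagonal (fun i => (dvec j i : ℂ)⁻¹) * PhiY W H) * (kron h * M0 a b T)).det‖ ≤ c * T := by
  refine ⟨24 * (256 * ((3 * |B| + 1) * |C| ^ 3)) ^ 4, by positivity,
    fun W H hW hH j h hh a b T ha hb hT P Q hP hQ => ?_⟩
  have hB : 0 ≤ B := (norm_nonneg _).trans (hW 0 0)
  have ht : (0 : ℝ) < 2 ^ j := by positivity
  have hC : 0 ≤ C := nonneg_of_mul_nonneg_left ((norm_nonneg _).trans (hh 0 0).2) ht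
  rw [abs_of_nonneg hB, abs_of_nonneg hC]
  obtain ⟨hX, hY⟩ := chart2_XY hW hH j hh
  have h1 : (P * diagonal (fun i => (dvec j i : ℂ)) * PhiX W H +
      Q * diagonal (fun i => (dvec j i : ℂ)⁻¹) * PhiY W H) * (kron h * M0 a b T) =
      (P * (diagonal (fun i => (dvec j i : ℂ)) * PhiX W H * kron h) +
        Q * (diagonal (fun i => (dvec j i : ℂ)⁻¹) * PhiY W H * kron h)) * M0 a b 1 *
        diagonal ![(T : ℂ), 1, 1, 1] := by
    rw [chart2_M0 a b T]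
    simp only [Matrix.add_mul, Matrix.mul_assoc]
  have h2 := chart2_mul (A := P * (diagonal (fun i => (dvec j i : ℂ)) * PhiX W H * kron h) +
      Q * (diagonal (fun i => (dvec j i : ℂ)⁻¹) * PhiY W H * kron h))
    (fun i l => (norm_add_le _ _).trans (add_le_add (chart2_mul hP hX i l) (chart2_mul hQ hY i l)))
    (chart2_M1 ha hb)
  have h3 := Matrix.det_le (abv := NormedField.toAbsoluteValue ℂ) h2
  rw [h1, det_mul, norm_mul, det_diagonal]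
  refine mul_le_mul (le_trans h3 (le_of_eq ?_)) ?_ (norm_nonneg _) (by positivity)
  · simp [Nat.factorial]
    ring
  · simp [Fin.prod_univ_four, abs_of_nonneg hT]

end Pool.Agent.Lib.MP_775b3b_nt
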