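import Mathlib

/-! Matrix identities for counting Lagrangian lattices in a chart. -/

set_option autoImplicit false

noncomputable section

namespace Pool.Agent.Lib.MP_775b3b_nt.Cnt

open Matrix

variable {F : Type} [Field F] {n : ℕ}

/-- Bordering a matrix by a first row and column. -/
def bord (c : F) (P : Matrix (Fin n) (Fin n) F) : Matrix (Fin (n + 1)) (Fin (n + 1)) F :=
  of (Fin.cons (Fin.cons c 0) fun i => Fin.cons 0 (P i))

/-- The Schur complement of the first entry. -/
def schur (S : Matrix (Fin (n + 1)) (Fin (n + 1)) F) : Matrix (Fin n) (Fin n) F :=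
  of fun i j => S i.succ j.succ - S i.succ 0 * S 0 j.succ / S 0 0

lemma bord_cases {p : F → Prop} {c : F} {P : Matrix (Fin n) (Fin n) F} (h0 : p 0) (hc : p c)
    (hP : ∀ i j, p (P i j)) (i j : Fin (n + 1)) : p (bord c P i j) := by
  refine Fin.cases ?_ (fun i => ?_) i <;> refine Fin.cases ?_ (fun j => ?_) j <;>
    simp [bord, h0, hc, hP]

lemma det_schur (S : Matrix (Fin (n + 1)) (Fin (n + 1)) F) (h : S 0 0 ≠ 0)
    (P Q : Matrix (Fin n) (Fin n) F) :
    det (bord 0 P + bord 1 Q * S) = S 0 0 * det (P + Q * schur S) := by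
  let B : Matrix (Fin (n + 1)) (Fin (n + 1)) F :=
    of (Fin.cons (S 0) fun i => Fin.cons 0 ((P + Q * schur S) i))
  have : det (bord 0 P + bord 1 Q * S) = det B := by
    refine det_eq_of_forall_row_eq_smul_add_const
      (Fin.cons 0 fun i => (∑ k, Q i k * S k.succ 0) / S 0 0) 0 rfl fun i j => ?_
    refine Fin.cases ?_ (fun i => ?_) i <;> refine Fin.cases ?_ (fun j => ?_) j <;>
      simp [B, bord, mul_apply, Fin.sum_univ_succ, schur, h]
    simp only [mul_sub, Finset.sum_sub_distrib, Finset.sum_div, Finset.sum_mul]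
    rw [add_assoc, sub_add, add_right_inj, eq_comm, sub_eq_self, sub_eq_zero]
    exact Finset.sum_congr rfl fun k _ => by ring
  rw [this, det_succ_column_zero, Fin.sum_univ_succ]
  simp [B, submatrix]
  left; rfl

lemma det_entry (S : Matrix (Fin n) (Fin n) F) (i j : Fin n) :
    det ((1 - single j j 1) + single j i 1 * S) = S i j := by
  have : (1 - single j j 1) + single j i 1 * S = (1 : Matrix (Fin n) (Fin n) F).updateRow j (S i) := by
    ext a b
    by_cases h : a = j
    · subst h
      by_cases h' : a = b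
      · subst h'; simp
      · simp [h']
    · simp [h, Ne.symm h]
  rw [this, ← cramer_transpose_apply]
  simp

/-- The unipotent matrix with first column `(1, y)`. -/
def uy (y : Fin n → F) : Matrix (Fin (n + 1)) (Fin (n + 1)) F :=
  (1 : Matrix (Fin (n + 1)) (Fin (n + 1)) F).updateCol 0 (Fin.cons 1 y)

lemma uy_cases {p : F → Prop} {y : Fin n → F} (h0 : p 0) (h1 : p 1) (hy : ∀ i, p (y i))
    (i j : Fin (n + 1)) : p (uy y i j) := by
  refine Fin.cases ?_ (fun i => ?_) i <;> refine Fin.cases ?_ (fun j => ?_) j <;>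
    simp [uy, h1, hy, one_apply]
  · simpa [(Fin.succ_ne_zero j).symm] using h0
  · split_ifs <;> assumption

lemma det_uy (y : Fin n → F) : det (uy y) = 1 := by
  rw [uy, ← cramer_apply]; simp

lemma uy_neg_mul (y : Fin n → F) : uy (-y) * uy y = 1 := by
  ext i j
  refine Fin.cases ?_ (fun i => ?_) i <;> refine Fin.cases ?_ (fun j => ?_) j <;>
    simp [uy, mul_apply, Fin.sum_univ_succ, one_apply, (Fin.succ_ne_zero _).symm]

/-- The change of basis. -/
def cg (y : Fin n → F) (S : Matrix (Fin (n + 1)) (Fin (n + 1)) F) :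
    Matrix (Fin (n + 1)) (Fin (n + 1)) F := (uy y)ᵀ * S * uy y

lemma det_cg (y : Fin n → F) (S P Q : Matrix (Fin (n + 1)) (Fin (n + 1)) F) :
    det (P + Q * cg y S) = det (P * uy (-y) + Q * (uy y)ᵀ * S) := by
  rw [← mul_one (det (P * uy (-y) + _)), ← det_uy y, ← det_mul, add_mul, Matrix.mul_assoc P,
    uy_neg_mul, cg]
  simp [Matrix.mul_assoc]

lemma cg_neg (y : Fin n → F) (S : Matrix (Fin (n + 1)) (Fin (n + 1)) F) :
    cg (-y) (cg y S) = S := by
  have h := uy_neg_mul (-y)
  rw [neg_neg] at h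
  rw [cg, cg, Matrix.mul_assoc, Matrix.mul_assoc, h, Matrix.mul_one, ← Matrix.mul_assoc,
    ← transpose_mul, h]
  simp

lemma cg_symm (y : Fin n → F) {S : Matrix (Fin (n + 1)) (Fin (n + 1)) F} (h : S.IsSymm) :
    (cg y S).IsSymm := by
  simp [IsSymm, cg, h.eq, Matrix.mul_assoc]

lemma cg_add (y : Fin n → F) (S T : Matrix (Fin (n + 1)) (Fin (n + 1)) F) :
    cg y (S + T) = cg y S + cg y T := by
  simp [cg, mul_add, add_mul]

lemma cg_row (y : Fin n → F) (S : Matrix (Fin (n + 1)) (Fin (n + 1)) F) (j : Fin n) :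
    cg y S 0 j.succ = S 0 j.succ + ∑ i, y i * S i.succ j.succ := by
  simp [cg, uy, mul_apply, Fin.sum_univ_succ, one_apply]

lemma cg_zero (y : Fin n → F) (S : Matrix (Fin (n + 1)) (Fin (n + 1)) F) :
    cg y S 0 0 = S 0 0 + ∑ i, y i * (S i.succ 0 + S 0 i.succ) +
      ∑ i, ∑ j, y i * y j * S i.succ j.succ := by
  simp only [cg, uy, mul_apply, Fin.sum_univ_succ, transpose_apply, updateCol_self, Fin.cons_zero,
    Fin.cons_succ, one_mul, mul_one, add_mul, mul_add, Finset.sum_add_distrib, Finset.sum_mul]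
  rw [Finset.sum_comm (f := fun i j => y i * y j * S i.succ j.succ)]
  simp only [mul_comm (S 0 _), mul_right_comm (y _) (S _ _)]
  ring

/-- Four times every entry is an integer combination of few values of the quadratic form. -/
lemma interp {S : Matrix (Fin (n + 1)) (Fin (n + 1)) F} (h : S.IsSymm) (i j : Fin n) :
    2 * S i.succ j.succ = cg (Pi.single i 1 + Pi.single j 1) S 0 0 - cg (Pi.single i 1) S 0 0 -
      cg (Pi.single j 1) S 0 0 + cg 0 S 0 0 ∧
    4 * S 0 i.succ = 2 * cg (Pi.single i 1) S 0 0 - 2 * cg 0 S 0 0 - 2 * S i.succ i.succ ∧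
    S 0 0 = cg 0 S 0 0 := by
  simp only [cg_zero, Pi.add_apply, add_mul, mul_add, Finset.sum_add_distrib, Pi.single_apply,
    ite_mul, mul_ite, one_mul, zero_mul, mul_one, mul_zero, Finset.sum_ite_eq', Finset.mem_univ,
    if_true, Pi.zero_apply, Finset.sum_const_zero, h.apply 0 i.succ, h.apply i.succ j.succ]
  refine ⟨by ring, by ring, by ring⟩

end Pool.Agent.Lib.MP_775b3b_nt.Cnt
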