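import Pool.Agent.Lib.MP_775b3b_nt.CntA

/-! Rational symmetric matrices modulo one with bounded denominators of all minors. -/

set_option autoImplicit false

noncomputable section

namespace Pool.Agent.Lib.MP_775b3b_nt.Cnt

open Matrix

variable {n : ℕ}

/-- The integers inside the rationals. -/
abbrev ZZ : Subring ℚ := ⊥

/-- Integral matrices. -/
def IntM (P : Matrix (Fin n) (Fin n) ℚ) : Prop := ∀ i j, P i j ∈ ZZ

lemma IntM.add {P Q : Matrix (Fin n) (Fin n) ℚ} (h : IntM P) (h' : IntM Q) : IntM (P + Q) :=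
  fun i j => add_mem (h i j) (h' i j)

lemma IntM.sub {P Q : Matrix (Fin n) (Fin n) ℚ} (h : IntM P) (h' : IntM Q) : IntM (P - Q) :=
  fun i j => sub_mem (h i j) (h' i j)

lemma IntM.mul {P Q : Matrix (Fin n) (Fin n) ℚ} (h : IntM P) (h' : IntM Q) : IntM (P * Q) :=
  fun i j => by rw [mul_apply]; exact sum_mem fun k _ => mul_mem (h i k) (h' k j)

lemma IntM.smul {P : Matrix (Fin n) (Fin n) ℚ} (h : IntM P) {c : ℚ} (hc : c ∈ ZZ) : IntM (c • P) :=
  fun i j => mul_mem hc (h i j)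

lemma IntM.tr {P : Matrix (Fin n) (Fin n) ℚ} (h : IntM P) : IntM Pᵀ := fun i j => h j i

lemma IntM.det {P : Matrix (Fin n) (Fin n) ℚ} (h : IntM P) : P.det ∈ ZZ := by
  rw [det_apply']
  exact sum_mem fun σ _ => mul_mem (intCast_mem _ _) (prod_mem fun i _ => h _ _)

lemma intM_single (i j : Fin n) : IntM (single i j 1) := fun a b => by
  rw [single_apply]; split_ifs <;> simp

lemma intM_one : IntM (1 : Matrix (Fin n) (Fin n) ℚ) := fun a b => by
  rw [one_apply]; split_ifs <;> simp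

lemma intM_uy {y : Fin n → ℚ} (h : ∀ i, y i ∈ ZZ) : IntM (uy y) :=
  uy_cases (p := (· ∈ ZZ)) (zero_mem _) (one_mem _) h

lemma IntM.cg {S : Matrix (Fin (n + 1)) (Fin (n + 1)) ℚ} (hS : IntM S) {y : Fin n → ℚ}
    (h : ∀ i, y i ∈ ZZ) : IntM (cg y S) := ((intM_uy h).tr.mul hS).mul (intM_uy h)

lemma cg_smul (y : Fin n → ℚ) (c : ℚ) (S : Matrix (Fin (n + 1)) (Fin (n + 1)) ℚ) :
    cg y (c • S) = c • cg y S := by simp [cg]

/-- All minors of `S` have denominators dividing `m`. -/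
def Adm (m : ℚ) (S : Matrix (Fin n) (Fin n) ℚ) : Prop :=
  ∀ P Q, IntM P → IntM Q → m * det (P + Q * S) ∈ ZZ

lemma Adm.add {m : ℚ} {S E : Matrix (Fin n) (Fin n) ℚ} (h : Adm m S) (hE : IntM E) :
    Adm m (S + E) := fun P Q hP hQ => by
  have := h (P + Q * E) Q (hP.add (hQ.mul hE)) hQ
  rwa [add_assoc, ← mul_add, add_comm E] at this

lemma Adm.entry {m : ℚ} {S : Matrix (Fin n) (Fin n) ℚ} (h : Adm m S) : IntM (m • S) := fun i j => by
  have := h _ _ (intM_one.sub (intM_single j j)) (intM_single j i)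
  rwa [det_entry] at this

lemma Adm.cg {m : ℚ} {S : Matrix (Fin (n + 1)) (Fin (n + 1)) ℚ} (h : Adm m S) {y : Fin n → ℚ}
    (hy : ∀ i, y i ∈ ZZ) : Adm m (cg y S) := fun P Q hP hQ => by
  rw [det_cg]
  exact h _ _ (hP.mul (intM_uy fun i => neg_mem (hy i))) (hQ.mul (intM_uy hy).tr)

lemma adm_pow {m : ℚ} (hm : m ∈ ZZ) {S : Matrix (Fin n) (Fin n) ℚ} (h : IntM (m • S)) :
    Adm (m ^ n) S := fun P Q hP hQ => by
  have := ((hP.smul hm).add (hQ.mul h)).det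
  rwa [Matrix.mul_smul, ← smul_add, det_smul, Fintype.card_fin] at this

lemma mem_of_coprime {a b : ℤ} (h : IsCoprime a b) {x : ℚ} (ha : a * x ∈ ZZ) (hb : b * x ∈ ZZ) :
    x ∈ ZZ := by
  obtain ⟨u, v, e⟩ := h
  have e' : (u : ℚ) * a + v * b = 1 := by exact_mod_cast e
  have : x = u * (a * x) + v * (b * x) := by linear_combination -x * e'
  rw [this]
  exact add_mem (mul_mem (intCast_mem _ _) ha) (mul_mem (intCast_mem _ _) hb)

/-- Reduction modulo one. -/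
def fr (S : Matrix (Fin n) (Fin n) ℚ) : Matrix (Fin n) (Fin n) ℚ := S.map Int.fract

lemma intM_fr (S : Matrix (Fin n) (Fin n) ℚ) : IntM (fr S - S) := fun i j => by
  simp only [fr, Matrix.sub_apply, map_apply, Int.fract, sub_sub_cancel_left]
  exact neg_mem (intCast_mem _ _)

/-- The admissible symmetric matrices modulo one. -/
def SS (n m : ℕ) : Set (Matrix (Fin n) (Fin n) ℚ) :=
  {S | S.IsSymm ∧ (∀ i j, 0 ≤ S i j ∧ S i j < 1) ∧ Adm m S}

lemma fr_mem {m : ℕ} {S : Matrix (Fin n) (Fin n) ℚ} (h : S.IsSymm) (h' : Adm m S) :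
    fr S ∈ SS n m :=
  ⟨h.map _, fun i j => ⟨Int.fract_nonneg _, Int.fract_lt_one _⟩, by
    simpa using h'.add (intM_fr S)⟩

lemma eq_of_int {x y : ℚ} (hx : 0 ≤ x ∧ x < 1) (hy : 0 ≤ y ∧ y < 1) (h : x - y ∈ ZZ) : x = y := by
  obtain ⟨z, hz⟩ := Subring.mem_bot.1 h
  have h1 : ((-1 : ℤ) : ℚ) < z := by push_cast; linarith [hx.1, hy.2]
  have h2 : (z : ℚ) < (1 : ℤ) := by push_cast; linarith [hx.2, hy.1]
  have : z = 0 := by have := Int.cast_lt.1 h1; have := Int.cast_lt.1 h2; omega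
  rw [this] at hz
  linarith [Int.cast_zero (R := ℚ)]

lemma sub_of_fr {S T : Matrix (Fin n) (Fin n) ℚ} (h : fr S = fr T) : IntM (S - T) := by
  have := (intM_fr T).sub (intM_fr S)
  rwa [h, sub_sub_sub_cancel_left] at this

/-- Fractions with denominator `m` in the unit interval. -/
def grid (m : ℕ) : Finset ℚ := (Finset.range m).image fun a : ℕ => (a : ℚ) / m

lemma card_grid (m : ℕ) : (grid m).card ≤ m := Finset.card_image_le.trans (by simp)

lemma mem_grid {m : ℕ} (hm : m ≠ 0) {x : ℚ} (hx : 0 ≤ x ∧ x < 1) (h : m * x ∈ ZZ) : x ∈ grid m := by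
  obtain ⟨z, hz⟩ := Subring.mem_bot.1 h
  have hm' : (0 : ℚ) < m := by positivity
  have h0 : 0 ≤ z := by have : (0 : ℚ) ≤ z := hz ▸ mul_nonneg hm'.le hx.1; exact_mod_cast this
  lift z to ℕ using h0
  refine Finset.mem_image.2 ⟨z, Finset.mem_range.2 ?_, ?_⟩
  · have : (z : ℚ) < m := by push_cast at hz; nlinarith [hx.2]
    exact_mod_cast this
  · push_cast at hz; rw [hz]; field_simp

lemma SS_finite (n : ℕ) {m : ℕ} (hm : m ≠ 0) : (SS n m).Finite :=
  (Set.Finite.pi' fun _ : Fin n => Set.Finite.pi' fun _ : Fin n => (grid m).finite_toSet).subset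
    fun _ hS i j => mem_grid hm (hS.2.1 i j) (hS.2.2.entry i j)

lemma ncard_SS_mul {a b : ℕ} (ha : a ≠ 0) (hb : b ≠ 0) (h : a.Coprime b) :
    (SS n (a * b)).ncard ≤ (SS n a).ncard * (SS n b).ncard := by
  have key : ∀ {a b : ℕ}, a.Coprime b → ∀ S ∈ SS n (a * b), fr ((b : ℚ) • S) ∈ SS n a := by
    intro a b h S hS
    refine fr_mem (hS.1.smul _) fun P Q hP hQ => ?_
    have h1 := hS.2.2 P ((b : ℚ) • Q) hP (hQ.smul (natCast_mem _ _))
    have h2 := adm_pow (natCast_mem _ a) (S := (b : ℚ) • S)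
      (by simpa [smul_smul] using hS.2.2.entry) P Q hP hQ
    refine mem_of_coprime (a := b) (b := a ^ n) (Nat.isCoprime_iff_coprime.2 h.symm).pow_right ?_ ?_
    · convert h1 using 1
      simp; ring
    · convert mul_mem (natCast_mem ZZ a) h2 using 1
      push_cast; ring
  rw [← Set.ncard_prod]
  refine Set.ncard_le_ncard_of_injOn (fun S => (fr ((b : ℚ) • S), fr ((a : ℚ) • S)))
    (fun S hS => ⟨key h S hS, key h.symm S (by rwa [mul_comm])⟩) (fun S hS T hT e => ?_)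
    ((SS_finite n ha).prod (SS_finite n hb))
  ext i j
  refine eq_of_int (hS.2.1 i j) (hT.2.1 i j) (mem_of_coprime (Nat.isCoprime_iff_coprime.2 h) ?_ ?_)
  · simpa [mul_sub] using sub_of_fr (Prod.mk.inj e).2 i j
  · simpa [mul_sub] using sub_of_fr (Prod.mk.inj e).1 i j

/-- The first entry has exact denominator `p ^ j` and dominates the first row. -/
def Piv (p c j : ℕ) (S : Matrix (Fin (n + 1)) (Fin (n + 1)) ℚ) : Prop :=
  (∃ σ z : ℤ, ¬(p : ℤ) ∣ σ ∧ (S 0 0 + z) * p ^ j = σ) ∧ ∀ i, ((c * p ^ j : ℕ) : ℚ) * S 0 i ∈ ZZ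

lemma schur_adm {p : ℕ} (hp : p.Prime) {k j : ℕ} (hj : j ≤ k)
    {S : Matrix (Fin (n + 1)) (Fin (n + 1)) ℚ} (hs : S.IsSymm) (h : Adm ((p ^ k : ℕ) : ℚ) S)
    {σ z τ : ℤ} (hσ : ¬(p : ℤ) ∣ σ) (e : (S 0 0 + z) * p ^ j = σ) (hτ : (p : ℤ) ^ (2 * k) ∣ σ * τ - 1) :
    Adm ((p ^ (k - j) : ℕ) : ℚ)
      (of fun a b : Fin n => S a.succ b.succ - p ^ j * τ * S 0 a.succ * S 0 b.succ) := by
  intro P Q hP hQ
  set T := of fun a b : Fin n => S a.succ b.succ - p ^ j * τ * S 0 a.succ * S 0 b.succ with hT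
  have hp0 : (p : ℚ) ≠ 0 := Nat.cast_ne_zero.2 hp.ne_zero
  have hσ0 : (σ : ℚ) ≠ 0 := Int.cast_ne_zero.2 fun h0 => hσ (h0 ▸ dvd_zero _)
  have en : ∀ a b, (p : ℚ) ^ k * S a b ∈ ZZ := fun a b => by simpa using h.entry a b
  have pm : ∀ i : ℕ, (p : ℚ) ^ i ∈ ZZ := fun i => pow_mem (natCast_mem _ _) _
  have h1 := adm_pow (pm (2 * k)) (S := T) (fun a b => by
    convert sub_mem (mul_mem (pm k) (en a.succ b.succ)) (mul_mem (mul_mem (mul_mem (pm j)
      (intCast_mem _ τ)) (en 0 a.succ)) (en 0 b.succ)) using 1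
    simp [hT]; ring) P Q hP hQ
  set S' := S + (z : ℚ) • single 0 0 1 with hS'
  have h2 : Adm ((p ^ k : ℕ) : ℚ) S' := h.add ((intM_single 0 0).smul (intCast_mem _ _))
  have e0 : S' 0 0 = σ / p ^ j := by rw [eq_div_iff (pow_ne_zero _ hp0), ← e]; simp [hS']
  obtain ⟨w, hw⟩ := hτ
  have hw' : (σ : ℚ) * τ - 1 = p ^ (2 * k) * w := by exact_mod_cast hw
  have hE : IntM ((σ : ℚ) • (schur S' - T)) := fun a b => by
    convert mul_mem (mul_mem (mul_mem (pm j) (intCast_mem _ w)) (en 0 a.succ)) (en 0 b.succ) using 1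
    simp only [Matrix.smul_apply, Matrix.sub_apply, schur, of_apply, hT, e0, smul_eq_mul]
    simp only [hS', Matrix.add_apply, Matrix.smul_apply, single_apply, (Fin.succ_ne_zero _).symm,
      and_false, false_and, if_false, smul_zero, add_zero, hs.apply 0 a.succ]
    field_simp
    linear_combination S 0 a.succ * S 0 b.succ * p ^ j * hw'
  have hσm : (σ : ℚ) ∈ ZZ := intCast_mem _ _
  have h3 := h2 (bord 0 ((σ : ℚ) • P - Q * ((σ : ℚ) • (schur S' - T)))) (bord 1 ((σ : ℚ) • Q))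
    (bord_cases (p := (· ∈ ZZ)) (zero_mem _) (zero_mem _) ((hP.smul hσm).sub (hQ.mul hE)))
    (bord_cases (p := (· ∈ ZZ)) (zero_mem _) (one_mem _) (hQ.smul hσm))
  rw [det_schur _ (by rw [e0]; positivity), show (σ : ℚ) • P - Q * ((σ : ℚ) • (schur S' - T)) +
    (σ : ℚ) • Q * schur S' = (σ : ℚ) • (P + Q * T) by
      simp [Matrix.mul_sub, smul_sub, smul_add]; abel, det_smul, Fintype.card_fin, e0] at h3
  refine mem_of_coprime (a := σ ^ (n + 1)) (b := (p ^ (2 * k)) ^ n) (IsCoprime.pow_left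
    (((Nat.prime_iff_prime_int.1 hp).coprime_iff_not_dvd.2 hσ).symm.pow_right.pow_right)) ?_ ?_
  · convert h3 using 1
    obtain ⟨i, rfl⟩ := Nat.exists_eq_add_of_le hj
    rw [Nat.add_sub_cancel_left]
    push_cast
    field_simp
    ring
  · convert mul_mem (pm (k - j)) h1 using 1
    push_cast; ring

lemma ncard_piv {p : ℕ} (hp : p.Prime) {c : ℕ} (hc : c ≠ 0) {k j : ℕ} (hj : j ≤ k) :
    {S ∈ SS (n + 1) (p ^ k) | Piv p c j S}.ncard ≤
      (c * p ^ j) ^ (n + 1) * (SS n (p ^ (k - j))).ncard := by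
  have hτ : ∀ x : ℚ, ∃ τ : ℤ, (∃ σ z : ℤ, ¬(p : ℤ) ∣ σ ∧ (x + z) * p ^ j = σ) →
      ∃ σ z : ℤ, ¬(p : ℤ) ∣ σ ∧ (x + z) * p ^ j = σ ∧ (p : ℤ) ^ (2 * k) ∣ σ * τ - 1 := by
    intro x
    by_cases h : ∃ σ z : ℤ, ¬(p : ℤ) ∣ σ ∧ (x + z) * p ^ j = σ
    · obtain ⟨σ, z, h1, h2⟩ := h
      obtain ⟨u, v, e⟩ := (((Nat.prime_iff_prime_int.1 hp).coprime_iff_not_dvd.2 h1).pow_left
        (m := 2 * k))
      exact ⟨v, fun _ => ⟨σ, z, h1, h2, -u, by linear_combination e⟩⟩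
    · exact ⟨0, fun h' => absurd h' h⟩
  choose τ hτ using hτ
  have hm : c * p ^ j ≠ 0 := mul_ne_zero hc (pow_ne_zero _ hp.ne_zero)
  refine (Set.ncard_le_ncard_of_injOn (t := (Fintype.piFinset fun _ : Fin (n + 1) =>
      grid (c * p ^ j) : Finset _) ×ˢ SS n (p ^ (k - j))) (fun S => (S 0, fr (of fun a b : Fin n =>
      S a.succ b.succ - p ^ j * τ (S 0 0) * S 0 a.succ * S 0 b.succ))) (fun S hS => ⟨?_, ?_⟩)
    (fun S hS T hT e => ?_)
    ((Finset.finite_toSet _).prod (SS_finite n (pow_ne_zero _ hp.ne_zero)))).trans ?_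
  · exact Fintype.mem_piFinset.2 fun i => mem_grid hm (hS.1.2.1 0 i) (hS.2.2 i)
  · obtain ⟨σ, z, h1, h2, h3⟩ := hτ _ hS.2.1
    refine fr_mem ?_ (schur_adm hp hj hS.1.1 hS.1.2.2 h1 h2 h3)
    ext a b
    simp only [transpose_apply, of_apply, hS.1.1.apply a.succ b.succ]
    ring
  · obtain ⟨e1, e2⟩ := Prod.mk.inj e
    ext a b
    refine Fin.cases (congrFun e1 b) (fun a => ?_) a
    refine Fin.cases ?_ (fun b => ?_) b
    · rw [hS.1.1.apply, hT.1.1.apply, e1]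
    · refine eq_of_int (hS.1.2.1 _ _) (hT.1.2.1 _ _) ?_
      simpa [e1] using sub_of_fr e2 a b
  · rw [Set.ncard_prod, Set.ncard_coe_finset, Fintype.card_piFinset, Finset.prod_const,
      Finset.card_univ, Fintype.card_fin]
    gcongr
    exact card_grid _

end Pool.Agent.Lib.MP_775b3b_nt.Cnt
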