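import Pool.Agent.Lib.MP_775b3b_nt.CntP

/-! The number of admissible matrices modulo one. -/

set_option autoImplicit false

noncomputable section

namespace Pool.Agent.Lib.MP_775b3b_nt.Cnt

open Matrix

variable {n : ℕ}

/-- Vectors with entries below `c`. -/
def box (n c : ℕ) : Finset (Fin n → ℕ) := Fintype.piFinset fun _ => Finset.range c

lemma card_box (n c : ℕ) : (box n c).card = c ^ n := by simp [box]

/-- The cast of a vector of natural numbers. -/
def cst {F : Type} [Field F] (y : Fin n → ℕ) : Fin n → F := fun i => y i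

lemma cst_mem (y : Fin n → ℕ) (i : Fin n) : cst y i ∈ ZZ := natCast_mem _ _

lemma interp_box {F : Type} [Field F] (i j : Fin n) :
    ∃ a ∈ box n 3, ∃ b ∈ box n 3, ∃ c ∈ box n 3, ∃ d ∈ box n 3,
      (cst a : Fin n → F) = Pi.single i 1 + Pi.single j 1 ∧ (cst b : Fin n → F) = Pi.single i 1 ∧
        (cst c : Fin n → F) = Pi.single j 1 ∧ (cst d : Fin n → F) = 0 := by
  refine ⟨Pi.single i 1 + Pi.single j 1, ?_, Pi.single i 1, ?_, Pi.single j 1, ?_, 0, ?_, ?_, ?_, ?_,
    ?_⟩
  iterate 4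
    simp only [box, Fintype.mem_piFinset, Finset.mem_range, Pi.add_apply, Pi.single_apply,
      Pi.zero_apply]
    intro a
    (try split_ifs) <;> norm_num
  all_goals
    funext a
    simp [cst, Pi.single_apply]

lemma intM_four {S : Matrix (Fin (n + 1)) (Fin (n + 1)) ℚ} (hs : S.IsSymm) {m : ℚ}
    (h : ∀ y ∈ box n 3, m * cg (cst y) S 0 0 ∈ ZZ) : IntM ((4 * m) • S) := by
  have h2 : ∀ i j : Fin n, 2 * m * S i.succ j.succ ∈ ZZ := fun i j => by
    obtain ⟨a, ha, b, hb, c, hc, d, hd, e1, e2, e3, e4⟩ := interp_box (F := ℚ) i j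
    convert add_mem (sub_mem (sub_mem (h a ha) (h b hb)) (h c hc)) (h d hd) using 1
    rw [e1, e2, e3, e4]
    linear_combination m * (interp hs i j).1
  have h1 : ∀ i : Fin n, 4 * m * S 0 i.succ ∈ ZZ := fun i => by
    obtain ⟨-, -, b, hb, -, -, d, hd, -, e2, -, e4⟩ := interp_box (F := ℚ) i i
    convert sub_mem (sub_mem (add_mem (h b hb) (h b hb)) (add_mem (h d hd) (h d hd))) (h2 i i) using 1
    rw [e2, e4]
    linear_combination m * (interp hs i i).2.1
  intro i j
  rw [Matrix.smul_apply, smul_eq_mul]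
  refine Fin.cases ?_ (fun i => ?_) i <;> refine Fin.cases ?_ (fun j => ?_) j
  · convert mul_mem (ofNat_mem ZZ 4) (h 0 (by simp [box])) using 1
    rw [show (cst 0 : Fin n → ℚ) = 0 from funext fun _ => Nat.cast_zero, cg_zero]
    simp [mul_assoc]
  · exact h1 j
  · rw [hs.apply]; exact h1 i
  · convert add_mem (h2 i j) (h2 i j) using 1
    ring

lemma piv_fr {p c j : ℕ} {S : Matrix (Fin (n + 1)) (Fin (n + 1)) ℚ} {y : Fin n → ℕ}
    (h : IntM (((c * p ^ j : ℕ) : ℚ) • S)) (hp : p.Prime) (h1 : (p : ℚ) ^ j * cg (cst y) S 0 0 ∈ ZZ)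
    (h2 : ∀ i, j = i + 1 → (p : ℚ) ^ i * cg (cst y) S 0 0 ∉ ZZ) : Piv p c j (fr (cg (cst y) S)) := by
  constructor
  · obtain ⟨σ, hσ⟩ := Subring.mem_bot.1 h1
    rcases j with _ | i
    · refine ⟨1, 1 - σ + ⌊cg (cst y) S 0 0⌋, fun h => (Nat.prime_iff_prime_int.1 hp).not_isUnit
        (isUnit_of_dvd_one h), ?_⟩
      simp only [fr, map_apply, Int.fract, hσ, Int.cast_add, Int.cast_sub, Int.cast_one]
      ring
    · refine ⟨σ, ⌊cg (cst y) S 0 0⌋, fun ⟨w, hw⟩ => h2 i rfl (Subring.mem_bot.2 ⟨w, ?_⟩), ?_⟩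
      · apply mul_left_cancel₀ (Nat.cast_ne_zero.2 hp.ne_zero : (p : ℚ) ≠ 0)
        rw [hw] at hσ
        push_cast at hσ
        linear_combination hσ
      · simp only [fr, map_apply, Int.fract, hσ]
        ring
  · intro i
    have := (h.cg (cst_mem y)).add ((intM_fr (cg (cst y) S)).smul (natCast_mem _ (c * p ^ j))) 0 i
    rwa [cg_smul, ← smul_add, add_sub_cancel] at this

lemma exists_piv {p k : ℕ} (hp : p.Prime) {S : Matrix (Fin (n + 1)) (Fin (n + 1)) ℚ} (hs : S.IsSymm)
    (h : IntM (((p ^ k : ℕ) : ℚ) • S)) :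
    ∃ y ∈ box n 3, ∃ j ≤ k, Piv p 4 j (fr (cg (cst y) S)) := by
  classical
  have hk : ∀ y ∈ box n 3, (p : ℚ) ^ k * cg (cst y) S 0 0 ∈ ZZ := fun y _ => by
    simpa [cg_smul] using h.cg (cst_mem y) 0 0
  have ex : ∃ j, ∀ y ∈ box n 3, (p : ℚ) ^ j * cg (cst y) S 0 0 ∈ ZZ := ⟨k, hk⟩
  have h1 := Nat.find_spec ex
  have h2 := intM_four hs h1
  obtain ⟨y, hy, h3⟩ : ∃ y ∈ box n 3, ∀ i, Nat.find ex = i + 1 →
      (p : ℚ) ^ i * cg (cst y) S 0 0 ∉ ZZ := by
    rcases h0 : Nat.find ex with _ | i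
    · exact ⟨0, by simp [box], fun i hi => by omega⟩
    · have := Nat.find_min ex (m := i) (by omega)
      push Not at this
      obtain ⟨y, hy, h3⟩ := this
      exact ⟨y, hy, fun i' hi => by obtain rfl : i = i' := by omega
                                    exact h3⟩
  exact ⟨y, hy, _, Nat.find_min' ex hk, piv_fr (by simpa using h2) hp (h1 y hy) h3⟩

open Classical in
lemma many_piv {p k : ℕ} (hp : p.Prime) (hp2 : p ≠ 2) {S : Matrix (Fin (n + 1)) (Fin (n + 1)) ℚ}
    (hs : S.IsSymm) (h : IntM (((p ^ k : ℕ) : ℚ) • S)) : (p : ℝ) ^ n * (1 - 2 / p) ≤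
      ((box n p).filter fun y => ∃ j ≤ k, Piv p 1 j (fr (cg (cst y) S))).card := by
  have : Fact p.Prime := ⟨hp⟩
  have hp0 : (0 : ℝ) < p := by exact_mod_cast hp.pos
  have ex : ∃ j, IntM (((p : ℚ) ^ j) • S) := ⟨k, by simpa using h⟩
  have h1 := Nat.find_spec ex
  have hjk : Nat.find ex ≤ k := Nat.find_min' ex (by simpa using h)
  have h2 : ∀ y : Fin n → ℕ, (p : ℚ) ^ Nat.find ex * cg (cst y) S 0 0 ∈ ZZ := fun y => by
    simpa [cg_smul] using h1.cg (cst_mem y) 0 0
  rcases h0 : Nat.find ex with _ | i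
  · rw [Finset.filter_true_of_mem fun y _ => ⟨_, hjk, piv_fr (by simpa using h1) hp (h2 y)
      fun i hi => by omega⟩, card_box]
    push_cast
    exact mul_le_of_le_one_right (by positivity) (sub_le_self _ (by positivity))
  have hmin := Nat.find_min ex (m := i) (by omega)
  rw [h0] at h1 h2 hjk
  choose A hA using fun a b => Subring.mem_bot.1 (h1 a b)
  let Φ : MvPolynomial (Fin n) (ZMod p) := MvPolynomial.C (A 0 0 : ZMod p) +
    ∑ a, MvPolynomial.X a * MvPolynomial.C ((A a.succ 0 + A 0 a.succ : ℤ) : ZMod p) +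
    ∑ a, ∑ b, MvPolynomial.X a * MvPolynomial.X b * MvPolynomial.C (A a.succ b.succ : ZMod p)
  have hΦ : ∀ y : Fin n → ℕ, MvPolynomial.eval (cst y) Φ = 0 ↔
      (p : ℚ) ^ i * cg (cst y) S 0 0 ∈ ZZ := by
    intro y
    let σ : ℤ := A 0 0 + ∑ a, y a * (A a.succ 0 + A 0 a.succ) + ∑ a, ∑ b, y a * y b * A a.succ b.succ
    have e1 : MvPolynomial.eval (cst y) Φ = (σ : ZMod p) := by simp [Φ, σ, cst]
    have e2 : (σ : ℚ) = p * (p ^ i * cg (cst y) S 0 0) := by
      rw [← mul_assoc, ← pow_succ', ← smul_eq_mul, ← Matrix.smul_apply, ← cg_smul, cg_zero]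
      simp only [← hA]
      simp [σ, cst]
    rw [e1, ZMod.intCast_zmod_eq_zero_iff_dvd, Subring.mem_bot]
    refine exists_congr fun w => ?_
    rw [← Int.cast_inj (α := ℚ), e2, Int.cast_mul, Int.cast_natCast,
      mul_right_inj' (Nat.cast_ne_zero.2 hp.ne_zero), eq_comm]
  have hne : Φ ≠ 0 := fun h0 => hmin fun a b => by
    refine mem_of_coprime (a := 2 ^ 2) (b := p) (Nat.isCoprime_iff_coprime.2
      ((Nat.coprime_primes Nat.prime_two hp).2 hp2.symm)).pow_left ?_ ?_
    · convert intM_four hs (fun y _ => (hΦ y).1 (by rw [h0, map_zero])) a b using 1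
      simp; ring
    · convert h1 a b using 1
      simp; ring
  have hdeg : Φ.totalDegree ≤ 2 := by
    have hX : ∀ a : Fin n, (MvPolynomial.X a : MvPolynomial (Fin n) (ZMod p)).totalDegree ≤ 1 :=
      fun a => (MvPolynomial.totalDegree_X a).le
    refine (MvPolynomial.totalDegree_add _ _).trans (max_le
      ((MvPolynomial.totalDegree_add _ _).trans (max_le
        (by rw [MvPolynomial.totalDegree_C]; omega) ?_)) ?_)
    · refine MvPolynomial.totalDegree_finsetSum_le fun a _ =>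
        (MvPolynomial.totalDegree_mul _ _).trans ?_
      rw [MvPolynomial.totalDegree_C]
      linarith [hX a]
    · refine MvPolynomial.totalDegree_finsetSum_le fun a _ =>
        MvPolynomial.totalDegree_finsetSum_le fun b _ => (MvPolynomial.totalDegree_mul _ _).trans ?_
      rw [MvPolynomial.totalDegree_C]
      linarith [hX a, hX b, MvPolynomial.totalDegree_mul (MvPolynomial.X a) (MvPolynomial.X b :
        MvPolynomial (Fin n) (ZMod p))]
  have sz := MvPolynomial.schwartz_zippel_totalDegree hne Finset.univ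
  rw [Finset.card_univ, ZMod.card] at sz
  have sz' : (((Fintype.piFinset fun _ : Fin n => (Finset.univ : Finset (ZMod p))).filter
      fun f => MvPolynomial.eval f Φ = 0).card : ℝ) / p ^ n ≤ 2 / p := by
    have : (Φ.totalDegree : ℝ) ≤ 2 := by exact_mod_cast hdeg
    have sz2 := (NNRat.cast_le (K := ℝ)).2 sz
    push_cast at sz2
    exact sz2.trans (div_le_div_of_nonneg_right this hp0.le)
  have hbad : ((box n p).filter fun y => ¬∃ j ≤ k, Piv p 1 j (fr (cg (cst y) S))).card ≤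
      ((Fintype.piFinset fun _ : Fin n => (Finset.univ : Finset (ZMod p))).filter
        fun f => MvPolynomial.eval f Φ = 0).card := by
    refine Finset.card_le_card_of_injOn cst (fun y hy => ?_) fun y hy y' hy' e => ?_
    · simp only [Finset.coe_filter, Set.mem_ofPred_eq, Fintype.mem_piFinset, Finset.mem_univ,
        implies_true, true_and] at hy ⊢
      by_contra hh
      exact hy.2 ⟨_, hjk, piv_fr (by simpa using h1) hp (h2 y) fun i' hi => by
        obtain rfl : i = i' := by omega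
        exact fun h3 => hh ((hΦ y).2 h3)⟩
    · funext a
      have a1 := Fintype.mem_piFinset.1 (Finset.mem_filter.1 hy).1 a
      have a2 := Fintype.mem_piFinset.1 (Finset.mem_filter.1 hy').1 a
      exact Nat.ModEq.eq_of_lt_of_lt ((ZMod.natCast_eq_natCast_iff _ _ _).1 (congrFun e a))
        (Finset.mem_range.1 a1) (Finset.mem_range.1 a2)
  have tot := Finset.card_filter_add_card_filter_not (s := box n p)
    fun y => ∃ j ≤ k, Piv p 1 j (fr (cg (cst y) S))
  rw [card_box] at tot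
  rw [div_le_iff₀ (by positivity)] at sz'
  have a1 := (Nat.cast_le (α := ℝ)).2 hbad
  have a2 := congrArg (Nat.cast : ℕ → ℝ) tot
  push_cast at a2
  linarith

open Classical in
lemma double_count {p k c d : ℕ} (hp : p.Prime) (hc : c ≠ 0) {l : ℝ}
    (h : ∀ S ∈ SS (n + 1) (p ^ k),
      l ≤ ((box n d).filter fun y => ∃ j ≤ k, Piv p c j (fr (cg (cst y) S))).card) :
    ((SS (n + 1) (p ^ k)).ncard : ℝ) * l ≤ d ^ n * ∑ j ∈ Finset.range (k + 1),
      ((c * p ^ j) ^ (n + 1) * (SS n (p ^ (k - j))).ncard : ℝ) := by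
  have hf := SS_finite (n + 1) (pow_ne_zero k hp.ne_zero)
  have h1 : {S ∈ SS (n + 1) (p ^ k) | ∃ j ≤ k, Piv p c j S}.ncard ≤ ∑ j ∈ Finset.range (k + 1),
      (c * p ^ j) ^ (n + 1) * (SS n (p ^ (k - j))).ncard := by
    refine le_trans ?_ (Finset.sum_le_sum fun j hj =>
      ncard_piv hp hc (Nat.lt_succ_iff.1 (Finset.mem_range.1 hj)))
    refine le_trans (le_of_eq ?_) (Finset.set_ncard_biUnion_le _ _)
    congr 1
    ext S
    simp
  have h2 := Finset.card_mul_le_card_mul (s := hf.toFinset) (t := box n d)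
    (fun S y => ∃ j ≤ k, Piv p c j (fr (cg (cst y) S))) (m := ⌈l⌉₊)
    (n := {S ∈ SS (n + 1) (p ^ k) | ∃ j ≤ k, Piv p c j S}.ncard)
    (fun S hS => Nat.ceil_le.2 (h S (hf.mem_toFinset.1 hS))) fun y _ => by
      rw [← Set.ncard_coe_finset]
      refine Set.ncard_le_ncard_of_injOn (fun S => fr (cg (cst y) S)) (fun S hS => ?_)
        (fun S hS T hT e => ?_) (hf.subset fun S hS => hS.1)
      · obtain ⟨a, b⟩ := Finset.mem_filter.1 hS
        have := hf.mem_toFinset.1 a
        exact ⟨fr_mem (cg_symm _ this.1) (this.2.2.cg (cst_mem y)), b⟩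
      · have a := hf.mem_toFinset.1 (Finset.mem_filter.1 hS).1
        have b := hf.mem_toFinset.1 (Finset.mem_filter.1 hT).1
        have := (sub_of_fr e).cg (y := -cst y) fun i => neg_mem (cst_mem y i)
        rw [sub_eq_add_neg, cg_add, ← neg_one_smul ℚ (cg _ T), cg_smul, cg_neg, cg_neg, neg_one_smul,
          ← sub_eq_add_neg] at this
        ext i j
        exact eq_of_int (a.2.1 i j) (b.2.1 i j) (this i j)
  rw [← Set.ncard_eq_toFinset_card _ hf, card_box] at h2
  have h3 := (Nat.cast_le (α := ℝ)).2 (h2.trans (Nat.mul_le_mul_left _ h1))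
  push_cast at h3
  exact (mul_le_mul_of_nonneg_left (Nat.le_ceil l) (Nat.cast_nonneg _)).trans h3

lemma geom_le {x : ℝ} (hx : 2 ≤ x) (k : ℕ) :
    ∑ j ∈ Finset.range (k + 1), x ^ j ≤ (1 + 2 / x) * x ^ k := by
  induction k with
  | zero => simp; positivity
  | succ k ih =>
    rw [Finset.sum_range_succ]
    have h0 : 0 < x := by linarith
    have h1 : 2 / x ≤ 1 := (div_le_one h0).2 hx
    have h2 : (1 + 2 / x) * x ^ (k + 1) = x ^ (k + 1) + 2 * x ^ k := by field_simp; ring
    nlinarith [pow_pos h0 k]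

theorem ncard_SS_pow (n : ℕ) : ∃ c : ℝ, 0 ≤ c ∧ ∀ p k : ℕ, p.Prime →
    ((SS n (p ^ k)).ncard : ℝ) ≤ (1 + c / p) * (p ^ k) ^ n := by
  classical
  induction n with
  | zero =>
    refine ⟨0, le_rfl, fun p k _ => ?_⟩
    have : (SS 0 (p ^ k)).ncard ≤ 1 := Set.ncard_le_one_of_subsingleton _
    simpa using this
  | succ n ih =>
    obtain ⟨c, hc, ih⟩ := ih
    refine ⟨14 + 15 * c + 3 * (3 ^ n * 4 ^ (n + 1) * (2 * (1 + c))), by positivity, fun p k hp => ?_⟩
    have h2 : (2 : ℝ) ≤ p := by exact_mod_cast hp.two_le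
    have h0 : (0 : ℝ) < p := by linarith
    have key : ∀ e : ℕ, ∑ j ∈ Finset.range (k + 1), ((e * p ^ j) ^ (n + 1) *
        (SS n (p ^ (k - j))).ncard : ℝ) ≤
        e ^ (n + 1) * ((1 + c / p) * (1 + 2 / p)) * (p ^ k) ^ (n + 1) := by
      intro e
      calc _ ≤ ∑ j ∈ Finset.range (k + 1), e ^ (n + 1) * (1 + c / p) * ((p : ℝ) ^ k) ^ n * p ^ j := by
            refine Finset.sum_le_sum fun j hj => ?_
            obtain ⟨i, rfl⟩ := Nat.exists_eq_add_of_le (Nat.lt_succ_iff.1 (Finset.mem_range.1 hj))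
            rw [Nat.add_sub_cancel_left]
            refine (mul_le_mul_of_nonneg_left (ih p i hp) (by positivity)).trans (le_of_eq ?_)
            ring
        _ ≤ e ^ (n + 1) * (1 + c / p) * ((p : ℝ) ^ k) ^ n * ((1 + 2 / p) * p ^ k) := by
            rw [← Finset.mul_sum]
            gcongr
            exact geom_le h2 k
        _ = _ := by ring
    have hx1 : 1 / (p : ℝ) ≤ 1 := by rw [div_le_one h0]; linarith
    have hx0 : 0 < 1 / (p : ℝ) := by positivity
    rw [div_eq_mul_one_div]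
    rw [div_eq_mul_one_div c, div_eq_mul_one_div 2] at key
    by_cases h4 : 4 ≤ p
    · have a := (double_count hp one_ne_zero fun S hS =>
        many_piv hp (by omega) hS.1 hS.2.2.entry).trans (mul_le_mul_of_nonneg_left (key 1) (by positivity))
      rw [div_eq_mul_one_div 2] at a
      have hx4 : 1 / (p : ℝ) ≤ 1 / 4 := one_div_le_one_div_of_le (by norm_num) (by exact_mod_cast h4)
      generalize 1 / (p : ℝ) = x at *
      have hP : (0 : ℝ) < (p ^ k) ^ (n + 1) := by positivity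
      generalize ((p : ℝ) ^ k) ^ (n + 1) = P at *
      rw [mul_left_comm, mul_le_mul_iff_right₀ (by positivity), Nat.cast_one, one_pow, one_mul] at a
      refine le_of_mul_le_mul_right (a.trans ?_) (show 0 < 1 - 2 * x by linarith)
      rw [mul_right_comm _ P]
      refine mul_le_mul_of_nonneg_right ?_ hP.le
      have : (0 : ℝ) ≤ 3 * (3 ^ n * 4 ^ (n + 1) * (2 * (1 + c))) := by positivity
      generalize (3 : ℝ) * (3 ^ n * 4 ^ (n + 1) * (2 * (1 + c))) = K at *
      nlinarith [mul_nonneg hc hx0.le, mul_nonneg this hx0.le,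
        mul_nonneg (mul_nonneg hc hx0.le) (sub_nonneg.2 hx4),
        mul_nonneg (mul_nonneg this hx0.le) (sub_nonneg.2 hx4),
        mul_nonneg hx0.le (sub_nonneg.2 hx4)]
    · have a := (double_count (c := 4) (d := 3) (l := 1) hp (by norm_num) fun S hS => by
        obtain ⟨y, hy, h⟩ := exists_piv hp hS.1 hS.2.2.entry
        exact_mod_cast Finset.card_pos.2 ⟨y, Finset.mem_filter.2 ⟨hy, h⟩⟩).trans
        (mul_le_mul_of_nonneg_left (key 4) (by positivity))
      have hx3 : 1 / 3 ≤ 1 / (p : ℝ) :=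
        one_div_le_one_div_of_le h0 (by exact_mod_cast (by omega : p ≤ 3))
      have hx2 : 1 / (p : ℝ) ≤ 1 / 2 := one_div_le_one_div_of_le (by norm_num) h2
      generalize 1 / (p : ℝ) = x at *
      rw [mul_one, ← mul_assoc, ← mul_assoc] at a
      refine a.trans ?_
      gcongr
      push_cast
      have h5 : (1 + c * x) * (1 + 2 * x) ≤ 2 * (1 + c) := by
        rw [mul_comm]; gcongr <;> nlinarith
      have h6 : (0 : ℝ) ≤ 3 ^ n * 4 ^ (n + 1) := by positivity
      have h7 := mul_le_mul_of_nonneg_left h5 h6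
      have : (0 : ℝ) ≤ 3 ^ n * 4 ^ (n + 1) * (2 * (1 + c)) := by positivity
      nlinarith [mul_nonneg hc hx0.le]

end Pool.Agent.Lib.MP_775b3b_nt.Cnt
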