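import Mathlib

/-! The cubic algebra `k[θ]/(θ^3 + Aθ + B)` in coordinates `c0 + c1 θ + c2 θ^2`. -/

namespace Pool.Agent.Lib.MP_775b3b_nt

/-- `c0 + c1 θ + c2 θ^2` with `θ^3 + e.1 θ + e.2 = 0`. -/
@[ext] structure Cub (e : ℤ × ℤ) (k : Type*) where
  c0 : k
  c1 : k
  c2 : k

/-- `4A^3 + 27B^2`. -/
def disc (e : ℤ × ℤ) : ℤ := 4 * e.1 ^ 3 + 27 * e.2 ^ 2

namespace Cub

variable {e : ℤ × ℤ} {k k' k'' : Type*}

section Ring

variable [CommRing k]

instance : Zero (Cub e k) := ⟨⟨0, 0, 0⟩⟩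
instance : One (Cub e k) := ⟨⟨1, 0, 0⟩⟩
instance : Add (Cub e k) := ⟨fun x y => ⟨x.c0 + y.c0, x.c1 + y.c1, x.c2 + y.c2⟩⟩
instance : Neg (Cub e k) := ⟨fun x => ⟨-x.c0, -x.c1, -x.c2⟩⟩
instance : Sub (Cub e k) := ⟨fun x y => ⟨x.c0 - y.c0, x.c1 - y.c1, x.c2 - y.c2⟩⟩
instance : Mul (Cub e k) := ⟨fun x y =>
  ⟨x.c0 * y.c0 - (e.2 : k) * (x.c1 * y.c2 + x.c2 * y.c1),
   x.c0 * y.c1 + x.c1 * y.c0 - (e.1 : k) * (x.c1 * y.c2 + x.c2 * y.c1) - (e.2 : k) * (x.c2 * y.c2),
   x.c0 * y.c2 + x.c1 * y.c1 + x.c2 * y.c0 - (e.1 : k) * (x.c2 * y.c2)⟩⟩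
instance {S : Type*} [SMul S k] : SMul S (Cub e k) :=
  ⟨fun s x => ⟨s • x.c0, s • x.c1, s • x.c2⟩⟩
instance : NatCast (Cub e k) := ⟨fun n => ⟨n, 0, 0⟩⟩
instance : IntCast (Cub e k) := ⟨fun n => ⟨n, 0, 0⟩⟩

@[simp] theorem zero_c0 : (0 : Cub e k).c0 = 0 := rfl
@[simp] theorem zero_c1 : (0 : Cub e k).c1 = 0 := rfl
@[simp] theorem zero_c2 : (0 : Cub e k).c2 = 0 := rfl
@[simp] theorem one_c0 : (1 : Cub e k).c0 = 1 := rfl
@[simp] theorem one_c1 : (1 : Cub e k).c1 = 0 := rfl
@[simp] theorem one_c2 : (1 : Cub e k).c2 = 0 := rfl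
@[simp] theorem add_c0 (x y : Cub e k) : (x + y).c0 = x.c0 + y.c0 := rfl
@[simp] theorem add_c1 (x y : Cub e k) : (x + y).c1 = x.c1 + y.c1 := rfl
@[simp] theorem add_c2 (x y : Cub e k) : (x + y).c2 = x.c2 + y.c2 := rfl
@[simp] theorem neg_c0 (x : Cub e k) : (-x).c0 = -x.c0 := rfl
@[simp] theorem neg_c1 (x : Cub e k) : (-x).c1 = -x.c1 := rfl
@[simp] theorem neg_c2 (x : Cub e k) : (-x).c2 = -x.c2 := rfl
@[simp] theorem sub_c0 (x y : Cub e k) : (x - y).c0 = x.c0 - y.c0 := rfl
@[simp] theorem sub_c1 (x y : Cub e k) : (x - y).c1 = x.c1 - y.c1 := rfl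
@[simp] theorem sub_c2 (x y : Cub e k) : (x - y).c2 = x.c2 - y.c2 := rfl
@[simp] theorem mul_c0 (x y : Cub e k) :
    (x * y).c0 = x.c0 * y.c0 - (e.2 : k) * (x.c1 * y.c2 + x.c2 * y.c1) := rfl
@[simp] theorem mul_c1 (x y : Cub e k) : (x * y).c1 = x.c0 * y.c1 + x.c1 * y.c0 -
    (e.1 : k) * (x.c1 * y.c2 + x.c2 * y.c1) - (e.2 : k) * (x.c2 * y.c2) := rfl
@[simp] theorem mul_c2 (x y : Cub e k) : (x * y).c2 =
    x.c0 * y.c2 + x.c1 * y.c1 + x.c2 * y.c0 - (e.1 : k) * (x.c2 * y.c2) := rfl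
omit [CommRing k] in
@[simp] theorem smul_c0 {S : Type*} [SMul S k] (s : S) (x : Cub e k) :
    (s • x).c0 = s • x.c0 := rfl
omit [CommRing k] in
@[simp] theorem smul_c1 {S : Type*} [SMul S k] (s : S) (x : Cub e k) :
    (s • x).c1 = s • x.c1 := rfl
omit [CommRing k] in
@[simp] theorem smul_c2 {S : Type*} [SMul S k] (s : S) (x : Cub e k) :
    (s • x).c2 = s • x.c2 := rfl
@[simp] theorem natCast_c0 (n : ℕ) : (n : Cub e k).c0 = n := rfl
@[simp] theorem natCast_c1 (n : ℕ) : (n : Cub e k).c1 = 0 := rfl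
@[simp] theorem natCast_c2 (n : ℕ) : (n : Cub e k).c2 = 0 := rfl
@[simp] theorem intCast_c0 (n : ℤ) : (n : Cub e k).c0 = n := rfl
@[simp] theorem intCast_c1 (n : ℤ) : (n : Cub e k).c1 = 0 := rfl
@[simp] theorem intCast_c2 (n : ℤ) : (n : Cub e k).c2 = 0 := rfl

instance : AddCommGroup (Cub e k) where
  add_assoc x y z := by ext <;> simp [add_assoc]
  zero_add x := by ext <;> simp
  add_zero x := by ext <;> simp
  nsmul n x := n • x
  nsmul_zero x := by ext <;> simp
  nsmul_succ n x := by ext <;> simp [add_smul]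
  zsmul n x := n • x
  zsmul_zero' x := by ext <;> simp
  zsmul_succ' n x := by ext <;> simp [add_smul]
  zsmul_neg' n x := by ext <;> simp [add_smul, add_mul]
  sub_eq_add_neg x y := by ext <;> simp [sub_eq_add_neg]
  neg_add_cancel x := by ext <;> simp
  add_comm x y := by ext <;> simp [add_comm]

instance : CommRing (Cub e k) where
  left_distrib x y z := by ext <;> simp <;> ring
  right_distrib x y z := by ext <;> simp <;> ring
  zero_mul x := by ext <;> simp
  mul_zero x := by ext <;> simp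
  mul_assoc x y z := by ext <;> simp <;> ring
  one_mul x := by ext <;> simp
  mul_one x := by ext <;> simp
  mul_comm x y := by ext <;> simp <;> ring
  natCast_zero := by ext <;> simp
  natCast_succ n := by ext <;> simp
  intCast_ofNat n := by ext <;> simp
  intCast_negSucc n := by ext <;> simp

@[simp] theorem ofNat_c0 (n : ℕ) [n.AtLeastTwo] :
    (OfNat.ofNat n : Cub e k).c0 = OfNat.ofNat n := rfl
@[simp] theorem ofNat_c1 (n : ℕ) [n.AtLeastTwo] : (OfNat.ofNat n : Cub e k).c1 = 0 := rfl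
@[simp] theorem ofNat_c2 (n : ℕ) [n.AtLeastTwo] : (OfNat.ofNat n : Cub e k).c2 = 0 := rfl
@[simp] theorem two_c0 : (2 : Cub e k).c0 = 2 := rfl
@[simp] theorem two_c1 : (2 : Cub e k).c1 = 0 := rfl
@[simp] theorem two_c2 : (2 : Cub e k).c2 = 0 := rfl

instance {S : Type*} [Semiring S] [Module S k] : Module S (Cub e k) where
  one_smul x := by ext <;> simp
  mul_smul a b x := by ext <;> simp [mul_smul]
  smul_zero a := by ext <;> simp
  smul_add a x y := by ext <;> simp
  add_smul a b x := by ext <;> simp [add_smul]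
  zero_smul x := by ext <;> simp

instance {S T : Type*} [SMul S T] [SMul S k] [SMul T k] [IsScalarTower S T k] :
    IsScalarTower S T (Cub e k) where
  smul_assoc s t z := by ext <;> exact smul_assoc _ _ _

instance {R : Type*} [CommSemiring R] [Algebra R k] : Algebra R (Cub e k) where
  algebraMap :=
    { toFun := fun r => ⟨algebraMap R k r, 0, 0⟩
      map_one' := by ext <;> simp
      map_mul' := fun a b => by ext <;> simp
      map_zero' := by ext <;> simp
      map_add' := fun a b => by ext <;> simp }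
  commutes' r x := mul_comm _ _
  smul_def' r x := by
    ext <;> simp [Algebra.smul_def]

@[simp] theorem algebraMap_c0 {R : Type*} [CommSemiring R] [Algebra R k] (r : R) :
    (algebraMap R (Cub e k) r).c0 = algebraMap R k r := rfl
@[simp] theorem algebraMap_c1 {R : Type*} [CommSemiring R] [Algebra R k] (r : R) :
    (algebraMap R (Cub e k) r).c1 = 0 := rfl
@[simp] theorem algebraMap_c2 {R : Type*} [CommSemiring R] [Algebra R k] (r : R) :
    (algebraMap R (Cub e k) r).c2 = 0 := rfl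

/-- the generator `θ` -/
def th : Cub e k := ⟨0, 1, 0⟩

@[simp] theorem th_c0 : (th : Cub e k).c0 = 0 := rfl
@[simp] theorem th_c1 : (th : Cub e k).c1 = 1 := rfl
@[simp] theorem th_c2 : (th : Cub e k).c2 = 0 := rfl

theorem th_cube : (th : Cub e k) ^ 3 + (e.1 : Cub e k) * th + (e.2 : Cub e k) = 0 := by
  ext <;> simp [pow_succ]

theorem eq_coords (x : Cub e k) : x = x.c0 • (1 : Cub e k) + x.c1 • th + x.c2 • (th * th) := by
  ext <;> simp

/-- coordinates as a linear equivalence -/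
def equivFun (e : ℤ × ℤ) (k : Type*) [CommRing k] : Cub e k ≃ₗ[k] (Fin 3 → k) where
  toFun x := ![x.c0, x.c1, x.c2]
  invFun v := ⟨v 0, v 1, v 2⟩
  map_add' x y := by ext i; fin_cases i <;> simp
  map_smul' a x := by ext i; fin_cases i <;> simp
  left_inv x := by ext <;> simp
  right_inv v := by ext i; fin_cases i <;> simp

instance : Module.Finite k (Cub e k) := Module.Finite.equiv (equivFun e k).symm

instance : Module.Free k (Cub e k) := Module.Free.of_equiv (equivFun e k).symm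

theorem finrank_eq [Nontrivial k] : Module.finrank k (Cub e k) = 3 := by
  rw [(equivFun e k).finrank_eq]
  simp

/-- the adjugate: `x * adj x = nm x` -/
def adj (x : Cub e k) : Cub e k :=
  ⟨(x.c0 - (e.1 : k) * x.c2) ^ 2 + x.c1 * ((e.2 : k) * x.c2 + (e.1 : k) * x.c1),
   -(x.c0 * x.c1) - (e.2 : k) * x.c2 ^ 2, x.c1 ^ 2 - x.c0 * x.c2 + (e.1 : k) * x.c2 ^ 2⟩

/-- the norm to `k` -/
def nm (x : Cub e k) : k :=
  x.c0 * ((x.c0 - (e.1 : k) * x.c2) ^ 2 + x.c1 * ((e.2 : k) * x.c2 + (e.1 : k) * x.c1)) +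
    (e.2 : k) * x.c2 * (x.c0 * x.c1 + (e.2 : k) * x.c2 ^ 2) -
    (e.2 : k) * x.c1 * (x.c1 ^ 2 - x.c0 * x.c2 + (e.1 : k) * x.c2 ^ 2)

/-- the trace to `k` -/
def tr (x : Cub e k) : k := 3 * x.c0 - 2 * (e.1 : k) * x.c2

/-- determinant of coordinates -/
def det3 (x y z : Cub e k) : k :=
  (x.c1 * y.c2 - x.c2 * y.c1) * z.c0 + (x.c2 * y.c0 - x.c0 * y.c2) * z.c1 +
    (x.c0 * y.c1 - x.c1 * y.c0) * z.c2

/-- cross product for the pairing `(x, z) ↦ (x z).c2` -/
def cross (x y : Cub e k) : Cub e k :=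
  ⟨x.c0 * y.c1 - x.c1 * y.c0 + (e.1 : k) * (x.c1 * y.c2 - x.c2 * y.c1),
   x.c2 * y.c0 - x.c0 * y.c2, x.c1 * y.c2 - x.c2 * y.c1⟩

theorem mul_adj (x : Cub e k) : x * adj x = algebraMap k (Cub e k) (nm x) := by
  ext
  · rw [algebraMap_c0]
    simp [adj, nm]
    ring
  · rw [algebraMap_c1]
    simp [adj]
    ring
  · rw [algebraMap_c2]
    simp [adj]
    ring

theorem nm_mul (x y : Cub e k) : nm (x * y) = nm x * nm y := by
  simp only [nm, mul_c0, mul_c1, mul_c2]
  ring

@[simp] theorem nm_one : nm (1 : Cub e k) = 1 := by simp [nm]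

theorem nm_smul (a : k) (x : Cub e k) : nm (a • x) = a ^ 3 * nm x := by
  simp only [nm, smul_c0, smul_c1, smul_c2, smul_eq_mul]
  ring

theorem nm_neg (x : Cub e k) : nm (-x) = -nm x := by
  simp only [nm, neg_c0, neg_c1, neg_c2]
  ring

theorem nm_algebraMap (a : k) : nm (algebraMap k (Cub e k) a) = a ^ 3 := by
  simp [nm]
  ring

/-- the norm as a monoid homomorphism -/
def nmHom (e : ℤ × ℤ) (k : Type*) [CommRing k] : Cub e k →* k where
  toFun := nm
  map_one' := nm_one
  map_mul' := nm_mul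

theorem nm_pow (x : Cub e k) (n : ℕ) : nm (x ^ n) = nm x ^ n := map_pow (nmHom e k) x n

theorem nm_units_mul_inv (x : (Cub e k)ˣ) : nm (x : Cub e k) * nm ((x⁻¹ : (Cub e k)ˣ) : Cub e k) = 1 := by
  rw [← nm_mul, Units.mul_inv, nm_one]

theorem nm_x_sub_th (x : k) :
    nm (algebraMap k (Cub e k) x - th) = x ^ 3 + (e.1 : k) * x + (e.2 : k) := by
  simp [nm]
  ring

theorem cross_mul_c2 (x y z : Cub e k) : (cross x y * z).c2 = det3 x y z := by
  simp [cross, det3]
  ring

theorem mul_cross_mul (u x y : Cub e k) : u * cross (u * x) (u * y) = nm u • cross x y := by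
  ext <;> simp [cross, nm] <;> ring

theorem det3_mul (u x y z : Cub e k) : det3 (u * x) (u * y) (u * z) = nm u * det3 x y z := by
  simp [det3, nm]
  ring

theorem adj_cross_sq (d x y : Cub e k) : (adj d * cross x y * cross x y).c2 =
    (d * x * y).c2 ^ 2 - (d * x * x).c2 * (d * y * y).c2 := by
  simp [adj, cross]
  ring

theorem cramer (x y z w : Cub e k) :
    det3 x y z • w = det3 w y z • x + det3 x w z • y + det3 x y w • z := by
  ext <;> simp [det3] <;> ring

theorem det3_self_left (x z : Cub e k) : det3 x z x = 0 := by simp [det3]; ring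

theorem det3_self_right (x z : Cub e k) : det3 x z z = 0 := by simp [det3]; ring

theorem det3_rot (x y z : Cub e k) : det3 x y z = det3 y z x := by simp [det3]; ring

theorem cross_smul_left (a : k) (x y : Cub e k) : cross (a • x) y = a • cross x y := by
  ext <;> simp [cross] <;> ring

theorem cross_smul_right (a : k) (x y : Cub e k) : cross x (a • y) = a • cross x y := by
  ext <;> simp [cross] <;> ring

theorem cross_add_left (x x' y : Cub e k) : cross (x + x') y = cross x y + cross x' y := by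
  ext <;> simp [cross] <;> ring

theorem cross_add_right (x y y' : Cub e k) : cross x (y + y') = cross x y + cross x y' := by
  ext <;> simp [cross] <;> ring

theorem cross_self (x : Cub e k) : cross x x = 0 := by
  ext <;> simp [cross] <;> ring

theorem cross_anti (x y : Cub e k) : cross x y = -cross y x := by
  ext <;> simp [cross] <;> ring

/-- discriminant of three elements -/
theorem det_tr (x y z : Cub e k) :
    Matrix.det !![tr (x * x), tr (x * y), tr (x * z); tr (y * x), tr (y * y), tr (y * z);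
      tr (z * x), tr (z * y), tr (z * z)] = -(det3 x y z ^ 2 * (disc e : k)) := by
  simp [Matrix.det_fin_three, tr, det3, disc]
  ring

theorem c1_eq (x : Cub e k) : x.c1 = (x * th).c2 := by simp

theorem c0_eq (x : Cub e k) : x.c0 = (x * (th * th)).c2 + (e.1 : k) * x.c2 := by simp

theorem eq_zero_of_c2 {x : Cub e k} (h : ∀ z, (x * z).c2 = 0) : x = 0 := by
  have h2 : x.c2 = 0 := by simpa using h 1
  have h1 : x.c1 = 0 := by rw [c1_eq, h]
  have h0 : x.c0 = 0 := by rw [c0_eq, h, h2]; simp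
  ext <;> simp [h0, h1, h2]

/-- evaluation at a root -/
def ev (r : k) (hr : r ^ 3 + (e.1 : k) * r + (e.2 : k) = 0) : Cub e k →+* k where
  toFun x := x.c0 + x.c1 * r + x.c2 * r ^ 2
  map_one' := by simp
  map_mul' x y := by
    simp only [mul_c0, mul_c1, mul_c2]
    linear_combination (-(x.c1 * y.c2 + x.c2 * y.c1) - x.c2 * y.c2 * r) * hr
  map_zero' := by simp
  map_add' x y := by
    simp only [add_c0, add_c1, add_c2]
    ring

theorem ev_apply (r : k) (hr : r ^ 3 + (e.1 : k) * r + (e.2 : k) = 0) (x : Cub e k) :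
    ev r hr x = x.c0 + x.c1 * r + x.c2 * r ^ 2 := rfl

variable [CommRing k'] [CommRing k'']

/-- base change along a ring homomorphism -/
def map (f : k →+* k') : Cub e k →+* Cub e k' where
  toFun x := ⟨f x.c0, f x.c1, f x.c2⟩
  map_one' := by ext <;> simp
  map_mul' x y := by ext <;> simp
  map_zero' := by ext <;> simp
  map_add' x y := by ext <;> simp

@[simp] theorem map_c0 (f : k →+* k') (x : Cub e k) : (map f x).c0 = f x.c0 := rfl
@[simp] theorem map_c1 (f : k →+* k') (x : Cub e k) : (map f x).c1 = f x.c1 := rfl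
@[simp] theorem map_c2 (f : k →+* k') (x : Cub e k) : (map f x).c2 = f x.c2 := rfl

@[simp] theorem map_th (f : k →+* k') : map f (th : Cub e k) = th := by ext <;> simp

theorem map_map (f : k →+* k') (g : k' →+* k'') (x : Cub e k) :
    map g (map f x) = map (g.comp f) x := rfl

theorem map_smul' (f : k →+* k') (a : k) (x : Cub e k) : map f (a • x) = f a • map f x := by
  ext <;> simp

theorem map_algebraMap (f : k →+* k') (a : k) :
    map f (algebraMap k (Cub e k) a) = algebraMap k' (Cub e k') (f a) := by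
  ext <;> simp

theorem map_injective {f : k →+* k'} (hf : Function.Injective f) :
    Function.Injective (map f : Cub e k → Cub e k') := fun x y h => by
  ext
  · exact hf (congrArg Cub.c0 h)
  · exact hf (congrArg Cub.c1 h)
  · exact hf (congrArg Cub.c2 h)

theorem nm_map (f : k →+* k') (x : Cub e k) : nm (map f x) = f (nm x) := by simp [nm]

theorem adj_map (f : k →+* k') (x : Cub e k) : adj (map f x) = map f (adj x) := by
  ext <;> simp [adj]

theorem tr_map (f : k →+* k') (x : Cub e k) : tr (map f x) = f (tr x) := by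
  simp [tr, map_ofNat]

theorem cross_map (f : k →+* k') (x y : Cub e k) :
    cross (map f x) (map f y) = map f (cross x y) := by
  ext <;> simp [cross]

end Ring

/-- `r` lists the three roots of the cubic -/
def Roots (e : ℤ × ℤ) {k : Type*} [CommRing k] (r : Fin 3 → k) : Prop :=
  r 0 + r 1 + r 2 = 0 ∧ r 0 * r 1 + r 0 * r 2 + r 1 * r 2 = (e.1 : k) ∧
    r 0 * r 1 * r 2 = -(e.2 : k)

section Roots

variable [CommRing k] {r : Fin 3 → k}

theorem Roots.root (h : Roots e r) (i : Fin 3) :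
    r i ^ 3 + (e.1 : k) * r i + (e.2 : k) = 0 := by
  obtain ⟨h1, h2, h3⟩ := h
  fin_cases i
  · show r 0 ^ 3 + (e.1 : k) * r 0 + (e.2 : k) = 0
    linear_combination (r 0 ^ 2) * h1 - r 0 * h2 + h3
  · show r 1 ^ 3 + (e.1 : k) * r 1 + (e.2 : k) = 0
    linear_combination (r 1 ^ 2) * h1 - r 1 * h2 + h3
  · show r 2 ^ 3 + (e.1 : k) * r 2 + (e.2 : k) = 0
    linear_combination (r 2 ^ 2) * h1 - r 2 * h2 + h3

theorem Roots.subst (h : Roots e r) : r 2 = -r 0 - r 1 ∧
    (e.1 : k) = -(r 0 ^ 2 + r 0 * r 1 + r 1 ^ 2) ∧ (e.2 : k) = r 0 * r 1 * (r 0 + r 1) := by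
  obtain ⟨h1, h2, h3⟩ := h
  refine ⟨by linear_combination h1, by linear_combination (r 0 + r 1) * h1 - h2,
    by linear_combination h3 - (r 0 * r 1) * h1⟩

theorem Roots.disc_eq (h : Roots e r) :
    ((r 0 - r 1) * (r 0 - r 2) * (r 1 - r 2)) ^ 2 = -(disc e : k) := by
  obtain ⟨h1, h2, h3⟩ := h.subst
  simp only [disc, Int.cast_add, Int.cast_mul, Int.cast_pow, Int.cast_ofNat]
  rw [h1, h2, h3]
  ring

theorem Roots.nm_eq (h : Roots e r) (x : Cub e k) :
    nm x = ev (r 0) (h.root 0) x * ev (r 1) (h.root 1) x * ev (r 2) (h.root 2) x := by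
  obtain ⟨h1, h2, h3⟩ := h.subst
  simp only [ev_apply, nm]
  rw [h1, h2, h3]
  ring

theorem Roots.tr_eq (h : Roots e r) (x : Cub e k) :
    tr x = ev (r 0) (h.root 0) x + ev (r 1) (h.root 1) x + ev (r 2) (h.root 2) x := by
  obtain ⟨h1, h2, h3⟩ := h.subst
  simp only [ev_apply, tr]
  rw [h1, h2]
  ring

/-- Lagrange interpolation for the top coordinate -/
theorem Roots.c2_eq (h : Roots e r) (x : Cub e k) :
    (r 0 - r 1) * (r 0 - r 2) * (r 1 - r 2) * x.c2 =
      (r 1 - r 2) * ev (r 0) (h.root 0) x - (r 0 - r 2) * ev (r 1) (h.root 1) x +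
        (r 0 - r 1) * ev (r 2) (h.root 2) x := by
  simp only [ev_apply]
  ring

end Roots

section Field

variable [Field k]

theorem isUnit_iff {x : Cub e k} : IsUnit x ↔ nm x ≠ 0 := by
  constructor
  · rintro ⟨u, rfl⟩ h
    have := nm_units_mul_inv u
    rw [h, zero_mul] at this
    exact zero_ne_one this
  · intro h
    refine IsUnit.of_mul_eq_one ((nm x)⁻¹ • adj x) ?_
    rw [mul_smul_comm, mul_adj, Algebra.algebraMap_eq_smul_one, smul_smul, inv_mul_cancel₀ h,
      one_smul]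

theorem nm_ne_zero (x : (Cub e k)ˣ) : nm (x : Cub e k) ≠ 0 := isUnit_iff.1 x.isUnit

theorem exists_roots (e : ℤ × ℤ) (k : Type*) [Field k] [IsAlgClosed k] :
    ∃ r : Fin 3 → k, Roots e r := by
  let P : Cubic k := ⟨1, 0, e.1, e.2⟩
  have ha : P.a ≠ 0 := one_ne_zero
  obtain ⟨x, y, z, h3⟩ := (Cubic.splits_iff_roots_eq_three (φ := RingHom.id k) ha).mp
    (IsAlgClosed.splits _)
  have hb := Cubic.b_eq_three_roots ha h3
  have hc := Cubic.c_eq_three_roots ha h3
  have hd := Cubic.d_eq_three_roots ha h3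
  simp only [P, RingHom.id_apply, one_mul] at hb hc hd
  refine ⟨![x, y, z], ?_, ?_, ?_⟩
  · show x + y + z = 0
    linear_combination hb
  · show x * y + x * z + y * z = (e.1 : k)
    linear_combination -hc
  · show x * y * z = -(e.2 : k)
    linear_combination hd

variable [CharZero k] {r : Fin 3 → k}

theorem Roots.vand_ne_zero (h : Roots e r) (hd : disc e ≠ 0) :
    (r 0 - r 1) * (r 0 - r 2) * (r 1 - r 2) ≠ 0 := fun h0 => by
  have h1 := h.disc_eq
  rw [h0] at h1
  apply hd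
  have h2 : (disc e : k) = 0 := by linear_combination h1
  exact_mod_cast h2

theorem Roots.eq_zero (h : Roots e r) (hd : disc e ≠ 0) {x : Cub e k}
    (hx : ∀ i, ev (r i) (h.root i) x = 0) : x = 0 := by
  refine eq_zero_of_c2 fun z => ?_
  have h1 := h.c2_eq (x * z)
  simp only [map_mul, hx, zero_mul, mul_zero, sub_zero, add_zero] at h1
  exact (mul_eq_zero.1 h1).resolve_left (h.vand_ne_zero hd)

theorem Roots.ext (h : Roots e r) (hd : disc e ≠ 0) {x y : Cub e k}
    (hx : ∀ i, ev (r i) (h.root i) x = ev (r i) (h.root i) y) : x = y :=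
  sub_eq_zero.1 (h.eq_zero hd fun i => by rw [map_sub, hx, sub_self])

/-- interpolation: prescribed values at the three roots -/
theorem Roots.exists_ev (h : Roots e r) (hd : disc e ≠ 0) (s : Fin 3 → k) :
    ∃ x : Cub e k, ∀ i, ev (r i) (h.root i) x = s i := by
  have hv := h.vand_ne_zero hd
  have h01 : r 0 - r 1 ≠ 0 := fun h0 => hv (by rw [h0]; ring)
  have h02 : r 0 - r 2 ≠ 0 := fun h0 => hv (by rw [h0]; ring)
  have h12 : r 1 - r 2 ≠ 0 := fun h0 => hv (by rw [h0]; ring)
  let a := s 0 / ((r 0 - r 1) * (r 0 - r 2))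
  let b := -s 1 / ((r 0 - r 1) * (r 1 - r 2))
  let c := s 2 / ((r 0 - r 2) * (r 1 - r 2))
  refine ⟨⟨a * (r 1 * r 2) + b * (r 0 * r 2) + c * (r 0 * r 1),
    -(a * (r 1 + r 2) + b * (r 0 + r 2) + c * (r 0 + r 1)), a + b + c⟩, fun i => ?_⟩
  fin_cases i
  · show _ + _ * r 0 + _ * r 0 ^ 2 = s 0
    simp only [a, b, c]
    field_simp
    ring
  · show _ + _ * r 1 + _ * r 1 ^ 2 = s 1
    simp only [a, b, c]
    field_simp
    ring
  · show _ + _ * r 2 + _ * r 2 ^ 2 = s 2
    simp only [a, b, c]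
    field_simp
    ring

theorem isReduced (hd : disc e ≠ 0) : IsReduced (Cub e k) := by
  obtain ⟨r, h⟩ := exists_roots e (AlgebraicClosure k)
  refine ⟨fun x hx => ?_⟩
  apply map_injective (algebraMap k (AlgebraicClosure k)).injective
  rw [map_zero]
  exact h.eq_zero hd fun i => ((hx.map _).map _).eq_zero

end Field

end Cub

end Pool.Agent.Lib.MP_775b3b_nt
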