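import Pool.Agent.Lib.MP_775b3b_nt.Cub
import Pool.Agent.Lib.MP_439fea_co.Val

/-! Definitions for the bounded average rank theorem. -/

namespace Pool.Agent.Lib.MP_775b3b_nt

open Cub

/-- `H` has finite index at most `n` in `K` -/
def Bd {G : Type*} [Group G] (H K : Subgroup G) (n : ℕ) : Prop :=
  H.relIndex K ≠ 0 ∧ H.relIndex K ≤ n

section Local

variable {R : Type*} [CommRing R]

/-- elements integral over the localisation of `ℤ` at `p` -/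
def intP (p : Nat.Primes) (R : Type*) [CommRing R] : Subring R where
  carrier := {x | ∃ n : ℕ, ¬ (p : ℕ) ∣ n ∧ IsIntegral ℤ ((n : R) * x)}
  one_mem' := ⟨1, p.2.not_dvd_one, by simpa using isIntegral_one⟩
  zero_mem' := ⟨1, p.2.not_dvd_one, by simpa using isIntegral_zero⟩
  mul_mem' := by
    rintro x y ⟨n, hn, hx⟩ ⟨m, hm, hy⟩
    refine ⟨n * m, fun h => (p.2.dvd_mul.1 h).elim hn hm, ?_⟩
    have := hx.mul hy
    rwa [show (n : R) * x * (m * y) = ((n * m : ℕ) : R) * (x * y) by push_cast; ring] at this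
  add_mem' := by
    rintro x y ⟨n, hn, hx⟩ ⟨m, hm, hy⟩
    refine ⟨n * m, fun h => (p.2.dvd_mul.1 h).elim hn hm, ?_⟩
    have h1 : IsIntegral ℤ (m : R) := by
      simpa using isIntegral_algebraMap (R := ℤ) (A := R) (x := (m : ℤ))
    have h2 : IsIntegral ℤ (n : R) := by
      simpa using isIntegral_algebraMap (R := ℤ) (A := R) (x := (n : ℤ))
    have := (h1.mul hx).add (h2.mul hy)
    rwa [show (m : R) * (n * x) + n * (m * y) = ((n * m : ℕ) : R) * (x + y) by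
      push_cast; ring] at this
  neg_mem' := by
    rintro x ⟨n, hn, hx⟩
    exact ⟨n, hn, by simpa using hx.neg⟩

theorem mem_intP {p : Nat.Primes} {x : R} :
    x ∈ intP p R ↔ ∃ n : ℕ, ¬ (p : ℕ) ∣ n ∧ IsIntegral ℤ ((n : R) * x) := Iff.rfl

/-- elements with coordinates in `S` -/
def cubOf (e : ℤ × ℤ) (S : Subring R) : Subring (Cub e R) where
  carrier := {x | x.c0 ∈ S ∧ x.c1 ∈ S ∧ x.c2 ∈ S}
  one_mem' := ⟨S.one_mem, S.zero_mem, S.zero_mem⟩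
  zero_mem' := ⟨S.zero_mem, S.zero_mem, S.zero_mem⟩
  mul_mem' := by
    rintro x y ⟨a0, a1, a2⟩ ⟨b0, b1, b2⟩
    have hA := intCast_mem S e.1
    have hB := intCast_mem S e.2
    refine ⟨?_, ?_, ?_⟩
    · exact S.sub_mem (S.mul_mem a0 b0) (S.mul_mem hB (S.add_mem (S.mul_mem a1 b2) (S.mul_mem a2 b1)))
    · exact S.sub_mem (S.sub_mem (S.add_mem (S.mul_mem a0 b1) (S.mul_mem a1 b0))
        (S.mul_mem hA (S.add_mem (S.mul_mem a1 b2) (S.mul_mem a2 b1))))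
        (S.mul_mem hB (S.mul_mem a2 b2))
    · exact S.sub_mem (S.add_mem (S.add_mem (S.mul_mem a0 b2) (S.mul_mem a1 b1)) (S.mul_mem a2 b0))
        (S.mul_mem hA (S.mul_mem a2 b2))
  add_mem' := by
    rintro x y ⟨a0, a1, a2⟩ ⟨b0, b1, b2⟩
    exact ⟨S.add_mem a0 b0, S.add_mem a1 b1, S.add_mem a2 b2⟩
  neg_mem' := by
    rintro x ⟨a0, a1, a2⟩
    exact ⟨S.neg_mem a0, S.neg_mem a1, S.neg_mem a2⟩

theorem mem_cubOf {e : ℤ × ℤ} {S : Subring R} {x : Cub e R} :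
    x ∈ cubOf e S ↔ x.c0 ∈ S ∧ x.c1 ∈ S ∧ x.c2 ∈ S := Iff.rfl

/-- the order `O[θ]` localised at `p` -/
def Ord (p : Nat.Primes) (e : ℤ × ℤ) (R : Type*) [CommRing R] : Subring (Cub e R) :=
  cubOf e (intP p R)

theorem mem_Ord {p : Nat.Primes} {e : ℤ × ℤ} {x : Cub e R} :
    x ∈ Ord p e R ↔ x.c0 ∈ intP p R ∧ x.c1 ∈ intP p R ∧ x.c2 ∈ intP p R := Iff.rfl

/-- unit of `S` times a square -/
def usq (S : Subring R) : Subgroup Rˣ where
  carrier := {d | ∃ z : Rˣ, ((d * z ^ 2 : Rˣ) : R) ∈ S ∧ (((d * z ^ 2)⁻¹ : Rˣ) : R) ∈ S}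
  one_mem' := ⟨1, by simp, by simp⟩
  mul_mem' := by
    rintro a b ⟨z, h1, h2⟩ ⟨w, h3, h4⟩
    have h : a * b * (z * w) ^ 2 = a * z ^ 2 * (b * w ^ 2) := by
      rw [mul_pow, mul_mul_mul_comm]
    refine ⟨z * w, ?_, ?_⟩
    · rw [h, Units.val_mul]
      exact S.mul_mem h1 h3
    · rw [h, mul_inv, Units.val_mul]
      exact S.mul_mem h2 h4
  inv_mem' := by
    rintro a ⟨z, h1, h2⟩
    have h : a⁻¹ * z⁻¹ ^ 2 = (a * z ^ 2)⁻¹ := by rw [mul_inv, inv_pow]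
    exact ⟨z⁻¹, by rwa [h], by rwa [h, inv_inv]⟩

theorem mem_usq {S : Subring R} {d : Rˣ} : d ∈ usq S ↔
    ∃ z : Rˣ, ((d * z ^ 2 : Rˣ) : R) ∈ S ∧ (((d * z ^ 2)⁻¹ : Rˣ) : R) ∈ S := Iff.rfl

/-- a square to arbitrary `p`-adic precision (relative to `S`) -/
def stq (p : Nat.Primes) (S : Subring R) : Subgroup Rˣ where
  carrier := {d | ∀ n : ℕ, ∃ z : Rˣ, ∃ y ∈ S, ∃ y' ∈ S,
    ((d * z ^ 2 : Rˣ) : R) = 1 + ((p : ℕ) : R) ^ n * y ∧
      (((d * z ^ 2)⁻¹ : Rˣ) : R) = 1 + ((p : ℕ) : R) ^ n * y'}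
  one_mem' := fun n => ⟨1, 0, S.zero_mem, 0, S.zero_mem, by simp, by simp⟩
  mul_mem' := by
    intro a b ha hb n
    obtain ⟨z, y, hy, y', hy', h1, h2⟩ := ha n
    obtain ⟨w, u, hu, u', hu', h3, h4⟩ := hb n
    have h : a * b * (z * w) ^ 2 = a * z ^ 2 * (b * w ^ 2) := by
      rw [mul_pow, mul_mul_mul_comm]
    have hp := S.pow_mem (natCast_mem S (p : ℕ)) n
    refine ⟨z * w, y + u + ((p : ℕ) : R) ^ n * (y * u),
      S.add_mem (S.add_mem hy hu) (S.mul_mem hp (S.mul_mem hy hu)),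
      y' + u' + ((p : ℕ) : R) ^ n * (y' * u'),
      S.add_mem (S.add_mem hy' hu') (S.mul_mem hp (S.mul_mem hy' hu')), ?_, ?_⟩
    · rw [h, Units.val_mul, h1, h3]
      ring
    · rw [h, mul_inv, Units.val_mul, h2, h4]
      ring
  inv_mem' := by
    intro a ha n
    obtain ⟨z, y, hy, y', hy', h1, h2⟩ := ha n
    have h : a⁻¹ * z⁻¹ ^ 2 = (a * z ^ 2)⁻¹ := by rw [mul_inv, inv_pow]
    exact ⟨z⁻¹, y', hy', y, hy, by rwa [h], by rwa [h, inv_inv]⟩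

theorem mem_stq {p : Nat.Primes} {S : Subring R} {d : Rˣ} : d ∈ stq p S ↔
    ∀ n : ℕ, ∃ z : Rˣ, ∃ y ∈ S, ∃ y' ∈ S,
      ((d * z ^ 2 : Rˣ) : R) = 1 + ((p : ℕ) : R) ^ n * y ∧
        (((d * z ^ 2)⁻¹ : Rˣ) : R) = 1 + ((p : ℕ) : R) ^ n * y' := Iff.rfl

end Local

section Groups

/-- squares -/
abbrev SQ (e : ℤ × ℤ) (k : Type*) [CommRing k] : Subgroup (Cub e k)ˣ := Subgroup.square (Cub e k)ˣ

variable {e : ℤ × ℤ} {k : Type*} [Field k]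

/-- positive at every real point -/
def pos (e : ℤ × ℤ) (k : Type*) [Field k] : Subgroup (Cub e k)ˣ where
  carrier := {d | ∀ (ρ : k →+* ℝ) (r : ℝ) (hr : r ^ 3 + (e.1 : ℝ) * r + (e.2 : ℝ) = 0),
    0 < ev r hr (map ρ (d : Cub e k))}
  one_mem' := fun ρ r hr => by simp
  mul_mem' := by
    intro a b ha hb ρ r hr
    rw [Units.val_mul, map_mul, map_mul]
    exact mul_pos (ha ρ r hr) (hb ρ r hr)
  inv_mem' := by
    intro a ha ρ r hr
    have h : ev r hr (map ρ (a : Cub e k)) * ev r hr (map ρ ((a⁻¹ : (Cub e k)ˣ) : Cub e k)) = 1 := by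
      rw [← map_mul, ← map_mul, Units.mul_inv, map_one, map_one]
    have h1 := ha ρ r hr
    by_contra hb
    nlinarith [not_lt.1 hb]

theorem mem_pos {d : (Cub e k)ˣ} : d ∈ pos e k ↔
    ∀ (ρ : k →+* ℝ) (r : ℝ) (hr : r ^ 3 + (e.1 : ℝ) * r + (e.2 : ℝ) = 0),
      0 < ev r hr (map ρ (d : Cub e k)) := Iff.rfl

/-- square norm -/
def nsq (e : ℤ × ℤ) (k : Type*) [Field k] : Subgroup (Cub e k)ˣ where
  carrier := {d | ∃ ν : k, nm (d : Cub e k) = ν ^ 2}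
  one_mem' := ⟨1, by simp⟩
  mul_mem' := by
    rintro a b ⟨x, hx⟩ ⟨y, hy⟩
    exact ⟨x * y, by rw [Units.val_mul, nm_mul, hx, hy, mul_pow]⟩
  inv_mem' := by
    rintro a ⟨x, hx⟩
    refine ⟨x⁻¹, ?_⟩
    rw [inv_pow, ← hx]
    exact eq_inv_of_mul_eq_one_right (nm_units_mul_inv a)

theorem mem_nsq {d : (Cub e k)ˣ} : d ∈ nsq e k ↔ ∃ ν : k, nm (d : Cub e k) = ν ^ 2 := Iff.rfl

/-- bad primes -/
def Bad (N : ℕ) (e : ℤ × ℤ) (p : Nat.Primes) : Prop :=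
  (p : ℕ) ∣ N ∨ (((p : ℕ) : ℤ)) ^ 2 ∣ disc e

/-- classes unramified outside the bad primes -/
def Sel (N : ℕ) (e : ℤ × ℤ) (k : Type*) [Field k] : Subgroup (Cub e k)ˣ :=
  nsq e k ⊓ ⨅ (p : Nat.Primes) (_ : ¬ Bad N e p), usq (intP p (Cub e k))

/-- classes that are moreover trivial at the bad primes and at infinity -/
def Sel1 (N : ℕ) (e : ℤ × ℤ) (k : Type*) [Field k] : Subgroup (Cub e k)ˣ :=
  Sel N e k ⊓ (pos e k ⊓ ⨅ (p : Nat.Primes) (_ : Bad N e p), stq p (intP p (Cub e k)))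

theorem mem_Sel {N : ℕ} {d : (Cub e k)ˣ} : d ∈ Sel N e k ↔
    d ∈ nsq e k ∧ ∀ p, ¬ Bad N e p → d ∈ usq (intP p (Cub e k)) := by
  simp [Sel, Subgroup.mem_iInf]

theorem mem_Sel1 {N : ℕ} {d : (Cub e k)ˣ} : d ∈ Sel1 N e k ↔
    d ∈ Sel N e k ∧ d ∈ pos e k ∧ ∀ p, Bad N e p → d ∈ stq p (intP p (Cub e k)) := by
  simp [Sel1, Subgroup.mem_iInf]

end Groups

open MP_439fea_co in
/-- primes not dividing `N` are unramified in `k` -/
def Unr (k : Type*) [Field k] [NumberField k] (N : ℕ) : Prop :=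
  ∀ (v : P k) (p : Nat.Primes), ¬ (p : ℕ) ∣ N → val v ((p : ℕ) : k) < 1 →
    val v ((p : ℕ) : k) = WithZero.exp (-1 : ℤ)

/-- number of primes whose square divides the discriminant -/
def om2 (e : ℤ × ℤ) : ℕ :=
  ((disc e).natAbs.primeFactors.filter (fun p : ℕ => (p : ℤ) ^ 2 ∣ disc e)).card

/-- nonsingular pairs with `|A| ≤ T^2`, `|B| ≤ T^3` -/
noncomputable def box (T : ℕ) : Finset (ℤ × ℤ) :=
  (Finset.Icc (-(T : ℤ) ^ 2) ((T : ℤ) ^ 2) ×ˢ Finset.Icc (-(T : ℤ) ^ 3) ((T : ℤ) ^ 3)).filter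
    (fun e => disc e ≠ 0)

theorem mem_box {T : ℕ} {e : ℤ × ℤ} :
    e ∈ box T ↔ |e.1| ≤ (T : ℤ) ^ 2 ∧ |e.2| ≤ (T : ℤ) ^ 3 ∧ disc e ≠ 0 := by
  simp [box, abs_le, and_assoc]

section Forms

variable {e : ℤ × ℤ} {k : Type*} [Field k]

/-- the ternary form of `d` -/
def Bf (d x y : Cub e k) : k := (d * x * y).c2

/-- the second form of the pencil -/
def Gv (d x y : Cub e k) : k := (d * th * x * y).c2

/-- an oriented hyperbolic basis for `Bf d` -/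
structure Hyp (d : Cub e k) (ν : k) (v0 v1 v2 : Cub e k) : Prop where
  nu : nm d = ν ^ 2
  nu0 : ν ≠ 0
  h00 : Bf d v0 v0 = 0
  h22 : Bf d v2 v2 = 0
  h02 : Bf d v0 v2 = 1
  h1 : d * v1 = ν • cross v2 v0

/-- translated second vector -/
def tr1 (u : k) (v0 v1 : Cub e k) : Cub e k := v1 + u • v0

/-- translated third vector -/
def tr2 (u : k) (v0 v1 v2 : Cub e k) : Cub e k := v2 - u • v1 - (u ^ 2 / 2) • v0

/-- parametrisation of the conic -/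
def Vq (v0 v1 v2 : Cub e k) (x y : k) : Cub e k :=
  x ^ 2 • v0 + (2 * x * y) • v1 - (2 * y ^ 2) • v2

/-- the binary quartic form -/
def quart (d v0 v1 v2 : Cub e k) (x y : k) : k := Gv d (Vq v0 v1 v2 x y) (Vq v0 v1 v2 x y)

/-- five points of the plane -/
def pt5 : Fin 5 → ℤ × ℤ := ![(1, 0), (0, 1), (1, 1), (1, -1), (1, 2)]

/-- local data: `d * z p ^ 2` is a unit of the order at `p` -/
def Loc (d : (Cub e k)ˣ) (z : Nat.Primes → (Cub e k)ˣ) : Prop :=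
  (Set.range z).Finite ∧ ∀ p, ((d * z p ^ 2 : (Cub e k)ˣ) : Cub e k) ∈ Ord p e k ∧
    (((d * z p ^ 2)⁻¹ : (Cub e k)ˣ) : Cub e k) ∈ Ord p e k

/-- membership in the lattice glued from the `z p * Ord p` -/
def InLat (z : Nat.Primes → (Cub e k)ˣ) (x : Cub e k) : Prop :=
  ∀ p, (((z p)⁻¹ : (Cub e k)ˣ) : Cub e k) * x ∈ Ord p e k

/-- compatible square roots at the complex embeddings -/
def Eps (d : Cub e k) (ν : k) (ε : (k →+* ℂ) → Cub e ℂ) : Prop :=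
  ∀ σ, ε σ ^ 2 = map σ d ∧ nm (ε σ) = σ ν ∧
    ε (NumberField.ComplexEmbedding.conjugate σ) = map (starRingEnd ℂ) (ε σ)

/-- coordinates in the basis `T, θ, (θ^2 + A/2)/T` -/
noncomputable def wc (T : ℝ) (x : Cub e ℂ) : Fin 3 → ℂ :=
  ![(x.c0 - (e.1 : ℂ) / 2 * x.c2) / T, x.c1, T * x.c2]

/-- the image of `x` at the embedding `σ` in standard coordinates -/
noncomputable def im (T : ℝ) (ε : (k →+* ℂ) → Cub e ℂ) (σ : k →+* ℂ) (x : Cub e k) : Fin 3 → ℂ :=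
  wc T (ε σ * map σ x)

/-- a reduced hyperbolic basis of level `j` -/
structure Red (N : ℕ) (C T : ℝ) (d : Cub e k) (ν : k) (z : Nat.Primes → (Cub e k)ˣ)
    (ε : (k →+* ℂ) → Cub e ℂ) (j : ℕ) (v0 v1 v2 : Cub e k) : Prop where
  hyp : Hyp d ν v0 v1 v2
  l0 : InLat z ((N : k) • v0)
  l1 : InLat z ((N : k) • v1)
  l2 : InLat z ((N : k) • v2)
  s0 : ∀ σ, ‖im T ε σ v0‖ ≤ C / 4 ^ j
  s1 : ∀ σ, ‖im T ε σ v1‖ ≤ C
  s2 : ∀ σ, ‖im T ε σ v2‖ ≤ C * 4 ^ j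

end Forms

section Std

/-- the standard split form -/
def sB (w w' : Fin 3 → ℂ) : ℂ := w 0 * w' 2 + w 1 * w' 1 + w 2 * w' 0

/-- the standard cross product -/
def sCross (w w' : Fin 3 → ℂ) : Fin 3 → ℂ :=
  ![w 0 * w' 1 - w 1 * w' 0, w 2 * w' 0 - w 0 * w' 2, w 1 * w' 2 - w 2 * w' 1]

/-- the second form in standard coordinates, `a = A/T^2`, `b = B/T^3` -/
noncomputable def sG (a b T : ℂ) (w w' : Fin 3 → ℂ) : ℂ :=
  T * (w 0 * w' 1 + w 1 * w' 0 - a / 2 * (w 1 * w' 2 + w 2 * w' 1) - b * (w 2 * w' 2))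

/-- the trilinear form in standard coordinates -/
noncomputable def sTri (a b T : ℂ) (x y z : Fin 3 → ℂ) : ℂ :=
  T * (x 0 * y 0 * z 2 + x 0 * y 2 * z 0 + x 2 * y 0 * z 0 +
    (x 0 * y 1 * z 1 + x 1 * y 0 * z 1 + x 1 * y 1 * z 0) -
    a / 2 * (x 1 * y 1 * z 2 + x 1 * y 2 * z 1 + x 2 * y 1 * z 1) -
    b * (x 1 * y 2 * z 2 + x 2 * y 1 * z 2 + x 2 * y 2 * z 1) + a ^ 2 / 4 * (x 2 * y 2 * z 2))

/-- standard oriented hyperbolic triple -/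
def SHyp (w0 w1 w2 : Fin 3 → ℂ) : Prop :=
  sB w0 w0 = 0 ∧ sB w2 w2 = 0 ∧ sB w0 w2 = 1 ∧ w1 = sCross w2 w0

/-- the standard conic -/
def uvec (x y : ℂ) : Fin 3 → ℂ := ![x ^ 2, 2 * x * y, -2 * y ^ 2]

end Std

/-- a cubic field with its three embeddings in a Galois number field inside `ℂ` -/
structure Setup (K Kt : Type*) [Field K] [NumberField K] [Field Kt] [NumberField Kt] where
  s : Fin 3 → (K →+* Kt)
  i : Kt →+* ℂ
  bij : Function.Bijective (fun j => i.comp (s j))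
  gal : IsGalois ℚ Kt

section LG

/-- `g` times every minor of `S` is an integer -/
def IntS (g : ℤ) (S : Matrix (Fin 4) (Fin 4) ℚ) : Prop :=
  ∀ P Q : Matrix (Fin 4) (Fin 4) ℤ, ∃ n : ℤ,
    (g : ℚ) * (P.map (Int.cast : ℤ → ℚ) + Q.map (Int.cast : ℤ → ℚ) * S).det = n

/-- every minor of `S` is bounded by `μ` -/
def BdS (μ : ℝ) (S : Matrix (Fin 4) (Fin 4) ℝ) : Prop :=
  ∀ P Q : Matrix (Fin 4) (Fin 4) ℝ, (∀ i j, |P i j| ≤ 1) → (∀ i j, |Q i j| ≤ 1) →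
    |(P + Q * S).det| ≤ μ

/-- integral points of the cone over the Lagrangian Grassmannian in a skew box -/
structure LGHyp (d : Fin 4 → ℝ) (M : ℝ) (g : ℤ) (S : Matrix (Fin 4) (Fin 4) ℚ) : Prop where
  ne : g ≠ 0
  symm : S.IsSymm
  int : IntS g S
  bd : BdS (M / |(g : ℝ)|) (Matrix.of fun i j => (S i j : ℝ) / (d i * d j))

/-- classes modulo integral matrices -/
def cset (g : ℤ) : Set (Matrix (Fin 4) (Fin 4) ℚ) :=
  {S | S.IsSymm ∧ (∀ i j, 0 ≤ S i j ∧ S i j < 1) ∧ IntS g S}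

/-- the weights of the chart at level `j` -/
noncomputable def dvec (j : ℕ) : Fin 4 → ℝ := ![8 ^ j, (2 ^ j)⁻¹, 2 ^ j, 2 ^ j]

end LG

end Pool.Agent.Lib.MP_775b3b_nt
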