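import Pool.Agent.Lib.MP_775b3b_nt.Defs

/-! The rings `intP p R`. -/

namespace Pool.Agent.Lib.MP_775b3b_nt

open MP_439fea_co

section Ring

variable {R R' : Type*} [CommRing R] [CommRing R'] {p : Nat.Primes}

theorem mem_intP_of_isIntegral {x : R} (hx : IsIntegral ℤ x) : x ∈ intP p R :=
  ⟨1, p.2.not_dvd_one, by simpa using hx⟩

theorem map_mem_intP (f : R →+* R') {x : R} (hx : x ∈ intP p R) : f x ∈ intP p R' := by
  obtain ⟨n, hn, h⟩ := hx
  exact ⟨n, hn, by simpa using map_isIntegral_int f h⟩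

theorem mem_intP_of_map {f : R →+* R'} (hf : Function.Injective f) {x : R}
    (hx : f x ∈ intP p R') : x ∈ intP p R := by
  obtain ⟨n, hn, h⟩ := hx
  refine ⟨n, hn, (isIntegral_algHom_iff f.toIntAlgHom hf).1 ?_⟩
  simpa using h

theorem intp_intCast (n : ℤ) : IsIntegral ℤ (n : R) := by
  simpa using isIntegral_algebraMap (R := ℤ) (A := R) (x := n)

theorem intp_natCast (n : ℕ) : IsIntegral ℤ (n : R) := by
  simpa using intp_intCast (R := R) n

/-- `(n x)^2 = n (n x^2)`, `IsIntegral.of_pow` -/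
theorem mem_intP_of_sq {x : R} (hx : x ^ 2 ∈ intP p R) : x ∈ intP p R := by
  obtain ⟨n, hn, h⟩ := hx
  refine ⟨n, hn, IsIntegral.of_pow two_pos ?_⟩
  rw [show ((n : R) * x) ^ 2 = n * (n * x ^ 2) by ring]
  exact (intp_natCast n).mul h

/-- the `n` with `n x` integral form an ideal of `ℤ` contained in no `(p)` -/
theorem isIntegral_of_forall_intP {x : R} (hx : ∀ p, x ∈ intP p R) : IsIntegral ℤ x := by
  let I : Ideal ℤ :=
    { carrier := {n | IsIntegral ℤ ((n : R) * x)}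
      add_mem' := fun {a b} ha hb => by
        have := IsIntegral.add ha hb
        simpa [add_mul] using this
      zero_mem' := by simpa using isIntegral_zero
      smul_mem' := fun c a ha => by
        have := (intp_intCast (R := R) c).mul ha
        simpa [mul_assoc] using this }
  have hI : ∀ n : ℤ, n ∈ I ↔ IsIntegral ℤ ((n : R) * x) := fun n => Iff.rfl
  obtain ⟨g, hg⟩ := (IsPrincipalIdealRing.principal I).principal
  have h1 : g.natAbs = 1 := by
    by_contra hne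
    obtain ⟨q, hq, hqg⟩ := Nat.exists_prime_and_dvd hne
    obtain ⟨n, hn, h⟩ := hx ⟨q, hq⟩
    have h2 : (n : ℤ) ∈ I := (hI _).2 (by simpa using h)
    rw [hg, Ideal.submodule_span_eq, Ideal.mem_span_singleton] at h2
    exact hn (hqg.trans (by simpa using Int.natAbs_dvd_natAbs.2 h2))
  have h3 : (1 : ℤ) ∈ I := by
    rw [hg, Ideal.submodule_span_eq, Ideal.mem_span_singleton]
    exact isUnit_iff_dvd_one.1 (Int.isUnit_iff_natAbs_eq.2 h1)
  simpa using (hI 1).1 h3

theorem intp_mul_inv [Algebra ℚ R] {n : ℕ} (hn : ¬ (p : ℕ) ∣ n) :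
    (n : R) * algebraMap ℚ R ((n : ℚ)⁻¹) = 1 := by
  have h0 : (n : ℚ) ≠ 0 := Nat.cast_ne_zero.2 fun h => hn (h ▸ dvd_zero _)
  rw [← map_natCast (algebraMap ℚ R), ← map_mul, mul_inv_cancel₀ h0, map_one]

theorem inv_natCast_mem_intP [Algebra ℚ R] {n : ℕ} (hn : ¬ (p : ℕ) ∣ n) :
    algebraMap ℚ R ((n : ℚ)⁻¹) ∈ intP p R := by
  refine ⟨n, hn, ?_⟩
  rw [intp_mul_inv hn]
  exact isIntegral_one

theorem intp_natCast_not_mem [Algebra ℚ R] (m : Ideal (intP p R)) [hm : m.IsMaximal] {n : ℕ}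
    (hn : ¬ (p : ℕ) ∣ n) : (n : intP p R) ∉ m := by
  intro h
  refine hm.ne_top (m.eq_top_of_isUnit_mem h (IsUnit.of_mul_eq_one
    ⟨_, inv_natCast_mem_intP hn⟩ (Subtype.ext ?_)))
  simpa using intp_mul_inv (R := R) hn

/-- Otherwise `1 = a p + m` with `m` in the ideal.  With `n a` integral, root of a monic `Q` of
degree `d`, and `m' = n m = n - p (n a)`: the integer `n' = p ^ d Q (n / p) = n ^ d + p (...)`
(`Polynomial.scaleRoots`) is congruent to `p ^ d Q (n a) = 0` modulo the ideal, and it is a unit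
by `inv_natCast_mem_intP`. -/
theorem natCast_mem_of_isMaximal [Algebra ℚ R] (m : Ideal (intP p R)) [m.IsMaximal] :
    ((p : ℕ) : intP p R) ∈ m := by
  by_contra hp
  have hpr : m.IsPrime := inferInstance
  have hnm : ∀ n : ℕ, n ≠ 0 → (n : intP p R) ∉ m := by
    intro n hn hmem
    obtain ⟨k, n', hn', rfl⟩ := Nat.exists_eq_pow_mul_and_not_dvd hn p p.2.ne_one
    rw [Nat.cast_mul, Nat.cast_pow] at hmem
    rcases hpr.mem_or_mem hmem with h | h
    · exact hp (hpr.mem_of_pow_mem _ h)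
    · exact intp_natCast_not_mem m hn' h
  letI : Field (intP p R ⧸ m) := Ideal.Quotient.field m
  have hcz : CharZero (intP p R ⧸ m) := by
    refine charZero_of_inj_zero fun n hn => ?_
    by_contra h0
    refine hnm n h0 (Ideal.Quotient.eq_zero_iff_mem.1 ?_)
    rw [map_natCast, hn]
  obtain ⟨a, ha⟩ := Ideal.Quotient.mk_surjective (((p : ℕ) : intP p R ⧸ m)⁻¹)
  obtain ⟨n, hn, h⟩ := a.2
  have h1 : IsIntegral ℤ ((n : intP p R) * a) :=
    (isIntegral_algHom_iff (intP p R).subtype.toIntAlgHom Subtype.val_injective).1 (by simpa using h)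
  have h2 := map_isIntegral_int (Ideal.Quotient.mk m) h1
  rw [map_mul, map_natCast, ha] at h2
  have h3 : IsIntegral ℤ ((n : ℚ) * ((p : ℕ) : ℚ)⁻¹) :=
    (isIntegral_algHom_iff (Rat.castHom (intP p R ⧸ m)).toIntAlgHom
      (Rat.castHom (intP p R ⧸ m)).injective).1 (by simpa using h2)
  obtain ⟨y, hy⟩ := IsIntegrallyClosed.isIntegral_iff.1 h3
  have hp0 : ((p : ℕ) : ℚ) ≠ 0 := Nat.cast_ne_zero.2 p.2.ne_zero
  have h4 : (n : ℤ) = (p : ℕ) * y := by
    have : (n : ℚ) = (p : ℕ) * (y : ℚ) := by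
      rw [show (y : ℚ) = n * ((p : ℕ) : ℚ)⁻¹ by simpa using hy]
      field_simp
    exact_mod_cast this
  exact hn (Int.natCast_dvd_natCast.1 ⟨y, h4⟩)

/-- `x' = n x` is integral, `Algebra.adjoin ℤ {x'}` is a finite `ℤ`-module, so modulo `p` two
powers `x' ^ i`, `x' ^ j`, `i < j`, agree; take `c = x' ^ (j - i)`. -/
theorem exists_sep [Algebra ℚ R] (x : intP p R) : ∃ c : intP p R,
    ∀ m : Ideal (intP p R), m.IsMaximal → (x ∈ m → c ∈ m) ∧ (x ∉ m → 1 - c ∈ m) := by
  obtain ⟨n, hn, h⟩ := x.2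
  have h1 : IsIntegral ℤ ((n : intP p R) * x) :=
    (isIntegral_algHom_iff (intP p R).subtype.toIntAlgHom Subtype.val_injective).1 (by simpa using h)
  set x' : intP p R := (n : intP p R) * x with hx'
  set I : Ideal (intP p R) := Ideal.span {((p : ℕ) : intP p R)} with hI
  have h2 := map_isIntegral_int (Ideal.Quotient.mk I) h1
  set t := Ideal.Quotient.mk I x' with ht
  have hfg : Module.Finite ℤ (Algebra.adjoin ℤ {t}) :=
    Module.Finite.iff_fg.2 h2.fg_adjoin_singleton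
  have hp0 : ((p : ℕ) : intP p R ⧸ I) = 0 := by
    rw [← map_natCast (Ideal.Quotient.mk I)]
    exact Ideal.Quotient.eq_zero_iff_mem.2 (Ideal.mem_span_singleton_self _)
  have hfin : Finite (Algebra.adjoin ℤ {t}) := by
    refine Module.finite_of_fg_torsion _ fun y => ?_
    refine ⟨⟨((p : ℕ) : ℤ), mem_nonZeroDivisors_of_ne_zero (Nat.cast_ne_zero.2 p.2.ne_zero)⟩, ?_⟩
    refine Subtype.ext ?_
    simp [Submonoid.smul_def, hp0]
  have key : ∃ i j : ℕ, i < j ∧ t ^ i = t ^ j := by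
    obtain ⟨i, j, hij, he⟩ := Finite.exists_ne_map_eq_of_infinite fun i : ℕ =>
      (⟨t, Algebra.self_mem_adjoin_singleton ℤ t⟩ : Algebra.adjoin ℤ {t}) ^ i
    have he' : t ^ i = t ^ j := by simpa using congrArg Subtype.val he
    rcases lt_or_gt_of_ne hij with h | h
    · exact ⟨i, j, h, he'⟩
    · exact ⟨j, i, h, he'.symm⟩
  obtain ⟨i, j, hij, he⟩ := key
  obtain ⟨k, rfl⟩ := Nat.exists_eq_add_of_lt hij
  refine ⟨x' ^ (k + 1), fun m hm => ⟨fun hx => ?_, fun hx => ?_⟩⟩
  · exact m.pow_mem_of_mem (m.mul_mem_left _ hx) _ k.succ_pos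
  · have hIm : I ≤ m := (Ideal.span_singleton_le_iff_mem _).2 (natCast_mem_of_isMaximal m)
    have h3 : x' ^ i * (1 - x' ^ (k + 1)) ∈ I := by
      refine Ideal.Quotient.eq_zero_iff_mem.1 ?_
      rw [map_mul, map_sub, map_pow, map_pow, map_one, ← ht, mul_sub, mul_one, ← pow_add,
        ← add_assoc, ← he, sub_self]
    rcases hm.isPrime.mem_or_mem (hIm h3) with h4 | h4
    · rcases hm.isPrime.mem_or_mem (hm.isPrime.mem_of_pow_mem _ h4) with h5 | h5
      · exact absurd h5 (intp_natCast_not_mem m hn)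
      · exact absurd h5 hx
    · exact h4

/-- an element in no maximal ideal is a unit (`exists_max_ideal_of_mem_nonunits`) -/
theorem exists_inv_of_forall {S : Subring R} (x : S) (h : ∀ m : Ideal S, m.IsMaximal → x ∉ m) :
    ∃ y ∈ S, (x : R) * y = 1 := by
  have hu : IsUnit x := by
    by_contra hx
    obtain ⟨m, hm, hxm⟩ := exists_max_ideal_of_mem_nonunits (mem_nonunits_iff.2 hx)
    exact h m hm hxm
  obtain ⟨y, hy⟩ := hu.exists_right_inv
  exact ⟨y, y.2, by simpa using congrArg Subtype.val hy⟩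

end Ring

end Pool.Agent.Lib.MP_775b3b_nt
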