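import Pool.Agent.Lib.MP_775b3b_nt.Idx
import Pool.Agent.Lib.MP_775b3b_nt.IntP

/-! Descent of `Sel / SQ` along a tower of quadratic extensions. -/

namespace Pool.Agent.Lib.MP_775b3b_nt

open Cub

/-- `d z^2 = u` a unit of `S = intP p R`; `w = σ z / z` has `w σ(w) = 1`, `w^2 = σ u / u`, so
`w, w⁻¹ ∈ S` (`mem_intP_of_sq`).  `n₁ = 2 + w + σ w`, `c` = a `σ`-fixed separating element for
`n₁` (replace the `c` of `exists_sep` by `c σ(c)`: `σ` permutes the maximal ideals of `S` and fixes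
`n₁`), `t = c (1 + w) + (1 - c) β (1 - w)`.  Then `σ(t) w = t`, so `z t` is fixed, and `t` lies in
no maximal ideal: `(1 + w)(1 + σ w) = n₁`, `β (1 - w) σ(β (1 - w)) = - β^2 (4 - n₁)`. -/
theorem usq_descend {R : Type*} [CommRing R] [Algebra ℚ R] {p : Nat.Primes} (hp : (p : ℕ) ≠ 2)
    (σ : R →+* R) (hσ : ∀ x, σ (σ x) = x) {β β' : R} (hβ : σ β = -β) (hb : β ∈ intP p R)
    (hb' : β' ∈ intP p R) (hbb : β * β' = 1) {d : Rˣ} (hd : σ d = d) (h : d ∈ usq (intP p R)) :
    ∃ z : Rˣ, σ z = z ∧ ((d * z ^ 2 : Rˣ) : R) ∈ intP p R ∧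
      (((d * z ^ 2)⁻¹ : Rˣ) : R) ∈ intP p R := by
  obtain ⟨z, hu, hu'⟩ := mem_usq.1 h
  have hz : (z : R) * (z⁻¹ : Rˣ) = 1 := Units.mul_inv z
  have hσz : σ z * σ (z⁻¹ : Rˣ) = 1 := by rw [← map_mul, hz, map_one]
  have hdd : (d : R) * (d⁻¹ : Rˣ) = 1 := Units.mul_inv d
  have hσd : σ (d⁻¹ : Rˣ) = (d⁻¹ : Rˣ) := by
    have h1 : (d : R) * σ (d⁻¹ : Rˣ) = 1 := by rw [← hd, ← map_mul, hdd, map_one]
    linear_combination ((d⁻¹ : Rˣ) : R) * h1 - σ (d⁻¹ : Rˣ) * hdd
  have eu : ((d * z ^ 2 : Rˣ) : R) = d * (z : R) ^ 2 := by simp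
  have eu' : (((d * z ^ 2)⁻¹ : Rˣ) : R) = (d⁻¹ : Rˣ) * ((z⁻¹ : Rˣ) : R) ^ 2 := by
    rw [mul_inv, Units.val_mul, ← inv_pow, Units.val_pow_eq_pow_val]
  rw [eu] at hu
  rw [eu'] at hu'
  have hw : σ z * (z⁻¹ : Rˣ) ∈ intP p R := by
    refine mem_intP_of_sq ?_
    have h1 := (intP p R).mul_mem (map_mem_intP σ hu) hu'
    rw [map_mul, map_pow, hd] at h1
    convert h1 using 1
    linear_combination (-(σ z * (z⁻¹ : Rˣ)) ^ 2) * hdd
  let τ : intP p R →+* intP p R := σ.restrict _ _ fun x hx => map_mem_intP σ hx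
  have hτ : ∀ x, τ (τ x) = x := fun x => Subtype.ext (hσ x)
  have hτs : Function.Surjective τ := fun x => ⟨τ x, hτ x⟩
  have hτi : Function.Injective τ := fun x y hxy => by rw [← hτ x, hxy, hτ]
  let w : intP p R := ⟨_, hw⟩
  let b : intP p R := ⟨β, hb⟩
  let b' : intP p R := ⟨β', hb'⟩
  have hww : w * τ w = 1 := by
    refine Subtype.ext ?_
    show σ z * (z⁻¹ : Rˣ) * σ (σ z * (z⁻¹ : Rˣ)) = 1
    rw [map_mul, hσ]
    linear_combination (σ z * σ (z⁻¹ : Rˣ)) * hz + hσz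
  have hτb : τ b = -b := Subtype.ext hβ
  have hbb' : b * b' = 1 := Subtype.ext hbb
  have hn : τ (2 + w + τ w) = 2 + w + τ w := by
    rw [map_add, map_add, hτ, map_ofNat]
    ring
  obtain ⟨c₀, hc₀⟩ := exists_sep (2 + w + τ w)
  have hc : ∀ m : Ideal (intP p R), m.IsMaximal →
      (2 + w + τ w ∈ m → c₀ * τ c₀ ∈ m) ∧ (2 + w + τ w ∉ m → 1 - c₀ * τ c₀ ∈ m) := by
    intro m hm
    refine ⟨fun h1 => m.mul_mem_right _ ((hc₀ m hm).1 h1), fun h1 => ?_⟩
    have hm' : (m.comap τ).IsMaximal := Ideal.comap_isMaximal_of_surjective τ hτs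
    have h2 := (hc₀ _ hm').2 (by rwa [Ideal.mem_comap, hn])
    rw [Ideal.mem_comap, map_sub, map_one] at h2
    have h3 := m.add_mem ((hc₀ m hm).2 h1) (m.mul_mem_left c₀ h2)
    convert h3 using 1
    ring
  have hcc : τ (c₀ * τ c₀) = c₀ * τ c₀ := by rw [map_mul, hτ, mul_comm]
  generalize c₀ * τ c₀ = c at hc hcc
  have h4 : ¬ (p : ℕ) ∣ 4 := fun h4 => hp
    ((Nat.prime_dvd_prime_iff_eq p.2 Nat.prime_two).1
      (p.2.dvd_of_dvd_pow (show (p : ℕ) ∣ 2 ^ 2 from h4)))
  let q : intP p R := ⟨_, inv_natCast_mem_intP (R := R) h4⟩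
  have hq : q * 4 = 1 := by
    refine Subtype.ext ?_
    show algebraMap ℚ R ((4 : ℕ) : ℚ)⁻¹ * 4 = 1
    rw [← map_ofNat (algebraMap ℚ R) 4, ← map_mul]
    norm_num
  have ht : ∀ m : Ideal (intP p R), m.IsMaximal → c * (1 + w) + (1 - c) * b * (1 - w) ∉ m := by
    intro m hm ht
    by_cases h1 : 2 + w + τ w ∈ m
    · have h2 := (hc m hm).1 h1
      have h3 := m.mul_mem_left (b' * (1 - τ w)) (m.sub_mem ht (m.mul_mem_right (1 + w) h2))
      have h5 := m.mul_mem_left q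
        (m.add_mem (m.add_mem h3 h1) (m.mul_mem_right (4 - (2 + w + τ w)) h2))
      refine hm.ne_top ((Ideal.eq_top_iff_one m).2 ?_)
      convert h5 using 1
      linear_combination (-1 : intP p R) * hq - q * (1 - c) * (1 - w) * (1 - τ w) * hbb' -
        q * (1 - c) * hww
    · have h2 := (hc m hm).2 h1
      have h3 := m.mul_mem_left (1 + τ w) (m.add_mem
        (m.sub_mem ht (m.mul_mem_right (b * (1 - w)) h2)) (m.mul_mem_right (1 + w) h2))
      refine h1 ?_
      convert h3 using 1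
      linear_combination (-1 : intP p R) * hww
  have htw : τ (c * (1 + w) + (1 - c) * b * (1 - w)) * w = c * (1 + w) + (1 - c) * b * (1 - w) := by
    simp only [map_add, map_mul, map_sub, map_one, hcc, hτb]
    linear_combination (c + (1 - c) * b) * hww
  generalize c * (1 + w) + (1 - c) * b * (1 - w) = t at ht htw
  obtain ⟨y, hy, hty⟩ := exists_inv_of_forall t ht
  have htw' : σ t * (σ z * (z⁻¹ : Rˣ)) = t := congrArg Subtype.val htw
  let T : Rˣ := ⟨t, y, hty, (mul_comm _ _).trans hty⟩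
  refine ⟨z * T, ?_, ?_, ?_⟩
  · show σ (z * t) = z * t
    rw [map_mul]
    linear_combination (z : R) * htw' - σ z * σ t * hz
  · have h1 := (intP p R).mul_mem hu ((intP p R).pow_mem t.2 2)
    convert h1 using 1
    rw [Units.val_mul, Units.val_pow_eq_pow_val, Units.val_mul, mul_pow, mul_assoc]
  · have h1 := (intP p R).mul_mem hu' ((intP p R).pow_mem hy 2)
    convert h1 using 1
    rw [mul_inv, Units.val_mul, ← inv_pow, Units.val_pow_eq_pow_val, mul_inv, Units.val_mul,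
      mul_pow, mul_assoc]
    rfl

variable {e : ℤ × ℤ}

/-- values `± 1` at the three roots in the algebraic closure (`Roots.ext`) -/
theorem card_mu2 {k : Type*} [Field k] [CharZero k] (hd : disc e ≠ 0) :
    Finite {m : (Cub e k)ˣ // m ^ 2 = 1} ∧ Nat.card {m : (Cub e k)ˣ // m ^ 2 = 1} ≤ 8 := by
  classical
  obtain ⟨r, hr⟩ := exists_roots e (AlgebraicClosure k)
  let φ : Fin 3 → (Cub e k →+* AlgebraicClosure k) := fun i =>
    (ev (r i) (hr.root i)).comp (map (algebraMap k (AlgebraicClosure k)))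
  let f : {m : (Cub e k)ˣ // m ^ 2 = 1} → Fin 3 → Bool := fun m i => decide (φ i m.1 = 1)
  have hv : ∀ (m : {m : (Cub e k)ˣ // m ^ 2 = 1}) i, φ i m.1 = 1 ∨ φ i m.1 = -1 := fun m i => by
    refine mul_self_eq_one_iff.1 ?_
    rw [← sq, ← map_pow, ← Units.val_pow_eq_pow_val, m.2, Units.val_one, map_one]
  have hf : Function.Injective f := fun m m' hm => by
    refine Subtype.ext (Units.ext (map_injective (algebraMap k (AlgebraicClosure k)).injective
      (hr.ext hd fun i => ?_)))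
    have h1 : φ i m.1 = 1 ↔ φ i m'.1 = 1 := decide_eq_decide.1 (congrFun hm i)
    show φ i m.1 = φ i m'.1
    rcases hv m i with h2 | h2
    · rw [h2, h1.1 h2]
    · rcases hv m' i with h3 | h3
      · rw [h3, h1.2 h3]
      · rw [h2, h3]
  refine ⟨Finite.of_injective f hf, (Nat.card_le_card_of_injective f hf).trans ?_⟩
  simp

/-- `t = (1 + z) + r β (1 - z)` with `r ∈ ℚ` avoiding at most three values (at each root in the
algebraic closure this is a nonzero linear function of `r`); `isUnit_iff`, `Roots.nm_eq` -/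
theorem h90 {k : Type*} [Field k] [CharZero k] (σ : k →+* k) (hσ : ∀ x, σ (σ x) = x) {β : k}
    (hβ0 : β ≠ 0) (hβ : σ β = -β) {z : Cub e k} (hz : z * map σ z = 1) :
    ∃ t : (Cub e k)ˣ, (t : Cub e k) = z * map σ t := by
  obtain ⟨r, hr⟩ := exists_roots e (AlgebraicClosure k)
  let φ : Fin 3 → (Cub e k →+* AlgebraicClosure k) := fun i =>
    (ev (r i) (hr.root i)).comp (map (algebraMap k (AlgebraicClosure k)))
  have hb : ∀ i, φ i (algebraMap k (Cub e k) β) ≠ 0 := fun i =>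
    (((IsUnit.mk0 β hβ0).map (algebraMap k (Cub e k))).map (φ i)).ne_zero
  have hfin : ∀ i, {n : ℕ | φ i ((1 + z) + n * algebraMap k (Cub e k) β * (1 - z)) = 0}.Finite := by
    intro i
    refine Set.Subsingleton.finite fun n hn m hm => ?_
    simp only [Set.mem_ofPred_eq, map_add, map_mul, map_sub, map_one, map_natCast] at hn hm
    have h1 : 1 - φ i z ≠ 0 := fun h0 => by
      rw [h0, mul_zero, add_zero] at hn
      exact two_ne_zero (α := AlgebraicClosure k) (by linear_combination hn + h0)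
    have h2 : ((n : AlgebraicClosure k) - m) * (φ i (algebraMap k (Cub e k) β) * (1 - φ i z)) = 0 := by
      linear_combination hn - hm
    exact Nat.cast_injective (R := AlgebraicClosure k)
      (sub_eq_zero.1 ((mul_eq_zero.1 h2).resolve_right (mul_ne_zero (hb i) h1)))
  obtain ⟨n, hn⟩ := (Set.finite_iUnion hfin).exists_notMem
  simp only [Set.mem_iUnion, Set.mem_ofPred_eq, not_exists] at hn
  have hu : IsUnit ((1 + z) + n * algebraMap k (Cub e k) β * (1 - z)) := by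
    refine isUnit_iff.2 fun h0 => ?_
    have h1 := hr.nm_eq (map (algebraMap k (AlgebraicClosure k))
      ((1 + z) + n * algebraMap k (Cub e k) β * (1 - z)))
    rw [nm_map, h0, map_zero] at h1
    exact mul_ne_zero (mul_ne_zero (hn 0) (hn 1)) (hn 2) h1.symm
  refine ⟨hu.unit, ?_⟩
  rw [hu.unit_spec]
  simp only [map_add, map_mul, map_sub, map_one, map_natCast, map_algebraMap, hβ, map_neg]
  linear_combination (-1 - n * algebraMap k (Cub e k) β) * hz

end Pool.Agent.Lib.MP_775b3b_nt
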