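import Pool.Agent.Lib.MP_775b3b_nt.Om2

/-! An exponential moment of `om2`. -/

namespace Pool.Agent.Lib.MP_775b3b_nt

theorem om3_cong (S : Finset ℤ) (L m : ℕ) (hm : 0 < m) (hS : ∀ x ∈ S, |x| ≤ (L : ℤ))
    (h : ∀ x ∈ S, ∀ y ∈ S, (m : ℤ) ∣ x - y) : (S.card : ℝ) ≤ 2 * L / m + 1 := by
  have hm' : (0 : ℤ) < m := by exact_mod_cast hm
  have h1 : S.card ≤ (Finset.range (2 * L / m + 1)).card := by
    refine Finset.card_le_card_of_injOn (fun x => (x + L).toNat / m) ?_ ?_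
    · intro x hx
      have := abs_le.1 (hS x hx)
      simp only [Finset.coe_range, Set.mem_Iio]
      exact Nat.lt_succ_of_le (Nat.div_le_div_right (by omega))
    · intro x hx y hy hxy
      have hx' := abs_le.1 (hS x hx)
      have hy' := abs_le.1 (hS y hy)
      obtain ⟨a, ha⟩ : ∃ a : ℕ, x + L = a := ⟨(x + L).toNat, by omega⟩
      obtain ⟨b, hb⟩ : ∃ b : ℕ, y + L = b := ⟨(y + L).toNat, by omega⟩
      simp only [ha, hb, Int.toNat_natCast] at hxy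
      have h2 : (m : ℤ) ∣ (a : ℤ) - b := by
        have := h x hx y hy
        rwa [show x - y = (a : ℤ) - b by omega] at this
      have h3 : b % m = a % m := (Nat.modEq_iff_dvd).2 h2
      have h4 := Nat.div_add_mod a m
      have h5 := Nat.div_add_mod b m
      rw [hxy, ← h3, h5] at h4
      omega
  rw [Finset.card_range] at h1
  have h2 : ((2 * L / m : ℕ) : ℝ) ≤ 2 * L / m := by
    have := Nat.cast_div_le (α := ℝ) (m := 2 * L) (n := m)
    push_cast at this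
    exact this
  have h3 : (S.card : ℝ) ≤ ((2 * L / m : ℕ) : ℝ) + 1 := by exact_mod_cast h1
  linarith

theorem om3_prime {A B B₀ : ℤ} {p : ℕ} (hp : p.Prime) (h6 : p.Coprime 6) (hA : ¬ (p : ℤ) ∣ A)
    (hB : (p : ℤ) ^ 2 ∣ disc (A, B)) (hB₀ : (p : ℤ) ^ 2 ∣ disc (A, B₀)) :
    (p : ℤ) ^ 2 ∣ B - B₀ ∨ (p : ℤ) ^ 2 ∣ B + B₀ := by
  have hp' : Prime (p : ℤ) := Nat.prime_iff_prime_int.1 hp
  have h2 : ¬ (p : ℤ) ∣ 2 := fun h => by
    have h' : p ∣ 6 := (Int.natCast_dvd_natCast.1 h).trans (by norm_num)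
    exact (hp.coprime_iff_not_dvd.1 h6) h'
  have h3 : ¬ (p : ℤ) ∣ 3 := fun h => by
    have h' : p ∣ 6 := (Int.natCast_dvd_natCast.1 h).trans (by norm_num)
    exact (hp.coprime_iff_not_dvd.1 h6) h'
  have h4 : (p : ℤ) ^ 2 ∣ 3 ^ 3 * ((B - B₀) * (B + B₀)) := by
    have := dvd_sub hB hB₀
    simp only [disc] at this
    exact this.trans (dvd_of_eq (by ring))
  have h5 : (p : ℤ) ^ 2 ∣ (B - B₀) * (B + B₀) :=
    hp'.pow_dvd_of_dvd_mul_left 2 (fun h => h3 (hp'.dvd_of_dvd_pow h)) h4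
  by_cases h6 : (p : ℤ) ∣ B + B₀
  · by_cases h7 : (p : ℤ) ∣ B - B₀
    · exfalso
      have h8 : (p : ℤ) ∣ 2 * B₀ := by
        have := dvd_sub h6 h7
        exact this.trans (dvd_of_eq (by ring))
      have h9 : (p : ℤ) ∣ B₀ := (hp'.dvd_or_dvd h8).resolve_left h2
      have h10 : (p : ℤ) ∣ disc (A, B₀) := (dvd_pow_self _ two_ne_zero).trans hB₀
      have h11 : (p : ℤ) ∣ 2 ^ 2 * A ^ 3 := by
        have := dvd_sub h10 (Dvd.dvd.mul_left h9 (27 * B₀))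
        simp only [disc] at this
        exact this.trans (dvd_of_eq (by ring))
      rcases hp'.dvd_or_dvd h11 with h | h
      · exact h2 (hp'.dvd_of_dvd_pow h)
      · exact hA (hp'.dvd_of_dvd_pow h)
    · exact Or.inr (hp'.pow_dvd_of_dvd_mul_left 2 h7 h5)
  · exact Or.inl (hp'.pow_dvd_of_dvd_mul_right 2 h6 h5)

theorem om3_sq_dvd {P : Finset ℕ} (hP : ∀ p ∈ P, p.Prime) {x : ℤ}
    (h : ∀ p ∈ P, (p : ℤ) ^ 2 ∣ x) : ((∏ p ∈ P, p : ℕ) : ℤ) ^ 2 ∣ x := by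
  push_cast
  rw [← Finset.prod_pow]
  refine Finset.prod_dvd_of_coprime (fun p hp q hq hpq => ?_) h
  exact (Nat.isCoprime_iff_coprime.2 ((Nat.coprime_primes (hP p hp) (hP q hq)).2 hpq)).pow

/-- `d` squarefree, prime to `6 A`: the solutions `B` of `d^2 ∣ 4 A^3 + 27 B^2` lie in at most
`2 ^ ω(d)` classes modulo `d^2` (for each prime `p ∣ d`, `p ∤ B`, and two solutions satisfy
`p^2 ∣ B - B'` or `p^2 ∣ B + B'`; fix one solution `B₀` and send `B` to the set of primes `p ∣ d`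
with `p^2 ∣ B - B₀`; equal sets give `d^2 ∣ B - B'`). -/
theorem om3_card_sol (A : ℤ) (d : ℕ) (hd : Squarefree d) (h6 : d.Coprime 6)
    (hA : IsCoprime (d : ℤ) A) (L : ℕ) :
    (((Finset.Icc (-(L : ℤ)) L).filter (fun B : ℤ => (d : ℤ) ^ 2 ∣ disc (A, B))).card : ℝ) ≤
      2 ^ d.primeFactors.card * (2 * L / (d : ℝ) ^ 2 + 1) := by
  set S := (Finset.Icc (-(L : ℤ)) L).filter (fun B : ℤ => (d : ℤ) ^ 2 ∣ disc (A, B)) with hS
  rcases S.eq_empty_or_nonempty with he | ⟨B₀, hB₀⟩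
  · rw [he, Finset.card_empty, Nat.cast_zero]
    positivity
  have hd0 : 0 < d := Nat.pos_of_ne_zero hd.ne_zero
  let φ : ℤ → Finset ℕ := fun B => d.primeFactors.filter (fun p : ℕ => (p : ℤ) ^ 2 ∣ B - B₀)
  have hmap : ∀ B ∈ S, φ B ∈ d.primeFactors.powerset := fun B _ =>
    Finset.mem_powerset.2 (Finset.filter_subset _ _)
  have key : ∀ B ∈ S, ∀ p ∈ d.primeFactors,
      (p : ℤ) ^ 2 ∣ B - B₀ ∨ (p : ℤ) ^ 2 ∣ B + B₀ := by
    intro B hB p hp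
    have hpp := Nat.prime_of_mem_primeFactors hp
    have hpd := Nat.dvd_of_mem_primeFactors hp
    have hpd' : (p : ℤ) ∣ d := Int.natCast_dvd_natCast.2 hpd
    refine om3_prime hpp (Nat.Coprime.coprime_dvd_left hpd h6) (fun h => ?_)
      ((pow_dvd_pow_of_dvd hpd' 2).trans (Finset.mem_filter.1 hB).2)
      ((pow_dvd_pow_of_dvd hpd' 2).trans (Finset.mem_filter.1 hB₀).2)
    exact (Nat.prime_iff_prime_int.1 hpp).not_isUnit (hA.isUnit_of_dvd' hpd' h)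
  have hfib : ∀ D ∈ d.primeFactors.powerset,
      ((S.filter (fun B => φ B = D)).card : ℝ) ≤ 2 * L / (d : ℝ) ^ 2 + 1 := by
    intro D _
    have := om3_cong (S.filter (fun B => φ B = D)) L (d ^ 2) (by positivity) ?_ ?_
    · push_cast at this
      exact this
    · intro x hx
      exact abs_le.2 (Finset.mem_Icc.1 (Finset.mem_filter.1 (Finset.mem_filter.1 hx).1).1)
    · intro x hx y hy
      obtain ⟨hxS, hxD⟩ := Finset.mem_filter.1 hx
      obtain ⟨hyS, hyD⟩ := Finset.mem_filter.1 hy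
      have h1 := om3_sq_dvd (P := d.primeFactors) (x := x - y)
        (fun p hp => Nat.prime_of_mem_primeFactors hp) ?_
      · rw [Nat.prod_primeFactors_of_squarefree hd] at h1
        push_cast
        exact h1
      · intro p hp
        have hiff : (p : ℤ) ^ 2 ∣ x - B₀ ↔ (p : ℤ) ^ 2 ∣ y - B₀ := by
          have h2 : p ∈ φ x ↔ p ∈ φ y := by rw [hxD, hyD]
          simpa only [φ, Finset.mem_filter, hp, true_and] using h2
        by_cases hc : (p : ℤ) ^ 2 ∣ x - B₀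
        · have := dvd_sub hc (hiff.1 hc)
          exact this.trans (dvd_of_eq (by ring))
        · have := dvd_sub ((key x hxS p hp).resolve_left hc)
            ((key y hyS p hp).resolve_left (fun h => hc (hiff.2 h)))
          exact this.trans (dvd_of_eq (by ring))
  rw [Finset.card_eq_sum_card_fiberwise hmap]
  push_cast
  refine (Finset.sum_le_sum hfib).trans (le_of_eq ?_)
  rw [Finset.sum_const, Finset.card_powerset, nsmul_eq_mul]
  push_cast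
  rfl

/-- primes `p ≥ 5`, `p ∤ A`, `p^2 ∣ disc e` -/
def omA (e : ℤ × ℤ) : ℕ := ((disc e).natAbs.primeFactors.filter
  (fun p : ℕ => (p : ℤ) ^ 2 ∣ disc e ∧ 5 ≤ p ∧ ¬ (p : ℤ) ∣ e.1)).card

theorem om3_inv_sq (N : ℕ) : ∑ d ∈ Finset.Icc 1 N, ((d : ℝ) ^ 2)⁻¹ ≤ 2 := by
  have h := sum_Ioo_inv_sq_le (α := ℝ) 0 (N + 1)
  have e : Finset.Ioo 0 (N + 1) = Finset.Icc 1 N := by
    ext x
    simp only [Finset.mem_Ioo, Finset.mem_Icc]
    omega
  rw [e] at h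
  simpa using h

theorem om3_card_Icc (L : ℕ) (hL : 1 ≤ L) :
    ((Finset.Icc (-(L : ℤ)) L).card : ℝ) ≤ 3 * L := by
  have h : (Finset.Icc (-(L : ℤ)) L).card ≤ 3 * L := by
    rw [Int.card_Icc]
    omega
  exact_mod_cast h

theorem om3_box_sub (T : ℕ) : box T ⊆
    Finset.Icc (-((T ^ 2 : ℕ) : ℤ)) (T ^ 2 : ℕ) ×ˢ Finset.Icc (-((T ^ 3 : ℕ) : ℤ)) (T ^ 3 : ℕ) := by
  intro e he
  obtain ⟨h1, h2, -⟩ := mem_box.1 he
  push_cast
  exact Finset.mem_product.2 ⟨Finset.mem_Icc.2 (abs_le.1 h1), Finset.mem_Icc.2 (abs_le.1 h2)⟩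

/-- the condition on `d` -/
def om3C (d : ℕ) (e : ℤ × ℤ) : Prop :=
  Squarefree d ∧ d.Coprime 6 ∧ IsCoprime (d : ℤ) e.1 ∧ (d : ℤ) ^ 2 ∣ disc e

open Classical in
theorem om3_pow_omA {T : ℕ} {e : ℤ × ℤ} (he : e ∈ box T) :
    (3 / 2 : ℝ) ^ omA e ≤ ∑ d ∈ Finset.Icc 1 (6 * T ^ 3),
      if om3C d e then (1 / 2 : ℝ) ^ d.primeFactors.card else 0 := by
  obtain ⟨h1, h2, h3⟩ := mem_box.1 he
  set P := (disc e).natAbs.primeFactors.filter
    (fun p : ℕ => (p : ℤ) ^ 2 ∣ disc e ∧ 5 ≤ p ∧ ¬ (p : ℤ) ∣ e.1) with hP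
  have hPp : ∀ p ∈ P, p.Prime := fun p hp =>
    Nat.prime_of_mem_primeFactors (Finset.mem_filter.1 hp).1
  have hD : ∀ D ∈ P.powerset, (∏ p ∈ D, p).primeFactors = D := fun D hD =>
    Nat.primeFactors_prod fun p hp => hPp p (Finset.mem_powerset.1 hD hp)
  have e1 : (3 / 2 : ℝ) ^ omA e = ∑ D ∈ P.powerset, (1 / 2 : ℝ) ^ D.card := by
    have := Finset.sum_pow_mul_eq_add_pow (1 / 2 : ℝ) 1 P
    simp only [one_pow, mul_one] at this
    rw [this, show omA e = P.card from rfl]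
    norm_num
  have e2 : ∑ D ∈ P.powerset, (1 / 2 : ℝ) ^ D.card =
      ∑ d ∈ P.powerset.image (fun D => ∏ p ∈ D, p), (1 / 2 : ℝ) ^ d.primeFactors.card := by
    rw [Finset.sum_image]
    · exact Finset.sum_congr rfl fun D hD' => by rw [hD D hD']
    · intro D hD1 D' hD2 hh
      have hh' : ∏ p ∈ D, p = ∏ p ∈ D', p := hh
      rw [← hD D hD1, hh', hD D' hD2]
  rw [e1, e2, ← Finset.sum_filter]
  refine Finset.sum_le_sum_of_subset_of_nonneg ?_ (fun _ _ _ => by positivity)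
  intro d hd
  obtain ⟨D, hD1, rfl⟩ := Finset.mem_image.1 hd
  have hDP := Finset.mem_powerset.1 hD1
  have hdv : ((∏ p ∈ D, p : ℕ) : ℤ) ^ 2 ∣ disc e :=
    om3_sq_dvd (fun p hp => hPp p (hDP hp)) (fun p hp => (Finset.mem_filter.1 (hDP hp)).2.1)
  refine Finset.mem_filter.2 ⟨Finset.mem_Icc.2 ⟨?_, ?_⟩, ?_, ?_, ?_, hdv⟩
  · exact Finset.prod_pos fun p hp => (hPp p (hDP hp)).pos
  · have h4 : ((∏ p ∈ D, p : ℕ) : ℤ) ^ 2 ≤ |disc e| :=
      Int.le_of_dvd (abs_pos.2 h3) ((dvd_abs _ _).2 hdv)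
    have h5 : |disc e| ≤ 31 * (T : ℤ) ^ 6 := by
      have h6 : |e.1| ^ 3 ≤ ((T : ℤ) ^ 2) ^ 3 := pow_le_pow_left₀ (abs_nonneg _) h1 3
      have h7 : |e.2| ^ 2 ≤ ((T : ℤ) ^ 3) ^ 2 := pow_le_pow_left₀ (abs_nonneg _) h2 2
      calc |disc e| ≤ |4 * e.1 ^ 3| + |27 * e.2 ^ 2| := abs_add_le _ _
        _ = 4 * |e.1| ^ 3 + 27 * |e.2| ^ 2 := by
          rw [abs_mul, abs_mul, abs_pow, abs_pow]
          norm_num
        _ ≤ 31 * (T : ℤ) ^ 6 := by linarith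
    have h8 : ((∏ p ∈ D, p : ℕ) : ℤ) ^ 2 ≤ ((6 * T ^ 3 : ℕ) : ℤ) ^ 2 := by
      have : (0 : ℤ) ≤ (T : ℤ) ^ 6 := by positivity
      push_cast at h4 ⊢
      nlinarith
    have h9 := (pow_le_pow_iff_left₀ (by positivity) (by positivity) two_ne_zero).1 h8
    exact_mod_cast h9
  · refine Finset.squarefree_prod_of_pairwise_isCoprime (fun p hp q hq hpq => ?_)
      (fun p hp => (hPp p (hDP hp)).squarefree)
    exact Nat.coprime_iff_isRelPrime.1
      ((Nat.coprime_primes (hPp p (hDP hp)) (hPp q (hDP hq))).2 hpq)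
  · refine Nat.Coprime.prod_left fun p hp => ?_
    have h5 := (Finset.mem_filter.1 (hDP hp)).2.2.1
    refine (hPp p (hDP hp)).coprime_iff_not_dvd.2 fun h6 => ?_
    have h7 := Nat.le_of_dvd (by norm_num) h6
    have hpp := hPp p (hDP hp)
    interval_cases p
    · omega
    · exact absurd hpp (by norm_num)
  · push_cast
    refine IsCoprime.prod_left fun p hp => ?_
    exact (Nat.prime_iff_prime_int.1 (hPp p (hDP hp))).irreducible.coprime_iff_not_dvd.2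
      (Finset.mem_filter.1 (hDP hp)).2.2.2

open Classical in
theorem om3_row (A : ℤ) (d L : ℕ) :
    ∑ B ∈ Finset.Icc (-(L : ℤ)) L,
      (if om3C d (A, B) then (1 / 2 : ℝ) ^ d.primeFactors.card else 0) ≤
        2 * L / (d : ℝ) ^ 2 + 1 := by
  by_cases h : Squarefree d ∧ d.Coprime 6 ∧ IsCoprime (d : ℤ) A
  · rw [← Finset.sum_filter, Finset.sum_const, nsmul_eq_mul]
    have h1 := om3_card_sol A d h.1 h.2.1 h.2.2 L
    have h2 : ((Finset.Icc (-(L : ℤ)) L).filter (fun B => om3C d (A, B))).card ≤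
        ((Finset.Icc (-(L : ℤ)) L).filter (fun B : ℤ => (d : ℤ) ^ 2 ∣ disc (A, B))).card :=
      Finset.card_le_card fun B hB =>
        Finset.mem_filter.2 ⟨(Finset.mem_filter.1 hB).1, (Finset.mem_filter.1 hB).2.2.2.2⟩
    have h3 := le_trans (Nat.cast_le (α := ℝ).2 h2) h1
    calc _ ≤ (2 ^ d.primeFactors.card * (2 * L / (d : ℝ) ^ 2 + 1)) *
          (1 / 2 : ℝ) ^ d.primeFactors.card := mul_le_mul_of_nonneg_right h3 (by positivity)
      _ = (2 * (1 / 2) : ℝ) ^ d.primeFactors.card * (2 * L / (d : ℝ) ^ 2 + 1) := by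
          rw [mul_pow]
          ring
      _ = _ := by norm_num
  · rw [Finset.sum_eq_zero fun B _ => if_neg fun hc => h ⟨hc.1, hc.2.1, hc.2.2.1⟩]
    positivity

/-- `(3/2)^card P = ∑ D ⊆ P, (1/2)^card D` (`Finset.prod_add_one` or `Finset.sum_pow_mul_eq_add_pow`);
`D ↦ d = ∏ D` is injective, `d` squarefree, `d^2 ∣ disc e`, so `d ≤ 6 T^3`; swap the sums and use
`om3_card_sol`: total `≤ ∑ d ≤ 6 T^3, 3 T^2 (2 T^3 / d^2 + 1)`. -/
theorem sum_pow_omA_le : ∃ C : ℝ, ∀ T : ℕ, 1 ≤ T →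
    ∑ e ∈ box T, (3 / 2 : ℝ) ^ omA e ≤ C * (T : ℝ) ^ 5 := by
  classical
  refine ⟨30, fun T hT => ?_⟩
  have h1 : ∑ e ∈ box T, (3 / 2 : ℝ) ^ omA e ≤
      ∑ e ∈ Finset.Icc (-((T ^ 2 : ℕ) : ℤ)) (T ^ 2 : ℕ) ×ˢ
        Finset.Icc (-((T ^ 3 : ℕ) : ℤ)) (T ^ 3 : ℕ), ∑ d ∈ Finset.Icc 1 (6 * T ^ 3),
          if om3C d e then (1 / 2 : ℝ) ^ d.primeFactors.card else 0 :=
    (Finset.sum_le_sum fun e he => om3_pow_omA he).trans
      (Finset.sum_le_sum_of_subset_of_nonneg (om3_box_sub T) fun _ _ _ =>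
        Finset.sum_nonneg fun _ _ => by split_ifs <;> positivity)
  refine h1.trans ?_
  rw [Finset.sum_product]
  have h2 : ∀ A ∈ Finset.Icc (-((T ^ 2 : ℕ) : ℤ)) (T ^ 2 : ℕ),
      ∑ B ∈ Finset.Icc (-((T ^ 3 : ℕ) : ℤ)) (T ^ 3 : ℕ), ∑ d ∈ Finset.Icc 1 (6 * T ^ 3),
        (if om3C d (A, B) then (1 / 2 : ℝ) ^ d.primeFactors.card else 0) ≤ 10 * (T : ℝ) ^ 3 := by
    intro A _
    rw [Finset.sum_comm]
    refine (Finset.sum_le_sum fun d _ => om3_row A d (T ^ 3)).trans ?_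
    rw [Finset.sum_add_distrib, Finset.sum_const, Nat.card_Icc, nsmul_eq_mul]
    simp only [div_eq_mul_inv]
    rw [← Finset.mul_sum]
    have h3 := mul_le_mul_of_nonneg_left (om3_inv_sq (6 * T ^ 3))
      (show (0 : ℝ) ≤ 2 * ((T ^ 3 : ℕ) : ℝ) by positivity)
    rw [Nat.add_sub_cancel]
    push_cast at h3 ⊢
    linarith
  refine (Finset.sum_le_sum h2).trans ?_
  rw [Finset.sum_const, nsmul_eq_mul]
  have h4 := om3_card_Icc (T ^ 2) (Nat.one_le_pow _ _ hT)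
  calc _ ≤ 3 * ((T ^ 2 : ℕ) : ℝ) * (10 * (T : ℝ) ^ 3) :=
        mul_le_mul_of_nonneg_right h4 (by positivity)
    _ = 30 * (T : ℝ) ^ 5 := by
        push_cast
        ring

theorem om3_two_pow (g : ℕ) (hg : g ≠ 0) : 2 ^ g.primeFactors.card ≤ g.divisors.card := by
  rw [Nat.card_divisors hg]
  refine Finset.pow_card_le_prod _ _ _ fun p hp => ?_
  have := (Nat.prime_of_mem_primeFactors hp).factorization_pos_of_dvd hg
    (Nat.dvd_of_mem_primeFactors hp)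
  omega

theorem om3_mult (d L : ℕ) (hd : 1 ≤ d) (hdL : d ≤ L) :
    ∑ x ∈ Finset.Icc (-(L : ℤ)) L, (if (d : ℤ) ∣ x then (1 : ℝ) else 0) ≤ 3 * L / d := by
  rw [← Finset.sum_filter, Finset.sum_const, nsmul_eq_mul, mul_one]
  refine (om3_cong _ L d hd (fun x hx => abs_le.2 (Finset.mem_Icc.1 (Finset.mem_filter.1 hx).1))
    (fun x hx y hy => dvd_sub (Finset.mem_filter.1 hx).2 (Finset.mem_filter.1 hy).2)).trans ?_
  have h0 : (0 : ℝ) < d := by exact_mod_cast hd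
  have h1 : (1 : ℝ) ≤ L / d := by
    rw [le_div_iff₀ h0, one_mul]
    exact_mod_cast hdL
  have h2 : (3 : ℝ) * L / d = 2 * L / d + L / d := by ring
  linarith

theorem om3_pow_gcd {T : ℕ} {e : ℤ × ℤ} (he : e ∈ box T) :
    (3 / 2 : ℝ) ^ (Int.gcd e.1 e.2).primeFactors.card ≤
      (if e.1 = 0 then (T : ℝ) ^ 2 else 0) + ∑ d ∈ Finset.Icc 1 (T ^ 2),
        (if (d : ℤ) ∣ e.1 then (1 : ℝ) else 0) * (if (d : ℤ) ∣ e.2 then (1 : ℝ) else 0) := by
  obtain ⟨h1, h2, h3⟩ := mem_box.1 he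
  have hg : Int.gcd e.1 e.2 ≠ 0 := by
    intro h
    rw [Int.gcd_eq_zero_iff] at h
    exact h3 (by simp [disc, h.1, h.2])
  have h4 := om3_two_pow _ hg
  have hs : 0 ≤ ∑ d ∈ Finset.Icc 1 (T ^ 2),
      (if (d : ℤ) ∣ e.1 then (1 : ℝ) else 0) * (if (d : ℤ) ∣ e.2 then (1 : ℝ) else 0) :=
    Finset.sum_nonneg fun _ _ => by split_ifs <;> norm_num
  by_cases hA : e.1 = 0
  · rw [if_pos hA]
    refine le_trans ?_ (le_add_of_nonneg_right hs)
    have h5 : Int.gcd e.1 e.2 ≤ T ^ 3 := by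
      rw [hA, Int.gcd_zero_left]
      have : ((e.2.natAbs : ℕ) : ℤ) ≤ ((T ^ 3 : ℕ) : ℤ) := by
        rw [Int.natCast_natAbs]
        exact_mod_cast h2
      exact_mod_cast this
    have h6 : 2 ^ (Int.gcd e.1 e.2).primeFactors.card ≤ T ^ 3 :=
      h4.trans ((Nat.card_divisors_le_self _).trans h5)
    generalize (Int.gcd e.1 e.2).primeFactors.card = n at h6
    have h7 : (2 : ℝ) ^ n ≤ (T : ℝ) ^ 3 := by exact_mod_cast h6
    refine (pow_le_pow_iff_left₀ (by positivity) (by positivity) three_ne_zero).1 ?_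
    calc ((3 / 2 : ℝ) ^ n) ^ 3 = ((3 / 2 : ℝ) ^ 3) ^ n := by rw [← pow_mul, ← pow_mul, mul_comm]
      _ ≤ ((2 : ℝ) ^ 2) ^ n := pow_le_pow_left₀ (by positivity) (by norm_num) n
      _ = ((2 : ℝ) ^ n) ^ 2 := by rw [← pow_mul, ← pow_mul, mul_comm]
      _ ≤ ((T : ℝ) ^ 3) ^ 2 := pow_le_pow_left₀ (by positivity) h7 2
      _ = ((T : ℝ) ^ 2) ^ 3 := by ring
  · rw [if_neg hA, zero_add]
    have h5 : (Int.gcd e.1 e.2).divisors ⊆ Finset.Icc 1 (T ^ 2) := by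
      intro d hd
      have h6 := Nat.dvd_of_mem_divisors hd
      refine Finset.mem_Icc.2 ⟨Nat.pos_of_mem_divisors hd, ?_⟩
      have h7 : (d : ℤ) ∣ e.1 := (Int.natCast_dvd_natCast.2 h6).trans (Int.gcd_dvd_left _ _)
      have h8 : (d : ℤ) ≤ |e.1| := Int.le_of_dvd (abs_pos.2 hA) ((dvd_abs _ _).2 h7)
      exact_mod_cast h8.trans h1
    calc (3 / 2 : ℝ) ^ (Int.gcd e.1 e.2).primeFactors.card
        ≤ (2 : ℝ) ^ (Int.gcd e.1 e.2).primeFactors.card :=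
          pow_le_pow_left₀ (by positivity) (by norm_num) _
      _ ≤ ((Int.gcd e.1 e.2).divisors.card : ℝ) := by exact_mod_cast h4
      _ = ∑ d ∈ (Int.gcd e.1 e.2).divisors,
          (if (d : ℤ) ∣ e.1 then (1 : ℝ) else 0) * (if (d : ℤ) ∣ e.2 then (1 : ℝ) else 0) := by
          rw [Finset.card_eq_sum_ones]
          push_cast
          refine Finset.sum_congr rfl fun d hd => ?_
          have h6 := Int.natCast_dvd_natCast.2 (Nat.dvd_of_mem_divisors hd)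
          rw [if_pos (h6.trans (Int.gcd_dvd_left _ _)), if_pos (h6.trans (Int.gcd_dvd_right _ _)),
            mul_one]
      _ ≤ _ := Finset.sum_le_sum_of_subset_of_nonneg h5 fun _ _ _ => by
          split_ifs <;> norm_num

/-- `A ≠ 0`: `(3/2)^ω(g) ≤ 2^ω(g) ≤ card g.divisors`, and
`∑ e, card (gcd).divisors = ∑ d ≤ T^2, card {d ∣ A, d ∣ B} ≤ ∑ d, (2 T^2/d)(2 T^3/d + 1)`.
`A = 0`: `g = |B| ≤ T^3`, `2^ω(g) ≤ g`, so `((3/2)^ω)^3 ≤ 4^ω ≤ T^6` and `(3/2)^ω ≤ T^2`. -/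
theorem sum_pow_gcd_le : ∃ C : ℝ, ∀ T : ℕ, 1 ≤ T →
    ∑ e ∈ box T, (3 / 2 : ℝ) ^ (Int.gcd e.1 e.2).primeFactors.card ≤ C * (T : ℝ) ^ 5 := by
  refine ⟨21, fun T hT => ?_⟩
  set I := Finset.Icc (-((T ^ 2 : ℕ) : ℤ)) (T ^ 2 : ℕ) with hI
  set J := Finset.Icc (-((T ^ 3 : ℕ) : ℤ)) (T ^ 3 : ℕ) with hJ
  have h1 : ∑ e ∈ box T, (3 / 2 : ℝ) ^ (Int.gcd e.1 e.2).primeFactors.card ≤
      ∑ e ∈ I ×ˢ J, ((if e.1 = 0 then (T : ℝ) ^ 2 else 0) + ∑ d ∈ Finset.Icc 1 (T ^ 2),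
        (if (d : ℤ) ∣ e.1 then (1 : ℝ) else 0) * (if (d : ℤ) ∣ e.2 then (1 : ℝ) else 0)) :=
    (Finset.sum_le_sum fun e he => om3_pow_gcd he).trans
      (Finset.sum_le_sum_of_subset_of_nonneg (om3_box_sub T) fun _ _ _ =>
        add_nonneg (by split_ifs <;> positivity)
          (Finset.sum_nonneg fun _ _ => by split_ifs <;> norm_num))
  refine h1.trans ?_
  rw [Finset.sum_add_distrib]
  have h2 : ∑ e ∈ I ×ˢ J, (if e.1 = 0 then (T : ℝ) ^ 2 else 0) ≤ 3 * (T : ℝ) ^ 5 := by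
    rw [Finset.sum_product_right]
    have h3 : ∀ B ∈ J, ∑ A ∈ I, (if A = 0 then (T : ℝ) ^ 2 else 0) ≤ (T : ℝ) ^ 2 := by
      intro B _
      rw [Finset.sum_ite_eq']
      split_ifs
      · exact le_rfl
      · positivity
    refine (Finset.sum_le_sum h3).trans ?_
    rw [Finset.sum_const, nsmul_eq_mul]
    have h4 := om3_card_Icc (T ^ 3) (Nat.one_le_pow _ _ hT)
    calc _ ≤ 3 * ((T ^ 3 : ℕ) : ℝ) * (T : ℝ) ^ 2 := mul_le_mul_of_nonneg_right h4 (by positivity)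
      _ = 3 * (T : ℝ) ^ 5 := by
          push_cast
          ring
  have h5 : ∑ e ∈ I ×ˢ J, ∑ d ∈ Finset.Icc 1 (T ^ 2),
      (if (d : ℤ) ∣ e.1 then (1 : ℝ) else 0) * (if (d : ℤ) ∣ e.2 then (1 : ℝ) else 0) ≤
        18 * (T : ℝ) ^ 5 := by
    rw [Finset.sum_comm]
    have h6 : ∀ d ∈ Finset.Icc 1 (T ^ 2), ∑ e ∈ I ×ˢ J,
        (if (d : ℤ) ∣ e.1 then (1 : ℝ) else 0) * (if (d : ℤ) ∣ e.2 then (1 : ℝ) else 0) ≤
          9 * (T : ℝ) ^ 5 * ((d : ℝ) ^ 2)⁻¹ := by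
      intro d hd
      obtain ⟨hd1, hd2⟩ := Finset.mem_Icc.1 hd
      have hd3 : d ≤ T ^ 3 := hd2.trans (Nat.pow_le_pow_right hT (by norm_num))
      have h7 := om3_mult d (T ^ 2) hd1 hd2
      have h8 := om3_mult d (T ^ 3) hd1 hd3
      rw [Finset.sum_product' (f := fun A B : ℤ => (if (d : ℤ) ∣ A then (1 : ℝ) else 0) *
        (if (d : ℤ) ∣ B then (1 : ℝ) else 0)), ← Finset.sum_mul_sum]
      calc _ ≤ (3 * ((T ^ 2 : ℕ) : ℝ) / d) * (3 * ((T ^ 3 : ℕ) : ℝ) / d) :=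
            mul_le_mul h7 h8 (Finset.sum_nonneg fun _ _ => by split_ifs <;> norm_num)
              (by positivity)
        _ = 9 * (T : ℝ) ^ 5 * ((d : ℝ) ^ 2)⁻¹ := by
            push_cast
            ring
    refine (Finset.sum_le_sum h6).trans ?_
    rw [← Finset.mul_sum]
    have h9 := mul_le_mul_of_nonneg_left (om3_inv_sq (T ^ 2))
      (show (0 : ℝ) ≤ 9 * (T : ℝ) ^ 5 by positivity)
    linarith
  linarith

theorem om3_om2_le {e : ℤ × ℤ} (he : disc e ≠ 0) :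
    om2 e ≤ 2 + omA e + (Int.gcd e.1 e.2).primeFactors.card := by
  have hg : Int.gcd e.1 e.2 ≠ 0 := by
    intro h
    rw [Int.gcd_eq_zero_iff] at h
    exact he (by simp [disc, h.1, h.2])
  have h1 : (disc e).natAbs.primeFactors.filter (fun p : ℕ => (p : ℤ) ^ 2 ∣ disc e) ⊆
      ({2, 3} ∪ (disc e).natAbs.primeFactors.filter
        (fun p : ℕ => (p : ℤ) ^ 2 ∣ disc e ∧ 5 ≤ p ∧ ¬ (p : ℤ) ∣ e.1)) ∪
          (Int.gcd e.1 e.2).primeFactors := by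
    intro p hp
    obtain ⟨hp1, hp2⟩ := Finset.mem_filter.1 hp
    have hpp := Nat.prime_of_mem_primeFactors hp1
    simp only [Finset.mem_union, Finset.mem_insert, Finset.mem_singleton]
    by_cases h5 : 5 ≤ p
    · by_cases hA : (p : ℤ) ∣ e.1
      · right
        have hp' : Prime (p : ℤ) := Nat.prime_iff_prime_int.1 hpp
        have h2 : (p : ℤ) ∣ 3 ^ 3 * e.2 ^ 2 := by
          have := dvd_sub ((dvd_pow_self _ two_ne_zero).trans hp2)
            (Dvd.dvd.mul_left hA (4 * e.1 ^ 2))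
          simp only [disc] at this
          exact this.trans (dvd_of_eq (by ring))
        have h3 : (p : ℤ) ∣ e.2 := by
          rcases hp'.dvd_or_dvd h2 with h | h
          · have h4 : p ∣ 3 := Int.natCast_dvd_natCast.1 (hp'.dvd_of_dvd_pow h)
            have := Nat.le_of_dvd (by norm_num) h4
            omega
          · exact hp'.dvd_of_dvd_pow h
        exact Nat.mem_primeFactors.2 ⟨hpp, Int.dvd_gcd hA h3, hg⟩
      · exact Or.inl (Or.inr (Finset.mem_filter.2 ⟨hp1, hp2, h5, hA⟩))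
    · have h2 := hpp.two_le
      have h4 : p ≠ 4 := by
        rintro rfl
        exact absurd hpp (by norm_num)
      exact Or.inl (Or.inl (by omega))
  refine (Finset.card_le_card h1).trans ((Finset.card_union_le _ _).trans ?_)
  exact Nat.add_le_add_right ((Finset.card_union_le _ _).trans (le_of_eq rfl)) _

/-- `om2 e ≤ 2 + omA e + ω(gcd(A, B))` (a prime `p ≥ 5` with `p ∣ A`, `p ∣ disc e` divides `B`), and
`(6/5)^(a + b) ≤ ((3/2)^a + (3/2)^b) / 2` since `(6/5)^2 ≤ 3/2` -/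
theorem sum_pow_om2_le : ∃ C : ℝ, ∀ T : ℕ, 1 ≤ T →
    ∑ e ∈ box T, (6 / 5 : ℝ) ^ om2 e ≤ C * (T : ℝ) ^ 5 := by
  obtain ⟨C₁, h1⟩ := sum_pow_omA_le
  obtain ⟨C₂, h2⟩ := sum_pow_gcd_le
  refine ⟨C₁ + C₂, fun T hT => ?_⟩
  have h3 : ∀ e ∈ box T, (6 / 5 : ℝ) ^ om2 e ≤
      (3 / 2 : ℝ) ^ omA e + (3 / 2 : ℝ) ^ (Int.gcd e.1 e.2).primeFactors.card := by
    intro e he
    refine (pow_le_pow_right₀ (by norm_num) (om3_om2_le (mem_box.1 he).2.2)).trans ?_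
    generalize omA e = a
    generalize (Int.gcd e.1 e.2).primeFactors.card = b
    have h4 : ∀ n : ℕ, ((6 / 5 : ℝ) ^ n) ^ 2 ≤ (3 / 2 : ℝ) ^ n := fun n => by
      rw [← pow_mul, mul_comm, pow_mul]
      exact pow_le_pow_left₀ (by positivity) (by norm_num) n
    rw [pow_add, pow_add]
    have h5 := h4 a
    have h6 := h4 b
    have h7 : (0 : ℝ) ≤ (6 / 5 : ℝ) ^ a * (6 / 5 : ℝ) ^ b := by positivity
    nlinarith [sq_nonneg ((6 / 5 : ℝ) ^ a - (6 / 5 : ℝ) ^ b)]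
  refine (Finset.sum_le_sum h3).trans ?_
  rw [Finset.sum_add_distrib]
  have := h1 T hT
  have := h2 T hT
  linarith

end Pool.Agent.Lib.MP_775b3b_nt
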