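import Pool.Agent.Lib.MP_775b3b_nt.Bottom
import Pool.Agent.Lib.MP_775b3b_nt.Om3

/-! Exponential moments. -/

namespace Pool.Agent.Lib.MP_775b3b_nt

open Cub

/-- `m` has an exponential moment on the boxes -/
def ExpM (m : ℤ × ℤ → ℕ) : Prop :=
  ∃ l : ℝ, 1 < l ∧ ∃ C : ℝ, ∀ T : ℕ, 1 ≤ T → ∑ e ∈ box T, l ^ m e ≤ C * (T : ℝ) ^ 5

theorem ExpM.mono {m m' : ℤ × ℤ → ℕ} (h : ExpM m')
    (hm : ∀ T, 1 ≤ T → ∀ e ∈ box T, m e ≤ m' e) : ExpM m := by
  obtain ⟨l, hl, C, hC⟩ := h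
  refine ⟨l, hl, C, fun T hT => (Finset.sum_le_sum fun e he => ?_).trans (hC T hT)⟩
  exact pow_le_pow_right₀ hl.le (hm T hT e he)

theorem ExpM.const (c : ℕ) : ExpM (fun _ => c) := by
  refine ⟨2, one_lt_two, 9 * 2 ^ c, fun T hT => ?_⟩
  have hb : ((box T).card : ℝ) ≤ 9 * (T : ℝ) ^ 5 := by exact_mod_cast card_box_le T hT
  rw [Finset.sum_const, nsmul_eq_mul]
  calc ((box T).card : ℝ) * 2 ^ c ≤ 9 * (T : ℝ) ^ 5 * 2 ^ c := by gcongr
    _ = 9 * 2 ^ c * (T : ℝ) ^ 5 := by ring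

theorem ExpM.add {m m' : ℤ × ℤ → ℕ} (h : ExpM m) (h' : ExpM m') : ExpM (fun e => m e + m' e) := by
  obtain ⟨l, hl, C, hC⟩ := h
  obtain ⟨l', hl', C', hC'⟩ := h'
  have h0 : 1 < min l l' := lt_min hl hl'
  have h1 : 1 < √(min l l') := Real.lt_sqrt_of_sq_lt (by simpa using h0)
  have h2 : √(min l l') ^ 2 = min l l' := Real.sq_sqrt (by linarith)
  refine ⟨√(min l l'), h1, C + C', fun T hT => ?_⟩
  have h3 : ∀ e, √(min l l') ^ (m e + m' e) ≤ l ^ m e + l' ^ m' e := fun e => by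
    have a1 : (min l l') ^ m e ≤ l ^ m e := pow_le_pow_left₀ (by linarith) (min_le_left _ _) _
    have a2 : (min l l') ^ m' e ≤ l' ^ m' e := pow_le_pow_left₀ (by linarith) (min_le_right _ _) _
    have a3 : (0 : ℝ) ≤ l ^ m e := by positivity
    have a4 : (0 : ℝ) ≤ l' ^ m' e := by positivity
    rcases le_total (m e) (m' e) with hle | hle
    · have : √(min l l') ^ (m e + m' e) ≤ √(min l l') ^ (2 * m' e) :=
        pow_le_pow_right₀ h1.le (by omega)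
      rw [pow_mul, h2] at this
      linarith
    · have : √(min l l') ^ (m e + m' e) ≤ √(min l l') ^ (2 * m e) :=
        pow_le_pow_right₀ h1.le (by omega)
      rw [pow_mul, h2] at this
      linarith
  refine (Finset.sum_le_sum fun e _ => h3 e).trans ?_
  rw [Finset.sum_add_distrib, add_mul]
  exact add_le_add (hC T hT) (hC' T hT)

theorem ExpM.mul (a : ℕ) {m : ℤ × ℤ → ℕ} (h : ExpM m) : ExpM (fun e => a * m e) := by
  induction a with
  | zero => simpa using ExpM.const 0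
  | succ a ih => simpa only [add_mul, one_mul] using ih.add h

theorem ExpM.clog {s : ℤ × ℤ → ℕ} {C : ℝ}
    (h : ∀ T : ℕ, 1 ≤ T → ∑ e ∈ box T, (s e : ℝ) ≤ C * (T : ℝ) ^ 5) :
    ExpM (fun e => Nat.clog 2 (s e)) := by
  refine ⟨2, one_lt_two, 2 * C + 9, fun T hT => ?_⟩
  have hb : ((box T).card : ℝ) ≤ 9 * (T : ℝ) ^ 5 := by exact_mod_cast card_box_le T hT
  have h3 : ∀ e, (2 : ℝ) ^ Nat.clog 2 (s e) ≤ 2 * (s e : ℝ) + 1 := fun e => by
    have : 2 ^ Nat.clog 2 (s e) ≤ 2 * s e + 1 := by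
      rcases le_or_gt (s e) 1 with h1 | h1
      · rw [Nat.clog_of_right_le_one h1]
        omega
      · have a1 := Nat.pow_pred_clog_lt_self one_lt_two h1
        have a2 := Nat.clog_pos one_lt_two h1
        obtain ⟨n, hn⟩ := Nat.exists_eq_succ_of_ne_zero a2.ne'
        rw [hn] at a1 ⊢
        rw [Nat.pred_succ] at a1
        rw [pow_succ]
        omega
    exact_mod_cast this
  refine (Finset.sum_le_sum fun e _ => h3 e).trans ?_
  rw [Finset.sum_add_distrib, ← Finset.mul_sum, Finset.sum_const, nsmul_eq_mul, mul_one]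
  have := h T hT
  linarith

theorem ExpM.om2 : ExpM om2 := ⟨6 / 5, by norm_num, sum_pow_om2_le⟩

/-- the dimension of `Sel / SQ` over `F` has an exponential moment -/
def ExpBd (F : Type) [Field F] : Prop :=
  ∃ N₀ : ℕ, N₀ ≠ 0 ∧ ∀ N, N ≠ 0 → N₀ ∣ N → ∃ m, ExpM m ∧
    ∀ T, 1 ≤ T → ∀ e ∈ box T, Bd (SQ e F) (Sel N e F) (2 ^ m e)

theorem expM_of_count {Γ : ℤ × ℤ → Type*} [∀ e, CommGroup (Γ e)] (H K : ∀ e, Subgroup (Γ e))
    {C : ℝ} (h : ∀ T : ℕ, 1 ≤ T → ∀ R : ∀ e, Finset (Γ e),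
      (∀ e ∈ box T, ∀ x ∈ R e, x ∈ K e ∧ x ∉ H e) →
      (∀ e ∈ box T, ∀ x ∈ R e, ∀ y ∈ R e, x / y ∈ H e → x = y) →
      ∑ e ∈ box T, ((R e).card : ℝ) ≤ C * (T : ℝ) ^ 5) :
    ∃ m, ExpM m ∧ ∀ T, 1 ≤ T → ∀ e ∈ box T, Bd (H e) (K e) (2 ^ m e) := by
  refine ⟨fun e => Nat.clog 2 ((H e).relIndex (K e)), ExpM.clog (C := C + 9) fun T hT => ?_,
    fun T hT e he => ⟨(sum_relIndex_le (box T) H K _ (h T hT)).1 e he,
      Nat.le_pow_clog one_lt_two _⟩⟩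
  have hb : ((box T).card : ℝ) ≤ 9 * (T : ℝ) ^ 5 := by exact_mod_cast card_box_le T hT
  have := (sum_relIndex_le (box T) H K _ (h T hT)).2
  linarith

theorem expBd_of_sel1 (K : Type) [Field K] [NumberField K] {N : ℕ} (hN : N ≠ 0)
    {m : ℤ × ℤ → ℕ} (hm : ExpM m)
    (h : ∀ T, 1 ≤ T → ∀ e ∈ box T, Bd (SQ e K) (Sel1 N e K) (2 ^ m e)) :
    ∃ m, ExpM m ∧ ∀ T, 1 ≤ T → ∀ e ∈ box T, Bd (SQ e K) (Sel N e K) (2 ^ m e) := by
  obtain ⟨c, hc⟩ := sel1_index K hN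
  refine ⟨_, hm.add (((ExpM.const 1).add ExpM.om2).mul c), fun T hT e he => ?_⟩
  have k4 := ((h T hT e he).of_le_right (inf_le_left : Sel1 N e K ⊓ Sel N e K ≤ _)).trans
    (hc e (mem_box.1 he).2.2)
  rwa [← pow_add] at k4

theorem expBd_rat : ExpBd ℚ := by
  obtain ⟨N4, n4, h4⟩ := exists_unr ℚ
  refine ⟨2 * N4, by positivity, fun N hN hd => ?_⟩
  obtain ⟨C1, h1⟩ := countQ (N := N) ((dvd_mul_right 2 N4).trans hd)
    (h4 _ ((dvd_mul_left N4 2).trans hd))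
  obtain ⟨m, hm, hb⟩ := expM_of_count (fun e => SQ e ℚ) (fun e => Sel1 N e ℚ) h1
  exact expBd_of_sel1 ℚ hN hm hb

theorem expBd_cubic {K Kt : Type} [Field K] [NumberField K] [Field Kt] [NumberField Kt]
    (S : Setup K Kt) : ExpBd K := by
  obtain ⟨N3, n3, h3⟩ := exists_unr K
  obtain ⟨N4, n4, h4⟩ := exists_unr ℚ
  refine ⟨2 * N3 * N4, by positivity, fun N hN hd => ?_⟩
  have h2 : 2 ∣ N := Dvd.dvd.trans ⟨N3 * N4, by ring⟩ hd
  obtain ⟨C1, h1⟩ := countQ h2 (h4 _ (Dvd.dvd.trans ⟨2 * N3, by ring⟩ hd))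
  obtain ⟨C2, h2'⟩ := countU S h2 (h3 _ (Dvd.dvd.trans ⟨2 * N4, by ring⟩ hd))
  obtain ⟨m1, hm1, hb1⟩ := expM_of_count (fun e => SQ e ℚ) (fun e => Sel1 N e ℚ) h1
  obtain ⟨m2, hm2, hb2⟩ := expM_of_count (fun e => SQ e K)
    (fun e => (SQ e ℚ).comap (S.cor e) ⊓ Sel1 N e K) h2'
  refine expBd_of_sel1 K hN (hm2.add hm1) fun T hT e he => ?_
  rw [pow_add]
  exact (hb2 T hT e he).trans ((hb1 T hT e he).comap (S.cor e)
    fun x hx => S.cor_mem_Sel1 (mem_box.1 he).2.2 hx)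

theorem ExpBd.tower {K : Type} [Field K] [NumberField K] (h : ExpBd K) (F : Type) [Field F]
    [NumberField F] [Algebra K F] [IsGalois K F] {j : ℕ} (hF : Module.finrank K F = 2 ^ j) :
    ExpBd F := by
  obtain ⟨N0, n0, h0⟩ := h
  obtain ⟨N1, n1, h1⟩ := sel_tower K j F hF
  refine ⟨N0 * N1, by positivity, fun N hN hd => ?_⟩
  obtain ⟨m, hm, hb⟩ := h0 N hN ((dvd_mul_right _ _).trans hd)
  refine ⟨_, (hm.add (ExpM.const 8)).mul (2 ^ j), fun T hT e he => ?_⟩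
  exact (h1 N ((dvd_mul_left _ _).trans hd) e (mem_box.1 he).2.2 _ (hb T hT e he)).mono
    (Nat.pow_le_pow_right two_pos (Nat.sub_le _ _))

theorem ExpBd.rank {F : Type} [Field F] [NumberField F] [DecidableEq F] (h : ExpBd F) :
    ExpM (fun e => Module.finrank ℤ (crv e F).toAffine.Point) := by
  obtain ⟨N0, n0, h0⟩ := h
  obtain ⟨N2, n2, h2⟩ := exists_unr F
  obtain ⟨m, hm, hb⟩ := h0 (N0 * N2) (by positivity) (dvd_mul_right _ _)
  exact (hm.add (ExpM.const 1)).mono fun T hT e he =>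
    rank_le (h2 _ (dvd_mul_left _ _)) (mem_box.1 he).2.2 (hb T hT e he)

theorem expBd_two (F : Type) [Field F] [NumberField F] [IsGalois ℚ F] {k : ℕ}
    (hF : Module.finrank ℚ F = 2 ^ k) : ExpBd F := expBd_rat.tower F hF

theorem expBd_three (F : Type) [Field F] [NumberField F] [IsGalois ℚ F] {k : ℕ}
    (hF : Module.finrank ℚ F = 3 * 2 ^ k) : ExpBd F := by
  have hG : Nat.card (F ≃ₐ[ℚ] F) = 3 * 2 ^ k := by rw [IsGalois.card_aut_eq_finrank, hF]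
  have : Fact (Nat.Prime 2) := ⟨Nat.prime_two⟩
  obtain ⟨H, hH⟩ := Sylow.exists_subgroup_card_pow_prime (G := F ≃ₐ[ℚ] F) 2 (n := k)
    (by rw [hG]; exact Dvd.intro_left 3 rfl)
  let K := IntermediateField.fixedField H
  have hKF : Module.finrank K F = 2 ^ k := by
    rw [IntermediateField.finrank_fixedField_eq_card, hH]
  have hK : Module.finrank ℚ K = 3 := by
    have h1 := Module.finrank_mul_finrank ℚ K F
    rw [hKF, hF] at h1
    exact Nat.eq_of_mul_eq_mul_right (Nat.two_pow_pos k) h1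
  obtain ⟨S⟩ := exists_setup K F hK
  exact (expBd_cubic S).tower F hKF

end Pool.Agent.Lib.MP_775b3b_nt
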