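import Pool.Agent.Lib.MP_775b3b_nt.Exp

/-! Descent along elementary abelian extensions of exponent three. -/

namespace Pool.Agent.Lib.MP_775b3b_nt

open Cub

theorem Bd.sup {G : Type*} [CommGroup G] {H K K' : Subgroup G} {n m : ℕ} (h : Bd H K n)
    (h' : Bd H K' m) : Bd H (K ⊔ K') (n * m) := by
  refine Bd.trans (K := H ⊔ K) (h.of_cover fun x hx => ?_)
    ((h'.of_le_left le_sup_left).of_cover fun x hx => ?_)
  · obtain ⟨a, ha, b, hb, rfl⟩ := Subgroup.mem_sup.1 hx.1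
    exact ⟨b, hb, by simpa using ha⟩
  · obtain ⟨a, ha, b, hb, rfl⟩ := Subgroup.mem_sup.1 hx
    exact ⟨b, hb, by simpa using Subgroup.mem_sup_right ha⟩

variable {e : ℤ × ℤ} {k M : Type} [Field k] [Field M]

/-- the map on units -/
def um (e : ℤ × ℤ) (f : k →+* M) : (Cub e k)ˣ →* (Cub e M)ˣ :=
  Units.map (map f : Cub e k →+* Cub e M).toMonoidHom

theorem um_val (f : k →+* M) (d : (Cub e k)ˣ) : (um e f d : Cub e M) = map f (d : Cub e k) := rfl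

theorem um_um {L : Type} [Field L] (f : k →+* M) (g : M →+* L) (d : (Cub e k)ˣ) :
    um e g (um e f d) = um e (g.comp f) d := Units.ext (map_map f g _)

theorem um_congr {f g : k →+* M} (h : ∀ x, f x = g x) (d : (Cub e k)ˣ) :
    um e f d = um e g d := by rw [RingHom.ext h]

theorem um_id (d : (Cub e M)ˣ) : um e (RingHom.id M) d = d := by
  ext <;> rfl

theorem um_mem_SQ (f : k →+* M) {d : (Cub e k)ˣ} (h : d ∈ SQ e k) : um e f d ∈ SQ e M :=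
  IsSquare.map (um e f) h

theorem um_mem_Sel (f : k →+* M) {N : ℕ} {d : (Cub e k)ˣ} (h : d ∈ Sel N e k) :
    um e f d ∈ Sel N e M := by
  obtain ⟨⟨ν, hν⟩, h2⟩ := mem_Sel.1 h
  refine mem_Sel.2 ⟨⟨f ν, by rw [um_val, nm_map, hν, map_pow]⟩, fun p hp => ?_⟩
  obtain ⟨z, a, b⟩ := h2 p hp
  refine ⟨um e f z, ?_, ?_⟩
  · rw [← map_pow, ← map_mul, um_val]
    exact map_mem_intP _ a
  · rw [← map_pow, ← map_mul, ← map_inv, um_val]
    exact map_mem_intP _ b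

theorem exists_um {ι : k →+* M} {σ : M →+* M} (hfix : ∀ x, σ x = x → ∃ y, ι y = x)
    {d : (Cub e M)ˣ} (h : um e σ d = d) : ∃ d₀, um e ι d₀ = d := by
  have h1 : map σ (d : Cub e M) = d := congrArg Units.val h
  obtain ⟨a, ha⟩ := hfix _ (congrArg Cub.c0 h1)
  obtain ⟨b, hb⟩ := hfix _ (congrArg Cub.c1 h1)
  obtain ⟨c, hc⟩ := hfix _ (congrArg Cub.c2 h1)
  have h2 : map ι (⟨a, b, c⟩ : Cub e k) = d := Cub.ext ha hb hc
  have h3 : IsUnit (⟨a, b, c⟩ : Cub e k) := isUnit_iff.2 fun h0 => nm_ne_zero d (by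
    rw [← h2, nm_map, h0, map_zero])
  exact ⟨h3.unit, Units.ext h2⟩

/-- the norm for an automorphism of order three -/
def n3 (e : ℤ × ℤ) (σ : M →+* M) (d : (Cub e M)ˣ) : (Cub e M)ˣ :=
  d * um e σ d * um e σ (um e σ d)

theorem um_three {σ : M →+* M} (hσ : ∀ x, σ (σ (σ x)) = x) (d : (Cub e M)ˣ) :
    um e σ (um e σ (um e σ d)) = d := by
  rw [um_um, um_um, um_congr (g := RingHom.id M) hσ, um_id]

theorem um_n3 {σ : M →+* M} (hσ : ∀ x, σ (σ (σ x)) = x) (d : (Cub e M)ˣ) :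
    um e σ (n3 e σ d) = n3 e σ d := by
  rw [n3, map_mul, map_mul, um_three hσ, mul_comm _ d, mul_assoc]

theorem n3_mem {ι : k →+* M} {σ : M →+* M} (hσ : ∀ x, σ (σ (σ x)) = x)
    (hfix : ∀ x, σ x = x → ∃ y, ι y = x) {N : ℕ} {d : (Cub e M)ˣ} (h : d ∈ Sel N e M) :
    n3 e σ d ∈ (Sel N e k).map (um e ι) := by
  obtain ⟨d₀, hd⟩ := exists_um hfix (um_n3 hσ d)
  refine ⟨d₀, ?_, hd⟩
  obtain ⟨⟨ν, hν⟩, h2⟩ := mem_Sel.1 h
  have hinj : Function.Injective (map ι : Cub e k →+* Cub e M) := map_injective ι.injective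
  refine mem_Sel.2 ⟨?_, fun p hp => ?_⟩
  · obtain ⟨μ, hμ⟩ := hfix (ν * σ ν * σ (σ ν)) (by rw [map_mul, map_mul, hσ]; ring)
    refine ⟨μ, ι.injective ?_⟩
    rw [← nm_map, ← um_val, hd, n3]
    simp only [Units.val_mul, nm_mul, um_val, nm_map, hν, map_pow, hμ]
    ring
  · obtain ⟨z, a, b⟩ := h2 p hp
    obtain ⟨z₀, hz⟩ := exists_um hfix (um_n3 hσ z)
    have h3 : um e ι (d₀ * z₀ ^ 2) = n3 e σ (d * z ^ 2) := by
      rw [map_mul, map_pow, hd, hz]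
      simp only [n3, map_mul, map_pow, mul_pow]
      simp only [mul_assoc, mul_comm, mul_left_comm]
    have h4 : ∀ u : (Cub e M)ˣ, (u : Cub e M) ∈ intP p (Cub e M) →
        ((n3 e σ u : (Cub e M)ˣ) : Cub e M) ∈ intP p (Cub e M) := fun u hu =>
      Subring.mul_mem _ (Subring.mul_mem _ hu (map_mem_intP _ hu))
        (map_mem_intP _ (map_mem_intP _ hu))
    refine ⟨z₀, mem_intP_of_map hinj ?_, mem_intP_of_map hinj ?_⟩
    · rw [← um_val, h3]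
      exact h4 _ a
    · rw [← um_val, map_inv, h3]
      have := h4 _ b
      rwa [show n3 e σ (d * z ^ 2)⁻¹ = (n3 e σ (d * z ^ 2))⁻¹ by
        rw [n3, n3, map_inv, map_inv, ← mul_inv, ← mul_inv]] at this

theorem four_id {G : Type*} [CommGroup G] (s t : G →* G)
    (ht : ∀ x, t (t (t x)) = x) (hc : ∀ x, t (s x) = s (t x)) (d : G) :
    d * d * d = (d / (d * t d * t (t d))) * s (d / (d * t d * t (t d))) *
      s (s (d / (d * t d * t (t d)))) * (d * t d * t (t d)) * (d * s (t d) * s (t (s (t d)))) *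
      (d * s (t (t d)) * s (t (t (s (t (t d)))))) := by
  simp only [map_div, map_mul, hc, ht]
  generalize s (s (t (t d))) = a8
  generalize s (s (t d)) = a7
  generalize s (s d) = a6
  generalize s (t (t d)) = a5
  generalize s (t d) = a4
  generalize s d = a3
  generalize t (t d) = a2
  generalize t d = a1
  apply Additive.ofMul.injective
  simp only [ofMul_mul, ofMul_div]
  abel

theorem sel_four {k1 k2 k3 k4 : Type} [Field k1] [Field k2] [Field k3] [Field k4]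
    {ι1 : k1 →+* M} {ι2 : k2 →+* M} {ι3 : k3 →+* M} {ι4 : k4 →+* M} {σ τ : M →+* M}
    (hσ : ∀ x, σ (σ (σ x)) = x) (hτ : ∀ x, τ (τ (τ x)) = x) (hc : ∀ x, τ (σ x) = σ (τ x))
    (h1 : ∀ x, σ x = x → ∃ y, ι1 y = x) (h2 : ∀ x, τ x = x → ∃ y, ι2 y = x)
    (h3 : ∀ x, σ (τ x) = x → ∃ y, ι3 y = x) (h4 : ∀ x, σ (τ (τ x)) = x → ∃ y, ι4 y = x)
    {N n1 n2 n3 n4 : ℕ} (b1 : Bd (SQ e k1) (Sel N e k1) n1) (b2 : Bd (SQ e k2) (Sel N e k2) n2)
    (b3 : Bd (SQ e k3) (Sel N e k3) n3) (b4 : Bd (SQ e k4) (Sel N e k4) n4) :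
    Bd (SQ e M) (Sel N e M) (n1 * n2 * n3 * n4) := by
  refine ((((b1.map (um e ι1) fun x => um_mem_SQ ι1).sup (b2.map (um e ι2) fun x =>
    um_mem_SQ ι2)).sup (b3.map (um e ι3) fun x => um_mem_SQ ι3)).sup
    (b4.map (um e ι4) fun x => um_mem_SQ ι4)).of_cover fun d hd => ?_
  have hc' : ∀ x, um e τ (um e σ x) = um e σ (um e τ x) := fun x => by
    rw [um_um, um_um]
    exact um_congr hc x
  have a2 := n3_mem hτ h2 hd
  have a1 := n3_mem hσ h1 (Subgroup.div_mem _ hd (show MP_775b3b_nt.n3 e τ d ∈ Sel N e M from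
    Subgroup.mul_mem _ (Subgroup.mul_mem _ hd (um_mem_Sel τ hd))
      (um_mem_Sel τ (um_mem_Sel τ hd))))
  have a3 := n3_mem (σ := σ.comp τ) (fun x => by simp only [RingHom.comp_apply, hc, hσ, hτ]) h3 hd
  have a4 := n3_mem (σ := σ.comp (τ.comp τ))
    (fun x => by simp only [RingHom.comp_apply, hc, hσ, hτ]) h4 hd
  refine ⟨_, Subgroup.mul_mem_sup (Subgroup.mul_mem_sup (Subgroup.mul_mem_sup a1 a2) a3) a4, ?_⟩
  have key := four_id (um e σ) (um e τ) (um_three hτ) hc' d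
  simp only [MP_775b3b_nt.n3, ← um_um]
  rw [← key]
  exact ⟨d⁻¹, by rw [mul_assoc, div_mul_cancel_left, mul_inv]⟩

theorem ExpBd.four {k1 k2 k3 k4 : Type} [Field k1] [Field k2] [Field k3] [Field k4]
    {ι1 : k1 →+* M} {ι2 : k2 →+* M} {ι3 : k3 →+* M} {ι4 : k4 →+* M} {σ τ : M →+* M}
    (hσ : ∀ x, σ (σ (σ x)) = x) (hτ : ∀ x, τ (τ (τ x)) = x) (hc : ∀ x, τ (σ x) = σ (τ x))
    (h1 : ∀ x, σ x = x → ∃ y, ι1 y = x) (h2 : ∀ x, τ x = x → ∃ y, ι2 y = x)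
    (h3 : ∀ x, σ (τ x) = x → ∃ y, ι3 y = x) (h4 : ∀ x, σ (τ (τ x)) = x → ∃ y, ι4 y = x)
    (b1 : ExpBd k1) (b2 : ExpBd k2) (b3 : ExpBd k3) (b4 : ExpBd k4) : ExpBd M := by
  obtain ⟨N1, n1, c1⟩ := b1
  obtain ⟨N2, n2, c2⟩ := b2
  obtain ⟨N3, n3, c3⟩ := b3
  obtain ⟨N4, n4, c4⟩ := b4
  refine ⟨N1 * N2 * N3 * N4, by positivity, fun N hN hd => ?_⟩
  obtain ⟨m1, e1, d1⟩ := c1 N hN (Dvd.dvd.trans ⟨N2 * N3 * N4, by ring⟩ hd)
  obtain ⟨m2, e2, d2⟩ := c2 N hN (Dvd.dvd.trans ⟨N1 * N3 * N4, by ring⟩ hd)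
  obtain ⟨m3, e3, d3⟩ := c3 N hN (Dvd.dvd.trans ⟨N1 * N2 * N4, by ring⟩ hd)
  obtain ⟨m4, e4, d4⟩ := c4 N hN (Dvd.dvd.trans ⟨N1 * N2 * N3, by ring⟩ hd)
  refine ⟨_, ((e1.add e2).add e3).add e4, fun T hT e he => ?_⟩
  rw [pow_add, pow_add, pow_add]
  exact sel_four hσ hτ hc h1 h2 h3 h4 (d1 T hT e he) (d2 T hT e he) (d3 T hT e he) (d4 T hT e he)

end Pool.Agent.Lib.MP_775b3b_nt
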