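import Pool.Agent.Lib.MP_775b3b_nt.Defs

/-! Lagrangian subspaces of `2 ⊗ 2 ⊗ 2` and their Pluecker coordinates. -/

namespace Pool.Agent.Lib.MP_775b3b_nt

open Matrix

/-- vertices of the cube -/
abbrev Cu := Fin 3 → Fin 2

/-- a vertex of the cube -/
def cu (x y z : Fin 2) : Cu := ![x, y, z]

/-- a function on the cube given by its eight values -/
def cb {α : Type*} (x000 x001 x010 x011 x100 x101 x110 x111 : α) : Cu → α := fun c =>
  ![![![x000, x001], ![x010, x011]], ![![x100, x101], ![x110, x111]]] (c 0) (c 1) (c 2)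

theorem cu_eta (c : Cu) : c = cu (c 0) (c 1) (c 2) := by
  ext i
  fin_cases i <;> rfl

@[simp] theorem cu_zero (x y z : Fin 2) : cu x y z 0 = x := rfl
@[simp] theorem cu_one (x y z : Fin 2) : cu x y z 1 = y := rfl
@[simp] theorem cu_two (x y z : Fin 2) : cu x y z 2 = z := rfl

section cb

variable {α : Type*} (x000 x001 x010 x011 x100 x101 x110 x111 : α)

@[simp] theorem cb_000 : cb x000 x001 x010 x011 x100 x101 x110 x111 (cu 0 0 0) = x000 := rfl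
@[simp] theorem cb_001 : cb x000 x001 x010 x011 x100 x101 x110 x111 (cu 0 0 1) = x001 := rfl
@[simp] theorem cb_010 : cb x000 x001 x010 x011 x100 x101 x110 x111 (cu 0 1 0) = x010 := rfl
@[simp] theorem cb_011 : cb x000 x001 x010 x011 x100 x101 x110 x111 (cu 0 1 1) = x011 := rfl
@[simp] theorem cb_100 : cb x000 x001 x010 x011 x100 x101 x110 x111 (cu 1 0 0) = x100 := rfl
@[simp] theorem cb_101 : cb x000 x001 x010 x011 x100 x101 x110 x111 (cu 1 0 1) = x101 := rfl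
@[simp] theorem cb_110 : cb x000 x001 x010 x011 x100 x101 x110 x111 (cu 1 1 0) = x110 := rfl
@[simp] theorem cb_111 : cb x000 x001 x010 x011 x100 x101 x110 x111 (cu 1 1 1) = x111 := rfl

end cb

theorem cu_cases (c : Cu) : c = cu 0 0 0 ∨ c = cu 0 0 1 ∨ c = cu 0 1 0 ∨ c = cu 0 1 1 ∨
    c = cu 1 0 0 ∨ c = cu 1 0 1 ∨ c = cu 1 1 0 ∨ c = cu 1 1 1 := by
  revert c
  decide

theorem sum_cu {M : Type*} [AddCommMonoid M] (f : Cu → M) : ∑ c, f c =
    f (cu 0 0 0) + f (cu 0 0 1) + f (cu 0 1 0) + f (cu 0 1 1) + f (cu 1 0 0) + f (cu 1 0 1) +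
      f (cu 1 1 0) + f (cu 1 1 1) := by
  have h : (Finset.univ : Finset Cu) = {cu 0 0 0, cu 0 0 1, cu 0 1 0, cu 0 1 1, cu 1 0 0,
      cu 1 0 1, cu 1 1 0, cu 1 1 1} := by decide
  rw [h]
  repeat rw [Finset.sum_insert (by decide)]
  rw [Finset.sum_singleton]
  simp only [add_assoc]

variable {R : Type*} [CommRing R]

/-- explicit `4 × 4` determinant -/
def d4 (a b c d : Fin 4 → R) : R :=
  (a 0 * b 1 - a 1 * b 0) * (c 2 * d 3 - c 3 * d 2) -
  (a 0 * b 2 - a 2 * b 0) * (c 1 * d 3 - c 3 * d 1) +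
  (a 0 * b 3 - a 3 * b 0) * (c 1 * d 2 - c 2 * d 1) +
  (a 1 * b 2 - a 2 * b 1) * (c 0 * d 3 - c 3 * d 0) -
  (a 1 * b 3 - a 3 * b 1) * (c 0 * d 2 - c 2 * d 0) +
  (a 2 * b 3 - a 3 * b 2) * (c 0 * d 1 - c 1 * d 0)

theorem det_eq_d4 (M : Matrix (Fin 4) (Fin 4) R) : M.det = d4 (M 0) (M 1) (M 2) (M 3) := by
  rw [Matrix.det_succ_row_zero]
  simp only [Fin.sum_univ_four, Matrix.det_fin_three, Matrix.submatrix_apply, d4]
  simp [Fin.succAbove]
  ring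

/-- the tensor product of three `2 × 2` matrices -/
def kron (h : Fin 3 → Matrix (Fin 2) (Fin 2) R) : Matrix Cu Cu R :=
  Matrix.of fun b c => ∏ i, h i (b i) (c i)

theorem kron_apply (h : Fin 3 → Matrix (Fin 2) (Fin 2) R) (b c : Cu) :
    kron h b c = h 0 (b 0) (c 0) * h 1 (b 1) (c 1) * h 2 (b 2) (c 2) := by
  simp [kron, Fin.prod_univ_three]

theorem kron_mul (g h : Fin 3 → Matrix (Fin 2) (Fin 2) R) :
    kron (fun i => g i * h i) = kron g * kron h := by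
  ext b c
  simp only [Matrix.mul_apply, sum_cu, kron_apply, Fin.sum_univ_two, cu_zero, cu_one, cu_two]
  ring

/-- Pluecker coordinate -/
def Pl (M : Matrix Cu (Fin 4) R) (q : Fin 4 → Cu) : R := (M.submatrix q id).det

theorem Pl_eq (M : Matrix Cu (Fin 4) R) (q : Fin 4 → Cu) :
    Pl M q = d4 (M (q 0)) (M (q 1)) (M (q 2)) (M (q 3)) := det_eq_d4 _

/-- the symplectic form on two columns -/
def om (x y : Cu → R) : R :=
  x (cu 0 0 0) * y (cu 1 1 1) - x (cu 1 1 1) * y (cu 0 0 0) +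
  (x (cu 0 1 1) * y (cu 1 0 0) - x (cu 1 0 0) * y (cu 0 1 1)) +
  (x (cu 1 0 1) * y (cu 0 1 0) - x (cu 0 1 0) * y (cu 1 0 1)) +
  (x (cu 1 1 0) * y (cu 0 0 1) - x (cu 0 0 1) * y (cu 1 1 0))

/-- the columns span an isotropic subspace -/
def Lag (M : Matrix Cu (Fin 4) R) : Prop := ∀ i j, om (fun b => M b i) (fun b => M b j) = 0

theorem om_kron (h : Fin 3 → Matrix (Fin 2) (Fin 2) R) (x y : Cu → R) :
    om (kron h *ᵥ x) (kron h *ᵥ y) = (h 0).det * (h 1).det * (h 2).det * om x y := by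
  simp only [om, Matrix.mulVec, dotProduct, sum_cu, kron_apply, cu_zero, cu_one, cu_two,
    Matrix.det_fin_two]
  ring

theorem Lag.kron {M : Matrix Cu (Fin 4) R} (hM : Lag M) (h : Fin 3 → Matrix (Fin 2) (Fin 2) R) :
    Lag (kron h * M) := fun i j => by
  have h1 := om_kron h (fun b => M b i) (fun b => M b j)
  rw [hM, mul_zero] at h1
  exact h1

/-- the normal form -/
def M0 (a b T : R) : Matrix Cu (Fin 4) R :=
  Matrix.of (cb ![2 * T, 0, 0, 0] ![0, 1, 0, 0] ![0, 1, 0, 0] ![0, 0, 1, 0] ![0, 1, 0, 0]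
    ![0, 0, 0, 1] ![-(2 * a * T), 0, -1, -1] ![4 * b * T, a, 0, 0])

theorem lag_M0 (a b T : R) : Lag (M0 a b T) := fun i j => by
  fin_cases i <;> fin_cases j <;> simp [om, M0] <;> ring

/-- tangent quadruple -/
def qF : Fin 4 → Cu := ![cu 0 0 0, cu 1 0 0, cu 0 1 0, cu 0 0 1]

/-- face quadruples -/
def qf : Fin 3 → Fin 4 → Cu :=
  ![![cu 0 0 0, cu 0 0 1, cu 0 1 0, cu 0 1 1], ![cu 0 0 0, cu 1 0 0, cu 0 0 1, cu 1 0 1],
    ![cu 0 0 0, cu 0 1 0, cu 1 0 0, cu 1 1 0]]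

/-- unimodular matrices with first rows `pt5` -/
def G5 (R : Type*) [CommRing R] : Fin 5 → Matrix (Fin 2) (Fin 2) R :=
  ![!![1, 0; 0, 1], !![0, 1; -1, 0], !![1, 1; 0, 1], !![1, -1; 0, 1], !![1, 2; 0, 1]]

theorem G5_det (m : Fin 5) : (G5 R m).det = 1 := by
  fin_cases m <;> simp [G5, Matrix.det_fin_two]

theorem G5_row (m : Fin 5) : G5 R m 0 0 = ((pt5 m).1 : R) ∧ G5 R m 0 1 = ((pt5 m).2 : R) := by
  fin_cases m <;> simp [G5, pt5]

/-- value of the `(2,2,2)` form at three of the five points -/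
def YF (g : Fin 3 → Fin 5) (M : Matrix Cu (Fin 4) R) : R :=
  Pl (kron (fun i => G5 R (g i)) * M) qF

/-- value of the `i`-th quartic at one of the five points -/
def Yf (i : Fin 3) (m : Fin 5) (M : Matrix Cu (Fin 4) R) : R :=
  Pl (kron (fun l => G5 R (if l = i then m else 0)) * M) (qf i)

theorem kron_M0_row (h : Fin 3 → Matrix (Fin 2) (Fin 2) ℂ) (a b T : ℂ) (c : Cu) :
    (kron h * M0 a b T) c =
      ![T * (2 * kron h c (cu 0 0 0) - 2 * a * kron h c (cu 1 1 0) + 4 * b * kron h c (cu 1 1 1)),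
        kron h c (cu 0 0 1) + kron h c (cu 0 1 0) + kron h c (cu 1 0 0) + a * kron h c (cu 1 1 1),
        kron h c (cu 0 1 1) - kron h c (cu 1 1 0), kron h c (cu 1 0 1) - kron h c (cu 1 1 0)] := by
  ext j
  fin_cases j <;> simp [Matrix.mul_apply, sum_cu, M0] <;> ring

theorem Pl_qF (h : Fin 3 → Matrix (Fin 2) (Fin 2) ℂ) (a b T : ℂ) :
    Pl (kron h * M0 a b T) qF = (h 0).det * (h 1).det * (h 2).det *
      sTri a b T (uvec (h 0 0 0) (h 0 0 1)) (uvec (h 1 0 0) (h 1 0 1))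
        (uvec (h 2 0 0) (h 2 0 1)) := by
  simp only [Pl_eq, kron_M0_row, qF, d4, kron_apply, Matrix.det_fin_two, sTri, uvec,
    Matrix.cons_val_zero, Matrix.cons_val_one, Matrix.cons_val, cu_zero, cu_one, cu_two]
  ring

theorem Pl_qf0 (h : Fin 3 → Matrix (Fin 2) (Fin 2) ℂ) (a b T : ℂ) :
    Pl (kron h * M0 a b T) (qf 0) = (h 1).det ^ 2 * (h 2).det ^ 2 *
      sG a b T (uvec (h 0 0 0) (h 0 0 1)) (uvec (h 0 0 0) (h 0 0 1)) := by
  simp only [Pl_eq, kron_M0_row, qf, d4, kron_apply, Matrix.det_fin_two, sG, uvec,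
    Matrix.cons_val_zero, Matrix.cons_val_one, Matrix.cons_val, cu_zero, cu_one, cu_two]
  ring

theorem Pl_qf1 (h : Fin 3 → Matrix (Fin 2) (Fin 2) ℂ) (a b T : ℂ) :
    Pl (kron h * M0 a b T) (qf 1) = (h 0).det ^ 2 * (h 2).det ^ 2 *
      sG a b T (uvec (h 1 0 0) (h 1 0 1)) (uvec (h 1 0 0) (h 1 0 1)) := by
  simp only [Pl_eq, kron_M0_row, qf, d4, kron_apply, Matrix.det_fin_two, sG, uvec,
    Matrix.cons_val_zero, Matrix.cons_val_one, Matrix.cons_val, cu_zero, cu_one, cu_two]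
  ring

theorem Pl_qf2 (h : Fin 3 → Matrix (Fin 2) (Fin 2) ℂ) (a b T : ℂ) :
    Pl (kron h * M0 a b T) (qf 2) = (h 0).det ^ 2 * (h 1).det ^ 2 *
      sG a b T (uvec (h 2 0 0) (h 2 0 1)) (uvec (h 2 0 0) (h 2 0 1)) := by
  simp only [Pl_eq, kron_M0_row, qf, d4, kron_apply, Matrix.det_fin_two, sG, uvec,
    Matrix.cons_val_zero, Matrix.cons_val_one, Matrix.cons_val, cu_zero, cu_one, cu_two]
  ring

theorem Pl_qf (h : Fin 3 → Matrix (Fin 2) (Fin 2) ℂ) (hh : ∀ i, (h i).det = 1) (a b T : ℂ)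
    (i : Fin 3) : Pl (kron h * M0 a b T) (qf i) =
      sG a b T (uvec (h i 0 0) (h i 0 1)) (uvec (h i 0 0) (h i 0 1)) := by
  fin_cases i
  · simpa [hh] using Pl_qf0 h a b T
  · simpa [hh] using Pl_qf1 h a b T
  · simpa [hh] using Pl_qf2 h a b T

/-- first row of `G5 m * g` -/
noncomputable def rowv (m : Fin 5) (g : Matrix (Fin 2) (Fin 2) ℂ) : Fin 3 → ℂ :=
  uvec (((pt5 m).1 : ℂ) * g 0 0 + ((pt5 m).2 : ℂ) * g 1 0)
    (((pt5 m).1 : ℂ) * g 0 1 + ((pt5 m).2 : ℂ) * g 1 1)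

theorem uvec_G5_mul (m : Fin 5) (g : Matrix (Fin 2) (Fin 2) ℂ) :
    uvec ((G5 ℂ m * g) 0 0) ((G5 ℂ m * g) 0 1) = rowv m g := by
  simp only [Matrix.mul_apply, Fin.sum_univ_two, (G5_row m).1, (G5_row m).2, rowv]

theorem YF_kron (h : Fin 3 → Matrix (Fin 2) (Fin 2) ℂ) (hh : ∀ i, (h i).det = 1) (a b T : ℂ)
    (g : Fin 3 → Fin 5) : YF g (kron h * M0 a b T) =
      sTri a b T (rowv (g 0) (h 0)) (rowv (g 1) (h 1)) (rowv (g 2) (h 2)) := by
  rw [YF, ← Matrix.mul_assoc, ← kron_mul, Pl_qF]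
  simp only [Matrix.det_mul, G5_det, hh, one_mul, uvec_G5_mul]

theorem Yf_kron (h : Fin 3 → Matrix (Fin 2) (Fin 2) ℂ) (hh : ∀ i, (h i).det = 1) (a b T : ℂ)
    (i : Fin 3) (m : Fin 5) :
    Yf i m (kron h * M0 a b T) = sG a b T (rowv m (h i)) (rowv m (h i)) := by
  rw [Yf, ← Matrix.mul_assoc, ← kron_mul, Pl_qf _ (fun l => by
    rw [Matrix.det_mul, G5_det, hh, one_mul])]
  simp only [if_true, uvec_G5_mul]

end Pool.Agent.Lib.MP_775b3b_nt
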