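import Pool.Agent.Lib.MP_775b3b_nt.Defs

/-! Standard hyperbolic triples over `ℂ`. -/

namespace Pool.Agent.Lib.MP_775b3b_nt

/-- the Iwasawa coordinate -/
noncomputable def mu (w0 w1 : Fin 3 → ℂ) : ℂ :=
  (∑ i, w1 i * starRingEnd ℂ (w0 i)) / ∑ i, w0 i * starRingEnd ℂ (w0 i)

theorem mu_conj {w0 w1 w0' w1' : Fin 3 → ℂ} (h0 : ∀ i, w0' i = starRingEnd ℂ (w0 i))
    (h1 : ∀ i, w1' i = starRingEnd ℂ (w1 i)) : mu w0' w1' = starRingEnd ℂ (mu w0 w1) := by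
  simp only [mu, h0, h1, map_div₀, map_sum, map_mul]

variable {w0 w1 w2 : Fin 3 → ℂ}

theorem redcx_iso {w : Fin 3 → ℂ} (h : sB w w = 0) : ∃ a b, w = uvec a b := by
  obtain ⟨a, ha⟩ := IsAlgClosed.exists_pow_nat_eq (w 0) two_pos
  obtain ⟨b, hb⟩ := IsAlgClosed.exists_pow_nat_eq (-w 2 / 2) two_pos
  have h1 : w 1 ^ 2 = (2 * a * b) ^ 2 := by
    rw [sB] at h
    linear_combination h - 4 * b ^ 2 * ha - 4 * w 0 * hb
  have key : ∀ b : ℂ, b ^ 2 = -w 2 / 2 → w 1 = 2 * a * b → w = uvec a b := fun b hb h2 => by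
    ext i
    fin_cases i
    · exact ha.symm
    · exact h2
    · change w 2 = -2 * b ^ 2
      linear_combination 2 * hb
  rcases sq_eq_sq_iff_eq_or_eq_neg.1 h1 with h2 | h2
  · exact ⟨a, b, key b hb h2⟩
  · exact ⟨a, -b, key (-b) (by rw [neg_sq, hb]) (by rw [h2]; ring)⟩

theorem redcx_par (h : SHyp w0 w1 w2) : ∃ a b c d : ℂ, a * d - b * c = 1 ∧ w0 = uvec a b ∧
    w1 = ![a * c, a * d + b * c, -2 * b * d] ∧ w2 = ![-c ^ 2 / 2, -c * d, d ^ 2] := by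
  obtain ⟨h0, h2, h02, h1⟩ := h
  obtain ⟨a, b, rfl⟩ := redcx_iso h0
  obtain ⟨c, d, e⟩ := redcx_iso (w := (-2 : ℂ) • w2) (by
    simp only [sB, Pi.smul_apply, smul_eq_mul] at h2 ⊢
    linear_combination 4 * h2)
  have e2 : w2 = ![-c ^ 2 / 2, -c * d, d ^ 2] := by
    ext i
    have := congrFun e i
    fin_cases i <;> simp [uvec] at this ⊢
    exacts [by linear_combination (-1 / 2) * this, by linear_combination (-1 / 2) * this, this]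
  subst e2
  have h3 : (a * d - b * c) ^ 2 = 1 := by
    simp [sB, uvec] at h02
    linear_combination h02
  rcases sq_eq_one_iff.1 h3 with h4 | h4
  · refine ⟨a, b, c, d, h4, rfl, ?_, rfl⟩
    rw [h1]
    ext i
    fin_cases i <;> simp [sCross, uvec]
    · linear_combination a * c * h4
    · linear_combination (a * d + b * c) * h4
    · linear_combination (-2 * b * d) * h4
  · refine ⟨a, b, -c, -d, by linear_combination -h4, rfl, ?_, by simp⟩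
    rw [h1]
    ext i
    fin_cases i <;> simp [sCross, uvec]
    · linear_combination a * c * h4
    · linear_combination (a * d + b * c) * h4
    · linear_combination (-2 * b * d) * h4

/-- An isotropic vector `(α, β, γ)`, `β^2 = - 2 α γ`, is `uvec a b` (`a^2 = α`, `-2 b^2 = γ`, sign of
`b`).  `w0 = uvec a b`, `-2 • w2 = uvec c d`, `sB w0 w2 = (a d - b c)^2 = 1`; change the sign of
`(c, d)` if needed; then `w1 = (a c, a d + b c, -2 b d)`. -/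
theorem SHyp.exists_mat (h : SHyp w0 w1 w2) : ∃ g : Matrix (Fin 2) (Fin 2) ℂ, g.det = 1 ∧
    (∀ x y : ℂ, x ^ 2 • w0 + (2 * x * y) • w1 - (2 * y ^ 2) • w2 =
      uvec (x * g 0 0 + y * g 1 0) (x * g 0 1 + y * g 1 1)) ∧
    (∀ i, ‖g 0 i‖ ^ 2 ≤ ‖w0‖) ∧ ∀ i, ‖g 1 i‖ ^ 2 ≤ 2 * ‖w2‖ := by
  obtain ⟨a, b, c, d, h0, e0, e1, e2⟩ := redcx_par h
  refine ⟨!![a, b; c, d], by rw [Matrix.det_fin_two_of, h0], fun x y => ?_, fun i => ?_,
    fun i => ?_⟩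
  · rw [e0, e1, e2]
    ext i
    fin_cases i <;> simp [uvec] <;> ring
  · have h1 := norm_le_pi_norm w0 0
    have h2 := norm_le_pi_norm w0 2
    have h3 : ‖w0 0‖ = ‖a‖ ^ 2 := by simp [e0, uvec]
    have h4 : ‖w0 2‖ = 2 * ‖b‖ ^ 2 := by simp [e0, uvec]
    fin_cases i
    · exact h3.symm.trans_le h1
    · change ‖b‖ ^ 2 ≤ _
      linarith [sq_nonneg ‖b‖]
  · have h1 := norm_le_pi_norm w2 0
    have h2 := norm_le_pi_norm w2 2
    have h3 : ‖w2 0‖ = ‖c‖ ^ 2 / 2 := by simp [e2]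
    have h4 : ‖w2 2‖ = ‖d‖ ^ 2 := by simp [e2]
    fin_cases i
    · change ‖c‖ ^ 2 ≤ _
      linarith
    · change ‖d‖ ^ 2 ≤ _
      linarith [norm_nonneg w2]

theorem redcx_pi {x y z : ℂ} {r : ℝ} (hx : ‖x‖ ≤ r) (hy : ‖y‖ ≤ r) (hz : ‖z‖ ≤ r) :
    ‖![x, y, z]‖ ≤ r :=
  (pi_norm_le_iff_of_nonneg ((norm_nonneg x).trans hx)).2 fun i => by
    fin_cases i
    exacts [hx, hy, hz]

/-- With `μ = mu w0 w1`, `n = ∑ |w0 i|^2 ≥ ‖w0‖^2`: `w2 + μ w1 - μ^2/2 w0` equals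
`(conj (w0 2), conj (w0 1), conj (w0 0)) / n`, and `w1 - μ w0` is its cross product with `w0`.
(Either by expanding in the hyperbolic basis, or from `SHyp.exists_mat` by direct computation.) -/
theorem SHyp.norm_le (h : SHyp w0 w1 w2) : w0 ≠ 0 ∧ ‖w1 - mu w0 w1 • w0‖ ≤ 2 ∧
    ‖w2 + mu w0 w1 • w1 - (mu w0 w1 ^ 2 / 2) • w0‖ ≤ ‖w0‖⁻¹ := by
  obtain ⟨a, b, c, d, h0, e0, e1, e2⟩ := redcx_par h
  have hw : w0 ≠ 0 := fun e => by simpa [e, sB] using h.2.2.1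
  obtain ⟨σ, hσ⟩ : ∃ σ : ℝ, σ = ‖a‖ ^ 2 + 2 * ‖b‖ ^ 2 := ⟨_, rfl⟩
  have a1 : ‖a‖ ^ 2 ≤ σ := by linarith [sq_nonneg ‖b‖]
  have a2 : 2 * ‖a‖ * ‖b‖ ≤ σ := by linarith [sq_nonneg ‖b‖, sq_nonneg (‖a‖ - ‖b‖)]
  have a3 : 2 * ‖b‖ ^ 2 ≤ σ := by linarith [sq_nonneg ‖a‖]
  have a4 : ‖w0‖ ≤ σ := e0 ▸ redcx_pi (by simpa using a1) (by simpa using a2) (by simpa using a3)
  have a5 : 0 < ‖w0‖ := norm_pos_iff.2 hw
  have a6 : 0 < σ := a5.trans_le a4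
  have a7 : (σ : ℂ) ≠ 0 := Complex.ofReal_ne_zero.2 a6.ne'
  have a8 : (σ : ℂ) = a * starRingEnd ℂ a + 2 * (b * starRingEnd ℂ b) := by
    rw [Complex.mul_conj', Complex.mul_conj', hσ]
    push_cast
    rfl
  have b2 : starRingEnd ℂ 2 = 2 := map_ofNat _ 2
  have b0 : mu w0 w1 = (c * starRingEnd ℂ a + 2 * d * starRingEnd ℂ b) * (σ : ℂ)⁻¹ := by
    have n1 : ∑ i, w1 i * starRingEnd ℂ (w0 i) =
        (c * starRingEnd ℂ a + 2 * d * starRingEnd ℂ b) * σ := by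
      rw [a8]
      simp [e0, e1, uvec, Fin.sum_univ_three, b2]
      ring
    have n2 : ∑ i, w0 i * starRingEnd ℂ (w0 i) = σ * σ := by
      rw [a8]
      simp [e0, uvec, Fin.sum_univ_three, b2]
      ring
    rw [mu, n1, n2, mul_div_mul_right _ _ a7, div_eq_mul_inv]
  have b1 : (a * starRingEnd ℂ a + 2 * (b * starRingEnd ℂ b)) * (σ : ℂ)⁻¹ = 1 := by
    rw [← a8, mul_inv_cancel₀ a7]
  have hc : c = mu w0 w1 * a - 2 * starRingEnd ℂ b * (σ : ℂ)⁻¹ := by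
    rw [b0]
    linear_combination -c * b1 - 2 * starRingEnd ℂ b * (σ : ℂ)⁻¹ * h0
  have hd : d = mu w0 w1 * b + starRingEnd ℂ a * (σ : ℂ)⁻¹ := by
    rw [b0]
    linear_combination -d * b1 + starRingEnd ℂ a * (σ : ℂ)⁻¹ * h0
  generalize mu w0 w1 = μ at hc hd ⊢
  have f1 : w1 - μ • w0 = (σ : ℂ)⁻¹ • ![-2 * a * starRingEnd ℂ b,
      a * starRingEnd ℂ a - 2 * b * starRingEnd ℂ b, -2 * b * starRingEnd ℂ a] := by
    rw [e0, e1, hc, hd]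
    ext i
    fin_cases i <;> simp [uvec] <;> ring
  have f2 : w2 + μ • w1 - (μ ^ 2 / 2) • w0 = ((σ : ℂ)⁻¹ * (σ : ℂ)⁻¹) • ![-2 * starRingEnd ℂ b ^ 2,
      2 * starRingEnd ℂ a * starRingEnd ℂ b, starRingEnd ℂ a ^ 2] := by
    rw [e0, e1, e2, hc, hd]
    ext i
    fin_cases i <;> simp [uvec] <;> ring
  have n0 : ‖(σ : ℂ)⁻¹‖ = σ⁻¹ := by rw [norm_inv, Complex.norm_real, Real.norm_of_nonneg a6.le]
  refine ⟨hw, ?_, ?_⟩
  · rw [f1, norm_smul, n0, inv_mul_le_iff₀ a6]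
    refine (redcx_pi (r := σ) (by simpa using a2) ((norm_sub_le _ _).trans (le_of_eq ?_)) ?_).trans
      (by linarith)
    · simp [hσ, sq, mul_assoc]
    · simpa [mul_right_comm] using a2
  · rw [f2, norm_smul, norm_mul, n0, mul_assoc]
    refine (mul_le_of_le_one_right (inv_pos.2 a6).le ?_).trans (inv_anti₀ a5 a4)
    rw [inv_mul_le_iff₀ a6, mul_one]
    exact redcx_pi (by simpa using a3) (by simpa using a2) (by simpa using a1)

/-- with `w1* , w2*` the two vectors of `SHyp.norm_le`: `w1 + u w0 = w1* + (μ + u) w0`,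
`w2 - u w1 - u^2/2 w0 = w2* - (μ + u) w1* - (μ + u)^2/2 w0` -/
theorem SHyp.norm_translate (h : SHyp w0 w1 w2) (u : ℂ) :
    ‖w1 + u • w0‖ ≤ 2 + ‖u + mu w0 w1‖ * ‖w0‖ ∧
      ‖w2 - u • w1 - (u ^ 2 / 2) • w0‖ ≤
        ‖w0‖⁻¹ + 2 * ‖u + mu w0 w1‖ + ‖u + mu w0 w1‖ ^ 2 * ‖w0‖ := by
  obtain ⟨-, h1, h2⟩ := h.norm_le
  generalize mu w0 w1 = μ at h1 h2 ⊢
  constructor
  · rw [show w1 + u • w0 = (w1 - μ • w0) + (u + μ) • w0 by module]
    exact (norm_add_le _ _).trans (add_le_add h1 (norm_smul_le _ _))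
  · rw [show w2 - u • w1 - (u ^ 2 / 2) • w0 = (w2 + μ • w1 - (μ ^ 2 / 2) • w0) -
      (u + μ) • (w1 - μ • w0) - ((u + μ) ^ 2 / 2) • w0 by module]
    refine (norm_sub_le _ _).trans (add_le_add ((norm_sub_le _ _).trans (add_le_add h2 ?_)) ?_)
    · rw [norm_smul, mul_comm]
      exact mul_le_mul_of_nonneg_right h1 (norm_nonneg _)
    · rw [norm_smul, norm_div, norm_pow, Complex.norm_two]
      exact mul_le_mul_of_nonneg_right (half_le_self (sq_nonneg _)) (norm_nonneg _)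

/-- the vector is `(x + μ y)^2 w0 + 2 (x + μ y) y w1* - 2 y^2 w2*` -/
theorem SHyp.norm_conic (h : SHyp w0 w1 w2) (x y : ℂ) :
    ‖x ^ 2 • w0 + (2 * x * y) • w1 - (2 * y ^ 2) • w2‖ ≤ ‖x + y * mu w0 w1‖ ^ 2 * ‖w0‖ +
      4 * ‖x + y * mu w0 w1‖ * ‖y‖ + 2 * ‖y‖ ^ 2 * ‖w0‖⁻¹ := by
  obtain ⟨-, h1, h2⟩ := h.norm_le
  generalize mu w0 w1 = μ at h1 h2 ⊢
  rw [show x ^ 2 • w0 + (2 * x * y) • w1 - (2 * y ^ 2) • w2 = (x + y * μ) ^ 2 • w0 +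
    (2 * (x + y * μ) * y) • (w1 - μ • w0) - (2 * y ^ 2) • (w2 + μ • w1 - (μ ^ 2 / 2) • w0) by module]
  refine (norm_sub_le _ _).trans (add_le_add ((norm_add_le _ _).trans (add_le_add ?_ ?_)) ?_)
  · rw [norm_smul, norm_pow]
  · rw [norm_smul, norm_mul, norm_mul, Complex.norm_two]
    exact (mul_le_mul_of_nonneg_left h1 (by positivity)).trans_eq (by ring)
  · rw [norm_smul, norm_mul, norm_pow, Complex.norm_two]
    exact mul_le_mul_of_nonneg_left h2 (by positivity)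

end Pool.Agent.Lib.MP_775b3b_nt
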