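import Pool.Agent.Lib.MP_775b3b_nt.OrdP
import Pool.Agent.Lib.MP_775b3b_nt.Hyp

/-! The lattice attached to local data. -/

namespace Pool.Agent.Lib.MP_775b3b_nt

open Cub

variable {e : ℤ × ℤ} {k : Type*} [Field k] {d : (Cub e k)ˣ} {z : Nat.Primes → (Cub e k)ˣ}
  {x y : Cub e k}

theorem InLat.add (hx : InLat z x) (hy : InLat z y) : InLat z (x + y) := by
  intro p
  rw [mul_add]
  exact add_mem (hx p) (hy p)

theorem InLat.sub (hx : InLat z x) (hy : InLat z y) : InLat z (x - y) := by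
  intro p
  rw [mul_sub]
  exact sub_mem (hx p) (hy p)

theorem InLat.smul {a : k} (ha : IsIntegral ℤ a) (hx : InLat z x) : InLat z (a • x) := by
  intro p
  rw [mul_smul_comm]
  exact smul_mem_Ord (mem_intP_of_isIntegral ha) (hx p)

/-- `d x y = (d z^2) (z⁻¹ x) (z⁻¹ y)`, `isIntegral_of_forall_intP` -/
theorem Loc.isIntegral_Bf (h : Loc d z) (hx : InLat z x) (hy : InLat z y) :
    IsIntegral ℤ (Bf (d : Cub e k) x y) := by
  refine isIntegral_of_forall_intP fun p => ?_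
  have h1 := (mul_mem (mul_mem (h.2 p).1 (hx p)) (hy p)).2.2
  have h2 : ((d * z p ^ 2 : (Cub e k)ˣ) : Cub e k) * ((((z p)⁻¹ : (Cub e k)ˣ) : Cub e k) * x) *
      ((((z p)⁻¹ : (Cub e k)ˣ) : Cub e k) * y) = d * x * y := by
    rw [Units.val_mul, Units.val_pow_eq_pow_val]
    linear_combination ((d : Cub e k) * x * y *
      ((z p : Cub e k) * (((z p)⁻¹ : (Cub e k)ˣ) : Cub e k) + 1)) * (z p).mul_inv
  rwa [h2] at h1

theorem Loc.isIntegral_Gv (h : Loc d z) (hx : InLat z x) (hy : InLat z y) :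
    IsIntegral ℤ (Gv (d : Cub e k) x y) := by
  rw [Gv_eq_Bf']
  refine h.isIntegral_Bf (fun p => ?_) hy
  rw [mul_left_comm]
  exact mul_mem th_mem_Ord (hx p)

theorem redlat_nat (n : ℕ) : IsIntegral ℤ (n : k) := by
  simpa using isIntegral_algebraMap (R := ℤ) (A := k) (x := (n : ℤ))

theorem redlat_nu {ν : k} (hν : nm (d : Cub e k) = ν ^ 2) : ν ≠ 0 :=
  fun h0 => nm_ne_zero d (by rw [hν, h0, zero_pow two_ne_zero])

variable [NumberField k]

theorem redlat_clear (x : Cub e k) : ∃ m : ℕ, m ≠ 0 ∧ ∀ p, (m : k) • x ∈ Ord p e k := by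
  obtain ⟨a, ha, h0⟩ := exists_mul_isIntegral x.c0
  obtain ⟨b, hb, h1⟩ := exists_mul_isIntegral x.c1
  obtain ⟨c, hc, h2⟩ := exists_mul_isIntegral x.c2
  refine ⟨a * b * c, mul_ne_zero (mul_ne_zero ha hb) hc, fun p => ⟨mem_intP_of_isIntegral ?_,
    mem_intP_of_isIntegral ?_, mem_intP_of_isIntegral ?_⟩⟩
  · convert (redlat_nat (b * c)).mul h0 using 1
    rw [smul_c0, smul_eq_mul]
    push_cast
    ring
  · convert (redlat_nat (a * c)).mul h1 using 1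
    rw [smul_c1, smul_eq_mul]
    push_cast
    ring
  · convert (redlat_nat (a * b)).mul h2 using 1
    rw [smul_c2, smul_eq_mul]
    push_cast
    ring

/-- finitely many values `z p`; clear all denominators -/
theorem Loc.exists_mul (h : Loc d z) (x : Cub e k) : ∃ m : ℕ, m ≠ 0 ∧ InLat z ((m : k) • x) := by
  choose m hm h1 using fun u : (Cub e k)ˣ => redlat_clear (((u⁻¹ : (Cub e k)ˣ) : Cub e k) * x)
  refine ⟨∏ u ∈ h.1.toFinset, m u, Finset.prod_ne_zero_iff.2 fun u _ => hm u, fun p => ?_⟩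
  obtain ⟨q, hq⟩ := Finset.dvd_prod_of_mem m (h.1.mem_toFinset.2 ⟨p, rfl⟩)
  rw [hq, mul_smul_comm, Nat.cast_mul, mul_comm (m (z p) : k), mul_smul]
  exact smul_mem_Ord (natCast_mem _ q) (h1 _ p)

/-- `n = ordCompl[p] m` with `m` from `Loc.exists_mul` -/
theorem Loc.exists_mul_local (h : Loc d z) (p : Nat.Primes)
    (hx : (((z p)⁻¹ : (Cub e k)ˣ) : Cub e k) * x ∈ Ord p e k) :
    ∃ n : ℕ, ¬ (p : ℕ) ∣ n ∧ InLat z ((n : k) • x) := by
  obtain ⟨m, hm, h1⟩ := h.exists_mul x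
  obtain ⟨a, n, hn, rfl⟩ := Nat.exists_eq_pow_mul_and_not_dvd hm p p.2.ne_one
  refine ⟨n, hn, fun q => ?_⟩
  rw [mul_smul_comm]
  by_cases hq : q = p
  · rw [hq]
    exact smul_mem_Ord (natCast_mem _ n) hx
  · have h2 : ¬ (q : ℕ) ∣ (p : ℕ) ^ a := fun h3 =>
      hq (Subtype.ext ((Nat.prime_dvd_prime_iff_eq q.2 p.2).1 (q.2.dvd_of_dvd_pow h3)))
    have h3 := smul_mem_Ord (inv_natCast_mem_intP h2) (h1 q)
    rwa [mul_smul_comm, smul_smul, map_inv₀, map_natCast, Nat.cast_mul, inv_mul_cancel_left₀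
      (Nat.cast_ne_zero.2 (pow_ne_zero _ p.2.ne_zero))] at h3

/-- test against `n • (z p * θ^i)`; so `d x z p ∈ Ord p` (`c1_eq`, `c0_eq`), and
`(z p)⁻¹ x = (d z p^2)⁻¹ (d x z p)` -/
theorem Loc.dual (h : Loc d z)
    (hx : ∀ y, InLat z y → IsIntegral ℤ (Bf (d : Cub e k) x y)) : InLat z x := by
  intro p
  have h1 : ∀ r ∈ Ord p e k, ((d : Cub e k) * x * z p * r).c2 ∈ intP p k := fun r hr => by
    obtain ⟨n, hn, h2⟩ := h.exists_mul_local (x := (z p : Cub e k) * r) p (by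
      rwa [Units.inv_mul_cancel_left])
    have h3 := hx _ h2
    rw [Bf_smul_right, Bf, ← mul_assoc] at h3
    exact ⟨n, hn, h3⟩
  have h2 := h1 1 (one_mem _)
  rw [mul_one] at h2
  have h3 : (d : Cub e k) * x * z p ∈ Ord p e k := by
    refine ⟨?_, ?_, h2⟩
    · rw [c0_eq]
      exact add_mem (h1 _ (mul_mem th_mem_Ord th_mem_Ord)) (mul_mem (intCast_mem _ _) h2)
    · rw [c1_eq]
      exact h1 _ th_mem_Ord
  convert mul_mem (h.2 p).2 h3 using 1
  rw [Units.eq_inv_mul_iff_mul_eq, Units.val_mul, Units.val_pow_eq_pow_val]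
  linear_combination ((d : Cub e k) * x * z p) * (z p).mul_inv

/-- `x = z r`, `y = z r'`, `mul_cross_mul`: `z⁻¹ n = (d z^2)⁻¹ * (ν nm z) • cross r r'`, and
`(ν nm z)^2 = nm (d z^2) ∈ intP p k` -/
theorem Loc.cross (h : Loc d z) {ν : k} (hν : nm (d : Cub e k) = ν ^ 2) (hx : InLat z x)
    (hy : InLat z y) {n : Cub e k} (hn : (d : Cub e k) * n = ν • cross x y) : InLat z n := by
  intro p
  have h1 := mul_cross_mul (z p : Cub e k) ((((z p)⁻¹ : (Cub e k)ˣ) : Cub e k) * x)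
    ((((z p)⁻¹ : (Cub e k)ˣ) : Cub e k) * y)
  rw [Units.mul_inv_cancel_left, Units.mul_inv_cancel_left] at h1
  have h2 : ν * nm (z p : Cub e k) ∈ intP p k := mem_intP_of_sq (by
    have h3 := nm_mem_intP (h.2 p).1
    rwa [Units.val_mul, Units.val_pow_eq_pow_val, nm_mul, nm_pow, hν, ← mul_pow] at h3)
  have h3 := smul_mem_Ord h2 (cross_mem_Ord (hx p) (hy p))
  rw [mul_smul, ← h1, ← mul_smul_comm, ← hn] at h3
  convert mul_mem (h.2 p).2 h3 using 1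
  rw [Units.eq_inv_mul_iff_mul_eq, Units.val_mul, Units.val_pow_eq_pow_val]
  linear_combination ((d : Cub e k) * n * z p) * (z p).mul_inv

/-- the ideal of values `Bf d x y`, `y` in the lattice; nonzero by `eq_zero_of_c2` and
`Loc.exists_mul` -/
theorem Loc.exists_ideal (h : Loc d z) (hx : InLat z x) (hx0 : x ≠ 0) :
    ∃ b : Ideal (NumberField.RingOfIntegers k), b ≠ ⊥ ∧
      ∀ t : k, (∃ r ∈ b, (r : k) = t) ↔ ∃ y, InLat z y ∧ Bf (d : Cub e k) x y = t := by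
  let b : Ideal (NumberField.RingOfIntegers k) :=
    { carrier := {r | ∃ y, InLat z y ∧ Bf (d : Cub e k) x y = r}
      add_mem' := by
        rintro r s ⟨y, hy, h1⟩ ⟨y', hy', h2⟩
        exact ⟨y + y', hy.add hy', by rw [Bf_add_right, h1, h2]; rfl⟩
      zero_mem' := ⟨0, fun p => by rw [mul_zero]; exact zero_mem _, by simp [Bf]⟩
      smul_mem' := by
        rintro c r ⟨y, hy, h1⟩
        exact ⟨(c : k) • y, hy.smul c.isIntegral_coe, by rw [Bf_smul_right, h1]; rfl⟩ }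
  have hb : ∀ t : k, (∃ r ∈ b, (r : k) = t) ↔ ∃ y, InLat z y ∧ Bf (d : Cub e k) x y = t :=
    fun t => ⟨by
      rintro ⟨r, hr, rfl⟩
      exact hr, by
      rintro ⟨y, hy, rfl⟩
      exact ⟨⟨_, h.isIntegral_Bf hx hy⟩, ⟨y, hy, rfl⟩, rfl⟩⟩
  refine ⟨b, fun h0 => hx0 ((Units.mul_right_eq_zero d).1 (eq_zero_of_c2 fun y => ?_)), hb⟩
  obtain ⟨m, hm, h1⟩ := h.exists_mul y
  obtain ⟨r, hr, h2⟩ := (hb _).2 ⟨_, h1, rfl⟩
  rw [h0, Ideal.mem_bot] at hr
  rw [hr, Bf_smul_right] at h2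
  exact (mul_eq_zero.1 h2.symm).resolve_left (Nat.cast_ne_zero.2 hm)

/-- `v2 = w / n - (Bf w w / (2 n^2)) v0`, `v1` from `exists_cross` -/
theorem Loc.complete (h : Loc d z) {ν : k} (hν : nm (d : Cub e k) = ν ^ 2) {v0 w : Cub e k}
    (h0 : InLat z v0) (hw : InLat z w) (hiso : Bf (d : Cub e k) v0 v0 = 0) {n : ℕ} (hn : n ≠ 0)
    (hB : Bf (d : Cub e k) v0 w = n) : ∃ v1 v2, Hyp (d : Cub e k) ν v0 v1 v2 ∧
      InLat z (((2 * n ^ 2 : ℕ) : k) • v1) ∧ InLat z (((2 * n ^ 2 : ℕ) : k) • v2) := by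
  have n0 : (n : k) ≠ 0 := Nat.cast_ne_zero.2 hn
  set v2 := (n : k)⁻¹ • w - (Bf (d : Cub e k) w w / (2 * n ^ 2)) • v0 with hv
  obtain ⟨v1, h1⟩ := exists_cross hν (redlat_nu hν) v2 v0
  have h2 : InLat z (((2 * n ^ 2 : ℕ) : k) • v2) := by
    convert (hw.smul (redlat_nat (2 * n))).sub (h0.smul (h.isIntegral_Bf hw hw)) using 1
    rw [hv, smul_sub, smul_smul, smul_smul]
    congr 2 <;> push_cast <;> field_simp
  refine ⟨v1, v2, ⟨hν, redlat_nu hν, hiso, ?_, ?_, h1⟩, h.cross hν h2 h0 ?_, h2⟩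
  · simp only [hv, Bf_sub_left, Bf_sub_right, Bf_smul_left, Bf_smul_right, hiso, hB,
      Bf_comm (d : Cub e k) w v0]
    field_simp
    ring
  · rw [hv, Bf_sub_right, Bf_smul_right, Bf_smul_right, hiso, hB, mul_zero, sub_zero,
      inv_mul_cancel₀ n0]
  · rw [mul_smul_comm, h1, cross_smul_left, smul_comm]

end Pool.Agent.Lib.MP_775b3b_nt
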