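import Pool.Agent.Lib.MP_775b3b_nt.Gal2
import Pool.Agent.Lib.MP_775b3b_nt.Pl
import Pool.Agent.Lib.MP_775b3b_nt.RedLat
import Pool.Agent.Lib.MP_775b3b_nt.RedCx
import Pool.Agent.Lib.MP_775b3b_nt.Coord

/-! The Lagrangian of a reduced class, and rationality of its Pluecker coordinates. -/

namespace Pool.Agent.Lib.MP_775b3b_nt

open Cub

theorem frame_perm_cases (π : Equiv.Perm (Fin 3)) :
    (π 0 = 0 ∧ π 1 = 1 ∧ π 2 = 2 ∧ Equiv.Perm.sign π = 1) ∨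
    (π 0 = 0 ∧ π 1 = 2 ∧ π 2 = 1 ∧ Equiv.Perm.sign π = -1) ∨
    (π 0 = 1 ∧ π 1 = 0 ∧ π 2 = 2 ∧ Equiv.Perm.sign π = -1) ∨
    (π 0 = 1 ∧ π 1 = 2 ∧ π 2 = 0 ∧ Equiv.Perm.sign π = 1) ∨
    (π 0 = 2 ∧ π 1 = 0 ∧ π 2 = 1 ∧ Equiv.Perm.sign π = 1) ∨
    (π 0 = 2 ∧ π 1 = 1 ∧ π 2 = 0 ∧ Equiv.Perm.sign π = -1) := by
  revert π
  decide

theorem frame_M0_perm (π : Equiv.Perm (Fin 3)) (a b T : ℂ) :
    ∃ D : Matrix (Fin 4) (Fin 4) ℂ, D.det = ((Equiv.Perm.sign π : ℤ) : ℂ) ∧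
      ∀ (c : Cu) (j : Fin 4), M0 a b T (c ∘ π) j = (M0 a b T * D) c j := by
  have hc : ∀ c : Cu, c ∘ π = cu (c (π 0)) (c (π 1)) (c (π 2)) := fun c => cu_eta _
  refine ⟨Matrix.of ![![1, 0, 0, 0], ![0, 1, 0, 0], M0 a b T (cu 0 1 1 ∘ π),
    M0 a b T (cu 1 0 1 ∘ π)], ?_, fun c j => ?_⟩
  · rw [det_eq_d4]
    rcases frame_perm_cases π with ⟨h0, h1, h2, hs⟩ | ⟨h0, h1, h2, hs⟩ | ⟨h0, h1, h2, hs⟩ |
      ⟨h0, h1, h2, hs⟩ | ⟨h0, h1, h2, hs⟩ | ⟨h0, h1, h2, hs⟩ <;>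
    simp [hc, h0, h1, h2, hs, d4, M0]
  · rcases frame_perm_cases π with ⟨h0, h1, h2, -⟩ | ⟨h0, h1, h2, -⟩ | ⟨h0, h1, h2, -⟩ |
      ⟨h0, h1, h2, -⟩ | ⟨h0, h1, h2, -⟩ | ⟨h0, h1, h2, -⟩ <;>
    simp only [hc, h0, h1, h2, Matrix.mul_apply, Fin.sum_univ_four] <;>
    rcases cu_cases c with rfl | rfl | rfl | rfl | rfl | rfl | rfl | rfl <;>
    fin_cases j <;> simp [M0]

theorem frame_kron_perm (π : Equiv.Perm (Fin 3)) (h : Fin 3 → Matrix (Fin 2) (Fin 2) ℂ)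
    (b c : Cu) : kron (fun i => h (π i)) b (c ∘ π) = kron h (b ∘ π.symm) c := by
  simp only [kron, Matrix.of_apply]
  rw [← Equiv.prod_comp π (fun i => h i ((b ∘ π.symm) i) (c i))]
  simp

/-- `M0 (c ∘ π) = (M0 * D) c` for a matrix `D` of determinant `sign π` (six cases; `D` has rows
`e0`, `e1`, `M0 (cu 0 1 1 ∘ π)`, `M0 (cu 1 0 1 ∘ π)`), and
`kron (h ∘ π) b c = kron h (b ∘ π.symm) (c ∘ π.symm)` (`Equiv.prod_comp`); reindex the sum over `c` -/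
theorem Pl_perm (π : Equiv.Perm (Fin 3)) (h : Fin 3 → Matrix (Fin 2) (Fin 2) ℂ) (a b T : ℂ)
    (q : Fin 4 → Cu) : Pl (kron (fun i => h (π i)) * M0 a b T) q =
      ((Equiv.Perm.sign π : ℤ) : ℂ) * Pl (kron h * M0 a b T) (fun l => q l ∘ π.symm) := by
  obtain ⟨D, hD, hM⟩ := frame_M0_perm π a b T
  have key : (kron (fun i => h (π i)) * M0 a b T).submatrix q id =
      (kron h * M0 a b T).submatrix (fun l => q l ∘ π.symm) id * D := by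
    ext l j
    have e1 : ((kron h * M0 a b T).submatrix (fun l => q l ∘ π.symm) id * D) l j =
        (kron h * (M0 a b T * D)) (q l ∘ π.symm) j := by
      rw [← Matrix.mul_assoc]
      simp [Matrix.mul_apply]
    rw [e1, Matrix.submatrix_apply, Matrix.mul_apply, Matrix.mul_apply,
      ← Equiv.sum_comp (Equiv.arrowCongr π.symm (Equiv.refl (Fin 2)))]
    refine Finset.sum_congr rfl fun c _ => ?_
    have e2 : Equiv.arrowCongr π.symm (Equiv.refl (Fin 2)) c = c ∘ π := by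
      ext i; simp
    rw [e2, frame_kron_perm, id, hM]
  rw [Pl, key, Matrix.det_mul, hD, mul_comm, Pl]

/-- multilinearity of `Matrix.detRowAlternating` (`MultilinearMap.map_sum`, `map_smul_univ`) -/
theorem det_mul_eq_sum {R : Type*} [CommRing R] (Φ : Matrix (Fin 4) Cu R)
    (M : Matrix Cu (Fin 4) R) : (Φ * M).det = ∑ q : Fin 4 → Cu, (∏ l, Φ l (q l)) * Pl M q := by
  have h1 : (Φ * M).det =
      (Matrix.detRowAlternating (n := Fin 4) (R := R)).toMultilinearMap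
        (fun l => ∑ c : Cu, Φ l c • M c) := by
    have : (fun l => ∑ c : Cu, Φ l c • M c) = Φ * M := by
      ext l j
      simp [Matrix.mul_apply, Finset.sum_apply]
    rw [this]
    rfl
  rw [h1, MultilinearMap.map_sum]
  refine Finset.sum_congr rfl fun q _ => ?_
  rw [MultilinearMap.map_smul_univ, smul_eq_mul]
  rfl

variable {K Kt : Type*} [Field K] [NumberField K] [Field Kt] [NumberField Kt] (S : Setup K Kt)
  {e : ℤ × ℤ}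

/-- three unimodular matrices describing the basis `v0, v1, v2` at the three embeddings -/
structure Setup.Frame (T : ℝ) (ε : (K →+* ℂ) → Cub e ℂ) (v0 v1 v2 : Cub e K)
    (h : Fin 3 → Matrix (Fin 2) (Fin 2) ℂ) : Prop where
  det : ∀ i, (h i).det = 1
  row : ∀ i m, rowv m (h i) = im T ε (S.emb i) (Vq v0 v1 v2 (pt5 m).1 (pt5 m).2)

/-- the Lagrangian -/
noncomputable def lagr (e : ℤ × ℤ) (T : ℝ) (h : Fin 3 → Matrix (Fin 2) (Fin 2) ℂ) :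
    Matrix Cu (Fin 4) ℂ := kron h * M0 ((e.1 : ℂ) / T ^ 2) ((e.2 : ℂ) / T ^ 3) T

theorem lag_lagr (e : ℤ × ℤ) (T : ℝ) (h : Fin 3 → Matrix (Fin 2) (Fin 2) ℂ) : Lag (lagr e T h) :=
  (lag_M0 _ _ _).kron h

/-- `Eps.sHyp`, `SHyp.exists_mat` -/
theorem Setup.exists_frame {N : ℕ} {C T : ℝ} (hC : 1 ≤ C) (hT : T ≠ 0) {d : Cub e K} {ν : K}
    {z : Nat.Primes → (Cub e K)ˣ} {ε : (K →+* ℂ) → Cub e ℂ} {j : ℕ} {v0 v1 v2 : Cub e K}
    (hε : Eps d ν ε) (hv : Red N C T d ν z ε j v0 v1 v2) : ∃ h, S.Frame T ε v0 v1 v2 h ∧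
      ∀ i l, ‖h i 0 l‖ ≤ 2 * C / 2 ^ j ∧ ‖h i 1 l‖ ≤ 2 * C * 2 ^ j := by
  choose h hd hrow h0 h1 using fun i => (hε.sHyp hT hv.hyp (S.emb i)).exists_mat
  refine ⟨h, ⟨hd, fun i m => ?_⟩, fun i l => ⟨?_, ?_⟩⟩
  · rw [rowv, ← hrow i, Vq, im_sub, im_add, im_smul, im_smul, im_smul]
    simp only [map_mul, map_pow, map_intCast, map_ofNat]
  · refine (pow_le_pow_iff_left₀ (norm_nonneg _) (by positivity) two_ne_zero).1
      ((h0 i l).trans ((hv.s0 _).trans ?_))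
    have e4 : (4 : ℝ) ^ j = (2 ^ j) ^ 2 := by
      rw [← pow_mul, mul_comm, pow_mul]; norm_num
    rw [div_pow, e4]
    gcongr
    nlinarith
  · refine (pow_le_pow_iff_left₀ (norm_nonneg _) (by positivity) two_ne_zero).1
      ((h1 i l).trans ?_)
    have e4 : (4 : ℝ) ^ j = (2 ^ j) ^ 2 := by
      rw [← pow_mul, mul_comm, pow_mul]; norm_num
    have h2 := hv.s2 (S.emb i)
    rw [e4] at h2
    have h3 : 2 * C ≤ (2 * C) ^ 2 := by nlinarith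
    calc 2 * ‖im T ε (S.emb i) v2‖ ≤ 2 * C * (2 ^ j) ^ 2 := by linarith
      _ ≤ (2 * C) ^ 2 * (2 ^ j) ^ 2 := by gcongr
      _ = (2 * C * 2 ^ j) ^ 2 := by ring

/-- `Yf_kron`, `Eps.sG_im` -/
theorem Setup.Frame.Yf_eq {T : ℝ} (hT : T ≠ 0) {d : Cub e K} {ν : K} {ε : (K →+* ℂ) → Cub e ℂ}
    {v0 v1 v2 : Cub e K} {h : Fin 3 → Matrix (Fin 2) (Fin 2) ℂ} (hε : Eps d ν ε)
    (hh : S.Frame T ε v0 v1 v2 h) (π : Equiv.Perm (Fin 3)) (i : Fin 3) (m : Fin 5) :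
    Yf i m (lagr e T (fun l => h (π l))) =
      S.emb (π i) (quart d v0 v1 v2 (pt5 m).1 (pt5 m).2) := by
  rw [lagr, Yf_kron _ (fun l => hh.det (π l)), hh.row, hε.sG_im hT, quart]

end Pool.Agent.Lib.MP_775b3b_nt
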