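import Pool.Agent.Lib.MP_775b3b_nt.Pl

/-! Every Pluecker coordinate of a Lagrangian is an integral combination, over 24, of values of
the `(2,2,2)` form and of the three quartics. -/

namespace Pool.Agent.Lib.MP_775b3b_nt

open Matrix

set_option linter.unusedSimpArgs false
set_option linter.unnecessarySeqFocus false

/-- integral combinations of the values `YF`, `Yf`, as functions on Lagrangians -/
inductive Sp : (Matrix Cu (Fin 4) ℂ → ℂ) → Prop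
  | F (g : Fin 3 → Fin 5) : Sp (YF g)
  | f (i : Fin 3) (m : Fin 5) : Sp (Yf i m)
  | add {u v : Matrix Cu (Fin 4) ℂ → ℂ} : Sp u → Sp v → Sp (fun M => u M + v M)
  | smul (n : ℤ) {u : Matrix Cu (Fin 4) ℂ → ℂ} : Sp u → Sp (fun M => (n : ℂ) * u M)
  | congr {u v : Matrix Cu (Fin 4) ℂ → ℂ} : Sp u → (∀ M, Lag M → v M = u M) → Sp v

theorem G5_00 : G5 ℂ 0 0 0 = 1 ∧ G5 ℂ 0 0 1 = 0 ∧ G5 ℂ 0 1 0 = 0 ∧ G5 ℂ 0 1 1 = 1 :=
  ⟨rfl, rfl, rfl, rfl⟩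
theorem G5_01 : G5 ℂ 1 0 0 = 0 ∧ G5 ℂ 1 0 1 = 1 ∧ G5 ℂ 1 1 0 = -1 ∧ G5 ℂ 1 1 1 = 0 :=
  ⟨rfl, rfl, rfl, rfl⟩
theorem G5_02 : G5 ℂ 2 0 0 = 1 ∧ G5 ℂ 2 0 1 = 1 ∧ G5 ℂ 2 1 0 = 0 ∧ G5 ℂ 2 1 1 = 1 :=
  ⟨rfl, rfl, rfl, rfl⟩
theorem G5_03 : G5 ℂ 3 0 0 = 1 ∧ G5 ℂ 3 0 1 = -1 ∧ G5 ℂ 3 1 0 = 0 ∧ G5 ℂ 3 1 1 = 1 :=
  ⟨rfl, rfl, rfl, rfl⟩
theorem G5_04 : G5 ℂ 4 0 0 = 1 ∧ G5 ℂ 4 0 1 = 2 ∧ G5 ℂ 4 1 0 = 0 ∧ G5 ℂ 4 1 1 = 1 :=
  ⟨rfl, rfl, rfl, rfl⟩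

theorem YF_eq (a b c : Fin 5) (M : Matrix Cu (Fin 4) ℂ) : YF ![a, b, c] M =
    d4 (fun j => ∑ x : Cu, G5 ℂ a 0 (x 0) * G5 ℂ b 0 (x 1) * G5 ℂ c 0 (x 2) * M x j)
      (fun j => ∑ x : Cu, G5 ℂ a 1 (x 0) * G5 ℂ b 0 (x 1) * G5 ℂ c 0 (x 2) * M x j)
      (fun j => ∑ x : Cu, G5 ℂ a 0 (x 0) * G5 ℂ b 1 (x 1) * G5 ℂ c 0 (x 2) * M x j)
      (fun j => ∑ x : Cu, G5 ℂ a 0 (x 0) * G5 ℂ b 0 (x 1) * G5 ℂ c 1 (x 2) * M x j) := by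
  simp only [YF, Pl_eq, d4, Matrix.mul_apply, kron_apply]
  rfl

theorem Yf0_eq (a : Fin 5) (M : Matrix Cu (Fin 4) ℂ) : Yf 0 a M =
    d4 (fun j => ∑ x : Cu, G5 ℂ a 0 (x 0) * G5 ℂ 0 0 (x 1) * G5 ℂ 0 0 (x 2) * M x j)
      (fun j => ∑ x : Cu, G5 ℂ a 0 (x 0) * G5 ℂ 0 0 (x 1) * G5 ℂ 0 1 (x 2) * M x j)
      (fun j => ∑ x : Cu, G5 ℂ a 0 (x 0) * G5 ℂ 0 1 (x 1) * G5 ℂ 0 0 (x 2) * M x j)
      (fun j => ∑ x : Cu, G5 ℂ a 0 (x 0) * G5 ℂ 0 1 (x 1) * G5 ℂ 0 1 (x 2) * M x j) := by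
  simp only [Yf, Pl_eq, d4, Matrix.mul_apply, kron_apply]
  rfl

theorem Yf1_eq (a : Fin 5) (M : Matrix Cu (Fin 4) ℂ) : Yf 1 a M =
    d4 (fun j => ∑ x : Cu, G5 ℂ 0 0 (x 0) * G5 ℂ a 0 (x 1) * G5 ℂ 0 0 (x 2) * M x j)
      (fun j => ∑ x : Cu, G5 ℂ 0 1 (x 0) * G5 ℂ a 0 (x 1) * G5 ℂ 0 0 (x 2) * M x j)
      (fun j => ∑ x : Cu, G5 ℂ 0 0 (x 0) * G5 ℂ a 0 (x 1) * G5 ℂ 0 1 (x 2) * M x j)
      (fun j => ∑ x : Cu, G5 ℂ 0 1 (x 0) * G5 ℂ a 0 (x 1) * G5 ℂ 0 1 (x 2) * M x j) := by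
  simp only [Yf, Pl_eq, d4, Matrix.mul_apply, kron_apply]
  rfl

theorem Yf2_eq (a : Fin 5) (M : Matrix Cu (Fin 4) ℂ) : Yf 2 a M =
    d4 (fun j => ∑ x : Cu, G5 ℂ 0 0 (x 0) * G5 ℂ 0 0 (x 1) * G5 ℂ a 0 (x 2) * M x j)
      (fun j => ∑ x : Cu, G5 ℂ 0 0 (x 0) * G5 ℂ 0 1 (x 1) * G5 ℂ a 0 (x 2) * M x j)
      (fun j => ∑ x : Cu, G5 ℂ 0 1 (x 0) * G5 ℂ 0 0 (x 1) * G5 ℂ a 0 (x 2) * M x j)
      (fun j => ∑ x : Cu, G5 ℂ 0 1 (x 0) * G5 ℂ 0 1 (x 1) * G5 ℂ a 0 (x 2) * M x j) := by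
  simp only [Yf, Pl_eq, d4, Matrix.mul_apply, kron_apply]
  rfl

theorem lag_rel {M : Matrix Cu (Fin 4) ℂ} (hM : Lag M) (x y : Fin 4 → ℂ) :
    d4 x y (M (cu 0 0 0)) (M (cu 1 1 1)) + d4 x y (M (cu 0 1 1)) (M (cu 1 0 0)) +
      d4 x y (M (cu 1 0 1)) (M (cu 0 1 0)) + d4 x y (M (cu 1 1 0)) (M (cu 0 0 1)) = 0 := by
  have h01 := hM 0 1
  have h02 := hM 0 2
  have h03 := hM 0 3
  have h12 := hM 1 2
  have h13 := hM 1 3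
  have h23 := hM 2 3
  simp only [om] at h01 h02 h03 h12 h13 h23
  simp only [d4]
  linear_combination (x 0 * y 1 - x 1 * y 0) * h23 - (x 0 * y 2 - x 2 * y 0) * h13 +
    (x 0 * y 3 - x 3 * y 0) * h12 + (x 1 * y 2 - x 2 * y 1) * h03 -
    (x 1 * y 3 - x 3 * y 1) * h02 + (x 2 * y 3 - x 3 * y 2) * h01

theorem eF000 (M : Matrix Cu (Fin 4) ℂ) : YF ![0, 0, 0] M =
      -d4 (M (cu 0 0 0)) (M (cu 0 0 1)) (M (cu 0 1 0)) (M (cu 1 0 0)) := by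
  simp only [YF_eq, sum_cu, cu_zero, cu_one, cu_two, G5_00, G5_01, G5_02, G5_03, G5_04, d4,
    mul_zero, zero_mul, mul_one, one_mul, add_zero, zero_add] <;> ring

theorem eF001 (M : Matrix Cu (Fin 4) ℂ) : YF ![0, 0, 1] M =
      -d4 (M (cu 0 0 0)) (M (cu 0 0 1)) (M (cu 0 1 1)) (M (cu 1 0 1)) := by
  simp only [YF_eq, sum_cu, cu_zero, cu_one, cu_two, G5_00, G5_01, G5_02, G5_03, G5_04, d4,
    mul_zero, zero_mul, mul_one, one_mul, add_zero, zero_add] <;> ring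

theorem eF002 (M : Matrix Cu (Fin 4) ℂ) : YF ![0, 0, 2] M =
      -d4 (M (cu 0 0 0)) (M (cu 0 0 1)) (M (cu 0 1 0)) (M (cu 1 0 0))
      - d4 (M (cu 0 0 0)) (M (cu 0 0 1)) (M (cu 0 1 0)) (M (cu 1 0 1))
      - d4 (M (cu 0 0 0)) (M (cu 0 0 1)) (M (cu 0 1 1)) (M (cu 1 0 0))
      - d4 (M (cu 0 0 0)) (M (cu 0 0 1)) (M (cu 0 1 1)) (M (cu 1 0 1)) := by
  simp only [YF_eq, sum_cu, cu_zero, cu_one, cu_two, G5_00, G5_01, G5_02, G5_03, G5_04, d4,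
    mul_zero, zero_mul, mul_one, one_mul, add_zero, zero_add] <;> ring

theorem eF010 (M : Matrix Cu (Fin 4) ℂ) : YF ![0, 1, 0] M =
      d4 (M (cu 0 0 0)) (M (cu 0 1 0)) (M (cu 0 1 1)) (M (cu 1 1 0)) := by
  simp only [YF_eq, sum_cu, cu_zero, cu_one, cu_two, G5_00, G5_01, G5_02, G5_03, G5_04, d4,
    mul_zero, zero_mul, mul_one, one_mul, add_zero, zero_add] <;> ring

theorem eF011 (M : Matrix Cu (Fin 4) ℂ) : YF ![0, 1, 1] M =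
      d4 (M (cu 0 0 1)) (M (cu 0 1 0)) (M (cu 0 1 1)) (M (cu 1 1 1)) := by
  simp only [YF_eq, sum_cu, cu_zero, cu_one, cu_two, G5_00, G5_01, G5_02, G5_03, G5_04, d4,
    mul_zero, zero_mul, mul_one, one_mul, add_zero, zero_add] <;> ring

theorem eF012 (M : Matrix Cu (Fin 4) ℂ) : YF ![0, 1, 2] M =
      d4 (M (cu 0 0 0)) (M (cu 0 1 0)) (M (cu 0 1 1)) (M (cu 1 1 0))
      + d4 (M (cu 0 0 0)) (M (cu 0 1 0)) (M (cu 0 1 1)) (M (cu 1 1 1))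
      + d4 (M (cu 0 0 1)) (M (cu 0 1 0)) (M (cu 0 1 1)) (M (cu 1 1 0))
      + d4 (M (cu 0 0 1)) (M (cu 0 1 0)) (M (cu 0 1 1)) (M (cu 1 1 1)) := by
  simp only [YF_eq, sum_cu, cu_zero, cu_one, cu_two, G5_00, G5_01, G5_02, G5_03, G5_04, d4,
    mul_zero, zero_mul, mul_one, one_mul, add_zero, zero_add] <;> ring

theorem eF020 (M : Matrix Cu (Fin 4) ℂ) : YF ![0, 2, 0] M =
      -d4 (M (cu 0 0 0)) (M (cu 0 0 1)) (M (cu 0 1 0)) (M (cu 1 0 0))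
      - d4 (M (cu 0 0 0)) (M (cu 0 0 1)) (M (cu 0 1 0)) (M (cu 1 1 0))
      + d4 (M (cu 0 0 0)) (M (cu 0 1 0)) (M (cu 0 1 1)) (M (cu 1 0 0))
      + d4 (M (cu 0 0 0)) (M (cu 0 1 0)) (M (cu 0 1 1)) (M (cu 1 1 0)) := by
  simp only [YF_eq, sum_cu, cu_zero, cu_one, cu_two, G5_00, G5_01, G5_02, G5_03, G5_04, d4,
    mul_zero, zero_mul, mul_one, one_mul, add_zero, zero_add] <;> ring

theorem eF021 (M : Matrix Cu (Fin 4) ℂ) : YF ![0, 2, 1] M =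
      -d4 (M (cu 0 0 0)) (M (cu 0 0 1)) (M (cu 0 1 1)) (M (cu 1 0 1))
      - d4 (M (cu 0 0 0)) (M (cu 0 0 1)) (M (cu 0 1 1)) (M (cu 1 1 1))
      + d4 (M (cu 0 0 1)) (M (cu 0 1 0)) (M (cu 0 1 1)) (M (cu 1 0 1))
      + d4 (M (cu 0 0 1)) (M (cu 0 1 0)) (M (cu 0 1 1)) (M (cu 1 1 1)) := by
  simp only [YF_eq, sum_cu, cu_zero, cu_one, cu_two, G5_00, G5_01, G5_02, G5_03, G5_04, d4,
    mul_zero, zero_mul, mul_one, one_mul, add_zero, zero_add] <;> ring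

theorem eF022 (M : Matrix Cu (Fin 4) ℂ) : YF ![0, 2, 2] M =
      -d4 (M (cu 0 0 0)) (M (cu 0 0 1)) (M (cu 0 1 0)) (M (cu 1 0 0))
      - d4 (M (cu 0 0 0)) (M (cu 0 0 1)) (M (cu 0 1 0)) (M (cu 1 0 1))
      - d4 (M (cu 0 0 0)) (M (cu 0 0 1)) (M (cu 0 1 0)) (M (cu 1 1 0))
      - d4 (M (cu 0 0 0)) (M (cu 0 0 1)) (M (cu 0 1 0)) (M (cu 1 1 1))
      - d4 (M (cu 0 0 0)) (M (cu 0 0 1)) (M (cu 0 1 1)) (M (cu 1 0 0))
      - d4 (M (cu 0 0 0)) (M (cu 0 0 1)) (M (cu 0 1 1)) (M (cu 1 0 1))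
      - d4 (M (cu 0 0 0)) (M (cu 0 0 1)) (M (cu 0 1 1)) (M (cu 1 1 0))
      - d4 (M (cu 0 0 0)) (M (cu 0 0 1)) (M (cu 0 1 1)) (M (cu 1 1 1))
      + d4 (M (cu 0 0 0)) (M (cu 0 1 0)) (M (cu 0 1 1)) (M (cu 1 0 0))
      + d4 (M (cu 0 0 0)) (M (cu 0 1 0)) (M (cu 0 1 1)) (M (cu 1 0 1))
      + d4 (M (cu 0 0 0)) (M (cu 0 1 0)) (M (cu 0 1 1)) (M (cu 1 1 0))
      + d4 (M (cu 0 0 0)) (M (cu 0 1 0)) (M (cu 0 1 1)) (M (cu 1 1 1))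
      + d4 (M (cu 0 0 1)) (M (cu 0 1 0)) (M (cu 0 1 1)) (M (cu 1 0 0))
      + d4 (M (cu 0 0 1)) (M (cu 0 1 0)) (M (cu 0 1 1)) (M (cu 1 0 1))
      + d4 (M (cu 0 0 1)) (M (cu 0 1 0)) (M (cu 0 1 1)) (M (cu 1 1 0))
      + d4 (M (cu 0 0 1)) (M (cu 0 1 0)) (M (cu 0 1 1)) (M (cu 1 1 1)) := by
  simp only [YF_eq, sum_cu, cu_zero, cu_one, cu_two, G5_00, G5_01, G5_02, G5_03, G5_04, d4,
    mul_zero, zero_mul, mul_one, one_mul, add_zero, zero_add] <;> ring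

theorem eF100 (M : Matrix Cu (Fin 4) ℂ) : YF ![1, 0, 0] M =
      -d4 (M (cu 0 0 0)) (M (cu 1 0 0)) (M (cu 1 0 1)) (M (cu 1 1 0)) := by
  simp only [YF_eq, sum_cu, cu_zero, cu_one, cu_two, G5_00, G5_01, G5_02, G5_03, G5_04, d4,
    mul_zero, zero_mul, mul_one, one_mul, add_zero, zero_add] <;> ring

theorem eF101 (M : Matrix Cu (Fin 4) ℂ) : YF ![1, 0, 1] M =
      -d4 (M (cu 0 0 1)) (M (cu 1 0 0)) (M (cu 1 0 1)) (M (cu 1 1 1)) := by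
  simp only [YF_eq, sum_cu, cu_zero, cu_one, cu_two, G5_00, G5_01, G5_02, G5_03, G5_04, d4,
    mul_zero, zero_mul, mul_one, one_mul, add_zero, zero_add] <;> ring

theorem eF102 (M : Matrix Cu (Fin 4) ℂ) : YF ![1, 0, 2] M =
      -d4 (M (cu 0 0 0)) (M (cu 1 0 0)) (M (cu 1 0 1)) (M (cu 1 1 0))
      - d4 (M (cu 0 0 0)) (M (cu 1 0 0)) (M (cu 1 0 1)) (M (cu 1 1 1))
      - d4 (M (cu 0 0 1)) (M (cu 1 0 0)) (M (cu 1 0 1)) (M (cu 1 1 0))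
      - d4 (M (cu 0 0 1)) (M (cu 1 0 0)) (M (cu 1 0 1)) (M (cu 1 1 1)) := by
  simp only [YF_eq, sum_cu, cu_zero, cu_one, cu_two, G5_00, G5_01, G5_02, G5_03, G5_04, d4,
    mul_zero, zero_mul, mul_one, one_mul, add_zero, zero_add] <;> ring

theorem eF110 (M : Matrix Cu (Fin 4) ℂ) : YF ![1, 1, 0] M =
      d4 (M (cu 0 1 0)) (M (cu 1 0 0)) (M (cu 1 1 0)) (M (cu 1 1 1)) := by
  simp only [YF_eq, sum_cu, cu_zero, cu_one, cu_two, G5_00, G5_01, G5_02, G5_03, G5_04, d4,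
    mul_zero, zero_mul, mul_one, one_mul, add_zero, zero_add] <;> ring

theorem eF111 (M : Matrix Cu (Fin 4) ℂ) : YF ![1, 1, 1] M =
      d4 (M (cu 0 1 1)) (M (cu 1 0 1)) (M (cu 1 1 0)) (M (cu 1 1 1)) := by
  simp only [YF_eq, sum_cu, cu_zero, cu_one, cu_two, G5_00, G5_01, G5_02, G5_03, G5_04, d4,
    mul_zero, zero_mul, mul_one, one_mul, add_zero, zero_add] <;> ring

theorem eF112 (M : Matrix Cu (Fin 4) ℂ) : YF ![1, 1, 2] M =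
      d4 (M (cu 0 1 0)) (M (cu 1 0 0)) (M (cu 1 1 0)) (M (cu 1 1 1))
      + d4 (M (cu 0 1 0)) (M (cu 1 0 1)) (M (cu 1 1 0)) (M (cu 1 1 1))
      + d4 (M (cu 0 1 1)) (M (cu 1 0 0)) (M (cu 1 1 0)) (M (cu 1 1 1))
      + d4 (M (cu 0 1 1)) (M (cu 1 0 1)) (M (cu 1 1 0)) (M (cu 1 1 1)) := by
  simp only [YF_eq, sum_cu, cu_zero, cu_one, cu_two, G5_00, G5_01, G5_02, G5_03, G5_04, d4,
    mul_zero, zero_mul, mul_one, one_mul, add_zero, zero_add] <;> ring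

theorem eF120 (M : Matrix Cu (Fin 4) ℂ) : YF ![1, 2, 0] M =
      -d4 (M (cu 0 0 0)) (M (cu 1 0 0)) (M (cu 1 0 1)) (M (cu 1 1 0))
      + d4 (M (cu 0 0 0)) (M (cu 1 0 0)) (M (cu 1 1 0)) (M (cu 1 1 1))
      - d4 (M (cu 0 1 0)) (M (cu 1 0 0)) (M (cu 1 0 1)) (M (cu 1 1 0))
      + d4 (M (cu 0 1 0)) (M (cu 1 0 0)) (M (cu 1 1 0)) (M (cu 1 1 1)) := by
  simp only [YF_eq, sum_cu, cu_zero, cu_one, cu_two, G5_00, G5_01, G5_02, G5_03, G5_04, d4,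
    mul_zero, zero_mul, mul_one, one_mul, add_zero, zero_add] <;> ring

theorem eF121 (M : Matrix Cu (Fin 4) ℂ) : YF ![1, 2, 1] M =
      -d4 (M (cu 0 0 1)) (M (cu 1 0 0)) (M (cu 1 0 1)) (M (cu 1 1 1))
      + d4 (M (cu 0 0 1)) (M (cu 1 0 1)) (M (cu 1 1 0)) (M (cu 1 1 1))
      - d4 (M (cu 0 1 1)) (M (cu 1 0 0)) (M (cu 1 0 1)) (M (cu 1 1 1))
      + d4 (M (cu 0 1 1)) (M (cu 1 0 1)) (M (cu 1 1 0)) (M (cu 1 1 1)) := by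
  simp only [YF_eq, sum_cu, cu_zero, cu_one, cu_two, G5_00, G5_01, G5_02, G5_03, G5_04, d4,
    mul_zero, zero_mul, mul_one, one_mul, add_zero, zero_add] <;> ring

theorem eF122 (M : Matrix Cu (Fin 4) ℂ) : YF ![1, 2, 2] M =
      -d4 (M (cu 0 0 0)) (M (cu 1 0 0)) (M (cu 1 0 1)) (M (cu 1 1 0))
      - d4 (M (cu 0 0 0)) (M (cu 1 0 0)) (M (cu 1 0 1)) (M (cu 1 1 1))
      + d4 (M (cu 0 0 0)) (M (cu 1 0 0)) (M (cu 1 1 0)) (M (cu 1 1 1))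
      + d4 (M (cu 0 0 0)) (M (cu 1 0 1)) (M (cu 1 1 0)) (M (cu 1 1 1))
      - d4 (M (cu 0 0 1)) (M (cu 1 0 0)) (M (cu 1 0 1)) (M (cu 1 1 0))
      - d4 (M (cu 0 0 1)) (M (cu 1 0 0)) (M (cu 1 0 1)) (M (cu 1 1 1))
      + d4 (M (cu 0 0 1)) (M (cu 1 0 0)) (M (cu 1 1 0)) (M (cu 1 1 1))
      + d4 (M (cu 0 0 1)) (M (cu 1 0 1)) (M (cu 1 1 0)) (M (cu 1 1 1))
      - d4 (M (cu 0 1 0)) (M (cu 1 0 0)) (M (cu 1 0 1)) (M (cu 1 1 0))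
      - d4 (M (cu 0 1 0)) (M (cu 1 0 0)) (M (cu 1 0 1)) (M (cu 1 1 1))
      + d4 (M (cu 0 1 0)) (M (cu 1 0 0)) (M (cu 1 1 0)) (M (cu 1 1 1))
      + d4 (M (cu 0 1 0)) (M (cu 1 0 1)) (M (cu 1 1 0)) (M (cu 1 1 1))
      - d4 (M (cu 0 1 1)) (M (cu 1 0 0)) (M (cu 1 0 1)) (M (cu 1 1 0))
      - d4 (M (cu 0 1 1)) (M (cu 1 0 0)) (M (cu 1 0 1)) (M (cu 1 1 1))
      + d4 (M (cu 0 1 1)) (M (cu 1 0 0)) (M (cu 1 1 0)) (M (cu 1 1 1))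
      + d4 (M (cu 0 1 1)) (M (cu 1 0 1)) (M (cu 1 1 0)) (M (cu 1 1 1)) := by
  simp only [YF_eq, sum_cu, cu_zero, cu_one, cu_two, G5_00, G5_01, G5_02, G5_03, G5_04, d4,
    mul_zero, zero_mul, mul_one, one_mul, add_zero, zero_add] <;> ring

theorem eF200 (M : Matrix Cu (Fin 4) ℂ) : YF ![2, 0, 0] M =
      -d4 (M (cu 0 0 0)) (M (cu 0 0 1)) (M (cu 0 1 0)) (M (cu 1 0 0))
      + d4 (M (cu 0 0 0)) (M (cu 0 0 1)) (M (cu 1 0 0)) (M (cu 1 1 0))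
      - d4 (M (cu 0 0 0)) (M (cu 0 1 0)) (M (cu 1 0 0)) (M (cu 1 0 1))
      - d4 (M (cu 0 0 0)) (M (cu 1 0 0)) (M (cu 1 0 1)) (M (cu 1 1 0)) := by
  simp only [YF_eq, sum_cu, cu_zero, cu_one, cu_two, G5_00, G5_01, G5_02, G5_03, G5_04, d4,
    mul_zero, zero_mul, mul_one, one_mul, add_zero, zero_add] <;> ring

theorem eF201 (M : Matrix Cu (Fin 4) ℂ) : YF ![2, 0, 1] M =
      -d4 (M (cu 0 0 0)) (M (cu 0 0 1)) (M (cu 0 1 1)) (M (cu 1 0 1))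
      + d4 (M (cu 0 0 0)) (M (cu 0 0 1)) (M (cu 1 0 1)) (M (cu 1 1 1))
      - d4 (M (cu 0 0 1)) (M (cu 0 1 1)) (M (cu 1 0 0)) (M (cu 1 0 1))
      - d4 (M (cu 0 0 1)) (M (cu 1 0 0)) (M (cu 1 0 1)) (M (cu 1 1 1)) := by
  simp only [YF_eq, sum_cu, cu_zero, cu_one, cu_two, G5_00, G5_01, G5_02, G5_03, G5_04, d4,
    mul_zero, zero_mul, mul_one, one_mul, add_zero, zero_add] <;> ring

theorem eF202 (M : Matrix Cu (Fin 4) ℂ) : YF ![2, 0, 2] M =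
      -d4 (M (cu 0 0 0)) (M (cu 0 0 1)) (M (cu 0 1 0)) (M (cu 1 0 0))
      - d4 (M (cu 0 0 0)) (M (cu 0 0 1)) (M (cu 0 1 0)) (M (cu 1 0 1))
      - d4 (M (cu 0 0 0)) (M (cu 0 0 1)) (M (cu 0 1 1)) (M (cu 1 0 0))
      - d4 (M (cu 0 0 0)) (M (cu 0 0 1)) (M (cu 0 1 1)) (M (cu 1 0 1))
      + d4 (M (cu 0 0 0)) (M (cu 0 0 1)) (M (cu 1 0 0)) (M (cu 1 1 0))
      + d4 (M (cu 0 0 0)) (M (cu 0 0 1)) (M (cu 1 0 0)) (M (cu 1 1 1))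
      + d4 (M (cu 0 0 0)) (M (cu 0 0 1)) (M (cu 1 0 1)) (M (cu 1 1 0))
      + d4 (M (cu 0 0 0)) (M (cu 0 0 1)) (M (cu 1 0 1)) (M (cu 1 1 1))
      - d4 (M (cu 0 0 0)) (M (cu 0 1 0)) (M (cu 1 0 0)) (M (cu 1 0 1))
      - d4 (M (cu 0 0 0)) (M (cu 0 1 1)) (M (cu 1 0 0)) (M (cu 1 0 1))
      - d4 (M (cu 0 0 0)) (M (cu 1 0 0)) (M (cu 1 0 1)) (M (cu 1 1 0))
      - d4 (M (cu 0 0 0)) (M (cu 1 0 0)) (M (cu 1 0 1)) (M (cu 1 1 1))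
      - d4 (M (cu 0 0 1)) (M (cu 0 1 0)) (M (cu 1 0 0)) (M (cu 1 0 1))
      - d4 (M (cu 0 0 1)) (M (cu 0 1 1)) (M (cu 1 0 0)) (M (cu 1 0 1))
      - d4 (M (cu 0 0 1)) (M (cu 1 0 0)) (M (cu 1 0 1)) (M (cu 1 1 0))
      - d4 (M (cu 0 0 1)) (M (cu 1 0 0)) (M (cu 1 0 1)) (M (cu 1 1 1)) := by
  simp only [YF_eq, sum_cu, cu_zero, cu_one, cu_two, G5_00, G5_01, G5_02, G5_03, G5_04, d4,
    mul_zero, zero_mul, mul_one, one_mul, add_zero, zero_add] <;> ring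

theorem eF210 (M : Matrix Cu (Fin 4) ℂ) : YF ![2, 1, 0] M =
      d4 (M (cu 0 0 0)) (M (cu 0 1 0)) (M (cu 0 1 1)) (M (cu 1 1 0))
      - d4 (M (cu 0 0 0)) (M (cu 0 1 0)) (M (cu 1 1 0)) (M (cu 1 1 1))
      + d4 (M (cu 0 1 0)) (M (cu 0 1 1)) (M (cu 1 0 0)) (M (cu 1 1 0))
      + d4 (M (cu 0 1 0)) (M (cu 1 0 0)) (M (cu 1 1 0)) (M (cu 1 1 1)) := by
  simp only [YF_eq, sum_cu, cu_zero, cu_one, cu_two, G5_00, G5_01, G5_02, G5_03, G5_04, d4,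
    mul_zero, zero_mul, mul_one, one_mul, add_zero, zero_add] <;> ring

theorem eF211 (M : Matrix Cu (Fin 4) ℂ) : YF ![2, 1, 1] M =
      d4 (M (cu 0 0 1)) (M (cu 0 1 0)) (M (cu 0 1 1)) (M (cu 1 1 1))
      - d4 (M (cu 0 0 1)) (M (cu 0 1 1)) (M (cu 1 1 0)) (M (cu 1 1 1))
      + d4 (M (cu 0 1 0)) (M (cu 0 1 1)) (M (cu 1 0 1)) (M (cu 1 1 1))
      + d4 (M (cu 0 1 1)) (M (cu 1 0 1)) (M (cu 1 1 0)) (M (cu 1 1 1)) := by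
  simp only [YF_eq, sum_cu, cu_zero, cu_one, cu_two, G5_00, G5_01, G5_02, G5_03, G5_04, d4,
    mul_zero, zero_mul, mul_one, one_mul, add_zero, zero_add] <;> ring

theorem eF212 (M : Matrix Cu (Fin 4) ℂ) : YF ![2, 1, 2] M =
      d4 (M (cu 0 0 0)) (M (cu 0 1 0)) (M (cu 0 1 1)) (M (cu 1 1 0))
      + d4 (M (cu 0 0 0)) (M (cu 0 1 0)) (M (cu 0 1 1)) (M (cu 1 1 1))
      - d4 (M (cu 0 0 0)) (M (cu 0 1 0)) (M (cu 1 1 0)) (M (cu 1 1 1))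
      - d4 (M (cu 0 0 0)) (M (cu 0 1 1)) (M (cu 1 1 0)) (M (cu 1 1 1))
      + d4 (M (cu 0 0 1)) (M (cu 0 1 0)) (M (cu 0 1 1)) (M (cu 1 1 0))
      + d4 (M (cu 0 0 1)) (M (cu 0 1 0)) (M (cu 0 1 1)) (M (cu 1 1 1))
      - d4 (M (cu 0 0 1)) (M (cu 0 1 0)) (M (cu 1 1 0)) (M (cu 1 1 1))
      - d4 (M (cu 0 0 1)) (M (cu 0 1 1)) (M (cu 1 1 0)) (M (cu 1 1 1))
      + d4 (M (cu 0 1 0)) (M (cu 0 1 1)) (M (cu 1 0 0)) (M (cu 1 1 0))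
      + d4 (M (cu 0 1 0)) (M (cu 0 1 1)) (M (cu 1 0 0)) (M (cu 1 1 1))
      + d4 (M (cu 0 1 0)) (M (cu 0 1 1)) (M (cu 1 0 1)) (M (cu 1 1 0))
      + d4 (M (cu 0 1 0)) (M (cu 0 1 1)) (M (cu 1 0 1)) (M (cu 1 1 1))
      + d4 (M (cu 0 1 0)) (M (cu 1 0 0)) (M (cu 1 1 0)) (M (cu 1 1 1))
      + d4 (M (cu 0 1 0)) (M (cu 1 0 1)) (M (cu 1 1 0)) (M (cu 1 1 1))
      + d4 (M (cu 0 1 1)) (M (cu 1 0 0)) (M (cu 1 1 0)) (M (cu 1 1 1))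
      + d4 (M (cu 0 1 1)) (M (cu 1 0 1)) (M (cu 1 1 0)) (M (cu 1 1 1)) := by
  simp only [YF_eq, sum_cu, cu_zero, cu_one, cu_two, G5_00, G5_01, G5_02, G5_03, G5_04, d4,
    mul_zero, zero_mul, mul_one, one_mul, add_zero, zero_add] <;> ring

theorem eF220 (M : Matrix Cu (Fin 4) ℂ) : YF ![2, 2, 0] M =
      -d4 (M (cu 0 0 0)) (M (cu 0 0 1)) (M (cu 0 1 0)) (M (cu 1 0 0))
      - d4 (M (cu 0 0 0)) (M (cu 0 0 1)) (M (cu 0 1 0)) (M (cu 1 1 0))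
      + d4 (M (cu 0 0 0)) (M (cu 0 0 1)) (M (cu 1 0 0)) (M (cu 1 1 0))
      + d4 (M (cu 0 0 0)) (M (cu 0 1 0)) (M (cu 0 1 1)) (M (cu 1 0 0))
      + d4 (M (cu 0 0 0)) (M (cu 0 1 0)) (M (cu 0 1 1)) (M (cu 1 1 0))
      - d4 (M (cu 0 0 0)) (M (cu 0 1 0)) (M (cu 1 0 0)) (M (cu 1 0 1))
      - d4 (M (cu 0 0 0)) (M (cu 0 1 0)) (M (cu 1 0 0)) (M (cu 1 1 1))
      + d4 (M (cu 0 0 0)) (M (cu 0 1 0)) (M (cu 1 0 1)) (M (cu 1 1 0))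
      - d4 (M (cu 0 0 0)) (M (cu 0 1 0)) (M (cu 1 1 0)) (M (cu 1 1 1))
      + d4 (M (cu 0 0 0)) (M (cu 0 1 1)) (M (cu 1 0 0)) (M (cu 1 1 0))
      - d4 (M (cu 0 0 0)) (M (cu 1 0 0)) (M (cu 1 0 1)) (M (cu 1 1 0))
      + d4 (M (cu 0 0 0)) (M (cu 1 0 0)) (M (cu 1 1 0)) (M (cu 1 1 1))
      - d4 (M (cu 0 0 1)) (M (cu 0 1 0)) (M (cu 1 0 0)) (M (cu 1 1 0))
      + d4 (M (cu 0 1 0)) (M (cu 0 1 1)) (M (cu 1 0 0)) (M (cu 1 1 0))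
      - d4 (M (cu 0 1 0)) (M (cu 1 0 0)) (M (cu 1 0 1)) (M (cu 1 1 0))
      + d4 (M (cu 0 1 0)) (M (cu 1 0 0)) (M (cu 1 1 0)) (M (cu 1 1 1)) := by
  simp only [YF_eq, sum_cu, cu_zero, cu_one, cu_two, G5_00, G5_01, G5_02, G5_03, G5_04, d4,
    mul_zero, zero_mul, mul_one, one_mul, add_zero, zero_add] <;> ring

theorem eF221 (M : Matrix Cu (Fin 4) ℂ) : YF ![2, 2, 1] M =
      -d4 (M (cu 0 0 0)) (M (cu 0 0 1)) (M (cu 0 1 1)) (M (cu 1 0 1))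
      - d4 (M (cu 0 0 0)) (M (cu 0 0 1)) (M (cu 0 1 1)) (M (cu 1 1 1))
      + d4 (M (cu 0 0 0)) (M (cu 0 0 1)) (M (cu 1 0 1)) (M (cu 1 1 1))
      + d4 (M (cu 0 0 0)) (M (cu 0 1 1)) (M (cu 1 0 1)) (M (cu 1 1 1))
      + d4 (M (cu 0 0 1)) (M (cu 0 1 0)) (M (cu 0 1 1)) (M (cu 1 0 1))
      + d4 (M (cu 0 0 1)) (M (cu 0 1 0)) (M (cu 0 1 1)) (M (cu 1 1 1))
      - d4 (M (cu 0 0 1)) (M (cu 0 1 0)) (M (cu 1 0 1)) (M (cu 1 1 1))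
      - d4 (M (cu 0 0 1)) (M (cu 0 1 1)) (M (cu 1 0 0)) (M (cu 1 0 1))
      - d4 (M (cu 0 0 1)) (M (cu 0 1 1)) (M (cu 1 0 0)) (M (cu 1 1 1))
      + d4 (M (cu 0 0 1)) (M (cu 0 1 1)) (M (cu 1 0 1)) (M (cu 1 1 0))
      - d4 (M (cu 0 0 1)) (M (cu 0 1 1)) (M (cu 1 1 0)) (M (cu 1 1 1))
      - d4 (M (cu 0 0 1)) (M (cu 1 0 0)) (M (cu 1 0 1)) (M (cu 1 1 1))
      + d4 (M (cu 0 0 1)) (M (cu 1 0 1)) (M (cu 1 1 0)) (M (cu 1 1 1))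
      + d4 (M (cu 0 1 0)) (M (cu 0 1 1)) (M (cu 1 0 1)) (M (cu 1 1 1))
      - d4 (M (cu 0 1 1)) (M (cu 1 0 0)) (M (cu 1 0 1)) (M (cu 1 1 1))
      + d4 (M (cu 0 1 1)) (M (cu 1 0 1)) (M (cu 1 1 0)) (M (cu 1 1 1)) := by
  simp only [YF_eq, sum_cu, cu_zero, cu_one, cu_two, G5_00, G5_01, G5_02, G5_03, G5_04, d4,
    mul_zero, zero_mul, mul_one, one_mul, add_zero, zero_add] <;> ring

theorem eF222 (M : Matrix Cu (Fin 4) ℂ) : YF ![2, 2, 2] M =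
      -d4 (M (cu 0 0 0)) (M (cu 0 0 1)) (M (cu 0 1 0)) (M (cu 1 0 0))
      - d4 (M (cu 0 0 0)) (M (cu 0 0 1)) (M (cu 0 1 0)) (M (cu 1 0 1))
      - d4 (M (cu 0 0 0)) (M (cu 0 0 1)) (M (cu 0 1 0)) (M (cu 1 1 0))
      - d4 (M (cu 0 0 0)) (M (cu 0 0 1)) (M (cu 0 1 0)) (M (cu 1 1 1))
      - d4 (M (cu 0 0 0)) (M (cu 0 0 1)) (M (cu 0 1 1)) (M (cu 1 0 0))
      - d4 (M (cu 0 0 0)) (M (cu 0 0 1)) (M (cu 0 1 1)) (M (cu 1 0 1))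
      - d4 (M (cu 0 0 0)) (M (cu 0 0 1)) (M (cu 0 1 1)) (M (cu 1 1 0))
      - d4 (M (cu 0 0 0)) (M (cu 0 0 1)) (M (cu 0 1 1)) (M (cu 1 1 1))
      + d4 (M (cu 0 0 0)) (M (cu 0 0 1)) (M (cu 1 0 0)) (M (cu 1 1 0))
      + d4 (M (cu 0 0 0)) (M (cu 0 0 1)) (M (cu 1 0 0)) (M (cu 1 1 1))
      + d4 (M (cu 0 0 0)) (M (cu 0 0 1)) (M (cu 1 0 1)) (M (cu 1 1 0))
      + d4 (M (cu 0 0 0)) (M (cu 0 0 1)) (M (cu 1 0 1)) (M (cu 1 1 1))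
      + d4 (M (cu 0 0 0)) (M (cu 0 1 0)) (M (cu 0 1 1)) (M (cu 1 0 0))
      + d4 (M (cu 0 0 0)) (M (cu 0 1 0)) (M (cu 0 1 1)) (M (cu 1 0 1))
      + d4 (M (cu 0 0 0)) (M (cu 0 1 0)) (M (cu 0 1 1)) (M (cu 1 1 0))
      + d4 (M (cu 0 0 0)) (M (cu 0 1 0)) (M (cu 0 1 1)) (M (cu 1 1 1))
      - d4 (M (cu 0 0 0)) (M (cu 0 1 0)) (M (cu 1 0 0)) (M (cu 1 0 1))
      - d4 (M (cu 0 0 0)) (M (cu 0 1 0)) (M (cu 1 0 0)) (M (cu 1 1 1))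
      + d4 (M (cu 0 0 0)) (M (cu 0 1 0)) (M (cu 1 0 1)) (M (cu 1 1 0))
      - d4 (M (cu 0 0 0)) (M (cu 0 1 0)) (M (cu 1 1 0)) (M (cu 1 1 1))
      - d4 (M (cu 0 0 0)) (M (cu 0 1 1)) (M (cu 1 0 0)) (M (cu 1 0 1))
      + d4 (M (cu 0 0 0)) (M (cu 0 1 1)) (M (cu 1 0 0)) (M (cu 1 1 0))
      + 2 * d4 (M (cu 0 0 0)) (M (cu 0 1 1)) (M (cu 1 0 1)) (M (cu 1 1 0))
      + d4 (M (cu 0 0 0)) (M (cu 0 1 1)) (M (cu 1 0 1)) (M (cu 1 1 1))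
      - d4 (M (cu 0 0 0)) (M (cu 0 1 1)) (M (cu 1 1 0)) (M (cu 1 1 1))
      - d4 (M (cu 0 0 0)) (M (cu 1 0 0)) (M (cu 1 0 1)) (M (cu 1 1 0))
      - d4 (M (cu 0 0 0)) (M (cu 1 0 0)) (M (cu 1 0 1)) (M (cu 1 1 1))
      + d4 (M (cu 0 0 0)) (M (cu 1 0 0)) (M (cu 1 1 0)) (M (cu 1 1 1))
      + d4 (M (cu 0 0 0)) (M (cu 1 0 1)) (M (cu 1 1 0)) (M (cu 1 1 1))
      + d4 (M (cu 0 0 1)) (M (cu 0 1 0)) (M (cu 0 1 1)) (M (cu 1 0 0))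
      + d4 (M (cu 0 0 1)) (M (cu 0 1 0)) (M (cu 0 1 1)) (M (cu 1 0 1))
      + d4 (M (cu 0 0 1)) (M (cu 0 1 0)) (M (cu 0 1 1)) (M (cu 1 1 0))
      + d4 (M (cu 0 0 1)) (M (cu 0 1 0)) (M (cu 0 1 1)) (M (cu 1 1 1))
      - d4 (M (cu 0 0 1)) (M (cu 0 1 0)) (M (cu 1 0 0)) (M (cu 1 0 1))
      - d4 (M (cu 0 0 1)) (M (cu 0 1 0)) (M (cu 1 0 0)) (M (cu 1 1 0))
      - 2 * d4 (M (cu 0 0 1)) (M (cu 0 1 0)) (M (cu 1 0 0)) (M (cu 1 1 1))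
      - d4 (M (cu 0 0 1)) (M (cu 0 1 0)) (M (cu 1 0 1)) (M (cu 1 1 1))
      - d4 (M (cu 0 0 1)) (M (cu 0 1 0)) (M (cu 1 1 0)) (M (cu 1 1 1))
      - d4 (M (cu 0 0 1)) (M (cu 0 1 1)) (M (cu 1 0 0)) (M (cu 1 0 1))
      - d4 (M (cu 0 0 1)) (M (cu 0 1 1)) (M (cu 1 0 0)) (M (cu 1 1 1))
      + d4 (M (cu 0 0 1)) (M (cu 0 1 1)) (M (cu 1 0 1)) (M (cu 1 1 0))
      - d4 (M (cu 0 0 1)) (M (cu 0 1 1)) (M (cu 1 1 0)) (M (cu 1 1 1))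
      - d4 (M (cu 0 0 1)) (M (cu 1 0 0)) (M (cu 1 0 1)) (M (cu 1 1 0))
      - d4 (M (cu 0 0 1)) (M (cu 1 0 0)) (M (cu 1 0 1)) (M (cu 1 1 1))
      + d4 (M (cu 0 0 1)) (M (cu 1 0 0)) (M (cu 1 1 0)) (M (cu 1 1 1))
      + d4 (M (cu 0 0 1)) (M (cu 1 0 1)) (M (cu 1 1 0)) (M (cu 1 1 1))
      + d4 (M (cu 0 1 0)) (M (cu 0 1 1)) (M (cu 1 0 0)) (M (cu 1 1 0))
      + d4 (M (cu 0 1 0)) (M (cu 0 1 1)) (M (cu 1 0 0)) (M (cu 1 1 1))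
      + d4 (M (cu 0 1 0)) (M (cu 0 1 1)) (M (cu 1 0 1)) (M (cu 1 1 0))
      + d4 (M (cu 0 1 0)) (M (cu 0 1 1)) (M (cu 1 0 1)) (M (cu 1 1 1))
      - d4 (M (cu 0 1 0)) (M (cu 1 0 0)) (M (cu 1 0 1)) (M (cu 1 1 0))
      - d4 (M (cu 0 1 0)) (M (cu 1 0 0)) (M (cu 1 0 1)) (M (cu 1 1 1))
      + d4 (M (cu 0 1 0)) (M (cu 1 0 0)) (M (cu 1 1 0)) (M (cu 1 1 1))
      + d4 (M (cu 0 1 0)) (M (cu 1 0 1)) (M (cu 1 1 0)) (M (cu 1 1 1))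
      - d4 (M (cu 0 1 1)) (M (cu 1 0 0)) (M (cu 1 0 1)) (M (cu 1 1 0))
      - d4 (M (cu 0 1 1)) (M (cu 1 0 0)) (M (cu 1 0 1)) (M (cu 1 1 1))
      + d4 (M (cu 0 1 1)) (M (cu 1 0 0)) (M (cu 1 1 0)) (M (cu 1 1 1))
      + d4 (M (cu 0 1 1)) (M (cu 1 0 1)) (M (cu 1 1 0)) (M (cu 1 1 1)) := by
  simp only [YF_eq, sum_cu, cu_zero, cu_one, cu_two, G5_00, G5_01, G5_02, G5_03, G5_04, d4,
    mul_zero, zero_mul, mul_one, one_mul, add_zero, zero_add] <;> ring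

theorem ef00 (M : Matrix Cu (Fin 4) ℂ) : Yf 0 0 M =
      d4 (M (cu 0 0 0)) (M (cu 0 0 1)) (M (cu 0 1 0)) (M (cu 0 1 1)) := by
  simp only [Yf0_eq, sum_cu, cu_zero, cu_one, cu_two, G5_00, G5_01, G5_02, G5_03, G5_04, d4,
    mul_zero, zero_mul, mul_one, one_mul, add_zero, zero_add] <;> ring

theorem ef01 (M : Matrix Cu (Fin 4) ℂ) : Yf 0 1 M =
      d4 (M (cu 1 0 0)) (M (cu 1 0 1)) (M (cu 1 1 0)) (M (cu 1 1 1)) := by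
  simp only [Yf0_eq, sum_cu, cu_zero, cu_one, cu_two, G5_00, G5_01, G5_02, G5_03, G5_04, d4,
    mul_zero, zero_mul, mul_one, one_mul, add_zero, zero_add] <;> ring

theorem ef02 (M : Matrix Cu (Fin 4) ℂ) : Yf 0 2 M =
      d4 (M (cu 0 0 0)) (M (cu 0 0 1)) (M (cu 0 1 0)) (M (cu 0 1 1))
      + d4 (M (cu 0 0 0)) (M (cu 0 0 1)) (M (cu 0 1 0)) (M (cu 1 1 1))
      - d4 (M (cu 0 0 0)) (M (cu 0 0 1)) (M (cu 0 1 1)) (M (cu 1 1 0))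
      + d4 (M (cu 0 0 0)) (M (cu 0 0 1)) (M (cu 1 1 0)) (M (cu 1 1 1))
      + d4 (M (cu 0 0 0)) (M (cu 0 1 0)) (M (cu 0 1 1)) (M (cu 1 0 1))
      - d4 (M (cu 0 0 0)) (M (cu 0 1 0)) (M (cu 1 0 1)) (M (cu 1 1 1))
      + d4 (M (cu 0 0 0)) (M (cu 0 1 1)) (M (cu 1 0 1)) (M (cu 1 1 0))
      + d4 (M (cu 0 0 0)) (M (cu 1 0 1)) (M (cu 1 1 0)) (M (cu 1 1 1))
      - d4 (M (cu 0 0 1)) (M (cu 0 1 0)) (M (cu 0 1 1)) (M (cu 1 0 0))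
      + d4 (M (cu 0 0 1)) (M (cu 0 1 0)) (M (cu 1 0 0)) (M (cu 1 1 1))
      - d4 (M (cu 0 0 1)) (M (cu 0 1 1)) (M (cu 1 0 0)) (M (cu 1 1 0))
      - d4 (M (cu 0 0 1)) (M (cu 1 0 0)) (M (cu 1 1 0)) (M (cu 1 1 1))
      + d4 (M (cu 0 1 0)) (M (cu 0 1 1)) (M (cu 1 0 0)) (M (cu 1 0 1))
      + d4 (M (cu 0 1 0)) (M (cu 1 0 0)) (M (cu 1 0 1)) (M (cu 1 1 1))
      - d4 (M (cu 0 1 1)) (M (cu 1 0 0)) (M (cu 1 0 1)) (M (cu 1 1 0))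
      + d4 (M (cu 1 0 0)) (M (cu 1 0 1)) (M (cu 1 1 0)) (M (cu 1 1 1)) := by
  simp only [Yf0_eq, sum_cu, cu_zero, cu_one, cu_two, G5_00, G5_01, G5_02, G5_03, G5_04, d4,
    mul_zero, zero_mul, mul_one, one_mul, add_zero, zero_add] <;> ring

theorem ef03 (M : Matrix Cu (Fin 4) ℂ) : Yf 0 3 M =
      d4 (M (cu 0 0 0)) (M (cu 0 0 1)) (M (cu 0 1 0)) (M (cu 0 1 1))
      - d4 (M (cu 0 0 0)) (M (cu 0 0 1)) (M (cu 0 1 0)) (M (cu 1 1 1))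
      + d4 (M (cu 0 0 0)) (M (cu 0 0 1)) (M (cu 0 1 1)) (M (cu 1 1 0))
      + d4 (M (cu 0 0 0)) (M (cu 0 0 1)) (M (cu 1 1 0)) (M (cu 1 1 1))
      - d4 (M (cu 0 0 0)) (M (cu 0 1 0)) (M (cu 0 1 1)) (M (cu 1 0 1))
      - d4 (M (cu 0 0 0)) (M (cu 0 1 0)) (M (cu 1 0 1)) (M (cu 1 1 1))
      + d4 (M (cu 0 0 0)) (M (cu 0 1 1)) (M (cu 1 0 1)) (M (cu 1 1 0))
      - d4 (M (cu 0 0 0)) (M (cu 1 0 1)) (M (cu 1 1 0)) (M (cu 1 1 1))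
      + d4 (M (cu 0 0 1)) (M (cu 0 1 0)) (M (cu 0 1 1)) (M (cu 1 0 0))
      + d4 (M (cu 0 0 1)) (M (cu 0 1 0)) (M (cu 1 0 0)) (M (cu 1 1 1))
      - d4 (M (cu 0 0 1)) (M (cu 0 1 1)) (M (cu 1 0 0)) (M (cu 1 1 0))
      + d4 (M (cu 0 0 1)) (M (cu 1 0 0)) (M (cu 1 1 0)) (M (cu 1 1 1))
      + d4 (M (cu 0 1 0)) (M (cu 0 1 1)) (M (cu 1 0 0)) (M (cu 1 0 1))
      - d4 (M (cu 0 1 0)) (M (cu 1 0 0)) (M (cu 1 0 1)) (M (cu 1 1 1))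
      + d4 (M (cu 0 1 1)) (M (cu 1 0 0)) (M (cu 1 0 1)) (M (cu 1 1 0))
      + d4 (M (cu 1 0 0)) (M (cu 1 0 1)) (M (cu 1 1 0)) (M (cu 1 1 1)) := by
  simp only [Yf0_eq, sum_cu, cu_zero, cu_one, cu_two, G5_00, G5_01, G5_02, G5_03, G5_04, d4,
    mul_zero, zero_mul, mul_one, one_mul, add_zero, zero_add] <;> ring

theorem ef04 (M : Matrix Cu (Fin 4) ℂ) : Yf 0 4 M =
      d4 (M (cu 0 0 0)) (M (cu 0 0 1)) (M (cu 0 1 0)) (M (cu 0 1 1))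
      + 2 * d4 (M (cu 0 0 0)) (M (cu 0 0 1)) (M (cu 0 1 0)) (M (cu 1 1 1))
      - 2 * d4 (M (cu 0 0 0)) (M (cu 0 0 1)) (M (cu 0 1 1)) (M (cu 1 1 0))
      + 4 * d4 (M (cu 0 0 0)) (M (cu 0 0 1)) (M (cu 1 1 0)) (M (cu 1 1 1))
      + 2 * d4 (M (cu 0 0 0)) (M (cu 0 1 0)) (M (cu 0 1 1)) (M (cu 1 0 1))
      - 4 * d4 (M (cu 0 0 0)) (M (cu 0 1 0)) (M (cu 1 0 1)) (M (cu 1 1 1))
      + 4 * d4 (M (cu 0 0 0)) (M (cu 0 1 1)) (M (cu 1 0 1)) (M (cu 1 1 0))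
      + 8 * d4 (M (cu 0 0 0)) (M (cu 1 0 1)) (M (cu 1 1 0)) (M (cu 1 1 1))
      - 2 * d4 (M (cu 0 0 1)) (M (cu 0 1 0)) (M (cu 0 1 1)) (M (cu 1 0 0))
      + 4 * d4 (M (cu 0 0 1)) (M (cu 0 1 0)) (M (cu 1 0 0)) (M (cu 1 1 1))
      - 4 * d4 (M (cu 0 0 1)) (M (cu 0 1 1)) (M (cu 1 0 0)) (M (cu 1 1 0))
      - 8 * d4 (M (cu 0 0 1)) (M (cu 1 0 0)) (M (cu 1 1 0)) (M (cu 1 1 1))
      + 4 * d4 (M (cu 0 1 0)) (M (cu 0 1 1)) (M (cu 1 0 0)) (M (cu 1 0 1))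
      + 8 * d4 (M (cu 0 1 0)) (M (cu 1 0 0)) (M (cu 1 0 1)) (M (cu 1 1 1))
      - 8 * d4 (M (cu 0 1 1)) (M (cu 1 0 0)) (M (cu 1 0 1)) (M (cu 1 1 0))
      + 16 * d4 (M (cu 1 0 0)) (M (cu 1 0 1)) (M (cu 1 1 0)) (M (cu 1 1 1)) := by
  simp only [Yf0_eq, sum_cu, cu_zero, cu_one, cu_two, G5_00, G5_01, G5_02, G5_03, G5_04, d4,
    mul_zero, zero_mul, mul_one, one_mul, add_zero, zero_add] <;> ring

theorem ef10 (M : Matrix Cu (Fin 4) ℂ) : Yf 1 0 M =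
      -d4 (M (cu 0 0 0)) (M (cu 0 0 1)) (M (cu 1 0 0)) (M (cu 1 0 1)) := by
  simp only [Yf1_eq, sum_cu, cu_zero, cu_one, cu_two, G5_00, G5_01, G5_02, G5_03, G5_04, d4,
    mul_zero, zero_mul, mul_one, one_mul, add_zero, zero_add] <;> ring

theorem ef11 (M : Matrix Cu (Fin 4) ℂ) : Yf 1 1 M =
      -d4 (M (cu 0 1 0)) (M (cu 0 1 1)) (M (cu 1 1 0)) (M (cu 1 1 1)) := by
  simp only [Yf1_eq, sum_cu, cu_zero, cu_one, cu_two, G5_00, G5_01, G5_02, G5_03, G5_04, d4,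
    mul_zero, zero_mul, mul_one, one_mul, add_zero, zero_add] <;> ring

theorem ef12 (M : Matrix Cu (Fin 4) ℂ) : Yf 1 2 M =
      -d4 (M (cu 0 0 0)) (M (cu 0 0 1)) (M (cu 1 0 0)) (M (cu 1 0 1))
      - d4 (M (cu 0 0 0)) (M (cu 0 0 1)) (M (cu 1 0 0)) (M (cu 1 1 1))
      + d4 (M (cu 0 0 0)) (M (cu 0 0 1)) (M (cu 1 0 1)) (M (cu 1 1 0))
      - d4 (M (cu 0 0 0)) (M (cu 0 0 1)) (M (cu 1 1 0)) (M (cu 1 1 1))
      - d4 (M (cu 0 0 0)) (M (cu 0 1 1)) (M (cu 1 0 0)) (M (cu 1 0 1))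
      - d4 (M (cu 0 0 0)) (M (cu 0 1 1)) (M (cu 1 0 0)) (M (cu 1 1 1))
      + d4 (M (cu 0 0 0)) (M (cu 0 1 1)) (M (cu 1 0 1)) (M (cu 1 1 0))
      - d4 (M (cu 0 0 0)) (M (cu 0 1 1)) (M (cu 1 1 0)) (M (cu 1 1 1))
      + d4 (M (cu 0 0 1)) (M (cu 0 1 0)) (M (cu 1 0 0)) (M (cu 1 0 1))
      + d4 (M (cu 0 0 1)) (M (cu 0 1 0)) (M (cu 1 0 0)) (M (cu 1 1 1))
      - d4 (M (cu 0 0 1)) (M (cu 0 1 0)) (M (cu 1 0 1)) (M (cu 1 1 0))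
      + d4 (M (cu 0 0 1)) (M (cu 0 1 0)) (M (cu 1 1 0)) (M (cu 1 1 1))
      - d4 (M (cu 0 1 0)) (M (cu 0 1 1)) (M (cu 1 0 0)) (M (cu 1 0 1))
      - d4 (M (cu 0 1 0)) (M (cu 0 1 1)) (M (cu 1 0 0)) (M (cu 1 1 1))
      + d4 (M (cu 0 1 0)) (M (cu 0 1 1)) (M (cu 1 0 1)) (M (cu 1 1 0))
      - d4 (M (cu 0 1 0)) (M (cu 0 1 1)) (M (cu 1 1 0)) (M (cu 1 1 1)) := by
  simp only [Yf1_eq, sum_cu, cu_zero, cu_one, cu_two, G5_00, G5_01, G5_02, G5_03, G5_04, d4,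
    mul_zero, zero_mul, mul_one, one_mul, add_zero, zero_add] <;> ring

theorem ef13 (M : Matrix Cu (Fin 4) ℂ) : Yf 1 3 M =
      -d4 (M (cu 0 0 0)) (M (cu 0 0 1)) (M (cu 1 0 0)) (M (cu 1 0 1))
      + d4 (M (cu 0 0 0)) (M (cu 0 0 1)) (M (cu 1 0 0)) (M (cu 1 1 1))
      - d4 (M (cu 0 0 0)) (M (cu 0 0 1)) (M (cu 1 0 1)) (M (cu 1 1 0))
      - d4 (M (cu 0 0 0)) (M (cu 0 0 1)) (M (cu 1 1 0)) (M (cu 1 1 1))
      + d4 (M (cu 0 0 0)) (M (cu 0 1 1)) (M (cu 1 0 0)) (M (cu 1 0 1))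
      - d4 (M (cu 0 0 0)) (M (cu 0 1 1)) (M (cu 1 0 0)) (M (cu 1 1 1))
      + d4 (M (cu 0 0 0)) (M (cu 0 1 1)) (M (cu 1 0 1)) (M (cu 1 1 0))
      + d4 (M (cu 0 0 0)) (M (cu 0 1 1)) (M (cu 1 1 0)) (M (cu 1 1 1))
      - d4 (M (cu 0 0 1)) (M (cu 0 1 0)) (M (cu 1 0 0)) (M (cu 1 0 1))
      + d4 (M (cu 0 0 1)) (M (cu 0 1 0)) (M (cu 1 0 0)) (M (cu 1 1 1))
      - d4 (M (cu 0 0 1)) (M (cu 0 1 0)) (M (cu 1 0 1)) (M (cu 1 1 0))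
      - d4 (M (cu 0 0 1)) (M (cu 0 1 0)) (M (cu 1 1 0)) (M (cu 1 1 1))
      - d4 (M (cu 0 1 0)) (M (cu 0 1 1)) (M (cu 1 0 0)) (M (cu 1 0 1))
      + d4 (M (cu 0 1 0)) (M (cu 0 1 1)) (M (cu 1 0 0)) (M (cu 1 1 1))
      - d4 (M (cu 0 1 0)) (M (cu 0 1 1)) (M (cu 1 0 1)) (M (cu 1 1 0))
      - d4 (M (cu 0 1 0)) (M (cu 0 1 1)) (M (cu 1 1 0)) (M (cu 1 1 1)) := by
  simp only [Yf1_eq, sum_cu, cu_zero, cu_one, cu_two, G5_00, G5_01, G5_02, G5_03, G5_04, d4,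
    mul_zero, zero_mul, mul_one, one_mul, add_zero, zero_add] <;> ring

theorem ef14 (M : Matrix Cu (Fin 4) ℂ) : Yf 1 4 M =
      -d4 (M (cu 0 0 0)) (M (cu 0 0 1)) (M (cu 1 0 0)) (M (cu 1 0 1))
      - 2 * d4 (M (cu 0 0 0)) (M (cu 0 0 1)) (M (cu 1 0 0)) (M (cu 1 1 1))
      + 2 * d4 (M (cu 0 0 0)) (M (cu 0 0 1)) (M (cu 1 0 1)) (M (cu 1 1 0))
      - 4 * d4 (M (cu 0 0 0)) (M (cu 0 0 1)) (M (cu 1 1 0)) (M (cu 1 1 1))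
      - 2 * d4 (M (cu 0 0 0)) (M (cu 0 1 1)) (M (cu 1 0 0)) (M (cu 1 0 1))
      - 4 * d4 (M (cu 0 0 0)) (M (cu 0 1 1)) (M (cu 1 0 0)) (M (cu 1 1 1))
      + 4 * d4 (M (cu 0 0 0)) (M (cu 0 1 1)) (M (cu 1 0 1)) (M (cu 1 1 0))
      - 8 * d4 (M (cu 0 0 0)) (M (cu 0 1 1)) (M (cu 1 1 0)) (M (cu 1 1 1))
      + 2 * d4 (M (cu 0 0 1)) (M (cu 0 1 0)) (M (cu 1 0 0)) (M (cu 1 0 1))
      + 4 * d4 (M (cu 0 0 1)) (M (cu 0 1 0)) (M (cu 1 0 0)) (M (cu 1 1 1))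
      - 4 * d4 (M (cu 0 0 1)) (M (cu 0 1 0)) (M (cu 1 0 1)) (M (cu 1 1 0))
      + 8 * d4 (M (cu 0 0 1)) (M (cu 0 1 0)) (M (cu 1 1 0)) (M (cu 1 1 1))
      - 4 * d4 (M (cu 0 1 0)) (M (cu 0 1 1)) (M (cu 1 0 0)) (M (cu 1 0 1))
      - 8 * d4 (M (cu 0 1 0)) (M (cu 0 1 1)) (M (cu 1 0 0)) (M (cu 1 1 1))
      + 8 * d4 (M (cu 0 1 0)) (M (cu 0 1 1)) (M (cu 1 0 1)) (M (cu 1 1 0))
      - 16 * d4 (M (cu 0 1 0)) (M (cu 0 1 1)) (M (cu 1 1 0)) (M (cu 1 1 1)) := by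
  simp only [Yf1_eq, sum_cu, cu_zero, cu_one, cu_two, G5_00, G5_01, G5_02, G5_03, G5_04, d4,
    mul_zero, zero_mul, mul_one, one_mul, add_zero, zero_add] <;> ring

theorem ef20 (M : Matrix Cu (Fin 4) ℂ) : Yf 2 0 M =
      d4 (M (cu 0 0 0)) (M (cu 0 1 0)) (M (cu 1 0 0)) (M (cu 1 1 0)) := by
  simp only [Yf2_eq, sum_cu, cu_zero, cu_one, cu_two, G5_00, G5_01, G5_02, G5_03, G5_04, d4,
    mul_zero, zero_mul, mul_one, one_mul, add_zero, zero_add] <;> ring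

theorem ef21 (M : Matrix Cu (Fin 4) ℂ) : Yf 2 1 M =
      d4 (M (cu 0 0 1)) (M (cu 0 1 1)) (M (cu 1 0 1)) (M (cu 1 1 1)) := by
  simp only [Yf2_eq, sum_cu, cu_zero, cu_one, cu_two, G5_00, G5_01, G5_02, G5_03, G5_04, d4,
    mul_zero, zero_mul, mul_one, one_mul, add_zero, zero_add] <;> ring

theorem ef22 (M : Matrix Cu (Fin 4) ℂ) : Yf 2 2 M =
      d4 (M (cu 0 0 0)) (M (cu 0 1 0)) (M (cu 1 0 0)) (M (cu 1 1 0))
      + d4 (M (cu 0 0 0)) (M (cu 0 1 0)) (M (cu 1 0 0)) (M (cu 1 1 1))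
      + d4 (M (cu 0 0 0)) (M (cu 0 1 0)) (M (cu 1 0 1)) (M (cu 1 1 0))
      + d4 (M (cu 0 0 0)) (M (cu 0 1 0)) (M (cu 1 0 1)) (M (cu 1 1 1))
      + d4 (M (cu 0 0 0)) (M (cu 0 1 1)) (M (cu 1 0 0)) (M (cu 1 1 0))
      + d4 (M (cu 0 0 0)) (M (cu 0 1 1)) (M (cu 1 0 0)) (M (cu 1 1 1))
      + d4 (M (cu 0 0 0)) (M (cu 0 1 1)) (M (cu 1 0 1)) (M (cu 1 1 0))
      + d4 (M (cu 0 0 0)) (M (cu 0 1 1)) (M (cu 1 0 1)) (M (cu 1 1 1))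
      + d4 (M (cu 0 0 1)) (M (cu 0 1 0)) (M (cu 1 0 0)) (M (cu 1 1 0))
      + d4 (M (cu 0 0 1)) (M (cu 0 1 0)) (M (cu 1 0 0)) (M (cu 1 1 1))
      + d4 (M (cu 0 0 1)) (M (cu 0 1 0)) (M (cu 1 0 1)) (M (cu 1 1 0))
      + d4 (M (cu 0 0 1)) (M (cu 0 1 0)) (M (cu 1 0 1)) (M (cu 1 1 1))
      + d4 (M (cu 0 0 1)) (M (cu 0 1 1)) (M (cu 1 0 0)) (M (cu 1 1 0))
      + d4 (M (cu 0 0 1)) (M (cu 0 1 1)) (M (cu 1 0 0)) (M (cu 1 1 1))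
      + d4 (M (cu 0 0 1)) (M (cu 0 1 1)) (M (cu 1 0 1)) (M (cu 1 1 0))
      + d4 (M (cu 0 0 1)) (M (cu 0 1 1)) (M (cu 1 0 1)) (M (cu 1 1 1)) := by
  simp only [Yf2_eq, sum_cu, cu_zero, cu_one, cu_two, G5_00, G5_01, G5_02, G5_03, G5_04, d4,
    mul_zero, zero_mul, mul_one, one_mul, add_zero, zero_add] <;> ring

theorem ef23 (M : Matrix Cu (Fin 4) ℂ) : Yf 2 3 M =
      d4 (M (cu 0 0 0)) (M (cu 0 1 0)) (M (cu 1 0 0)) (M (cu 1 1 0))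
      - d4 (M (cu 0 0 0)) (M (cu 0 1 0)) (M (cu 1 0 0)) (M (cu 1 1 1))
      - d4 (M (cu 0 0 0)) (M (cu 0 1 0)) (M (cu 1 0 1)) (M (cu 1 1 0))
      + d4 (M (cu 0 0 0)) (M (cu 0 1 0)) (M (cu 1 0 1)) (M (cu 1 1 1))
      - d4 (M (cu 0 0 0)) (M (cu 0 1 1)) (M (cu 1 0 0)) (M (cu 1 1 0))
      + d4 (M (cu 0 0 0)) (M (cu 0 1 1)) (M (cu 1 0 0)) (M (cu 1 1 1))
      + d4 (M (cu 0 0 0)) (M (cu 0 1 1)) (M (cu 1 0 1)) (M (cu 1 1 0))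
      - d4 (M (cu 0 0 0)) (M (cu 0 1 1)) (M (cu 1 0 1)) (M (cu 1 1 1))
      - d4 (M (cu 0 0 1)) (M (cu 0 1 0)) (M (cu 1 0 0)) (M (cu 1 1 0))
      + d4 (M (cu 0 0 1)) (M (cu 0 1 0)) (M (cu 1 0 0)) (M (cu 1 1 1))
      + d4 (M (cu 0 0 1)) (M (cu 0 1 0)) (M (cu 1 0 1)) (M (cu 1 1 0))
      - d4 (M (cu 0 0 1)) (M (cu 0 1 0)) (M (cu 1 0 1)) (M (cu 1 1 1))
      + d4 (M (cu 0 0 1)) (M (cu 0 1 1)) (M (cu 1 0 0)) (M (cu 1 1 0))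
      - d4 (M (cu 0 0 1)) (M (cu 0 1 1)) (M (cu 1 0 0)) (M (cu 1 1 1))
      - d4 (M (cu 0 0 1)) (M (cu 0 1 1)) (M (cu 1 0 1)) (M (cu 1 1 0))
      + d4 (M (cu 0 0 1)) (M (cu 0 1 1)) (M (cu 1 0 1)) (M (cu 1 1 1)) := by
  simp only [Yf2_eq, sum_cu, cu_zero, cu_one, cu_two, G5_00, G5_01, G5_02, G5_03, G5_04, d4,
    mul_zero, zero_mul, mul_one, one_mul, add_zero, zero_add] <;> ring

theorem ef24 (M : Matrix Cu (Fin 4) ℂ) : Yf 2 4 M =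
      d4 (M (cu 0 0 0)) (M (cu 0 1 0)) (M (cu 1 0 0)) (M (cu 1 1 0))
      + 2 * d4 (M (cu 0 0 0)) (M (cu 0 1 0)) (M (cu 1 0 0)) (M (cu 1 1 1))
      + 2 * d4 (M (cu 0 0 0)) (M (cu 0 1 0)) (M (cu 1 0 1)) (M (cu 1 1 0))
      + 4 * d4 (M (cu 0 0 0)) (M (cu 0 1 0)) (M (cu 1 0 1)) (M (cu 1 1 1))
      + 2 * d4 (M (cu 0 0 0)) (M (cu 0 1 1)) (M (cu 1 0 0)) (M (cu 1 1 0))
      + 4 * d4 (M (cu 0 0 0)) (M (cu 0 1 1)) (M (cu 1 0 0)) (M (cu 1 1 1))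
      + 4 * d4 (M (cu 0 0 0)) (M (cu 0 1 1)) (M (cu 1 0 1)) (M (cu 1 1 0))
      + 8 * d4 (M (cu 0 0 0)) (M (cu 0 1 1)) (M (cu 1 0 1)) (M (cu 1 1 1))
      + 2 * d4 (M (cu 0 0 1)) (M (cu 0 1 0)) (M (cu 1 0 0)) (M (cu 1 1 0))
      + 4 * d4 (M (cu 0 0 1)) (M (cu 0 1 0)) (M (cu 1 0 0)) (M (cu 1 1 1))
      + 4 * d4 (M (cu 0 0 1)) (M (cu 0 1 0)) (M (cu 1 0 1)) (M (cu 1 1 0))
      + 8 * d4 (M (cu 0 0 1)) (M (cu 0 1 0)) (M (cu 1 0 1)) (M (cu 1 1 1))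
      + 4 * d4 (M (cu 0 0 1)) (M (cu 0 1 1)) (M (cu 1 0 0)) (M (cu 1 1 0))
      + 8 * d4 (M (cu 0 0 1)) (M (cu 0 1 1)) (M (cu 1 0 0)) (M (cu 1 1 1))
      + 8 * d4 (M (cu 0 0 1)) (M (cu 0 1 1)) (M (cu 1 0 1)) (M (cu 1 1 0))
      + 16 * d4 (M (cu 0 0 1)) (M (cu 0 1 1)) (M (cu 1 0 1)) (M (cu 1 1 1)) := by
  simp only [Yf2_eq, sum_cu, cu_zero, cu_one, cu_two, G5_00, G5_01, G5_02, G5_03, G5_04, d4,
    mul_zero, zero_mul, mul_one, one_mul, add_zero, zero_add] <;> ring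

theorem rel01 {M : Matrix Cu (Fin 4) ℂ} (hM : Lag M) :
    -d4 (M (cu 0 0 0)) (M (cu 0 0 1)) (M (cu 0 1 0)) (M (cu 1 0 1))
      + d4 (M (cu 0 0 0)) (M (cu 0 0 1)) (M (cu 0 1 1)) (M (cu 1 0 0)) = 0 := by
  have h := lag_rel hM (M (cu 0 0 0)) (M (cu 0 0 1))
  simp only [d4] at h ⊢
  linear_combination h

theorem rel02 {M : Matrix Cu (Fin 4) ℂ} (hM : Lag M) :
    d4 (M (cu 0 0 0)) (M (cu 0 0 1)) (M (cu 0 1 0)) (M (cu 1 1 0))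
      + d4 (M (cu 0 0 0)) (M (cu 0 1 0)) (M (cu 0 1 1)) (M (cu 1 0 0)) = 0 := by
  have h := lag_rel hM (M (cu 0 0 0)) (M (cu 0 1 0))
  simp only [d4] at h ⊢
  linear_combination h

theorem rel03 {M : Matrix Cu (Fin 4) ℂ} (hM : Lag M) :
    d4 (M (cu 0 0 0)) (M (cu 0 0 1)) (M (cu 0 1 1)) (M (cu 1 1 0))
      + d4 (M (cu 0 0 0)) (M (cu 0 1 0)) (M (cu 0 1 1)) (M (cu 1 0 1)) = 0 := by
  have h := lag_rel hM (M (cu 0 0 0)) (M (cu 0 1 1))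
  simp only [d4] at h ⊢
  linear_combination h

theorem rel04 {M : Matrix Cu (Fin 4) ℂ} (hM : Lag M) :
    d4 (M (cu 0 0 0)) (M (cu 0 0 1)) (M (cu 1 0 0)) (M (cu 1 1 0))
      + d4 (M (cu 0 0 0)) (M (cu 0 1 0)) (M (cu 1 0 0)) (M (cu 1 0 1)) = 0 := by
  have h := lag_rel hM (M (cu 0 0 0)) (M (cu 1 0 0))
  simp only [d4] at h ⊢
  linear_combination h

theorem rel05 {M : Matrix Cu (Fin 4) ℂ} (hM : Lag M) :
    d4 (M (cu 0 0 0)) (M (cu 0 0 1)) (M (cu 1 0 1)) (M (cu 1 1 0))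
      + d4 (M (cu 0 0 0)) (M (cu 0 1 1)) (M (cu 1 0 0)) (M (cu 1 0 1)) = 0 := by
  have h := lag_rel hM (M (cu 0 0 0)) (M (cu 1 0 1))
  simp only [d4] at h ⊢
  linear_combination h

theorem rel06 {M : Matrix Cu (Fin 4) ℂ} (hM : Lag M) :
    -d4 (M (cu 0 0 0)) (M (cu 0 1 0)) (M (cu 1 0 1)) (M (cu 1 1 0))
      + d4 (M (cu 0 0 0)) (M (cu 0 1 1)) (M (cu 1 0 0)) (M (cu 1 1 0)) = 0 := by
  have h := lag_rel hM (M (cu 0 0 0)) (M (cu 1 1 0))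
  simp only [d4] at h ⊢
  linear_combination h

theorem rel07 {M : Matrix Cu (Fin 4) ℂ} (hM : Lag M) :
    -d4 (M (cu 0 0 0)) (M (cu 0 0 1)) (M (cu 1 1 0)) (M (cu 1 1 1))
      - d4 (M (cu 0 0 0)) (M (cu 0 1 0)) (M (cu 1 0 1)) (M (cu 1 1 1))
      + d4 (M (cu 0 0 0)) (M (cu 0 1 1)) (M (cu 1 0 0)) (M (cu 1 1 1)) = 0 := by
  have h := lag_rel hM (M (cu 0 0 0)) (M (cu 1 1 1))
  simp only [d4] at h ⊢
  linear_combination h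

theorem rel12 {M : Matrix Cu (Fin 4) ℂ} (hM : Lag M) :
    d4 (M (cu 0 0 0)) (M (cu 0 0 1)) (M (cu 0 1 0)) (M (cu 1 1 1))
      + d4 (M (cu 0 0 1)) (M (cu 0 1 0)) (M (cu 0 1 1)) (M (cu 1 0 0)) = 0 := by
  have h := lag_rel hM (M (cu 0 0 1)) (M (cu 0 1 0))
  simp only [d4] at h ⊢
  linear_combination h

theorem rel13 {M : Matrix Cu (Fin 4) ℂ} (hM : Lag M) :
    d4 (M (cu 0 0 0)) (M (cu 0 0 1)) (M (cu 0 1 1)) (M (cu 1 1 1))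
      + d4 (M (cu 0 0 1)) (M (cu 0 1 0)) (M (cu 0 1 1)) (M (cu 1 0 1)) = 0 := by
  have h := lag_rel hM (M (cu 0 0 1)) (M (cu 0 1 1))
  simp only [d4] at h ⊢
  linear_combination h

theorem rel14 {M : Matrix Cu (Fin 4) ℂ} (hM : Lag M) :
    d4 (M (cu 0 0 0)) (M (cu 0 0 1)) (M (cu 1 0 0)) (M (cu 1 1 1))
      + d4 (M (cu 0 0 1)) (M (cu 0 1 0)) (M (cu 1 0 0)) (M (cu 1 0 1)) = 0 := by
  have h := lag_rel hM (M (cu 0 0 1)) (M (cu 1 0 0))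
  simp only [d4] at h ⊢
  linear_combination h

theorem rel15 {M : Matrix Cu (Fin 4) ℂ} (hM : Lag M) :
    d4 (M (cu 0 0 0)) (M (cu 0 0 1)) (M (cu 1 0 1)) (M (cu 1 1 1))
      + d4 (M (cu 0 0 1)) (M (cu 0 1 1)) (M (cu 1 0 0)) (M (cu 1 0 1)) = 0 := by
  have h := lag_rel hM (M (cu 0 0 1)) (M (cu 1 0 1))
  simp only [d4] at h ⊢
  linear_combination h

theorem rel16 {M : Matrix Cu (Fin 4) ℂ} (hM : Lag M) :
    d4 (M (cu 0 0 0)) (M (cu 0 0 1)) (M (cu 1 1 0)) (M (cu 1 1 1))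
      - d4 (M (cu 0 0 1)) (M (cu 0 1 0)) (M (cu 1 0 1)) (M (cu 1 1 0))
      + d4 (M (cu 0 0 1)) (M (cu 0 1 1)) (M (cu 1 0 0)) (M (cu 1 1 0)) = 0 := by
  have h := lag_rel hM (M (cu 0 0 1)) (M (cu 1 1 0))
  simp only [d4] at h ⊢
  linear_combination h

theorem rel17 {M : Matrix Cu (Fin 4) ℂ} (hM : Lag M) :
    -d4 (M (cu 0 0 1)) (M (cu 0 1 0)) (M (cu 1 0 1)) (M (cu 1 1 1))
      + d4 (M (cu 0 0 1)) (M (cu 0 1 1)) (M (cu 1 0 0)) (M (cu 1 1 1)) = 0 := by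
  have h := lag_rel hM (M (cu 0 0 1)) (M (cu 1 1 1))
  simp only [d4] at h ⊢
  linear_combination h

theorem rel23 {M : Matrix Cu (Fin 4) ℂ} (hM : Lag M) :
    d4 (M (cu 0 0 0)) (M (cu 0 1 0)) (M (cu 0 1 1)) (M (cu 1 1 1))
      - d4 (M (cu 0 0 1)) (M (cu 0 1 0)) (M (cu 0 1 1)) (M (cu 1 1 0)) = 0 := by
  have h := lag_rel hM (M (cu 0 1 0)) (M (cu 0 1 1))
  simp only [d4] at h ⊢
  linear_combination h

theorem rel24 {M : Matrix Cu (Fin 4) ℂ} (hM : Lag M) :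
    d4 (M (cu 0 0 0)) (M (cu 0 1 0)) (M (cu 1 0 0)) (M (cu 1 1 1))
      - d4 (M (cu 0 0 1)) (M (cu 0 1 0)) (M (cu 1 0 0)) (M (cu 1 1 0)) = 0 := by
  have h := lag_rel hM (M (cu 0 1 0)) (M (cu 1 0 0))
  simp only [d4] at h ⊢
  linear_combination h

theorem rel25 {M : Matrix Cu (Fin 4) ℂ} (hM : Lag M) :
    d4 (M (cu 0 0 0)) (M (cu 0 1 0)) (M (cu 1 0 1)) (M (cu 1 1 1))
      - d4 (M (cu 0 0 1)) (M (cu 0 1 0)) (M (cu 1 0 1)) (M (cu 1 1 0))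
      + d4 (M (cu 0 1 0)) (M (cu 0 1 1)) (M (cu 1 0 0)) (M (cu 1 0 1)) = 0 := by
  have h := lag_rel hM (M (cu 0 1 0)) (M (cu 1 0 1))
  simp only [d4] at h ⊢
  linear_combination h

theorem rel26 {M : Matrix Cu (Fin 4) ℂ} (hM : Lag M) :
    d4 (M (cu 0 0 0)) (M (cu 0 1 0)) (M (cu 1 1 0)) (M (cu 1 1 1))
      + d4 (M (cu 0 1 0)) (M (cu 0 1 1)) (M (cu 1 0 0)) (M (cu 1 1 0)) = 0 := by
  have h := lag_rel hM (M (cu 0 1 0)) (M (cu 1 1 0))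
  simp only [d4] at h ⊢
  linear_combination h

theorem rel27 {M : Matrix Cu (Fin 4) ℂ} (hM : Lag M) :
    d4 (M (cu 0 0 1)) (M (cu 0 1 0)) (M (cu 1 1 0)) (M (cu 1 1 1))
      + d4 (M (cu 0 1 0)) (M (cu 0 1 1)) (M (cu 1 0 0)) (M (cu 1 1 1)) = 0 := by
  have h := lag_rel hM (M (cu 0 1 0)) (M (cu 1 1 1))
  simp only [d4] at h ⊢
  linear_combination h

theorem rel34 {M : Matrix Cu (Fin 4) ℂ} (hM : Lag M) :
    d4 (M (cu 0 0 0)) (M (cu 0 1 1)) (M (cu 1 0 0)) (M (cu 1 1 1))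
      - d4 (M (cu 0 0 1)) (M (cu 0 1 1)) (M (cu 1 0 0)) (M (cu 1 1 0))
      - d4 (M (cu 0 1 0)) (M (cu 0 1 1)) (M (cu 1 0 0)) (M (cu 1 0 1)) = 0 := by
  have h := lag_rel hM (M (cu 0 1 1)) (M (cu 1 0 0))
  simp only [d4] at h ⊢
  linear_combination h

theorem rel35 {M : Matrix Cu (Fin 4) ℂ} (hM : Lag M) :
    d4 (M (cu 0 0 0)) (M (cu 0 1 1)) (M (cu 1 0 1)) (M (cu 1 1 1))
      - d4 (M (cu 0 0 1)) (M (cu 0 1 1)) (M (cu 1 0 1)) (M (cu 1 1 0)) = 0 := by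
  have h := lag_rel hM (M (cu 0 1 1)) (M (cu 1 0 1))
  simp only [d4] at h ⊢
  linear_combination h

theorem rel36 {M : Matrix Cu (Fin 4) ℂ} (hM : Lag M) :
    d4 (M (cu 0 0 0)) (M (cu 0 1 1)) (M (cu 1 1 0)) (M (cu 1 1 1))
      + d4 (M (cu 0 1 0)) (M (cu 0 1 1)) (M (cu 1 0 1)) (M (cu 1 1 0)) = 0 := by
  have h := lag_rel hM (M (cu 0 1 1)) (M (cu 1 1 0))
  simp only [d4] at h ⊢
  linear_combination h

theorem rel37 {M : Matrix Cu (Fin 4) ℂ} (hM : Lag M) :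
    d4 (M (cu 0 0 1)) (M (cu 0 1 1)) (M (cu 1 1 0)) (M (cu 1 1 1))
      + d4 (M (cu 0 1 0)) (M (cu 0 1 1)) (M (cu 1 0 1)) (M (cu 1 1 1)) = 0 := by
  have h := lag_rel hM (M (cu 0 1 1)) (M (cu 1 1 1))
  simp only [d4] at h ⊢
  linear_combination h

theorem rel45 {M : Matrix Cu (Fin 4) ℂ} (hM : Lag M) :
    d4 (M (cu 0 0 0)) (M (cu 1 0 0)) (M (cu 1 0 1)) (M (cu 1 1 1))
      - d4 (M (cu 0 0 1)) (M (cu 1 0 0)) (M (cu 1 0 1)) (M (cu 1 1 0)) = 0 := by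
  have h := lag_rel hM (M (cu 1 0 0)) (M (cu 1 0 1))
  simp only [d4] at h ⊢
  linear_combination h

theorem rel46 {M : Matrix Cu (Fin 4) ℂ} (hM : Lag M) :
    d4 (M (cu 0 0 0)) (M (cu 1 0 0)) (M (cu 1 1 0)) (M (cu 1 1 1))
      + d4 (M (cu 0 1 0)) (M (cu 1 0 0)) (M (cu 1 0 1)) (M (cu 1 1 0)) = 0 := by
  have h := lag_rel hM (M (cu 1 0 0)) (M (cu 1 1 0))
  simp only [d4] at h ⊢
  linear_combination h

theorem rel47 {M : Matrix Cu (Fin 4) ℂ} (hM : Lag M) :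
    d4 (M (cu 0 0 1)) (M (cu 1 0 0)) (M (cu 1 1 0)) (M (cu 1 1 1))
      + d4 (M (cu 0 1 0)) (M (cu 1 0 0)) (M (cu 1 0 1)) (M (cu 1 1 1)) = 0 := by
  have h := lag_rel hM (M (cu 1 0 0)) (M (cu 1 1 1))
  simp only [d4] at h ⊢
  linear_combination h

theorem rel56 {M : Matrix Cu (Fin 4) ℂ} (hM : Lag M) :
    d4 (M (cu 0 0 0)) (M (cu 1 0 1)) (M (cu 1 1 0)) (M (cu 1 1 1))
      + d4 (M (cu 0 1 1)) (M (cu 1 0 0)) (M (cu 1 0 1)) (M (cu 1 1 0)) = 0 := by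
  have h := lag_rel hM (M (cu 1 0 1)) (M (cu 1 1 0))
  simp only [d4] at h ⊢
  linear_combination h

theorem rel57 {M : Matrix Cu (Fin 4) ℂ} (hM : Lag M) :
    d4 (M (cu 0 0 1)) (M (cu 1 0 1)) (M (cu 1 1 0)) (M (cu 1 1 1))
      + d4 (M (cu 0 1 1)) (M (cu 1 0 0)) (M (cu 1 0 1)) (M (cu 1 1 1)) = 0 := by
  have h := lag_rel hM (M (cu 1 0 1)) (M (cu 1 1 1))
  simp only [d4] at h ⊢
  linear_combination h

theorem rel67 {M : Matrix Cu (Fin 4) ℂ} (hM : Lag M) :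
    -d4 (M (cu 0 1 0)) (M (cu 1 0 1)) (M (cu 1 1 0)) (M (cu 1 1 1))
      + d4 (M (cu 0 1 1)) (M (cu 1 0 0)) (M (cu 1 1 0)) (M (cu 1 1 1)) = 0 := by
  have h := lag_rel hM (M (cu 1 1 0)) (M (cu 1 1 1))
  simp only [d4] at h ⊢
  linear_combination h

theorem sp0123 : Sp (fun M => 24 * d4 (M (cu 0 0 0)) (M (cu 0 0 1)) (M (cu 0 1 0)) (M (cu 0 1 1))) := by
  refine Sp.congr (Sp.smul (24) (Sp.f 0 0)) fun M hM => ?_
  push_cast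
  linear_combination (-24) * ef00 M

theorem sp0124 : Sp (fun M => 24 * d4 (M (cu 0 0 0)) (M (cu 0 0 1)) (M (cu 0 1 0)) (M (cu 1 0 0))) := by
  refine Sp.congr (Sp.smul (-24) (Sp.F ![0, 0, 0])) fun M hM => ?_
  push_cast
  linear_combination (24) * eF000 M

theorem sp0125 : Sp (fun M => 24 * d4 (M (cu 0 0 0)) (M (cu 0 0 1)) (M (cu 0 1 0)) (M (cu 1 0 1))) := by
  refine Sp.congr (Sp.add (Sp.smul (12) (Sp.F ![0, 0, 0]))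
      (Sp.add (Sp.smul (12) (Sp.F ![0, 0, 1]))
      (Sp.smul (-12) (Sp.F ![0, 0, 2])))) fun M hM => ?_
  push_cast
  linear_combination (-12) * eF000 M +
      (-12) * eF001 M +
      (12) * eF002 M +
      (-12) * rel01 hM

theorem sp0126 : Sp (fun M => 24 * d4 (M (cu 0 0 0)) (M (cu 0 0 1)) (M (cu 0 1 0)) (M (cu 1 1 0))) := by
  refine Sp.congr (Sp.add (Sp.smul (12) (Sp.F ![0, 0, 0]))
      (Sp.add (Sp.smul (12) (Sp.F ![0, 1, 0]))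
      (Sp.smul (-12) (Sp.F ![0, 2, 0])))) fun M hM => ?_
  push_cast
  linear_combination (-12) * eF000 M +
      (-12) * eF010 M +
      (12) * eF020 M +
      (12) * rel02 hM

theorem sp0127 : Sp (fun M => 24 * d4 (M (cu 0 0 0)) (M (cu 0 0 1)) (M (cu 0 1 0)) (M (cu 1 1 1))) := by
  refine Sp.congr (Sp.add (Sp.smul (-6) (Sp.F ![0, 0, 0]))
      (Sp.add (Sp.smul (-6) (Sp.F ![0, 0, 1]))
      (Sp.add (Sp.smul (6) (Sp.F ![0, 0, 2]))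
      (Sp.add (Sp.smul (-6) (Sp.F ![0, 1, 0]))
      (Sp.add (Sp.smul (-6) (Sp.F ![0, 1, 1]))
      (Sp.add (Sp.smul (6) (Sp.F ![0, 1, 2]))
      (Sp.add (Sp.smul (6) (Sp.F ![0, 2, 0]))
      (Sp.add (Sp.smul (6) (Sp.F ![0, 2, 1]))
      (Sp.add (Sp.smul (-6) (Sp.F ![0, 2, 2]))
      (Sp.add (Sp.smul (-3) (Sp.f 0 0))
      (Sp.add (Sp.smul (12) (Sp.f 0 1))
      (Sp.add (Sp.smul (6) (Sp.f 0 2))
      (Sp.add (Sp.smul (-2) (Sp.f 0 3))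
      (Sp.smul (-1) (Sp.f 0 4))))))))))))))) fun M hM => ?_
  push_cast
  linear_combination (6) * eF000 M +
      (6) * eF001 M +
      (-6) * eF002 M +
      (6) * eF010 M +
      (6) * eF011 M +
      (-6) * eF012 M +
      (-6) * eF020 M +
      (-6) * eF021 M +
      (6) * eF022 M +
      (3) * ef00 M +
      (-12) * ef01 M +
      (-6) * ef02 M +
      (2) * ef03 M +
      (1) * ef04 M +
      (12) * rel12 hM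

theorem sp0134 : Sp (fun M => 24 * d4 (M (cu 0 0 0)) (M (cu 0 0 1)) (M (cu 0 1 1)) (M (cu 1 0 0))) := by
  refine Sp.congr (Sp.add (Sp.smul (12) (Sp.F ![0, 0, 0]))
      (Sp.add (Sp.smul (12) (Sp.F ![0, 0, 1]))
      (Sp.smul (-12) (Sp.F ![0, 0, 2])))) fun M hM => ?_
  push_cast
  linear_combination (-12) * eF000 M +
      (-12) * eF001 M +
      (12) * eF002 M +
      (12) * rel01 hM

theorem sp0135 : Sp (fun M => 24 * d4 (M (cu 0 0 0)) (M (cu 0 0 1)) (M (cu 0 1 1)) (M (cu 1 0 1))) := by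
  refine Sp.congr (Sp.smul (-24) (Sp.F ![0, 0, 1])) fun M hM => ?_
  push_cast
  linear_combination (24) * eF001 M

theorem sp0136 : Sp (fun M => 24 * d4 (M (cu 0 0 0)) (M (cu 0 0 1)) (M (cu 0 1 1)) (M (cu 1 1 0))) := by
  refine Sp.congr (Sp.add (Sp.smul (-6) (Sp.F ![0, 0, 0]))
      (Sp.add (Sp.smul (-6) (Sp.F ![0, 0, 1]))
      (Sp.add (Sp.smul (6) (Sp.F ![0, 0, 2]))
      (Sp.add (Sp.smul (-6) (Sp.F ![0, 1, 0]))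
      (Sp.add (Sp.smul (-6) (Sp.F ![0, 1, 1]))
      (Sp.add (Sp.smul (6) (Sp.F ![0, 1, 2]))
      (Sp.add (Sp.smul (6) (Sp.F ![0, 2, 0]))
      (Sp.add (Sp.smul (6) (Sp.F ![0, 2, 1]))
      (Sp.add (Sp.smul (-6) (Sp.F ![0, 2, 2]))
      (Sp.add (Sp.smul (3) (Sp.f 0 0))
      (Sp.add (Sp.smul (-12) (Sp.f 0 1))
      (Sp.add (Sp.smul (-6) (Sp.f 0 2))
      (Sp.add (Sp.smul (2) (Sp.f 0 3))
      (Sp.smul (1) (Sp.f 0 4))))))))))))))) fun M hM => ?_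
  push_cast
  linear_combination (6) * eF000 M +
      (6) * eF001 M +
      (-6) * eF002 M +
      (6) * eF010 M +
      (6) * eF011 M +
      (-6) * eF012 M +
      (-6) * eF020 M +
      (-6) * eF021 M +
      (6) * eF022 M +
      (-3) * ef00 M +
      (12) * ef01 M +
      (6) * ef02 M +
      (-2) * ef03 M +
      (-1) * ef04 M +
      (12) * rel03 hM

theorem sp0137 : Sp (fun M => 24 * d4 (M (cu 0 0 0)) (M (cu 0 0 1)) (M (cu 0 1 1)) (M (cu 1 1 1))) := by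
  refine Sp.congr (Sp.add (Sp.smul (12) (Sp.F ![0, 0, 1]))
      (Sp.add (Sp.smul (12) (Sp.F ![0, 1, 1]))
      (Sp.smul (-12) (Sp.F ![0, 2, 1])))) fun M hM => ?_
  push_cast
  linear_combination (-12) * eF001 M +
      (-12) * eF011 M +
      (12) * eF021 M +
      (12) * rel13 hM

theorem sp0145 : Sp (fun M => 24 * d4 (M (cu 0 0 0)) (M (cu 0 0 1)) (M (cu 1 0 0)) (M (cu 1 0 1))) := by
  refine Sp.congr (Sp.smul (-24) (Sp.f 1 0)) fun M hM => ?_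
  push_cast
  linear_combination (24) * ef10 M

theorem sp0146 : Sp (fun M => 24 * d4 (M (cu 0 0 0)) (M (cu 0 0 1)) (M (cu 1 0 0)) (M (cu 1 1 0))) := by
  refine Sp.congr (Sp.add (Sp.smul (-12) (Sp.F ![0, 0, 0]))
      (Sp.add (Sp.smul (-12) (Sp.F ![1, 0, 0]))
      (Sp.smul (12) (Sp.F ![2, 0, 0])))) fun M hM => ?_
  push_cast
  linear_combination (12) * eF000 M +
      (12) * eF100 M +
      (-12) * eF200 M +
      (12) * rel04 hM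

theorem sp0147 : Sp (fun M => 24 * d4 (M (cu 0 0 0)) (M (cu 0 0 1)) (M (cu 1 0 0)) (M (cu 1 1 1))) := by
  refine Sp.congr (Sp.add (Sp.smul (6) (Sp.F ![0, 0, 0]))
      (Sp.add (Sp.smul (6) (Sp.F ![0, 0, 1]))
      (Sp.add (Sp.smul (-6) (Sp.F ![0, 0, 2]))
      (Sp.add (Sp.smul (6) (Sp.F ![1, 0, 0]))
      (Sp.add (Sp.smul (6) (Sp.F ![1, 0, 1]))
      (Sp.add (Sp.smul (-6) (Sp.F ![1, 0, 2]))
      (Sp.add (Sp.smul (-6) (Sp.F ![2, 0, 0]))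
      (Sp.add (Sp.smul (-6) (Sp.F ![2, 0, 1]))
      (Sp.add (Sp.smul (6) (Sp.F ![2, 0, 2]))
      (Sp.add (Sp.smul (3) (Sp.f 1 0))
      (Sp.add (Sp.smul (-12) (Sp.f 1 1))
      (Sp.add (Sp.smul (-6) (Sp.f 1 2))
      (Sp.add (Sp.smul (2) (Sp.f 1 3))
      (Sp.smul (1) (Sp.f 1 4))))))))))))))) fun M hM => ?_
  push_cast
  linear_combination (-6) * eF000 M +
      (-6) * eF001 M +
      (6) * eF002 M +
      (-6) * eF100 M +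
      (-6) * eF101 M +
      (6) * eF102 M +
      (6) * eF200 M +
      (6) * eF201 M +
      (-6) * eF202 M +
      (-3) * ef10 M +
      (12) * ef11 M +
      (6) * ef12 M +
      (-2) * ef13 M +
      (-1) * ef14 M +
      (12) * rel14 hM

theorem sp0156 : Sp (fun M => 24 * d4 (M (cu 0 0 0)) (M (cu 0 0 1)) (M (cu 1 0 1)) (M (cu 1 1 0))) := by
  refine Sp.congr (Sp.add (Sp.smul (6) (Sp.F ![0, 0, 0]))
      (Sp.add (Sp.smul (6) (Sp.F ![0, 0, 1]))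
      (Sp.add (Sp.smul (-6) (Sp.F ![0, 0, 2]))
      (Sp.add (Sp.smul (6) (Sp.F ![1, 0, 0]))
      (Sp.add (Sp.smul (6) (Sp.F ![1, 0, 1]))
      (Sp.add (Sp.smul (-6) (Sp.F ![1, 0, 2]))
      (Sp.add (Sp.smul (-6) (Sp.F ![2, 0, 0]))
      (Sp.add (Sp.smul (-6) (Sp.F ![2, 0, 1]))
      (Sp.add (Sp.smul (6) (Sp.F ![2, 0, 2]))
      (Sp.add (Sp.smul (-3) (Sp.f 1 0))
      (Sp.add (Sp.smul (12) (Sp.f 1 1))
      (Sp.add (Sp.smul (6) (Sp.f 1 2))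
      (Sp.add (Sp.smul (-2) (Sp.f 1 3))
      (Sp.smul (-1) (Sp.f 1 4))))))))))))))) fun M hM => ?_
  push_cast
  linear_combination (-6) * eF000 M +
      (-6) * eF001 M +
      (6) * eF002 M +
      (-6) * eF100 M +
      (-6) * eF101 M +
      (6) * eF102 M +
      (6) * eF200 M +
      (6) * eF201 M +
      (-6) * eF202 M +
      (3) * ef10 M +
      (-12) * ef11 M +
      (-6) * ef12 M +
      (2) * ef13 M +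
      (1) * ef14 M +
      (12) * rel05 hM

theorem sp0157 : Sp (fun M => 24 * d4 (M (cu 0 0 0)) (M (cu 0 0 1)) (M (cu 1 0 1)) (M (cu 1 1 1))) := by
  refine Sp.congr (Sp.add (Sp.smul (-12) (Sp.F ![0, 0, 1]))
      (Sp.add (Sp.smul (-12) (Sp.F ![1, 0, 1]))
      (Sp.smul (12) (Sp.F ![2, 0, 1])))) fun M hM => ?_
  push_cast
  linear_combination (12) * eF001 M +
      (12) * eF101 M +
      (-12) * eF201 M +
      (12) * rel15 hM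

theorem sp0167 : Sp (fun M => 24 * d4 (M (cu 0 0 0)) (M (cu 0 0 1)) (M (cu 1 1 0)) (M (cu 1 1 1))) := by
  refine Sp.congr (Sp.add (Sp.smul (-4) (Sp.f 0 0))
      (Sp.add (Sp.smul (-4) (Sp.f 0 1))
      (Sp.add (Sp.smul (2) (Sp.f 0 2))
      (Sp.add (Sp.smul (2) (Sp.f 0 3))
      (Sp.add (Sp.smul (4) (Sp.f 1 0))
      (Sp.add (Sp.smul (4) (Sp.f 1 1))
      (Sp.add (Sp.smul (-2) (Sp.f 1 2))
      (Sp.smul (-2) (Sp.f 1 3))))))))) fun M hM => ?_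
  push_cast
  linear_combination (4) * ef00 M +
      (4) * ef01 M +
      (-2) * ef02 M +
      (-2) * ef03 M +
      (-4) * ef10 M +
      (-4) * ef11 M +
      (2) * ef12 M +
      (2) * ef13 M +
      (-8) * rel07 hM +
      (8) * rel16 hM +
      (-4) * rel25 hM +
      (4) * rel34 hM

theorem sp0234 : Sp (fun M => 24 * d4 (M (cu 0 0 0)) (M (cu 0 1 0)) (M (cu 0 1 1)) (M (cu 1 0 0))) := by
  refine Sp.congr (Sp.add (Sp.smul (-12) (Sp.F ![0, 0, 0]))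
      (Sp.add (Sp.smul (-12) (Sp.F ![0, 1, 0]))
      (Sp.smul (12) (Sp.F ![0, 2, 0])))) fun M hM => ?_
  push_cast
  linear_combination (12) * eF000 M +
      (12) * eF010 M +
      (-12) * eF020 M +
      (12) * rel02 hM

theorem sp0235 : Sp (fun M => 24 * d4 (M (cu 0 0 0)) (M (cu 0 1 0)) (M (cu 0 1 1)) (M (cu 1 0 1))) := by
  refine Sp.congr (Sp.add (Sp.smul (6) (Sp.F ![0, 0, 0]))
      (Sp.add (Sp.smul (6) (Sp.F ![0, 0, 1]))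
      (Sp.add (Sp.smul (-6) (Sp.F ![0, 0, 2]))
      (Sp.add (Sp.smul (6) (Sp.F ![0, 1, 0]))
      (Sp.add (Sp.smul (6) (Sp.F ![0, 1, 1]))
      (Sp.add (Sp.smul (-6) (Sp.F ![0, 1, 2]))
      (Sp.add (Sp.smul (-6) (Sp.F ![0, 2, 0]))
      (Sp.add (Sp.smul (-6) (Sp.F ![0, 2, 1]))
      (Sp.add (Sp.smul (6) (Sp.F ![0, 2, 2]))
      (Sp.add (Sp.smul (-3) (Sp.f 0 0))
      (Sp.add (Sp.smul (12) (Sp.f 0 1))
      (Sp.add (Sp.smul (6) (Sp.f 0 2))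
      (Sp.add (Sp.smul (-2) (Sp.f 0 3))
      (Sp.smul (-1) (Sp.f 0 4))))))))))))))) fun M hM => ?_
  push_cast
  linear_combination (-6) * eF000 M +
      (-6) * eF001 M +
      (6) * eF002 M +
      (-6) * eF010 M +
      (-6) * eF011 M +
      (6) * eF012 M +
      (6) * eF020 M +
      (6) * eF021 M +
      (-6) * eF022 M +
      (3) * ef00 M +
      (-12) * ef01 M +
      (-6) * ef02 M +
      (2) * ef03 M +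
      (1) * ef04 M +
      (12) * rel03 hM

theorem sp0236 : Sp (fun M => 24 * d4 (M (cu 0 0 0)) (M (cu 0 1 0)) (M (cu 0 1 1)) (M (cu 1 1 0))) := by
  refine Sp.congr (Sp.smul (24) (Sp.F ![0, 1, 0])) fun M hM => ?_
  push_cast
  linear_combination (-24) * eF010 M

theorem sp0237 : Sp (fun M => 24 * d4 (M (cu 0 0 0)) (M (cu 0 1 0)) (M (cu 0 1 1)) (M (cu 1 1 1))) := by
  refine Sp.congr (Sp.add (Sp.smul (-12) (Sp.F ![0, 1, 0]))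
      (Sp.add (Sp.smul (-12) (Sp.F ![0, 1, 1]))
      (Sp.smul (12) (Sp.F ![0, 1, 2])))) fun M hM => ?_
  push_cast
  linear_combination (12) * eF010 M +
      (12) * eF011 M +
      (-12) * eF012 M +
      (12) * rel23 hM

theorem sp0245 : Sp (fun M => 24 * d4 (M (cu 0 0 0)) (M (cu 0 1 0)) (M (cu 1 0 0)) (M (cu 1 0 1))) := by
  refine Sp.congr (Sp.add (Sp.smul (12) (Sp.F ![0, 0, 0]))
      (Sp.add (Sp.smul (12) (Sp.F ![1, 0, 0]))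
      (Sp.smul (-12) (Sp.F ![2, 0, 0])))) fun M hM => ?_
  push_cast
  linear_combination (-12) * eF000 M +
      (-12) * eF100 M +
      (12) * eF200 M +
      (12) * rel04 hM

theorem sp0246 : Sp (fun M => 24 * d4 (M (cu 0 0 0)) (M (cu 0 1 0)) (M (cu 1 0 0)) (M (cu 1 1 0))) := by
  refine Sp.congr (Sp.smul (24) (Sp.f 2 0)) fun M hM => ?_
  push_cast
  linear_combination (-24) * ef20 M

theorem sp0247 : Sp (fun M => 24 * d4 (M (cu 0 0 0)) (M (cu 0 1 0)) (M (cu 1 0 0)) (M (cu 1 1 1))) := by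
  refine Sp.congr (Sp.add (Sp.smul (-6) (Sp.F ![0, 0, 0]))
      (Sp.add (Sp.smul (-6) (Sp.F ![0, 1, 0]))
      (Sp.add (Sp.smul (6) (Sp.F ![0, 2, 0]))
      (Sp.add (Sp.smul (-6) (Sp.F ![1, 0, 0]))
      (Sp.add (Sp.smul (-6) (Sp.F ![1, 1, 0]))
      (Sp.add (Sp.smul (6) (Sp.F ![1, 2, 0]))
      (Sp.add (Sp.smul (6) (Sp.F ![2, 0, 0]))
      (Sp.add (Sp.smul (6) (Sp.F ![2, 1, 0]))
      (Sp.add (Sp.smul (-6) (Sp.F ![2, 2, 0]))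
      (Sp.add (Sp.smul (-3) (Sp.f 2 0))
      (Sp.add (Sp.smul (12) (Sp.f 2 1))
      (Sp.add (Sp.smul (6) (Sp.f 2 2))
      (Sp.add (Sp.smul (-2) (Sp.f 2 3))
      (Sp.smul (-1) (Sp.f 2 4))))))))))))))) fun M hM => ?_
  push_cast
  linear_combination (6) * eF000 M +
      (6) * eF010 M +
      (-6) * eF020 M +
      (6) * eF100 M +
      (6) * eF110 M +
      (-6) * eF120 M +
      (-6) * eF200 M +
      (-6) * eF210 M +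
      (6) * eF220 M +
      (3) * ef20 M +
      (-12) * ef21 M +
      (-6) * ef22 M +
      (2) * ef23 M +
      (1) * ef24 M +
      (12) * rel24 hM

theorem sp0256 : Sp (fun M => 24 * d4 (M (cu 0 0 0)) (M (cu 0 1 0)) (M (cu 1 0 1)) (M (cu 1 1 0))) := by
  refine Sp.congr (Sp.add (Sp.smul (6) (Sp.F ![0, 0, 0]))
      (Sp.add (Sp.smul (6) (Sp.F ![0, 1, 0]))
      (Sp.add (Sp.smul (-6) (Sp.F ![0, 2, 0]))
      (Sp.add (Sp.smul (6) (Sp.F ![1, 0, 0]))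
      (Sp.add (Sp.smul (6) (Sp.F ![1, 1, 0]))
      (Sp.add (Sp.smul (-6) (Sp.F ![1, 2, 0]))
      (Sp.add (Sp.smul (-6) (Sp.F ![2, 0, 0]))
      (Sp.add (Sp.smul (-6) (Sp.F ![2, 1, 0]))
      (Sp.add (Sp.smul (6) (Sp.F ![2, 2, 0]))
      (Sp.add (Sp.smul (-3) (Sp.f 2 0))
      (Sp.add (Sp.smul (12) (Sp.f 2 1))
      (Sp.add (Sp.smul (6) (Sp.f 2 2))
      (Sp.add (Sp.smul (-2) (Sp.f 2 3))
      (Sp.smul (-1) (Sp.f 2 4))))))))))))))) fun M hM => ?_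
  push_cast
  linear_combination (-6) * eF000 M +
      (-6) * eF010 M +
      (6) * eF020 M +
      (-6) * eF100 M +
      (-6) * eF110 M +
      (6) * eF120 M +
      (6) * eF200 M +
      (6) * eF210 M +
      (-6) * eF220 M +
      (3) * ef20 M +
      (-12) * ef21 M +
      (-6) * ef22 M +
      (2) * ef23 M +
      (1) * ef24 M +
      (-12) * rel06 hM

theorem sp0257 : Sp (fun M => 24 * d4 (M (cu 0 0 0)) (M (cu 0 1 0)) (M (cu 1 0 1)) (M (cu 1 1 1))) := by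
  refine Sp.congr (Sp.add (Sp.smul (4) (Sp.f 0 0))
      (Sp.add (Sp.smul (4) (Sp.f 0 1))
      (Sp.add (Sp.smul (-2) (Sp.f 0 2))
      (Sp.add (Sp.smul (-2) (Sp.f 0 3))
      (Sp.add (Sp.smul (-4) (Sp.f 2 0))
      (Sp.add (Sp.smul (-4) (Sp.f 2 1))
      (Sp.add (Sp.smul (2) (Sp.f 2 2))
      (Sp.smul (2) (Sp.f 2 3))))))))) fun M hM => ?_
  push_cast
  linear_combination (-4) * ef00 M +
      (-4) * ef01 M +
      (2) * ef02 M +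
      (2) * ef03 M +
      (4) * ef20 M +
      (4) * ef21 M +
      (-2) * ef22 M +
      (-2) * ef23 M +
      (-8) * rel07 hM +
      (-4) * rel16 hM +
      (8) * rel25 hM +
      (4) * rel34 hM

theorem sp0267 : Sp (fun M => 24 * d4 (M (cu 0 0 0)) (M (cu 0 1 0)) (M (cu 1 1 0)) (M (cu 1 1 1))) := by
  refine Sp.congr (Sp.add (Sp.smul (12) (Sp.F ![0, 1, 0]))
      (Sp.add (Sp.smul (12) (Sp.F ![1, 1, 0]))
      (Sp.smul (-12) (Sp.F ![2, 1, 0])))) fun M hM => ?_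
  push_cast
  linear_combination (-12) * eF010 M +
      (-12) * eF110 M +
      (12) * eF210 M +
      (12) * rel26 hM

theorem sp0345 : Sp (fun M => 24 * d4 (M (cu 0 0 0)) (M (cu 0 1 1)) (M (cu 1 0 0)) (M (cu 1 0 1))) := by
  refine Sp.congr (Sp.add (Sp.smul (-6) (Sp.F ![0, 0, 0]))
      (Sp.add (Sp.smul (-6) (Sp.F ![0, 0, 1]))
      (Sp.add (Sp.smul (6) (Sp.F ![0, 0, 2]))
      (Sp.add (Sp.smul (-6) (Sp.F ![1, 0, 0]))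
      (Sp.add (Sp.smul (-6) (Sp.F ![1, 0, 1]))
      (Sp.add (Sp.smul (6) (Sp.F ![1, 0, 2]))
      (Sp.add (Sp.smul (6) (Sp.F ![2, 0, 0]))
      (Sp.add (Sp.smul (6) (Sp.F ![2, 0, 1]))
      (Sp.add (Sp.smul (-6) (Sp.F ![2, 0, 2]))
      (Sp.add (Sp.smul (3) (Sp.f 1 0))
      (Sp.add (Sp.smul (-12) (Sp.f 1 1))
      (Sp.add (Sp.smul (-6) (Sp.f 1 2))
      (Sp.add (Sp.smul (2) (Sp.f 1 3))
      (Sp.smul (1) (Sp.f 1 4))))))))))))))) fun M hM => ?_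
  push_cast
  linear_combination (6) * eF000 M +
      (6) * eF001 M +
      (-6) * eF002 M +
      (6) * eF100 M +
      (6) * eF101 M +
      (-6) * eF102 M +
      (-6) * eF200 M +
      (-6) * eF201 M +
      (6) * eF202 M +
      (-3) * ef10 M +
      (12) * ef11 M +
      (6) * ef12 M +
      (-2) * ef13 M +
      (-1) * ef14 M +
      (12) * rel05 hM

theorem sp0346 : Sp (fun M => 24 * d4 (M (cu 0 0 0)) (M (cu 0 1 1)) (M (cu 1 0 0)) (M (cu 1 1 0))) := by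
  refine Sp.congr (Sp.add (Sp.smul (6) (Sp.F ![0, 0, 0]))
      (Sp.add (Sp.smul (6) (Sp.F ![0, 1, 0]))
      (Sp.add (Sp.smul (-6) (Sp.F ![0, 2, 0]))
      (Sp.add (Sp.smul (6) (Sp.F ![1, 0, 0]))
      (Sp.add (Sp.smul (6) (Sp.F ![1, 1, 0]))
      (Sp.add (Sp.smul (-6) (Sp.F ![1, 2, 0]))
      (Sp.add (Sp.smul (-6) (Sp.F ![2, 0, 0]))
      (Sp.add (Sp.smul (-6) (Sp.F ![2, 1, 0]))
      (Sp.add (Sp.smul (6) (Sp.F ![2, 2, 0]))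
      (Sp.add (Sp.smul (-3) (Sp.f 2 0))
      (Sp.add (Sp.smul (12) (Sp.f 2 1))
      (Sp.add (Sp.smul (6) (Sp.f 2 2))
      (Sp.add (Sp.smul (-2) (Sp.f 2 3))
      (Sp.smul (-1) (Sp.f 2 4))))))))))))))) fun M hM => ?_
  push_cast
  linear_combination (-6) * eF000 M +
      (-6) * eF010 M +
      (6) * eF020 M +
      (-6) * eF100 M +
      (-6) * eF110 M +
      (6) * eF120 M +
      (6) * eF200 M +
      (6) * eF210 M +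
      (-6) * eF220 M +
      (3) * ef20 M +
      (-12) * ef21 M +
      (-6) * ef22 M +
      (2) * ef23 M +
      (1) * ef24 M +
      (12) * rel06 hM

theorem sp0347 : Sp (fun M => 24 * d4 (M (cu 0 0 0)) (M (cu 0 1 1)) (M (cu 1 0 0)) (M (cu 1 1 1))) := by
  refine Sp.congr (Sp.add (Sp.smul (4) (Sp.f 1 0))
      (Sp.add (Sp.smul (4) (Sp.f 1 1))
      (Sp.add (Sp.smul (-2) (Sp.f 1 2))
      (Sp.add (Sp.smul (-2) (Sp.f 1 3))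
      (Sp.add (Sp.smul (-4) (Sp.f 2 0))
      (Sp.add (Sp.smul (-4) (Sp.f 2 1))
      (Sp.add (Sp.smul (2) (Sp.f 2 2))
      (Sp.smul (2) (Sp.f 2 3))))))))) fun M hM => ?_
  push_cast
  linear_combination (-4) * ef10 M +
      (-4) * ef11 M +
      (2) * ef12 M +
      (2) * ef13 M +
      (4) * ef20 M +
      (4) * ef21 M +
      (-2) * ef22 M +
      (-2) * ef23 M +
      (8) * rel07 hM +
      (4) * rel16 hM +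
      (4) * rel25 hM +
      (8) * rel34 hM

theorem sp0356 : Sp (fun M => 24 * d4 (M (cu 0 0 0)) (M (cu 0 1 1)) (M (cu 1 0 1)) (M (cu 1 1 0))) := by
  refine Sp.congr (Sp.add (Sp.smul (-6) (Sp.F ![0, 0, 0]))
      (Sp.add (Sp.smul (-6) (Sp.F ![0, 0, 1]))
      (Sp.add (Sp.smul (6) (Sp.F ![0, 0, 2]))
      (Sp.add (Sp.smul (-6) (Sp.F ![0, 1, 0]))
      (Sp.add (Sp.smul (-6) (Sp.F ![0, 1, 1]))
      (Sp.add (Sp.smul (6) (Sp.F ![0, 1, 2]))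
      (Sp.add (Sp.smul (6) (Sp.F ![0, 2, 0]))
      (Sp.add (Sp.smul (6) (Sp.F ![0, 2, 1]))
      (Sp.add (Sp.smul (-6) (Sp.F ![0, 2, 2]))
      (Sp.add (Sp.smul (-6) (Sp.F ![1, 0, 0]))
      (Sp.add (Sp.smul (-6) (Sp.F ![1, 0, 1]))
      (Sp.add (Sp.smul (6) (Sp.F ![1, 0, 2]))
      (Sp.add (Sp.smul (-6) (Sp.F ![1, 1, 0]))
      (Sp.add (Sp.smul (-6) (Sp.F ![1, 1, 1]))
      (Sp.add (Sp.smul (6) (Sp.F ![1, 1, 2]))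
      (Sp.add (Sp.smul (6) (Sp.F ![1, 2, 0]))
      (Sp.add (Sp.smul (6) (Sp.F ![1, 2, 1]))
      (Sp.add (Sp.smul (-6) (Sp.F ![1, 2, 2]))
      (Sp.add (Sp.smul (6) (Sp.F ![2, 0, 0]))
      (Sp.add (Sp.smul (6) (Sp.F ![2, 0, 1]))
      (Sp.add (Sp.smul (-6) (Sp.F ![2, 0, 2]))
      (Sp.add (Sp.smul (6) (Sp.F ![2, 1, 0]))
      (Sp.add (Sp.smul (6) (Sp.F ![2, 1, 1]))
      (Sp.add (Sp.smul (-6) (Sp.F ![2, 1, 2]))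
      (Sp.add (Sp.smul (-6) (Sp.F ![2, 2, 0]))
      (Sp.add (Sp.smul (-6) (Sp.F ![2, 2, 1]))
      (Sp.add (Sp.smul (6) (Sp.F ![2, 2, 2]))
      (Sp.add (Sp.smul (-4) (Sp.f 0 0))
      (Sp.add (Sp.smul (-4) (Sp.f 0 1))
      (Sp.add (Sp.smul (2) (Sp.f 0 2))
      (Sp.add (Sp.smul (2) (Sp.f 0 3))
      (Sp.add (Sp.smul (-4) (Sp.f 1 0))
      (Sp.add (Sp.smul (-4) (Sp.f 1 1))
      (Sp.add (Sp.smul (2) (Sp.f 1 2))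
      (Sp.add (Sp.smul (2) (Sp.f 1 3))
      (Sp.add (Sp.smul (-4) (Sp.f 2 0))
      (Sp.add (Sp.smul (-4) (Sp.f 2 1))
      (Sp.add (Sp.smul (2) (Sp.f 2 2))
      (Sp.smul (2) (Sp.f 2 3)))))))))))))))))))))))))))))))))))))))) fun M hM => ?_
  push_cast
  linear_combination (6) * eF000 M +
      (6) * eF001 M +
      (-6) * eF002 M +
      (6) * eF010 M +
      (6) * eF011 M +
      (-6) * eF012 M +
      (-6) * eF020 M +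
      (-6) * eF021 M +
      (6) * eF022 M +
      (6) * eF100 M +
      (6) * eF101 M +
      (-6) * eF102 M +
      (6) * eF110 M +
      (6) * eF111 M +
      (-6) * eF112 M +
      (-6) * eF120 M +
      (-6) * eF121 M +
      (6) * eF122 M +
      (-6) * eF200 M +
      (-6) * eF201 M +
      (6) * eF202 M +
      (-6) * eF210 M +
      (-6) * eF211 M +
      (6) * eF212 M +
      (6) * eF220 M +
      (6) * eF221 M +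
      (-6) * eF222 M +
      (4) * ef00 M +
      (4) * ef01 M +
      (-2) * ef02 M +
      (-2) * ef03 M +
      (4) * ef10 M +
      (4) * ef11 M +
      (-2) * ef12 M +
      (-2) * ef13 M +
      (4) * ef20 M +
      (4) * ef21 M +
      (-2) * ef22 M +
      (-2) * ef23 M

theorem sp0357 : Sp (fun M => 24 * d4 (M (cu 0 0 0)) (M (cu 0 1 1)) (M (cu 1 0 1)) (M (cu 1 1 1))) := by
  refine Sp.congr (Sp.add (Sp.smul (6) (Sp.F ![0, 0, 1]))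
      (Sp.add (Sp.smul (6) (Sp.F ![0, 1, 1]))
      (Sp.add (Sp.smul (-6) (Sp.F ![0, 2, 1]))
      (Sp.add (Sp.smul (6) (Sp.F ![1, 0, 1]))
      (Sp.add (Sp.smul (6) (Sp.F ![1, 1, 1]))
      (Sp.add (Sp.smul (-6) (Sp.F ![1, 2, 1]))
      (Sp.add (Sp.smul (-6) (Sp.F ![2, 0, 1]))
      (Sp.add (Sp.smul (-6) (Sp.F ![2, 1, 1]))
      (Sp.add (Sp.smul (6) (Sp.F ![2, 2, 1]))
      (Sp.add (Sp.smul (3) (Sp.f 2 0))
      (Sp.add (Sp.smul (-12) (Sp.f 2 1))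
      (Sp.add (Sp.smul (-3) (Sp.f 2 2))
      (Sp.add (Sp.smul (-1) (Sp.f 2 3))
      (Sp.smul (1) (Sp.f 2 4))))))))))))))) fun M hM => ?_
  push_cast
  linear_combination (-6) * eF001 M +
      (-6) * eF011 M +
      (6) * eF021 M +
      (-6) * eF101 M +
      (-6) * eF111 M +
      (6) * eF121 M +
      (6) * eF201 M +
      (6) * eF211 M +
      (-6) * eF221 M +
      (-3) * ef20 M +
      (12) * ef21 M +
      (3) * ef22 M +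
      (1) * ef23 M +
      (-1) * ef24 M +
      (12) * rel35 hM

theorem sp0367 : Sp (fun M => 24 * d4 (M (cu 0 0 0)) (M (cu 0 1 1)) (M (cu 1 1 0)) (M (cu 1 1 1))) := by
  refine Sp.congr (Sp.add (Sp.smul (-6) (Sp.F ![0, 1, 0]))
      (Sp.add (Sp.smul (-6) (Sp.F ![0, 1, 1]))
      (Sp.add (Sp.smul (6) (Sp.F ![0, 1, 2]))
      (Sp.add (Sp.smul (-6) (Sp.F ![1, 1, 0]))
      (Sp.add (Sp.smul (-6) (Sp.F ![1, 1, 1]))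
      (Sp.add (Sp.smul (6) (Sp.F ![1, 1, 2]))
      (Sp.add (Sp.smul (6) (Sp.F ![2, 1, 0]))
      (Sp.add (Sp.smul (6) (Sp.F ![2, 1, 1]))
      (Sp.add (Sp.smul (-6) (Sp.F ![2, 1, 2]))
      (Sp.add (Sp.smul (-3) (Sp.f 1 0))
      (Sp.add (Sp.smul (12) (Sp.f 1 1))
      (Sp.add (Sp.smul (3) (Sp.f 1 2))
      (Sp.add (Sp.smul (1) (Sp.f 1 3))
      (Sp.smul (-1) (Sp.f 1 4))))))))))))))) fun M hM => ?_
  push_cast
  linear_combination (6) * eF010 M +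
      (6) * eF011 M +
      (-6) * eF012 M +
      (6) * eF110 M +
      (6) * eF111 M +
      (-6) * eF112 M +
      (-6) * eF210 M +
      (-6) * eF211 M +
      (6) * eF212 M +
      (3) * ef10 M +
      (-12) * ef11 M +
      (-3) * ef12 M +
      (-1) * ef13 M +
      (1) * ef14 M +
      (12) * rel36 hM

theorem sp0456 : Sp (fun M => 24 * d4 (M (cu 0 0 0)) (M (cu 1 0 0)) (M (cu 1 0 1)) (M (cu 1 1 0))) := by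
  refine Sp.congr (Sp.smul (-24) (Sp.F ![1, 0, 0])) fun M hM => ?_
  push_cast
  linear_combination (24) * eF100 M

theorem sp0457 : Sp (fun M => 24 * d4 (M (cu 0 0 0)) (M (cu 1 0 0)) (M (cu 1 0 1)) (M (cu 1 1 1))) := by
  refine Sp.congr (Sp.add (Sp.smul (12) (Sp.F ![1, 0, 0]))
      (Sp.add (Sp.smul (12) (Sp.F ![1, 0, 1]))
      (Sp.smul (-12) (Sp.F ![1, 0, 2])))) fun M hM => ?_
  push_cast
  linear_combination (-12) * eF100 M +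
      (-12) * eF101 M +
      (12) * eF102 M +
      (12) * rel45 hM

theorem sp0467 : Sp (fun M => 24 * d4 (M (cu 0 0 0)) (M (cu 1 0 0)) (M (cu 1 1 0)) (M (cu 1 1 1))) := by
  refine Sp.congr (Sp.add (Sp.smul (-12) (Sp.F ![1, 0, 0]))
      (Sp.add (Sp.smul (-12) (Sp.F ![1, 1, 0]))
      (Sp.smul (12) (Sp.F ![1, 2, 0])))) fun M hM => ?_
  push_cast
  linear_combination (12) * eF100 M +
      (12) * eF110 M +
      (-12) * eF120 M +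
      (12) * rel46 hM

theorem sp0567 : Sp (fun M => 24 * d4 (M (cu 0 0 0)) (M (cu 1 0 1)) (M (cu 1 1 0)) (M (cu 1 1 1))) := by
  refine Sp.congr (Sp.add (Sp.smul (6) (Sp.F ![1, 0, 0]))
      (Sp.add (Sp.smul (6) (Sp.F ![1, 0, 1]))
      (Sp.add (Sp.smul (-6) (Sp.F ![1, 0, 2]))
      (Sp.add (Sp.smul (6) (Sp.F ![1, 1, 0]))
      (Sp.add (Sp.smul (6) (Sp.F ![1, 1, 1]))
      (Sp.add (Sp.smul (-6) (Sp.F ![1, 1, 2]))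
      (Sp.add (Sp.smul (-6) (Sp.F ![1, 2, 0]))
      (Sp.add (Sp.smul (-6) (Sp.F ![1, 2, 1]))
      (Sp.add (Sp.smul (6) (Sp.F ![1, 2, 2]))
      (Sp.add (Sp.smul (3) (Sp.f 0 0))
      (Sp.add (Sp.smul (-12) (Sp.f 0 1))
      (Sp.add (Sp.smul (-3) (Sp.f 0 2))
      (Sp.add (Sp.smul (-1) (Sp.f 0 3))
      (Sp.smul (1) (Sp.f 0 4))))))))))))))) fun M hM => ?_
  push_cast
  linear_combination (-6) * eF100 M +
      (-6) * eF101 M +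
      (6) * eF102 M +
      (-6) * eF110 M +
      (-6) * eF111 M +
      (6) * eF112 M +
      (6) * eF120 M +
      (6) * eF121 M +
      (-6) * eF122 M +
      (-3) * ef00 M +
      (12) * ef01 M +
      (3) * ef02 M +
      (1) * ef03 M +
      (-1) * ef04 M +
      (12) * rel56 hM

theorem sp1234 : Sp (fun M => 24 * d4 (M (cu 0 0 1)) (M (cu 0 1 0)) (M (cu 0 1 1)) (M (cu 1 0 0))) := by
  refine Sp.congr (Sp.add (Sp.smul (6) (Sp.F ![0, 0, 0]))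
      (Sp.add (Sp.smul (6) (Sp.F ![0, 0, 1]))
      (Sp.add (Sp.smul (-6) (Sp.F ![0, 0, 2]))
      (Sp.add (Sp.smul (6) (Sp.F ![0, 1, 0]))
      (Sp.add (Sp.smul (6) (Sp.F ![0, 1, 1]))
      (Sp.add (Sp.smul (-6) (Sp.F ![0, 1, 2]))
      (Sp.add (Sp.smul (-6) (Sp.F ![0, 2, 0]))
      (Sp.add (Sp.smul (-6) (Sp.F ![0, 2, 1]))
      (Sp.add (Sp.smul (6) (Sp.F ![0, 2, 2]))
      (Sp.add (Sp.smul (3) (Sp.f 0 0))
      (Sp.add (Sp.smul (-12) (Sp.f 0 1))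
      (Sp.add (Sp.smul (-6) (Sp.f 0 2))
      (Sp.add (Sp.smul (2) (Sp.f 0 3))
      (Sp.smul (1) (Sp.f 0 4))))))))))))))) fun M hM => ?_
  push_cast
  linear_combination (-6) * eF000 M +
      (-6) * eF001 M +
      (6) * eF002 M +
      (-6) * eF010 M +
      (-6) * eF011 M +
      (6) * eF012 M +
      (6) * eF020 M +
      (6) * eF021 M +
      (-6) * eF022 M +
      (-3) * ef00 M +
      (12) * ef01 M +
      (6) * ef02 M +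
      (-2) * ef03 M +
      (-1) * ef04 M +
      (12) * rel12 hM

theorem sp1235 : Sp (fun M => 24 * d4 (M (cu 0 0 1)) (M (cu 0 1 0)) (M (cu 0 1 1)) (M (cu 1 0 1))) := by
  refine Sp.congr (Sp.add (Sp.smul (-12) (Sp.F ![0, 0, 1]))
      (Sp.add (Sp.smul (-12) (Sp.F ![0, 1, 1]))
      (Sp.smul (12) (Sp.F ![0, 2, 1])))) fun M hM => ?_
  push_cast
  linear_combination (12) * eF001 M +
      (12) * eF011 M +
      (-12) * eF021 M +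
      (12) * rel13 hM

theorem sp1236 : Sp (fun M => 24 * d4 (M (cu 0 0 1)) (M (cu 0 1 0)) (M (cu 0 1 1)) (M (cu 1 1 0))) := by
  refine Sp.congr (Sp.add (Sp.smul (-12) (Sp.F ![0, 1, 0]))
      (Sp.add (Sp.smul (-12) (Sp.F ![0, 1, 1]))
      (Sp.smul (12) (Sp.F ![0, 1, 2])))) fun M hM => ?_
  push_cast
  linear_combination (12) * eF010 M +
      (12) * eF011 M +
      (-12) * eF012 M +
      (-12) * rel23 hM

theorem sp1237 : Sp (fun M => 24 * d4 (M (cu 0 0 1)) (M (cu 0 1 0)) (M (cu 0 1 1)) (M (cu 1 1 1))) := by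
  refine Sp.congr (Sp.smul (24) (Sp.F ![0, 1, 1])) fun M hM => ?_
  push_cast
  linear_combination (-24) * eF011 M

theorem sp1245 : Sp (fun M => 24 * d4 (M (cu 0 0 1)) (M (cu 0 1 0)) (M (cu 1 0 0)) (M (cu 1 0 1))) := by
  refine Sp.congr (Sp.add (Sp.smul (-6) (Sp.F ![0, 0, 0]))
      (Sp.add (Sp.smul (-6) (Sp.F ![0, 0, 1]))
      (Sp.add (Sp.smul (6) (Sp.F ![0, 0, 2]))
      (Sp.add (Sp.smul (-6) (Sp.F ![1, 0, 0]))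
      (Sp.add (Sp.smul (-6) (Sp.F ![1, 0, 1]))
      (Sp.add (Sp.smul (6) (Sp.F ![1, 0, 2]))
      (Sp.add (Sp.smul (6) (Sp.F ![2, 0, 0]))
      (Sp.add (Sp.smul (6) (Sp.F ![2, 0, 1]))
      (Sp.add (Sp.smul (-6) (Sp.F ![2, 0, 2]))
      (Sp.add (Sp.smul (-3) (Sp.f 1 0))
      (Sp.add (Sp.smul (12) (Sp.f 1 1))
      (Sp.add (Sp.smul (6) (Sp.f 1 2))
      (Sp.add (Sp.smul (-2) (Sp.f 1 3))
      (Sp.smul (-1) (Sp.f 1 4))))))))))))))) fun M hM => ?_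
  push_cast
  linear_combination (6) * eF000 M +
      (6) * eF001 M +
      (-6) * eF002 M +
      (6) * eF100 M +
      (6) * eF101 M +
      (-6) * eF102 M +
      (-6) * eF200 M +
      (-6) * eF201 M +
      (6) * eF202 M +
      (3) * ef10 M +
      (-12) * ef11 M +
      (-6) * ef12 M +
      (2) * ef13 M +
      (1) * ef14 M +
      (12) * rel14 hM

theorem sp1246 : Sp (fun M => 24 * d4 (M (cu 0 0 1)) (M (cu 0 1 0)) (M (cu 1 0 0)) (M (cu 1 1 0))) := by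
  refine Sp.congr (Sp.add (Sp.smul (-6) (Sp.F ![0, 0, 0]))
      (Sp.add (Sp.smul (-6) (Sp.F ![0, 1, 0]))
      (Sp.add (Sp.smul (6) (Sp.F ![0, 2, 0]))
      (Sp.add (Sp.smul (-6) (Sp.F ![1, 0, 0]))
      (Sp.add (Sp.smul (-6) (Sp.F ![1, 1, 0]))
      (Sp.add (Sp.smul (6) (Sp.F ![1, 2, 0]))
      (Sp.add (Sp.smul (6) (Sp.F ![2, 0, 0]))
      (Sp.add (Sp.smul (6) (Sp.F ![2, 1, 0]))
      (Sp.add (Sp.smul (-6) (Sp.F ![2, 2, 0]))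
      (Sp.add (Sp.smul (-3) (Sp.f 2 0))
      (Sp.add (Sp.smul (12) (Sp.f 2 1))
      (Sp.add (Sp.smul (6) (Sp.f 2 2))
      (Sp.add (Sp.smul (-2) (Sp.f 2 3))
      (Sp.smul (-1) (Sp.f 2 4))))))))))))))) fun M hM => ?_
  push_cast
  linear_combination (6) * eF000 M +
      (6) * eF010 M +
      (-6) * eF020 M +
      (6) * eF100 M +
      (6) * eF110 M +
      (-6) * eF120 M +
      (-6) * eF200 M +
      (-6) * eF210 M +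
      (6) * eF220 M +
      (3) * ef20 M +
      (-12) * ef21 M +
      (-6) * ef22 M +
      (2) * ef23 M +
      (1) * ef24 M +
      (-12) * rel24 hM

theorem sp1247 : Sp (fun M => 24 * d4 (M (cu 0 0 1)) (M (cu 0 1 0)) (M (cu 1 0 0)) (M (cu 1 1 1))) := by
  refine Sp.congr (Sp.add (Sp.smul (6) (Sp.F ![0, 0, 0]))
      (Sp.add (Sp.smul (6) (Sp.F ![0, 0, 1]))
      (Sp.add (Sp.smul (-6) (Sp.F ![0, 0, 2]))
      (Sp.add (Sp.smul (6) (Sp.F ![0, 1, 0]))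
      (Sp.add (Sp.smul (6) (Sp.F ![0, 1, 1]))
      (Sp.add (Sp.smul (-6) (Sp.F ![0, 1, 2]))
      (Sp.add (Sp.smul (-6) (Sp.F ![0, 2, 0]))
      (Sp.add (Sp.smul (-6) (Sp.F ![0, 2, 1]))
      (Sp.add (Sp.smul (6) (Sp.F ![0, 2, 2]))
      (Sp.add (Sp.smul (6) (Sp.F ![1, 0, 0]))
      (Sp.add (Sp.smul (6) (Sp.F ![1, 0, 1]))
      (Sp.add (Sp.smul (-6) (Sp.F ![1, 0, 2]))
      (Sp.add (Sp.smul (6) (Sp.F ![1, 1, 0]))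
      (Sp.add (Sp.smul (6) (Sp.F ![1, 1, 1]))
      (Sp.add (Sp.smul (-6) (Sp.F ![1, 1, 2]))
      (Sp.add (Sp.smul (-6) (Sp.F ![1, 2, 0]))
      (Sp.add (Sp.smul (-6) (Sp.F ![1, 2, 1]))
      (Sp.add (Sp.smul (6) (Sp.F ![1, 2, 2]))
      (Sp.add (Sp.smul (-6) (Sp.F ![2, 0, 0]))
      (Sp.add (Sp.smul (-6) (Sp.F ![2, 0, 1]))
      (Sp.add (Sp.smul (6) (Sp.F ![2, 0, 2]))
      (Sp.add (Sp.smul (-6) (Sp.F ![2, 1, 0]))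
      (Sp.add (Sp.smul (-6) (Sp.F ![2, 1, 1]))
      (Sp.add (Sp.smul (6) (Sp.F ![2, 1, 2]))
      (Sp.add (Sp.smul (6) (Sp.F ![2, 2, 0]))
      (Sp.add (Sp.smul (6) (Sp.F ![2, 2, 1]))
      (Sp.add (Sp.smul (-6) (Sp.F ![2, 2, 2]))
      (Sp.add (Sp.smul (-4) (Sp.f 0 0))
      (Sp.add (Sp.smul (-4) (Sp.f 0 1))
      (Sp.add (Sp.smul (2) (Sp.f 0 2))
      (Sp.add (Sp.smul (2) (Sp.f 0 3))
      (Sp.add (Sp.smul (-4) (Sp.f 1 0))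
      (Sp.add (Sp.smul (-4) (Sp.f 1 1))
      (Sp.add (Sp.smul (2) (Sp.f 1 2))
      (Sp.add (Sp.smul (2) (Sp.f 1 3))
      (Sp.add (Sp.smul (-4) (Sp.f 2 0))
      (Sp.add (Sp.smul (-4) (Sp.f 2 1))
      (Sp.add (Sp.smul (2) (Sp.f 2 2))
      (Sp.smul (2) (Sp.f 2 3)))))))))))))))))))))))))))))))))))))))) fun M hM => ?_
  push_cast
  linear_combination (-6) * eF000 M +
      (-6) * eF001 M +
      (6) * eF002 M +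
      (-6) * eF010 M +
      (-6) * eF011 M +
      (6) * eF012 M +
      (6) * eF020 M +
      (6) * eF021 M +
      (-6) * eF022 M +
      (-6) * eF100 M +
      (-6) * eF101 M +
      (6) * eF102 M +
      (-6) * eF110 M +
      (-6) * eF111 M +
      (6) * eF112 M +
      (6) * eF120 M +
      (6) * eF121 M +
      (-6) * eF122 M +
      (6) * eF200 M +
      (6) * eF201 M +
      (-6) * eF202 M +
      (6) * eF210 M +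
      (6) * eF211 M +
      (-6) * eF212 M +
      (-6) * eF220 M +
      (-6) * eF221 M +
      (6) * eF222 M +
      (4) * ef00 M +
      (4) * ef01 M +
      (-2) * ef02 M +
      (-2) * ef03 M +
      (4) * ef10 M +
      (4) * ef11 M +
      (-2) * ef12 M +
      (-2) * ef13 M +
      (4) * ef20 M +
      (4) * ef21 M +
      (-2) * ef22 M +
      (-2) * ef23 M

theorem sp1256 : Sp (fun M => 24 * d4 (M (cu 0 0 1)) (M (cu 0 1 0)) (M (cu 1 0 1)) (M (cu 1 1 0))) := by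
  refine Sp.congr (Sp.add (Sp.smul (4) (Sp.f 1 0))
      (Sp.add (Sp.smul (4) (Sp.f 1 1))
      (Sp.add (Sp.smul (-2) (Sp.f 1 2))
      (Sp.add (Sp.smul (-2) (Sp.f 1 3))
      (Sp.add (Sp.smul (-4) (Sp.f 2 0))
      (Sp.add (Sp.smul (-4) (Sp.f 2 1))
      (Sp.add (Sp.smul (2) (Sp.f 2 2))
      (Sp.smul (2) (Sp.f 2 3))))))))) fun M hM => ?_
  push_cast
  linear_combination (-4) * ef10 M +
      (-4) * ef11 M +
      (2) * ef12 M +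
      (2) * ef13 M +
      (4) * ef20 M +
      (4) * ef21 M +
      (-2) * ef22 M +
      (-2) * ef23 M +
      (-4) * rel07 hM +
      (-8) * rel16 hM +
      (-8) * rel25 hM +
      (-4) * rel34 hM

theorem sp1257 : Sp (fun M => 24 * d4 (M (cu 0 0 1)) (M (cu 0 1 0)) (M (cu 1 0 1)) (M (cu 1 1 1))) := by
  refine Sp.congr (Sp.add (Sp.smul (-6) (Sp.F ![0, 0, 1]))
      (Sp.add (Sp.smul (-6) (Sp.F ![0, 1, 1]))
      (Sp.add (Sp.smul (6) (Sp.F ![0, 2, 1]))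
      (Sp.add (Sp.smul (-6) (Sp.F ![1, 0, 1]))
      (Sp.add (Sp.smul (-6) (Sp.F ![1, 1, 1]))
      (Sp.add (Sp.smul (6) (Sp.F ![1, 2, 1]))
      (Sp.add (Sp.smul (6) (Sp.F ![2, 0, 1]))
      (Sp.add (Sp.smul (6) (Sp.F ![2, 1, 1]))
      (Sp.add (Sp.smul (-6) (Sp.F ![2, 2, 1]))
      (Sp.add (Sp.smul (3) (Sp.f 2 0))
      (Sp.add (Sp.smul (-12) (Sp.f 2 1))
      (Sp.add (Sp.smul (-3) (Sp.f 2 2))
      (Sp.add (Sp.smul (-1) (Sp.f 2 3))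
      (Sp.smul (1) (Sp.f 2 4))))))))))))))) fun M hM => ?_
  push_cast
  linear_combination (6) * eF001 M +
      (6) * eF011 M +
      (-6) * eF021 M +
      (6) * eF101 M +
      (6) * eF111 M +
      (-6) * eF121 M +
      (-6) * eF201 M +
      (-6) * eF211 M +
      (6) * eF221 M +
      (-3) * ef20 M +
      (12) * ef21 M +
      (3) * ef22 M +
      (1) * ef23 M +
      (-1) * ef24 M +
      (-12) * rel17 hM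

theorem sp1267 : Sp (fun M => 24 * d4 (M (cu 0 0 1)) (M (cu 0 1 0)) (M (cu 1 1 0)) (M (cu 1 1 1))) := by
  refine Sp.congr (Sp.add (Sp.smul (-6) (Sp.F ![0, 1, 0]))
      (Sp.add (Sp.smul (-6) (Sp.F ![0, 1, 1]))
      (Sp.add (Sp.smul (6) (Sp.F ![0, 1, 2]))
      (Sp.add (Sp.smul (-6) (Sp.F ![1, 1, 0]))
      (Sp.add (Sp.smul (-6) (Sp.F ![1, 1, 1]))
      (Sp.add (Sp.smul (6) (Sp.F ![1, 1, 2]))
      (Sp.add (Sp.smul (6) (Sp.F ![2, 1, 0]))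
      (Sp.add (Sp.smul (6) (Sp.F ![2, 1, 1]))
      (Sp.add (Sp.smul (-6) (Sp.F ![2, 1, 2]))
      (Sp.add (Sp.smul (3) (Sp.f 1 0))
      (Sp.add (Sp.smul (-12) (Sp.f 1 1))
      (Sp.add (Sp.smul (-3) (Sp.f 1 2))
      (Sp.add (Sp.smul (-1) (Sp.f 1 3))
      (Sp.smul (1) (Sp.f 1 4))))))))))))))) fun M hM => ?_
  push_cast
  linear_combination (6) * eF010 M +
      (6) * eF011 M +
      (-6) * eF012 M +
      (6) * eF110 M +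
      (6) * eF111 M +
      (-6) * eF112 M +
      (-6) * eF210 M +
      (-6) * eF211 M +
      (6) * eF212 M +
      (-3) * ef10 M +
      (12) * ef11 M +
      (3) * ef12 M +
      (1) * ef13 M +
      (-1) * ef14 M +
      (12) * rel27 hM

theorem sp1345 : Sp (fun M => 24 * d4 (M (cu 0 0 1)) (M (cu 0 1 1)) (M (cu 1 0 0)) (M (cu 1 0 1))) := by
  refine Sp.congr (Sp.add (Sp.smul (12) (Sp.F ![0, 0, 1]))
      (Sp.add (Sp.smul (12) (Sp.F ![1, 0, 1]))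
      (Sp.smul (-12) (Sp.F ![2, 0, 1])))) fun M hM => ?_
  push_cast
  linear_combination (-12) * eF001 M +
      (-12) * eF101 M +
      (12) * eF201 M +
      (12) * rel15 hM

theorem sp1346 : Sp (fun M => 24 * d4 (M (cu 0 0 1)) (M (cu 0 1 1)) (M (cu 1 0 0)) (M (cu 1 1 0))) := by
  refine Sp.congr (Sp.add (Sp.smul (4) (Sp.f 0 0))
      (Sp.add (Sp.smul (4) (Sp.f 0 1))
      (Sp.add (Sp.smul (-2) (Sp.f 0 2))
      (Sp.add (Sp.smul (-2) (Sp.f 0 3))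
      (Sp.add (Sp.smul (-4) (Sp.f 2 0))
      (Sp.add (Sp.smul (-4) (Sp.f 2 1))
      (Sp.add (Sp.smul (2) (Sp.f 2 2))
      (Sp.smul (2) (Sp.f 2 3))))))))) fun M hM => ?_
  push_cast
  linear_combination (-4) * ef00 M +
      (-4) * ef01 M +
      (2) * ef02 M +
      (2) * ef03 M +
      (4) * ef20 M +
      (4) * ef21 M +
      (-2) * ef22 M +
      (-2) * ef23 M +
      (4) * rel07 hM +
      (8) * rel16 hM +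
      (-4) * rel25 hM +
      (-8) * rel34 hM

theorem sp1347 : Sp (fun M => 24 * d4 (M (cu 0 0 1)) (M (cu 0 1 1)) (M (cu 1 0 0)) (M (cu 1 1 1))) := by
  refine Sp.congr (Sp.add (Sp.smul (-6) (Sp.F ![0, 0, 1]))
      (Sp.add (Sp.smul (-6) (Sp.F ![0, 1, 1]))
      (Sp.add (Sp.smul (6) (Sp.F ![0, 2, 1]))
      (Sp.add (Sp.smul (-6) (Sp.F ![1, 0, 1]))
      (Sp.add (Sp.smul (-6) (Sp.F ![1, 1, 1]))
      (Sp.add (Sp.smul (6) (Sp.F ![1, 2, 1]))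
      (Sp.add (Sp.smul (6) (Sp.F ![2, 0, 1]))
      (Sp.add (Sp.smul (6) (Sp.F ![2, 1, 1]))
      (Sp.add (Sp.smul (-6) (Sp.F ![2, 2, 1]))
      (Sp.add (Sp.smul (3) (Sp.f 2 0))
      (Sp.add (Sp.smul (-12) (Sp.f 2 1))
      (Sp.add (Sp.smul (-3) (Sp.f 2 2))
      (Sp.add (Sp.smul (-1) (Sp.f 2 3))
      (Sp.smul (1) (Sp.f 2 4))))))))))))))) fun M hM => ?_
  push_cast
  linear_combination (6) * eF001 M +
      (6) * eF011 M +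
      (-6) * eF021 M +
      (6) * eF101 M +
      (6) * eF111 M +
      (-6) * eF121 M +
      (-6) * eF201 M +
      (-6) * eF211 M +
      (6) * eF221 M +
      (-3) * ef20 M +
      (12) * ef21 M +
      (3) * ef22 M +
      (1) * ef23 M +
      (-1) * ef24 M +
      (12) * rel17 hM

theorem sp1356 : Sp (fun M => 24 * d4 (M (cu 0 0 1)) (M (cu 0 1 1)) (M (cu 1 0 1)) (M (cu 1 1 0))) := by
  refine Sp.congr (Sp.add (Sp.smul (6) (Sp.F ![0, 0, 1]))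
      (Sp.add (Sp.smul (6) (Sp.F ![0, 1, 1]))
      (Sp.add (Sp.smul (-6) (Sp.F ![0, 2, 1]))
      (Sp.add (Sp.smul (6) (Sp.F ![1, 0, 1]))
      (Sp.add (Sp.smul (6) (Sp.F ![1, 1, 1]))
      (Sp.add (Sp.smul (-6) (Sp.F ![1, 2, 1]))
      (Sp.add (Sp.smul (-6) (Sp.F ![2, 0, 1]))
      (Sp.add (Sp.smul (-6) (Sp.F ![2, 1, 1]))
      (Sp.add (Sp.smul (6) (Sp.F ![2, 2, 1]))
      (Sp.add (Sp.smul (3) (Sp.f 2 0))
      (Sp.add (Sp.smul (-12) (Sp.f 2 1))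
      (Sp.add (Sp.smul (-3) (Sp.f 2 2))
      (Sp.add (Sp.smul (-1) (Sp.f 2 3))
      (Sp.smul (1) (Sp.f 2 4))))))))))))))) fun M hM => ?_
  push_cast
  linear_combination (-6) * eF001 M +
      (-6) * eF011 M +
      (6) * eF021 M +
      (-6) * eF101 M +
      (-6) * eF111 M +
      (6) * eF121 M +
      (6) * eF201 M +
      (6) * eF211 M +
      (-6) * eF221 M +
      (-3) * ef20 M +
      (12) * ef21 M +
      (3) * ef22 M +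
      (1) * ef23 M +
      (-1) * ef24 M +
      (-12) * rel35 hM

theorem sp1357 : Sp (fun M => 24 * d4 (M (cu 0 0 1)) (M (cu 0 1 1)) (M (cu 1 0 1)) (M (cu 1 1 1))) := by
  refine Sp.congr (Sp.smul (24) (Sp.f 2 1)) fun M hM => ?_
  push_cast
  linear_combination (-24) * ef21 M

theorem sp1367 : Sp (fun M => 24 * d4 (M (cu 0 0 1)) (M (cu 0 1 1)) (M (cu 1 1 0)) (M (cu 1 1 1))) := by
  refine Sp.congr (Sp.add (Sp.smul (12) (Sp.F ![0, 1, 1]))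
      (Sp.add (Sp.smul (12) (Sp.F ![1, 1, 1]))
      (Sp.smul (-12) (Sp.F ![2, 1, 1])))) fun M hM => ?_
  push_cast
  linear_combination (-12) * eF011 M +
      (-12) * eF111 M +
      (12) * eF211 M +
      (12) * rel37 hM

theorem sp1456 : Sp (fun M => 24 * d4 (M (cu 0 0 1)) (M (cu 1 0 0)) (M (cu 1 0 1)) (M (cu 1 1 0))) := by
  refine Sp.congr (Sp.add (Sp.smul (12) (Sp.F ![1, 0, 0]))
      (Sp.add (Sp.smul (12) (Sp.F ![1, 0, 1]))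
      (Sp.smul (-12) (Sp.F ![1, 0, 2])))) fun M hM => ?_
  push_cast
  linear_combination (-12) * eF100 M +
      (-12) * eF101 M +
      (12) * eF102 M +
      (-12) * rel45 hM

theorem sp1457 : Sp (fun M => 24 * d4 (M (cu 0 0 1)) (M (cu 1 0 0)) (M (cu 1 0 1)) (M (cu 1 1 1))) := by
  refine Sp.congr (Sp.smul (-24) (Sp.F ![1, 0, 1])) fun M hM => ?_
  push_cast
  linear_combination (24) * eF101 M

theorem sp1467 : Sp (fun M => 24 * d4 (M (cu 0 0 1)) (M (cu 1 0 0)) (M (cu 1 1 0)) (M (cu 1 1 1))) := by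
  refine Sp.congr (Sp.add (Sp.smul (6) (Sp.F ![1, 0, 0]))
      (Sp.add (Sp.smul (6) (Sp.F ![1, 0, 1]))
      (Sp.add (Sp.smul (-6) (Sp.F ![1, 0, 2]))
      (Sp.add (Sp.smul (6) (Sp.F ![1, 1, 0]))
      (Sp.add (Sp.smul (6) (Sp.F ![1, 1, 1]))
      (Sp.add (Sp.smul (-6) (Sp.F ![1, 1, 2]))
      (Sp.add (Sp.smul (-6) (Sp.F ![1, 2, 0]))
      (Sp.add (Sp.smul (-6) (Sp.F ![1, 2, 1]))
      (Sp.add (Sp.smul (6) (Sp.F ![1, 2, 2]))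
      (Sp.add (Sp.smul (-3) (Sp.f 0 0))
      (Sp.add (Sp.smul (12) (Sp.f 0 1))
      (Sp.add (Sp.smul (3) (Sp.f 0 2))
      (Sp.add (Sp.smul (1) (Sp.f 0 3))
      (Sp.smul (-1) (Sp.f 0 4))))))))))))))) fun M hM => ?_
  push_cast
  linear_combination (-6) * eF100 M +
      (-6) * eF101 M +
      (6) * eF102 M +
      (-6) * eF110 M +
      (-6) * eF111 M +
      (6) * eF112 M +
      (6) * eF120 M +
      (6) * eF121 M +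
      (-6) * eF122 M +
      (3) * ef00 M +
      (-12) * ef01 M +
      (-3) * ef02 M +
      (-1) * ef03 M +
      (1) * ef04 M +
      (12) * rel47 hM

theorem sp1567 : Sp (fun M => 24 * d4 (M (cu 0 0 1)) (M (cu 1 0 1)) (M (cu 1 1 0)) (M (cu 1 1 1))) := by
  refine Sp.congr (Sp.add (Sp.smul (-12) (Sp.F ![1, 0, 1]))
      (Sp.add (Sp.smul (-12) (Sp.F ![1, 1, 1]))
      (Sp.smul (12) (Sp.F ![1, 2, 1])))) fun M hM => ?_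
  push_cast
  linear_combination (12) * eF101 M +
      (12) * eF111 M +
      (-12) * eF121 M +
      (12) * rel57 hM

theorem sp2345 : Sp (fun M => 24 * d4 (M (cu 0 1 0)) (M (cu 0 1 1)) (M (cu 1 0 0)) (M (cu 1 0 1))) := by
  refine Sp.congr (Sp.add (Sp.smul (-4) (Sp.f 0 0))
      (Sp.add (Sp.smul (-4) (Sp.f 0 1))
      (Sp.add (Sp.smul (2) (Sp.f 0 2))
      (Sp.add (Sp.smul (2) (Sp.f 0 3))
      (Sp.add (Sp.smul (4) (Sp.f 1 0))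
      (Sp.add (Sp.smul (4) (Sp.f 1 1))
      (Sp.add (Sp.smul (-2) (Sp.f 1 2))
      (Sp.smul (-2) (Sp.f 1 3))))))))) fun M hM => ?_
  push_cast
  linear_combination (4) * ef00 M +
      (4) * ef01 M +
      (-2) * ef02 M +
      (-2) * ef03 M +
      (-4) * ef10 M +
      (-4) * ef11 M +
      (2) * ef12 M +
      (2) * ef13 M +
      (4) * rel07 hM +
      (-4) * rel16 hM +
      (8) * rel25 hM +
      (-8) * rel34 hM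

theorem sp2346 : Sp (fun M => 24 * d4 (M (cu 0 1 0)) (M (cu 0 1 1)) (M (cu 1 0 0)) (M (cu 1 1 0))) := by
  refine Sp.congr (Sp.add (Sp.smul (-12) (Sp.F ![0, 1, 0]))
      (Sp.add (Sp.smul (-12) (Sp.F ![1, 1, 0]))
      (Sp.smul (12) (Sp.F ![2, 1, 0])))) fun M hM => ?_
  push_cast
  linear_combination (12) * eF010 M +
      (12) * eF110 M +
      (-12) * eF210 M +
      (12) * rel26 hM

theorem sp2347 : Sp (fun M => 24 * d4 (M (cu 0 1 0)) (M (cu 0 1 1)) (M (cu 1 0 0)) (M (cu 1 1 1))) := by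
  refine Sp.congr (Sp.add (Sp.smul (6) (Sp.F ![0, 1, 0]))
      (Sp.add (Sp.smul (6) (Sp.F ![0, 1, 1]))
      (Sp.add (Sp.smul (-6) (Sp.F ![0, 1, 2]))
      (Sp.add (Sp.smul (6) (Sp.F ![1, 1, 0]))
      (Sp.add (Sp.smul (6) (Sp.F ![1, 1, 1]))
      (Sp.add (Sp.smul (-6) (Sp.F ![1, 1, 2]))
      (Sp.add (Sp.smul (-6) (Sp.F ![2, 1, 0]))
      (Sp.add (Sp.smul (-6) (Sp.F ![2, 1, 1]))
      (Sp.add (Sp.smul (6) (Sp.F ![2, 1, 2]))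
      (Sp.add (Sp.smul (-3) (Sp.f 1 0))
      (Sp.add (Sp.smul (12) (Sp.f 1 1))
      (Sp.add (Sp.smul (3) (Sp.f 1 2))
      (Sp.add (Sp.smul (1) (Sp.f 1 3))
      (Sp.smul (-1) (Sp.f 1 4))))))))))))))) fun M hM => ?_
  push_cast
  linear_combination (-6) * eF010 M +
      (-6) * eF011 M +
      (6) * eF012 M +
      (-6) * eF110 M +
      (-6) * eF111 M +
      (6) * eF112 M +
      (6) * eF210 M +
      (6) * eF211 M +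
      (-6) * eF212 M +
      (3) * ef10 M +
      (-12) * ef11 M +
      (-3) * ef12 M +
      (-1) * ef13 M +
      (1) * ef14 M +
      (12) * rel27 hM

theorem sp2356 : Sp (fun M => 24 * d4 (M (cu 0 1 0)) (M (cu 0 1 1)) (M (cu 1 0 1)) (M (cu 1 1 0))) := by
  refine Sp.congr (Sp.add (Sp.smul (6) (Sp.F ![0, 1, 0]))
      (Sp.add (Sp.smul (6) (Sp.F ![0, 1, 1]))
      (Sp.add (Sp.smul (-6) (Sp.F ![0, 1, 2]))
      (Sp.add (Sp.smul (6) (Sp.F ![1, 1, 0]))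
      (Sp.add (Sp.smul (6) (Sp.F ![1, 1, 1]))
      (Sp.add (Sp.smul (-6) (Sp.F ![1, 1, 2]))
      (Sp.add (Sp.smul (-6) (Sp.F ![2, 1, 0]))
      (Sp.add (Sp.smul (-6) (Sp.F ![2, 1, 1]))
      (Sp.add (Sp.smul (6) (Sp.F ![2, 1, 2]))
      (Sp.add (Sp.smul (3) (Sp.f 1 0))
      (Sp.add (Sp.smul (-12) (Sp.f 1 1))
      (Sp.add (Sp.smul (-3) (Sp.f 1 2))
      (Sp.add (Sp.smul (-1) (Sp.f 1 3))
      (Sp.smul (1) (Sp.f 1 4))))))))))))))) fun M hM => ?_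
  push_cast
  linear_combination (-6) * eF010 M +
      (-6) * eF011 M +
      (6) * eF012 M +
      (-6) * eF110 M +
      (-6) * eF111 M +
      (6) * eF112 M +
      (6) * eF210 M +
      (6) * eF211 M +
      (-6) * eF212 M +
      (-3) * ef10 M +
      (12) * ef11 M +
      (3) * ef12 M +
      (1) * ef13 M +
      (-1) * ef14 M +
      (12) * rel36 hM

theorem sp2357 : Sp (fun M => 24 * d4 (M (cu 0 1 0)) (M (cu 0 1 1)) (M (cu 1 0 1)) (M (cu 1 1 1))) := by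
  refine Sp.congr (Sp.add (Sp.smul (-12) (Sp.F ![0, 1, 1]))
      (Sp.add (Sp.smul (-12) (Sp.F ![1, 1, 1]))
      (Sp.smul (12) (Sp.F ![2, 1, 1])))) fun M hM => ?_
  push_cast
  linear_combination (12) * eF011 M +
      (12) * eF111 M +
      (-12) * eF211 M +
      (12) * rel37 hM

theorem sp2367 : Sp (fun M => 24 * d4 (M (cu 0 1 0)) (M (cu 0 1 1)) (M (cu 1 1 0)) (M (cu 1 1 1))) := by
  refine Sp.congr (Sp.smul (-24) (Sp.f 1 1)) fun M hM => ?_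
  push_cast
  linear_combination (24) * ef11 M

theorem sp2456 : Sp (fun M => 24 * d4 (M (cu 0 1 0)) (M (cu 1 0 0)) (M (cu 1 0 1)) (M (cu 1 1 0))) := by
  refine Sp.congr (Sp.add (Sp.smul (12) (Sp.F ![1, 0, 0]))
      (Sp.add (Sp.smul (12) (Sp.F ![1, 1, 0]))
      (Sp.smul (-12) (Sp.F ![1, 2, 0])))) fun M hM => ?_
  push_cast
  linear_combination (-12) * eF100 M +
      (-12) * eF110 M +
      (12) * eF120 M +
      (12) * rel46 hM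

theorem sp2457 : Sp (fun M => 24 * d4 (M (cu 0 1 0)) (M (cu 1 0 0)) (M (cu 1 0 1)) (M (cu 1 1 1))) := by
  refine Sp.congr (Sp.add (Sp.smul (-6) (Sp.F ![1, 0, 0]))
      (Sp.add (Sp.smul (-6) (Sp.F ![1, 0, 1]))
      (Sp.add (Sp.smul (6) (Sp.F ![1, 0, 2]))
      (Sp.add (Sp.smul (-6) (Sp.F ![1, 1, 0]))
      (Sp.add (Sp.smul (-6) (Sp.F ![1, 1, 1]))
      (Sp.add (Sp.smul (6) (Sp.F ![1, 1, 2]))
      (Sp.add (Sp.smul (6) (Sp.F ![1, 2, 0]))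
      (Sp.add (Sp.smul (6) (Sp.F ![1, 2, 1]))
      (Sp.add (Sp.smul (-6) (Sp.F ![1, 2, 2]))
      (Sp.add (Sp.smul (3) (Sp.f 0 0))
      (Sp.add (Sp.smul (-12) (Sp.f 0 1))
      (Sp.add (Sp.smul (-3) (Sp.f 0 2))
      (Sp.add (Sp.smul (-1) (Sp.f 0 3))
      (Sp.smul (1) (Sp.f 0 4))))))))))))))) fun M hM => ?_
  push_cast
  linear_combination (6) * eF100 M +
      (6) * eF101 M +
      (-6) * eF102 M +
      (6) * eF110 M +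
      (6) * eF111 M +
      (-6) * eF112 M +
      (-6) * eF120 M +
      (-6) * eF121 M +
      (6) * eF122 M +
      (-3) * ef00 M +
      (12) * ef01 M +
      (3) * ef02 M +
      (1) * ef03 M +
      (-1) * ef04 M +
      (12) * rel47 hM

theorem sp2467 : Sp (fun M => 24 * d4 (M (cu 0 1 0)) (M (cu 1 0 0)) (M (cu 1 1 0)) (M (cu 1 1 1))) := by
  refine Sp.congr (Sp.smul (24) (Sp.F ![1, 1, 0])) fun M hM => ?_
  push_cast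
  linear_combination (-24) * eF110 M

theorem sp2567 : Sp (fun M => 24 * d4 (M (cu 0 1 0)) (M (cu 1 0 1)) (M (cu 1 1 0)) (M (cu 1 1 1))) := by
  refine Sp.congr (Sp.add (Sp.smul (-12) (Sp.F ![1, 1, 0]))
      (Sp.add (Sp.smul (-12) (Sp.F ![1, 1, 1]))
      (Sp.smul (12) (Sp.F ![1, 1, 2])))) fun M hM => ?_
  push_cast
  linear_combination (12) * eF110 M +
      (12) * eF111 M +
      (-12) * eF112 M +
      (-12) * rel67 hM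

theorem sp3456 : Sp (fun M => 24 * d4 (M (cu 0 1 1)) (M (cu 1 0 0)) (M (cu 1 0 1)) (M (cu 1 1 0))) := by
  refine Sp.congr (Sp.add (Sp.smul (-6) (Sp.F ![1, 0, 0]))
      (Sp.add (Sp.smul (-6) (Sp.F ![1, 0, 1]))
      (Sp.add (Sp.smul (6) (Sp.F ![1, 0, 2]))
      (Sp.add (Sp.smul (-6) (Sp.F ![1, 1, 0]))
      (Sp.add (Sp.smul (-6) (Sp.F ![1, 1, 1]))
      (Sp.add (Sp.smul (6) (Sp.F ![1, 1, 2]))
      (Sp.add (Sp.smul (6) (Sp.F ![1, 2, 0]))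
      (Sp.add (Sp.smul (6) (Sp.F ![1, 2, 1]))
      (Sp.add (Sp.smul (-6) (Sp.F ![1, 2, 2]))
      (Sp.add (Sp.smul (-3) (Sp.f 0 0))
      (Sp.add (Sp.smul (12) (Sp.f 0 1))
      (Sp.add (Sp.smul (3) (Sp.f 0 2))
      (Sp.add (Sp.smul (1) (Sp.f 0 3))
      (Sp.smul (-1) (Sp.f 0 4))))))))))))))) fun M hM => ?_
  push_cast
  linear_combination (6) * eF100 M +
      (6) * eF101 M +
      (-6) * eF102 M +
      (6) * eF110 M +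
      (6) * eF111 M +
      (-6) * eF112 M +
      (-6) * eF120 M +
      (-6) * eF121 M +
      (6) * eF122 M +
      (3) * ef00 M +
      (-12) * ef01 M +
      (-3) * ef02 M +
      (-1) * ef03 M +
      (1) * ef04 M +
      (12) * rel56 hM

theorem sp3457 : Sp (fun M => 24 * d4 (M (cu 0 1 1)) (M (cu 1 0 0)) (M (cu 1 0 1)) (M (cu 1 1 1))) := by
  refine Sp.congr (Sp.add (Sp.smul (12) (Sp.F ![1, 0, 1]))
      (Sp.add (Sp.smul (12) (Sp.F ![1, 1, 1]))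
      (Sp.smul (-12) (Sp.F ![1, 2, 1])))) fun M hM => ?_
  push_cast
  linear_combination (-12) * eF101 M +
      (-12) * eF111 M +
      (12) * eF121 M +
      (12) * rel57 hM

theorem sp3467 : Sp (fun M => 24 * d4 (M (cu 0 1 1)) (M (cu 1 0 0)) (M (cu 1 1 0)) (M (cu 1 1 1))) := by
  refine Sp.congr (Sp.add (Sp.smul (-12) (Sp.F ![1, 1, 0]))
      (Sp.add (Sp.smul (-12) (Sp.F ![1, 1, 1]))
      (Sp.smul (12) (Sp.F ![1, 1, 2])))) fun M hM => ?_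
  push_cast
  linear_combination (12) * eF110 M +
      (12) * eF111 M +
      (-12) * eF112 M +
      (12) * rel67 hM

theorem sp3567 : Sp (fun M => 24 * d4 (M (cu 0 1 1)) (M (cu 1 0 1)) (M (cu 1 1 0)) (M (cu 1 1 1))) := by
  refine Sp.congr (Sp.smul (24) (Sp.F ![1, 1, 1])) fun M hM => ?_
  push_cast
  linear_combination (-24) * eF111 M

theorem sp4567 : Sp (fun M => 24 * d4 (M (cu 1 0 0)) (M (cu 1 0 1)) (M (cu 1 1 0)) (M (cu 1 1 1))) := by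
  refine Sp.congr (Sp.smul (24) (Sp.f 0 1)) fun M hM => ?_
  push_cast
  linear_combination (-24) * ef01 M

/-- enumeration of the cube -/
def cv : Fin 8 → Cu :=
  ![cu 0 0 0, cu 0 0 1, cu 0 1 0, cu 0 1 1, cu 1 0 0, cu 1 0 1, cu 1 1 0, cu 1 1 1]

theorem cv_surj : ∀ c : Cu, ∃ i, cv i = c := by decide

theorem sorted_mem : ∀ i j k l : Fin 8, i < j → j < k → k < l → (i, j, k, l) ∈
    ([(0, 1, 2, 3), (0, 1, 2, 4), (0, 1, 2, 5), (0, 1, 2, 6), (0, 1, 2, 7), (0, 1, 3, 4), (0, 1,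
      3, 5), (0, 1, 3, 6), (0, 1, 3, 7), (0, 1, 4, 5), (0, 1, 4, 6), (0, 1, 4, 7), (0, 1, 5, 6),
      (0, 1, 5, 7), (0, 1, 6, 7), (0, 2, 3, 4), (0, 2, 3, 5), (0, 2, 3, 6), (0, 2, 3, 7), (0, 2,
      4, 5), (0, 2, 4, 6), (0, 2, 4, 7), (0, 2, 5, 6), (0, 2, 5, 7), (0, 2, 6, 7), (0, 3, 4, 5),
      (0, 3, 4, 6), (0, 3, 4, 7), (0, 3, 5, 6), (0, 3, 5, 7), (0, 3, 6, 7), (0, 4, 5, 6), (0, 4,
      5, 7), (0, 4, 6, 7), (0, 5, 6, 7), (1, 2, 3, 4), (1, 2, 3, 5), (1, 2, 3, 6), (1, 2, 3, 7),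
      (1, 2, 4, 5), (1, 2, 4, 6), (1, 2, 4, 7), (1, 2, 5, 6), (1, 2, 5, 7), (1, 2, 6, 7), (1, 3,
      4, 5), (1, 3, 4, 6), (1, 3, 4, 7), (1, 3, 5, 6), (1, 3, 5, 7), (1, 3, 6, 7), (1, 4, 5, 6),
      (1, 4, 5, 7), (1, 4, 6, 7), (1, 5, 6, 7), (2, 3, 4, 5), (2, 3, 4, 6), (2, 3, 4, 7), (2, 3,
      5, 6), (2, 3, 5, 7), (2, 3, 6, 7), (2, 4, 5, 6), (2, 4, 5, 7), (2, 4, 6, 7), (2, 5, 6, 7),
      (3, 4, 5, 6), (3, 4, 5, 7), (3, 4, 6, 7), (3, 5, 6, 7), (4, 5, 6, 7)] : List (Fin 8 × Fin 8 × Fin 8 × Fin 8)) := by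
  decide +kernel

theorem sp_sorted (i j k l : Fin 8) (h1 : i < j) (h2 : j < k) (h3 : k < l) :
    Sp (fun M => 24 * d4 (M (cv i)) (M (cv j)) (M (cv k)) (M (cv l))) := by
  have h := sorted_mem i j k l h1 h2 h3
  simp only [List.mem_cons, Prod.mk.injEq, List.not_mem_nil, or_false] at h
  rcases h with ⟨rfl, rfl, rfl, rfl⟩ | ⟨rfl, rfl, rfl, rfl⟩ | ⟨rfl, rfl, rfl, rfl⟩ | ⟨rfl, rfl, rfl, rfl⟩
    | ⟨rfl, rfl, rfl, rfl⟩ | ⟨rfl, rfl, rfl, rfl⟩ | ⟨rfl, rfl, rfl, rfl⟩ | ⟨rfl, rfl, rfl,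
    rfl⟩ | ⟨rfl, rfl, rfl, rfl⟩ | ⟨rfl, rfl, rfl, rfl⟩ | ⟨rfl, rfl, rfl, rfl⟩ | ⟨rfl, rfl,
    rfl, rfl⟩ | ⟨rfl, rfl, rfl, rfl⟩ | ⟨rfl, rfl, rfl, rfl⟩ | ⟨rfl, rfl, rfl, rfl⟩ | ⟨rfl,
    rfl, rfl, rfl⟩ | ⟨rfl, rfl, rfl, rfl⟩ | ⟨rfl, rfl, rfl, rfl⟩ | ⟨rfl, rfl, rfl, rfl⟩ |
    ⟨rfl, rfl, rfl, rfl⟩ | ⟨rfl, rfl, rfl, rfl⟩ | ⟨rfl, rfl, rfl, rfl⟩ | ⟨rfl, rfl, rfl, rfl⟩
    | ⟨rfl, rfl, rfl, rfl⟩ | ⟨rfl, rfl, rfl, rfl⟩ | ⟨rfl, rfl, rfl, rfl⟩ | ⟨rfl, rfl, rfl,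
    rfl⟩ | ⟨rfl, rfl, rfl, rfl⟩ | ⟨rfl, rfl, rfl, rfl⟩ | ⟨rfl, rfl, rfl, rfl⟩ | ⟨rfl, rfl,
    rfl, rfl⟩ | ⟨rfl, rfl, rfl, rfl⟩ | ⟨rfl, rfl, rfl, rfl⟩ | ⟨rfl, rfl, rfl, rfl⟩ | ⟨rfl,
    rfl, rfl, rfl⟩ | ⟨rfl, rfl, rfl, rfl⟩ | ⟨rfl, rfl, rfl, rfl⟩ | ⟨rfl, rfl, rfl, rfl⟩ |
    ⟨rfl, rfl, rfl, rfl⟩ | ⟨rfl, rfl, rfl, rfl⟩ | ⟨rfl, rfl, rfl, rfl⟩ | ⟨rfl, rfl, rfl, rfl⟩
    | ⟨rfl, rfl, rfl, rfl⟩ | ⟨rfl, rfl, rfl, rfl⟩ | ⟨rfl, rfl, rfl, rfl⟩ | ⟨rfl, rfl, rfl,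
    rfl⟩ | ⟨rfl, rfl, rfl, rfl⟩ | ⟨rfl, rfl, rfl, rfl⟩ | ⟨rfl, rfl, rfl, rfl⟩ | ⟨rfl, rfl,
    rfl, rfl⟩ | ⟨rfl, rfl, rfl, rfl⟩ | ⟨rfl, rfl, rfl, rfl⟩ | ⟨rfl, rfl, rfl, rfl⟩ | ⟨rfl,
    rfl, rfl, rfl⟩ | ⟨rfl, rfl, rfl, rfl⟩ | ⟨rfl, rfl, rfl, rfl⟩ | ⟨rfl, rfl, rfl, rfl⟩ |
    ⟨rfl, rfl, rfl, rfl⟩ | ⟨rfl, rfl, rfl, rfl⟩ | ⟨rfl, rfl, rfl, rfl⟩ | ⟨rfl, rfl, rfl, rfl⟩
    | ⟨rfl, rfl, rfl, rfl⟩ | ⟨rfl, rfl, rfl, rfl⟩ | ⟨rfl, rfl, rfl, rfl⟩ | ⟨rfl, rfl, rfl,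
    rfl⟩ | ⟨rfl, rfl, rfl, rfl⟩ | ⟨rfl, rfl, rfl, rfl⟩ | ⟨rfl, rfl, rfl, rfl⟩ | ⟨rfl, rfl,
    rfl, rfl⟩ | ⟨rfl, rfl, rfl, rfl⟩
  exacts [sp0123, sp0124, sp0125, sp0126, sp0127, sp0134, sp0135, sp0136, sp0137, sp0145, sp0146,
    sp0147, sp0156, sp0157, sp0167, sp0234, sp0235, sp0236, sp0237, sp0245, sp0246, sp0247,
    sp0256, sp0257, sp0267, sp0345, sp0346, sp0347, sp0356, sp0357, sp0367, sp0456, sp0457,
    sp0467, sp0567, sp1234, sp1235, sp1236, sp1237, sp1245, sp1246, sp1247, sp1256, sp1257,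
    sp1267, sp1345, sp1346, sp1347, sp1356, sp1357, sp1367, sp1456, sp1457, sp1467, sp1567,
    sp2345, sp2346, sp2347, sp2356, sp2357, sp2367, sp2456, sp2457, sp2467, sp2567, sp3456,
    sp3457, sp3467, sp3567, sp4567]

theorem sp_pl (q : Fin 4 → Cu) : Sp (fun M => 24 * Pl M q) := by
  choose f hf using fun i => cv_surj (q i)
  by_cases hinj : Function.Injective f
  · let σ := Tuple.sort f
    have hm : StrictMono (f ∘ σ) := (Tuple.monotone_sort f).strictMono_of_injective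
      (hinj.comp σ.injective)
    have h := sp_sorted (f (σ 0)) (f (σ 1)) (f (σ 2)) (f (σ 3)) (hm (by decide)) (hm (by decide))
      (hm (by decide))
    refine Sp.congr (Sp.smul (Equiv.Perm.sign σ) h) fun M _ => ?_
    have h1 : d4 (M (cv (f (σ 0)))) (M (cv (f (σ 1)))) (M (cv (f (σ 2)))) (M (cv (f (σ 3)))) =
        (Equiv.Perm.sign σ : ℤ) * Pl M q := by
      simp only [hf]
      refine (Pl_eq M (q ∘ σ)).symm.trans ?_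
      rw [Pl, Pl, ← Matrix.det_permute σ]
      rfl
    rw [h1]
    have h2 : ((Equiv.Perm.sign σ : ℤ) : ℂ) * (Equiv.Perm.sign σ : ℤ) = 1 := by
      rw [← Int.cast_mul, ← Units.val_mul, Int.units_mul_self]
      simp
    linear_combination (-24 * Pl M q) * h2
  · obtain ⟨i, j, h1, h2⟩ := Function.not_injective_iff.1 hinj
    refine Sp.congr (Sp.smul 0 (Sp.f 0 0)) fun M _ => ?_
    rw [Pl, Matrix.det_zero_of_row_eq h2 (by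
      ext l
      simp only [Matrix.submatrix_apply, ← hf, h1])]
    simp

end Pool.Agent.Lib.MP_775b3b_nt
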