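import Pool.Agent.Lib.MP_775b3b_nt.Frame
import Pool.Agent.Lib.MP_775b3b_nt.PlInd

/-! Rationality of Pluecker coordinates. -/

namespace Pool.Agent.Lib.MP_775b3b_nt

open Cub

variable {K Kt : Type*} [Field K] [NumberField K] [Field Kt] [NumberField Kt] (S : Setup K Kt)
  {e : ℤ × ℤ}

omit [NumberField K] in
theorem frame2_inLat {N : ℕ} {C T : ℝ} {d : Cub e K} {ν : K} {z : Nat.Primes → (Cub e K)ˣ}
    {ε : (K →+* ℂ) → Cub e ℂ} {j : ℕ} {v0 v1 v2 : Cub e K} (hv : Red N C T d ν z ε j v0 v1 v2)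
    (x y : ℤ) : InLat z ((N : K) • Vq v0 v1 v2 (x : K) (y : K)) := by
  have hi : ∀ n : ℤ, IsIntegral ℤ (n : K) := fun n => by
    simpa using isIntegral_algebraMap (R := ℤ) (A := K) (x := n)
  have h : (N : K) • Vq v0 v1 v2 (x : K) (y : K) = ((x ^ 2 : ℤ) : K) • ((N : K) • v0) +
      ((2 * x * y : ℤ) : K) • ((N : K) • v1) - ((2 * y ^ 2 : ℤ) : K) • ((N : K) • v2) := by
    ext <;> simp [Vq] <;> ring
  rw [h]
  exact ((hv.l0.smul (hi _)).add (hv.l1.smul (hi _))).sub (hv.l2.smul (hi _))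

theorem frame2_int {N : ℕ} {γ : Cub e ℚ} {z : Nat.Primes → (Cub e K)ˣ}
    (hγ : ∀ p, γ * S.rn e (z p : Cub e K) ∈ Ord p e ℚ) (V : Fin 3 → Cub e K)
    (hV : ∀ j, InLat z ((N : K) • V j)) :
    IsIntegral ℤ ((N : Kt) ^ 3 * (map (algebraMap ℚ Kt) γ * ∏ j, map (S.s j) (V j)).c2) := by
  refine isIntegral_of_forall_intP fun p => ?_
  have h1 : map (algebraMap ℚ Kt) (γ * S.rn e (z p : Cub e K)) *
      ∏ j, map (S.s j) ((((z p)⁻¹ : (Cub e K)ˣ) : Cub e K) * ((N : K) • V j)) ∈ Ord p e Kt :=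
    (Ord p e Kt).mul_mem (map_mem_Ord _ (hγ p))
      (Subring.prod_mem _ fun j _ => map_mem_Ord _ (hV j p))
  have h2 : map (algebraMap ℚ Kt) (γ * S.rn e (z p : Cub e K)) *
      ∏ j, map (S.s j) ((((z p)⁻¹ : (Cub e K)ˣ) : Cub e K) * ((N : K) • V j)) =
      ((N : Kt) ^ 3) • (map (algebraMap ℚ Kt) γ * ∏ j, map (S.s j) (V j)) := by
    rw [map_mul, S.map_rn, mul_assoc, ← Finset.prod_mul_distrib]
    have h3 : ∀ j, map (S.s j) (z p : Cub e K) *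
        map (S.s j) ((((z p)⁻¹ : (Cub e K)ˣ) : Cub e K) * ((N : K) • V j)) =
        (N : Kt) • map (S.s j) (V j) := fun j => by
      rw [← map_mul, ← mul_assoc, Units.mul_inv, one_mul, map_smul', map_natCast]
    simp only [h3]
    simp only [Fin.prod_univ_three, mul_smul_comm, smul_mul_assoc, smul_smul]
    congr 1
    ring
  rw [h2] at h1
  exact h1.2.2

theorem frame2_sp {N : ℕ} {C T : ℝ} (hT : T ≠ 0) {d : (Cub e K)ˣ} {γ : Cub e ℚ} {ν : K}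
    {z : Nat.Primes → (Cub e K)ˣ} {ε : (K →+* ℂ) → Cub e ℂ} {j : ℕ} {v0 v1 v2 : Cub e K}
    {h : Fin 3 → Matrix (Fin 2) (Fin 2) ℂ} (hu : S.UData d γ ν z ε)
    (hv : Red N C T (d : Cub e K) ν z ε j v0 v1 v2) (hh : S.Frame T ε v0 v1 v2 h)
    {u : Matrix Cu (Fin 4) ℂ → ℂ} (hs : Sp u) : ∃ ψ : Kt, IsIntegral ℤ ((N : Kt) ^ 3 * ψ) ∧
      ∀ τ π, S.Cmp τ π → S.i (τ ψ) = u (lagr e T (fun l => h (π l))) := by
  induction hs with
  | F g =>
    refine ⟨_, frame2_int S hu.gam (fun l => Vq v0 v1 v2 (pt5 (g l)).1 (pt5 (g l)).2)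
      (fun l => frame2_inLat hv _ _), fun τ π hc => ?_⟩
    rw [lagr, YF_kron _ (fun l => hh.det _), hh.row, hh.row, hh.row, im, im, im, sTri_wc hT]
    have h1 : ∀ l (x : Cub e K), map (S.i.comp (τ : Kt →+* Kt)) (map (S.s l) x) =
        map (S.emb (π l)) x := fun l x => by
      ext <;> simp [hc l]
    have h2 : map (S.i.comp (τ : Kt →+* Kt)) (map (algebraMap ℚ Kt) γ) =
        ∏ l, ε (S.emb (π l)) := by
      rw [Equiv.prod_comp π fun l => ε (S.emb l), hu.prod, map_map]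
      congr 2
      exact Subsingleton.elim _ _
    change (map (S.i.comp (τ : Kt →+* Kt)) _).c2 = _
    rw [map_mul, map_prod, h2]
    simp only [h1, Fin.prod_univ_three]
    congr 1
    ring
  | f i m =>
    refine ⟨S.s i (quart (d : Cub e K) v0 v1 v2 (pt5 m).1 (pt5 m).2), ?_, fun τ π hc => ?_⟩
    · have h1 := hu.loc.isIntegral_Gv (frame2_inLat hv (pt5 m).1 (pt5 m).2)
        (frame2_inLat hv (pt5 m).1 (pt5 m).2)
      rw [Gv_eq_Bf, Bf_smul_left, Bf_smul_right, ← Gv_eq_Bf] at h1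
      have h2 : IsIntegral ℤ (N : K) := by
        simpa using isIntegral_algebraMap (R := ℤ) (A := K) (x := (N : ℤ))
      have h3 := (h2.mul h1).map (S.s i).toIntAlgHom
      convert h3 using 1
      simp only [RingHom.toIntAlgHom_apply, map_mul, map_natCast, quart]
      ring
    · rw [hc, hh.Yf_eq S hT hu.eps π i m]
      rfl
  | add _ _ ih1 ih2 =>
    obtain ⟨ψ1, h1, h1'⟩ := ih1
    obtain ⟨ψ2, h2, h2'⟩ := ih2
    refine ⟨ψ1 + ψ2, by rw [mul_add]; exact h1.add h2, fun τ π hc => ?_⟩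
    rw [map_add, map_add, h1' τ π hc, h2' τ π hc]
  | smul n _ ih =>
    obtain ⟨ψ, h1, h1'⟩ := ih
    have h2 : IsIntegral ℤ (n : Kt) := by
      simpa using isIntegral_algebraMap (R := ℤ) (A := Kt) (x := n)
    refine ⟨n * ψ, by rw [mul_left_comm]; exact h2.mul h1, fun τ π hc => ?_⟩
    rw [map_mul, map_mul, map_intCast, map_intCast, h1' τ π hc]
  | congr _ hc' ih =>
    obtain ⟨ψ, h1, h1'⟩ := ih
    exact ⟨ψ, h1, fun τ π hc => by rw [h1' τ π hc, hc' _ (lag_lagr _ _ _)]⟩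

/-- Induction on `Sp` (`sp_pl`).  For `YF g` take `ψ = (map γ * ∏ j, map (S.s j) (V (g j))).c2`
(`YF_kron`, `sTri_wc`, `UData.prod` reindexed by `π`); `N • V (g j)` is in the lattice, so
`N^3 ψ = ((γ ∏ s j (z p)) ∏ s j ((z p)⁻¹ N V (g j))).c2 ∈ intP p Kt` for all `p`.
For `Yf i m` take `ψ = S.s i (quart ..)`. -/
theorem Setup.exists_alg {N : ℕ} {C T : ℝ} (hT : T ≠ 0) {d : (Cub e K)ˣ} {γ : Cub e ℚ} {ν : K}
    {z : Nat.Primes → (Cub e K)ˣ} {ε : (K →+* ℂ) → Cub e ℂ} {j : ℕ} {v0 v1 v2 : Cub e K}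
    {h : Fin 3 → Matrix (Fin 2) (Fin 2) ℂ} (hu : S.UData d γ ν z ε)
    (hv : Red N C T (d : Cub e K) ν z ε j v0 v1 v2) (hh : S.Frame T ε v0 v1 v2 h)
    (q : Fin 4 → Cu) : ∃ ψ : Kt, IsIntegral ℤ ((N : Kt) ^ 3 * ψ) ∧
      ∀ τ π, S.Cmp τ π → S.i (τ ψ) = 24 * Pl (lagr e T (fun l => h (π l))) q := by
  exact frame2_sp S hT hu hv hh (sp_pl q)

/-- a Galois equivariant functional -/
def Setup.Eqv (φ : Cu → Kt) : Prop := ∀ τ π, S.Cmp τ π → ∀ c, τ (φ c) = φ (c ∘ π.symm)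

/-- a number on which the Galois group acts by the sign -/
def Setup.Alt (x : Kt) : Prop := ∀ τ π, S.Cmp τ π → τ x = ((Equiv.Perm.sign π : ℤ) : Kt) * x

/-- With `ψ q` from `exists_alg`: `τ (ψ q) = sign π * ψ (q ∘ π.symm)` (`Pl_perm`, and `τ = 1`,
`π = 1`).  So `Ψ = ∑ q, (∏ l, Φ l (q l)) * ψ q` is `Alt`, `x * N^3 * Ψ` is a rational algebraic
integer (`exists_cmp`, `exists_rat`), and `S.i Ψ = 24 * det (..)` by `det_mul_eq_sum`. -/
theorem Setup.exists_int_det {N : ℕ} {C T : ℝ} (hT : T ≠ 0) {d : (Cub e K)ˣ} {γ : Cub e ℚ}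
    {ν : K} {z : Nat.Primes → (Cub e K)ˣ} {ε : (K →+* ℂ) → Cub e ℂ} {j : ℕ} {v0 v1 v2 : Cub e K}
    {h : Fin 3 → Matrix (Fin 2) (Fin 2) ℂ} (hu : S.UData d γ ν z ε)
    (hv : Red N C T (d : Cub e K) ν z ε j v0 v1 v2) (hh : S.Frame T ε v0 v1 v2 h)
    (Φ : Matrix (Fin 4) Cu Kt) (hΦ : ∀ l c, IsIntegral ℤ (Φ l c)) (hΦ' : ∀ l, S.Eqv (Φ l))
    {x : Kt} (hx : IsIntegral ℤ x) (hx' : S.Alt x) :
    ∃ n : ℤ, (n : ℂ) = 24 * (N : ℂ) ^ 3 * S.i x * (Φ.map S.i * lagr e T h).det := by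
  choose ψ hψ hψ' using S.exists_alg hT hu hv hh
  have h1 : ∀ q, S.i (ψ q) = 24 * Pl (lagr e T h) q := fun q => hψ' q 1 1 fun _ _ => rfl
  have h2 : ∀ τ π, S.Cmp τ π → ∀ q, τ (ψ q) =
      ((Equiv.Perm.sign π : ℤ) : Kt) * ψ (fun l => q l ∘ π.symm) := fun τ π hc q => by
    apply S.i.injective
    rw [hψ' q τ π hc, map_mul, map_intCast, h1, lagr, lagr, Pl_perm]
    ring
  have h3 : S.Alt (∑ q : Fin 4 → Cu, (∏ l, Φ l (q l)) * ψ q) := fun τ π hc => by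
    let E : (Fin 4 → Cu) ≃ (Fin 4 → Cu) :=
      { toFun := fun q l => q l ∘ π.symm
        invFun := fun q l => q l ∘ π
        left_inv := fun q => by ext l i; simp
        right_inv := fun q => by ext l i; simp }
    rw [map_sum, ← E.sum_comp fun q => (∏ l, Φ l (q l)) * ψ q, Finset.mul_sum]
    refine Finset.sum_congr rfl fun q _ => ?_
    rw [map_mul, map_prod, h2 τ π hc]
    simp only [hΦ' _ τ π hc]
    exact mul_left_comm _ _ _
  obtain ⟨r, hr⟩ := S.exists_rat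
    (x := x * ((N : Kt) ^ 3 * ∑ q : Fin 4 → Cu, (∏ l, Φ l (q l)) * ψ q)) fun τ => by
      obtain ⟨π, hc⟩ := S.exists_cmp τ
      have h4 : ((Equiv.Perm.sign π : ℤ) : Kt) * (Equiv.Perm.sign π : ℤ) = 1 := by
        rw [← Int.cast_mul, ← Units.val_mul, Int.units_mul_self]
        simp
      rw [map_mul, map_mul, map_pow, map_natCast, hx' τ π hc, h3 τ π hc]
      linear_combination (x * ((N : Kt) ^ 3 * ∑ q : Fin 4 → Cu, (∏ l, Φ l (q l)) * ψ q)) * h4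
  have h5 : IsIntegral ℤ (algebraMap ℚ Kt r) := by
    rw [hr, Finset.mul_sum]
    refine hx.mul (IsIntegral.sum _ fun q _ => ?_)
    rw [mul_left_comm]
    exact (IsIntegral.prod _ fun l _ => hΦ l _).mul (hψ q)
  obtain ⟨n, hn⟩ := IsIntegrallyClosed.isIntegral_iff.1
    ((isIntegral_algebraMap_iff (algebraMap ℚ Kt).injective).1 h5)
  refine ⟨n, ?_⟩
  have h6 : (n : ℂ) = S.i (algebraMap ℚ Kt r) := by
    rw [← hn]
    simp
  rw [h6, hr, det_mul_eq_sum, map_mul, map_mul, map_pow, map_natCast, map_sum, Finset.mul_sum,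
    Finset.mul_sum, Finset.mul_sum]
  refine Finset.sum_congr rfl fun q _ => ?_
  rw [map_mul, map_prod, h1]
  simp only [Matrix.map_apply]
  ring

end Pool.Agent.Lib.MP_775b3b_nt
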