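import Pool.Agent.Lib.MP_775b3b_nt.OrdP
import Pool.Agent.Lib.MP_775b3b_nt.Eps

/-! The relative norm from a cubic field. -/

namespace Pool.Agent.Lib.MP_775b3b_nt

open Cub

/-- `AlgHom.card_of_splits` (or `Normal.algHomEquivAut`) gives three embeddings `K → F`; compose
with any `F →+* ℂ`; injective between sets with three elements (`NumberField.Embeddings.card`) -/
theorem exists_setup (K F : Type*) [Field K] [NumberField K] [Field F] [NumberField F]
    [Algebra K F] [IsGalois ℚ F] (h3 : Module.finrank ℚ K = 3) : Nonempty (Setup K F) := by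
  classical
  have hc : Nat.card (K →ₐ[ℚ] F) = 3 := by
    rw [← h3]
    refine AlgHom.natCard_of_splits ℚ K F fun x => ?_
    rw [← minpoly.algHom_eq (algebraMap K F).toRatAlgHom (algebraMap K F).injective x]
    exact Normal.splits inferInstance _
  have : Finite (K →ₐ[ℚ] F) := Nat.finite_of_card_ne_zero (by rw [hc]; norm_num)
  let g : (K →ₐ[ℚ] F) ≃ Fin 3 := Finite.equivFinOfCardEq hc
  obtain ⟨i⟩ : Nonempty (F →+* ℂ) := inferInstance
  refine ⟨⟨fun j => (g.symm j : K →+* F), i, ?_, inferInstance⟩⟩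
  refine (Fintype.bijective_iff_injective_and_card _).2 ⟨fun j j' h => ?_, ?_⟩
  · apply g.symm.injective
    ext x
    exact i.injective (DFunLike.congr_fun h x)
  · rw [NumberField.Embeddings.card, h3, Fintype.card_fin]

variable {K Kt : Type*} [Field K] [NumberField K] [Field Kt] [NumberField Kt] (S : Setup K Kt)

/-- the `j`-th complex embedding -/
abbrev Setup.emb (j : Fin 3) : K →+* ℂ := S.i.comp (S.s j)

/-- `τ` induces the permutation `π` of the embeddings -/
def Setup.Cmp (τ : Kt ≃ₐ[ℚ] Kt) (π : Equiv.Perm (Fin 3)) : Prop :=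
  ∀ j x, τ (S.s j x) = S.s (π j) x

theorem Setup.exists_cmp (τ : Kt ≃ₐ[ℚ] Kt) : ∃ π, S.Cmp τ π := by
  choose f hf using fun j => S.bij.2 (S.i.comp ((τ : Kt →+* Kt).comp (S.s j)))
  have h : ∀ j x, τ (S.s j x) = S.s (f j) x := fun j x =>
    (S.i.injective (DFunLike.congr_fun (hf j) x)).symm
  have hi : Function.Injective f := fun j j' hj => by
    apply S.bij.1
    ext x
    have : S.s j x = S.s j' x := τ.injective (by rw [h, h, hj])
    simp [this]
  exact ⟨Equiv.ofBijective f (Finite.injective_iff_bijective.1 hi), h⟩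

include S in
/-- `IsGalois.mem_range_algebraMap_iff_fixed` or `IsGalois.fixedField_top` -/
theorem Setup.exists_rat {x : Kt} (h : ∀ τ : Kt ≃ₐ[ℚ] Kt, τ x = x) :
    ∃ r : ℚ, algebraMap ℚ Kt r = x :=
  haveI := S.gal
  (IsGalois.mem_range_algebraMap_iff_fixed x).2 h

include S in
theorem Setup.finrank_eq : Module.finrank ℚ K = 3 := by
  rw [← NumberField.Embeddings.card K ℂ, ← Fintype.card_of_bijective S.bij, Fintype.card_fin]

theorem Setup.prod_emb {M : Type*} [CommMonoid M] (f : (K →+* ℂ) → M) :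
    ∏ σ, f σ = ∏ j, f (S.emb j) :=
  (S.bij.prod_comp f).symm

theorem Setup.exists_rn (e : ℤ × ℤ) : ∃ rn : Cub e K →* Cub e ℚ,
    ∀ x, map (algebraMap ℚ Kt) (rn x) = ∏ j, map (S.s j) x := by
  have key : ∀ x : Cub e K, ∃ y : Cub e ℚ, map (algebraMap ℚ Kt) y = ∏ j, map (S.s j) x := by
    intro x
    have hf : ∀ τ : Kt ≃ₐ[ℚ] Kt,
        map (τ : Kt →+* Kt) (∏ j, map (S.s j) x) = ∏ j, map (S.s j) x := by
      intro τ
      obtain ⟨π, hπ⟩ := S.exists_cmp τ
      rw [map_prod, ← Equiv.prod_comp π fun j => map (S.s j) x]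
      refine Finset.prod_congr rfl fun j _ => ?_
      ext
      · exact hπ j _
      · exact hπ j _
      · exact hπ j _
    obtain ⟨r0, h0⟩ := S.exists_rat fun τ => congrArg Cub.c0 (hf τ)
    obtain ⟨r1, h1⟩ := S.exists_rat fun τ => congrArg Cub.c1 (hf τ)
    obtain ⟨r2, h2⟩ := S.exists_rat fun τ => congrArg Cub.c2 (hf τ)
    refine ⟨⟨r0, r1, r2⟩, ?_⟩
    ext
    · exact h0
    · exact h1
    · exact h2
  choose f hf using key
  have hi : Function.Injective (map (algebraMap ℚ Kt) : Cub e ℚ → Cub e Kt) :=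
    map_injective (algebraMap ℚ Kt).injective
  refine ⟨⟨⟨f, hi ?_⟩, fun x y => hi ?_⟩, hf⟩
  · simp [hf]
  · simp only [hf, map_mul, Finset.prod_mul_distrib]

/-- the relative norm -/
noncomputable def Setup.rn (e : ℤ × ℤ) : Cub e K →* Cub e ℚ := (S.exists_rn e).choose

theorem Setup.map_rn {e : ℤ × ℤ} (x : Cub e K) :
    map (algebraMap ℚ Kt) (S.rn e x) = ∏ j, map (S.s j) x := (S.exists_rn e).choose_spec x

/-- corestriction -/
noncomputable def Setup.cor (e : ℤ × ℤ) : (Cub e K)ˣ →* (Cub e ℚ)ˣ := Units.map (S.rn e)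

variable {e : ℤ × ℤ}

theorem Setup.rn_mem_Ord {p : Nat.Primes} {x : Cub e K} (hx : x ∈ Ord p e K) :
    S.rn e x ∈ Ord p e ℚ := by
  refine mem_Ord_of_map (algebraMap ℚ Kt).injective ?_
  rw [S.map_rn]
  exact Subring.prod_mem _ fun j _ => map_mem_Ord _ hx

theorem Setup.rn_mem_intP {p : Nat.Primes} {x : Cub e K} (hx : x ∈ intP p (Cub e K)) :
    S.rn e x ∈ intP p (Cub e ℚ) := by
  refine mem_intP_of_map (f := map (algebraMap ℚ Kt))
    (map_injective (algebraMap ℚ Kt).injective) ?_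
  rw [S.map_rn]
  exact Subring.prod_mem _ fun j _ => map_mem_intP _ hx

theorem Setup.rn_map (w : Cub e ℚ) : S.rn e (map (algebraMap ℚ K) w) = w ^ 3 := by
  apply map_injective (algebraMap ℚ Kt).injective
  have h : ∀ j, map (S.s j) (map (algebraMap ℚ K) w) = map (algebraMap ℚ Kt) w := fun j => by
    rw [map_map, Subsingleton.elim ((S.s j).comp (algebraMap ℚ K)) (algebraMap ℚ Kt)]
  rw [S.map_rn, map_pow]
  simp only [h, Finset.prod_const, Finset.card_univ, Fintype.card_fin]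

theorem Setup.exists_nm_rn {x : Cub e K} {ν : K} (h : nm x = ν ^ 2) :
    ∃ r : ℚ, nm (S.rn e x) = r ^ 2 ∧ (r : ℂ) = ∏ σ : K →+* ℂ, σ ν := by
  obtain ⟨r, hr⟩ : ∃ r : ℚ, algebraMap ℚ Kt r = ∏ j, S.s j ν := S.exists_rat fun τ => by
    obtain ⟨π, hπ⟩ := S.exists_cmp τ
    rw [map_prod, ← Equiv.prod_comp π fun j => S.s j ν]
    exact Finset.prod_congr rfl fun j _ => hπ j _
  refine ⟨r, (algebraMap ℚ Kt).injective ?_, ?_⟩
  · rw [← nm_map, S.map_rn, map_pow, hr, ← Finset.prod_pow]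
    refine (map_prod (nmHom e Kt) _ _).trans (Finset.prod_congr rfl fun j _ => ?_)
    show nm (map (S.s j) x) = _
    rw [nm_map, h, map_pow]
  · rw [S.prod_emb fun σ => σ ν]
    have := congrArg S.i hr
    rw [map_prod] at this
    simpa using this

end Pool.Agent.Lib.MP_775b3b_nt
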