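import Pool.Agent.Lib.MP_775b3b_nt.Gal

/-! Corestriction and arithmetic data. -/

namespace Pool.Agent.Lib.MP_775b3b_nt

open Cub

variable {K Kt : Type*} [Field K] [NumberField K] [Field Kt] [NumberField Kt] (S : Setup K Kt)
  {e : ℤ × ℤ}

theorem Setup.gal2_map (x : Cub e K) :
    map (algebraMap ℚ ℂ) (S.rn e x) = ∏ σ : K →+* ℂ, map σ x := by
  have h := congrArg (map S.i) (S.map_rn x)
  rw [map_map, map_prod, RingHom.ext_rat (S.i.comp _) (algebraMap ℚ ℂ)] at h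
  rw [h, S.prod_emb]
  rfl

theorem gal2_ev {k k' : Type*} [CommRing k] [CommRing k'] (f : k →+* k') {r : k} {r' : k'}
    (hr : r ^ 3 + (e.1 : k) * r + (e.2 : k) = 0) (hr' : r' ^ 3 + (e.1 : k') * r' + (e.2 : k') = 0)
    (h : f r = r') (x : Cub e k) : ev r' hr' (map f x) = f (ev r hr x) := by
  simp [ev_apply, h]

theorem Setup.gal2_val (d : (Cub e K)ˣ) : (S.cor e d : Cub e ℚ) = S.rn e d := rfl

theorem Setup.gal2_st {p : Nat.Primes} (n : ℕ) {y : Cub e K} (hy : y ∈ intP p (Cub e K)) :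
    ∃ y' ∈ intP p (Cub e ℚ),
      S.rn e (1 + ((p : ℕ) : Cub e K) ^ n * y) = 1 + ((p : ℕ) : Cub e ℚ) ^ n * y' := by
  have hp : IsUnit (((p : ℕ) : Cub e ℚ) ^ n) := by
    rw [← map_natCast (algebraMap ℚ (Cub e ℚ))]
    exact ((Nat.cast_ne_zero.2 p.2.ne_zero).isUnit.map _).pow n
  obtain ⟨y', h⟩ := hp.dvd (a := S.rn e (1 + ((p : ℕ) : Cub e K) ^ n * y) - 1)
  refine ⟨y', ?_, by rw [← h]; ring⟩
  refine mem_intP_of_map (f := map (algebraMap ℚ Kt))
    (map_injective (algebraMap ℚ Kt).injective) ?_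
  have h1 := congrArg (map (algebraMap ℚ Kt)) h
  have h2 := hp.map (map (algebraMap ℚ Kt))
  simp only [map_sub, S.map_rn, map_one, map_mul, map_pow, map_natCast, map_add,
    Fin.prod_univ_three] at h1 h2
  have h3 := fun j => map_mem_intP (map (S.s j)) hy
  have h4 := (intP p (Cub e Kt)).pow_mem (natCast_mem (intP p (Cub e Kt)) (p : ℕ)) n
  generalize ((p : ℕ) : Cub e Kt) ^ n = q at h1 h2 h4
  have h5 : map (algebraMap ℚ Kt) y' = map (S.s 0) y + map (S.s 1) y + map (S.s 2) y +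
      q * (map (S.s 0) y * map (S.s 1) y + map (S.s 0) y * map (S.s 2) y +
        map (S.s 1) y * map (S.s 2) y) +
      q * q * (map (S.s 0) y * map (S.s 1) y * map (S.s 2) y) :=
    h2.mul_left_cancel (by rw [← h1]; ring)
  rw [h5]
  exact add_mem (add_mem (add_mem (add_mem (h3 0) (h3 1)) (h3 2)) (mul_mem h4 (add_mem
    (add_mem (mul_mem (h3 0) (h3 1)) (mul_mem (h3 0) (h3 2))) (mul_mem (h3 1) (h3 2)))))
    (mul_mem (mul_mem h4 h4) (mul_mem (mul_mem (h3 0) (h3 1)) (h3 2)))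

theorem Setup.gal2_pos (hd : disc e ≠ 0) {d : (Cub e K)ˣ} (h : d ∈ pos e K) :
    S.cor e d ∈ pos e ℚ := by
  intro ρ r hr
  obtain ⟨ε, hε⟩ := exists_eps0 hd h
  have hr' : (r : ℂ) ^ 3 + (e.1 : ℂ) * r + (e.2 : ℂ) = 0 := by exact_mod_cast hr
  have h0 : ev r hr (map ρ (S.cor e d : Cub e ℚ)) ≠ 0 :=
    (((S.cor e d).isUnit.map _).map _).ne_zero
  have h1 : map (starRingEnd ℂ) (∏ σ, ε σ) = ∏ σ, ε σ := by
    rw [map_prod]
    simp only [← fun σ => (hε σ).2]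
    exact (NumberField.ComplexEmbedding.involutive_conjugate K).bijective.prod_comp ε
  have h2 := gal2_ev (starRingEnd ℂ) hr' hr' (Complex.conj_ofReal r) (∏ σ, ε σ)
  rw [h1] at h2
  obtain ⟨t, ht⟩ := Complex.conj_eq_iff_real.1 h2.symm
  have h3 := gal2_ev Complex.ofRealHom hr hr' rfl (map ρ (S.cor e d : Cub e ℚ))
  rw [map_map, RingHom.ext_rat (Complex.ofRealHom.comp ρ) (algebraMap ℚ ℂ), S.gal2_val,
    S.gal2_map] at h3
  simp only [← fun σ => (hε σ).1] at h3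
  rw [Finset.prod_pow, map_pow, ht, Complex.ofRealHom_eq_coe] at h3
  have h4 : ev r hr (map ρ (S.cor e d : Cub e ℚ)) = t ^ 2 := by exact_mod_cast h3.symm
  exact lt_of_le_of_ne (h4 ▸ sq_nonneg t) h0.symm

/-- `pos`: with `ε` from `exists_eps0`, the image of `rn d` in `Cub e ℂ` is the square of
`∏ σ, ε σ`, which is fixed by conjugation, so its value at a real root is a nonzero real.
`stq`: `rn (1 + p^n y) = 1 + p^n y'`, `y' = (rn (..) - 1) / p^n`, whose image in `Cub e Kt` is a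
polynomial in `p` and the conjugates of `y`. -/
theorem Setup.cor_mem_Sel1 {N : ℕ} (hd : disc e ≠ 0) {d : (Cub e K)ˣ} (h : d ∈ Sel1 N e K) :
    S.cor e d ∈ Sel1 N e ℚ := by
  obtain ⟨h1, h2, h3⟩ := mem_Sel1.1 h
  obtain ⟨⟨ν, h4⟩, h5⟩ := mem_Sel.1 h1
  have hc : ∀ z, S.cor e d * S.cor e z ^ 2 = S.cor e (d * z ^ 2) := fun z => by
    rw [map_mul, map_pow]
  refine mem_Sel1.2 ⟨mem_Sel.2 ⟨?_, fun p hp => ?_⟩, S.gal2_pos hd h2, fun p hp n => ?_⟩
  · obtain ⟨r, hr, -⟩ := S.exists_nm_rn h4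
    exact ⟨r, hr⟩
  · obtain ⟨z, h6, h7⟩ := h5 p hp
    refine ⟨S.cor e z, ?_, ?_⟩
    · rw [hc]
      exact S.rn_mem_intP h6
    · rw [hc, ← map_inv]
      exact S.rn_mem_intP h7
  · obtain ⟨z, y, hy, y', hy', h6, h7⟩ := h3 p hp n
    obtain ⟨u, hu, h8⟩ := S.gal2_st n hy
    obtain ⟨u', hu', h9⟩ := S.gal2_st n hy'
    refine ⟨S.cor e z, u, hu, u', hu', ?_, ?_⟩
    · rw [hc, S.gal2_val, h6, h8]
    · rw [hc, ← map_inv, S.gal2_val, h7, h9]

/-- arithmetic data of a class killed by corestriction -/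
structure Setup.UData (d : (Cub e K)ˣ) (γ : Cub e ℚ) (ν : K) (z : Nat.Primes → (Cub e K)ˣ)
    (ε : (K →+* ℂ) → Cub e ℂ) : Prop where
  nu : nm (d : Cub e K) = ν ^ 2
  loc : Loc d z
  eps : Eps (d : Cub e K) ν ε
  gam : ∀ p, γ * S.rn e (z p : Cub e K) ∈ Ord p e ℚ
  prod : ∏ j, ε (S.emb j) = map (algebraMap ℚ ℂ) γ

/-- `rn d = γ^2`; `nm γ = ± r` with `r` from `exists_nm_rn`, change the sign of `ν` if needed;
`exists_eps_prod`.  With `z` from `exists_loc`, `u = d z^2`, `w = γ rn z` (so `w^2 = rn u`), replace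
`z p` by `z p * w p`: `d (z w)^2 = u rn u`, `γ rn (z w) = w^4 = (rn u)^2`. -/
theorem Setup.exists_udata {N : ℕ} (hU : Unr K N) (hd : disc e ≠ 0) {d : (Cub e K)ˣ}
    (h : d ∈ Sel1 N e K) (h' : S.cor e d ∈ SQ e ℚ) : ∃ γ ν z ε, S.UData d γ ν z ε := by
  obtain ⟨h1, h2, -⟩ := mem_Sel1.1 h
  obtain ⟨⟨ν, hν⟩, -⟩ := mem_Sel.1 h1
  obtain ⟨r, hr, hr'⟩ := S.exists_nm_rn hν
  obtain ⟨γ, hγ, hn⟩ : ∃ γ : (Cub e ℚ)ˣ, γ ^ 2 = S.cor e d ∧ nm (γ : Cub e ℚ) = r := by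
    obtain ⟨γ, hγ⟩ : IsSquare (S.cor e d) := h'
    have h3 : nm (γ : Cub e ℚ) ^ 2 = r ^ 2 := by
      rw [← hr, ← S.gal2_val, hγ, Units.val_mul, nm_mul, sq]
    rcases sq_eq_sq_iff_eq_or_eq_neg.1 h3 with h4 | h4
    · exact ⟨γ, by rw [hγ, sq], h4⟩
    · exact ⟨-γ, by rw [hγ, neg_sq, sq], by rw [Units.val_neg, nm_neg, h4, neg_neg]⟩
  obtain ⟨ε, hε, hp⟩ := exists_eps_prod hd (by rw [S.finrank_eq]; decide) h2 hν
    (g := map (algebraMap ℚ ℂ) (γ : Cub e ℚ))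
    (by rw [map_map, RingHom.ext_rat ((starRingEnd ℂ).comp _) (algebraMap ℚ ℂ)])
    (by rw [← map_pow, ← Units.val_pow_eq_pow_val, hγ, S.gal2_val, S.gal2_map])
    (by rw [nm_map, hn, ← hr', eq_ratCast])
  obtain ⟨z, hz, hz'⟩ := exists_loc hU hd h
  let m : (Cub e ℚ)ˣ →* (Cub e K)ˣ := Units.map (map (algebraMap ℚ K)).toMonoidHom
  have hw : ∀ t, (γ * S.cor e t) ^ 2 = S.cor e (d * t ^ 2) := fun t => by
    rw [mul_pow, hγ, map_mul, map_pow]
  have hu : ∀ t, d * (t * m (γ * S.cor e t)) ^ 2 = d * t ^ 2 * m (S.cor e (d * t ^ 2)) :=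
    fun t => by rw [mul_pow, ← map_pow, hw, mul_assoc]
  refine ⟨γ, ν, fun p => z p * m (γ * S.cor e (z p)), ε, hν, ⟨?_, fun p => ⟨?_, ?_⟩⟩, hε,
    fun p => ?_, by rw [← hp, S.prod_emb]⟩
  · exact (hz.image fun t => t * m (γ * S.cor e t)).subset
      (by rintro _ ⟨p, rfl⟩; exact ⟨z p, ⟨p, rfl⟩, rfl⟩)
  · rw [hu, Units.val_mul]
    exact mul_mem (hz' p).1 (map_mem_Ord _ (S.rn_mem_Ord (hz' p).1))
  · rw [hu, mul_inv, Units.val_mul, ← map_inv, ← map_inv]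
    exact mul_mem (hz' p).2 (map_mem_Ord _ (S.rn_mem_Ord (hz' p).2))
  · have h3 : S.rn e (m (γ * S.cor e (z p)) : Cub e K) =
        ((γ * S.cor e (z p) : (Cub e ℚ)ˣ) : Cub e ℚ) ^ 3 := S.rn_map _
    have h4 : (γ : Cub e ℚ) * S.rn e ((z p * m (γ * S.cor e (z p)) : (Cub e K)ˣ) : Cub e K) =
        (((γ * S.cor e (z p)) ^ 2 : (Cub e ℚ)ˣ) : Cub e ℚ) ^ 2 := by
      rw [Units.val_mul, map_mul, h3, ← S.gal2_val, Units.val_pow_eq_pow_val, Units.val_mul]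
      ring
    rw [h4, hw]
    exact pow_mem (S.rn_mem_Ord (hz' p).1) 2

/-- `ω` an integral basis (`NumberField.integralBasis`, reindexed), `η` its trace dual
(`LinearMap.BilinForm.dualBasis (Algebra.traceForm ℚ K)`), `trace_eq_sum_embeddings` in `ℂ` -/
theorem Setup.exists_dual : ∃ (ω η : Fin 3 → K) (n : ℕ), n ≠ 0 ∧ (∀ j, IsIntegral ℤ (ω j)) ∧
    (∀ j, IsIntegral ℤ ((n : K) * η j)) ∧ LinearIndependent ℚ ω ∧
    ∀ j l, ∑ i, S.s i (ω j) * S.s i (η l) = if j = l then 1 else 0 := by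
  classical
  have hc := (Module.finrank_eq_card_basis (NumberField.integralBasis K)).symm.trans S.finrank_eq
  let b := (NumberField.integralBasis K).reindex (Fintype.equivFinOfCardEq hc)
  let c := (Algebra.traceForm ℚ K).dualBasis (traceForm_nondegenerate ℚ K) b
  choose m hm hm' using fun j => exists_mul_isIntegral (c j)
  refine ⟨b, c, ∏ j, m j, Finset.prod_ne_zero_iff.2 fun j _ => hm j, fun j => ?_, fun j => ?_,
    b.linearIndependent, fun j l => S.i.injective ?_⟩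
  · simp only [b, Module.Basis.reindex_apply, NumberField.integralBasis_apply]
    exact NumberField.RingOfIntegers.isIntegral_coe _
  · obtain ⟨a, ha⟩ := Finset.dvd_prod_of_mem m (Finset.mem_univ j)
    rw [ha, mul_comm (m j), Nat.cast_mul, mul_assoc]
    refine IsIntegral.mul ?_ (hm' j)
    simpa using isIntegral_algebraMap (R := ℤ) (A := K) (x := (a : ℤ))
  · have h1 := LinearMap.BilinForm.apply_dualBasis_left (traceForm_nondegenerate ℚ K) b l j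
    have h2 := trace_eq_sum_embeddings ℂ (K := ℚ) (x := c l * b j)
    rw [Algebra.traceForm_apply] at h1
    rw [h1, ← (RingHom.equivRatAlgHom (R := K) (S := ℂ)).sum_comp, ← S.bij.sum_comp] at h2
    rw [map_sum]
    refine (Finset.sum_congr rfl fun i _ => ?_).trans (h2.symm.trans ?_)
    · rw [← map_mul, mul_comm]
      rfl
    · split_ifs <;> simp

end Pool.Agent.Lib.MP_775b3b_nt
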