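import Pool.Agent.Lib.MP_775b3b_nt.Four

/-! Induction on the subgroups between `P` and `A`. -/

namespace Pool.Agent.Lib.MP_775b3b_nt

open IntermediateField

theorem grp_comm {G : Type*} [Group G] {x y : G} (hx : x ^ 3 = 1)
    (h : x * y * x⁻¹ * y⁻¹ = 1 ∨ x * y * x⁻¹ * y = 1) : y * x = x * y := by
  have key : x * y * x⁻¹ = y → y * x = x * y := fun h => by
    conv_lhs => rw [← h]
    group
  rcases h with h | h
  · exact key (mul_inv_eq_one.1 h)
  · have h1 : x * y * x⁻¹ = y⁻¹ := eq_inv_of_mul_eq_one_left h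
    have h2 : x * y⁻¹ * x⁻¹ = y := by
      have := congrArg (·⁻¹) h1
      simpa only [mul_inv_rev, inv_inv, mul_assoc] using this
    have h3 : x ^ 3 * y * (x ^ 3)⁻¹ = x * (x * (x * y * x⁻¹) * x⁻¹) * x⁻¹ := by
      simp only [pow_three, mul_inv_rev, mul_assoc]
    rw [hx, h1, h2, h1, one_mul, inv_one, mul_one] at h3
    exact key (h1.trans h3.symm)

theorem grp_index {G : Type*} [Group G] {A B : Subgroup G} [B.Normal] (hBA : B ≤ A) {a : G}
    (ha : a ^ 3 ∈ B) (h : A ≤ B ⊔ Subgroup.zpowers a) :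
    B.index = A.index ∨ B.index = 3 * A.index := by
  have h1 : A.map (QuotientGroup.mk' B) ≤ Subgroup.zpowers (QuotientGroup.mk' B a) := by
    refine (Subgroup.map_mono h).trans ?_
    rw [Subgroup.map_sup, MonoidHom.map_zpowers, QuotientGroup.map_mk'_self, bot_sup_eq]
  have h2 : orderOf (QuotientGroup.mk' B a) ∣ 3 := orderOf_dvd_of_pow_eq_one (by
    rw [← map_pow]
    exact (QuotientGroup.eq_one_iff _).2 ha)
  have h3 := Subgroup.card_dvd_of_le h1
  rw [← Subgroup.relIndex_ker, QuotientGroup.ker_mk', Nat.card_zpowers] at h3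
  replace h3 := h3.trans h2
  rw [← Subgroup.relIndex_mul_index hBA]
  rcases (Nat.dvd_prime Nat.prime_three).1 h3 with h4 | h4 <;> simp [h4]

variable {F : Type} [Field F] [NumberField F] [IsGalois ℚ F]

omit [IsGalois ℚ F] in
theorem grp_fix (B : Subgroup (F ≃ₐ[ℚ] F)) (c : F ≃ₐ[ℚ] F) (x : fixedField B)
    (hx : c x = x) : ∃ y : fixedField (B ⊔ Subgroup.zpowers c),
      (inclusion (fixedField_le le_sup_left)).toRingHom y = x := by
  have h : B ⊔ Subgroup.zpowers c ≤ MulAction.stabilizer (F ≃ₐ[ℚ] F) (x : F) :=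
    sup_le (fun g hg => (mem_fixedField_iff _ _).1 x.2 g hg)
      ((Subgroup.zpowers_le_of_mem) hx)
  exact ⟨⟨x, (mem_fixedField_iff _ _).2 fun g hg => h hg⟩, rfl⟩

theorem expBd_fixed {P A : Subgroup (F ≃ₐ[ℚ] F)} {j : ℕ} (hA : A.index = 2 ^ j)
    (h3 : ∀ a ∈ A, a ^ 3 ∈ P)
    (hc : ∀ g, ∀ a ∈ A, g * a * g⁻¹ * a⁻¹ ∈ P ∨ g * a * g⁻¹ * a ∈ P)
    (B : Subgroup (F ≃ₐ[ℚ] F)) : P ≤ B → B ≤ A → ExpBd (fixedField B) := by
  induction B using WellFoundedGT.induction with
  | _ B ih =>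
  intro hPB hBA
  have hB : B.Normal := ⟨fun b hb g => by
    rcases hc g b (hBA hb) with h | h
    · simpa using B.mul_mem (hPB h) hb
    · simpa using B.mul_mem (hPB h) (B.inv_mem hb)⟩
  have hG : IsGalois ℚ (fixedField B) := IsGalois.of_fixedField_normal_subgroup B
  by_cases hcyc : ∃ a ∈ A, A ≤ B ⊔ Subgroup.zpowers a
  · obtain ⟨a, ha, h⟩ := hcyc
    have h1 : Module.finrank ℚ (fixedField B) = B.index := by
      rw [finrank_eq_fixingSubgroup_index, fixingSubgroup_fixedField]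
    rcases grp_index hBA (hPB (h3 a ha)) h with h2 | h2
    · exact expBd_two _ (h1.trans (h2.trans hA))
    · exact expBd_three _ (h1.trans (h2.trans (by rw [hA])))
  · push Not at hcyc
    obtain ⟨a, ha, ha'⟩ := SetLike.not_le_iff_exists.1 (hcyc 1 A.one_mem)
    obtain ⟨b, hb, hb'⟩ := SetLike.not_le_iff_exists.1 (hcyc a ha)
    have key : ∀ c ∈ A, c ∉ B → ExpBd (fixedField (B ⊔ Subgroup.zpowers c)) := fun c hc hc' =>
      ih _ (lt_of_le_of_ne le_sup_left fun h => hc' (by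
        rw [h]
        exact Subgroup.mem_sup_right (Subgroup.mem_zpowers c))) (hPB.trans le_sup_left)
        (sup_le hBA (Subgroup.zpowers_le_of_mem hc))
    have za : a ∈ B ⊔ Subgroup.zpowers a := Subgroup.mem_sup_right (Subgroup.mem_zpowers a)
    have k1 := key a ha fun h => ha' (Subgroup.mem_sup_left h)
    have k2 := key b hb fun h => hb' (Subgroup.mem_sup_left h)
    have k3 := key (a * b) (A.mul_mem ha hb) fun h =>
      hb' ((Subgroup.mul_mem_cancel_left _ za).1 (Subgroup.mem_sup_left h))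
    have k4 := key (a * (b * b)) (A.mul_mem ha (A.mul_mem hb hb)) fun h => by
      have h1 := (Subgroup.mul_mem_cancel_left _ za).1 (Subgroup.mem_sup_left h)
      have h2 : b ^ 3 ∈ B ⊔ Subgroup.zpowers a := Subgroup.mem_sup_left (hPB (h3 b hb))
      rw [pow_three', Subgroup.mul_mem_cancel_left _ h1] at h2
      exact hb' h2
    let φ : (F ≃ₐ[ℚ] F) →* (fixedField B ≃ₐ[ℚ] fixedField B) :=
      AlgEquiv.restrictNormalHom (fixedField B)
    have hφ : ∀ g (x : fixedField B), (φ g x : F) = g x := fun g x =>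
      AlgEquiv.restrictNormalHom_apply _ g x
    have hφ1 : ∀ g ∈ P, φ g = 1 := fun g hg => AlgEquiv.ext fun x => Subtype.ext (by
      rw [hφ]
      exact (mem_fixedField_iff _ _).1 x.2 g (hPB hg))
    have p3 : ∀ g ∈ A, φ g ^ 3 = 1 := fun g hg => by rw [← map_pow, hφ1 _ (h3 g hg)]
    have q3 : ∀ g ∈ A, ∀ x, φ g (φ g (φ g x)) = x := fun g hg x => by
      have := congrArg (fun f : fixedField B ≃ₐ[ℚ] fixedField B => f x) (p3 g hg)
      simpa [pow_three] using this
    have hcm : φ b * φ a = φ a * φ b := grp_comm (p3 a ha) ((hc a b hb).imp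
      (fun h => by simpa using hφ1 _ h) (fun h => by simpa using hφ1 _ h))
    refine ExpBd.four (σ := (φ a).toRingEquiv.toRingHom) (τ := (φ b).toRingEquiv.toRingHom)
      (q3 a ha) (q3 b hb) (fun x => congrArg (fun f : fixedField B ≃ₐ[ℚ] fixedField B => f x) hcm)
      (fun x hx => grp_fix B a x ?_) (fun x hx => grp_fix B b x ?_)
      (fun x hx => grp_fix B (a * b) x ?_) (fun x hx => grp_fix B (a * (b * b)) x ?_) k1 k2 k3 k4
    · rw [← hφ]
      exact congrArg Subtype.val hx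
    · rw [← hφ]
      exact congrArg Subtype.val hx
    · rw [← hφ, map_mul]
      exact congrArg Subtype.val hx
    · rw [← hφ, map_mul, map_mul]
      exact congrArg Subtype.val hx

theorem expBd_gen {P A : Subgroup (F ≃ₐ[ℚ] F)} (hP : IsPGroup 2 P) (hPA : P ≤ A) {j : ℕ}
    (hA : A.index = 2 ^ j) (h3 : ∀ a ∈ A, a ^ 3 ∈ P)
    (hc : ∀ g, ∀ a ∈ A, g * a * g⁻¹ * a⁻¹ ∈ P ∨ g * a * g⁻¹ * a ∈ P) : ExpBd F := by
  have : Fact (Nat.Prime 2) := ⟨Nat.prime_two⟩
  obtain ⟨k, hk⟩ := hP.exists_card_eq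
  exact (expBd_fixed hA h3 hc P le_rfl hPA).tower F
    ((finrank_fixedField_eq_card P).trans hk)

end Pool.Agent.Lib.MP_775b3b_nt
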