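import Pool.Agent.Lib.MP_775b3b_nt.Defs

/-! Index bookkeeping. -/

namespace Pool.Agent.Lib.MP_775b3b_nt

variable {G G' : Type*} [CommGroup G] [CommGroup G']

theorem Bd.mono {H K : Subgroup G} {n m : ℕ} (h : Bd H K n) (hnm : n ≤ m) : Bd H K m :=
  ⟨h.1, h.2.trans hnm⟩

/-- `Subgroup.relIndex_le_of_le_left` -/
theorem Bd.of_le_left {H H' K : Subgroup G} {n : ℕ} (h : Bd H K n) (hH : H ≤ H') : Bd H' K n := by
  exact ⟨fun h0 => h.1 (Subgroup.relIndex_eq_zero_of_le_left hH h0),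
    (Subgroup.relIndex_le_of_le_left hH h.1).trans h.2⟩

/-- `Subgroup.relIndex_le_of_le_right` -/
theorem Bd.of_le_right {H K K' : Subgroup G} {n : ℕ} (h : Bd H K n) (hK : K' ≤ K) : Bd H K' n := by
  exact ⟨fun h0 => h.1 (Subgroup.relIndex_eq_zero_of_le_right hK h0),
    (Subgroup.relIndex_le_of_le_right hK h.1).trans h.2⟩

/-- `Subgroup.relIndex_inf_mul_relIndex` -/
theorem Bd.trans {H K L : Subgroup G} {n m : ℕ} (h : Bd H (K ⊓ L) n) (h' : Bd K L m) :
    Bd H L (n * m) := by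
  have h1 : Bd (H ⊓ K) L (n * m) := by
    rw [Bd, ← Subgroup.relIndex_inf_mul_relIndex]
    exact ⟨mul_ne_zero h.1 h'.1, Nat.mul_le_mul h.2 h'.2⟩
  exact h1.of_le_left inf_le_left

theorem Bd.inf {H H' K : Subgroup G} {n m : ℕ} (h : Bd H K n) (h' : Bd H' K m) :
    Bd (H ⊓ H') K (n * m) := by
  exact ⟨Subgroup.relIndex_inf_ne_zero h.1 h'.1,
    Subgroup.relIndex_inf_le.trans (Nat.mul_le_mul h.2 h'.2)⟩

theorem Bd.biInf {ι : Type*} (s : Finset ι) (H : ι → Subgroup G) (K : Subgroup G) (n : ℕ)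
    (h : ∀ i ∈ s, Bd (H i) K n) : Bd (⨅ i ∈ s, H i) K (n ^ s.card) := by
  classical
  induction s using Finset.induction_on with
  | empty => simp [Bd]
  | insert a s ha ih =>
    rw [Finset.iInf_insert, Finset.card_insert_of_notMem ha, pow_succ']
    exact (h a (Finset.mem_insert_self a s)).inf (ih fun i hi => h i (Finset.mem_insert_of_mem hi))

theorem Bd.of_index {H : Subgroup G} {n : ℕ} (h0 : H.index ≠ 0) (h : H.index ≤ n)
    (K : Subgroup G) : Bd H K n := by
  have h1 : Bd H ⊤ n := by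
    rw [Bd, Subgroup.relIndex_top_right]
    exact ⟨h0, h⟩
  exact h1.of_le_right le_top

/-- `Subgroup.relIndex_comap` -/
theorem Bd.comap {H' K' : Subgroup G'} {n : ℕ} (h : Bd H' K' n) (f : G →* G') {K : Subgroup G}
    (hK : ∀ x ∈ K, f x ∈ K') : Bd (H'.comap f) K n := by
  have h1 : Bd H' (K.map f) n := h.of_le_right (Subgroup.map_le_iff_le_comap.2 hK)
  rwa [Bd, Subgroup.relIndex_comap]

theorem Bd.map {H K : Subgroup G} {n : ℕ} (h : Bd H K n) (f : G →* G') {H' : Subgroup G'}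
    (hH : ∀ x ∈ H, f x ∈ H') : Bd H' (K.map f) n := by
  have h1 : Bd (H'.comap f) K n := h.of_le_left hH
  rwa [Bd, Subgroup.relIndex_comap] at h1

/-- pigeonhole: the quotient injects in `α` via representatives -/
theorem Bd.of_fun {H K : Subgroup G} {α : Type*} [Finite α] (f : G → α)
    (h : ∀ x ∈ K, ∀ y ∈ K, f x = f y → x / y ∈ H) : Bd H K (Nat.card α) := by
  have hinj : Function.Injective fun q : K ⧸ H.subgroupOf K => f (q.out : K) := by
    intro q q' hq
    have h1 := h _ (q'.out : K).2 _ (q.out : K).2 hq.symm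
    rw [← q.out_eq, ← q'.out_eq]
    refine QuotientGroup.eq.2 ?_
    rw [Subgroup.mem_subgroupOf, Subgroup.coe_mul, Subgroup.coe_inv, mul_comm, ← div_eq_mul_inv]
    exact h1
  have := Finite.of_injective _ hinj
  exact ⟨Nat.card_pos.ne', Nat.card_le_card_of_injective _ hinj⟩

/-- if every element of `K` is congruent modulo `H` to an element of `K'` -/
theorem Bd.of_cover {H K K' : Subgroup G} {n : ℕ} (h : Bd H K' n)
    (hK : ∀ x ∈ K, ∃ y ∈ K', x / y ∈ H) : Bd H K n := by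
  have h1 : Bd H (K' ⊔ H) n := by rwa [Bd, Subgroup.relIndex_sup_right]
  refine h1.of_le_right fun x hx => ?_
  obtain ⟨y, hy, hxy⟩ := hK x hx
  rw [← mul_div_cancel y x]
  exact Subgroup.mul_mem_sup hy hxy

end Pool.Agent.Lib.MP_775b3b_nt
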