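import Pool.Agent.Lib.MP_775b3b_nt.Defs

/-! Counting spectral codes. -/

namespace Pool.Agent.Lib.MP_775b3b_nt

theorem lglat_pi {α : Type} (g : α → ℝ) (h0 : ∀ a, 0 ≤ g a) {S : ℝ}
    (h : ∀ T : Finset α, ∑ a ∈ T, g a ≤ S) (Z : Finset (Fin 4 → α)) :
    ∑ m ∈ Z, ∏ k, g (m k) ≤ S ^ 4 := by
  classical
  have h1 : Z ⊆ Fintype.piFinset fun _ : Fin 4 => Z.biUnion fun m => Finset.univ.image m :=
    fun m hm => Fintype.mem_piFinset.2 fun k =>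
      Finset.mem_biUnion.2 ⟨m, hm, Finset.mem_image_of_mem m (Finset.mem_univ k)⟩
  refine (Finset.sum_le_sum_of_subset_of_nonneg h1 fun m _ _ =>
    Finset.prod_nonneg fun k _ => h0 _).trans ?_
  rw [← Finset.prod_univ_sum, Finset.prod_const, Finset.card_univ, Fintype.card_fin]
  exact pow_le_pow_left₀ (Finset.sum_nonneg fun a _ => h0 a) (h _) 4

theorem lglat_sum : Summable fun t : ℤ => (max 1 ‖t‖) ^ (-(9 / 8) : ℝ) := by
  refine (Real.summable_abs_int_rpow (b := 9 / 8) (by norm_num)).congr_cofinite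
    ((Filter.eventually_cofinite_ne 0).mono fun t ht => ?_)
  have h : (1 : ℝ) ≤ |(t : ℝ)| := by exact_mod_cast Int.one_le_abs ht
  simp only [Int.norm_eq_abs, max_eq_right h]

theorem lglat_row (x : Fin 4 → ℤ) :
    (max 1 ‖x‖) ^ (-(9 / 2) : ℝ) ≤ ∏ i, (max 1 ‖x i‖) ^ (-(9 / 8) : ℝ) := by
  have h : (max 1 ‖x‖) ^ (-(9 / 2) : ℝ) = ∏ _i : Fin 4, (max 1 ‖x‖) ^ (-(9 / 8) : ℝ) := by
    rw [Finset.prod_const, Finset.card_univ, Fintype.card_fin, ← Real.rpow_natCast,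
      ← Real.rpow_mul (by positivity)]
    norm_num
  rw [h]
  refine Finset.prod_le_prod (fun i _ => by positivity) fun i _ => ?_
  exact Real.rpow_le_rpow_of_nonpos (by positivity)
    (max_le_max le_rfl (norm_le_pi_norm x i)) (by norm_num)

/-- Rankin trick: `1 ≤ (μ / ∏ k, max 1 ‖m k‖) ^ (9/2)` on `Z`, and
`∑ m ∈ Z, ∏ k, f (m k) ≤ (∑' x, f x) ^ 4` for `f x = (max 1 ‖x‖) ^ (-9/2)`, summable on
`Fin 4 → ℤ` (compare with `ZLattice.summable_norm_rpow` for the span of `Pi.basisFun ℝ (Fin 4)`,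
or directly: `max 1 ‖x‖ ^ (9/2) ≥ ∏ i, (max 1 |x i|) ^ (9/8)` and a product of four
summable series over `ℤ`; then `Finset.prod_univ_sum` on `Fintype.piFinset`). -/
theorem card_code_le : ∃ C : ℝ, 0 < C ∧ ∀ (μ : ℝ) (Z : Finset (Fin 4 → Fin 4 → ℤ)), 0 ≤ μ →
    (∀ m ∈ Z, ∏ k, max 1 ‖m k‖ ≤ μ) → (Z.card : ℝ) ≤ C * μ ^ (9 / 2 : ℝ) := by
  have h0 : ∀ t : ℤ, 0 ≤ (max 1 ‖t‖) ^ (-(9 / 8) : ℝ) := fun t => by positivity
  have h1 := lglat_pi _ h0 fun T => lglat_sum.sum_le_tsum T fun t _ => h0 t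
  have h2 := lglat_pi (fun x : Fin 4 → ℤ => ∏ i, (max 1 ‖x i‖) ^ (-(9 / 8) : ℝ))
    (fun x => Finset.prod_nonneg fun i _ => h0 _) h1
  obtain ⟨S, hS⟩ : ∃ S, S = ((∑' t : ℤ, (max 1 ‖t‖) ^ (-(9 / 8) : ℝ)) ^ 4) ^ 4 := ⟨_, rfl⟩
  rw [← hS] at h2
  refine ⟨max S 1, by positivity, fun μ Z hμ hZ => ?_⟩
  have h3 : ∀ m ∈ Z, (1 : ℝ) ≤
      (∏ k, ∏ i, (max 1 ‖m k i‖) ^ (-(9 / 8) : ℝ)) * μ ^ (9 / 2 : ℝ) := by
    intro m hm
    have hp : 0 < ∏ k, max 1 ‖m k‖ := Finset.prod_pos fun k _ => by positivity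
    have a1 : (∏ k, max 1 ‖m k‖) ^ (-(9 / 2) : ℝ) ≤
        ∏ k, ∏ i, (max 1 ‖m k i‖) ^ (-(9 / 8) : ℝ) := by
      rw [← Real.finsetProd_rpow _ _ fun k _ => by positivity]
      exact Finset.prod_le_prod (fun k _ => by positivity) fun k _ => lglat_row (m k)
    have a2 : (∏ k, max 1 ‖m k‖) ^ (9 / 2 : ℝ) ≤ μ ^ (9 / 2 : ℝ) :=
      Real.rpow_le_rpow hp.le (hZ m hm) (by norm_num)
    refine le_trans (le_of_eq ?_) (mul_le_mul a1 a2 (by positivity)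
      (Finset.prod_nonneg fun k _ => Finset.prod_nonneg fun i _ => h0 _))
    rw [← Real.rpow_add hp, neg_add_cancel, Real.rpow_zero]
  have h4 := Finset.sum_le_sum h3
  rw [Finset.sum_const, nsmul_eq_mul, mul_one, ← Finset.sum_mul] at h4
  exact h4.trans (mul_le_mul_of_nonneg_right ((h2 Z).trans (le_max_left _ _)) (by positivity))

end Pool.Agent.Lib.MP_775b3b_nt
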