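import Pool.Agent.Lib.MP_775b3b_nt.Defs

/-! Covering the real symmetric matrices with bounded minors. -/

namespace Pool.Agent.Lib.MP_775b3b_nt

theorem lgspec_dec (S : Matrix (Fin 4) (Fin 4) ℝ) : ∃ (U : Matrix (Fin 4) (Fin 4) ℝ) (l : Fin 4 → ℝ),
    S.IsSymm → U.transpose * U = 1 ∧ S = U * Matrix.diagonal l * U.transpose := by
  by_cases h : S.IsSymm
  · have hA : S.IsHermitian := by
      rw [Matrix.IsHermitian, Matrix.conjTranspose_eq_transpose_of_trivial]
      exact h
    refine ⟨hA.eigenvectorUnitary, hA.eigenvalues, fun _ => ⟨?_, ?_⟩⟩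
    · have := Matrix.mem_unitaryGroup_iff'.1 hA.eigenvectorUnitary.2
      rwa [Matrix.star_eq_conjTranspose, Matrix.conjTranspose_eq_transpose_of_trivial] at this
    · have := hA.spectral_theorem
      rw [Unitary.conjStarAlgAut_apply, Matrix.star_eq_conjTranspose,
        Matrix.conjTranspose_eq_transpose_of_trivial] at this
      simpa using this
  · exact ⟨1, 0, fun h' => absurd h' h⟩

theorem lgspec_sq {U : Matrix (Fin 4) (Fin 4) ℝ} (h : U.transpose * U = 1) (k : Fin 4) :
    ∑ i, U i k ^ 2 = 1 := by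
  have := congrFun (congrFun h k) k
  simpa [Matrix.mul_apply, sq] using this

theorem lgspec_abs {u : Fin 4 → ℝ} (h : ∑ i, u i ^ 2 = 1) (i : Fin 4) : |u i| ≤ 1 := by
  rw [← sq_le_one_iff_abs_le_one, ← h]
  exact Finset.single_le_sum (f := fun i => u i ^ 2) (fun j _ => sq_nonneg _) (Finset.mem_univ i)

theorem lgspec_close {u u' : Fin 4 → ℝ} {l l' : ℝ} (h : ∑ i, u i ^ 2 = 1) (h' : ∑ i, u' i ^ 2 = 1)
    (hs : 0 ≤ l ↔ 0 ≤ l') (hy : ∀ i, |l * u i - l' * u' i| ≤ 1) (i j : Fin 4) :
    |u i * l * u j - u' i * l' * u' j| ≤ 6 := by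
  have a := lgspec_abs h
  have a' := lgspec_abs h'
  have hl : |l - l'| ≤ 4 := by
    have e : (l - l') * (l + l') = ∑ i, (l * u i - l' * u' i) * (l * u i + l' * u' i) := by
      have : ∑ i, (l * u i - l' * u' i) * (l * u i + l' * u' i) =
          l ^ 2 * ∑ i, u i ^ 2 - l' ^ 2 * ∑ i, u' i ^ 2 := by
        rw [Finset.mul_sum, Finset.mul_sum, ← Finset.sum_sub_distrib]
        exact Finset.sum_congr rfl fun i _ => by ring
      rw [this, h, h']
      ring
    have e2 : |l + l'| = |l| + |l'| := by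
      by_cases h0 : 0 ≤ l
      · rw [abs_of_nonneg h0, abs_of_nonneg (hs.1 h0), abs_of_nonneg (add_nonneg h0 (hs.1 h0))]
      · have h1 : l' < 0 := not_le.1 fun h2 => h0 (hs.2 h2)
        have h2 := not_le.1 h0
        rw [abs_of_neg h2, abs_of_neg h1, abs_of_neg (add_neg h2 h1), neg_add]
    have e3 : |l - l'| * (|l| + |l'|) ≤ 4 * (|l| + |l'|) := by
      rw [← e2, ← abs_mul, e, e2]
      refine (Finset.abs_sum_le_sum_abs _ _).trans ?_
      have : ∀ i ∈ (Finset.univ : Finset (Fin 4)),
          |(l * u i - l' * u' i) * (l * u i + l' * u' i)| ≤ |l| + |l'| := fun i _ => by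
        rw [abs_mul]
        have b : |l * u i + l' * u' i| ≤ |l| + |l'| := by
          refine (abs_add_le _ _).trans (add_le_add ?_ ?_)
          · rw [abs_mul]
            exact mul_le_of_le_one_right (abs_nonneg _) (a i)
          · rw [abs_mul]
            exact mul_le_of_le_one_right (abs_nonneg _) (a' i)
        exact (mul_le_of_le_one_left (abs_nonneg _) (hy i)).trans b
      refine (Finset.sum_le_card_nsmul _ _ _ this).trans (le_of_eq ?_)
      simp [mul_add]
    rcases (add_nonneg (abs_nonneg l) (abs_nonneg l')).eq_or_lt with h0 | h0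
    · have := abs_sub l l'
      linarith
    · exact le_of_mul_le_mul_right e3 h0
  have e : u i * l * u j - u' i * l' * u' j = (l * u i - l' * u' i) * u j +
      u' i * ((l * u j - l' * u' j) - (l - l') * u j) := by ring
  rw [e]
  have b1 : |(l * u i - l' * u' i) * u j| ≤ 1 := by
    rw [abs_mul]
    exact mul_le_one₀ (hy i) (abs_nonneg _) (a j)
  have b2 : |(l - l') * u j| ≤ 4 := by
    rw [abs_mul]
    exact (mul_le_of_le_one_right (abs_nonneg _) (a j)).trans hl
  have b3 : |u' i * ((l * u j - l' * u' j) - (l - l') * u j)| ≤ 5 := by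
    rw [abs_mul]
    refine (mul_le_of_le_one_left (abs_nonneg _) (a' i)).trans ((abs_sub _ _).trans ?_)
    linarith [hy j]
  linarith [abs_add_le ((l * u i - l' * u' i) * u j)
    (u' i * ((l * u j - l' * u' j) - (l - l') * u j))]

theorem lgspec_prod {U S : Matrix (Fin 4) (Fin 4) ℝ} {l : Fin 4 → ℝ} {μ : ℝ}
    (h : U.transpose * U = 1) (e : S = U * Matrix.diagonal l * U.transpose) (hb : BdS μ S) :
    ∏ k, max 1 |l k| ≤ μ := by
  classical
  have ha : ∀ k i, |U i k| ≤ 1 := fun k => lgspec_abs (lgspec_sq h k)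
  have hd : |U.transpose.det| = 1 := by
    have := congrArg Matrix.det h
    rw [Matrix.det_mul, Matrix.det_one, Matrix.det_transpose] at this
    rw [Matrix.det_transpose, ← sq_eq_sq₀ (abs_nonneg _) zero_le_one, sq_abs, sq, this, one_pow]
  have := hb (Matrix.diagonal (fun k => if 1 ≤ |l k| then 0 else 1) * U.transpose)
    (Matrix.diagonal (fun k => if 1 ≤ |l k| then 1 else 0) * U.transpose)
    (fun i j => by
      rw [Matrix.diagonal_mul, Matrix.transpose_apply]
      split_ifs
      · simp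
      · simpa using ha i j)
    (fun i j => by
      rw [Matrix.diagonal_mul, Matrix.transpose_apply]
      split_ifs
      · simpa using ha i j
      · simp)
  rw [e, ← Matrix.mul_assoc, ← Matrix.mul_assoc, Matrix.mul_assoc _ U.transpose U, h,
    Matrix.mul_one, ← Matrix.add_mul, Matrix.diagonal_mul_diagonal, Matrix.diagonal_add,
    Matrix.det_mul, abs_mul, hd, mul_one, Matrix.det_diagonal, Finset.abs_prod] at this
  refine le_trans (le_of_eq (Finset.prod_congr rfl fun k _ => ?_)) this
  split_ifs with h1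
  · rw [max_eq_right h1, zero_add, one_mul]
  · rw [max_eq_left (not_le.1 h1).le]
    simp

/-- Spectral code.  Write `S = U diag(l) Uᵀ` (`Matrix.IsHermitian.spectral_theorem`), `u k` the
`k`-th column of `U`, `y k = l k • u k`.  Code: signs `decide (0 ≤ l k)` and `m k i = ⌊y k i⌋`
(for non symmetric `S` any value).
(1) With `I = {k | 1 ≤ |l k|}`, `P = diagonal (1 off I, 0 on I) * Uᵀ`, `Q = diagonal (1 on I) * Uᵀ`
(entries of `U` have absolute value at most 1): `P + Q * S = diagonal (if k ∈ I then l k else 1) * Uᵀ`,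
so `∏ k, max 1 |l k| ≤ μ`; and `‖m k‖ ≤ |l k| + 1 ≤ 2 * max 1 |l k|`.
(2) `S i j = ∑ k, sign k * (y k i * y k j / ‖y k‖₂)` (`‖y k‖₂ = |l k|`), and
`y ↦ y i * y j / ‖y‖₂` moves by at most a constant when `y` moves by at most 1 in each coordinate:
`y i y j/|y| - y' i y' j/|y'| = (y i - y' i) y j/|y| + y' i (y j/|y| - y' j/|y'|)` and
`|y'| * |y j/|y| - y' j/|y'|| ≤ 2 |y - y'|` (treat `y = 0` or `y' = 0` separately). -/
theorem exists_code : ∃ C : ℝ, 0 < C ∧
    ∃ code : Matrix (Fin 4) (Fin 4) ℝ → (Fin 4 → Bool) × (Fin 4 → Fin 4 → ℤ),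
      (∀ (S : Matrix (Fin 4) (Fin 4) ℝ) (μ : ℝ), S.IsSymm → BdS μ S →
        ∏ k, max 1 ‖(code S).2 k‖ ≤ C * μ) ∧
      ∀ S S' : Matrix (Fin 4) (Fin 4) ℝ, S.IsSymm → S'.IsSymm → code S = code S' →
        ∀ i j, |S i j - S' i j| ≤ C := by
  choose U l h using lgspec_dec
  refine ⟨24, by norm_num, fun S => (fun k => decide (0 ≤ l S k), fun k i => ⌊l S k * U S i k⌋),
    fun S μ hS hb => ?_, fun S S' hS hS' e i j => ?_⟩
  · obtain ⟨h1, h2⟩ := h S hS
    have hp := lgspec_prod h1 h2 hb
    have h0 : 0 ≤ ∏ k, max 1 |l S k| :=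
      Finset.prod_nonneg fun k _ => zero_le_one.trans (le_max_left _ _)
    have : ∏ k, max 1 ‖fun i => ⌊l S k * U S i k⌋‖ ≤ ∏ k, (2 * max 1 |l S k|) := by
      refine Finset.prod_le_prod (fun k _ => zero_le_one.trans (le_max_left _ _)) fun k _ => ?_
      have m1 := le_max_left 1 |l S k|
      have m2 := le_max_right 1 |l S k|
      refine max_le (by linarith) ((pi_norm_le_iff_of_nonneg (by linarith)).2 fun i => ?_)
      have b : |l S k * U S i k| ≤ |l S k| := by
        rw [abs_mul]
        exact mul_le_of_le_one_right (abs_nonneg _) (lgspec_abs (lgspec_sq h1 k) i)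
      have f1 := Int.floor_le (l S k * U S i k)
      have f2 := Int.lt_floor_add_one (l S k * U S i k)
      rw [Int.norm_eq_abs, abs_le]
      rw [abs_le] at b
      constructor <;> linarith [b.1, b.2]
    rw [Finset.prod_mul_distrib, Finset.prod_const, Finset.card_univ, Fintype.card_fin] at this
    refine this.trans ?_
    nlinarith
  · obtain ⟨h1, h2⟩ := h S hS
    obtain ⟨h1', h2'⟩ := h S' hS'
    have e1 := congrArg Prod.fst e
    have e2 := congrArg Prod.snd e
    have v : S i j = ∑ k, U S i k * l S k * U S j k := by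
      conv_lhs => rw [h2]
      simp only [Matrix.mul_apply (M := U S * Matrix.diagonal (l S)), Matrix.mul_diagonal,
        Matrix.transpose_apply]
    have v' : S' i j = ∑ k, U S' i k * l S' k * U S' j k := by
      conv_lhs => rw [h2']
      simp only [Matrix.mul_apply (M := U S' * Matrix.diagonal (l S')), Matrix.mul_diagonal,
        Matrix.transpose_apply]
    rw [v, v', ← Finset.sum_sub_distrib]
    refine (Finset.abs_sum_le_sum_abs _ _).trans ?_
    refine (Finset.sum_le_card_nsmul _ _ 6 fun k _ => ?_).trans (by norm_num)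
    refine lgspec_close (u := fun i => U S i k) (u' := fun i => U S' i k) (lgspec_sq h1 k)
      (lgspec_sq h1' k) (decide_eq_decide.1 (congrFun e1 k)) (fun a => ?_) i j
    exact (Int.abs_sub_lt_one_of_floor_eq_floor (congrFun (congrFun e2 k) a)).le

end Pool.Agent.Lib.MP_775b3b_nt
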