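import Pool.Agent.Lib.MP_775b3b_nt.LGSum
import Pool.Agent.Lib.MP_775b3b_nt.LGSpec
import Pool.Agent.Lib.MP_775b3b_nt.LGLat

/-! Counting integral points of the cone over the Lagrangian Grassmannian in a skew box. -/

namespace Pool.Agent.Lib.MP_775b3b_nt

theorem lgcount_fib (B : Fin 4 × Fin 4 → ℝ) (T : Finset (Matrix (Fin 4) (Fin 4) ℚ))
    (hs : ∀ S ∈ T, S.IsSymm) (hf : ∀ S ∈ T, ∀ S' ∈ T, S.map Int.fract = S'.map Int.fract)
    (hB : ∀ S ∈ T, ∀ S' ∈ T, ∀ i j, |(S i j : ℝ) - S' i j| ≤ B (i, j)) :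
    T.card ≤ ∏ ij ∈ Finset.univ.filter (fun ij : Fin 4 × Fin 4 => ij.1 ≤ ij.2),
      (2 * ⌊B ij⌋₊ + 1) := by
  rcases T.eq_empty_or_nonempty with rfl | ⟨S₀, h₀⟩
  · exact Nat.zero_le _
  have hd : ∀ S ∈ T, ∀ S' ∈ T, ∀ i j, S i j - S' i j = ((⌊S i j⌋ - ⌊S' i j⌋ : ℤ) : ℚ) := by
    intro S hS S' hS' i j
    have : Int.fract (S i j) = Int.fract (S' i j) := congrFun (congrFun (hf S hS S' hS') i) j
    rw [Int.fract, Int.fract] at this
    push_cast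
    linarith
  refine (Finset.card_le_card_of_injOn
    (fun S (ij : Fin 4 × Fin 4) => if ij.1 ≤ ij.2 then ⌊S ij.1 ij.2⌋ - ⌊S₀ ij.1 ij.2⌋ else 0)
    (t := Fintype.piFinset fun ij : Fin 4 × Fin 4 =>
      if ij.1 ≤ ij.2 then Finset.Icc (-(⌊B ij⌋₊ : ℤ)) ⌊B ij⌋₊ else {0}) (fun S hS => ?_)
    fun S hS S' hS' h => ?_).trans_eq ?_
  · refine Finset.mem_coe.2 (Fintype.mem_piFinset.2 fun ij => ?_)
    dsimp only
    split_ifs
    · have h1 := hB S hS S₀ h₀ ij.1 ij.2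
      rw [← Rat.cast_sub, hd S hS S₀ h₀, Rat.cast_intCast, ← Int.cast_abs, ← Nat.cast_natAbs] at h1
      have h2 : (⌊S ij.1 ij.2⌋ - ⌊S₀ ij.1 ij.2⌋).natAbs ≤ ⌊B ij⌋₊ := Nat.le_floor h1
      rw [Finset.mem_Icc]
      omega
    · exact Finset.mem_singleton_self _
  · have h1 : ∀ i j, i ≤ j → S i j = S' i j := fun i j hij => by
      have h2 := congrFun h (i, j)
      simp only [if_pos hij, sub_left_inj] at h2
      rw [← sub_eq_zero, hd S hS S' hS', h2, sub_self, Int.cast_zero]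
    ext i j
    rcases le_total i j with hij | hij
    · exact h1 i j hij
    · rw [(hs S hS).apply j i, (hs S' hS').apply j i, h1 j i hij]
  · rw [Fintype.card_piFinset, Finset.prod_filter]
    refine Finset.prod_congr rfl fun ij _ => ?_
    split_ifs
    · rw [Int.card_Icc]
      omega
    · rfl

/-- Fixed `g`.  Map `S ↦ (S.map fract, code S')`, `S' i j = S i j / (d i * d j)`; the first
component lies in `cset |g|`, the second in a set of size `16 * C * (C μ)^(9/2)`.  In a fibre the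
differences `S - S₀` are integer symmetric with `|S i j - S₀ i j| ≤ C d i d j`, so a fibre injects
(entries with `i ≤ j`) in a product of integer intervals of size
`≤ 2 C d i d j + 1 ≤ (2 C + 1) (1 + d i d j)`. -/
theorem lg_count_fixed : ∃ C : ℝ, 0 < C ∧ ∀ (d : Fin 4 → ℝ), (∀ i, 0 < d i) → ∀ (M : ℝ) (g : ℤ)
    (Z : Finset (Matrix (Fin 4) (Fin 4) ℚ)), 0 ≤ M → (∀ S ∈ Z, LGHyp d M g S) →
    (Z.card : ℝ) ≤ C * (cset (g.natAbs : ℤ)).ncard * (M / |(g : ℝ)|) ^ (9 / 2 : ℝ) *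
      ∏ ij ∈ Finset.univ.filter (fun ij : Fin 4 × Fin 4 => ij.1 ≤ ij.2), (1 + d ij.1 * d ij.2) := by
  classical
  obtain ⟨C₁, hC₁, code, c1, c2⟩ := exists_code
  obtain ⟨C₂, hC₂, c3⟩ := card_code_le
  refine ⟨(2 * C₁ + 1) ^ (Finset.univ.filter fun ij : Fin 4 × Fin 4 => ij.1 ≤ ij.2).card *
    (16 * (C₂ * C₁ ^ (9 / 2 : ℝ))), by positivity, fun d hd M g Z hM hZ => ?_⟩
  rcases Z.eq_empty_or_nonempty with rfl | ⟨S₀, h₀⟩
  · have := Finset.prod_nonneg (s := Finset.univ.filter fun ij : Fin 4 × Fin 4 => ij.1 ≤ ij.2)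
      fun ij _ => (add_pos one_pos (mul_pos (hd ij.1) (hd ij.2))).le
    rw [Finset.card_empty, Nat.cast_zero]
    positivity
  have hfin := cset_finite (g := (g.natAbs : ℤ)) (by simpa using (hZ S₀ h₀).ne)
  set σ : Matrix (Fin 4) (Fin 4) ℚ → Matrix (Fin 4) (Fin 4) ℝ :=
    fun S => Matrix.of fun i j => (S i j : ℝ) / (d i * d j) with hσ
  have hsy : ∀ S ∈ Z, (σ S).IsSymm := fun S hS => Matrix.IsSymm.ext fun i j => by
    simp only [hσ, Matrix.of_apply, (hZ S hS).symm.apply i j, mul_comm (d j)]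
  have h1 := Finset.card_le_mul_card_image (f := fun S => (S.map Int.fract, code (σ S))) Z _
    fun a _ => lgcount_fib (fun ij => C₁ * (d ij.1 * d ij.2)) _
      (fun S hS => (hZ S (Finset.mem_filter.1 hS).1).symm)
      (fun S hS S' hS' => congrArg Prod.fst
        ((Finset.mem_filter.1 hS).2.trans (Finset.mem_filter.1 hS').2.symm))
      fun S hS S' hS' i j => by
        have := c2 _ _ (hsy S (Finset.mem_filter.1 hS).1) (hsy S' (Finset.mem_filter.1 hS').1)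
          (congrArg Prod.snd ((Finset.mem_filter.1 hS).2.trans (Finset.mem_filter.1 hS').2.symm))
          i j
        have hp := mul_pos (hd i) (hd j)
        simp only [hσ, Matrix.of_apply] at this
        rwa [← sub_div, abs_div, abs_of_pos hp, div_le_iff₀ hp] at this
  have h2 : (Z.image fun S => (S.map Int.fract, code (σ S))).card ≤
      (cset (g.natAbs : ℤ)).ncard * (16 * (Z.image fun S => (code (σ S)).2).card) := by
    refine (Finset.card_le_card (t := hfin.toFinset ×ˢ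
      (Finset.univ ×ˢ Z.image fun S => (code (σ S)).2)) fun a ha => ?_).trans_eq ?_
    · obtain ⟨S, hS, rfl⟩ := Finset.mem_image.1 ha
      exact Finset.mem_product.2 ⟨hfin.mem_toFinset.2 ((hZ S hS).int.natAbs.fract_mem (hZ S hS).symm),
        Finset.mem_product.2 ⟨Finset.mem_univ _, Finset.mem_image_of_mem _ hS⟩⟩
    · rw [Finset.card_product, Finset.card_product, Set.ncard_eq_toFinset_card _ hfin]
      simp
  have hμ : 0 ≤ M / |(g : ℝ)| := by positivity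
  have h3 := c3 (C₁ * (M / |(g : ℝ)|)) (Z.image fun S => (code (σ S)).2) (by positivity)
    fun m hm => by
      obtain ⟨S, hS, rfl⟩ := Finset.mem_image.1 hm
      exact c1 _ _ (hsy S hS) (hZ S hS).bd
  rw [Real.mul_rpow hC₁.le hμ] at h3
  have h4 : ((∏ ij ∈ Finset.univ.filter (fun ij : Fin 4 × Fin 4 => ij.1 ≤ ij.2),
      (2 * ⌊C₁ * (d ij.1 * d ij.2)⌋₊ + 1) : ℕ) : ℝ) ≤
      (2 * C₁ + 1) ^ (Finset.univ.filter fun ij : Fin 4 × Fin 4 => ij.1 ≤ ij.2).card *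
      ∏ ij ∈ Finset.univ.filter (fun ij : Fin 4 × Fin 4 => ij.1 ≤ ij.2), (1 + d ij.1 * d ij.2) := by
    rw [Nat.cast_prod, ← Finset.prod_const, ← Finset.prod_mul_distrib]
    refine Finset.prod_le_prod (fun _ _ => Nat.cast_nonneg _) fun ij _ => ?_
    have hp := mul_pos (hd ij.1) (hd ij.2)
    have := Nat.floor_le (mul_pos hC₁ hp).le
    push_cast
    nlinarith
  have h5 := (Nat.cast_le (α := ℝ)).2 (h1.trans (Nat.mul_le_mul_left _ h2))
  rw [Nat.cast_mul, Nat.cast_mul, Nat.cast_mul, Nat.cast_ofNat] at h5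
  refine h5.trans ((mul_le_mul h4 (mul_le_mul_of_nonneg_left
    (mul_le_mul_of_nonneg_left h3 (by norm_num)) (Nat.cast_nonneg _)) (by positivity)
    ((Nat.cast_nonneg _).trans h4)).trans_eq ?_)
  ring

/-- `P = 1, Q = 0` in `bd` gives `|g| ≤ M`; sum `lg_count_fixed` over `g = ± n`, `1 ≤ n ≤ ⌊M⌋₊`,
with `cset_sum`. -/
theorem lg_count : ∃ C : ℝ, 0 < C ∧ ∀ (d : Fin 4 → ℝ), (∀ i, 0 < d i) → ∀ (M : ℝ)
    (Z : Finset (ℤ × Matrix (Fin 4) (Fin 4) ℚ)), 0 ≤ M → (∀ z ∈ Z, LGHyp d M z.1 z.2) →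
    (Z.card : ℝ) ≤ C * M ^ 5 *
      ∏ ij ∈ Finset.univ.filter (fun ij : Fin 4 × Fin 4 => ij.1 ≤ ij.2), (1 + d ij.1 * d ij.2) := by
  classical
  obtain ⟨C₁, hC₁, c1⟩ := lg_count_fixed
  obtain ⟨C₂, hC₂, c2⟩ := cset_sum
  refine ⟨2 * C₁ * C₂, by positivity, fun d hd M Z hM hZ => ?_⟩
  have hP := Finset.prod_nonneg (s := Finset.univ.filter fun ij : Fin 4 × Fin 4 => ij.1 ≤ ij.2)
    fun ij _ => (add_pos one_pos (mul_pos (hd ij.1) (hd ij.2))).le
  have c3 := c1 d hd M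
  generalize ∏ ij ∈ Finset.univ.filter (fun ij : Fin 4 × Fin 4 => ij.1 ≤ ij.2),
    (1 + d ij.1 * d ij.2) = Pd at hP c3
  have h1 : ∀ g : ℤ, ((Z.filter fun z => z.1 = g).card : ℝ) ≤
      C₁ * (cset (g.natAbs : ℤ)).ncard * (M / |(g : ℝ)|) ^ (9 / 2 : ℝ) * Pd := fun g => by
    rw [← Finset.card_image_of_injOn (f := Prod.snd) fun a ha b hb h => Prod.ext
      ((Finset.mem_filter.1 ha).2.trans (Finset.mem_filter.1 hb).2.symm) h]
    refine c3 g _ hM fun S hS => ?_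
    obtain ⟨z, hz, rfl⟩ := Finset.mem_image.1 hS
    exact (Finset.mem_filter.1 hz).2 ▸ hZ z (Finset.mem_filter.1 hz).1
  have h2 : Set.MapsTo (fun z : ℤ × Matrix (Fin 4) (Fin 4) ℚ => z.1.natAbs) Z
      (Finset.Icc 1 ⌊M⌋₊) := fun z hz => by
    have a1 := (hZ z hz).ne
    have a2 := (hZ z hz).bd 1 0 (fun i j => by rw [Matrix.one_apply]; split_ifs <;> simp)
      fun i j => by simp
    rw [zero_mul, add_zero, Matrix.det_one, abs_one,
      one_le_div (abs_pos.2 (Int.cast_ne_zero.2 a1)), ← Int.cast_abs, ← Nat.cast_natAbs] at a2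
    exact Finset.mem_coe.2 (Finset.mem_Icc.2 ⟨Int.natAbs_pos.2 a1, Nat.le_floor a2⟩)
  rw [Finset.card_eq_sum_card_fiberwise h2, Nat.cast_sum]
  have h3 : ∀ n ∈ Finset.Icc 1 ⌊M⌋₊, ((Z.filter fun z => z.1.natAbs = n).card : ℝ) ≤
      2 * C₁ * M ^ (9 / 2 : ℝ) * Pd * (((cset n).ncard : ℝ) * (n : ℝ) ^ (-(9 / 2) : ℝ)) := by
    intro n _
    have a1 : (Z.filter fun z => z.1.natAbs = n).card ≤
        (Z.filter fun z => z.1 = (n : ℤ)).card + (Z.filter fun z => z.1 = -(n : ℤ)).card := by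
      refine (Finset.card_le_card fun z hz => ?_).trans (Finset.card_union_le _ _)
      simp only [Finset.mem_union, Finset.mem_filter] at hz ⊢
      rcases Int.natAbs_eq_iff.1 hz.2 with h | h
      · exact Or.inl ⟨hz.1, h⟩
      · exact Or.inr ⟨hz.1, h⟩
    have a2 := h1 n
    have a3 := h1 (-n)
    simp only [Int.natAbs_neg, Int.natAbs_natCast, Int.cast_neg, Int.cast_natCast, abs_neg,
      Nat.abs_cast, Real.div_rpow hM (Nat.cast_nonneg n)] at a2 a3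
    refine ((Nat.cast_le (α := ℝ)).2 a1).trans ?_
    rw [Nat.cast_add, Real.rpow_neg (Nat.cast_nonneg n)]
    refine (add_le_add a2 a3).trans_eq ?_
    ring
  refine (Finset.sum_le_sum h3).trans ?_
  rw [← Finset.mul_sum]
  have h4 : √(⌊M⌋₊ : ℝ) ≤ M ^ (1 / 2 : ℝ) := by
    rw [← Real.sqrt_eq_rpow]
    exact Real.sqrt_le_sqrt (Nat.floor_le hM)
  have h5 : M ^ (9 / 2 : ℝ) * M ^ (1 / 2 : ℝ) = M ^ 5 := by
    rw [← Real.rpow_add' hM (by norm_num), ← Real.rpow_natCast]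
    norm_num
  refine (mul_le_mul_of_nonneg_left ((c2 _).trans (mul_le_mul_of_nonneg_left h4 hC₂.le))
    (by positivity)).trans_eq ?_
  rw [← h5]
  ring

/-- with `t = 2 ^ j`, `dvec j = (t^3, 1/t, t, t)`: the ten factors are at most
`2 t^6, 2 t^2, 2 t^4, 2 t^4, 2, 2, 2, 2 t^2, 2 t^2, 2 t^2`, total `2^10 t^22`, and
`(c T / t^4)^5 t^22 = c^5 T^5 t^2`. -/
theorem lg_count_level (c : ℝ) (hc : 0 ≤ c) : ∃ C : ℝ, 0 < C ∧ ∀ (j : ℕ) (T : ℝ)
    (Z : Finset (ℤ × Matrix (Fin 4) (Fin 4) ℚ)), 0 ≤ T →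
    (∀ z ∈ Z, LGHyp (dvec j) (c * T / 16 ^ j) z.1 z.2) → (Z.card : ℝ) ≤ C * T ^ 5 * 4 ^ j := by
  obtain ⟨C, hC, h⟩ := lg_count
  refine ⟨C * (c ^ 5 + 1) * 2 ^ 10, by positivity, fun j T Z hT hZ => ?_⟩
  have hd : ∀ i, 0 < dvec j i := fun i => by fin_cases i <;> simp [dvec]
  refine (h _ hd _ Z (by positivity) hZ).trans ?_
  have e8 : (8 : ℝ) ^ j = (2 ^ j) ^ 3 := by rw [← pow_mul, mul_comm, pow_mul]; norm_num
  have e16 : (16 : ℝ) ^ j = (2 ^ j) ^ 4 := by rw [← pow_mul, mul_comm, pow_mul]; norm_num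
  have e4 : (4 : ℝ) ^ j = (2 ^ j) ^ 2 := by rw [← pow_mul, mul_comm, pow_mul]; norm_num
  have ht : (1 : ℝ) ≤ 2 ^ j := one_le_pow₀ one_le_two
  have hp : ∏ ij ∈ Finset.univ.filter (fun ij : Fin 4 × Fin 4 => ij.1 ≤ ij.2),
      (1 + dvec j ij.1 * dvec j ij.2) ≤
      ∏ ij ∈ Finset.univ.filter (fun ij : Fin 4 × Fin 4 => ij.1 ≤ ij.2),
        (2 * (2 ^ j) ^ (!![6, 2, 4, 4; 2, 0, 0, 0; 4, 0, 2, 2; 4, 0, 2, 2] ij.1 ij.2 : ℕ) : ℝ) := by
    refine Finset.prod_le_prod (fun ij _ => (add_pos one_pos (mul_pos (hd _) (hd _))).le)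
      fun ij _ => ?_
    rw [two_mul]
    refine add_le_add (one_le_pow₀ ht) ?_
    rw [dvec, e8]
    generalize (2 : ℝ) ^ j = t at ht
    have h0 : t ≠ 0 := by positivity
    have h1 : t⁻¹ * t⁻¹ ≤ 1 := mul_le_one₀ (inv_le_one_of_one_le₀ ht) (by positivity)
      (inv_le_one_of_one_le₀ ht)
    obtain ⟨a, b⟩ := ij
    fin_cases a <;> fin_cases b <;> first
      | simpa using h1
      | (apply le_of_eq; simp; try field_simp)
  refine (mul_le_mul_of_nonneg_left hp (by positivity)).trans ?_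
  have k1 : (Finset.univ.filter fun ij : Fin 4 × Fin 4 => ij.1 ≤ ij.2).card = 10 := by decide
  have k2 : ∑ ij ∈ Finset.univ.filter (fun ij : Fin 4 × Fin 4 => ij.1 ≤ ij.2),
      (!![6, 2, 4, 4; 2, 0, 0, 0; 4, 0, 2, 2; 4, 0, 2, 2] ij.1 ij.2 : ℕ) = 22 := by decide
  rw [Finset.prod_mul_distrib, Finset.prod_const, Finset.prod_pow_eq_pow_sum, k1, k2, e16, e4]
  generalize (2 : ℝ) ^ j = t at ht
  have h2 : c ^ 5 ≤ c ^ 5 + 1 := by linarith
  refine le_of_eq_of_le (b := C * c ^ 5 * 2 ^ 10 * T ^ 5 * t ^ 2) ?_ (by gcongr)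
  field_simp

end Pool.Agent.Lib.MP_775b3b_nt
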