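import Pool.Agent.Lib.MP_775b3b_nt.Defs

/-! Classes of rational symmetric matrices with denominator `g`: primes and coprime products. -/

namespace Pool.Agent.Lib.MP_775b3b_nt

/-- take `P = 1` with row `i`... e.g. `Q = single j i 1`, `P = 1 - single j j 1`: row `j` of
`P + Q * S` is row `i` of `S`, the other rows are those of `1`, the determinant is `S i j`. -/
theorem IntS.entry {g : ℤ} {S : Matrix (Fin 4) (Fin 4) ℚ} (h : IntS g S) (i j : Fin 4) :
    ∃ n : ℤ, (g : ℚ) * S i j = n := by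
  obtain ⟨n, hn⟩ := h (Matrix.of fun r c => if r = j then 0 else if r = c then 1 else 0)
    (Matrix.of fun r c => if r = j then (if c = i then 1 else 0) else 0)
  refine ⟨n, ?_⟩
  rw [← hn]
  congr 1
  have h1 : (Matrix.of fun r c : Fin 4 => if r = j then (0 : ℤ) else if r = c then 1 else 0).map
      (Int.cast : ℤ → ℚ) + (Matrix.of fun r c : Fin 4 =>
        if r = j then (if c = i then (1 : ℤ) else 0) else 0).map (Int.cast : ℤ → ℚ) * S =
      Matrix.updateRow 1 j (S i) := by
    ext r c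
    by_cases hr : r = j
    · simp [Matrix.mul_apply, hr]
    · simp [Matrix.mul_apply, hr, Matrix.updateRow_apply, Matrix.one_apply]
  rw [h1, ← Matrix.cramer_transpose_apply, Matrix.transpose_one, Matrix.cramer_one]
  rfl

/-- `P + Q * (S + Z) = (P + Q * Z) + Q * S` -/
theorem IntS.add_int {g : ℤ} {S : Matrix (Fin 4) (Fin 4) ℚ} (h : IntS g S)
    (Z : Matrix (Fin 4) (Fin 4) ℤ) : IntS g (S + Z.map (Int.cast : ℤ → ℚ)) := by
  intro P Q
  obtain ⟨n, hn⟩ := h (P + Q * Z) Q
  refine ⟨n, ?_⟩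
  rw [← hn]
  congr 2
  ext r c
  simp [Matrix.mul_apply, mul_add]
  ring

theorem IntS.natAbs {g : ℤ} {S : Matrix (Fin 4) (Fin 4) ℚ} (h : IntS g S) :
    IntS (g.natAbs : ℤ) S := by
  intro P Q
  obtain ⟨n, hn⟩ := h P Q
  rcases Int.natAbs_eq g with hg | hg
  · exact ⟨n, by rw [← hg, hn]⟩
  · refine ⟨-n, ?_⟩
    have h1 : (g.natAbs : ℤ) = -g := by omega
    rw [h1]
    push_cast
    rw [← hn]
    ring

theorem IntS.fract_mem {g : ℤ} {S : Matrix (Fin 4) (Fin 4) ℚ} (h : IntS g S) (hs : S.IsSymm) :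
    S.map Int.fract ∈ cset g := by
  refine ⟨hs.map _, fun i j => ⟨Int.fract_nonneg _, Int.fract_lt_one _⟩, ?_⟩
  have h1 : S.map Int.fract = S + (S.map fun q => -⌊q⌋).map (Int.cast : ℤ → ℚ) := by
    ext i j
    simp [Int.fract, sub_eq_add_neg]
  rw [h1]
  exact h.add_int _

/-- entries are `n / g` with `0 ≤ n < |g|` -/
theorem cset_finite {g : ℤ} (hg : g ≠ 0) : (cset g).Finite := by
  have hT : ((fun n : ℤ => (n : ℚ) / g) '' Set.Icc (-|g|) |g|).Finite :=
    (Set.finite_Icc _ _).image _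
  refine (Set.Finite.pi' fun _ : Fin 4 => Set.Finite.pi' fun _ : Fin 4 => hT).subset ?_
  rintro S ⟨-, hb, hS⟩ i j
  obtain ⟨n, hn⟩ := hS.entry i j
  have hg' : (g : ℚ) ≠ 0 := by exact_mod_cast hg
  refine ⟨n, ?_, ?_⟩
  · rw [Set.mem_Icc, ← abs_le]
    have h1 : |(n : ℚ)| ≤ |(g : ℚ)| := by
      rw [← hn, abs_mul, abs_of_nonneg (hb i j).1]
      exact mul_le_of_le_one_right (abs_nonneg _) (hb i j).2.le
    exact_mod_cast h1
  · simp only
    rw [← hn]
    field_simp

theorem lgprime_det (u v : Fin 4 → ℚ) {k l : Fin 4} (hkl : k ≠ l) :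
    (Matrix.updateRow (Matrix.updateRow (1 : Matrix (Fin 4) (Fin 4) ℚ) k u) l v).det =
      u k * v l - u l * v k := by
  fin_cases k <;> fin_cases l <;>
    first
    | exact absurd rfl hkl
    | (simp [Matrix.det_succ_row_zero, Fin.sum_univ_succ, Matrix.updateRow_apply,
        Matrix.one_apply, Fin.succAbove]
       try ring)

theorem lgprime_minor {g : ℤ} {S : Matrix (Fin 4) (Fin 4) ℚ} (h : IntS g S) (i j : Fin 4)
    {k l : Fin 4} (hkl : k ≠ l) : ∃ n : ℤ, (g : ℚ) * (S i k * S j l - S i l * S j k) = n := by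
  obtain ⟨n, hn⟩ := h
    (Matrix.of fun r c => if r = l then 0 else if r = k then 0 else if r = c then 1 else 0)
    (Matrix.of fun r c => if r = l then (if c = j then 1 else 0) else
      if r = k then (if c = i then 1 else 0) else 0)
  refine ⟨n, ?_⟩
  rw [← hn, ← lgprime_det (S i) (S j) hkl]
  congr 2
  ext r c
  by_cases hr : r = l
  · simp [Matrix.mul_apply, hr]
  · by_cases hr' : r = k
    · simp [Matrix.mul_apply, hr', hkl, Matrix.updateRow_apply]
    · simp [Matrix.mul_apply, hr, hr', Matrix.updateRow_apply, Matrix.one_apply]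

/-- the symmetric matrix of rank at most one with first nonzero row `v` -/
def lgprimeL {F : Type} [Field F] [DecidableEq F] (v : Fin 4 → F) (j k : Fin 4) : F :=
  v j * v k / (if v 0 = 0 then (if v 1 = 0 then (if v 2 = 0 then v 3 else v 2) else v 1) else v 0)

theorem lgprime_rank {F : Type} [Field F] [DecidableEq F] (B : Fin 4 → Fin 4 → F)
    (hs : ∀ j k, B k j = B j k) (hm : ∀ i j k l, B i k * B j l = B i l * B j k) :
    ∃ v : Fin 4 → F, ∀ j k, B j k = lgprimeL v j k := by
  have hz : ∀ i j, B j j = 0 → B i j = 0 := fun i j h => by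
    have h1 := hm i j i j
    rw [h, mul_zero, hs i j] at h1
    exact mul_self_eq_zero.1 h1.symm
  have hq : ∀ i, B i i ≠ 0 → ∀ j k, B j k = B i j * B i k / B i i := fun i hi j k => by
    rw [eq_div_iff hi, mul_comm (B j k), hm i j i k, hs i j, mul_comm]
  by_cases h0 : B 0 0 = 0
  · by_cases h1 : B 1 1 = 0
    · by_cases h2 : B 2 2 = 0
      · by_cases h3 : B 3 3 = 0
        · refine ⟨0, fun j k => ?_⟩
          have h4 : B k k = 0 := by fin_cases k <;> assumption
          simp [lgprimeL, hz j k h4]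
        · exact ⟨B 3, fun j k => by
            simp only [lgprimeL, hz 3 0 h0, hz 3 1 h1, hz 3 2 h2, if_true]
            exact hq 3 h3 j k⟩
      · exact ⟨B 2, fun j k => by
          simp only [lgprimeL, hz 2 0 h0, hz 2 1 h1, if_true, if_neg h2]
          exact hq 2 h2 j k⟩
    · exact ⟨B 1, fun j k => by
        simp only [lgprimeL, hz 1 0 h0, if_true, if_neg h1]
        exact hq 1 h1 j k⟩
  · exact ⟨B 0, fun j k => by
      simp only [lgprimeL, if_neg h0]
      exact hq 0 h0 j k⟩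

/-- `B = p S` is an integer symmetric matrix with entries in `[0, p)` and all `2 × 2` minors
divisible by `p` (`p * minor S = minor B / p` is an integer; choose `P, Q` so that rows `k, l` of
`P + Q S` are rows `i, j` of `S`, the other two rows are unit vectors).  Over `ZMod p`:
`B i j * B k l = B i l * B k j`.  Send `B` to its row `i`, `i` the least index with `B i i ≠ 0`
(to `0` if there is none; then `B = 0` since `B i j ^ 2 = B i i * B j j`).  In that row the entries
before `i` vanish, so `i` is the first nonzero position, and `B j k = B i j * B i k / B i i`: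
the map to `Fin 4 → ZMod p` is injective. -/
theorem cset_prime {p : ℕ} (hp : p.Prime) : (cset p).ncard ≤ p ^ 4 := by
  have : Fact p.Prime := ⟨hp⟩
  have hp0 : (0 : ℚ) < p := by exact_mod_cast hp.pos
  have hfl : ∀ S ∈ cset p, ∀ i j, ((⌊(p : ℚ) * S i j⌋ : ℤ) : ℚ) = p * S i j := by
    intro S hS i j
    obtain ⟨n, hn⟩ := hS.2.2.entry i j
    rw [Int.cast_natCast] at hn
    rw [hn, Int.floor_intCast]
  have hex : ∀ S ∈ cset p, ∃ v : Fin 4 → ZMod p, ∀ j k,
      ((⌊(p : ℚ) * S j k⌋ : ℤ) : ZMod p) = lgprimeL v j k := by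
    intro S hS
    refine lgprime_rank (fun j k => ((⌊(p : ℚ) * S j k⌋ : ℤ) : ZMod p)) (fun j k => ?_) ?_
    · rw [hS.1.apply j k]
    · intro i j k l
      by_cases hkl : k = l
      · rw [hkl]
      obtain ⟨n, hn⟩ := lgprime_minor hS.2.2 i j hkl
      rw [Int.cast_natCast] at hn
      have h1 : ⌊(p : ℚ) * S i k⌋ * ⌊(p : ℚ) * S j l⌋ - ⌊(p : ℚ) * S i l⌋ * ⌊(p : ℚ) * S j k⌋ =
          p * n := by
        apply Int.cast_injective (α := ℚ)
        push_cast
        rw [hfl S hS, hfl S hS, hfl S hS, hfl S hS, ← hn]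
        ring
      have h2 := congrArg (Int.cast : ℤ → ZMod p) h1
      push_cast at h2
      rw [ZMod.natCast_self, zero_mul, sub_eq_zero] at h2
      exact h2
  choose! f hf using hex
  have hrange : ∀ S ∈ cset p, ∀ i j, 0 ≤ ⌊(p : ℚ) * S i j⌋ ∧ ⌊(p : ℚ) * S i j⌋ < p := by
    intro S hS i j
    refine ⟨Int.floor_nonneg.2 (mul_nonneg hp0.le (hS.2.1 i j).1), Int.floor_lt.2 ?_⟩
    rw [Int.cast_natCast]
    exact mul_lt_of_lt_one_right hp0 (hS.2.1 i j).2
  have hinj : Set.InjOn f (cset p) := by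
    intro S hS T hT hST
    ext i j
    have h1 : ((⌊(p : ℚ) * S i j⌋ : ℤ) : ZMod p) = ((⌊(p : ℚ) * T i j⌋ : ℤ) : ZMod p) := by
      rw [hf S hS, hf T hT, hST]
    rw [ZMod.intCast_eq_intCast_iff] at h1
    have h2 : ⌊(p : ℚ) * S i j⌋ = ⌊(p : ℚ) * T i j⌋ := by
      unfold Int.ModEq at h1
      rwa [Int.emod_eq_of_lt (hrange S hS i j).1 (hrange S hS i j).2,
        Int.emod_eq_of_lt (hrange T hT i j).1 (hrange T hT i j).2] at h1
    have h3 := hfl S hS i j
    rw [h2, hfl T hT i j] at h3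
    exact (mul_left_cancel₀ hp0.ne' h3).symm
  have h4 := Set.ncard_le_ncard_of_injOn f (t := Set.univ) (fun _ _ => Set.mem_univ _) hinj
    Set.finite_univ
  rw [Set.ncard_univ, Nat.card_fun, Nat.card_zmod, Nat.card_eq_fintype_card,
    Fintype.card_fin] at h4
  exact h4

theorem lgprime_scale {a b : ℤ} (hab : IsCoprime a b) {S : Matrix (Fin 4) (Fin 4) ℚ}
    (h : IntS (a * b) S) (y : ℤ) : IntS a (((y * b : ℤ) : ℚ) • S) := by
  intro P Q
  obtain ⟨n, hn⟩ := h P ((y * b) • Q)
  choose N hN using h.entry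
  have h1 : ((y * b) • Q).map (Int.cast : ℤ → ℚ) * S =
      Q.map (Int.cast : ℤ → ℚ) * (((y * b : ℤ) : ℚ) • S) := by
    ext r c
    simp only [Matrix.mul_apply, Matrix.map_apply, Matrix.smul_apply, smul_eq_mul]
    refine Finset.sum_congr rfl fun t _ => ?_
    push_cast
    ring
  rw [h1] at hn
  have h2 : (a : ℚ) • (P.map (Int.cast : ℤ → ℚ) +
      Q.map (Int.cast : ℤ → ℚ) * (((y * b : ℤ) : ℚ) • S)) =
      (a • P + Q * (y • Matrix.of N)).map (Int.cast : ℤ → ℚ) := by
    ext r c
    simp only [Matrix.mul_apply, Matrix.map_apply, Matrix.smul_apply, smul_eq_mul,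
      Matrix.add_apply, Matrix.of_apply]
    push_cast
    rw [mul_add, Finset.mul_sum]
    congr 1
    refine Finset.sum_congr rfl fun t _ => ?_
    rw [← hN t c]
    push_cast
    ring
  have h3 := congrArg Matrix.det h2
  rw [Matrix.det_smul, Fintype.card_fin, ← Int.cast_det] at h3
  obtain ⟨u, v, huv⟩ := (hab.pow_left (m := 3))
  have huv' : (u : ℚ) * a ^ 3 + v * b = 1 := by exact_mod_cast huv
  refine ⟨u * (a • P + Q * (y • Matrix.of N)).det + v * n, ?_⟩
  rw [Int.cast_add, Int.cast_mul u, Int.cast_mul v, ← h3, ← hn, Int.cast_mul a b]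
  generalize (P.map (Int.cast : ℤ → ℚ) +
    Q.map (Int.cast : ℤ → ℚ) * (((y * b : ℤ) : ℚ) • S)).det = D
  linear_combination (-(a : ℚ) * D) * huv'

/-- `1 = x a + y b`; `S ↦ (fract (y b S), fract (x a S))` is injective on `cset (a b)` (the sum is
`S` modulo integers).  `S₁ = y b S` has `IntS a S₁`: `a b * det (P + Q S₁)` is an integer (replace
`Q` by `y b Q`), `a S₁` is an integer matrix so `a ^ 4 * det (P + Q S₁)` is an integer, and
`gcd (a b, a ^ 4) = a` (Bezout for `b` and `a ^ 3`). -/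
theorem cset_mul {a b : ℕ} (ha : a ≠ 0) (hb : b ≠ 0) (hab : a.Coprime b) :
    (cset ((a * b : ℕ) : ℤ)).ncard ≤ (cset a).ncard * (cset b).ncard := by
  have hco : IsCoprime (a : ℤ) (b : ℤ) := Nat.isCoprime_iff_coprime.2 hab
  obtain ⟨x, y, hxy⟩ := id hco
  have hxy' : (x : ℚ) * a + y * b = 1 := by exact_mod_cast hxy
  rw [← Set.ncard_prod]
  refine Set.ncard_le_ncard_of_injOn
    (fun S : Matrix (Fin 4) (Fin 4) ℚ => (((((y * b : ℤ) : ℚ)) • S).map Int.fract,
      ((((x * a : ℤ) : ℚ)) • S).map Int.fract)) ?_ ?_ ?_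
  · rintro S ⟨hs, -, hS⟩
    rw [Nat.cast_mul] at hS
    refine ⟨(lgprime_scale hco hS y).fract_mem (hs.smul _), ?_⟩
    rw [mul_comm] at hS
    exact (lgprime_scale hco.symm hS x).fract_mem (hs.smul _)
  · intro S hS T hT hST
    ext i j
    have h1 := congrFun (congrFun (congrArg Prod.fst hST) i) j
    have h2 := congrFun (congrFun (congrArg Prod.snd hST) i) j
    simp only [Matrix.map_apply, Matrix.smul_apply, smul_eq_mul] at h1 h2
    obtain ⟨z1, hz1⟩ := Int.fract_eq_fract.1 h1
    obtain ⟨z2, hz2⟩ := Int.fract_eq_fract.1 h2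
    rw [← Int.fract_eq_self.2 (hS.2.1 i j), ← Int.fract_eq_self.2 (hT.2.1 i j), Int.fract_eq_fract]
    refine ⟨z1 + z2, ?_⟩
    push_cast at hz1 hz2 ⊢
    linear_combination hz1 + hz2 - (S i j - T i j) * hxy'
  · exact (cset_finite (by exact_mod_cast ha)).prod (cset_finite (by exact_mod_cast hb))

/-- induction on the prime factors (`Nat.recOnPosPrimePosCoprime` or
`induction_on_primes`); `cset 1 = {0}` -/
theorem cset_squarefree {s : ℕ} (hs : Squarefree s) : (cset s).ncard ≤ s ^ 4 := by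
  induction s using Nat.recOnPosPrimePosCoprime with
  | prime_pow p n hp hn =>
    obtain ⟨-, rfl⟩ := (Nat.squarefree_pow_iff hp.ne_one hn.ne').1 hs
    rw [pow_one]
    exact cset_prime hp
  | zero => exact absurd hs not_squarefree_zero
  | one =>
    have h1 : cset ((1 : ℕ) : ℤ) ⊆ {0} := by
      rintro S ⟨-, hb, hS⟩
      rw [Set.mem_singleton_iff]
      ext i j
      obtain ⟨n, hn⟩ := hS.entry i j
      rw [Nat.cast_one, Int.cast_one, one_mul] at hn
      have h2 := hb i j
      rw [hn] at h2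
      have h3 : (0 : ℤ) ≤ n := by exact_mod_cast h2.1
      have h4 : n < 1 := by exact_mod_cast h2.2
      have h5 : n = 0 := by omega
      rw [hn, h5]
      simp
    simpa using Set.ncard_le_ncard h1 (Set.finite_singleton _)
  | coprime a b ha hb hab iha ihb =>
    rw [mul_pow]
    exact (cset_mul (by omega) (by omega) hab).trans
      (Nat.mul_le_mul (iha hs.of_mul_left) (ihb hs.of_mul_right))

end Pool.Agent.Lib.MP_775b3b_nt
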