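import Pool.Agent.Lib.MP_775b3b_nt.LGPrime
import Pool.Agent.Lib.MP_775b3b_nt.CntQ

/-! The weighted sum of the class counts. -/

namespace Pool.Agent.Lib.MP_775b3b_nt

open Finset

theorem lgsum_sub (m : ℕ) : cset m ⊆ Cnt.SS 4 m := fun S hS => ⟨hS.1, hS.2.1, fun P Q hP hQ => by
  choose P' hP' using fun i j => Subring.mem_bot.1 (hP i j)
  choose Q' hQ' using fun i j => Subring.mem_bot.1 (hQ i j)
  obtain ⟨n, hn⟩ := hS.2.2 (Matrix.of P') (Matrix.of Q')
  rw [show (Matrix.of P').map (Int.cast : ℤ → ℚ) = P from Matrix.ext hP',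
    show (Matrix.of Q').map (Int.cast : ℤ → ℚ) = Q from Matrix.ext hQ', Int.cast_natCast] at hn
  exact hn ▸ intCast_mem _ n⟩

theorem lgsum_prod : ∃ c : ℝ, 0 ≤ c ∧ ∀ m : ℕ, m ≠ 0 →
    ((Cnt.SS 4 m).ncard : ℝ) ≤ (∏ p ∈ m.primeFactors, (1 + c / p)) * m ^ 4 := by
  obtain ⟨c, hc, h⟩ := Cnt.ncard_SS_pow 4
  refine ⟨c, hc, fun m => ?_⟩
  induction m using Nat.recOnPosPrimePosCoprime with
  | prime_pow p k hp hk =>
    intro _
    simpa [Nat.primeFactors_prime_pow hk.ne' hp] using h p k hp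
  | zero => simp
  | one =>
    intro _
    have : Cnt.SS 4 1 ⊆ {0} := fun S hS => Matrix.ext fun i j =>
      Cnt.eq_of_int (hS.2.1 i j) ⟨le_rfl, one_pos⟩ (by simpa using hS.2.2.entry i j)
    simpa using Set.ncard_le_ncard this
  | coprime a b ha hb hab iha ihb =>
    intro _
    have ha' : a ≠ 0 := by omega
    have hb' : b ≠ 0 := by omega
    have := (Nat.cast_le (α := ℝ)).2 (Cnt.ncard_SS_mul (n := 4) ha' hb' hab)
    rw [hab.primeFactors_mul, prod_union hab.disjoint_primeFactors]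
    push_cast at this ⊢
    refine this.trans ((mul_le_mul (iha ha') (ihb hb') (by positivity) (by positivity)).trans_eq ?_)
    ring

theorem lgsum_div {c : ℝ} (hc : 0 ≤ c) {m : ℕ} (hm : m ≠ 0) :
    ∏ p ∈ m.primeFactors, (1 + c / p) ≤ (1 + c) ^ ⌈c ^ 2⌉₊ * ∑ d ∈ m.divisors, (√d)⁻¹ := by
  classical
  have h1 : ∏ p ∈ m.primeFactors, (1 + c / p) ≤ ∏ p ∈ m.primeFactors,
      ((if p ∈ range ⌈c ^ 2⌉₊ then 1 + c else 1) * (1 + (√p)⁻¹)) := by
    refine prod_le_prod (fun p _ => by positivity) fun p hp => ?_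
    have h1 : (1 : ℝ) ≤ p := by exact_mod_cast (Nat.prime_of_mem_primeFactors hp).one_le
    have h2 : 0 < √(p : ℝ) := Real.sqrt_pos.2 (by linarith)
    split_ifs with h
    · have := div_le_self hc h1
      nlinarith [inv_pos.2 h2]
    · rw [mem_range, not_lt, Nat.ceil_le] at h
      rw [one_mul, add_le_add_iff_left, div_le_iff₀ (by linarith), ← div_eq_inv_mul,
        Real.div_sqrt]
      exact Real.le_sqrt_of_sq_le h
  have h2 : ∏ p ∈ m.primeFactors, (if p ∈ range ⌈c ^ 2⌉₊ then 1 + c else 1) ≤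
      (1 + c) ^ ⌈c ^ 2⌉₊ := by
    rw [prod_ite_mem, prod_const]
    exact pow_le_pow_right₀ (by linarith) ((card_le_card inter_subset_right).trans (by simp))
  have h3 : ∏ p ∈ m.primeFactors, (1 + (√(p : ℝ))⁻¹) ≤ ∑ d ∈ m.divisors, (√d)⁻¹ := by
    have hi : Set.InjOn (fun s : Finset ℕ => ∏ p ∈ s, p) m.primeFactors.powerset := by
      intro s hs t ht e
      have k : ∀ s ∈ m.primeFactors.powerset, (∏ p ∈ s, p).primeFactors = s := fun s hs =>
        Nat.primeFactors_prod fun p hp => Nat.prime_of_mem_primeFactors (mem_powerset.1 hs hp)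
      rw [← k s hs, ← k t ht]
      exact congrArg _ e
    rw [prod_one_add]
    calc _ = ∑ d ∈ m.primeFactors.powerset.image (fun s : Finset ℕ => ∏ p ∈ s, p),
          (√(d : ℝ))⁻¹ := by
          rw [sum_image hi]
          refine sum_congr rfl fun s _ => ?_
          rw [Nat.cast_prod, Real.sqrt_prod _ fun _ _ => by positivity, prod_inv_distrib]
      _ ≤ _ := by
          refine sum_le_sum_of_subset_of_nonneg (fun d hd => ?_) fun _ _ _ => by positivity
          obtain ⟨s, hs, rfl⟩ := mem_image.1 hd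
          exact Nat.mem_divisors.2 ⟨(prod_dvd_prod_of_subset _ _ _ (mem_powerset.1 hs)).trans
            (Nat.prod_primeFactors_dvd m), hm⟩
  rw [prod_mul_distrib] at h1
  exact h1.trans (mul_le_mul h2 h3 (by positivity) (by positivity))

theorem lgsum_sqrt (x : ℕ) : ∑ s ∈ Ioc 0 x, (√(s : ℝ))⁻¹ ≤ 2 * √x := by
  induction x with
  | zero => simp
  | succ x ih =>
    rw [sum_Ioc_succ_top (Nat.zero_le x)]
    push_cast
    have h0 : 0 < √((x : ℝ) + 1) := by positivity
    have h1 := Real.mul_self_sqrt (x := (x : ℝ) + 1) (by positivity)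
    have h2 := Real.mul_self_sqrt (x := (x : ℝ)) (by positivity)
    have : (√((x : ℝ) + 1))⁻¹ ≤ 2 * √((x : ℝ) + 1) - 2 * √x := by
      rw [inv_le_iff_one_le_mul₀ h0]
      nlinarith [sq_nonneg (√((x : ℝ) + 1) - √x)]
    linarith

theorem cset_sum : ∃ C : ℝ, 0 < C ∧ ∀ G : ℕ,
    ∑ g ∈ Finset.Icc 1 G, ((cset g).ncard : ℝ) * (g : ℝ) ^ (-(9 / 2) : ℝ) ≤ C * √(G : ℝ) := by
  obtain ⟨c, hc, h⟩ := lgsum_prod
  have hs : Summable fun d : ℕ => ((d : ℝ) ^ (3 / 2 : ℝ))⁻¹ :=
    Real.summable_nat_rpow_inv.2 (by norm_num)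
  have ht : 0 ≤ ∑' d : ℕ, ((d : ℝ) ^ (3 / 2 : ℝ))⁻¹ := tsum_nonneg fun _ => by positivity
  refine ⟨(1 + c) ^ ⌈c ^ 2⌉₊ * (2 * ∑' d : ℕ, ((d : ℝ) ^ (3 / 2 : ℝ))⁻¹ + 1), by positivity,
    fun G => ?_⟩
  let f : ArithmeticFunction ℝ := ⟨fun d => (d : ℝ)⁻¹, by simp⟩
  let g : ArithmeticFunction ℝ := ⟨fun d => (√d)⁻¹, by simp⟩
  calc _ ≤ ∑ n ∈ Ioc 0 G, (1 + c) ^ ⌈c ^ 2⌉₊ * (f * g) n := by
        refine sum_le_sum fun n hn => ?_
        have hn0 : n ≠ 0 := (mem_Ioc.1 hn).1.ne'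
        have hn' : (0 : ℝ) < n := by positivity
        have e1 : (n : ℝ) ^ 4 * (n : ℝ) ^ (-(9 / 2) : ℝ) = (√n)⁻¹ := by
          rw [← Real.rpow_natCast, ← Real.rpow_add hn', Real.sqrt_eq_rpow, ← Real.rpow_neg hn'.le]
          norm_num
        have e2 : (f * g) n = (∑ d ∈ n.divisors, (√d)⁻¹) * (√n)⁻¹ := by
          rw [ArithmeticFunction.mul_apply, sum_mul,
            ← Nat.sum_divisorsAntidiagonal (fun d _ => (√d)⁻¹ * (√n)⁻¹)]
          refine sum_congr rfl fun x hx => ?_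
          rw [← (Nat.mem_divisorsAntidiagonal.1 hx).1, Nat.cast_mul,
            Real.sqrt_mul (Nat.cast_nonneg _), mul_inv, ← mul_assoc, ← mul_inv,
            Real.mul_self_sqrt (Nat.cast_nonneg _)]
          rfl
        have := ((Nat.cast_le (α := ℝ)).2 (Set.ncard_le_ncard (lgsum_sub n)
          (Cnt.SS_finite 4 hn0))).trans ((h n hn0).trans
            (mul_le_mul_of_nonneg_right (lgsum_div hc hn0) (by positivity)))
        rw [e2, ← e1]
        refine (mul_le_mul_of_nonneg_right this (by positivity)).trans_eq ?_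
        ring
    _ ≤ _ := by
        rw [← mul_sum, ArithmeticFunction.sum_Ioc_mul_eq_sum_sum, mul_assoc]
        refine mul_le_mul_of_nonneg_left ?_ (by positivity)
        calc _ ≤ ∑ d ∈ Ioc 0 G, 2 * √G * ((d : ℝ) ^ (3 / 2 : ℝ))⁻¹ := by
              refine sum_le_sum fun d hd => ?_
              have hd' : (0 : ℝ) < d := by exact_mod_cast (mem_Ioc.1 hd).1
              have e : (d : ℝ) ^ (3 / 2 : ℝ) = d * √d := by
                rw [Real.sqrt_eq_rpow, ← Real.rpow_one_add' hd'.le (by norm_num)]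
                norm_num
              have := (lgsum_sqrt (G / d)).trans (mul_le_mul_of_nonneg_left
                (Real.sqrt_le_sqrt Nat.cast_div_le) zero_le_two)
              refine (mul_le_mul_of_nonneg_left this (inv_pos.2 hd').le).trans_eq ?_
              rw [e, Real.sqrt_div (Nat.cast_nonneg _)]
              field_simp
          _ ≤ _ := by
              rw [← mul_sum]
              have := hs.sum_le_tsum (Ioc 0 G) fun _ _ => by positivity
              nlinarith [Real.sqrt_nonneg (G : ℝ)]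

end Pool.Agent.Lib.MP_775b3b_nt
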