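import Pool.Agent.Lib.MP_775b3b_nt.YD5

/-! Subgroups of the symmetric group on four letters. -/

namespace Pool.Agent.Lib.MP_775b3b_nt.LowDeg

open Equiv

/-- a double transposition -/
def zz : Perm (Fin 4) := swap 0 1 * swap 2 3

theorem d1 : ∀ g : Perm (Fin 4), g ^ 4 = 1 ∨ (g ≠ 1 ∧ g ^ 3 = 1) := by decide +kernel

theorem d2 : ∀ g : Perm (Fin 4), g * zz = zz * g → g ^ 4 = 1 := by decide +kernel

theorem d3 : ∀ g c : Perm (Fin 4), c ≠ 1 → c ^ 3 = 1 →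
    ∃ k : Fin 3, (c ^ (k : ℕ))⁻¹ * g * zz = zz * ((c ^ (k : ℕ))⁻¹ * g) := by decide +kernel

theorem d4 : ∀ g : Perm (Fin 4), g * swap 0 1 * g⁻¹ * zz = zz * (g * swap 0 1 * g⁻¹) →
    g * zz = zz * g := by decide +kernel

theorem d5 : ∀ p c : Perm (Fin 4), c ≠ 1 → c ^ 3 = 1 → p * zz = zz * p →
    (∀ g : Perm (Fin 4), g * p * g⁻¹ * zz = zz * (g * p * g⁻¹)) ∨ ∃ σ : Perm (Fin 4),
      σ * p * σ⁻¹ = swap 0 1 ∨ σ * (p * (c * p ^ 2 * c⁻¹)) * σ⁻¹ = swap 0 1 := by decide +kernel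

theorem d6 : ∀ p : Perm (Fin 4), p * zz = zz * p → ∀ i : Fin 4,
    (swap 0 1 (p i) = p i ∧ swap 0 1 (p (zz i)) = p (zz i)) ∨
      (swap 0 1 (p i) = p (zz i) ∧ swap 0 1 (p (zz i)) = p i) := by decide +kernel

theorem d7 : ∀ c : Perm (Fin 4), c ≠ 1 → c ^ 3 = 1 → ∀ i j : Fin 4, i ≠ j →
    ∃ (k : Fin 3) (l : Fin 4), (c ^ (k : ℕ)) l = i ∧ (c ^ (k : ℕ)) (zz l) = j := by decide +kernel

variable {G : Type} [Group G] [Fintype G]

theorem syl (ψ : G →* Perm (Fin 4)) (hψ : Function.Injective ψ) {c : G} (h1 : ψ c ≠ 1)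
    (h3 : ψ c ^ 3 = 1) : IsPGroup 2 ((Subgroup.centralizer {zz}).comap ψ) ∧
      ((Subgroup.centralizer {zz}).comap ψ).index ∣ 3 := by
  have : Fact (Nat.Prime 2) := ⟨Nat.prime_two⟩
  have : Fact (Nat.Prime 3) := ⟨Nat.prime_three⟩
  have h2 : IsPGroup 2 ((Subgroup.centralizer {zz}).comap ψ) := fun g =>
    ⟨2, Subtype.ext (hψ (by
      have := d2 _ (Subgroup.mem_centralizer_singleton_iff.1 g.2)
      simpa using this))⟩
  refine ⟨h2, ?_⟩
  have h4 : ((Subgroup.centralizer {zz}).comap ψ).index ≤ 3 := by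
    have h5 : Function.Surjective fun k : Fin 3 =>
        ((c ^ (k : ℕ) : G) : G ⧸ (Subgroup.centralizer {zz}).comap ψ) := fun x => by
      obtain ⟨g, rfl⟩ := QuotientGroup.mk_surjective x
      obtain ⟨k, hk⟩ := d3 (ψ g) (ψ c) h1 h3
      exact ⟨k, QuotientGroup.eq.2 (Subgroup.mem_centralizer_singleton_iff.2 (by simpa using hk))⟩
    simpa [Subgroup.index] using Nat.card_le_card_of_surjective _ h5
  have h6 : orderOf c = 3 := orderOf_eq_prime (hψ (by simpa using h3)) fun h => h1 (by simp [h])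
  obtain ⟨j, hj⟩ := IsPGroup.iff_card.1 h2
  have h7 := orderOf_dvd_natCard c
  rw [h6, ← ((Subgroup.centralizer {zz}).comap ψ).index_mul_card, hj] at h7
  have h8 := (Nat.Coprime.pow_right j (by norm_num : Nat.Coprime 3 2)).dvd_of_dvd_mul_right h7
  have h9 := ((Subgroup.centralizer {zz}).comap ψ).index_ne_zero_of_finite
  rw [le_antisymm h4 (Nat.le_of_dvd (Nat.pos_of_ne_zero h9) h8)]

theorem ann_one {M : Type} [AddCommGroup M] {act : G → M →+ M} {P : Subgroup G} {t : G}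
    (h : Ann act P t 1) :
    ∃ r : ℤ, r ≠ 0 ∧ ∀ R : M, (∀ p ∈ P, act t (act p R) = act p R) → r • R = 0 := by
  classical
  obtain ⟨r, hr, h⟩ := h (fun g => if g = 1 then 1 else 0) (by simp)
  exact ⟨r, hr, fun R hR => h R fun p hp => by simpa using hR p hp⟩

theorem tors {M : Type} [AddCommGroup M] {act : G → M →+ M} (ψ : G →* Perm (Fin 4)) {t c : G}
    (ht : ψ t = swap 0 1) (h1 : ψ c ≠ 1) (h3 : ψ c ^ 3 = 1)
    (h : Ann act ((Subgroup.centralizer {zz}).comap ψ) t 1) : ∃ r : ℤ, r ≠ 0 ∧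
      ∀ y : Fin 4 → M, (∀ g i, act g (y i) = y (ψ g i)) → ∀ i, r • y i = 0 := by
  obtain ⟨r, hr, h⟩ := ann_one h
  refine ⟨2 * r, by omega, fun y hy i => ?_⟩
  have a1 : ∀ l, r • (y l + y (zz l)) = 0 := fun l => h _ fun p hp => by
    simp only [map_add, hy, ht]
    rcases d6 _ (Subgroup.mem_centralizer_singleton_iff.1 hp) l with ⟨b1, b2⟩ | ⟨b1, b2⟩
    · rw [b1, b2]
    · rw [b1, b2, add_comm]
  have a2 : ∀ i j, i ≠ j → r • y i + r • y j = 0 := fun i j hij => by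
    obtain ⟨k, l, b1, b2⟩ := d7 _ h1 h3 i j hij
    have b3 := congrArg (act (c ^ (k : ℕ))) (a1 l)
    rwa [map_zsmul, map_add, hy, hy, map_pow, b1, b2, map_zero, smul_add] at b3
  have a3 : ∀ i : Fin 4, i ≠ i + 1 ∧ i ≠ i + 2 ∧ i + 1 ≠ i + 2 := by decide
  have a4 := a2 _ _ (a3 i).1
  have a5 := a2 _ _ (a3 i).2.1
  have a6 := a2 _ _ (a3 i).2.2
  rw [mul_smul, two_smul]
  linear_combination (norm := abel1) a4 + a5 - a6

theorem core (φ : G →* Perm (Fin 4)) (hφ : Function.Injective φ) :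
    ∃ (P : Subgroup G) (t : G), IsPGroup 2 P ∧ P.index ∣ 3 ∧ t ∈ P ∧ t * t = 1 ∧
      (∀ g, g * t * g⁻¹ ∈ P → ∀ p ∈ P, g * p * g⁻¹ ∈ P) ∧
      ∀ (M : Type) [AddCommGroup M] (act : G → M →+ M), Ann act P t 1 → ∃ r : ℤ, r ≠ 0 ∧
        ∀ y : Fin 4 → M, (∀ g i, act g (y i) = y (φ g i)) → ∀ i, r • y i = 0 := by
  have n1 : ∀ P : Subgroup G, ∀ (M : Type) [AddCommGroup M] (act : G → M →+ M), Ann act P 1 1 →
      ∃ r : ℤ, r ≠ 0 ∧ ∀ y : Fin 4 → M, (∀ g i, act g (y i) = y (φ g i)) → ∀ i, r • y i = 0 :=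
    fun P M _ act h => by
      obtain ⟨r, hr, h⟩ := ann_one h
      exact ⟨r, hr, fun y hy i => h _ fun p _ => by simp [hy]⟩
  by_cases hc : ∃ c, φ c ≠ 1 ∧ φ c ^ 3 = 1
  swap
  · refine ⟨⊤, 1, fun g => ⟨2, Subtype.ext (hφ ?_)⟩, by simp, trivial, by simp,
      fun _ _ _ _ => trivial, n1 _⟩
    simpa using (d1 (φ g)).resolve_right fun h => hc ⟨g, h⟩
  obtain ⟨c, h1, h3⟩ := hc
  by_cases ht : ∃ (t : G) (σ : Perm (Fin 4)), σ * φ t * σ⁻¹ = swap 0 1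
  swap
  · obtain ⟨a1, a2⟩ := syl φ hφ h1 h3
    refine ⟨_, 1, a1, a2, one_mem _, by simp, fun g _ p hp => ?_, n1 _⟩
    rcases d5 _ _ h1 h3 (Subgroup.mem_centralizer_singleton_iff.1 hp) with h | ⟨σ, h | h⟩
    · exact Subgroup.mem_centralizer_singleton_iff.2 (by simpa using h (φ g))
    · exact absurd ⟨p, σ, h⟩ ht
    · exact absurd ⟨p * (c * p ^ 2 * c⁻¹), σ, by simpa using h⟩ ht
  obtain ⟨t, σ, ht⟩ := ht
  let ψ : G →* Perm (Fin 4) := (MulAut.conj σ).toMonoidHom.comp φ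
  have hψ : Function.Injective ψ := (MulAut.conj σ).injective.comp hφ
  have b0 : ψ t = swap 0 1 := ht
  have b1 : ψ c ≠ 1 := fun h => h1 ((MulAut.conj σ).injective (h.trans (map_one _).symm))
  have b3 : ψ c ^ 3 = 1 := by
    rw [← map_pow, show c ^ 3 = 1 from hφ (by simpa using h3), map_one]
  obtain ⟨a1, a2⟩ := syl ψ hψ b1 b3
  refine ⟨_, t, a1, a2, Subgroup.mem_centralizer_singleton_iff.2 ?_, hψ ?_, fun g hg p hp => ?_,
    fun M _ act h => ?_⟩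
  · rw [b0]
    decide
  · rw [map_mul, b0, map_one, swap_mul_self]
  · have b4 : g ∈ (Subgroup.centralizer {zz}).comap ψ :=
      Subgroup.mem_centralizer_singleton_iff.2 (d4 _ (by
        simpa [b0] using Subgroup.mem_centralizer_singleton_iff.1 hg))
    exact mul_mem (mul_mem b4 hp) (inv_mem b4)
  · obtain ⟨r, hr, h⟩ := tors ψ b0 b1 b3 h
    refine ⟨r, hr, fun y hy i => ?_⟩
    have b5 := h (fun i => y (σ⁻¹ i)) (fun g i => by simp [hy, ψ]) (σ i)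
    simpa using b5

end Pool.Agent.Lib.MP_775b3b_nt.LowDeg
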