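import Mathlib

/-! The Galois closure of a number field of odd discriminant. -/

namespace Pool.Agent.Lib.MP_775b3b_nt.LowDeg

open NumberField Ideal

theorem exists_closure (K : Type) [Field K] [NumberField K] :
    ∃ (F : Type) (_ : Field F) (_ : NumberField F) (_ : IsGalois ℚ F), Nonempty (K →ₐ[ℚ] F) ∧
      ∀ g : F ≃ₐ[ℚ] F, (∀ (σ : K →ₐ[ℚ] F) (x : K), g (σ x) = σ x) → g = 1 := by
  let : Algebra K (AlgebraicClosure ℚ) :=
    (IsAlgClosed.lift : K →ₐ[ℚ] AlgebraicClosure ℚ).toRingHom.toAlgebra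
  have : Nonempty (K →ₐ[ℚ] AlgebraicClosure ℚ) := ⟨IsAlgClosed.lift⟩
  have : IsAlgClosure ℚ (AlgebraicClosure ℚ) := ⟨inferInstance, AlgebraicClosure.isAlgebraic ℚ⟩
  have : Normal ℚ (AlgebraicClosure ℚ) := IsAlgClosure.normal ℚ _
  let F := IntermediateField.normalClosure ℚ K (AlgebraicClosure ℚ)
  have h0 : NumberField F := NumberField.of_module_finite ℚ F
  have h1 : IsNormalClosure ℚ K F := isNormalClosure_normalClosure ℚ K _
  have h2 := (Algebra.IsAlgebraic.isNormalClosure_iff.1 h1).2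
  have h3 : Normal ℚ F := h1.normal
  refine ⟨F, inferInstance, h0, IsGalois.mk, ⟨IsScalarTower.toAlgHom ℚ K F⟩, fun g hg => ?_⟩
  have h4 : IntermediateField.normalClosure ℚ K F ≤
      IntermediateField.fixedField (Subgroup.zpowers g) := normalClosure_le_iff.2 fun σ => by
    rintro _ ⟨x, rfl⟩ τ
    exact (Subgroup.zpowers_le (g := g) (H := MulAction.stabilizer _ (σ x))).2 (hg σ x) τ.2
  rw [h2] at h4
  exact AlgEquiv.ext fun x => h4 (IntermediateField.mem_top (x := x)) ⟨g, Subgroup.mem_zpowers g⟩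

theorem fix_of_inertia {K F : Type} [Field K] [NumberField K] [Field F] [NumberField F]
    [IsGalois ℚ F] [Algebra K F] (P : Ideal (𝓞 F)) [P.IsMaximal] [P.LiesOver (span {(2 : ℤ)})]
    (hK : ¬ (2 : ℤ) ∣ discr K) {g : F ≃ₐ[ℚ] F} (hg : g ∈ P.inertia (F ≃ₐ[ℚ] F)) (x : K) :
    g (algebraMap K F x) = algebraMap K F x := by
  have : IsGalois K F := IsGalois.tower_top_of_isGalois ℚ K F
  have : (span {(2 : ℤ)}).IsPrime := (span_singleton_prime two_ne_zero).2 Int.prime_two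
  have : (span {(2 : ℤ)}).IsMaximal := IsPrime.isMaximal this (by simp)
  let u := P.under (𝓞 K)
  have : u.IsMaximal := IsMaximal.under (𝓞 K) P
  have : u.LiesOver (span {(2 : ℤ)}) := LiesOver.tower_bot P u _
  have h1 := card_inertia_eq_ramificationIdxIn (G := F ≃ₐ[ℚ] F) (span {(2 : ℤ)}) P
  have h2 := card_inertia_eq_ramificationIdxIn (G := F ≃ₐ[K] F) u P
  rw [ramificationIdxIn_eq_ramificationIdx _ P (F ≃ₐ[ℚ] F)] at h1
  rw [ramificationIdxIn_eq_ramificationIdx _ P (F ≃ₐ[K] F)] at h2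
  have := (not_dvd_discr_iff_forall_liesOver K (𝓞 K) Int.prime_two).1 hK u inferInstance
    inferInstance
  have h4 := ramificationIdx_tower (R := ℤ) u P
  rw [ramificationIdx_eq_one u ℤ, one_mul, ← h1, ← h2] at h4
  let f : P.inertia (F ≃ₐ[K] F) → P.inertia (F ≃ₐ[ℚ] F) := fun τ =>
    ⟨τ.1.restrictScalars ℚ, fun y => τ.2 y⟩
  have h5 : Function.Injective f := fun a b h =>
    Subtype.ext (AlgEquiv.restrictScalars_injective ℚ (congrArg Subtype.val h))
  obtain ⟨τ, hτ⟩ := (h5.bijective_of_nat_card_le h4.le).2 ⟨g, hg⟩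
  rw [← show τ.1.restrictScalars ℚ = g from congrArg Subtype.val hτ]
  exact τ.1.commutes x

theorem odd_discr {K F : Type} [Field K] [NumberField K] [Field F] [NumberField F] [IsGalois ℚ F]
    (hK : Odd (discr K))
    (hf : ∀ g : F ≃ₐ[ℚ] F, (∀ (σ : K →ₐ[ℚ] F) (x : K), g (σ x) = σ x) → g = 1) :
    Odd (discr F) := by
  rw [← Int.not_even_iff_odd, even_iff_two_dvd] at hK ⊢
  refine (not_dvd_discr_iff_forall_liesOver F (𝓞 F) Int.prime_two).2 fun P hP hl => ?_
  have : (span {(2 : ℤ)}).IsPrime := (span_singleton_prime two_ne_zero).2 Int.prime_two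
  have : (span {(2 : ℤ)}).IsMaximal := IsPrime.isMaximal this (by simp)
  have h1 := card_inertia_eq_ramificationIdxIn (G := F ≃ₐ[ℚ] F) (span {(2 : ℤ)}) P
  have h2 : P.inertia (F ≃ₐ[ℚ] F) = ⊥ := (Subgroup.eq_bot_iff_forall _).2
    fun g hg => hf g fun σ x => by
      let := σ.toRingHom.toAlgebra
      exact fix_of_inertia P hK hg x
  rw [ramificationIdxIn_eq_ramificationIdx _ P (F ≃ₐ[ℚ] F), h2, Subgroup.card_bot] at h1
  have : (P.under ℤ).IsMaximal := IsMaximal.under ℤ P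
  exact ramificationIdx_eq_one_iff.1 h1.symm

end Pool.Agent.Lib.MP_775b3b_nt.LowDeg
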