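import Pool.Agent.Lib.MP_775b3b_nt.LowA
import Pool.Agent.Lib.MP_775b3b_nt.LowB

/-! Rank zero over number fields of degree at most four and odd discriminant. -/

namespace Pool.Agent.Lib.MP_775b3b_nt.LowDeg

open Equiv WeierstrassCurve WeierstrassCurve.Affine NumberField

theorem exists_perm {K F : Type} [Field K] [NumberField K] [Field F] [NumberField F]
    (h4 : Module.finrank ℚ K ≤ 4)
    (hf : ∀ g : F ≃ₐ[ℚ] F, (∀ (σ : K →ₐ[ℚ] F) (x : K), g (σ x) = σ x) → g = 1) :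
    ∃ (φ : (F ≃ₐ[ℚ] F) →* Perm (Fin 4)) (ι : (K →ₐ[ℚ] F) ↪ Fin 4), Function.Injective φ ∧
      (∀ g σ, φ g (ι σ) = ι ((g : F →ₐ[ℚ] F).comp σ)) ∧ ∀ g, ∀ i ∉ Set.range ι, φ g i = i := by
  obtain ⟨ι⟩ : Nonempty ((K →ₐ[ℚ] F) ↪ Fin 4) := Function.Embedding.nonempty_of_card_le (by
    rw [← Nat.card_eq_fintype_card, Fintype.card_fin]
    exact (card_algHom_le_finrank ℚ K F).trans h4)
  let : MulAction (F ≃ₐ[ℚ] F) (K →ₐ[ℚ] F) :=
    { smul := fun g σ => (g : F →ₐ[ℚ] F).comp σ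
      one_smul := fun _ => rfl
      mul_smul := fun _ _ _ => rfl }
  refine ⟨(Perm.viaEmbeddingHom ι).comp (MulAction.toPermHom _ _), ι,
    (Perm.viaEmbeddingHom_injective ι).comp ((injective_iff_map_eq_one _).2 fun g hg =>
      hf g fun σ x => DFunLike.congr_fun (DFunLike.congr_fun hg σ) x), fun g σ => ?_,
    fun g i hi => ?_⟩
  · exact Perm.viaEmbedding_apply _ ι σ
  · exact Perm.viaEmbedding_apply_of_notMem _ ι i hi

/-- Let `K` be a number field of degree at most four and odd discriminant.  A positive proportion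
of the curves `y^2 = x^3 + A x + B` ordered by height have only finitely many points over `K`. -/
theorem finite_of_degree_le_four (K : Type) [Field K] [NumberField K]
    (h4 : Module.finrank ℚ K ≤ 4) (hodd : Odd (discr K)) :
    ∃ c : ℝ, 0 < c ∧ ∃ X₀ : ℝ, ∀ X : ℝ, X₀ ≤ X → ∀ S : Finset (ℤ × ℤ),
      (∀ e : ℤ × ℤ, e ∈ S ↔ 4 * e.1 ^ 3 + 27 * e.2 ^ 2 ≠ 0 ∧
        (∀ p : ℕ, p.Prime → ¬ ((p : ℤ) ^ 4 ∣ e.1 ∧ (p : ℤ) ^ 6 ∣ e.2)) ∧
        ((max (4 * |e.1| ^ 3) (27 * e.2 ^ 2) : ℤ) : ℝ) < X) →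
      c * S.card ≤ {e : ℤ × ℤ | e ∈ S ∧ Finite
        (⟨0, 0, 0, (e.1 : K), (e.2 : K)⟩ : WeierstrassCurve K).toAffine.Point}.ncard := by
  classical
  obtain ⟨F, _, _, _, ⟨σ₀⟩, hf⟩ := exists_closure K
  obtain ⟨φ, ι, hφ, h1, h2⟩ := exists_perm h4 hf
  obtain ⟨P, t, a1, a2, a3, a4, a5, a6⟩ := core φ hφ
  obtain ⟨m, c, T₀, hc, h⟩ := many_ann (odd_discr hodd hf) P a1 a2 a3 a4 a5 1
  obtain ⟨c', hc', X₀, hX⟩ := density (fun e => Ann (act e) P t ((1 : ℤˣ) : ℤ)) hc h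
  refine ⟨c', hc', X₀, fun X b1 S hS => (hX X b1 S hS).trans (Nat.cast_le.2 ?_)⟩
  rw [← Set.ncard_coe_finset]
  refine Set.ncard_le_ncard (fun e he => ?_) (S.finite_toSet.subset fun e he => he.1)
  simp only [Finset.coe_filter, Set.mem_ofPred_eq] at he
  obtain ⟨b2, b3⟩ := he
  refine ⟨b2, ?_⟩
  obtain ⟨r, hr, b4⟩ := a6 _ _ b3
  have b5 : ∀ R : ((crv e ℚ).toAffine⁄K).Point, r • R = 0 := fun R => by
    have b6 := b4 (Function.extend ι (fun σ => Point.map σ R) 0) (fun g i => by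
      by_cases hi : i ∈ Set.range ι
      · obtain ⟨σ, rfl⟩ := hi
        rw [h1, ι.injective.extend_apply, ι.injective.extend_apply, Point.map_map]
      · rw [h2 g i hi, Function.extend_apply' _ _ _ hi, Pi.zero_apply, map_zero]) (ι σ₀)
    rw [ι.injective.extend_apply, ← map_zsmul] at b6
    exact Point.map_injective σ₀ (b6.trans (map_zero _).symm)
  rw [crv_base] at b5
  have := crv_isElliptic (F := K) (e := e) ((hS e).1 b2).1
  have : Module.Finite ℤ (crv e K).toAffine.Point :=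
    Module.Finite.iff_addGroup_fg.mpr (Pool.Agent.MP_651af7_nt.MW.fg (crv e K))
  exact Module.finite_of_fg_torsion (crv e K).toAffine.Point fun R =>
    ⟨⟨r, mem_nonZeroDivisors_of_ne_zero hr⟩, b5 R⟩

end Pool.Agent.Lib.MP_775b3b_nt.LowDeg
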