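import Pool.Agent.Lib.MP_775b3b_nt.ZDefs
import Pool.Agent.Lib.MP_775b3b_nt.Chart

/-! Definitions for the sieve on the Lagrangian Grassmannian. -/

namespace Pool.Agent.Lib.MP_775b3b_nt

open Matrix

section Ring

variable {R : Type*} [CommRing R]

/-- the functionals whose determinant is the value of the first quartic at the `m`-th point -/
def Zm (R : Type*) [CommRing R] (m : Fin 5) : Matrix (Fin 4) Cu R :=
  (kron fun l : Fin 3 => G5 R (if l = 0 then m else 0)).submatrix (qf 0) id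

/-- the quartic of the point `S` of the chart is irreducible -/
def GoodS (A B : Fin 5 → Matrix (Fin 4) (Fin 4) R) (S : Matrix (Fin 4) (Fin 4) R) : Prop :=
  IrrV fun m => (A m + B m * S).det

/-- the symmetric form on `2 ⊗ 2` -/
def J4 (R : Type*) [CommRing R] : Matrix (Fin 4) (Fin 4) R :=
  !![0, 0, 0, 1; 0, 0, -1, 0; 0, -1, 0, 0; 1, 0, 0, 0]

/-- the pencil spanned by `J4` and `S` has irreducible determinant -/
def GoodA (S : Matrix (Fin 4) (Fin 4) R) : Prop :=
  ∃ c, Irr4 c ∧ ∀ x y : R, (x • J4 R + y • S).det = qev c x y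

/-- symmetric of rank at most one -/
def Rk1 (X : Matrix (Fin 4) (Fin 4) R) : Prop :=
  X.IsSymm ∧ ∀ i j k l, X i k * X j l = X i l * X j k

end Ring

/-- `B` is the reduction modulo `l` of the rational matrix `S` with denominator `g` -/
def RedS (l : ℕ) (g : ℤ) (S : Matrix (Fin 4) (Fin 4) ℚ) (B : Matrix (Fin 4) (Fin 4) (ZMod l)) :
    Prop := ∀ i j (n : ℤ), (n : ℚ) = g * S i j → (n : ZMod l) = (g : ZMod l) * B i j

/-- the weight `∑ d ∣ m, d^(-1/2)` -/
noncomputable def Wt (m : ℕ) : ℝ := ∑ d ∈ m.divisors, (√(d : ℝ))⁻¹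

/-- no prime larger than `p₀` divides `g` exactly -/
def Exc (p₀ g : ℕ) : Prop := ∀ p : ℕ, p.Prime → p₀ < p → p ∣ g → p ^ 2 ∣ g

/-- the volume factor of a skew box -/
noncomputable def Pd (d : Fin 4 → ℝ) : ℝ :=
  ∏ ij ∈ Finset.univ.filter (fun ij : Fin 4 × Fin 4 => ij.1 ≤ ij.2), (1 + d ij.1 * d ij.2)

end Pool.Agent.Lib.MP_775b3b_nt
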