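import Pool.Agent.Lib.MP_775b3b_nt.ZRes
import Pool.Agent.Lib.MP_775b3b_nt.ZOver
import Pool.Agent.Lib.MP_775b3b_nt.ZLG
import Pool.Agent.Lib.MP_775b3b_nt.Gal2

/-! Definitions for the rank zero theorem over cubic fields that are not Galois. -/

namespace Pool.Agent.Lib.MP_775b3b_nt

open Cub MP_439fea_co WithZero

/-- an integer `s` which is a double root of the cubic modulo `l`, with `l` exactly dividing
`f(s)` -/
noncomputable def rtM (e : ℤ × ℤ) (l : ℕ) : ℤ :=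
  Classical.epsilon fun s : ℤ => ¬ (l : ℤ) ∣ s ∧ (l : ℤ) ∣ 3 * s ^ 2 + e.1 ∧ (l : ℤ) ∣ fv e s ∧
    ¬ (l : ℤ) ^ 2 ∣ fv e s

/-- the root used at the prime `l` -/
noncomputable def rg (e : ℤ × ℤ) (l : ℕ) : ℤ := if (l : ℤ) ∣ disc e then rtM e l else rt e l

section Quartic

variable {R : Type*} [CommRing R]

/-- a quartic form with a double root -/
def dq (r t n x y : R) : R := (x + r * y) ^ 2 * ((x + t * y) ^ 2 - n * y ^ 2)

variable {κ Λ : Type*} [CommRing κ] [CommRing Λ]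

/-- the values at the five points are proportional to those of a quartic over `κ` which is the
product of the square of a linear form and of an irreducible quadratic form -/
def DblV (ι : κ →+* Λ) (y : Fin 5 → Λ) : Prop :=
  ∃ c : Λ, c ≠ 0 ∧ ∃ r t n : κ, ¬ IsSquare n ∧
    ∀ m, y m = c * ι (dq r t n ((pt5 m).1 : κ) ((pt5 m).2 : κ))

/-- the quartic of the point `S` of the chart has this shape -/
def GoodM (ι : κ →+* Λ) (A B : Fin 5 → Matrix (Fin 4) (Fin 4) Λ) (S : Matrix (Fin 4) (Fin 4) κ) :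
    Prop := DblV ι fun m => (A m + B m * S.map ι).det

end Quartic

section Place

variable {e : ℤ × ℤ} {k : Type*} [Field k] [NumberField k]

/-- the prime number under a place -/
noncomputable def pr (v : P k) : ℕ := (exists_prime_under v).choose

theorem pr_prime (v : P k) : (pr v).Prime := (exists_prime_under v).choose_spec.1

theorem val_pr (v : P k) : val v ((pr v : ℕ) : k) < 1 := (exists_prime_under v).choose_spec.2

theorem pr_eq {v : P k} {l : ℕ} (hl : l.Prime) (h : val v (l : k) < 1) : pr v = l :=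
  prime_under_unique v (pr_prime v) hl (val_pr v) h

theorem val_lt_of_pr {v : P k} {l : ℕ} (h : pr v = l) : val v (l : k) < 1 := h ▸ val_pr v

theorem Over.pr_eq {k' : Type*} [Field k'] [NumberField k'] {φ : k →+* k'} {w : P k'} {v : P k}
    (h : Over φ w v) : pr w = pr v :=
  MP_775b3b_nt.pr_eq (pr_prime v) (by rw [h.natCast]; exact val_pr v)

/-- a multiplicative place: `s` is a double root modulo `v` and `f(s)` is a uniformiser -/
def TyM (e : ℤ × ℤ) (v : P k) (s : ℤ) : Prop :=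
  val v (6 : k) = 1 ∧ val v (s : k) = 1 ∧ val v (3 * (s : k) ^ 2 + (e.1 : k)) < 1 ∧
    val v (fv e (s : k)) = exp (-1 : ℤ)

/-- the properties common to the two kinds of twisting places -/
structure TyA (e : ℤ × ℤ) (v : P k) (r : ℤ) : Prop where
  two : val v (2 : k) = 1
  unif : val v (fv e (r : k)) = exp (-1 : ℤ)
  val_evr : ∀ u : Cub e k, u ∈ Ov e v → val v (nm u) = 1 → val v (evr (r : k) u) = 1
  evr_of_sqv : ∀ u : (Cub e k)ˣ, (u : Cub e k) ∈ Ov e v → val v (nm (u : Cub e k)) = 1 →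
    u ∈ sqv e v → ∃ y : k, val v (evr (r : k) (u : Cub e k) - y ^ 2) < 1
  sqv_of_evr : ∀ u : (Cub e k)ˣ, (u : Cub e k) ∈ Ov e v → val v (nm (u : Cub e k)) = 1 →
    u ∈ nsq e k → (∃ y : k, val v (evr (r : k) (u : Cub e k) - y ^ 2) < 1) → u ∈ sqv e v
  tau_not_mem : tauU e k r ∉ usv e v
  usv_or : ∀ d ∈ nsq e k, d ∈ usv e v ∨ d * tauU e k r ∈ usv e v
  val_form : ∀ u : Cub e k, u ∈ Ov e v → val v (nm u) = 1 → (∃ y : k, val v (nm u - y ^ 2) < 1) →
    (∀ y : k, ¬ val v (evr (r : k) u - y ^ 2) < 1) →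
    (∀ x ∈ Ov e v, ¬ Sm v x → (tau e (r : k) * u * x * x).c2 ≠ 0) ∧
      val v (tau e (r : k) * u * lin e (r : k) * lin e (r : k)).c2 = exp (-1 : ℤ)

/-- a twisting place of one of the two kinds -/
def TyB (e : ℤ × ℤ) (v : P k) : Prop :=
  (¬ ((pr v : ℕ) : ℤ) ∣ disc e ∧ TyV e v (rg e (pr v))) ∨
    (((pr v : ℕ) : ℤ) ∣ disc e ∧ TyM e v (rg e (pr v)))

/-- the Selmer group with transverse conditions at the places of `Λ` -/
noncomputable def ZG (e : ℤ × ℤ) (Λ : Set (P k)) : Subgroup (Cub e k)ˣ :=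
  nsq e k ⊓ ((⨅ (v : P k) (_ : val v (2 : k) < 1), L2 e v) ⊓
    ((⨅ v ∈ Λ, Tv e v (rg e (pr v))) ⊓ ⨅ (v : P k) (_ : v ∉ Λ), usv e v))

theorem mem_ZG {Λ : Set (P k)} {d : (Cub e k)ˣ} : d ∈ ZG e Λ ↔ d ∈ nsq e k ∧
    (∀ v : P k, val v (2 : k) < 1 → d ∈ L2 e v) ∧ (∀ v ∈ Λ, d ∈ Tv e v (rg e (pr v))) ∧
      ∀ v ∉ Λ, d ∈ usv e v := by
  simp only [ZG, Subgroup.mem_inf, Subgroup.mem_iInf]

/-- the standing local hypotheses for the set `Λ` of places -/
structure NiceG (e : ℤ × ℤ) (Λ : Set (P k)) : Prop where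
  pos : 0 < e.1
  two : ∀ v : P k, val v (2 : k) < 1 → Eis2 e v
  ty : ∀ v ∈ Λ, TyA e v (rg e (pr v))

theorem NiceG.mono {Λ Λ' : Set (P k)} (h : NiceG e Λ) (h' : Λ' ⊆ Λ) : NiceG e Λ' :=
  ⟨h.pos, h.two, fun v hv => h.ty v (h' hv)⟩

/-- the standing local hypotheses for the set `D` of primes -/
structure NiceB (e : ℤ × ℤ) (D : Finset ℕ) (k : Type*) [Field k] [NumberField k] : Prop where
  pos : 0 < e.1
  two : ∀ v : P k, val v (2 : k) < 1 → Eis2 e v
  ty : ∀ v : P k, pr v ∈ D → TyB e v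

theorem NiceB.mono {D D' : Finset ℕ} (h : NiceB e D k) (h' : D' ⊆ D) : NiceB e D' k :=
  ⟨h.pos, h.two, fun v hv => h.ty v (h' hv)⟩

/-- the places above `D` -/
def Pls (D : Finset ℕ) (k : Type*) [Field k] [NumberField k] : Set (P k) := {v | pr v ∈ D}

/-- the places above `D` at which the local condition of the twist by `d` is transverse -/
def Lam (e : ℤ × ℤ) (D : Finset ℕ) (d : ℕ) (k : Type*) [Field k] [NumberField k] : Set (P k) :=
  {v | pr v ∈ D ∧ (¬ ((pr v : ℕ) : ℤ) ∣ disc e ∨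
    ∃ y : k, val v ((d : k) / fv e (rg e (pr v) : k) - y ^ 2) < 1)}

theorem Lam_subset {D : Finset ℕ} {d : ℕ} : Lam e D d k ⊆ Pls D k := fun _ h => h.1

/-- the group containing the classes of the points of the twist by `d` -/
noncomputable def TG (e : ℤ × ℤ) (N : ℕ) (D : Finset ℕ) (d : ℕ) (k : Type*) [Field k]
    [NumberField k] : Subgroup (Cub e k)ˣ :=
  Sel N e k ⊓ ((⨅ (v : P k) (_ : val v (2 : k) < 1), L2 e v) ⊓
    ((⨅ v ∈ Lam e D d k, Tv e v (rg e (pr v))) ⊓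
      ⨅ (v : P k) (_ : pr v ∈ D) (_ : v ∉ Lam e D d k), usv e v))

theorem mem_TG {N d : ℕ} {D : Finset ℕ} {x : (Cub e k)ˣ} : x ∈ TG e N D d k ↔ x ∈ Sel N e k ∧
    (∀ v : P k, val v (2 : k) < 1 → x ∈ L2 e v) ∧
    (∀ v ∈ Lam e D d k, x ∈ Tv e v (rg e (pr v))) ∧
      ∀ v : P k, pr v ∈ D → v ∉ Lam e D d k → x ∈ usv e v := by
  simp only [TG, Subgroup.mem_inf, Subgroup.mem_iInf]

/-- the decomposition group of the unramified place `w` above `q` is generated by `τ` -/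
structure TP (τ : k ≃ₐ[ℚ] k) (q : ℕ) (w : P k) : Prop where
  prime : q.Prime
  five : 5 ≤ q
  unr : val w (q : k) = exp (-1 : ℤ)
  fix : τ • w = w
  stab : ∀ g : k ≃ₐ[ℚ] k, g • w = w → g = 1 ∨ g = τ
  res : ∀ y : k, τ y = y → val w y ≤ 1 → ∃ n : ℤ, val w (y - n) < 1
  move : ∃ y : k, val w y ≤ 1 ∧ ¬ val w (τ y - y) < 1

end Place

section Cubic

variable {K F : Type*} [Field K] [NumberField K] [Field F] [NumberField F] (S : Setup K F)

/-- classes killed by corestriction -/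
noncomputable def Setup.TY (e : ℤ × ℤ) : Subgroup (Cub e K)ˣ := (SQ e ℚ).comap (S.cor e)

theorem Setup.mem_TY {e : ℤ × ℤ} {d : (Cub e K)ˣ} : d ∈ S.TY e ↔ S.cor e d ∈ SQ e ℚ := Iff.rfl

theorem Setup.uz_cor' {e : ℤ × ℤ} (d : (Cub e K)ˣ) : uz e (algebraMap ℚ F) (S.cor e d) =
    uz e (S.s 0) d * uz e (S.s 1) d * uz e (S.s 2) d := by
  ext1
  rw [uz_val, S.gal2_val, S.map_rn, Fin.prod_univ_three, Units.val_mul, Units.val_mul, uz_val,
    uz_val, uz_val]

/-- `q` is the product of a place of degree one and of a place of degree two -/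
structure TP2 (q : ℕ) (v₁ v₂ : P K) : Prop where
  pr1 : pr v₁ = q
  pr2 : pr v₂ = q
  all : ∀ v : P K, pr v = q → v = v₁ ∨ v = v₂
  res1 : Res1 v₁
  sq2 : ∀ x : ℚ, val v₂ (x : K) ≤ 1 → ∃ y : K, val v₂ ((x : K) - y ^ 2) < 1
  tz : ∀ (e : ℤ × ℤ) (d : (Cub e K)ˣ), d ∈ sqv e v₂ →
    d * uz e (algebraMap ℚ K) (S.cor e d) ∈ sqv e v₁

/-- the decomposition groups above `l` have odd order and permute the embeddings of `K`
transitively -/
structure IP (l : ℕ) : Prop where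
  prime : l.Prime
  unr : ∀ w : P F, pr w = l → val w (l : F) = exp (-1 : ℤ)
  sq0 : ∀ w : P F, pr w = l → SqDesc (algebraMap ℚ F) w
  sq1 : ∀ w : P F, pr w = l → SqDesc (S.s 0) w
  rot : ∀ w : P F, pr w = l → ∀ j (x : K), val w (S.s j x) = val w (S.s 0 x)

end Cubic

end Pool.Agent.Lib.MP_775b3b_nt
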