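import Pool.Agent.Lib.MP_775b3b_nt.YA
import Pool.Agent.Lib.MP_775b3b_nt.ZPrime

/-! Primes whose Frobenius is a transposition. -/

namespace Pool.Agent.Lib.MP_775b3b_nt

open Cub MP_439fea_co WithZero

variable {K F : Type} [Field K] [NumberField K] [Field F] [NumberField F] {τ : F ≃ₐ[ℚ] F} {q : ℕ}
  {w : P F}

theorem TP.lt (h : TP τ q w) : val w (q : F) < 1 := by
  rw [h.unr]
  exact ZPrime_lt

/-- `val_smul` -/
theorem TP.conj (h : TP τ q w) (g : F ≃ₐ[ℚ] F) : TP (g * τ * g⁻¹) q (g • w) := by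
  have hv : ∀ y : F, val (g • w) y = val w (g⁻¹ y) := fun y => by
    have h1 := val_smul g w (g⁻¹ y)
    rwa [show g • g⁻¹ y = y from g.apply_symm_apply y] at h1
  have hg : ∀ y : F, g⁻¹ (g y) = y := fun y => g.symm_apply_apply y
  refine ⟨h.prime, h.five, ?_, ?_, fun g' hg' => ?_, fun y hy hy1 => ?_, ?_⟩
  · rw [hv, map_natCast, h.unr]
  · rw [mul_smul, inv_smul_smul, mul_smul, h.fix]
  · have h1 : (g⁻¹ * g' * g) • w = w := by rw [mul_smul, mul_smul, hg', inv_smul_smul]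
    rcases h.stab _ h1 with h2 | h2
    · left
      rwa [mul_assoc, inv_mul_eq_one, right_eq_mul] at h2
    · right
      rw [← h2]
      group
  · obtain ⟨n, hn⟩ := h.res (g⁻¹ y) (by
      have h1 := congrArg (g⁻¹ : F ≃ₐ[ℚ] F) hy
      rwa [AlgEquiv.mul_apply, AlgEquiv.mul_apply, hg] at h1) (by rwa [← hv])
    exact ⟨n, by rwa [hv, map_sub, map_intCast]⟩
  · obtain ⟨y, hy, hy'⟩ := h.move
    refine ⟨g y, by rwa [hv, hg], ?_⟩
    rwa [hv, map_sub, AlgEquiv.mul_apply, AlgEquiv.mul_apply, hg, hg]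

/-- The embeddings `S.s j` are distinct (`S.bij`). -/
theorem Setup.s_inj (S : Setup K F) : Function.Injective S.s := by
  exact fun j j' h => S.bij.1 (congrArg (fun f => S.i.comp f) h)

/-- If `τ` does not fix `φ K` pointwise, the stabiliser of `w` in the group of `F` over `φ K` is
trivial (`TP.stab`, `ZPrime_smul_eq` or `mem_stabilizer_iff_val`): `sqDesc_of_odd` with
`φ.toAlgebra`, `IsGalois.tower_top_of_isGalois`. -/
theorem TP.sqDesc_of_move [IsGalois ℚ F] (h : TP τ q w) (φ : K →+* F)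
    (hφ : ∃ x, τ (φ x) ≠ φ x) : SqDesc φ w := by
  let := φ.toAlgebra
  have := IsGalois.tower_top_of_isGalois ℚ K F
  obtain ⟨x, hx⟩ := hφ
  refine sqDesc_of_odd w ?_
  have h1 : MulAction.stabilizer (F ≃ₐ[K] F) w = ⊥ := by
    refine (Subgroup.eq_bot_iff_forall _).2 fun σ hσ => ?_
    have h2 : σ.restrictScalars ℚ ∈ MulAction.stabilizer (F ≃ₐ[ℚ] F) w :=
      (mem_stabilizer_iff_val _ w).2 ((mem_stabilizer_iff_val σ w).1 hσ)
    rcases h.stab _ h2 with h3 | h3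
    · exact AlgEquiv.ext fun y => DFunLike.congr_fun h3 y
    · exact absurd (h3 ▸ σ.commutes x) hx
  rw [h1, Subgroup.card_bot]
  exact odd_one

theorem YTP_val (h : TP τ q w) (x : F) : val w (τ x) = val w x :=
  (mem_stabilizer_iff_val τ w).1 h.fix x

theorem YTP_inv (h : TP τ q w) (x : F) : τ (τ x) = x := by
  rcases h.stab (τ * τ) (by rw [mul_smul, h.fix, h.fix]) with h1 | h1
  · exact DFunLike.congr_fun h1 x
  · rw [mul_eq_left] at h1
    rw [h1]
    rfl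

theorem YTP_two (h : TP τ q w) : val w (2 : F) = 1 := by
  refine le_antisymm (by simpa using val_natCast_le_one w 2) (not_lt.1 fun h1 => ?_)
  have h2 := Nat.le_of_dvd two_pos (Val_dvd_of_lt w (n := 2) h.prime h.lt (by simpa using h1))
  have h3 := h.five
  omega

theorem YTP_res (h : TP τ q w) : ∃ (κ : Type) (_ : Field κ) (ρ : (val w).integer →+* κ)
    (ι : ZMod q →+* κ) (φ : κ →+* κ), RedAt w ρ ∧
      (∀ x : F, val w x ≤ 1 → rd ρ (τ x) = φ (rd ρ x)) ∧ (∀ a, φ (φ a) = a) ∧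
      ∀ a, φ a = a → ∃ b, ι b = a := by
  obtain ⟨κ, _, -, ρ, hρ⟩ := exists_redAt w
  have h0 : ((q : ℕ) : κ) = 0 := by
    rw [← map_natCast ρ]
    exact (hρ.ker _).2 h.lt
  have : CharP κ q := ringChar.of_eq (CharP.ringChar_of_prime_eq_zero h.prime h0)
  have hτ : ∀ x : F, val w x ≤ 1 → val w (τ x) ≤ 1 := fun x hx => by rwa [YTP_val h]
  let t : (val w).integer →+* (val w).integer := (τ : F →+* F).restrict _ _ hτ
  have hk : RingHom.ker ρ ≤ RingHom.ker (ρ.comp t) := fun x hx => by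
    rw [RingHom.mem_ker] at hx ⊢
    exact (hρ.ker _).2 ((YTP_val h x).trans_lt ((hρ.ker _).1 hx))
  let φ : κ →+* κ := ρ.liftOfSurjective hρ.surj ⟨ρ.comp t, hk⟩
  have hφ : ∀ x : F, val w x ≤ 1 → rd ρ (τ x) = φ (rd ρ x) := fun x hx => by
    lift x to (val w).integer using hx
    rw [rd_coe]
    exact (rd_coe ρ (t x)).trans
      (RingHom.liftOfSurjective_comp_apply ρ hρ.surj ⟨ρ.comp t, hk⟩ x).symm
  refine ⟨κ, inferInstance, ρ, ZMod.castHom (dvd_refl q) κ, φ, hρ, hφ, fun a => ?_, fun a ha => ?_⟩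
  · obtain ⟨x, hx, rfl⟩ := hρ.exists_rd a
    rw [← hφ x hx, ← hφ _ (hτ x hx), YTP_inv h]
  · obtain ⟨x, hx, rfl⟩ := hρ.exists_rd a
    rw [← hφ x hx, hρ.rd_eq_iff (hτ x hx) hx] at ha
    obtain ⟨n, hn⟩ := h.res ((x + τ x) / 2)
      (by rw [map_div₀, map_add, YTP_inv h, map_ofNat, add_comm])
      (by
        rw [map_div₀, YTP_two h, div_one]
        exact Valuation.map_add_le _ hx (hτ x hx))
    refine ⟨n, ?_⟩
    rw [map_intCast, ← rd_intCast ρ, eq_comm, hρ.rd_eq_iff hx (val_int_le w n),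
      show x - n = (x + τ x) / 2 - n - (τ x - x) / 2 by ring]
    refine Valuation.map_sub_lt _ hn ?_
    rwa [map_div₀, YTP_two h, div_one]

theorem YTP_unr [IsGalois ℚ F] (h : TP τ q w) {W : P F} (hW : pr W = q) :
    val W (q : F) = exp (-1 : ℤ) := by
  obtain ⟨g, rfl⟩ := exists_smul_eq_of_prime h.prime h.lt (val_lt_of_pr hW)
  exact (h.conj g).unr

/-- `i = τ y - y` (`TP.move`) is a unit with `τ i = -i` (from `TP.stab` applied to `τ * τ`, or
directly: `τ * τ = 1` or `τ = 1`), so `i^2 ≡ n₀` (`TP.res`), and `n₀` is not a square modulo `q`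
(else `i ≡ ± m`, and `τ` gives `-i ≡ ± m`, `2 i ≡ 0`).  An integer `n` is a square or `n₀` times a
square modulo `q` (`isSquare_mul_of_not`); `x` is congruent to an integer (`res1_rat`,
`exists_over_hom`). -/
theorem TP.exists_sqrt (h : TP τ q w) {x : ℚ} (hx : val w (x : F) ≤ 1) :
    ∃ y : F, val w ((x : F) - y ^ 2) < 1 := by
  obtain ⟨κ, _, ρ, ι, φ, hρ, h1, h2, h3⟩ := YTP_res h
  have := Fact.mk h.prime
  obtain ⟨y, hy, hy'⟩ := h.move
  rw [← hρ.rd_eq_iff (by rwa [YTP_val h]) hy, h1 y hy, ← sub_eq_zero] at hy'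
  obtain ⟨i, hi⟩ : ∃ i, i = φ (rd ρ y) - rd ρ y := ⟨_, rfl⟩
  rw [← hi] at hy'
  have h4 : φ i = -i := by rw [hi, map_sub, h2, neg_sub]
  obtain ⟨n₀, hn₀⟩ := h3 (i * i) (by rw [map_mul, h4, neg_mul_neg])
  have h5 : ∀ m, φ (ι m) = ι m := fun m =>
    DFunLike.congr_fun (RingHom.ext_zmod (φ.comp ι) ι) m
  have h6 : (2 : κ) ≠ 0 := fun h7 => by
    rw [← Nat.cast_ofNat, ← rd_natCast ρ, hρ.rd_eq_zero (val_natCast_le_one w 2), Nat.cast_ofNat,
      YTP_two h] at h7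
    exact lt_irrefl _ h7
  have h7 : ¬ IsSquare n₀ := by
    rintro ⟨m, rfl⟩
    rw [map_mul, mul_self_eq_mul_self_iff] at hn₀
    have h8 : φ i = i := by
      rcases hn₀ with h9 | h9
      · rw [← h9, h5]
      · rw [← neg_neg i, ← h9, map_neg, h5]
    refine hy' ((mul_eq_zero.1 (?_ : 2 * i = 0)).resolve_left h6)
    rw [h4] at h8
    linear_combination -h8
  obtain ⟨v, hv⟩ := exists_over_hom (algebraMap ℚ F) w (x := (q : ℚ)) (by rw [map_natCast, h.unr])
  obtain ⟨n, hn⟩ := res1_rat v x (by rwa [← hv, eq_ratCast])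
  rw [← hv, map_sub, map_intCast, eq_ratCast, ← hρ.rd_eq_iff hx (val_int_le w n), rd_intCast] at hn
  rw [← hρ.isSquare_iff hx, hn, ← map_intCast ι]
  by_cases h8 : IsSquare (n : ZMod q)
  · exact h8.map ι
  · obtain ⟨m, hm⟩ := isSquare_mul_of_not h8 h7
    have h9 := congrArg ι hm
    rw [map_mul, map_mul, hn₀] at h9
    refine ⟨ι m / i, ?_⟩
    field_simp
    linear_combination h9

/-- If `d z^2 ≡ 1` at `v₂` then `s₁ (d z^2) ≡ s₂ (d z^2) ≡ 1` at `w`, and with `c = cor d`,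
`s₀ (d (ι c)⁻¹ (z / ι (cor z))^2) = (s₁ (d z^2) s₂ (d z^2))⁻¹` (`uz_cor'`); `Over.sm`. -/
theorem Setup.tz_of_over (S : Setup K F) {v₁ v₂ : P K} (o0 : Over (S.s 0) w v₁)
    (o1 : Over (S.s 1) w v₂) (o2 : Over (S.s 2) w v₂) (e : ℤ × ℤ) (d : (Cub e K)ˣ)
    (hd : d ∈ sqv e v₂) : d * uz e (algebraMap ℚ K) (S.cor e d) ∈ sqv e v₁ := by
  obtain ⟨z, hz⟩ := mem_sqv.1 hd
  have h0 : ∀ c : (Cub e K)ˣ, uz e (S.s 0) (uz e (algebraMap ℚ K) (S.cor e c)) =
      uz e (S.s 0) c * uz e (S.s 1) c * uz e (S.s 2) c := fun c => by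
    rw [uz_uz, Subsingleton.elim ((S.s 0).comp (algebraMap ℚ K)) (algebraMap ℚ F), S.uz_cor']
  refine mem_sqv.2 ⟨(d * z)⁻¹ * uz e (algebraMap ℚ K) (S.cor e z), o0.sm.1 ?_⟩
  have h1 : uz e (S.s 0) (d * uz e (algebraMap ℚ K) (S.cor e d) *
      ((d * z)⁻¹ * uz e (algebraMap ℚ K) (S.cor e z)) ^ 2) =
      uz e (S.s 1) (d * z ^ 2) * uz e (S.s 2) (d * z ^ 2) := by
    simp only [map_mul, map_pow, map_inv, h0]
    generalize uz e (S.s 0) d = a0, uz e (S.s 1) d = a1, uz e (S.s 2) d = a2,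
      uz e (S.s 0) z = b0, uz e (S.s 1) z = b1, uz e (S.s 2) z = b2
    apply Additive.ofMul.injective
    simp only [ofMul_mul, ofMul_pow, ofMul_inv]
    abel
  have h2 := o1.sm.2 hz
  have h3 := o2.sm.2 hz
  rw [map_sub, map_one, ← uz_val] at h2 h3 ⊢
  rw [h1, Units.val_mul]
  convert (h3.mul_left h2.val_nm.1).add h2 using 1
  ring

/-- `v₁`, `v₂` from `exists_over_hom` for `S.s 0`, `S.s 1`; `Over (S.s 2) w v₂` as `τ • w = w`.
A place `v` above `q` is under some `g • w` along `S.s 0` (`exists_over_of_unr`,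
`exists_smul_eq_of_prime`), so under `w` along `g⁻¹ ∘ S.s 0 = S.s j` (`exists_cmp`), `place_ext`.
`sq2`: `exists_sqrt`, `sqDesc_of_move` (if `val v₂ x < 1` take `y = 0`). -/
theorem TP.exists_tp2 (S : Setup K F) (hc : S.Cmp τ (Equiv.swap 1 2)) (h : TP τ q w) :
    ∃ v₁ v₂ : P K, TP2 S q v₁ v₂ ∧ Over (S.s 0) w v₁ := by
  have := S.gal
  have hu : ∀ j, val w (S.s j (q : K)) = exp (-1 : ℤ) := fun j => by rw [map_natCast, h.unr]
  obtain ⟨v₁, o0⟩ := exists_over_hom (S.s 0) w (hu 0)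
  obtain ⟨v₂, o1⟩ := exists_over_hom (S.s 1) w (hu 1)
  have c0 : ∀ x, τ (S.s 0 x) = S.s 0 x := fun x => hc 0 x
  have c1 : ∀ x, τ (S.s 1 x) = S.s 2 x := fun x => hc 1 x
  have o2 : Over (S.s 2) w v₂ := fun x => by rw [← c1, YTP_val h, o1]
  refine ⟨v₁, v₂, ⟨pr_eq h.prime (o0.natCast q ▸ h.lt), pr_eq h.prime (o1.natCast q ▸ h.lt),
    fun v hv => ?_, fun y hy => ?_, fun x hx => ?_, S.tz_of_over o0 o1 o2⟩, o0⟩
  · obtain ⟨W, hW⟩ := exists_over_of_unr (S.s 0) v (x := (q : K)) fun W hW => by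
      rw [map_natCast]
      exact YTP_unr h (hW.trans hv)
    obtain ⟨g, rfl⟩ := exists_smul_eq_of_prime h.prime h.lt (val_lt_of_pr (hW.pr_eq.trans hv))
    obtain ⟨π, hπ⟩ := S.exists_cmp g⁻¹
    have h1 : Over (S.s (π 0)) w v := fun x => by
      rw [← hW, ← hπ, ← val_smul g w]
      exact congrArg _ (g.apply_symm_apply _)
    have h2 : ∀ j (v' : P K), Over (S.s j) w v → Over (S.s j) w v' → v = v' := fun j v' a b =>
      place_ext fun x => by rw [← a, ← b]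
    generalize π 0 = j at h1
    fin_cases j
    · exact Or.inl (h2 _ _ h1 o0)
    · exact Or.inr (h2 _ _ h1 o1)
    · exact Or.inr (h2 _ _ h1 o2)
  · obtain ⟨n, hn⟩ := h.res (S.s 0 y) (c0 y) (by rwa [o0])
    exact ⟨n, by rwa [← o0, map_sub, map_intCast]⟩
  · rcases hx.lt_or_eq with h1 | h1
    · exact ⟨0, by simpa using h1⟩
    · have h2 : ∃ x, τ (S.s 1 x) ≠ S.s 1 x := by
        by_contra h3
        push Not at h3
        exact absurd (S.s_inj (RingHom.ext fun x => (c1 x).symm.trans (h3 x) : S.s 2 = S.s 1))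
          (by decide)
      obtain ⟨y, hy⟩ := h.sqDesc_of_move (S.s 1) h2 (x : K) (by rw [o1, h1]) (by
        rw [map_ratCast]
        exact h.exists_sqrt (by rw [← map_ratCast (S.s 1), o1, h1]))
      exact ⟨y, by rwa [← o1]⟩

/-- The residue field with the involution induced by `τ`: `exists_redAt`; `ι` from `CharP`
(`ZMod.castHom`); `φ` by `RingHom.liftOfSurjective` (or `Ideal.Quotient.lift`) applied to the
restriction of `τ` to the valuation ring.  If `φ a = a`, `a = ρ x`, then `(x + τ x) / 2` is fixed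
by `τ` and reduces to `a`; `TP.res`. -/
theorem TP.exists_res (h : TP τ q w) : ∃ (κ : Type) (_ : Field κ) (ρ : (val w).integer →+* κ)
    (ι : ZMod q →+* κ) (φ : κ →+* κ), RedAt w ρ ∧
      (∀ x : F, val w x ≤ 1 → rd ρ (τ x) = φ (rd ρ x)) ∧ (∀ a, φ (φ a) = a) ∧
      ∀ a, φ a = a → ∃ b, ι b = a := by
  exact YTP_res h

variable {L : Type} [Field L] [NumberField L] [Algebra K L] [Algebra L F] [Algebra K F]
  [IsScalarTower K L F]

/-- Let `W = g • w` be above `w'` (`exists_over_of_unr`), `τ' = g τ g⁻¹` (`TP.conj`).  If `τ'`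
moves the image of `K`: `sqDesc_of_move`, `SqDesc.mid`.  Otherwise `τ` fixes `g⁻¹ ∘ S.s 0 = S.s j`,
so `j = 0`, `g⁻¹` is an automorphism over `K` and preserves the image of `L`
(`AlgEquiv.restrictNormal_commutes`), so `τ'` fixes `L` pointwise, `Res1 w'` by `TP.res`, and
`sqDesc_of_res1`. -/
theorem TP.sqDesc (S : Setup K F) [IsGalois K L] (h0 : S.s 0 = algebraMap K F)
    (hc : S.Cmp τ (Equiv.swap 1 2)) (hL : ∀ x : L, τ (algebraMap L F x) = algebraMap L F x)
    (h : TP τ q w) {w' : P L} (hw' : pr w' = q) : SqDesc (algebraMap K L) w' := by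
  have := S.gal
  obtain ⟨W, hW⟩ := exists_over_of_unr (algebraMap L F) w' (x := (q : L)) fun W hW => by
    rw [map_natCast]
    exact YTP_unr h (hW.trans hw')
  obtain ⟨g, rfl⟩ := exists_smul_eq_of_prime h.prime h.lt (val_lt_of_pr (hW.pr_eq.trans hw'))
  by_cases h1 : ∃ x, (g * τ * g⁻¹) (algebraMap K F x) ≠ algebraMap K F x
  · refine SqDesc.mid hW ?_
    rw [← IsScalarTower.algebraMap_eq]
    exact (h.conj g).sqDesc_of_move _ h1
  · push Not at h1
    obtain ⟨π, hπ⟩ := S.exists_cmp g⁻¹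
    have h2 : S.s (Equiv.swap 1 2 (π 0)) = S.s (π 0) := RingHom.ext fun x => by
      have h3 := congrArg (g⁻¹ : F ≃ₐ[ℚ] F) (h1 x)
      rw [AlgEquiv.mul_apply, AlgEquiv.mul_apply, ← h0, hπ] at h3
      rw [← hc]
      exact (g.symm_apply_apply _).symm.trans h3
    have h3 : π 0 = 0 := by
      have h4 := S.s_inj h2
      generalize π 0 = j at h4
      revert j
      decide
    let σ : F ≃ₐ[K] F := { (g⁻¹ : F ≃ₐ[ℚ] F).toRingEquiv with
      commutes' := fun x => by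
        have h4 := hπ 0 x
        rw [h3, h0] at h4
        exact h4 }
    refine sqDesc_of_res1 _ fun y hy => ?_
    have h4 : (g⁻¹ : F ≃ₐ[ℚ] F) (algebraMap L F y) = algebraMap L F (σ.restrictNormal L y) :=
      (σ.restrictNormal_commutes L y).symm
    obtain ⟨n, hn⟩ := (h.conj g).res (algebraMap L F y) (by
      rw [AlgEquiv.mul_apply, AlgEquiv.mul_apply, h4, hL, ← h4]
      exact g.apply_symm_apply _) (by rwa [hW])
    exact ⟨n, by rwa [← hW, map_sub, map_intCast]⟩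

/-- `exists_over_of_unr`, `SqDesc.mid` -/
theorem IP.sqDesc {S : Setup K F} (h0 : S.s 0 = algebraMap K F) {l : ℕ} (h : IP S l) {w' : P L}
    (hw' : pr w' = l) : SqDesc (algebraMap K L) w' := by
  obtain ⟨W, hW⟩ := exists_over_of_unr (algebraMap L F) w' (x := (l : L)) fun W hW => by
    rw [map_natCast]
    exact h.unr W (hW.trans hw')
  refine SqDesc.mid hW ?_
  rw [← IsScalarTower.algebraMap_eq, ← h0]
  exact h.sq1 W (hW.pr_eq.trans hw')

end Pool.Agent.Lib.MP_775b3b_nt
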