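import Pool.Agent.Lib.MP_775b3b_nt.ZRes

/-! Gluing the local conditions at the places above a prime. -/

namespace Pool.Agent.Lib.MP_775b3b_nt

open Cub MP_439fea_co WithZero

variable {e : ℤ × ℤ} {k : Type*} [Field k] [NumberField k]

theorem mem_Ord_iff {p : Nat.Primes} {x : Cub e k} :
    x ∈ Ord p e k ↔ ∀ v : P k, val v ((p : ℕ) : k) < 1 → x ∈ Ov e v := by
  simp only [mem_Ord, mem_intP_iff_val, mem_Ov]
  exact ⟨fun h v hv => ⟨h.1 v hv, h.2.1 v hv, h.2.2 v hv⟩,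
    fun h => ⟨fun v hv => (h v hv).1, fun v hv => (h v hv).2.1, fun v hv => (h v hv).2.2⟩⟩

/-- Choose `z v`.  By `approx` (three coordinates, `finite_over_prime`) find `z` with
`val v ((z - z v).cᵢ) ≤ γ` for all `v ∣ p`, `γ` so small that `Sm v ((z - z v) * (z v)⁻¹)`
(with `π ^ M • (z v)⁻¹ ∈ Ov`).  Then `y = z * (z v)⁻¹` has `Sm v (y - 1)`, `Sm.val_nm`,
`inv_mem_Ov`; `z` is a unit of `Cub e k` because there is a place above `p` (`exists_over_prime`,
`isUnit_iff`). -/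
theorem glue (n : ℕ) (p : Nat.Primes) {d : (Cub e k)ˣ}
    (h : ∀ v : P k, val v ((p : ℕ) : k) < 1 → ∃ z : (Cub e k)ˣ,
      ((d * z ^ 2 : (Cub e k)ˣ) : Cub e k) ∈ Ov e v ∧
        (n : k) • (((d * z ^ 2)⁻¹ : (Cub e k)ˣ) : Cub e k) ∈ Ov e v) :
    ∃ z : (Cub e k)ˣ, ((d * z ^ 2 : (Cub e k)ˣ) : Cub e k) ∈ Ord p e k ∧
      (n : k) • (((d * z ^ 2)⁻¹ : (Cub e k)ˣ) : Cub e k) ∈ Ord p e k := by
  choose! w hw using h
  have hne : ∀ u : (Cub e k)ˣ, (u : Cub e k) ≠ 0 := fun u h0 =>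
    nm_ne_zero u (by rw [h0]; simp [nm])
  choose c hc0 hc _ using fun v : P k => exists_prim v (hne (w v)⁻¹)
  choose m hm using fun v : P k => Val_exists_exp_le ((val v).ne_zero_iff.2 (hc0 v))
  set F := (finite_over_prime (k := k) p).toFinset with hF
  have hγ : ∀ v ∈ F, exp (-((F.sup m + 1 : ℕ) : ℤ)) < val v (c v) := fun v hv => by
    refine lt_of_lt_of_le ?_ (hm v)
    have := Finset.le_sup (f := m) hv
    rw [exp_lt_exp]
    push_cast
    omega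
  obtain ⟨x0, h0, -⟩ := approx F (fun v => (w v : Cub e k).c0) _
    (exp_ne_zero (a := -((F.sup m + 1 : ℕ) : ℤ)))
  obtain ⟨x1, h1, -⟩ := approx F (fun v => (w v : Cub e k).c1) _
    (exp_ne_zero (a := -((F.sup m + 1 : ℕ) : ℤ)))
  obtain ⟨x2, h2, -⟩ := approx F (fun v => (w v : Cub e k).c2) _
    (exp_ne_zero (a := -((F.sup m + 1 : ℕ) : ℤ)))
  set x : Cub e k := ⟨x0, x1, x2⟩ with hx
  have key : ∀ v : P k, val v ((p : ℕ) : k) < 1 →
      Sm v (x * (((w v)⁻¹ : (Cub e k)ˣ) : Cub e k) - 1) := fun v hv => by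
    have hv' : v ∈ F := (Set.Finite.mem_toFinset _).2 hv
    have a : ∀ t : k, val v t ≤ exp (-((F.sup m + 1 : ℕ) : ℤ)) → val v ((c v)⁻¹ * t) < 1 := by
      intro t ht
      rw [map_mul, map_inv₀, inv_mul_lt_one₀ (zero_lt_iff.2 ((val v).ne_zero_iff.2 (hc0 v)))]
      exact ht.trans_lt (hγ v hv')
    have b : Sm v ((c v)⁻¹ • (x - (w v : Cub e k))) :=
      ⟨a _ (h0 v hv'), a _ (h1 v hv'), a _ (h2 v hv')⟩
    have b2 := b.mul_right (hc v)
    rwa [smul_mul_smul_comm, inv_mul_cancel₀ (hc0 v), one_smul, sub_mul, Units.mul_inv] at b2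
  obtain ⟨v0, hv0⟩ := exists_over_prime k p.2
  have hu : IsUnit x := isUnit_iff.2 fun h0 => by
    have := (key v0 hv0).val_nm.2
    rw [nm_mul, h0, zero_mul, map_zero] at this
    exact zero_ne_one this
  obtain ⟨z, hz⟩ := hu
  have main : ∀ v : P k, val v ((p : ℕ) : k) < 1 →
      ((d * z ^ 2 : (Cub e k)ˣ) : Cub e k) ∈ Ov e v ∧
        (n : k) • (((d * z ^ 2)⁻¹ : (Cub e k)ˣ) : Cub e k) ∈ Ov e v := fun v hv => by
    have a := key v hv
    rw [← hz, ← Units.val_mul] at a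
    have a1 := a.val_nm.1
    have a2 := inv_mem_Ov a1 a.val_nm.2
    have e1 : d * z ^ 2 = d * w v ^ 2 * (z * (w v)⁻¹) ^ 2 := by
      rw [mul_assoc, ← mul_pow, mul_comm z, mul_inv_cancel_left]
    rw [e1, mul_inv, ← inv_pow, Units.val_mul (d * w v ^ 2), Units.val_mul (d * w v ^ 2)⁻¹,
      Units.val_pow_eq_pow_val, Units.val_pow_eq_pow_val, ← smul_mul_assoc]
    exact ⟨mul_mem (hw v hv).1 (pow_mem a1 2), mul_mem (hw v hv).2 (pow_mem a2 2)⟩
  exact ⟨z, mem_Ord_iff.2 fun v hv => (main v hv).1, mem_Ord_iff.2 fun v hv => (main v hv).2⟩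

theorem mem_usq_Ord_iff {p : Nat.Primes} {d : (Cub e k)ˣ} :
    d ∈ usq (Ord p e k) ↔ ∀ v : P k, val v ((p : ℕ) : k) < 1 → d ∈ usv e v := by
  constructor
  · rintro ⟨z, h1, h2⟩ v hv
    exact ⟨z, mem_Ord_iff.1 h1 v hv, mem_Ord_iff.1 h2 v hv⟩
  · intro h
    have := glue 1 p (d := d) fun v hv => by
      rw [Nat.cast_one]
      simp only [one_smul]
      exact h v hv
    rw [Nat.cast_one] at this
    simp only [one_smul] at this
    exact this

/-- at `v ∣ l ∈ D`: `d z^2 = 1 + ε` or `d τ z^2 = 1 + ε`; in the second case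
`d (τ z)^2 = τ (1 + ε)`, `τ⁻¹ = (f r)⁻¹ • lin e r` (`lin_mul_tau`) and
`val v n ≤ exp (-1) = val v (f r)` because `l ∣ n` -/
theorem Nice.dfc {D : Finset ℕ} (h : Nice e D k) {n : ℕ} (hn : ∀ l ∈ D, l ∣ n)
    {d : (Cub e k)ˣ} (hd : d ∈ Z e D k) : Dfc n d := by
  intro p
  obtain ⟨-, -, h3, h4⟩ := mem_Z.1 hd
  refine glue n p fun v _ => ?_
  have easy : d ∈ usv e v → ∃ z : (Cub e k)ˣ, ((d * z ^ 2 : (Cub e k)ˣ) : Cub e k) ∈ Ov e v ∧
      (n : k) • (((d * z ^ 2)⁻¹ : (Cub e k)ˣ) : Cub e k) ∈ Ov e v := fun ⟨z, h1, h2⟩ =>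
    ⟨z, h1, smul_mem_Ov (val_natCast_le_one v n) h2⟩
  by_cases hl : ∃ l ∈ D, val v (l : k) < 1
  · obtain ⟨l, hl, hv⟩ := hl
    rcases h3 l hl v hv with h5 | ⟨z, h5⟩
    · exact easy (sqv_le_usv h5)
    · have hf := (h.ty l hl v hv).2.1
      set r := rt e l with hr
      have hf0 : fv e (r : k) ≠ 0 := (val v).ne_zero_iff.1 (hf ▸ exp_ne_zero)
      have a1 := h5.val_nm.1
      have a2 := inv_mem_Ov a1 h5.val_nm.2
      have e1 : d * (tauU e k r * z) ^ 2 = tauU e k r * (d * tauU e k r * z ^ 2) := by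
        rw [mul_pow, sq (tauU e k r)]
        ac_rfl
      have e2 : (((tauU e k r)⁻¹ : (Cub e k)ˣ) : Cub e k) = (fv e (r : k))⁻¹ • lin e (r : k) := by
        refine Units.inv_eq_of_mul_eq_one_right ?_
        rw [tauU_val hf0, mul_smul_comm, mul_comm, lin_mul_tau, Algebra.algebraMap_eq_smul_one,
          smul_smul, inv_mul_cancel₀ hf0, one_smul]
      have hn' : val v ((n : k) * (fv e (r : k))⁻¹) ≤ 1 := by
        obtain ⟨m, rfl⟩ := hn l hl
        rw [map_mul, map_inv₀, hf, mul_inv_le_iff₀ (zero_lt_iff.2 exp_ne_zero), one_mul,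
          Nat.cast_mul, map_mul]
        exact (mul_le_of_le_one_right' (val_natCast_le_one v m)).trans (val_le_exp hv)
      refine ⟨tauU e k r * z, ?_, ?_⟩
      · rw [e1, Units.val_mul, tauU_val hf0]
        exact mul_mem (tau_mem_Ov (val_int_le v r)) a1
      · rw [e1, mul_inv, Units.val_mul, e2, ← smul_mul_assoc, smul_smul]
        exact mul_mem (smul_mem_Ov hn' (lin_mem_Ov (val_int_le v r))) a2
  · exact easy (h4 v fun l h1 h2 => hl ⟨l, h1, h2⟩)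

/-- as `exists_loc` (`ordp_den`): `z p = 1` outside the primes dividing a common denominator -/
theorem Dfc.exists_locD {n : ℕ} {d : (Cub e k)ˣ} (h : Dfc n d) : ∃ z, LocD n d z := by
  classical
  choose w hw using h
  obtain ⟨M, hM, k1⟩ := ordp_den (d : Cub e k)
  obtain ⟨M', hM', k2⟩ := ordp_den ((d⁻¹ : (Cub e k)ˣ) : Cub e k)
  refine ⟨fun p => if (p : ℕ) ∣ M * M' then w p else 1, ?_, fun p => ?_⟩
  · have hf : {p : Nat.Primes | (p : ℕ) ∣ M * M'}.Finite :=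
      (Set.finite_Iic (M * M')).preimage (f := fun p : Nat.Primes => (p : ℕ))
        Nat.Primes.coe_nat_injective.injOn |>.subset
        fun p hp => Nat.le_of_dvd (Nat.pos_of_ne_zero (mul_ne_zero hM hM')) hp
    refine ((hf.image w).insert 1).subset ?_
    rintro _ ⟨p, rfl⟩
    by_cases hp : (p : ℕ) ∣ M * M'
    · exact Or.inr ⟨p, hp, (if_pos hp).symm⟩
    · exact Or.inl (if_neg hp)
  · by_cases hp : (p : ℕ) ∣ M * M'
    · simp only [if_pos hp]
      exact hw p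
    · simp only [if_neg hp, one_pow, mul_one]
      refine ⟨k1 p fun h => hp (h.mul_right _), ?_⟩
      rw [Nat.cast_smul_eq_nsmul]
      exact nsmul_mem (k2 p fun h => hp (h.mul_left _)) n

omit [NumberField k] in
theorem LocD.loc {d : (Cub e k)ˣ} {z : Nat.Primes → (Cub e k)ˣ} (h : LocD 1 d z) : Loc d z := by
  refine ⟨h.1, fun p => ⟨(h.2 p).1, ?_⟩⟩
  have := (h.2 p).2
  rwa [Nat.cast_one, one_smul] at this

omit [NumberField k] in
/-- for a real root `r`: `nm x = ev r x * q`, where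
`q = α^2 - r α β + (r^2 + A) β^2`, `α = x0 - (r^2 + A) x2`, `β = x1 - r x2`, and
`4 q = (2 α - r β)^2 + (3 r^2 + 4 A) β^2 ≥ 0`; `nm x` is a nonzero real square -/
theorem nsq_le_pos (h : 0 < e.1) : nsq e k ≤ pos e k := by
  rintro d ⟨ν, hν⟩ ρ r hr
  have h0 : ν ≠ 0 := fun h0 => nm_ne_zero d (by rw [hν, h0, sq, mul_zero])
  have h1 : 0 < nm (map ρ (d : Cub e k)) := by
    rw [nm_map, hν, map_pow]
    exact sq_pos_of_ne_zero ((map_ne_zero ρ).2 h0)
  generalize map ρ (d : Cub e k) = x at h1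
  have hA : (0 : ℝ) < e.1 := by exact_mod_cast h
  have hB : (e.2 : ℝ) = -r ^ 3 - e.1 * r := by linarith
  have e1 : nm x = ev r hr x * (((2 * (x.c0 - (r ^ 2 + e.1) * x.c2) - r * (x.c1 - r * x.c2)) ^ 2 +
      (3 * r ^ 2 + 4 * e.1) * (x.c1 - r * x.c2) ^ 2) / 4) := by
    rw [ev_apply, nm, hB]
    ring
  rw [e1] at h1
  exact pos_of_mul_pos_left h1 (by positivity)

end Pool.Agent.Lib.MP_775b3b_nt
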