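import Pool.Agent.Lib.MP_775b3b_nt.ZEis
import Pool.Agent.Lib.MP_775b3b_nt.ZOver

/-! The condition above two: points and descent. -/

namespace Pool.Agent.Lib.MP_775b3b_nt

open Cub MP_439fea_co WithZero

variable {e : ℤ × ℤ} {k k' : Type*} [Field k] [NumberField k] [Field k'] [NumberField k']
  {v : P k}

theorem zl2a_mem (h : Eis e v) {δ : (Cub e k)ˣ} (z : Cub e k)
    (h1 : val v (nm ((δ : Cub e k) * z ^ 2)) = 1) (h2 : val v ((δ : Cub e k) * z ^ 2).c1 < 1) :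
    δ ∈ L2 e v := by
  obtain ⟨z, rfl⟩ : IsUnit z := isUnit_iff.2 fun h0 => by
    rw [nm_mul, nm_pow, h0] at h1
    simp at h1
  rw [← Units.val_pow_eq_pow_val, ← Units.val_mul] at h1 h2
  exact fun _ _ => ⟨z, h.mem_Ov h1.le, h1, h2⟩

theorem zl2a_mul {a b : k} {m n : ℤ} (ha : val v a ≤ exp m) (hb : val v b ≤ exp n) :
    val v (a * b) ≤ exp (m + n) := by
  rw [map_mul, exp_add]
  exact mul_le_mul' ha hb

theorem zl2a_lt {a : k} {m n : ℤ} (ha : val v a ≤ exp m) (h : m < n) : val v a < exp n :=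
  ha.trans_lt (exp_lt_exp.2 h)

theorem zl2a_c1 (h : Eis2 e v) {a s : Cub e k} (ha : a ∈ Ov e v) (hs : s ∈ Ov e v)
    (h1 : val v a.c1 < 1) : val v (a * s ^ 2).c1 < 1 := by
  have h2 : val v (2 : k) < 1 := zl2a_lt (n := 0) h.1.le (by norm_num)
  have hA : val v (e.1 : k) < 1 := h.eis.1
  have hB : val v (e.2 : k) < 1 := zl2a_lt (n := 0) h.2.2.le (by norm_num)
  have hq := pow_mem hs 2
  have h3 : val v (s ^ 2).c1 < 1 := by
    have e1 : (s ^ 2).c1 = 2 * (s.c0 * s.c1 - (e.1 : k) * (s.c1 * s.c2)) -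
        (e.2 : k) * (s.c2 * s.c2) := by
      simp [sq]
      ring
    rw [e1]
    exact Valuation.map_sub_lt _ (lociso_mul_lt v h2 (sub_mem (S := Subring k)
      (mul_mem hs.1 hs.2.1) (mul_mem hA.le (mul_mem hs.2.1 hs.2.2))))
      (lociso_mul_lt v hB (mul_mem (S := Subring k) hs.2.2 hs.2.2))
  rw [mul_c1]
  refine Valuation.map_sub_lt _ (Valuation.map_sub_lt _ (Valuation.map_add_lt _ ?_
    (lociso_mul_lt v h1 hq.1)) (lociso_mul_lt v hA ?_)) (lociso_mul_lt v hB ?_)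
  · rw [mul_comm]
    exact lociso_mul_lt v h3 ha.1
  · exact add_mem (S := Subring k) (mul_mem ha.2.1 hq.2.2) (mul_mem ha.2.2 hq.2.1)
  · exact mul_mem (S := Subring k) ha.2.2 hq.2.2

/-- `nm δ = y^2 ≠ 0`.  If `1 ≤ val v x`, then `val v y ^ 2 = val v x ^ 3`; with the scalar
`z = x / y`: `δ z^2 = (x^3 / y^2) • (1 - (d / x) • θ)`.  `val v x = exp (-1)` is impossible
(`val v y ^ 2 = exp (-3)`).  If `val v x ≤ exp (-2)` then `val v y ^ 2 = exp (-4)`, take `z = θ⁻¹ ^ 2`: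
`u = δ θ⁻¹ ^ 4` has norm `y^2 / B^4` of valuation 1, so `u ∈ Ov` (`Eis.mem_Ov`); with
`θ⁻¹ = -B⁻¹ • (θ^2 + A)` one computes `θ⁻¹ ^ 3` and `θ⁻¹ ^ 4` and
`u.c1 = x * (θ⁻¹ ^ 4).c1 - d * (θ⁻¹ ^ 3).c1` with `(θ⁻¹ ^ 3).c1 = A / B^2`,
`(θ⁻¹ ^ 4).c1 = -A^2 / B^3`; both terms have valuation `< 1`. -/
theorem pt_mem_L2 (h : Eis2 e v) {d x y : k} (hd : val v d = exp (-1 : ℤ))
    (hxy : y ^ 2 = x ^ 3 + (e.1 : k) * d ^ 2 * x + (e.2 : k) * d ^ 3) {δ : (Cub e k)ˣ}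
    (hδ : (δ : Cub e k) = algebraMap k (Cub e k) x - d • th) : δ ∈ L2 e v := by
  have hδ' : (δ : Cub e k) = ⟨x, -d, 0⟩ := by
    rw [hδ]
    ext <;> simp
  have hn : nm (δ : Cub e k) = y ^ 2 := by
    rw [hδ', hxy]
    simp [nm]
    ring
  have hy : y ≠ 0 := fun h0 => nm_ne_zero δ (by rw [hn, h0]; simp)
  have hd2 : val v ((e.1 : k) * d ^ 2) ≤ exp (-4 : ℤ) := by
    rw [sq]
    exact zl2a_mul h.2.1 (zl2a_mul hd.le hd.le)
  have hd3 : val v ((e.2 : k) * d ^ 3) = exp (-4 : ℤ) := by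
    rw [map_mul, map_pow, h.2.2, hd, ← exp_nsmul, ← exp_add]
    rfl
  have hdom : ∀ m : ℤ, -1 ≤ m → val v x = exp m → val v (y ^ 2) = val v (x ^ 3) := by
    intro m hm hx
    have e1 : val v (x ^ 3) = exp (3 * m) := by
      rw [map_pow, hx, ← exp_nsmul]
      simp
    rw [hxy, add_assoc]
    refine Valuation.map_add_eq_of_lt_left _ ?_
    rw [e1]
    exact Valuation.map_add_lt _ (zl2a_lt (zl2a_mul hd2 hx.le) (by omega))
      (zl2a_lt hd3.le (by omega))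
  by_cases hx : val v x ≤ exp (-2 : ℤ)
  · have hB : (e.2 : k) ≠ 0 := fun h0 => by
      have h1 := h.2.2
      rw [h0, map_zero] at h1
      exact exp_ne_zero h1.symm
    have e1 : val v (y ^ 2) = exp (-4 : ℤ) := by
      rw [hxy, Valuation.map_add_eq_of_lt_right _ ?_, hd3]
      rw [hd3, pow_succ, sq]
      exact Valuation.map_add_lt _ (zl2a_lt (zl2a_mul (zl2a_mul hx hx) hx) (by norm_num))
        (zl2a_lt (zl2a_mul hd2 hx) (by norm_num))
    have e2 : val v (e.2 : k)⁻¹ = exp (1 : ℤ) := by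
      rw [map_inv₀, h.2.2, ← exp_neg, neg_neg]
    refine zl2a_mem h.eis (((e.2 : k)⁻¹ • (⟨e.1, 0, 1⟩ : Cub e k)) ^ 2) ?_ ?_
    · have e3 : nm ((e.2 : k)⁻¹ • (⟨e.1, 0, 1⟩ : Cub e k)) = (e.2 : k)⁻¹ := by
        rw [nm_smul]
        simp [nm]
        field_simp
      rw [nm_mul, nm_pow, nm_pow, hn, e3, map_mul, e1, map_pow, map_pow, e2, ← exp_nsmul,
        ← exp_nsmul, ← exp_add]
      rfl
    · have e3 : ((δ : Cub e k) * (((e.2 : k)⁻¹ • (⟨e.1, 0, 1⟩ : Cub e k)) ^ 2) ^ 2).c1 =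
          -(x * (((e.1 : k) * (e.2 : k)⁻¹) * ((e.1 : k) * (e.2 : k)⁻¹) * (e.2 : k)⁻¹)) -
            d * ((e.1 : k) * (e.2 : k)⁻¹ * (e.2 : k)⁻¹) := by
        rw [hδ']
        simp [sq]
        field_simp
        ring
      have e4 := zl2a_mul h.2.1 e2.le
      rw [e3]
      refine Valuation.map_sub_lt _ ?_
        (zl2a_lt (n := 0) (zl2a_mul hd.le (zl2a_mul e4 e2.le)) (by norm_num))
      rw [Valuation.map_neg]
      exact zl2a_lt (n := 0) (zl2a_mul hx (zl2a_mul (zl2a_mul e4 e4) e2.le)) (by norm_num)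
  · have hx0 : val v x ≠ 0 := fun h0 => hx (by rw [h0]; exact zero_le)
    have hx1 : x ≠ 0 := (Valuation.ne_zero_iff _).1 hx0
    obtain ⟨m, hm⟩ : ∃ m : ℤ, val v x = exp m := ⟨_, (exp_log hx0).symm⟩
    rw [hm, exp_le_exp] at hx
    have e1 := hdom m (by omega) hm
    have hm0 : 0 ≤ m := by
      obtain ⟨n, hn'⟩ : ∃ n : ℤ, val v y = exp n :=
        ⟨_, (exp_log ((Valuation.ne_zero_iff _).2 hy)).symm⟩
      rw [map_pow, map_pow, hm, hn', ← exp_nsmul, ← exp_nsmul, exp_inj] at e1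
      simp only [nsmul_eq_mul, Nat.cast_ofNat] at e1
      omega
    have e2 : val v (x ^ 3 / y ^ 2) = 1 := by
      rw [map_div₀, e1]
      exact div_self ((Valuation.ne_zero_iff _).2 (pow_ne_zero _ hx1))
    refine zl2a_mem h.eis (algebraMap k (Cub e k) (x / y)) ?_ ?_
    · have e3 : y ^ 2 * ((x / y) ^ 3) ^ 2 = (x ^ 3 / y ^ 2) ^ 2 := by field_simp
      rw [nm_mul, nm_pow, nm_algebraMap, hn, e3, map_pow, e2, one_pow]
    · have e3 : ((δ : Cub e k) * algebraMap k (Cub e k) (x / y) ^ 2).c1 =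
          -(d * x⁻¹ * (x ^ 3 / y ^ 2)) := by
        rw [hδ']
        simp [sq]
        field_simp
      have e4 : val v x⁻¹ = exp (-m) := by rw [map_inv₀, hm, exp_neg]
      rw [e3, Valuation.map_neg]
      exact lociso_mul_lt v (zl2a_lt (n := 0) (zl2a_mul hd.le e4.le) (by omega)) e2.le

/-- `u = d z^2` a unit of `Ov e v` (`Eis.auto`, `Over.eis`), `φ(d) z'^2 = φ(u) y^2` with
`y = z' / φ(z)` of unit norm, so `y ∈ Ov e w` (`Eis.mem_Ov`) and `val w y.c0 = 1` (the norm is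
`y0^3` up to small terms).  `(φ(u) y^2).c1 - φ(u.c1) y0^2` is small because `2, A, B` are small. -/
theorem L2_desc {φ : k →+* k'} {w : P k'} (ho : Over φ w v) (h : Eis2 e w) {d : (Cub e k)ˣ}
    (hd : d ∈ nsq e k) (hw : uz e φ d ∈ L2 e w) : d ∈ L2 e v := by
  intro hA hB
  obtain ⟨z, hu, hn⟩ := mem_usv.1 ((ho.eis.1 h.eis).auto hd)
  obtain ⟨z', hu', hn', h1⟩ := hw h.eis.1 (zl2a_lt (n := 0) h.2.2.le (by norm_num))
  refine ⟨z, hu, hn, ?_⟩
  have e1 : map φ ((d * z ^ 2 : (Cub e k)ˣ) : Cub e k) =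
      ((uz e φ d * z' ^ 2 : (Cub e k')ˣ) : Cub e k') *
        ((uz e φ z * z'⁻¹ : (Cub e k')ˣ) : Cub e k') ^ 2 := by
    rw [← uz_val, ← Units.val_pow_eq_pow_val, ← Units.val_mul, map_mul, map_pow, mul_assoc,
      ← mul_pow, mul_comm z', inv_mul_cancel_right]
  have e2 := congrArg (fun t => val w (nm t)) e1
  simp only [nm_map, nm_mul, nm_pow] at e2
  rw [ho, hn, map_mul, hn', one_mul, map_pow] at e2
  have e3 := zl2a_c1 h hu' (h.eis.mem_Ov ((pow_le_one_iff two_ne_zero).1 e2.ge)) h1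
  rwa [← e1, map_c1, ho] at e3

end Pool.Agent.Lib.MP_775b3b_nt
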