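import Pool.Agent.Lib.MP_775b3b_nt.ZTy1
import Pool.Agent.Lib.MP_775b3b_nt.ZOver

/-! Factorisation at a twisting place, and descent. -/

namespace Pool.Agent.Lib.MP_775b3b_nt

open Cub MP_439fea_co WithZero

variable {e : ℤ × ℤ} {k k' : Type} [Field k] [NumberField k] [Field k'] [NumberField k']
  {v : P k} {r : ℤ}

/-- a small element is divisible by a uniformiser -/
theorem ZTy2_div {f : k} (hf : val v f = exp (-1 : ℤ)) {y : Cub e k} (hy : Sm v y) :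
    f⁻¹ • y ∈ Ov e v := by
  have key : ∀ a : k, val v a < 1 → val v (f⁻¹ * a) ≤ 1 := fun a ha => by
    rw [map_mul, map_inv₀, hf, ← exp_neg, neg_neg]
    calc exp (1 : ℤ) * val v a ≤ exp (1 : ℤ) * exp (-1 : ℤ) := mul_le_mul_right (val_le_exp ha) _
      _ = 1 := by rw [← exp_add]; simp
  exact ⟨key _ hy.1, key _ hy.2.1, key _ hy.2.2⟩

omit [NumberField k] in
theorem ZTy2_mul {f : k} (hf : f ≠ 0) {x a b : Cub e k}
    (h : a * b = algebraMap k (Cub e k) f) : f⁻¹ • (x * a) * b = x := by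
  rw [smul_mul_assoc, mul_assoc, h, mul_comm, ← Algebra.smul_def, smul_smul, inv_mul_cancel₀ hf,
    one_smul]

theorem ZTy2_val {a : ℤᵐ⁰} {m n : ℤ} (h : a * exp m = exp n) : a = exp (n - m) := by
  rw [exp_sub, ← h, mul_div_cancel_right₀ _ exp_ne_zero]

/-- strong induction on `n`.  If `n > 0`, `FT.zero_div` gives `Sm v (x τ)` or `Sm v (x a)`,
`a = lin e r`; put `x' = f(r)⁻¹ • (x τ) ∈ Ov`, `x = x' a`, `val v (nm x') = exp (-(n - 1))`, or
`x' = f(r)⁻¹ • (x a)`, `x = x' τ`, `val v (nm x') = exp (-(n - 2)) ≤ 1`. -/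
theorem TyV.factor (h : TyV e v r) (n : ℕ) {x : Cub e k} (hx : x ∈ Ov e v)
    (hn : val v (nm x) = exp (-(n : ℤ))) : ∃ (u : Cub e k) (i j : ℕ), u ∈ Ov e v ∧
      val v (nm u) = 1 ∧ x = u * lin e (r : k) ^ i * tau e (r : k) ^ j ∧ i + 2 * j = n := by
  obtain ⟨κ, _, _, ρ, hρ⟩ := exists_redAt v
  have hF := h.ft hρ
  have hr : val v (r : k) ≤ 1 := val_int_le v r
  have hf := h.fv_ne
  induction n using Nat.strong_induction_on generalizing x with
  | _ n ih =>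
    rcases Nat.eq_zero_or_pos n with rfl | hn0
    · exact ⟨x, 0, 0, hx, by simpa using hn, by simp, rfl⟩
    have h0 : nm (rdC ρ x) = 0 := by
      rw [nm_rdC ρ hx, hρ.rd_eq_zero (val_nm_le hx), hn, ← exp_zero, exp_lt_exp]
      omega
    rcases hF.zero_div h0 with h1 | h1
    · rw [← rd_intCast ρ r, ← rdC_tau ρ hr, ← rdC_mul ρ hx (tau_mem_Ov hr),
        hρ.rdC_eq_zero (mul_mem hx (tau_mem_Ov hr))] at h1
      have h2 := ZTy2_div h.2.1 h1
      have h3 := ZTy2_mul hf (x := x) ((mul_comm _ _).trans (lin_mul_tau (r : k)))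
      generalize (fv e (r : k))⁻¹ • (x * tau e (r : k)) = x' at h2 h3
      subst h3
      rw [nm_mul, nm_lin, map_mul, h.2.1] at hn
      obtain ⟨u, i, j, a1, a2, a3, a4⟩ := ih (n - 1) (by omega) h2
        (by rw [ZTy2_val hn]; congr 1; omega)
      exact ⟨u, i + 1, j, a1, a2, by rw [a3]; ring, by omega⟩
    · rw [← rd_intCast ρ r, ← rdC_lin ρ hr, ← rdC_mul ρ hx (lin_mem_Ov hr),
        hρ.rdC_eq_zero (mul_mem hx (lin_mem_Ov hr))] at h1
      have h2 := ZTy2_div h.2.1 h1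
      have h3 := ZTy2_mul hf (x := x) (lin_mul_tau (r : k))
      generalize (fv e (r : k))⁻¹ • (x * lin e (r : k)) = x' at h2 h3
      subst h3
      rw [nm_mul, nm_tau, map_mul, map_pow, h.2.1, ← exp_nsmul] at hn
      have h4 := val_nm_le h2
      rw [ZTy2_val hn, ← exp_zero, exp_le_exp] at h4
      simp only [nsmul_eq_mul, Nat.cast_ofNat] at h4 hn
      obtain ⟨u, i, j, a1, a2, a3, a4⟩ := ih (n - 2) (by omega) h2
        (by rw [ZTy2_val hn]; congr 1; omega)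
      exact ⟨u, i, j + 1, a1, a2, by rw [a3]; ring, by omega⟩

/-- `c^2 • d ∈ Ov` for a suitable scalar `c`; its norm is a square, so `n` and `i` are even -/
theorem TyV.usv_or (h : TyV e v r) {d : (Cub e k)ˣ} (hd : d ∈ nsq e k) :
    d ∈ usv e v ∨ d * tauU e k r ∈ usv e v := by
  have hf := h.fv_ne
  have hd0 : (d : Cub e k) ≠ 0 := fun h0 => nm_ne_zero d (by rw [h0]; simp [nm])
  obtain ⟨c, hc0, hc⟩ : ∃ c : k, c ≠ 0 ∧ c ^ 2 • (d : Cub e k) ∈ Ov e v := by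
    obtain ⟨c, hc0, hc, -⟩ := exists_prim v hd0
    rcases le_total (val v c) 1 with h1 | h1
    · exact ⟨c, hc0, by rw [sq, mul_smul]; exact smul_mem_Ov h1 hc⟩
    · refine ⟨1, one_ne_zero, ?_⟩
      have h2 := smul_mem_Ov (a := c⁻¹) (by rw [map_inv₀]; exact inv_le_one_of_one_le₀ h1) hc
      rwa [smul_smul, inv_mul_cancel₀ hc0, ← one_pow 2] at h2
  obtain ⟨ν, hν⟩ := hd
  have hν0 : ν ≠ 0 := fun h0 => nm_ne_zero d (by rw [hν, h0]; simp)
  have h1 : val v (nm (c ^ 2 • (d : Cub e k))) = exp (2 * -ord v (c ^ 3 * ν)) := by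
    rw [nm_smul, hν, show (c ^ 2) ^ 3 * ν ^ 2 = (c ^ 3 * ν) ^ 2 by ring, map_pow,
      val_eq_exp v (mul_ne_zero (pow_ne_zero _ hc0) hν0), ← exp_nsmul]
    simp
  have h2 := val_nm_le hc
  rw [h1, ← exp_zero, exp_le_exp] at h2
  obtain ⟨u, i, j, a1, a2, a3, a4⟩ := h.factor (2 * (ord v (c ^ 3 * ν)).toNat) hc
    (by rw [h1]; congr 1; omega)
  obtain ⟨U, rfl⟩ : IsUnit u := isUnit_iff.2 fun h0 => by simp [h0] at a2
  obtain ⟨A, hA⟩ : IsUnit (lin e (r : k)) := isUnit_iff.2 (by rw [nm_lin]; exact hf)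
  obtain ⟨C, hC⟩ : IsUnit (algebraMap k (Cub e k) c) := (IsUnit.mk0 c hc0).map _
  have h3 : d * C ^ 2 = U * A ^ i * tauU e k r ^ j := by
    ext1
    simp only [Units.val_mul, Units.val_pow_eq_pow_val]
    rw [tauU_val hf, hA, hC, ← a3, Algebra.smul_def, map_pow, mul_comm]
  have hU : U ∈ usv e v := mem_usv.2 ⟨1, by simpa using a1, by simpa using a2⟩
  have hsq : ∀ z : (Cub e k)ˣ, z ^ 2 ∈ usv e v := fun z => sqv_le_usv (SQ_le_sqv (sq_mem_SQ z))
  obtain ⟨i', rfl⟩ : ∃ i', i = 2 * i' := ⟨i / 2, by omega⟩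
  have h4 : d = U * (A ^ i' * C⁻¹) ^ 2 * tauU e k r ^ j := by
    rw [eq_mul_inv_of_mul_eq h3, mul_pow, inv_pow, ← pow_mul, mul_comm i' 2]
    simp only [mul_assoc, mul_comm, mul_left_comm]
  rcases Nat.even_or_odd' j with ⟨j', rfl | rfl⟩
  · refine Or.inl ?_
    rw [h4, mul_comm 2 j', pow_mul]
    exact mul_mem (mul_mem hU (hsq _)) (hsq _)
  · refine Or.inr ?_
    rw [h4, mul_assoc, ← pow_succ, show 2 * j' + 1 + 1 = (j' + 1) * 2 by ring, pow_mul]
    exact mul_mem (mul_mem hU (hsq _)) (hsq _)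

/-- `usv_or` at `v` (`Over.tyV`).  The second case gives `τ ∈ usv e w`.  In the first,
`u = d z^2`, `φ u ∈ sqv e w`, `evr_of_sqv` at `w`, `SqDesc`, `sqv_of_evr` at `v`. -/
theorem sqv_desc {φ : k →+* k'} {w : P k'} (ho : Over φ w v) (hw : TyV e w r) (hs : SqDesc φ w)
    {d : (Cub e k)ˣ} (hd : d ∈ nsq e k) (h : uz e φ d ∈ sqv e w) : d ∈ sqv e v := by
  have hv := ho.tyV hw
  rcases hv.usv_or hd with h1 | h1
  · obtain ⟨z, a1, a2⟩ := mem_usv.1 h1
    have h2 : uz e φ (d * z ^ 2) ∈ sqv e w := by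
      rw [map_mul, map_pow]
      exact mul_mem h (SQ_le_sqv (sq_mem_SQ _))
    have h3 := hw.evr_of_sqv (ho.mem_Ov.2 a1) (by rw [uz_val, nm_map, ho, a2]) h2
    have h4 : ∀ x : Cub e k, evr (r : k') (map φ x) = φ (evr (r : k) x) := fun x => by
      simp [evr]
    rw [uz_val, h4] at h3
    obtain ⟨y, hy⟩ := hs _ (by rw [ho, hv.val_evr a1 a2]) h3
    rw [ho] at hy
    have h5 := hv.sqv_of_evr a1 a2 (mul_mem hd (SQ_le_nsq (sq_mem_SQ z))) ⟨y, hy⟩
    have h6 := mul_mem h5 (SQ_le_sqv (v := v) (sq_mem_SQ z⁻¹))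
    rwa [mul_assoc, ← mul_pow, mul_inv_cancel, one_pow, mul_one] at h6
  · have h2 := ho.usv h1
    rw [map_mul, uz_tauU] at h2
    have h3 := mul_mem (inv_mem (sqv_le_usv h)) h2
    rw [inv_mul_cancel_left] at h3
    exact absurd h3 hw.tau_not_mem

theorem Tv_desc {φ : k →+* k'} {w : P k'} (ho : Over φ w v) (hw : TyV e w r) (hs : SqDesc φ w)
    {d : (Cub e k)ˣ} (hd : d ∈ nsq e k) (h : uz e φ d ∈ Tv e w r) : d ∈ Tv e v r := by
  rcases h with h | h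
  · exact Or.inl (sqv_desc ho hw hs hd h)
  · refine Or.inr (sqv_desc ho hw hs (mul_mem hd (tauU_mem_nsq r)) ?_)
    rwa [map_mul, uz_tauU]

end Pool.Agent.Lib.MP_775b3b_nt
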