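import Pool.Agent.Lib.MP_775b3b_nt.ZTy1

/-! Points of the twist at a twisting place. -/

namespace Pool.Agent.Lib.MP_775b3b_nt

open Cub MP_439fea_co WithZero

variable {e : ℤ × ℤ} {k : Type} [Field k] [NumberField k] {v : P k} {r : ℤ}

theorem ZTy3_ind {X s : k} (hX : val v X ≤ 1) (hs : val v s ≤ 1) (m : ℕ) :
    ∃ g ∈ Ov e v, tau e X * lin e s ^ m = (s - X) ^ m • tau e X + fv e X • g := by
  induction m with
  | zero => exact ⟨0, zero_mem _, by simp⟩
  | succ m ih =>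
    obtain ⟨g, hg, h⟩ := ih
    have hsx : val v ((s - X) ^ m) ≤ 1 :=
      (val v).integer.pow_mem (sub_mem (S := Subring k) hs hX) m
    refine ⟨algebraMap k (Cub e k) ((s - X) ^ m) + g * lin e s,
      add_mem (algebraMap_mem_Ov hsx) (mul_mem hg (lin_mem_Ov hs)), ?_⟩
    have h1 : lin e s = lin e X + algebraMap k (Cub e k) (s - X) := by
      rw [lin_eq, lin_eq, map_sub]
      ring
    have h2 := lin_mul_tau (e := e) X
    rw [pow_succ, ← mul_assoc, h]
    simp only [Algebra.smul_def, map_pow, pow_succ, map_mul]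
    linear_combination (algebraMap k (Cub e k) (s - X) ^ m * tau e X) * h1 +
      (algebraMap k (Cub e k) (s - X) ^ m) * h2

omit [NumberField k] in
theorem ZTy3_sc {c : k} (hc : c ≠ 0) :
    ∃ z : (Cub e k)ˣ, (z : Cub e k) = algebraMap k (Cub e k) c :=
  ⟨Units.map (algebraMap k (Cub e k)).toMonoidHom (Units.mk0 c hc), rfl⟩

theorem ZTy3_big {d x y : k} (hy : y ≠ 0) (hX : 1 < val v (x / d))
    (hxy : y ^ 2 = x ^ 3 + (e.1 : k) * d ^ 2 * x + (e.2 : k) * d ^ 3) {δ : (Cub e k)ˣ}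
    (hδ : (δ : Cub e k) = algebraMap k (Cub e k) x - d • th) : δ ∈ sqv e v := by
  have hx : x ≠ 0 := by
    rintro rfl
    simp at hX
  have ht : val v (d / x) < 1 := by
    rw [← inv_div, map_inv₀]
    exact inv_lt_one_of_one_lt₀ hX
  obtain ⟨z, hz⟩ := ZTy3_sc (e := e) (div_ne_zero hx hy)
  have hw : val v (y ^ 2 / x ^ 3 - 1) < 1 := by
    have h1 : y ^ 2 / x ^ 3 - 1 = d / x * ((e.1 : k) * (d / x) + (e.2 : k) * (d / x * (d / x))) := by
      rw [hxy]
      field_simp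
      ring
    rw [h1]
    have ht' : d / x ∈ (val v).integer := ht.le
    exact lociso_mul_lt v ht (add_mem (mul_mem (intCast_mem (val v).integer _) ht')
      (mul_mem (intCast_mem (val v).integer _) (mul_mem ht' ht')))
  have hw1 : val v (y ^ 2 / x ^ 3) = 1 := by
    have := Valuation.map_one_add_of_lt _ hw
    rwa [add_sub_cancel] at this
  have hw2 : val v (x ^ 3 / y ^ 2) ≤ 1 := by
    rw [← inv_div, map_inv₀, hw1, inv_one]
  refine ⟨z, ?_⟩
  rw [Units.val_mul, Units.val_pow_eq_pow_val, hz, hδ, ← map_pow]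
  refine ⟨?_, ?_, ?_⟩
  · have h1 : ((algebraMap k (Cub e k) x - d • th) * algebraMap k (Cub e k) ((x / y) ^ 2) - 1).c0 =
        -((y ^ 2 / x ^ 3 - 1) * (x ^ 3 / y ^ 2)) := by
      simp only [sub_c0, mul_c0, algebraMap_c0, algebraMap_c1, algebraMap_c2, smul_c0, th_c0, one_c0,
        Algebra.algebraMap_self, RingHom.id_apply, smul_eq_mul]
      field_simp
      ring
    rw [h1, Valuation.map_neg]
    exact lociso_mul_lt v hw hw2
  · have h1 : ((algebraMap k (Cub e k) x - d • th) * algebraMap k (Cub e k) ((x / y) ^ 2) - 1).c1 =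
        -(d / x * (x ^ 3 / y ^ 2)) := by
      simp only [sub_c1, sub_c2, mul_c1, algebraMap_c0, algebraMap_c1, algebraMap_c2, smul_c1,
        smul_c2, th_c1, th_c2, one_c1, Algebra.algebraMap_self, RingHom.id_apply, smul_eq_mul]
      field_simp
      ring
    rw [h1, Valuation.map_neg]
    exact lociso_mul_lt v ht hw2
  · have h1 : ((algebraMap k (Cub e k) x - d • th) * algebraMap k (Cub e k) ((x / y) ^ 2) - 1).c2 =
        0 := by
      simp only [sub_c2, mul_c2, algebraMap_c0, algebraMap_c1, algebraMap_c2, smul_c2, th_c2, one_c2,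
        smul_eq_mul]
      ring
    rw [h1]
    simp

theorem ZTy3_odd {d y F : k} (hd : val v d = exp (-1 : ℤ)) (hy : y ≠ 0) (hF : val v F ≤ 1)
    (h : y ^ 2 = d ^ 3 * F) : ∃ j : ℕ, val v F = exp (-1 : ℤ) ^ (2 * j + 1) := by
  have h1 : val v y ≠ 0 := (map_ne_zero _).2 hy
  have h2 : val v F ≠ 0 := by
    rw [map_ne_zero]
    rintro rfl
    exact hy (by simpa using h)
  have h3 := congrArg (val v) h
  rw [map_pow, map_mul, map_pow, hd, ← exp_log h1, ← exp_log h2, ← exp_nsmul, ← exp_nsmul,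
    ← exp_add, exp_inj] at h3
  rw [← exp_log h2, ← exp_zero, exp_le_exp] at hF
  simp only [nsmul_eq_mul, Nat.cast_ofNat] at h3
  refine ⟨(-(log (val v y)) - 2).toNat, ?_⟩
  rw [← exp_log h2, ← exp_nsmul, exp_inj]
  simp only [nsmul_eq_mul, Nat.cast_add, Nat.cast_mul, Nat.cast_ofNat, Nat.cast_one]
  omega

/-- `X = x / d`, `δ = d • lin e X`, `y^2 = d^3 f(X) = nm δ ≠ 0`.
If `1 < val v X`: with the scalar `z = x / y`, `δ z^2 = (x^3 / y^2) • (1 - X⁻¹ • θ)` and
`y^2 / x^3 = 1 + A / X^2 + B / X^3`, so `δ ∈ sqv`.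
Otherwise `val v (f X) = exp (-n)` with `n` odd (`val v y ^ 2 = exp (-3 - n)`), so `X ≡ r`
(`FT.root_unique`).  Let `b = tau e X`, `a = lin e r = lin e X + (r - X)`, `π = f(r)`,
`u = π⁻¹ ^ n • (b a^n)`.  By induction on `m ≤ n`, `b a^m = (r - X)^m • b + f(X) • g` with `g ∈ Ov`
(`lin_mul_tau`), so `u ∈ Ov`; `val v (nm u) = 1` (`nm_tau`, `nm_lin`); `τ^n u = b`, so in the
residue field `f'(r)^n evr r u = f'(r)` and `evr r u` is a square; `nm u` is a square in `k`
(`(f(X) π⁻¹ ^ n)^2`), so `u ∈ sqv` (`sqv_of_evr`); finally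
`δ τ * u * τ^(n-1) = δ b = (y / d)^2` with `n - 1` even. -/
theorem pt_mem_Tv (h : TyV e v r) {d x y : k} (hd : val v d = exp (-1 : ℤ))
    (hxy : y ^ 2 = x ^ 3 + (e.1 : k) * d ^ 2 * x + (e.2 : k) * d ^ 3) {δ : (Cub e k)ˣ}
    (hδ : (δ : Cub e k) = algebraMap k (Cub e k) x - d • th) : δ ∈ Tv e v r := by
  have hd0 : d ≠ 0 := by
    rintro rfl
    rw [map_zero] at hd
    exact exp_ne_zero hd.symm
  have hδ' : (δ : Cub e k) = d • lin e (x / d) := by
    rw [hδ, lin_eq, smul_sub, Algebra.smul_def d (algebraMap k (Cub e k) (x / d)), ← map_mul,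
      mul_div_cancel₀ _ hd0]
  have hF : y ^ 2 = d ^ 3 * fv e (x / d) := by
    rw [hxy, fv]
    field_simp
  have hy : y ≠ 0 := by
    have h1 := nm_ne_zero δ
    rw [hδ', nm_smul, nm_lin, ← hF] at h1
    exact fun h2 => h1 (by rw [h2]; ring)
  rcases lt_or_ge 1 (val v (x / d)) with hX | hX
  · exact Or.inl (ZTy3_big hy hX hxy hδ)
  refine Or.inr ?_
  generalize x / d = X at hδ' hF hX
  have hr : val v (r : k) ≤ 1 := val_int_le v r
  have hFle : val v (fv e X) ≤ 1 := by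
    rw [← nm_lin]
    exact val_nm_le (lin_mem_Ov hX)
  obtain ⟨j, hj⟩ := ZTy3_odd hd hy hFle hF
  have he : exp (-1 : ℤ) < 1 := by
    rw [← exp_zero, exp_lt_exp]
    norm_num
  have hFlt : val v (fv e X) < 1 := by
    rw [hj]
    exact pow_lt_one₀ zero_le he (by omega)
  obtain ⟨κ, _, _, ρ, hρ⟩ := exists_redAt v
  have hft := h.ft hρ
  have hXr : rd ρ X = (r : κ) := hft.root_unique (by
    rw [fv_rd ρ hX]
    exact (hρ.rd_eq_zero hFle).2 hFlt)
  have hrX : val v ((r : k) - X) ≤ exp (-1 : ℤ) :=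
    val_le_exp ((hρ.rd_eq_iff hr hX).1 (by rw [hXr, rd_intCast]))
  have hπ := h.fv_ne
  have hπv := h.2.1
  obtain ⟨g, hg, hind⟩ := ZTy3_ind (e := e) hX hr (2 * j + 1)
  have hc : val v ((fv e (r : k))⁻¹ ^ (2 * j + 1) * fv e X) = 1 := by
    rw [map_mul, map_pow, map_inv₀, hπv, hj, ← mul_pow, inv_mul_cancel₀ exp_ne_zero, one_pow]
  have hc' : val v ((fv e (r : k))⁻¹ * ((r : k) - X)) ≤ 1 := by
    rw [map_mul, map_inv₀, hπv]
    exact (inv_mul_le_one₀ exp_pos).2 hrX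
  have hnm : nm ((fv e (r : k))⁻¹ ^ (2 * j + 1) • (tau e X * lin e (r : k) ^ (2 * j + 1))) =
      ((fv e (r : k))⁻¹ ^ (2 * j + 1) * fv e X) ^ 2 := by
    rw [nm_smul, nm_mul, nm_pow, nm_tau, nm_lin]
    have h1 : (fv e (r : k))⁻¹ ^ (2 * j + 1) * fv e (r : k) ^ (2 * j + 1) = 1 := by
      rw [← mul_pow, inv_mul_cancel₀ hπ, one_pow]
    linear_combination ((fv e (r : k))⁻¹ ^ (2 * j + 1) * fv e X) ^ 2 * h1
  have hnv : val v (nm ((fv e (r : k))⁻¹ ^ (2 * j + 1) •
      (tau e X * lin e (r : k) ^ (2 * j + 1)))) = 1 := by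
    rw [hnm, map_pow, hc, one_pow]
  obtain ⟨u, hu⟩ : IsUnit ((fv e (r : k))⁻¹ ^ (2 * j + 1) •
      (tau e X * lin e (r : k) ^ (2 * j + 1))) := isUnit_iff.2 (by
    intro h0
    rw [h0, map_zero] at hnv
    exact zero_ne_one hnv)
  have huO : (u : Cub e k) ∈ Ov e v := by
    rw [hu, hind, smul_add, smul_smul, smul_smul, ← mul_pow]
    exact add_mem (smul_mem_Ov ((val v).integer.pow_mem hc' _) (tau_mem_Ov hX))
      (smul_mem_Ov hc.le hg)
  have htu : tau e (r : k) ^ (2 * j + 1) * (u : Cub e k) = tau e X := by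
    rw [hu, mul_smul_comm, mul_left_comm, ← mul_pow, mul_comm (tau e (r : k)), lin_mul_tau,
      ← map_pow, mul_comm (tau e X), ← Algebra.smul_def, smul_smul, ← mul_pow,
      inv_mul_cancel₀ hπ, one_pow, one_smul]
  have hsq : u ∈ sqv e v := by
    refine h.sqv_of_evr huO (by rw [hu, hnv]) ⟨_, by rw [hu, hnm]⟩ ?_
    rw [← hρ.isSquare_iff (val_evr_le hr huO), ← evr_rdC ρ hr huO, rd_intCast]
    have h1 := congrArg (fun w => evr (r : κ) (rdC ρ w)) htu
    beta_reduce at h1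
    rw [rdC_mul ρ (pow_mem (tau_mem_Ov hr) _) huO, rdC_pow ρ (tau_mem_Ov hr), rdC_tau ρ hr,
      rdC_tau ρ hX, hXr, rd_intCast, evr_mul hft.root, evr_pow hft.root, evr_tau] at h1
    have h2 : (r : κ) ^ 2 + r * r + r ^ 2 + (e.1 : κ) ≠ 0 := by
      have := hft.deriv_ne
      convert this using 1
      ring
    generalize (r : κ) ^ 2 + r * r + r ^ 2 + (e.1 : κ) = t at h1 h2
    refine ⟨(t ^ j)⁻¹, ?_⟩
    have h3 : t ^ j ≠ 0 := pow_ne_zero _ h2
    field_simp
    apply mul_left_cancel₀ h2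
    linear_combination h1
  obtain ⟨s, hs⟩ := ZTy3_sc (e := e) (div_ne_zero hy hd0)
  have hfin : δ * tauU e k r * u * (tauU e k r ^ j) ^ 2 = s ^ 2 := by
    ext1
    simp only [Units.val_mul, Units.val_pow_eq_pow_val, tauU_val hπ, hs]
    have h1 : (y / d) ^ 2 = d * fv e X := by
      rw [div_pow, hF]
      field_simp
    rw [← map_pow, h1, map_mul, ← lin_mul_tau, ← htu, hδ', Algebra.smul_def]
    ring
  have h5 : δ * tauU e k r = s ^ 2 * ((tauU e k r ^ j) ^ 2)⁻¹ * u⁻¹ := by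
    rw [← hfin]
    simp
  rw [h5]
  exact mul_mem (mul_mem (SQ_le_sqv (sq_mem_SQ _)) (inv_mem (SQ_le_sqv (sq_mem_SQ _))))
    (inv_mem hsq)

/-- `lociso_unit`, `val v 4 = 1` -/
theorem usv_iso (h2 : val v (2 : k) = 1) {d : (Cub e k)ˣ} (hd : d ∈ usv e v) :
    LocIso v (d : Cub e k) := by
  obtain ⟨z, h1, h3⟩ := hd
  obtain ⟨a, b, h4, h5, h6⟩ := lociso_unit v h1 h3 (Units.inv_mul _)
  have h7 : val v (4 : k) = 1 := by
    rw [show (4 : k) = 2 * 2 by norm_num, map_mul, h2, one_mul]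
  have h8 : ∀ a b : Cub e k, Bf (d : Cub e k) (z * a) (z * b) =
      (((d * z ^ 2 : (Cub e k)ˣ) : Cub e k) * a * b).c2 := by
    intro a b
    rw [Bf, Units.val_mul, Units.val_pow_eq_pow_val]
    congr 1
    ring
  exact ⟨z * a, z * b, by rwa [h8], by rwa [h8], by rwa [h8, h7]⟩

/-- first case `usv_iso`.  Second case: `d (τ z)^2 = τ (1 + ε)`; with `z' = τ z`, `a = lin e r`
take `x = z' a θ`, `y = f(r)⁻¹ • (z' a)`; `τ a^2 = f(r) • a`, `(a θ).c2 = -1`, `a.c2 = 0`. -/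
theorem Tv_iso (h : TyV e v r) {d : (Cub e k)ˣ} (hd : d ∈ Tv e v r) : LocIso v (d : Cub e k) := by
  rcases hd with hd | ⟨z, hz⟩
  · exact usv_iso h.1 (sqv_le_usv hd)
  have hπ := h.fv_ne
  have hπv := h.2.1
  have hr : val v (r : k) ≤ 1 := val_int_le v r
  have h7 : val v (4 : k) = 1 := by
    rw [show (4 : k) = 2 * 2 by norm_num, map_mul, h.1, one_mul]
  have he : exp (-1 : ℤ) < 1 := by
    rw [← exp_zero, exp_lt_exp]
    norm_num
  rw [Units.val_mul, Units.val_mul, Units.val_pow_eq_pow_val, tauU_val hπ] at hz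
  obtain ⟨ε, hε⟩ : ∃ ε, ε = (d : Cub e k) * tau e (r : k) * (z : Cub e k) ^ 2 - 1 := ⟨_, rfl⟩
  rw [← hε] at hz
  have ha := lin_mem_Ov (e := e) hr
  have hlt := lin_mul_tau (e := e) (r : k)
  have hi : algebraMap k (Cub e k) (fv e (r : k))⁻¹ * (lin e (r : k) * tau e (r : k)) = 1 := by
    rw [hlt, ← map_mul, inv_mul_cancel₀ hπ, map_one]
  refine ⟨tau e (r : k) * (z : Cub e k) * lin e (r : k) * th,
    (fv e (r : k))⁻¹ • (tau e (r : k) * (z : Cub e k) * lin e (r : k)), ?_, ?_, ?_⟩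
  · have h1 : (d : Cub e k) * (tau e (r : k) * (z : Cub e k) * lin e (r : k) * th) *
        (fv e (r : k))⁻¹ • (tau e (r : k) * (z : Cub e k) * lin e (r : k)) =
        lin e (r : k) * th + lin e (r : k) * th * ε := by
      rw [Algebra.smul_def, hε]
      linear_combination ((d : Cub e k) * tau e (r : k) * (z : Cub e k) ^ 2 * lin e (r : k) * th) * hi
    have h2 : (lin e (r : k) * th).c2 = -1 := by simp [lin]
    rw [Bf, h1, add_c2, h2, ← Valuation.map_neg, neg_add, neg_neg]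
    refine Valuation.map_one_add_of_lt _ ?_
    rw [Valuation.map_neg]
    exact (hz.mul_left (mul_mem ha th_mem_Ov)).2.2
  · have h1 : (d : Cub e k) * (fv e (r : k))⁻¹ • (tau e (r : k) * (z : Cub e k) * lin e (r : k)) *
        (fv e (r : k))⁻¹ • (tau e (r : k) * (z : Cub e k) * lin e (r : k)) =
        (fv e (r : k))⁻¹ • (lin e (r : k) + lin e (r : k) * ε) := by
      rw [Algebra.smul_def, Algebra.smul_def, hε]
      linear_combination (algebraMap k (Cub e k) (fv e (r : k))⁻¹ * (d : Cub e k) * tau e (r : k) *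
        (z : Cub e k) ^ 2 * lin e (r : k)) * hi
    have h2 : (lin e (r : k)).c2 = 0 := rfl
    rw [Bf, h1, smul_c2, add_c2, h2, zero_add, smul_eq_mul, map_mul, map_inv₀, hπv]
    exact (inv_mul_le_one₀ exp_pos).2 (val_le_exp (hz.mul_left ha).2.2)
  · have h1 : (d : Cub e k) * (tau e (r : k) * (z : Cub e k) * lin e (r : k) * th) *
        (tau e (r : k) * (z : Cub e k) * lin e (r : k) * th) =
        fv e (r : k) • (lin e (r : k) * th * th * (1 + ε)) := by
      rw [Algebra.smul_def, hε, ← hlt]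
      ring
    rw [Bf, h1, h7]
    exact (Sm.smul_of_lt (hπv ▸ he) (mul_mem (mul_mem (mul_mem ha th_mem_Ov) th_mem_Ov)
      (add_mem (one_mem _) hz.mem))).2.2

end Pool.Agent.Lib.MP_775b3b_nt
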