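import Pool.Agent.Lib.MP_775b3b_nt.Pt
import Pool.Agent.Lib.MP_775b3b_nt.ZL2a
import Pool.Agent.Lib.MP_775b3b_nt.ZTy2
import Pool.Agent.Lib.MP_775b3b_nt.ZTy3
import Pool.Agent.Lib.MP_775b3b_nt.ZGlue

/-! Points of the twist. -/

namespace Pool.Agent.Lib.MP_775b3b_nt

open Cub MP_439fea_co WithZero

variable {e : ℤ × ℤ}

/-- `θ' ↦ d θ` -/
def twHom (e : ℤ × ℤ) (d : ℤ) (R : Type*) [CommRing R] : Cub (tw e d) R →+* Cub e R where
  toFun x := ⟨x.c0, d * x.c1, d ^ 2 * x.c2⟩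
  map_one' := by ext <;> simp
  map_mul' x y := by
    ext <;> simp only [mul_c0, mul_c1, mul_c2] <;> simp only [tw] <;> push_cast <;> ring
  map_zero' := by ext <;> simp
  map_add' x y := by ext <;> simp <;> ring

theorem disc_tw (e : ℤ × ℤ) (d : ℤ) : disc (tw e d) = d ^ 6 * disc e := by
  simp only [disc, tw]
  ring

theorem zpt_nm {R : Type*} [CommRing R] (d : ℤ) (x : Cub (tw e d) R) :
    nm (twHom e d R x) = nm x := by
  rw [show twHom e d R x = ⟨x.c0, d * x.c1, d ^ 2 * x.c2⟩ from rfl]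
  simp only [nm, tw]
  push_cast
  ring

theorem zpt_lin {R : Type*} [CommRing R] (d : ℤ) (x : R) :
    twHom e d R (algebraMap R (Cub (tw e d) R) x - th) =
      algebraMap R (Cub e R) x - (d : R) • th := by
  ext <;> simp [twHom]

theorem zpt_nm_lin {R : Type*} [CommRing R] (d : ℤ) (x : R) :
    nm (algebraMap R (Cub (tw e d) R) x - th) =
      x ^ 3 + (e.1 : R) * (d : R) ^ 2 * x + (e.2 : R) * (d : R) ^ 3 := by
  rw [nm_x_sub_th]
  simp only [tw]
  push_cast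
  ring

theorem zpt_val_one {k : Type*} [Field k] [NumberField k] (w : P k) {p n : ℕ} (hp : p.Prime)
    (h : val w (p : k) < 1) (hn : ¬ p ∣ n) : val w (n : k) = 1 :=
  le_antisymm (val_natCast_le_one w n)
    (not_lt.1 fun hh => hn ((val_natCast_lt_one_iff w hp h n).1 hh))

theorem zpt_dvd_prod {D : Finset ℕ} (hD : ∀ l ∈ D, l.Prime) {p : ℕ} (hp : p.Prime)
    (h : p ∣ ∏ l ∈ D, l) : p ∈ D := by
  obtain ⟨l, hl, hpl⟩ := (Prime.dvd_finsetProd_iff hp.prime _).1 h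
  rwa [(Nat.prime_dvd_prime_iff_eq hp (hD l hl)).1 hpl]

variable {F : Type} [Field F] [NumberField F]

/-- `pt_mem_Sel` for `tw e d` and the unit `x - θ'` (norm `y^2`), then `twHom` (`map_mem_intP`,
the norm is preserved); for `p ∤ N`, `p ∤ d` and `Bad N (tw e d) p → Bad N e p` -/
theorem pt_mem_Sel_tw {N : ℕ} (hU : Unr F N) {d : ℤ} (hd : ∀ p : ℕ, p.Prime → (p : ℤ) ∣ d → p ∣ N)
    {x y : F} (hxy : y ^ 2 = x ^ 3 + (e.1 : F) * (d : F) ^ 2 * x + (e.2 : F) * (d : F) ^ 3)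
    {δ : (Cub e F)ˣ} (hδ : (δ : Cub e F) = algebraMap F (Cub e F) x - (d : F) • th) :
    δ ∈ Sel N e F := by
  have hn : nm (δ : Cub e F) = y ^ 2 := by rw [hδ, ← zpt_lin, zpt_nm, zpt_nm_lin, hxy]
  have hy : y ≠ 0 := fun h0 => nm_ne_zero δ (by rw [hn, h0, zero_pow two_ne_zero])
  have hu : IsUnit (algebraMap F (Cub (tw e d) F) x - th) := by
    rw [isUnit_iff, zpt_nm_lin, ← hxy]
    exact pow_ne_zero 2 hy
  have h1 := pt_mem_Sel hU (e := tw e d) (x := x) (y := y)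
    (by rw [← nm_x_sub_th, zpt_nm_lin, hxy]) hy hu.unit hu.unit_spec
  have h2 : δ = Units.map (twHom e d F).toMonoidHom hu.unit :=
    Units.ext (by rw [hδ, ← zpt_lin]; rfl)
  refine mem_Sel.2 ⟨⟨y, hn⟩, fun p hp => ?_⟩
  have hpN : ¬ (p : ℕ) ∣ N := fun h0 => hp (Or.inl h0)
  have hb : ¬ Bad N (tw e d) p := by
    rintro (h0 | h0)
    · exact hpN h0
    · rw [disc_tw] at h0
      have hc : IsCoprime ((p : ℕ) : ℤ) d :=
        ((Nat.prime_iff_prime_int.1 p.2).irreducible.coprime_iff_not_dvd).2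
          fun h3 => hpN (hd p p.2 h3)
      exact hp (Or.inr (hc.pow.dvd_of_dvd_mul_left h0))
  obtain ⟨z, h3, h4⟩ := (mem_Sel.1 h1).2 p hb
  refine ⟨Units.map (twHom e d F).toMonoidHom z, ?_, ?_⟩
  · rw [h2, ← map_pow, ← map_mul]
    exact map_mem_intP (twHom e d F) h3
  · rw [h2, ← map_pow, ← map_mul, ← map_inv]
    exact map_mem_intP (twHom e d F) h4

/-- `val w d = exp (-1)` above `2` and above `l ∈ D` (`Finset.mul_prod_erase`, the other primes are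
units by `val_natCast_lt_one_iff`; `2 ∉ D` since `TyV` needs `val w 2 = 1`, `exists_over_prime`) -/
theorem pt_mem_TT {N : ℕ} {D : Finset ℕ} (hU : Unr F N) (h2 : 2 ∣ N) (h : Nice e D F)
    (hD : ∀ l ∈ D, ¬ l ∣ N) {x y : F}
    (hxy : y ^ 2 = x ^ 3 + (e.1 : F) * ((2 * ∏ l ∈ D, l : ℕ) : F) ^ 2 * x +
      (e.2 : F) * ((2 * ∏ l ∈ D, l : ℕ) : F) ^ 3) {δ : (Cub e F)ˣ}
    (hδ : (δ : Cub e F) = algebraMap F (Cub e F) x - ((2 * ∏ l ∈ D, l : ℕ) : F) • th) :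
    δ ∈ TT e (N * ∏ l ∈ D, l) D F := by
  have h2D : 2 ∉ D := fun h0 => hD 2 h0 h2
  refine mem_TT.2 ⟨?_, fun v hv => ?_, fun l hl v hv => ?_⟩
  · refine pt_mem_Sel_tw (d := ((2 * ∏ l ∈ D, l : ℕ) : ℤ)) (x := x) (y := y)
      (fun v p hp => hU v p fun h0 => hp (h0.mul_right _)) (fun p _ hp => ?_)
      (by rw [Int.cast_natCast]; exact hxy) (by rw [Int.cast_natCast]; exact hδ)
    exact (Int.natCast_dvd_natCast.1 hp).trans (Nat.mul_dvd_mul_right h2 _)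
  · refine pt_mem_L2 (h.two v hv) ?_ hxy hδ
    rw [Nat.cast_mul, map_mul, zpt_val_one v Nat.prime_two (by exact_mod_cast hv)
      fun h0 => h2D (zpt_dvd_prod h.prime Nat.prime_two h0), mul_one]
    exact_mod_cast (h.two v hv).1
  · refine pt_mem_Tv (h.ty l hl v hv) ?_ hxy hδ
    have hp := h.prime l hl
    have h3 : ¬ l ∣ 2 * ∏ l ∈ D.erase l, l := fun h0 => by
      rcases hp.dvd_mul.1 h0 with h1 | h1
      · exact h2D ((Nat.prime_dvd_prime_iff_eq hp Nat.prime_two).1 h1 ▸ hl)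
      · exact Finset.notMem_erase l D
          (zpt_dvd_prod (fun q hq => h.prime q (Finset.mem_of_mem_erase hq)) hp h1)
    rw [← Finset.mul_prod_erase D (fun l => l) hl, mul_left_comm, Nat.cast_mul, map_mul,
      zpt_val_one v hp hv h3, mul_one]
    exact hU v ⟨l, hp⟩ (hD l hl) hv

/-- `two_pow_finrank_le` with `W = ⊤` (see `rank_le`): a point with `y = 0` is killed by two; for
`y ≠ 0`, `x - d θ = s^2`, `s' = ⟨s0, s1 / d, s2 / d^2⟩` has `twHom s' = s`, `twHom` is injective,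
`exists_half` -/
theorem rank_zero_tw [DecidableEq F] (he : disc e ≠ 0) {d : ℤ} (hd : d ≠ 0)
    (h : ∀ x y : F, y ^ 2 = x ^ 3 + (e.1 : F) * (d : F) ^ 2 * x + (e.2 : F) * (d : F) ^ 3 →
      ∀ δ : (Cub e F)ˣ, (δ : Cub e F) = algebraMap F (Cub e F) x - (d : F) • th → δ ∈ SQ e F) :
    Module.finrank ℤ (crv (tw e d) F).toAffine.Point = 0 := by
  have he' : disc (tw e d) ≠ 0 := by
    rw [disc_tw]
    exact mul_ne_zero (pow_ne_zero 6 hd) he
  have hd' : (d : F) ≠ 0 := Int.cast_ne_zero.2 hd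
  have := crv_isElliptic (F := F) he'
  have : Module.Finite ℤ (crv (tw e d) F).toAffine.Point :=
    Module.Finite.iff_addGroup_fg.mpr (Pool.Agent.MP_651af7_nt.MW.fg (crv (tw e d) F))
  have h1 := two_pow_finrank_le (⊤ : AddSubgroup (crv (tw e d) F).toAffine.Point) ?_ (by simp)
  · rw [AddSubgroup.index_top] at h1
    exact Nat.le_zero.1 ((Nat.pow_le_pow_iff_right one_lt_two).1 (h1.trans_eq (pow_zero 2).symm))
  rintro (_ | ⟨x, y, hn⟩) -
  · exact ⟨0, 0, by rw [nsmul_zero, add_zero]; rfl, nsmul_zero 2⟩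
  by_cases hy : y = 0
  · refine ⟨0, .some x y hn, by rw [nsmul_zero, zero_add], ?_⟩
    rw [two_nsmul]
    exact WeierstrassCurve.Affine.Point.add_self_of_Y_eq (by rw [pt_negY, hy, neg_zero])
  have hE := pt_eqn.1 hn.1
  rw [← nm_x_sub_th, zpt_nm_lin] at hE
  have hu : IsUnit (algebraMap F (Cub e F) x - (d : F) • th) := by
    rw [isUnit_iff, ← zpt_lin, zpt_nm, zpt_nm_lin, ← hE]
    exact pow_ne_zero 2 hy
  obtain ⟨z, hz⟩ := h x y hE hu.unit hu.unit_spec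
  have h2 := congrArg Units.val hz
  rw [hu.unit_spec, Units.val_mul] at h2
  have hinj : Function.Injective (twHom e d F) := fun a b hab => by
    ext
    · exact (congrArg Cub.c0 hab :)
    · exact mul_left_cancel₀ hd' (congrArg Cub.c1 hab)
    · exact mul_left_cancel₀ (pow_ne_zero 2 hd') (congrArg Cub.c2 hab)
  have h3 : twHom e d F ⟨(z : Cub e F).c0, (z : Cub e F).c1 / d, (z : Cub e F).c2 / d ^ 2⟩ = z := by
    ext
    · rfl
    · exact mul_div_cancel₀ _ hd'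
    · exact mul_div_cancel₀ _ (pow_ne_zero 2 hd')
  obtain ⟨Q, hQ⟩ := exists_half he' hn
    (s := ⟨(z : Cub e F).c0, (z : Cub e F).c1 / d, (z : Cub e F).c2 / d ^ 2⟩)
    (hinj (by rw [zpt_lin, map_pow, h3, h2, sq]))
  exact ⟨Q, 0, by rw [hQ, add_zero], nsmul_zero 2⟩

/-- For `v` not above `D` let `p` be the prime under it.  If `p ∣ N` use `hauto`; otherwise
`¬ Bad (N * ∏ D) e p`, `intP_le_Ord`, `lociso_le`.  Above `2` and above `l ∈ D`: `exists_above`,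
`over_und`, `L2_desc`, `Tv_desc`. -/
theorem mem_Z_of_TT {K : Type} [Field K] [NumberField K] [Algebra K F] {N : ℕ} {D : Finset ℕ}
    (hU : Unr K N) (h : Nice e D F)
    (hauto : ∀ p : ℕ, p.Prime → p ∣ N → ∀ v : P K, val v (p : K) < 1 → Auto e v)
    (hsq : ∀ p : ℕ, p.Prime → ¬ p ∣ N → ¬ (p : ℤ) ^ 2 ∣ disc e)
    (hdesc : ∀ l ∈ D, ∀ w : P F, val w (l : F) < 1 → SqDesc (algebraMap K F) w)
    {d₀ : (Cub e K)ˣ} (hd : d₀ ∈ Sel (N * ∏ l ∈ D, l) e K)
    (hT : uz e (algebraMap K F) d₀ ∈ TT e (N * ∏ l ∈ D, l) D F) : d₀ ∈ Z e D K := by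
  obtain ⟨hn, hs⟩ := mem_Sel.1 hd
  obtain ⟨-, h2, h3⟩ := mem_TT.1 hT
  refine mem_Z.2 ⟨hn, fun v hv => ?_, fun l hl v hv => ?_, fun v hv => ?_⟩
  · obtain ⟨w, rfl, hw⟩ := exists_above (k' := F) v
    have hw2 : val w (2 : F) < 1 := by
      have := (hw 2).2 hv
      rwa [map_ofNat] at this
    exact L2_desc (over_und w (x := 2) (by rw [map_ofNat]; exact (h.two w hw2).1)) (h.two w hw2) hn
      (h2 w hw2)
  · obtain ⟨w, rfl, hw⟩ := exists_above (k' := F) v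
    have hw2 : val w (l : F) < 1 := by
      have := (hw l).2 hv
      rwa [map_natCast] at this
    have ht := h.ty l hl w hw2
    exact Tv_desc (over_und w (x := fv e (rt e l : K)) (by rw [map_fv, map_intCast]; exact ht.2.1))
      ht (hdesc l hl w hw2) hn (h3 l hl w hw2)
  · obtain ⟨p, hp, hpv⟩ := exists_prime_under v
    by_cases hpN : p ∣ N
    · exact hauto p hp hpN v hpv hn
    have hb : ¬ Bad N e ⟨p, hp⟩ := fun h0 => h0.elim hpN (hsq p hp hpN)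
    obtain ⟨z, h4, h5⟩ := hs ⟨p, hp⟩ fun h0 => h0.elim (fun h1 => (hp.dvd_mul.1 h1).elim hpN
      fun h6 => hv p (zpt_dvd_prod h.prime hp h6) hpv) (hsq p hp hpN)
    exact ⟨z, lociso_le (p := ⟨p, hp⟩) v hpv (intP_le_Ord hU hb h4),
      lociso_le (p := ⟨p, hp⟩) v hpv (intP_le_Ord hU hb h5)⟩

end Pool.Agent.Lib.MP_775b3b_nt
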