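import Pool.Agent.Lib.MP_775b3b_nt.YA
import Pool.Agent.Lib.MP_775b3b_nt.ZPt

/-! Points of the twist and descent in the tower. -/

namespace Pool.Agent.Lib.MP_775b3b_nt

open Cub MP_439fea_co WithZero

variable {e : ℤ × ℤ} {L : Type} [Field L] [NumberField L] {N d : ℕ} {D : Finset ℕ}

theorem SQ_le_TG : SQ e L ≤ TG e N D d L := by
  intro x h
  refine mem_TG.2 ⟨?_, fun _ _ => sqv_le_L2 (SQ_le_sqv h), fun _ _ => sqv_le_Tv (SQ_le_sqv h),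
    fun _ _ _ => sqv_le_usv (SQ_le_sqv h)⟩
  obtain ⟨z, rfl⟩ := h
  rw [← sq]
  exact step_sq_mem_Sel z

/-- every place is `g • v`; `over_smul` for `g` and for `g⁻¹`, `lam_up`, `uz_mem_Sel` -/
theorem uz_mem_TG {k₀ : Type*} [Field k₀] [Algebra k₀ L] (g : L ≃ₐ[k₀] L) {x : (Cub e L)ˣ}
    (h : x ∈ TG e N D d L) : uz e (g : L →+* L) x ∈ TG e N D d L := by
  obtain ⟨h1, h2, h3, h4⟩ := mem_TG.1 h
  have key : ∀ w : P L, ∃ v : P L, Over (g : L →+* L) w v ∧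
      Over ((g⁻¹ : L ≃ₐ[k₀] L) : L →+* L) v w := fun w =>
    ⟨g⁻¹ • w, by simpa only [smul_inv_smul] using over_smul g (g⁻¹ • w), over_smul g⁻¹ w⟩
  refine mem_TG.2 ⟨uz_mem_Sel _ h1, fun w hw => ?_, fun w hw => ?_, fun w hw hw' => ?_⟩
  all_goals obtain ⟨v, ho, ho'⟩ := key w
  · exact ho.L2 (h2 v (ho.two ▸ hw))
  · rw [ho.pr_eq]
    exact ho.Tv (h3 v (ho'.lam_up hw))
  · exact ho.usv (h4 v (ho.pr_eq ▸ hw) fun hv => hw' (ho.lam_up hv))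

/-- see the proof of `pt_mem_TT` -/
theorem val_two_prod (hD : ∀ l ∈ D, l.Prime ∧ l ≠ 2) {w : P L} (hw : pr w = 2 ∨ pr w ∈ D)
    (hu : val w ((pr w : ℕ) : L) = exp (-1 : ℤ)) :
    val w ((2 * ∏ l ∈ D, l : ℕ) : L) = exp (-1 : ℤ) := by
  have h2D : 2 ∉ D := fun h0 => (hD 2 h0).2 rfl
  rcases hw with hw | hw
  · rw [hw] at hu
    rw [Nat.cast_mul, map_mul, zpt_val_one w Nat.prime_two (val_lt_of_pr hw)
      fun h0 => h2D (zpt_dvd_prod (fun l hl => (hD l hl).1) Nat.prime_two h0), mul_one, hu]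
  · have hp := pr_prime w
    have h3 : ¬ pr w ∣ 2 * ∏ l ∈ D.erase (pr w), l := fun h0 => by
      rcases hp.dvd_mul.1 h0 with h1 | h1
      · exact (hD _ hw).2 ((Nat.prime_dvd_prime_iff_eq hp Nat.prime_two).1 h1)
      · exact Finset.notMem_erase (pr w) D
          (zpt_dvd_prod (fun q hq => (hD q (Finset.mem_of_mem_erase hq)).1) hp h1)
    rw [← Finset.mul_prod_erase D (fun l => l) hw, mul_left_comm, Nat.cast_mul, map_mul,
      zpt_val_one w hp (val_pr w) h3, mul_one, hu]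

/-- as `pt_mem_TT`, with `TyB.pt` -/
theorem pt_mem_TG (hU : Unr L N) (h : NiceB e D L) (hN : ∀ p : ℕ, p.Prime → p ∣ d → p ∣ N)
    (hd : ∀ w : P L, pr w = 2 ∨ pr w ∈ D → val w (d : L) = exp (-1 : ℤ)) {x y : L}
    (hxy : y ^ 2 = x ^ 3 + (e.1 : L) * (d : L) ^ 2 * x + (e.2 : L) * (d : L) ^ 3)
    {δ : (Cub e L)ˣ} (hδ : (δ : Cub e L) = algebraMap L (Cub e L) x - (d : L) • th) :
    δ ∈ TG e N D d L := by
  refine mem_TG.2 ⟨?_, fun v hv => ?_, fun v hv => ?_, fun v hv hv' => ?_⟩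
  · exact pt_mem_Sel_tw (d := (d : ℤ)) (x := x) (y := y) hU
      (fun p hp h0 => hN p hp (Int.natCast_dvd_natCast.1 h0))
      (by rw [Int.cast_natCast]; exact hxy) (by rw [Int.cast_natCast]; exact hδ)
  · exact pt_mem_L2 (h.two v hv) (hd v (.inl (pr_eq Nat.prime_two (by exact_mod_cast hv)))) hxy hδ
  · exact ((h.ty v hv.1).pt hv.1 (hd v (.inr hv.1)) hxy hδ).1 hv
  · exact ((h.ty v hv).pt hv (hd v (.inr hv)) hxy hδ).2 hv'

/-- As `mem_Z_of_TT`.  For `v` above `D` take `w` over it (`NiceB.exists_over`); `v ∈ Lam` iff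
`w ∈ Lam` (`lam_up`, `lam_down`); `TyA.Tv_desc`, `TyA.usv_desc`, `TyB.down`. -/
theorem mem_ZG_of_TG {K : Type} [Field K] [NumberField K] (φ : K →+* L) {N' : ℕ} (hU : Unr K N)
    (h : NiceB e D L) (hN : ∀ p : ℕ, p.Prime → p ∣ N' → p ∣ N ∨ p ∈ D)
    (hauto : ∀ p : ℕ, p.Prime → p ∣ N → ∀ v : P K, val v (p : K) < 1 → Auto e v)
    (hsq : ∀ p : ℕ, p.Prime → ¬ p ∣ N → ¬ (p : ℤ) ^ 2 ∣ disc e)
    (hdesc : ∀ w : P L, pr w ∈ D → SqDesc φ w)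
    (hd : ∀ w : P L, pr w ∈ D → val w (d : L) = exp (-1 : ℤ))
    {x : (Cub e K)ˣ} (hx : x ∈ Sel N' e K) (hT : uz e φ x ∈ TG e N' D d L) :
    x ∈ ZG e (Lam e D d K) := by
  obtain ⟨hn, hs⟩ := mem_Sel.1 hx
  obtain ⟨-, h2, h3, h4⟩ := mem_TG.1 hT
  refine mem_ZG.2 ⟨hn, fun v hv => ?_, fun v hv => ?_, fun v hv => ?_⟩
  · obtain ⟨w, ho⟩ := h.exists_over_two φ hv
    have hw : val w (2 : L) < 1 := ho.two ▸ hv
    exact L2_desc ho (h.two w hw) hn (h2 w hw)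
  · obtain ⟨w, ho⟩ := h.exists_over φ hv.1
    have hw : pr w ∈ D := ho.pr_eq ▸ hv.1
    have t := h.ty w hw
    exact TyA.Tv_desc ho (ho.pr_eq ▸ t.tyA) (t.down ho).tyA (hdesc w hw) hn
      (ho.pr_eq ▸ h3 w (ho.lam_up hv))
  by_cases hD : pr v ∈ D
  · obtain ⟨w, ho⟩ := h.exists_over φ hD
    have hw : pr w ∈ D := ho.pr_eq ▸ hD
    have t := h.ty w hw
    exact TyA.usv_desc ho (ho.pr_eq ▸ t.tyA) (t.down ho).tyA hn
      (h4 w hw fun h0 => hv (ho.lam_down (hdesc w hw) t (hd w hw) h0))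
  have hp := pr_prime v
  by_cases hpN : pr v ∣ N
  · exact hauto _ hp hpN v (val_pr v) hn
  have hb : ¬ Bad N e ⟨pr v, hp⟩ := fun h0 => h0.elim hpN (hsq _ hp hpN)
  obtain ⟨z, h5, h6⟩ := hs ⟨pr v, hp⟩ fun h0 =>
    h0.elim (fun h1 => (hN _ hp h1).elim hpN hD) (hsq _ hp hpN)
  exact ⟨z, lociso_le (p := ⟨pr v, hp⟩) v (val_pr v) (intP_le_Ord hU hb h5),
    lociso_le (p := ⟨pr v, hp⟩) v (val_pr v) (intP_le_Ord hU hb h6)⟩

theorem YTow_sq {k : Type} [Field k] [NumberField k] {v : P k} {x m a : k} (hx : val v x ≤ 1)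
    (ha : val v a = 1) (hm : val v (m - a ^ 2) < 1) :
    (∃ y : k, val v (x * m - y ^ 2) < 1) ↔ ∃ y : k, val v (x - y ^ 2) < 1 := by
  have h0 : a ≠ 0 := fun h => by simp [h] at ha
  constructor
  · rintro ⟨y, hy⟩
    refine ⟨y / a, ?_⟩
    rw [show x - (y / a) ^ 2 = (x * m - y ^ 2 - (m - a ^ 2) * x) * a⁻¹ ^ 2 by field_simp; ring]
    exact lociso_mul_lt v (Valuation.map_sub_lt _ hy (lociso_mul_lt v hm hx))
      (by rw [map_pow, map_inv₀, ha, inv_one, one_pow])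
  · rintro ⟨y, hy⟩
    refine ⟨y * a, ?_⟩
    rw [show x * m - (y * a) ^ 2 = (x - y ^ 2) * a ^ 2 + (m - a ^ 2) * x by ring]
    exact Valuation.map_add_lt _ (lociso_mul_lt v hy (by rw [map_pow, ha, one_pow]))
      (lociso_mul_lt v hm hx)

theorem YTow_root {k : Type} [Field k] [NumberField k] (v : P k) {m : ℕ} (h : ¬ pr v ∣ m)
    (hs : IsSquare (m : ZMod (pr v))) : ∃ a : k, val v a = 1 ∧ val v ((m : k) - a ^ 2) < 1 := by
  have : NeZero (pr v) := ⟨(pr_prime v).ne_zero⟩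
  obtain ⟨b, hb⟩ := hs
  obtain ⟨a, rfl⟩ := ZMod.natCast_zmod_surjective b
  rw [← Nat.cast_mul, ZMod.natCast_eq_natCast_iff] at hb
  refine ⟨a, zpt_val_one v (pr_prime v) (val_pr v) fun h1 =>
    h ((hb.dvd_iff dvd_rfl).2 (h1.mul_right _)), ?_⟩
  obtain ⟨c, hc⟩ := hb.symm.dvd
  have h2 : (m : k) - (a : k) ^ 2 = (pr v : ℕ) * (c : k) := by
    have := congrArg (Int.cast : ℤ → k) hc
    push_cast at this
    rw [← this, sq]
  rw [h2]
  exact lociso_mul_lt v (val_pr v) (val_int_le v c)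

/-- For `v` above `q ∈ D₁`: `m ≡ a^2` with `a` a unit, and `x = d / f` is integral, so `x m` is a
square modulo `v` iff `x` is. -/
theorem lam_mul {k : Type} [Field k] [NumberField k] {D₁ D₂ : Finset ℕ} {m : ℕ}
    (h1 : ∀ v : P k, pr v ∈ D₁ → TyB e v ∧ pr v ∣ d)
    (h2 : ∀ l ∈ D₂, ¬ (l : ℤ) ∣ disc e)
    (hm : ∀ q ∈ D₁, ¬ q ∣ m ∧ IsSquare (m : ZMod q)) :
    Lam e (D₁ ∪ D₂) (d * m) k = Lam e D₁ d k ∪ Pls D₂ k := by
  ext v
  by_cases hv : pr v ∈ D₂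
  · exact ⟨fun _ => .inr hv, fun _ => ⟨Finset.mem_union_right _ hv, .inl (h2 _ hv)⟩⟩
  have key : pr v ∈ D₁ →
      ((∃ y : k, val v (((d * m : ℕ) : k) / fv e (rg e (pr v) : k) - y ^ 2) < 1) ↔
        ∃ y : k, val v ((d : k) / fv e (rg e (pr v) : k) - y ^ 2) < 1) := fun h0 => by
    obtain ⟨t, hd⟩ := h1 v h0
    obtain ⟨a, ha, ha'⟩ := YTow_root v (hm _ h0).1 (hm _ h0).2
    rw [Nat.cast_mul, mul_div_right_comm]
    refine YTow_sq ?_ ha ha'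
    rw [map_div₀, t.tyA.unif]
    exact div_le_one_of_le₀
      (val_le_exp ((val_natCast_lt_one_iff v (pr_prime v) (val_pr v) d).2 hd)) zero_le
  constructor
  · rintro ⟨h3, h4⟩
    have h0 := (Finset.mem_union.1 h3).resolve_right hv
    exact .inl ⟨h0, h4.imp id (key h0).1⟩
  · rintro (⟨h0, h4⟩ | h0)
    · exact ⟨Finset.mem_union_left _ h0, h4.imp id (key h0).2⟩
    · exact absurd h0 hv

/-- `place_rat_unique` -/
theorem pls_insert_rat {l : ℕ} {w : P ℚ} (hw : pr w = l) :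
    Pls (insert l D) ℚ = insert w (Pls D ℚ) := by
  ext v
  refine Finset.mem_insert.trans (or_congr_left ⟨fun h => ?_, fun h => h ▸ hw⟩)
  exact place_rat_unique (pr_prime v) (val_pr v) (val_lt_of_pr (hw.trans h.symm))

theorem St_rat {l : ℕ} {w : P ℚ} (hw : pr w = l) : St e ℚ l = sqv e w := by
  ext x
  refine mem_St.trans ⟨fun h => h w (val_lt_of_pr hw), fun h v hv => ?_⟩
  rwa [place_rat_unique (hw ▸ pr_prime w) hv (val_lt_of_pr hw)]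

end Pool.Agent.Lib.MP_775b3b_nt
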