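import Pool.Agent.Lib.MP_775b3b_nt.YBot
import Pool.Agent.Lib.MP_775b3b_nt.YTow
import Pool.Agent.Lib.MP_775b3b_nt.YTP

/-! Classes over the cubic field which become classes of points come from the rationals. -/

namespace Pool.Agent.Lib.MP_775b3b_nt

open Cub MP_439fea_co WithZero

variable {e : ℤ × ℤ}

section Loc

variable {k k' : Type} [Field k] [NumberField k] [Field k'] [NumberField k'] {D : Finset ℕ}
  {d N : ℕ} {x : (Cub e k)ˣ} {φ : k →+* k'}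

/-- the local condition at a place above `D` -/
def LocL (D : Finset ℕ) (d : ℕ) (v : P k) (x : (Cub e k)ˣ) : Prop :=
  (v ∈ Lam e D d k → x ∈ Tv e v (rg e (pr v))) ∧ (v ∉ Lam e D d k → x ∈ usv e v)

theorem locL_desc {w : P k'} {v : P k} (ho : Over φ w v) (hs : SqDesc φ w) (h : NiceB e D k')
    (hv : pr v ∈ D) (hd : val w (d : k') = exp (-1 : ℤ)) (hn : x ∈ nsq e k)
    (hT : uz e φ x ∈ TG e N D d k') : LocL D d v x := by
  obtain ⟨-, -, h3, h4⟩ := mem_TG.1 hT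
  have hw : pr w ∈ D := ho.pr_eq ▸ hv
  have t := h.ty w hw
  exact ⟨fun a => TyA.Tv_desc ho (ho.pr_eq ▸ t.tyA) (t.down ho).tyA hs hn
      (ho.pr_eq ▸ h3 w (ho.lam_up a)),
    fun a => TyA.usv_desc ho (ho.pr_eq ▸ t.tyA) (t.down ho).tyA hn
      (h4 w hw fun h0 => a (ho.lam_down hs t hd h0))⟩

theorem mem_ZG_of_loc (h : NiceB e D k') (hn : x ∈ nsq e k) (hT : uz e φ x ∈ TG e N D d k')
    (h1 : ∀ v, pr v ∈ D → LocL D d v x) (h2 : ∀ v, pr v ∉ D → x ∈ usv e v) :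
    x ∈ ZG e (Lam e D d k) := by
  refine mem_ZG.2 ⟨hn, fun v hv => ?_, fun v hv => (h1 v hv.1).1 hv, fun v hv => ?_⟩
  · obtain ⟨w, ho⟩ := h.exists_over_two φ hv
    have hw : val w (2 : k') < 1 := ho.two ▸ hv
    exact L2_desc ho (h.two w hw) hn ((mem_TG.1 hT).2.1 w hw)
  · by_cases hD : pr v ∈ D
    · exact (h1 v hD).2 hv
    · exact h2 v hD

theorem usv_of_Sel {N' : ℕ} (hU : Unr k N) (hN : ∀ p : ℕ, p.Prime → p ∣ N' → p ∣ N ∨ p ∈ D)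
    (hauto : ∀ p : ℕ, p.Prime → p ∣ N → ∀ v : P k, val v (p : k) < 1 → Auto e v)
    (hsq : ∀ p : ℕ, p.Prime → ¬ p ∣ N → ¬ (p : ℤ) ^ 2 ∣ disc e) (hx : x ∈ Sel N' e k) (v : P k)
    (hD : pr v ∉ D) : x ∈ usv e v := by
  obtain ⟨hn, hs⟩ := mem_Sel.1 hx
  have hp := pr_prime v
  by_cases hpN : pr v ∣ N
  · exact hauto _ hp hpN v (val_pr v) hn
  have hb : ¬ Bad N e ⟨pr v, hp⟩ := fun h0 => h0.elim hpN (hsq _ hp hpN)
  obtain ⟨z, h5, h6⟩ := hs ⟨pr v, hp⟩ fun h0 =>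
    h0.elim (fun h1 => (hN _ hp h1).elim hpN hD) (hsq _ hp hpN)
  exact ⟨z, lociso_le (p := ⟨pr v, hp⟩) v (val_pr v) (intP_le_Ord hU hb h5),
    lociso_le (p := ⟨pr v, hp⟩) v (val_pr v) (intP_le_Ord hU hb h6)⟩

omit [NumberField k] [NumberField k'] in
theorem uz_usq_Ord {p : Nat.Primes} (φ : k →+* k') (h : x ∈ usq (Ord p e k)) :
    uz e φ x ∈ usq (Ord p e k') := by
  have key : ∀ y : (Cub e k)ˣ, (y : Cub e k) ∈ Ord p e k → (uz e φ y : Cub e k') ∈ Ord p e k' :=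
    fun y hy => map_mem_Ord φ hy
  obtain ⟨z, h1, h2⟩ := h
  refine ⟨uz e φ z, ?_, ?_⟩
  · rw [← map_pow, ← map_mul]
    exact key _ h1
  · rw [← map_pow, ← map_mul, ← map_inv]
    exact key _ h2

end Loc

variable {K L F : Type} [Field K] [NumberField K] [Field L] [NumberField L] [Field F]
  [NumberField F] {S : Setup K F}

theorem Setup.cor_usq {p : Nat.Primes} {x : (Cub e K)ˣ} (h : x ∈ usq (Ord p e K)) :
    S.cor e x ∈ usq (Ord p e ℚ) := by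
  obtain ⟨z, h4, h5⟩ := h
  refine ⟨S.cor e z, ?_, ?_⟩
  · rw [← map_pow, ← map_mul]
    exact S.rn_mem_Ord h4
  · rw [← map_pow, ← map_mul, ← map_inv]
    exact S.rn_mem_Ord h5

theorem Setup.exists_aut0 (S : Setup K F) (j : Fin 3) :
    ∃ g : F ≃ₐ[ℚ] F, (g : F →+* F).comp (S.s 0) = S.s j := by
  have := S.gal
  let := (S.s 0).toAlgebra
  let f : F →ₐ[ℚ] F := (S.s j).toRatAlgHom.liftNormal F
  exact ⟨AlgEquiv.ofBijective f f.normal_bijective,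
    RingHom.ext fun x => (S.s j).toRatAlgHom.liftNormal_commutes F x⟩

/-- the data at a prime whose Frobenius is a transposition -/
structure TP3 (S : Setup K F) (L : Type) [Field L] [NumberField L] (q : ℕ) (v₁ v₂ : P K) :
    Prop where
  tp : TP2 S q v₁ v₂
  up : ∃ w : P F, Over (S.s 1) w v₂ ∧ SqDesc (S.s 1) w
  res : ∃ u : P L, pr u = q ∧ Res1 u

theorem TP.exists_tp3 {τ : F ≃ₐ[ℚ] F} {q : ℕ} {w : P F} (S : Setup K F)
    (hc : S.Cmp τ (Equiv.swap 1 2)) (ψ : L →+* F) (hψ : ∀ x, τ (ψ x) = ψ x) (h : TP τ q w) :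
    ∃ v₁ v₂ : P K, TP3 S L q v₁ v₂ ∧ Over (S.s 0) w v₁ := by
  have := S.gal
  obtain ⟨v₁, v₂, h1, o0⟩ := h.exists_tp2 S hc
  obtain ⟨u, o2⟩ := exists_over_hom ψ w (x := (q : L)) (by rw [map_natCast, h.unr])
  obtain ⟨W, hW⟩ := exists_over_of_unr (S.s 1) v₂ (x := (q : K)) fun W hW => by
    rw [map_natCast]
    exact YTP_unr h (hW.trans h1.pr2)
  refine ⟨v₁, v₂, ⟨h1, ⟨W, hW, ?_⟩, u, o2.pr_eq.symm.trans (pr_eq h.prime h.lt), fun y hy => ?_⟩, o0⟩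
  · obtain ⟨g, rfl⟩ := exists_smul_eq_of_prime h.prime h.lt (val_lt_of_pr (hW.pr_eq.trans h1.pr2))
    refine (h.conj g).sqDesc_of_move _ ?_
    by_contra h3
    push Not at h3
    have := Fact.mk h.prime
    obtain ⟨a, ha⟩ := FiniteField.exists_nonsquare (F := ZMod q) (by
      have := h.five
      rw [ZMod.ringChar_zmod_n]
      omega)
    obtain ⟨n, rfl⟩ := ZMod.intCast_surjective a
    refine ha (sqZ_of_res1 h.prime (val_lt_of_pr h1.pr2) (fun y hy => ?_) n ?_)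
    · obtain ⟨m, hm⟩ := (h.conj g).res (S.s 1 y) (h3 y) (by rwa [hW])
      exact ⟨m, by rwa [← hW, map_sub, map_intCast]⟩
    · simpa using h1.sq2 n (by simpa using val_int_le v₂ n)
  · obtain ⟨n, hn⟩ := h.res (ψ y) (hψ y) (by rwa [o2])
    exact ⟨n, by rwa [← o2, map_sub, map_intCast]⟩

theorem bottomD (ψ : L →+* F) {D₁ D₂ : Finset ℕ} {d N : ℕ} (h : NiceB e (D₁ ∪ D₂) F)
    {v₁ v₂ : ℕ → P K} (h1 : ∀ q ∈ D₁, TP3 S L q (v₁ q) (v₂ q))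
    (h2 : ∀ l ∈ D₂, IP S l ∧ ¬ (l : ℤ) ∣ disc e)
    (hd : ∀ w : P F, pr w ∈ D₁ ∪ D₂ → val w (d : F) = exp (-1 : ℤ))
    (hU : ZG e (v₂ '' D₁) ⊓ S.TY e ≤ SQ e K) (hQ : ZG e (Lam e (D₁ ∪ D₂) d ℚ) ≤ SQ e ℚ)
    {x : (Cub e K)ˣ} (hn : x ∈ nsq e K) (hu : ∀ v, pr v ∉ D₁ ∪ D₂ → x ∈ usv e v)
    (hT : ∀ j, uz e (S.s j) x ∈ TG e N (D₁ ∪ D₂) d F) :
    S.cor e x ∈ nsq e ℚ ∧ x * uz e (algebraMap ℚ K) (S.cor e x) ∈ SQ e K ∧
      (uz e (algebraMap ℚ L) (S.cor e x) ∈ TG e N (D₁ ∪ D₂) d L → S.cor e x ∈ SQ e ℚ) := by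
  have hK : NiceB e (D₁ ∪ D₂) K := h.down (S.s 0)
  have hL : NiceB e (D₁ ∪ D₂) L := h.down ψ
  have hc : S.cor e x ∈ nsq e ℚ := by
    obtain ⟨ν, hν⟩ := hn
    obtain ⟨r, hr, -⟩ := S.exists_nm_rn hν
    exact ⟨r, hr⟩
  have hdK : ∀ v : P K, pr v ∈ D₁ → val v (d : K) = exp (-1 : ℤ) := fun v hv => by
    obtain ⟨w, ho⟩ := h.exists_over (S.s 0) (Finset.mem_union_left D₂ hv)
    rw [← ho.natCast, hd w (ho.pr_eq ▸ Finset.mem_union_left D₂ hv)]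
  have hcu : ∀ p : Nat.Primes, (p : ℕ) ∉ D₁ ∪ D₂ → S.cor e x ∈ usq (Ord p e ℚ) := fun p hp =>
    Setup.cor_usq (mem_usq_Ord_iff.2 fun v hv => hu v (pr_eq p.2 hv ▸ hp))
  have hn' := mul_mem hn (uz_mem_nsq (algebraMap ℚ K) hc)
  have hT' : ∀ j, uz e (S.s j) (x * uz e (algebraMap ℚ K) (S.cor e x)) ∈
      TG e N (D₁ ∪ D₂) d F := fun j => by
    rw [map_mul, uz_uz, Subsingleton.elim ((S.s j).comp (algebraMap ℚ K)) (algebraMap ℚ F),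
      S.uz_cor']
    exact mul_mem (hT j) (mul_mem (mul_mem (hT 0) (hT 1)) (hT 2))
  refine ⟨hc, Setup.bottomG h (fun q hq => (h1 q hq).tp) h2 hdK hU hQ
    (mem_ZG_of_loc h hn' (hT' 0) (fun v hv => ?_) fun v hv => mul_mem (hu v hv) ?_), fun hTL => hQ
    (mem_ZG_of_loc hL hc hTL (fun v hv => ?_) fun v hv => ?_)⟩
  · rcases Finset.mem_union.1 hv with h3 | h3
    · have T := (h1 _ h3).tp
      obtain ⟨w, ho, hs⟩ := (h1 _ h3).up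
      have h4 : pr (v₂ (pr v)) ∈ D₁ ∪ D₂ := T.pr2.symm ▸ hv
      have h5 := hd w (ho.pr_eq ▸ h4)
      rcases T.all v rfl with h6 | h6
      · have h7 := T.tz' ((locL_desc ho hs h h4 h5 hn (hT 1)).1
          (ybot_lam T hv hK (hdK _ (T.pr1.symm ▸ h3))))
        rw [← h6] at h7
        exact ⟨fun _ => sqv_le_Tv h7, fun _ => sqv_le_usv h7⟩
      · rw [h6]
        exact locL_desc ho hs h h4 h5 hn' (hT' 1)
    · obtain ⟨w, ho⟩ := h.exists_over (S.s 0) hv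
      exact locL_desc ho ((h2 _ h3).1.sq1 w ho.pr_eq) h hv (hd w (ho.pr_eq ▸ hv)) hn' (hT' 0)
  · exact (mem_usq_Ord_iff (p := ⟨pr v, pr_prime v⟩)).1
      (uz_usq_Ord _ (hcu ⟨pr v, pr_prime v⟩ hv)) v (val_pr v)
  · obtain ⟨u, ho, hs⟩ : ∃ u : P L, Over (algebraMap ℚ L) u v ∧ SqDesc (algebraMap ℚ L) u := by
      rcases Finset.mem_union.1 hv with h3 | h3
      · obtain ⟨u, a1, a2⟩ := (h1 _ h3).res
        exact ⟨u, ybot_over (hL.ty u (a1.symm ▸ hv)) a1, sqDesc_of_res1 _ a2⟩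
      · obtain ⟨u, ho⟩ := hL.exists_over (algebraMap ℚ L) hv
        obtain ⟨w, ho'⟩ := h.exists_over ψ (ho.pr_eq ▸ hv : pr u ∈ D₁ ∪ D₂)
        refine ⟨u, ho, SqDesc.mid ho' ?_⟩
        rw [Subsingleton.elim (ψ.comp (algebraMap ℚ L)) (algebraMap ℚ F)]
        exact (h2 _ h3).1.sq0 w (ho'.pr_eq.trans ho.pr_eq)
    have h4 : pr u ∈ D₁ ∪ D₂ := ho.pr_eq ▸ hv
    obtain ⟨w, ho'⟩ := h.exists_over ψ h4
    refine locL_desc ho hs hL hv ?_ hc hTL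
    rw [← ho'.natCast, hd w (ho'.pr_eq ▸ h4)]
  · exact (mem_usq_Ord_iff (p := ⟨pr v, pr_prime v⟩)).1 (hcu ⟨pr v, pr_prime v⟩ hv) v (val_pr v)

end Pool.Agent.Lib.MP_775b3b_nt
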