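import Pool.Agent.Lib.MP_775b3b_nt.YA
import Pool.Agent.Lib.MP_775b3b_nt.ZL2a
import Pool.Agent.Lib.MP_775b3b_nt.ZGlue

/-! The Selmer group over the cubic field. -/

namespace Pool.Agent.Lib.MP_775b3b_nt

open Cub MP_439fea_co WithZero

variable {e : ℤ × ℤ} {K F : Type} [Field K] [NumberField K] [Field F] [NumberField F]
  {S : Setup K F}

/-- `tz` for `d` or for `d τ`; `cor τ = τ^3` (`uz_tauU`, `rn_map`) -/
theorem TP2.tz' {q : ℕ} {v₁ v₂ : P K} (h : TP2 S q v₁ v₂) {r : ℤ} {d : (Cub e K)ˣ}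
    (hd : d ∈ Tv e v₂ r) : d * uz e (algebraMap ℚ K) (S.cor e d) ∈ sqv e v₁ := by
  rcases hd with hd | hd
  · exact h.tz e d hd
  · have h1 := h.tz e _ hd
    have h2 : S.cor e (tauU e K r) = tauU e ℚ r ^ 3 := by
      rw [← uz_tauU (algebraMap ℚ K) r]
      ext1
      rw [S.gal2_val, uz_val, S.rn_map, Units.val_pow_eq_pow_val]
    rw [map_mul, h2, map_mul, map_pow, uz_tauU] at h1
    have h3 := mul_mem h1 (SQ_le_sqv (sq_mem_SQ (tauU e K r ^ 2)⁻¹))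
    generalize uz e (algebraMap ℚ K) (S.cor e d) = c at h3 ⊢
    generalize tauU e K r = t at h3
    have h4 : d * t * (c * t ^ 3) = d * c * (t ^ 2) ^ 2 :=
      Units.ext (by simp only [Units.val_mul, Units.val_pow_eq_pow_val]; ring)
    rwa [h4, inv_pow, mul_inv_cancel_right] at h3

/-- `d / f` is a rational number which is integral at `v₂` -/
theorem TP2.mem_lam {q : ℕ} {v₁ v₂ : P K} (h : TP2 S q v₁ v₂) {D : Finset ℕ} (hq : q ∈ D)
    (hB : TyB e v₂) {d : ℕ} (hd : q ∣ d) : v₂ ∈ Lam e D d K := by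
  refine ⟨h.pr2.symm ▸ hq, Or.inr ?_⟩
  have h1 : val v₂ (d : K) ≤ exp (-1 : ℤ) := val_le_exp
    ((val_natCast_lt_one_iff v₂ (pr_prime v₂) (val_pr v₂) d).2 (h.pr2.symm ▸ hd))
  have h2 : (((d : ℚ) / ((fv e (rg e (pr v₂)) : ℤ) : ℚ) : ℚ) : K) =
      (d : K) / fv e (rg e (pr v₂) : K) := by
    rw [Rat.cast_div, Rat.cast_natCast, Rat.cast_intCast, fv_intCast]
  rw [← h2]
  refine h.sq2 _ ?_
  rw [h2, map_div₀, hB.tyA.unif]
  exact div_le_one_of_le₀ h1 zero_le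

/-- every place `v` of `K` above `l` is under one place of `F` along the three embeddings
(`exists_over_of_unr`, `IP.rot`) -/
theorem IP.exists_over {l : ℕ} (h : IP S l) {v : P K} (hv : pr v = l) :
    ∃ w : P F, ∀ j, Over (S.s j) w v := by
  obtain ⟨w, hw⟩ := exists_over_of_unr (S.s 0) v (x := (l : K)) fun w hw => by
    rw [map_natCast]
    exact h.unr w (hw.trans hv)
  exact ⟨w, fun j x => (h.rot w (hw.pr_eq.trans hv) j x).trans (hw x)⟩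

theorem ybot_dvd {v : P K} {d : ℕ} (h : val v (d : K) = exp (-1 : ℤ)) : pr v ∣ d := by
  refine (val_natCast_lt_one_iff v (pr_prime v) (val_pr v) d).1 ?_
  rw [h, ← exp_zero, exp_lt_exp]
  decide

theorem ybot_over {v : P K} (hB : TyB e v) {u : P ℚ} (hu : pr v = pr u) :
    Over (algebraMap ℚ K) v u := by
  obtain ⟨u', hu'⟩ := exists_over_hom (algebraMap ℚ K) v (x := fv e (rg e (pr v) : ℚ))
    (by rw [map_fv, map_intCast]; exact hB.tyA.unif)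
  rwa [place_rat_unique (pr_prime u) (val_lt_of_pr (hu'.pr_eq.symm.trans hu)) (val_pr u)] at hu'

theorem ybot_lam {q : ℕ} {v₁ v₂ : P K} (h : TP2 S q v₁ v₂) {D : Finset ℕ} (hq : q ∈ D)
    (hK : NiceB e D K) {d : ℕ} (hd : val v₁ (d : K) = exp (-1 : ℤ)) : v₂ ∈ Lam e D d K :=
  h.mem_lam hq (hK.ty v₂ (h.pr2.symm ▸ hq)) (h.pr1 ▸ ybot_dvd hd)

/-- As `Setup.cor_mem_Z`; `c = cor x`, `ι c = s₀ x s₁ x s₂ x` in `F` (`uz_cor'`).
Above `2`: `NiceB.exists_over_two`, `exists_over_hom`, `Over.L2`, `L2_desc` along `ℚ → F`.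
Above `q ∈ D₁`: `x ι c ∈ sqv e (v₁ q)` (`mem_lam`, `tz'`), so `ι c` satisfies the same condition as
`x` at `v₁ q`; `v₁ q` is over `v` (`exists_over_hom`, `place_rat_unique`), `sqDesc_of_res1`,
`lam_up`, `lam_down`, `TyA.Tv_desc`, `TyA.usv_desc`.
Above `l ∈ D₂`: all places are in `Lam`; `IP.exists_over`, `Over.Tv`, `TyA.Tv_desc` with `IP.sq0`.
Above `p ∉ D`: `mem_usq_Ord_iff`, `rn_mem_Ord`. -/
theorem Setup.cor_mem_ZG {D₁ D₂ : Finset ℕ} {d : ℕ} (h : NiceB e (D₁ ∪ D₂) F)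
    {v₁ v₂ : ℕ → P K} (h1 : ∀ q ∈ D₁, TP2 S q (v₁ q) (v₂ q))
    (h2 : ∀ l ∈ D₂, IP S l ∧ ¬ (l : ℤ) ∣ disc e)
    (hd : ∀ v : P K, pr v ∈ D₁ → val v (d : K) = exp (-1 : ℤ)) {x : (Cub e K)ˣ}
    (hx : x ∈ ZG e (Lam e (D₁ ∪ D₂) d K)) : S.cor e x ∈ ZG e (Lam e (D₁ ∪ D₂) d ℚ) := by
  obtain ⟨a1, a2, a3, a4⟩ := mem_ZG.1 hx
  have hK : NiceB e (D₁ ∪ D₂) K := h.down (S.s 0)
  have hQ : NiceB e (D₁ ∪ D₂) ℚ := h.down (algebraMap ℚ F)
  have hn : S.cor e x ∈ nsq e ℚ := by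
    obtain ⟨ν, hν⟩ := a1
    obtain ⟨r, hr, -⟩ := S.exists_nm_rn hν
    exact ⟨r, hr⟩
  have one : ∀ v : P ℚ, pr v ∈ D₁ → ∃ w : P K, Over (algebraMap ℚ K) w v ∧ TyB e w ∧ Res1 w ∧
      val w (d : K) = exp (-1 : ℤ) ∧ x * uz e (algebraMap ℚ K) (S.cor e x) ∈ sqv e w := by
    intro v hv
    have T := h1 _ hv
    have hv' := Finset.mem_union_left D₂ hv
    have hB : TyB e (v₁ (pr v)) := hK.ty _ (T.pr1.symm ▸ hv')
    have hd1 := hd (v₁ (pr v)) (T.pr1.symm ▸ hv)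
    exact ⟨_, ybot_over hB T.pr1, hB, T.res1, hd1, T.tz' (a3 _ (ybot_lam T hv' hK hd1))⟩
  refine mem_ZG.2 ⟨hn, fun v hv => ?_, fun v hv => ?_, fun v hv => ?_⟩
  · obtain ⟨w, ho⟩ := h.exists_over_two (algebraMap ℚ F) hv
    have h3 : val w (2 : F) < 1 := ho.two.symm ▸ hv
    have hE := h.two w h3
    have h4 : ∀ j, uz e (S.s j) x ∈ L2 e w := fun j => by
      obtain ⟨u, hu⟩ := exists_over_hom (S.s j) w (x := 2) (by rw [map_ofNat]; exact hE.1)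
      exact hu.L2 (a2 u (hu.two ▸ h3))
    refine L2_desc ho hE hn ?_
    rw [S.uz_cor']
    exact mul_mem (mul_mem (h4 0) (h4 1)) (h4 2)
  · have hA := (hQ.ty v hv.1).tyA
    rcases Finset.mem_union.1 hv.1 with h3 | h3
    · obtain ⟨w, ho, hB, hR, -, hk⟩ := one v h3
      have h4 := a3 w (ho.lam_up hv)
      have h5 := hB.tyA
      rw [ho.pr_eq] at h4 h5
      refine TyA.Tv_desc ho h5 hA (sqDesc_of_res1 _ hR) hn ?_
      have h6 := mul_mem (inv_mem h4) (sqv_le_Tv hk)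
      rwa [inv_mul_cancel_left] at h6
    · obtain ⟨w, ho⟩ := h.exists_over (algebraMap ℚ F) hv.1
      have h5 := (h.ty w (ho.pr_eq.symm ▸ hv.1)).tyA
      rw [ho.pr_eq] at h5
      have h4 : ∀ j, uz e (S.s j) x ∈ Tv e w (rg e (pr v)) := fun j => by
        obtain ⟨u, hu⟩ := exists_over_hom (S.s j) w (x := fv e (rg e (pr v) : K))
          (by rw [map_fv, map_intCast]; exact h5.unif)
        have h6 : pr u = pr v := hu.pr_eq.symm.trans ho.pr_eq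
        have h7 := a3 u ⟨h6.symm ▸ hv.1, Or.inl (h6.symm ▸ (h2 _ h3).2)⟩
        rw [h6] at h7
        exact hu.Tv h7
      refine TyA.Tv_desc ho h5 hA ((h2 _ h3).1.sq0 w ho.pr_eq) hn ?_
      rw [S.uz_cor']
      exact mul_mem (mul_mem (h4 0) (h4 1)) (h4 2)
  · by_cases hD : pr v ∈ D₁ ∪ D₂
    · rcases Finset.mem_union.1 hD with h3 | h3
      · obtain ⟨w, ho, hB, hR, hdw, hk⟩ := one v h3
        have h4 := a4 w fun hw => hv (ho.lam_down (sqDesc_of_res1 _ hR) hB hdw hw)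
        have h5 := hB.tyA
        rw [ho.pr_eq] at h5
        refine TyA.usv_desc ho h5 (hQ.ty v hD).tyA hn ?_
        have h6 := mul_mem (inv_mem h4) (sqv_le_usv hk)
        rwa [inv_mul_cancel_left] at h6
      · exact absurd ⟨hD, Or.inl (h2 _ h3).2⟩ hv
    · have h3 : x ∈ usq (Ord ⟨pr v, pr_prime v⟩ e K) := mem_usq_Ord_iff.2 fun w hw =>
        a4 w fun hw' => hD (pr_eq (pr_prime v) hw ▸ hw'.1)
      refine (mem_usq_Ord_iff (p := ⟨pr v, pr_prime v⟩)).1 ?_ v (val_pr v)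
      obtain ⟨z, h4, h5⟩ := h3
      refine ⟨S.cor e z, ?_, ?_⟩
      · rw [← map_pow, ← map_mul]
        exact S.rn_mem_Ord h4
      · rw [← map_pow, ← map_mul, ← map_inv]
        exact S.rn_mem_Ord h5

/-- As `Setup.bottom`.  `x ∈ TY` by `cor_mem_ZG`.  At `v₂ q` it is in `Tv` (`mem_lam`), so at `v₁ q`
it is in `sqv` (`tz'`).  At `v` above `l ∈ D₂`: if `x τ ∈ sqv e v` then with `IP.exists_over` the
three `s j x * τ` are in `sqv e w`, so `τ ∈ sqv e w`, against `TyA.tau_not_mem`. -/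
theorem Setup.bottomG {D₁ D₂ : Finset ℕ} {d : ℕ} (h : NiceB e (D₁ ∪ D₂) F)
    {v₁ v₂ : ℕ → P K} (h1 : ∀ q ∈ D₁, TP2 S q (v₁ q) (v₂ q))
    (h2 : ∀ l ∈ D₂, IP S l ∧ ¬ (l : ℤ) ∣ disc e)
    (hd : ∀ v : P K, pr v ∈ D₁ → val v (d : K) = exp (-1 : ℤ))
    (hU : ZG e (v₂ '' D₁) ⊓ S.TY e ≤ SQ e K) (hQ : ZG e (Lam e (D₁ ∪ D₂) d ℚ) ≤ SQ e ℚ) :
    ZG e (Lam e (D₁ ∪ D₂) d K) ≤ SQ e K := by
  intro x hx
  have hc : S.cor e x ∈ SQ e ℚ := hQ (Setup.cor_mem_ZG h h1 h2 hd hx)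
  obtain ⟨a1, a2, a3, a4⟩ := mem_ZG.1 hx
  have hK : NiceB e (D₁ ∪ D₂) K := h.down (S.s 0)
  have hl : ∀ q ∈ D₁, v₂ q ∈ Lam e (D₁ ∪ D₂) d K := fun q hq =>
    ybot_lam (h1 q hq) (Finset.mem_union_left D₂ hq) hK (hd _ ((h1 q hq).pr1.symm ▸ hq))
  refine hU ⟨mem_ZG.2 ⟨a1, a2, ?_, fun v hv => ?_⟩, hc⟩
  · rintro _ ⟨q, hq, rfl⟩
    exact a3 _ (hl q hq)
  · by_cases h3 : v ∈ Lam e (D₁ ∪ D₂) d K
    swap
    · exact a4 v h3
    rcases Finset.mem_union.1 h3.1 with h4 | h4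
    · rcases (h1 _ h4).all v rfl with h5 | h5
      · have h6 := (h1 _ h4).tz' (a3 _ (hl _ h4))
        rw [← h5] at h6
        have h7 := mul_mem h6 (inv_mem (SQ_le_sqv (uz_mem_SQ (algebraMap ℚ K) hc)))
        rw [mul_inv_cancel_right] at h7
        exact sqv_le_usv h7
      · exact absurd ⟨_, h4, h5.symm⟩ hv
    · rcases a3 v h3 with h5 | h5
      · exact sqv_le_usv h5
      · obtain ⟨w, ho⟩ := (h2 _ h4).1.exists_over (v := v) rfl
        have hA := (h.ty w ((ho 0).pr_eq.symm ▸ h3.1)).tyA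
        rw [(ho 0).pr_eq] at hA
        refine absurd (sqv_le_usv ?_) hA.tau_not_mem
        have h6 : ∀ j, uz e (S.s j) x * tauU e F (rg e (pr v)) ∈ sqv e w := fun j => by
          have h7 := (ho j).sqv h5
          rwa [map_mul, uz_tauU] at h7
        have h7 : uz e (S.s 0) x * uz e (S.s 1) x * uz e (S.s 2) x ∈ sqv e w := by
          rw [← S.uz_cor']
          exact SQ_le_sqv (uz_mem_SQ _ hc)
        have h8 := mul_mem (mul_mem (mul_mem (mul_mem (h6 0) (h6 1)) (h6 2)) (inv_mem h7))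
          (SQ_le_sqv (sq_mem_SQ (tauU e F (rg e (pr v)))⁻¹))
        generalize uz e (S.s 0) x = a at h8
        generalize uz e (S.s 1) x = b at h8
        generalize uz e (S.s 2) x = c at h8
        generalize tauU e F (rg e (pr v)) = t at h8 ⊢
        have h9 : a * t * (b * t) * (c * t) = a * b * c * (t * t ^ 2) :=
          Units.ext (by simp only [Units.val_mul, Units.val_pow_eq_pow_val]; ring)
        rwa [h9, mul_inv_cancel_comm, inv_pow, mul_inv_cancel_right] at h8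

end Pool.Agent.Lib.MP_775b3b_nt
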