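import Pool.Agent.Lib.MP_775b3b_nt.ZFam

/-! The residue class of the family, for any cubic field. -/

namespace Pool.Agent.Lib.MP_775b3b_nt

open Cub MP_439fea_co WithZero

variable (K : Type) [Field K] [NumberField K]

/-- As `cubic_dichotomy`.  If `v₀^2 ∣ (p)` then `absNorm v₀ = p`; for `v ≠ v₀` above `p`,
`v₀^2 v ∣ (p)` (coprime ideals), so `p^2 * absNorm v ∣ p^3`. -/
theorem cubic_dichotomy' (h3 : Module.finrank ℚ K = 3) {p : ℕ} (hp : p.Prime) :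
    (∀ v : P K, val v (p : K) < 1 → val v (p : K) = exp (-1 : ℤ)) ∨
      ∀ v : P K, val v (p : K) < 1 → Res1 v := by
  by_cases h : ∀ v : P K, val v (p : K) < 1 → val v (p : K) = exp (-1 : ℤ)
  · exact Or.inl h
  refine Or.inr fun v hv => res1_of_absNorm ?_
  push Not at h
  obtain ⟨v0, h0, h1⟩ := h
  have hp0 : (p : K) ≠ 0 := Nat.cast_ne_zero.2 hp.ne_zero
  have hc : ((p : NumberField.RingOfIntegers K) : K) = (p : K) := map_natCast (algebraMap _ K) p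
  have h4 : val v0 ((p : NumberField.RingOfIntegers K) : K) ≤ exp (-((2 : ℕ) : ℤ)) := by
    rw [hc]
    rw [val_eq_exp v0 hp0] at h0 h1 ⊢
    rw [← exp_zero, exp_lt_exp] at h0
    rw [exp_le_exp]
    have h5 : -ord v0 (p : K) ≠ -1 := fun h => h1 (by rw [h])
    omega
  have h4' : val v ((p : NumberField.RingOfIntegers K) : K) ≤ exp (-((1 : ℕ) : ℤ)) := by
    rw [hc]
    rw [val_eq_exp v hp0] at hv ⊢
    rw [← exp_zero, exp_lt_exp] at hv
    rw [exp_le_exp]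
    omega
  rw [Val_le_iff_mem] at h4 h4'
  have key : ∀ I : Ideal (NumberField.RingOfIntegers K), (p : NumberField.RingOfIntegers K) ∈ I →
      Ideal.absNorm I ∣ p ^ 3 := fun I hI => by
    have h5 := Ideal.absNorm_dvd_absNorm_of_le ((Ideal.span_singleton_le_iff_mem _).2 hI)
    rwa [Ideal.absNorm_span_singleton,
      show (p : NumberField.RingOfIntegers K) = algebraMap ℤ _ (p : ℤ) by simp,
      Algebra.norm_algebraMap, NumberField.RingOfIntegers.rank, h3, Int.natAbs_pow,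
      Int.natAbs_natCast] at h5
  have key2 : ∀ w : P K, Ideal.absNorm w.asIdeal ∣ p ^ 3 →
      ∃ i, i ≠ 0 ∧ Ideal.absNorm w.asIdeal = p ^ i := fun w hw => by
    obtain ⟨i, -, hi⟩ := (Nat.dvd_prime_pow hp).1 hw
    refine ⟨i, ?_, hi⟩
    rintro rfl
    rw [pow_zero, Ideal.absNorm_eq_one_iff] at hi
    exact w.isPrime.ne_top hi
  rw [pow_one] at h4'
  obtain ⟨i, h6, hi⟩ := key2 v (key _ h4')
  obtain ⟨j, h7, hj⟩ := key2 v0 (key _ (Ideal.pow_le_self two_ne_zero h4))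
  suffices h8 : i = 1 by rw [hi, h8, pow_one]; exact hp
  by_cases e : v = v0
  · subst e
    have h5 := key _ h4
    rw [map_pow, hi, ← pow_mul, Nat.pow_dvd_pow_iff_le_right hp.one_lt] at h5
    omega
  · have h8 : IsCoprime (v0.asIdeal ^ 2) v.asIdeal := IsCoprime.pow_left
      (Ideal.isCoprime_iff_sup_eq.2 (v0.isMaximal.coprime_of_ne v.isMaximal
        fun h => e (IsDedekindDomain.HeightOneSpectrum.ext h.symm)))
    have h5 := key (v0.asIdeal ^ 2 * v.asIdeal) (by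
      rw [Ideal.mul_eq_inf_of_isCoprime h8]
      exact ⟨h4, h4'⟩)
    rw [map_mul, map_pow, hi, hj, ← pow_mul, ← pow_add,
      Nat.pow_dvd_pow_iff_le_right hp.one_lt] at h5
    omega

/-- the proof of `exists_class_prime` -/
theorem exists_class_prime' (h3 : Module.finrank ℚ K = 3) {p : ℕ} (hp : p.Prime) :
    ∃ a b : ℤ, ∀ e : ℤ × ℤ, (p : ℤ) ^ 2 ∣ e.1 - a → (p : ℤ) ^ 2 ∣ e.2 - b →
      ¬ (p : ℤ) ^ 2 ∣ e.2 ∧ ∀ v : P K, val v (p : K) < 1 → Auto e v := by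
  have hd : (p : ℤ) ∣ (p : ℤ) ^ 2 := dvd_pow_self _ two_ne_zero
  rcases cubic_dichotomy' K h3 hp with h | h
  · refine ⟨0, p, fun e hA hB => ⟨fun h1 => ?_, fun v hv =>
      (eis_of hp (h v hv) (hd.trans (by simpa using hA)) hB).auto⟩⟩
    have h2 : (p : ℤ) ^ 2 ∣ (p : ℤ) := by simpa using dvd_sub h1 hB
    have h4 := Int.le_of_dvd (by exact_mod_cast hp.pos) h2
    have h5 : (2 : ℤ) ≤ p := by exact_mod_cast hp.two_le
    nlinarith
  · have : Fact p.Prime := ⟨hp⟩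
    have hn : ¬ Function.Surjective fun x : ZMod p => x - x ^ 3 := by
      intro hs
      have h1 := Finite.injective_iff_surjective.2 hs (a₁ := 0) (a₂ := 1) (by simp)
      exact zero_ne_one h1
    obtain ⟨b, hb⟩ := not_forall.1 hn
    obtain ⟨b, rfl⟩ := ZMod.intCast_surjective b
    refine ⟨-1, b, fun e hA hB => ?_⟩
    have h1 : (e.1 : ZMod p) = -1 := by
      have := (ZMod.intCast_zmod_eq_zero_iff_dvd _ p).2 (hd.trans hA)
      push_cast at this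
      exact sub_eq_zero.1 this
    have h2 : (e.2 : ZMod p) = b := by
      have := (ZMod.intCast_zmod_eq_zero_iff_dvd _ p).2 (hd.trans hB)
      push_cast at this
      exact sub_eq_zero.1 this
    refine ⟨fun h4 => hb ⟨0, ?_⟩, fun v hv => auto_of_noroot hp hv (h v hv) fun r hr => hb ⟨r, ?_⟩⟩
    · rw [← h2, (ZMod.intCast_zmod_eq_zero_iff_dvd _ p).2 (hd.trans h4)]
      simp
    · rw [fv, h1, h2] at hr
      linear_combination -hr

/-- the proof of `exists_class` -/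
theorem exists_class' (h3 : Module.finrank ℚ K = 3)
    (h2 : ∀ v : P K, val v (2 : K) < 1 → val v (2 : K) = exp (-1 : ℤ)) {N : ℕ} (hN : N ≠ 0)
    (h2N : 2 ∣ N) : ∃ a b : ℤ, ∀ e : ℤ × ℤ, (N : ℤ) ^ 2 ∣ e.1 - a → (N : ℤ) ^ 2 ∣ e.2 - b →
      4 ∣ e.1 ∧ 4 ∣ e.2 - 2 ∧ ∀ p : ℕ, p.Prime → p ∣ N →
        ¬ (p : ℤ) ^ 2 ∣ e.2 ∧ ∀ v : P K, val v (p : K) < 1 → Auto e v := by
  have key : ∀ p : ℕ, ∃ a b : ℤ, p.Prime → ∀ e : ℤ × ℤ, (p : ℤ) ^ 2 ∣ e.1 - a →
      (p : ℤ) ^ 2 ∣ e.2 - b → (p = 2 → 4 ∣ e.1 ∧ 4 ∣ e.2 - 2) ∧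
        ¬ (p : ℤ) ^ 2 ∣ e.2 ∧ ∀ v : P K, val v (p : K) < 1 → Auto e v := by
    intro p
    by_cases hp : p.Prime
    · by_cases hp2 : p = 2
      · subst hp2
        refine ⟨0, 2, fun _ e hA hB => ?_⟩
        have hA' : (4 : ℤ) ∣ e.1 := by simpa using hA
        have hB' : (4 : ℤ) ∣ e.2 - 2 := by simpa using hB
        refine ⟨fun _ => ⟨hA', hB'⟩, ?_, fun v hv =>
          (eis2_of (h2 v (by simpa using hv)) hA' hB').eis.auto⟩
        norm_num
        omega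
      · obtain ⟨a, b, h⟩ := exists_class_prime' K h3 hp
        exact ⟨a, b, fun _ e hA hB => ⟨fun h => absurd h hp2, h e hA hB⟩⟩
    · exact ⟨0, 0, fun h => absurd h hp⟩
  choose f g hfg using key
  obtain ⟨a, ha⟩ := zfam_crt f N.primeFactors fun p hp => Nat.prime_of_mem_primeFactors hp
  obtain ⟨b, hb⟩ := zfam_crt g N.primeFactors fun p hp => Nat.prime_of_mem_primeFactors hp
  refine ⟨a, b, fun e hA hB => ?_⟩
  have h : ∀ p : ℕ, p.Prime → p ∣ N → (p = 2 → 4 ∣ e.1 ∧ 4 ∣ e.2 - 2) ∧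
      ¬ (p : ℤ) ^ 2 ∣ e.2 ∧ ∀ v : P K, val v (p : K) < 1 → Auto e v := by
    intro p hp hpN
    have hm : p ∈ N.primeFactors := Nat.mem_primeFactors.2 ⟨hp, hpN, hN⟩
    have hd : (p : ℤ) ^ 2 ∣ (N : ℤ) ^ 2 := pow_dvd_pow_of_dvd (Int.natCast_dvd_natCast.2 hpN) 2
    refine hfg p hp e ?_ ?_
    · simpa using dvd_add (hd.trans hA) (ha p hm)
    · simpa using dvd_add (hd.trans hB) (hb p hm)
  obtain ⟨h4, h5⟩ := (h 2 Nat.prime_two h2N).1 rfl
  exact ⟨h4, h5, fun p hp hpN => (h p hp hpN).2⟩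

end Pool.Agent.Lib.MP_775b3b_nt
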