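import Pool.Agent.Lib.MP_775b3b_nt.YA
import Pool.Agent.Lib.MP_775b3b_nt.ZPrime

/-! Primes whose Frobenius has order three, which are squares modulo given primes. -/

namespace Pool.Agent.Lib.MP_775b3b_nt

open NumberField MP_439fea_co WithZero

open Polynomial in
/-- If `a` is a square take `F' = F`.  Otherwise `F' = AdjoinRoot (X^2 - C a)`
(`X_pow_sub_C_irreducible_of_prime`), a splitting field over `F`
(`isSplittingField_AdjoinRoot_X_pow_sub_C`, primitive root `-1`); `F` is the splitting field over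
`ℚ` of some `p ≠ 0` (`IsGalois.is_separable_splitting_field`), `Polynomial.IsSplittingField.mul`,
`Normal.of_isSplittingField`. -/
theorem exists_ext_one (F : Type) [Field F] [NumberField F] [IsGalois ℚ F] (a : ℤ) :
    ∃ (F' : Type) (_ : Field F') (_ : NumberField F') (_ : Algebra F F') (_ : IsGalois ℚ F')
      (i : ℕ), Module.finrank F F' = 2 ^ i ∧ ∃ x : F', x ^ 2 = a := by
  by_cases h : ∃ x : F, x ^ 2 = a
  · exact ⟨F, inferInstance, inferInstance, Algebra.id F, inferInstance, 0, by simp, h⟩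
  push Not at h
  have H : Irreducible (X ^ 2 - C (a : F)) := X_pow_sub_C_irreducible_of_prime Nat.prime_two h
  have hz : (primitiveRoots 2 F).Nonempty :=
    ⟨-1, (mem_primitiveRoots two_pos).2 (IsPrimitiveRoot.neg_one 0 (by norm_num))⟩
  let E := (X ^ 2 - C (a : F)).SplittingField
  have : CharZero E := charZero_of_injective_algebraMap (algebraMap F E).injective
  have : IsScalarTower ℚ F E := IsScalarTower.of_algebraMap_eq' (Subsingleton.elim _ _)
  have : FiniteDimensional ℚ E := Module.Finite.trans F E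
  have : NumberField E := {}
  obtain ⟨p, hp, hs⟩ := IsGalois.is_separable_splitting_field ℚ F
  have hg : (X ^ 2 - C (a : ℚ)).map (algebraMap ℚ F) = X ^ 2 - C (a : F) := by simp
  have : IsSplittingField F E ((X ^ 2 - C (a : ℚ)).map (algebraMap ℚ F)) := by
    rw [hg]
    infer_instance
  have := IsSplittingField.mul (K := F) (L := E) p (X ^ 2 - C (a : ℚ)) hp.ne_zero
    (X_pow_sub_C_ne_zero two_pos _)
  have : Normal ℚ E := Normal.of_isSplittingField (p * (X ^ 2 - C (a : ℚ)))
  refine ⟨E, inferInstance, inferInstance, inferInstance, {}, 1, ?_, ?_⟩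
  · exact finrank_of_isSplittingField_X_pow_sub_C hz H E
  · refine ⟨rootOfSplitsXPowSubC two_pos (a : F) E, ?_⟩
    rw [rootOfSplitsXPowSubC_pow, map_intCast]

/-- induction on `s`; compose the algebra maps (`RingHom.toAlgebra`, `Module.finrank_mul_finrank`) -/
theorem exists_ext (F : Type) [Field F] [NumberField F] [IsGalois ℚ F] (s : Finset ℤ) :
    ∃ (F' : Type) (_ : Field F') (_ : NumberField F') (_ : Algebra F F') (_ : IsGalois ℚ F')
      (i : ℕ), Module.finrank F F' = 2 ^ i ∧ ∀ a ∈ s, ∃ x : F', x ^ 2 = a := by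
  classical
  induction s using Finset.induction_on with
  | empty => exact ⟨F, inferInstance, inferInstance, Algebra.id F, inferInstance, 0, by simp,
      by simp⟩
  | insert a s _ ih =>
    obtain ⟨E, _, _, _, _, i, hi, hE⟩ := ih
    obtain ⟨E', _, _, _, _, j, hj, x, hx⟩ := exists_ext_one E a
    let := ((algebraMap E E').comp (algebraMap F E)).toAlgebra
    have : IsScalarTower F E E' := IsScalarTower.of_algebraMap_eq' rfl
    refine ⟨E', inferInstance, inferInstance, inferInstance, inferInstance, i + j, ?_, ?_⟩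
    · rw [← Module.finrank_mul_finrank F E E', hi, hj, pow_add]
    · intro b hb
      rcases Finset.mem_insert.1 hb with rfl | hb
      · exact ⟨x, hx⟩
      · obtain ⟨y, hy⟩ := hE b hb
        exact ⟨algebraMap E E' y, by rw [← map_pow, hy, map_intCast]⟩

variable {K F : Type} [Field K] [NumberField K] [Field F] [NumberField F]

theorem YPrime2_sq [IsGalois ℚ F] (φ : K →+* F) {w : P F}
    (h : Nat.card (MulAction.stabilizer (F ≃ₐ[ℚ] F) w) = 3) : SqDesc φ w := by
  let := φ.toAlgebra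
  exact sqDesc_of_three (K := K) h

theorem YPrime2_fix [IsGalois ℚ F] (hK : Module.finrank ℚ K = 3) {i : ℕ}
    (hF : Module.finrank ℚ F = 3 * 2 ^ i) (φ : K →+* F) {c : F ≃ₐ[ℚ] F} (h3 : c ^ 3 = 1)
    (h : ∀ x, c (φ x) = φ x) : c = 1 := by
  let := φ.toAlgebra
  have : IsScalarTower ℚ K F := IsScalarTower.of_algebraMap_eq' (Subsingleton.elim _ _)
  have := IsGalois.tower_top_of_isGalois ℚ K F
  have h1 : Module.finrank K F = 2 ^ i := by
    have h2 := Module.finrank_mul_finrank ℚ K F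
    rw [hK, hF] at h2
    omega
  have : FiniteDimensional K F := Module.Finite.of_restrictScalars_finite ℚ K F
  let σ : F ≃ₐ[K] F := { c.toRingEquiv with commutes' := h }
  have h4 : AlgEquiv.restrictScalarsHom ℚ σ = c := AlgEquiv.ext fun _ => rfl
  have h5 : c ^ 2 ^ i = 1 := by
    rw [← h4, ← map_pow, ← h1, ← IsGalois.card_aut_eq_finrank, pow_card_eq_one', map_one]
  exact orderOf_eq_one_iff.1 (Nat.eq_one_of_dvd_coprimes
    (Nat.Coprime.pow_right i (by norm_num : Nat.Coprime 3 2))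
    (orderOf_dvd_of_pow_eq_one h3) (orderOf_dvd_of_pow_eq_one h5))

theorem YPrime2_perm : ∀ π : Equiv.Perm (Fin 3), (∀ j, π j ≠ j) →
    ∀ j, j = 0 ∨ j = π 0 ∨ j = π (π 0) := by
  decide

/-- For `w` above `l` take `w'` over it (`exists_over_of_unr`).  `sq0`, `sq1`: `sqDesc_of_three` in
`F'` (with `RingHom.toAlgebra`) and `SqDesc.mid`.  `rot`: `c' ≠ 1` in the stabiliser of `w'`, of
order three; its restriction `c` to `F` (`S.gal`, `AlgEquiv.restrictNormal`) induces `π`
(`exists_cmp`) and `val w (c x) = val w x`.  `π j ≠ j` for all `j`: otherwise `c'` is an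
automorphism over `K` (through `S.s j`), and `finrank K F' = 2^i` (`S.finrank_eq`), see the proof of
`smul_eq_of_three`.  So `j = 0`, `π 0` or `π (π 0)`. -/
theorem IP_of_three (S : Setup K F) {F' : Type} [Field F'] [NumberField F'] [Algebra F F']
    [IsGalois ℚ F'] {i : ℕ} (hF : Module.finrank ℚ F' = 3 * 2 ^ i) {l : ℕ} (hl : l.Prime)
    (hu : ∀ w : P F', val w (l : F') < 1 → val w (l : F') = exp (-1 : ℤ))
    (h3 : ∀ w : P F', val w (l : F') < 1 →
      Nat.card (MulAction.stabilizer (F' ≃ₐ[ℚ] F') w) = 3) : IP S l := by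
  have := S.gal
  have : IsScalarTower ℚ F F' := IsScalarTower.of_algebraMap_eq' (Subsingleton.elim _ _)
  have key : ∀ w : P F, pr w = l → ∃ w' : P F', Over (algebraMap F F') w' w ∧
      val w' (l : F') < 1 := fun w hw => by
    obtain ⟨w', ho⟩ := exists_over_of_unr (algebraMap F F') w (x := (l : F)) fun w' hw' => by
      rw [map_natCast]
      exact hu w' (val_lt_of_pr (hw'.trans hw))
    exact ⟨w', ho, by rw [ho.natCast]; exact val_lt_of_pr hw⟩
  refine ⟨hl, fun w hw => ?_, fun w hw => ?_, fun w hw => ?_, fun w hw => ?_⟩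
  · obtain ⟨w', ho, h1⟩ := key w hw
    rw [← ho.natCast, hu w' h1]
  · obtain ⟨w', ho, h1⟩ := key w hw
    exact SqDesc.mid ho (YPrime2_sq _ (h3 w' h1))
  · obtain ⟨w', ho, h1⟩ := key w hw
    exact SqDesc.mid ho (YPrime2_sq _ (h3 w' h1))
  · obtain ⟨w', ho, h1⟩ := key w hw
    have h4 := h3 w' h1
    have : Nontrivial (MulAction.stabilizer (F' ≃ₐ[ℚ] F') w') :=
      Finite.one_lt_card_iff_nontrivial.1 (by omega)
    obtain ⟨c, hc⟩ := exists_ne (1 : MulAction.stabilizer (F' ≃ₐ[ℚ] F') w')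
    have h6 : c.1 ^ 3 = 1 := by
      have h5 : c ^ 3 = 1 := by rw [← h4, pow_card_eq_one']
      exact congrArg Subtype.val h5
    obtain ⟨π, hπ⟩ := S.exists_cmp (c.1.restrictNormal F)
    have h7 : ∀ j x, val w (S.s (π j) x) = val w (S.s j x) := fun j x => by
      rw [← hπ, ← ho, ← ho, AlgEquiv.restrictNormal_commutes]
      exact (mem_stabilizer_iff_val c.1 w').1 c.2 _
    have h8 : ∀ j, π j ≠ j := fun j hj => hc (Subtype.ext
      (YPrime2_fix S.finrank_eq hF ((algebraMap F F').comp (S.s j)) h6 fun x => by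
        rw [RingHom.comp_apply, ← AlgEquiv.restrictNormal_commutes, hπ, hj]))
    intro j x
    rcases YPrime2_perm π h8 j with h9 | h9 | h9
    · rw [h9]
    · rw [h9, h7]
    · rw [h9, h7, h7]

/-- `exists_ext` for `-1` and the elements of `Q`, `exists_stab_three`, `exists_unr` for `F'`,
`IP_of_three`.  Integers prime to `l` that are squares in `F'` are squares modulo `l`
(`sqDesc_of_three` over `ℚ`, `SqZ.up`, `sqZ_of_res1`, `res1_rat`); `ZMod.exists_sq_eq_neg_one_iff`,
`ZMod.exists_sq_eq_prime_iff_of_mod_four_eq_one`. -/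
theorem exists_IP (S : Setup K F) {j : ℕ} (hF : Module.finrank ℚ F = 3 * 2 ^ j) (Q : Finset ℕ)
    (hQ : ∀ q ∈ Q, q.Prime ∧ q ≠ 2) (Y : ℕ) :
    ∃ l : ℕ, Y < l ∧ IP S l ∧ ∀ q ∈ Q, IsSquare (l : ZMod q) := by
  classical
  have := S.gal
  obtain ⟨F', _, _, _, _, i, hi, hsq⟩ := exists_ext F (insert (-1) (Q.image fun q : ℕ => (q : ℤ)))
  have : IsScalarTower ℚ F F' := IsScalarTower.of_algebraMap_eq' (Subsingleton.elim _ _)
  have hF' : Module.finrank ℚ F' = 3 * 2 ^ (j + i) := by
    rw [← Module.finrank_mul_finrank ℚ F F', hF, hi, pow_add, mul_assoc]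
  obtain ⟨N₀, hN, hU⟩ := exists_unr F'
  obtain ⟨l, hl, hY, h3⟩ := exists_stab_three F' (hF' ▸ dvd_mul_right _ _) (max Y (max N₀ 2))
  have hu : ∀ w : P F', val w (l : F') < 1 → val w (l : F') = exp (-1 : ℤ) := fun w hw =>
    hU N₀ dvd_rfl w ⟨l, hl⟩ (fun hd => absurd (Nat.le_of_dvd (Nat.pos_of_ne_zero hN) hd)
      (not_le.2 (((le_max_left _ _).trans (le_max_right _ _)).trans_lt hY))) hw
  refine ⟨l, (le_max_left _ _).trans_lt hY, IP_of_three S hF' hl hu h3, fun q hq => ?_⟩
  obtain ⟨w, hw⟩ := exists_over_prime F' hl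
  obtain ⟨v, ho⟩ := exists_over_hom (algebraMap ℚ F') w (x := (l : ℚ))
    (by rw [map_natCast]; exact hu w hw)
  have hv : val v (l : ℚ) < 1 := by rw [← ho.natCast]; exact hw
  have hz : SqZ w l := SqZ.up ho hl hv (sqDesc_of_three (h3 w hw)) (sqZ_of_res1 hl hv (res1_rat v))
  have hz' : ∀ a ∈ insert (-1 : ℤ) (Q.image fun q : ℕ => (q : ℤ)), IsSquare (a : ZMod l) :=
    fun a ha => by
      obtain ⟨x, hx⟩ := hsq a ha
      exact hz a ⟨x, by rw [hx, sub_self, map_zero]; exact zero_lt_one⟩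
  have := Fact.mk hl
  have := Fact.mk (hQ q hq).1
  have h1 : l % 4 ≠ 3 := ZMod.exists_sq_eq_neg_one_iff.1
    (by simpa using hz' (-1) (Finset.mem_insert_self _ _))
  have h2 : 2 < l := ((le_max_right _ _).trans (le_max_right _ _)).trans_lt hY
  have h4 : l % 2 = 1 := hl.eq_two_or_odd.resolve_left h2.ne'
  refine (ZMod.exists_sq_eq_prime_iff_of_mod_four_eq_one (by omega) (hQ q hq).2).1 ?_
  simpa using hz' q (Finset.mem_insert_of_mem (Finset.mem_image_of_mem _ hq))

end Pool.Agent.Lib.MP_775b3b_nt
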