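import Pool.Agent.Lib.MP_775b3b_nt.ZSieve

/-! The sieve on the Lagrangian Grassmannian with one class in `l` removed. -/

namespace Pool.Agent.Lib.MP_775b3b_nt

/-- As `lg_sieve`, with `sieveg_fixed` for `β l = 1 - c₀ / l` and `Q' = {l ∈ Q | l ∤ g}`.  If
`∑ l ∈ Q, l ∣ g, 1 / l ≤ 1` then `Q'` is not empty, `∏ Q' ≤ ∏ Q` and
`∏ l ∈ Q', (1 - c₀ / l) ≤ exp (-c₀ (∑ l ∈ Q, 1 / l - 1))` (`Real.one_sub_le_exp_neg`).  Otherwise use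
`lg_all_fixed` and the weight `∑ l ∈ Q, if l ∣ n then l⁻¹ * C₁ * (Wt n / √n) else 0`, whose sum is
bounded by `wt_sum_dvd`. -/
theorem lg_sieve3 : ∃ C : ℝ, 0 < C ∧ ∀ (Q : Finset ℕ), (∀ l ∈ Q, l.Prime ∧ 3 ≤ l) →
    1 < ∑ l ∈ Q, (l : ℝ)⁻¹ → ∀ c₀ : ℝ, 0 ≤ c₀ → c₀ ≤ 1 → ∀ ε : ℝ, 0 < ε → ∃ C' : ℝ, 0 ≤ C' ∧
    ∀ Bad : ∀ l : ℕ, Finset (Matrix (Fin 4) (Fin 4) (ZMod l)),
    (∀ l ∈ Q, ((Bad l).card : ℝ) ≤ (1 - c₀ / l) * (l : ℝ) ^ 10) →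
    ∀ (d : Fin 4 → ℝ), (∀ i, 0 < d i) → ∀ (M : ℝ) (Z : Finset (ℤ × Matrix (Fin 4) (Fin 4) ℚ)),
    0 ≤ M → (∀ z ∈ Z, LGHyp d M z.1 z.2 ∧
      ∀ l ∈ Q, ¬ (l : ℤ) ∣ z.1 → ∃ B ∈ Bad l, RedS l z.1 z.2 B) →
    (Z.card : ℝ) ≤ ((C * (Real.exp (-(c₀ * (∑ l ∈ Q, (l : ℝ)⁻¹ - 1))) +
      ∑ l ∈ Q, (l : ℝ)⁻¹ ^ 2) + ε) * M ^ 5 + C' * M ^ (9 / 2 : ℝ)) * Pd d := by
  classical
  obtain ⟨C₁, hC₁, c1⟩ := lg_all_fixed
  obtain ⟨C₂, hC₂, c2⟩ := sieveg_fixed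
  refine ⟨24 * C₁ + 12 * C₂, by positivity, fun Q hQp hQ c₀ h0 h01 ε hε => ?_⟩
  obtain ⟨η, hη⟩ : ∃ η : ℝ, η = Real.exp (-(c₀ * (∑ l ∈ Q, (l : ℝ)⁻¹ - 1))) := ⟨_, rfl⟩
  have s5 : 0 ≤ η := hη ▸ (Real.exp_pos _).le
  rw [← hη]
  obtain ⟨q, hq⟩ : ∃ q : ℕ, q = ∏ l ∈ Q, l := ⟨_, rfl⟩
  obtain ⟨p₀, hp₀⟩ : ∃ p₀ : ℕ, p₀ = 6 + q + ⌈24 * C₂ * (q : ℝ) ^ 10 / ε⌉₊ := ⟨_, rfl⟩
  have hp0 : (0 : ℝ) < p₀ := by exact_mod_cast (by omega : 0 < p₀)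
  have hp1 : 12 * C₂ * ((q : ℝ) ^ 10 / p₀) ≤ ε / 2 := by
    have h1 : 24 * C₂ * (q : ℝ) ^ 10 / ε ≤ p₀ :=
      (Nat.le_ceil _).trans (Nat.cast_le.2 (by omega))
    rw [div_le_iff₀ hε] at h1
    rw [← mul_div_assoc, div_le_iff₀ hp0]
    linarith
  obtain ⟨c, hc⟩ := card_exc p₀
  obtain ⟨C₃, hC₃, c3⟩ := wt_sum_sparse c (ε := ε / (4 * C₁)) (by positivity)
  refine ⟨2 * C₁ * C₃, by positivity, fun Bad hBad d hd M Z hM hZ => ?_⟩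
  have hP : 0 ≤ Pd d := zsieve_Pd_nonneg hd
  obtain ⟨w, hw⟩ : ∃ w : ℕ → ℝ, w = fun n => (if Exc p₀ n then C₁ * (Wt n / √(n : ℝ)) else 0) +
    (∑ l ∈ Q, if l ∣ n then (l : ℝ)⁻¹ * (C₁ * (Wt n / √(n : ℝ))) else 0) +
      C₂ * (η + (q : ℝ) ^ 10 / p₀) * (Wt n / √(n : ℝ)) := ⟨_, rfl⟩
  have hW : ∀ n : ℕ, 0 ≤ Wt n / √(n : ℝ) := fun n => div_nonneg (Wt_nonneg n) (Real.sqrt_nonneg _)
  have hM9 : 0 ≤ M ^ (9 / 2 : ℝ) := by positivity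
  have h1 : ∀ g : ℤ, ((Z.filter fun z => z.1 = g).card : ℝ) ≤
      M ^ (9 / 2 : ℝ) * Pd d * w g.natAbs := fun g => by
    rw [← Finset.card_image_of_injOn (f := Prod.snd) fun a ha b hb h => Prod.ext
      ((Finset.mem_filter.1 ha).2.trans (Finset.mem_filter.1 hb).2.symm) h]
    have hS : ∀ S ∈ (Z.filter fun z => z.1 = g).image Prod.snd, LGHyp d M g S ∧
        ∀ l ∈ Q, ¬ (l : ℤ) ∣ g → ∃ B ∈ Bad l, RedS l g S B := fun S hS => by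
      obtain ⟨z, hz, rfl⟩ := Finset.mem_image.1 hS
      exact (Finset.mem_filter.1 hz).2 ▸ hZ z (Finset.mem_filter.1 hz).1
    have a1 := c1 d hd M g _ hM fun S h => (hS S h).1
    have b1 : 0 ≤ (if Exc p₀ g.natAbs then C₁ * (Wt g.natAbs / √(g.natAbs : ℝ)) else 0) := by
      split_ifs
      · exact mul_nonneg hC₁.le (hW _)
      · exact le_rfl
    have b2 : ∀ l ∈ Q, 0 ≤ (if l ∣ g.natAbs then
        (l : ℝ)⁻¹ * (C₁ * (Wt g.natAbs / √(g.natAbs : ℝ))) else 0) := by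
      intro l _
      split_ifs
      · exact mul_nonneg (by positivity) (mul_nonneg hC₁.le (hW _))
      · exact le_rfl
    have b3 : 0 ≤ C₂ * (η + (q : ℝ) ^ 10 / p₀) * (Wt g.natAbs / √(g.natAbs : ℝ)) :=
      mul_nonneg (by positivity) (hW _)
    have b4 := Finset.sum_nonneg b2
    have a2 : C₁ * (Wt g.natAbs / √(g.natAbs : ℝ)) ≤ w g.natAbs →
        (((Z.filter fun z => z.1 = g).image Prod.snd).card : ℝ) ≤
          M ^ (9 / 2 : ℝ) * Pd d * w g.natAbs := fun h =>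
      a1.trans (le_of_eq_of_le (by ring) (mul_le_mul_of_nonneg_left h (mul_nonneg hM9 hP)))
    by_cases e1 : Exc p₀ g.natAbs
    · refine a2 ?_
      rw [hw]
      simp only [if_pos e1]
      linarith
    rcases lt_or_ge 1 (∑ l ∈ Q.filter (· ∣ g.natAbs), (l : ℝ)⁻¹) with e2 | e2
    · refine a2 ?_
      have := le_mul_of_one_le_left (mul_nonneg hC₁.le (hW g.natAbs)) e2.le
      rw [Finset.sum_mul, Finset.sum_filter] at this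
      rw [hw]
      linarith
    obtain ⟨Q', hQ'⟩ : ∃ Q' : Finset ℕ, Q' = Q.filter fun l => ¬ l ∣ g.natAbs := ⟨_, rfl⟩
    have e0 : ∑ l ∈ Q, (l : ℝ)⁻¹ - 1 ≤ ∑ l ∈ Q', (l : ℝ)⁻¹ := by
      rw [← Finset.sum_filter_add_sum_filter_not Q (· ∣ g.natAbs), hQ']
      linarith
    have hsub : Q' ⊆ Q := hQ' ▸ Finset.filter_subset _ _
    have e3 : ∀ l ∈ Q', ¬ (l : ℤ) ∣ g := fun l hl h => by
      rw [hQ', Finset.mem_filter] at hl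
      exact hl.2 (Int.natCast_dvd.1 h)
    have e4 : Q'.Nonempty := Finset.nonempty_iff_ne_empty.2 fun h => by
      rw [h, Finset.sum_empty] at e0
      linarith
    have e5 : ∏ l ∈ Q', l ≤ q := hq ▸ Finset.prod_le_prod_of_subset_of_one_le' hsub
      fun l hl _ => (hQp l hl).1.one_le
    have hβ : ∀ l : ℕ, 0 ≤ 1 - c₀ / l := fun l => by
      rcases Nat.eq_zero_or_pos l with rfl | hl
      · simp
      · exact sub_nonneg.2 (div_le_one_of_le₀ (h01.trans (Nat.one_le_cast.2 hl)) (by positivity))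
    have e6 : ∏ l ∈ Q', (1 - c₀ / (l : ℝ)) ≤ η := by
      refine (Finset.prod_le_prod (fun l _ => hβ l) fun l _ => Real.one_sub_le_exp_neg _).trans ?_
      rw [← Real.exp_sum, hη, Finset.sum_neg_distrib]
      simp only [div_eq_mul_inv, ← Finset.mul_sum]
      exact Real.exp_le_exp.2 (neg_le_neg (mul_le_mul_of_nonneg_left e0 h0))
    unfold Exc at e1
    push Not at e1
    obtain ⟨p, hp, hpp, hp2, hp3⟩ := e1
    have a3 := c2 Q' e4 (fun l hl => hQp l (hsub hl)) (fun l => 1 - c₀ / l) hβ Bad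
      (fun l hl => hBad l (hsub hl)) (fun l => sub_le_self _ (by positivity)) g p hp (by omega)
      (by omega) (Int.natCast_dvd.2 hp2)
      (fun h => hp3 (Int.natCast_dvd.1 (by exact_mod_cast h))) e3 d hd M _ hM
      fun S h => ⟨(hS S h).1, fun l hl => (hS S h).2 l (hsub hl) (e3 l hl)⟩
    have a4 : ((∏ l ∈ Q', l : ℕ) : ℝ) ^ 10 / p ≤ (q : ℝ) ^ 10 / p₀ :=
      div_le_div₀ (by positivity) (pow_le_pow_left₀ (by positivity) (Nat.cast_le.2 e5) 10) hp0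
        (by exact_mod_cast hpp.le)
    refine a3.trans ((mul_le_mul_of_nonneg_left (add_le_add e6 a4)
      (mul_nonneg (mul_nonneg (by positivity) (hW _)) hP)).trans
        (le_of_eq_of_le (b := M ^ (9 / 2 : ℝ) * Pd d * (C₂ * (η + (q : ℝ) ^ 10 / p₀) *
          (Wt g.natAbs / √(g.natAbs : ℝ)))) (by ring)
          (mul_le_mul_of_nonneg_left ?_ (mul_nonneg hM9 hP))))
    rw [hw]
    linarith
  have h2 : Set.MapsTo (fun z : ℤ × Matrix (Fin 4) (Fin 4) ℚ => z.1.natAbs) Z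
      (Finset.Icc 1 ⌊M⌋₊) := fun z hz => by
    have a1 := (hZ z hz).1.ne
    have a2 := (hZ z hz).1.bd 1 0 (fun i j => by rw [Matrix.one_apply]; split_ifs <;> simp)
      fun i j => by simp
    rw [zero_mul, add_zero, Matrix.det_one, abs_one,
      one_le_div (abs_pos.2 (Int.cast_ne_zero.2 a1)), ← Int.cast_abs, ← Nat.cast_natAbs] at a2
    exact Finset.mem_coe.2 (Finset.mem_Icc.2 ⟨Int.natAbs_pos.2 a1, Nat.le_floor a2⟩)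
  rw [Finset.card_eq_sum_card_fiberwise h2, Nat.cast_sum]
  have h3 : ∀ n ∈ Finset.Icc 1 ⌊M⌋₊, ((Z.filter fun z => z.1.natAbs = n).card : ℝ) ≤
      2 * (M ^ (9 / 2 : ℝ) * Pd d) * w n := by
    intro n _
    have a1 : (Z.filter fun z => z.1.natAbs = n).card ≤
        (Z.filter fun z => z.1 = (n : ℤ)).card + (Z.filter fun z => z.1 = -(n : ℤ)).card := by
      refine (Finset.card_le_card fun z hz => ?_).trans (Finset.card_union_le _ _)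
      simp only [Finset.mem_union, Finset.mem_filter] at hz ⊢
      rcases Int.natAbs_eq_iff.1 hz.2 with h | h
      · exact Or.inl ⟨hz.1, h⟩
      · exact Or.inr ⟨hz.1, h⟩
    have a2 := h1 n
    have a3 := h1 (-n)
    simp only [Int.natAbs_neg, Int.natAbs_natCast] at a2 a3
    refine ((Nat.cast_le (α := ℝ)).2 a1).trans ?_
    rw [Nat.cast_add]
    linarith
  refine (Finset.sum_le_sum h3).trans ?_
  rw [← Finset.mul_sum]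
  have h4 : √(⌊M⌋₊ : ℝ) ≤ M ^ (1 / 2 : ℝ) := by
    rw [← Real.sqrt_eq_rpow]
    exact Real.sqrt_le_sqrt (Nat.floor_le hM)
  have h5 : M ^ (9 / 2 : ℝ) * M ^ (1 / 2 : ℝ) = M ^ 5 := by
    rw [← Real.rpow_add' hM (by norm_num), ← Real.rpow_natCast]
    norm_num
  generalize ⌊M⌋₊ = G at h4
  have s1 : ∑ n ∈ Finset.Icc 1 G, (if Exc p₀ n then C₁ * (Wt n / √(n : ℝ)) else 0) ≤
      ε / 4 * √(G : ℝ) + C₁ * C₃ := by
    rw [← Finset.sum_filter, ← Finset.mul_sum]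
    refine (mul_le_mul_of_nonneg_left (c3 G _ (Finset.filter_subset _ _) (hc G)) hC₁.le).trans_eq ?_
    field_simp
  have s2 : ∑ n ∈ Finset.Icc 1 G,
      (∑ l ∈ Q, if l ∣ n then (l : ℝ)⁻¹ * (C₁ * (Wt n / √(n : ℝ))) else 0) ≤
      12 * C₁ * (∑ l ∈ Q, (l : ℝ)⁻¹ ^ 2) * √(G : ℝ) := by
    rw [Finset.sum_comm, Finset.mul_sum, Finset.sum_mul]
    refine Finset.sum_le_sum fun l hl => ?_
    rw [← Finset.sum_filter, ← Finset.mul_sum, ← Finset.mul_sum]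
    refine (mul_le_mul_of_nonneg_left (mul_le_mul_of_nonneg_left (wt_sum_dvd (hQp l hl).1 G)
      hC₁.le) (by positivity)).trans_eq ?_
    ring
  have s3 : ∑ n ∈ Finset.Icc 1 G, C₂ * (η + (q : ℝ) ^ 10 / p₀) * (Wt n / √(n : ℝ)) ≤
      (6 * C₂ * η + ε / 4) * √(G : ℝ) := by
    rw [← Finset.mul_sum]
    refine (mul_le_mul_of_nonneg_left (wt_sum G) (by positivity)).trans ?_
    rw [← mul_assoc]
    refine mul_le_mul_of_nonneg_right ?_ (Real.sqrt_nonneg _)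
    linarith
  have s4 : 0 ≤ ∑ l ∈ Q, (l : ℝ)⁻¹ ^ 2 := Finset.sum_nonneg fun _ _ => by positivity
  have s6 : ∑ n ∈ Finset.Icc 1 G, w n ≤
      ((12 * C₁ + 6 * C₂) * (η + ∑ l ∈ Q, (l : ℝ)⁻¹ ^ 2) + ε / 2) * M ^ (1 / 2 : ℝ) +
        C₁ * C₃ := by
    rw [hw, Finset.sum_add_distrib, Finset.sum_add_distrib]
    refine le_trans ?_ (add_le_add (mul_le_mul_of_nonneg_left h4 (by positivity)) le_rfl)
    have t1 := mul_nonneg (mul_nonneg hC₁.le s5) (Real.sqrt_nonneg (G : ℝ))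
    have t2 := mul_nonneg (mul_nonneg hC₂.le s4) (Real.sqrt_nonneg (G : ℝ))
    linarith
  refine (mul_le_mul_of_nonneg_left s6 (by positivity)).trans_eq ?_
  rw [← h5]
  ring

/-- the proof of `lg_sieve_level` -/
theorem lg_sieve3_level (c : ℝ) (hc : 0 ≤ c) : ∃ C : ℝ, 0 < C ∧ ∀ (Q : Finset ℕ),
    (∀ l ∈ Q, l.Prime ∧ 3 ≤ l) → 1 < ∑ l ∈ Q, (l : ℝ)⁻¹ → ∀ c₀ : ℝ, 0 ≤ c₀ → c₀ ≤ 1 →
    ∀ ε : ℝ, 0 < ε → ∃ C' : ℝ, 0 ≤ C' ∧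
    ∀ Bad : ∀ l : ℕ, Finset (Matrix (Fin 4) (Fin 4) (ZMod l)),
    (∀ l ∈ Q, ((Bad l).card : ℝ) ≤ (1 - c₀ / l) * (l : ℝ) ^ 10) →
    ∀ (j : ℕ) (T : ℝ) (Z : Finset (ℤ × Matrix (Fin 4) (Fin 4) ℚ)), 0 ≤ T →
    (∀ z ∈ Z, LGHyp (dvec j) (c * T / 16 ^ j) z.1 z.2 ∧
      ∀ l ∈ Q, ¬ (l : ℤ) ∣ z.1 → ∃ B ∈ Bad l, RedS l z.1 z.2 B) →
    (Z.card : ℝ) ≤ ((C * (Real.exp (-(c₀ * (∑ l ∈ Q, (l : ℝ)⁻¹ - 1))) +
      ∑ l ∈ Q, (l : ℝ)⁻¹ ^ 2) + ε) * T ^ 5 + C' * T ^ (9 / 2 : ℝ)) * 16 ^ j := by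
  obtain ⟨C, hC, h⟩ := lg_sieve3
  refine ⟨C * (c ^ 5 + 1) * 2 ^ 10, by positivity, fun Q hQp hQ c₀ h0 h01 ε hε => ?_⟩
  obtain ⟨C', hC', h'⟩ := h Q hQp hQ c₀ h0 h01 (ε / ((c ^ 5 + 1) * 2 ^ 10)) (by positivity)
  refine ⟨C' * c ^ (9 / 2 : ℝ) * 2 ^ 10, by positivity, fun Bad hBad j T Z hT hZ => ?_⟩
  have hd : ∀ i, 0 < dvec j i := fun i => by fin_cases i <;> simp [dvec]
  refine (h' Bad hBad _ hd _ Z (by positivity) hZ).trans ?_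
  have s4 : 0 ≤ ∑ l ∈ Q, (l : ℝ)⁻¹ ^ 2 := Finset.sum_nonneg fun _ _ => by positivity
  have s5 := (Real.exp_pos (-(c₀ * (∑ l ∈ Q, (l : ℝ)⁻¹ - 1)))).le
  refine (mul_le_mul_of_nonneg_left (zsieve_Pd_dvec j) (by positivity)).trans ?_
  have e16 : (16 : ℝ) ^ j = (2 ^ j) ^ 4 := by rw [← pow_mul, mul_comm, pow_mul]; norm_num
  have ht : (1 : ℝ) ≤ 2 ^ j := one_le_pow₀ one_le_two
  rw [e16]
  generalize (2 : ℝ) ^ j = t at ht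
  have ht0 : 0 < t := by linarith
  have e1 : (c * T / t ^ 4) ^ (9 / 2 : ℝ) = c ^ (9 / 2 : ℝ) * T ^ (9 / 2 : ℝ) / t ^ 18 := by
    rw [Real.div_rpow (by positivity) (by positivity), Real.mul_rpow hc hT,
      ← Real.rpow_natCast t 4, ← Real.rpow_mul ht0.le, ← Real.rpow_natCast t 18]
    norm_num
  rw [e1]
  generalize Real.exp (-(c₀ * (∑ l ∈ Q, (l : ℝ)⁻¹ - 1))) + ∑ l ∈ Q, (l : ℝ)⁻¹ ^ 2 = η,
    add_nonneg s5 s4 = hη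
  have h2 : c ^ 5 ≤ c ^ 5 + 1 := by linarith
  have h3 : t ^ 2 ≤ t ^ 4 := pow_le_pow_right₀ ht (by norm_num)
  have h4 : (C * η + ε / ((c ^ 5 + 1) * 2 ^ 10)) * (c * T / t ^ 4) ^ 5 * (2 ^ 10 * t ^ 22) ≤
      (C * (c ^ 5 + 1) * 2 ^ 10 * η + ε) * T ^ 5 * t ^ 4 := by
    refine le_of_eq_of_le (b := (C * η + ε / ((c ^ 5 + 1) * 2 ^ 10)) * c ^ 5 * 2 ^ 10 * T ^ 5 *
      t ^ 2) (by field_simp) (le_of_le_of_eq (b := (C * η + ε / ((c ^ 5 + 1) * 2 ^ 10)) *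
        (c ^ 5 + 1) * 2 ^ 10 * T ^ 5 * t ^ 4) (by gcongr) (by field_simp))
  rw [add_mul, add_mul (_ * T ^ 5)]
  refine add_le_add h4 (le_of_eq ?_)
  field_simp

/-- `sum_Ioc_inv_sq_le_sub` or `sum_Ioo_inv_sq_le` -/
theorem sum_inv_sq_le {L : ℕ} (hL : L ≠ 0) (Q : Finset ℕ) (h : ∀ l ∈ Q, L < l) :
    ∑ l ∈ Q, (l : ℝ)⁻¹ ^ 2 ≤ (L : ℝ)⁻¹ := by
  have h1 : Q ⊆ Finset.Ioc L (L + Q.sup id) := fun l hl =>
    Finset.mem_Ioc.2 ⟨h l hl, (Finset.le_sup (f := id) hl).trans (Nat.le_add_left _ _)⟩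
  refine (Finset.sum_le_sum_of_subset_of_nonneg h1 fun _ _ _ => by positivity).trans ?_
  simp only [inv_pow]
  exact (sum_Ioc_inv_sq_le_sub hL (Nat.le_add_right _ _)).trans (sub_le_self _ (by positivity))

end Pool.Agent.Lib.MP_775b3b_nt
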