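import Pool.Agent.Lib.MP_775b3b_nt.ZFF1

/-! Squares in the cubic algebra over a finite field. -/

namespace Pool.Agent.Lib.MP_775b3b_nt

open Cub

variable {e : ℤ × ℤ} {κ : Type*} [Field κ] [Finite κ] {r : κ}

/-- `quadraticChar` is multiplicative (`quadraticChar_neg_one_iff_not_isSquare`,
`quadraticChar_one_iff_isSquare`) -/
theorem isSquare_mul_of_not {a b : κ} (ha : ¬ IsSquare a) (hb : ¬ IsSquare b) :
    IsSquare (a * b) := by
  classical
  cases nonempty_fintype κ
  have ha0 : a ≠ 0 := fun h => ha (h ▸ IsSquare.zero)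
  have hb0 : b ≠ 0 := fun h => hb (h ▸ IsSquare.zero)
  rw [← quadraticChar_one_iff_isSquare (mul_ne_zero ha0 hb0), map_mul,
    quadraticChar_neg_one_iff_not_isSquare.mpr ha, quadraticChar_neg_one_iff_not_isSquare.mpr hb]
  norm_num

omit [Finite κ] in
theorem zff2_glue (h : FT e r) {u y : Cub e κ} {s : κ} (hy : (u - y ^ 2) * lin e r = 0)
    (hs : evr r u = s * s) : IsSquare u := by
  have hD := h.deriv_ne
  have h0 : lin e r * tau e r = 0 := by rw [lin_mul_tau, h.root, map_zero]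
  obtain ⟨c, hc⟩ : ∃ c : κ, evr r y + c * (3 * r ^ 2 + (e.1 : κ)) = s :=
    ⟨(s - evr r y) / (3 * r ^ 2 + (e.1 : κ)), by field_simp; ring⟩
  have h1 : evr r (y + c • tau e r) = s := by
    rw [← hc]
    simp only [evr, tau, add_c0, add_c1, add_c2, smul_c0, smul_c1, smul_c2, smul_eq_mul]
    ring
  have h2 : evr r (u - (y + c • tau e r) * (y + c • tau e r)) = 0 := by
    have h3 : ∀ a b : Cub e κ, evr r (a - b) = evr r a - evr r b := fun a b => by
      simp only [evr, sub_c0, sub_c1, sub_c2]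
      ring
    rw [h3, evr_mul h.root, h1, hs, sub_self]
  have h3 : (u - (y + c • tau e r) * (y + c • tau e r)) * tau e r = 0 := by
    rw [mul_tau h.root, h2, zero_smul]
  have h4 : (u - (y + c • tau e r) * (y + c • tau e r)) * lin e r = 0 := by
    rw [Algebra.smul_def]
    linear_combination hy -
      (2 * y * algebraMap κ (Cub e κ) c + algebraMap κ (Cub e κ) c ^ 2 * tau e r) * h0
  have h5 : algebraMap κ (Cub e κ) (3 * r ^ 2 + (e.1 : κ)) =
      tau e r + lin e r * (th + algebraMap κ (Cub e κ) (2 * r)) := by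
    ext <;> simp only [algebraMap_c0, algebraMap_c1, algebraMap_c2, add_c0, add_c1, add_c2, mul_c0,
      mul_c1, mul_c2, th_c0, th_c1, th_c2, tau, lin, Algebra.algebraMap_self, RingHom.id_apply] <;>
      ring
  refine ⟨y + c • tau e r, sub_eq_zero.mp ?_⟩
  refine ((IsUnit.mk0 _ hD).map (algebraMap κ (Cub e κ))).mul_left_eq_zero.mp ?_
  rw [h5]
  linear_combination h3 + (th + algebraMap κ (Cub e κ) (2 * r)) * h4

omit [Finite κ] in
theorem zff2_ch (hr : fv e r = 0) (u : Cub e κ) :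
    (u ^ 2 - algebraMap κ (Cub e κ)
      (2 * (u.c0 - (r ^ 2 + (e.1 : κ)) * u.c2) - r * (u.c1 - r * u.c2)) * u +
      algebraMap κ (Cub e κ) (n2 r u)) * lin e r = 0 := by
  have hB : (e.2 : κ) = -r ^ 3 - (e.1 : κ) * r := by
    rw [fv] at hr
    linear_combination hr
  ext <;> simp only [algebraMap_c0, algebraMap_c1, algebraMap_c2, add_c0, add_c1, add_c2, mul_c0,
    mul_c1, mul_c2, sub_c0, sub_c1, sub_c2, zero_c0, zero_c1, zero_c2, pow_two u, n2, lin,
    Algebra.algebraMap_self, RingHom.id_apply, hB] <;> ring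

omit [Finite κ] in
theorem zff2_delta (hr : fv e r = 0) :
    ((2 * th + algebraMap κ (Cub e κ) r) ^ 2 -
      algebraMap κ (Cub e κ) (-(3 * r ^ 2) - 4 * (e.1 : κ))) * lin e r = 0 := by
  have hB : (e.2 : κ) = -r ^ 3 - (e.1 : κ) * r := by
    rw [fv] at hr
    linear_combination hr
  ext <;> simp only [algebraMap_c0, algebraMap_c1, algebraMap_c2, add_c0, add_c1, add_c2, mul_c0,
    mul_c1, mul_c2, sub_c0, sub_c1, sub_c2, zero_c0, zero_c1, zero_c2, pow_two (_ : Cub e κ), lin,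
    th_c0, th_c1, th_c2, two_c0, two_c1, two_c2, Algebra.algebraMap_self, RingHom.id_apply, hB] <;>
    ring

theorem zff2_main (h : FT e r) {u : Cub e κ} {s m : κ} (hs : evr r u = s * s)
    (hm : n2 r u = m * m)
    (ht : 2 * (u.c0 - (r ^ 2 + (e.1 : κ)) * u.c2) - r * (u.c1 - r * u.c2) + 2 * m ≠ 0) :
    IsSquare u := by
  have h1 := zff2_ch h.root u
  have h2 := zff2_delta h.root
  have hns := h.ns'
  rw [hm, map_mul] at h1
  generalize 2 * (u.c0 - (r ^ 2 + (e.1 : κ)) * u.c2) - r * (u.c1 - r * u.c2) = T at h1 ht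
  generalize -(3 * r ^ 2) - 4 * (e.1 : κ) = δ at h2 hns
  by_cases hq : IsSquare (T + 2 * m)
  · obtain ⟨c, hc⟩ := hq
    have hc0 : c ≠ 0 := fun h0 => ht (by rw [hc, h0, mul_zero])
    have h3 := congrArg (algebraMap κ (Cub e κ))
      (show c⁻¹ ^ 2 * (T + 2 * m) = 1 by rw [hc]; field_simp)
    simp only [map_mul, map_pow, map_add, map_one, map_ofNat] at h3
    refine zff2_glue h (y := algebraMap κ (Cub e κ) c⁻¹ * (u + algebraMap κ (Cub e κ) m)) ?_ hs
    linear_combination (-algebraMap κ (Cub e κ) c⁻¹ ^ 2) * h1 - u * lin e r * h3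
  · obtain ⟨c, hc⟩ := isSquare_mul_of_not hq hns
    have hδ : δ ≠ 0 := fun h0 => hns (h0 ▸ IsSquare.zero)
    have hc0 : c ≠ 0 := fun h0 => mul_ne_zero ht hδ (by rw [hc, h0, mul_zero])
    have h3 := congrArg (algebraMap κ (Cub e κ))
      (show c⁻¹ ^ 2 * ((T + 2 * m) * δ) = 1 by rw [hc]; field_simp)
    simp only [map_mul, map_pow, map_add, map_one, map_ofNat] at h3
    refine zff2_glue h (y := algebraMap κ (Cub e κ) c⁻¹ * (u + algebraMap κ (Cub e κ) m) *
      (2 * th + algebraMap κ (Cub e κ) r)) ?_ hs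
    linear_combination (-algebraMap κ (Cub e κ) c⁻¹ ^ 2 * algebraMap κ (Cub e κ) δ) * h1 -
      u * lin e r * h3 -
      algebraMap κ (Cub e κ) c⁻¹ ^ 2 * (u + algebraMap κ (Cub e κ) m) ^ 2 * h2

/-- `n2 u = m^2`, `m ≠ 0`, `evr r u = s^2`.  Modulo `τ`, `u = α + β θ` has trace `2 α - r β`, and
`(u + m)^2 = u t`, `t = 2 α - r β + 2 m`; changing the sign of `m` we have `t ≠ 0`.  Either
`t = c^2`, or `t (-3 r^2 - 4 A) = c^2` where `(2 θ + r)^2 = -3 r^2 - 4 A` modulo `τ`; so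
`u = y₁^2` modulo `τ` with `y₁ = (u + m) / c` or `(u + m) (2 θ + r) / c`, which means
`(u - y₁^2) * lin e r = 0`.  Put `y = y₁ + ((s - evr r y₁) / (3 r^2 + A)) • τ`; then `u - y^2` is
killed by `lin e r` and by `τ`, hence by `3 r^2 + A = τ + lin * (θ + 2 r)`. -/
theorem FT.isSquare (h : FT e r) {u : Cub e κ} (hu : IsSquare (nm u)) (hu0 : nm u ≠ 0)
    (hs : IsSquare (evr r u)) : IsSquare u := by
  obtain ⟨a, ha⟩ := hu
  obtain ⟨s, hs⟩ := hs
  have h1 := nm_eq_evr_mul h.root u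
  have hs0 : s ≠ 0 := fun h0 => hu0 (by rw [h1, hs, h0, zero_mul, zero_mul])
  have ha0 : a ≠ 0 := fun h0 => hu0 (by rw [ha, h0, zero_mul])
  have hm : n2 r u = a / s * (a / s) := by
    rw [ha, hs] at h1
    field_simp
    linear_combination -h1
  by_cases ht : 2 * (u.c0 - (r ^ 2 + (e.1 : κ)) * u.c2) - r * (u.c1 - r * u.c2) + 2 * (a / s) = 0
  · refine zff2_main h hs (m := -(a / s)) (by rw [hm]; ring) fun h0 => ?_
    have h2 : (2 : κ) * (2 * (a / s)) = 0 := by linear_combination ht - h0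
    exact mul_ne_zero h.two (mul_ne_zero h.two (div_ne_zero ha0 hs0)) h2
  · exact zff2_main h hs hm ht

/-- `Cub e κ` is a finite field (`ff_noroot`, `isUnit_iff`, `IsField.toField`, finite by
`equivFun`).  Let `c` be a nonsquare of `κ` (`FiniteField.exists_nonsquare`); `nm c = c^3` is not a
square so `c` is not a square in `Cub e κ`; if `u` is not a square, `u c` is one
(`isSquare_mul_of_not`), so `nm u * c^3` is a square, contradiction (`u ≠ 0`). -/
theorem ff_noroot_sq (h2 : (2 : κ) ≠ 0) (h : ∀ r : κ, fv e r ≠ 0) {u : Cub e κ}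
    (hu : IsSquare (nm u)) : IsSquare u := by
  by_contra hn
  have hu0 : u ≠ 0 := fun h0 => hn (h0 ▸ IsSquare.zero)
  have hF : IsField (Cub e κ) :=
    { exists_pair_ne := ⟨u, 0, hu0⟩
      mul_comm := mul_comm
      mul_inv_cancel := fun {x} hx => (isUnit_iff.2 (ff_noroot h hx)).exists_right_inv }
  have hch : ringChar κ ≠ 2 := fun h0 => h2 (by
    have := ringChar.spec κ 2
    rw [h0] at this
    exact_mod_cast this.2 dvd_rfl)
  obtain ⟨c, hc⟩ := FiniteField.exists_nonsquare hch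
  have hc0 : c ≠ 0 := fun h0 => hc (h0 ▸ IsSquare.zero)
  have key : ∀ a b : κ, a ≠ 0 → a * a * c ^ 3 ≠ b * b := fun a b ha hab =>
    hc ⟨b / (a * c), by field_simp; linear_combination hab⟩
  have hcn : ¬ IsSquare (algebraMap κ (Cub e κ) c) := fun ⟨y, hy⟩ =>
    key 1 (nm y) one_ne_zero (by rw [← nm_mul, ← hy, nm_algebraMap, one_mul, one_mul])
  have : Finite (Cub e κ) := Finite.of_equiv _ (equivFun e κ).symm.toEquiv
  obtain ⟨y, hy⟩ : IsSquare (u * algebraMap κ (Cub e κ) c) :=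
    @isSquare_mul_of_not (Cub e κ) hF.toField _ _ _ hn hcn
  obtain ⟨a, ha⟩ := hu
  refine key a (nm y) (fun h0 => ff_noroot h hu0 (by rw [ha, h0, zero_mul])) ?_
  rw [← nm_mul, ← hy, nm_mul, nm_algebraMap, ha]

end Pool.Agent.Lib.MP_775b3b_nt
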