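import Pool.Agent.Lib.MP_775b3b_nt.ZRes
import Pool.Agent.Lib.MP_775b3b_nt.ZFF2

/-! Units at a twisting place. -/

namespace Pool.Agent.Lib.MP_775b3b_nt

open Cub MP_439fea_co WithZero

variable {e : ℤ × ℤ} {k : Type} [Field k] [NumberField k] {v : P k} {r : ℤ}

theorem ZTy1_lt (h : TyV e v r) : val v (fv e (r : k)) < 1 := by
  rw [h.2.1, ← exp_zero, exp_lt_exp]
  norm_num

theorem ZTy1_ne {κ : Type*} [CommRing κ] {ρ : (val v).integer →+* κ} (hρ : RedAt v ρ) {a : k}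
    (ha : val v a ≤ 1) : rd ρ a ≠ 0 ↔ val v a = 1 := by
  rw [Ne, hρ.rd_eq_zero ha, not_lt]
  exact ⟨le_antisymm ha, fun h => h.ge⟩

theorem ZTy1_evr {κ : Type*} [CommRing κ] (ρ : (val v).integer →+* κ) {u : Cub e k}
    (hu : u ∈ Ov e v) : evr (r : κ) (rdC ρ u) = rd ρ (evr (r : k) u) := by
  rw [← evr_rdC ρ (val_int_le v r) hu, rd_intCast]

theorem TyV.fv_ne (h : TyV e v r) : fv e (r : k) ≠ 0 := by
  intro h0
  have h1 := h.2.1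
  rw [h0, map_zero] at h1
  exact exp_ne_zero h1.symm

theorem TyV.ft (h : TyV e v r) {κ : Type*} [Field κ] {ρ : (val v).integer →+* κ} (hρ : RedAt v ρ) :
    FT e (r : κ) := by
  refine ⟨?_, ?_, fun hs => ?_⟩
  · have h1 := (ZTy1_ne hρ h.1.le).2 h.1
    have h2 := rd_natCast ρ 2
    rw [Nat.cast_ofNat, Nat.cast_ofNat] at h2
    rwa [h2] at h1
  · rw [← rd_intCast ρ r, fv_rd ρ (val_int_le v r), hρ.rd_eq_zero (ZTy1_lt h).le]
    exact ZTy1_lt h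
  · rw [← Int.cast_neg, ← rd_intCast ρ, hρ.isSquare_iff (val_int_le v _)] at hs
    obtain ⟨y, hy⟩ := hs
    refine h.2.2 y ?_
    rw [← Valuation.map_neg]
    convert hy using 2
    push_cast
    ring

theorem TyV.val_deriv (h : TyV e v r) : val v (3 * (r : k) ^ 2 + (e.1 : k)) = 1 := by
  obtain ⟨κ, _, _, ρ, hρ⟩ := exists_redAt v
  have h1 := (ZTy1_ne hρ (val_int_le v (3 * r ^ 2 + e.1))).1 (by
    rw [rd_intCast]
    exact_mod_cast (h.ft hρ).deriv_ne)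
  exact_mod_cast h1

theorem ZTy1_sm (h : TyV e v r) {y : Cub e k} (h0 : y ∈ Ov e v) (hy : Sm v (y ^ 2)) : Sm v y := by
  obtain ⟨κ, _, _, ρ, hρ⟩ := exists_redAt v
  rw [← hρ.rdC_eq_zero hy.mem, rdC_pow ρ h0] at hy
  exact (hρ.rdC_eq_zero h0).1 ((h.ft hρ).sq_zero hy)

/-- `exists_prim`, `FT.sq_zero` -/
theorem TyV.mem_Ov_of_sq (h : TyV e v r) {y : Cub e k} (hy : y ^ 2 ∈ Ov e v) : y ∈ Ov e v := by
  by_cases h0 : y = 0
  · rw [h0]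
    exact zero_mem _
  obtain ⟨c, hc, h1, h2⟩ := exists_prim v h0
  rcases lt_or_ge (val v c) 1 with h3 | h3
  · refine absurd (ZTy1_sm h h1 ?_) h2
    rw [smul_pow, sq c]
    exact Sm.smul_of_lt (lociso_mul_lt v h3 h3.le) hy
  · rw [← inv_smul_smul₀ hc y]
    exact smul_mem_Ov (by rw [map_inv₀]; exact inv_le_one_of_one_le₀ h3) h1

theorem TyV.sm_of_sq (h : TyV e v r) {y : Cub e k} (hy : Sm v (y ^ 2)) : Sm v y := by
  exact ZTy1_sm h (h.mem_Ov_of_sq hy.mem) hy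

/-- `nm_eq_evr_mul` in the residue field -/
theorem TyV.val_evr (h : TyV e v r) {u : Cub e k} (hu : u ∈ Ov e v) (hn : val v (nm u) = 1) :
    val v (evr (r : k) u) = 1 := by
  obtain ⟨κ, _, _, ρ, hρ⟩ := exists_redAt v
  have h1 := (ZTy1_ne hρ hn.le).2 hn
  rw [← nm_rdC ρ hu, nm_eq_evr_mul (h.ft hρ).root, ZTy1_evr ρ hu] at h1
  exact (ZTy1_ne hρ (val_evr_le (val_int_le v r) hu)).1 (left_ne_zero_of_mul h1)

/-- `u z^2 = 1 + ε`; `y = z⁻¹` has `y^2 = u (1 + ε)⁻¹ ∈ Ov`, and `u = y^2 (1 + ε)`; reduce and use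
`evr_mul` -/
theorem TyV.evr_of_sqv (h : TyV e v r) {u : (Cub e k)ˣ} (hu : (u : Cub e k) ∈ Ov e v)
    (hn : val v (nm (u : Cub e k)) = 1) (hs : u ∈ sqv e v) :
    ∃ y : k, val v (evr (r : k) (u : Cub e k) - y ^ 2) < 1 := by
  obtain ⟨κ, _, _, ρ, hρ⟩ := exists_redAt v
  obtain ⟨z, hz⟩ := hs
  obtain ⟨h1, h2⟩ := hz.val_nm
  have h3 : ((z⁻¹ : (Cub e k)ˣ) : Cub e k) ∈ Ov e v := by
    refine h.mem_Ov_of_sq ?_
    have h4 : z⁻¹ ^ 2 = u * (u * z ^ 2)⁻¹ := by rw [mul_inv, mul_inv_cancel_left, inv_pow]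
    rw [← Units.val_pow_eq_pow_val, h4, Units.val_mul]
    exact mul_mem hu (inv_mem_Ov h1 h2)
  have h4 : (u : Cub e k) = (u * z ^ 2 : (Cub e k)ˣ) * ((z⁻¹ : (Cub e k)ˣ) : Cub e k) ^ 2 := by
    rw [← Units.val_pow_eq_pow_val, ← Units.val_mul, inv_pow, mul_inv_cancel_right]
  have h5 : rdC ρ (u : Cub e k) = rdC ρ ((z⁻¹ : (Cub e k)ˣ) : Cub e k) ^ 2 := by
    rw [h4, rdC_mul ρ h1 (pow_mem h3 2), (hρ.rdC_eq_iff h1 (one_mem _)).2 hz, rdC_one, one_mul,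
      rdC_pow ρ h3]
  rw [← hρ.isSquare_iff (val_evr_le (val_int_le v r) hu), ← ZTy1_evr ρ hu, h5,
    evr_pow (h.ft hρ).root]
  exact IsSquare.sq _

/-- `FT.isSquare`: `rdC ρ u = s * s`; lift `s` to `y ∈ Ov` (unit norm), `z = y⁻¹` -/
theorem TyV.sqv_of_evr (h : TyV e v r) {u : (Cub e k)ˣ} (hu : (u : Cub e k) ∈ Ov e v)
    (hn : val v (nm (u : Cub e k)) = 1) (hq : u ∈ nsq e k)
    (hy : ∃ y : k, val v (evr (r : k) (u : Cub e k) - y ^ 2) < 1) : u ∈ sqv e v := by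
  obtain ⟨κ, _, _, ρ, hρ⟩ := exists_redAt v
  have h0 : nm (rdC ρ (u : Cub e k)) ≠ 0 := by
    rw [nm_rdC ρ hu]
    exact (ZTy1_ne hρ hn.le).2 hn
  obtain ⟨s, hs⟩ := (h.ft hρ).isSquare (u := rdC ρ (u : Cub e k)) (by
    obtain ⟨ν, hν⟩ := hq
    rw [nm_rdC ρ hu, hρ.isSquare_iff hn.le]
    exact ⟨ν, by rw [hν, sub_self, map_zero]; exact zero_lt_one⟩) h0 (by
    rwa [ZTy1_evr ρ hu, hρ.isSquare_iff (val_evr_le (val_int_le v r) hu)])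
  obtain ⟨y, h1, rfl⟩ := hρ.exists_rdC s
  rw [hs, nm_mul, nm_rdC ρ h1] at h0
  have h2 := (ZTy1_ne hρ (val_nm_le h1)).1 (left_ne_zero_of_mul h0)
  obtain ⟨z, rfl⟩ : IsUnit y := isUnit_iff.2 fun h3 => by simp [h3] at h2
  rw [← rdC_mul ρ h1 h1, hρ.rdC_eq_iff hu (mul_mem h1 h1)] at hs
  refine ⟨z⁻¹, ?_⟩
  convert hs.mul_right (pow_mem (inv_mem_Ov h1 h2) 2) using 1
  rw [sub_mul, ← sq, ← mul_pow, Units.mul_inv, one_pow, Units.val_mul, Units.val_pow_eq_pow_val]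

/-- `isSquare_mul_of_not` -/
theorem TyV.mul_mem_sqv (h : TyV e v r) {s t : (Cub e k)ˣ} (hs : s ∈ usv e v) (hs' : s ∈ nsq e k)
    (ht : t ∈ usv e v) (ht' : t ∈ nsq e k) (h1 : s ∉ sqv e v) (h2 : t ∉ sqv e v) :
    s * t ∈ sqv e v := by
  obtain ⟨κ, _, _, ρ, hρ⟩ := exists_redAt v
  have key : ∀ {s : (Cub e k)ˣ}, s ∈ usv e v → s ∈ nsq e k → s ∉ sqv e v → ∃ u : (Cub e k)ˣ,
      s * u⁻¹ ∈ sqv e v ∧ (u : Cub e k) ∈ Ov e v ∧ val v (nm (u : Cub e k)) = 1 ∧ u ∈ nsq e k ∧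
        ¬ IsSquare (evr (r : κ) (rdC ρ (u : Cub e k))) := fun {s} a1 a2 a3 => by
    obtain ⟨z, b1, b2⟩ := mem_usv.1 a1
    have b3 : s * z ^ 2 ∈ nsq e k := mul_mem a2 (SQ_le_nsq (sq_mem_SQ z))
    have b4 : (z ^ 2)⁻¹ ∈ sqv e v := inv_mem (SQ_le_sqv (sq_mem_SQ z))
    refine ⟨_, by rwa [mul_inv, mul_inv_cancel_left], b1, b2, b3, fun b5 => a3 ?_⟩
    rw [ZTy1_evr ρ b1, hρ.isSquare_iff (val_evr_le (val_int_le v r) b1)] at b5
    simpa using mul_mem (h.sqv_of_evr b1 b2 b3 b5) b4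
  obtain ⟨u, a1, a2, a3, a4, a5⟩ := key hs hs' h1
  obtain ⟨w, b1, b2, b3, b4, b5⟩ := key ht ht' h2
  have h3 : ((u * w : (Cub e k)ˣ) : Cub e k) ∈ Ov e v := mul_mem a2 b2
  have h4 := isSquare_mul_of_not a5 b5
  rw [← evr_mul (h.ft hρ).root, ← rdC_mul ρ a2 b2, ← Units.val_mul, ZTy1_evr ρ h3,
    hρ.isSquare_iff (val_evr_le (val_int_le v r) h3)] at h4
  have h5 := mul_mem (mul_mem a1 b1) (h.sqv_of_evr h3
    (by rw [Units.val_mul, nm_mul, map_mul, a3, b3, one_mul]) (mul_mem a4 b4) h4)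
  rwa [mul_mul_mul_comm s, ← mul_inv, inv_mul_cancel_right] at h5

/-- if `u = τ z^2` is a unit, `val v (nm z) = exp 1`; `y = f(r) • z` has `y^2 = f(r) • (u * lin e r)`
small, so `Sm v y`, `f(r)⁻¹ • y = z ∈ Ov`, contradiction with `val_nm_le` -/
theorem TyV.tau_not_mem (h : TyV e v r) : tauU e k r ∉ usv e v := by
  intro h0
  obtain ⟨z, h1, h2⟩ := mem_usv.1 h0
  rw [Units.val_mul, Units.val_pow_eq_pow_val, tauU_val h.fv_ne] at h1 h2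
  have h3 : Sm v (fv e (r : k) • (z : Cub e k)) := by
    refine h.sm_of_sq ?_
    have h4 : (fv e (r : k) • (z : Cub e k)) ^ 2 =
        fv e (r : k) • (lin e (r : k) * (tau e (r : k) * (z : Cub e k) ^ 2)) := by
      rw [← mul_assoc, lin_mul_tau, ← Algebra.smul_def, smul_pow, smul_smul, sq (fv e _)]
    rw [h4]
    exact Sm.smul_of_lt (ZTy1_lt h) (mul_mem (lin_mem_Ov (val_int_le v r)) h1)
  have h4 : ∀ a : k, val v (fv e (r : k) * a) < 1 → val v a ≤ 1 := fun a ha => by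
    have h5 := val_le_exp ha
    rw [map_mul, h.2.1] at h5
    exact (mul_le_iff_le_one_right (zero_lt_iff.2 exp_ne_zero)).1 h5
  have h5 : val v (nm (z : Cub e k)) ≤ 1 := val_nm_le ⟨h4 _ h3.1, h4 _ h3.2.1, h4 _ h3.2.2⟩
  rw [nm_mul, nm_tau, nm_pow, ← mul_pow, sq] at h2
  have h6 := lociso_mul_lt v (ZTy1_lt h) h5
  exact (lociso_mul_lt v h6 h6.le).ne h2

end Pool.Agent.Lib.MP_775b3b_nt
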