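import Pool.Agent.Lib.MP_775b3b_nt.ZFF4
import Pool.Agent.Lib.MP_775b3b_nt.ZTy0
import Pool.Agent.Lib.MP_775b3b_nt.ZTy1

/-! An irreducible quartic modulo a place of degree one detects a nontrivial class. -/

namespace Pool.Agent.Lib.MP_775b3b_nt

open Cub MP_439fea_co WithZero

variable {e : ℤ × ℤ} {k : Type} [Field k] [NumberField k]

omit [NumberField k] in
theorem ZIrr_mul (d z : (Cub e k)ˣ) (t x y : Cub e k) :
    ((d * z ^ 2 : (Cub e k)ˣ) : Cub e k) * t * (((z⁻¹ : (Cub e k)ˣ) : Cub e k) * x) *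
      (((z⁻¹ : (Cub e k)ˣ) : Cub e k) * y) = (d : Cub e k) * t * x * y := by
  have h : (z : Cub e k) * ((z⁻¹ : (Cub e k)ˣ) : Cub e k) = 1 := Units.mul_inv z
  rw [Units.val_mul, Units.val_pow_eq_pow_val]
  linear_combination (d : Cub e k) * t * x * y *
    ((z : Cub e k) * ((z⁻¹ : (Cub e k)ˣ) : Cub e k) + 1) * h

omit [NumberField k] in
theorem ZIrr_Bf (d z : (Cub e k)ˣ) (x y : Cub e k) :
    Bf ((d * z ^ 2 : (Cub e k)ˣ) : Cub e k) (((z⁻¹ : (Cub e k)ˣ) : Cub e k) * x)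
      (((z⁻¹ : (Cub e k)ˣ) : Cub e k) * y) = Bf (d : Cub e k) x y := by
  have h := ZIrr_mul d z 1 x y
  rw [mul_one, mul_one] at h
  rw [Bf, Bf, h]

omit [NumberField k] in
theorem ZIrr_quart (d z : (Cub e k)ˣ) (v0 v1 v2 : Cub e k) (x y : k) :
    quart ((d * z ^ 2 : (Cub e k)ˣ) : Cub e k) (((z⁻¹ : (Cub e k)ˣ) : Cub e k) * v0)
      (((z⁻¹ : (Cub e k)ˣ) : Cub e k) * v1) (((z⁻¹ : (Cub e k)ˣ) : Cub e k) * v2) x y =
      quart (d : Cub e k) v0 v1 v2 x y := by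
  have h : Vq (((z⁻¹ : (Cub e k)ˣ) : Cub e k) * v0) (((z⁻¹ : (Cub e k)ˣ) : Cub e k) * v1)
      (((z⁻¹ : (Cub e k)ˣ) : Cub e k) * v2) x y =
      ((z⁻¹ : (Cub e k)ˣ) : Cub e k) * Vq v0 v1 v2 x y := by
    simp only [Vq, mul_sub, mul_add, mul_smul_comm]
  rw [quart, quart, h, Gv, Gv, ZIrr_mul]

omit [NumberField k] in
theorem ZIrr_hyp {d : (Cub e k)ˣ} (z : (Cub e k)ˣ) {ν : k} {v0 v1 v2 : Cub e k}
    (H : Hyp (d : Cub e k) ν v0 v1 v2) :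
    Hyp ((d * z ^ 2 : (Cub e k)ˣ) : Cub e k) (ν * nm (z : Cub e k))
      (((z⁻¹ : (Cub e k)ˣ) : Cub e k) * v0) (((z⁻¹ : (Cub e k)ˣ) : Cub e k) * v1)
      (((z⁻¹ : (Cub e k)ˣ) : Cub e k) * v2) := by
  refine ⟨?_, mul_ne_zero H.nu0 (nm_ne_zero z), by rw [ZIrr_Bf, H.h00], by rw [ZIrr_Bf, H.h22],
    by rw [ZIrr_Bf, H.h02], ?_⟩
  · rw [Units.val_mul, Units.val_pow_eq_pow_val, nm_mul, nm_pow, H.nu, mul_pow]
  · have h : (z : Cub e k) * ((z⁻¹ : (Cub e k)ˣ) : Cub e k) = 1 := Units.mul_inv z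
    rw [mul_smul, ← mul_cross_mul, Units.mul_inv_cancel_left, Units.mul_inv_cancel_left,
      ← mul_smul_comm, ← H.h1, Units.val_mul, Units.val_pow_eq_pow_val]
    linear_combination (d : Cub e k) * (z : Cub e k) * v1 * h

theorem ZIrr_two {v : P k} {x y : k} (hx : val v x ≤ 1) (hy : val v y ≤ 1) :
    val v (x ^ 2) ≤ 1 ∧ val v (2 * x * y) ≤ 1 ∧ val v (2 * y ^ 2) ≤ 1 := by
  have h2 : (2 : k) ∈ (val v).integer := ofNat_mem _ 2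
  have hx' : x ∈ (val v).integer := hx
  have hy' : y ∈ (val v).integer := hy
  exact ⟨pow_mem hx' 2, mul_mem (mul_mem h2 hx') hy', mul_mem h2 (pow_mem hy' 2)⟩

theorem ZIrr_Vq_mem {v : P k} {w0 w1 w2 : Cub e k} (h0 : w0 ∈ Ov e v) (h1 : w1 ∈ Ov e v)
    (h2 : w2 ∈ Ov e v) {x y : k} (hx : val v x ≤ 1) (hy : val v y ≤ 1) :
    Vq w0 w1 w2 x y ∈ Ov e v := by
  obtain ⟨a0, a1, a2⟩ := ZIrr_two hx hy
  exact sub_mem (add_mem (smul_mem_Ov a0 h0) (smul_mem_Ov a1 h1)) (smul_mem_Ov a2 h2)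

theorem ZIrr_rd_Bf {v : P k} {κ : Type*} [Field κ] (ρ : (val v).integer →+* κ)
    {u x y : Cub e k} (hu : u ∈ Ov e v) (hx : x ∈ Ov e v) (hy : y ∈ Ov e v) :
    Bf (rdC ρ u) (rdC ρ x) (rdC ρ y) = rd ρ (Bf u x y) := by
  rw [Bf, ← rdC_mul ρ hu hx, ← rdC_mul ρ (mul_mem hu hx) hy]
  rfl

theorem ZIrr_rd_quart {v : P k} {κ : Type*} [Field κ] (ρ : (val v).integer →+* κ)
    {u w0 w1 w2 : Cub e k} (hu : u ∈ Ov e v) (h0 : w0 ∈ Ov e v) (h1 : w1 ∈ Ov e v)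
    (h2 : w2 ∈ Ov e v) (x y : ℤ) :
    rd ρ (quart u w0 w1 w2 x y) = quart (rdC ρ u) (rdC ρ w0) (rdC ρ w1) (rdC ρ w2) x y := by
  have hx := val_int_le v x
  have hy := val_int_le v y
  obtain ⟨a0, a1, a2⟩ := ZIrr_two hx hy
  have hV := ZIrr_Vq_mem h0 h1 h2 hx hy
  have h : rdC ρ (Vq w0 w1 w2 (x : k) y) = Vq (rdC ρ w0) (rdC ρ w1) (rdC ρ w2) (x : κ) y := by
    have b0 : rd ρ ((x : k) ^ 2) = (x : κ) ^ 2 := by
      rw [rd_pow ρ hx, rd_intCast]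
    have b1 : rd ρ (2 * (x : k) * y) = 2 * (x : κ) * y := by
      simpa using rd_intCast ρ (2 * x * y)
    have b2 : rd ρ (2 * (y : k) ^ 2) = 2 * (y : κ) ^ 2 := by
      have h3 := rd_intCast ρ (2 * y ^ 2)
      rwa [Int.cast_mul, Int.cast_mul, Int.cast_pow, Int.cast_pow, Int.cast_ofNat,
        Int.cast_ofNat] at h3
    rw [Vq, Vq, rdC_sub ρ (add_mem (smul_mem_Ov a0 h0) (smul_mem_Ov a1 h1)) (smul_mem_Ov a2 h2),
      rdC_add ρ (smul_mem_Ov a0 h0) (smul_mem_Ov a1 h1), rdC_smul ρ a0 h0, rdC_smul ρ a1 h1,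
      rdC_smul ρ a2 h2, b0, b1, b2]
  rw [quart, quart, Gv_eq_Bf, Gv_eq_Bf, ← h, ← ZIrr_rd_Bf ρ (mul_mem hu th_mem_Ov) hV hV,
    rdC_mul ρ hu th_mem_Ov, rdC_th]

theorem val_quart_le {v : P k} {d z : (Cub e k)ˣ} {v0 v1 v2 : Cub e k}
    (hu : ((d * z ^ 2 : (Cub e k)ˣ) : Cub e k) ∈ Ov e v)
    (h0 : ((z⁻¹ : (Cub e k)ˣ) : Cub e k) * v0 ∈ Ov e v)
    (h1 : ((z⁻¹ : (Cub e k)ˣ) : Cub e k) * v1 ∈ Ov e v)
    (h2 : ((z⁻¹ : (Cub e k)ˣ) : Cub e k) * v2 ∈ Ov e v) (x y : ℤ) :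
    val v (quart (d : Cub e k) v0 v1 v2 x y) ≤ 1 := by
  have hV := ZIrr_Vq_mem h0 h1 h2 (val_int_le v x) (val_int_le v y)
  rw [← ZIrr_quart d z]
  exact (mul_mem (mul_mem (mul_mem hu th_mem_Ov) hV) hV).2.2

/-- `u = d z^2`, `wᵢ = z⁻¹ vᵢ`, `ν' = ν * nm z` satisfy `Hyp u ν' w0 w1 w2` (`mul_cross_mul`) with
the same quartic, `val v ν' = 1`.  Reduce everything (`rdC_mul`, `rdC_cross`, ...) and apply `ff4`.
This gives `Ty e l`.  `tyV_of` (`Res1 v` from the surjectivity of `ρ` on integers, `sqZ_of_res1`),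
`rt_spec`, `evr_of_sqv`, `evr_rdC`, `RedAt.isSquare_iff`. -/
theorem not_sqv_of_irr {l : ℕ} [Fact l.Prime] (h5 : 5 ≤ l) {v : P k}
    (hv : val v (l : k) = exp (-1 : ℤ)) {ρ : (val v).integer →+* ZMod l} (hρ : RedAt v ρ)
    {d z : (Cub e k)ˣ} {ν : k} {v0 v1 v2 : Cub e k} (H : Hyp (d : Cub e k) ν v0 v1 v2)
    (hu : ((d * z ^ 2 : (Cub e k)ˣ) : Cub e k) ∈ Ov e v)
    (hu' : (((d * z ^ 2)⁻¹ : (Cub e k)ˣ) : Cub e k) ∈ Ov e v)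
    (h0 : ((z⁻¹ : (Cub e k)ˣ) : Cub e k) * v0 ∈ Ov e v)
    (h1 : ((z⁻¹ : (Cub e k)ˣ) : Cub e k) * v1 ∈ Ov e v)
    (h2 : ((z⁻¹ : (Cub e k)ˣ) : Cub e k) * v2 ∈ Ov e v)
    (hI : IrrV fun m => rd ρ (quart (d : Cub e k) v0 v1 v2 (pt5 m).1 (pt5 m).2)) :
    Ty e l ∧ d ∉ sqv e v := by
  have hl : l.Prime := Fact.out
  have H' := ZIrr_hyp z H
  have hn := val_nm_eq_one hu hu'
  have hν : val v (ν * nm (z : Cub e k)) = 1 := by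
    have h3 := hn
    rw [H'.nu, map_pow] at h3
    exact (pow_eq_one_iff_of_nonneg zero_le two_ne_zero).1 h3
  have Hr : Hyp (rdC ρ ((d * z ^ 2 : (Cub e k)ˣ) : Cub e k)) (rd ρ (ν * nm (z : Cub e k)))
      (rdC ρ (((z⁻¹ : (Cub e k)ˣ) : Cub e k) * v0)) (rdC ρ (((z⁻¹ : (Cub e k)ˣ) : Cub e k) * v1))
      (rdC ρ (((z⁻¹ : (Cub e k)ˣ) : Cub e k) * v2)) := by
    refine ⟨?_, fun h => ?_, ?_, ?_, ?_, ?_⟩
    · rw [nm_rdC ρ hu, H'.nu, rd_pow ρ hν.le]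
    · exact ((hρ.rd_eq_zero hν.le).1 h).ne hν
    · rw [ZIrr_rd_Bf ρ hu h0 h0, H'.h00, rd_zero]
    · rw [ZIrr_rd_Bf ρ hu h2 h2, H'.h22, rd_zero]
    · rw [ZIrr_rd_Bf ρ hu h0 h2, H'.h02, rd_one]
    · rw [← rdC_mul ρ hu h1, H'.h1, rdC_smul ρ hν.le (rdC_cross ρ h2 h0).1, (rdC_cross ρ h2 h0).2]
  have h6 : (6 : ZMod l) ≠ 0 := by
    intro h
    have h3 : l ∣ 6 := (ZMod.natCast_eq_zero_iff 6 l).1 (by exact_mod_cast h)
    have h4 := Nat.le_of_dvd (by norm_num) h3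
    interval_cases l
    · norm_num at h3
    · norm_num at hl
  obtain ⟨r1, r2, r3⟩ := ff4 h6 Hr (by
    simp only [← ZIrr_rd_quart ρ hu h0 h1 h2, ZIrr_quart]
    exact hI)
  have hT : Ty e l := ⟨by omega, r1, r2⟩
  refine ⟨hT, fun hd => ?_⟩
  have hv' : val v (l : k) < 1 := by
    rw [hv, ← exp_zero, exp_lt_exp]
    norm_num
  have hR : Res1 v := fun y hy => by
    obtain ⟨n, hn⟩ := ZMod.intCast_surjective (rd ρ y)
    exact ⟨n, (hρ.rd_eq_iff hy (val_int_le v n)).1 (by rw [rd_intCast, hn])⟩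
  have hV := tyV_of hl hT hv (sqZ_of_res1 hl hv' hR)
  have hr := val_int_le v (rt e l)
  have h3 := (hρ.isSquare_iff (val_evr_le hr hu)).2
    (hV.evr_of_sqv hu hn (mul_mem hd (SQ_le_sqv (sq_mem_SQ z))))
  rw [← evr_rdC ρ hr hu, rd_intCast] at h3
  refine r3 _ ?_ h3
  rw [fv_intCast, ZMod.intCast_zmod_eq_zero_iff_dvd]
  exact (rt_spec hl hT).1

/-- `N` is a unit at `v` -/
theorem InLat.mem_Ov {p : Nat.Primes} {v : P k} (hv : val v ((p : ℕ) : k) < 1) {N : ℕ}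
    (hN : ¬ (p : ℕ) ∣ N) {z : Nat.Primes → (Cub e k)ˣ} {x : Cub e k} (hx : InLat z ((N : k) • x)) :
    (((z p)⁻¹ : (Cub e k)ˣ) : Cub e k) * x ∈ Ov e v := by
  have h1 : val v (N : k) = 1 := le_antisymm (val_natCast_le_one v N)
    (not_lt.1 fun h => hN ((val_natCast_lt_one_iff v p.2 hv N).1 h))
  have h2 : (N : k) ≠ 0 := fun h => by
    rw [h, map_zero] at h1
    exact zero_ne_one h1
  have h3 := smul_mem_Ov (a := (N : k)⁻¹) (by rw [map_inv₀, h1, inv_one]) (lociso_le v hv (hx p))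
  rwa [mul_smul_comm, smul_smul, inv_mul_cancel₀ h2, one_smul] at h3

end Pool.Agent.Lib.MP_775b3b_nt
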