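import Pool.Agent.Lib.MP_775b3b_nt.ZGoodS
import Pool.Agent.Lib.MP_775b3b_nt.ZIrr
import Pool.Agent.Lib.MP_775b3b_nt.LGPrime

/-! The sifting sets. -/

namespace Pool.Agent.Lib.MP_775b3b_nt

open Cub MP_439fea_co WithZero Matrix

variable {K Kt : Type} [Field K] [NumberField K] [Field Kt] [NumberField Kt]

theorem zubad_hyp {e : ℤ × ℤ} {k k' : Type*} [Field k] [Field k'] (φ : k →+* k')
    {d v0 v1 v2 : Cub e k} {ν : k} (h : Hyp d ν v0 v1 v2) :
    Hyp (map φ d) (φ ν) (map φ v0) (map φ v1) (map φ v2) := by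
  have hb : ∀ x y : Cub e k, Bf (map φ d) (map φ x) (map φ y) = φ (Bf d x y) := fun x y => by
    rw [Bf, ← map_mul, ← map_mul, map_c2, Bf]
  exact ⟨by rw [nm_map, h.nu, map_pow], (map_ne_zero φ).2 h.nu0, by rw [hb, h.h00, map_zero],
    by rw [hb, h.h22, map_zero], by rw [hb, h.h02, map_one],
    by rw [← map_mul, h.h1, Cub.map_smul', cross_map]⟩

theorem zubad_quart {e : ℤ × ℤ} {k k' : Type*} [Field k] [Field k'] (φ : k →+* k')
    (d v0 v1 v2 : Cub e k) (x y : ℤ) :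
    quart (map φ d) (map φ v0) (map φ v1) (map φ v2) (x : k') (y : k') =
      φ (quart d v0 v1 v2 (x : k) (y : k)) := by
  have hV : Vq (map φ v0) (map φ v1) (map φ v2) (x : k') (y : k') =
      map φ (Vq v0 v1 v2 (x : k) (y : k)) := by
    simp only [Vq, map_sub, map_add, Cub.map_smul', map_mul, map_pow, map_intCast, map_ofNat]
  rw [quart, hV, Gv, ← map_th φ, ← map_mul, ← map_mul, ← map_mul, map_c2, quart, Gv]

theorem zubad_Zm {R R' : Type*} [CommRing R] [CommRing R'] (f : R →+* R') (m : Fin 5) :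
    (Zm R m).map f = Zm R' m := by
  have h : ∀ n a b, f (G5 R n a b) = G5 R' n a b := by
    intro n a b
    fin_cases n <;> fin_cases a <;> fin_cases b <;> simp [G5, map_ofNat]
  ext i c
  simp only [Zm, Matrix.map_apply, Matrix.submatrix_apply, kron_apply, map_mul, h]

theorem zubad_ev (x : Kt) : ∀ᶠ l : ℕ in Filter.atTop, l.Prime → ∀ w : P Kt,
    val w (l : Kt) < 1 → val w x ≤ 1 := by
  rcases eq_or_ne x 0 with rfl | hx
  · exact Filter.Eventually.of_forall fun _ _ _ _ => by simp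
  choose p hp hp' using exists_prime_under (K := Kt)
  obtain ⟨L, hL⟩ := ((finite_supp hx).image p).bddAbove
  filter_upwards [Filter.eventually_gt_atTop L] with l hl hl' w hw
  by_contra h
  have h1 := hL ⟨w, fun h0 => h (le_of_eq h0), rfl⟩
  rw [prime_under_unique w (hp w) hl' (hp' w) hw] at h1
  exact absurd hl (not_lt.2 h1)

theorem zubad_lift {w : P Kt} {κ : Type*} [CommRing κ] (ρ : (val w).integer →+* κ) {m n : Type*}
    (M : Matrix m n Kt) (h : ∀ i j, val w (M i j) ≤ 1) : ∃ M' : Matrix m n (val w).integer,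
      M = M'.map (val w).integer.subtype ∧ M.map (rd ρ) = M'.map ρ := by
  refine ⟨Matrix.of fun i j => ⟨M i j, h i j⟩, rfl, ?_⟩
  ext i j
  exact rd_coe ρ ⟨M i j, h i j⟩

/-- `φ` preserves all the data: apply `not_sqv_of_irr` to `uz e φ d`, `uz e φ (z l)`, `map φ vᵢ` at
`w`, where `Over φ w v` (`exists_over_hom`), `Over.mem_Ov`, `lociso_le`, `InLat.mem_Ov`.  The entries
of `Sm` are `w`-integral (`IntS.entry`, `l ∤ g`); reduce the identity `hq` (`rd_mul`, `rd_det`,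
`rd_matrix_mul`, `val_quart_le`), `IrrV.smul`; `Over.sqv` gives the contradiction. -/
theorem upoint_bad (φ : K →+* Kt) {l : ℕ} [Fact l.Prime] (h5 : 5 ≤ l) {w : P Kt}
    (hw : val w (l : Kt) = exp (-1 : ℤ)) {ρ : (val w).integer →+* ZMod l} (hρ : RedAt w ρ)
    {A B : Fin 5 → Matrix (Fin 4) (Fin 4) Kt}
    (hAB : ∀ m i j, val w (A m i j) ≤ 1 ∧ val w (B m i j) ≤ 1) {κ : Kt} (hκ : val w κ = 1)
    {e : ℤ × ℤ} {N : ℕ} (hN : ¬ l ∣ N) {C T : ℝ} {d : (Cub e K)ˣ} {ν : K}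
    {z : Nat.Primes → (Cub e K)ˣ} {ε : (K →+* ℂ) → Cub e ℂ} {j : ℕ} {v0 v1 v2 : Cub e K}
    (hz : Loc d z) (h : Red N C T (d : Cub e K) ν z ε j v0 v1 v2) {g : ℤ} (hg : ¬ (l : ℤ) ∣ g)
    {Sm : Matrix (Fin 4) (Fin 4) ℚ} (hi : IntS g Sm)
    (hq : ∀ m, κ * φ (quart (d : Cub e K) v0 v1 v2 (pt5 m).1 (pt5 m).2) =
      g * (A m + B m * Sm.map (Rat.cast : ℚ → Kt)).det) (hesc : Ty e l → d ∈ St e K l) :
    ¬ GoodS (fun m => (A m).map (rd ρ)) (fun m => (B m).map (rd ρ))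
        (Sm.map fun x => rd ρ (x : Kt)) ∧ RedS l g Sm (Sm.map fun x => rd ρ (x : Kt)) := by
  have hl : l.Prime := Fact.out
  have hw1 : val w (l : Kt) < 1 := by
    rw [hw, ← exp_zero, exp_lt_exp]
    norm_num
  obtain ⟨v, ho⟩ := exists_over_hom φ w (x := (l : K)) (by rw [map_natCast]; exact hw)
  have hv : val v (l : K) < 1 := by rw [← ho.natCast]; exact hw1
  have hg1 : val w (g : Kt) = 1 := ordp_val_one (p := ⟨l, hl⟩) w hw1 hg
  have hg0 : (g : ZMod l) ≠ 0 := fun h0 => hg ((ZMod.intCast_zmod_eq_zero_iff_dvd g l).1 h0)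
  have hc : ∀ i j (n : ℤ), (n : ℚ) = g * Sm i j → (n : Kt) = g * (Sm i j : Kt) := by
    intro i j n hn
    have h1 := congrArg (Rat.cast : ℚ → Kt) hn
    simpa only [Rat.cast_mul, Rat.cast_intCast] using h1
  have hS : ∀ i j, val w ((Sm.map (Rat.cast : ℚ → Kt)) i j) ≤ 1 := by
    intro i j
    obtain ⟨n, hn⟩ := hi.entry i j
    have h1 := val_int_le w n
    rwa [hc i j n hn.symm, map_mul, hg1, one_mul] at h1
  refine ⟨fun hG => ?_, fun i j n hn => ?_⟩
  · have hu : ((uz e φ d * uz e φ (z ⟨l, hl⟩) ^ 2 : (Cub e Kt)ˣ) : Cub e Kt) ∈ Ov e w := by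
      rw [← map_pow, ← map_mul, uz_val]
      exact ho.mem_Ov.2 (lociso_le v hv (hz.2 ⟨l, hl⟩).1)
    have hu' : (((uz e φ d * uz e φ (z ⟨l, hl⟩) ^ 2)⁻¹ : (Cub e Kt)ˣ) : Cub e Kt) ∈ Ov e w := by
      rw [← map_pow, ← map_mul, ← map_inv, uz_val]
      exact ho.mem_Ov.2 (lociso_le v hv (hz.2 ⟨l, hl⟩).2)
    have hx : ∀ x : Cub e K, InLat z ((N : K) • x) →
        (((uz e φ (z ⟨l, hl⟩))⁻¹ : (Cub e Kt)ˣ) : Cub e Kt) * map φ x ∈ Ov e w := by
      intro x hx
      rw [← map_inv, uz_val, ← map_mul]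
      exact ho.mem_Ov.2 (InLat.mem_Ov (p := ⟨l, hl⟩) hv hN hx)
    have hκ0 : rd ρ κ ≠ 0 := fun h0 => ((hρ.rd_eq_zero hκ.le).1 h0).ne hκ
    have hI := hG.smul (mul_ne_zero (inv_ne_zero hκ0) hg0)
    have key := not_sqv_of_irr h5 hw hρ (d := uz e φ d) (zubad_hyp φ h.hyp) hu hu' (hx _ h.l0)
      (hx _ h.l1) (hx _ h.l2) (by
        refine (congrArg IrrV (funext fun m => ?_)).mpr hI
        have h1 := val_quart_le hu (hx _ h.l0) (hx _ h.l1) (hx _ h.l2) (pt5 m).1 (pt5 m).2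
        have h2 := rd_matrix_mul ρ (fun i j => (hAB m i j).2) hS
        have h3 : ∀ i j, val w ((A m + B m * Sm.map (Rat.cast : ℚ → Kt)) i j) ≤ 1 := fun i j =>
          Valuation.map_add_le _ (hAB m i j).1 (h2.1 i j)
        have h4 := rd_det ρ h3
        have h5 : (A m + B m * Sm.map (Rat.cast : ℚ → Kt)).map (rd ρ) =
            (A m).map (rd ρ) + (B m).map (rd ρ) * Sm.map fun x => rd ρ (x : Kt) := by
          have h6 : (Sm.map fun x => rd ρ (x : Kt)) =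
              (Sm.map (Rat.cast : ℚ → Kt)).map (rd ρ) := rfl
          rw [h6, ← h2.2]
          ext i j
          exact rd_add ρ (hAB m i j).1 (h2.1 i j)
        have h6 := congrArg (rd ρ) (hq m)
        rw [← zubad_quart, ← uz_val, rd_mul ρ hκ.le h1, rd_mul ρ hg1.le h4.1, rd_intCast, h4.2,
          h5] at h6
        rw [Pi.smul_apply, smul_eq_mul, mul_assoc, ← h6, inv_mul_cancel_left₀ hκ0])
    exact key.2 (ho.sqv (mem_St.1 (hesc key.1) v hv))
  · rw [← rd_intCast ρ n, hc i j n hn, rd_mul ρ (b := (Sm i j : Kt)) hg1.le (hS i j), rd_intCast]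
    rfl

/-- `L₀ ≥ max 1100 N` and larger than the primes under the finitely many places where `κ` or a
nonzero entry of `W, H, A, B` is not a unit (`finite_supp`).  For such `l` choose `w` above `l`
(`exists_over_prime`), `ρ` (`exists_redAt_zmod`), and let `Bad s l` be the set of `card_badS` for the
reduced data (lift the matrices to `(val w).integer` and use `PhiX_map`, or `rd_matrix_mul`);
`Bad s l = ∅` for the other `l`.  `upoint_bad`. -/
theorem exists_bad (φ : K →+* Kt) {W H : Fin 7 → Matrix (Fin 3) (Fin 3) Kt}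
    {A B : Fin 7 → Fin 5 → Matrix (Fin 4) (Fin 4) Kt} {κ : Kt} (hκ : κ ≠ 0)
    (hWH : ∀ s, (W s)ᵀ * H s = 1)
    (hAB : ∀ s m, Zm Kt m = A s m * PhiX (W s) (H s) + B s m * PhiY (W s) (H s)) {N : ℕ}
    (hN : N ≠ 0) : ∃ (L₀ : ℕ) (Bad : Fin 7 → ∀ l : ℕ, Finset (Matrix (Fin 4) (Fin 4) (ZMod l))),
      ∀ l : ℕ, l.Prime → L₀ < l → Deg1 Kt l →
        (∀ s, ((Bad s l).card : ℝ) ≤ 29 / 30 * (l : ℝ) ^ 10) ∧
        ∀ (e : ℤ × ℤ) (C T : ℝ) (d : (Cub e K)ˣ) (ν : K) (z : Nat.Primes → (Cub e K)ˣ)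
          (ε : (K →+* ℂ) → Cub e ℂ) (j : ℕ) (v0 v1 v2 : Cub e K) (s : Fin 7) (g : ℤ)
          (Sm : Matrix (Fin 4) (Fin 4) ℚ), Loc d z → Red N C T (d : Cub e K) ν z ε j v0 v1 v2 →
          Sm.IsSymm → IntS g Sm →
          (∀ m, κ * φ (quart (d : Cub e K) v0 v1 v2 (pt5 m).1 (pt5 m).2) =
            g * (A s m + B s m * Sm.map (Rat.cast : ℚ → Kt)).det) → (Ty e l → d ∈ St e K l) →
          ¬ (l : ℤ) ∣ g → ∃ X ∈ Bad s l, RedS l g Sm X := by
  classical
  have E1 : ∀ᶠ l : ℕ in Filter.atTop, ∀ (s : Fin 7) (i j : Fin 3), l.Prime → ∀ w : P Kt,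
      val w (l : Kt) < 1 → val w (W s i j) ≤ 1 :=
    Filter.eventually_all.2 fun _ => Filter.eventually_all.2 fun _ =>
      Filter.eventually_all.2 fun _ => zubad_ev _
  have E2 : ∀ᶠ l : ℕ in Filter.atTop, ∀ (s : Fin 7) (i j : Fin 3), l.Prime → ∀ w : P Kt,
      val w (l : Kt) < 1 → val w (H s i j) ≤ 1 :=
    Filter.eventually_all.2 fun _ => Filter.eventually_all.2 fun _ =>
      Filter.eventually_all.2 fun _ => zubad_ev _
  have E3 : ∀ᶠ l : ℕ in Filter.atTop, ∀ (s : Fin 7) (m : Fin 5) (i j : Fin 4), l.Prime →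
      ∀ w : P Kt, val w (l : Kt) < 1 → val w (A s m i j) ≤ 1 :=
    Filter.eventually_all.2 fun _ => Filter.eventually_all.2 fun _ =>
      Filter.eventually_all.2 fun _ => Filter.eventually_all.2 fun _ => zubad_ev _
  have E4 : ∀ᶠ l : ℕ in Filter.atTop, ∀ (s : Fin 7) (m : Fin 5) (i j : Fin 4), l.Prime →
      ∀ w : P Kt, val w (l : Kt) < 1 → val w (B s m i j) ≤ 1 :=
    Filter.eventually_all.2 fun _ => Filter.eventually_all.2 fun _ =>
      Filter.eventually_all.2 fun _ => Filter.eventually_all.2 fun _ => zubad_ev _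
  obtain ⟨L₀, hL⟩ := Filter.eventually_atTop.1 ((E1.and E2).and ((E3.and E4).and
    (((zubad_ev κ).and (zubad_ev κ⁻¹)).and
      ((Filter.eventually_ge_atTop 1100).and (Filter.eventually_gt_atTop N)))))
  have key : ∀ l : ℕ, ∃ Bad : Fin 7 → Finset (Matrix (Fin 4) (Fin 4) (ZMod l)),
      l.Prime → L₀ < l → Deg1 Kt l →
        (∀ s, ((Bad s).card : ℝ) ≤ 29 / 30 * (l : ℝ) ^ 10) ∧
        ∀ (e : ℤ × ℤ) (C T : ℝ) (d : (Cub e K)ˣ) (ν : K) (z : Nat.Primes → (Cub e K)ˣ)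
          (ε : (K →+* ℂ) → Cub e ℂ) (j : ℕ) (v0 v1 v2 : Cub e K) (s : Fin 7) (g : ℤ)
          (Sm : Matrix (Fin 4) (Fin 4) ℚ), Loc d z → Red N C T (d : Cub e K) ν z ε j v0 v1 v2 →
          Sm.IsSymm → IntS g Sm →
          (∀ m, κ * φ (quart (d : Cub e K) v0 v1 v2 (pt5 m).1 (pt5 m).2) =
            g * (A s m + B s m * Sm.map (Rat.cast : ℚ → Kt)).det) → (Ty e l → d ∈ St e K l) →
          ¬ (l : ℤ) ∣ g → ∃ X ∈ Bad s, RedS l g Sm X := by
    intro l
    by_cases hc : l.Prime ∧ L₀ < l ∧ Deg1 Kt l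
    swap
    · exact ⟨fun _ => ∅, fun h1 h2 h3 => absurd ⟨h1, h2, h3⟩ hc⟩
    obtain ⟨hl, hlL, hD⟩ := hc
    have : Fact l.Prime := ⟨hl⟩
    obtain ⟨⟨hW, hH⟩, ⟨hA, hB⟩, ⟨hκ1, hκ2⟩, h1100, hNl⟩ := hL l hlL.le
    obtain ⟨w, hw⟩ := exists_over_prime Kt hl
    obtain ⟨ρ, hρ⟩ := exists_redAt_zmod hl hw (hD w hw).2
    have hκv : val w κ = 1 := by
      refine le_antisymm (hκ1 hl w hw) ?_
      have h1 := hκ2 hl w hw
      rwa [map_inv₀, inv_le_one₀ (zero_lt_iff.2 ((Valuation.ne_zero_iff _).2 hκ))] at h1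
    refine ⟨fun s => Finset.univ.filter fun S : Matrix (Fin 4) (Fin 4) (ZMod l) => S.IsSymm ∧
      ¬ GoodS (fun m => (A s m).map (rd ρ)) (fun m => (B s m).map (rd ρ)) S,
      fun _ _ _ => ⟨fun s => ?_, ?_⟩⟩
    · obtain ⟨W', hW1, -⟩ := zubad_lift ρ (W s) fun i j => hW s i j hl w hw
      obtain ⟨H', hH1, -⟩ := zubad_lift ρ (H s) fun i j => hH s i j hl w hw
      have hinj : Function.Injective (val w).integer.subtype := Subtype.val_injective
      have h1 : W'ᵀ * H' = 1 := by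
        apply Matrix.map_injective hinj
        have h2 := hWH s
        rw [hW1, hH1, ← Matrix.transpose_map, ← Matrix.map_mul] at h2
        simp only [h2]
        exact (Matrix.map_one _ (map_zero _) (map_one _)).symm
      have h2 : (W'.map ρ)ᵀ * H'.map ρ = 1 := by
        rw [← Matrix.transpose_map, ← Matrix.map_mul, h1]
        exact Matrix.map_one _ (map_zero _) (map_one _)
      convert card_badS l h1100 h2 (A := fun m => (A s m).map (rd ρ))
        (B := fun m => (B s m).map (rd ρ)) fun m => ?_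
      obtain ⟨A', hA1, hA2⟩ := zubad_lift ρ (A s m) fun i j => hA s m i j hl w hw
      obtain ⟨B', hB1, hB2⟩ := zubad_lift ρ (B s m) fun i j => hB s m i j hl w hw
      have h3 : Zm (val w).integer m = A' * PhiX W' H' + B' * PhiY W' H' := by
        apply Matrix.map_injective hinj
        have h4 := hAB s m
        rw [hW1, hH1, hA1, hB1, ← (PhiX_map _ W' H').1, ← (PhiX_map _ W' H').2, ← Matrix.map_mul,
          ← Matrix.map_mul, ← Matrix.map_add _ (map_add _),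
          ← zubad_Zm (val w).integer.subtype] at h4
        exact h4
      rw [hA2, hB2, ← (PhiX_map ρ W' H').1, ← (PhiX_map ρ W' H').2, ← Matrix.map_mul,
        ← Matrix.map_mul, ← Matrix.map_add _ (map_add _), ← h3, zubad_Zm]
    · intro e C T d ν z ε j v0 v1 v2 s g Sm hz hr hs hi hq hesc hg
      have h1 := upoint_bad φ (by omega) (hD w hw).1 hρ
        (fun m i j => ⟨hA s m i j hl w hw, hB s m i j hl w hw⟩) hκv
        (Nat.not_dvd_of_pos_of_lt (Nat.pos_of_ne_zero hN) hNl) hz hr hg hi hq hesc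
      exact ⟨_, Finset.mem_filter.2 ⟨Finset.mem_univ _, hs.map _, h1.1⟩, h1.2⟩
  choose Bad hBad using key
  exact ⟨L₀, fun s l => Bad l s, hBad⟩

end Pool.Agent.Lib.MP_775b3b_nt
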