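import Pool.Agent.Lib.MP_775b3b_nt.UPoint
import Pool.Agent.Lib.MP_775b3b_nt.ZLG

/-! The point of the Lagrangian Grassmannian, with the chart data over the Galois closure. -/

namespace Pool.Agent.Lib.MP_775b3b_nt

open Cub Matrix

variable {K Kt : Type*} [Field K] [NumberField K] [Field Kt] [NumberField Kt] (S : Setup K Kt)

/-- copy of `exists_udata` -/
theorem Setup.exists_udata2 {e : ℤ × ℤ} (hd : disc e ≠ 0) {d : (Cub e K)ˣ} (h1 : d ∈ nsq e K)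
    (h2 : d ∈ pos e K) (h3 : ∃ z, Loc d z) (h' : S.cor e d ∈ SQ e ℚ) :
    ∃ γ ν z ε, S.UData d γ ν z ε := by
  obtain ⟨ν, hν⟩ := h1
  obtain ⟨r, hr, hr'⟩ := S.exists_nm_rn hν
  obtain ⟨γ, hγ, hn⟩ : ∃ γ : (Cub e ℚ)ˣ, γ ^ 2 = S.cor e d ∧ nm (γ : Cub e ℚ) = r := by
    obtain ⟨γ, hγ⟩ : IsSquare (S.cor e d) := h'
    have h5 : nm (γ : Cub e ℚ) ^ 2 = r ^ 2 := by
      rw [← hr, ← S.gal2_val, hγ, Units.val_mul, nm_mul, sq]
    rcases sq_eq_sq_iff_eq_or_eq_neg.1 h5 with h4 | h4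
    · exact ⟨γ, by rw [hγ, sq], h4⟩
    · exact ⟨-γ, by rw [hγ, neg_sq, sq], by rw [Units.val_neg, nm_neg, h4, neg_neg]⟩
  obtain ⟨ε, hε, hp⟩ := exists_eps_prod hd (by rw [S.finrank_eq]; decide) h2 hν
    (g := map (algebraMap ℚ ℂ) (γ : Cub e ℚ))
    (by rw [Cub.map_map, RingHom.ext_rat ((starRingEnd ℂ).comp _) (algebraMap ℚ ℂ)])
    (by rw [← map_pow, ← Units.val_pow_eq_pow_val, hγ, S.gal2_val, S.gal2_map])
    (by rw [nm_map, hn, ← hr', eq_ratCast])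
  obtain ⟨z, hz, hz'⟩ := h3
  let m : (Cub e ℚ)ˣ →* (Cub e K)ˣ := Units.map (map (algebraMap ℚ K)).toMonoidHom
  have hw : ∀ t, (γ * S.cor e t) ^ 2 = S.cor e (d * t ^ 2) := fun t => by
    rw [mul_pow, hγ, map_mul, map_pow]
  have hu : ∀ t, d * (t * m (γ * S.cor e t)) ^ 2 = d * t ^ 2 * m (S.cor e (d * t ^ 2)) :=
    fun t => by rw [mul_pow, ← map_pow, hw, mul_assoc]
  refine ⟨γ, ν, fun p => z p * m (γ * S.cor e (z p)), ε, hν, ⟨?_, fun p => ⟨?_, ?_⟩⟩, hε,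
    fun p => ?_, by rw [← hp, S.prod_emb]⟩
  · exact (hz.image fun t => t * m (γ * S.cor e t)).subset
      (by rintro _ ⟨p, rfl⟩; exact ⟨z p, ⟨p, rfl⟩, rfl⟩)
  · rw [hu, Units.val_mul]
    exact mul_mem (hz' p).1 (map_mem_Ord _ (S.rn_mem_Ord (hz' p).1))
  · rw [hu, mul_inv, Units.val_mul, ← map_inv, ← map_inv]
    exact mul_mem (hz' p).2 (map_mem_Ord _ (S.rn_mem_Ord (hz' p).2))
  · have h3 : S.rn e (m (γ * S.cor e (z p)) : Cub e K) =
        ((γ * S.cor e (z p) : (Cub e ℚ)ˣ) : Cub e ℚ) ^ 3 := S.rn_map _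
    have h4 : (γ : Cub e ℚ) * S.rn e ((z p * m (γ * S.cor e (z p)) : (Cub e K)ˣ) : Cub e K) =
        (((γ * S.cor e (z p)) ^ 2 : (Cub e ℚ)ˣ) : Cub e ℚ) ^ 2 := by
      rw [Units.val_mul, map_mul, h3, ← S.gal2_val, Units.val_pow_eq_pow_val, Units.val_mul]
      ring
    rw [h4, hw]
    exact pow_mem (S.rn_mem_Ord (hz' p).1) 2


theorem zupoint_Zm_map {R R' : Type*} [CommRing R] [CommRing R'] (f : R →+* R') (m : Fin 5) :
    (Zm R m).map f = Zm R' m := by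
  have h : ∀ (m : Fin 5) a b, f (G5 R m a b) = G5 R' m a b := fun m a b => by
    fin_cases m <;> fin_cases a <;> fin_cases b <;> simp [G5, map_ofNat]
  ext a c
  simp only [Zm, map_apply, submatrix_apply, kron_apply, map_mul, h]

/-- `exists_upoint2` together with the Galois equivariance of the chart -/
theorem Setup.zupoint_eqv {N : ℕ} (hN : N ≠ 0) {C : ℝ} (hC : 1 ≤ C) :
    ∃ (c : ℝ) (W H : Fin 7 → Matrix (Fin 3) (Fin 3) Kt)
      (A B : Fin 7 → Fin 5 → Matrix (Fin 4) (Fin 4) Kt) (κ : Kt), 0 ≤ c ∧ κ ≠ 0 ∧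
      (∀ s, (W s)ᵀ * H s = 1) ∧
      (∀ s m, Zm Kt m = A s m * PhiX (W s) (H s) + B s m * PhiY (W s) (H s)) ∧
      (∀ s τ π, S.Cmp τ π → (W s).map τ = (W s).submatrix π id ∧
        (H s).map τ = (H s).submatrix π id) ∧
      ∀ (T : ℕ), 1 ≤ T → ∀ e ∈ box T, ∀ (d : (Cub e K)ˣ) (γ : Cub e ℚ) (ν : K)
        (z : Nat.Primes → (Cub e K)ˣ) (ε : (K →+* ℂ) → Cub e ℂ) (j : ℕ) (v0 v1 v2 : Cub e K),
        S.UData d γ ν z ε → Red N C T (d : Cub e K) ν z ε j v0 v1 v2 →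
        Gv (d : Cub e K) v0 v0 ≠ 0 →
        ∃ (s : Fin 7) (g : ℤ) (Sm : Matrix (Fin 4) (Fin 4) ℚ),
          LGHyp (dvec j) (c * T / 16 ^ j) g Sm ∧
          ∀ m, κ * S.s 0 (quart (d : Cub e K) v0 v1 v2 (pt5 m).1 (pt5 m).2) =
            g * (A s m + B s m * Sm.map (Rat.cast : ℚ → Kt)).det := by
  obtain ⟨ω, η, n, hn, hω, hη, -, hdual⟩ := S.exists_dual
  obtain ⟨W, hW⟩ : ∃ W : Matrix (Fin 3) (Fin 3) Kt, W = of fun a b => S.s a (ω b) := ⟨_, rfl⟩
  obtain ⟨H, hH⟩ : ∃ H : Matrix (Fin 3) (Fin 3) Kt, H = of fun a b => S.s a (η b) := ⟨_, rfl⟩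
  have hWH : Wᵀ * H = 1 := by
    ext a b
    rw [hW, hH, Matrix.mul_apply, one_apply]
    exact hdual a b
  have hWi : ∀ a b, IsIntegral ℤ (W a b) := fun a b => by
    rw [hW]
    exact map_isIntegral_int (S.s a) (hω b)
  have hHi : ∀ a b, IsIntegral ℤ ((n : Kt) * H a b) := fun a b => by
    rw [hH]
    simpa using map_isIntegral_int (S.s a) (hη b)
  have hni : IsIntegral ℤ (n : Kt) := by
    simpa using isIntegral_algebraMap (R := ℤ) (A := Kt) (x := (n : ℤ))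
  have hWe : ∀ τ π, S.Cmp τ π → W.map τ = W.submatrix π id := fun τ π hτ => by
    ext a b
    rw [hW]
    exact hτ a (ω b)
  have hHe : ∀ τ π, S.Cmp τ π → H.map τ = H.submatrix π id := fun τ π hτ => by
    ext a b
    rw [hH]
    exact hτ a (η b)
  have hx : IsIntegral ℤ W.det := IsIntegral.det hWi
  have hx' : S.Alt W.det := fun τ π hτ => by
    rw [← det_permute, ← hWe τ π hτ]
    exact (τ : Kt →+* Kt).map_det W
  have hx0 : W.det ≠ 0 := fun h0 => by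
    have h1 := congrArg det hWH
    rw [det_mul, det_transpose, h0, zero_mul, det_one] at h1
    exact zero_ne_one h1
  have hc : (W.map S.i)ᵀ * H.map S.i = 1 := by
    rw [← transpose_map, ← Matrix.map_mul, hWH, Matrix.map_one _ (map_zero _) (map_one _)]
  obtain ⟨κ, hκ⟩ : ∃ κ : ℂ, κ = 24 * (N : ℂ) ^ 3 * (n : ℂ) ^ 4 * S.i W.det := ⟨_, rfl⟩
  have hκ0 : κ ≠ 0 := by
    rw [hκ]
    exact mul_ne_zero (mul_ne_zero (mul_ne_zero (by norm_num)
      (pow_ne_zero _ (Nat.cast_ne_zero.2 hN))) (pow_ne_zero _ (Nat.cast_ne_zero.2 hn)))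
      ((map_ne_zero S.i).2 hx0)
  choose P' Q' hPQ using fun (s : Fin 7) (m : Fin 5) => exists_PQ (dual_Us hWH s) (Zm Kt m)
  have hPQ' : ∀ (s : Fin 7) (m : Fin 5), Zm ℂ m =
      (P' s m).map S.i * PhiX (W.map S.i * Us ℂ s) (H.map S.i * Ut ℂ s) +
        (Q' s m).map S.i * PhiY (W.map S.i * Us ℂ s) (H.map S.i * Ut ℂ s) := fun s m => by
    rw [← zupoint_Zm_map S.i, hPQ s m, Matrix.map_add _ (map_add S.i), Matrix.map_mul,
      Matrix.map_mul, (PhiX_map _ _ _).1, (PhiX_map _ _ _).2, Matrix.map_mul, Matrix.map_mul,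
      (upoint_U_map _ s).1, (upoint_U_map _ s).2]
  have hWs : ∀ (s : Fin 7) τ π, S.Cmp τ π →
      (W * Us Kt s).map τ = (W * Us Kt s).submatrix π id := fun s τ π hτ =>
    (Matrix.map_mul (f := (τ : Kt →+* Kt))).trans (by
      rw [(upoint_U_map _ s).1]
      exact congrArg (· * Us Kt s) (hWe τ π hτ))
  have hHs : ∀ (s : Fin 7) τ π, S.Cmp τ π →
      (H * Ut Kt s).map τ = (H * Ut Kt s).submatrix π id := fun s τ π hτ =>
    (Matrix.map_mul (f := (τ : Kt →+* Kt))).trans (by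
      rw [(upoint_U_map _ s).2]
      exact congrArg (· * Ut Kt s) (hHe τ π hτ))
  have hκ' : S.i (24 * (N : Kt) ^ 3 * (n : Kt) ^ 4 * W.det) = κ := by
    rw [hκ]
    simp only [map_mul, map_pow, map_natCast, map_ofNat]
  obtain ⟨B, hB⟩ : ∃ B : ℝ, ∀ (s : Fin 7) (a b : Fin 3), ‖(W.map S.i * Us ℂ s) a b‖ ≤ B ∧
      ‖(H.map S.i * Ut ℂ s) a b‖ ≤ B := by
    obtain ⟨B, hB⟩ := Finite.exists_le fun t : Fin 7 × Fin 3 × Fin 3 =>
      max ‖(W.map S.i * Us ℂ t.1) t.2.1 t.2.2‖ ‖(H.map S.i * Ut ℂ t.1) t.2.1 t.2.2‖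
    exact ⟨B, fun s a b => max_le_iff.1 (hB (s, a, b))⟩
  obtain ⟨c, hc0, hbd⟩ := chart_bound B (2 * C)
  refine ⟨‖κ‖ * c, fun s => W * Us Kt s, fun s => H * Ut Kt s, P', Q',
    24 * (N : Kt) ^ 3 * (n : Kt) ^ 4 * W.det, by positivity,
    fun h0 => hκ0 (by rw [← hκ', h0, map_zero]), fun s => dual_Us hWH s, hPQ,
    fun s τ π hτ => ⟨hWs s τ π hτ, hHs s τ π hτ⟩,
    fun T hT e he d γ ν z ε j v0 v1 v2 hu hv hG => ?_⟩
  have hT0 : (0 : ℝ) < T := by exact_mod_cast hT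
  obtain ⟨h, hh, hhb⟩ := S.exists_frame hC hT0.ne' hu.eps hv
  have hY : ∀ m, Yf 0 m (lagr e T h) =
      S.emb 0 (quart (d : Cub e K) v0 v1 v2 (pt5 m).1 (pt5 m).2) := fun m =>
    Setup.Frame.Yf_eq S hT0.ne' hu.eps hh 1 0 m
  have hPl : Pl (lagr e T h) (qf 0) ≠ 0 := by
    have h1 := hY 0
    rw [Yf, upoint_kron_one, Matrix.one_mul, hv.hyp.quart_eq] at h1
    rw [h1, map_ne_zero]
    simpa [pt5] using hG
  obtain ⟨s, hs⟩ := exists_chart_ne hc hPl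
  obtain ⟨Sc, hSs, hSc⟩ := exists_chart (dual_Us hc s) (lag_lagr e T h) hs
  have key : ∀ P Q : Matrix (Fin 4) (Fin 4) ℤ, ∃ k : ℤ, (k : ℂ) =
      κ * ((P.map (Int.cast : ℤ → ℂ) + Q.map (Int.cast : ℤ → ℂ) * Sc).det *
        (PhiX (W.map S.i * Us ℂ s) (H.map S.i * Ut ℂ s) * lagr e T h).det) := by
    intro P Q
    obtain ⟨k, hk⟩ := S.upoint_int hT0.ne' hu hv hh (n := n) (W := W * Us Kt s) (H := H * Ut Kt s)
      (fun a b => by
        rw [Matrix.mul_apply]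
        exact hni.mul (IsIntegral.sum _ fun l _ => (hWi a l).mul (upoint_U_int s l b).1))
      (fun a b => by
        simp only [Matrix.mul_apply, Finset.mul_sum, ← mul_assoc]
        exact IsIntegral.sum _ fun l _ => (hHi a l).mul (upoint_U_int s l b).2)
      (hWs s) (hHs s) hx hx' P Q
    rw [Matrix.map_mul, Matrix.map_mul, (upoint_U_map _ s).1, (upoint_U_map _ s).2, hSc,
      ← hκ] at hk
    exact ⟨k, hk⟩
  obtain ⟨g, hg⟩ := key 1 0
  rw [Matrix.map_one _ Int.cast_zero Int.cast_one, Matrix.map_zero _ Int.cast_zero,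
    Matrix.zero_mul, add_zero, det_one, one_mul] at hg
  have hg0 : (g : ℂ) ≠ 0 := hg ▸ mul_ne_zero hκ0 hs
  have key' : ∀ P Q : Matrix (Fin 4) (Fin 4) ℤ, ∃ k : ℤ,
      (g : ℂ) * (P.map (Int.cast : ℤ → ℂ) + Q.map (Int.cast : ℤ → ℂ) * Sc).det = k := by
    intro P Q
    obtain ⟨k, hk⟩ := key P Q
    exact ⟨k, by rw [hk, hg]; ring⟩
  choose k hk using fun a b : Fin 4 => key' (1 - single b b 1) (single b a 1)
  simp only [upoint_entry] at hk
  obtain ⟨Sm, rfl⟩ : ∃ Sm : Matrix (Fin 4) (Fin 4) ℚ, Sc = Sm.map (Rat.cast : ℚ → ℂ) := by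
    refine ⟨of fun a b => (k a b : ℚ) / g, ?_⟩
    ext a b
    simp only [map_apply, of_apply, Rat.cast_div, Rat.cast_intCast, ← hk]
    rw [mul_div_cancel_left₀ _ hg0]
  refine ⟨s, g, Sm, ⟨by exact_mod_cast hg0, ?_, fun P Q => ?_, fun P Q hP hQ => ?_⟩, fun m => ?_⟩
  · ext a b
    exact Rat.cast_injective (α := ℂ) (hSs.apply a b)
  · obtain ⟨k', hk'⟩ := key' P Q
    refine ⟨k', Rat.cast_injective (α := ℂ) ?_⟩
    have h1 : (Rat.castHom ℂ).mapMatrix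
        (P.map (Int.cast : ℤ → ℚ) + Q.map (Int.cast : ℤ → ℚ) * Sm) =
        P.map (Int.cast : ℤ → ℂ) + Q.map (Int.cast : ℤ → ℂ) * Sm.map (Rat.cast : ℚ → ℂ) := by
      ext a b
      simp [Matrix.mul_apply]
    rw [← h1, ← RingHom.map_det] at hk'
    simpa using hk'
  · obtain ⟨b1, b2, -⟩ := mem_box.1 he
    have hd := upoint_dvec_pos j
    have hdc : ∀ a, (dvec j a : ℂ) ≠ 0 := fun a => Complex.ofReal_ne_zero.2 (hd a).ne'
    have h1 := hbd _ _ (fun a b => (hB s a b).1) (fun a b => (hB s a b).2) j h hhb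
      ((e.1 : ℂ) / (T : ℝ) ^ 2) ((e.2 : ℂ) / (T : ℝ) ^ 3) T
      (by
        rw [norm_div, norm_pow, Complex.norm_real, Real.norm_of_nonneg hT0.le,
          div_le_one (by positivity), Complex.norm_intCast]
        exact_mod_cast b1)
      (by
        rw [norm_div, norm_pow, Complex.norm_real, Real.norm_of_nonneg hT0.le,
          div_le_one (by positivity), Complex.norm_intCast]
        exact_mod_cast b2) hT0.le (P.map Complex.ofReal) (Q.map Complex.ofReal)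
      (fun a b => by simpa using hP a b) (fun a b => by simpa using hQ a b)
    have h2 : P.map Complex.ofReal * diagonal (fun a => (dvec j a : ℂ)) +
        Q.map Complex.ofReal * diagonal (fun a => (dvec j a : ℂ)⁻¹) * Sm.map (Rat.cast : ℚ → ℂ) =
        Complex.ofRealHom.mapMatrix ((P + Q * of fun a b => (Sm a b : ℝ) / (dvec j a * dvec j b)) *
          diagonal (dvec j)) := by
      ext a b
      simp only [RingHom.mapMatrix_apply, map_apply, Matrix.add_apply, mul_diagonal,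
        Complex.ofRealHom_eq_coe]
      simp only [Matrix.mul_apply, map_apply, of_apply, diagonal_apply, mul_ite, mul_zero,
        Finset.sum_ite_eq', Finset.mem_univ, if_true]
      push_cast
      rw [add_mul, Finset.sum_mul]
      congr 1
      refine Finset.sum_congr rfl fun l _ => ?_
      have := hdc l
      have := hdc b
      field_simp
    rw [← lagr, hSc, h2, ← RingHom.map_det, det_mul, det_diagonal, upoint_dvec_prod, norm_mul,
      Complex.ofRealHom_eq_coe, Complex.norm_real, norm_mul, Real.norm_eq_abs,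
      Real.norm_of_nonneg (by positivity : (0 : ℝ) ≤ 16 ^ j)] at h1
    have h3 : |(g : ℝ)| = ‖κ‖ *
        ‖(PhiX (W.map S.i * Us ℂ s) (H.map S.i * Ut ℂ s) * lagr e T h).det‖ := by
      rw [← norm_mul, ← hg, Complex.norm_intCast]
    have h4 : 0 < |(g : ℝ)| := abs_pos.2 (by exact_mod_cast hg0)
    rw [le_div_iff₀ h4, le_div_iff₀ (by positivity), h3]
    refine le_trans (le_of_eq ?_) ((mul_le_mul_of_nonneg_left h1 (norm_nonneg κ)).trans_eq ?_) <;>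
      ring
  · apply S.i.injective
    have h1 : S.i.mapMatrix (P' s m + Q' s m * Sm.map (Rat.cast : ℚ → Kt)) =
        (P' s m).map S.i + (Q' s m).map S.i * Sm.map (Rat.cast : ℚ → ℂ) := by
      ext a b
      simp [Matrix.mul_apply]
    rw [map_mul, map_mul S.i (g : Kt), hκ', RingHom.map_det, h1, map_intCast, hg, mul_assoc,
      mul_comm (det _), ← hSc, ← hPQ']
    exact congrArg (κ * ·) (hY m).symm

/-- copy of `exists_upoint`, with `W s = W * Us Kt s`, `H s = H * Ut Kt s`, `A, B` from `exists_PQ`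
over `Kt` (map the identity to `ℂ` with `PhiX_map`), `κ = 24 N^3 n^4 det W`; the last identity is
checked after applying the injective map `S.i` -/
theorem Setup.exists_upoint2 {N : ℕ} (hN : N ≠ 0) {C : ℝ} (hC : 1 ≤ C) :
    ∃ (c : ℝ) (W H : Fin 7 → Matrix (Fin 3) (Fin 3) Kt)
      (A B : Fin 7 → Fin 5 → Matrix (Fin 4) (Fin 4) Kt) (κ : Kt), 0 ≤ c ∧ κ ≠ 0 ∧
      (∀ s, (W s)ᵀ * H s = 1) ∧
      (∀ s m, Zm Kt m = A s m * PhiX (W s) (H s) + B s m * PhiY (W s) (H s)) ∧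
      ∀ (T : ℕ), 1 ≤ T → ∀ e ∈ box T, ∀ (d : (Cub e K)ˣ) (γ : Cub e ℚ) (ν : K)
        (z : Nat.Primes → (Cub e K)ˣ) (ε : (K →+* ℂ) → Cub e ℂ) (j : ℕ) (v0 v1 v2 : Cub e K),
        S.UData d γ ν z ε → Red N C T (d : Cub e K) ν z ε j v0 v1 v2 →
        Gv (d : Cub e K) v0 v0 ≠ 0 →
        ∃ (s : Fin 7) (g : ℤ) (Sm : Matrix (Fin 4) (Fin 4) ℚ),
          LGHyp (dvec j) (c * T / 16 ^ j) g Sm ∧
          ∀ m, κ * S.s 0 (quart (d : Cub e K) v0 v1 v2 (pt5 m).1 (pt5 m).2) =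
            g * (A s m + B s m * Sm.map (Rat.cast : ℚ → Kt)).det := by
  obtain ⟨c, W, H, A, B, κ, h1, h2, h3, h4, -, h5⟩ := S.zupoint_eqv hN hC
  exact ⟨c, W, H, A, B, κ, h1, h2, h3, h4, h5⟩

end Pool.Agent.Lib.MP_775b3b_nt
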