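import Pool.Agent.Lib.MP_775b3b_nt.UCount
import Pool.Agent.Lib.MP_775b3b_nt.ZUPoint
import Pool.Agent.Lib.MP_775b3b_nt.ZUBad
import Pool.Agent.Lib.MP_775b3b_nt.ZSieve
import Pool.Agent.Lib.MP_775b3b_nt.ZGlue

/-! The sieve over the cubic field. -/

namespace Pool.Agent.Lib.MP_775b3b_nt

open Cub

/-- As `countU`, with one `d` for each `e ∈ E` (`Dfc.exists_locD`, `LocD.loc`, `exists_udata2`,
`exists_red`, `exists_upoint2` and `exists_bad` for `2 N₀` and `φ = S.s 0`).  The map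
`(e, m) ↦ (s, g, Sm)` is injective at each level; split the image according to `s` and use
`lg_sieve_level` with `Bad s`, `β = 29/30`:
`card (level j) * 64^j ≤ 7 (η T^5 + C' T^(9/2)) 16^j`, `η = C (β^m + ∑ 1 / l) + ε'`;
`card_le_of_level`.  Choose `m ≥ 1` with `14 C β^m ≤ ε / 4`, `L₀ ≥ 3` with `14 C m / L₀ ≤ ε / 4`,
`ε' = ε / 56`, and `T₀` with `14 C' ≤ ε / 4 * √T₀`. -/
theorem countU2 {K Kt : Type} [Field K] [NumberField K] [Field Kt] [NumberField Kt]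
    (S : Setup K Kt) {ε : ℝ} (hε : 0 < ε) : ∃ m L₀ : ℕ, ∀ Q : Finset ℕ, Q.card = m →
    (∀ l ∈ Q, l.Prime ∧ L₀ < l ∧ Deg1 Kt l) → ∃ T₀ : ℕ, ∀ T : ℕ, T₀ ≤ T → ∀ E ⊆ box T,
      (∀ e ∈ E, ∃ d : (Cub e K)ˣ, Esc 1 Q d ∧ S.cor e d ∈ SQ e ℚ) →
        (E.card : ℝ) ≤ ε * (T : ℝ) ^ 5 := by
  classical
  obtain ⟨N₀, C₀, hN₀, hC₀, Hred⟩ := exists_red K
  obtain ⟨ω, -, -, -, hω, -, hli, -⟩ := S.exists_dual
  have hc₀ : 0 ≤ ∑ τ : K →+* ℂ, ∑ i, ‖τ (ω i)‖ :=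
    Finset.sum_nonneg fun τ _ => Finset.sum_nonneg fun i _ => norm_nonneg _
  obtain ⟨c, W, H, A, B, κ, hc, hκ, hWH, hAB, Hup⟩ := S.exists_upoint2 (N := 2 * N₀) (by omega)
    (C := C₀ * (1 + ∑ τ : K →+* ℂ, ∑ i, ‖τ (ω i)‖) ^ 2)
    (one_le_mul_of_one_le_of_one_le hC₀ (one_le_pow₀ (le_add_of_nonneg_right hc₀)))
  obtain ⟨L₁, Bad, Hbad⟩ := exists_bad (S.s 0) hκ hWH hAB (N := 2 * N₀) (by omega)
  obtain ⟨C₁, hC₁, Hcnt⟩ := lg_sieve_level c hc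
  obtain ⟨m₀, hm₀⟩ := exists_pow_lt_of_lt_one (x := ε / (56 * C₁)) (y := (29 / 30 : ℝ))
    (by positivity) (by norm_num)
  refine ⟨m₀ + 1, L₁ + 3 + ⌈56 * C₁ * (m₀ + 1) / ε⌉₊, fun Q hQm hQ => ?_⟩
  have hQne : Q.Nonempty := Finset.card_pos.1 (by omega)
  have hQp : ∀ l ∈ Q, l.Prime ∧ 3 ≤ l := fun l hl => ⟨(hQ l hl).1, by have := (hQ l hl).2.1; omega⟩
  have hQb := fun l (hl : l ∈ Q) =>
    Hbad l (hQ l hl).1 (by have := (hQ l hl).2.1; omega) (hQ l hl).2.2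
  obtain ⟨C', hC', Hc⟩ := Hcnt Q hQne hQp (29 / 30) (by norm_num) (by norm_num) (ε / 56)
    (by positivity)
  have k1 : C₁ * (29 / 30 : ℝ) ^ Q.card ≤ ε / 56 := by
    rw [hQm, pow_succ]
    rw [lt_div_iff₀ (by positivity)] at hm₀
    have : 0 ≤ C₁ * (29 / 30 : ℝ) ^ m₀ := by positivity
    nlinarith
  have k2 : C₁ * ∑ l ∈ Q, (l : ℝ)⁻¹ ≤ ε / 56 := by
    have h1 : ∀ l ∈ Q, (l : ℝ)⁻¹ ≤ ε / (56 * C₁ * (m₀ + 1)) := fun l hl => by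
      have h2 : 56 * C₁ * (m₀ + 1) / ε ≤ l :=
        (Nat.le_ceil _).trans (Nat.cast_le.2 (by have := (hQ l hl).2.1; omega))
      rw [← inv_div]
      exact inv_anti₀ (by positivity) h2
    have h3 := Finset.sum_le_card_nsmul _ _ _ h1
    rw [hQm, nsmul_eq_mul] at h3
    refine (mul_le_mul_of_nonneg_left h3 hC₁.le).trans_eq ?_
    push_cast
    field_simp
  refine ⟨1 + ⌈(56 * C' / ε) ^ 2⌉₊, fun T hT E hE hR => ?_⟩
  have hT1 : 1 ≤ T := by omega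
  have hT0 : (0 : ℝ) < T := by exact_mod_cast hT1
  have k3 : C' * (T : ℝ) ^ (9 / 2 : ℝ) ≤ ε / 56 * (T : ℝ) ^ 5 := by
    have h1 : (56 * C' / ε) ^ 2 ≤ (T : ℝ) := (Nat.le_ceil _).trans (Nat.cast_le.2 (by omega))
    have h2 : 56 * C' / ε ≤ (T : ℝ) ^ (1 / 2 : ℝ) := by
      rw [← Real.sqrt_eq_rpow]
      exact Real.le_sqrt_of_sq_le h1
    have h5 : (T : ℝ) ^ (9 / 2 : ℝ) * (T : ℝ) ^ (1 / 2 : ℝ) = (T : ℝ) ^ 5 := by
      rw [← Real.rpow_add' hT0.le (by norm_num), ← Real.rpow_natCast]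
      norm_num
    rw [div_le_iff₀ hε] at h2
    rw [← h5]
    have : 0 ≤ (T : ℝ) ^ (9 / 2 : ℝ) := by positivity
    nlinarith
  have key : ∀ e : ℤ × ℤ, ∃ (j : ℕ) (d : (Cub e K)ˣ) (ν : K) (v0 v1 v2 : Cub e K)
      (p : (Fin 3 → ℕ) → Fin 7 × ℤ × Matrix (Fin 4) (Fin 4) ℚ), e ∈ E →
      Hyp (d : Cub e K) ν v0 v1 v2 ∧ d ∉ SQ e K ∧ ∀ m : Fin 3 → ℕ, (∀ i, m i < 4 ^ j) →
        (LGHyp (dvec j) (c * T / 16 ^ j) (p m).2.1 (p m).2.2 ∧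
        ∀ l ∈ Q, ¬ (l : ℤ) ∣ (p m).2.1 → ∃ X ∈ Bad (p m).1 l, RedS l (p m).2.1 (p m).2.2 X) ∧
        ∀ i, κ * S.s 0 (quart (d : Cub e K) v0 (tr1 (ucount_u ω m) v0 v1)
          (tr2 (ucount_u ω m) v0 v1 v2) (pt5 i).1 (pt5 i).2) = (p m).2.1 *
            (A (p m).1 i + B (p m).1 i * (p m).2.2.map (Rat.cast : ℚ → Kt)).det := by
    intro e
    by_cases he : e ∈ E
    · obtain ⟨d, hd, h3⟩ := hR e he
      have hdisc := (mem_box.1 (hE he)).2.2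
      obtain ⟨γ, ν, z, ε, hu⟩ := S.exists_udata2 hdisc hd.nsq hd.pos
        (hd.dfc.exists_locD.imp fun z hz => hz.loc) h3
      obtain ⟨j, v0, v1, v2, hr⟩ := Hred e T hT0 d ν z ε hu.nu hu.loc hu.eps hd.iso
      have h6 : ∀ m : Fin 3 → ℕ, ∃ p : Fin 7 × ℤ × Matrix (Fin 4) (Fin 4) ℚ, (∀ i, m i < 4 ^ j) →
          (LGHyp (dvec j) (c * T / 16 ^ j) p.2.1 p.2.2 ∧
          ∀ l ∈ Q, ¬ (l : ℤ) ∣ p.2.1 → ∃ X ∈ Bad p.1 l, RedS l p.2.1 p.2.2 X) ∧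
          ∀ i, κ * S.s 0 (quart (d : Cub e K) v0 (tr1 (ucount_u ω m) v0 v1)
            (tr2 (ucount_u ω m) v0 v1 v2) (pt5 i).1 (pt5 i).2) = p.2.1 *
              (A p.1 i + B p.1 i * p.2.2.map (Rat.cast : ℚ → Kt)).det := by
        intro m
        by_cases hm : ∀ i, m i < 4 ^ j
        · have hr' := hr.translate (ucount_int hω m) hc₀ (ucount_norm ω hm)
          obtain ⟨s, g, Sm, h7, h8⟩ := Hup T hT1 e (hE he) d γ ν z ε j _ _ _ hu hr'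
            (hr.hyp.Gv_ne_zero hdisc hd.nontriv)
          exact ⟨(s, g, Sm), fun _ => ⟨⟨h7, fun l hl hg => (hQb l hl).2 e _ _ d ν z ε j _ _ _ s g Sm
            hu.loc hr' h7.symm h7.int h8 (hd.esc l hl) hg⟩, h8⟩⟩
        · exact ⟨(0, 0, 0), fun h => (hm h).elim⟩
      choose p hp using h6
      exact ⟨j, d, ν, v0, v1, v2, p, fun _ => ⟨hr.hyp, hd.nontriv, hp⟩⟩
    · exact ⟨0, 1, 0, 0, 0, 0, fun _ => (0, 0, 0), fun h => (he h).elim⟩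
  choose lev d ν v0 v1 v2 p hp using key
  refine (card_le_of_level E lev (7 * (ε / 14 * (T : ℝ) ^ 5)) (by positivity) fun j => ?_).trans_eq
    (by ring)
  obtain ⟨F, hF⟩ : ∃ F, F = (E.filter fun x => lev x = j) ×ˢ
    Fintype.piFinset fun _ : Fin 3 => Finset.range (4 ^ j) := ⟨_, rfl⟩
  have hm : ∀ a ∈ F, a.1 ∈ E ∧ lev a.1 = j ∧ ∀ i, a.2 i < 4 ^ lev a.1 := by
    intro a ha
    rw [hF, Finset.mem_product, Finset.mem_filter, Fintype.mem_piFinset] at ha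
    exact ⟨ha.1.1, ha.1.2, fun i => ha.1.2 ▸ Finset.mem_range.1 (ha.2 i)⟩
  have hinj : Set.InjOn (fun a : (ℤ × ℤ) × (Fin 3 → ℕ) => p a.1 a.2) F := by
    rintro ⟨e, m⟩ ha ⟨e', m'⟩ ha' h
    obtain ⟨h3, -, h4⟩ := hm _ ha
    obtain ⟨h3', -, h4'⟩ := hm _ ha'
    obtain ⟨h5, hn, h6⟩ := hp _ h3
    obtain ⟨h5', -, h6'⟩ := hp _ h3'
    have h' : p e m = p e' m' := h
    have hg := gvec_eq_of_quart (h5.translate (ucount_u ω m)) (h5'.translate (ucount_u ω m'))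
      fun i => (S.s 0).injective (mul_left_cancel₀ hκ
        (by rw [(h6 m h4).2 i, (h6' m' h4').2 i, h']))
    obtain rfl : e = e' := eq_of_gvec (h5.translate _) (h5'.translate _) hg
    have h7 : Gv (d e : Cub e K) _ (tr1 (ucount_u ω m) _ _) =
      Gv (d e : Cub e K) _ (tr1 (ucount_u ω m') _ _) := congrFun hg 1
    rw [Gv_tr1, Gv_tr1, add_right_inj] at h7
    rw [ucount_inj hli (mul_right_cancel₀ (h5.Gv_ne_zero (mem_box.1 (hE h3)).2.2 hn) h7)]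
  have h3 : ∀ s ∈ (Finset.univ : Finset (Fin 7)),
      ((F.filter fun a => (p a.1 a.2).1 = s).card : ℝ) ≤ ε / 14 * (T : ℝ) ^ 5 * 16 ^ j := by
    intro s _
    rw [← Finset.card_image_of_injOn (f := fun a => (p a.1 a.2).2) fun a ha b hb h =>
      hinj (Finset.mem_filter.1 ha).1 (Finset.mem_filter.1 hb).1 (Prod.ext
        ((Finset.mem_filter.1 ha).2.trans (Finset.mem_filter.1 hb).2.symm) h)]
    refine (Hc (Bad s) (fun l hl => (hQb l hl).1 s) j T _ hT0.le fun z hz => ?_).trans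
      (mul_le_mul_of_nonneg_right ?_ (by positivity))
    · obtain ⟨a, ha, rfl⟩ := Finset.mem_image.1 hz
      obtain ⟨ha, hs⟩ := Finset.mem_filter.1 ha
      obtain ⟨h3, h4, h5⟩ := hm a ha
      have h6 := ((hp _ h3).2.2 _ h5).1
      rwa [h4, hs] at h6
    · have : 0 ≤ (T : ℝ) ^ 5 := by positivity
      nlinarith
  have h4 := Finset.sum_le_sum h3
  rw [← Nat.cast_sum, ← Finset.card_eq_sum_card_fiberwise (fun _ _ => Finset.mem_coe.2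
    (Finset.mem_univ _)), Finset.sum_const, Finset.card_univ, Fintype.card_fin, nsmul_eq_mul,
    hF, Finset.card_product, Fintype.card_piFinset_const, Finset.card_range] at h4
  push_cast at h4
  have e16 : (16 : ℝ) ^ j = (4 ^ j) ^ 2 := by rw [← pow_mul, mul_comm, pow_mul]; norm_num
  have h6 : (0 : ℝ) < 4 ^ j := by positivity
  rw [le_div_iff₀ h6]
  rw [e16] at h4
  refine le_of_mul_le_mul_right (le_of_eq_of_le ?_ (h4.trans_eq ?_)) (pow_pos h6 2) <;> ring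

end Pool.Agent.Lib.MP_775b3b_nt
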