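import Pool.Agent.Lib.MP_775b3b_nt.ZMain

/-! The case of an extension of degree a power of two. -/

namespace Pool.Agent.Lib.MP_775b3b_nt

open Cub MP_439fea_co WithZero

theorem exists_class_rat {N : ℕ} (hN : N ≠ 0) (h2N : 2 ∣ N) : ∃ b : ℤ, ∀ e : ℤ × ℤ,
    (N : ℤ) ^ 2 ∣ e.1 - 0 → (N : ℤ) ^ 2 ∣ e.2 - b → 4 ∣ e.1 ∧ 4 ∣ e.2 - 2 ∧
      ∀ p : ℕ, p.Prime → p ∣ N →
        ¬ (p : ℤ) ^ 2 ∣ e.2 ∧ ∀ v : P ℚ, val v (p : ℚ) < 1 → Auto e v := by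
  obtain ⟨b, hb⟩ := zfam_crt (fun p => (p : ℤ)) N.primeFactors
    fun p hp => Nat.prime_of_mem_primeFactors hp
  refine ⟨b, fun e hA hB => ?_⟩
  have h : ∀ p : ℕ, p.Prime → p ∣ N → (p : ℤ) ^ 2 ∣ e.1 ∧ (p : ℤ) ^ 2 ∣ e.2 - p := by
    intro p hp hpN
    have hm : p ∈ N.primeFactors := Nat.mem_primeFactors.2 ⟨hp, hpN, hN⟩
    have hd : (p : ℤ) ^ 2 ∣ (N : ℤ) ^ 2 := pow_dvd_pow_of_dvd (Int.natCast_dvd_natCast.2 hpN) 2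
    exact ⟨by simpa using hd.trans hA, by simpa using dvd_add (hd.trans hB) (hb p hm)⟩
  obtain ⟨h4, h5⟩ := h 2 Nat.prime_two h2N
  refine ⟨by simpa using h4, by simpa using h5, fun p hp hpN => ?_⟩
  obtain ⟨h6, h7⟩ := h p hp hpN
  refine ⟨fun h1 => ?_, fun v hv => (eis_of hp (deg1_rat hp v hv).1
    ((dvd_pow_self _ two_ne_zero).trans h6) h7).auto⟩
  have h2 : (p : ℤ) ^ 2 ∣ (p : ℤ) := by simpa using dvd_sub h1 h7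
  have h8 := Int.le_of_dvd (by exact_mod_cast hp.pos) h2
  have h9 : (2 : ℤ) ≤ p := by exact_mod_cast hp.two_le
  nlinarith

variable {F : Type} [Field F] [NumberField F]

theorem core_two [DecidableEq F] {e : ℤ × ℤ} {N : ℕ} (h2N : 2 ∣ N) (hUK : Unr ℚ N)
    (hU : Unr F N) (h2 : ∀ w : P F, val w (2 : F) < 1 → val w (2 : F) = exp (-1 : ℤ))
    (htow : ∀ N', N ∣ N' → ∀ 𝒯 : Subgroup (Cub e F)ˣ, SQ e F ≤ 𝒯 → 𝒯 ≤ Sel N' e F →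
      (∀ g : F ≃ₐ[ℚ] F, ∀ d ∈ 𝒯, uz e (g : F →+* F) d ∈ 𝒯) →
      (∀ d₀ ∈ Sel N' e ℚ, uz e (algebraMap ℚ F) d₀ ∈ 𝒯 → d₀ ∈ SQ e ℚ) → 𝒯 ≤ SQ e F)
    (hA : 0 < e.1) (h4 : 4 ∣ e.1) (h4' : 4 ∣ e.2 - 2)
    (hauto : ∀ p : ℕ, p.Prime → p ∣ N → ∀ v : P ℚ, val v (p : ℚ) < 1 → Auto e v)
    (hsq : ∀ p : ℕ, p.Prime → ¬ p ∣ N → ¬ (p : ℤ) ^ 2 ∣ disc e) {Q : Finset ℕ}
    (hQ : ∀ l ∈ Q, l.Prime ∧ ¬ l ∣ N ∧ Deg1 F l) (b2 : ¬ ∃ d : (Cub e ℚ)ˣ, Esc 1 Q d) :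
    ∃ D ⊆ Q, Module.finrank ℤ (crv (tw e ((2 * ∏ l ∈ D, l : ℕ) : ℤ)) F).toAffine.Point = 0 := by
  have nF : ∀ D ⊆ Q, (∀ l ∈ D, Ty e l) → Nice e D F := fun D hD hT =>
    ⟨hA, fun w hw => eis2_of (h2 w hw) h4 h4', fun l hl => (hQ l (hD hl)).1, fun l hl w hw =>
      tyV_of (hQ l (hD hl)).1 (hT l hl) ((hQ l (hD hl)).2.2 w hw).1
        (sqZ_of_res1 (hQ l (hD hl)).1 hw ((hQ l (hD hl)).2.2 w hw).2)⟩
  have nQ : ∀ D ⊆ Q, (∀ l ∈ D, Ty e l) → Nice e D ℚ := fun D hD hT => (nF D hD hT).down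
  obtain ⟨D, hD, hT, hZ⟩ := exists_kill (fun D => Z e D ℚ) (St e ℚ) (SQ e ℚ) (Ty e) ∅ Q
    (Finset.disjoint_empty_left _)
    (fun s hs h0 => by
      by_contra hc
      push Not at hc
      exact b2 ⟨s, (nQ ∅ (Finset.empty_subset _) (by simp)).esc (by simp) hs h0 hc⟩)
    (fun D hD hT l hl hTl hn s hs hst => by
      rw [Finset.empty_union] at hn hs ⊢
      exact step_rat (nQ _ (Finset.insert_subset hl hD)
        (Finset.forall_mem_insert _ _ _ |>.2 ⟨hTl, hT⟩)) hn hs hst)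
  rw [Finset.empty_union] at hZ
  have hTT := htow (N * ∏ l ∈ D, l) (dvd_mul_right _ _) (TT e _ D F) SQ_le_TT
    (fun d hd => (mem_TT.1 hd).1) (fun g d hd => uz_mem_TT _ hd)
    fun d₀ h0 h1 => hZ (mem_Z_of_TT hUK (nF _ hD hT) hauto hsq
      (fun l hl w hw => sqDesc_of_res1 _ ((hQ l (hD hl)).2.2 w hw).2) h0 h1)
  refine ⟨_, hD, rank_zero_tw (disc_ne_zero_of_pos hA) ?_ fun x y hxy δ hδ => hTT ?_⟩
  · have : ∏ l ∈ D, l ≠ 0 := Finset.prod_ne_zero_iff.2 fun l hl => (hQ l (hD hl)).1.ne_zero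
    exact_mod_cast mul_ne_zero two_ne_zero this
  · rw [Int.cast_natCast] at hxy hδ
    exact pt_mem_TT hU h2N (nF _ hD hT) (fun l hl => (hQ l (hD hl)).2.1) hxy hδ

open Classical in
theorem many_rank_zero_two [DecidableEq F] [IsGalois ℚ F] {j : ℕ}
    (hF : Module.finrank ℚ F = 2 ^ j) (hodd : Odd (NumberField.discr F)) :
    ∃ (m : ℕ) (c : ℝ) (T₀ : ℕ), 0 < c ∧
    ∀ T : ℕ, T₀ ≤ T → ∃ E ⊆ box T, c * (T : ℝ) ^ 5 ≤ E.card ∧ ∀ e ∈ E, ∃ d : ℕ, 1 ≤ d ∧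
      d ≤ m ∧ Module.finrank ℤ (crv (tw e d) F).toAffine.Point = 0 ∧
      ∀ p : ℕ, p.Prime → ¬ ((p : ℤ) ^ 4 ∣ (tw e d).1 ∧ (p : ℤ) ^ 6 ∣ (tw e d).2) := by
  obtain ⟨N₁, n1, h1⟩ := exists_unr ℚ
  obtain ⟨N₂, n2, h2⟩ := exists_unr F
  obtain ⟨N₃, n3, h3⟩ := tower_exact ℚ j F hF
  obtain ⟨N, hN⟩ : ∃ N, N = N₁ * N₂ * N₃ * Nat.factorial 64 := ⟨_, rfl⟩
  have n0 : N ≠ 0 := by
    rw [hN]
    positivity
  have hsm : ∀ p : ℕ, p.Prime → p ≤ 64 → p ∣ N := fun p hp h =>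
    hN ▸ (hp.dvd_factorial.2 h).mul_left _
  have d1 : N₁ ∣ N := hN ▸ ((dvd_mul_right _ _).mul_right _).mul_right _
  have d2 : N₂ ∣ N := hN ▸ ((dvd_mul_left _ _).mul_right _).mul_right _
  have d3 : N₃ ∣ N := hN ▸ (dvd_mul_left _ _).mul_right _
  have h2N : 2 ∣ N := hsm 2 Nat.prime_two (by norm_num)
  have t2 := val_two_of_odd hodd
  obtain ⟨b, hab⟩ := exists_class_rat n0 h2N
  obtain ⟨c, hc, T₁, hT₁⟩ := card_fam n0 hsm 0 b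
  obtain ⟨m₂, L₂, hm₂⟩ := countQ2 one_ne_zero (ε := c / 2) (by positivity)
  obtain ⟨Q, c1, q1⟩ := exists_primes (fun l => l.Prime ∧ Deg1 F l)
    (fun Y => by
      obtain ⟨l, a1, a2, a3⟩ := exists_deg1 F Y
      exact ⟨l, a2, a1, a3⟩) m₂ (max L₂ N)
  obtain ⟨T₃, hT₃⟩ := hm₂ Q c1 fun l hl =>
    ⟨(q1 l hl).2.1, (le_max_left _ _).trans_lt (q1 l hl).1⟩
  have hQ : ∀ l ∈ Q, l.Prime ∧ ¬ l ∣ N ∧ Deg1 F l := fun l hl =>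
    ⟨(q1 l hl).2.1, fun h => absurd (Nat.le_of_dvd (Nat.pos_of_ne_zero n0) h)
      (not_le.2 ((le_max_right _ _).trans_lt (q1 l hl).1)), (q1 l hl).2.2⟩
  refine ⟨2 * ∏ l ∈ Q, l, c / 2, max T₁ T₃, by positivity, fun T hT => ?_⟩
  let B₂ := (box T).filter fun e => ∃ d : (Cub e ℚ)ˣ, Esc 1 Q d
  have e1 := hT₁ T ((le_max_left _ _).trans hT)
  have e3 := hT₃ T ((le_max_right _ _).trans hT) B₂
    (Finset.filter_subset _ _) fun e he => (Finset.mem_filter.1 he).2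
  refine ⟨(box T).filter (Fam N 0 b) \ B₂,
    Finset.sdiff_subset.trans (Finset.filter_subset _ _), ?_, fun e he => ?_⟩
  · have e4 : (((box T).filter (Fam N 0 b)).card : ℝ) ≤
        ((box T).filter (Fam N 0 b) \ B₂).card + B₂.card := by
      exact_mod_cast Finset.card_le_card_sdiff_add_card
    linarith
  · obtain ⟨a1, a2⟩ := Finset.mem_sdiff.1 he
    obtain ⟨a3, a4, a5, a6, a7⟩ := Finset.mem_filter.1 a1
    obtain ⟨a8, a9, a10⟩ := hab e a5 a6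
    obtain ⟨D, hD, hr⟩ := core_two h2N (h1 N d1) (h2 N d2) t2 (fun N' h => h3 N' (d3.trans h) e) a4
      a8 a9 (fun p hp h => (a10 p hp h).2) a7 hQ
      (fun h => a2 (Finset.mem_filter.2 ⟨a3, h⟩))
    have hs : Squarefree (2 * ∏ l ∈ D, l) := squarefree_two_mul fun l hl =>
      ⟨(hQ l (hD hl)).1, fun h => (hQ l (hD hl)).2.1 (h ▸ h2N)⟩
    refine ⟨_, Nat.pos_of_ne_zero hs.ne_zero, Nat.mul_le_mul_left _ (Nat.le_of_dvd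
      (Finset.prod_pos fun l hl => (hQ l hl).1.pos) (Finset.prod_dvd_prod_of_subset _ _ _ hD)), hr,
      tw_minimal hs fun p hp => ?_⟩
    by_cases h : p ∣ N
    · exact Or.inl (a10 p hp h).1
    · exact Or.inr (a7 p hp h)

theorem finite_of_rank_zero [DecidableEq F] {e : ℤ × ℤ} (he : disc e ≠ 0)
    (h : Module.finrank ℤ (crv e F).toAffine.Point = 0) : Finite (crv e F).toAffine.Point := by
  have := crv_isElliptic (F := F) he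
  have : Module.Finite ℤ (crv e F).toAffine.Point :=
    Module.Finite.iff_addGroup_fg.mpr (Pool.Agent.MP_651af7_nt.MW.fg (crv e F))
  exact Module.finite_of_fg_torsion _ (Module.finrank_eq_zero_iff_isTorsion.1 h)

end Pool.Agent.Lib.MP_775b3b_nt
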