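import Pool.Agent.Lib.MP_775b3b_nt.ZRes
import Pool.Agent.Lib.MP_775b3b_nt.ZFF1

/-! Places where the unramified condition is automatic. -/

namespace Pool.Agent.Lib.MP_775b3b_nt

open Cub MP_439fea_co WithZero

variable {e : ℤ × ℤ} {k : Type*} [Field k] [NumberField k] {v : P k}

private theorem ZEis_lt : (exp (-1 : ℤ) : ℤᵐ⁰) < 1 := by
  rw [← exp_zero, exp_lt_exp]
  norm_num

private theorem ZEis_add {u b t : k} (hu : val v u = 1) (hb : val v b < 1) (ht : val v t ≤ 1) :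
    val v (u + b * t) = 1 := by
  rw [Valuation.map_add_eq_of_lt_left _ (by rw [hu]; exact lociso_mul_lt v hb ht), hu]

private theorem ZEis_div {b x : k} (hb : val v b = exp (-1 : ℤ)) (hx : val v x < 1) :
    ∃ y ∈ (val v).integer, x = b * y := by
  have h0 : b ≠ 0 := by
    rintro rfl
    rw [map_zero] at hb
    exact exp_ne_zero hb.symm
  refine ⟨x / b, ?_, by rw [mul_div_cancel₀ _ h0]⟩
  rw [Valuation.mem_integer_iff, map_div₀, hb]
  exact div_le_one_of_le₀ (val_le_exp hx) zero_le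

private theorem ZEis_exp {x : k} (hx : x ≠ 0) : ∃ n : ℤ, val v x = exp n :=
  ⟨log (val v x), (exp_log ((map_ne_zero _).2 hx)).symm⟩

/-- `nm x = x0^3 - 2 A x0^2 x2 + A^2 x0 x2^2 + 3 B x0 x1 x2 + A x0 x1^2 + B^2 x2^3 - B x1^3
- A B x1 x2^2`.  If `x0` is a unit so is `nm x`; if `x0` is small and `x1` a unit the term `B x1^3`
(valuation `exp (-1)`) dominates, all others are `≤ exp (-2)`; if `x0, x1` are small and `x2` a unit
the term `B^2 x2^3` dominates, all others are `≤ exp (-3)` (`val_le_exp`). -/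
theorem Eis.val_nm_prim (h : Eis e v) {x : Cub e k} (hx : x ∈ Ov e v) (hs : ¬ Sm v x) :
    exp (-2 : ℤ) ≤ val v (nm x) := by
  have hb : val v (e.2 : k) < 1 := h.2 ▸ ZEis_lt
  have ib : (e.2 : k) ∈ (val v).integer := hb.le
  have i0 : x.c0 ∈ (val v).integer := hx.1
  have i1 : x.c1 ∈ (val v).integer := hx.2.1
  have i2 : x.c2 ∈ (val v).integer := hx.2.2
  obtain ⟨a, ia, ha⟩ := ZEis_div h.2 h.1
  rcases (mem_Ov.1 hx).1.eq_or_lt with h0 | h0
  · have e1 : nm x = x.c0 ^ 3 + e.2 * (e.2 * a * a * x.c0 * x.c2 * x.c2 -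
        (a + a) * x.c0 * x.c0 * x.c2 + (x.c0 + x.c0 + x.c0) * x.c1 * x.c2 + a * x.c0 * x.c1 * x.c1 +
        e.2 * x.c2 * x.c2 * x.c2 - x.c1 * x.c1 * x.c1 - a * e.2 * x.c1 * x.c2 * x.c2) := by
      rw [nm, ha]
      ring
    rw [e1, ZEis_add (by rw [map_pow, h0, one_pow]) hb, ← exp_zero, exp_le_exp]
    · norm_num
    · rw [← Valuation.mem_integer_iff]
      repeat first | assumption | apply sub_mem | apply add_mem | apply mul_mem
  obtain ⟨y0, j0, hy0⟩ := ZEis_div h.2 h0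
  rcases (mem_Ov.1 hx).2.1.eq_or_lt with h1 | h1
  · have e1 : nm x = e.2 * (-x.c1 ^ 3 + e.2 * (e.2 * y0 * y0 * y0 - (a + a) * e.2 * y0 * y0 * x.c2 +
        a * a * e.2 * y0 * x.c2 * x.c2 + (y0 + y0 + y0) * x.c1 * x.c2 + a * y0 * x.c1 * x.c1 +
        x.c2 * x.c2 * x.c2 - a * x.c1 * x.c2 * x.c2)) := by
      rw [nm, ha, hy0]
      ring
    rw [e1, map_mul, ZEis_add (by rw [Valuation.map_neg, map_pow, h1, one_pow]) hb, mul_one, h.2,
      exp_le_exp]
    · norm_num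
    · rw [← Valuation.mem_integer_iff]
      repeat first | assumption | apply sub_mem | apply add_mem | apply mul_mem
  obtain ⟨y1, j1, hy1⟩ := ZEis_div h.2 h1
  have h2 : val v x.c2 = 1 :=
    (mem_Ov.1 hx).2.2.eq_or_lt.resolve_right fun h2 => hs ⟨h0, h1, h2⟩
  have e1 : nm x = e.2 * e.2 * (x.c2 ^ 3 + e.2 * (y0 * y0 * y0 - (a + a) * y0 * y0 * x.c2 +
      a * a * y0 * x.c2 * x.c2 + (y0 + y0 + y0) * y1 * x.c2 + a * e.2 * y0 * y1 * y1 -
      e.2 * y1 * y1 * y1 - a * y1 * x.c2 * x.c2)) := by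
    rw [nm, ha, hy0, hy1]
    ring
  rw [e1, map_mul, ZEis_add (by rw [map_pow, h2, one_pow]) hb, mul_one, map_mul, h.2, ← exp_add,
    exp_le_exp]
  · norm_num
  · rw [← Valuation.mem_integer_iff]
    repeat first | assumption | apply sub_mem | apply add_mem | apply mul_mem

/-- otherwise `exists_prim` gives `c` with `val v c < 1` (if `1 ≤ val v c` then
`x = c⁻¹ • c • x ∈ Ov`), and `val v (nm (c • x)) ≤ exp (-3)` (`nm_smul`) -/
theorem Eis.mem_Ov (h : Eis e v) {x : Cub e k} (hx : val v (nm x) ≤ 1) : x ∈ Ov e v := by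
  by_cases h0 : x = 0
  · rw [h0]
    exact zero_mem _
  obtain ⟨c, hc, h1, h2⟩ := exists_prim v h0
  rcases le_or_gt 1 (val v c) with h3 | h3
  · rw [← inv_smul_smul₀ hc x]
    exact smul_mem_Ov (by rw [map_inv₀]; exact inv_le_one_of_one_le₀ h3) h1
  · exfalso
    have h4 := h.val_nm_prim h1 h2
    rw [nm_smul, map_mul, map_pow] at h4
    have h5 : val v c ^ 3 ≤ exp (-1 : ℤ) ^ 3 := pow_le_pow_left' (val_le_exp h3) 3
    have h6 := (h4.trans (mul_le_of_le_one_right' hx)).trans h5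
    rw [← exp_nsmul, exp_le_exp] at h6
    norm_num at h6

/-- `nm θ = -B` has valuation `exp (-1)`; `val v (nm d) = exp (2 m)`, take `z = θ ^ m` (integer
power of the unit `θ`), `mem_usv` -/
theorem Eis.auto (h : Eis e v) : Auto e v := by
  rintro d ⟨ν, hν⟩
  have hν0 : ν ≠ 0 := by
    rintro rfl
    exact nm_ne_zero d (by rw [hν]; norm_num)
  obtain ⟨m, hm⟩ := ZEis_exp (v := v) hν0
  have hth : val v (nm (th : Cub e k)) = exp (-1 : ℤ) := by
    have e1 : nm (th : Cub e k) = -(e.2 : k) := by simp [nm]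
    rw [e1, Valuation.map_neg, h.2]
  have hu : IsUnit (th : Cub e k) := isUnit_iff.2 fun h0 => by
    rw [h0, map_zero] at hth
    exact exp_ne_zero hth.symm
  let φ : (Cub e k)ˣ →* ℤᵐ⁰ :=
    (val v : k →* ℤᵐ⁰).comp ((nmHom e k).comp (Units.coeHom (Cub e k)))
  have hφ : ∀ u : (Cub e k)ˣ, φ u = val v (nm (u : Cub e k)) := fun _ => rfl
  have h1 : val v (nm ((d * (hu.unit ^ m) ^ 2 : (Cub e k)ˣ) : Cub e k)) = 1 := by
    rw [← hφ, map_mul, map_pow, map_zpow, hφ, hφ, hν, IsUnit.unit_spec, hth, map_pow, hm, ← mul_pow,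
      ← exp_zsmul, ← exp_add]
    simp
  exact mem_usv.2 ⟨hu.unit ^ m, h.mem_Ov h1.le, h1⟩

/-- `exists_redAt_zmod`, `ff_noroot`: a primitive element has unit norm.  With `c • d` primitive,
`val v c ^ 3 * val v ν ^ 2 = 1`, so `val v c = exp (-2 m)` is the valuation of `(π ^ m) ^ 2`, and
`z = π ^ m` (as a scalar unit) works. -/
theorem auto_of_noroot {p : ℕ} (hp : p.Prime) (hv : val v (p : k) < 1) (h1 : Res1 v)
    (h : ∀ r : ZMod p, fv e r ≠ 0) : Auto e v := by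
  have : Fact p.Prime := ⟨hp⟩
  obtain ⟨ρ, hρ⟩ := exists_redAt_zmod hp hv h1
  rintro d ⟨ν, hν⟩
  have hν0 : ν ≠ 0 := by
    rintro rfl
    exact nm_ne_zero d (by rw [hν]; norm_num)
  have hd : (d : Cub e k) ≠ 0 := fun h0 => nm_ne_zero d (by rw [h0]; simp [nm])
  obtain ⟨c, hc, h2, h3⟩ := exists_prim v hd
  have h4 : val v (nm (c • (d : Cub e k))) = 1 := by
    refine (val_nm_le h2).eq_or_lt.resolve_right fun h4 => ?_
    refine ff_noroot h (fun h5 => h3 ((hρ.rdC_eq_zero h2).1 h5)) ?_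
    rw [nm_rdC ρ h2]
    exact (hρ.rd_eq_zero (val_nm_le h2)).2 h4
  obtain ⟨n, hn⟩ := ZEis_exp (v := v) hν0
  obtain ⟨a, ha⟩ := ZEis_exp (v := v) hc
  have h5 : 3 * a + 2 * n = 0 := by
    have h5 := h4
    rw [nm_smul, hν, map_mul, map_pow, map_pow, hn, ha, ← exp_nsmul, ← exp_nsmul, ← exp_add,
      ← exp_zero, exp_inj] at h5
    simpa using h5
  obtain ⟨π, hπ⟩ := exists_unif v
  have hπ0 : π ≠ 0 := by
    rintro rfl
    rw [map_zero] at hπ
    exact exp_ne_zero hπ.symm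
  have h6 : val v ((π ^ (a + n)) ^ 2 / c) = 1 := by
    rw [map_div₀, map_pow, map_zpow₀, hπ, ha, ← exp_zsmul, ← exp_nsmul, ← exp_sub, ← exp_zero,
      exp_inj]
    simp only [smul_eq_mul, nsmul_eq_mul]
    push_cast
    omega
  let z : (Cub e k)ˣ := Units.map (algebraMap k (Cub e k) : k →* Cub e k)
    (Units.mk0 (π ^ (a + n)) (zpow_ne_zero _ hπ0))
  have h7 : ((d * z ^ 2 : (Cub e k)ˣ) : Cub e k) =
      ((π ^ (a + n)) ^ 2 / c) • c • (d : Cub e k) := by
    have hz : (z : Cub e k) = algebraMap k (Cub e k) (π ^ (a + n)) := rfl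
    rw [Units.val_mul, Units.val_pow_eq_pow_val, hz, ← map_pow, smul_smul, div_mul_cancel₀ _ hc,
      Algebra.smul_def, mul_comm]
  refine mem_usv.2 ⟨z, ?_, ?_⟩
  · rw [h7]
    exact smul_mem_Ov h6.le h2
  · rw [h7, nm_smul, map_mul, map_pow, h6, h4, one_pow, one_mul]

theorem eis2_of (hv : val v (2 : k) = exp (-1 : ℤ)) (hA : 4 ∣ e.1) (hB : 4 ∣ e.2 - 2) :
    Eis2 e v := by
  obtain ⟨a, ha⟩ := hA
  obtain ⟨b, hb⟩ := hB
  refine ⟨hv, ?_, ?_⟩
  · have e1 : (e.1 : k) = 2 * 2 * a := by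
      rw [ha]
      push_cast
      ring
    rw [e1, map_mul, map_mul, hv, ← exp_add]
    exact (mul_le_of_le_one_right' (val_int_le v a)).trans (by norm_num)
  · have e1 : (e.2 : k) = 2 * (1 + 2 * b) := by
      rw [eq_add_of_sub_eq hb]
      push_cast
      ring
    rw [e1, map_mul, ZEis_add (map_one _) (hv ▸ ZEis_lt) (val_int_le v b), mul_one, hv]

theorem eis_of {p : ℕ} (hp : p.Prime) (hv : val v (p : k) = exp (-1 : ℤ)) (hA : (p : ℤ) ∣ e.1)
    (hB : (p : ℤ) ^ 2 ∣ e.2 - p) : Eis e v := by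
  obtain ⟨a, ha⟩ := hA
  obtain ⟨b, hb⟩ := hB
  constructor
  · have e1 : (e.1 : k) = p * a := by
      rw [ha]
      push_cast
      ring
    rw [e1]
    exact lociso_mul_lt v (hv ▸ ZEis_lt) (val_int_le v a)
  · have e1 : (e.2 : k) = p * (1 + p * b) := by
      rw [eq_add_of_sub_eq hb]
      push_cast
      ring
    rw [e1, map_mul, ZEis_add (map_one _) (hv ▸ ZEis_lt) (val_int_le v b), mul_one, hv]

end Pool.Agent.Lib.MP_775b3b_nt
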