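import Pool.Agent.Lib.MP_775b3b_nt.ZPt
import Pool.Agent.Lib.MP_775b3b_nt.ZEis
import Pool.Agent.Lib.MP_775b3b_nt.Step

/-! The Kummer map when the cubic is irreducible. -/

namespace Pool.Agent.Lib.MP_775b3b_nt

open Cub MP_439fea_co WithZero WeierstrassCurve WeierstrassCurve.Affine

variable {e : ℤ × ℤ}

/-- the cubic algebra is a field -/
def Dom (e : ℤ × ℤ) (k : Type*) [Field k] : Prop := ∀ x : Cub e k, x ≠ 0 → nm x ≠ 0

theorem Eis.dom {k : Type} [Field k] [NumberField k] {v : P k} (h : Eis e v) : Dom e k := by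
  intro x hx h0
  obtain ⟨c, -, h1, h2⟩ := exists_prim v hx
  have h3 := h.val_nm_prim h1 h2
  rw [nm_smul, h0, mul_zero, map_zero] at h3
  exact exp_ne_zero (le_zero_iff.1 h3)

theorem Dom.down {k k' : Type*} [Field k] [Field k'] (φ : k →+* k') (h : Dom e k') : Dom e k := by
  intro x hx h0
  refine h (map φ x) (fun h1 => hx (map_injective φ.injective (by rw [h1, map_zero]))) ?_
  rw [nm_map, h0, map_zero]

theorem Dom.sq_desc {k k' : Type*} [Field k] [Field k'] [CharZero k'] [Algebra k k'] (h : Dom e k')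
    (σ : k' →+* k') (hfix : ∀ x, σ x = x ↔ ∃ y, algebraMap k k' y = x) {x : (Cub e k)ˣ}
    (hn : x ∈ nsq e k) (hx : uz e (algebraMap k k') x ∈ SQ e k') : x ∈ SQ e k := by
  obtain ⟨z, hz⟩ := hx
  obtain ⟨ν, hν⟩ := hn
  have hfx : ∀ y, σ (algebraMap k k' y) = algebraMap k k' y := fun y => (hfix _).2 ⟨y, rfl⟩
  have h0 : map (algebraMap k k') (x : Cub e k) = z * z := congrArg Units.val hz
  have h1 : map σ (z : Cub e k') * map σ (z : Cub e k') = z * z := by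
    rw [← map_mul, ← h0]
    ext <;> simp [hfx]
  have h2 : σ (nm (z : Cub e k')) = nm (z : Cub e k') := by
    have h3 : nm (z : Cub e k') ^ 2 = algebraMap k k' ν ^ 2 := by
      rw [sq, ← nm_mul, ← h0, nm_map, hν, map_pow]
    rcases sq_eq_sq_iff_eq_or_eq_neg.1 h3 with h4 | h4
    · rw [h4, hfx]
    · rw [h4, map_neg, hfx]
  have h3 : map σ (z : Cub e k') + z ≠ 0 := fun h4 => by
    rw [← nm_map, eq_neg_of_add_eq_zero_left h4, nm_neg] at h2
    exact nm_ne_zero z (by linear_combination (-1 / 2 : k') * h2)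
  have h4 : map σ (z : Cub e k') = z := by
    refine sub_eq_zero.1 ((isUnit_iff.2 (h _ h3)).mul_right_eq_zero.1 ?_)
    linear_combination h1
  obtain ⟨z₀, h5⟩ := step_fixed σ hfix h4
  refine ⟨z₀, Units.ext (map_injective (algebraMap k k').injective ?_)⟩
  rw [h0, ← h5, Units.val_mul, map_mul]
  rfl

section Kum

variable {F : Type} [Field F]

theorem Dom.unit (h : Dom e F) {D : F} (hD : D ≠ 0) (x : F) :
    IsUnit (algebraMap F (Cub e F) x - D • th) :=
  isUnit_iff.2 (h _ fun h0 => hD (by simpa using congrArg Cub.c1 h0))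

theorem nm_linD (x D : F) : nm (algebraMap F (Cub e F) x - D • th) =
    x ^ 3 + (e.1 : F) * D ^ 2 * x + (e.2 : F) * D ^ 3 := by
  simp [nm]
  ring

open Classical in
/-- the unit `x - D θ` -/
noncomputable def lu (e : ℤ × ℤ) (D x : F) : (Cub e F)ˣ :=
  if h : IsUnit (algebraMap F (Cub e F) x - D • th) then h.unit else 1

theorem Dom.lu_val (h : Dom e F) {D : F} (hD : D ≠ 0) (x : F) :
    (lu e D x : Cub e F) = algebraMap F (Cub e F) x - D • th := by
  rw [lu, dif_pos (h.unit hD x), IsUnit.unit_spec]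

/-- the class of a point -/
noncomputable def kum (e : ℤ × ℤ) (D : F) {W : Affine F} : W.Point → (Cub e F)ˣ ⧸ SQ e F
  | .zero => 1
  | .some x _ _ => (lu e D x : (Cub e F)ˣ)

theorem cls_sq (a : (Cub e F)ˣ ⧸ SQ e F) : a * a = 1 := by
  obtain ⟨a, rfl⟩ := QuotientGroup.mk_surjective a
  rw [← QuotientGroup.mk_mul, QuotientGroup.eq_one_iff]
  exact ⟨a, rfl⟩

theorem cls_three {a b c : (Cub e F)ˣ} {t : Cub e F} (h : (a : Cub e F) * b * c = t ^ 2) :
    (c : (Cub e F)ˣ ⧸ SQ e F) = a * b := by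
  have h1 : IsUnit t := (isUnit_pow_iff two_ne_zero).1 (h ▸ (a * b * c).isUnit)
  have h2 : ((a * b * c : (Cub e F)ˣ) : (Cub e F)ˣ ⧸ SQ e F) = 1 :=
    (QuotientGroup.eq_one_iff _).2 ⟨h1.unit, Units.ext (by simpa [sq] using h)⟩
  rw [QuotientGroup.mk_mul, QuotientGroup.mk_mul] at h2
  rw [eq_inv_of_mul_eq_one_right h2, eq_comm, eq_inv_iff_mul_eq_one, cls_sq]

theorem pt_line {x₁ y₁ x₂ l D : F}
    (h₁ : y₁ ^ 2 = x₁ ^ 3 + (e.1 : F) * D ^ 2 * x₁ + (e.2 : F) * D ^ 3)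
    (hA : (e.1 : F) * D ^ 2 - (x₁ * x₂ + (x₁ + x₂) * (l ^ 2 - x₁ - x₂)) = 2 * l * (y₁ - l * x₁)) :
    (algebraMap F (Cub e F) x₁ - D • th) * (algebraMap F (Cub e F) x₂ - D • th) *
      (algebraMap F (Cub e F) (l ^ 2 - x₁ - x₂) - D • th) =
        (⟨y₁ - l * x₁, l * D, 0⟩ : Cub e F) ^ 2 := by
  ext
  · simp [sq]
    linear_combination -h₁ - x₁ * hA
  · simp [sq]
    linear_combination D * hA
  · simp [sq]
    ring

variable [CharZero F] [DecidableEq F] {D : ℤ} {W : Affine F}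

omit [CharZero F] [DecidableEq F] in
theorem tw_eqn {x y : F} (h : (crv (tw e D) F).toAffine.Equation x y) :
    y ^ 2 = x ^ 3 + (e.1 : F) * (D : F) ^ 2 * x + (e.2 : F) * (D : F) ^ 3 := by
  simpa [tw] using pt_eqn.1 h

omit [DecidableEq F] in
theorem Dom.y_ne (h : Dom e F) (hD : D ≠ 0) {x y : F}
    (h1 : (crv (tw e D) F).toAffine.Equation x y) : y ≠ 0 := fun h0 =>
  isUnit_iff.1 (h.unit (Int.cast_ne_zero.2 hD) x) (by rw [nm_linD, ← tw_eqn h1, h0]; simp)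

theorem Dom.kum_add (h : Dom e F) (hD : D ≠ 0) (hW : W = (crv (tw e D) F).toAffine)
    (R R' : W.Point) : kum e (D : F) (R + R') = kum e (D : F) R * kum e (D : F) R' := by
  subst hW
  have hD' : (D : F) ≠ 0 := Int.cast_ne_zero.2 hD
  rcases R with _ | ⟨x₁, y₁, h₁⟩
  · exact (congrArg _ (zero_add R')).trans (one_mul _).symm
  rcases R' with _ | ⟨x₂, y₂, h₂⟩
  · exact (congrArg _ (add_zero _)).trans (mul_one _).symm
  have e₁ := tw_eqn h₁.1
  have e₂ := tw_eqn h₂.1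
  by_cases hxy : x₁ = x₂ ∧ y₁ = (crv (tw e D) F).toAffine.negY x₂ y₂
  · rw [Point.add_of_Y_eq hxy.1 hxy.2]
    obtain ⟨rfl, -⟩ := hxy
    exact (cls_sq _).symm
  rw [Point.add_some hxy]
  refine cls_three (t := ⟨y₁ - (crv (tw e D) F).toAffine.slope x₁ x₂ y₁ y₂ * x₁,
    (crv (tw e D) F).toAffine.slope x₁ x₂ y₁ y₂ * D, 0⟩) ?_
  rw [h.lu_val hD', h.lu_val hD', h.lu_val hD', pt_addX]
  refine pt_line e₁ ?_
  by_cases hx : x₁ = x₂
  · subst hx
    have hy : y₁ ≠ (crv (tw e D) F).toAffine.negY x₁ y₂ := fun h0 => hxy ⟨rfl, h0⟩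
    have h3 : y₁ ≠ 0 := h.y_ne hD h₁.1
    obtain rfl := Y_eq_of_Y_ne h₁.1 h₂.1 rfl hy
    rw [slope_of_Y_ne rfl hy, pt_negY]
    simp only [tw, sub_neg_eq_add, ← two_mul]
    push_cast
    field_simp
    ring
  · have hx' : x₁ - x₂ ≠ 0 := sub_ne_zero.2 hx
    have hl : (crv (tw e D) F).toAffine.slope x₁ x₂ y₁ y₂ * (x₁ - x₂) = y₁ - y₂ := by
      rw [slope_of_X_ne hx, div_mul_cancel₀ _ hx']
    generalize (crv (tw e D) F).toAffine.slope x₁ x₂ y₁ y₂ = l at hl ⊢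
    obtain rfl : y₂ = y₁ - l * (x₁ - x₂) := by linear_combination hl
    apply mul_left_cancel₀ hx'
    linear_combination e₂ - e₁

theorem Dom.two_tors (h : Dom e F) (hD : D ≠ 0) (hW : W = (crv (tw e D) F).toAffine)
    {R : W.Point} (h2 : 2 • R = 0) : R = 0 := by
  subst hW
  rcases R with _ | ⟨x, y, h₁⟩
  · rfl
  rw [two_nsmul, add_eq_zero_iff_eq_neg, Point.neg_some, Point.some.injEq, pt_negY] at h2
  exact absurd (by linear_combination (1 / 2 : F) * h2.2) (h.y_ne hD h₁.1)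

theorem Dom.half (h : Dom e F) (he : disc e ≠ 0) (hD : D ≠ 0) (hW : W = (crv (tw e D) F).toAffine)
    {R : W.Point} (h1 : kum e (D : F) R = 1) : ∃ Q : W.Point, 2 • Q = R := by
  subst hW
  have hd' : (D : F) ≠ 0 := Int.cast_ne_zero.2 hD
  rcases R with _ | ⟨x, y, hn⟩
  · exact ⟨0, nsmul_zero 2⟩
  obtain ⟨z, hz⟩ := (QuotientGroup.eq_one_iff _).1 h1
  have h2 := congrArg Units.val hz
  rw [h.lu_val hd', Units.val_mul] at h2
  have hinj : Function.Injective (twHom e D F) := fun a b hab => by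
    ext
    · exact (congrArg Cub.c0 hab :)
    · exact mul_left_cancel₀ hd' (congrArg Cub.c1 hab)
    · exact mul_left_cancel₀ (pow_ne_zero 2 hd') (congrArg Cub.c2 hab)
  have h3 : twHom e D F ⟨(z : Cub e F).c0, (z : Cub e F).c1 / D, (z : Cub e F).c2 / D ^ 2⟩ = z := by
    ext
    · rfl
    · exact mul_div_cancel₀ _ hd'
    · exact mul_div_cancel₀ _ (pow_ne_zero 2 hd')
  exact exists_half (by rw [disc_tw]; exact mul_ne_zero (pow_ne_zero 6 hD) he) hn
    (s := ⟨(z : Cub e F).c0, (z : Cub e F).c1 / D, (z : Cub e F).c2 / D ^ 2⟩)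
    (hinj (by rw [zpt_lin, map_pow, h3, h2, sq]))

end Kum

end Pool.Agent.Lib.MP_775b3b_nt
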