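import Pool.Agent.Lib.MP_775b3b_nt.ZDefs
import Pool.Agent.Lib.MP_775b3b_nt.Pt

/-! Eigenvectors in the Mordell–Weil group and equivariant maps. -/

namespace Pool.Agent.Lib.MP_775b3b_nt

open WeierstrassCurve WeierstrassCurve.Affine TensorProduct

theorem tensor_eq_zero {M N ι : Type*} [AddCommGroup M] [AddCommGroup N] [Finite ι]
    (f : ι → M →ₗ[ℤ] N) (h : {x | ∀ i, f i x = 0}.Finite) {v : ℂ ⊗[ℤ] M}
    (hv : ∀ i, (f i).baseChange ℂ v = 0) : v = 0 := by
  classical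
  have := Fintype.ofFinite ι
  have h1 : ∀ (u : ℂ ⊗[ℤ] M) i, piRight ℤ ℂ ℂ (fun _ : ι => N) ((LinearMap.pi f).lTensor ℂ u) i =
      (f i).baseChange ℂ u := fun u i => by
    induction u using TensorProduct.induction_on with
    | zero => simp
    | tmul a x => simp
    | add a b ha hb => rw [map_add, map_add, map_add, Pi.add_apply, ha, hb]
  have h2 : (LinearMap.pi f).lTensor ℂ v = 0 :=
    (piRight ℤ ℂ ℂ fun _ : ι => N).injective (funext fun i => by rw [h1, hv, map_zero]; rfl)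
  obtain ⟨u, rfl⟩ := (Module.Flat.lTensor_exact ℂ
    (LinearMap.exact_subtype_ker_map (LinearMap.pi f)) v).1 h2
  have : Finite (LinearMap.ker (LinearMap.pi f)) :=
    h.subset fun x hx i => congrFun (LinearMap.mem_ker.1 hx) i
  have h3 : (Nat.card (LinearMap.ker (LinearMap.pi f)) : ℂ) ≠ 0 := Nat.cast_ne_zero.2 Nat.card_pos.ne'
  have h4 : ∀ u : ℂ ⊗[ℤ] (LinearMap.ker (LinearMap.pi f)), u = 0 := fun u => by
    induction u using TensorProduct.induction_on with
    | zero => rfl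
    | tmul a x =>
      rw [← mul_div_cancel₀ a h3, ← nsmul_eq_mul, ← natCast_zsmul, smul_tmul, natCast_zsmul,
        card_nsmul_eq_zero', tmul_zero]
    | add a b ha hb => rw [ha, hb, add_zero]
  rw [h4 u, map_zero]

theorem intertw_eq_zero {G M W : Type*} [Monoid G] [Finite G] [AddCommGroup M] [AddCommGroup W]
    [Module ℂ W] (a : G → M →+ M) (Γ : Set G) (ε : ℤ) (h : {x | ∀ γ ∈ Γ, a γ x = ε • x}.Finite)
    {ρ : Representation ℂ G W} (hρ : ρ.IsIrreducible) {w : W} (h0 : w ≠ 0)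
    (hw : ∀ γ ∈ Γ, ρ γ w = (ε : ℂ) • w) {T : W →ₗ[ℂ] ℂ ⊗[ℤ] M}
    (hT : ∀ g w, T (ρ g w) = (a g).toIntLinearMap.baseChange ℂ (T w)) : T = 0 := by
  have h1 : T w = 0 := tensor_eq_zero
    (fun γ : Γ => (a γ).toIntLinearMap - ε • LinearMap.id)
    (h.subset fun x hx γ hγ => by simpa [sub_eq_zero] using hx ⟨γ, hγ⟩) fun γ => by
      rw [LinearMap.baseChange_sub, LinearMap.baseChange_smul, LinearMap.baseChange_id,
        LinearMap.sub_apply, ← hT, hw γ γ.2, map_smul, LinearMap.smul_apply, LinearMap.id_apply,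
        Int.cast_smul_eq_zsmul, sub_self]
  let U : Subrepresentation ρ := ⟨LinearMap.ker T, fun g v hv => by
    rw [LinearMap.mem_ker] at hv ⊢
    rw [hT, hv, map_zero]⟩
  rcases eq_bot_or_eq_top U with h2 | h2
  · have h3 : w ∈ U.toSubmodule := h1
    rw [h2] at h3
    exact absurd h3 h0
  · exact LinearMap.ker_eq_top.1 (congrArg Subrepresentation.toSubmodule h2)

/-- coordinates of a point -/
def crd {k : Type*} [Field k] {W : Affine k} : W.Point → Option (k × k)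
  | .zero => none
  | .some x y _ => some (x, y)

theorem crd_inj {k : Type*} [Field k] {W : Affine k} : Function.Injective (crd (W := W)) := by
  rintro (_ | _) (_ | _) h
  · rfl
  · cases h
  · cases h
  · cases h
    rfl

theorem eigen_finite {L F : Type*} [Field L] [CharZero L] [Field F] [CharZero F] [DecidableEq F]
    (ι : L →+* F) {e : ℤ × ℤ} (he : disc e ≠ 0) {δ : ℤ} {β : F} (hβ : β ^ 2 = δ) (h0 : β ≠ 0)
    (Γ : Set (F ≃ₐ[ℚ] F)) (ε : ℤˣ) (h1 : ∀ γ ∈ Γ, γ β = ((ε : ℤ) : F) * β)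
    (h2 : ∀ x : F, (∀ γ ∈ Γ, γ x = x) → ∃ y, ι y = x) (h : Finite (crv e L).toAffine.Point) :
    {R : ((crv (tw e δ) ℚ).toAffine⁄F).Point |
      ∀ γ ∈ Γ, Point.map (γ : F →ₐ[ℚ] F) R = (ε : ℤ) • R}.Finite := by
  have := crv_isElliptic (F := L) he
  refine Set.Finite.of_finite_image ((Set.finite_range fun Q : (crv e L).toAffine.Point =>
    (crd Q).map fun p => (β ^ 2 * ι p.1, β ^ 3 * ι p.2)).subset ?_) crd_inj.injOn
  rintro _ ⟨_ | ⟨x, y, hxy⟩, hR, rfl⟩
  · exact ⟨0, rfl⟩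
  have h3 : ∀ γ ∈ Γ, γ x = x ∧ γ y = ((ε : ℤ) : F) * y := fun γ hγ => by
    have h4 := hR γ hγ
    rw [Point.map_some] at h4
    rcases Int.units_eq_one_or ε with rfl | rfl
    · simpa using h4
    · rw [Units.val_neg, Units.val_one, neg_one_zsmul, Point.neg_some] at h4
      simpa [negY, Affine.baseChange, WeierstrassCurve.baseChange] using h4
  have hε : ((ε : ℤ) : F) ^ 2 = 1 := by
    rcases Int.units_eq_one_or ε with rfl | rfl <;> simp
  have hε0 : ((ε : ℤ) : F) ≠ 0 := Int.cast_ne_zero.2 ε.ne_zero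
  obtain ⟨a, ha⟩ := h2 (x / β ^ 2) fun γ hγ => by
    rw [map_div₀, map_pow, (h3 γ hγ).1, h1 γ hγ, mul_pow, hε, one_mul]
  obtain ⟨b, hb⟩ := h2 (y / β ^ 3) fun γ hγ => by
    rw [map_div₀, map_pow, (h3 γ hγ).2, h1 γ hγ, mul_pow, pow_succ _ 2, hε, one_mul,
      mul_div_mul_left _ _ hε0]
  have h5 : y ^ 2 = x ^ 3 + (e.1 : F) * (β ^ 2) ^ 2 * x + (e.2 : F) * (β ^ 2) ^ 3 := by
    simpa [equation_iff, tw, hβ, Affine.baseChange, WeierstrassCurve.baseChange] using hxy.1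
  have h6 : (crv e L).toAffine.Nonsingular a b := equation_iff_nonsingular.1 (pt_eqn.2 (ι.injective (by
    rw [map_pow, map_add, map_add, map_mul, map_pow, map_intCast, map_intCast, ha, hb]
    field_simp
    linear_combination h5)))
  refine ⟨.some a b h6, ?_⟩
  simp only [crd, Option.map_some, ha, hb]
  rw [mul_div_cancel₀ _ (pow_ne_zero 2 h0), mul_div_cancel₀ _ (pow_ne_zero 3 h0)]

end Pool.Agent.Lib.MP_775b3b_nt
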