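import Pool.Agent.Lib.MP_775b3b_nt.ZDefs
import Pool.Agent.Lib.MP_775b3b_nt.Om2

/-! From the boxes to the curves ordered by height. -/

namespace Pool.Agent.Lib.MP_775b3b_nt

/-- `p^4 ∣ A d^2`, `p^6 ∣ B d^3` and `p^2 ∤ d` give `p^2 ∣ A`, `p^3 ∣ B`, so `p^2 ∣ B` and
`p^2 ∣ disc e` -/
theorem tw_minimal {e : ℤ × ℤ} {d : ℕ} (hd : Squarefree d)
    (h : ∀ p : ℕ, p.Prime → ¬ (p : ℤ) ^ 2 ∣ e.2 ∨ ¬ (p : ℤ) ^ 2 ∣ disc e) (p : ℕ) (hp : p.Prime) :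
    ¬ ((p : ℤ) ^ 4 ∣ (tw e d).1 ∧ (p : ℤ) ^ 6 ∣ (tw e d).2) := by
  rintro ⟨h1, h2⟩
  have hq : Prime (p : ℤ) := Nat.prime_iff_prime_int.1 hp
  obtain ⟨n, hn, hn'⟩ : ∃ n : ℕ, ¬ p ∣ n ∧ d ∣ p * n := by
    by_cases h0 : p ∣ d
    · obtain ⟨n, rfl⟩ := h0
      exact ⟨n, fun h3 => hp.prime.not_isUnit (hd p (mul_dvd_mul_left p h3)), dvd_rfl⟩
    · exact ⟨d, h0, dvd_mul_left _ _⟩
  have h3 : (d : ℤ) ∣ p * n := by exact_mod_cast hn'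
  have h4 : ∀ j, ¬ (p : ℤ) ∣ (n : ℤ) ^ j := fun j h =>
    hn (by exact_mod_cast hq.dvd_of_dvd_pow h)
  have hA : (p : ℤ) ^ 2 ∣ e.1 := hq.pow_dvd_of_dvd_mul_right 2 (h4 2)
    ((mul_dvd_mul_iff_left (pow_ne_zero 2 hq.ne_zero)).1 (by
      convert h1.trans (mul_dvd_mul_left e.1 (pow_dvd_pow_of_dvd h3 2)) using 1 <;> ring))
  have hB : (p : ℤ) ^ 2 ∣ e.2 := (pow_dvd_pow _ (by norm_num)).trans
    (hq.pow_dvd_of_dvd_mul_right 3 (h4 3)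
      ((mul_dvd_mul_iff_left (pow_ne_zero 3 hq.ne_zero)).1 (by
        convert h2.trans (mul_dvd_mul_left e.2 (pow_dvd_pow_of_dvd h3 3)) using 1 <;> ring)))
  exact (h p hp).elim (fun h => h hB) fun h => h (dvd_add
    ((hA.trans (dvd_pow_self _ three_ne_zero)).mul_left _)
    ((hB.trans (dvd_pow_self _ two_ne_zero)).mul_left _))

open Classical in
/-- Let `T'` be the least natural number with `X ≤ T'^6`, so `S ⊆ box T'`, `card S ≤ 9 T'^5`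
(`card_box_le`) and `(T' - 1)^6 < X`.  Put `T = (T' - 1) / (2 m)`; for `e ∈ box T` and `1 ≤ d ≤ m`
the twist has height `≤ 27 (m T)^6 < X`, discriminant `d^6 disc e ≠ 0`.  The map
`e ↦ (d e, tw e (d e))` is injective, so `card E ≤ m * card (S.filter r)`; `T ≥ T' / (8 m)` for
large `X`. -/
theorem density (r : ℤ × ℤ → Prop) {m : ℕ} {c : ℝ} (hc : 0 < c) {T₀ : ℕ}
    (h : ∀ T : ℕ, T₀ ≤ T → ∃ E ⊆ box T, c * (T : ℝ) ^ 5 ≤ E.card ∧ ∀ e ∈ E, ∃ d : ℕ, 1 ≤ d ∧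
      d ≤ m ∧ r (tw e d) ∧
      ∀ p : ℕ, p.Prime → ¬ ((p : ℤ) ^ 4 ∣ (tw e d).1 ∧ (p : ℤ) ^ 6 ∣ (tw e d).2)) :
    ∃ c' : ℝ, 0 < c' ∧ ∃ X₀ : ℝ, ∀ X : ℝ, X₀ ≤ X → ∀ S : Finset (ℤ × ℤ),
      (∀ e : ℤ × ℤ, e ∈ S ↔ 4 * e.1 ^ 3 + 27 * e.2 ^ 2 ≠ 0 ∧
        (∀ p : ℕ, p.Prime → ¬ ((p : ℤ) ^ 4 ∣ e.1 ∧ (p : ℤ) ^ 6 ∣ e.2)) ∧
        ((max (4 * |e.1| ^ 3) (27 * e.2 ^ 2) : ℤ) : ℝ) < X) →
      c' * S.card ≤ (S.filter r).card := by
  refine ⟨c / ((m + 1) * (9 * (4 * (m + 1)) ^ 5)), by positivity,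
    ((2 * (m + 1) * (T₀ + 1) : ℕ) : ℝ) ^ 6 + 1, fun X hX S hS => ?_⟩
  have hex : ∃ n : ℕ, X ≤ ((2 * (m + 1) * n : ℕ) : ℝ) ^ 6 := by
    obtain ⟨n, hn⟩ := exists_nat_ge X
    refine ⟨n, hn.trans ?_⟩
    exact_mod_cast (Nat.le_mul_of_pos_left n (by positivity)).trans (Nat.le_self_pow (by norm_num) _)
  have h1 : T₀ + 1 < Nat.find hex := (Nat.lt_find_iff _ _).2 fun n hn => not_le.2
    ((pow_le_pow_left₀ (Nat.cast_nonneg _) (Nat.cast_le.2 (Nat.mul_le_mul_left _ hn)) 6).trans_lt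
      (by linarith))
  obtain ⟨T, hT⟩ : ∃ T, Nat.find hex = T + 1 := ⟨_, (Nat.sub_add_cancel (by omega)).symm⟩
  have h2 := Nat.find_spec hex
  have h3 := not_le.1 (Nat.find_min hex (m := T) (by omega))
  rw [hT] at h1 h2
  have h4 : S ⊆ box (2 * (m + 1) * (T + 1)) := fun e he => by
    obtain ⟨h5, -, h6⟩ := (hS e).1 he
    generalize 2 * (m + 1) * (T + 1) = n at h2 ⊢
    have h7 : max (4 * |e.1| ^ 3) (27 * e.2 ^ 2) < (n : ℤ) ^ 6 := by exact_mod_cast h6.trans_le h2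
    obtain ⟨h8, h9⟩ := max_lt_iff.1 h7
    refine mem_box.2 ⟨le_of_pow_le_pow_left₀ three_ne_zero (by positivity) ?_,
      abs_le_of_sq_le_sq ?_ (by positivity), h5⟩
    · nlinarith [pow_nonneg (abs_nonneg e.1) 3]
    · nlinarith [sq_nonneg e.2]
  have h5 : (S.card : ℝ) ≤ 9 * (4 * (m + 1)) ^ 5 * T ^ 5 := by
    have h6 := (Finset.card_le_card h4).trans (card_box_le _ (Nat.succ_le_of_lt (by positivity)))
    have h7 : 2 * (m + 1) * (T + 1) ≤ 4 * (m + 1) * T := by nlinarith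
    have h8 := h6.trans (Nat.mul_le_mul_left 9 (Nat.pow_le_pow_left h7 5))
    rw [mul_pow, ← mul_assoc] at h8
    exact_mod_cast h8
  obtain ⟨E, hE, h6, h7⟩ := h T (by omega)
  choose! d d1 d2 d3 d4 using h7
  have h8 : E.card ≤ (Finset.range (m + 1) ×ˢ S.filter r).card := by
    refine Finset.card_le_card_of_injOn (fun e => (d e, tw e (d e))) (fun e he => ?_)
      fun e he e' he' hh => ?_
    · obtain ⟨a1, a2, a3⟩ := mem_box.1 (hE he)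
      have b0 : (0 : ℤ) < d e := by exact_mod_cast d1 e he
      have b1 : (d e : ℤ) ≤ m + 1 := by exact_mod_cast (d2 e he).trans m.le_succ
      refine Finset.mem_coe.2 (Finset.mem_product.2 ⟨Finset.mem_range.2 (Nat.lt_succ_of_le (d2 e he)),
        Finset.mem_filter.2 ⟨(hS _).2 ⟨?_, d4 e he, lt_of_le_of_lt ?_ h3⟩, d3 e he⟩⟩)
      · rw [show 4 * (tw e (d e)).1 ^ 3 + 27 * (tw e (d e)).2 ^ 2 = (d e : ℤ) ^ 6 * disc e by
          simp only [tw, disc]; ring]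
        exact mul_ne_zero (pow_ne_zero _ b0.ne') a3
      · have b2 : |(tw e (d e)).1| ^ 3 ≤ ((T : ℤ) ^ 2 * (m + 1) ^ 2) ^ 3 := by
          rw [tw, abs_mul, abs_pow, abs_of_pos b0]
          gcongr
        have b3 : (tw e (d e)).2 ^ 2 ≤ ((T : ℤ) ^ 3 * (m + 1) ^ 3) ^ 2 := by
          rw [← sq_abs, tw, abs_mul, abs_pow, abs_of_pos b0]
          gcongr
        have b4 : (0 : ℤ) ≤ ((m + 1) * T) ^ 6 := by positivity
        have b5 : max (4 * |(tw e (d e)).1| ^ 3) (27 * (tw e (d e)).2 ^ 2) ≤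
            (2 * (m + 1) * T : ℤ) ^ 6 := max_le (by nlinarith) (by nlinarith)
        exact_mod_cast b5
    · obtain ⟨a1, a2⟩ := Prod.ext_iff.1 hh
      have b0 : (d e' : ℤ) ≠ 0 := by exact_mod_cast Nat.ne_of_gt (d1 e' he')
      simp only [tw] at a1 a2
      rw [a1] at a2
      obtain ⟨a3, a4⟩ := Prod.ext_iff.1 a2
      exact Prod.ext (mul_right_cancel₀ (pow_ne_zero 2 b0) a3)
        (mul_right_cancel₀ (pow_ne_zero 3 b0) a4)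
  rw [Finset.card_product, Finset.card_range] at h8
  have h9 : (E.card : ℝ) ≤ (m + 1) * (S.filter r).card := by exact_mod_cast h8
  rw [div_mul_eq_mul_div, div_le_iff₀ (by positivity)]
  calc c * S.card ≤ c * (9 * (4 * (m + 1)) ^ 5 * T ^ 5) := by gcongr
    _ = c * T ^ 5 * (9 * (4 * (m + 1)) ^ 5) := by ring
    _ ≤ (m + 1) * (S.filter r).card * (9 * (4 * (m + 1)) ^ 5) :=
        mul_le_mul_of_nonneg_right (h6.trans h9) (by positivity)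
    _ = _ := by ring

end Pool.Agent.Lib.MP_775b3b_nt
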