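import Pool.Agent.Lib.MP_775b3b_nt.YD3
import Pool.Agent.Lib.MP_775b3b_nt.YRep2

/-! Subgroups of the Mordell–Weil group which are torsion. -/

namespace Pool.Agent.Lib.MP_775b3b_nt

open Cub WeierstrassCurve WeierstrassCurve.Affine TensorProduct

theorem ann_of_half {M : Type*} [AddCommGroup M] [Module.Finite ℤ M] (A : Submodule ℤ M)
    (h : ∀ R ∈ A, ∃ Q ∈ A, 2 • Q = R) : ∃ r : ℤ, r ≠ 0 ∧ ∀ R ∈ A, r • R = 0 := by
  obtain ⟨r, h1, h2⟩ := Submodule.exists_sub_one_mem_and_smul_eq_zero_of_fg_of_le_smul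
    (Ideal.span {(2 : ℤ)}) A (IsNoetherian.noetherian A) fun R hR => by
      obtain ⟨Q, hQ, rfl⟩ := h R hR
      rw [← natCast_zsmul]
      exact Submodule.smul_mem_smul (Ideal.mem_span_singleton_self _) hQ
  rw [Ideal.mem_span_singleton] at h1
  exact ⟨r, by omega, h2⟩

theorem tensor_eq_zero' {M N ι : Type*} [AddCommGroup M] [AddCommGroup N] [Finite ι]
    (f : ι → M →ₗ[ℤ] N) {r : ℤ} (hr : r ≠ 0) (h : ∀ x, (∀ i, f i x = 0) → r • x = 0)
    {v : ℂ ⊗[ℤ] M} (hv : ∀ i, (f i).baseChange ℂ v = 0) : v = 0 := by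
  classical
  have := Fintype.ofFinite ι
  have h1 : ∀ (u : ℂ ⊗[ℤ] M) i, piRight ℤ ℂ ℂ (fun _ : ι => N) ((LinearMap.pi f).lTensor ℂ u) i =
      (f i).baseChange ℂ u := fun u i => by
    induction u using TensorProduct.induction_on with
    | zero => simp
    | tmul a x => simp
    | add a b ha hb => rw [map_add, map_add, map_add, Pi.add_apply, ha, hb]
  have h2 : (LinearMap.pi f).lTensor ℂ v = 0 :=
    (piRight ℤ ℂ ℂ fun _ : ι => N).injective (funext fun i => by rw [h1, hv, map_zero]; rfl)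
  obtain ⟨u, rfl⟩ := (Module.Flat.lTensor_exact ℂ
    (LinearMap.exact_subtype_ker_map (LinearMap.pi f)) v).1 h2
  have h3 : (r : ℂ) ≠ 0 := Int.cast_ne_zero.2 hr
  have h4 : ∀ u : ℂ ⊗[ℤ] (LinearMap.ker (LinearMap.pi f)), u = 0 := fun u => by
    induction u using TensorProduct.induction_on with
    | zero => rfl
    | tmul a x =>
      rw [← mul_div_cancel₀ a h3, ← zsmul_eq_mul, smul_tmul, show r • x = 0 from
        Subtype.ext (h x fun i => congrFun (LinearMap.mem_ker.1 x.2) i), tmul_zero]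
    | add a b ha hb => rw [ha, hb, add_zero]
  rw [h4 u, map_zero]

/-- the elements all of whose translates under `H` are sent to eigenvectors are torsion -/
def Ann {G M : Type*} [Group G] [Fintype G] [AddCommGroup M] (act : G → M →+ M) (H : Subgroup G)
    (τ : G) (ε : ℤ) : Prop := ∀ a : G → ℤ, Odd (∑ g, a g) → ∃ r : ℤ, r ≠ 0 ∧ ∀ R : M,
      (∀ p ∈ H, act τ (∑ g, a g • act (g * p) R) = ε • ∑ g, a g • act (g * p) R) → r • R = 0

theorem Ann.eq_zero {G M W : Type*} [Group G] [Fintype G] [AddCommGroup M] [AddCommGroup W]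
    [Module ℂ W] {act : G → M →+ M} {H : Subgroup G} {τ : G} {ε : ℤ} (h : Ann act H τ ε)
    {ρ : Representation ℂ G W} (hρ : ρ.IsIrreducible) {w : W} {a : G → ℤ} (h0 : w ≠ 0)
    (ha : Odd (∑ g, a g)) (hw : ∀ p ∈ H, ρ τ (∑ g, (a g : ℂ) • ρ (g * p) w) =
      (ε : ℂ) • ∑ g, (a g : ℂ) • ρ (g * p) w) {T : W →ₗ[ℂ] ℂ ⊗[ℤ] M}
    (hT : ∀ g w, T (ρ g w) = (act g).toIntLinearMap.baseChange ℂ (T w)) : T = 0 := by
  obtain ⟨r, hr, h⟩ := h a ha
  have h1 : T w = 0 := tensor_eq_zero'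
    (fun p : H => ((act τ).toIntLinearMap - ε • LinearMap.id) ∘ₗ
      ∑ g, a g • (act (g * p)).toIntLinearMap) hr
    (fun x hx => h x fun p hp => by
      simpa only [LinearMap.comp_apply, LinearMap.sub_apply, LinearMap.sum_apply,
        LinearMap.smul_apply, LinearMap.id_apply, AddMonoidHom.coe_toIntLinearMap,
        sub_eq_zero] using hx ⟨p, hp⟩) fun p => by
      have h2 : (∑ g, a g • (act (g * p)).toIntLinearMap).baseChange ℂ (T w) =
          T (∑ g, (a g : ℂ) • ρ (g * p) w) := by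
        rw [← LinearMap.baseChangeHom_apply, map_sum, map_sum, LinearMap.sum_apply]
        refine Finset.sum_congr rfl fun g _ => ?_
        rw [map_smul, map_smul, hT, Int.cast_smul_eq_zsmul]
        rfl
      rw [LinearMap.baseChange_comp, LinearMap.comp_apply, h2, LinearMap.baseChange_sub,
        LinearMap.baseChange_smul, LinearMap.baseChange_id, LinearMap.sub_apply, ← hT, hw p p.2,
        map_smul, LinearMap.smul_apply, LinearMap.id_apply, Int.cast_smul_eq_zsmul, sub_self]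
  let U : Subrepresentation ρ := ⟨LinearMap.ker T, fun g v hv => by
    rw [LinearMap.mem_ker] at hv ⊢
    rw [hT, hv, map_zero]⟩
  rcases eq_bot_or_eq_top U with h2 | h2
  · have h3 : w ∈ U.toSubmodule := h1
    rw [h2] at h3
    exact absurd h3 h0
  · exact LinearMap.ker_eq_top.1 (congrArg Subrepresentation.toSubmodule h2)

variable {e : ℤ × ℤ} {L F : Type} [Field L] [Field F]

theorem Dom.uz_lu (h : Dom e F) (φ : L →+* F) {D : L} (hD : D ≠ 0) (x : L) :
    uz e φ (lu e D x) = lu e (φ D) (φ x) := Units.ext (by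
  rw [uz_val, (h.down φ).lu_val hD, h.lu_val ((map_ne_zero φ).2 hD), map_sub, map_algebraMap,
    map_smul', map_th])

theorem Dom.lu_tw (h : Dom e F) {d β : F} (hd : d ≠ 0) (hβ : β ≠ 0) (x : F) :
    (lu e (d * β ^ 2) x : (Cub e F)ˣ ⧸ SQ e F) = lu e d (x / β ^ 2) := by
  have h1 := cls_three (a := 1) (b := lu e d (x / β ^ 2)) (c := lu e (d * β ^ 2) x)
    (t := β • (lu e d (x / β ^ 2) : Cub e F)) (by
      have h2 : (lu e (d * β ^ 2) x : Cub e F) = β ^ 2 • (lu e d (x / β ^ 2) : Cub e F) := by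
        rw [h.lu_val hd, h.lu_val (mul_ne_zero hd (pow_ne_zero 2 hβ))]
        ext <;> simp <;> field_simp
      rw [h2, Units.val_one, one_mul, mul_smul_comm, smul_pow, sq (_ : Cub e F)])
  rwa [QuotientGroup.mk_one, one_mul] at h1

theorem mul_mem_SQ {a b : (Cub e F)ˣ} (h : (a : (Cub e F)ˣ ⧸ SQ e F) = b) : a * b ∈ SQ e F := by
  rw [← QuotientGroup.eq_one_iff, QuotientGroup.mk_mul, h, cls_sq]

variable [NumberField L] [NumberField F] [DecidableEq F]

/-- the Galois action on points -/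
noncomputable abbrev act (e : ℤ × ℤ) (g : F ≃ₐ[ℚ] F) :
    ((crv e ℚ).toAffine⁄F).Point →+ ((crv e ℚ).toAffine⁄F).Point := Point.map (g : F →ₐ[ℚ] F)

theorem act_mul (g g' : F ≃ₐ[ℚ] F) (R : ((crv e ℚ).toAffine⁄F).Point) :
    act e (g * g') R = act e g (act e g' R) := by
  cases R <;> rfl

omit [DecidableEq F] in
theorem crv_base : (crv e ℚ).toAffine⁄F = (crv e F).toAffine := by
  ext <;> simp [Affine.baseChange, WeierstrassCurve.baseChange]

theorem Dom.kum_act (h : Dom e F) {D : ℤ} (hD : D ≠ 0) (g : F ≃ₐ[ℚ] F)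
    {R : ((crv (tw e D) ℚ).toAffine⁄F).Point} {t : (Cub e F)ˣ} (ht : t = kum e (D : F) R) :
    uz e (g : F →+* F) t = kum e (D : F) (act _ g R) := by
  rcases R with _ | ⟨x, y, hxy⟩
  · exact (QuotientGroup.eq_one_iff _).2 (uz_mem_SQ _ ((QuotientGroup.eq_one_iff _).1 ht))
  · have h1 := uz_mem_SQ (g : F →+* F) (QuotientGroup.eq.1 ht)
    rw [map_mul, map_inv, h.uz_lu _ (Int.cast_ne_zero.2 hD), map_intCast] at h1
    exact QuotientGroup.eq.2 h1

theorem ann_of_kill {K : Type} [Field K] [NumberField K] [Algebra K F] [Algebra L F]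
    (he : disc e ≠ 0) (h : Dom e F) {d : ℕ} (hd : d ≠ 0) (hk : Kill K L F e d) {δ : ℤ} {β : F}
    (hβ : β ^ 2 = δ) (h0 : β ≠ 0) {H : Subgroup (F ≃ₐ[ℚ] F)}
    (hH : ∀ g : F ≃ₐ[K] F, g.restrictScalars ℚ ∈ H) {τ : F ≃ₐ[ℚ] F} {ε : ℤˣ}
    (h1 : τ β = ((ε : ℤ) : F) * β) (h2 : ∀ x, τ x = x → ∃ y, algebraMap L F y = x) :
    Ann (act (tw e (d * δ))) H τ ε := by
  intro a ha
  have hd' : (d : F) ≠ 0 := Nat.cast_ne_zero.2 hd
  have hD' : ((d * δ : ℤ) : F) = d * β ^ 2 := by rw [hβ, Int.cast_mul, Int.cast_natCast]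
  have hD : (d * δ : ℤ) ≠ 0 := Int.cast_ne_zero.1 (hD' ▸ mul_ne_zero hd' (pow_ne_zero 2 h0))
  have he' : disc (tw e (d * δ)) ≠ 0 := by
    rw [disc_tw]
    exact mul_ne_zero (pow_ne_zero 6 hD) he
  have : Module.Finite ℤ ((crv (tw e (d * δ)) ℚ).toAffine⁄F).Point := by
    have := crv_isElliptic (F := F) he'
    rw [crv_base]
    exact Module.Finite.iff_addGroup_fg.mpr (Pool.Agent.MP_651af7_nt.MW.fg (crv (tw e (d * δ)) F))
  have hpt : ∀ {x y : F}, ((crv (tw e (d * δ)) ℚ).toAffine⁄F).Nonsingular x y →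
      (y / β ^ 3) ^ 2 = (x / β ^ 2) ^ 3 + (e.1 : F) * (d : F) ^ 2 * (x / β ^ 2) +
        (e.2 : F) * (d : F) ^ 3 := fun hxy => by
    have h3 := tw_eqn (crv_base (F := F) ▸ hxy.1)
    rw [hD'] at h3
    field_simp
    linear_combination h3
  let κ : ((crv (tw e (d * δ)) ℚ).toAffine⁄F).Point →+ Additive ((Cub e F)ˣ ⧸ SQ e F) :=
    AddMonoidHom.mk' (fun R => Additive.ofMul (kum e ((d * δ : ℤ) : F) R))
      fun R R' => congrArg Additive.ofMul (h.kum_add hD crv_base R R')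
  let A : Submodule ℤ ((crv (tw e (d * δ)) ℚ).toAffine⁄F).Point := ⨅ p ∈ H, LinearMap.ker
    (((act _ τ).toIntLinearMap - (ε : ℤ) • LinearMap.id) ∘ₗ
      ∑ g, a g • (act _ (g * p)).toIntLinearMap)
  have hA : ∀ R, R ∈ A ↔ ∀ p ∈ H, act _ τ (∑ g, a g • act _ (g * p) R) =
      (ε : ℤ) • ∑ g, a g • act _ (g * p) R := fun R => by
    simp only [A, Submodule.mem_iInf, LinearMap.mem_ker, LinearMap.comp_apply, LinearMap.sub_apply,
      LinearMap.sum_apply, LinearMap.smul_apply, LinearMap.id_apply,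
      AddMonoidHom.coe_toIntLinearMap, sub_eq_zero]
  let 𝒯 : Subgroup (Cub e F)ˣ :=
    { carrier := {t | ∃ R ∈ A, t = kum e ((d * δ : ℤ) : F) R}
      one_mem' := ⟨0, A.zero_mem, rfl⟩
      mul_mem' := by
        rintro s t ⟨R, a1, a2⟩ ⟨R', a3, a4⟩
        exact ⟨R + R', A.add_mem a1 a3, by
          rw [QuotientGroup.mk_mul, a2, a4, h.kum_add hD crv_base]⟩
      inv_mem' := by
        rintro s ⟨R, a1, a2⟩
        exact ⟨R, a1, by rw [QuotientGroup.mk_inv, a2, inv_eq_of_mul_eq_one_right (cls_sq _)]⟩ }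
  have h3 : 𝒯 ≤ SQ e F := hk 𝒯 (fun t ht => ⟨0, A.zero_mem, (QuotientGroup.eq_one_iff _).2 ht⟩)
    (by
      rintro t ⟨_ | ⟨x, y, hxy⟩, -, a2⟩
      · exact Or.inl ((QuotientGroup.eq_one_iff _).1 a2)
      · exact Or.inr ⟨_, _, hpt hxy, _, h.lu_val hd' _,
          mul_mem_SQ (a2.trans (hD' ▸ h.lu_tw hd' h0 x))⟩)
    (by
      rintro g t ⟨R, a1, a2⟩
      refine ⟨_, (hA _).2 fun p hp => ?_, h.kum_act hD (g.restrictScalars ℚ) a2⟩
      simpa only [← act_mul, mul_assoc] using (hA R).1 a1 _ (H.mul_mem hp (hH g)))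
    (by
      rintro c ⟨R, a1, a2⟩
      have a3 : ∀ g, κ (act _ g R) = κ R := fun g => by
        have a4 := h.kum_act hD g a2
        rw [uz_uz, Subsingleton.elim (RingHom.comp _ _) (algebraMap ℚ F), a2] at a4
        exact congrArg Additive.ofMul a4.symm
      have a4 : κ (∑ g, a g • act _ (g * 1) R) = κ R := by
        obtain ⟨k, hk⟩ := ha
        simp only [map_sum, map_zsmul, a3]
        rw [← Finset.sum_smul, hk, add_smul, mul_comm, mul_smul, two_smul, one_smul,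
          show κ R + κ R = 0 from congrArg Additive.ofMul (cls_sq _), smul_zero, zero_add]
      have a5 := (hA R).1 a1 1 H.one_mem
      generalize ∑ g, a g • act _ (g * 1) R = R₁ at a4 a5
      have a6 := a2.trans (Additive.ofMul.injective a4).symm
      rcases R₁ with _ | ⟨x, y, hxy⟩
      · exact ⟨1, Or.inl (one_mem _), by
          rw [map_one, mul_one]
          exact (QuotientGroup.eq_one_iff _).1 a6⟩
      have a7 : τ x = x ∧ τ y = ((ε : ℤ) : F) * y := by
        rw [Point.map_some] at a5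
        rcases Int.units_eq_one_or ε with rfl | rfl
        · simpa using a5
        · rw [Units.val_neg, Units.val_one, neg_one_zsmul, Point.neg_some] at a5
          simpa [negY, Affine.baseChange, WeierstrassCurve.baseChange] using a5
      have hε : ((ε : ℤ) : F) ^ 2 = 1 := by
        rcases Int.units_eq_one_or ε with rfl | rfl <;> simp
      have hε0 : ((ε : ℤ) : F) ≠ 0 := Int.cast_ne_zero.2 ε.ne_zero
      obtain ⟨x₀, hx⟩ := h2 (x / β ^ 2) (by rw [map_div₀, map_pow, a7.1, h1, mul_pow, hε, one_mul])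
      obtain ⟨y₀, hy⟩ := h2 (y / β ^ 3) (by
        rw [map_div₀, map_pow, a7.2, h1, mul_pow, pow_succ _ 2, hε, one_mul,
          mul_div_mul_left _ _ hε0])
      have hdL : (d : L) ≠ 0 := Nat.cast_ne_zero.2 hd
      refine ⟨lu e d x₀, Or.inr ⟨x₀, y₀, (algebraMap L F).injective ?_, _,
        (h.down (algebraMap L F)).lu_val hdL _, mul_mem_SQ rfl⟩, mul_mem_SQ ?_⟩
      · simpa [hx, hy] using hpt hxy
      · rw [h.uz_lu _ hdL, map_natCast, hx]
        exact a6.trans (hD' ▸ h.lu_tw hd' h0 x))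
  obtain ⟨r, hr, h4⟩ := ann_of_half A fun R hR => by
    obtain ⟨t, ht⟩ := QuotientGroup.mk_surjective (kum e ((d * δ : ℤ) : F) R)
    obtain ⟨Q, rfl⟩ := h.half he hD crv_base
      (ht.symm.trans ((QuotientGroup.eq_one_iff _).2 (h3 ⟨R, hR, ht⟩)))
    refine ⟨Q, ?_, rfl⟩
    simp only [A, Submodule.mem_iInf, LinearMap.mem_ker] at hR ⊢
    exact fun p hp => h.two_tors hD crv_base (by rw [← map_nsmul, hR p hp])
  exact ⟨r, hr, fun R hR => h4 R ((hA R).2 hR)⟩

end Pool.Agent.Lib.MP_775b3b_nt
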