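import Pool.Agent.Lib.MP_775b3b_nt.ZDefs
import Pool.Agent.Lib.MP_775b3b_nt.Om3
import Pool.Agent.Lib.MP_775b3b_nt.LGSum

/-! The family has positive density. -/

namespace Pool.Agent.Lib.MP_775b3b_nt

/-- `π(x) = o(x)`: from `primorial_le_four_pow` (the primes in `(m, x]` number at most
`x log 4 / log m`), or from `Mathlib.NumberTheory.Chebyshev` -/
theorem card_primes_le {ε : ℝ} (hε : 0 < ε) : ∃ x₀ : ℕ, ∀ x : ℕ, x₀ ≤ x →
    (((Finset.Icc 1 x).filter Nat.Prime).card : ℝ) ≤ ε * x := by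
  have h1 := Chebyshev.eventually_primeCounting_le one_pos
  have h2 := Real.tendsto_log_atTop.eventually_ge_atTop ((Real.log 4 + 1) / ε)
  have h3 := Real.tendsto_log_atTop.eventually_gt_atTop 0
  obtain ⟨x₀, h⟩ := Filter.eventually_atTop.1
    (tendsto_natCast_atTop_atTop.eventually (h1.and (h2.and h3)))
  refine ⟨x₀, fun x hx => ?_⟩
  obtain ⟨h4, h5, h6⟩ := h x hx
  rw [Nat.floor_natCast] at h4
  have h7 : ((Finset.Icc 1 x).filter Nat.Prime).card ≤ Nat.primeCounting x := by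
    rw [Nat.primeCounting, Nat.primeCounting', Nat.count_eq_card_filter_range]
    refine Finset.card_le_card (Finset.filter_subset_filter _ fun n hn => ?_)
    exact Finset.mem_range.2 (Nat.lt_succ_of_le (Finset.mem_Icc.1 hn).2)
  refine (Nat.cast_le.2 h7).trans (h4.trans ?_)
  rw [div_le_iff₀ h6]
  rw [div_le_iff₀ hε] at h5
  nlinarith [Nat.cast_nonneg (α := ℝ) x]

/-- the pairs of the class in the box with positive first coordinate -/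
noncomputable def clsBox (M : ℕ) (a b : ℤ) (T : ℕ) : Finset (ℤ × ℤ) :=
  (box T).filter fun e => 0 < e.1 ∧ (M : ℤ) ∣ e.1 - a ∧ (M : ℤ) ∣ e.2 - b

theorem zfamcnt_low {M : ℕ} (hM : M ≠ 0) (a l u : ℤ) :
    ((u : ℝ) - l) / M - 1 ≤ (((Finset.Ioc l u).filter fun x => (M : ℤ) ∣ x - a).card : ℝ) := by
  have h1 := Int.Ioc_filter_modEq_card l u (show (0 : ℤ) < M by omega) a
  have e : ((Finset.Ioc l u).filter fun x => x ≡ a [ZMOD M]) =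
      (Finset.Ioc l u).filter fun x => (M : ℤ) ∣ x - a :=
    Finset.filter_congr fun x _ => by rw [Int.modEq_comm, Int.modEq_iff_dvd]
  rw [e] at h1
  have h2 := (Int.cast_le (R := ℚ)).2 ((le_max_left _ _).trans h1.ge)
  have h3 := Int.lt_floor_add_one (((u : ℚ) - a) / (M : ℤ))
  have h4 := Int.floor_le (((l : ℚ) - a) / (M : ℤ))
  have h5 : ((u : ℚ) - l) / M - 1 ≤
      (((Finset.Ioc l u).filter fun x => (M : ℤ) ∣ x - a).card : ℚ) := by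
    have e2 : ((u : ℚ) - l) / M = ((u : ℚ) - a) / M - ((l : ℚ) - a) / M := by ring
    push_cast at h2 h3 h4
    linarith
  exact_mod_cast h5

/-- at least `T^2 / M - 1` values of `A` and `2 T^3 / M - 1` values of `B` (`Int.Ioc_filter_modEq_card`
or an explicit injection); `disc_ne_zero_of_pos` -/
theorem card_clsBox {M : ℕ} (hM : M ≠ 0) (a b : ℤ) : ∃ T₀ : ℕ, ∀ T : ℕ, T₀ ≤ T →
    (T : ℝ) ^ 5 / (M : ℝ) ^ 2 ≤ (clsBox M a b T).card := by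
  refine ⟨4 * M, fun T hT => ?_⟩
  have hM1 : (1 : ℝ) ≤ M := by exact_mod_cast Nat.one_le_iff_ne_zero.2 hM
  have hT' : 4 * (M : ℝ) ≤ T := by exact_mod_cast hT
  have hsub : (Finset.Ioc (0 : ℤ) ((T : ℤ) ^ 2)).filter (fun x => (M : ℤ) ∣ x - a) ×ˢ
      (Finset.Ioc (-(T : ℤ) ^ 3) ((T : ℤ) ^ 3)).filter (fun x => (M : ℤ) ∣ x - b) ⊆
      clsBox M a b T := fun e he => by
    simp only [Finset.mem_product, Finset.mem_filter, Finset.mem_Ioc] at he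
    obtain ⟨⟨⟨h1, h2⟩, h3⟩, ⟨h4, h5⟩, h6⟩ := he
    exact Finset.mem_filter.2 ⟨mem_box.2 ⟨by rwa [abs_of_pos h1], abs_le.2 ⟨h4.le, h5⟩,
      disc_ne_zero_of_pos h1⟩, h1, h3, h6⟩
  have h1 := (Nat.cast_le (α := ℝ)).2 (Finset.card_le_card hsub)
  rw [Finset.card_product, Nat.cast_mul] at h1
  have h2 := zfamcnt_low hM a 0 ((T : ℤ) ^ 2)
  have h3 := zfamcnt_low hM b (-(T : ℤ) ^ 3) ((T : ℤ) ^ 3)
  push_cast at h2 h3
  have h4 : 4 ≤ (T : ℝ) ^ 2 / M := by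
    rw [le_div_iff₀ (by linarith)]
    nlinarith
  have h5 : 4 ≤ (T : ℝ) ^ 3 / M := h4.trans (div_le_div_of_nonneg_right
    (pow_le_pow_right₀ (by linarith) (by norm_num)) (by linarith))
  have e1 : ((T : ℝ) ^ 3 - -(T : ℝ) ^ 3) / M = 2 * ((T : ℝ) ^ 3 / M) := by ring
  rw [e1] at h3
  rw [sub_zero] at h2
  refine le_trans ?_ ((mul_le_mul h2 h3 (by linarith) (Nat.cast_nonneg _)).trans h1)
  have e2 : (T : ℝ) ^ 5 / (M : ℝ) ^ 2 = (T : ℝ) ^ 2 / M * ((T : ℝ) ^ 3 / M) := by ring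
  rw [e2]
  nlinarith [mul_nonneg (sub_nonneg.2 h4) (sub_nonneg.2 h5)]

theorem zfamcnt_two {M q : ℕ} (hM : 0 < M) (hq : 0 < q) (hco : IsCoprime (M : ℤ) q) (a : ℤ) (X : ℕ)
    (c : ℤ) : ((((Finset.Icc (-(X : ℤ)) X).filter fun x => (M : ℤ) ∣ x - a).filter
      fun x => (q : ℤ) ∣ x - c).card : ℝ) ≤ 2 * X / (M * q) + 1 := by
  have h := om2_cong_card (((Finset.Icc (-(X : ℤ)) X).filter fun x => (M : ℤ) ∣ x - a).filter
    fun x => (q : ℤ) ∣ x - c) X (M * q) (Nat.mul_pos hM hq) (fun x hx => by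
      simp only [Finset.mem_filter, Finset.mem_Icc] at hx
      exact abs_le.2 hx.1.1) fun x hx y hy => by
      simp only [Finset.mem_filter] at hx hy
      have h1 := hx.1.2.sub hy.1.2
      have h2 := hx.2.sub hy.2
      rw [sub_sub_sub_cancel_right] at h1 h2
      rw [Nat.cast_mul]
      exact hco.mul_dvd h1 h2
  rwa [Nat.cast_mul] at h

theorem zfamcnt_fibre {M : ℕ} (hM : 0 < M) (b : ℤ) (X : ℕ) {p : ℕ} (hp : p.Prime) (h5 : 5 ≤ p)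
    (hpM : p.Coprime M) {A : ℤ} (hA : ¬ (p : ℤ) ∣ A) :
    ((((Finset.Icc (-(X : ℤ)) X).filter fun x => (M : ℤ) ∣ x - b).filter
      fun B => (p : ℤ) ^ 2 ∣ disc (A, B)).card : ℝ) ≤ 2 * (2 * X / (M * (p : ℝ) ^ 2) + 1) := by
  set I := (Finset.Icc (-(X : ℤ)) X).filter fun x => (M : ℤ) ∣ x - b with hI
  rcases (I.filter fun B => (p : ℤ) ^ 2 ∣ disc (A, B)).eq_empty_or_nonempty with h | ⟨B₀, hB₀⟩
  · rw [h, Finset.card_empty, Nat.cast_zero]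
    positivity
  have h6 : p.Coprime 6 := hp.coprime_iff_not_dvd.2 fun h => by
    have h1 := Nat.le_of_dvd (by norm_num) h
    interval_cases p
    · norm_num at h
    · norm_num at hp
  have hsub : (I.filter fun B => (p : ℤ) ^ 2 ∣ disc (A, B)) ⊆
      (I.filter fun x => ((p ^ 2 : ℕ) : ℤ) ∣ x - B₀) ∪
        I.filter fun x => ((p ^ 2 : ℕ) : ℤ) ∣ x - -B₀ := fun B hB => by
    obtain ⟨h1, h2⟩ := Finset.mem_filter.1 hB
    exact Finset.mem_union.2 ((om3_prime hp h6 hA h2 (Finset.mem_filter.1 hB₀).2).imp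
      (fun h => Finset.mem_filter.2 ⟨h1, by rwa [Nat.cast_pow]⟩)
      fun h => Finset.mem_filter.2 ⟨h1, by rwa [Nat.cast_pow, sub_neg_eq_add]⟩)
  have hco : IsCoprime (M : ℤ) ((p ^ 2 : ℕ) : ℤ) :=
    Nat.isCoprime_iff_coprime.2 (hpM.symm.pow_right 2)
  have h1 := zfamcnt_two hM (pow_pos hp.pos 2) hco b X B₀
  have h2 := zfamcnt_two hM (pow_pos hp.pos 2) hco b X (-B₀)
  have h3 := (Nat.cast_le (α := ℝ)).2 ((Finset.card_le_card hsub).trans (Finset.card_union_le _ _))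
  rw [Nat.cast_add] at h3
  rw [Nat.cast_pow (α := ℝ)] at h1 h2
  linarith

/-- `om2_cong_card`.  `p ∤ A`: at most `2 T^2 / M + 1 ≤ 3 T^2 / M` values of `A`, and for each two
classes of `B` modulo `M p^2` (`om3_prime`), `2 (2 T^3 / (M p^2) + 1)` values.  `p ∣ A`: then
`p ≤ T^2`, `p ∣ B`, at most `(2 T^2 / (M p) + 1) (2 T^3 / (M p) + 1)` pairs. -/
theorem card_clsBox_sq {M : ℕ} (hM : M ≠ 0) (a b : ℤ) {T : ℕ} (hT : M ≤ T) {p : ℕ} (hp : p.Prime)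
    (h5 : 5 ≤ p) (hpM : p.Coprime M) :
    (((clsBox M a b T).filter fun e => (p : ℤ) ^ 2 ∣ disc e).card : ℝ) ≤
      16 * (T : ℝ) ^ 5 / ((M : ℝ) ^ 2 * (p : ℝ) ^ 2) + 6 * (T : ℝ) ^ 2 +
        if p ≤ T ^ 2 then 4 * (T : ℝ) ^ 3 / p + 1 else 0 := by
  have hM0 : 0 < M := Nat.pos_of_ne_zero hM
  have hM1 : (1 : ℝ) ≤ M := by exact_mod_cast hM0
  have hT' : (M : ℝ) ≤ T := by exact_mod_cast hT
  have hp1 : (1 : ℝ) ≤ p := by exact_mod_cast hp.pos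
  have hp' : Prime (p : ℤ) := Nat.prime_iff_prime_int.1 hp
  have h3 : ¬ (p : ℤ) ∣ 3 := by exact_mod_cast om2_not_dvd h5 (r := 3) (Or.inr rfl)
  have hco : IsCoprime (M : ℤ) p := Nat.isCoprime_iff_coprime.2 hpM.symm
  set IA := (Finset.Icc (-((T ^ 2 : ℕ) : ℤ)) ((T ^ 2 : ℕ) : ℤ)).filter
    (fun x => (M : ℤ) ∣ x - a) with hIA
  set IB := (Finset.Icc (-((T ^ 3 : ℕ) : ℤ)) ((T ^ 3 : ℕ) : ℤ)).filter
    (fun x => (M : ℤ) ∣ x - b) with hIB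
  set S₂ : Finset (ℤ × ℤ) := if p ≤ T ^ 2 then
    IA.filter (fun x => (p : ℤ) ∣ x) ×ˢ IB.filter (fun x => (p : ℤ) ∣ x) else ∅ with hS₂
  have hsub : (clsBox M a b T).filter (fun e => (p : ℤ) ^ 2 ∣ disc e) ⊆
      ((IA.filter (fun A => ¬ (p : ℤ) ∣ A)).biUnion (fun A =>
        (IB.filter (fun B => (p : ℤ) ^ 2 ∣ disc (A, B))).image (fun B => (A, B)))) ∪ S₂ := by
    intro e he
    obtain ⟨hb, hd⟩ := Finset.mem_filter.1 he
    obtain ⟨hb, h0, ha', hb'⟩ := Finset.mem_filter.1 hb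
    obtain ⟨h1, h2, -⟩ := mem_box.1 hb
    have hA : e.1 ∈ IA :=
      Finset.mem_filter.2 ⟨Finset.mem_Icc.2 (abs_le.1 (by exact_mod_cast h1)), ha'⟩
    have hB : e.2 ∈ IB :=
      Finset.mem_filter.2 ⟨Finset.mem_Icc.2 (abs_le.1 (by exact_mod_cast h2)), hb'⟩
    rw [Finset.mem_union]
    by_cases h : (p : ℤ) ∣ e.1
    · right
      have h9 : p ≤ T ^ 2 := by
        exact_mod_cast (Int.le_of_dvd h0 h).trans ((le_abs_self _).trans h1)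
      rw [hS₂, if_pos h9]
      refine Finset.mem_product.2 ⟨Finset.mem_filter.2 ⟨hA, h⟩, Finset.mem_filter.2 ⟨hB, ?_⟩⟩
      have h4 : (p : ℤ) ∣ 4 * e.1 ^ 3 + 27 * e.2 ^ 2 := (dvd_pow_self _ two_ne_zero).trans hd
      have h6 : (p : ℤ) ∣ 4 * e.1 ^ 3 := (dvd_pow h three_ne_zero).mul_left _
      have h7 : (p : ℤ) ∣ 3 ^ 3 * e.2 ^ 2 := by
        have := (dvd_add_right h6).1 h4
        rwa [show (27 : ℤ) = 3 ^ 3 by norm_num] at this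
      rcases hp'.dvd_or_dvd h7 with h8 | h8
      · exact absurd (hp'.dvd_of_dvd_pow h8) h3
      · exact hp'.dvd_of_dvd_pow h8
    · left
      rw [Finset.mem_biUnion]
      exact ⟨e.1, Finset.mem_filter.2 ⟨hA, h⟩,
        Finset.mem_image.2 ⟨e.2, Finset.mem_filter.2 ⟨hB, hd⟩, rfl⟩⟩
  have hc1 : ((((IA.filter (fun A => ¬ (p : ℤ) ∣ A)).biUnion (fun A =>
        (IB.filter (fun B => (p : ℤ) ^ 2 ∣ disc (A, B))).image (fun B => (A, B)))).card : ℕ) : ℝ) ≤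
      (2 * (T : ℝ) ^ 2 / M + 1) * (2 * (2 * (T : ℝ) ^ 3 / (M * (p : ℝ) ^ 2) + 1)) := by
    refine ((Nat.cast_le (α := ℝ)).2 Finset.card_biUnion_le).trans ?_
    rw [Nat.cast_sum]
    refine (Finset.sum_le_card_nsmul _ _ (2 * (2 * (T : ℝ) ^ 3 / (M * (p : ℝ) ^ 2) + 1))
      (fun A hA => ?_)).trans ?_
    · refine ((Nat.cast_le (α := ℝ)).2 Finset.card_image_le).trans ?_
      have := zfamcnt_fibre hM0 b (T ^ 3) hp h5 hpM (Finset.mem_filter.1 hA).2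
      rwa [Nat.cast_pow (α := ℝ)] at this
    · rw [nsmul_eq_mul]
      refine mul_le_mul_of_nonneg_right ?_ (by positivity)
      have h2 := om2_class_card (T ^ 2) M hM0 a
      rw [Nat.cast_pow (α := ℝ)] at h2
      exact ((Nat.cast_le (α := ℝ)).2 (Finset.card_filter_le _ _)).trans h2
  have hc2 : (S₂.card : ℝ) ≤ 4 * (T : ℝ) ^ 5 / ((M : ℝ) ^ 2 * (p : ℝ) ^ 2) +
      if p ≤ T ^ 2 then 4 * (T : ℝ) ^ 3 / p + 1 else 0 := by
    rw [hS₂]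
    split_ifs with h
    · rw [Finset.card_product, Nat.cast_mul]
      have h1 := zfamcnt_two hM0 hp.pos hco a (T ^ 2) 0
      have h2 := zfamcnt_two hM0 hp.pos hco b (T ^ 3) 0
      simp only [sub_zero, Nat.cast_pow (α := ℝ)] at h1 h2
      refine (mul_le_mul h1 h2 (Nat.cast_nonneg _) (by positivity)).trans ?_
      have h4 : (T : ℝ) ^ 3 / (M * p) ≤ (T : ℝ) ^ 3 / p :=
        div_le_div_of_nonneg_left (by positivity) (by positivity) (by nlinarith)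
      have h6 : (T : ℝ) ^ 2 / (M * p) ≤ (T : ℝ) ^ 3 / (M * p) := div_le_div_of_nonneg_right
        (pow_le_pow_right₀ (by linarith) (by norm_num)) (by positivity)
      have e : (2 * (T : ℝ) ^ 2 / (M * p) + 1) * (2 * (T : ℝ) ^ 3 / (M * p) + 1) =
          4 * (T : ℝ) ^ 5 / ((M : ℝ) ^ 2 * (p : ℝ) ^ 2) + 2 * ((T : ℝ) ^ 2 / (M * p)) +
            2 * ((T : ℝ) ^ 3 / (M * p)) + 1 := by ring
      rw [e, mul_div_assoc 4 ((T : ℝ) ^ 3)]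
      linarith
    · rw [Finset.card_empty, Nat.cast_zero]
      positivity
  have hc3 := (Nat.cast_le (α := ℝ)).2 ((Finset.card_le_card hsub).trans (Finset.card_union_le _ _))
  rw [Nat.cast_add] at hc3
  refine hc3.trans ((add_le_add hc1 hc2).trans ?_)
  have h6 : 1 ≤ (T : ℝ) ^ 2 / M := by
    rw [le_div_iff₀ (by linarith)]
    nlinarith
  have h7 : (T : ℝ) ^ 2 / M ≤ (T : ℝ) ^ 2 := div_le_self (by positivity) hM1
  have h8 : (2 * (T : ℝ) ^ 2 / M + 1) * (2 * (2 * (T : ℝ) ^ 3 / (M * (p : ℝ) ^ 2) + 1)) ≤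
      (3 * ((T : ℝ) ^ 2 / M)) * (2 * (2 * (T : ℝ) ^ 3 / (M * (p : ℝ) ^ 2) + 1)) :=
    mul_le_mul_of_nonneg_right (by rw [mul_div_assoc]; linarith) (by positivity)
  have e : (3 * ((T : ℝ) ^ 2 / M)) * (2 * (2 * (T : ℝ) ^ 3 / (M * (p : ℝ) ^ 2) + 1)) =
      12 * ((T : ℝ) ^ 5 / ((M : ℝ) ^ 2 * (p : ℝ) ^ 2)) + 6 * ((T : ℝ) ^ 2 / M) := by ring
  rw [mul_div_assoc 4 ((T : ℝ) ^ 5), mul_div_assoc 16]
  linarith

theorem zfamcnt_le {T p : ℕ} {e : ℤ × ℤ} (he : e ∈ box T) (h : (p : ℤ) ^ 2 ∣ disc e) :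
    p ≤ 6 * T ^ 3 := by
  obtain ⟨hA, hB, hd⟩ := mem_box.1 he
  have h2 : (p : ℤ) ^ 2 ≤ |disc e| := Int.le_of_dvd (abs_pos.2 hd) ((dvd_abs _ _).2 h)
  have h3 : |disc e| ≤ 31 * (T : ℤ) ^ 6 := by
    have h4 : |e.1| ^ 3 ≤ ((T : ℤ) ^ 2) ^ 3 := pow_le_pow_left₀ (abs_nonneg _) hA 3
    have h5 : |e.2| ^ 2 ≤ ((T : ℤ) ^ 3) ^ 2 := pow_le_pow_left₀ (abs_nonneg _) hB 2
    calc |disc e| ≤ |4 * e.1 ^ 3| + |27 * e.2 ^ 2| := abs_add_le _ _
      _ = 4 * |e.1| ^ 3 + 27 * |e.2| ^ 2 := by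
        rw [abs_mul, abs_mul, abs_pow, abs_pow]
        norm_num
      _ ≤ _ := by nlinarith
  have hT' : (0 : ℤ) ≤ (T : ℤ) ^ 6 := by positivity
  have h6 : (p : ℤ) ^ 2 ≤ (6 * (T : ℤ) ^ 3) ^ 2 := by nlinarith
  exact_mod_cast (pow_le_pow_iff_left₀ (by positivity) (by positivity) two_ne_zero).1 h6

open Classical in
/-- `M = N^2`.  A pair of the class outside the family has a prime `p > 64`, `p ∤ N`,
`p^2 ∣ disc e`, `p ≤ 6 T^3`.  `∑ p > 64, 16 / p^2 ≤ 1/4`; `6 T^2 π(6 T^3) ≤ T^5 / (8 M^2)` for large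
`T`; `∑ p ≤ T^2, 1 / p ≤ ∑ 1 / √n ≤ 2 T` (`lgsum_sqrt`).  So `c = 1 / (2 M^2)` works. -/
theorem card_fam {N : ℕ} (hN : N ≠ 0) (h : ∀ p : ℕ, p.Prime → p ≤ 64 → p ∣ N) (a b : ℤ) :
    ∃ c : ℝ, 0 < c ∧ ∃ T₀ : ℕ, ∀ T : ℕ, T₀ ≤ T →
      c * (T : ℝ) ^ 5 ≤ ((box T).filter (Fam N a b)).card := by
  have hM : N ^ 2 ≠ 0 := pow_ne_zero 2 hN
  generalize hMd : N ^ 2 = M at hM
  have hM1 : (1 : ℝ) ≤ M := by exact_mod_cast Nat.one_le_iff_ne_zero.2 hM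
  obtain ⟨T₁, h₁⟩ := card_clsBox hM a b
  obtain ⟨x₀, h₀⟩ := card_primes_le (ε := 1 / (288 * (M : ℝ) ^ 2)) (by positivity)
  refine ⟨1 / (2 * (M : ℝ) ^ 2), by positivity, T₁ + x₀ + 72 * M ^ 2, fun T hT => ?_⟩
  have hMM : M ≤ M ^ 2 := Nat.le_self_pow two_ne_zero M
  have hM' : 1 ≤ M := Nat.one_le_iff_ne_zero.2 hM
  have hT3 : T ≤ T ^ 3 := Nat.le_self_pow three_ne_zero T
  have hT72 : 72 * (M : ℝ) ^ 2 ≤ T := by exact_mod_cast (show 72 * M ^ 2 ≤ T by omega)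
  have hT1 : (1 : ℝ) ≤ T := by nlinarith
  set Pr := ((Finset.Icc 1 (6 * T ^ 3)).filter Nat.Prime).filter fun p => ¬ p ∣ N with hPr
  have hmem : ∀ p ∈ Pr, p.Prime ∧ 64 < p ∧ p ≤ 6 * T ^ 3 ∧ p.Coprime M := fun p hp => by
    simp only [hPr, Finset.mem_filter, Finset.mem_Icc] at hp
    exact ⟨hp.1.2, not_le.1 fun h' => hp.2 (h p hp.1.2 h'), hp.1.1.2,
      hMd ▸ (hp.1.2.coprime_iff_not_dvd.2 hp.2).pow_right 2⟩
  have hsub : clsBox M a b T ⊆ (box T).filter (Fam N a b) ∪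
      Pr.biUnion fun p => (clsBox M a b T).filter fun e => (p : ℤ) ^ 2 ∣ disc e := by
    intro e he
    obtain ⟨hb, h0, ha', hb'⟩ := Finset.mem_filter.1 he
    rw [Finset.mem_union]
    by_cases hf : ∀ p : ℕ, p.Prime → ¬ p ∣ N → ¬ (p : ℤ) ^ 2 ∣ disc e
    · rw [← hMd, Nat.cast_pow] at ha' hb'
      exact Or.inl (Finset.mem_filter.2 ⟨hb, h0, ha', hb', hf⟩)
    · simp only [not_forall, not_not] at hf
      obtain ⟨p, hp, hpN, hd⟩ := hf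
      exact Or.inr (Finset.mem_biUnion.2 ⟨p, Finset.mem_filter.2 ⟨Finset.mem_filter.2
        ⟨Finset.mem_Icc.2 ⟨hp.pos, zfamcnt_le hb hd⟩, hp⟩, hpN⟩, Finset.mem_filter.2 ⟨he, hd⟩⟩)
  have h2 := (Nat.cast_le (α := ℝ)).2 ((Finset.card_le_card hsub).trans ((Finset.card_union_le _ _).trans
    (Nat.add_le_add_left Finset.card_biUnion_le _)))
  rw [Nat.cast_add, Nat.cast_sum] at h2
  have h3 := Finset.sum_le_sum fun p (hp : p ∈ Pr) => card_clsBox_sq hM a b (T := T) (by omega)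
    (hmem p hp).1 (by have := (hmem p hp).2.1; omega) (hmem p hp).2.2.2
  rw [Finset.sum_add_distrib, Finset.sum_add_distrib] at h3
  have s1 : ∑ p ∈ Pr, 16 * (T : ℝ) ^ 5 / ((M : ℝ) ^ 2 * (p : ℝ) ^ 2) ≤
      (T : ℝ) ^ 5 / (M : ℝ) ^ 2 / 4 := by
    have h4 : ∑ p ∈ Pr, ((p : ℝ) ^ 2)⁻¹ ≤ 1 / 64 := by
      refine (Finset.sum_le_sum_of_subset_of_nonneg (t := Finset.Ioc 64 (6 * T ^ 3))
        (fun p hp => Finset.mem_Ioc.2 ⟨(hmem p hp).2.1, (hmem p hp).2.2.1⟩)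
        fun _ _ _ => by positivity).trans ((sum_Ioc_inv_sq_le_sub (by norm_num) (by omega)).trans ?_)
      have : (0 : ℝ) ≤ (((6 * T ^ 3 : ℕ) : ℝ))⁻¹ := by positivity
      push_cast at this ⊢
      linarith
    have e : ∑ p ∈ Pr, 16 * (T : ℝ) ^ 5 / ((M : ℝ) ^ 2 * (p : ℝ) ^ 2) =
        16 * ((T : ℝ) ^ 5 / (M : ℝ) ^ 2) * ∑ p ∈ Pr, ((p : ℝ) ^ 2)⁻¹ := by
      rw [Finset.mul_sum]
      exact Finset.sum_congr rfl fun _ _ => by ring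
    rw [e]
    exact (mul_le_mul_of_nonneg_left h4 (by positivity)).trans (le_of_eq (by ring))
  have s2 : ∑ _p ∈ Pr, 6 * (T : ℝ) ^ 2 ≤ (T : ℝ) ^ 5 / (M : ℝ) ^ 2 / 8 := by
    rw [Finset.sum_const, nsmul_eq_mul]
    have h4 := ((Nat.cast_le (α := ℝ)).2 (Finset.card_filter_le _ fun p => ¬ p ∣ N)).trans
      (h₀ (6 * T ^ 3) (by omega))
    refine (mul_le_mul_of_nonneg_right h4 (by positivity)).trans (le_of_eq ?_)
    push_cast
    field_simp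
    ring
  have s3 : ∑ p ∈ Pr, (if p ≤ T ^ 2 then 4 * (T : ℝ) ^ 3 / p + 1 else 0) ≤
      (T : ℝ) ^ 5 / (M : ℝ) ^ 2 / 8 := by
    rw [← Finset.sum_filter]
    have h4 : ∑ p ∈ Pr.filter (fun p => p ≤ T ^ 2), (4 * (T : ℝ) ^ 3 / p + 1) ≤
        ∑ p ∈ Finset.Ioc 0 (T ^ 2), (4 * (T : ℝ) ^ 3 * (√(p : ℝ))⁻¹ + 1) := by
      refine (Finset.sum_le_sum fun p hp => ?_).trans (Finset.sum_le_sum_of_subset_of_nonneg
        (fun p hp => Finset.mem_Ioc.2 ⟨(hmem p (Finset.mem_filter.1 hp).1).1.pos,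
          (Finset.mem_filter.1 hp).2⟩) fun _ _ _ => by positivity)
      have h5 : (1 : ℝ) ≤ p := by exact_mod_cast (hmem p (Finset.mem_filter.1 hp).1).1.pos
      rw [div_eq_mul_inv]
      gcongr
      exact Real.sqrt_le_self_iff.2 (Or.inr h5)
    refine h4.trans ?_
    rw [Finset.sum_add_distrib, ← Finset.mul_sum, Finset.sum_const, Nat.card_Ioc, nsmul_eq_mul]
    have h5 := lgsum_sqrt (T ^ 2)
    rw [Nat.cast_pow, Real.sqrt_sq (by positivity)] at h5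
    have h6 := mul_le_mul_of_nonneg_left h5 (show 0 ≤ 4 * (T : ℝ) ^ 3 by positivity)
    have h7 : (T : ℝ) ^ 2 ≤ (T : ℝ) ^ 4 := pow_le_pow_right₀ hT1 (by norm_num)
    have h8 : 9 * (T : ℝ) ^ 4 ≤ (T : ℝ) ^ 5 / (M : ℝ) ^ 2 / 8 := by
      rw [div_div, le_div_iff₀ (by positivity)]
      nlinarith [mul_le_mul_of_nonneg_left hT72 (show 0 ≤ (T : ℝ) ^ 4 by positivity)]
    rw [Nat.sub_zero, Nat.cast_pow]
    nlinarith
  have h4 := h₁ T (by omega)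
  have e : 1 / (2 * (M : ℝ) ^ 2) * (T : ℝ) ^ 5 = (T : ℝ) ^ 5 / (M : ℝ) ^ 2 / 2 := by ring
  rw [e]
  linarith

end Pool.Agent.Lib.MP_775b3b_nt
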