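import Pool.Agent.Lib.MP_775b3b_nt.Red

/-! Reduced bases. -/

namespace Pool.Agent.Lib.MP_775b3b_nt

open Cub NumberField

variable (k : Type*) [Field k] [NumberField k]

omit [NumberField k] in
theorem red2_int (n : ℕ) : IsIntegral ℤ (n : k) := by
  simpa using isIntegral_algebraMap (R := ℤ) (A := k) (x := (n : ℤ))

omit [NumberField k] in
theorem red2_two : IsIntegral ℤ (2 : k) := by
  simpa using red2_int k 2

variable {k} in
theorem red2_lat {e : ℤ × ℤ} {N : ℕ} {z : Nat.Primes → (Cub e k)ˣ} {v0 v1 v2 : Cub e k}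
    (h0 : InLat z ((N : k) • v0)) (h1 : InLat z ((N : k) • v1)) (h2 : InLat z ((N : k) • v2))
    {u : k} (hu : IsIntegral ℤ u) :
    InLat z (((2 * N : ℕ) : k) • v0) ∧ InLat z (((2 * N : ℕ) : k) • tr1 u v0 v1) ∧
      InLat z (((2 * N : ℕ) : k) • tr2 u v0 v1 v2) := by
  have t := red2_two k
  refine ⟨?_, ?_, ?_⟩
  · have := h0.smul t
    convert this using 1
    push_cast
    module
  · have := (h1.smul t).add (h0.smul (t.mul hu))
    convert this using 1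
    unfold tr1
    push_cast
    module
  · have := ((h2.smul t).sub (h1.smul (t.mul hu))).sub (h0.smul (hu.pow 2))
    convert this using 1
    unfold tr2
    push_cast
    match_scalars <;> ring

variable {k} in
omit [NumberField k] in
theorem red2_im1 {e : ℤ × ℤ} (T : ℝ) (ε : (k →+* ℂ) → Cub e ℂ) (σ : k →+* ℂ) (u : k)
    (v0 v1 : Cub e k) : im T ε σ (tr1 u v0 v1) = im T ε σ v1 + σ u • im T ε σ v0 := by
  rw [tr1, im_add, im_smul]

variable {k} in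
omit [NumberField k] in
theorem red2_im2 {e : ℤ × ℤ} (T : ℝ) (ε : (k →+* ℂ) → Cub e ℂ) (σ : k →+* ℂ) (u : k)
    (v0 v1 v2 : Cub e k) : im T ε σ (tr2 u v0 v1 v2) =
      im T ε σ v2 - σ u • im T ε σ v1 - (σ u ^ 2 / 2) • im T ε σ v0 := by
  rw [tr2, im_sub, im_sub, im_smul, im_smul, map_div₀, map_pow, map_ofNat]

variable {k} in
omit [NumberField k] in
theorem red2_imV {e : ℤ × ℤ} (T : ℝ) (ε : (k →+* ℂ) → Cub e ℂ) (σ : k →+* ℂ) (x y : k)
    (v0 v1 v2 : Cub e k) : im T ε σ (Vq v0 v1 v2 x y) =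
      σ x ^ 2 • im T ε σ v0 + (2 * σ x * σ y) • im T ε σ v1 - (2 * σ y ^ 2) • im T ε σ v2 := by
  rw [Vq, im_sub, im_add, im_smul, im_smul, im_smul]
  simp only [map_mul, map_pow, map_ofNat]

theorem red2_tau {τ N n C a : ℝ} (hτ : 0 < τ) (hN : 1 ≤ N) (hn : 0 ≤ n) (hC : 0 ≤ C)
    (h : τ ≤ 2 * (N * a)) (ha : a ≤ (1 / (2 * N)) ^ 2 * τ + 4 * (1 / (2 * N)) * n +
      2 * n ^ 2 * (C / τ)) : τ ≤ 1 + 8 * n + 8 * N * n ^ 2 * C := by
  have hN0 : 0 < N := by linarith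
  have hp : 0 ≤ 8 * N * n ^ 2 * C := by positivity
  by_contra hc
  have hc := not_le.1 hc
  have h1 : 1 ≤ τ := by linarith
  have h2 : C / τ ≤ C := div_le_self hC h1
  have h3 : 2 * (N * a) ≤ 2 * (N * ((1 / (2 * N)) ^ 2 * τ + 4 * (1 / (2 * N)) * n +
      2 * n ^ 2 * C)) := by
    gcongr
    refine ha.trans ?_
    gcongr
  have h4 : 2 * (N * ((1 / (2 * N)) ^ 2 * τ + 4 * (1 / (2 * N)) * n + 2 * n ^ 2 * C)) =
      τ / (2 * N) + 4 * n + 4 * N * n ^ 2 * C := by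
    field_simp
    ring
  have h5 : τ / (2 * N) ≤ τ / 2 := by
    gcongr
    linarith
  linarith

/-- `exists_short`, `Loc.complete` (`N = 2 n₁^2`), `μ σ = mu (im σ v0) (im σ v1)` is conjugation
invariant.  `exists_dirichlet` with `2 N η^2 ≤ 1/2` gives `(x, y)`; `N • Vq v0 v1 v2 x y` is a nonzero
isotropic lattice vector, so `τ ≤ 2 N (η^2 τ + 4 η n₀ + 2 n₀^2 C / τ)` and `τ ≤ C₀`.  Take `j` with
`C₀ / 4^(j+1) < τ ≤ C₀ / 4^j` and translate by the `u` of `exists_int_near`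
(`Hyp.translate`, `SHyp.norm_translate`); the denominator becomes `2 N`. -/
theorem exists_red : ∃ (N : ℕ) (C : ℝ), N ≠ 0 ∧ 1 ≤ C ∧ ∀ (e : ℤ × ℤ) (T : ℝ), 0 < T →
    ∀ (d : (Cub e k)ˣ) (ν : k) (z : Nat.Primes → (Cub e k)ˣ) (ε : (k →+* ℂ) → Cub e ℂ),
    nm (d : Cub e k) = ν ^ 2 → Loc d z → Eps (d : Cub e k) ν ε →
    (∃ x : Cub e k, x ≠ 0 ∧ Bf (d : Cub e k) x x = 0) →
    ∃ (j : ℕ) (v0 v1 v2 : Cub e k), Red N C T (d : Cub e k) ν z ε j v0 v1 v2 := by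
  obtain ⟨n₁, C, hn₁, hC, hshort⟩ := exists_short k
  obtain ⟨C₁, hC₁, hnear⟩ := exists_int_near k
  set N : ℕ := 2 * n₁ ^ 2 with hNdef
  have hN : N ≠ 0 := by positivity
  have hN1 : (1 : ℝ) ≤ N := by exact_mod_cast Nat.one_le_iff_ne_zero.2 hN
  obtain ⟨n₀, hdir⟩ := exists_dirichlet k (1 / (2 * (N : ℝ))) (by positivity)
  set C₀ : ℝ := 1 + 8 * n₀ + 8 * N * (n₀ : ℝ) ^ 2 * C with hC₀
  have hC0 : 0 ≤ C := by linarith
  have hC₀1 : 1 ≤ C₀ := by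
    have : (0 : ℝ) ≤ 8 * n₀ + 8 * N * (n₀ : ℝ) ^ 2 * C := by positivity
    linarith
  have hA : 0 ≤ C₁ * C₀ := by positivity
  have hB : 0 ≤ C₁ ^ 2 * C₀ := by positivity
  refine ⟨2 * N, C₀ + 2 + C₁ * C₀ + 4 * C + 2 * C₁ + C₁ ^ 2 * C₀, by positivity, by linarith, ?_⟩
  intro e T hT d ν z ε hν hL hE hx
  obtain ⟨v0, w, τ, h0, hw, hiso, hB0, hτ, hbd, hmin⟩ := hshort e T hT d ν z ε hν hL hE hx
  obtain ⟨v1, v2, hyp, h1, h2⟩ := hL.complete hν h0 hw hiso hn₁ hB0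
  rw [← hNdef] at h1 h2
  have h0' : InLat z ((N : k) • v0) := h0.smul (red2_int k N)
  set μ : (k →+* ℂ) → ℂ := fun σ => mu (im T ε σ v0) (im T ε σ v1) with hμ
  have hμc : ∀ σ, μ (ComplexEmbedding.conjugate σ) = starRingEnd ℂ (μ σ) := fun σ =>
    mu_conj (hE.im_conj σ v0) (hE.im_conj σ v1)
  have hS : ∀ σ, SHyp (im T ε σ v0) (im T ε σ v1) (im T ε σ v2) := hE.sHyp hT.ne' hyp
  have hinv : ∀ σ, ‖im T ε σ v0‖⁻¹ ≤ C / τ := fun σ => by
    have hp : 0 < ‖im T ε σ v0‖ := norm_pos_iff.2 (hS σ).norm_le.1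
    rw [inv_eq_one_div, div_le_div_iff₀ hp hτ, one_mul]
    exact (hbd σ).2
  have hτC : τ ≤ C₀ := by
    obtain ⟨y, hy1, hy2, x, hxi, hxy⟩ := hdir μ hμc
    have hyi := red2_int k y
    have t := red2_two k
    have hV := hyp.Vq_iso x (y : k)
    have hl : InLat z ((N : k) • Vq v0 v1 v2 x (y : k)) := by
      have := ((h0'.smul (hxi.pow 2)).add (h1.smul ((t.mul hxi).mul hyi))).sub
        (h2.smul (t.mul (hyi.pow 2)))
      convert this using 1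
      unfold Vq
      module
    have hne : (N : k) • Vq v0 v1 v2 x (y : k) ≠ 0 := by
      intro h
      have h3 := Bf_smul_left (d : Cub e k) (N : k) (Vq v0 v1 v2 x (y : k)) v0
      rw [h, hV.2] at h3
      have h4 : Bf (d : Cub e k) 0 v0 = 0 := by simp [Bf]
      rw [h4] at h3
      have h5 : (N : k) ≠ 0 := Nat.cast_ne_zero.2 hN
      have h6 : (y : k) ≠ 0 := Nat.cast_ne_zero.2 (by omega)
      exact mul_ne_zero h5 (neg_ne_zero.2 (mul_ne_zero two_ne_zero (pow_ne_zero 2 h6))) h3.symm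
    obtain ⟨σ, hσ⟩ := hmin _ hl hne (by rw [Bf_smul_left, Bf_smul_right, hV.1]; simp)
    rw [im_smul, norm_smul, map_natCast, Complex.norm_natCast, red2_imV, map_natCast] at hσ
    refine red2_tau hτ hN1 (Nat.cast_nonneg n₀) hC0 hσ (((hS σ).norm_conic _ _).trans ?_)
    have e1 := hxy σ
    have e2 : ‖(y : ℂ)‖ ≤ n₀ := by
      rw [Complex.norm_natCast]
      exact_mod_cast hy2
    have e3 := (hbd σ).1
    have e4 := hinv σ
    gcongr
  obtain ⟨j, hj1, hj2⟩ := exists_nat_pow_near (x := C₀ / τ) (y := 4)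
    ((one_le_div hτ).2 hτC) (by norm_num)
  obtain ⟨u, hu, hun⟩ := hnear μ hμc
  obtain ⟨l0, l1, l2⟩ := red2_lat h0' h1 h2 hu
  have hp4 : (1 : ℝ) ≤ 4 ^ j := one_le_pow₀ (by norm_num)
  refine ⟨j, v0, tr1 u v0 v1, tr2 u v0 v1 v2, hyp.translate u, l0, l1, l2, fun σ => ?_,
    fun σ => ?_, fun σ => ?_⟩
  · refine (hbd σ).1.trans ?_
    rw [le_div_iff₀ hτ] at hj1
    rw [le_div_iff₀ (by positivity)]
    linarith
  · rw [red2_im1]
    refine ((hS σ).norm_translate _).1.trans ?_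
    have e1 := hun σ
    have e2 := (hbd σ).1.trans hτC
    have : ‖σ u + μ σ‖ * ‖im T ε σ v0‖ ≤ C₁ * C₀ := by gcongr
    linarith
  · rw [red2_im2]
    refine ((hS σ).norm_translate _).2.trans ?_
    have e1 := hun σ
    have e2 := (hbd σ).1.trans hτC
    have e3 : ‖σ u + μ σ‖ ^ 2 * ‖im T ε σ v0‖ ≤ C₁ ^ 2 * C₀ := by gcongr
    have e4 : C / τ ≤ 4 * C * 4 ^ j := by
      rw [div_lt_iff₀ hτ, pow_succ] at hj2
      rw [div_le_iff₀ hτ]
      have : C * 1 ≤ C * (4 ^ j * 4 * τ) := by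
        gcongr
        linarith
      linarith
    have e5 := hinv σ
    have e6 : (C₀ + 2 + C₁ * C₀ + 2 * C₁ + C₁ ^ 2 * C₀) * 1 ≤
        (C₀ + 2 + C₁ * C₀ + 2 * C₁ + C₁ ^ 2 * C₀) * 4 ^ j := by gcongr
    change ‖im T ε σ v0‖⁻¹ + 2 * ‖σ u + μ σ‖ + ‖σ u + μ σ‖ ^ 2 * ‖im T ε σ v0‖ ≤ _
    linarith

variable {k}

theorem Red.translate {e : ℤ × ℤ} {N : ℕ} {C T : ℝ} {d : Cub e k} {ν : k}
    {z : Nat.Primes → (Cub e k)ˣ} {ε : (k →+* ℂ) → Cub e ℂ} {j : ℕ} {v0 v1 v2 : Cub e k}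
    (h : Red N C T d ν z ε j v0 v1 v2) {u : k} (hu : IsIntegral ℤ u) {c : ℝ} (hc : 0 ≤ c)
    (huc : ∀ σ : k →+* ℂ, ‖σ u‖ ≤ c * 4 ^ j) :
    Red (2 * N) (C * (1 + c) ^ 2) T d ν z ε j v0 (tr1 u v0 v1) (tr2 u v0 v1 v2) := by
  obtain ⟨l0, l1, l2⟩ := red2_lat h.l0 h.l1 h.l2 hu
  have hp4 : (0 : ℝ) < 4 ^ j := by positivity
  have hC : (k →+* ℂ) → 0 ≤ C := fun σ => (norm_nonneg _).trans (h.s1 σ)
  refine ⟨h.hyp.translate u, l0, l1, l2, fun σ => ?_, fun σ => ?_, fun σ => ?_⟩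
  · refine (h.s0 σ).trans ?_
    have := hC σ
    gcongr
    have : C * 1 ≤ C * (1 + c) ^ 2 := by
      gcongr
      nlinarith
    linarith
  · rw [red2_im1]
    refine (norm_add_le _ _).trans ?_
    rw [norm_smul]
    have e0 := hC σ
    have e1 := h.s0 σ
    have e2 := h.s1 σ
    have e3 := huc σ
    have e4 : ‖σ u‖ * ‖im T ε σ v0‖ ≤ c * 4 ^ j * (C / 4 ^ j) := by gcongr
    have e5 : c * 4 ^ j * (C / 4 ^ j) = c * C := by field_simp
    have e6 : 0 ≤ c * C := by positivity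
    have e7 : 0 ≤ c ^ 2 * C := by positivity
    nlinarith
  · rw [red2_im2]
    refine (norm_sub_le _ _).trans ((add_le_add_left (norm_sub_le _ _) _).trans ?_)
    rw [norm_smul, norm_smul, norm_div, norm_pow, Complex.norm_two]
    have e0 := hC σ
    have e1 := h.s0 σ
    have e2 := h.s1 σ
    have e3 := huc σ
    have e8 := h.s2 σ
    have e4 : ‖σ u‖ ^ 2 / 2 * ‖im T ε σ v0‖ ≤ (c * 4 ^ j) ^ 2 / 2 * (C / 4 ^ j) := by gcongr
    have e5 : (c * 4 ^ j) ^ 2 / 2 * (C / 4 ^ j) = c ^ 2 * C * 4 ^ j / 2 := by field_simp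
    have e6 : ‖σ u‖ * ‖im T ε σ v1‖ ≤ c * 4 ^ j * C := by gcongr
    have e7 : 0 ≤ c ^ 2 * C * 4 ^ j := by positivity
    have e9 : 0 ≤ c * C * 4 ^ j := by positivity
    nlinarith

end Pool.Agent.Lib.MP_775b3b_nt
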