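import Pool.Agent.Lib.MP_775b3b_nt.ZRedD2
import Pool.Agent.Lib.MP_775b3b_nt.Red2

/-! Reduced bases with a defect. -/

namespace Pool.Agent.Lib.MP_775b3b_nt

open Cub NumberField

/-- copy of `exists_red` with `exists_shortD`, `LocD.complete` (`N = 2 n₁^2 n`) -/
theorem exists_redD (k : Type*) [Field k] [NumberField k] {n : ℕ} (hn : n ≠ 0) :
    ∃ (N : ℕ) (C : ℝ), N ≠ 0 ∧ 1 ≤ C ∧ ∀ (e : ℤ × ℤ) (T : ℝ), 0 < T →
    ∀ (d : (Cub e k)ˣ) (ν : k) (z : Nat.Primes → (Cub e k)ˣ) (ε : (k →+* ℂ) → Cub e ℂ),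
    nm (d : Cub e k) = ν ^ 2 → LocD n d z → Eps (d : Cub e k) ν ε → Iso (d : Cub e k) →
    ∃ (j : ℕ) (v0 v1 v2 : Cub e k), Red N C T (d : Cub e k) ν z ε j v0 v1 v2 := by
  obtain ⟨n₁, C, hn₁, hC, hshort⟩ := exists_shortD k hn
  obtain ⟨C₁, hC₁, hnear⟩ := exists_int_near k
  set N : ℕ := 2 * n₁ ^ 2 * n with hNdef
  have hN : N ≠ 0 := mul_ne_zero (mul_ne_zero two_ne_zero (pow_ne_zero 2 hn₁)) hn
  have hN1 : (1 : ℝ) ≤ N := by exact_mod_cast Nat.one_le_iff_ne_zero.2 hN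
  obtain ⟨n₀, hdir⟩ := exists_dirichlet k (1 / (2 * (N : ℝ))) (by positivity)
  set C₀ : ℝ := 1 + 8 * n₀ + 8 * N * (n₀ : ℝ) ^ 2 * C with hC₀
  have hC0 : 0 ≤ C := by linarith
  have hC₀1 : 1 ≤ C₀ := by
    have : (0 : ℝ) ≤ 8 * n₀ + 8 * N * (n₀ : ℝ) ^ 2 * C := by positivity
    linarith
  have hA : 0 ≤ C₁ * C₀ := by positivity
  have hB : 0 ≤ C₁ ^ 2 * C₀ := by positivity
  refine ⟨2 * N, C₀ + 2 + C₁ * C₀ + 4 * C + 2 * C₁ + C₁ ^ 2 * C₀, by positivity, by linarith, ?_⟩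
  intro e T hT d ν z ε hν hL hE hx
  obtain ⟨v0, w, τ, h0, hw, hiso, hB0, hτ, hbd, hmin⟩ := hshort e T hT d ν z ε hν hL hE hx
  obtain ⟨v1, v2, hyp, h1, h2⟩ := hL.complete hν h0 hw hiso hn₁ hB0
  rw [← hNdef] at h1 h2
  have h0' : InLat z ((N : k) • v0) := h0.smul (red2_int k N)
  set μ : (k →+* ℂ) → ℂ := fun σ => mu (im T ε σ v0) (im T ε σ v1) with hμ
  have hμc : ∀ σ, μ (ComplexEmbedding.conjugate σ) = starRingEnd ℂ (μ σ) := fun σ =>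
    mu_conj (hE.im_conj σ v0) (hE.im_conj σ v1)
  have hS : ∀ σ, SHyp (im T ε σ v0) (im T ε σ v1) (im T ε σ v2) := hE.sHyp hT.ne' hyp
  have hinv : ∀ σ, ‖im T ε σ v0‖⁻¹ ≤ C / τ := fun σ => by
    have hp : 0 < ‖im T ε σ v0‖ := norm_pos_iff.2 (hS σ).norm_le.1
    rw [inv_eq_one_div, div_le_div_iff₀ hp hτ, one_mul]
    exact (hbd σ).2
  have hτC : τ ≤ C₀ := by
    obtain ⟨y, hy1, hy2, x, hxi, hxy⟩ := hdir μ hμc
    have hyi := red2_int k y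
    have t := red2_two k
    have hV := hyp.Vq_iso x (y : k)
    have hl : InLat z ((N : k) • Vq v0 v1 v2 x (y : k)) := by
      have := ((h0'.smul (hxi.pow 2)).add (h1.smul ((t.mul hxi).mul hyi))).sub
        (h2.smul (t.mul (hyi.pow 2)))
      convert this using 1
      unfold Vq
      module
    have hne : (N : k) • Vq v0 v1 v2 x (y : k) ≠ 0 := by
      intro h
      have h3 := Bf_smul_left (d : Cub e k) (N : k) (Vq v0 v1 v2 x (y : k)) v0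
      rw [h, hV.2] at h3
      have h4 : Bf (d : Cub e k) 0 v0 = 0 := by simp [Bf]
      rw [h4] at h3
      have h5 : (N : k) ≠ 0 := Nat.cast_ne_zero.2 hN
      have h6 : (y : k) ≠ 0 := Nat.cast_ne_zero.2 (by omega)
      exact mul_ne_zero h5 (neg_ne_zero.2 (mul_ne_zero two_ne_zero (pow_ne_zero 2 h6))) h3.symm
    obtain ⟨σ, hσ⟩ := hmin _ hl hne (by rw [Bf_smul_left, Bf_smul_right, hV.1]; simp)
    rw [im_smul, norm_smul, map_natCast, Complex.norm_natCast, red2_imV, map_natCast] at hσ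
    refine red2_tau hτ hN1 (Nat.cast_nonneg n₀) hC0 hσ (((hS σ).norm_conic _ _).trans ?_)
    have e1 := hxy σ
    have e2 : ‖(y : ℂ)‖ ≤ n₀ := by
      rw [Complex.norm_natCast]
      exact_mod_cast hy2
    have e3 := (hbd σ).1
    have e4 := hinv σ
    gcongr
  obtain ⟨j, hj1, hj2⟩ := exists_nat_pow_near (x := C₀ / τ) (y := 4)
    ((one_le_div hτ).2 hτC) (by norm_num)
  obtain ⟨u, hu, hun⟩ := hnear μ hμc
  obtain ⟨l0, l1, l2⟩ := red2_lat h0' h1 h2 hu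
  have hp4 : (1 : ℝ) ≤ 4 ^ j := one_le_pow₀ (by norm_num)
  refine ⟨j, v0, tr1 u v0 v1, tr2 u v0 v1 v2, hyp.translate u, l0, l1, l2, fun σ => ?_,
    fun σ => ?_, fun σ => ?_⟩
  · refine (hbd σ).1.trans ?_
    rw [le_div_iff₀ hτ] at hj1
    rw [le_div_iff₀ (by positivity)]
    linarith
  · rw [red2_im1]
    refine ((hS σ).norm_translate _).1.trans ?_
    have e1 := hun σ
    have e2 := (hbd σ).1.trans hτC
    have : ‖σ u + μ σ‖ * ‖im T ε σ v0‖ ≤ C₁ * C₀ := by gcongr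
    linarith
  · rw [red2_im2]
    refine ((hS σ).norm_translate _).2.trans ?_
    have e1 := hun σ
    have e2 := (hbd σ).1.trans hτC
    have e3 : ‖σ u + μ σ‖ ^ 2 * ‖im T ε σ v0‖ ≤ C₁ ^ 2 * C₀ := by gcongr
    have e4 : C / τ ≤ 4 * C * 4 ^ j := by
      rw [div_lt_iff₀ hτ, pow_succ] at hj2
      rw [div_le_iff₀ hτ]
      have : C * 1 ≤ C * (4 ^ j * 4 * τ) := by
        gcongr
        linarith
      linarith
    have e5 := hinv σ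
    have e6 : (C₀ + 2 + C₁ * C₀ + 2 * C₁ + C₁ ^ 2 * C₀) * 1 ≤
        (C₀ + 2 + C₁ * C₀ + 2 * C₁ + C₁ ^ 2 * C₀) * 4 ^ j := by gcongr
    change ‖im T ε σ v0‖⁻¹ + 2 * ‖σ u + μ σ‖ + ‖σ u + μ σ‖ ^ 2 * ‖im T ε σ v0‖ ≤ _
    linarith

end Pool.Agent.Lib.MP_775b3b_nt
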