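import Pool.Agent.Lib.MP_775b3b_nt.ZFF4
import Pool.Agent.Lib.MP_775b3b_nt.Om2

/-! Irreducible quartics modulo a prime, and a sieve in five variables. -/

namespace Pool.Agent.Lib.MP_775b3b_nt

open Polynomial in
theorem ZQSieve_qpoly (K : Type*) [CommRing K] (P : K[X]) (h : P.natDegree = 4) :
    qpoly (fun i : Fin 5 => P.coeff (4 - i)) = P := by
  conv_rhs => rw [P.as_sum_range_C_mul_X_pow, h]
  simp [qpoly, Finset.sum_range_succ]
  ring

open Polynomial in
theorem ZQSieve_deg (l : ℕ) [Fact l.Prime] (x : GaloisField l 4) (hx : x ^ (l ^ 2) ≠ x) :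
    (minpoly (ZMod l) x).natDegree = 4 := by
  have hi : IsIntegral (ZMod l) x := Algebra.IsIntegral.isIntegral x
  have h1 : (minpoly (ZMod l) x).natDegree ∣ 4 := by
    have h := minpoly.degree_dvd hi
    rwa [GaloisField.finrank l (by norm_num)] at h
  have h2 : ¬ (minpoly (ZMod l) x).natDegree ∣ 2 := by
    intro h
    rw [(minpoly.irreducible hi).natDegree_dvd_iff_dvd_X_pow_card_pow_sub_X] at h
    obtain ⟨g, hg⟩ := h
    have h3 := congrArg (aeval x) hg
    rw [map_mul, minpoly.aeval, zero_mul, Nat.card_zmod] at h3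
    simp only [map_sub, map_pow, aeval_X] at h3
    exact hx (sub_eq_zero.1 h3)
  have h3 : (minpoly (ZMod l) x).natDegree ≤ 4 := Nat.le_of_dvd (by norm_num) h1
  generalize (minpoly (ZMod l) x).natDegree = m at h1 h2 h3
  interval_cases m <;> simp_all

open Classical in
/-- `L = GaloisField l 4` has `l^4` elements, at most `l^2` of them satisfy `x^(l^2) = x`.  For the
others `minpoly (ZMod l) x` has degree four: the degree `m` divides four (`minpoly.degree_dvd` or
`IntermediateField.adjoin.finrank`), and `x^(l^m) = x` in the field `(ZMod l)⟮x⟯` with `l^m` elements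
(`FiniteField.pow_card`).  The map `x ↦ (coefficients of minpoly)` has fibres of size at most four. -/
theorem card_irr4 (l : ℕ) [Fact l.Prime] : (l : ℝ) ^ 4 - (l : ℝ) ^ 2 ≤
    4 * (Finset.univ.filter fun c : Fin 5 → ZMod l => c 0 = 1 ∧ Irr4 c).card := by
  have hp : 1 < l := (Fact.out : l.Prime).one_lt
  have : Fintype (GaloisField l 4) := Fintype.ofFinite _
  set S : Finset (GaloisField l 4) := Finset.univ.filter fun x => x ^ (l ^ 2) ≠ x with hS
  set T : Finset (GaloisField l 4) := Finset.univ.filter fun x => ¬ x ^ (l ^ 2) ≠ x with hT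
  have hST : S.card + T.card = l ^ 4 := by
    rw [hS, hT, Finset.card_filter_add_card_filter_not, Finset.card_univ, ← Nat.card_eq_fintype_card,
      GaloisField.card l 4 (by norm_num)]
  have hT2 : T.card ≤ l ^ 2 := by
    have h0 := FiniteField.X_pow_card_pow_sub_X_ne_zero (GaloisField l 4) (n := 2) (by norm_num) hp
    have h1 := FiniteField.X_pow_card_pow_sub_X_natDegree_eq (GaloisField l 4) (n := 2)
      (by norm_num) hp
    rw [← h1]
    refine Polynomial.card_le_degree_of_subset_roots ?_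
    intro x hx
    have hx' : x ^ (l ^ 2) = x := by simpa [hT] using hx
    rw [Polynomial.mem_roots h0]
    simp [hx']
  have hS4 : S.card ≤ 4 * (Finset.univ.filter fun c : Fin 5 → ZMod l => c 0 = 1 ∧ Irr4 c).card := by
    refine Finset.card_le_mul_card_image_of_maps_to
      (f := fun x => fun i : Fin 5 => (minpoly (ZMod l) x).coeff (4 - i)) ?_ 4 ?_
    · intro x hx
      have hd := ZQSieve_deg l x (by simpa [hS] using hx)
      have hi : IsIntegral (ZMod l) x := Algebra.IsIntegral.isIntegral x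
      have h1 : (minpoly (ZMod l) x).coeff 4 = 1 := by
        have h := (minpoly.monic hi).coeff_natDegree
        rwa [hd] at h
      simp only [Finset.mem_filter, Finset.mem_univ, true_and]
      refine ⟨by simpa using h1, ?_, ?_⟩
      · simp [h1]
      · rw [ZQSieve_qpoly _ _ hd]
        exact minpoly.irreducible hi
    · intro c hc
      simp only [Finset.mem_filter, Finset.mem_univ, true_and] at hc
      have hne : qpoly c ≠ 0 := hc.2.2.ne_zero
      have hdeg : (qpoly c).natDegree ≤ 4 := by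
        unfold qpoly
        compute_degree
      have h2 : ((qpoly c).map (algebraMap (ZMod l) (GaloisField l 4))).natDegree ≤ 4 :=
        Polynomial.natDegree_map_le.trans hdeg
      refine le_trans (Polynomial.card_le_degree_of_subset_roots ?_) h2
      intro x hx
      have hx' := Finset.mem_filter.1 hx
      have hd := ZQSieve_deg l x (by simpa [hS] using hx'.1)
      rw [Polynomial.mem_roots (Polynomial.map_ne_zero hne), ← hx'.2, ZQSieve_qpoly _ _ hd,
        Polynomial.IsRoot.def, Polynomial.eval_map_algebraMap, minpoly.aeval]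
  have h1 : ((S.card + T.card : ℕ) : ℝ) = (l : ℝ) ^ 4 := by exact_mod_cast hST
  have h2 : (T.card : ℝ) ≤ (l : ℝ) ^ 2 := by exact_mod_cast hT2
  have h3 : (S.card : ℝ) ≤
      4 * (Finset.univ.filter fun c : Fin 5 → ZMod l => c 0 = 1 ∧ Irr4 c).card := by
    exact_mod_cast hS4
  push_cast at h1
  linarith

open Classical in
/-- `(a, c) ↦ a • c` is injective on `a ≠ 0`, `c 0 = 1` (`Irr4.smul`), `qc` is a bijection, and
`(l - 1) (l^4 - l^2) / 4 ≥ l^5 / 8` -/
theorem card_bad5 (l : ℕ) [Fact l.Prime] (h5 : 5 ≤ l) :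
    ((Finset.univ.filter fun n : Fin 5 → ZMod l => ¬ Irr4 (qc n)).card : ℝ) ≤
      7 / 8 * (l : ℝ) ^ 5 := by
  have hp : l.Prime := Fact.out
  have h2 : (2 : ZMod l) ≠ 0 := by
    intro h
    have h' : ((2 : ℕ) : ZMod l) = 0 := by exact_mod_cast h
    rw [ZMod.natCast_eq_zero_iff] at h'
    have := Nat.le_of_dvd (by norm_num) h'
    omega
  have h3 : (3 : ZMod l) ≠ 0 := by
    intro h
    have h' : ((3 : ℕ) : ZMod l) = 0 := by exact_mod_cast h
    rw [ZMod.natCast_eq_zero_iff] at h'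
    have := Nat.le_of_dvd (by norm_num) h'
    omega
  set M := Finset.univ.filter fun c : Fin 5 → ZMod l => c 0 = 1 ∧ Irr4 c with hM
  set G := Finset.univ.filter fun n : Fin 5 → ZMod l => Irr4 (qc n) with hG
  let un : (Fin 5 → ZMod l) → (Fin 5 → ZMod l) := fun c =>
    ![c 0, c 1 / 4, c 2 / 6, -(c 3 / 8), c 4 / 4]
  have h4 : (4 : ZMod l) ≠ 0 := by
    rw [show (4 : ZMod l) = 2 * 2 by norm_num]
    exact mul_ne_zero h2 h2
  have h6 : (6 : ZMod l) ≠ 0 := by
    rw [show (6 : ZMod l) = 2 * 3 by norm_num]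
    exact mul_ne_zero h2 h3
  have h8 : (8 : ZMod l) ≠ 0 := by
    rw [show (8 : ZMod l) = 2 * 4 by norm_num]
    exact mul_ne_zero h2 h4
  have hun : ∀ c, qc (un c) = c := by
    intro c
    funext i
    fin_cases i <;> simp [qc, un] <;> field_simp
  have hG1 : ((Finset.univ.erase (0 : ZMod l)) ×ˢ M).card ≤ G.card := by
    refine Finset.card_le_card_of_injOn (fun x => un (x.1 • x.2)) ?_ ?_
    · intro x hx
      simp only [Finset.coe_product, Set.mem_prod, Finset.mem_coe, Finset.mem_erase, hM,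
        Finset.mem_filter, Finset.mem_univ, true_and, and_true] at hx
      simp only [hG, Finset.coe_filter, Finset.mem_univ, true_and, Set.mem_ofPred_eq, hun]
      exact hx.2.2.smul hx.1
    · intro x hx y hy hxy
      simp only [Finset.coe_product, Set.mem_prod, Finset.mem_coe, Finset.mem_erase, hM,
        Finset.mem_filter, Finset.mem_univ, true_and, and_true] at hx hy
      have h := congrArg qc hxy
      simp only [hun] at h
      have h0 := congrFun h 0
      simp only [Pi.smul_apply, smul_eq_mul, hx.2.1, hy.2.1, mul_one] at h0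
      refine Prod.ext h0 ?_
      rw [← h0] at h
      exact smul_right_injective _ hx.1 h
  have hcard : Fintype.card (ZMod l) = l := ZMod.card l
  rw [Finset.card_product, Finset.card_erase_of_mem (Finset.mem_univ _), Finset.card_univ,
    hcard] at hG1
  have hsum : G.card + (Finset.univ.filter fun n : Fin 5 → ZMod l => ¬ Irr4 (qc n)).card =
      l ^ 5 := by
    rw [hG, Finset.card_filter_add_card_filter_not, Finset.card_univ, Fintype.card_fun, hcard,
      Fintype.card_fin]
  have e1 : (G.card : ℝ) + (Finset.univ.filter fun n : Fin 5 → ZMod l => ¬ Irr4 (qc n)).card =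
      (l : ℝ) ^ 5 := by exact_mod_cast hsum
  have e2 : ((l : ℝ) - 1) * M.card ≤ G.card := by
    have h : (((l - 1) * M.card : ℕ) : ℝ) ≤ G.card := by exact_mod_cast hG1
    rwa [Nat.cast_mul, Nat.cast_sub hp.one_le, Nat.cast_one] at h
  have e3 := card_irr4 l
  rw [← hM] at e3
  have e5 : (5 : ℝ) ≤ l := by exact_mod_cast h5
  have e4 : ((l : ℝ) - 1) * ((l : ℝ) ^ 4 - (l : ℝ) ^ 2) ≤ ((l : ℝ) - 1) * (4 * M.card) :=
    mul_le_mul_of_nonneg_left e3 (by linarith)
  have e6 : (l : ℝ) ^ 5 / 2 ≤ ((l : ℝ) - 1) * ((l : ℝ) ^ 4 - (l : ℝ) ^ 2) := by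
    have h0 : 0 ≤ (l : ℝ) ^ 2 := by positivity
    have h1 : (l : ℝ) ^ 3 / 2 ≤ ((l : ℝ) - 1) * ((l : ℝ) ^ 2 - 1) := by
      nlinarith [mul_nonneg (sub_nonneg.2 e5) h0, mul_nonneg (sub_nonneg.2 e5) (sub_nonneg.2 e5)]
    nlinarith [mul_le_mul_of_nonneg_left h1 h0]
  nlinarith

/-- map `n` to the family of its reductions, in `Q.pi Bad`; in a fibre all coordinates are congruent
modulo `q = ∏ Q` (`Finset.prod_dvd_of_coprime`, `om2_cong_card` with `⌊b i⌋₊`), so a fibre has at
most `∏ (2 b i / q + 1) ≤ ∏ (3 b i / q)` elements -/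
theorem card_int5_sieve (Q : Finset ℕ) (hQ : ∀ l ∈ Q, l.Prime) {β : ℝ} (hβ : 0 ≤ β)
    (Bad : ∀ l : ℕ, Finset (Fin 5 → ZMod l)) (hB : ∀ l ∈ Q, ((Bad l).card : ℝ) ≤ β * (l : ℝ) ^ 5)
    (b : Fin 5 → ℝ) (hb : ∀ i, ((∏ l ∈ Q, l : ℕ) : ℝ) ≤ b i) (Z : Finset (Fin 5 → ℤ))
    (h : ∀ n ∈ Z, (∀ i, |(n i : ℝ)| ≤ b i) ∧ ∀ l ∈ Q, (fun i => (n i : ZMod l)) ∈ Bad l) :
    (Z.card : ℝ) ≤ β ^ Q.card * 3 ^ 5 * ∏ i, b i := by
  classical
  set q : ℕ := ∏ l ∈ Q, l with hq
  have hq0 : 0 < q := Finset.prod_pos fun l hl => (hQ l hl).pos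
  have hqR : (0 : ℝ) < q := by exact_mod_cast hq0
  let F : (Fin 5 → ℤ) → (∀ l ∈ Q, Fin 5 → ZMod l) := fun n l _ i => (n i : ZMod l)
  have hfib : ∀ y ∈ Q.pi Bad, ((Z.filter fun n => F n = y).card : ℝ) ≤ ∏ i, (3 * b i / q) := by
    intro y _
    set W := Z.filter fun n => F n = y with hW
    have h1 : W.card ≤ ∏ i, (W.image fun n => n i).card := by
      rw [← Fintype.card_piFinset]
      refine Finset.card_le_card fun n hn => ?_
      rw [Fintype.mem_piFinset]
      exact fun i => Finset.mem_image_of_mem _ hn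
    have h2 : (W.card : ℝ) ≤ ∏ i, ((W.image fun n => n i).card : ℝ) := by exact_mod_cast h1
    refine h2.trans (Finset.prod_le_prod (fun i _ => by positivity) fun i _ => ?_)
    have hbi : (q : ℝ) ≤ b i := hb i
    have hb0 : 0 ≤ b i := hqR.le.trans hbi
    have h3 := om2_cong_card (W.image fun n => n i) ⌊b i⌋₊ q hq0 ?_ ?_
    · refine h3.trans ?_
      have h4 : (⌊b i⌋₊ : ℝ) ≤ b i := Nat.floor_le hb0
      rw [div_add_one hqR.ne']
      exact div_le_div_of_nonneg_right (by linarith) hqR.le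
    · intro x hx
      obtain ⟨n, hn, rfl⟩ := Finset.mem_image.1 hx
      have h5 := (h n (Finset.mem_filter.1 hn).1).1 i
      have h6 : |n i| ≤ ⌊b i⌋ := Int.le_floor.2 (by push_cast; exact h5)
      rwa [← Int.natCast_floor_eq_floor hb0] at h6
    · intro x hx x' hx'
      obtain ⟨n, hn, rfl⟩ := Finset.mem_image.1 hx
      obtain ⟨n', hn', rfl⟩ := Finset.mem_image.1 hx'
      have h5 : F n = F n' := (Finset.mem_filter.1 hn).2.trans (Finset.mem_filter.1 hn').2.symm
      rw [hq, Nat.cast_prod]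
      refine Finset.prod_dvd_of_coprime ?_ fun l hl => ?_
      · intro l hl l' hl' hne
        exact Nat.isCoprime_iff_coprime.2 ((Nat.coprime_primes (hQ l hl) (hQ l' hl')).2 hne)
      · have h6 : ((n' i : ℤ) : ZMod l) = (n i : ℤ) := (congrFun (congrFun (congrFun h5 l) hl) i).symm
        exact (ZMod.intCast_eq_intCast_iff_dvd_sub _ _ _).1 h6
  have hmaps : ∀ n ∈ Z, F n ∈ Q.pi Bad := fun n hn =>
    Finset.mem_pi.2 fun l hl => (h n hn).2 l hl
  have hZ : (Z.card : ℝ) = ∑ y ∈ Q.pi Bad, ((Z.filter fun n => F n = y).card : ℝ) := by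
    rw [Finset.card_eq_sum_card_fiberwise hmaps]
    push_cast
    rfl
  have hP : ((Q.pi Bad).card : ℝ) ≤ β ^ Q.card * (q : ℝ) ^ 5 := by
    rw [Finset.card_pi, Nat.cast_prod, hq, Nat.cast_prod, ← Finset.prod_pow, ← Finset.prod_const,
      ← Finset.prod_mul_distrib]
    exact Finset.prod_le_prod (fun l _ => by positivity) hB
  have hb0 : 0 ≤ ∏ i, (3 * b i / q) := Finset.prod_nonneg fun i _ => by
    have := hqR.le.trans (hb i)
    positivity
  have hE : ∏ i, (3 * b i / q) = 3 ^ 5 * (∏ i, b i) / (q : ℝ) ^ 5 := by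
    rw [Finset.prod_div_distrib, Finset.prod_mul_distrib]
    simp
  calc (Z.card : ℝ) ≤ ∑ _y ∈ Q.pi Bad, ∏ i, (3 * b i / q) := by
        rw [hZ]
        exact Finset.sum_le_sum hfib
    _ = (Q.pi Bad).card * ∏ i, (3 * b i / q) := by rw [Finset.sum_const, nsmul_eq_mul]
    _ ≤ β ^ Q.card * (q : ℝ) ^ 5 * ∏ i, (3 * b i / q) := mul_le_mul_of_nonneg_right hP hb0
    _ = _ := by
        rw [hE]
        field_simp

end Pool.Agent.Lib.MP_775b3b_nt
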