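import Pool.Agent.Lib.MP_775b3b_nt.QCount
import Pool.Agent.Lib.MP_775b3b_nt.ZRedD3
import Pool.Agent.Lib.MP_775b3b_nt.ZQSieve
import Pool.Agent.Lib.MP_775b3b_nt.ZIrr
import Pool.Agent.Lib.MP_775b3b_nt.ZGlue

/-! The sieve over the rationals. -/

namespace Pool.Agent.Lib.MP_775b3b_nt

open Cub MP_439fea_co WithZero

theorem zqcount_one {e : ℤ × ℤ} {T : ℕ} (hT : 1 ≤ T) (he : e ∈ box T) {n₀ N : ℕ}
    {d : (Cub e ℚ)ˣ} {ν : ℚ} {z : Nat.Primes → (Cub e ℚ)ˣ} {ε : (ℚ →+* ℂ) → Cub e ℂ}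
    (hz : LocD n₀ d z) (hε : Eps (d : Cub e ℚ) ν ε) {x y : Cub e ℚ} (hx : InLat z ((N : ℚ) • x))
    (hy : InLat z ((N : ℚ) • y)) {a b : ℝ} (ha : ∀ σ, ‖im T ε σ x‖ ≤ a)
    (hb : ∀ σ, ‖im T ε σ y‖ ≤ b) : ∃ n : ℤ, (n : ℚ) = (N : ℚ) ^ 2 * Gv (d : Cub e ℚ) x y ∧
      |(n : ℝ)| ≤ 4 * N ^ 2 * T * (a * b) := by
  have h1 := hz.isIntegral_Gv hx hy
  rw [Gv_eq_Bf, Bf_smul_left, Bf_smul_right, ← Gv_eq_Bf, ← mul_assoc, ← sq] at h1
  obtain ⟨n, hn⟩ := IsIntegrallyClosed.isIntegral_iff.1 h1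
  rw [eq_intCast] at hn
  refine ⟨n, hn, ?_⟩
  have hT0 : (0 : ℝ) < T := by exact_mod_cast hT
  obtain ⟨h2, h3, -⟩ := mem_box.1 he
  have h4 : ‖(e.1 : ℂ) / ((T : ℝ) : ℂ) ^ 2‖ ≤ 1 := by
    rw [norm_div, norm_pow, Complex.norm_intCast, Complex.norm_real, Real.norm_of_nonneg hT0.le,
      div_le_one (by positivity)]
    exact_mod_cast h2
  have h5 : ‖(e.2 : ℂ) / ((T : ℝ) : ℂ) ^ 3‖ ≤ 1 := by
    rw [norm_div, norm_pow, Complex.norm_intCast, Complex.norm_real, Real.norm_of_nonneg hT0.le,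
      div_le_one (by positivity)]
    exact_mod_cast h3
  have h6 := norm_sG_le h4 h5 hT0.le (im T ε (Rat.castHom ℂ) x) (im T ε (Rat.castHom ℂ) y)
  rw [hε.sG_im hT0.ne'] at h6
  have h7 : (n : ℂ) = (N : ℂ) ^ 2 * Rat.castHom ℂ (Gv (d : Cub e ℚ) x y) := by
    have := congrArg (Rat.castHom ℂ) hn
    simpa using this
  have h8 := ha (Rat.castHom ℂ)
  have h9 := hb (Rat.castHom ℂ)
  have ha0 : 0 ≤ a := (norm_nonneg _).trans h8
  calc |(n : ℝ)| = ‖(n : ℂ)‖ := (Complex.norm_intCast n).symm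
    _ = (N : ℝ) ^ 2 * ‖Rat.castHom ℂ (Gv (d : Cub e ℚ) x y)‖ := by
      rw [h7, norm_mul, norm_pow, Complex.norm_natCast]
    _ ≤ (N : ℝ) ^ 2 * (4 * T * a * b) := by
      refine mul_le_mul_of_nonneg_left (h6.trans ?_) (by positivity)
      gcongr
    _ = _ := by ring

/-- copy of `gvec_int` -/
theorem gvec_intD {e : ℤ × ℤ} {T : ℕ} (hT : 1 ≤ T) (he : e ∈ box T) {n N : ℕ} {C : ℝ}
    {d : (Cub e ℚ)ˣ} {ν : ℚ} {z : Nat.Primes → (Cub e ℚ)ˣ} {ε : (ℚ →+* ℂ) → Cub e ℂ} {j : ℕ}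
    {v0 v1 v2 : Cub e ℚ} (hz : LocD n d z) (hε : Eps (d : Cub e ℚ) ν ε)
    (h : Red N C T (d : Cub e ℚ) ν z ε j v0 v1 v2) : ∃ a : Fin 5 → ℤ, ∀ i,
      (a i : ℚ) = (N : ℚ) ^ 2 * gvec (d : Cub e ℚ) v0 v1 v2 i ∧
        |(a i : ℝ)| ≤ 4 * N ^ 2 * C ^ 2 * T * 4 ^ (j * (i : ℕ)) / 16 ^ j := by
  obtain ⟨n0, a0, b0⟩ := zqcount_one hT he hz hε h.l0 h.l0 h.s0 h.s0
  obtain ⟨n1, a1, b1⟩ := zqcount_one hT he hz hε h.l0 h.l1 h.s0 h.s1
  obtain ⟨n2, a2, b2⟩ := zqcount_one hT he hz hε h.l1 h.l1 h.s1 h.s1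
  obtain ⟨n3, a3, b3⟩ := zqcount_one hT he hz hε h.l1 h.l2 h.s1 h.s2
  obtain ⟨n4, a4, b4⟩ := zqcount_one hT he hz hε h.l2 h.l2 h.s2 h.s2
  have h16 : (16 : ℝ) ^ j = (4 ^ j) ^ 2 := by
    rw [← pow_mul, mul_comm, pow_mul]
    norm_num
  have h4 : (0 : ℝ) < 4 ^ j := by positivity
  refine ⟨![n0, n1, n2, n3, n4], fun i => ?_⟩
  rw [pow_mul, h16]
  fin_cases i
  · exact ⟨a0, b0.trans (le_of_eq (by simp; field_simp))⟩
  · exact ⟨a1, b1.trans (le_of_eq (by simp; field_simp))⟩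
  · exact ⟨a2, b2.trans (le_of_eq (by simp; field_simp))⟩
  · exact ⟨a3, b3.trans (le_of_eq (by simp; field_simp))⟩
  · exact ⟨a4, b4.trans (le_of_eq (by simp; field_simp))⟩

/-- `v` a place above `l` (`exists_over_prime`, `deg1_rat`, `exists_redAt_zmod`).
`N^2 quart = qev (qc a)` (`Hyp.quart_qev`), so the reductions of the values of `quart` are
`(N^2)⁻¹ •` those of `qc (a mod l)` (`val_quart_le`, `IrrV.smul`); `not_sqv_of_irr` with `z l`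
(`n` is a unit at `v`, `lociso_le`, `InLat.mem_Ov`) -/
theorem not_irr_of_esc {e : ℤ × ℤ} {n N : ℕ} {C T : ℝ} {d : (Cub e ℚ)ˣ} {ν : ℚ}
    {z : Nat.Primes → (Cub e ℚ)ˣ} {ε : (ℚ →+* ℂ) → Cub e ℂ} {j : ℕ} {v0 v1 v2 : Cub e ℚ}
    (hz : LocD n d z) (h : Red N C T (d : Cub e ℚ) ν z ε j v0 v1 v2) {a : Fin 5 → ℤ}
    (ha : ∀ i, (a i : ℚ) = (N : ℚ) ^ 2 * gvec (d : Cub e ℚ) v0 v1 v2 i) {l : ℕ} (hl : l.Prime)
    (h5 : 5 ≤ l) (hn : ¬ l ∣ n) (hN : ¬ l ∣ N) (hesc : Ty e l → d ∈ St e ℚ l) :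
    ¬ Irr4 (qc fun i => (a i : ZMod l)) := by
  intro hI
  have : Fact l.Prime := ⟨hl⟩
  obtain ⟨v, hv⟩ := exists_over_prime ℚ hl
  obtain ⟨hv1, hres⟩ := deg1_rat hl v hv
  obtain ⟨ρ, hρ⟩ := exists_redAt_zmod hl hv hres
  set p : Nat.Primes := ⟨l, hl⟩ with hp
  have hvp : val v ((p : ℕ) : ℚ) < 1 := hv
  have hu : ((d * z p ^ 2 : (Cub e ℚ)ˣ) : Cub e ℚ) ∈ Ov e v := lociso_le v hvp (hz.2 p).1
  have hvn : val v (n : ℚ) = 1 := by
    have := ordp_val_one v hvp (m := (n : ℤ)) (by exact_mod_cast hn)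
    simpa using this
  have hn0 : (n : ℚ) ≠ 0 := by
    intro h0
    rw [h0, map_zero] at hvn
    exact zero_ne_one hvn
  have hu' : (((d * z p ^ 2)⁻¹ : (Cub e ℚ)ˣ) : Cub e ℚ) ∈ Ov e v := by
    have h1 := smul_mem_Ov (e := e) (v := v) (a := (n : ℚ)⁻¹) (by rw [map_inv₀, hvn, inv_one])
      (lociso_le v hvp (hz.2 p).2)
    rwa [smul_smul, inv_mul_cancel₀ hn0, one_smul] at h1
  have h0 := InLat.mem_Ov hvp hN h.l0
  have h1 := InLat.mem_Ov hvp hN h.l1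
  have h2 := InLat.mem_Ov hvp hN h.l2
  have hNl : (N : ZMod l) ^ 2 ≠ 0 := pow_ne_zero _ (by rwa [Ne, ZMod.natCast_eq_zero_iff])
  have key : ∀ x y : ℤ, (N : ZMod l) ^ 2 * rd ρ (quart (d : Cub e ℚ) v0 v1 v2 x y) =
      qev (qc fun i => (a i : ZMod l)) (x : ZMod l) (y : ZMod l) := by
    intro x y
    have e1 : (N : ℚ) ^ 2 * quart (d : Cub e ℚ) v0 v1 v2 x y = ((qev (qc a) x y : ℤ) : ℚ) := by
      have a0 := ha 0
      have a1 := ha 1
      have a2 := ha 2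
      have a3 := ha 3
      have a4 := ha 4
      simp only [gvec, Matrix.cons_val_zero, Matrix.cons_val_one, Matrix.cons_val] at a0 a1 a2 a3 a4
      rw [h.hyp.quart_qev]
      simp only [qev, qc, Matrix.cons_val_zero, Matrix.cons_val_one, Matrix.cons_val]
      push_cast
      rw [a0, a1, a2, a3, a4]
      ring
    have hN1 : val v (N : ℚ) ≤ 1 := val_natCast_le_one v _
    have e2 := congrArg (rd ρ) e1
    rw [rd_mul ρ (by rw [map_pow]; exact pow_le_one' hN1 _) (val_quart_le hu h0 h1 h2 x y),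
      rd_pow ρ hN1, rd_natCast, rd_intCast] at e2
    rw [e2]
    simp only [qev, qc, Matrix.cons_val_zero, Matrix.cons_val_one, Matrix.cons_val]
    push_cast
    ring
  have hV : IrrV fun m : Fin 5 => qev (qc fun i => (a i : ZMod l)) ((pt5 m).1 : ZMod l)
      ((pt5 m).2 : ZMod l) := ⟨_, hI, fun _ => rfl⟩
  have hV' := hV.smul (inv_ne_zero hNl)
  have hfin : IrrV fun m => rd ρ (quart (d : Cub e ℚ) v0 v1 v2 (pt5 m).1 (pt5 m).2) := by
    have e3 : (fun m : Fin 5 => rd ρ (quart (d : Cub e ℚ) v0 v1 v2 (pt5 m).1 (pt5 m).2)) =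
        ((N : ZMod l) ^ 2)⁻¹ • fun m : Fin 5 => qev (qc fun i => (a i : ZMod l))
          ((pt5 m).1 : ZMod l) ((pt5 m).2 : ZMod l) := by
      funext m
      rw [Pi.smul_apply, ← key, smul_eq_mul, inv_mul_cancel_left₀ hNl]
    rw [e3]
    exact hV'
  obtain ⟨hT, hns⟩ := not_sqv_of_irr h5 hv1 hρ h.hyp hu hu' h0 h1 h2 hfin
  exact hns (mem_St.1 (hesc hT) v hv)

/-- As `countQ`, with one `d` for each `e ∈ E` (`Dfc.exists_locD`, `exists_eps`, `exists_redD`).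
At level `j` the map `(e, u) ↦ a`, `u < 4^j`, is injective, `|a i| ≤ c T 4^(j i) / 16^j`, `a 0 ≠ 0`.
So `card (level j) * 4^j ≤ 3^5 c^5 T^5` always (`card_int5_le`), and
`≤ (7/8)^m 3^5 c^5 T^5` as soon as `∏ Q ≤ c T / 16^j` (`card_int5_sieve`, `card_bad5`,
`not_irr_of_esc`; the product of the five bounds is `c^5 T^5`).  Choose `m` with
`2 (7/8)^m 3^5 c^5 ≤ ε / 2`, `L₀ > max 5 n (2 N)`, `J` with `2 * 3^5 c^5 / 4^J ≤ ε / 2`, and `T₀`
with `∏ Q * 16^J ≤ c T₀`; `card_le_of_level` for the levels `< J` and for `j - J`, `j ≥ J`. -/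
theorem countQ2 {n : ℕ} (hn : n ≠ 0) {ε : ℝ} (hε : 0 < ε) : ∃ m L₀ : ℕ, ∀ Q : Finset ℕ,
    Q.card = m → (∀ l ∈ Q, l.Prime ∧ L₀ < l) → ∃ T₀ : ℕ, ∀ T : ℕ, T₀ ≤ T → ∀ E ⊆ box T,
      (∀ e ∈ E, ∃ d : (Cub e ℚ)ˣ, Esc n Q d) → (E.card : ℝ) ≤ ε * (T : ℝ) ^ 5 := by
  classical
  obtain ⟨M, C, hM, hC, hred⟩ := exists_redD ℚ hn
  set c0 : ℝ := 4 * ((2 * M : ℕ) : ℝ) ^ 2 * (C * (1 + 1) ^ 2) ^ 2 with hc0
  have hc : 0 < c0 := by positivity
  have hK : (0 : ℝ) < ε / (4 * (3 ^ 5 * c0 ^ 5)) := by positivity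
  obtain ⟨m, hm⟩ := exists_pow_lt_of_lt_one hK (show (7 / 8 : ℝ) < 1 by norm_num)
  obtain ⟨J, hJ⟩ := exists_pow_lt_of_lt_one hK (show (1 / 4 : ℝ) < 1 by norm_num)
  refine ⟨m, 5 + n + 2 * M, fun Q hQm hQ => ⟨⌈((∏ l ∈ Q, l : ℕ) : ℝ) * 16 ^ J / c0⌉₊ + 1,
    fun T hT₀ E hE hd => ?_⟩⟩
  have hT : 1 ≤ T := le_trans (Nat.le_add_left _ _) hT₀
  have hT0 : (0 : ℝ) < T := by exact_mod_cast hT
  have hTQ : ((∏ l ∈ Q, l : ℕ) : ℝ) * 16 ^ J ≤ c0 * T := by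
    have h1 : (⌈((∏ l ∈ Q, l : ℕ) : ℝ) * 16 ^ J / c0⌉₊ : ℝ) ≤ T := by
      exact_mod_cast le_trans (Nat.le_succ _) hT₀
    have h2 := (Nat.le_ceil _).trans h1
    rwa [div_le_iff₀ hc, mul_comm (T : ℝ)] at h2
  have hex : ∀ x : E, ∃ (d : (Cub x.1 ℚ)ˣ) (j : ℕ) (ν : ℚ) (v0 v1 v2 : Cub x.1 ℚ)
      (a : ℕ → Fin 5 → ℤ), d ∉ SQ x.1 ℚ ∧
      Hyp (d : Cub x.1 ℚ) ν v0 v1 v2 ∧ ∀ u : ℕ, u < 4 ^ j → (∀ i,
        (a u i : ℚ) = ((2 * M : ℕ) : ℚ) ^ 2 *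
          gvec (d : Cub x.1 ℚ) v0 (tr1 (u : ℚ) v0 v1) (tr2 (u : ℚ) v0 v1 v2) i ∧
        |(a u i : ℝ)| ≤ c0 * T * 4 ^ (j * (i : ℕ)) / 16 ^ j) ∧
        ∀ l ∈ Q, ¬ Irr4 (qc fun i => (a u i : ZMod l)) := by
    rintro ⟨e, hx⟩
    have he := hE hx
    obtain ⟨d, hd⟩ := hd e hx
    have hdisc := (mem_box.1 he).2.2
    obtain ⟨ν, hν⟩ := hd.nsq
    obtain ⟨ε, hε⟩ := exists_eps hdisc hd.pos hν
    obtain ⟨z, hz⟩ := hd.dfc.exists_locD
    obtain ⟨j, v0, v1, v2, hr⟩ := hred e T hT0 d ν z ε hν hz hε hd.iso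
    have hn' : ∀ u : ℕ, ∃ a : Fin 5 → ℤ, u < 4 ^ j → (∀ i,
        (a i : ℚ) = ((2 * M : ℕ) : ℚ) ^ 2 *
          gvec (d : Cub e ℚ) v0 (tr1 (u : ℚ) v0 v1) (tr2 (u : ℚ) v0 v1 v2) i ∧
        |(a i : ℝ)| ≤ c0 * T * 4 ^ (j * (i : ℕ)) / 16 ^ j) ∧
        ∀ l ∈ Q, ¬ Irr4 (qc fun i => (a i : ZMod l)) := by
      intro u
      by_cases hu : u < 4 ^ j
      · have hi : IsIntegral ℤ (u : ℚ) := by
          simpa using isIntegral_algebraMap (R := ℤ) (A := ℚ) (x := (u : ℤ))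
        have hr' := hr.translate hi zero_le_one fun σ => by
          rw [map_natCast, Complex.norm_natCast, one_mul]
          exact_mod_cast hu.le
        obtain ⟨a, ha⟩ := gvec_intD hT he hz hε hr'
        refine ⟨a, fun _ => ⟨ha, fun l hl => ?_⟩⟩
        obtain ⟨hl1, hl2⟩ := hQ l hl
        refine not_irr_of_esc hz hr' (fun i => (ha i).1) hl1 (by omega) (fun h => ?_)
          (fun h => ?_) (hd.esc l hl)
        · have := Nat.le_of_dvd (Nat.pos_of_ne_zero hn) h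
          omega
        · have := Nat.le_of_dvd (by omega) h
          omega
      · exact ⟨0, fun h => absurd h hu⟩
    choose a ha using hn'
    exact ⟨d, j, ν, v0, v1, v2, a, hd.nontriv, hr.hyp, ha⟩
  choose d lev ν v0 v1 v2 a hnt hyp ha using hex
  have hM2 : ((2 * M : ℕ) : ℚ) ^ 2 ≠ 0 := by positivity
  have hg : ∀ (x x' : E) (u u' : ℕ), u < 4 ^ lev x → u' < 4 ^ lev x' → a x u = a x' u' →
      gvec (d x : Cub x.1 ℚ) (v0 x) (tr1 (u : ℚ) (v0 x) (v1 x))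
        (tr2 (u : ℚ) (v0 x) (v1 x) (v2 x)) =
      gvec (d x' : Cub x'.1 ℚ) (v0 x') (tr1 (u' : ℚ) (v0 x') (v1 x'))
        (tr2 (u' : ℚ) (v0 x') (v1 x') (v2 x')) := by
    intro x x' u u' hu hu' h
    funext i
    apply mul_left_cancel₀ hM2
    rw [← ((ha x u hu).1 i).1, ← ((ha x' u' hu').1 i).1, h]
  have key : ∀ (x x' : E) (u u' : ℕ), u < 4 ^ lev x → u' < 4 ^ lev x' → a x u = a x' u' →
      x = x' := fun x x' u u' hu hu' h =>
    Subtype.ext (eq_of_gvec ((hyp x).translate u) ((hyp x').translate u') (hg _ _ u u' hu hu' h))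
  have hne : ∀ x : E, Gv (d x : Cub x.1 ℚ) (v0 x) (v0 x) ≠ 0 := fun x =>
    (hyp x).Gv_ne_zero (mem_box.1 (hE x.2)).2.2 (hnt x)
  set F : ℕ → Finset E := fun j => (Finset.univ : Finset E).filter fun x => lev x = j with hF
  set Z : ℕ → Finset (Fin 5 → ℤ) := fun j =>
    (F j ×ˢ Finset.range (4 ^ j)).image fun p : E × ℕ => a p.1 p.2 with hZ
  have hcard : ∀ j, ((Z j).card : ℝ) = (F j).card * 4 ^ j := by
    intro j
    have hi : Set.InjOn (fun p : E × ℕ => a p.1 p.2) (F j ×ˢ Finset.range (4 ^ j) : Finset _) := by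
      rintro ⟨x, u⟩ hp ⟨x', u'⟩ hp' h
      simp only [hF, Finset.coe_product, Finset.coe_filter, Finset.mem_univ, true_and,
        Finset.coe_range, Set.mem_prod, Set.mem_ofPred_eq, Set.mem_Iio] at hp hp'
      have hu : u < 4 ^ lev x := by rw [hp.1]; exact hp.2
      have hu' : u' < 4 ^ lev x' := by rw [hp'.1]; exact hp'.2
      obtain rfl := key x x' u u' hu hu' h
      have h1 := congrFun (hg x x u u' hu hu' h) 1
      simp only [gvec, Matrix.cons_val_one, Matrix.cons_val_zero, Gv_tr1, add_right_inj] at h1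
      have h3 : u = u' := by exact_mod_cast mul_right_cancel₀ (hne x) h1
      rw [h3]
    rw [hZ]
    simp only
    rw [Finset.card_image_of_injOn hi, Finset.card_product, Finset.card_range]
    push_cast
    rfl
  have hmem : ∀ j, ∀ b ∈ Z j, b 0 ≠ 0 ∧
      (∀ i, |(b i : ℝ)| ≤ c0 * T * 4 ^ (j * (i : ℕ)) / 16 ^ j) ∧
      ∀ l ∈ Q, ¬ Irr4 (qc fun i => (b i : ZMod l)) := by
    intro j b hb
    obtain ⟨⟨x, u⟩, hp, rfl⟩ := Finset.mem_image.1 hb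
    simp only [hF, Finset.mem_product, Finset.mem_filter, Finset.mem_univ, true_and,
      Finset.mem_range] at hp
    obtain ⟨rfl, hu⟩ := hp
    refine ⟨fun h0 => ?_, fun i => ((ha x u hu).1 i).2, (ha x u hu).2⟩
    have h1 := ((ha x u hu).1 0).1
    simp only at h0
    rw [h0, Int.cast_zero] at h1
    exact mul_ne_zero hM2 (hne x) h1.symm
  have hcT : 0 < c0 * T := by positivity
  have hA : ∀ j, ((F j).card : ℝ) ≤ 3 ^ 5 * (c0 * T) ^ 5 / 4 ^ j := by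
    intro j
    have h1 := card_int5_le (c0 * T) j (Z j) fun b hb => ⟨(hmem j b hb).1, (hmem j b hb).2.1⟩
    rwa [hcard, abs_of_pos hcT, ← le_div_iff₀ (by positivity)] at h1
  have hB : ∀ j < J, ((F j).card : ℝ) ≤ (7 / 8) ^ m * 3 ^ 5 * (c0 * T) ^ 5 / 4 ^ j := by
    intro j hj
    have h1 := card_int5_sieve Q (fun l hl => (hQ l hl).1) (β := 7 / 8) (by norm_num)
      (fun l => if h : l.Prime then
        haveI : Fact l.Prime := ⟨h⟩
        Finset.univ.filter fun b : Fin 5 → ZMod l => ¬ Irr4 (qc b) else ∅)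
      (fun l hl => by
        rw [dif_pos (hQ l hl).1]
        have : Fact l.Prime := ⟨(hQ l hl).1⟩
        convert card_bad5 l (by have := (hQ l hl).2; omega))
      (fun i => c0 * T * 4 ^ (j * (i : ℕ)) / 16 ^ j) (fun i => by
        rw [le_div_iff₀ (by positivity)]
        calc _ ≤ ((∏ l ∈ Q, l : ℕ) : ℝ) * 16 ^ J := by
              gcongr
              norm_num
          _ ≤ c0 * T := hTQ
          _ ≤ _ := le_mul_of_one_le_right hcT.le (one_le_pow₀ (by norm_num)))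
      (Z j) (fun b hb => ⟨(hmem j b hb).2.1, fun l hl => by
        rw [dif_pos (hQ l hl).1]
        have : Fact l.Prime := ⟨(hQ l hl).1⟩
        exact Finset.mem_filter.2 ⟨Finset.mem_univ _, (hmem j b hb).2.2 l hl⟩⟩)
    have h2 : ∏ i : Fin 5, c0 * T * 4 ^ (j * (i : ℕ)) / 16 ^ j = (c0 * T) ^ 5 := by
      have h16' : (16 : ℝ) ^ j = (4 ^ j) ^ 2 := by
        rw [← pow_mul, mul_comm, pow_mul]
        norm_num
      have h4' : (0 : ℝ) < 4 ^ j := by positivity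
      simp only [pow_mul, h16', Fin.prod_univ_five]
      simp
      field_simp
    rwa [hcard, h2, hQm, ← le_div_iff₀ (by positivity)] at h1
  have h1 := card_le_of_level ((Finset.univ : Finset E).filter fun x => lev x < J) lev
    ((7 / 8) ^ m * 3 ^ 5 * (c0 * T) ^ 5) (by positivity) fun j => by
      by_cases hj : j < J
      · refine le_trans ?_ (hB j hj)
        exact_mod_cast Finset.card_le_card fun x hx =>
          Finset.mem_filter.2 ⟨Finset.mem_univ _, (Finset.mem_filter.1 hx).2⟩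
      · rw [Finset.filter_eq_empty_iff.2, Finset.card_empty, Nat.cast_zero]
        · positivity
        · intro x hx h
          exact hj (h ▸ (Finset.mem_filter.1 hx).2)
  have h2 := card_le_of_level ((Finset.univ : Finset E).filter fun x => ¬ lev x < J)
    (fun x => lev x - J) ((1 / 4) ^ J * 3 ^ 5 * (c0 * T) ^ 5) (by positivity) fun j => by
      refine le_trans ?_ ((hA (j + J)).trans (le_of_eq ?_))
      · exact_mod_cast Finset.card_le_card fun x hx => by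
          obtain ⟨h3, h4⟩ := Finset.mem_filter.1 hx
          have h5 := (Finset.mem_filter.1 h3).2
          exact Finset.mem_filter.2 ⟨Finset.mem_univ _, by omega⟩
      · rw [pow_add, one_div, inv_pow]
        field_simp
  have h3 : (E.card : ℝ) = ((Finset.univ : Finset E).filter fun x => lev x < J).card +
      ((Finset.univ : Finset E).filter fun x => ¬ lev x < J).card := by
    rw [← Nat.cast_add, Finset.card_filter_add_card_filter_not, Finset.card_univ, Fintype.card_coe]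
  rw [lt_div_iff₀ (by positivity)] at hm hJ
  have hT5 : (0 : ℝ) < (T : ℝ) ^ 5 := by positivity
  rw [h3]
  rw [mul_pow] at h1 h2
  nlinarith [mul_lt_mul_of_pos_right hm hT5, mul_lt_mul_of_pos_right hJ hT5]

end Pool.Agent.Lib.MP_775b3b_nt
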