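import Pool.Agent.Lib.MP_775b3b_nt.Tower
import Pool.Agent.Lib.MP_775b3b_nt.ZOver

/-! Triviality goes up a tower of quadratic extensions. -/

namespace Pool.Agent.Lib.MP_775b3b_nt

open Cub

/-- For `d ∈ 𝒯`: `d * σ d` is fixed, `= ι n` (`step_fixed`), `n ∈ Sel N e k` (`step_descend` with
`μ = ν σ ν`), so `n = t₀^2`; `t = ι t₀`, `z = t / d` has `z σ z = 1`; `h90` gives `s = z σ s`, and
`d s^2` is fixed, `= ι d₀`.  `ι (nm d₀) = μ^2`, `σ μ = ± μ`; in the second case replace `s` by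
`β • s` (`μ` becomes `β^3 μ`).  `step_descend`, so `d₀` is a square. -/
theorem exact_step {e : ℤ × ℤ} {k k' : Type} [Field k] [Field k'] [CharZero k'] [Algebra k k']
    (σ : k' →+* k') (hσ : ∀ x, σ (σ x) = x)
    (hfix : ∀ x, σ x = x ↔ ∃ y, algebraMap k k' y = x) {β : k'} (hβ0 : β ≠ 0) (hβ : σ β = -β)
    {N : ℕ} (h2 : 2 ∣ N)
    (hN : ∀ p : Nat.Primes, ¬ (p : ℕ) ∣ N → β ∈ intP p k' ∧ β⁻¹ ∈ intP p k')
    (𝒯 : Subgroup (Cub e k')ˣ) (h0 : SQ e k' ≤ 𝒯) (h1 : 𝒯 ≤ Sel N e k')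
    (hs : ∀ d ∈ 𝒯, uz e σ d ∈ 𝒯)
    (h : ∀ d₀ ∈ Sel N e k, uz e (algebraMap k k') d₀ ∈ 𝒯 → d₀ ∈ SQ e k) : 𝒯 ≤ SQ e k' := by
  intro d hd
  have hss : ∀ x : (Cub e k')ˣ, uz e σ (uz e σ x) = x := fun x => Units.ext (by
    rw [uz_val, uz_val]
    ext <;> simp [hσ])
  have hfx : ∀ y, σ (algebraMap k k' y) = algebraMap k k' y := fun y => (hfix _).2 ⟨y, rfl⟩
  have hsι : ∀ x : (Cub e k)ˣ, uz e σ (uz e (algebraMap k k') x) = uz e (algebraMap k k') x :=
    fun x => Units.ext (by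
      rw [uz_val, uz_val]
      ext <;> simp [hfx])
  have hsq : ∀ t : (Cub e k')ˣ, t ^ 2 ∈ SQ e k' := fun t => ⟨t, sq t⟩
  have key : ∀ x ∈ 𝒯, ∀ μ : k', uz e σ x = x → nm (x : Cub e k') = μ ^ 2 → σ μ = μ →
      ∃ t₀ : (Cub e k)ˣ, x = uz e (algebraMap k k') t₀ ^ 2 := by
    intro x hx μ hx1 hx2 hx3
    obtain ⟨d₀, hd₀⟩ := step_fixed σ hfix (d := x) (by rw [← uz_val, hx1])
    have hd₁ : uz e (algebraMap k k') d₀ = x := hd₀
    have h5 : d₀ ∈ Sel N e k := step_descend σ hσ hfix hβ0 hβ h2 hN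
      (by rw [hd₀]; exact h1 hx) (μ := μ) (by rw [← hx2, ← hd₁, uz_val, nm_map]) hx3
    obtain ⟨t₀, ht₀⟩ := Subgroup.mem_square.1 (h d₀ h5 (by rw [hd₁]; exact hx))
    exact ⟨t₀, by rw [← hd₁, ht₀, map_mul, sq]⟩
  have key2 : ∀ (t : (Cub e k')ˣ) (μ : k'), uz e σ (d * t ^ 2) = d * t ^ 2 →
      nm ((d * t ^ 2 : (Cub e k')ˣ) : Cub e k') = μ ^ 2 → σ μ = μ → d ∈ SQ e k' := by
    intro t μ a1 a2 a3
    obtain ⟨t₀, ht₀⟩ := key _ (𝒯.mul_mem hd (h0 (hsq t))) μ a1 a2 a3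
    have : d = (uz e (algebraMap k k') t₀ / t) ^ 2 := by
      rw [div_pow, ← ht₀, mul_div_cancel_right]
    rw [this]
    exact hsq _
  obtain ⟨ν, hν⟩ := (mem_Sel.1 (h1 hd)).1
  obtain ⟨t₀, ht₀⟩ := key (d * uz e σ d) (𝒯.mul_mem hd (hs d hd)) (ν * σ ν)
    (by rw [map_mul, hss, mul_comm])
    (by rw [Units.val_mul, nm_mul, uz_val, nm_map, hν, map_pow, mul_pow])
    (by rw [map_mul, hσ, mul_comm])
  set t := uz e (algebraMap k k') t₀ with ht
  have hst : uz e σ t = t := hsι t₀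
  have hz1 : uz e σ d = d * (t / d) ^ 2 := by
    rw [div_pow, ← ht₀, sq d, mul_div_mul_left_eq_div, mul_div_cancel]
  have hz2 : t / d * uz e σ (t / d) = 1 := by
    rw [map_div, hst, div_mul_div_comm, ← sq, ← ht₀, div_self']
  obtain ⟨u, hu⟩ := h90 σ hσ hβ0 hβ (z := ((t / d : (Cub e k')ˣ) : Cub e k')) (by
    rw [← uz_val, ← Units.val_mul, hz2, Units.val_one])
  have hu' : u = t / d * uz e σ u := Units.ext (by rw [Units.val_mul, uz_val]; exact hu)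
  have hf : uz e σ (d * u ^ 2) = d * u ^ 2 := by
    rw [map_mul, map_pow, hz1, mul_assoc, ← mul_pow, ← hu']
  obtain ⟨μ, hμ⟩ := (mem_Sel.1 (h1 (𝒯.mul_mem hd (h0 (hsq u))))).1
  have h5 : σ μ ^ 2 = μ ^ 2 := by rw [← map_pow, ← hμ, ← nm_map, ← uz_val, hf]
  rcases sq_eq_sq_iff_eq_or_eq_neg.1 h5 with h6 | h6
  · exact key2 u μ hf hμ h6
  · obtain ⟨b, hb⟩ : IsUnit (algebraMap k' (Cub e k') β) := (IsUnit.mk0 β hβ0).map _
    have hsb : uz e σ b = -b := Units.ext (by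
      rw [uz_val, Units.val_neg, hb, map_algebraMap, hβ, map_neg])
    refine key2 (u * b) (μ * β ^ 3) ?_ ?_ ?_
    · rw [mul_pow, ← mul_assoc, map_mul, hf, map_pow, hsb, neg_sq]
    · rw [mul_pow, ← mul_assoc, Units.val_mul, nm_mul, hμ, Units.val_pow_eq_pow_val, nm_pow, hb,
        nm_algebraMap, mul_pow]
    · rw [map_mul, map_pow, h6, hβ]
      ring

/-- as `sel_tower`; in the step use `𝒯₁ = 𝒯.comap (uz e (algebraMap F₁ F)) ⊓ Sel N e F₁`, stable
under `F₁ ≃ₐ[K] F₁` (`AlgEquiv.liftNormal`, `liftNormal_commutes`, `uz_uz`, `uz_mem_Sel`) -/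
theorem tower_exact (K : Type) [Field K] [NumberField K] (j : ℕ) :
    ∀ (F : Type) [Field F] [NumberField F] [Algebra K F] [IsGalois K F],
      Module.finrank K F = 2 ^ j → ∃ N₀ : ℕ, N₀ ≠ 0 ∧ ∀ N, N₀ ∣ N → ∀ (e : ℤ × ℤ)
        (𝒯 : Subgroup (Cub e F)ˣ), SQ e F ≤ 𝒯 → 𝒯 ≤ Sel N e F →
        (∀ g : F ≃ₐ[K] F, ∀ d ∈ 𝒯, uz e (g : F →+* F) d ∈ 𝒯) →
        (∀ d₀ ∈ Sel N e K, uz e (algebraMap K F) d₀ ∈ 𝒯 → d₀ ∈ SQ e K) → 𝒯 ≤ SQ e F := by
  induction j with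
  | zero =>
    intro F _ _ _ _ hF
    refine ⟨1, one_ne_zero, fun N _ e 𝒯 _ h1 _ h d hd => ?_⟩
    have hb : Function.Bijective (algebraMap K F) :=
      Algebra.finrank_eq_one_iff_bijective_algebraMap.1 (by simpa using hF)
    let g : K ≃+* F := RingEquiv.ofBijective _ hb
    have hg : ∀ x, algebraMap K F (g.symm x) = x := fun x => g.apply_symm_apply x
    have h3 : uz e (algebraMap K F) (uz e (g.symm : F →+* K) d) = d := Units.ext (by
      rw [uz_val, uz_val]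
      ext <;> simp [hg])
    rw [← h3]
    exact uz_mem_SQ _ (h _ (uz_mem_Sel _ (h1 hd)) (by rw [h3]; exact hd))
  | succ j ih =>
    intro F _ _ _ _ hF
    have : FiniteDimensional K F := Module.Finite.of_restrictScalars_finite ℚ K F
    have hcard : Nat.card (F ≃ₐ[K] F) = 2 ^ (j + 1) := by
      rw [IsGalois.card_aut_eq_finrank, hF]
    obtain ⟨σ, hc, ho⟩ := tower_central hcard
    set H : Subgroup (F ≃ₐ[K] F) := Subgroup.zpowers σ with hH
    have hn : H.Normal := by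
      refine ⟨fun a ha g => ?_⟩
      have ha' : a ∈ Subgroup.center (F ≃ₐ[K] F) := (Subgroup.zpowers_le.2 hc) ha
      rw [Subgroup.mem_center_iff.1 ha' g, mul_inv_cancel_right]
      exact ha
    set F₁ := IntermediateField.fixedField H with hF₁
    have : IsGalois K F₁ := IsGalois.of_fixedField_normal_subgroup H
    have : NumberField F₁ := NumberField.of_module_finite K F₁
    have h2 : Module.finrank F₁ F = 2 := by
      rw [hF₁, IntermediateField.finrank_fixedField_eq_card, hH, Nat.card_zpowers, ho]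
    have h1 : Module.finrank K F₁ = 2 ^ j := by
      have := Module.finrank_mul_finrank K F₁ F
      rw [h2, hF, pow_succ] at this
      omega
    obtain ⟨N₁, hN₁, H₁⟩ := ih F₁ h1
    have hσσ : σ * σ = 1 := by
      rw [← pow_two, ← ho, pow_orderOf_eq_one]
    have hσ : ∀ x, σ (σ x) = x := fun x => by
      rw [← AlgEquiv.mul_apply, hσσ, AlgEquiv.one_apply]
    have hσ1 : σ ≠ 1 := by
      rintro rfl
      simp at ho
    obtain ⟨y, hy⟩ : ∃ y, σ y ≠ y := by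
      by_contra hcon
      push Not at hcon
      exact hσ1 (AlgEquiv.ext hcon)
    have hβ0 : y - σ y ≠ 0 := fun h => hy (sub_eq_zero.1 h).symm
    have hβ : σ (y - σ y) = -(y - σ y) := by
      rw [map_sub, hσ, neg_sub]
    have hfix : ∀ x, σ x = x ↔ ∃ z, algebraMap F₁ F z = x := by
      intro x
      constructor
      · intro hx
        refine ⟨⟨x, ?_⟩, rfl⟩
        rw [hF₁, IntermediateField.mem_fixedField_iff]
        intro f hf
        have : H ≤ MulAction.stabilizer (F ≃ₐ[K] F) x := Subgroup.zpowers_le.2 hx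
        exact this hf
      · rintro ⟨⟨z, hz⟩, rfl⟩
        rw [hF₁, IntermediateField.mem_fixedField_iff] at hz
        exact hz σ (Subgroup.mem_zpowers σ)
    obtain ⟨a, ha0, ha⟩ := exists_mul_isIntegral (y - σ y)
    obtain ⟨b, hb0, hb⟩ := exists_mul_isIntegral (y - σ y)⁻¹
    refine ⟨N₁ * (2 * (a * b)), by positivity, fun N hN e 𝒯 t0 t1 ts h => ?_⟩
    have hN' : 2 * (a * b) ∣ N := (dvd_mul_left _ _).trans hN
    have hab : a * b ∣ N := (dvd_mul_left _ _).trans hN'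
    have h3 := H₁ N ((dvd_mul_right _ _).trans hN) e
      (𝒯.comap (uz e (algebraMap F₁ F)) ⊓ Sel N e F₁)
      (fun x hx => ⟨t0 (uz_mem_SQ _ hx), by
        obtain ⟨z, rfl⟩ := Subgroup.mem_square.1 hx
        rw [← sq]
        exact step_sq_mem_Sel z⟩) inf_le_right
      (fun g x hx => ⟨by
        have h4 := ts (g.liftNormal F) _ hx.1
        have h5 : ((g.liftNormal F : F ≃ₐ[K] F) : F →+* F).comp (algebraMap F₁ F) =
            (algebraMap F₁ F).comp (g : F₁ →+* F₁) :=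
          RingHom.ext fun z => AlgEquiv.liftNormal_commutes g F z
        rw [uz_uz, h5, ← uz_uz] at h4
        exact h4, uz_mem_Sel _ hx.2⟩)
      (fun x hx hx' => h x hx (by
        have h4 : uz e (algebraMap F₁ F) (uz e (algebraMap K F₁) x) ∈ 𝒯 := hx'.1
        rwa [uz_uz, ← IsScalarTower.algebraMap_eq] at h4))
    refine exact_step (σ : F →+* F) hσ hfix hβ0 hβ ((dvd_mul_right _ _).trans hN') ?_ 𝒯 t0 t1
      (ts σ) fun x hx hx' => h3 ⟨hx', hx⟩
    intro p hp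
    exact ⟨⟨a, fun hpa => hp (hpa.trans ((dvd_mul_right _ _).trans hab)), ha⟩,
      ⟨b, fun hpb => hp (hpb.trans ((dvd_mul_left _ _).trans hab)), hb⟩⟩

end Pool.Agent.Lib.MP_775b3b_nt
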