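import Pool.Agent.Lib.MP_775b3b_nt.ZEis

/-! The condition above two is isotropic. -/

namespace Pool.Agent.Lib.MP_775b3b_nt

open Cub MP_439fea_co WithZero

variable {e : ℤ × ℤ} {k : Type} [Field k] [NumberField k] {v : P k}

/-- the residue field is finite of characteristic two (`exists_redAt`,
`FiniteField.isSquare_of_char_two`, `RedAt.isSquare_iff`) -/
theorem exists_sqrt_two (h : val v (2 : k) < 1) {a : k} (ha : val v a ≤ 1) :
    ∃ y : k, val v y ≤ 1 ∧ val v (a - y ^ 2) < 1 := by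
  obtain ⟨κ, _, _, ρ, hρ⟩ := exists_redAt v
  have h2 : (2 : κ) = 0 := by
    have h3 := rd_natCast ρ 2
    push_cast at h3
    rw [← h3]
    exact (hρ.rd_eq_zero h.le).2 h
  have := CharTwo.of_one_ne_zero_of_two_eq_zero one_ne_zero h2
  obtain ⟨y, hy⟩ := (hρ.isSquare_iff ha).1 (FiniteField.isSquare_of_char_two (ringChar.eq κ 2) _)
  refine ⟨y, ?_, hy⟩
  have h4 := Valuation.map_sub_le _ ha hy.le
  rwa [sub_sub_cancel, map_pow, pow_le_one_iff two_ne_zero] at h4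

theorem zl2b_sq {d : Cub e k} (z : Cub e k) (h : LocIso v (d * z ^ 2)) : LocIso v d := by
  have key : ∀ r s : Cub e k, Bf d (z * r) (z * s) = Bf (d * z ^ 2) r s :=
    fun r s => by rw [Bf, Bf]; congr 1; ring
  obtain ⟨x, y, h1, h2, h3⟩ := h
  exact ⟨z * x, z * y, by rwa [key], by rwa [key], by rwa [key]⟩

theorem zl2b_half (h : Eis2 e v) {a : k} (ha : val v a ≤ exp (-1 : ℤ)) : val v (a / 2) ≤ 1 := by
  rw [map_div₀, h.1]
  exact div_le_one_of_le₀ ha zero_le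

theorem zl2b_one (h : Eis2 e v) {W : Cub e k} (hW : Sm v (W - 1)) : LocIso v W := by
  have h2 : val v (2 : k) < 1 := by rw [h.1, ← exp_zero, exp_lt_exp]; norm_num
  have hA : val v (e.1 : k) < 1 := h.eis.1
  have hB : val v (e.2 : k) < 1 := by rw [h.2.2, ← exp_zero, exp_lt_exp]; norm_num
  have hW' := hW.val_nm.1
  have hθ : (th : Cub e k) ∈ Ov e v := th_mem_Ov
  obtain ⟨w0, i0, e0⟩ : ∃ w ∈ (val v).integer, W.c0 = 1 + 2 * w :=
    ⟨_, zl2b_half h (val_le_exp hW.1), by simp only [sub_c0, one_c0]; ring⟩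
  obtain ⟨w1, i1, e1⟩ : ∃ w ∈ (val v).integer, W.c1 = 2 * w :=
    ⟨_, zl2b_half h (val_le_exp hW.2.1), by simp only [sub_c1, one_c1]; ring⟩
  obtain ⟨w2, i2, e2⟩ : ∃ w ∈ (val v).integer, W.c2 = 2 * w :=
    ⟨_, zl2b_half h (val_le_exp hW.2.2), by simp only [sub_c2, one_c2]; ring⟩
  obtain ⟨β, iβ, eβ⟩ : ∃ w ∈ (val v).integer, (e.2 : k) = 2 * w :=
    ⟨_, zl2b_half h h.2.2.le, by ring⟩
  obtain ⟨α, iα, eα⟩ : ∃ w ∈ (val v).integer, (e.1 : k) = 4 * w := by
    refine ⟨_, zl2b_half h (a := (e.1 : k) / 2) ?_, by ring⟩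
    rw [map_div₀, h.1, div_le_iff₀ exp_pos, ← exp_add]
    exact h.2.1
  obtain ⟨g, ig, eg⟩ : ∃ g ∈ (val v).integer, g = -(w0 * w2) - (α + β * w1) * (w2 * w2) := by
    refine ⟨_, ?_, rfl⟩
    repeat first
      | assumption | apply neg_mem | apply sub_mem | apply add_mem | apply mul_mem
  obtain ⟨t, it, et⟩ : ∃ t ∈ (val v).integer, t = -w2 - (g + g) :=
    ⟨_, sub_mem (neg_mem i2) (add_mem ig ig), rfl⟩
  have hx : (⟨1, 0, t⟩ : Cub e k) ∈ Ov e v := ⟨one_mem (val v).integer, zero_mem (val v).integer, it⟩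
  refine ⟨⟨1, 0, t⟩, th * th, ?_, (mul_mem (mul_mem hW' (mul_mem hθ hθ)) (mul_mem hθ hθ)).2.2, ?_⟩
  · have e3 : Bf W ⟨1, 0, t⟩ (th * th) = 1 + (2 * (w0 - (e.2 : k) * (w1 * t)) -
        (e.1 : k) * (W * ⟨1, 0, t⟩).c2) := by
      simp [Bf, e0, e1]
      ring
    rw [e3]
    refine Valuation.map_one_add_of_lt _ (Valuation.map_sub_lt _ (lociso_mul_lt v h2 ?_)
      (lociso_mul_lt v hA (mul_mem hW' hx).2.2))
    exact sub_mem i0 (mul_mem (S := Subring k) hB.le (mul_mem i1 it))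
  · have e3 : Bf W ⟨1, 0, t⟩ ⟨1, 0, t⟩ = 4 * (2 * (-(g * (w0 - (α + β * w1) * (t - w2))) -
        (α + α) * w2 * t - α * t * t * w0 + (α + α) * (α + α) * t * t * w2)) := by
      simp only [Bf, mul_c0, mul_c1, mul_c2, e0, e1, e2, eα, eβ]
      linear_combination (2 + 4 * (w0 - (α + β * w1) * (t - w2))) * et - 4 * eg
    rw [e3, map_mul]
    refine mul_lt_of_lt_one_right (zero_lt_iff.2 ((Valuation.ne_zero_iff _).2 (by norm_num)))
      (lociso_mul_lt v h2 ?_)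
    rw [← Valuation.mem_integer_iff]
    repeat first
      | assumption | apply neg_mem | apply sub_mem | apply add_mem | apply mul_mem

/-- `u = d z^2` a unit with `u.c1` small, so `val v u.c0 = 1` (norm).  Choose `a, b` with
`a^2 u0 ≡ 1`, `b^2 u0 ≡ -u2 a^2`; `z₁ = a + b θ` has `Sm v (u z₁^2 - 1)`, so `u z₁^2 = 1 + 2 • w`
with `w ∈ Ov` (`val v 2 = exp (-1)`, `val_le_exp`).  For `x₁ = 1 + t θ^2`,
`Φ(t) = ((1 + 2 w) x₁^2).c2 = (2 t - A t^2)(1 + 2 w0 - 2 A w2) + 2 w2 - 2 B t^2 w1`, so with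
`h(t) = w0 t - (B / 2) w1 t^2 - (A / 4) t^2`: `Φ(t) = 2 (t + w2 + 2 h(t))` modulo `8`.  Take
`t₀ = -w2`, `t = -w2 - 2 h(t₀)`: `h(t) ≡ h(t₀)` modulo `2`, so `val v (Φ t) ≤ val v 8 < val v 4`.
`x = z z₁ x₁`, `y = z z₁ θ^2`; `(w' θ^2).c2 = w'.c0 - A w'.c2`. -/
theorem L2_iso (h : Eis2 e v) {d : (Cub e k)ˣ} (hd : d ∈ L2 e v) : LocIso v (d : Cub e k) := by
  have h2 : val v (2 : k) < 1 := by rw [h.1, ← exp_zero, exp_lt_exp]; norm_num
  have hA : val v (e.1 : k) < 1 := h.eis.1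
  have hB : val v (e.2 : k) < 1 := by rw [h.2.2, ← exp_zero, exp_lt_exp]; norm_num
  obtain ⟨z, hu, hn, h1⟩ := hd hA hB
  rw [Units.val_mul, Units.val_pow_eq_pow_val] at hu hn h1
  refine zl2b_sq (z : Cub e k) ?_
  generalize (d : Cub e k) * (z : Cub e k) ^ 2 = u at hu hn h1
  have i0 : u.c0 ∈ (val v).integer := hu.1
  have i1 : u.c1 ∈ (val v).integer := hu.2.1
  have i2 : u.c2 ∈ (val v).integer := hu.2.2
  have iA := intCast_mem (val v).integer e.1
  have iB := intCast_mem (val v).integer e.2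
  have h0 : val v u.c0 = 1 := by
    refine le_antisymm hu.1 (not_lt.1 fun h0 => hn.not_lt ?_)
    have e1 : nm u = u.c0 * (adj u).c0 + (e.2 : k) * (u.c2 * (u.c0 * u.c1 + e.2 * (u.c2 * u.c2)) -
        u.c1 * (adj u).c2) := by
      simp only [nm, adj]
      ring
    rw [e1]
    refine Valuation.map_add_lt _ (lociso_mul_lt v h0 (adj_mem_Ov hu).1) (lociso_mul_lt v hB ?_)
    have i3 : (adj u).c2 ∈ (val v).integer := (adj_mem_Ov hu).2.2
    rw [← Valuation.mem_integer_iff]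
    repeat first
      | assumption | apply sub_mem | apply add_mem | apply mul_mem
  have hne : u.c0 ≠ 0 := fun h3 => by simp [h3] at h0
  have i4 : val v u.c0⁻¹ ≤ 1 := by rw [map_inv₀, h0, inv_one]
  obtain ⟨a, ia, ha⟩ := exists_sqrt_two h2 i4
  have ia' : a ∈ (val v).integer := ia
  obtain ⟨b, ib, hb⟩ := exists_sqrt_two h2 (a := -(u.c2 * (a * a) * u.c0⁻¹))
    (neg_mem (S := Subring k) (mul_mem (mul_mem i2 (mul_mem ia' ia')) i4))
  have ib' : b ∈ (val v).integer := ib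
  refine zl2b_sq ⟨a, b, 0⟩ (zl2b_one h ⟨?_, ?_, ?_⟩)
  · have e1 : (u * (⟨a, b, 0⟩ : Cub e k) ^ 2 - 1).c0 = (u.c0⁻¹ - a ^ 2) * (-u.c0) -
        (e.2 : k) * (u.c1 * (b * b) + u.c2 * (a * b + a * b)) := by
      simp [sq]
      field_simp
      ring
    rw [e1]
    refine Valuation.map_sub_lt _ (lociso_mul_lt v ha (neg_mem (S := Subring k) i0))
      (lociso_mul_lt v hB ?_)
    rw [← Valuation.mem_integer_iff]
    repeat first
      | assumption | apply sub_mem | apply add_mem | apply mul_mem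
  · have e1 : (u * (⟨a, b, 0⟩ : Cub e k) ^ 2 - 1).c1 = 2 * (u.c0 * (a * b)) + u.c1 * (a * a) -
        (e.1 : k) * (u.c1 * (b * b) + u.c2 * (a * b + a * b)) - (e.2 : k) * (u.c2 * (b * b)) := by
      simp [sq]
      ring
    rw [e1]
    refine Valuation.map_sub_lt _ (Valuation.map_sub_lt _ (Valuation.map_add_lt _
      (lociso_mul_lt v h2 ?_) (lociso_mul_lt v h1 ?_)) (lociso_mul_lt v hA ?_))
      (lociso_mul_lt v hB ?_)
    all_goals
      rw [← Valuation.mem_integer_iff]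
      repeat first
        | assumption | apply sub_mem | apply add_mem | apply mul_mem
  · have e1 : (u * (⟨a, b, 0⟩ : Cub e k) ^ 2 - 1).c2 = (-(u.c2 * (a * a) * u.c0⁻¹) - b ^ 2) * (-u.c0) +
        2 * (u.c1 * (a * b)) - (e.1 : k) * (u.c2 * (b * b)) := by
      simp [sq]
      field_simp
      ring
    rw [e1]
    refine Valuation.map_sub_lt _ (Valuation.map_add_lt _
      (lociso_mul_lt v hb (neg_mem (S := Subring k) i0)) (lociso_mul_lt v h2 ?_))
      (lociso_mul_lt v hA ?_)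
    all_goals
      rw [← Valuation.mem_integer_iff]
      repeat first
        | assumption | apply sub_mem | apply add_mem | apply mul_mem

end Pool.Agent.Lib.MP_775b3b_nt
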