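import Pool.Agent.Lib.MP_775b3b_nt.ZTy1

/-! The anisotropic class at a twisting place. -/

namespace Pool.Agent.Lib.MP_775b3b_nt

open Cub MP_439fea_co WithZero

variable {e : ℤ × ℤ} {k : Type} [Field k] [NumberField k] {v : P k} {r : ℤ}

theorem ZTy4_red {κ : Type*} [Field κ] {ρ : (val v).integer →+* κ} (hρ : RedAt v ρ) {u : Cub e k}
    (hu : u ∈ Ov e v) (hn : val v (nm u) = 1) (hq : ∃ y : k, val v (nm u - y ^ 2) < 1)
    (hs : ∀ y : k, ¬ val v (evr (r : k) u - y ^ 2) < 1) :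
    IsSquare (nm (rdC ρ u)) ∧ nm (rdC ρ u) ≠ 0 ∧ ¬ IsSquare (evr (r : κ) (rdC ρ u)) := by
  have hr : val v (r : k) ≤ 1 := val_int_le v r
  refine ⟨?_, ?_, ?_⟩
  · rw [nm_rdC ρ hu]
    exact (hρ.isSquare_iff hn.le).2 hq
  · rw [nm_rdC ρ hu, Ne, hρ.rd_eq_zero hn.le, hn]
    exact lt_irrefl _
  · rw [← rd_intCast ρ r, evr_rdC ρ hr hu, hρ.isSquare_iff (val_evr_le hr hu)]
    rintro ⟨y, hy⟩
    exact hs y hy

theorem ZTy4_key (h : TyV e v r) {u : Cub e k} (hu : u ∈ Ov e v) (hn : val v (nm u) = 1)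
    (hq : ∃ y : k, val v (nm u - y ^ 2) < 1) (hs : ∀ y : k, ¬ val v (evr (r : k) u - y ^ 2) < 1)
    {α β c : k} (hα : val v α ≤ 1) (hβ : val v β ≤ 1) (h0 : ¬ (val v α < 1 ∧ val v β < 1))
    (hc : val v c < 1) {x : Cub e k}
    (hx : x = lin e (r : k) * ⟨α, β, 0⟩ + algebraMap k (Cub e k) c) :
    val v (tau e (r : k) * u * x * x).c2 = exp (-1 : ℤ) := by
  obtain ⟨κ, _, _, ρ, hρ⟩ := exists_redAt v
  obtain ⟨q1, q2, q3⟩ := ZTy4_red hρ hu hn hq hs
  have hr : val v (r : k) ≤ 1 := val_int_le v r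
  obtain ⟨y, hy⟩ : ∃ y : Cub e k, y = ⟨α, β, 0⟩ := ⟨_, rfl⟩
  have hyO : y ∈ Ov e v := by
    rw [hy]
    exact ⟨hα, hβ, zero_mem (val v).integer⟩
  have hry : rdC ρ y = ⟨rd ρ α, rd ρ β, 0⟩ := by
    rw [hy, rdC, rd_zero]
  have hl := lin_mem_Ov (e := e) hr
  have hw : u * lin e (r : k) * y ^ 2 ∈ Ov e v := mul_mem (mul_mem hu hl) (pow_mem hyO 2)
  have h1 : val v (u * lin e (r : k) * y ^ 2).c2 = 1 := by
    refine le_antisymm hw.2.2 (not_lt.1 fun hlt => ?_)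
    have h2 : (rdC ρ (u * lin e (r : k) * y ^ 2)).c2 = 0 := (hρ.rd_eq_zero hw.2.2).2 hlt
    rw [rdC_mul ρ (mul_mem hu hl) (pow_mem hyO 2), rdC_mul ρ hu hl, rdC_pow ρ hyO, rdC_lin ρ hr,
      rd_intCast, hry] at h2
    refine (h.ft hρ).ff3 q1 q2 q3 (fun h3 => h0 ?_) h2
    exact ⟨(hρ.rd_eq_zero hα).1 h3.1, (hρ.rd_eq_zero hβ).1 h3.2⟩
  have h2 : tau e (r : k) * u * x * x = fv e (r : k) • (u * lin e (r : k) * y ^ 2 +
      c • (u * y + u * y)) + (c * c) • (tau e (r : k) * u) := by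
    rw [hx, ← hy]
    simp only [Algebra.smul_def, map_mul, ← lin_mul_tau]
    ring
  have h3 : val v (u * lin e (r : k) * y ^ 2 + c • (u * y + u * y)).c2 = 1 := by
    rw [add_c2, Valuation.map_add_eq_of_lt_left, h1]
    rw [h1]
    exact (Sm.smul_of_lt hc (add_mem (mul_mem hu hyO) (mul_mem hu hyO))).2.2
  have h4 : val v (fv e (r : k) • (u * lin e (r : k) * y ^ 2 + c • (u * y + u * y))).c2 =
      exp (-1 : ℤ) := by
    rw [smul_c2, smul_eq_mul, map_mul, h3, mul_one, h.2.1]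
  rw [h2, add_c2, Valuation.map_add_eq_of_lt_left, h4]
  rw [h4, smul_c2, smul_eq_mul, mul_assoc, map_mul]
  have h5 : val v (c * (tau e (r : k) * u).c2) < 1 :=
    lociso_mul_lt v hc (mul_mem (tau_mem_Ov hr) hu).2.2
  calc val v c * val v (c * (tau e (r : k) * u).c2)
      ≤ exp (-1 : ℤ) * val v (c * (tau e (r : k) * u).c2) := mul_le_mul_left (val_le_exp hc) _
    _ < exp (-1 : ℤ) * 1 := mul_lt_mul_of_pos_left h5 exp_pos
    _ = exp (-1 : ℤ) := mul_one _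

/-- `u` a unit whose reduction has square norm and `evr r u` not a square.  For primitive `x`:
if `val v (evr r x) = 1` then modulo `v` `(τ u x^2).c2 = evr r u * evr r x ^ 2 ≠ 0` (`mul_tau`).
Otherwise `x = a y + c`, `c = evr r x`, `y = ⟨-(x1 + x2 r), -x2, 0⟩` not small,
`τ x^2 = f(r) • (a y^2 + 2 c • y) + c^2 • τ`, and `FT.ff3` shows that the valuation is `exp (-1)`. -/
theorem TyV.val_form (h : TyV e v r) {u : Cub e k} (hu : u ∈ Ov e v) (hn : val v (nm u) = 1)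
    (hq : ∃ y : k, val v (nm u - y ^ 2) < 1) (hs : ∀ y : k, ¬ val v (evr (r : k) u - y ^ 2) < 1) :
    (∀ x ∈ Ov e v, ¬ Sm v x → (tau e (r : k) * u * x * x).c2 ≠ 0) ∧
      val v (tau e (r : k) * u * lin e (r : k) * lin e (r : k)).c2 = exp (-1 : ℤ) := by
  have hr : val v (r : k) ≤ 1 := val_int_le v r
  have hz : val v (0 : k) < 1 := by rw [map_zero]; exact zero_lt_one
  refine ⟨fun x hx hsm h0 => ?_, ZTy4_key h hu hn hq hs (α := 1) (β := 0) (c := 0)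
    (map_one _).le hz.le (fun h1 => by rw [map_one] at h1; exact lt_irrefl _ h1.1) hz ?_⟩
  · by_cases hc : val v (evr (r : k) x) < 1
    · have h1 := ZTy4_key h hu hn hq hs (α := -(x.c1 + x.c2 * r)) (β := -x.c2) (x := x)
        (by
          rw [Valuation.map_neg]
          exact add_mem (S := Subring k) hx.2.1 (mul_mem hx.2.2 hr))
        (by rw [Valuation.map_neg]; exact hx.2.2) (fun h1 => hsm ?_) hc ?_
      · rw [h0, map_zero] at h1
        exact exp_ne_zero h1.symm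
      · rw [Valuation.map_neg, Valuation.map_neg] at h1
        have h2 : x.c0 = evr (r : k) x - (x.c1 + x.c2 * r) * r := by
          rw [evr]
          ring
        have h3 : x.c1 = (x.c1 + x.c2 * r) - x.c2 * r := by ring
        refine ⟨?_, ?_, h1.2⟩
        · rw [h2]
          exact Valuation.map_sub_lt _ hc (lociso_mul_lt v h1.1 hr)
        · rw [h3]
          exact Valuation.map_sub_lt _ h1.1 (lociso_mul_lt v h1.2 hr)
      · ext
        · rw [add_c0, algebraMap_c0]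
          simp [lin, evr]
          ring
        · rw [add_c1, algebraMap_c1]
          simp [lin]
          ring
        · rw [add_c2, algebraMap_c2]
          simp [lin]
    · obtain ⟨κ, _, _, ρ, hρ⟩ := exists_redAt v
      obtain ⟨-, -, q3⟩ := ZTy4_red hρ hu hn hq hs
      have ht := tau_mem_Ov (e := e) hr
      have hf := (h.ft hρ).root
      have h1 : (rdC ρ (tau e (r : k) * u * x * x)).c2 = 0 := by
        change rd ρ _ = 0
        rw [h0, rd_zero]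
      rw [rdC_mul ρ (mul_mem (mul_mem ht hu) hx) hx, rdC_mul ρ (mul_mem ht hu) hx,
        rdC_mul ρ ht hu, rdC_tau ρ hr, rd_intCast, mul_assoc, mul_assoc, mul_comm, mul_tau hf,
        evr_mul hf, evr_mul hf, smul_c2] at h1
      have h2 : evr (r : κ) (rdC ρ x) ≠ 0 := by
        rw [← rd_intCast ρ r, evr_rdC ρ hr hx, Ne, hρ.rd_eq_zero (val_evr_le hr hx)]
        exact hc
      have h3 : evr (r : κ) (rdC ρ u) ≠ 0 := fun h3 => q3 (h3 ▸ IsSquare.zero)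
      exact mul_ne_zero (mul_ne_zero h3 (mul_ne_zero h2 h2)) one_ne_zero h1
  · ext
    · rw [add_c0, algebraMap_c0]
      simp [lin]
    · rw [add_c1, algebraMap_c1]
      simp [lin]
    · rw [add_c2, algebraMap_c2]
      simp [lin]

/-- `s z₁^2 = u₁`, `t τ z₂^2 = 1 + ε`, `s t (z₁ z₂ τ)^2 = τ u`, `u = u₁ (1 + ε)`; `evr r u₁` is not a
square modulo `v` by `sqv_of_evr`; `exists_prim` -/
theorem TyV.aniso (h : TyV e v r) {s t : (Cub e k)ˣ} (hs : s ∈ usv e v) (hs' : s ∈ nsq e k)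
    (hn : s ∉ sqv e v) (ht : t * tauU e k r ∈ sqv e v) :
    ¬ Iso ((s * t : (Cub e k)ˣ) : Cub e k) ∧
      ∃ x, val v (Bf ((s * t : (Cub e k)ˣ) : Cub e k) x x) = exp (-1 : ℤ) := by
  have hr : val v (r : k) ≤ 1 := val_int_le v r
  obtain ⟨z₁, h1, h2⟩ := mem_usv.1 hs
  obtain ⟨z₂, h3⟩ := ht
  obtain ⟨h4, h5⟩ := h3.val_nm
  have hq1 : s * z₁ ^ 2 ∈ nsq e k := mul_mem hs' (SQ_le_nsq (sq_mem_SQ z₁))
  have hn1 : s * z₁ ^ 2 ∉ sqv e v := fun h6 => hn (by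
    have h7 := mul_mem h6 (SQ_le_sqv (sq_mem_SQ z₁⁻¹))
    rwa [mul_assoc, ← mul_pow, mul_inv_cancel, one_pow, mul_one] at h7)
  have hZ : ((s * t : (Cub e k)ˣ) : Cub e k) * (z₁ * z₂ * tauU e k r : (Cub e k)ˣ) *
      (z₁ * z₂ * tauU e k r : (Cub e k)ˣ) = tau e (r : k) * ((s * z₁ ^ 2 : (Cub e k)ˣ) *
        (t * tauU e k r * z₂ ^ 2 : (Cub e k)ˣ) : Cub e k) := by
    rw [← tauU_val h.fv_ne]
    simp only [Units.val_mul, Units.val_pow_eq_pow_val]
    ring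
  generalize s * z₁ ^ 2 = u at h1 h2 hq1 hn1 hZ
  generalize ((t * tauU e k r * z₂ ^ 2 : (Cub e k)ˣ) : Cub e k) = w at h3 h4 h5 hZ
  generalize z₁ * z₂ * tauU e k r = Z at hZ
  generalize ((s * t : (Cub e k)ˣ) : Cub e k) = d at hZ
  obtain ⟨κ, _, _, ρ, hρ⟩ := exists_redAt v
  have huw : (u : Cub e k) * w ∈ Ov e v := mul_mem h1 h4
  have hnm : val v (nm ((u : Cub e k) * w)) = 1 := by rw [nm_mul, map_mul, h2, h5, one_mul]
  have hrd : rdC ρ ((u : Cub e k) * w) = rdC ρ (u : Cub e k) := by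
    rw [rdC_mul ρ h1 h4, (hρ.rdC_eq_iff h4 (one_mem _)).2 h3, rdC_one, mul_one]
  obtain ⟨k1, k2⟩ := h.val_form huw hnm
    (by
      rw [← hρ.isSquare_iff hnm.le, ← nm_rdC ρ huw, hrd, nm_rdC ρ h1, hρ.isSquare_iff h2.le]
      obtain ⟨ν, hν⟩ := hq1
      exact ⟨ν, by rw [hν, sub_self, map_zero]; exact zero_lt_one⟩)
    (fun y hy => hn1 (h.sqv_of_evr h1 h2 hq1 (by
      rw [← hρ.isSquare_iff (val_evr_le hr h1), ← evr_rdC ρ hr h1, ← hrd, evr_rdC ρ hr huw,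
        hρ.isSquare_iff (val_evr_le hr huw)]
      exact ⟨y, hy⟩)))
  have key : ∀ x : Cub e k, Bf d (Z * x) (Z * x) = (tau e (r : k) * (u * w) * x * x).c2 := by
    intro x
    rw [Bf, ← hZ]
    congr 1
    ring
  refine ⟨?_, Z * lin e (r : k), by rw [key, k2]⟩
  rintro ⟨x, hx, hb⟩
  obtain ⟨c, -, hc1, hc2⟩ := exists_prim v (x := ((Z⁻¹ : (Cub e k)ˣ) : Cub e k) * x)
    (fun h0 => hx ((Units.mul_right_eq_zero _).1 h0))
  refine k1 _ hc1 hc2 ?_
  rw [← key, mul_smul_comm, Units.mul_inv_cancel_left, Bf_smul_left, Bf_smul_right, hb,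
    mul_zero, mul_zero]

end Pool.Agent.Lib.MP_775b3b_nt
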