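import Pool.Agent.Lib.MP_775b3b_nt.ZIso1
import Pool.Agent.Lib.MP_775b3b_nt.ZL2b
import Pool.Agent.Lib.MP_775b3b_nt.ZTy3
import Pool.Agent.Lib.MP_775b3b_nt.ZTy4
import Pool.Agent.Lib.MP_775b3b_nt.ZGlue

/-! The key lemma. -/

namespace Pool.Agent.Lib.MP_775b3b_nt

open Cub MP_439fea_co WithZero

variable {e : ℤ × ℤ} {k : Type} [Field k] [NumberField k] {D : Finset ℕ}

theorem ZKey_two {v : P k} (h : ¬ val v (2 : k) < 1) : val v (2 : k) = 1 := by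
  have h1 : val v ((2 : ℕ) : k) ≤ 1 := val_nat_le_one _ 2
  rw [Nat.cast_ofNat] at h1
  exact le_antisymm h1 (not_lt.1 h)

theorem ZKey_loc (h : Nice e D k) {d : (Cub e k)ˣ} {v : P k}
    (h2 : val v (2 : k) < 1 → d ∈ L2 e v)
    (hT : ∀ l ∈ D, val v (l : k) < 1 → d ∈ Tv e v (rt e l) ∨ d ∈ usv e v)
    (hU : (∀ l ∈ D, ¬ val v (l : k) < 1) → d ∈ usv e v) : LocIso v (d : Cub e k) := by
  by_cases hv : val v (2 : k) < 1
  · exact L2_iso (h.two v hv) (h2 hv)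
  · by_cases hD : ∃ l ∈ D, val v (l : k) < 1
    · obtain ⟨l, hl, hlv⟩ := hD
      rcases hT l hl hlv with h3 | h3
      · exact Tv_iso (h.ty l hl v hlv) h3
      · exact usv_iso (ZKey_two hv) h3
    · exact usv_iso (ZKey_two hv) (hU fun l hl hlv => hD ⟨l, hl, hlv⟩)

/-- `L2_iso` if `val v 2 < 1`, else `val v 2 = 1` and `Tv_iso` or `usv_iso`; `nsq_le_pos`,
`exists_eps`, `exists_isotropic` -/
theorem Nice.iso (h : Nice e D k) {d : (Cub e k)ˣ} (hd : d ∈ Z e D k) : Iso (d : Cub e k) := by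
  obtain ⟨h1, h2, h3, h4⟩ := mem_Z.1 hd
  obtain ⟨ν, hν⟩ := h1
  obtain ⟨ε, hε⟩ := exists_eps (disc_ne_zero_of_pos h.pos) (nsq_le_pos h.pos ⟨ν, hν⟩) hν
  have hν0 : ν ≠ 0 := fun h0 => nm_ne_zero d (by rw [hν, h0]; ring)
  exact exists_isotropic hν hν0 hε fun v =>
    ZKey_loc h (h2 v) (fun l hl hlv => Or.inl (h3 l hl v hlv)) (h4 v)

theorem Nice.esc (h : Nice e D k) {n : ℕ} (hn : ∀ l ∈ D, l ∣ n) {Q : Finset ℕ} {d : (Cub e k)ˣ}
    (hd : d ∈ Z e D k) (h0 : d ∉ SQ e k) (hQ : ∀ l ∈ Q, Ty e l → d ∈ St e k l) : Esc n Q d :=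
  ⟨(mem_Z.1 hd).1, nsq_le_pos h.pos (mem_Z.1 hd).1, h.dfc hn hd, h.iso hd, h0, hQ⟩

/-- Otherwise `t τ ∈ sqv e w`.  `s ∈ usv e v` for every `v ∣ l` (`prime_under_unique`).  The class
`s t` is locally isotropic at every `v ≠ w`: above `2` by `L2_iso`; above `l' ∈ D` by `Tv_iso`;
above `l` it is in `Tv` (if `s ∈ sqv`) or in `usv` (if `t ∈ sqv`); elsewhere in `usv`.
`exists_isotropic1` contradicts `TyV.aniso`. -/
theorem key_lemma {l : ℕ} (h : Nice e (insert l D) k) (hl : l ∉ D) {s t : (Cub e k)ˣ}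
    (hs : s ∈ Z e D k) (ht : t ∈ Z e (insert l D) k) {w : P k} (hw : val w (l : k) < 1)
    (hsw : s ∉ sqv e w)
    (ho : ∀ v : P k, val v (l : k) < 1 → v ≠ w → s ∈ sqv e v ∨ t ∈ sqv e v) : t ∈ sqv e w := by
  obtain ⟨s1, s2, s3, s4⟩ := mem_Z.1 hs
  obtain ⟨t1, t2, t3, t4⟩ := mem_Z.1 ht
  have hlm : l ∈ insert l D := Finset.mem_insert_self l D
  have hlp : l.Prime := h.prime l hlm
  have hsu : ∀ v : P k, val v (l : k) < 1 → s ∈ usv e v := by
    intro v hv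
    refine s4 v fun l' hl' hv' => hl ?_
    rw [prime_under_unique v hlp (h.prime l' (Finset.mem_insert_of_mem hl')) hv hv']
    exact hl'
  have hty := h.ty l hlm w hw
  rcases mem_Tv.1 (t3 l hlm w hw) with h1 | h1
  · exact h1
  exfalso
  obtain ⟨hani, hodd⟩ := hty.aniso (hsu w hw) s1 hsw h1
  have hst : s * t ∈ nsq e k := mul_mem s1 t1
  obtain ⟨ν, hν⟩ := hst
  obtain ⟨ε, hε⟩ := exists_eps (disc_ne_zero_of_pos h.pos) (nsq_le_pos h.pos ⟨ν, hν⟩) hν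
  have hν0 : ν ≠ 0 := fun h0 => nm_ne_zero (s * t) (by rw [hν, h0]; ring)
  refine hani (exists_isotropic1 hν hν0 hε w hty.1 (fun v hv => ?_) hodd)
  refine ZKey_loc h (fun h2 => mul_mem (s2 v h2) (t2 v h2)) (fun l' hl' hlv => ?_) fun hn => ?_
  · rcases Finset.mem_insert.1 hl' with rfl | hl''
    · rcases ho v hlv hv with h3 | h3
      · exact Or.inl (mul_mem (sqv_le_Tv h3) (t3 l' hl' v hlv))
      · exact Or.inr (mul_mem (hsu v hlv) (sqv_le_usv h3))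
    · exact Or.inl (mul_mem (s3 l' hl'' v hlv) (t3 l' hl' v hlv))
  · exact mul_mem (s4 v fun l' hl' => hn l' (Finset.mem_insert_of_mem hl')) (t4 v hn)

/-- an element of the larger group which is trivial above `l` is in the smaller one -/
theorem mem_Z_of_St {l : ℕ} {t : (Cub e k)ˣ} (ht : t ∈ Z e (insert l D) k) (h : t ∈ St e k l) :
    t ∈ Z e D k := by
  obtain ⟨t1, t2, t3, t4⟩ := mem_Z.1 ht
  refine mem_Z.2 ⟨t1, t2, fun l' hl' => t3 l' (Finset.mem_insert_of_mem hl'), fun v hv => ?_⟩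
  by_cases hl : val v (l : k) < 1
  · exact sqv_le_usv (mem_St.1 h v hl)
  · refine t4 v fun l' hl' => ?_
    rcases Finset.mem_insert.1 hl' with rfl | hl''
    · exact hl
    · exact hv l' hl''

end Pool.Agent.Lib.MP_775b3b_nt
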