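import Pool.Agent.Lib.MP_775b3b_nt.YA
import Pool.Agent.Lib.MP_775b3b_nt.ZKey

/-! The key lemma, one place at a time. -/

namespace Pool.Agent.Lib.MP_775b3b_nt

open Cub MP_439fea_co WithZero

variable {e : ℤ × ℤ} {k : Type} [Field k] [NumberField k] {Λ : Set (P k)}

theorem SQ_le_ZG : SQ e k ≤ ZG e Λ := by
  intro d h
  exact mem_ZG.2 ⟨SQ_le_nsq h, fun _ _ => sqv_le_L2 (SQ_le_sqv h),
    fun _ _ => sqv_le_Tv (SQ_le_sqv h), fun _ _ => sqv_le_usv (SQ_le_sqv h)⟩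

theorem YKey_loc (h : NiceG e Λ) {d : (Cub e k)ˣ} {v : P k}
    (h2 : val v (2 : k) < 1 → d ∈ L2 e v) (hT : v ∈ Λ → d ∈ Tv e v (rg e (pr v)))
    (hU : v ∉ Λ → d ∈ usv e v) : LocIso v (d : Cub e k) := by
  by_cases hv : val v (2 : k) < 1
  · exact L2_iso (h.two v hv) (h2 hv)
  · by_cases hD : v ∈ Λ
    · exact (h.ty v hD).iso (hT hD)
    · exact usv_iso (ZKey_two hv) (hU hD)

/-- as `Nice.iso` -/
theorem NiceG.iso (h : NiceG e Λ) {d : (Cub e k)ˣ} (hd : d ∈ ZG e Λ) : Iso (d : Cub e k) := by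
  obtain ⟨h1, h2, h3, h4⟩ := mem_ZG.1 hd
  obtain ⟨ν, hν⟩ := h1
  obtain ⟨ε, hε⟩ := exists_eps (disc_ne_zero_of_pos h.pos) (nsq_le_pos h.pos ⟨ν, hν⟩) hν
  have hν0 : ν ≠ 0 := fun h0 => nm_ne_zero d (by rw [hν, h0]; ring)
  exact exists_isotropic hν hν0 hε fun v => YKey_loc h (h2 v) (h3 v) (h4 v)

/-- As `Nice.dfc` (`glue`).  At `v ∈ Λ` with `u = d τ z^2` a unit: `d (z τ)^2 = u τ`, and its
inverse is `u⁻¹ a / f`, where `val v n ≤ exp (-1) = val v f`. -/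
theorem NiceG.dfc (h : NiceG e Λ) {n : ℕ} (hn : ∀ v ∈ Λ, pr v ∣ n) {d : (Cub e k)ˣ}
    (hd : d ∈ ZG e Λ) : Dfc n d := by
  intro p
  obtain ⟨-, -, h3, h4⟩ := mem_ZG.1 hd
  refine glue n p fun v _ => ?_
  have easy : d ∈ usv e v → ∃ z : (Cub e k)ˣ, ((d * z ^ 2 : (Cub e k)ˣ) : Cub e k) ∈ Ov e v ∧
      (n : k) • (((d * z ^ 2)⁻¹ : (Cub e k)ˣ) : Cub e k) ∈ Ov e v := fun ⟨z, h1, h2⟩ =>
    ⟨z, h1, smul_mem_Ov (val_natCast_le_one v n) h2⟩
  by_cases hl : v ∈ Λ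
  · rcases h3 v hl with h5 | ⟨z, h5⟩
    · exact easy (sqv_le_usv h5)
    · have hf := (h.ty v hl).unif
      set r := rg e (pr v) with hr
      have hf0 : fv e (r : k) ≠ 0 := (val v).ne_zero_iff.1 (hf ▸ exp_ne_zero)
      have a1 := h5.val_nm.1
      have a2 := inv_mem_Ov a1 h5.val_nm.2
      have e1 : d * (tauU e k r * z) ^ 2 = tauU e k r * (d * tauU e k r * z ^ 2) := by
        rw [mul_pow, sq (tauU e k r)]
        ac_rfl
      have e2 : (((tauU e k r)⁻¹ : (Cub e k)ˣ) : Cub e k) = (fv e (r : k))⁻¹ • lin e (r : k) := by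
        refine Units.inv_eq_of_mul_eq_one_right ?_
        rw [tauU_val hf0, mul_smul_comm, mul_comm, lin_mul_tau, Algebra.algebraMap_eq_smul_one,
          smul_smul, inv_mul_cancel₀ hf0, one_smul]
      have hn' : val v ((n : k) * (fv e (r : k))⁻¹) ≤ 1 := by
        obtain ⟨m, hm⟩ := hn v hl
        rw [map_mul, map_inv₀, hf, mul_inv_le_iff₀ (zero_lt_iff.2 exp_ne_zero), one_mul, hm,
          Nat.cast_mul, map_mul]
        exact (mul_le_of_le_one_right' (val_natCast_le_one v m)).trans (val_le_exp (val_pr v))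
      refine ⟨tauU e k r * z, ?_, ?_⟩
      · rw [e1, Units.val_mul, tauU_val hf0]
        exact mul_mem (tau_mem_Ov (val_int_le v r)) a1
      · rw [e1, mul_inv, Units.val_mul, e2, ← smul_mul_assoc, smul_smul]
        exact mul_mem (smul_mem_Ov hn' (lin_mem_Ov (val_int_le v r))) a2
  · exact easy (h4 v hl)

theorem NiceG.esc (h : NiceG e Λ) {n : ℕ} (hn : ∀ v ∈ Λ, pr v ∣ n) {Q : Finset ℕ}
    {d : (Cub e k)ˣ} (hd : d ∈ ZG e Λ) (h0 : d ∉ SQ e k) (hQ : ∀ l ∈ Q, Ty e l → d ∈ St e k l) :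
    Esc n Q d :=
  ⟨(mem_ZG.1 hd).1, nsq_le_pos h.pos (mem_ZG.1 hd).1, h.dfc hn hd, h.iso hd, h0, hQ⟩

/-- As `key_lemma`: for `t` in the larger group with `t τ ∈ sqv e w`, the class `s t` satisfies the
same local condition as `s` and `t` at every `v ≠ w`, so it is locally isotropic there;
`exists_isotropic1` contradicts `TyA.aniso`.  Hence `t ∈ sqv e w ≤ usv e w`. -/
theorem step_G {w : P k} (h : NiceG e (insert w Λ)) (hw : w ∉ Λ) {s : (Cub e k)ˣ}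
    (hs : s ∈ ZG e Λ) (hsw : s ∉ sqv e w) : ZG e (insert w Λ) ≤ ZG e Λ ⊓ sqv e w := by
  intro t ht
  obtain ⟨s1, s2, s3, s4⟩ := mem_ZG.1 hs
  obtain ⟨t1, t2, t3, t4⟩ := mem_ZG.1 ht
  have hty := h.ty w (Set.mem_insert w Λ)
  have key : t ∈ sqv e w := by
    rcases mem_Tv.1 (t3 w (Set.mem_insert w Λ)) with h1 | h1
    · exact h1
    exfalso
    obtain ⟨hani, hodd⟩ := hty.aniso (s4 w hw) s1 hsw h1
    obtain ⟨ν, hν⟩ : s * t ∈ nsq e k := mul_mem s1 t1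
    obtain ⟨ε, hε⟩ := exists_eps (disc_ne_zero_of_pos h.pos) (nsq_le_pos h.pos ⟨ν, hν⟩) hν
    have hν0 : ν ≠ 0 := fun h0 => nm_ne_zero (s * t) (by rw [hν, h0]; ring)
    refine hani (exists_isotropic1 hν hν0 hε w hty.two (fun v hv => ?_) hodd)
    refine YKey_loc (h.mono (Set.subset_insert w Λ)) (fun h2 => mul_mem (s2 v h2) (t2 v h2))
      (fun hl => mul_mem (s3 v hl) (t3 v (Set.mem_insert_of_mem w hl)))
      fun hl => mul_mem (s4 v hl) (t4 v fun h' => h'.elim hv hl)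
  refine ⟨mem_ZG.2 ⟨t1, t2, fun v hv => t3 v (Set.mem_insert_of_mem w hv), fun v hv => ?_⟩, key⟩
  by_cases hvw : v = w
  · rw [hvw]
    exact sqv_le_usv key
  · exact t4 v fun h' => h'.elim hvw hv

end Pool.Agent.Lib.MP_775b3b_nt
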