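import Pool.Agent.Lib.MP_775b3b_nt.ZKey
import Pool.Agent.Lib.MP_775b3b_nt.ZTy0
import Pool.Agent.Lib.MP_775b3b_nt.Gal2

/-! Twisting by one more prime. -/

namespace Pool.Agent.Lib.MP_775b3b_nt

open Cub MP_439fea_co WithZero

/-- take `D` maximal (`Finset.exists_maximal` in `Q.powerset.filter`, or of maximal cardinality)
among the `D ⊆ Q` with `∀ l ∈ D, ty l` and `Zs (D₀ ∪ D) ≤ Zs D₀ ⊓ ⨅ l ∈ D, st l` -/
theorem exists_kill {G : Type*} [Group G] (Zs : Finset ℕ → Subgroup G) (st : ℕ → Subgroup G)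
    (H : Subgroup G) (ty : ℕ → Prop) (D₀ Q : Finset ℕ) (hd : Disjoint D₀ Q)
    (h1 : ∀ s ∈ Zs D₀, s ∉ H → ∃ l ∈ Q, ty l ∧ s ∉ st l)
    (h2 : ∀ D ⊆ Q, (∀ l ∈ D, ty l) → ∀ l ∈ Q, ty l → l ∉ D₀ ∪ D → ∀ s ∈ Zs (D₀ ∪ D), s ∉ st l →
      Zs (insert l (D₀ ∪ D)) ≤ Zs (D₀ ∪ D) ⊓ st l) :
    ∃ D ⊆ Q, (∀ l ∈ D, ty l) ∧ Zs (D₀ ∪ D) ≤ H := by
  classical
  obtain ⟨D, hD, hm⟩ := Finset.exists_max_image (Q.powerset.filter fun D =>
    (∀ l ∈ D, ty l) ∧ Zs (D₀ ∪ D) ≤ Zs D₀ ∧ ∀ l ∈ D, Zs (D₀ ∪ D) ≤ st l) Finset.card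
    ⟨∅, by simp⟩
  rw [Finset.mem_filter, Finset.mem_powerset] at hD
  obtain ⟨hQ, hty, hle, hst⟩ := hD
  refine ⟨D, hQ, hty, fun s hs => ?_⟩
  by_contra hH
  obtain ⟨l, hl, hl1, hl2⟩ := h1 s (hle hs) hH
  have hlD : l ∉ D := fun h => hl2 (hst l h hs)
  have hl0 : l ∉ D₀ ∪ D := by
    rw [Finset.mem_union, not_or]
    exact ⟨fun h => Finset.disjoint_left.1 hd h hl, hlD⟩
  have h3 := h2 D hQ hty l hl hl1 hl0 s hs hl2
  have h4 := hm (insert l D) (by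
    rw [Finset.mem_filter, Finset.mem_powerset, Finset.union_insert]
    refine ⟨Finset.insert_subset hl hQ, ?_, h3.trans (inf_le_left.trans hle), ?_⟩
    · intro l' h'
      rcases Finset.mem_insert.1 h' with rfl | h'
      exacts [hl1, hty l' h']
    · intro l' h'
      rcases Finset.mem_insert.1 h' with rfl | h'
      exacts [h3.trans inf_le_right, h3.trans (inf_le_left.trans (hst l' h'))])
  rw [Finset.card_insert_of_notMem hlD] at h4
  omega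

/-- If `B = {w}` move a point of `A` to `w`; similarly if `A` is a point.  Otherwise both have two
elements and `Ω` has three; move the point outside `A` to a point of `B`. -/
theorem comb3 {G α : Type*} [Group G] [MulAction G α] (Ω A B : Set α) (hf : Ω.Finite)
    (h3 : Ω.ncard ≤ 3) (hΩ : ∀ g : G, ∀ x ∈ Ω, g • x ∈ Ω)
    (ht : ∀ x ∈ Ω, ∀ y ∈ Ω, ∃ g : G, g • x = y) (hA : A ⊆ Ω) (hB : B ⊆ Ω) (hA0 : A.Nonempty)
    (hB0 : B.Nonempty) (hA1 : ∃ x ∈ Ω, x ∉ A) (hB1 : ∃ x ∈ Ω, x ∉ B) :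
    ∃ (g : G) (w : α), g⁻¹ • w ∈ A ∧ w ∈ B ∧ ∀ v ∈ Ω, v ≠ w → g⁻¹ • v ∉ A ∨ v ∉ B := by
  have key : ∀ C : Set α, C ⊆ Ω → ∀ a ∈ C, ∀ b ∈ C, a ≠ b → ∀ x ∈ Ω, x ∉ C →
      ∀ v ∈ Ω, v = a ∨ v = b ∨ v = x := by
    intro C hC a ha b hb hab x hx hxC v hv
    have h1 : ({a, b, x} : Set α).ncard = 3 := Set.ncard_eq_three.2
      ⟨a, b, x, hab, fun h => hxC (h ▸ ha), fun h => hxC (h ▸ hb), rfl⟩
    have h2 : ({a, b, x} : Set α) = Ω := Set.eq_of_subset_of_ncard_le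
      (by rintro y (rfl | rfl | rfl); exacts [hC ha, hC hb, hx]) (by omega) hf
    rw [← h2] at hv
    simpa using hv
  obtain ⟨a, ha⟩ := hA0
  obtain ⟨b, hb⟩ := hB0
  by_cases h1 : ∀ v ∈ B, v = b
  · obtain ⟨g, hg⟩ := ht a (hA ha) b (hB hb)
    exact ⟨g, b, by rwa [← hg, inv_smul_smul], hb, fun v _ hv => Or.inr fun h => hv (h1 v h)⟩
  by_cases h2 : ∀ v ∈ A, v = a
  · obtain ⟨g, hg⟩ := ht a (hA ha) b (hB hb)
    refine ⟨g, b, by rwa [← hg, inv_smul_smul], hb, fun v _ hv => Or.inl fun h => hv ?_⟩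
    rw [← hg, ← h2 _ h, smul_inv_smul]
  push Not at h1 h2
  obtain ⟨b', hb', hbb⟩ := h1
  obtain ⟨a', ha', haa⟩ := h2
  obtain ⟨x, hx, hxA⟩ := hA1
  obtain ⟨y, hy, hyB⟩ := hB1
  obtain ⟨g, hg⟩ := ht x hx b' (hB hb')
  refine ⟨g, b, ?_, hb, fun v hv hvb => ?_⟩
  · rcases key A hA a' ha' a ha haa x hx hxA _ (hΩ g⁻¹ b (hB hb)) with h | h | h
    · rwa [h]
    · rwa [h]
    · exact absurd (by rw [← hg, ← h, smul_inv_smul]) hbb
  · rcases key B hB b' hb' b hb hbb y hy hyB v hv with h | h | h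
    · left
      rwa [h, ← hg, inv_smul_smul]
    · exact absurd h hvb
    · right
      rwa [h]

variable {e : ℤ × ℤ} {D : Finset ℕ}

/-- `key_lemma`, `place_rat_unique`, `mem_Z_of_St` -/
theorem step_rat {l : ℕ} (h : Nice e (insert l D) ℚ) (hl : l ∉ D) {s : (Cub e ℚ)ˣ}
    (hs : s ∈ Z e D ℚ) (hn : s ∉ St e ℚ l) : Z e (insert l D) ℚ ≤ Z e D ℚ ⊓ St e ℚ l := by
  intro t ht
  have hp := h.prime l (Finset.mem_insert_self l D)
  have h1 : t ∈ St e ℚ l := by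
    rw [mem_St] at hn ⊢
    push Not at hn
    obtain ⟨v, hv, hsv⟩ := hn
    intro w hw
    obtain rfl := place_rat_unique hp hv hw
    exact key_lemma h hl hs ht hw hsv fun v' hv' hne => absurd (place_rat_unique hp hv' hw) hne
  exact ⟨mem_Z_of_St ht h1, h1⟩

variable {K : Type} [Field K] [NumberField K] (S : Setup K K)

/-- classes killed by corestriction -/
noncomputable def Setup.TZ (e : ℤ × ℤ) : Subgroup (Cub e K)ˣ := (SQ e ℚ).comap (S.cor e)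

theorem Setup.uz_cor (d : (Cub e K)ˣ) : uz e (algebraMap ℚ K) (S.cor e d) =
    uz e (S.s 0) d * uz e (S.s 1) d * uz e (S.s 2) d := by
  ext1
  rw [uz_val, S.gal2_val, S.map_rn, Fin.prod_univ_three, Units.val_mul, Units.val_mul, uz_val,
    uz_val, uz_val]

/-- every `S.s j` is an automorphism (`RingHom.toRatAlgHom`, `AlgHom.bijective`) -/
theorem Setup.exists_aut (j : Fin 3) : ∃ g : K ≃ₐ[ℚ] K, (g : K →+* K) = S.s j := by
  exact ⟨AlgEquiv.ofBijective (S.s j).toRatAlgHom (AlgHom.bijective _), RingHom.ext fun _ => rfl⟩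

/-- `Ω` = places above `l` (`finite_over_prime`, `ncard_over_prime_le`, `S.finrank_eq`,
`exists_smul_eq_of_prime` with `S.gal`, `over_smul`).  An element `x` of `S.TZ e` in `Z e D K`
(resp. `Z e (insert l D) K`) is in `sqv` at some place of `Ω`: otherwise at a fixed `v ∈ Ω` the
three conjugates are outside `sqv e v` (`sqv_smul_iff`), the product of two of them is in `sqv e v`
(`TyV.mul_mem_sqv`, resp. `τ^2 ∈ SQ`), and the product of the three is a square (`uz_cor`).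
`comb3` and `key_lemma` for `uz e g s` (`uz_mem_Z`) and `t`. -/
theorem Setup.step {l : ℕ} (h : Nice e (insert l D) K) (hl : l ∉ D) {s : (Cub e K)ˣ}
    (hs : s ∈ Z e D K ⊓ S.TZ e) (hn : s ∉ St e K l) :
    Z e (insert l D) K ⊓ S.TZ e ≤ (Z e D K ⊓ S.TZ e) ⊓ St e K l := by
  have := S.gal
  have hp := h.prime l (Finset.mem_insert_self l D)
  have hΩ : ∀ (g : K ≃ₐ[ℚ] K) (v : P K), val v (l : K) < 1 → val (g • v) (l : K) < 1 :=
    fun g v hv => by rwa [(over_smul g v).natCast]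
  have hsq : ∀ (g : K ≃ₐ[ℚ] K) (v : P K) (d : (Cub e K)ˣ),
      uz e (g : K →+* K) d ∈ sqv e v ↔ d ∈ sqv e (g⁻¹ • v) := fun g v d => by
    rw [← sqv_smul_iff g (g⁻¹ • v) d, smul_inv_smul]
  have hex : ∀ x ∈ S.TZ e, x ∈ Z e D K ∨ x ∈ Z e (insert l D) K →
      ∃ v : P K, val v (l : K) < 1 ∧ x ∈ sqv e v := by
    intro x hx hZ
    by_contra hc
    push Not at hc
    obtain ⟨v, hv⟩ := exists_over_prime K hp
    have h1 : ∀ j, uz e (S.s j) x ∉ sqv e v := fun j hj => by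
      obtain ⟨g, hg⟩ := S.exists_aut j
      rw [← hg, hsq] at hj
      exact hc _ (hΩ _ _ hv) hj
    have h2 : uz e (S.s 0) x * uz e (S.s 1) x * uz e (S.s 2) x ∈ sqv e v := by
      rw [← S.uz_cor]
      exact SQ_le_sqv (uz_mem_SQ _ hx)
    refine h1 2 ((Subgroup.mul_mem_cancel_left _ ?_).1 h2)
    rcases hZ with hZ | hZ
    · have h3 : ∀ j, uz e (S.s j) x ∈ usv e v := fun j =>
        (mem_Z.1 (uz_mem_Z (S.s j) hZ)).2.2.2 v fun l' hl' h' =>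
          hl (prime_under_unique v (h.prime l' (Finset.mem_insert_of_mem hl')) hp h' hv ▸ hl')
      exact (h.ty l (Finset.mem_insert_self l D) v hv).mul_mem_sqv (h3 0)
        (mem_Z.1 (uz_mem_Z _ hZ)).1 (h3 1) (mem_Z.1 (uz_mem_Z _ hZ)).1 (h1 0) (h1 1)
    · have h3 : ∀ j, uz e (S.s j) x * tauU e K (rt e l) ∈ sqv e v := fun j =>
        (mem_Tv.1 ((mem_Z.1 (uz_mem_Z (S.s j) hZ)).2.2.1 l (Finset.mem_insert_self l D) v
          hv)).resolve_left (h1 j)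
      have h4 := mul_mem (h3 0) (h3 1)
      rw [mul_mul_mul_comm, ← sq] at h4
      exact (Subgroup.mul_mem_cancel_right _ (SQ_le_sqv (sq_mem_SQ _))).1 h4
  rintro t ⟨ht, ht'⟩
  have h1 : t ∈ St e K l := by
    by_contra hc
    rw [mem_St] at hn hc
    push Not at hn hc
    obtain ⟨x, hx, hx'⟩ := hex s hs.2 (Or.inl hs.1)
    obtain ⟨y, hy, hy'⟩ := hex t ht' (Or.inr ht)
    obtain ⟨g, w, h2, h3, h4⟩ := comb3 (G := K ≃ₐ[ℚ] K) {v : P K | val v (l : K) < 1}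
      {v | val v (l : K) < 1 ∧ s ∉ sqv e v} {v | val v (l : K) < 1 ∧ t ∉ sqv e v}
      (finite_over_prime ⟨l, hp⟩) ((ncard_over_prime_le ⟨l, hp⟩).trans S.finrank_eq.le) hΩ
      (fun x hx y hy => exists_smul_eq_of_prime hp hx hy) (fun _ h => h.1) (fun _ h => h.1)
      hn hc ⟨x, hx, fun h => h.2 hx'⟩ ⟨y, hy, fun h => h.2 hy'⟩
    refine h3.2 (key_lemma h hl (uz_mem_Z (g : K →+* K) hs.1) ht h3.1 (by rw [hsq]; exact h2.2)
      fun v hv hne => ?_)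
    rcases h4 v hv hne with h5 | h5
    · left
      rw [hsq]
      by_contra h6
      exact h5 ⟨hΩ _ _ hv, h6⟩
    · right
      by_contra h6
      exact h5 ⟨hv, h6⟩
  exact ⟨⟨mem_Z_of_St ht h1, ht'⟩, h1⟩

end Pool.Agent.Lib.MP_775b3b_nt
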