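import Pool.Agent.Lib.MP_775b3b_nt.YMain
import Pool.Agent.Lib.MP_775b3b_nt.YD1
import Pool.Agent.Lib.MP_775b3b_nt.YD2

/-! Groups of classes of points which are trivial. -/

namespace Pool.Agent.Lib.MP_775b3b_nt

open Cub MP_439fea_co WithZero

/-- the class of a point of the twist by `d` -/
def PtC {e : ℤ × ℤ} {k : Type} [Field k] (d : k) (t : (Cub e k)ˣ) : Prop :=
  t ∈ SQ e k ∨ ∃ x y : k, y ^ 2 = x ^ 3 + (e.1 : k) * d ^ 2 * x + (e.2 : k) * d ^ 3 ∧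
    ∃ δ : (Cub e k)ˣ, (δ : Cub e k) = algebraMap k (Cub e k) x - d • th ∧ t * δ ∈ SQ e k

variable {K L F : Type} [Field K] [NumberField K] [Field L] [NumberField L] [Field F]
  [NumberField F]

theorem PtC.mem_TG {e : ℤ × ℤ} {N d : ℕ} {D : Finset ℕ} (hU : Unr L N) (h : NiceB e D L)
    (hN : ∀ p : ℕ, p.Prime → p ∣ d → p ∣ N)
    (hd : ∀ w : P L, pr w = 2 ∨ pr w ∈ D → val w (d : L) = exp (-1 : ℤ)) {t : (Cub e L)ˣ}
    (ht : PtC (d : L) t) : t ∈ TG e N D d L := by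
  rcases ht with ht | ⟨x, y, hxy, δ, hδ, ht⟩
  · exact SQ_le_TG ht
  · exact (Subgroup.mul_mem_cancel_right _ (pt_mem_TG hU h hN hd hxy hδ)).1 (SQ_le_TG ht)

variable (K L F) in
/-- a group of classes of points, stable over `K`, whose rational elements are classes of points
over `L`, is trivial -/
def Kill [Algebra K F] [Algebra L F] (e : ℤ × ℤ) (d : ℕ) : Prop :=
  ∀ 𝒯 : Subgroup (Cub e F)ˣ, SQ e F ≤ 𝒯 → (∀ t ∈ 𝒯, PtC (d : F) t) →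
    (∀ g : F ≃ₐ[K] F, ∀ t ∈ 𝒯, uz e (g : F →+* F) t ∈ 𝒯) →
    (∀ c : (Cub e ℚ)ˣ, uz e (algebraMap ℚ F) c ∈ 𝒯 → ∃ δ : (Cub e L)ˣ, PtC (d : L) δ ∧
      uz e (algebraMap ℚ F) c * uz e (algebraMap L F) δ ∈ SQ e F) → 𝒯 ≤ SQ e F

theorem core4 [Algebra K F] [Algebra L F] (S : Setup K F) (h0 : S.s 0 = algebraMap K F)
    (σ : F →+* F) (hfix : ∀ x, σ x = x ↔ ∃ y, algebraMap L F y = x) {e : ℤ × ℤ} {N : ℕ}
    (h2N : 2 ∣ N) (hUK : Unr K N) (hUL : Unr L N) (hU : Unr F N)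
    (h2 : ∀ w : P F, val w (2 : F) < 1 → val w (2 : F) = exp (-1 : ℤ))
    (htow : ∀ N', N ∣ N' → ∀ 𝒯 : Subgroup (Cub e F)ˣ, SQ e F ≤ 𝒯 → 𝒯 ≤ Sel N' e F →
      (∀ g : F ≃ₐ[K] F, ∀ d ∈ 𝒯, uz e (g : F →+* F) d ∈ 𝒯) →
      (∀ d₀ ∈ Sel N' e K, uz e (algebraMap K F) d₀ ∈ 𝒯 → d₀ ∈ SQ e K) → 𝒯 ≤ SQ e F)
    (hA : 0 < e.1) (h4 : 4 ∣ e.1) (h4' : 4 ∣ e.2 - 2)
    (hauto : ∀ p : ℕ, p.Prime → p ∣ N → ∀ v : P K, val v (p : K) < 1 → Auto e v)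
    (hsq : ∀ p : ℕ, p.Prime → ¬ p ∣ N → ¬ (p : ℤ) ^ 2 ∣ disc e) {Q₁ Q₂ : Finset ℕ}
    (hdis : Disjoint Q₁ Q₂) (hQ : ∀ l ∈ Q₁ ∪ Q₂, l.Prime ∧ ¬ l ∣ N)
    {v₁ v₂ : ℕ → P K} (q1 : ∀ q ∈ Q₁, 5 ≤ q ∧ TP3 S L q (v₁ q) (v₂ q))
    (q2 : ∀ l ∈ Q₂, IP S l ∧ ∀ q ∈ Q₁, IsSquare (l : ZMod q))
    (b1 : ¬ ∃ d : (Cub e K)ˣ, Esc 1 ∅ d ∧ S.cor e d ∈ SQ e ℚ ∧
      ∀ l ∈ Q₁, (l : ℤ) ∣ disc e → d ∈ sqv e (v₁ l))
    (b2 : ¬ ∃ d : (Cub e ℚ)ˣ, Esc (∏ l ∈ Q₁, l) Q₂ d) :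
    ∃ D ⊆ Q₁ ∪ Q₂, Dom e F ∧ Kill K L F e (2 * ∏ l ∈ D, l) := by
  have nF : ∀ D₁ ⊆ Q₁, ∀ D₂ ⊆ Q₂, (∀ l ∈ D₁, (l : ℤ) ∣ disc e) → (∀ l ∈ D₂, Ty e l) →
      NiceB e (D₁ ∪ D₂) F := fun D₁ a1 D₂ a2 a3 a4 =>
    niceB_top S hU h2 hA h4 h4' hsq fun l hl =>
      ⟨(hQ l (Finset.union_subset_union a1 a2 hl)).2, (Finset.mem_union.1 hl).imp
        (fun h => ⟨(q1 l (a1 h)).1, a3 l h⟩) fun h => ⟨(q2 l (a2 h)).1, a4 l h⟩⟩
  have nU : ∀ D ⊆ Q₁, (∀ l ∈ D, (l : ℤ) ∣ disc e) → NiceG e (v₂ '' D) := fun D a1 a3 =>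
    ((nF D a1 ∅ (Finset.empty_subset _) a3 (by simp)).down (S.s 0)).niceG (by
      rintro _ ⟨q, hq, rfl⟩
      change pr (v₂ q) ∈ D ∪ ∅
      rw [(q1 q (a1 hq)).2.tp.pr2]
      exact Finset.mem_union_left _ hq)
  obtain ⟨D₁, hD₁, hT₁, hZ₁⟩ := exists_kill (fun D => ZG e (v₂ '' D) ⊓ S.TY e)
    (fun q => sqv e (v₂ q)) (SQ e K) (fun q => (q : ℤ) ∣ disc e) ∅ Q₁
    (Finset.disjoint_empty_left _)
    (fun s hs h0 => by
      by_contra hc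
      push Not at hc
      refine b1 ⟨s, (nU ∅ (Finset.empty_subset _) (by simp)).esc (by simp) hs.1 h0 (by simp),
        hs.2, fun l hl hd => ?_⟩
      have a1 := mul_mem ((q1 l hl).2.tp.tz e s (hc l hl hd))
        (inv_mem (SQ_le_sqv (uz_mem_SQ (algebraMap ℚ K) hs.2)))
      rwa [mul_inv_cancel_right] at a1)
    (fun D hD hT l hl hTl hn s hs hst => by
      rw [Finset.empty_union] at hn hs ⊢
      rw [Finset.coe_insert, Set.image_insert_eq]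
      have a1 := nU (insert l D) (Finset.insert_subset hl hD)
        (Finset.forall_mem_insert _ _ _ |>.2 ⟨hTl, hT⟩)
      rw [Finset.coe_insert, Set.image_insert_eq] at a1
      have a2 := step_G a1 (by
        rintro ⟨q, hq, h⟩
        have a3 := (q1 q (hD hq)).2.tp.pr2
        rw [h, (q1 l hl).2.tp.pr2] at a3
        exact hn (a3 ▸ hq)) hs.1 hst
      exact fun t ht => ⟨⟨(a2 ht.1).1, ht.2⟩, (a2 ht.1).2⟩)
  rw [Finset.empty_union] at hZ₁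
  have nQ : ∀ D ⊆ Q₂, (∀ l ∈ D, Ty e l) →
      NiceG e (Lam e D₁ (2 * ∏ l ∈ D₁, l) ℚ ∪ Pls D ℚ) := fun D a1 a2 =>
    ((nF D₁ hD₁ D a1 hT₁ a2).down (algebraMap ℚ F)).niceG (Set.union_subset
      (fun _ h => Finset.mem_union_left _ h.1) fun _ h => Finset.mem_union_right _ h)
  obtain ⟨D₂, hD₂, hT₂, hZ₂⟩ := exists_kill
    (fun D => ZG e (Lam e D₁ (2 * ∏ l ∈ D₁, l) ℚ ∪ Pls D ℚ)) (St e ℚ) (SQ e ℚ) (Ty e) ∅ Q₂
    (Finset.disjoint_empty_left _)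
    (fun s hs h0 => by
      by_contra hc
      push Not at hc
      refine b2 ⟨s, (nQ ∅ (Finset.empty_subset _) (by simp)).esc (fun v hv => ?_) hs h0 hc⟩
      rcases hv with hv | hv
      · exact Finset.dvd_prod_of_mem _ (hD₁ hv.1)
      · exact absurd hv (Finset.notMem_empty _))
    (fun D hD hT l hl hTl hn s hs hst => by
      rw [Finset.empty_union] at hn hs ⊢
      have hp := (q2 l hl).1.prime
      obtain ⟨w, hw⟩ := exists_over_prime ℚ hp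
      have hw' := pr_eq hp hw
      have a1 := nQ (insert l D) (Finset.insert_subset hl hD)
        (Finset.forall_mem_insert _ _ _ |>.2 ⟨hTl, hT⟩)
      rw [St_rat hw'] at hst ⊢
      rw [pls_insert_rat hw', Set.union_insert] at a1 ⊢
      refine step_G a1 ?_ hs hst
      rintro (h | h)
      · exact Finset.disjoint_left.1 hdis (hD₁ (hw' ▸ h.1)) hl
      · exact hn (hw' ▸ h))
  rw [Finset.empty_union] at hZ₂
  have hD : D₁ ∪ D₂ ⊆ Q₁ ∪ Q₂ := Finset.union_subset_union hD₁ hD₂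
  have hF := nF D₁ hD₁ D₂ hD₂ hT₁ hT₂
  have hp : ∀ l ∈ D₁ ∪ D₂, l.Prime ∧ l ≠ 2 := fun l hl =>
    ⟨(hQ l (hD hl)).1, fun h => (hQ l (hD hl)).2 (h ▸ h2N)⟩
  have hdis' : Disjoint D₁ D₂ := hdis.mono hD₁ hD₂
  have hlam : Lam e (D₁ ∪ D₂) (2 * ∏ l ∈ D₁ ∪ D₂, l) ℚ =
      Lam e D₁ (2 * ∏ l ∈ D₁, l) ℚ ∪ Pls D₂ ℚ := by
    rw [Finset.prod_union hdis', ← mul_assoc]
    refine lam_mul (fun v hv => ⟨(hF.down (algebraMap ℚ F)).ty v (Finset.mem_union_left _ hv),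
      (Finset.dvd_prod_of_mem _ hv).mul_left _⟩) (fun l hl => (hT₂ l hl).not_dvd) fun q hq => ⟨?_, ?_⟩
    · exact fun h => Finset.disjoint_left.1 hdis' hq (zpt_dvd_prod
        (fun l hl => (hp l (Finset.mem_union_right _ hl)).1) (hp q (Finset.mem_union_left _ hq)).1 h)
    · rw [Nat.cast_prod]
      exact Finset.isSquare_prod _ fun l hl => (q2 l (hD₂ hl)).2 q (hD₁ hq)
  have hv : ∀ (k : Type) [Field k] [NumberField k], Unr k N → NiceB e (D₁ ∪ D₂) k → ∀ w : P k,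
      pr w = 2 ∨ pr w ∈ D₁ ∪ D₂ →
      val w ((2 * ∏ l ∈ D₁ ∪ D₂, l : ℕ) : k) = exp (-1 : ℤ) := fun k _ _ hUk hk w hw => by
    refine val_two_prod hp hw ?_
    rcases hw with hw | hw
    · have a1 := val_pr w
      rw [hw] at a1 ⊢
      exact_mod_cast (hk.two w (by exact_mod_cast a1)).1
    · exact hUk w ⟨_, pr_prime w⟩ (hQ _ (hD hw)).2 (val_pr w)
  have hT : ∀ (k : Type) [Field k] [NumberField k], Unr k N → NiceB e (D₁ ∪ D₂) k →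
      ∀ t : (Cub e k)ˣ, PtC ((2 * ∏ l ∈ D₁ ∪ D₂, l : ℕ) : k) t →
      t ∈ TG e (N * ∏ l ∈ D₁ ∪ D₂, l) (D₁ ∪ D₂) (2 * ∏ l ∈ D₁ ∪ D₂, l) k :=
    fun k _ _ hUk hk t ht => ht.mem_TG (fun v p hp => hUk v p fun h0 => hp (h0.mul_right _)) hk
      (fun p _ a2 => a2.trans (Nat.mul_dvd_mul_right h2N _)) (hv k hUk hk)
  have hdom : Dom e F := by
    obtain ⟨w, hw⟩ := exists_over_prime F Nat.prime_two
    exact (hF.two w (by exact_mod_cast hw)).eis.dom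
  refine ⟨_, hD, hdom, fun 𝒯 t0 t1 t2 t3 => htow (N * ∏ l ∈ D₁ ∪ D₂, l) (dvd_mul_right _ _) 𝒯 t0
    (fun t ht => (mem_TG.1 (hT F hU hF t (t1 t ht))).1) t2 fun x x0 x1 => ?_⟩
  obtain ⟨c1, c2, c3⟩ := bottomD (algebraMap L F) hF (fun q hq => (q1 q (hD₁ hq)).2)
    (fun l hl => ⟨(q2 l (hD₂ hl)).1, (hT₂ l hl).not_dvd⟩) (fun w hw => hv F hU hF w (Or.inr hw))
    hZ₁ (hlam ▸ hZ₂) (mem_Sel.1 x0).1 (usv_of_Sel hUK (fun p a1 a2 => (a1.dvd_mul.1 a2).imp_right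
      (zpt_dvd_prod (fun l hl => (hp l hl).1) a1)) hauto hsq x0) fun j => by
      obtain ⟨g, hg⟩ := S.exists_aut0 j
      rw [← hg, ← uz_uz, h0]
      exact uz_mem_TG g (hT F hU hF _ (t1 _ x1))
  have c4 := t0 (uz_mem_SQ (algebraMap K F) c2)
  rw [map_mul, uz_uz, Subsingleton.elim ((algebraMap K F).comp (algebraMap ℚ K)) (algebraMap ℚ F),
    Subgroup.mul_mem_cancel_left _ x1] at c4
  obtain ⟨δ, d1, d2⟩ := t3 _ c4
  have d3 := hT L hUL (hF.down (algebraMap L F)) δ d1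
  have d4 := hdom.sq_desc σ hfix
    (mul_mem (uz_mem_nsq (algebraMap ℚ L) c1) (mem_Sel.1 (mem_TG.1 d3).1).1) (by
      rwa [map_mul, uz_uz,
        Subsingleton.elim ((algebraMap L F).comp (algebraMap ℚ L)) (algebraMap ℚ F)])
  exact (Subgroup.mul_mem_cancel_right _ (uz_mem_SQ _
    (c3 ((Subgroup.mul_mem_cancel_right _ d3).1 (SQ_le_TG d4))))).1 c2

open Classical in
theorem many4 [Algebra L F] [Algebra K F] (S : Setup K F) (h0 : S.s 0 = algebraMap K F) {j : ℕ}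
    (hL : Module.finrank K F = 2 ^ j) (hF : Module.finrank ℚ F = 3 * 2 ^ j)
    (hodd : Odd (NumberField.discr F)) {τ : F ≃ₐ[ℚ] F} (hc : S.Cmp τ (Equiv.swap 1 2))
    (hτ : τ * τ = 1) (hτL : ∀ x, τ x = x ↔ ∃ y, algebraMap L F y = x) {n₀ : ℕ}
    (hn : n₀ ≠ 0) : ∃ (m : ℕ) (c : ℝ) (T₀ : ℕ), 0 < c ∧
    ∀ T : ℕ, T₀ ≤ T → ∃ E ⊆ box T, c * (T : ℝ) ^ 5 ≤ E.card ∧ ∀ e ∈ E, ∃ d : ℕ, d ≤ m ∧
      Squarefree d ∧ (∀ p : ℕ, p.Prime → p ∣ d → p ∣ n₀ → p = 2) ∧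
      (Dom e F ∧ Kill K L F e d) ∧
      ∀ p : ℕ, p.Prime → ¬ (p : ℤ) ^ 2 ∣ e.2 ∨ ¬ (p : ℤ) ^ 2 ∣ disc e := by
  have := S.gal
  have := IsGalois.tower_top_of_isGalois ℚ K F
  have hτ1 : τ ≠ 1 := fun h => by
    have a1 : S.s 1 = S.s 2 := RingHom.ext fun x => by simpa [h] using hc 1 x
    exact absurd (S.s_inj a1) (by decide)
  obtain ⟨N₁, n1, h1⟩ := exists_unr K
  obtain ⟨N₂, n2, h2⟩ := exists_unr F
  obtain ⟨N₃, n3, h3⟩ := tower_exact K j F hL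
  obtain ⟨N₄, n4, h4⟩ := exists_unr L
  obtain ⟨N, hN⟩ : ∃ N, N = N₁ * N₂ * N₃ * N₄ * n₀ * Nat.factorial 64 := ⟨_, rfl⟩
  have n0 : N ≠ 0 := by
    rw [hN]
    positivity
  have hsm : ∀ p : ℕ, p.Prime → p ≤ 64 → p ∣ N := fun p hp h =>
    hN ▸ (hp.dvd_factorial.2 h).mul_left _
  have d1 : N₁ ∣ N := ⟨N₂ * N₃ * N₄ * n₀ * Nat.factorial 64, by rw [hN]; ring⟩
  have d2 : N₂ ∣ N := ⟨N₁ * N₃ * N₄ * n₀ * Nat.factorial 64, by rw [hN]; ring⟩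
  have d3 : N₃ ∣ N := ⟨N₁ * N₂ * N₄ * n₀ * Nat.factorial 64, by rw [hN]; ring⟩
  have d4 : N₄ ∣ N := ⟨N₁ * N₂ * N₃ * n₀ * Nat.factorial 64, by rw [hN]; ring⟩
  have d5 : n₀ ∣ N := ⟨N₁ * N₂ * N₃ * N₄ * Nat.factorial 64, by rw [hN]; ring⟩
  have h2N : 2 ∣ N := hsm 2 Nat.prime_two (by norm_num)
  have t2 := val_two_of_odd hodd
  have t2' : ∀ v : P K, val v (2 : K) < 1 → val v (2 : K) = exp (-1 : ℤ) := fun v hv => by
    simpa using unr_down (k := K) (k' := F) (l := 2) (by simpa using t2) v (by simpa using hv)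
  obtain ⟨a, b, hab⟩ := exists_class' K S.finrank_eq t2' n0 h2N
  obtain ⟨c, hc0, T₁, hT₁⟩ := card_fam n0 hsm a b
  obtain ⟨B₀, L₁, hm₁⟩ := countU3 S hc (ε := c / 4) (by positivity)
  obtain ⟨Q₁, w, c1, q1⟩ := exists_TP hτ1 hτ (max L₁ N) B₀
  have key : ∀ q : ℕ, ∃ v₁ v₂ : P K, q ∈ Q₁ → TP3 S L q v₁ v₂ ∧ Over (S.s 0) (w q) v₁ := fun q => by
    by_cases hq : q ∈ Q₁
    · obtain ⟨v₁, v₂, h⟩ := (q1 q hq).2.exists_tp3 S hc (algebraMap L F) fun x => (hτL _).2 ⟨x, rfl⟩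
      exact ⟨v₁, v₂, fun _ => h⟩
    · obtain ⟨v, -⟩ := exists_over_prime K Nat.prime_two
      exact ⟨v, v, fun h => absurd h hq⟩
  choose v₁ v₂ hv using key
  have nd1 : ∀ l ∈ Q₁, ¬ l ∣ N := fun l hl h => absurd (Nat.le_of_dvd (Nat.pos_of_ne_zero n0) h)
    (not_le.2 ((le_max_right _ _).trans_lt (q1 l hl).1))
  obtain ⟨T₂, hT₂⟩ := hm₁ Q₁ w v₁ c1 fun l hl =>
    ⟨(le_max_left _ _).trans_lt (q1 l hl).1, (q1 l hl).2, (hv l hl).2, (hv l hl).1.tp.res1⟩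
  have p1 : ∏ l ∈ Q₁, l ≠ 0 := Finset.prod_ne_zero_iff.2 fun l hl => (q1 l hl).2.prime.ne_zero
  obtain ⟨m₂, L₂, hm₂⟩ := countQ2 p1 (ε := c / 4) (by positivity)
  obtain ⟨Q₂, c2, q2⟩ := exists_primes (fun l => IP S l ∧ ∀ q ∈ Q₁, IsSquare (l : ZMod q))
    (exists_IP S hF Q₁ fun q hq => ⟨(q1 q hq).2.prime, fun h => nd1 q hq (h ▸ h2N)⟩) m₂
    (max (max L₂ N) (∏ l ∈ Q₁, l))
  obtain ⟨T₃, hT₃⟩ := hm₂ Q₂ c2 fun l hl =>
    ⟨(q2 l hl).2.1.prime, ((le_max_left _ _).trans (le_max_left _ _)).trans_lt (q2 l hl).1⟩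
  have hdis : Disjoint Q₁ Q₂ := Finset.disjoint_left.2 fun l a1 a2 =>
    absurd (Nat.le_of_dvd (Nat.pos_of_ne_zero p1) (Finset.dvd_prod_of_mem _ a1))
      (not_le.2 ((le_max_right _ _).trans_lt (q2 l a2).1))
  have hQ : ∀ l ∈ Q₁ ∪ Q₂, l.Prime ∧ ¬ l ∣ N := by
    intro l hl
    rcases Finset.mem_union.1 hl with hl | hl
    · exact ⟨(q1 l hl).2.prime, nd1 l hl⟩
    · exact ⟨(q2 l hl).2.1.prime, fun h => absurd (Nat.le_of_dvd (Nat.pos_of_ne_zero n0) h)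
        (not_le.2 (((le_max_right _ _).trans (le_max_left _ _)).trans_lt (q2 l hl).1))⟩
  refine ⟨2 * ∏ l ∈ Q₁ ∪ Q₂, l, c / 2, max T₁ (max T₂ T₃), by positivity, fun T hT => ?_⟩
  let B₁ := ((box T).filter (Fam N a b)).filter fun e => ∃ d : (Cub e K)ˣ, Esc 1 ∅ d ∧
    S.cor e d ∈ SQ e ℚ ∧ ∀ l ∈ Q₁, (l : ℤ) ∣ disc e → d ∈ sqv e (v₁ l)
  let B₂ := (box T).filter fun e => ∃ d : (Cub e ℚ)ˣ, Esc (∏ l ∈ Q₁, l) Q₂ d
  have e1 := hT₁ T ((le_max_left _ _).trans hT)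
  have e2 := hT₂ T (((le_max_left _ _).trans (le_max_right _ _)).trans hT) B₁
    ((Finset.filter_subset _ _).trans (Finset.filter_subset _ _)) fun e he =>
      ⟨fun l hl => (Finset.mem_filter.1 (Finset.mem_filter.1 he).1).2.2.2.2 l
        (q1 l hl).2.prime (nd1 l hl), (Finset.mem_filter.1 he).2⟩
  have e3 := hT₃ T (((le_max_right _ _).trans (le_max_right _ _)).trans hT) B₂
    (Finset.filter_subset _ _) fun e he => (Finset.mem_filter.1 he).2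
  refine ⟨(box T).filter (Fam N a b) \ (B₁ ∪ B₂),
    Finset.sdiff_subset.trans (Finset.filter_subset _ _), ?_, fun e he => ?_⟩
  · have e4 : (((box T).filter (Fam N a b)).card : ℝ) ≤
        ((box T).filter (Fam N a b) \ (B₁ ∪ B₂)).card + (B₁.card + B₂.card) := by
      exact_mod_cast Finset.card_le_card_sdiff_add_card.trans
        (Nat.add_le_add_left (Finset.card_union_le _ _) _)
    linarith
  · obtain ⟨a1, a2⟩ := Finset.mem_sdiff.1 he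
    obtain ⟨a3, a4, a5, a6, a7⟩ := Finset.mem_filter.1 a1
    obtain ⟨a8, a9, a10⟩ := hab e a5 a6
    obtain ⟨D, hD, hr⟩ := core4 S h0 (τ : F →+* F) hτL h2N (h1 N d1) (h4 N d4) (h2 N d2) t2
      (fun N' h => h3 N' (d3.trans h) e) a4 a8 a9 (fun p hp h => (a10 p hp h).2) a7 hdis hQ
      (fun q hq => ⟨(q1 q hq).2.five, (hv q hq).1⟩) (fun l hl => (q2 l hl).2)
      (fun h => a2 (Finset.mem_union_left _ (Finset.mem_filter.2 ⟨a1, h⟩)))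
      (fun h => a2 (Finset.mem_union_right _ (Finset.mem_filter.2 ⟨a3, h⟩)))
    have hs : Squarefree (2 * ∏ l ∈ D, l) := squarefree_two_mul fun l hl =>
      ⟨(hQ l (hD hl)).1, fun h => (hQ l (hD hl)).2 (h ▸ h2N)⟩
    refine ⟨_, Nat.mul_le_mul_left _ (Nat.le_of_dvd
      (Finset.prod_pos fun l hl => (hQ l hl).1.pos) (Finset.prod_dvd_prod_of_subset _ _ _ hD)), hs,
      fun p hp b1 b2 => ?_, hr, fun p hp => ?_⟩
    · rcases hp.dvd_mul.1 b1 with b3 | b3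
      · exact (Nat.prime_dvd_prime_iff_eq hp Nat.prime_two).1 b3
      · exact absurd (b2.trans d5) (hQ p (hD (zpt_dvd_prod (fun l hl => (hQ l (hD hl)).1) hp b3))).2
    · by_cases h : p ∣ N
      · exact Or.inl (a10 p hp h).1
      · exact Or.inr (a7 p hp h)

end Pool.Agent.Lib.MP_775b3b_nt
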