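import Pool.Agent.Lib.MP_775b3b_nt.YTP
import Pool.Agent.Lib.MP_775b3b_nt.Frame2

/-! The fields attached to a subgroup of index three and an involution. -/

namespace Pool.Agent.Lib.MP_775b3b_nt

open MP_439fea_co WithZero IntermediateField

variable {F : Type} [Field F] [NumberField F]

theorem mem_of_fix {H : Subgroup (F ≃ₐ[ℚ] F)} {g : F ≃ₐ[ℚ] F}
    (h : ∀ x ∈ fixedField H, g x = x) : g ∈ H :=
  fixingSubgroup_fixedField H ▸ (IntermediateField.mem_fixingSubgroup_iff _ _).2 h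

theorem exists_setup0 [IsGalois ℚ F] (H : Subgroup (F ≃ₐ[ℚ] F))
    (h3 : Module.finrank ℚ (fixedField H) = 3) {τ : F ≃ₐ[ℚ] F} (hτ : τ ∈ H)
    (hH : ∀ g, g * τ * g⁻¹ ∈ H → ∀ p ∈ H, g * p * g⁻¹ ∈ H) (hn : ¬ H.Normal) :
    ∃ S : Setup (fixedField H) F, S.s 0 = algebraMap _ F ∧ S.Cmp τ (Equiv.swap 1 2) := by
  obtain ⟨S₀⟩ := exists_setup (fixedField H) F h3
  obtain ⟨j, hj⟩ := S₀.bij.2 (S₀.i.comp (algebraMap _ F))
  let S : Setup (fixedField H) F :=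
    ⟨fun l => S₀.s (Equiv.swap 0 j l), S₀.i, S₀.bij.comp (Equiv.swap 0 j).bijective, S₀.gal⟩
  have h0 : S.s 0 = algebraMap _ F := RingHom.ext fun x => S₀.i.injective (by
    simpa [S] using DFunLike.congr_fun hj x)
  obtain ⟨π, hπ⟩ := S.exists_cmp τ
  have h1 : π 0 = 0 := S.s_inj (RingHom.ext fun x => by
    rw [← hπ, h0]
    exact x.2 ⟨τ, hτ⟩)
  have h2 : ∀ σ : Equiv.Perm (Fin 3), σ 0 = 0 → σ = 1 ∨ σ = Equiv.swap 1 2 := by decide
  refine ⟨S, h0, (h2 π h1).elim (fun h => absurd ⟨fun p hp g => hH g ?_ p hp⟩ hn) fun h => h ▸ hπ⟩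
  obtain ⟨σ, hσ⟩ := S.exists_cmp g⁻¹
  refine mem_of_fix fun x hx => ?_
  have h4 := hσ 0 ⟨x, hx⟩
  have h5 := hπ (σ 0) ⟨x, hx⟩
  rw [h, Equiv.Perm.one_apply, ← h4, h0] at h5
  change τ (g⁻¹ x) = g⁻¹ x at h5
  rw [AlgEquiv.mul_apply, AlgEquiv.mul_apply, h5, ← AlgEquiv.mul_apply, mul_inv_cancel,
    AlgEquiv.one_apply]

theorem exists_L [IsGalois ℚ F] (H : Subgroup (F ≃ₐ[ℚ] F)) {j : ℕ} (h2 : Nat.card H = 2 ^ j)
    {τ : F ≃ₐ[ℚ] F} (hτ : τ ∈ H) : ∃ (L : IntermediateField (fixedField H) F) (i : ℕ),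
      IsGalois (fixedField H) L ∧ Module.finrank (fixedField H) L = 2 ^ i ∧
      (∀ x ∈ L, τ x = x) ∧ ∀ x : F, (∀ p ∈ H, (p * τ * p⁻¹) x = x) → x ∈ L := by
  let t : F ≃ₐ[fixedField H] F := { τ with commutes' := fun x => x.2 ⟨τ, hτ⟩ }
  let L : IntermediateField (fixedField H) F := fixedField (Subgroup.normalClosure {t})
  have h1 : Module.finrank (fixedField H) L ∣ 2 ^ j := by
    rw [← h2, ← finrank_fixedField_eq_card, ← Module.finrank_mul_finrank (fixedField H) L F]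
    exact dvd_mul_right _ _
  obtain ⟨i, -, hi⟩ := (Nat.dvd_prime_pow Nat.prime_two).1 h1
  refine ⟨L, i, IsGalois.of_fixedField_normal_subgroup _, hi,
    fun x hx => hx ⟨t, Subgroup.subset_normalClosure rfl⟩, fun x hx g => ?_⟩
  refine (Subgroup.closure_le (MulAction.stabilizer (F ≃ₐ[fixedField H] F) x)).2
    (fun u hu => ?_) g.2
  obtain ⟨a, rfl, hc⟩ := Group.mem_conjugatesOfSet_iff.1 hu
  obtain ⟨c, rfl⟩ := isConj_iff.1 hc
  exact hx (c.restrictScalars ℚ) (mem_of_fix fun y hy => c.commutes ⟨y, hy⟩)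

theorem Setup.exists_beta {K : Type} [Field K] [NumberField K] (S : Setup K F)
    (hodd : Odd (NumberField.discr F)) : ∃ (δ : ℤ) (β : F), Squarefree δ.natAbs ∧ ¬ 2 ∣ δ ∧
      β ^ 2 = δ ∧ S.Alt β := by
  obtain ⟨ω, η, n, -, -, -, -, h⟩ := S.exists_dual
  let W : Matrix (Fin 3) (Fin 3) F := Matrix.of fun i j => S.s i (ω j)
  have h1 : W.det ≠ 0 := fun h0 => by
    have h2 : W.transpose * (Matrix.of fun i j => S.s i (η j)) = 1 := by
      ext j l
      simpa [W, Matrix.mul_apply, Matrix.one_apply] using h j l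
    have h3 := congrArg Matrix.det h2
    rw [Matrix.det_mul, Matrix.det_transpose, h0, zero_mul, Matrix.det_one] at h3
    exact zero_ne_one h3
  have h2 : S.Alt W.det := fun τ π hτ => by
    rw [← Matrix.det_permute, ← RingHom.coe_coe, RingHom.map_det]
    congr 1
    ext i j
    exact hτ i _
  obtain ⟨r, hr⟩ := S.exists_rat (x := W.det ^ 2) fun τ => by
    obtain ⟨π, hπ⟩ := S.exists_cmp τ
    rw [map_pow, h2 τ π hπ, mul_pow]
    rcases Int.units_eq_one_or (Equiv.Perm.sign π) with h | h <;> simp [h]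
  obtain ⟨a, b, h3, h4⟩ := Nat.sq_mul_squarefree (r.num * r.den).natAbs
  have hd : (r.den : F) ≠ 0 := Nat.cast_ne_zero.2 r.den_nz
  have h5 : ((r.num * r.den : ℤ) : F) = (r.den * W.det) ^ 2 := by
    rw [mul_pow, ← hr, eq_ratCast, Rat.cast_def]
    push_cast
    field_simp
  have hb : (b : F) ≠ 0 := by
    rintro h0
    rw [Nat.cast_eq_zero.1 h0, zero_pow two_ne_zero, zero_mul, eq_comm, Int.natAbs_eq_zero] at h3
    rw [h3, Int.cast_zero] at h5
    exact pow_ne_zero 2 (mul_ne_zero hd h1) h5.symm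
  obtain ⟨δ, h6, h7⟩ : ∃ δ : ℤ, δ.natAbs = a ∧ r.num * r.den = b ^ 2 * δ := by
    rcases Int.natAbs_eq (r.num * r.den) with h | h
    · exact ⟨a, rfl, by rw [h, ← h3]; push_cast; ring⟩
    · exact ⟨-a, by simp, by rw [h, ← h3]; push_cast; ring⟩
  have h8 : (r.den * W.det / b) ^ 2 = δ := by
    rw [div_pow, ← h5, h7]
    push_cast
    field_simp
  refine ⟨δ, _, h6 ▸ h4, ?_, h8, fun τ π hτ => by
    rw [map_div₀, map_mul, map_natCast, map_natCast, h2 τ π hτ]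
    ring⟩
  rintro ⟨m, rfl⟩
  have hm : ¬ ((2 : ℕ) : ℤ) ∣ m := by
    rintro ⟨k, rfl⟩
    refine absurd (h4 2 ⟨k.natAbs, ?_⟩) (by norm_num)
    rw [← h6, Int.natAbs_mul, Int.natAbs_mul, mul_assoc]
    rfl
  obtain ⟨w, hw⟩ := exists_over_prime F Nat.prime_two
  have h9 := congrArg (val w) h8
  rw [map_pow, Int.cast_mul, map_mul, ordp_val_one (p := ⟨2, Nat.prime_two⟩) w hw hm, mul_one,
    Int.cast_ofNat, val_two_of_odd hodd w (by exact_mod_cast hw),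
    val_eq_exp w (div_ne_zero (mul_ne_zero hd h1) hb), ← exp_nsmul, exp_inj, nsmul_eq_mul] at h9
  omega

end Pool.Agent.Lib.MP_775b3b_nt
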