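import Pool.Agent.Lib.MP_775b3b_nt.YMain
import Pool.Agent.Lib.MP_775b3b_nt.YRep1
import Pool.Agent.Lib.MP_775b3b_nt.YRep2

/-! Many curves have only finitely many eigenpoints. -/

namespace Pool.Agent.Lib.MP_775b3b_nt

open WeierstrassCurve WeierstrassCurve.Affine IntermediateField

variable {F : Type} [Field F] [NumberField F] [DecidableEq F]

/-- finitely many points on which the conjugates of `τ` under `H` act by `ε` -/
def EigFin (H : Subgroup (F ≃ₐ[ℚ] F)) (τ : F ≃ₐ[ℚ] F) (ε : ℤˣ) (e : ℤ × ℤ) : Prop :=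
  {R : ((crv e ℚ).toAffine⁄F).Point | ∀ γ ∈ {γ | ∃ p ∈ H, p * τ * p⁻¹ = γ},
    Point.map (γ : F →ₐ[ℚ] F) R = (ε : ℤ) • R}.Finite

theorem tw_one (e : ℤ × ℤ) : tw e 1 = e := by simp [tw]

theorem eigFin_of_rank {H : Subgroup (F ≃ₐ[ℚ] F)} {τ : F ≃ₐ[ℚ] F} {ε : ℤˣ} {e : ℤ × ℤ}
    (he : disc e ≠ 0) (h : Module.finrank ℤ (crv e F).toAffine.Point = 0) : EigFin H τ ε e := by
  have h1 := eigen_finite (RingHom.id F) he (δ := 1) (β := 1) (by simp) one_ne_zero ∅ 1 (by simp)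
    (fun x _ => ⟨x, rfl⟩) (finite_of_rank_zero he h)
  rw [tw_one] at h1
  exact h1.subset fun _ _ _ h => absurd h (Set.notMem_empty _)

theorem many_normal [IsGalois ℚ F] (H : Subgroup (F ≃ₐ[ℚ] F)) [H.Normal] {j : ℕ}
    (hj : Nat.card H = 2 ^ j) (h3 : H.index ∣ 3) (hodd : Odd (NumberField.discr F)) :
    ∃ (m : ℕ) (c : ℝ) (T₀ : ℕ), 0 < c ∧
      ∀ T : ℕ, T₀ ≤ T → ∃ E ⊆ box T, c * (T : ℝ) ^ 5 ≤ E.card ∧ ∀ e ∈ E, ∃ d : ℕ, 1 ≤ d ∧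
        d ≤ m ∧ Module.finrank ℤ (crv (tw e d) F).toAffine.Point = 0 ∧
        ∀ p : ℕ, p.Prime → ¬ ((p : ℤ) ^ 4 ∣ (tw e d).1 ∧ (p : ℤ) ^ 6 ∣ (tw e d).2) := by
  rcases (Nat.dvd_prime Nat.prime_three).1 h3 with h3 | h3
  · refine many_rank_zero_two (j := j) ?_ hodd
    rw [← IsGalois.card_aut_eq_finrank ℚ F, ← H.index_mul_card, h3, hj, one_mul]
  · have : IsGalois ℚ (fixedField H) := IsGalois.of_fixedField_normal_subgroup H
    have hF : Module.finrank (fixedField H) F = 2 ^ j := by rw [finrank_fixedField_eq_card, hj]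
    have hK : Module.finrank ℚ (fixedField H) = 3 := by
      have h1 := Module.finrank_mul_finrank ℚ (fixedField H) F
      rw [hF, ← IsGalois.card_aut_eq_finrank ℚ F, ← H.index_mul_card, h3, hj] at h1
      exact Nat.eq_of_mul_eq_mul_right (Nat.two_pow_pos j) h1
    exact many_rank_zero hK hF hodd

omit [DecidableEq F] in
theorem Setup.exists_eig {K : Type} [Field K] [NumberField K] (S : Setup K F)
    (hodd : Odd (NumberField.discr F)) {τ : F ≃ₐ[ℚ] F} (hc : S.Cmp τ (Equiv.swap 1 2)) (ε : ℤˣ) :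
    ∃ (δ : ℤ) (β : F), Squarefree δ.natAbs ∧ ¬ 2 ∣ δ ∧ β ^ 2 = δ ∧
      ∀ g : F ≃ₐ[ℚ] F, (g * τ * g⁻¹) β = ((ε : ℤ) : F) * β := by
  rcases Int.units_eq_one_or ε with rfl | rfl
  · exact ⟨1, 1, by simp, by decide, by simp, by simp⟩
  obtain ⟨δ, β, h1, h2, h3, h4⟩ := S.exists_beta hodd
  refine ⟨δ, β, h1, h2, h3, fun g => ?_⟩
  obtain ⟨π, hπ⟩ := S.exists_cmp g⁻¹
  rw [AlgEquiv.mul_apply, AlgEquiv.mul_apply, h4 _ _ hπ, map_mul, map_intCast, h4 _ _ hc,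
    mul_left_comm, ← h4 _ _ hπ, map_mul, map_intCast, ← AlgEquiv.mul_apply, mul_inv_cancel,
    AlgEquiv.one_apply, Equiv.Perm.sign_swap (by decide)]

theorem many_eigen [IsGalois ℚ F] (hodd : Odd (NumberField.discr F)) (H : Subgroup (F ≃ₐ[ℚ] F))
    (h2 : IsPGroup 2 H) (h3 : H.index ∣ 3) {τ : F ≃ₐ[ℚ] F} (hτ : τ ∈ H) (hτ2 : τ * τ = 1)
    (hH : ∀ g, g * τ * g⁻¹ ∈ H → ∀ p ∈ H, g * p * g⁻¹ ∈ H) (ε : ℤˣ) :
    ∃ (m : ℕ) (c : ℝ) (T₀ : ℕ), 0 < c ∧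
      ∀ T : ℕ, T₀ ≤ T → ∃ E ⊆ box T, c * (T : ℝ) ^ 5 ≤ E.card ∧ ∀ e ∈ E, ∃ d : ℕ, 1 ≤ d ∧
        d ≤ m ∧ EigFin H τ ε (tw e d) ∧
        ∀ p : ℕ, p.Prime → ¬ ((p : ℤ) ^ 4 ∣ (tw e d).1 ∧ (p : ℤ) ^ 6 ∣ (tw e d).2) := by
  classical
  have : Fact (Nat.Prime 2) := ⟨Nat.prime_two⟩
  obtain ⟨j, hj⟩ := IsPGroup.iff_card.1 h2
  by_cases hn : H.Normal
  · obtain ⟨m, c, T₀, hc, h⟩ := many_normal H hj h3 hodd
    refine ⟨m, c, T₀, hc, fun T hT => ?_⟩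
    obtain ⟨E, a1, a2, a3⟩ := h T hT
    refine ⟨E, a1, a2, fun e he => ?_⟩
    obtain ⟨d, b1, b2, b3, b4⟩ := a3 e he
    refine ⟨d, b1, b2, eigFin_of_rank ?_ b3, b4⟩
    rw [disc_tw]
    exact mul_ne_zero (pow_ne_zero _ (Int.natCast_ne_zero.2 (by omega))) (mem_box.1 (a1 he)).2.2
  replace h3 : H.index = 3 := ((Nat.dvd_prime Nat.prime_three).1 h3).resolve_left fun h =>
    hn (Subgroup.index_eq_one.1 h ▸ inferInstance)
  have hF : Module.finrank ℚ F = 3 * 2 ^ j := by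
    rw [← IsGalois.card_aut_eq_finrank ℚ F, ← H.index_mul_card, h3, hj]
  have hK : Module.finrank ℚ (fixedField H) = 3 := by
    have h1 := Module.finrank_mul_finrank ℚ (fixedField H) F
    rw [finrank_fixedField_eq_card, hj, hF] at h1
    exact Nat.eq_of_mul_eq_mul_right (Nat.two_pow_pos j) h1
  obtain ⟨S, h0, hc⟩ := exists_setup0 H hK hτ hH hn
  obtain ⟨L, i, hG, hL, l1, l2⟩ := exists_L H hj hτ
  obtain ⟨δ, β, d1, d2, d3, d4⟩ := S.exists_eig hodd hc ε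
  have d5 : δ ≠ 0 := Int.natAbs_ne_zero.1 d1.ne_zero
  have d6 : β ≠ 0 := fun h => d5 (by
    rw [h, zero_pow two_ne_zero] at d3
    exact_mod_cast d3.symm)
  have : NumberField L := NumberField.of_module_finite (fixedField H) L
  obtain ⟨m, c, T₀, hc0, h⟩ := many3 (L := L) S h0 hL hF hodd hc hτ2 (fun x => l1 x x.2) d1.ne_zero
  refine ⟨m * δ.natAbs, c, T₀, hc0, fun T hT => ?_⟩
  obtain ⟨E, a1, a2, a3⟩ := h T hT
  have s1 : δ.sign ^ 2 = 1 := by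
    rw [sq, ← Int.sign_mul, Int.sign_eq_one_of_pos (mul_self_pos.2 d5)]
  have s2 : IsUnit δ.sign := IsUnit.of_pow_eq_one s1 two_ne_zero
  have s3 : ∀ e : ℤ × ℤ, disc (e.1, δ.sign * e.2) = disc e := fun e => by
    simp only [disc, mul_pow, s1, one_mul]
  refine ⟨E.image fun e => (e.1, δ.sign * e.2), fun e' he' => ?_, ?_, fun e' he' => ?_⟩
  · obtain ⟨e, he, rfl⟩ := Finset.mem_image.1 he'
    obtain ⟨b1, b2, b3⟩ := mem_box.1 (a1 he)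
    refine mem_box.2 ⟨b1, ?_, s3 e ▸ b3⟩
    rwa [abs_mul, Int.abs_sign_of_ne_zero d5, one_mul]
  · rwa [Finset.card_image_of_injective _ fun e e' hh => Prod.ext (Prod.mk.inj hh).1
      (s2.mul_left_cancel (Prod.mk.inj hh).2)]
  obtain ⟨e, he, rfl⟩ := Finset.mem_image.1 he'
  obtain ⟨d, b1, b2, b3, b4, b5⟩ := a3 e he
  have b6 : Squarefree (d * δ.natAbs) := Nat.squarefree_mul_iff.2 ⟨Nat.coprime_of_dvd
    fun p hp c1 c2 => d2 (Int.natCast_dvd.2 (b3 p hp c1 c2 ▸ c2 : 2 ∣ δ.natAbs)), b2, d1⟩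
  have b7 : disc (tw e d) ≠ 0 := by
    rw [disc_tw]
    exact mul_ne_zero (pow_ne_zero _ (Int.natCast_ne_zero.2 b2.ne_zero)) (mem_box.1 (a1 he)).2.2
  refine ⟨d * δ.natAbs, Nat.pos_of_ne_zero b6.ne_zero, Nat.mul_le_mul_right _ b1, ?_,
    tw_minimal b6 fun p hp => ?_⟩
  · have b8 : tw (e.1, δ.sign * e.2) ((d * δ.natAbs : ℕ) : ℤ) = tw (tw e d) δ := by
      have b9 := Int.sign_mul_natAbs δ
      simp only [tw, Nat.cast_mul]
      generalize (δ.natAbs : ℤ) = n at b9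
      generalize δ.sign = s at b9 s1
      subst b9
      refine Prod.ext ?_ ?_
      · linear_combination (-e.1 * d ^ 2 * n ^ 2) * s1
      · linear_combination (-s * e.2 * d ^ 3 * n ^ 3) * s1
    rw [b8]
    exact eigen_finite (algebraMap L F) b7 d3 d6 _ ε (by rintro _ ⟨p, -, rfl⟩; exact d4 p)
      (fun x hx => ⟨⟨x, l2 x fun p hp => hx _ ⟨p, hp, rfl⟩⟩, rfl⟩) (finite_of_rank_zero b7 b4)
  · rw [s3, s2.dvd_mul_left]
    exact b5 p hp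

end Pool.Agent.Lib.MP_775b3b_nt
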