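import Pool.Agent.Lib.MP_775b3b_nt.YD4
import Pool.Agent.Lib.MP_775b3b_nt.YRep3

/-! Many curves have the torsion property. -/

namespace Pool.Agent.Lib.MP_775b3b_nt

open WeierstrassCurve WeierstrassCurve.Affine IntermediateField

variable {F : Type} [Field F] [NumberField F] [DecidableEq F]

theorem ann_of_rank {H : Subgroup (F ≃ₐ[ℚ] F)} {τ : F ≃ₐ[ℚ] F} {ε : ℤ} {e : ℤ × ℤ}
    (he : disc e ≠ 0) (h : Module.finrank ℤ (crv e F).toAffine.Point = 0) :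
    Ann (act e) H τ ε := by
  have : Finite ((crv e ℚ).toAffine⁄F).Point := crv_base (F := F) ▸ finite_of_rank_zero he h
  exact fun _ _ => ⟨Nat.card ((crv e ℚ).toAffine⁄F).Point, Int.natCast_ne_zero.2 Nat.card_pos.ne',
    fun R _ => by rw [natCast_zsmul, card_nsmul_eq_zero']⟩

theorem many_ann [IsGalois ℚ F] (hodd : Odd (NumberField.discr F)) (H : Subgroup (F ≃ₐ[ℚ] F))
    (h2 : IsPGroup 2 H) (h3 : H.index ∣ 3) {τ : F ≃ₐ[ℚ] F} (hτ : τ ∈ H) (hτ2 : τ * τ = 1)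
    (hH : ∀ g, g * τ * g⁻¹ ∈ H → ∀ p ∈ H, g * p * g⁻¹ ∈ H) (ε : ℤˣ) :
    ∃ (m : ℕ) (c : ℝ) (T₀ : ℕ), 0 < c ∧
      ∀ T : ℕ, T₀ ≤ T → ∃ E ⊆ box T, c * (T : ℝ) ^ 5 ≤ E.card ∧ ∀ e ∈ E, ∃ d : ℕ, 1 ≤ d ∧
        d ≤ m ∧ Ann (act (tw e d)) H τ ε ∧
        ∀ p : ℕ, p.Prime → ¬ ((p : ℤ) ^ 4 ∣ (tw e d).1 ∧ (p : ℤ) ^ 6 ∣ (tw e d).2) := by
  classical
  have : Fact (Nat.Prime 2) := ⟨Nat.prime_two⟩
  obtain ⟨j, hj⟩ := IsPGroup.iff_card.1 h2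
  by_cases hn : H.Normal
  · obtain ⟨m, c, T₀, hc, h⟩ := many_normal H hj h3 hodd
    refine ⟨m, c, T₀, hc, fun T hT => ?_⟩
    obtain ⟨E, a1, a2, a3⟩ := h T hT
    refine ⟨E, a1, a2, fun e he => ?_⟩
    obtain ⟨d, b1, b2, b3, b4⟩ := a3 e he
    refine ⟨d, b1, b2, ann_of_rank ?_ b3, b4⟩
    rw [disc_tw]
    exact mul_ne_zero (pow_ne_zero _ (Int.natCast_ne_zero.2 (by omega))) (mem_box.1 (a1 he)).2.2
  replace h3 : H.index = 3 := ((Nat.dvd_prime Nat.prime_three).1 h3).resolve_left fun h =>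
    hn (Subgroup.index_eq_one.1 h ▸ inferInstance)
  have hF : Module.finrank ℚ F = 3 * 2 ^ j := by
    rw [← IsGalois.card_aut_eq_finrank ℚ F, ← H.index_mul_card, h3, hj]
  have hK : Module.finrank ℚ (fixedField H) = 3 := by
    have h1 := Module.finrank_mul_finrank ℚ (fixedField H) F
    rw [finrank_fixedField_eq_card, hj, hF] at h1
    exact Nat.eq_of_mul_eq_mul_right (Nat.two_pow_pos j) h1
  obtain ⟨S, h0, hc⟩ := exists_setup0 H hK hτ hH hn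
  have l1 : ∀ x, τ x = x ↔ ∃ y, algebraMap (fixedField (Subgroup.zpowers τ)) F y = x := fun x =>
    ⟨fun h => ⟨⟨x, fun g => (Subgroup.zpowers_le (g := τ)
      (H := MulAction.stabilizer _ x)).2 h g.2⟩, rfl⟩,
      fun ⟨y, hy⟩ => hy ▸ y.2 ⟨τ, Subgroup.mem_zpowers τ⟩⟩
  obtain ⟨δ, β, d1, d2, d3, d4⟩ := S.exists_eig hodd hc ε
  have d5 : δ ≠ 0 := Int.natAbs_ne_zero.1 d1.ne_zero
  have d6 : β ≠ 0 := fun h => d5 (by
    rw [h, zero_pow two_ne_zero] at d3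
    exact_mod_cast d3.symm)
  obtain ⟨m, c, T₀, hc0, h⟩ := many4 S h0 (by rw [finrank_fixedField_eq_card, hj]) hF hodd hc hτ2 l1
    d1.ne_zero
  refine ⟨m * δ.natAbs, c, T₀, hc0, fun T hT => ?_⟩
  obtain ⟨E, a1, a2, a3⟩ := h T hT
  have s1 : δ.sign ^ 2 = 1 := by
    rw [sq, ← Int.sign_mul, Int.sign_eq_one_of_pos (mul_self_pos.2 d5)]
  have s2 : IsUnit δ.sign := IsUnit.of_pow_eq_one s1 two_ne_zero
  have s3 : ∀ e : ℤ × ℤ, disc (e.1, δ.sign * e.2) = disc e := fun e => by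
    simp only [disc, mul_pow, s1, one_mul]
  refine ⟨E.image fun e => (e.1, δ.sign * e.2), fun e' he' => ?_, ?_, fun e' he' => ?_⟩
  · obtain ⟨e, he, rfl⟩ := Finset.mem_image.1 he'
    obtain ⟨b1, b2, b3⟩ := mem_box.1 (a1 he)
    refine mem_box.2 ⟨b1, ?_, s3 e ▸ b3⟩
    rwa [abs_mul, Int.abs_sign_of_ne_zero d5, one_mul]
  · rwa [Finset.card_image_of_injective _ fun e e' hh => Prod.ext (Prod.mk.inj hh).1
      (s2.mul_left_cancel (Prod.mk.inj hh).2)]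
  obtain ⟨e, he, rfl⟩ := Finset.mem_image.1 he'
  obtain ⟨d, b1, b2, b3, b4, b5⟩ := a3 e he
  have b6 : Squarefree (d * δ.natAbs) := Nat.squarefree_mul_iff.2 ⟨Nat.coprime_of_dvd
    fun p hp c1 c2 => d2 (Int.natCast_dvd.2 (b3 p hp c1 c2 ▸ c2 : 2 ∣ δ.natAbs)), b2, d1⟩
  refine ⟨d * δ.natAbs, Nat.pos_of_ne_zero b6.ne_zero, Nat.mul_le_mul_right _ b1, ?_,
    tw_minimal b6 fun p hp => ?_⟩
  · have b8 : tw (e.1, δ.sign * e.2) ((d * δ.natAbs : ℕ) : ℤ) = tw e (d * δ) := by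
      have b9 := Int.sign_mul_natAbs δ
      simp only [tw, Nat.cast_mul]
      generalize (δ.natAbs : ℤ) = n at b9
      generalize δ.sign = s at b9 s1
      subst b9
      refine Prod.ext ?_ ?_
      · linear_combination (-e.1 * d ^ 2 * n ^ 2) * s1
      · linear_combination (-s * e.2 * d ^ 3 * n ^ 3) * s1
    rw [b8]
    exact ann_of_kill (mem_box.1 (a1 he)).2.2 b4.1 b2.ne_zero b4.2 d3 d6
      (fun g => mem_of_fix fun y hy => g.commutes ⟨y, hy⟩) (by simpa using d4 1)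
      fun x hx => (l1 x).1 hx
  · rw [s3, s2.dvd_mul_left]
    exact b5 p hp

end Pool.Agent.Lib.MP_775b3b_nt
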