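import Pool.Agent.Lib.MP_775b3b_nt.ZDefs
import Pool.Agent.Lib.MP_775b3b_nt.RedLat

/-! Lattices with a defect: copies of the statements of `RedLat`. -/

namespace Pool.Agent.Lib.MP_775b3b_nt

open Cub

variable {e : ℤ × ℤ} {k : Type*} [Field k] {n : ℕ} {d : (Cub e k)ˣ}
  {z : Nat.Primes → (Cub e k)ˣ} {x y : Cub e k}

theorem LocD.isIntegral_Bf (h : LocD n d z) (hx : InLat z x) (hy : InLat z y) :
    IsIntegral ℤ (Bf (d : Cub e k) x y) := by
  refine isIntegral_of_forall_intP fun p => ?_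
  have h1 := (mul_mem (mul_mem (h.2 p).1 (hx p)) (hy p)).2.2
  have h2 : ((d * z p ^ 2 : (Cub e k)ˣ) : Cub e k) * ((((z p)⁻¹ : (Cub e k)ˣ) : Cub e k) * x) *
      ((((z p)⁻¹ : (Cub e k)ˣ) : Cub e k) * y) = d * x * y := by
    rw [Units.val_mul, Units.val_pow_eq_pow_val]
    linear_combination ((d : Cub e k) * x * y *
      ((z p : Cub e k) * (((z p)⁻¹ : (Cub e k)ˣ) : Cub e k) + 1)) * (z p).mul_inv
  rwa [h2] at h1

theorem LocD.isIntegral_Gv (h : LocD n d z) (hx : InLat z x) (hy : InLat z y) :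
    IsIntegral ℤ (Gv (d : Cub e k) x y) := by
  rw [Gv_eq_Bf']
  refine h.isIntegral_Bf (fun p => ?_) hy
  rw [mul_left_comm]
  exact mul_mem th_mem_Ord (hx p)

theorem zredD1_key (h : LocD n d z) (p : Nat.Primes)
    (hx : (d : Cub e k) * x * z p ∈ Ord p e k) :
    (((z p)⁻¹ : (Cub e k)ˣ) : Cub e k) * ((n : k) • x) ∈ Ord p e k := by
  have h1 : (((z p)⁻¹ : (Cub e k)ˣ) : Cub e k) * x =
      (((d * z p ^ 2)⁻¹ : (Cub e k)ˣ) : Cub e k) * ((d : Cub e k) * x * z p) := by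
    rw [Units.eq_inv_mul_iff_mul_eq, Units.val_mul, Units.val_pow_eq_pow_val]
    linear_combination ((d : Cub e k) * x * z p) * (z p).mul_inv
  rw [mul_smul_comm, h1, ← smul_mul_assoc]
  exact mul_mem (h.2 p).2 hx

variable [NumberField k]

theorem LocD.exists_mul (h : LocD n d z) (x : Cub e k) :
    ∃ m : ℕ, m ≠ 0 ∧ InLat z ((m : k) • x) := by
  choose m hm h1 using fun u : (Cub e k)ˣ => redlat_clear (((u⁻¹ : (Cub e k)ˣ) : Cub e k) * x)
  refine ⟨∏ u ∈ h.1.toFinset, m u, Finset.prod_ne_zero_iff.2 fun u _ => hm u, fun p => ?_⟩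
  obtain ⟨q, hq⟩ := Finset.dvd_prod_of_mem m (h.1.mem_toFinset.2 ⟨p, rfl⟩)
  rw [hq, mul_smul_comm, Nat.cast_mul, mul_comm (m (z p) : k), mul_smul]
  exact smul_mem_Ord (natCast_mem _ q) (h1 _ p)

theorem LocD.exists_mul_local (h : LocD n d z) (p : Nat.Primes)
    (hx : (((z p)⁻¹ : (Cub e k)ˣ) : Cub e k) * x ∈ Ord p e k) :
    ∃ m : ℕ, ¬ (p : ℕ) ∣ m ∧ InLat z ((m : k) • x) := by
  obtain ⟨m, hm, h1⟩ := h.exists_mul x
  obtain ⟨a, n, hn, rfl⟩ := Nat.exists_eq_pow_mul_and_not_dvd hm p p.2.ne_one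
  refine ⟨n, hn, fun q => ?_⟩
  rw [mul_smul_comm]
  by_cases hq : q = p
  · rw [hq]
    exact smul_mem_Ord (natCast_mem _ n) hx
  · have h2 : ¬ (q : ℕ) ∣ (p : ℕ) ^ a := fun h3 =>
      hq (Subtype.ext ((Nat.prime_dvd_prime_iff_eq q.2 p.2).1 (q.2.dvd_of_dvd_pow h3)))
    have h3 := smul_mem_Ord (inv_natCast_mem_intP h2) (h1 q)
    rwa [mul_smul_comm, smul_smul, map_inv₀, map_natCast, Nat.cast_mul, inv_mul_cancel_left₀
      (Nat.cast_ne_zero.2 (pow_ne_zero _ p.2.ne_zero))] at h3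

/-- `(z p)⁻¹ (n • x) = (n • (d z p^2)⁻¹) (d x z p)` -/
theorem LocD.dual (h : LocD n d z)
    (hx : ∀ y, InLat z y → IsIntegral ℤ (Bf (d : Cub e k) x y)) : InLat z ((n : k) • x) := by
  intro p
  have h1 : ∀ r ∈ Ord p e k, ((d : Cub e k) * x * z p * r).c2 ∈ intP p k := fun r hr => by
    obtain ⟨n, hn, h2⟩ := h.exists_mul_local (x := (z p : Cub e k) * r) p (by
      rwa [Units.inv_mul_cancel_left])
    have h3 := hx _ h2
    rw [Bf_smul_right, Bf, ← mul_assoc] at h3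
    exact ⟨n, hn, h3⟩
  have h2 := h1 1 (one_mem _)
  rw [mul_one] at h2
  have h3 : (d : Cub e k) * x * z p ∈ Ord p e k := by
    refine ⟨?_, ?_, h2⟩
    · rw [c0_eq]
      exact add_mem (h1 _ (mul_mem th_mem_Ord th_mem_Ord)) (mul_mem (intCast_mem _ _) h2)
    · rw [c1_eq]
      exact h1 _ th_mem_Ord
  exact zredD1_key h p h3

theorem LocD.cross (h : LocD n d z) {ν : k} (hν : nm (d : Cub e k) = ν ^ 2) (hx : InLat z x)
    (hy : InLat z y) {w : Cub e k} (hw : (d : Cub e k) * w = ν • cross x y) :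
    InLat z ((n : k) • w) := by
  intro p
  have h1 := mul_cross_mul (z p : Cub e k) ((((z p)⁻¹ : (Cub e k)ˣ) : Cub e k) * x)
    ((((z p)⁻¹ : (Cub e k)ˣ) : Cub e k) * y)
  rw [Units.mul_inv_cancel_left, Units.mul_inv_cancel_left] at h1
  have h2 : ν * nm (z p : Cub e k) ∈ intP p k := mem_intP_of_sq (by
    have h3 := nm_mem_intP (h.2 p).1
    rwa [Units.val_mul, Units.val_pow_eq_pow_val, nm_mul, nm_pow, hν, ← mul_pow] at h3)
  have h3 := smul_mem_Ord h2 (cross_mem_Ord (hx p) (hy p))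
  rw [mul_smul, ← h1, ← mul_smul_comm, ← hw] at h3
  refine zredD1_key h p ?_
  rwa [mul_comm] at h3

theorem LocD.exists_ideal (h : LocD n d z) (hx : InLat z x) (hx0 : x ≠ 0) :
    ∃ b : Ideal (NumberField.RingOfIntegers k), b ≠ ⊥ ∧
      ∀ t : k, (∃ r ∈ b, (r : k) = t) ↔ ∃ y, InLat z y ∧ Bf (d : Cub e k) x y = t := by
  let b : Ideal (NumberField.RingOfIntegers k) :=
    { carrier := {r | ∃ y, InLat z y ∧ Bf (d : Cub e k) x y = r}
      add_mem' := by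
        rintro r s ⟨y, hy, h1⟩ ⟨y', hy', h2⟩
        exact ⟨y + y', hy.add hy', by rw [Bf_add_right, h1, h2]; rfl⟩
      zero_mem' := ⟨0, fun p => by rw [mul_zero]; exact zero_mem _, by simp [Bf]⟩
      smul_mem' := by
        rintro c r ⟨y, hy, h1⟩
        exact ⟨(c : k) • y, hy.smul c.isIntegral_coe, by rw [Bf_smul_right, h1]; rfl⟩ }
  have hb : ∀ t : k, (∃ r ∈ b, (r : k) = t) ↔ ∃ y, InLat z y ∧ Bf (d : Cub e k) x y = t :=
    fun t => ⟨by
      rintro ⟨r, hr, rfl⟩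
      exact hr, by
      rintro ⟨y, hy, rfl⟩
      exact ⟨⟨_, h.isIntegral_Bf hx hy⟩, ⟨y, hy, rfl⟩, rfl⟩⟩
  refine ⟨b, fun h0 => hx0 ((Units.mul_right_eq_zero d).1 (eq_zero_of_c2 fun y => ?_)), hb⟩
  obtain ⟨m, hm, h1⟩ := h.exists_mul y
  obtain ⟨r, hr, h2⟩ := (hb _).2 ⟨_, h1, rfl⟩
  rw [h0, Ideal.mem_bot] at hr
  rw [hr, Bf_smul_right] at h2
  exact (mul_eq_zero.1 h2.symm).resolve_left (Nat.cast_ne_zero.2 hm)

theorem LocD.complete (h : LocD n d z) {ν : k} (hν : nm (d : Cub e k) = ν ^ 2) {v0 w : Cub e k}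
    (h0 : InLat z v0) (hw : InLat z w) (hiso : Bf (d : Cub e k) v0 v0 = 0) {m : ℕ} (hm : m ≠ 0)
    (hB : Bf (d : Cub e k) v0 w = m) : ∃ v1 v2, Hyp (d : Cub e k) ν v0 v1 v2 ∧
      InLat z (((2 * m ^ 2 * n : ℕ) : k) • v1) ∧ InLat z (((2 * m ^ 2 * n : ℕ) : k) • v2) := by
  have n0 : (m : k) ≠ 0 := Nat.cast_ne_zero.2 hm
  set v2 := (m : k)⁻¹ • w - (Bf (d : Cub e k) w w / (2 * m ^ 2)) • v0 with hv
  obtain ⟨v1, h1⟩ := exists_cross hν (redlat_nu hν) v2 v0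
  have h2 : InLat z (((2 * m ^ 2 : ℕ) : k) • v2) := by
    convert (hw.smul (redlat_nat (2 * m))).sub (h0.smul (h.isIntegral_Bf hw hw)) using 1
    rw [hv, smul_sub, smul_smul, smul_smul]
    congr 2 <;> push_cast <;> field_simp
  have h3 : ∀ u : Cub e k, ((2 * m ^ 2 * n : ℕ) : k) • u = (n : k) • ((2 * m ^ 2 : ℕ) : k) • u := by
    intro u
    rw [smul_smul, Nat.cast_mul _ n, mul_comm]
  refine ⟨v1, v2, ⟨hν, redlat_nu hν, hiso, ?_, ?_, h1⟩, ?_, ?_⟩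
  · simp only [hv, Bf_sub_left, Bf_sub_right, Bf_smul_left, Bf_smul_right, hiso, hB,
      Bf_comm (d : Cub e k) w v0]
    field_simp
    ring
  · rw [hv, Bf_sub_right, Bf_smul_right, Bf_smul_right, hiso, hB, mul_zero, sub_zero,
      inv_mul_cancel₀ n0]
  · rw [h3]
    refine h.cross hν h2 h0 ?_
    rw [mul_smul_comm, h1, cross_smul_left, smul_comm]
  · rw [h3]
    exact h2.smul (redlat_nat n)

end Pool.Agent.Lib.MP_775b3b_nt
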