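import Mathlib

/-! Minkowski for fractional ideals. -/

namespace Pool.Agent.Lib.MP_775b3b_nt

open NumberField

variable (k : Type*) [Field k] [NumberField k]

/-- `mixedEmbedding.exists_ne_zero_mem_ideal_lt` for the fractional ideal `b⁻¹` (a unit of
`FractionalIdeal (𝓞 k)⁰ k`) and `f w = c w.embedding`; `convexBodyLT_volume`,
`volume_fundamentalDomain_fractionalIdealLatticeBasis`, `FractionalIdeal.absNorm`, and
`∏ σ, c σ = ∏ w, f w ^ w.mult` (as in `InfinitePlace.prod_eq_abs_norm`: `Finset.prod_fiberwise`,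
`InfinitePlace.card_filter_mk_eq`, `mk_eq_iff`). -/
theorem exists_mink : ∃ C : ℝ, 1 ≤ C ∧ ∀ b : Ideal (𝓞 k), b ≠ ⊥ → ∀ c : (k →+* ℂ) → ℝ,
    (∀ σ, 0 < c σ) → (∀ σ, c (ComplexEmbedding.conjugate σ) = c σ) →
    C ≤ (Ideal.absNorm b : ℝ) * ∏ σ, c σ →
      ∃ a : k, a ≠ 0 ∧ (∀ x ∈ b, IsIntegral ℤ (a * (x : k))) ∧ ∀ σ : k →+* ℂ, ‖σ a‖ ≤ c σ := by
  classical
  obtain ⟨B, hB⟩ : ∃ B : NNReal, mixedEmbedding.minkowskiBound k 1 = B :=
    ⟨_, (ENNReal.coe_toNNReal (mixedEmbedding.minkowskiBound_lt_top k 1).ne).symm⟩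
  refine ⟨B + 1, le_add_of_nonneg_left B.2, fun b hb c hc hcj hC => ?_⟩
  have hb0 : (b : FractionalIdeal (nonZeroDivisors (𝓞 k)) k) ≠ 0 :=
    FractionalIdeal.coeIdeal_ne_zero.2 hb
  have hN : (0 : ℝ) < Ideal.absNorm b :=
    Nat.cast_pos.2 (Nat.pos_of_ne_zero (Ideal.absNorm_eq_zero_iff.not.2 hb))
  let I : (FractionalIdeal (nonZeroDivisors (𝓞 k)) k)ˣ := (Units.mk0 _ hb0)⁻¹
  let f : InfinitePlace k → NNReal := fun w => ⟨c w.embedding, (hc _).le⟩
  have hf : ∀ σ : k →+* ℂ, c σ = f (InfinitePlace.mk σ) := fun σ => by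
    rcases InfinitePlace.mk_eq_iff.1 (InfinitePlace.mk_embedding (InfinitePlace.mk σ)) with h | h
    · exact (congrArg c h).symm
    · exact (congrArg c h).symm.trans (hcj _)
  have hp : ∏ σ, c σ = ∏ w, (f w : ℝ) ^ w.mult := by
    rw [← Finset.prod_fiberwise Finset.univ InfinitePlace.mk c]
    refine Finset.prod_congr rfl fun w _ => ?_
    rw [← InfinitePlace.card_filter_mk_eq, ← Finset.prod_const]
    exact Finset.prod_congr rfl fun σ hσ => by rw [hf, (Finset.mem_filter.1 hσ).2]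
  have hI : ((FractionalIdeal.absNorm I.1 : ℚ) : ℝ) = (Ideal.absNorm b : ℝ)⁻¹ := by
    simp [I, FractionalIdeal.coeIdeal_absNorm]
  have hm : mixedEmbedding.minkowskiBound k I =
      ENNReal.ofReal ((Ideal.absNorm b : ℝ)⁻¹ * B) := by
    rw [ENNReal.ofReal_mul (inv_nonneg.2 hN.le), ENNReal.ofReal_coe_nnreal, ← hB,
      mixedEmbedding.minkowskiBound, mixedEmbedding.minkowskiBound,
      mixedEmbedding.volume_fundamentalDomain_fractionalIdealLatticeBasis,
      mixedEmbedding.volume_fundamentalDomain_fractionalIdealLatticeBasis, hI]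
    simp [mul_assoc]
  have hlt : mixedEmbedding.minkowskiBound k I <
      MeasureTheory.volume (mixedEmbedding.convexBodyLT k f) := by
    rw [hm, mixedEmbedding.convexBodyLT_volume, ← ENNReal.coe_mul, ← ENNReal.ofReal_coe_nnreal]
    have h1 : (1 : ℝ) ≤ mixedEmbedding.convexBodyLTFactor k :=
      mixedEmbedding.one_le_convexBodyLTFactor k
    have h2 : (Ideal.absNorm b : ℝ)⁻¹ * B < ∏ σ, c σ := by
      rw [inv_mul_lt_iff₀ hN]
      linarith
    have h3 : 0 < ∏ σ, c σ := Finset.prod_pos fun σ _ => hc σ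
    refine (ENNReal.ofReal_lt_ofReal_iff (by push_cast; rw [← hp]; positivity)).2 ?_
    push_cast
    rw [← hp]
    exact h2.trans_le (le_mul_of_one_le_left h3.le h1)
  obtain ⟨a, ha, ha0, hw⟩ := mixedEmbedding.exists_ne_zero_mem_ideal_lt k I hlt
  refine ⟨a, ha0, fun x hx => ?_, fun σ => ?_⟩
  · have h1 : a * (x : k) ∈ (I.1 * b : FractionalIdeal (nonZeroDivisors (𝓞 k)) k) :=
      FractionalIdeal.mul_mem_mul ha (FractionalIdeal.mem_coeIdeal_of_mem _ hx)
    have h2 : (I.1 * b : FractionalIdeal (nonZeroDivisors (𝓞 k)) k) = 1 := by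
      simp [I, hb0]
    rw [h2, FractionalIdeal.mem_one_iff] at h1
    obtain ⟨y, hy⟩ := h1
    exact hy ▸ y.isIntegral_coe
  · rw [hf]
    exact (hw (InfinitePlace.mk σ)).le

end Pool.Agent.Lib.MP_775b3b_nt
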