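import Pool.Agent.Lib.MP_775b3b_nt.Unif

/-! Multiplicities of representations of 2-groups in lattices. -/

namespace Pool.Agent.Lib.MP_775b3b_nt

open Module TensorProduct Polynomial

theorem central_two {G : Type*} [Group G] [Finite G] [Nontrivial G] (hG : IsPGroup 2 G) :
    ∃ z : G, z ≠ 1 ∧ z * z = 1 ∧ ∀ g, g * z = z * g := by
  have : Fact (Nat.Prime 2) := ⟨Nat.prime_two⟩
  have := hG.center_nontrivial
  obtain ⟨n, hn, h⟩ := (hG.to_subgroup (Subgroup.center G)).nontrivial_iff_card.1 this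
  obtain ⟨z, hz⟩ := exists_prime_orderOf_dvd_card' (G := Subgroup.center G) 2
    (h ▸ dvd_pow_self 2 hn.ne')
  refine ⟨z, fun h1 => ?_, ?_, Subgroup.mem_center_iff.1 z.2⟩
  · rw [show z = 1 from Subtype.ext h1, orderOf_one] at hz
    omega
  · rw [← Subgroup.coe_mul, ← pow_two, ← hz, pow_orderOf_eq_one, Subgroup.coe_one]

/-- A 2-group fixes a line up to index at most the dimension. -/
theorem exists_line (n : ℕ) : ∀ (G : Type) [Group G] [Finite G], IsPGroup 2 G →
    ∀ (W : Type) [AddCommGroup W] [Module ℂ W] [FiniteDimensional ℂ W] [Nontrivial W]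
      (ρ : Representation ℂ G W), finrank ℂ W ≤ n → ∃ (H : Subgroup G) (w : W), w ≠ 0 ∧
        (∀ h ∈ H, ∃ c : ℂ, ρ h w = c • w) ∧ H.index ≤ finrank ℂ W := by
  induction n with
  | zero =>
    intro G _ _ _ W _ _ _ _ ρ h
    exact absurd (finrank_pos (R := ℂ) (M := W)) (by omega)
  | succ n ih =>
    intro G _ _ hG W _ _ _ _ ρ h
    obtain ⟨w₀, hw₀⟩ := exists_ne (0 : W)
    have inv : ∀ g (w : W), ρ g⁻¹ (ρ g w) = w := fun g w => by
      rw [← Module.End.mul_apply, ← map_mul, inv_mul_cancel, map_one, Module.End.one_apply]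
    have inv' : ∀ g (w : W), ρ g (ρ g⁻¹ w) = w := fun g w => by simp
    have nz : ∀ {g} {c : ℂ}, (∀ w, ρ g w = c • w) → c ≠ 0 := fun {g c} hc h0 => hw₀ (by
      rw [← inv g w₀, hc, h0, zero_smul, map_zero])
    let N : Subgroup G :=
      { carrier := {g | ∃ c : ℂ, ∀ w, ρ g w = c • w}
        one_mem' := ⟨1, fun w => by simp⟩
        mul_mem' := by
          rintro a b ⟨c, hc⟩ ⟨d, hd⟩
          exact ⟨c * d, fun w => by rw [map_mul, Module.End.mul_apply, hd, hc, mul_smul]⟩
        inv_mem' := by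
          rintro a ⟨c, hc⟩
          refine ⟨c⁻¹, fun w => ?_⟩
          rw [eq_inv_smul_iff₀ (nz hc), ← hc, inv'] }
    have hN : N.Normal := ⟨by
      rintro a ⟨c, hc⟩ g
      exact ⟨c, fun w => by
        rw [map_mul, map_mul, Module.End.mul_apply, Module.End.mul_apply, hc, map_smul, inv']⟩⟩
    rcases subsingleton_or_nontrivial (G ⧸ N) with hs | hs
    · refine ⟨⊤, w₀, hw₀, fun g _ => ?_, by rw [Subgroup.index_top]; exact finrank_pos⟩
      obtain ⟨c, hc⟩ : g ∈ N := (QuotientGroup.eq_one_iff g).1 (Subsingleton.elim _ _)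
      exact ⟨c, hc w₀⟩
    obtain ⟨z, z1, z2, z3⟩ := central_two (hG.to_quotient N)
    obtain ⟨a, rfl⟩ := QuotientGroup.mk_surjective z
    have a1 : a ∉ N := fun h => z1 ((QuotientGroup.eq_one_iff a).2 h)
    obtain ⟨l, hl⟩ : a * a ∈ N := (QuotientGroup.eq_one_iff _).1 z2
    obtain ⟨μ, rfl⟩ := IsAlgClosed.exists_eq_mul_self l
    have hμ : μ ≠ 0 := left_ne_zero_of_mul (nz hl)
    have hl' : ∀ w, ρ a (ρ a w) = (μ * μ) • w := fun w => by
      rw [← hl, map_mul, Module.End.mul_apply]
    have a3 : ∀ g, (∀ w, ρ g (ρ a w) = ρ a (ρ g w)) ∨ ∀ w, ρ g (ρ a w) = -ρ a (ρ g w) := by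
      intro g
      obtain ⟨c, hc⟩ : (a * g)⁻¹ * (g * a) ∈ N := QuotientGroup.eq.1 (z3 g).symm
      have h1 : ∀ w, ρ g (ρ a w) = c • ρ a (ρ g w) := fun w => by
        have := congrArg (ρ (a * g)) (hc w)
        rw [← Module.End.mul_apply, ← map_mul, mul_inv_cancel_left] at this
        simpa using this
      have h2 : (μ * μ) • ρ g w₀ = (c * c) • (μ * μ) • ρ g w₀ := by
        conv_lhs => rw [← map_smul, ← hl', h1, h1, map_smul, hl', smul_smul]
      have h3 : (μ * μ) • ρ g w₀ ≠ 0 := smul_ne_zero (nz hl) fun h0 =>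
        hw₀ (by rw [← inv g w₀, h0, map_zero])
      have h4 : c * c = 1 := (smul_left_injective ℂ h3 ((one_smul _ _).trans h2)).symm
      rcases mul_self_eq_one_iff.1 h4 with rfl | rfl
      · exact .inl fun w => by simpa using h1 w
      · exact .inr fun w => by simpa using h1 w
    let Q : Subgroup G :=
      { carrier := {g | ∀ w, ρ g (ρ a w) = ρ a (ρ g w)}
        one_mem' := fun w => by simp
        mul_mem' := fun {x y} hx hy w => by
          rw [map_mul, Module.End.mul_apply, Module.End.mul_apply, hy, hx]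
        inv_mem' := fun {x} hx w => by
          conv_lhs => rw [← inv' x w, ← hx, inv] }
    have hQ : Q.index ≤ 2 := by
      refine Nat.le_of_dvd two_pos (Subgroup.index_dvd_two_iff.2 ?_)
      by_cases hq : ∀ g, g ∈ Q
      · exact ⟨1, fun b => .inr (hq b)⟩
      push Not at hq
      obtain ⟨g, hg⟩ := hq
      refine ⟨g, fun b => (a3 b).symm.imp (fun hb w => ?_) id⟩
      rw [map_mul, Module.End.mul_apply, Module.End.mul_apply, (a3 g).resolve_left hg, map_neg,
        hb, neg_neg]
    have ne : ∀ ν : ℂ, ν * ν = μ * μ → Module.End.eigenspace (ρ a) ν ≠ ⊥ := fun ν hν h0 =>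
      a1 ⟨-ν, fun w => by
        have : ρ a w + ν • w ∈ Module.End.eigenspace (ρ a) ν := by
          rw [Module.End.mem_eigenspace_iff, map_add, map_smul, hl', smul_add, smul_smul, hν,
            add_comm]
        rw [h0, Submodule.mem_bot] at this
        rw [neg_smul, eq_neg_iff_add_eq_zero, this]⟩
    obtain ⟨ν, hν, hd⟩ : ∃ ν : ℂ, ν * ν = μ * μ ∧
        2 * finrank ℂ (Module.End.eigenspace (ρ a) ν) ≤ finrank ℂ W := by
      have h1 : Disjoint (Module.End.eigenspace (ρ a) μ) (Module.End.eigenspace (ρ a) (-μ)) :=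
        (Module.End.eigenspaces_iSupIndep (ρ a)).pairwiseDisjoint fun h => hμ (by
          linear_combination h / 2)
      have h2 := Submodule.finrank_add_finrank_le_of_disjoint h1
      rcases le_total (finrank ℂ (Module.End.eigenspace (ρ a) μ))
        (finrank ℂ (Module.End.eigenspace (ρ a) (-μ))) with h3 | h3
      · exact ⟨μ, rfl, by omega⟩
      · exact ⟨-μ, by ring, by omega⟩
    have : Nontrivial (Module.End.eigenspace (ρ a) ν) := Submodule.nontrivial_iff_ne_bot.2 (ne ν hν)
    have hp := finrank_pos (R := ℂ) (M := Module.End.eigenspace (ρ a) ν)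
    obtain ⟨H, w, w0, w1, w2⟩ := ih Q (hG.to_subgroup Q) (Module.End.eigenspace (ρ a) ν)
      (Representation.subrepresentation (ρ.comp Q.subtype) _ fun g x hx => by
        rw [Submodule.mem_comap, Module.End.mem_eigenspace_iff] at *
        exact (g.2 x).symm.trans (by rw [hx, map_smul]; rfl)) (by omega)
    refine ⟨H.map Q.subtype, w, fun h0 => w0 (Subtype.ext h0), ?_, ?_⟩
    · rintro _ ⟨g, hg, rfl⟩
      obtain ⟨c, hc⟩ := w1 g hg
      exact ⟨c, congrArg Subtype.val hc⟩
    · rw [Subgroup.index_map_subtype]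
      exact (Nat.mul_le_mul w2 hQ).trans (by omega)

theorem tot_mul_rootMult {ζ : ℂ} {k : ℕ} (hk : 0 < k) (hζ : IsPrimitiveRoot ζ k) (m : ℕ) :
    ∀ f : ℚ[X], f ≠ 0 → m ≤ (f.map (algebraMap ℚ ℂ)).rootMultiplicity ζ →
      k.totient * m ≤ f.natDegree := by
  induction m with
  | zero => simp
  | succ m ih =>
    intro f hf h
    have h1 : (f.map (algebraMap ℚ ℂ)).IsRoot ζ := (rootMultiplicity_pos'.1 (by omega)).2
    have h2 : cyclotomic k ℚ ∣ f := by
      rw [cyclotomic_eq_minpoly_rat hζ hk]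
      exact minpoly.dvd ℚ ζ (by rwa [aeval_def, eval₂_eq_eval_map])
    obtain ⟨g, rfl⟩ := h2
    have hg : g ≠ 0 := right_ne_zero_of_mul hf
    have h3 : ((cyclotomic k ℚ).map (algebraMap ℚ ℂ)).rootMultiplicity ζ ≤ 1 :=
      rootMultiplicity_le_one_of_separable ((cyclotomic.irreducible_rat hk).separable.map) ζ
    rw [Polynomial.map_mul, rootMultiplicity_mul (by
      rw [← Polynomial.map_mul]; exact Polynomial.map_ne_zero hf)] at h
    rw [natDegree_mul (left_ne_zero_of_mul hf) hg, natDegree_cyclotomic, mul_add_one, add_comm]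
    exact Nat.add_le_add_left (ih g hg (by omega)) _

theorem tot_mul_eig {M : Type} [AddCommGroup M] [Module.Finite ℤ M] (φ : M →ₗ[ℤ] M) {ζ : ℂ}
    {k : ℕ} (hk : 0 < k) (hζ : IsPrimitiveRoot ζ k) :
    k.totient * finrank ℂ (Module.End.eigenspace (φ.baseChange ℂ) ζ) ≤ finrank ℤ M := by
  let e := AlgebraTensorModule.cancelBaseChange ℤ ℚ ℂ ℂ M
  have h1 : finrank ℂ (Module.End.eigenspace (φ.baseChange ℂ) ζ) ≤
      finrank ℂ (Module.End.eigenspace ((φ.baseChange ℚ).baseChange ℂ) ζ) := by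
    rw [← LinearEquiv.finrank_map_eq e.symm]
    refine Submodule.finrank_mono ?_
    rintro _ ⟨v, hv, rfl⟩
    rw [SetLike.mem_coe, Module.End.mem_eigenspace_iff] at hv
    rw [Module.End.mem_eigenspace_iff, LinearMap.baseChange_baseChange]
    simp [e, hv]
  have h2 := h1.trans (LinearMap.finrank_eigenspace_le _ ζ)
  rw [LinearMap.charpoly_baseChange] at h2
  have h3 := tot_mul_rootMult hk hζ _ _ (LinearMap.charpoly_monic _).ne_zero h2
  rwa [LinearMap.charpoly_natDegree, (TensorProduct.isBaseChange ℤ M ℚ).finrank_eq] at h3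

theorem eig_le {H : Type} [Group H] [Finite H] (hH : IsPGroup 2 H) {M : Type} [AddCommGroup M]
    [Module.Finite ℤ M] (α : Representation ℤ H M) (c : H →* ℂˣ) (E : Submodule ℂ (ℂ ⊗[ℤ] M))
    (hE : ∀ v ∈ E, ∀ h, (α h).baseChange ℂ v = (c h : ℂ) • v) :
    c.ker.index * finrank ℂ E ≤
      2 * finrank ℤ (Representation.invariants (α.comp c.ker.subtype)) := by
  classical
  have : Fact (Nat.Prime 2) := ⟨Nat.prime_two⟩
  have := Fintype.ofFinite c.ker
  set M₀ := Representation.invariants (α.comp c.ker.subtype)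
  have : Finite c.range := Finite.of_surjective _ c.rangeRestrict_surjective
  obtain ⟨⟨_, h₀, rfl⟩, hg⟩ := IsCyclic.exists_ofOrder_eq_natCard (α := c.range)
  obtain ⟨n, hn⟩ := hH.index c.ker
  have hζ : IsPrimitiveRoot (c h₀ : ℂ) (2 ^ n) := by
    rw [← hn, Subgroup.index_ker, ← hg, ← Subgroup.orderOf_coe, ← orderOf_units]
    exact IsPrimitiveRoot.orderOf _
  let φ : M₀ →ₗ[ℤ] M₀ := α.toInvariants c.ker h₀
  let N : M →ₗ[ℤ] M₀ := (∑ h : c.ker, α h).codRestrict M₀ fun x g => by
    simp only [LinearMap.sum_apply, map_sum, MonoidHom.comp_apply, Subgroup.subtype_apply]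
    exact Fintype.sum_equiv (Equiv.mulLeft g) _ _ fun h => by simp
  have hN : ∀ v ∈ E, M₀.subtype.baseChange ℂ (N.baseChange ℂ v) =
      (Fintype.card c.ker : ℂ) • v := fun v hv => by
    rw [← LinearMap.comp_apply, ← LinearMap.baseChange_comp,
      show M₀.subtype ∘ₗ N = ∑ h : c.ker, α h from rfl, ← LinearMap.baseChangeHom_apply, map_sum, LinearMap.sum_apply]
    refine (Finset.sum_congr rfl (g := fun _ => v) fun (h : c.ker) _ => (hE v hv h).trans
      (by rw [show c h = 1 from h.2, Units.val_one, one_smul])).trans ?_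
    simp [Nat.cast_smul_eq_nsmul]
  have hi : Function.Injective (M₀.subtype.baseChange ℂ) :=
    Module.Flat.lTensor_preserves_injective_linearMap _ M₀.injective_subtype
  have h1 : finrank ℂ E ≤ finrank ℂ (Module.End.eigenspace (φ.baseChange ℂ) (c h₀ : ℂ)) := by
    refine LinearMap.finrank_le_finrank_of_injective
      (f := (N.baseChange ℂ).restrict (p := E) fun v hv => ?_) ?_
    · rw [Module.End.mem_eigenspace_iff]
      apply hi
      have : M₀.subtype ∘ₗ φ = α h₀ ∘ₗ M₀.subtype := rfl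
      rw [← LinearMap.comp_apply, ← LinearMap.baseChange_comp, this, LinearMap.baseChange_comp,
        LinearMap.comp_apply, map_smul, hN v hv, map_smul, hE v hv, smul_comm]
    · rw [injective_iff_map_eq_zero]
      intro v hv
      have h2 := hN v v.2
      rw [show N.baseChange ℂ v = 0 from congrArg Subtype.val hv, map_zero] at h2
      exact Subtype.ext ((smul_eq_zero.1 h2.symm).resolve_left
        (Nat.cast_ne_zero.2 Fintype.card_ne_zero))
  have h2 := tot_mul_eig φ (Nat.two_pow_pos n) hζ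
  have h3 : 2 ^ n ≤ 2 * (2 ^ n).totient := by
    rcases n with _ | n
    · simp
    · rw [Nat.totient_prime_pow_succ Nat.prime_two, pow_succ]
      omega
  rw [hn]
  calc 2 ^ n * finrank ℂ E ≤ 2 * (2 ^ n).totient * _ := Nat.mul_le_mul h3 h1
    _ ≤ _ := by rw [mul_assoc]; exact Nat.mul_le_mul_left 2 h2

theorem mult_le {G P : Type} [Group G] [Group P] [Finite P] (hP : IsPGroup 2 P) (j : P →* G)
    {M : Type} [AddCommGroup M] [Module.Finite ℤ M] (α : Representation ℤ G M) {r : ℕ}
    (hr : ∀ (H : Subgroup P) (U : Submodule ℤ M), (∀ x ∈ U, ∀ h ∈ H, α (j h) x = x) →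
      finrank ℤ U ≤ r * H.index)
    {W : Type} [AddCommGroup W] [Module ℂ W] [FiniteDimensional ℂ W] {ρ : Representation ℂ G W}
    (hρ : ρ.IsIrreducible) (S : Submodule ℂ (W →ₗ[ℂ] ℂ ⊗[ℤ] M))
    (hS : ∀ T ∈ S, ∀ g w, T (ρ g w) = (α g).baseChange ℂ (T w)) :
    finrank ℂ S ≤ 2 * r * finrank ℂ W := by
  have : Nontrivial W := by
    by_contra h
    have := not_nontrivial_iff_subsingleton.1 h
    obtain ⟨a, b, hab⟩ := hρ.toNontrivial
    exact hab (Subrepresentation.toSubmodule_injective (Subsingleton.elim _ _))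
  obtain ⟨H, w, w0, w1, w2⟩ := exists_line _ P hP W (ρ.comp j) le_rfl
  choose c hc using fun h : H => w1 h h.2
  replace hc : ∀ h : H, ρ (j h) w = c h • w := hc
  let c₀ : H →* ℂ :=
    { toFun := c
      map_one' := smul_left_injective ℂ w0 (by simp [← hc])
      map_mul' := fun x y => smul_left_injective ℂ w0 (by
        simp only [← hc, mul_comm (c x), mul_smul, Subgroup.coe_mul, map_mul, Module.End.mul_apply]
        rw [hc y, map_smul]) }
  let f : S →ₗ[ℂ] ℂ ⊗[ℤ] M := (LinearMap.applyₗ w).domRestrict S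
  have hf : Function.Injective f := (injective_iff_map_eq_zero _).2 fun T hT => by
    let U : Subrepresentation ρ := ⟨LinearMap.ker T.1, fun g v hv => by
      rw [LinearMap.mem_ker] at hv ⊢
      rw [hS _ T.2, hv, map_zero]⟩
    rcases eq_bot_or_eq_top U with h2 | h2
    · have h3 : w ∈ U.toSubmodule := hT
      rw [h2] at h3
      exact absurd h3 w0
    · exact Subtype.ext (LinearMap.ker_eq_top.1 (congrArg Subrepresentation.toSubmodule h2))
  have h1 := eig_le (hP.to_subgroup H) (α.comp (j.comp H.subtype)) c₀.toHomUnits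
    (LinearMap.range f) (by
      rintro _ ⟨T, rfl⟩ h
      exact (hS _ T.2 (j h) w).symm.trans (by rw [hc, map_smul]; rfl))
  have h2 := hr (c₀.toHomUnits.ker.map H.subtype) _ (fun x hx h hh => by
    obtain ⟨g, hg, rfl⟩ := hh
    exact (Representation.mem_invariants
      ((α.comp (j.comp H.subtype)).comp c₀.toHomUnits.ker.subtype) x).1 hx ⟨g, hg⟩)
  rw [LinearMap.finrank_range_of_inj hf] at h1
  rw [Subgroup.index_map_subtype] at h2
  have h3 : c₀.toHomUnits.ker.index * finrank ℂ S ≤ c₀.toHomUnits.ker.index * (2 * r * H.index) :=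
    h1.trans ((Nat.mul_le_mul_left 2 h2).trans (le_of_eq (by ring)))
  exact (Nat.le_of_mul_le_mul_left h3
    (Nat.pos_of_ne_zero Subgroup.index_ne_zero_of_finite)).trans (Nat.mul_le_mul_left _ w2)

open WeierstrassCurve WeierstrassCurve.Affine IntermediateField in
theorem mult_of_rank {K F : Type} [Field K] [NumberField K] [Field F] [NumberField F]
    [DecidableEq F] [Algebra K F] [IsGalois K F] (hP : IsPGroup 2 (F ≃ₐ[K] F)) {e : ℤ × ℤ}
    (hd : disc e ≠ 0) {r : ℕ} (hr : ∀ (L : IntermediateField K F) [DecidableEq L],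
      finrank ℤ (crv e L).toAffine.Point ≤ r * finrank K L)
    {W : Type} [AddCommGroup W] [Module ℂ W] [FiniteDimensional ℂ W]
    {ρ : Representation ℂ (F ≃ₐ[ℚ] F) W} (hρ : ρ.IsIrreducible) :
    finrank ℂ (Submodule.span ℂ {T : W →ₗ[ℂ] ℂ ⊗[ℤ] ((crv e ℚ).toAffine⁄F).Point |
      ∀ (g : F ≃ₐ[ℚ] F) (w : W), T (ρ g w) =
        (Point.map (g : F →ₐ[ℚ] F)).toIntLinearMap.baseChange ℂ (T w)}) ≤ 2 * r * finrank ℂ W := by
  classical
  have : FiniteDimensional K F := Module.Finite.of_restrictScalars_finite ℚ K F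
  have fg : ∀ (k : Type) [Field k] [NumberField k] [DecidableEq k],
      Module.Finite ℤ ((crv e ℚ).toAffine⁄k).Point := fun k _ _ _ => by
    have := crv_isElliptic (F := k) hd
    rw [crv_bc k]
    exact Module.Finite.iff_addGroup_fg.mpr (Pool.Agent.MP_651af7_nt.MW.fg (crv e k))
  have := fg F
  let α : Representation ℤ (F ≃ₐ[ℚ] F) ((crv e ℚ).toAffine⁄F).Point :=
    { toFun := fun g => (Point.map (g : F →ₐ[ℚ] F)).toIntLinearMap
      map_one' := LinearMap.ext fun R => by cases R <;> rfl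
      map_mul' := fun g h => LinearMap.ext fun R => by cases R <;> rfl }
  refine mult_le hP (AlgEquiv.restrictScalarsHom ℚ) α (fun H U hU => ?_) hρ _ fun T hT => ?_
  · have := fg (fixedField H)
    let ι := (Point.map (W' := (crv e ℚ).toAffine)
      ((fixedField H).val.restrictScalars ℚ)).toIntLinearMap
    have h1 : U ≤ LinearMap.range ι := fun R hR => by
      rcases R with _ | ⟨x, y, h⟩
      · exact ⟨0, rfl⟩
      have h2 : ∀ g ∈ H, g x = x ∧ g y = y := fun g hg => by
        have := hU _ hR g hg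
        injection this with a b
        exact ⟨a, b⟩
      exact ⟨.some ⟨x, (mem_fixedField_iff _ _).2 fun g hg => (h2 g hg).1⟩
        ⟨y, (mem_fixedField_iff _ _).2 fun g hg => (h2 g hg).2⟩
        (((crv e ℚ).toAffine.baseChange_nonsingular
          (f := (fixedField H).val.restrictScalars ℚ) (fixedField H).val.injective _ _).1 h), rfl⟩
    have h3 := hr (fixedField H)
    rw [← crv_bc, finrank_eq_fixingSubgroup_index, fixingSubgroup_fixedField] at h3
    exact (Submodule.finrank_mono h1).trans ((LinearMap.finrank_range_le ι).trans h3)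
  · induction hT using Submodule.span_induction with
    | mem T h => exact h
    | zero => simp
    | add T T' _ _ h h' => intro g w; rw [LinearMap.add_apply, h, h', LinearMap.add_apply, map_add]
    | smul c T _ h => intro g w; rw [LinearMap.smul_apply, h, LinearMap.smul_apply, map_smul]

end Pool.Agent.Lib.MP_775b3b_nt
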