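import Mathlib

set_option autoImplicit false

/-!
Subgroups of the symmetric group on four letters: a Sylow subgroup, an involution and a vector.
-/

namespace Pool.Agent.Lib.MP_775b3b_nt.S4

open Equiv

abbrev S := Perm (Fin 4)

lemma a1 : ∀ x : S, x ^ 4 = 1 ∨ (x ^ 3 = 1 ∧ x ≠ 1) := by decide +kernel

lemma a2 : ∀ x : S, Perm.sign x = 1 → (x ^ 3 = 1 ∧ x ≠ 1) ∨
    (swap 0 1 * swap 2 3 * x = x * (swap 0 1 * swap 2 3) ∧
      swap 0 2 * swap 1 3 * x = x * (swap 0 2 * swap 1 3)) := by decide +kernel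

lemma a3 : ∀ x g : S, swap 0 1 * swap 2 3 * x = x * (swap 0 1 * swap 2 3) →
    swap 0 2 * swap 1 3 * x = x * (swap 0 2 * swap 1 3) → x ^ 2 = 1 ∧
    swap 0 1 * swap 2 3 * (g * x * g⁻¹) = g * x * g⁻¹ * (swap 0 1 * swap 2 3) ∧
    swap 0 2 * swap 1 3 * (g * x * g⁻¹) = g * x * g⁻¹ * (swap 0 2 * swap 1 3) := by decide +kernel

set_option synthInstance.maxSize 1000 in
lemma a4 : ∀ c o : S, c ^ 3 = 1 → c ≠ 1 → Perm.sign o ≠ 1 →
    ∃ g : S, g * o * g⁻¹ = swap 0 1 ∨ g * (c * o) * g⁻¹ = swap 0 1 ∨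
      g * (c * c * o) * g⁻¹ = swap 0 1 := by decide +kernel

lemma a5 : ∀ x : S, x * (swap 0 1 * swap 2 3) = swap 0 1 * swap 2 3 * x → x ^ 4 = 1 ∧
    (x⁻¹ * swap 0 1 * x = swap 0 1 ∨ x⁻¹ * swap 0 1 * x = swap 2 3) := by decide +kernel

lemma a6 : ∀ x : S, x * (swap 0 1 * swap 2 3) = swap 0 1 * swap 2 3 * x ∨
    ((swap 0 1 * (x * swap 0 1 * x⁻¹)) ^ 3 = 1 ∧ swap 0 1 * (x * swap 0 1 * x⁻¹) ≠ 1 ∧
      x * swap 0 1 * x⁻¹ * (swap 0 1 * swap 2 3) ≠ swap 0 1 * swap 2 3 * (x * swap 0 1 * x⁻¹)) := by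
  decide +kernel

lemma a7 : ∀ c : S, c ^ 3 = 1 → c ≠ 1 →
    swap 0 1 * swap 2 3 * (c * (swap 0 1 * swap 2 3) * c⁻¹) =
      c * c * (swap 0 1 * swap 2 3) * (c * c)⁻¹ := by decide +kernel

variable {G : Type} [Group G] [Finite G]

lemma index_dvd (φ : G →* S) (hφ : Function.Injective φ) (Q : Subgroup G) (hQ : IsPGroup 2 Q)
    (h : ∀ P : Subgroup G, Q ≤ P → (∀ x ∈ P, φ x ^ 3 = 1 → φ x = 1) → P ≤ Q) : Q.index ∣ 3 := by
  have : Fact (Nat.Prime 2) := ⟨Nat.prime_two⟩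
  obtain ⟨P, hP⟩ := hQ.exists_le_sylow
  have e : (P : Subgroup G) = Q := by
    refine le_antisymm (h P hP fun x hx h3 => ?_) hP
    obtain ⟨k, hk⟩ := P.isPGroup' ⟨x, hx⟩
    have h4 : φ x ^ 2 ^ k = 1 := by
      rw [← map_pow, show x ^ 2 ^ k = 1 from congrArg Subtype.val hk, map_one]
    exact (pow_eq_one_iff_of_coprime (Nat.Coprime.pow_right k (by decide))).1 ⟨h3, h4⟩
  have h1 : Q.index ∣ 2 ^ 3 * 3 := by
    refine Q.index_dvd_card.trans ((Subgroup.card_dvd_of_injective φ hφ).trans (dvd_of_eq ?_))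
    rw [Nat.card_eq_fintype_card, Fintype.card_perm]
    rfl
  refine Nat.Coprime.dvd_of_dvd_mul_left (Nat.Coprime.pow_right 3 ?_) h1
  exact ((Nat.Prime.coprime_iff_not_dvd Nat.prime_two).2 (e ▸ P.not_dvd_index)).symm

omit [Finite G] in
lemma pgroup (φ : G →* S) (hφ : Function.Injective φ) (Q : Subgroup G)
    (h : ∀ x ∈ Q, φ x ^ 4 = 1) : IsPGroup 2 Q := fun x =>
  ⟨2, Subtype.ext (hφ (by simpa using h x x.2))⟩

variable {W : Type} [AddCommGroup W] [Module ℂ W]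

/-- The data needed for the criterion. -/
def Data (ρ : Representation ℂ G W) : Prop :=
  ∃ (P : Subgroup G) (τ : G) (ε : ℤˣ) (w : W), IsPGroup 2 P ∧ P.index ∣ 3 ∧ τ ∈ P ∧ τ * τ = 1 ∧
    (∀ g, g * τ * g⁻¹ ∈ P → ∀ p ∈ P, g * p * g⁻¹ ∈ P) ∧ w ≠ 0 ∧
    ∀ p ∈ P, ρ τ (ρ p w) = ((ε : ℤ) : ℂ) • ρ p w

lemma data_swap [Nontrivial W] (ρ : Representation ℂ G W) (φ : G →* S)
    (hφ : Function.Injective φ) {c t : G} (h3 : φ c ^ 3 = 1) (h1 : φ c ≠ 1)
    (ht : φ t = swap 0 1) : Data ρ := by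
  let Q := (Subgroup.centralizer {(swap 0 1 * swap 2 3 : S)}).comap φ
  have hQ : ∀ x, x ∈ Q ↔ φ x * (swap 0 1 * swap 2 3) = swap 0 1 * swap 2 3 * φ x := fun x =>
    Subgroup.mem_centralizer_singleton_iff
  have htQ : t ∈ Q := by rw [hQ, ht]; decide
  have htt : t * t = 1 := hφ (by rw [map_mul, ht, map_one]; decide)
  have h0 : ∃ w : W, w ≠ 0 ∧ ∀ u, φ u = swap 2 3 → ρ (t * u) w = w := by
    by_cases e : ∃ u, φ u = swap 2 3
    · obtain ⟨u, hu⟩ := e
      have hz : t * u * (t * u) = 1 := hφ (by simp only [map_mul, ht, hu, map_one]; decide)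
      by_contra hno
      have h4 : ∀ v, ρ (t * u) v = -v := by
        intro v
        by_contra e
        refine hno ⟨v + ρ (t * u) v, fun e' => e (eq_neg_of_add_eq_zero_right e'), fun u' hu' => ?_⟩
        rw [hφ (hu'.trans hu.symm), map_add, ← Module.End.mul_apply, ← map_mul, hz, map_one,
          add_comm]
        rfl
      have h5 : ∀ g v, ρ (g * (t * u) * g⁻¹) v = -v := by
        intro g v
        rw [map_mul, map_mul, Module.End.mul_apply, Module.End.mul_apply, h4, map_neg,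
          ← Module.End.mul_apply, ← map_mul, mul_inv_cancel, map_one]
        rfl
      have h6 : t * u * (c * (t * u) * c⁻¹) = c * c * (t * u) * (c * c)⁻¹ :=
        hφ (by simpa only [map_mul, map_inv, ht, hu] using a7 _ h3 h1)
      obtain ⟨v, hv⟩ := exists_ne (0 : W)
      have h7 := h5 (c * c) v
      rw [← h6, map_mul, Module.End.mul_apply, h5, h4, neg_neg, eq_neg_iff_add_eq_zero,
        ← two_smul ℂ] at h7
      exact hv ((smul_eq_zero.1 h7).resolve_left two_ne_zero)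
    · obtain ⟨v, hv⟩ := exists_ne (0 : W)
      exact ⟨v, hv, fun u hu => (e ⟨u, hu⟩).elim⟩
  obtain ⟨w, hw, h4⟩ := h0
  have h5 : ∀ v, ρ t (ρ t v) = v := fun v => by
    rw [← Module.End.mul_apply, ← map_mul, htt, map_one]; rfl
  have h6 : ∃ (ε : ℤˣ) (v : W), v ≠ 0 ∧ ρ t v = ((ε : ℤ) : ℂ) • v ∧
      ∀ u, φ u = swap 2 3 → ρ (t * u) v = v := by
    by_cases e : w + ρ t w = 0
    · exact ⟨-1, w, hw, by simpa using eq_neg_of_add_eq_zero_right e, h4⟩
    · refine ⟨1, _, e, by simp [h5, add_comm], fun u hu => ?_⟩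
      have : t * u * t = t * (t * u) := hφ (by simp only [map_mul, ht, hu]; decide)
      rw [map_add, h4 u hu, ← Module.End.mul_apply, ← map_mul, this, map_mul,
        Module.End.mul_apply, h4 u hu]
  obtain ⟨ε, v, hv, h7, h8⟩ := h6
  have h9 : ∀ x, x ∉ Q → (φ (t * (x * t * x⁻¹)) ^ 3 = 1 ∧ φ (t * (x * t * x⁻¹)) ≠ 1) ∧
      x * t * x⁻¹ ∉ Q := by
    intro x hx
    simp only [hQ, map_mul, map_inv, ht] at hx ⊢
    exact and_assoc.2 ((a6 _).resolve_left hx)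
  have h2 := pgroup φ hφ Q fun x hx => (a5 _ ((hQ x).1 hx)).1
  refine ⟨Q, t, ε, v, h2, index_dvd φ hφ Q h2 fun P hP h x hx => ?_, htQ, htt,
    fun g hg p hp => ?_, hv, fun p hp => ?_⟩
  · by_contra e
    exact (h9 x e).1.2 (h _ (mul_mem (hP htQ) (mul_mem (mul_mem hx (hP htQ)) (inv_mem hx)))
      (h9 x e).1.1)
  · have : g ∈ Q := by_contra fun e => (h9 g e).2 hg
    exact mul_mem (mul_mem this hp) (inv_mem this)
  · have e : t * p = p * (p⁻¹ * t * p) := by group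
    rw [← Module.End.mul_apply, ← map_mul, e, map_mul, Module.End.mul_apply, ← map_smul]
    congr 1
    rcases (a5 _ ((hQ p).1 hp)).2 with e' | e'
    · rw [show p⁻¹ * t * p = t from hφ (by simpa only [map_mul, map_inv, ht] using e'), h7]
    · have h10 := h8 (p⁻¹ * t * p) (by simpa only [map_mul, map_inv, ht] using e')
      rw [map_mul, Module.End.mul_apply] at h10
      rw [← h7, ← h5 (ρ (p⁻¹ * t * p) v), h10]

theorem data [Nontrivial W] (ρ : Representation ℂ G W) (φ : G →* S)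
    (hφ : Function.Injective φ) : Data ρ := by
  obtain ⟨v, hv⟩ := exists_ne (0 : W)
  by_cases e : ∃ c, φ c ^ 3 = 1 ∧ φ c ≠ 1
  swap
  · exact ⟨⊤, 1, 1, v, pgroup φ hφ _ fun x _ => (a1 _).resolve_right fun h => e ⟨x, h⟩,
      by simp, trivial, one_mul 1, fun _ _ _ _ => trivial, hv, fun p _ => by simp⟩
  obtain ⟨c, h3, h1⟩ := e
  by_cases e : ∀ x, Perm.sign (φ x) = 1
  · let Q := (Subgroup.centralizer {(swap 0 1 * swap 2 3 : S), swap 0 2 * swap 1 3}).comap φ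
    have hQ : ∀ x, x ∈ Q ↔ swap 0 1 * swap 2 3 * φ x = φ x * (swap 0 1 * swap 2 3) ∧
        swap 0 2 * swap 1 3 * φ x = φ x * (swap 0 2 * swap 1 3) := fun x => by
      simp [Q, Subgroup.mem_centralizer_iff]
    have h2 := pgroup φ hφ Q fun x hx => by
      exact (pow_mul _ 2 2).trans (by rw [(a3 _ 1 ((hQ x).1 hx).1 ((hQ x).1 hx).2).1, one_pow])
    refine ⟨Q, 1, 1, v, h2, index_dvd φ hφ Q h2 fun P _ h x hx => ?_, one_mem _, one_mul 1,
      fun g _ p hp => ?_, hv, fun p _ => by simp⟩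
    · exact (hQ x).2 ((a2 _ (e x)).resolve_left fun h' => h'.2 (h x hx h'.1))
    · rw [hQ, map_mul, map_mul, map_inv]
      exact (a3 _ _ ((hQ p).1 hp).1 ((hQ p).1 hp).2).2
  · push Not at e
    obtain ⟨o, ho⟩ := e
    obtain ⟨g, hg⟩ := a4 _ _ h3 h1 ho
    let ψ : G →* S := (MulAut.conj g).toMonoidHom.comp φ
    have hψ : Function.Injective ψ := (MulAut.conj g).injective.comp hφ
    have h4 : ψ c ^ 3 = 1 := by
      change MulAut.conj g (φ c) ^ 3 = 1
      rw [← map_pow, h3, map_one]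
    have h5 : ψ c ≠ 1 := fun h => h1 ((MulAut.conj g).injective (h.trans (map_one _).symm))
    rcases hg with hg | hg | hg
    · exact data_swap ρ ψ hψ (t := o) h4 h5 hg
    · exact data_swap ρ ψ hψ (t := c * o) h4 h5 (by rwa [← map_mul] at hg)
    · exact data_swap ρ ψ hψ (t := c * c * o) h4 h5 (by rwa [← map_mul, ← map_mul] at hg)

theorem data_irr (ρ : Representation ℂ G W) (hρ : ρ.IsIrreducible) (φ : G →* S)
    (hφ : Function.Injective φ) : Data ρ := by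
  have : Nontrivial W := by
    by_contra h
    have := not_nontrivial_iff_subsingleton.1 h
    obtain ⟨a, b, hab⟩ := hρ.toNontrivial
    exact hab (Subrepresentation.toSubmodule_injective (Subsingleton.elim _ _))
  exact data ρ φ hφ

omit [Finite G] in
lemma sum_single [Fintype G] [DecidableEq G] (ρ : Representation ℂ G W) (p : G) (w : W) :
    ∑ g, (((Pi.single 1 1 : G → ℤ) g : ℤ) : ℂ) • ρ (g * p) w = ρ p w := by
  rw [Finset.sum_eq_single 1]
  · simp
  · intro g _ hg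
    simp [hg]
  · simp

end Pool.Agent.Lib.MP_775b3b_nt.S4
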