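import Pool.Agent.Lib.MP_775b3b_nt.IntP2

/-! The order `Ord p e k` and the maximal order `intP p (Cub e k)`. -/

namespace Pool.Agent.Lib.MP_775b3b_nt

open MP_439fea_co Cub

variable {e : ℤ × ℤ} {p : Nat.Primes}

section Ring

variable {k k' : Type*} [CommRing k] [CommRing k']

theorem th_mem_Ord : (th : Cub e k) ∈ Ord p e k :=
  ⟨(intP p k).zero_mem, (intP p k).one_mem, (intP p k).zero_mem⟩

theorem smul_mem_Ord {a : k} {x : Cub e k} (ha : a ∈ intP p k) (hx : x ∈ Ord p e k) :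
    a • x ∈ Ord p e k :=
  ⟨(intP p k).mul_mem ha hx.1, (intP p k).mul_mem ha hx.2.1, (intP p k).mul_mem ha hx.2.2⟩

theorem map_mem_Ord (f : k →+* k') {x : Cub e k} (hx : x ∈ Ord p e k) : map f x ∈ Ord p e k' :=
  ⟨map_mem_intP f hx.1, map_mem_intP f hx.2.1, map_mem_intP f hx.2.2⟩

theorem mem_Ord_of_map {f : k →+* k'} (hf : Function.Injective f) {x : Cub e k}
    (hx : map f x ∈ Ord p e k') : x ∈ Ord p e k :=
  ⟨mem_intP_of_map hf hx.1, mem_intP_of_map hf hx.2.1, mem_intP_of_map hf hx.2.2⟩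

theorem ordp_lift {x : Cub e k} (hx : x ∈ Ord p e k) :
    ∃ x' : Cub e (intP p k), map (intP p k).subtype x' = x :=
  ⟨⟨⟨_, hx.1⟩, ⟨_, hx.2.1⟩, ⟨_, hx.2.2⟩⟩, rfl⟩

theorem nm_mem_intP {x : Cub e k} (hx : x ∈ Ord p e k) : nm x ∈ intP p k := by
  obtain ⟨x, rfl⟩ := ordp_lift hx
  rw [nm_map]
  exact (nm x).2

theorem cross_mem_Ord {x y : Cub e k} (hx : x ∈ Ord p e k) (hy : y ∈ Ord p e k) :
    cross x y ∈ Ord p e k := by
  obtain ⟨x, rfl⟩ := ordp_lift hx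
  obtain ⟨y, rfl⟩ := ordp_lift hy
  rw [cross_map]
  exact ⟨(cross x y).c0.2, (cross x y).c1.2, (cross x y).c2.2⟩

/-- `th_cube` -/
theorem isIntegral_th : IsIntegral ℤ (th : Cub e k) := by
  refine ⟨Polynomial.X ^ 3 + (Polynomial.C e.1 * Polynomial.X + Polynomial.C e.2), by monicity!, ?_⟩
  rw [Polynomial.eval₂_add, Polynomial.eval₂_add, Polynomial.eval₂_mul, Polynomial.eval₂_X_pow,
    Polynomial.eval₂_X, Polynomial.eval₂_C, Polynomial.eval₂_C, eq_intCast, eq_intCast, ← add_assoc]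
  exact th_cube

/-- `eq_coords` -/
theorem Ord_le_intP : Ord p e k ≤ intP p (Cub e k) := by
  intro x hx
  have ht : (th : Cub e k) ∈ intP p (Cub e k) := mem_intP_of_isIntegral isIntegral_th
  have hs : ∀ {a : k} {y : Cub e k}, a ∈ intP p k → y ∈ intP p (Cub e k) →
      a • y ∈ intP p (Cub e k) := fun ha hy => by
    rw [Algebra.smul_def]
    exact mul_mem (map_mem_intP _ ha) hy
  rw [eq_coords x]
  exact add_mem (add_mem (hs hx.1 (one_mem _)) (hs hx.2.1 ht)) (hs hx.2.2 (mul_mem ht ht))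

end Ring

variable {k : Type*} [Field k] [NumberField k]

/-- pass to `AlgebraicClosure k`, `exists_roots`, `Roots.tr_eq` -/
theorem tr_mem_intP {x : Cub e k} (hx : x ∈ intP p (Cub e k)) : tr x ∈ intP p k := by
  obtain ⟨r, h⟩ := exists_roots e (AlgebraicClosure k)
  refine mem_intP_of_map (algebraMap k (AlgebraicClosure k)).injective ?_
  have h1 := map_mem_intP (map (algebraMap k (AlgebraicClosure k))) hx
  rw [← tr_map, h.tr_eq]
  exact add_mem (add_mem (map_mem_intP _ h1) (map_mem_intP _ h1)) (map_mem_intP _ h1)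

theorem ordp_c2 {x : Cub e k} (hx : x ∈ intP p (Cub e k)) :
    ((disc e : ℤ) : k) * x.c2 ∈ intP p k := by
  have hw : (⟨((4 * e.1 ^ 2 : ℤ) : k), ((-9 * e.2 : ℤ) : k), ((6 * e.1 : ℤ) : k)⟩ : Cub e k) ∈
      Ord p e k := ⟨intCast_mem _ _, intCast_mem _ _, intCast_mem _ _⟩
  have h := tr_mem_intP (mul_mem hx (Ord_le_intP hw))
  convert h using 1
  simp [tr, disc]
  ring

/-- `Roots.c2_eq`, `Roots.disc_eq` give the top coordinate of `disc • x`; then `c1_eq`, `c0_eq` -/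
theorem disc_smul_mem_Ord {x : Cub e k} (hx : x ∈ intP p (Cub e k)) :
    ((disc e : ℤ) : k) • x ∈ Ord p e k := by
  have ht : (th : Cub e k) ∈ intP p (Cub e k) := mem_intP_of_isIntegral isIntegral_th
  refine ⟨?_, ?_, ordp_c2 hx⟩
  · have h := add_mem (ordp_c2 (mul_mem hx (mul_mem ht ht)))
      (mul_mem (intCast_mem (intP p k) e.1) (ordp_c2 hx))
    convert h using 1
    rw [smul_c0, smul_eq_mul, c0_eq]
    ring
  · rw [smul_c1, smul_eq_mul, c1_eq]
    exact ordp_c2 (mul_mem hx ht)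

theorem ordp_det {x y z : Cub e k} (hx : x ∈ intP p (Cub e k)) (hy : y ∈ intP p (Cub e k))
    (hz : z ∈ intP p (Cub e k)) : det3 x y z ^ 2 * ((disc e : ℤ) : k) ∈ intP p k := by
  rw [← neg_mem_iff, ← det_tr, Matrix.det_fin_three]
  have t : ∀ a b : Cub e k, a ∈ intP p (Cub e k) → b ∈ intP p (Cub e k) → tr (a * b) ∈ intP p k :=
    fun a b ha hb => tr_mem_intP (mul_mem ha hb)
  exact sub_mem (add_mem (add_mem (sub_mem (sub_mem
    (mul_mem (mul_mem (t _ _ hx hx) (t _ _ hy hy)) (t _ _ hz hz))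
    (mul_mem (mul_mem (t _ _ hx hx) (t _ _ hy hz)) (t _ _ hz hy)))
    (mul_mem (mul_mem (t _ _ hx hy) (t _ _ hy hx)) (t _ _ hz hz)))
    (mul_mem (mul_mem (t _ _ hx hy) (t _ _ hy hz)) (t _ _ hz hx)))
    (mul_mem (mul_mem (t _ _ hx hz) (t _ _ hy hx)) (t _ _ hz hy)))
    (mul_mem (mul_mem (t _ _ hx hz) (t _ _ hy hy)) (t _ _ hz hx))

theorem ordp_val_one (v : P k) (hv : val v ((p : ℕ) : k) < 1) {m : ℤ} (hm : ¬ ((p : ℕ) : ℤ) ∣ m) :
    val v (m : k) = 1 := by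
  have h1 : val v ((m.natAbs : ℕ) : k) = 1 := le_antisymm (val_natCast_le_one v _)
    (not_lt.1 fun h => hm (Int.natCast_dvd.2 ((val_natCast_lt_one_iff v p.2 hv _).1 h)))
  rcases Int.natAbs_eq m with h | h
  · rw [h, Int.cast_natCast, h1]
  · rw [h, Int.cast_neg, Int.cast_natCast, Valuation.map_neg, h1]

theorem ordp_sq {N : ℕ} (hU : Unr k N) (hp : ¬ Bad N e p) {c : k}
    (hc : c ^ 2 * ((disc e : ℤ) : k) ∈ intP p k) : c ∈ intP p k := by
  rw [mem_intP_iff_val] at hc ⊢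
  intro v hv
  have h1 := hc v hv
  have h2 : WithZero.exp (-1 : ℤ) ≤ val v ((disc e : ℤ) : k) := by
    by_cases h : ((p : ℕ) : ℤ) ∣ disc e
    · obtain ⟨m, hm⟩ := h
      have hm' : ¬ ((p : ℕ) : ℤ) ∣ m := fun h' => hp (Or.inr (by
        rw [hm, sq]
        exact mul_dvd_mul_left _ h'))
      rw [hm, Int.cast_mul, map_mul, ordp_val_one v hv hm', mul_one, Int.cast_natCast,
        hU v p (fun h' => hp (Or.inl h')) hv]
    · rw [ordp_val_one v hv h, ← WithZero.exp_zero, WithZero.exp_le_exp]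
      norm_num
  rcases eq_or_ne c 0 with rfl | h0
  · simp
  rw [map_mul, map_pow] at h1
  have h3 := (mul_le_mul_right h2 _).trans h1
  rw [val_eq_exp v h0, ← WithZero.exp_zero] at h3 ⊢
  rw [sq, ← WithZero.exp_add, ← WithZero.exp_add] at h3
  rw [WithZero.exp_le_exp] at h3 ⊢
  omega

/-- Suppose some coordinate `c j` has `val v (c j) > 1`, i.e. `≥ exp 1`, for a `v` above `p`.
`det_tr` for `x` and the two `θ^i`, `i ≠ j` (`det3 = ± c j`) and `tr_mem_intP` give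
`val v (c j ^ 2 * disc e) ≤ 1`, so `val v (disc e) ≤ exp (-2)`; but `p^2 ∤ disc e` and `Unr` give
`val v (disc e) ≥ exp (-1)`. -/
theorem intP_le_Ord {N : ℕ} (hU : Unr k N) (hp : ¬ Bad N e p) :
    intP p (Cub e k) ≤ Ord p e k := by
  intro x hx
  have ht : (th : Cub e k) ∈ intP p (Cub e k) := mem_intP_of_isIntegral isIntegral_th
  have h0 := ordp_sq hU hp (ordp_det hx ht (mul_mem ht ht))
  have h1 := ordp_sq hU hp (ordp_det (one_mem _) hx (mul_mem ht ht))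
  have h2 := ordp_sq hU hp (ordp_det (one_mem _) ht hx)
  exact ⟨by simpa [det3] using h0, by simpa [det3] using h1, by simpa [det3] using h2⟩

theorem ordp_pow (hd : disc e ≠ 0) : ∃ a : ℕ, ∀ y ∈ intP p (Cub e k),
    ((p : ℕ) : Cub e k) ^ a * y ∈ Ord p e k := by
  obtain ⟨a, m, hm, h⟩ := Nat.exists_eq_pow_mul_and_not_dvd (Int.natAbs_ne_zero.2 hd) p p.2.ne_one
  refine ⟨a, fun y hy => ?_⟩
  have h1 : (((disc e).natAbs : ℕ) : k) • y ∈ Ord p e k := by
    have h2 := disc_smul_mem_Ord hy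
    rcases Int.natAbs_eq (disc e) with h3 | h3
    · rwa [h3, Int.cast_natCast] at h2
    · rwa [h3, Int.cast_neg, Int.cast_natCast, neg_smul, neg_mem_iff] at h2
  have h2 := smul_mem_Ord (inv_natCast_mem_intP (R := k) hm) h1
  have hm0 : (m : k) ≠ 0 := Nat.cast_ne_zero.2 fun e => hm (e ▸ dvd_zero _)
  rwa [smul_smul, h, map_inv₀, map_natCast, Nat.cast_mul, mul_left_comm, inv_mul_cancel₀ hm0, mul_one,
    Algebra.smul_def, map_natCast, Nat.cast_pow] at h2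

/-- write `disc e = ± p^a m`, `p ∤ m`; use `stq` at `n + a` -/
theorem stq_intP_le (hd : disc e ≠ 0) : stq p (intP p (Cub e k)) ≤ stq p (Ord p e k) := by
  obtain ⟨a, ha⟩ := ordp_pow (p := p) (k := k) hd
  intro d h n
  obtain ⟨z, y, hy, y', hy', h1, h2⟩ := h (n + a)
  exact ⟨z, _, ha y hy, _, ha y' hy', by rw [h1, pow_add, mul_assoc], by rw [h2, pow_add, mul_assoc]⟩

theorem ordp_den (x : Cub e k) : ∃ M : ℕ, M ≠ 0 ∧ ∀ p : Nat.Primes, ¬ (p : ℕ) ∣ M → x ∈ Ord p e k := by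
  obtain ⟨m0, h0, i0⟩ := exists_mul_isIntegral x.c0
  obtain ⟨m1, h1, i1⟩ := exists_mul_isIntegral x.c1
  obtain ⟨m2, h2, i2⟩ := exists_mul_isIntegral x.c2
  exact ⟨m0 * m1 * m2, mul_ne_zero (mul_ne_zero h0 h1) h2, fun p hp =>
    ⟨⟨m0, fun h => hp ((h.mul_right _).mul_right _), i0⟩,
      ⟨m1, fun h => hp ((h.mul_left _).mul_right _), i1⟩, ⟨m2, fun h => hp (h.mul_left _), i2⟩⟩⟩

/-- `z p = 1` when `d, d⁻¹ ∈ Ord p` (all `p` not dividing a common denominator of the six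
coordinates), otherwise a witness of `usq (Ord p)` (`intP_le_Ord` at good `p`, `stq_intP_le` with
`n = 0` at bad `p`) -/
theorem exists_loc {N : ℕ} (hU : Unr k N) (hd : disc e ≠ 0) {d : (Cub e k)ˣ}
    (h : d ∈ Sel1 N e k) : ∃ z, Loc d z := by
  classical
  obtain ⟨h1, -, h2⟩ := mem_Sel1.1 h
  have h3 : ∀ p : Nat.Primes, d ∈ usq (Ord p e k) := by
    intro p
    by_cases hp : Bad N e p
    · obtain ⟨z, y, hy, y', hy', e1, e2⟩ := stq_intP_le hd (h2 p hp) 0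
      rw [pow_zero, one_mul] at e1 e2
      exact ⟨z, e1 ▸ add_mem (one_mem _) hy, e2 ▸ add_mem (one_mem _) hy'⟩
    · obtain ⟨z, e1, e2⟩ := (mem_Sel.1 h1).2 p hp
      exact ⟨z, intP_le_Ord hU hp e1, intP_le_Ord hU hp e2⟩
  choose w hw using h3
  obtain ⟨M, hM, k1⟩ := ordp_den (d : Cub e k)
  obtain ⟨M', hM', k2⟩ := ordp_den ((d⁻¹ : (Cub e k)ˣ) : Cub e k)
  refine ⟨fun p => if (p : ℕ) ∣ M * M' then w p else 1, ?_, fun p => ?_⟩
  · have hf : {p : Nat.Primes | (p : ℕ) ∣ M * M'}.Finite :=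
      (Set.finite_Iic (M * M')).preimage (f := fun p : Nat.Primes => (p : ℕ))
        Nat.Primes.coe_nat_injective.injOn |>.subset
        fun p hp => Nat.le_of_dvd (Nat.pos_of_ne_zero (mul_ne_zero hM hM')) hp
    refine ((hf.image w).insert 1).subset ?_
    rintro _ ⟨p, rfl⟩
    by_cases hp : (p : ℕ) ∣ M * M'
    · exact Or.inr ⟨p, hp, (if_pos hp).symm⟩
    · exact Or.inl (if_neg hp)
  · by_cases hp : (p : ℕ) ∣ M * M'
    · simp only [if_pos hp]
      exact hw p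
    · simp only [if_neg hp, one_pow, mul_one]
      exact ⟨k1 p fun h => hp (h.mul_right _), k2 p fun h => hp (h.mul_left _)⟩

end Pool.Agent.Lib.MP_775b3b_nt
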