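import Pool.Agent.Lib.MP_775b3b_nt.ZMain2

namespace Pool.Agent.Lib.MP_775b3b_nt.RankZeroOld


/-- Let `F / ℚ` be Galois of odd discriminant, with a normal 2-subgroup of index one or three in
the Galois group.  A positive proportion of the curves `y^2 = x^3 + A x + B` ordered by height have
only finitely many points over `F`. -/
theorem result (F : Type) [Field F] [NumberField F] [IsGalois ℚ F]
    (H : Subgroup (F ≃ₐ[ℚ] F)) [H.Normal] (h2 : IsPGroup 2 H) (h3 : H.index ∣ 3)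
    (hodd : Odd (NumberField.discr F)) :
    ∃ c : ℝ, 0 < c ∧ ∃ X₀ : ℝ, ∀ X : ℝ, X₀ ≤ X → ∀ S : Finset (ℤ × ℤ),
      (∀ e : ℤ × ℤ, e ∈ S ↔ 4 * e.1 ^ 3 + 27 * e.2 ^ 2 ≠ 0 ∧
        (∀ p : ℕ, p.Prime → ¬ ((p : ℤ) ^ 4 ∣ e.1 ∧ (p : ℤ) ^ 6 ∣ e.2)) ∧
        ((max (4 * |e.1| ^ 3) (27 * e.2 ^ 2) : ℤ) : ℝ) < X) →
      c * S.card ≤ {e : ℤ × ℤ | e ∈ S ∧ Finite
        (⟨0, 0, 0, (e.1 : F), (e.2 : F)⟩ : WeierstrassCurve F).toAffine.Point}.ncard := by
  classical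
  have : Fact (Nat.Prime 2) := ⟨Nat.prime_two⟩
  obtain ⟨j, hj⟩ := IsPGroup.iff_card.1 h2
  have key : ∃ (m : ℕ) (c : ℝ) (T₀ : ℕ), 0 < c ∧
      ∀ T : ℕ, T₀ ≤ T → ∃ E ⊆ box T, c * (T : ℝ) ^ 5 ≤ E.card ∧ ∀ e ∈ E, ∃ d : ℕ, 1 ≤ d ∧
        d ≤ m ∧ Module.finrank ℤ (crv (tw e d) F).toAffine.Point = 0 ∧
        ∀ p : ℕ, p.Prime → ¬ ((p : ℤ) ^ 4 ∣ (tw e d).1 ∧ (p : ℤ) ^ 6 ∣ (tw e d).2) := by
    rcases (Nat.dvd_prime Nat.prime_three).1 h3 with h3 | h3
    · refine many_rank_zero_two (j := j) ?_ hodd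
      rw [← IsGalois.card_aut_eq_finrank ℚ F, ← H.index_mul_card, h3, hj, one_mul]
    · have : IsGalois ℚ (IntermediateField.fixedField H) :=
        IsGalois.of_fixedField_normal_subgroup H
      have hF : Module.finrank (IntermediateField.fixedField H) F = 2 ^ j := by
        rw [IntermediateField.finrank_fixedField_eq_card, hj]
      have hK : Module.finrank ℚ (IntermediateField.fixedField H) = 3 := by
        have h1 := Module.finrank_mul_finrank ℚ (IntermediateField.fixedField H) F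
        rw [hF, ← IsGalois.card_aut_eq_finrank ℚ F, ← H.index_mul_card, h3, hj] at h1
        exact Nat.eq_of_mul_eq_mul_right (Nat.two_pow_pos j) h1
      exact many_rank_zero hK hF hodd
  obtain ⟨m, c, T₀, hc, h⟩ := key
  obtain ⟨c', hc', X₀, hX⟩ := density
    (fun e => Module.finrank ℤ (crv e F).toAffine.Point = 0) hc h
  refine ⟨c', hc', X₀, fun X h1 S hS => (hX X h1 S hS).trans (Nat.cast_le.2 ?_)⟩
  rw [← Set.ncard_coe_finset]
  refine Set.ncard_le_ncard (fun e he => ?_) (S.finite_toSet.subset fun e he => he.1)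
  simp only [Finset.coe_filter, Set.mem_ofPred_eq] at he
  obtain ⟨h4, h5⟩ := he
  exact ⟨h4, finite_of_rank_zero ((hS e).1 h4).1 h5⟩

end Pool.Agent.Lib.MP_775b3b_nt.RankZeroOld
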