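import Pool.Agent.Lib.MP_775b3b_nt.RedLat
import Pool.Agent.Lib.MP_775b3b_nt.RedCx
import Pool.Agent.Lib.MP_775b3b_nt.Coord
import Pool.Agent.Lib.MP_775b3b_nt.Mink
import Pool.Agent.Lib.MP_775b3b_nt.Mink2

/-! Reduction theory. -/

namespace Pool.Agent.Lib.MP_775b3b_nt

open Cub NumberField

variable (k : Type*) [Field k] [NumberField k]

section aux

variable {k} {e : ℤ × ℤ} {T : ℝ} {d : (Cub e k)ˣ} {ν : k} {z : Nat.Primes → (Cub e k)ˣ}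
  {ε : (k →+* ℂ) → Cub e ℂ}

theorem red_lower (hT : 0 < T) (h : Loc d z) (hε : Eps (d : Cub e k) ν ε) : ∃ δ : ℝ, 0 < δ ∧
    ∀ x : Cub e k, InLat z x → x ≠ 0 → δ ≤ ‖fun σ => im T ε σ x‖ := by
  choose m hm hl using h.exists_mul
  let y : Fin 3 → Cub e k := ![1, th, th * th]
  let M : ℝ := ‖fun i σ => im T ε σ ((m (y i) : k) • y i)‖
  have hM : 0 ≤ M := norm_nonneg _
  refine ⟨1 / (3 * M + 1), by positivity, fun x hx h0 => ?_⟩
  obtain ⟨i, hi⟩ : ∃ i, Bf (d : Cub e k) x (y i) ≠ 0 := by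
    by_contra hc
    push Not at hc
    have h2 : ((d : Cub e k) * x).c2 = 0 := by
      have := hc 0
      rwa [Bf, show y 0 = 1 from rfl, mul_one] at this
    have h3 : (d : Cub e k) * x = 0 := by
      ext
      · rw [c0_eq, h2, mul_zero, add_zero]
        exact hc 2
      · rw [c1_eq]
        exact hc 1
      · exact h2
    exact h0 ((Units.mul_right_eq_zero d).1 h3)
  obtain ⟨σ, hσ⟩ := exists_one_le k (h.isIntegral_Bf hx (hl (y i))) (by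
    rw [Bf_smul_right]
    exact mul_ne_zero (Nat.cast_ne_zero.2 (hm _)) hi)
  rw [← hε.sB_im hT.ne'] at hσ
  have h1 : ‖im T ε σ x‖ ≤ ‖fun σ => im T ε σ x‖ := norm_le_pi_norm (fun σ => im T ε σ x) σ
  have h2 : ‖im T ε σ ((m (y i) : k) • y i)‖ ≤ M :=
    (norm_le_pi_norm (fun σ => im T ε σ ((m (y i) : k) • y i)) σ).trans
      (norm_le_pi_norm (fun i σ => im T ε σ ((m (y i) : k) • y i)) i)
  have h3 := hσ.trans ((norm_sB_le _ _).trans (mul_le_mul (mul_le_mul_of_nonneg_left h1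
    zero_le_three) h2 (norm_nonneg _) (by positivity)))
  rw [div_le_iff₀ (by positivity)]
  nlinarith [norm_nonneg fun σ => im T ε σ x]

theorem red_min (hT : 0 < T) (h : Loc d z) (hε : Eps (d : Cub e k) ν ε)
    (hx : ∃ x : Cub e k, x ≠ 0 ∧ Bf (d : Cub e k) x x = 0) :
    ∃ v : Cub e k, InLat z v ∧ v ≠ 0 ∧ Bf (d : Cub e k) v v = 0 ∧
      ∀ x : Cub e k, InLat z x → x ≠ 0 → Bf (d : Cub e k) x x = 0 →
        ‖fun σ => im T ε σ v‖ ≤ 2 * ‖fun σ => im T ε σ x‖ := by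
  obtain ⟨δ, hδ, h1⟩ := red_lower hT h hε
  obtain ⟨x, h0, hx⟩ := hx
  obtain ⟨m, hm, hl⟩ := h.exists_mul x
  let S : Set ℝ := {t | ∃ x : Cub e k, (InLat z x ∧ x ≠ 0 ∧ Bf (d : Cub e k) x x = 0) ∧
    ‖fun σ => im T ε σ x‖ = t}
  have hS : S.Nonempty := ⟨_, (m : k) • x, ⟨hl, smul_ne_zero (Nat.cast_ne_zero.2 hm) h0, by
    rw [Bf_smul_left, Bf_smul_right, hx, mul_zero, mul_zero]⟩, rfl⟩
  have h2 : δ ∈ lowerBounds S := by
    rintro _ ⟨x, hx, rfl⟩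
    exact h1 x hx.1 hx.2.1
  have h3 := le_csInf hS h2
  obtain ⟨_, ⟨v, hv, rfl⟩, h4⟩ := exists_lt_of_csInf_lt hS (by linarith : sInf S < 2 * sInf S)
  exact ⟨v, hv.1, hv.2.1, hv.2.2, fun x a b c => h4.le.trans
    (mul_le_mul_of_nonneg_left (csInf_le ⟨δ, h2⟩ ⟨x, ⟨a, b, c⟩, rfl⟩) zero_le_two)⟩

end aux

/-- Let `τ x = ‖fun σ => im T ε σ x‖` (the maximum over `σ`) on the nonempty set of nonzero
isotropic lattice vectors.  It is bounded below by a positive number (`Bf x y` is a nonzero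
algebraic integer for one of three fixed lattice vectors `y`; `exists_one_le`, `norm_sB_le`), so
some `v0` has `τ v0 ≤ 2 τ x` for all `x`.  With `b` from `Loc.exists_ideal`, `C₁` from
`exists_mink`, `n = card (k →+* ℂ)`, `s^n = C₁ * (∏ σ, ‖im σ v0‖) / absNorm b`,
`c σ = s / ‖im σ v0‖`: the vector `a • v0` is in the lattice (`Loc.dual`), so `τ v0 ≤ 2 s`.
Hence `absNorm b ≤ 2^n C₁` and `τ v0 ≤ 2^n C₁ ‖im σ v0‖` for all `σ`; `n₁ = ⌈2^n C₁⌉₊ !` is a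
multiple of `absNorm b ∈ b` (`Ideal.absNorm_mem`). -/
theorem exists_short : ∃ (n₁ : ℕ) (C : ℝ), n₁ ≠ 0 ∧ 1 ≤ C ∧ ∀ (e : ℤ × ℤ) (T : ℝ), 0 < T →
    ∀ (d : (Cub e k)ˣ) (ν : k) (z : Nat.Primes → (Cub e k)ˣ) (ε : (k →+* ℂ) → Cub e ℂ),
    nm (d : Cub e k) = ν ^ 2 → Loc d z → Eps (d : Cub e k) ν ε →
    (∃ x : Cub e k, x ≠ 0 ∧ Bf (d : Cub e k) x x = 0) →
    ∃ (v0 w : Cub e k) (τ : ℝ), InLat z v0 ∧ InLat z w ∧ Bf (d : Cub e k) v0 v0 = 0 ∧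
      Bf (d : Cub e k) v0 w = n₁ ∧ 0 < τ ∧
      (∀ σ, ‖im T ε σ v0‖ ≤ τ ∧ τ ≤ C * ‖im T ε σ v0‖) ∧
      ∀ x : Cub e k, InLat z x → x ≠ 0 → Bf (d : Cub e k) x x = 0 →
        ∃ σ, τ ≤ 2 * ‖im T ε σ x‖ := by
  classical
  obtain ⟨C₁, hC₁, hm⟩ := exists_mink k
  set n := Fintype.card (k →+* ℂ) with hn
  have n0 : 0 < n := Fintype.card_pos
  have hC : (1 : ℝ) ≤ 2 ^ n * C₁ := one_le_mul_of_one_le_of_one_le (one_le_pow₀ one_le_two) hC₁
  refine ⟨⌈2 ^ n * C₁⌉₊.factorial, 2 ^ n * C₁, Nat.factorial_ne_zero _, hC,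
    fun e T hT d ν z ε hν h hε hx => ?_⟩
  obtain ⟨v, hv, v0, hiso, hmin⟩ := red_min hT h hε hx
  have ν0 : ν ≠ 0 := fun h0 => nm_ne_zero d (by rw [hν, h0, zero_pow two_ne_zero])
  have hpos : ∀ σ, 0 < ‖im T ε σ v‖ := fun σ => norm_pos_iff.2 (hε.im_ne_zero ν0 hT.ne' σ v0)
  set τ := ‖fun σ => im T ε σ v‖ with hτ
  have hle : ∀ σ, ‖im T ε σ v‖ ≤ τ := norm_le_pi_norm fun σ => im T ε σ v
  have τ0 : 0 < τ := (hpos (Classical.arbitrary _)).trans_le (hle _)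
  obtain ⟨b, hb, hb'⟩ := h.exists_ideal hv v0
  have N0 : 0 < Ideal.absNorm b := Nat.pos_of_ne_zero fun h0 => hb (Ideal.absNorm_eq_zero_iff.1 h0)
  have N1 : (1 : ℝ) ≤ Ideal.absNorm b := by exact_mod_cast N0
  set P := ∏ σ, ‖im T ε σ v‖ with hP
  have P0 : 0 < P := Finset.prod_pos fun σ _ => hpos σ
  obtain ⟨s, s0, hs⟩ : ∃ s : ℝ, 0 < s ∧ s ^ n = C₁ * P / Ideal.absNorm b :=
    ⟨_, Real.rpow_pos_of_pos (by positivity) _, Real.rpow_inv_natCast_pow (by positivity) n0.ne'⟩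
  obtain ⟨a, a0, ha, ha'⟩ := hm b hb (fun σ => s / ‖im T ε σ v‖)
    (fun σ => div_pos s0 (hpos σ)) (fun σ => by
      rw [show im T ε (ComplexEmbedding.conjugate σ) v = star (im T ε σ v) from
        funext (hε.im_conj σ v), norm_star]) (le_of_eq (by
      rw [Finset.prod_div_distrib, Finset.prod_const, Finset.card_univ, ← hn, ← hP, hs]
      field_simp))
  have h1 : τ ≤ 2 * s := by
    refine (hmin (a • v) (h.dual fun y hy => ?_) (smul_ne_zero a0 v0) (by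
      rw [Bf_smul_left, Bf_smul_right, hiso, mul_zero, mul_zero])).trans
      (mul_le_mul_of_nonneg_left ((pi_norm_le_iff_of_nonneg s0.le).2 fun σ => ?_) zero_le_two)
    · obtain ⟨r, hr, h2⟩ := (hb' _).2 ⟨y, hy, rfl⟩
      rw [Bf_smul_left, ← h2]
      exact ha r hr
    · rw [im_smul, norm_smul]
      exact (le_div_iff₀ (hpos σ)).1 (ha' σ)
  have h2 : τ ^ n * Ideal.absNorm b ≤ 2 ^ n * C₁ * P := by
    have h3 := pow_le_pow_left₀ τ0.le h1 n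
    rwa [mul_pow, hs, ← mul_div_assoc, le_div_iff₀ (by positivity), ← mul_assoc] at h3
  have h3 : ∀ σ, P ≤ τ ^ (n - 1) * ‖im T ε σ v‖ := fun σ => by
    rw [hP, ← Finset.prod_erase_mul _ _ (Finset.mem_univ σ)]
    refine mul_le_mul_of_nonneg_right ((Finset.prod_le_prod (fun _ _ => norm_nonneg _)
      fun σ _ => hle σ).trans (le_of_eq ?_)) (norm_nonneg _)
    rw [Finset.prod_const, Finset.card_erase_of_mem (Finset.mem_univ _), Finset.card_univ]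
  have h4 : τ ^ n = τ ^ (n - 1) * τ := by rw [← pow_succ, Nat.sub_add_cancel n0]
  have h5 : ∀ σ, τ * Ideal.absNorm b ≤ 2 ^ n * C₁ * ‖im T ε σ v‖ := fun σ => by
    refine le_of_mul_le_mul_left ?_ (pow_pos τ0 (n - 1))
    rw [← mul_assoc, ← h4, mul_left_comm]
    exact h2.trans (mul_le_mul_of_nonneg_left (h3 σ) (by positivity))
  have h6 : (Ideal.absNorm b : ℝ) ≤ 2 ^ n * C₁ := by
    refine le_of_mul_le_mul_left ?_ τ0
    rw [mul_comm τ (_ * _)]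
    exact (h5 (Classical.arbitrary _)).trans (mul_le_mul_of_nonneg_left (hle _) (by positivity))
  obtain ⟨q, hq⟩ := Nat.dvd_factorial N0 (Nat.cast_le.1 (h6.trans (Nat.le_ceil _)))
  obtain ⟨w, hw, hw'⟩ := (hb' (⌈2 ^ n * C₁⌉₊.factorial : ℕ)).1 ⟨_, by
    rw [hq, Nat.cast_mul]
    exact b.mul_mem_right _ (Ideal.absNorm_mem b), map_natCast _ _⟩
  refine ⟨v, w, τ, hv, hw, hiso, hw', τ0, fun σ => ⟨hle σ,
    (le_mul_of_one_le_right τ0.le N1).trans (h5 σ)⟩, fun x hx x0 hx' => ?_⟩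
  obtain ⟨σ, hσ⟩ := Finite.exists_max fun σ => ‖im T ε σ x‖
  exact ⟨σ, (hmin x hx x0 hx').trans (mul_le_mul_of_nonneg_left
    ((pi_norm_le_iff_of_nonneg (norm_nonneg _)).2 hσ) zero_le_two)⟩

end Pool.Agent.Lib.MP_775b3b_nt
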