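import Pool.Agent.Lib.MP_775b3b_nt.UPoint
import Pool.Agent.Lib.MP_775b3b_nt.LGCount
import Pool.Agent.Lib.MP_775b3b_nt.Red2
import Pool.Agent.Lib.MP_775b3b_nt.Det
import Pool.Agent.Lib.MP_775b3b_nt.Gal2
import Pool.Agent.Lib.MP_775b3b_nt.Iso
import Pool.Agent.Lib.MP_775b3b_nt.Om2

/-! Counting the classes over the cubic field that are killed by corestriction. -/

namespace Pool.Agent.Lib.MP_775b3b_nt

open Cub

/-- the translation attached to three natural numbers -/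
def ucount_u {K : Type} [Field K] (ω : Fin 3 → K) (m : Fin 3 → ℕ) : K := ∑ i, (m i : K) * ω i

theorem ucount_int {K : Type} [Field K] {ω : Fin 3 → K} (h : ∀ i, IsIntegral ℤ (ω i))
    (m : Fin 3 → ℕ) : IsIntegral ℤ (ucount_u ω m) :=
  IsIntegral.sum _ fun i _ => IsIntegral.mul
    (by simpa using isIntegral_algebraMap (R := ℤ) (A := K) (x := (m i : ℤ))) (h i)

theorem ucount_norm {K : Type} [Field K] [NumberField K] (ω : Fin 3 → K) {m : Fin 3 → ℕ} {j : ℕ}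
    (hm : ∀ i, m i < 4 ^ j) (σ : K →+* ℂ) :
    ‖σ (ucount_u ω m)‖ ≤ (∑ τ : K →+* ℂ, ∑ i, ‖τ (ω i)‖) * 4 ^ j := by
  have h1 : ∑ i, ‖σ (ω i)‖ ≤ ∑ τ : K →+* ℂ, ∑ i, ‖τ (ω i)‖ :=
    Finset.single_le_sum (f := fun τ : K →+* ℂ => ∑ i, ‖τ (ω i)‖)
      (fun τ _ => Finset.sum_nonneg fun i _ => norm_nonneg _) (Finset.mem_univ σ)
  refine le_trans ?_ (mul_le_mul_of_nonneg_right h1 (by positivity))
  rw [ucount_u, map_sum, Finset.sum_mul]
  refine (norm_sum_le _ _).trans (Finset.sum_le_sum fun i _ => ?_)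
  rw [map_mul, map_natCast, norm_mul, Complex.norm_natCast, mul_comm]
  exact mul_le_mul_of_nonneg_left (by exact_mod_cast (hm i).le) (norm_nonneg _)

theorem ucount_inj {K : Type} [Field K] [NumberField K] {ω : Fin 3 → K}
    (h : LinearIndependent ℚ ω) {m m' : Fin 3 → ℕ} (e : ucount_u ω m = ucount_u ω m') : m = m' := by
  funext i
  have h1 := Fintype.linearIndependent_iffₛ.1 h (fun i => (m i : ℚ)) (fun i => (m' i : ℚ))
    (by simpa only [Nat.cast_smul_eq_nsmul, nsmul_eq_mul, ucount_u] using e) i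
  exact_mod_cast h1

/-- As `countQ`.  For `x = ⟨e, d⟩` in `(box T).sigma R` choose data (`exists_udata`,
`iso_of_sel1`, `exists_red`) of level `j x`.  Translate by `u = ∑ i, m i * ω i`,
`m : Fin 3 → Fin (4^j)`, `ω` from `exists_dual` (`Red.translate`), and map `(x, m)` to `(s, g, Sm)`
(`exists_upoint`).  Injective: `gvec_eq_of_quart`, `eq_of_gvec` (then `subst`),
`div_mem_SQ_of_gvec`, `Gv_tr1`, `Hyp.Gv_ne_zero`, linear independence of `ω`.  By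
`lg_count_level` for each `s`, `card (level j) * 64^j ≤ 7 C T^5 4^j`; `card_le_of_level`. -/
theorem countU {K Kt : Type} [Field K] [NumberField K] [Field Kt] [NumberField Kt]
    (S : Setup K Kt) {N : ℕ} (h2 : 2 ∣ N) (hU : Unr K N) : ∃ C : ℝ, ∀ T : ℕ, 1 ≤ T →
    ∀ R : (e : ℤ × ℤ) → Finset (Cub e K)ˣ,
      (∀ e ∈ box T, ∀ d ∈ R e, d ∈ (SQ e ℚ).comap (S.cor e) ⊓ Sel1 N e K ∧ d ∉ SQ e K) →
      (∀ e ∈ box T, ∀ d ∈ R e, ∀ d' ∈ R e, d / d' ∈ SQ e K → d = d') →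
      ∑ e ∈ box T, ((R e).card : ℝ) ≤ C * (T : ℝ) ^ 5 := by
  classical
  obtain ⟨N₀, C₀, hN₀, hC₀, Hred⟩ := exists_red K
  obtain ⟨ω, -, -, -, hω, -, hli, -⟩ := S.exists_dual
  have hc₀ : 0 ≤ ∑ τ : K →+* ℂ, ∑ i, ‖τ (ω i)‖ :=
    Finset.sum_nonneg fun τ _ => Finset.sum_nonneg fun i _ => norm_nonneg _
  obtain ⟨c, Rec, hc, Hup⟩ := S.exists_upoint (N := 2 * N₀) (by omega)
    (C := C₀ * (1 + ∑ τ : K →+* ℂ, ∑ i, ‖τ (ω i)‖) ^ 2)
    (one_le_mul_of_one_le_of_one_le hC₀ (one_le_pow₀ (le_add_of_nonneg_right hc₀)))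
  obtain ⟨C₁, hC₁, Hcnt⟩ := lg_count_level c hc
  refine ⟨2 * (7 * C₁), fun T hT R hR1 hR2 => ?_⟩
  have hT0 : (0 : ℝ) < T := by exact_mod_cast hT
  have key : ∀ x : (e : ℤ × ℤ) × (Cub e K)ˣ, ∃ (j : ℕ) (ν : K) (v0 v1 v2 : Cub x.1 K)
      (p : (Fin 3 → ℕ) → Fin 7 × ℤ × Matrix (Fin 4) (Fin 4) ℚ), x ∈ (box T).sigma R →
      Hyp (x.2 : Cub x.1 K) ν v0 v1 v2 ∧ ∀ m : Fin 3 → ℕ, (∀ i, m i < 4 ^ j) →
        LGHyp (dvec j) (c * T / 16 ^ j) (p m).2.1 (p m).2.2 ∧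
        ∀ i, Rec (p m).1 (p m).2.1 (p m).2.2 i = S.emb 0 (quart (x.2 : Cub x.1 K) v0
          (tr1 (ucount_u ω m) v0 v1) (tr2 (ucount_u ω m) v0 v1 v2) (pt5 i).1 (pt5 i).2) := by
    rintro ⟨e, d⟩
    by_cases hx : (⟨e, d⟩ : (e : ℤ × ℤ) × (Cub e K)ˣ) ∈ (box T).sigma R
    · obtain ⟨he, hd⟩ := Finset.mem_sigma.1 hx
      obtain ⟨⟨h3, h4⟩, h5⟩ := hR1 e he d hd
      have hdisc := (mem_box.1 he).2.2
      obtain ⟨γ, ν, z, ε, hu⟩ := S.exists_udata hU hdisc h4 h3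
      obtain ⟨j, v0, v1, v2, hr⟩ := Hred e T hT0 d ν z ε hu.nu hu.loc hu.eps
        (iso_of_sel1 hU h2 hdisc h4)
      have h6 : ∀ m : Fin 3 → ℕ, ∃ p : Fin 7 × ℤ × Matrix (Fin 4) (Fin 4) ℚ, (∀ i, m i < 4 ^ j) →
          LGHyp (dvec j) (c * T / 16 ^ j) p.2.1 p.2.2 ∧
          ∀ i, Rec p.1 p.2.1 p.2.2 i = S.emb 0 (quart (d : Cub e K) v0
            (tr1 (ucount_u ω m) v0 v1) (tr2 (ucount_u ω m) v0 v1 v2) (pt5 i).1 (pt5 i).2) := by
        intro m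
        by_cases hm : ∀ i, m i < 4 ^ j
        · obtain ⟨s, g, Sm, h7⟩ := Hup T hT e he d γ ν z ε j _ _ _ hu
            (hr.translate (ucount_int hω m) hc₀ (ucount_norm ω hm)) (hr.hyp.Gv_ne_zero hdisc h5)
          exact ⟨(s, g, Sm), fun _ => h7⟩
        · exact ⟨(0, 0, 0), fun h => (hm h).elim⟩
      choose p hp using h6
      exact ⟨j, ν, v0, v1, v2, p, fun _ => ⟨hr.hyp, hp⟩⟩
    · exact ⟨0, 0, 0, 0, 0, fun _ => (0, 0, 0), fun h => (hx h).elim⟩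
  choose lev ν v0 v1 v2 p hp using key
  rw [← Nat.cast_sum, ← Finset.card_sigma, mul_assoc]
  refine card_le_of_level _ lev _ (by positivity) fun j => ?_
  obtain ⟨A, hA⟩ : ∃ A, A = (((box T).sigma R).filter fun x => lev x = j) ×ˢ
    Fintype.piFinset fun _ : Fin 3 => Finset.range (4 ^ j) := ⟨_, rfl⟩
  have hm : ∀ a ∈ A, a.1 ∈ (box T).sigma R ∧ lev a.1 = j ∧ ∀ i, a.2 i < 4 ^ lev a.1 := by
    intro a ha
    rw [hA, Finset.mem_product, Finset.mem_filter, Fintype.mem_piFinset] at ha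
    exact ⟨ha.1.1, ha.1.2, fun i => ha.1.2 ▸ Finset.mem_range.1 (ha.2 i)⟩
  have hinj : Set.InjOn (fun a : ((e : ℤ × ℤ) × (Cub e K)ˣ) × (Fin 3 → ℕ) => p a.1 a.2) A := by
    rintro ⟨⟨e, d⟩, m⟩ ha ⟨⟨e', d'⟩, m'⟩ ha' h
    obtain ⟨h3, -, h4⟩ := hm _ ha
    obtain ⟨h3', -, h4'⟩ := hm _ ha'
    obtain ⟨h5, h6⟩ := hp _ h3
    obtain ⟨h5', h6'⟩ := hp _ h3'
    have h' : p ⟨e, d⟩ m = p ⟨e', d'⟩ m' := h
    have hg := gvec_eq_of_quart (h5.translate (ucount_u ω m)) (h5'.translate (ucount_u ω m'))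
      fun i => (S.emb 0).injective (by rw [← (h6 m h4).2 i, ← (h6' m' h4').2 i, h'])
    obtain rfl : e = e' := eq_of_gvec (h5.translate _) (h5'.translate _) hg
    obtain ⟨he, hd⟩ := Finset.mem_sigma.1 h3
    obtain rfl : d = d' := hR2 e he d hd d' (Finset.mem_sigma.1 h3').2
      (div_mem_SQ_of_gvec (h5.translate _) (h5'.translate _) hg)
    have h7 : Gv (d : Cub e K) _ (tr1 (ucount_u ω m) _ _) =
      Gv (d : Cub e K) _ (tr1 (ucount_u ω m') _ _) := congrFun hg 1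
    rw [Gv_tr1, Gv_tr1, add_right_inj] at h7
    rw [ucount_inj hli (mul_right_cancel₀
      (h5.Gv_ne_zero (mem_box.1 he).2.2 (hR1 e he d hd).2) h7)]
  have h3 := Hcnt j T (A.image fun a => (p a.1 a.2).2) hT0.le fun z hz => by
    obtain ⟨a, ha, rfl⟩ := Finset.mem_image.1 hz
    obtain ⟨h3, h4, h5⟩ := hm a ha
    exact h4 ▸ ((hp _ h3).2 _ h5).1
  have h4 : A.card ≤ ((Finset.univ : Finset (Fin 7)) ×ˢ A.image fun a => (p a.1 a.2).2).card :=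
    Finset.card_le_card_of_injOn _ (fun a ha => Finset.mem_coe.2 (Finset.mem_product.2
      ⟨Finset.mem_univ _, Finset.mem_image_of_mem _ ha⟩)) hinj
  rw [Finset.card_product, Finset.card_univ, Fintype.card_fin] at h4
  have h5 : (A.card : ℝ) ≤ 7 * (C₁ * T ^ 5 * 4 ^ j) :=
    le_trans (by exact_mod_cast h4) (mul_le_mul_of_nonneg_left h3 (by norm_num))
  rw [hA, Finset.card_product, Fintype.card_piFinset_const, Finset.card_range] at h5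
  push_cast at h5
  have h6 : (1 : ℝ) ≤ 4 ^ j := one_le_pow₀ (by norm_num)
  rw [le_div_iff₀ (by linarith)]
  refine le_of_mul_le_mul_right (le_trans ?_ (h5.trans_eq (by ring))) (by linarith : (0 : ℝ) < 4 ^ j)
  rw [mul_assoc]
  refine mul_le_mul_of_nonneg_left ?_ (Nat.cast_nonneg _)
  rw [← sq]
  exact pow_le_pow_right₀ h6 (by norm_num)

end Pool.Agent.Lib.MP_775b3b_nt
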