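import Pool.Agent.Lib.MP_775b3b_nt.Frame2
import Pool.Agent.Lib.MP_775b3b_nt.Chart2
import Pool.Agent.Lib.MP_775b3b_nt.LGPrime

/-! The integral point of the Lagrangian cone attached to a reduced class. -/

namespace Pool.Agent.Lib.MP_775b3b_nt

open Cub

variable {K Kt : Type*} [Field K] [NumberField K] [Field Kt] [NumberField Kt] (S : Setup K Kt)

section Aux

open Matrix

variable {R : Type*} [CommRing R]

theorem upoint_lo {p : R → Prop} (h0 : p 0) {w : Fin 3 → R} (hw : ∀ i, p (w i)) (c : Cu) :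
    p (lo w c) ∧ p (hi w c) := by
  rcases cu_cases c with rfl | rfl | rfl | rfl | rfl | rfl | rfl | rfl <;>
    simp only [lo, hi, cb_000, cb_001, cb_010, cb_011, cb_100, cb_101, cb_110, cb_111, h0, hw,
      and_self]

theorem upoint_bot {p : R → Prop} (h0 : p 0) (h1 : p 1) (c : Cu) :
    p (cb 1 0 0 0 0 0 0 0 c) ∧ p (cb 0 0 0 0 0 0 0 1 c) := by
  rcases cu_cases c with rfl | rfl | rfl | rfl | rfl | rfl | rfl | rfl <;>
    simp only [cb_000, cb_001, cb_010, cb_011, cb_100, cb_101, cb_110, cb_111, h0, h1, and_self]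

theorem upoint_Phi_mem (A : AddSubgroup R) (h1 : (1 : R) ∈ A) {W H : Matrix (Fin 3) (Fin 3) R}
    (hW : ∀ i j, W i j ∈ A) (hH : ∀ i j, H i j ∈ A) (l : Fin 4) (c : Cu) :
    PhiX W H l c ∈ A ∧ PhiY W H l c ∈ A := by
  have hb := upoint_bot (p := (· ∈ A)) A.zero_mem h1 c
  have hw := fun j => upoint_lo (p := (· ∈ A)) A.zero_mem (fun i => hW i j) c
  have hh := fun j => upoint_lo (p := (· ∈ A)) A.zero_mem (fun i => hH i j) c
  have hn := fun j => upoint_lo (p := (· ∈ A)) A.zero_mem (fun i => A.neg_mem (hH i j)) c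
  fin_cases l
  exacts [⟨hb.1, hb.2⟩, ⟨(hh 0).2, (hw 0).1⟩, ⟨(hw 1).1, (hn 1).2⟩, ⟨(hw 2).1, (hn 2).2⟩]

theorem upoint_Phi_perm (W H : Matrix (Fin 3) (Fin 3) R) (π : Equiv.Perm (Fin 3)) (l : Fin 4)
    (c : Cu) :
    PhiX (W.submatrix π id) (H.submatrix π id) l c = PhiX W H l (c ∘ π.symm) ∧
      PhiY (W.submatrix π id) (H.submatrix π id) l c = PhiY W H l (c ∘ π.symm) := by
  fin_cases l
  exacts [bot_perm π c, ⟨hi_perm (fun i => H i 0) π c, lo_perm (fun i => W i 0) π c⟩,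
    ⟨lo_perm (fun i => W i 1) π c, hi_perm (fun i => -H i 1) π c⟩,
    ⟨lo_perm (fun i => W i 2) π c, hi_perm (fun i => -H i 2) π c⟩]

theorem upoint_U_map {R' : Type*} [CommRing R'] (f : R →+* R') (s : ℕ) :
    (Us R s).map f = Us R' s ∧ (Ut R s).map f = Ut R' s := by
  constructor <;> ext i j <;> fin_cases i <;> fin_cases j <;> simp [Us, Ut]

theorem upoint_U_int (s : ℕ) (i j : Fin 3) :
    IsIntegral ℤ (Us R s i j) ∧ IsIntegral ℤ (Ut R s i j) := by
  rw [← (upoint_U_map (algebraMap ℤ R) s).1, ← (upoint_U_map (algebraMap ℤ R) s).2]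
  exact ⟨isIntegral_algebraMap, isIntegral_algebraMap⟩

theorem upoint_kron_one : kron (fun l : Fin 3 => G5 R (if l = 0 then 0 else 0)) = 1 := by
  have h : G5 R 0 = 1 := by
    ext i j
    fin_cases i <;> fin_cases j <;> simp [G5]
  ext b c
  simp only [ite_self, h, kron, of_apply, one_apply, Fintype.prod_boole, funext_iff]
  congr

theorem upoint_entry (A : Matrix (Fin 4) (Fin 4) R) (i j : Fin 4) :
    ((1 - single j j 1 : Matrix (Fin 4) (Fin 4) ℤ).map (Int.cast : ℤ → R) +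
      (single j i 1 : Matrix (Fin 4) (Fin 4) ℤ).map (Int.cast : ℤ → R) * A).det = A i j := by
  have h : (1 - single j j 1 : Matrix (Fin 4) (Fin 4) ℤ).map (Int.cast : ℤ → R) +
      (single j i 1 : Matrix (Fin 4) (Fin 4) ℤ).map (Int.cast : ℤ → R) * A =
      (1 : Matrix (Fin 4) (Fin 4) R).updateRow j (A i) := by
    ext a b
    by_cases h : a = j
    · subst h
      by_cases h' : a = b <;> simp [Matrix.mul_apply, single_apply, one_apply, h']
    · simp [Matrix.mul_apply, single_apply, one_apply, updateRow_ne h, Ne.symm h]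
  rw [h, ← cramer_transpose_apply, transpose_one, cramer_one]
  rfl

theorem upoint_dvec_pos (j : ℕ) (i : Fin 4) : 0 < dvec j i := by
  fin_cases i <;> simp [dvec]

theorem upoint_dvec_prod (j : ℕ) : ∏ i, dvec j i = 16 ^ j := by
  have h : (16 : ℝ) ^ j = 8 ^ j * 2 ^ j := by
    rw [← mul_pow]
    norm_num
  simp only [Fin.prod_univ_four, dvec, cons_val_zero, cons_val_one, cons_val, h]
  field_simp

end Aux

open Matrix in
/-- integrality of the minors in a chart given by equivariant matrices -/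
theorem Setup.upoint_int {e : ℤ × ℤ} {N : ℕ} {C T : ℝ} (hT : T ≠ 0) {d : (Cub e K)ˣ} {γ : Cub e ℚ}
    {ν : K} {z : Nat.Primes → (Cub e K)ˣ} {ε : (K →+* ℂ) → Cub e ℂ} {j : ℕ} {v0 v1 v2 : Cub e K}
    {h : Fin 3 → Matrix (Fin 2) (Fin 2) ℂ} (hu : S.UData d γ ν z ε)
    (hv : Red N C T (d : Cub e K) ν z ε j v0 v1 v2) (hh : S.Frame T ε v0 v1 v2 h) {n : ℕ}
    {W H : Matrix (Fin 3) (Fin 3) Kt} (hW : ∀ a b, IsIntegral ℤ ((n : Kt) * W a b))
    (hH : ∀ a b, IsIntegral ℤ ((n : Kt) * H a b))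
    (hW' : ∀ τ π, S.Cmp τ π → W.map τ = W.submatrix π id)
    (hH' : ∀ τ π, S.Cmp τ π → H.map τ = H.submatrix π id) {x : Kt} (hx : IsIntegral ℤ x)
    (hx' : S.Alt x) (P Q : Matrix (Fin 4) (Fin 4) ℤ) :
    ∃ k : ℤ, (k : ℂ) = 24 * (N : ℂ) ^ 3 * (n : ℂ) ^ 4 * S.i x *
      ((P.map (Int.cast : ℤ → ℂ) * PhiX (W.map S.i) (H.map S.i) +
        Q.map (Int.cast : ℤ → ℂ) * PhiY (W.map S.i) (H.map S.i)) * lagr e T h).det := by
  have hA := upoint_Phi_mem
    ((integralClosure ℤ Kt).toSubring.toAddSubgroup.comap (AddMonoidHom.mulLeft (n : Kt)))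
    (by
      change IsIntegral ℤ ((n : Kt) * 1)
      simpa using isIntegral_algebraMap (R := ℤ) (A := Kt) (x := (n : ℤ))) hW hH
  have hZ : ∀ k : ℤ, IsIntegral ℤ (k : Kt) := fun k => isIntegral_algebraMap (R := ℤ)
  obtain ⟨k, hk⟩ := S.exists_int_det hT hu hv hh ((n : Kt) •
    (P.map (Int.cast : ℤ → Kt) * PhiX W H + Q.map (Int.cast : ℤ → Kt) * PhiY W H))
    (fun l c => by
      have h1 : ((n : Kt) • (P.map (Int.cast : ℤ → Kt) * PhiX W H +
          Q.map (Int.cast : ℤ → Kt) * PhiY W H)) l c =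
          ∑ a, (P l a : Kt) * (n * PhiX W H a c) + ∑ a, (Q l a : Kt) * (n * PhiY W H a c) := by
        simp only [Matrix.smul_apply, Matrix.add_apply, Matrix.mul_apply, map_apply, smul_eq_mul,
          mul_add,
          Finset.mul_sum, mul_left_comm]
      rw [h1]
      exact (IsIntegral.sum _ fun a _ => (hZ _).mul (hA a c).1).add
        (IsIntegral.sum _ fun a _ => (hZ _).mul (hA a c).2))
    (fun l τ π hτ c => by
      have h1 : ∀ a, τ (PhiX W H a c) = PhiX W H a (c ∘ π.symm) := fun a => by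
        rw [← (upoint_Phi_perm W H π a c).1, ← hW' τ π hτ, ← hH' τ π hτ]
        exact congrFun (congrFun (PhiX_map (τ : Kt →+* Kt) W H).1 a) c
      have h2 : ∀ a, τ (PhiY W H a c) = PhiY W H a (c ∘ π.symm) := fun a => by
        rw [← (upoint_Phi_perm W H π a c).2, ← hW' τ π hτ, ← hH' τ π hτ]
        exact congrFun (congrFun (PhiX_map (τ : Kt →+* Kt) W H).2 a) c
      simp only [Matrix.smul_apply, Matrix.add_apply, Matrix.mul_apply, map_apply, smul_eq_mul,
        map_mul, map_add,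
        map_sum, map_natCast, map_intCast, h1, h2]) hx hx'
  refine ⟨k, hk.trans ?_⟩
  have h3 : ((n : Kt) • (P.map (Int.cast : ℤ → Kt) * PhiX W H +
      Q.map (Int.cast : ℤ → Kt) * PhiY W H)).map S.i = (n : ℂ) •
      (P.map (Int.cast : ℤ → ℂ) * PhiX (W.map S.i) (H.map S.i) +
        Q.map (Int.cast : ℤ → ℂ) * PhiY (W.map S.i) (H.map S.i)) := by
    rw [← (PhiX_map S.i W H).1, ← (PhiX_map S.i W H).2]
    ext a b
    simp only [Matrix.smul_apply, Matrix.add_apply, Matrix.mul_apply, map_apply, smul_eq_mul,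
        map_mul, map_add,
      map_sum, map_natCast, map_intCast]
  rw [h3, Matrix.smul_mul, det_smul, Fintype.card_fin]
  ring

open Matrix in
/-- `ω, η, n` from `exists_dual`; `W i j = S.s i (ω j)`, `H i j = S.s i (η j)`, `Wᵀ H = 1`;
`x = det W` is integral, `Alt` (`Matrix.det_permute`) and nonzero; `κ = 24 N^3 n^4 S.i x`.
`h` from `exists_frame`, `M = lagr e T h`; `Pl M (qf 0) = Yf 0 0 M ≠ 0` (`Frame.Yf_eq` with `π = 1`,
`Hyp.quart_eq`); `s` from `exists_chart_ne`, `S_ℂ` from `exists_chart`.  For integer `P, Q` apply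
`exists_int_det` to `n • (P * PhiX + Q * PhiY)` over `Kt` (rows `Eqv` by `lo_perm`, `hi_perm`,
`bot_perm`): `κ det (P + Q S_ℂ) det X ∈ ℤ`.  `g = κ det X`; the entries of `S_ℂ` are rational (as
in `IntS.entry`).  For real `P, Q`, with `D = diagonal (dvec j)`, `det D = 16^j`,
`det (P D + Q D⁻¹ S) = det (P + Q D⁻¹ S D⁻¹) det D`, and `chart_bound`.
`Yf 0 m M = det (Z m * M)` with `Z m = (kron ..).submatrix (qf 0) id`; `exists_PQ` gives
`Rec s g Sm m = det (P' + Q' Sm) * g / κ`. -/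
theorem Setup.exists_upoint {N : ℕ} (hN : N ≠ 0) {C : ℝ} (hC : 1 ≤ C) :
    ∃ (c : ℝ) (Rec : Fin 7 → ℤ → Matrix (Fin 4) (Fin 4) ℚ → Fin 5 → ℂ), 0 ≤ c ∧
      ∀ (T : ℕ), 1 ≤ T → ∀ e ∈ box T, ∀ (d : (Cub e K)ˣ) (γ : Cub e ℚ) (ν : K)
        (z : Nat.Primes → (Cub e K)ˣ) (ε : (K →+* ℂ) → Cub e ℂ) (j : ℕ) (v0 v1 v2 : Cub e K),
        S.UData d γ ν z ε → Red N C T (d : Cub e K) ν z ε j v0 v1 v2 →
        Gv (d : Cub e K) v0 v0 ≠ 0 →
        ∃ (s : Fin 7) (g : ℤ) (Sm : Matrix (Fin 4) (Fin 4) ℚ),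
          LGHyp (dvec j) (c * T / 16 ^ j) g Sm ∧
          ∀ m, Rec s g Sm m = S.emb 0 (quart (d : Cub e K) v0 v1 v2 (pt5 m).1 (pt5 m).2) := by
  obtain ⟨ω, η, n, hn, hω, hη, -, hdual⟩ := S.exists_dual
  obtain ⟨W, hW⟩ : ∃ W : Matrix (Fin 3) (Fin 3) Kt, W = of fun a b => S.s a (ω b) := ⟨_, rfl⟩
  obtain ⟨H, hH⟩ : ∃ H : Matrix (Fin 3) (Fin 3) Kt, H = of fun a b => S.s a (η b) := ⟨_, rfl⟩
  have hWH : Wᵀ * H = 1 := by
    ext a b
    rw [hW, hH, Matrix.mul_apply, one_apply]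
    exact hdual a b
  have hWi : ∀ a b, IsIntegral ℤ (W a b) := fun a b => by
    rw [hW]
    exact map_isIntegral_int (S.s a) (hω b)
  have hHi : ∀ a b, IsIntegral ℤ ((n : Kt) * H a b) := fun a b => by
    rw [hH]
    simpa using map_isIntegral_int (S.s a) (hη b)
  have hni : IsIntegral ℤ (n : Kt) := by
    simpa using isIntegral_algebraMap (R := ℤ) (A := Kt) (x := (n : ℤ))
  have hWe : ∀ τ π, S.Cmp τ π → W.map τ = W.submatrix π id := fun τ π hτ => by
    ext a b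
    rw [hW]
    exact hτ a (ω b)
  have hHe : ∀ τ π, S.Cmp τ π → H.map τ = H.submatrix π id := fun τ π hτ => by
    ext a b
    rw [hH]
    exact hτ a (η b)
  have hx : IsIntegral ℤ W.det := IsIntegral.det hWi
  have hx' : S.Alt W.det := fun τ π hτ => by
    rw [← det_permute, ← hWe τ π hτ]
    exact (τ : Kt →+* Kt).map_det W
  have hx0 : W.det ≠ 0 := fun h0 => by
    have h1 := congrArg det hWH
    rw [det_mul, det_transpose, h0, zero_mul, det_one] at h1
    exact zero_ne_one h1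
  have hc : (W.map S.i)ᵀ * H.map S.i = 1 := by
    rw [← transpose_map, ← Matrix.map_mul, hWH, Matrix.map_one _ (map_zero _) (map_one _)]
  obtain ⟨κ, hκ⟩ : ∃ κ : ℂ, κ = 24 * (N : ℂ) ^ 3 * (n : ℂ) ^ 4 * S.i W.det := ⟨_, rfl⟩
  have hκ0 : κ ≠ 0 := by
    rw [hκ]
    exact mul_ne_zero (mul_ne_zero (mul_ne_zero (by norm_num)
      (pow_ne_zero _ (Nat.cast_ne_zero.2 hN))) (pow_ne_zero _ (Nat.cast_ne_zero.2 hn)))
      ((map_ne_zero S.i).2 hx0)
  choose P' Q' hPQ using fun (s : Fin 7) (m : Fin 5) => exists_PQ (dual_Us hc s)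
    ((kron fun l : Fin 3 => G5 ℂ (if l = 0 then m else 0)).submatrix (qf 0) id)
  obtain ⟨B, hB⟩ : ∃ B : ℝ, ∀ (s : Fin 7) (a b : Fin 3), ‖(W.map S.i * Us ℂ s) a b‖ ≤ B ∧
      ‖(H.map S.i * Ut ℂ s) a b‖ ≤ B := by
    obtain ⟨B, hB⟩ := Finite.exists_le fun t : Fin 7 × Fin 3 × Fin 3 =>
      max ‖(W.map S.i * Us ℂ t.1) t.2.1 t.2.2‖ ‖(H.map S.i * Ut ℂ t.1) t.2.1 t.2.2‖
    exact ⟨B, fun s a b => max_le_iff.1 (hB (s, a, b))⟩
  obtain ⟨c, hc0, hbd⟩ := chart_bound B (2 * C)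
  refine ⟨‖κ‖ * c, fun s g Sm m => (P' s m + Q' s m * Sm.map (Rat.cast : ℚ → ℂ)).det * g / κ,
    by positivity, fun T hT e he d γ ν z ε j v0 v1 v2 hu hv hG => ?_⟩
  have hT0 : (0 : ℝ) < T := by exact_mod_cast hT
  obtain ⟨h, hh, hhb⟩ := S.exists_frame hC hT0.ne' hu.eps hv
  have hY : ∀ m, Yf 0 m (lagr e T h) =
      S.emb 0 (quart (d : Cub e K) v0 v1 v2 (pt5 m).1 (pt5 m).2) := fun m =>
    Setup.Frame.Yf_eq S hT0.ne' hu.eps hh 1 0 m
  have hPl : Pl (lagr e T h) (qf 0) ≠ 0 := by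
    have h1 := hY 0
    rw [Yf, upoint_kron_one, Matrix.one_mul, hv.hyp.quart_eq] at h1
    rw [h1, map_ne_zero]
    simpa [pt5] using hG
  obtain ⟨s, hs⟩ := exists_chart_ne hc hPl
  obtain ⟨Sc, hSs, hSc⟩ := exists_chart (dual_Us hc s) (lag_lagr e T h) hs
  have key : ∀ P Q : Matrix (Fin 4) (Fin 4) ℤ, ∃ k : ℤ, (k : ℂ) =
      κ * ((P.map (Int.cast : ℤ → ℂ) + Q.map (Int.cast : ℤ → ℂ) * Sc).det *
        (PhiX (W.map S.i * Us ℂ s) (H.map S.i * Ut ℂ s) * lagr e T h).det) := by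
    intro P Q
    obtain ⟨k, hk⟩ := S.upoint_int hT0.ne' hu hv hh (n := n) (W := W * Us Kt s) (H := H * Ut Kt s)
      (fun a b => by
        rw [Matrix.mul_apply]
        exact hni.mul (IsIntegral.sum _ fun l _ => (hWi a l).mul (upoint_U_int s l b).1))
      (fun a b => by
        simp only [Matrix.mul_apply, Finset.mul_sum, ← mul_assoc]
        exact IsIntegral.sum _ fun l _ => (hHi a l).mul (upoint_U_int s l b).2)
      (fun τ π hτ => (Matrix.map_mul (f := (τ : Kt →+* Kt))).trans (by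
        rw [(upoint_U_map _ s).1]
        exact congrArg (· * Us Kt s) (hWe τ π hτ)))
      (fun τ π hτ => (Matrix.map_mul (f := (τ : Kt →+* Kt))).trans (by
        rw [(upoint_U_map _ s).2]
        exact congrArg (· * Ut Kt s) (hHe τ π hτ))) hx hx' P Q
    rw [Matrix.map_mul, Matrix.map_mul, (upoint_U_map _ s).1, (upoint_U_map _ s).2, hSc,
      ← hκ] at hk
    exact ⟨k, hk⟩
  obtain ⟨g, hg⟩ := key 1 0
  rw [Matrix.map_one _ Int.cast_zero Int.cast_one, Matrix.map_zero _ Int.cast_zero,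
    Matrix.zero_mul, add_zero, det_one, one_mul] at hg
  have hg0 : (g : ℂ) ≠ 0 := hg ▸ mul_ne_zero hκ0 hs
  have key' : ∀ P Q : Matrix (Fin 4) (Fin 4) ℤ, ∃ k : ℤ,
      (g : ℂ) * (P.map (Int.cast : ℤ → ℂ) + Q.map (Int.cast : ℤ → ℂ) * Sc).det = k := by
    intro P Q
    obtain ⟨k, hk⟩ := key P Q
    exact ⟨k, by rw [hk, hg]; ring⟩
  choose k hk using fun a b : Fin 4 => key' (1 - single b b 1) (single b a 1)
  simp only [upoint_entry] at hk
  obtain ⟨Sm, rfl⟩ : ∃ Sm : Matrix (Fin 4) (Fin 4) ℚ, Sc = Sm.map (Rat.cast : ℚ → ℂ) := by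
    refine ⟨of fun a b => (k a b : ℚ) / g, ?_⟩
    ext a b
    simp only [map_apply, of_apply, Rat.cast_div, Rat.cast_intCast, ← hk]
    rw [mul_div_cancel_left₀ _ hg0]
  refine ⟨s, g, Sm, ⟨by exact_mod_cast hg0, ?_, fun P Q => ?_, fun P Q hP hQ => ?_⟩, fun m => ?_⟩
  · ext a b
    exact Rat.cast_injective (α := ℂ) (hSs.apply a b)
  · obtain ⟨k', hk'⟩ := key' P Q
    refine ⟨k', Rat.cast_injective (α := ℂ) ?_⟩
    have h1 : (Rat.castHom ℂ).mapMatrix
        (P.map (Int.cast : ℤ → ℚ) + Q.map (Int.cast : ℤ → ℚ) * Sm) =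
        P.map (Int.cast : ℤ → ℂ) + Q.map (Int.cast : ℤ → ℂ) * Sm.map (Rat.cast : ℚ → ℂ) := by
      ext a b
      simp [Matrix.mul_apply]
    rw [← h1, ← RingHom.map_det] at hk'
    simpa using hk'
  · obtain ⟨b1, b2, -⟩ := mem_box.1 he
    have hd := upoint_dvec_pos j
    have hdc : ∀ a, (dvec j a : ℂ) ≠ 0 := fun a => Complex.ofReal_ne_zero.2 (hd a).ne'
    have h1 := hbd _ _ (fun a b => (hB s a b).1) (fun a b => (hB s a b).2) j h hhb
      ((e.1 : ℂ) / (T : ℝ) ^ 2) ((e.2 : ℂ) / (T : ℝ) ^ 3) T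
      (by
        rw [norm_div, norm_pow, Complex.norm_real, Real.norm_of_nonneg hT0.le,
          div_le_one (by positivity), Complex.norm_intCast]
        exact_mod_cast b1)
      (by
        rw [norm_div, norm_pow, Complex.norm_real, Real.norm_of_nonneg hT0.le,
          div_le_one (by positivity), Complex.norm_intCast]
        exact_mod_cast b2) hT0.le (P.map Complex.ofReal) (Q.map Complex.ofReal)
      (fun a b => by simpa using hP a b) (fun a b => by simpa using hQ a b)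
    have h2 : P.map Complex.ofReal * diagonal (fun a => (dvec j a : ℂ)) +
        Q.map Complex.ofReal * diagonal (fun a => (dvec j a : ℂ)⁻¹) * Sm.map (Rat.cast : ℚ → ℂ) =
        Complex.ofRealHom.mapMatrix ((P + Q * of fun a b => (Sm a b : ℝ) / (dvec j a * dvec j b)) *
          diagonal (dvec j)) := by
      ext a b
      simp only [RingHom.mapMatrix_apply, map_apply, Matrix.add_apply, mul_diagonal,
        Complex.ofRealHom_eq_coe]
      simp only [Matrix.mul_apply, map_apply, of_apply, diagonal_apply, mul_ite, mul_zero,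
        Finset.sum_ite_eq', Finset.mem_univ, if_true]
      push_cast
      rw [add_mul, Finset.sum_mul]
      congr 1
      refine Finset.sum_congr rfl fun l _ => ?_
      have := hdc l
      have := hdc b
      field_simp
    rw [← lagr, hSc, h2, ← RingHom.map_det, det_mul, det_diagonal, upoint_dvec_prod, norm_mul,
      Complex.ofRealHom_eq_coe, Complex.norm_real, norm_mul, Real.norm_eq_abs,
      Real.norm_of_nonneg (by positivity : (0 : ℝ) ≤ 16 ^ j)] at h1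
    have h3 : |(g : ℝ)| = ‖κ‖ *
        ‖(PhiX (W.map S.i * Us ℂ s) (H.map S.i * Ut ℂ s) * lagr e T h).det‖ := by
      rw [← norm_mul, ← hg, Complex.norm_intCast]
    have h4 : 0 < |(g : ℝ)| := abs_pos.2 (by exact_mod_cast hg0)
    rw [le_div_iff₀ h4, le_div_iff₀ (by positivity), h3]
    refine le_trans (le_of_eq ?_) ((mul_le_mul_of_nonneg_left h1 (norm_nonneg κ)).trans_eq ?_) <;>
      ring
  · beta_reduce
    rw [← hY, hg, mul_left_comm, mul_div_cancel_left₀ _ hκ0, ← hSc, ← hPQ]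
    rfl

end Pool.Agent.Lib.MP_775b3b_nt
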