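import Pool.Agent.Lib.MP_775b3b_nt.Grp

/-! Towers of quadratic extensions with a fixed set of ramified primes. -/

namespace Pool.Agent.Lib.MP_775b3b_nt

open Cub MP_439fea_co

variable {e : ℤ × ℤ}

theorem step_descend_loc {k k' : Type*} [Field k] [Field k'] [CharZero k'] [Algebra k k']
    (σ : k' →+* k') (hσ : ∀ x, σ (σ x) = x)
    (hfix : ∀ x, σ x = x ↔ ∃ y, algebraMap k k' y = x)
    {N : ℕ} (h2 : 2 ∣ N)
    (hN : ∀ p : Nat.Primes, ¬ (p : ℕ) ∣ N →
      ∃ β : k', β ≠ 0 ∧ σ β = -β ∧ β ∈ intP p k' ∧ β⁻¹ ∈ intP p k')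
    {d₀ : (Cub e k)ˣ}
    (hG : Units.map (map (e := e) (algebraMap k k') : Cub e k →* Cub e k') d₀ ∈ Sel N e k') {μ : k'}
    (hμ : algebraMap k k' (nm (d₀ : Cub e k)) = μ ^ 2) (hs : σ μ = μ) : d₀ ∈ Sel N e k := by
  rw [mem_Sel] at hG ⊢
  have hinj : Function.Injective (algebraMap k k') := (algebraMap k k').injective
  obtain ⟨ν, rfl⟩ := (hfix _).1 hs
  refine ⟨⟨ν, hinj (by rw [hμ, map_pow])⟩, fun p hp => ?_⟩
  have hpN : ¬ (p : ℕ) ∣ N := fun h => hp (Or.inl h)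
  have hp2 : (p : ℕ) ≠ 2 := fun h => hpN (h ▸ h2)
  obtain ⟨β, hβ0, hβ, hb, hb'⟩ := hN p hpN
  have hfx : ∀ y, σ (algebraMap k k' y) = algebraMap k k' y := fun y => (hfix _).2 ⟨y, rfl⟩
  obtain ⟨z, hz, h3, h4⟩ := usq_descend (R := Cub e k') hp2 (map σ)
    (fun x => by ext <;> simp [hσ]) (β := algebraMap k' (Cub e k') β)
    (β' := algebraMap k' (Cub e k') β⁻¹) (by rw [map_algebraMap, hβ, map_neg])
    (map_mem_intP _ hb) (map_mem_intP _ hb') (by rw [← map_mul, mul_inv_cancel₀ hβ0, map_one])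
    (d := Units.map (map (e := e) (algebraMap k k') : Cub e k →* Cub e k') d₀)
    (by
      ext
      · exact hfx _
      · exact hfx _
      · exact hfx _) (hG.2 p hp)
  obtain ⟨z₀, rfl⟩ := step_fixed σ hfix hz
  rw [← map_pow, ← map_mul] at h3 h4
  rw [← map_inv] at h4
  exact ⟨z₀, mem_intP_of_map (f := map (algebraMap k k')) (map_injective hinj) h3,
    mem_intP_of_map (f := map (algebraMap k k')) (map_injective hinj) h4⟩

theorem sel_step_loc {k k' : Type*} [Field k] [Field k'] [CharZero k] [CharZero k'] [Algebra k k']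
    (σ : k' →+* k') (hσ : ∀ x, σ (σ x) = x)
    (hfix : ∀ x, σ x = x ↔ ∃ y, algebraMap k k' y = x) {β : k'} (hβ0 : β ≠ 0) (hβ : σ β = -β)
    {N : ℕ} (h2 : 2 ∣ N)
    (hN : ∀ p : Nat.Primes, ¬ (p : ℕ) ∣ N →
      ∃ β : k', β ≠ 0 ∧ σ β = -β ∧ β ∈ intP p k' ∧ β⁻¹ ∈ intP p k') (hd : disc e ≠ 0)
    {n : ℕ} (h : Bd (SQ e k) (Sel N e k) n) : Bd (SQ e k') (Sel N e k') ((16 * n) ^ 2) := by
  classical
  set s : (Cub e k')ˣ →* (Cub e k')ˣ := Units.map (map (e := e) σ : Cub e k' →* Cub e k') with hs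
  set ι : (Cub e k)ˣ →* (Cub e k')ˣ :=
    Units.map (map (e := e) (algebraMap k k') : Cub e k →* Cub e k') with hι
  have hsv : ∀ d : (Cub e k')ˣ, ((s d : (Cub e k')ˣ) : Cub e k') = map σ (d : Cub e k') :=
    fun d => rfl
  have hιv : ∀ d : (Cub e k)ˣ,
      ((ι d : (Cub e k')ˣ) : Cub e k') = map (algebraMap k k') (d : Cub e k) := fun d => rfl
  have hss : ∀ d, s (s d) = d := fun d => Units.ext (by
    rw [hsv, hsv]
    ext <;> simp [hσ])
  have hfx : ∀ y, σ (algebraMap k k' y) = algebraMap k k' y := fun y => (hfix _).2 ⟨y, rfl⟩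
  have hsq : ∀ t : (Cub e k')ˣ, t ^ 2 ∈ SQ e k' := fun t => ⟨t, sq t⟩
  set G := Sel N e k' with hG
  let H₀ : Subgroup (Cub e k')ˣ := (SQ e k').comap (MonoidHom.id _ * s)
  have hH₀ : ∀ d, d ∈ H₀ ↔ d * s d ∈ SQ e k' := fun d => Iff.rfl
  let H₁ : Subgroup (Cub e k')ˣ :=
    { carrier := {d | ∃ z, s d = d * z ^ 2 ∧ z * s z = 1}
      one_mem' := ⟨1, by simp, by simp⟩
      mul_mem' := by
        rintro a b ⟨z, h1, h2⟩ ⟨w, h3, h4⟩
        refine ⟨z * w, ?_, ?_⟩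
        · rw [map_mul, h1, h3, mul_pow, mul_mul_mul_comm]
        · rw [map_mul, mul_mul_mul_comm, h2, h4, one_mul]
      inv_mem' := by
        rintro a ⟨z, h1, h2⟩
        refine ⟨z⁻¹, ?_, ?_⟩
        · rw [map_inv, h1, mul_inv, inv_pow]
        · rw [map_inv, ← mul_inv, h2, inv_one] }
  have hH₁ : ∀ d, d ∈ H₁ ↔ ∃ z, s d = d * z ^ 2 ∧ z * s z = 1 := fun d => Iff.rfl
  let H₂ : Subgroup (Cub e k')ˣ := (Sel N e k).map ι ⊔ SQ e k'
  -- (4)
  have b4 : Bd (SQ e k') H₂ n := by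
    refine (h.map ι (H' := SQ e k') ?_).of_cover ?_
    · rintro x ⟨y, rfl⟩
      exact ⟨ι y, map_mul ι y y⟩
    · intro x hx
      obtain ⟨y, hy, z, hz, rfl⟩ := Subgroup.mem_sup.1 hx
      exact ⟨y, hy, by rwa [mul_div_cancel_left]⟩
  -- (3)
  have key : ∀ d ∈ G, ∀ (t : (Cub e k')ˣ) (d₀ : (Cub e k)ˣ) (μ : k'), d * t ^ 2 = ι d₀ →
      algebraMap k k' (nm (d₀ : Cub e k)) = μ ^ 2 → σ μ = μ → d ∈ H₂ := by
    intro d hdG t d₀ μ h1 h3 h4
    have h5 : d₀ ∈ Sel N e k := step_descend_loc σ hσ hfix h2 hN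
      (by rw [← hι, ← h1]; exact G.mul_mem hdG (step_sq_mem_Sel t)) h3 h4
    refine Subgroup.mem_sup.2 ⟨ι d₀, ⟨d₀, h5, rfl⟩, t⁻¹ ^ 2, hsq _, ?_⟩
    rw [← h1, inv_pow, mul_inv_cancel_right]
  have key2 : ∀ d ∈ H₁ ⊓ G, d ∉ H₂ → ∃ (t : (Cub e k')ˣ) (d₀ : (Cub e k)ˣ) (μ : k'),
      d * t ^ 2 = ι d₀ ∧ algebraMap k k' (nm (d₀ : Cub e k)) = μ ^ 2 ∧ σ μ = -μ := by
    rintro d ⟨⟨z, h1, h3⟩, hdG⟩ hn
    obtain ⟨t, ht⟩ := h90 σ hσ hβ0 hβ (z := (z : Cub e k')) (by
      rw [← hsv, ← Units.val_mul, h3, Units.val_one])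
    have ht' : t = z * s t := Units.ext (by rw [Units.val_mul, hsv]; exact ht)
    have hf : s (d * t ^ 2) = d * t ^ 2 := by
      rw [map_mul, map_pow, h1, mul_assoc, ← mul_pow, ← ht']
    obtain ⟨d₀, hd₀⟩ := step_fixed σ hfix (d := d * t ^ 2) (by rw [← hsv, hf])
    obtain ⟨μ, hμ⟩ := (mem_Sel.1 (G.mul_mem hdG (step_sq_mem_Sel t))).1
    have h4 : algebraMap k k' (nm (d₀ : Cub e k)) = μ ^ 2 := by
      rw [← hμ, ← hd₀, ← nm_map]
      rfl
    have h5 : σ μ ^ 2 = μ ^ 2 := by rw [← map_pow, ← h4, hfx]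
    rcases sq_eq_sq_iff_eq_or_eq_neg.1 h5 with h6 | h6
    · exact absurd (key d hdG t d₀ μ hd₀.symm h4 h6) hn
    · exact ⟨t, d₀, μ, hd₀.symm, h4, h6⟩
  have b3 : Bd H₂ (H₁ ⊓ G) 2 := by
    refine step_two fun x hx y hy hxn hyn => ?_
    obtain ⟨t, x₀, μ, h1, h3, h4⟩ := key2 x hx hxn
    obtain ⟨u, y₀, ν, h5, h6, h7⟩ := key2 y hy hyn
    refine key (x / y) (G.div_mem hx.2 hy.2) (t / u) (x₀ / y₀) (μ / ν) ?_ ?_ ?_
    · rw [map_div, ← h1, ← h5, div_pow, div_mul_div_comm]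
    · have h8 : nm ((x₀ / y₀ : (Cub e k)ˣ) : Cub e k) = nm (x₀ : Cub e k) / nm (y₀ : Cub e k) := by
        rw [eq_div_iff (nm_ne_zero y₀), ← nm_mul, ← Units.val_mul, div_mul_cancel]
      rw [h8, map_div₀, h3, h6, div_pow]
    · rw [map_div₀, h4, h7, neg_div_neg_eq]
  -- (2)
  have b2 : Bd H₁ (H₀ ⊓ G) 8 := by
    obtain ⟨hfin, hcard⟩ := card_mu2 (e := e) (k := k') hd
    have hz : ∀ d, ∃ z, (d ∈ H₀ → s d = d * z ^ 2) ∧ (z * s z) ^ 2 = 1 := by
      intro d
      by_cases hd0 : d ∈ H₀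
      · obtain ⟨w, hw⟩ := (hH₀ d).1 hd0
        have h1 : s d = d * (w / d) ^ 2 := by
          rw [div_pow, sq w, ← hw, sq d, mul_div_mul_left_eq_div, mul_div_cancel]
        refine ⟨w / d, fun _ => h1, ?_⟩
        have h3 := congrArg s h1
        rw [hss, map_mul, map_pow, h1, mul_assoc, ← mul_pow] at h3
        exact mul_eq_left.1 h3.symm
      · exact ⟨1, fun h => absurd h hd0, by simp⟩
    choose z hz1 hz2 using hz
    refine (Bd.of_fun (α := {m : (Cub e k')ˣ // m ^ 2 = 1}) (fun d => ⟨z d * s (z d), hz2 d⟩)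
      fun x hx y hy hxy => ?_).mono hcard
    have h1 : z x * s (z x) = z y * s (z y) := congrArg Subtype.val hxy
    refine (hH₁ _).2 ⟨z x / z y, ?_, ?_⟩
    · rw [map_div, hz1 x hx.1, hz1 y hy.1, div_pow, div_mul_div_comm]
    · rw [map_div, div_mul_div_comm, h1, div_self']
  have b5 : Bd H₂ (H₀ ⊓ G) (2 * 8) :=
    Bd.trans (b3.of_le_right (inf_le_inf_left _ inf_le_right)) b2
  have b6 : Bd (SQ e k') (H₀ ⊓ G) (n * (2 * 8)) :=
    Bd.trans (b4.of_le_right inf_le_left) b5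
  -- (1)
  have b1 : Bd H₀ G (n * (2 * 8)) := by
    refine b6.comap (MonoidHom.id _ * s) fun x hx => ⟨?_, ?_⟩
    · refine (hH₀ _).2 ⟨x * s x, ?_⟩
      show x * s x * s (x * s x) = _
      rw [map_mul, hss, mul_comm (s x) x]
    · exact G.mul_mem hx (step_map_Sel σ hx)
  exact (Bd.trans b6 b1).mono (le_of_eq (by ring))

open NumberField IsDedekindDomain in
theorem unr_of_discr (k : Type*) [Field k] [NumberField k] {N : ℕ}
    (hN : ∀ p : ℕ, p.Prime → (p : ℤ) ∣ discr k → p ∣ N) : Unr k N := by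
  intro v p hp hv
  have hp0 : ((p : ℕ) : k) ≠ 0 := Nat.cast_ne_zero.2 p.2.ne_zero
  have h1 := val_eq_exp v hp0
  rw [h1, ← WithZero.exp_zero, WithZero.exp_lt_exp] at hv
  rw [h1]
  congr 1
  by_contra hne
  have h2 : (((p : ℕ) : ℕ) : 𝓞 k) ∈ v.asIdeal ^ 2 := by
    rw [← Val_le_iff_mem]
    have e : ((((p : ℕ) : ℕ) : 𝓞 k) : k) = ((p : ℕ) : k) := by simp
    rw [e, h1, WithZero.exp_le_exp]
    push_cast
    omega
  have hpz : Prime ((p : ℕ) : ℤ) := Nat.prime_iff_prime_int.mp p.2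
  have hmax : (Ideal.span {((p : ℕ) : ℤ)}).IsMaximal := hpz.isMaximal_span_singleton
  have hb : Ideal.span {((p : ℕ) : ℤ)} ≠ ⊥ := by simpa using p.2.ne_zero
  let := FractionRing.liftAlgebra ℤ (FractionRing (𝓞 k))
  have h3 := pow_sub_one_dvd_differentIdeal ℤ v.asIdeal 2 hb (by
    rw [Ideal.map_span, Set.image_singleton, Ideal.dvd_span_singleton]
    simpa using h2)
  have h4 := Ideal.dvd_iff_le.1 h3 (discr_mem_differentIdeal k (𝓞 k))
  have h5 : (((discr k).natAbs : ℕ) : 𝓞 k) ∈ v.asIdeal := by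
    have h6 : ((discr k : ℤ) : 𝓞 k) ∈ v.asIdeal := by simpa using h4
    rcases Int.natAbs_eq (discr k) with e | e
    · rw [e] at h6
      simpa using h6
    · rw [e] at h6
      simpa using h6
  have h7 : val v (((discr k).natAbs : ℕ) : k) < 1 := by
    have := (Val_lt_iff_mem v _).2 h5
    simpa using this
  refine hp (hN p p.2 (Int.natCast_dvd.2 (Val_dvd_of_lt v p.2 ?_ h7)))
  rw [h1, ← WithZero.exp_zero, WithZero.exp_lt_exp]
  exact hv

/-- `β ↦ β / (β ^ 2 + p)` lowers every positive order at `p` by one. -/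
theorem anti_unit_aux {k : Type*} [Field k] [NumberField k] (σ : k →+* k) (p : Nat.Primes)
    (hU : ∀ v : P k, val v ((p : ℕ) : k) < 1 → val v ((p : ℕ) : k) = WithZero.exp (-1 : ℤ))
    (M : ℕ) : ∀ β : k, β ≠ 0 → σ β = -β →
      (∀ v : P k, val v ((p : ℕ) : k) < 1 → 0 ≤ ord v β ∧ ord v β ≤ M) →
      ∃ γ : k, γ ≠ 0 ∧ σ γ = -γ ∧ ∀ v : P k, val v ((p : ℕ) : k) < 1 → ord v γ = 0 := by
  induction M with
  | zero => exact fun β h0 h1 h => ⟨β, h0, h1, fun v hv => by have := h v hv; omega⟩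
  | succ M ih =>
    intro β h0 h1 h
    have key : ∀ v : P k, val v ((p : ℕ) : k) < 1 →
        val v (β ^ 2 + ((p : ℕ) : k)) = WithZero.exp (- min (ord v β) 1) := by
      intro v hv
      have a1 := hU v hv
      have a2 : val v (β ^ 2) = WithZero.exp (-(2 * ord v β)) := by
        rw [map_pow, val_eq_exp v h0, ← WithZero.exp_nsmul]
        congr 1
        simp
      rcases (h v hv).1.eq_or_lt with a3 | a3
      · rw [Valuation.map_add_eq_of_lt_left, a2, ← a3]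
        · simp
        · rw [a1, a2, ← a3, WithZero.exp_lt_exp]
          simp
      · rw [Valuation.map_add_eq_of_lt_right, a1, min_eq_right (by omega)]
        rw [a1, a2, WithZero.exp_lt_exp]
        omega
    by_cases hc : β ^ 2 + ((p : ℕ) : k) = 0
    · refine ⟨β, h0, h1, fun v hv => ?_⟩
      have := key v hv
      rw [hc, map_zero] at this
      exact absurd this.symm WithZero.exp_ne_zero
    refine ih (β / (β ^ 2 + ((p : ℕ) : k))) (div_ne_zero h0 hc) ?_ fun v hv => ?_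
    · rw [map_div₀, map_add, map_pow, h1, map_natCast, neg_sq, neg_div]
    · have a1 := val_eq_exp v (div_ne_zero h0 hc)
      rw [map_div₀, key v hv, val_eq_exp v h0, ← WithZero.exp_sub, WithZero.exp_inj] at a1
      have := h v hv
      push_cast at this
      omega

theorem anti_unit {k : Type*} [Field k] [NumberField k] (σ : k →+* k) {β : k} (h0 : β ≠ 0)
    (h1 : σ β = -β) {N : ℕ} (hU : Unr k N) (p : Nat.Primes) (hp : ¬ (p : ℕ) ∣ N) :
    ∃ β : k, β ≠ 0 ∧ σ β = -β ∧ β ∈ intP p k ∧ β⁻¹ ∈ intP p k := by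
  obtain ⟨a, ha0, ha⟩ := exists_mul_isIntegral β
  have ha1 : (a : k) * β ≠ 0 := mul_ne_zero (Nat.cast_ne_zero.2 ha0) h0
  obtain ⟨M, hM⟩ := ((finite_over_prime (k := k) p).image
    fun v => (ord v ((a : k) * β)).toNat).bddAbove
  obtain ⟨γ, g0, g1, g2⟩ := anti_unit_aux σ p (fun v hv => hU v p hp hv) M _ ha1
    (by rw [map_mul, map_natCast, h1, mul_neg]) fun v hv => by
      have a1 := intp2_val_le_one v ha
      rw [val_eq_exp v ha1, ← WithZero.exp_zero, WithZero.exp_le_exp] at a1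
      have a2 : (ord v ((a : k) * β)).toNat ≤ M := hM ⟨v, hv, rfl⟩
      omega
  refine ⟨γ, g0, g1, mem_intP_iff_val.2 fun v hv => ?_, mem_intP_iff_val.2 fun v hv => ?_⟩
  · rw [val_eq_exp v g0, g2 v hv]
    simp
  · rw [map_inv₀, val_eq_exp v g0, g2 v hv]
    simp

theorem sel_quad {k k' : Type*} [Field k] [Field k'] [NumberField k] [NumberField k']
    [Algebra k k'] (hk : Module.finrank k k' = 2) {N : ℕ} (h2 : 2 ∣ N) (hU : Unr k' N)
    (hd : disc e ≠ 0) {n : ℕ} (h : Bd (SQ e k) (Sel N e k) n) :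
    Bd (SQ e k') (Sel N e k') ((16 * n) ^ 2) := by
  have : Algebra.IsQuadraticExtension k k' := { finrank_eq_two' := hk }
  have hc : Nat.card (k' ≃ₐ[k] k') = 2 := by rw [IsGalois.card_aut_eq_finrank, hk]
  obtain ⟨σ, hσ1, hσ2⟩ := (Nat.card_eq_two_iff' (1 : k' ≃ₐ[k] k')).1 hc
  have hσσ : σ * σ = 1 := by rw [← pow_two, ← hc, pow_card_eq_one']
  have hσ : ∀ x, σ (σ x) = x := fun x => by rw [← AlgEquiv.mul_apply, hσσ, AlgEquiv.one_apply]
  obtain ⟨y, hy⟩ : ∃ y, σ y ≠ y := by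
    by_contra hcon
    push Not at hcon
    exact hσ1 (AlgEquiv.ext hcon)
  have hβ0 : y - σ y ≠ 0 := fun h => hy (sub_eq_zero.1 h).symm
  have hβ : σ (y - σ y) = -(y - σ y) := by rw [map_sub, hσ, neg_sub]
  have hfix : ∀ x, σ x = x ↔ ∃ z, algebraMap k k' z = x := fun x =>
    ⟨fun hx => (IsGalois.mem_range_algebraMap_iff_fixed x).2 fun τ => by
      by_cases ht : τ = 1
      · rw [ht, AlgEquiv.one_apply]
      · rw [hσ2 τ ht, hx], fun ⟨z, hz⟩ => hz ▸ σ.commutes z⟩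
  exact sel_step_loc (σ : k' →+* k') hσ hfix hβ0 hβ h2
    (anti_unit (σ : k' →+* k') hβ0 hβ hU) hd h

open IntermediateField NumberField in
theorem sel_inter {K F : Type} [Field K] [NumberField K] [Field F] [NumberField F] [Algebra K F]
    [IsGalois K F] (hG : IsPGroup 2 (F ≃ₐ[K] F)) {N : ℕ} (h2 : 2 ∣ N) (hd : disc e ≠ 0) {m : ℕ}
    (h : Bd (SQ e K) (Sel N e K) (2 ^ m)) (i : ℕ) : ∀ L : IntermediateField K F,
      Module.finrank K L = 2 ^ i → (∀ p : ℕ, p.Prime → (p : ℤ) ∣ discr L → p ∣ N) →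
        Bd (SQ e L) (Sel N e L) (2 ^ (2 ^ i * (m + 8) - 8)) := by
  have : Fact (Nat.Prime 2) := ⟨Nat.prime_two⟩
  have : FiniteDimensional K F := Module.Finite.of_restrictScalars_finite ℚ K F
  induction i with
  | zero =>
    intro L hL _
    have hb : Function.Bijective (algebraMap K L) :=
      Algebra.finrank_eq_one_iff_bijective_algebraMap.1 (by simpa using hL)
    simpa using tower_base (RingEquiv.ofBijective _ hb).symm h
  | succ i ih =>
    intro L hL hN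
    obtain ⟨a, ha⟩ := (hG.to_subgroup L.fixingSubgroup).exists_card_eq
    have h1 : Module.finrank L F = 2 ^ a := by
      rw [← ha, IsGalois.card_fixingSubgroup_eq_finrank]
    have h3 : Nat.card (F ≃ₐ[K] F) = 2 ^ (i + 1) * 2 ^ a := by
      rw [IsGalois.card_aut_eq_finrank, ← Module.finrank_mul_finrank K L F, hL, h1]
    obtain ⟨H, hH, hle⟩ := Sylow.exists_subgroup_card_pow_succ (p := 2) (n := a)
      (by rw [h3]; exact ⟨2 ^ i, by ring⟩) ha
    have h4 : fixedField H ≤ L := by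
      rw [← IsGalois.fixedField_fixingSubgroup L]
      exact fixedField_le hle
    have h5 : Module.finrank K (fixedField H) = 2 ^ i := by
      have := Module.finrank_mul_finrank K (fixedField H) F
      rw [finrank_fixedField_eq_card, hH, ← IsGalois.card_aut_eq_finrank K F, h3] at this
      exact Nat.eq_of_mul_eq_mul_right (Nat.two_pow_pos (a + 1)) (this.trans (by ring))
    let : Algebra (fixedField H) L := (inclusion h4).toRingHom.toAlgebra
    have : IsScalarTower K (fixedField H) L := IsScalarTower.of_algebraMap_eq fun _ => rfl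
    have h6 : Module.finrank (fixedField H) L = 2 := by
      have := Module.finrank_mul_finrank K (fixedField H) L
      rw [h5, hL, pow_succ] at this
      exact Nat.eq_of_mul_eq_mul_left (Nat.two_pow_pos i) this
    rw [← tower_arith]
    exact sel_quad h6 h2 (unr_of_discr L hN) hd
      (ih _ h5 fun p hp hq => hN p hp (hq.trans (discr_dvd_discr _ _)))

open NumberField in
theorem ExpBd.unif {K : Type} [Field K] [NumberField K] (h : ExpBd K) {D : ℕ} (hD : D ≠ 0) :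
    ∃ r, ExpM r ∧ ∀ (F : Type) [Field F] [NumberField F] [Algebra K F] [IsGalois K F],
      IsPGroup 2 (F ≃ₐ[K] F) → ∀ (L : IntermediateField K F) [DecidableEq L],
        (∀ p : ℕ, p.Prime → (p : ℤ) ∣ discr L → p ∣ D) → ∀ e : ℤ × ℤ, disc e ≠ 0 →
          Module.finrank ℤ (crv e L).toAffine.Point ≤ r e * Module.finrank K L := by
  obtain ⟨N, n0, h0⟩ := h
  obtain ⟨m, hm, hb⟩ := h0 (N * (2 * D)) (by positivity) (dvd_mul_right _ _)
  refine ⟨_, hm.add (ExpM.const 9), fun F _ _ _ _ hG L _ hL e hd => ?_⟩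
  have : Fact (Nat.Prime 2) := ⟨Nat.prime_two⟩
  have : FiniteDimensional K F := Module.Finite.of_restrictScalars_finite ℚ K F
  obtain ⟨j, hj⟩ := hG.exists_card_eq
  obtain ⟨i, -, hi⟩ := (Nat.dvd_prime_pow Nat.prime_two).1
    (show Module.finrank K L ∣ 2 ^ j from ⟨_, by
      rw [← hj, IsGalois.card_aut_eq_finrank, Module.finrank_mul_finrank K L F]⟩)
  have hN : ∀ p : ℕ, p.Prime → (p : ℤ) ∣ discr L → p ∣ N * (2 * D) := fun p hp hq =>
    ((hL p hp hq).mul_left 2).mul_left N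
  have he : e ∈ box (e.1.natAbs + e.2.natAbs + 1) := by
    have h1 : (1 : ℤ) ≤ ((e.1.natAbs + e.2.natAbs + 1 : ℕ) : ℤ) := by omega
    refine mem_box.2 ⟨le_trans ?_ (le_self_pow₀ h1 two_ne_zero),
      le_trans ?_ (le_self_pow₀ h1 three_ne_zero), hd⟩ <;> rw [Int.abs_eq_natAbs] <;> omega
  have h3 := rank_le (unr_of_discr L hN) hd (sel_inter hG ⟨N * D, by ring⟩ hd
    (hb _ (by omega) e he) i L hi hN)
  have h4 : 1 ≤ 2 ^ i := Nat.one_le_two_pow
  rw [hi, mul_comm, add_comm (m e) 9, show 9 + m e = m e + 8 + 1 by ring, mul_add_one]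
  omega

open WeierstrassCurve WeierstrassCurve.Affine in
theorem crv_bc (k : Type*) [Field k] [CharZero k] :
    (crv e ℚ).toAffine⁄k = (crv e k).toAffine := by
  ext <;> simp [Affine.baseChange, WeierstrassCurve.baseChange]

open WeierstrassCurve WeierstrassCurve.Affine in
theorem rank_mono {k k' : Type} [Field k] [Field k'] [NumberField k] [NumberField k']
    [DecidableEq k] [DecidableEq k'] (f : k →+* k') (hd : disc e ≠ 0) :
    Module.finrank ℤ (crv e k).toAffine.Point ≤ Module.finrank ℤ (crv e k').toAffine.Point := by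
  have := crv_isElliptic (F := k') hd
  have : Module.Finite ℤ (crv e k').toAffine.Point :=
    Module.Finite.iff_addGroup_fg.mpr (Pool.Agent.MP_651af7_nt.MW.fg (crv e k'))
  revert this
  rw [← crv_bc k, ← crv_bc k']
  intro _
  exact LinearMap.finrank_le_finrank_of_injective
    (f := (Point.map (W' := (crv e ℚ).toAffine) f.toRatAlgHom).toIntLinearMap)
    (Point.map_injective _)

end Pool.Agent.Lib.MP_775b3b_nt
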