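import Pool.Agent.Lib.MP_775b3b_nt.YM3

/-! Twisting places of both kinds. -/

namespace Pool.Agent.Lib.MP_775b3b_nt

open Cub MP_439fea_co WithZero

variable {e : ℤ × ℤ} {k k' : Type} [Field k] [NumberField k] [Field k'] [NumberField k']
  {v : P k} {r : ℤ} {φ : k →+* k'} {w : P k'}

/-- `Val_lt_iff_mem` -/
theorem place_ext {v v' : P k} (h : ∀ x : k, val v x < 1 ↔ val v' x < 1) : v = v' := by
  ext r
  rw [← Val_lt_iff_mem, ← Val_lt_iff_mem, h]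

theorem SqDesc.mid {k'' : Type} [Field k''] [NumberField k''] {ψ : k' →+* k''} {w' : P k''}
    (ho : Over ψ w' w) (h : SqDesc (ψ.comp φ) w') : SqDesc φ w := by
  intro x hx hy
  obtain ⟨y, hy⟩ := hy
  obtain ⟨t, ht⟩ := h x (by rw [RingHom.comp_apply, ho, hx])
    ⟨ψ y, by rwa [RingHom.comp_apply, ← map_pow, ← map_sub, ho]⟩
  exact ⟨t, by rwa [RingHom.comp_apply, ho] at ht⟩

theorem TyA.fv_ne (h : TyA e v r) : fv e (r : k) ≠ 0 := by
  intro h0
  have h1 := h.unif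
  rw [h0, map_zero] at h1
  exact exp_ne_zero h1.symm

/-- the proof of `Tv_iso` -/
theorem TyA.iso (h : TyA e v r) {d : (Cub e k)ˣ} (hd : d ∈ Tv e v r) :
    LocIso v (d : Cub e k) := by
  rcases hd with hd | ⟨z, hz⟩
  · exact usv_iso h.two (sqv_le_usv hd)
  have hπ := h.fv_ne
  have hπv := h.unif
  have hr : val v (r : k) ≤ 1 := val_int_le v r
  have h7 : val v (4 : k) = 1 := by
    rw [show (4 : k) = 2 * 2 by norm_num, map_mul, h.two, one_mul]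
  have he : exp (-1 : ℤ) < 1 := by
    rw [← exp_zero, exp_lt_exp]
    norm_num
  rw [Units.val_mul, Units.val_mul, Units.val_pow_eq_pow_val, tauU_val hπ] at hz
  obtain ⟨ε, hε⟩ : ∃ ε, ε = (d : Cub e k) * tau e (r : k) * (z : Cub e k) ^ 2 - 1 := ⟨_, rfl⟩
  rw [← hε] at hz
  have ha := lin_mem_Ov (e := e) hr
  have hlt := lin_mul_tau (e := e) (r : k)
  have hi : algebraMap k (Cub e k) (fv e (r : k))⁻¹ * (lin e (r : k) * tau e (r : k)) = 1 := by
    rw [hlt, ← map_mul, inv_mul_cancel₀ hπ, map_one]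
  refine ⟨tau e (r : k) * (z : Cub e k) * lin e (r : k) * th,
    (fv e (r : k))⁻¹ • (tau e (r : k) * (z : Cub e k) * lin e (r : k)), ?_, ?_, ?_⟩
  · have h1 : (d : Cub e k) * (tau e (r : k) * (z : Cub e k) * lin e (r : k) * th) *
        (fv e (r : k))⁻¹ • (tau e (r : k) * (z : Cub e k) * lin e (r : k)) =
        lin e (r : k) * th + lin e (r : k) * th * ε := by
      rw [Algebra.smul_def, hε]
      linear_combination ((d : Cub e k) * tau e (r : k) * (z : Cub e k) ^ 2 * lin e (r : k) * th) * hi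
    have h2 : (lin e (r : k) * th).c2 = -1 := by simp [lin]
    rw [Bf, h1, add_c2, h2, ← Valuation.map_neg, neg_add, neg_neg]
    refine Valuation.map_one_add_of_lt _ ?_
    rw [Valuation.map_neg]
    exact (hz.mul_left (mul_mem ha th_mem_Ov)).2.2
  · have h1 : (d : Cub e k) * (fv e (r : k))⁻¹ • (tau e (r : k) * (z : Cub e k) * lin e (r : k)) *
        (fv e (r : k))⁻¹ • (tau e (r : k) * (z : Cub e k) * lin e (r : k)) =
        (fv e (r : k))⁻¹ • (lin e (r : k) + lin e (r : k) * ε) := by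
      rw [Algebra.smul_def, Algebra.smul_def, hε]
      linear_combination (algebraMap k (Cub e k) (fv e (r : k))⁻¹ * (d : Cub e k) * tau e (r : k) *
        (z : Cub e k) ^ 2 * lin e (r : k)) * hi
    have h2 : (lin e (r : k)).c2 = 0 := rfl
    rw [Bf, h1, smul_c2, add_c2, h2, zero_add, smul_eq_mul, map_mul, map_inv₀, hπv]
    exact (inv_mul_le_one₀ exp_pos).2 (val_le_exp (hz.mul_left ha).2.2)
  · have h1 : (d : Cub e k) * (tau e (r : k) * (z : Cub e k) * lin e (r : k) * th) *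
        (tau e (r : k) * (z : Cub e k) * lin e (r : k) * th) =
        fv e (r : k) • (lin e (r : k) * th * th * (1 + ε)) := by
      rw [Algebra.smul_def, hε, ← hlt]
      ring
    rw [Bf, h1, h7]
    exact (Sm.smul_of_lt (hπv ▸ he) (mul_mem (mul_mem (mul_mem ha th_mem_Ov) th_mem_Ov)
      (add_mem (one_mem _) hz.mem))).2.2

/-- the proof of `TyV.aniso` -/
theorem TyA.aniso (h : TyA e v r) {s t : (Cub e k)ˣ} (hs : s ∈ usv e v) (hs' : s ∈ nsq e k)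
    (hn : s ∉ sqv e v) (ht : t * tauU e k r ∈ sqv e v) :
    ¬ Iso ((s * t : (Cub e k)ˣ) : Cub e k) ∧
      ∃ x, val v (Bf ((s * t : (Cub e k)ˣ) : Cub e k) x x) = exp (-1 : ℤ) := by
  have hr : val v (r : k) ≤ 1 := val_int_le v r
  obtain ⟨z₁, h1, h2⟩ := mem_usv.1 hs
  obtain ⟨z₂, h3⟩ := ht
  obtain ⟨h4, h5⟩ := h3.val_nm
  have hq1 : s * z₁ ^ 2 ∈ nsq e k := mul_mem hs' (SQ_le_nsq (sq_mem_SQ z₁))
  have hn1 : s * z₁ ^ 2 ∉ sqv e v := fun h6 => hn (by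
    have h7 := mul_mem h6 (SQ_le_sqv (sq_mem_SQ z₁⁻¹))
    rwa [mul_assoc, ← mul_pow, mul_inv_cancel, one_pow, mul_one] at h7)
  have hZ : ((s * t : (Cub e k)ˣ) : Cub e k) * (z₁ * z₂ * tauU e k r : (Cub e k)ˣ) *
      (z₁ * z₂ * tauU e k r : (Cub e k)ˣ) = tau e (r : k) * ((s * z₁ ^ 2 : (Cub e k)ˣ) *
        (t * tauU e k r * z₂ ^ 2 : (Cub e k)ˣ) : Cub e k) := by
    rw [← tauU_val h.fv_ne]
    simp only [Units.val_mul, Units.val_pow_eq_pow_val]
    ring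
  generalize s * z₁ ^ 2 = u at h1 h2 hq1 hn1 hZ
  generalize ((t * tauU e k r * z₂ ^ 2 : (Cub e k)ˣ) : Cub e k) = w at h3 h4 h5 hZ
  generalize z₁ * z₂ * tauU e k r = Z at hZ
  generalize ((s * t : (Cub e k)ˣ) : Cub e k) = d at hZ
  obtain ⟨κ, _, _, ρ, hρ⟩ := exists_redAt v
  have huw : (u : Cub e k) * w ∈ Ov e v := mul_mem h1 h4
  have hnm : val v (nm ((u : Cub e k) * w)) = 1 := by rw [nm_mul, map_mul, h2, h5, one_mul]
  have hrd : rdC ρ ((u : Cub e k) * w) = rdC ρ (u : Cub e k) := by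
    rw [rdC_mul ρ h1 h4, (hρ.rdC_eq_iff h4 (one_mem _)).2 h3, rdC_one, mul_one]
  obtain ⟨k1, k2⟩ := h.val_form _ huw hnm
    (by
      rw [← hρ.isSquare_iff hnm.le, ← nm_rdC ρ huw, hrd, nm_rdC ρ h1, hρ.isSquare_iff h2.le]
      obtain ⟨ν, hν⟩ := hq1
      exact ⟨ν, by rw [hν, sub_self, map_zero]; exact zero_lt_one⟩)
    (fun y hy => hn1 (h.sqv_of_evr _ h1 h2 hq1 (by
      rw [← hρ.isSquare_iff (val_evr_le hr h1), ← evr_rdC ρ hr h1, ← hrd, evr_rdC ρ hr huw,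
        hρ.isSquare_iff (val_evr_le hr huw)]
      exact ⟨y, hy⟩)))
  have key : ∀ x : Cub e k, Bf d (Z * x) (Z * x) = (tau e (r : k) * (u * w) * x * x).c2 := by
    intro x
    rw [Bf, ← hZ]
    congr 1
    ring
  refine ⟨?_, Z * lin e (r : k), by rw [key, k2]⟩
  rintro ⟨x, hx, hb⟩
  obtain ⟨c, -, hc1, hc2⟩ := exists_prim v (x := ((Z⁻¹ : (Cub e k)ˣ) : Cub e k) * x)
    (fun h0 => hx ((Units.mul_right_eq_zero _).1 h0))
  refine k1 _ hc1 hc2 ?_
  rw [← key, mul_smul_comm, Units.mul_inv_cancel_left, Bf_smul_left, Bf_smul_right, hb,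
    mul_zero, mul_zero]

/-- `usv_or` at `v`, `Over.usv`, `uz_tauU`, `tau_not_mem` at `w` -/
theorem TyA.usv_desc (ho : Over φ w v) (hw : TyA e w r) (hv : TyA e v r) {d : (Cub e k)ˣ}
    (hd : d ∈ nsq e k) (h : uz e φ d ∈ usv e w) : d ∈ usv e v := by
  rcases hv.usv_or d hd with h1 | h1
  · exact h1
  · have h2 := ho.usv h1
    rw [map_mul, uz_tauU] at h2
    have h3 := mul_mem (inv_mem h) h2
    rw [inv_mul_cancel_left] at h3
    exact absurd h3 hw.tau_not_mem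

/-- the proof of `sqv_desc` -/
theorem TyA.sqv_desc (ho : Over φ w v) (hw : TyA e w r) (hv : TyA e v r) (hs : SqDesc φ w)
    {d : (Cub e k)ˣ} (hd : d ∈ nsq e k) (h : uz e φ d ∈ sqv e w) : d ∈ sqv e v := by
  obtain ⟨z, a1, a2⟩ := mem_usv.1 (TyA.usv_desc ho hw hv hd (sqv_le_usv h))
  have h2 : uz e φ (d * z ^ 2) ∈ sqv e w := by
    rw [map_mul, map_pow]
    exact mul_mem h (SQ_le_sqv (sq_mem_SQ _))
  have h3 := hw.evr_of_sqv _ (ho.mem_Ov.2 a1) (by rw [uz_val, nm_map, ho, a2]) h2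
  have h4 : ∀ x : Cub e k, evr (r : k') (map φ x) = φ (evr (r : k) x) := fun x => by
    simp [evr]
  rw [uz_val, h4] at h3
  obtain ⟨y, hy⟩ := hs _ (by rw [ho, hv.val_evr _ a1 a2]) h3
  rw [ho] at hy
  have h5 := hv.sqv_of_evr _ a1 a2 (mul_mem hd (SQ_le_nsq (sq_mem_SQ z))) ⟨y, hy⟩
  have h6 := mul_mem h5 (SQ_le_sqv (v := v) (sq_mem_SQ z⁻¹))
  rwa [mul_assoc, ← mul_pow, mul_inv_cancel, one_pow, mul_one] at h6

/-- the proof of `Tv_desc` -/
theorem TyA.Tv_desc (ho : Over φ w v) (hw : TyA e w r) (hv : TyA e v r) (hs : SqDesc φ w)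
    {d : (Cub e k)ˣ} (hd : d ∈ nsq e k) (h : uz e φ d ∈ Tv e w r) : d ∈ Tv e v r := by
  rcases h with h | h
  · exact Or.inl (TyA.sqv_desc ho hw hv hs hd h)
  · refine Or.inr (TyA.sqv_desc ho hw hv hs (mul_mem hd (tauU_mem_nsq r)) ?_)
    rwa [map_mul, uz_tauU]

theorem TyB.tyA (h : TyB e v) : TyA e v (rg e (pr v)) := h.elim (·.2.tyA) (·.2.tyA)

/-- `Over.pr_eq`, `Over.tyV`, `Over.tyM` -/
theorem TyB.down (ho : Over φ w v) (h : TyB e w) : TyB e v := by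
  rw [TyB, ho.pr_eq] at h
  exact h.imp (fun h => ⟨h.1, ho.tyV h.2⟩) fun h => ⟨h.1, ho.tyM.1 h.2⟩

/-- with `φ.toAlgebra`: `exists_above`, `pr_eq`, `over_und` -/
theorem exists_over_of_unr (φ : k →+* k') (v : P k) {x : k}
    (h : ∀ w : P k', pr w = pr v → val w (φ x) = exp (-1 : ℤ)) : ∃ w : P k', Over φ w v := by
  let := φ.toAlgebra
  obtain ⟨w, rfl, hw⟩ := exists_above (k' := k') v
  have h1 := (hw _).2 (val_pr (und k w))
  rw [map_natCast (algebraMap k k')] at h1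
  exact ⟨w, over_und w (h w (pr_eq (pr_prime _) h1))⟩

/-- `exists_over_of_unr` with `x = f(rg e (pr v))` -/
theorem NiceB.exists_over {D : Finset ℕ} (h : NiceB e D k') (φ : k →+* k') {v : P k}
    (hv : pr v ∈ D) : ∃ w : P k', Over φ w v := by
  refine exists_over_of_unr φ v (x := fv e (rg e (pr v) : k)) fun w hw => ?_
  rw [map_fv, map_intCast φ, ← hw]
  exact (h.ty w (hw ▸ hv)).tyA.unif

/-- `exists_over_of_unr` with `x = 2` -/
theorem NiceB.exists_over_two {D : Finset ℕ} (h : NiceB e D k') (φ : k →+* k') {v : P k}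
    (hv : val v (2 : k) < 1) : ∃ w : P k', Over φ w v := by
  refine exists_over_of_unr φ v (x := 2) fun w hw => ?_
  have h1 : pr v = 2 := pr_eq Nat.prime_two (by exact_mod_cast hv)
  have h2 := val_lt_of_pr (hw.trans h1)
  rw [map_ofNat φ]
  exact (h.two w (by exact_mod_cast h2)).1

theorem NiceB.down {D : Finset ℕ} (h : NiceB e D k') (φ : k →+* k') : NiceB e D k := by
  refine ⟨h.pos, fun v hv => ?_, fun v hv => ?_⟩
  · obtain ⟨w, ho⟩ := h.exists_over_two φ hv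
    exact ho.eis2.1 (h.two w (ho.two ▸ hv))
  · obtain ⟨w, ho⟩ := h.exists_over φ hv
    exact (h.ty w (ho.pr_eq ▸ hv)).down ho

theorem NiceB.niceG {D : Finset ℕ} (h : NiceB e D k) {Λ : Set (P k)} (hΛ : Λ ⊆ Pls D k) :
    NiceG e Λ :=
  ⟨h.pos, h.two, fun v hv => (h.ty v (hΛ hv)).tyA⟩

theorem Over.lam_up {D : Finset ℕ} {d : ℕ} (ho : Over φ w v) (h : v ∈ Lam e D d k) :
    w ∈ Lam e D d k' := by
  obtain ⟨h1, h2⟩ := h
  rw [← ho.pr_eq] at h1 h2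
  refine ⟨h1, h2.imp id fun ⟨y, hy⟩ => ⟨φ y, ?_⟩⟩
  rwa [← ho, map_sub, map_div₀, map_pow, map_fv, map_natCast φ, map_intCast φ] at hy

/-- `d / f` is a unit at `w` -/
theorem Over.lam_down {D : Finset ℕ} {d : ℕ} (ho : Over φ w v) (hs : SqDesc φ w) (hw : TyB e w)
    (hd : val w (d : k') = exp (-1 : ℤ)) (h : w ∈ Lam e D d k') : v ∈ Lam e D d k := by
  obtain ⟨h1, h2⟩ := h
  have h3 := hw.tyA.unif
  rw [ho.pr_eq] at h1 h2 h3
  refine ⟨h1, h2.imp id fun hy => ?_⟩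
  have h4 : φ ((d : k) / fv e (rg e (pr v) : k)) = (d : k') / fv e (rg e (pr v) : k') := by
    rw [map_div₀, map_fv, map_natCast φ, map_intCast φ]
  obtain ⟨y, hy⟩ := hs _ (by rw [h4, map_div₀, hd, h3, div_self exp_ne_zero]) (by rwa [h4])
  exact ⟨y, by rwa [ho] at hy⟩

/-- `pt_mem_Tv`, `TyM.pt` -/
theorem TyB.pt (h : TyB e v) {D : Finset ℕ} (hD : pr v ∈ D) {d : ℕ} {x y : k}
    (hd : val v (d : k) = exp (-1 : ℤ))
    (hxy : y ^ 2 = x ^ 3 + (e.1 : k) * (d : k) ^ 2 * x + (e.2 : k) * (d : k) ^ 3) {δ : (Cub e k)ˣ}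
    (hδ : (δ : Cub e k) = algebraMap k (Cub e k) x - (d : k) • th) :
    (v ∈ Lam e D d k → δ ∈ Tv e v (rg e (pr v))) ∧ (v ∉ Lam e D d k → δ ∈ usv e v) := by
  rcases h with h | h
  · exact ⟨fun _ => pt_mem_Tv h.2 hd hxy hδ, fun h1 => absurd ⟨hD, Or.inl h.1⟩ h1⟩
  · obtain ⟨h1, h2⟩ := h.2.pt hd hxy hδ
    exact ⟨fun h3 => h1 (h3.2.resolve_left fun h4 => h4 h.1),
      fun h3 => h2 fun h4 => h3 ⟨hD, Or.inr h4⟩⟩

end Pool.Agent.Lib.MP_775b3b_nt
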