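import Pool.Agent.Lib.MP_775b3b_nt.ZFF1

/-! The cubic algebra over a field in which the cubic has a double root. -/

namespace Pool.Agent.Lib.MP_775b3b_nt

open Cub

variable {e : ℤ × ℤ} {κ : Type*} [Field κ] {s : κ}

/-- `f = (X - s)^2 (X + 2 s)` with `s ≠ 0`, so `A = -3 s^2`, `B = 2 s^3` -/
structure FM (e : ℤ × ℤ) (s : κ) : Prop where
  six : (6 : κ) ≠ 0
  ne : s ≠ 0
  root : fv e s = 0
  der : 3 * s ^ 2 + (e.1 : κ) = 0

theorem YFF_A (h : FM e s) : (e.1 : κ) = -3 * s ^ 2 := by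
  linear_combination h.der

theorem YFF_B (h : FM e s) : (e.2 : κ) = 2 * s ^ 3 := by
  rw [ZFF1_B h.root, YFF_A h]
  ring

theorem YFF_two (h : FM e s) : (2 : κ) ≠ 0 := fun h0 => h.six (by linear_combination 3 * h0)

theorem YFF_three (h : FM e s) : (3 : κ) ≠ 0 := fun h0 => h.six (by linear_combination 2 * h0)

theorem FM.root2 (h : FM e s) : fv e (-2 * s) = 0 := by
  rw [fv, YFF_A h, YFF_B h]
  ring

/-- substitute `A = -3 s^2`, `B = 2 s^3` -/
theorem FM.nm_eq (h : FM e s) (x : Cub e κ) : nm x = evr s x ^ 2 * evr (-2 * s) x := by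
  simp only [nm, evr, YFF_A h, YFF_B h]
  ring

/-- `x1 = s x2`, `x0 = -2 s^2 x2` -/
theorem FM.eq_tau (h : FM e s) {x : Cub e κ} (h1 : evr s x = 0) (h2 : evr (-2 * s) x = 0) :
    x = x.c2 • tau e s := by
  rw [evr] at h1 h2
  have h3 : 3 * s * (x.c1 - s * x.c2) = 0 := by linear_combination h1 - h2
  have h4 := (mul_eq_zero.1 h3).resolve_left (mul_ne_zero (YFF_three h) h.ne)
  ext <;> simp only [smul_c0, smul_c1, smul_c2, tau, smul_eq_mul, YFF_A h]
  · linear_combination h1 - s * h4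
  · linear_combination h4
  · ring

/-- `evr_pow` at both roots -/
theorem FM.sq_zero (h : FM e s) {x : Cub e κ} (hx : x ^ 2 = 0) : x = x.c2 • tau e s := by
  have h1 := evr_pow h.root x 2
  have h2 := evr_pow h.root2 x 2
  rw [hx] at h1 h2
  exact h.eq_tau (pow_eq_zero_iff two_ne_zero |>.1 (by rw [← h1]; simp [evr]))
    (pow_eq_zero_iff two_ne_zero |>.1 (by rw [← h2]; simp [evr]))

/-- `(s - θ)^2 = τ(-2 s)`, `mul_tau` -/
theorem FM.mul_lin_sq (h : FM e s) (x : Cub e κ) :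
    x * lin e s ^ 2 = evr (-2 * s) x • lin e s ^ 2 := by
  have h1 : lin e s ^ 2 = tau e (-2 * s) := by
    rw [sq]
    ext <;> simp only [mul_c0, mul_c1, mul_c2, lin, tau, YFF_A h, YFF_B h] <;> ring
  rw [h1, mul_tau h.root2]

theorem FM.lin_c2 (h : FM e s) (w : Cub e κ) :
    3 * s * (lin e s * w).c2 = evr (-2 * s) w - evr s w := by
  simp only [mul_c2, lin, evr, YFF_A h]
  ring

/-- the value at the simple root is a nonzero square -/
theorem YFF_sq (h : FM e s) {u : Cub e κ} (hu : IsSquare (nm u)) (hu0 : nm u ≠ 0) :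
    evr s u ≠ 0 ∧ ∃ m, m ≠ 0 ∧ evr (-2 * s) u = m * m := by
  obtain ⟨t, ht⟩ := hu
  have h1 := h.nm_eq u
  have h2 : evr s u ≠ 0 := fun h0 => hu0 (by rw [h1, h0]; ring)
  have h3 : t ≠ 0 := fun h0 => hu0 (by rw [ht, h0, mul_zero])
  refine ⟨h2, t / evr s u, div_ne_zero h3 h2, ?_⟩
  rw [div_mul_div_comm, eq_div_iff (mul_ne_zero h2 h2)]
  linear_combination ht - h1

/-- `evr s u = n^2`, `evr (-2 s) u = m^2` (`nm_eq`); `y = α + β (θ - s) + γ (θ - s)^2` with `α = n`,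
`2 n β = u1 + 2 s u2`, `α - 3 s β + 9 s^2 γ = m`.  An element `x` with `evr s x = 0`,
`evr (-2 s) x = 0` and `x1 + 2 s x2 = 0` vanishes (`eq_tau`). -/
theorem FM.isSquare (h : FM e s) {u : Cub e κ} (hu : IsSquare (nm u)) (hu0 : nm u ≠ 0)
    (hs : IsSquare (evr s u)) : IsSquare u := by
  obtain ⟨h1, m, -, hm⟩ := YFF_sq h hu hu0
  obtain ⟨n, hn⟩ := hs
  have hn0 : n ≠ 0 := fun h0 => h1 (by rw [hn, h0, mul_zero])
  have h3 : 3 * s ≠ 0 := mul_ne_zero (YFF_three h) h.ne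
  obtain ⟨β, hβ⟩ : ∃ β, 2 * n * β = u.c1 + 2 * s * u.c2 :=
    ⟨_, mul_div_cancel₀ _ (mul_ne_zero (YFF_two h) hn0)⟩
  obtain ⟨γ, hγ⟩ : ∃ γ, (3 * s) ^ 2 * γ = m - n + 3 * s * β :=
    ⟨_, mul_div_cancel₀ _ (pow_ne_zero 2 h3)⟩
  obtain ⟨y, hy⟩ : ∃ y : Cub e κ, y = ⟨n - β * s + γ * s ^ 2, β - 2 * γ * s, γ⟩ := ⟨_, rfl⟩
  have y1 : evr s y = n := by
    simp only [hy, evr]
    ring
  have y2 : evr (-2 * s) y = m := by
    simp only [hy, evr]
    linear_combination hγ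
  have y3 : (y * y).c1 + 2 * s * (y * y).c2 = 2 * n * β := by
    simp only [hy, mul_c1, mul_c2, YFF_A h, YFF_B h]
    ring
  have e1 := evr_mul h.root y y
  have e2 := evr_mul h.root2 y y
  rw [y1, ← hn] at e1
  rw [y2, ← hm] at e2
  have x1 : evr s (u - y * y) = 0 := by
    simp only [evr, sub_c0, sub_c1, sub_c2] at e1 ⊢
    linear_combination -e1
  have x2 : evr (-2 * s) (u - y * y) = 0 := by
    simp only [evr, sub_c0, sub_c1, sub_c2] at e2 ⊢
    linear_combination -e2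
  have x3 := h.eq_tau x1 x2
  have x4 : 3 * s * (u - y * y).c2 = 0 := by
    have x5 := congrArg Cub.c1 x3
    simp only [smul_c1, tau, smul_eq_mul, sub_c1, sub_c2] at x5 ⊢
    linear_combination -x5 - hβ - y3
  rw [(mul_eq_zero.1 x4).resolve_left h3, zero_smul] at x3
  exact ⟨y, sub_eq_zero.1 x3⟩

/-- by `lin_c2` the vanishing gives `evr (-2 s) u * evr (-2 s) y ^ 2 = evr s u * evr s y ^ 2`, where
`evr (-2 s) u` is a nonzero square; so both values of `y` vanish, `eq_tau`, `lin_mul_tau` -/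
theorem FM.ff3 (h : FM e s) {u y : Cub e κ} (hu : IsSquare (nm u)) (hu0 : nm u ≠ 0)
    (hn : ¬ IsSquare (evr s u)) (hy : lin e s * y ≠ 0) : (u * lin e s * y ^ 2).c2 ≠ 0 := by
  intro h0
  obtain ⟨-, m, hm0, hm⟩ := YFF_sq h hu hu0
  have h1 := h.lin_c2 (u * y ^ 2)
  rw [← mul_assoc, mul_comm (lin e s) u, h0, mul_zero, evr_mul h.root, evr_mul h.root2,
    evr_pow h.root, evr_pow h.root2, hm] at h1
  have h2 : evr s y = 0 := by
    by_contra h2
    refine hn ⟨m * evr (-2 * s) y / evr s y, ?_⟩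
    rw [div_mul_div_comm, eq_div_iff (mul_ne_zero h2 h2)]
    linear_combination h1
  have h3 : evr (-2 * s) y = 0 := by
    rw [h2] at h1
    have h4 : m * m * evr (-2 * s) y ^ 2 = 0 := by linear_combination -h1
    exact pow_eq_zero_iff two_ne_zero |>.1
      ((mul_eq_zero.1 h4).resolve_left (mul_ne_zero hm0 hm0))
  apply hy
  rw [h.eq_tau h2 h3, mul_smul_comm, lin_mul_tau, h.root, map_zero, smul_zero]

end Pool.Agent.Lib.MP_775b3b_nt
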