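import Pool.Agent.Lib.MP_775b3b_nt.YM1
import Pool.Agent.Lib.MP_775b3b_nt.ZIrr

/-! Quartics with a double root. -/

namespace Pool.Agent.Lib.MP_775b3b_nt

open Cub MP_439fea_co WithZero

variable {e : ℤ × ℤ}

theorem YFF4_qev {κ : Type*} [Field κ] (c r t n x y : κ) : c * dq r t n x y =
    qev ![c, c * (2 * t + 2 * r), c * (t ^ 2 - n + 4 * r * t + r ^ 2),
      c * (2 * r * (t ^ 2 - n) + 2 * r ^ 2 * t), c * (r ^ 2 * (t ^ 2 - n))] x y := by
  simp only [dq, qev, Matrix.cons_val_zero, Matrix.cons_val_one, Matrix.cons_val]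
  ring

/-- `quart_qev`, `qev_inj` -/
theorem DblV.quart_eq {κ : Type*} [Field κ] (h6 : (6 : κ) ≠ 0) {u w0 w1 w2 : Cub e κ} {ν : κ}
    (H : Hyp u ν w0 w1 w2)
    (h : DblV (RingHom.id κ) fun m => quart u w0 w1 w2 ((pt5 m).1 : κ) ((pt5 m).2 : κ)) :
    ∃ c r t n : κ, c ≠ 0 ∧ ¬ IsSquare n ∧ ∀ x y, quart u w0 w1 w2 x y = c * dq r t n x y := by
  obtain ⟨c, hc, r, t, n, hn, hy⟩ := h
  refine ⟨c, r, t, n, hc, hn, fun x y => ?_⟩
  rw [H.quart_qev, YFF4_qev, qev_inj h6 fun m =>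
    (H.quart_qev _ _).symm.trans ((hy m).trans (YFF4_qev c r t n _ _))]

/-- an isotropic eigenvector of the multiplication by `θ` -/
theorem YFF4_eigen {κ : Type*} [Field κ] {u V : Cub e κ} {s : κ} (hu : nm u ≠ 0) (hV : V ≠ 0)
    (h : th * V = s • V) (hB : Bf u V V = 0) : (disc e : κ) = 0 ∧ nm V = 0 := by
  have h0 := congrArg Cub.c0 h
  have h1 := congrArg Cub.c1 h
  have h2 := congrArg Cub.c2 h
  simp only [mul_c0, mul_c1, mul_c2, th_c0, th_c1, th_c2, smul_c0, smul_c1, smul_c2,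
    smul_eq_mul] at h0 h1 h2
  obtain ⟨a, ha⟩ : ∃ a : κ, a = V.c2 := ⟨_, rfl⟩
  have hV' : V = a • tau e s := by
    ext <;> simp only [smul_c0, smul_c1, smul_c2, tau, smul_eq_mul, ha]
    · linear_combination h1 + s * h2
    · linear_combination h2
    · ring
  have ha0 : a ≠ 0 := fun h3 => hV (by rw [hV', h3, zero_smul])
  have hs : fv e s = 0 := mul_left_cancel₀ ha0 (by
    rw [fv, ha]
    linear_combination -h0 - s * h1 - s ^ 2 * h2)
  have hd : 3 * s ^ 2 + (e.1 : κ) = 0 := by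
    rw [hV', Bf_smul_left, Bf_smul_right, Bf, mul_tau hs, evr_mul hs, smul_c2, evr_tau] at hB
    have h3 : evr s u ≠ 0 := fun h4 => hu (by rw [nm_eq_evr_mul hs, h4, zero_mul])
    refine mul_left_cancel₀ (mul_ne_zero ha0 (mul_ne_zero ha0 h3)) ?_
    simp only [tau, smul_eq_mul] at hB
    linear_combination hB
  refine ⟨neg_eq_zero.1 (by rw [neg_disc_eq hs, hd]; ring), ?_⟩
  rw [hV', nm_smul, nm_eq_evr_mul hs, evr_tau]
  linear_combination (a ^ 3 * n2 s (tau e s)) * hd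

/-- Translate by `Hyp.translate`-like formulas, or directly: `V = Vq (-r) 1`,
`V' = -r w0 + w1` (half of the derivative in `x`).  `Bf V V = Bf V V' = 0`, and
`Gv V V = Gv V V' = 0` because `-r` is a double root (compare coefficients, `qev_inj`).
`V, V', w0` is a basis with `Bf V w0 = -2`; with `s = Gv V w0 / Bf V w0` the form
`(u (θ - s) V x).c2` vanishes on the basis (`cramer`, `eq_zero_of_c2`), so `(θ - s) V = 0` as `u` is
invertible.  In coordinates `V = V.c2 • τ(s)`, `V ≠ 0`, `f(s) = 0`; `Bf V V = 0` gives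
`evr s u * f'(s) = 0` (`mul_tau`), and `evr s u ≠ 0` (`nm_eq_evr_mul`). -/
theorem ff4M_root {κ : Type*} [Field κ] (h6 : (6 : κ) ≠ 0) {u w0 w1 w2 : Cub e κ} {ν : κ}
    (H : Hyp u ν w0 w1 w2) {c r t n : κ}
    (h : ∀ x y, quart u w0 w1 w2 x y = c * dq r t n x y) :
    (disc e : κ) = 0 ∧ nm (Vq w0 w1 w2 (-r) 1) = 0 := by
  have h2 : (2 : κ) ≠ 0 := fun h => h6 (by linear_combination 3 * h)
  have hc := qev_inj h6 fun m =>
    (H.quart_qev _ _).symm.trans ((h ((pt5 m).1 : κ) ((pt5 m).2 : κ)).trans (YFF4_qev c r t n _ _))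
  have c0 : Gv u w0 w0 = c := congrFun hc 0
  have c1 : 4 * Gv u w0 w1 = c * (2 * t + 2 * r) := congrFun hc 1
  have c2 : 6 * Gv u w1 w1 = c * (t ^ 2 - n + 4 * r * t + r ^ 2) := congrFun hc 2
  have c3 : -(8 * Gv u w1 w2) = c * (2 * r * (t ^ 2 - n) + 2 * r ^ 2 * t) := congrFun hc 3
  have c4 : 4 * Gv u w2 w2 = c * (r ^ 2 * (t ^ 2 - n)) := congrFun hc 4
  have ht := H.trace
  obtain ⟨V, hV⟩ : ∃ V, V = Vq w0 w1 w2 (-r) 1 := ⟨_, rfl⟩
  have hB : ∀ d x : Cub e κ, Bf d V x = r ^ 2 * Bf d w0 x - 2 * r * Bf d w1 x - 2 * Bf d w2 x :=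
    fun d x => by
      simp only [hV, Vq, Bf_sub_left, Bf_add_left, Bf_smul_left]
      ring
  have b0 : Bf u V w0 = -2 := by
    rw [hB, H.h00, Bf_comm u w1, H.h01, Bf_comm u w2, H.h02]
    ring
  have b1 : Bf u V w1 = -2 * r := by
    rw [hB, H.h01, H.h11, Bf_comm u w2, H.h12]
    ring
  have b2 : Bf u V w2 = r ^ 2 := by
    rw [hB, H.h02, H.h12, H.h22]
    ring
  have g0 : Gv u V w0 = r ^ 2 * Gv u w0 w0 - 2 * r * Gv u w0 w1 - 2 * Gv u w0 w2 := by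
    rw [Gv_comm u w0 w1, Gv_comm u w0 w2]
    exact hB _ _
  have g1 : Gv u V w1 = r ^ 2 * Gv u w0 w1 - 2 * r * Gv u w1 w1 - 2 * Gv u w1 w2 := by
    rw [Gv_comm u w1 w2]
    exact hB _ _
  have g2 : Gv u V w2 = r ^ 2 * Gv u w0 w2 - 2 * r * Gv u w1 w2 - 2 * Gv u w2 w2 := hB _ _
  obtain ⟨s, hs⟩ : ∃ s : κ, Gv u V w0 = s * -2 := ⟨Gv u V w0 / -2, by field_simp⟩
  have h4 : (4 : κ) ≠ 0 := fun h => mul_ne_zero h2 h2 (by linear_combination h)
  have s1 : Gv u V w1 = s * (-2 * r) := mul_left_cancel₀ h4 (by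
    linear_combination 4 * g1 - 4 * r * g0 + 4 * r * hs - 4 * r ^ 3 * c0 + 3 * r ^ 2 * c1 -
      2 * r * c2 + c3 + 4 * r * ht)
  have s2 : Gv u V w2 = s * r ^ 2 := mul_left_cancel₀ h4 (by
    linear_combination 4 * g2 + 2 * r ^ 2 * g0 - 2 * r ^ 2 * hs + 2 * r ^ 4 * c0 - r ^ 3 * c1 +
      r * c3 - 2 * c4)
  have hz : u * (th * V - s • V) = 0 := eq_zero_of_c2 fun x => by
    have h5 : (u * (th * V - s • V) * x).c2 = Gv u V x - s * Bf u V x := by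
      rw [Gv_eq_Bf', ← Bf_smul_left, ← Bf_sub_left, Bf]
    rw [h5, H.expand x, Gv_eq_Bf]
    simp only [Bf_add_right, Bf_smul_right, ← Gv_eq_Bf, hs, s1, s2, b0, b1, b2]
    ring
  have hu : nm u ≠ 0 := H.nu ▸ pow_ne_zero 2 H.nu0
  rw [← hV]
  refine YFF4_eigen hu (fun h0 => ?_)
    (sub_eq_zero.1 ((isUnit_iff.2 hu).mul_right_eq_zero.1 hz)) (hV ▸ zff4_iso H _ _)
  rw [h0, Bf, mul_zero, zero_mul, zero_c2] at b0
  exact h2 (by linear_combination b0)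

/-- the zeros of the quartic lie on the double line -/
theorem YFF4_nm {κ : Type*} [Field κ] (h6 : (6 : κ) ≠ 0) {u w0 w1 w2 : Cub e κ} {ν : κ}
    (H : Hyp u ν w0 w1 w2) {c r t n : κ} (hc : c ≠ 0) (hn : ¬ IsSquare n)
    (h : ∀ x y, quart u w0 w1 w2 x y = c * dq r t n x y) {x y : κ}
    (h0 : quart u w0 w1 w2 x y = 0) : nm (Vq w0 w1 w2 x y) = 0 := by
  have hx : x = -r * y := by
    rw [h, dq] at h0
    rcases mul_eq_zero.1 ((mul_eq_zero.1 h0).resolve_left hc) with h1 | h1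
    · linear_combination pow_eq_zero_iff two_ne_zero |>.1 h1
    · by_cases hy : y = 0
      · subst hy
        have h2 : x ^ 2 = 0 := by linear_combination h1
        linear_combination pow_eq_zero_iff two_ne_zero |>.1 h2
      · refine (hn ⟨(x + t * y) / y, ?_⟩).elim
        field_simp
        linear_combination -h1
  have h1 : Vq w0 w1 w2 x y = y ^ 2 • Vq w0 w1 w2 (-r) 1 := by
    rw [hx, Vq, Vq]
    ext <;> simp <;> ring
  rw [h1, nm_smul, (ff4M_root h6 H h).2, mul_zero]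

/-- If `u y^2 = 1` then `Bf u y y = Gv u y y = 0`, so `y` is proportional to some `Vq a b` with
`quart a b = 0` (see `zff4_two`), hence `a = -r b` and `y` is proportional to `Vq (-r) 1`, which has
norm zero. -/
theorem ff4M {κ : Type*} [Field κ] (h6 : (6 : κ) ≠ 0) {u w0 w1 w2 : Cub e κ} {ν : κ}
    (H : Hyp u ν w0 w1 w2)
    (h : DblV (RingHom.id κ) fun m => quart u w0 w1 w2 ((pt5 m).1 : κ) ((pt5 m).2 : κ)) :
    (disc e : κ) = 0 ∧ ∀ y : Cub e κ, u * y ^ 2 ≠ 1 := by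
  have h2 : (2 : κ) ≠ 0 := fun h => h6 (by linear_combination 3 * h)
  obtain ⟨c, r, t, n, hc, hn, hQ⟩ := h.quart_eq h6 H
  refine ⟨(ff4M_root h6 H hQ).1, fun z hz => ?_⟩
  have h3 : u * z * z = 1 := by rw [← hz, sq, mul_assoc]
  have hB : Bf u z z = 0 := by rw [Bf, h3, one_c2]
  have hG : Gv u z z = 0 := by
    rw [Gv, show u * th * z * z = u * z * z * th by ring, h3, one_mul, th_c2]
  have key : ∀ x y a : κ, Vq w0 w1 w2 x y = a • z → a = 0 := fun x y a h5 => by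
    have h7 := YFF4_nm h6 H hc hn hQ (x := x) (y := y) (by
      rw [quart, h5, Gv_eq_Bf, Bf_smul_left, Bf_smul_right, ← Gv_eq_Bf, hG, mul_zero, mul_zero])
    have h8 := congrArg nm h3
    rw [nm_mul, nm_mul, nm_one] at h8
    rw [h5, nm_smul] at h7
    exact pow_eq_zero_iff (n := 3) (by norm_num) |>.1
      (by linear_combination (nm u * nm z) * h7 - a ^ 3 * h8)
  obtain ⟨a, b, d, hx⟩ : ∃ a b d : κ, z = a • w0 + b • w1 + d • w2 := ⟨_, _, _, H.expand z⟩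
  have h4 : 2 * a * d + b ^ 2 = 0 := by
    rw [hx] at hB
    simp only [Bf_add_left, Bf_add_right, Bf_smul_left, Bf_smul_right, Bf_comm u w1 w0,
      Bf_comm u w2 w0, Bf_comm u w2 w1, H.h00, H.h01, H.h02, H.h11, H.h12, H.h22] at hB
    linear_combination hB
  have ha : a = 0 := key a (b / 2) a (by
    have h7 : 2 * (b / 2) ^ 2 = -(a * d) := by
      field_simp
      linear_combination h4
    have h8 : 2 * a * (b / 2) = a * b := by field_simp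
    rw [hx, Vq, h7, h8]
    ext <;> simp <;> ring)
  have hb : b = 0 := by
    rw [ha] at h4
    exact pow_eq_zero_iff two_ne_zero |>.1 (by linear_combination h4)
  have hd : d ≠ 0 := by
    rintro rfl
    rw [ha, hb, zero_smul, zero_smul, zero_smul, add_zero, add_zero] at hx
    rw [hx, mul_zero] at h3
    exact zero_ne_one (congrArg Cub.c0 h3)
  refine div_ne_zero (neg_ne_zero.2 h2) hd (key 0 1 _ ?_)
  rw [hx, ha, hb, Vq]
  ext <;> simp <;> field_simp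

/-- As `not_sqv_of_irr`.  If `d z'^2 ≡ 1`, `y = z' / z` has `u y^2 ≡ 1` for `u = d z^2`, so `y^2` is
integral, `y` is integral (`tyM_of`, `TyM.mem_Ov_of_sq`), and the reduction contradicts `ff4M`. -/
theorem not_sqv_of_dbl {k : Type} [Field k] [NumberField k] {l : ℕ} [Fact l.Prime] (h5 : 5 ≤ l)
    (hl : ¬ (l : ℤ) ^ 2 ∣ disc e) {v : P k} (hv : val v (l : k) = exp (-1 : ℤ))
    {ρ : (val v).integer →+* ZMod l} (hρ : RedAt v ρ)
    {d z : (Cub e k)ˣ} {ν : k} {v0 v1 v2 : Cub e k} (H : Hyp (d : Cub e k) ν v0 v1 v2)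
    (hu : ((d * z ^ 2 : (Cub e k)ˣ) : Cub e k) ∈ Ov e v)
    (hu' : (((d * z ^ 2)⁻¹ : (Cub e k)ˣ) : Cub e k) ∈ Ov e v)
    (h0 : ((z⁻¹ : (Cub e k)ˣ) : Cub e k) * v0 ∈ Ov e v)
    (h1 : ((z⁻¹ : (Cub e k)ˣ) : Cub e k) * v1 ∈ Ov e v)
    (h2 : ((z⁻¹ : (Cub e k)ˣ) : Cub e k) * v2 ∈ Ov e v)
    (hI : DblV (RingHom.id (ZMod l))
      fun m => rd ρ (quart (d : Cub e k) v0 v1 v2 (pt5 m).1 (pt5 m).2)) :
    (l : ℤ) ∣ disc e ∧ d ∉ sqv e v := by
  have hp : l.Prime := Fact.out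
  have H' := ZIrr_hyp z H
  have hn := val_nm_eq_one hu hu'
  have hν : val v (ν * nm (z : Cub e k)) = 1 := by
    have h3 := hn
    rw [H'.nu, map_pow] at h3
    exact (pow_eq_one_iff_of_nonneg zero_le two_ne_zero).1 h3
  have Hr : Hyp (rdC ρ ((d * z ^ 2 : (Cub e k)ˣ) : Cub e k)) (rd ρ (ν * nm (z : Cub e k)))
      (rdC ρ (((z⁻¹ : (Cub e k)ˣ) : Cub e k) * v0)) (rdC ρ (((z⁻¹ : (Cub e k)ˣ) : Cub e k) * v1))
      (rdC ρ (((z⁻¹ : (Cub e k)ˣ) : Cub e k) * v2)) := by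
    refine ⟨?_, fun h => ?_, ?_, ?_, ?_, ?_⟩
    · rw [nm_rdC ρ hu, H'.nu, rd_pow ρ hν.le]
    · exact ((hρ.rd_eq_zero hν.le).1 h).ne hν
    · rw [ZIrr_rd_Bf ρ hu h0 h0, H'.h00, rd_zero]
    · rw [ZIrr_rd_Bf ρ hu h2 h2, H'.h22, rd_zero]
    · rw [ZIrr_rd_Bf ρ hu h0 h2, H'.h02, rd_one]
    · rw [← rdC_mul ρ hu h1, H'.h1, rdC_smul ρ hν.le (rdC_cross ρ h2 h0).1, (rdC_cross ρ h2 h0).2]
  have h6 : (6 : ZMod l) ≠ 0 := by
    intro h
    have h3 : l ∣ 6 := (ZMod.natCast_eq_zero_iff 6 l).1 (by exact_mod_cast h)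
    have h4 := Nat.le_of_dvd (by norm_num) h3
    interval_cases l
    · norm_num at h3
    · norm_num at hp
  obtain ⟨r1, r2⟩ := ff4M h6 Hr (by
    simp only [← ZIrr_rd_quart ρ hu h0 h1 h2, ZIrr_quart]
    exact hI)
  have hd : (l : ℤ) ∣ disc e := (ZMod.intCast_zmod_eq_zero_iff_dvd _ _).1 r1
  refine ⟨hd, fun ⟨z', hz⟩ => ?_⟩
  have h3 : ((d * z' ^ 2 : (Cub e k)ˣ) : Cub e k) ∈ Ov e v := by
    simpa using add_mem hz.mem (one_mem _)
  have h4 : d * z ^ 2 * (z' * z⁻¹) ^ 2 = d * z' ^ 2 := by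
    rw [mul_assoc, ← mul_pow, mul_comm z', mul_inv_cancel_left]
  have h7 : ((z' * z⁻¹ : (Cub e k)ˣ) : Cub e k) ^ 2 ∈ Ov e v := by
    rw [← Units.val_pow_eq_pow_val, eq_inv_mul_of_mul_eq h4, Units.val_mul]
    exact mul_mem hu' h3
  have h8 := (tyM_of hp h5 hd hl hv).mem_Ov_of_sq h7
  refine r2 (rdC ρ ((z' * z⁻¹ : (Cub e k)ˣ) : Cub e k)) ?_
  rw [← rdC_pow ρ h8, ← rdC_mul ρ hu h7, ← Units.val_pow_eq_pow_val, ← Units.val_mul, h4,
    ← rdC_one ρ]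
  exact (hρ.rdC_eq_iff h3 (one_mem _)).2 hz

end Pool.Agent.Lib.MP_775b3b_nt
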