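import Pool.Agent.Lib.MP_775b3b_nt.ZGoodA

/-! The density of good points in a chart. -/

namespace Pool.Agent.Lib.MP_775b3b_nt

open Matrix

variable {κ : Type*} [Field κ]

/-- the Lagrangian with rows `1` (first index `0`) and `J4 * S` (first index `1`) -/
def MA (S : Matrix (Fin 4) (Fin 4) κ) : Matrix Cu (Fin 4) κ :=
  Matrix.of (cb ![1, 0, 0, 0] ![0, 1, 0, 0] ![0, 0, 1, 0] ![0, 0, 0, 1] (S 3) (-S 2) (-S 1) (S 0))

theorem lag_MA {S : Matrix (Fin 4) (Fin 4) κ} (h : S.IsSymm) : Lag (MA S) := by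
  intro i j
  have h1 := h.apply
  fin_cases i <;> fin_cases j <;> simp [om, MA] <;>
    first
      | rfl
      | (rw [h1]; simp)

theorem ZGoodS_JJ : J4 κ * J4 κ = 1 := by
  ext i j
  fin_cases i <;> fin_cases j <;> simp [J4, Matrix.mul_apply, Fin.sum_univ_four]

theorem ZGoodS_detJ : (J4 κ).det = 1 := by
  rw [det_eq_d4]
  simp [J4, d4]

theorem ZGoodS_Zm (S : Matrix (Fin 4) (Fin 4) κ) (m : Fin 5) :
    Zm κ m * MA S = ((pt5 m).1 : κ) • (1 : Matrix (Fin 4) (Fin 4) κ) +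
      ((pt5 m).2 : κ) • (J4 κ * S) := by
  have h0 : G5 κ 0 = 1 := by
    ext i j
    fin_cases i <;> fin_cases j <;> simp [G5]
  rw [← (G5_row m).1, ← (G5_row m).2]
  ext i j
  simp only [Zm, Matrix.mul_apply, sum_cu, submatrix_apply, kron_apply, id, cu_zero, cu_one,
    cu_two, Matrix.add_apply, Matrix.smul_apply, Fin.sum_univ_four]
  fin_cases i <;> fin_cases j <;> simp [MA, J4, qf, h0]

/-- `Zm κ m * MA S = x • 1 + y • (J4 * S) = J4 * (x • J4 + y • S)`, `(x, y) = pt5 m`, `det J4 = 1` -/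
theorem det_Zm_MA (S : Matrix (Fin 4) (Fin 4) κ) (m : Fin 5) :
    (Zm κ m * MA S).det = (((pt5 m).1 : κ) • J4 κ + ((pt5 m).2 : κ) • S).det := by
  rw [ZGoodS_Zm, ← one_mul (det (_ • J4 κ + _)), ← ZGoodS_detJ (κ := κ), ← det_mul,
    Matrix.mul_add, Matrix.mul_smul, Matrix.mul_smul, ZGoodS_JJ]

theorem ZGoodS_diag {W H : Matrix (Fin 3) (Fin 3) κ} (h : Wᵀ * H = 1) (s : Fin 4 → κ) :
    (PhiX W H * MA (diagonal s)).det =
      W.det * (H 2 0 ^ 2 * s 1 * s 3 + H 1 0 ^ 2 * s 2 * s 3 - H 0 0 ^ 2) := by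
  have h1 : W * Hᵀ = 1 := by
    have h2 := congrArg Matrix.transpose (mul_eq_one_comm.1 h)
    rwa [transpose_mul, transpose_transpose, transpose_one] at h2
  have h2 : adjugate W = W.det • Hᵀ := by
    rw [← Matrix.mul_one (adjugate W), ← h1, ← Matrix.mul_assoc, adjugate_mul, Matrix.smul_mul,
      Matrix.one_mul]
  have h3 : ∀ i, W.det * H i 0 = adjugate W 0 i := fun i => by
    rw [h2]
    rfl
  have h4 : W.det * (H 2 0 ^ 2 * s 1 * s 3 + H 1 0 ^ 2 * s 2 * s 3 - H 0 0 ^ 2) =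
      adjugate W 0 2 * H 2 0 * s 1 * s 3 + adjugate W 0 1 * H 1 0 * s 2 * s 3 -
        adjugate W 0 0 * H 0 0 := by
    simp only [← h3]
    ring
  have r0 : (PhiX W H * MA (diagonal s)) 0 = ![1, 0, 0, 0] := by
    ext k
    fin_cases k <;> simp [Matrix.mul_apply, sum_cu, PhiX, MA]
  have r1 : (PhiX W H * MA (diagonal s)) 1 = ![0, -(H 2 0 * s 1), -(H 1 0 * s 2), H 0 0] := by
    ext k
    fin_cases k <;> simp [Matrix.mul_apply, sum_cu, PhiX, MA, hi]
  have r2 : (PhiX W H * MA (diagonal s)) 2 = ![0, W 2 1, W 1 1, W 0 1 * s 3] := by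
    ext k
    fin_cases k <;> simp [Matrix.mul_apply, sum_cu, PhiX, MA, lo]
  have r3 : (PhiX W H * MA (diagonal s)) 3 = ![0, W 2 2, W 1 2, W 0 2 * s 3] := by
    ext k
    fin_cases k <;> simp [Matrix.mul_apply, sum_cu, PhiX, MA, lo]
  rw [h4, det_eq_d4, r0, r1, r2, r3, adjugate_fin_three]
  simp only [d4, of_apply, cons_val', cons_val_zero, cons_val_one, cons_val, cons_val_fin_one]
  ring

/-- for `S = diagonal s` the determinant is
`det W * (H 2 0 ^ 2 * s 1 * s 3 + H 1 0 ^ 2 * s 2 * s 3 - H 0 0 ^ 2)` (the cofactors of the first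
column of `W` are `det W * H i 0`, compare `chart2_det`); the first column of `H` is not zero -/
theorem exists_det_ne {W H : Matrix (Fin 3) (Fin 3) κ} (h : Wᵀ * H = 1) :
    ∃ S : Matrix (Fin 4) (Fin 4) κ, S.IsSymm ∧ (PhiX W H * MA S).det ≠ 0 := by
  have hW : W.det ≠ 0 := fun h5 => by
    have h6 := congrArg Matrix.det h
    rw [det_mul, det_transpose, h5, zero_mul, det_one] at h6
    exact zero_ne_one h6
  by_cases h0 : H 0 0 = 0
  · by_cases h1 : H 1 0 = 0
    · have h2 : H 2 0 ≠ 0 := fun h2 => by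
        have h3 := congrFun (congrFun h 0) 0
        simp [Matrix.mul_apply, Fin.sum_univ_three, h0, h1, h2] at h3
      refine ⟨diagonal ![0, 1, 0, 1], isSymm_diagonal _, ?_⟩
      rw [ZGoodS_diag h]
      simp [h0, h2, hW]
    · refine ⟨diagonal ![0, 0, 1, 1], isSymm_diagonal _, ?_⟩
      rw [ZGoodS_diag h]
      simp [h0, h1, hW]
  · refine ⟨diagonal ![0, 0, 0, 0], isSymm_diagonal _, ?_⟩
    rw [ZGoodS_diag h]
    simp [h0, hW]

open Classical in
/-- a symmetric matrix is determined by the ten entries `i ≤ j`, and they are arbitrary -/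
theorem card_symm [Fintype κ] :
    (Finset.univ.filter fun S : Matrix (Fin 4) (Fin 4) κ => S.IsSymm).card = Fintype.card κ ^ 10 := by
  have h1 : Fintype.card {ij : Fin 4 × Fin 4 // ij.1 ≤ ij.2} = 10 := by decide
  rw [← h1, ← Fintype.card_fun, ← Finset.card_univ]
  refine Finset.card_nbij' (fun S ij => S ij.1.1 ij.1.2)
    (fun f => Matrix.of fun i j => f ⟨(min i j, max i j), min_le_max⟩) ?_ ?_ ?_ ?_
  · intro S _
    simp
  · intro f _
    simp only [Finset.coe_filter, Finset.mem_univ, true_and, Set.mem_ofPred_eq]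
    ext i j
    simp only [transpose_apply, of_apply, min_comm i j, max_comm i j]
  · intro S hS
    simp only [Finset.coe_filter, Finset.mem_univ, true_and, Set.mem_ofPred_eq] at hS
    ext i j
    rcases le_total i j with h | h
    · simp only [of_apply, min_eq_left h, max_eq_right h]
    · simp only [of_apply, min_eq_right h, max_eq_left h]
      exact hS.apply i j
  · intro f _
    funext ⟨⟨i, j⟩, h⟩
    simp only [of_apply, min_eq_left h, max_eq_right h]

theorem ZGoodS_line (S D : Matrix (Fin 4) (Fin 4) κ) (t : κ) :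
    MA (S + t • D) = t • (MA D - MA 0) + MA S := by
  ext c k
  rcases cu_cases c with rfl | rfl | rfl | rfl | rfl | rfl | rfl | rfl <;> simp [MA] <;> ring

open Classical in
theorem ZGoodS_roots [Fintype κ] (X Y : Matrix (Fin 4) (Fin 4) κ) (hX : X.det ≠ 0) :
    (Finset.univ.filter fun t : κ => (t • Y + X).det = 0).card ≤ 4 := by
  set p : Polynomial κ := det ((Polynomial.X : Polynomial κ) • Y.map Polynomial.C +
    X.map Polynomial.C) with hp
  have h1 : p.natDegree ≤ 4 := by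
    simpa using Polynomial.natDegree_det_X_add_C_le Y X
  have h2 : ∀ t : κ, p.eval t = (t • Y + X).det := by
    intro t
    rw [hp, ← Polynomial.coe_evalRingHom, RingHom.map_det]
    congr 1
    ext i j
    simp
    ring
  have h3 : p ≠ 0 := fun h => hX (by simpa [h] using (h2 0).symm)
  refine le_trans (Finset.card_le_card fun t ht => ?_)
    ((Multiset.toFinset_card_le p.roots).trans ((Polynomial.card_roots' p).trans h1))
  rw [Multiset.mem_toFinset, Polynomial.mem_roots h3, Polynomial.IsRoot, h2]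
  exact (Finset.mem_filter.1 ht).2

open Classical in
/-- Let `S₀` be as in `exists_det_ne`.  For symmetric `D`, `t ↦ det (Φ * MA (S₀ + t • D))` is
`det (X₀ + t • Y_D)`, the evaluation of a polynomial of degree at most four
(`Polynomial.natDegree_det_X_add_C_le`) which does not vanish at `0`.  Count the pairs `(D, t)`,
`t ≠ 0`, where it vanishes: at most `4 q^10`, and each zero `S` gives `q - 1` pairs
`(t⁻¹ • (S - S₀), t)`. -/
theorem card_det_zero [Fintype κ] {W H : Matrix (Fin 3) (Fin 3) κ} (h : Wᵀ * H = 1) :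
    (Finset.univ.filter fun S : Matrix (Fin 4) (Fin 4) κ =>
      S.IsSymm ∧ (PhiX W H * MA S).det = 0).card * (Fintype.card κ - 1) ≤
        4 * Fintype.card κ ^ 10 := by
  obtain ⟨S₀, hS₀, hd⟩ := exists_det_ne h
  have h1 : Fintype.card κ - 1 = ((Finset.univ : Finset κ).erase 0).card := by
    rw [Finset.card_erase_of_mem (Finset.mem_univ _), Finset.card_univ]
  rw [h1, ← Finset.card_product, ← card_symm, mul_comm 4]
  refine le_trans (Finset.card_le_card_of_injOn
    (t := (Finset.univ.filter fun S : Matrix (Fin 4) (Fin 4) κ => S.IsSymm).sigma fun D =>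
      Finset.univ.filter fun t : κ =>
        (t • (PhiX W H * (MA D - MA 0)) + PhiX W H * MA S₀).det = 0)
    (fun x => ⟨x.2⁻¹ • (x.1 - S₀), x.2⟩) ?_ ?_) ?_
  · rintro ⟨S, t⟩ hx
    simp only [Finset.coe_product, Finset.coe_filter, Finset.mem_univ, true_and, Set.mem_prod,
      Set.mem_ofPred_eq, Finset.coe_erase, Finset.coe_univ, Set.mem_sdiff, Set.mem_univ,
      Set.mem_singleton_iff] at hx
    simp only [Finset.coe_sigma, Finset.coe_filter, Finset.mem_univ, true_and, Set.mem_sigma_iff,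
      Set.mem_ofPred_eq]
    refine ⟨(hx.1.1.sub hS₀).smul _, ?_⟩
    rw [← Matrix.mul_smul, ← Matrix.mul_add, ← ZGoodS_line, smul_smul, mul_inv_cancel₀ hx.2,
      one_smul, add_sub_cancel]
    exact hx.1.2
  · rintro ⟨S, t⟩ hx ⟨S', t'⟩ _ hxy
    simp only [Finset.coe_product, Finset.coe_filter, Finset.mem_univ, true_and, Set.mem_prod,
      Set.mem_ofPred_eq, Finset.coe_erase, Finset.coe_univ, Set.mem_sdiff, Set.mem_univ,
      Set.mem_singleton_iff] at hx
    simp only [Sigma.mk.injEq, heq_eq_eq] at hxy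
    obtain ⟨h2, rfl⟩ := hxy
    rw [sub_left_injective (smul_right_injective _ (inv_ne_zero hx.2) h2)]
  · rw [Finset.card_sigma, ← smul_eq_mul]
    exact Finset.sum_le_card_nsmul _ _ _ fun D _ => ZGoodS_roots _ _ hd

theorem ZGoodS_chart {W H : Matrix (Fin 3) (Fin 3) κ} (h : Wᵀ * H = 1)
    {M : Matrix Cu (Fin 4) κ} (hM : Lag M) (hX : (PhiX W H * M).det ≠ 0) :
    (PhiY W H * M * (PhiX W H * M)⁻¹).IsSymm ∧ ∀ P Q : Matrix (Fin 4) (Fin 4) κ,
      (P * PhiX W H + Q * PhiY W H) * M =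
        (P + Q * (PhiY W H * M * (PhiX W H * M)⁻¹)) * (PhiX W H * M) := by
  have h1 := chart_symm h hM
  set X := PhiX W H * M with hXd
  set Y := PhiY W H * M with hYd
  have hu : IsUnit X.det := hX.isUnit
  have h2 : Yᵀ * X = Xᵀ * Y := by
    have h3 := h1.eq
    rwa [transpose_mul, transpose_transpose] at h3
  refine ⟨?_, fun P Q => ?_⟩
  · show (Y * X⁻¹)ᵀ = Y * X⁻¹
    calc (Y * X⁻¹)ᵀ = X⁻¹ᵀ * (Yᵀ * X) * X⁻¹ := by
          rw [transpose_mul, Matrix.mul_assoc, Matrix.mul_assoc, mul_nonsing_inv _ hu,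
            Matrix.mul_one]
      _ = Y * X⁻¹ := by
          rw [h2, ← Matrix.mul_assoc, ← transpose_mul, mul_nonsing_inv _ hu, transpose_one,
            Matrix.one_mul]
  · rw [Matrix.add_mul, Matrix.add_mul, Matrix.mul_assoc P, Matrix.mul_assoc Q,
      Matrix.mul_assoc Q, Matrix.mul_assoc Y, nonsing_inv_mul _ hu, Matrix.mul_one]

theorem ZGoodS_inj {W H : Matrix (Fin 3) (Fin 3) κ} (h : Wᵀ * H = 1)
    {S S' : Matrix (Fin 4) (Fin 4) κ} (hS : S.IsSymm) (hS' : S'.IsSymm)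
    (hX : (PhiX W H * MA S).det ≠ 0) (hX' : (PhiX W H * MA S').det ≠ 0)
    (he : PhiY W H * MA S * (PhiX W H * MA S)⁻¹ = PhiY W H * MA S' * (PhiX W H * MA S')⁻¹) :
    S = S' := by
  obtain ⟨P₀, Q₀, h0⟩ := exists_PQ h (Zm κ 0)
  obtain ⟨P₁, Q₁, h1⟩ := exists_PQ h (Zm κ 1)
  have a0 := (ZGoodS_chart h (lag_MA hS) hX).2 P₀ Q₀
  have a1 := (ZGoodS_chart h (lag_MA hS) hX).2 P₁ Q₁
  have b0 := (ZGoodS_chart h (lag_MA hS') hX').2 P₀ Q₀
  have b1 := (ZGoodS_chart h (lag_MA hS') hX').2 P₁ Q₁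
  rw [← h0, ZGoodS_Zm] at a0 b0
  rw [← h1, ZGoodS_Zm] at a1 b1
  rw [← he] at b0 b1
  simp only [pt5, cons_val_zero, cons_val_one, Int.cast_one, Int.cast_zero, one_smul, zero_smul,
    add_zero, zero_add] at a0 a1 b0 b1
  have e1 : PhiX W H * MA S = PhiX W H * MA S' := by
    rw [← Matrix.inv_eq_right_inv a0.symm, ← Matrix.inv_eq_right_inv b0.symm]
  rw [← e1, ← a1] at b1
  rw [← Matrix.one_mul S, ← Matrix.one_mul S', ← ZGoodS_JJ, Matrix.mul_assoc, Matrix.mul_assoc,
    b1]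

theorem ZGoodS_good {W H : Matrix (Fin 3) (Fin 3) κ} (h : Wᵀ * H = 1)
    {A B : Fin 5 → Matrix (Fin 4) (Fin 4) κ}
    (hAB : ∀ m, Zm κ m = A m * PhiX W H + B m * PhiY W H) {S : Matrix (Fin 4) (Fin 4) κ}
    (hS : S.IsSymm) (hX : (PhiX W H * MA S).det ≠ 0) (hG : GoodA S) :
    GoodS A B (PhiY W H * MA S * (PhiX W H * MA S)⁻¹) := by
  obtain ⟨c, hc, hq⟩ := hG
  have h1 : IrrV fun m => (Zm κ m * MA S).det := ⟨c, hc, fun m => (det_Zm_MA S m).trans (hq _ _)⟩
  have h2 := h1.smul (inv_ne_zero hX)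
  unfold GoodS
  convert h2 using 2 with m
  rw [Pi.smul_apply, hAB, (ZGoodS_chart h (lag_MA hS) hX).2, det_mul, smul_eq_mul]
  field_simp

open Classical in
/-- For symmetric `S` with `GoodA S` and `X = PhiX W H * MA S` invertible put
`S' = (PhiY W H * MA S) * X⁻¹`: symmetric (`chart_symm`, as in `exists_chart`),
`(A m + B m * S') * X = Zm κ m * MA S`, so `GoodS A B S'` (`det_Zm_MA`, `IrrV.smul`).  `S ↦ S'` is
injective: by `exists_PQ` for the two coordinate projections `Z₀, Z₁` with `Z₀ * MA S = 1`,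
`Z₁ * MA S = J4 * S`: `1 = (P₀ + Q₀ S') X`, `J4 S = (P₁ + Q₁ S') X`.  So there are at least
`l^10 / 27 - 4 l^10 / (l - 1) ≥ l^10 / 30` good symmetric matrices. -/
theorem card_badS (l : ℕ) [Fact l.Prime] (hl : 1100 ≤ l) {W H : Matrix (Fin 3) (Fin 3) (ZMod l)}
    (h : Wᵀ * H = 1) {A B : Fin 5 → Matrix (Fin 4) (Fin 4) (ZMod l)}
    (hAB : ∀ m, Zm (ZMod l) m = A m * PhiX W H + B m * PhiY W H) :
    ((Finset.univ.filter fun S : Matrix (Fin 4) (Fin 4) (ZMod l) =>
      S.IsSymm ∧ ¬ GoodS A B S).card : ℝ) ≤ 29 / 30 * (l : ℝ) ^ 10 := by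
  have h1 := card_goodA l (by omega)
  have h2 := card_det_zero h
  have h3 := card_symm (κ := ZMod l)
  rw [ZMod.card] at h2 h3
  have h4 : (Finset.univ.filter fun S : Matrix (Fin 4) (Fin 4) (ZMod l) =>
      S.IsSymm ∧ GoodA S ∧ (PhiX W H * MA S).det ≠ 0).card ≤
      (Finset.univ.filter fun S : Matrix (Fin 4) (Fin 4) (ZMod l) =>
        S.IsSymm ∧ GoodS A B S).card := by
    refine Finset.card_le_card_of_injOn (fun S => PhiY W H * MA S * (PhiX W H * MA S)⁻¹) ?_ ?_
    · intro S hS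
      simp only [Finset.coe_filter, Finset.mem_univ, true_and, Set.mem_ofPred_eq] at hS ⊢
      exact ⟨(ZGoodS_chart h (lag_MA hS.1) hS.2.2).1, ZGoodS_good h hAB hS.1 hS.2.2 hS.2.1⟩
    · intro S hS S' hS' he
      simp only [Finset.coe_filter, Finset.mem_univ, true_and, Set.mem_ofPred_eq] at hS hS'
      exact ZGoodS_inj h hS.1 hS'.1 hS.2.2 hS'.2.2 he
  have h5 : (Finset.univ.filter fun S : Matrix (Fin 4) (Fin 4) (ZMod l) =>
      S.IsSymm ∧ GoodA S).card ≤ (Finset.univ.filter fun S : Matrix (Fin 4) (Fin 4) (ZMod l) =>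
      S.IsSymm ∧ GoodA S ∧ (PhiX W H * MA S).det ≠ 0).card +
      (Finset.univ.filter fun S : Matrix (Fin 4) (Fin 4) (ZMod l) =>
        S.IsSymm ∧ (PhiX W H * MA S).det = 0).card := by
    refine le_trans (Finset.card_le_card fun S hS => ?_) (Finset.card_union_le _ _)
    simp only [Finset.mem_filter, Finset.mem_univ, true_and, Finset.mem_union] at hS ⊢
    by_cases h0 : (PhiX W H * MA S).det = 0
    · exact Or.inr ⟨hS.1, h0⟩
    · exact Or.inl ⟨hS.1, hS.2, h0⟩
  have h6 : (Finset.univ.filter fun S : Matrix (Fin 4) (Fin 4) (ZMod l) =>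
      S.IsSymm ∧ ¬ GoodS A B S).card + (Finset.univ.filter fun S : Matrix (Fin 4) (Fin 4) (ZMod l) =>
        S.IsSymm ∧ GoodS A B S).card ≤ l ^ 10 := by
    rw [← Finset.card_union_of_disjoint (Finset.disjoint_filter.2 fun S _ a b => a.2 b.2), ← h3]
    refine Finset.card_le_card fun S hS => ?_
    simp only [Finset.mem_filter, Finset.mem_univ, true_and, Finset.mem_union] at hS ⊢
    exact hS.elim And.left And.left
  have h7 : (Finset.univ.filter fun S : Matrix (Fin 4) (Fin 4) (ZMod l) =>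
      S.IsSymm ∧ (PhiX W H * MA S).det = 0).card * 1099 ≤ 4 * l ^ 10 := by
    refine le_trans (Nat.mul_le_mul (Finset.card_le_card fun S hS => ?_) (by omega)) h2
    simpa only [Finset.mem_filter] using hS
  have h4' := (Nat.cast_le (α := ℝ)).2 h4
  have h5' := (Nat.cast_le (α := ℝ)).2 h5
  have h6' := (Nat.cast_le (α := ℝ)).2 h6
  have h7' := (Nat.cast_le (α := ℝ)).2 h7
  push_cast at h5' h6' h7'
  have h8 : (0 : ℝ) ≤ (l : ℝ) ^ 10 := by positivity
  linarith

end Pool.Agent.Lib.MP_775b3b_nt
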