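import Pool.Agent.Lib.MP_775b3b_nt.YDefs
import Pool.Agent.Lib.MP_775b3b_nt.ZGoodS

/-! A family of symmetric matrices whose pencil has a double root. -/

namespace Pool.Agent.Lib.MP_775b3b_nt

open Matrix

section Ring

variable {R : Type*} [CommRing R]

/-- a unipotent element of the orthogonal group of `J4` -/
def Uz (z z' : R) : Matrix (Fin 4) (Fin 4) R :=
  !![1, 0, 0, 0; z', 1, 0, 0; z, 0, 1, 0; z * z', z, z', 1]

/-- a symmetric matrix which kills the first basis vector -/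
def S0 (β β' t b b' s : R) : Matrix (Fin 4) (Fin 4) R :=
  !![0, 0, 0, 0; 0, β, t, b; 0, t, β', b'; 0, b, b', s]

/-- the determinant of the lower block of `S0` -/
def S3 (β β' t b b' s : R) : R := (!![β, t, b; t, β', b'; b, b', s] : Matrix (Fin 3) (Fin 3) R).det

/-- the family -/
def Sg (r z z' β β' t b b' s : R) : Matrix (Fin 4) (Fin 4) R :=
  r • J4 R + (Uz z z')ᵀ * S0 β β' t b b' s * Uz z z'

variable (r z z' β β' t b b' s : R)

theorem Uz_mul (w w' : R) : Uz z z' * Uz w w' = Uz (z + w) (z' + w') := by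
  ext i j
  fin_cases i <;> fin_cases j <;> simp [Uz, Matrix.mul_apply, Fin.sum_univ_four] <;> ring

theorem Uz_zero : Uz (0 : R) 0 = 1 := by
  ext i j
  fin_cases i <;> fin_cases j <;> simp [Uz]

theorem Uz_orth : (Uz z z')ᵀ * J4 R * Uz z z' = J4 R := by
  ext i j
  fin_cases i <;> fin_cases j <;> simp [Uz, J4, Matrix.mul_apply, Fin.sum_univ_four] <;> ring

theorem Sg_symm : (Sg r z z' β β' t b b' s).IsSymm := by
  have hJ : (J4 R)ᵀ = J4 R := by
    ext i j
    fin_cases i <;> fin_cases j <;> simp [J4]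
  have hS : (S0 β β' t b b' s)ᵀ = S0 β β' t b b' s := by
    ext i j
    fin_cases i <;> fin_cases j <;> simp [S0]
  show (Sg r z z' β β' t b b' s)ᵀ = _
  rw [Sg, transpose_add, transpose_smul, transpose_mul, transpose_mul, transpose_transpose, hJ, hS,
    Matrix.mul_assoc]

/-- `x J + y Sg = Uᵀ ((x + r y) J + y S0) U`, `det U = 1`, `det_eq_d4` -/
theorem det_Sg (x y : R) :
    (x • J4 R + y • Sg r z z' β β' t b b' s).det = dq r (r - t) (β * β') x y := by
  have h1 : x • J4 R + y • Sg r z z' β β' t b b' s =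
      (Uz z z')ᵀ * ((x + r * y) • J4 R + y • S0 β β' t b b' s) * Uz z z' := by
    rw [Matrix.mul_add, Matrix.add_mul, Matrix.mul_smul, Matrix.smul_mul, Uz_orth, Matrix.mul_smul,
      Matrix.smul_mul, Sg, smul_add, smul_smul, add_smul, mul_comm r y, add_assoc]
  have h2 : (Uz z z').det = 1 := by
    rw [det_eq_d4]
    simp [Uz, d4]
  rw [h1, det_mul, det_mul, det_transpose, h2, one_mul, mul_one, det_eq_d4]
  simp [J4, S0, d4, dq]
  ring

theorem Sg_swap : (Sg r z z' β β' t b b' s).submatrix (Equiv.swap 1 2) (Equiv.swap 1 2) =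
    Sg r z' z β' β t b' b s := by
  have hJ : (J4 R).submatrix (Equiv.swap 1 2) (Equiv.swap 1 2) = J4 R := by
    ext i j
    fin_cases i <;> fin_cases j <;> simp [J4, Equiv.swap_apply_def]
  have hU : (Uz z z').submatrix (Equiv.swap 1 2) (Equiv.swap 1 2) = Uz z' z := by
    ext i j
    fin_cases i <;> fin_cases j <;> simp [Uz, Equiv.swap_apply_def, mul_comm]
  have hS : (S0 β β' t b b' s).submatrix (Equiv.swap 1 2) (Equiv.swap 1 2) = S0 β' β t b' b s := by
    ext i j
    fin_cases i <;> fin_cases j <;> simp [S0, Equiv.swap_apply_def]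
  rw [Sg, Sg, ← hU, ← hS, transpose_submatrix, submatrix_mul_equiv, submatrix_mul_equiv]
  conv_rhs => rw [← hJ]
  rfl

theorem Sg_map {R' : Type*} [CommRing R'] (f : R →+* R') : (Sg r z z' β β' t b b' s).map f =
    Sg (f r) (f z) (f z') (f β) (f β') (f t) (f b) (f b') (f s) := by
  have hJ : (r • J4 R).map f = f r • J4 R' := by
    ext i j
    fin_cases i <;> fin_cases j <;> simp [J4]
  have hU : (Uz z z').map f = Uz (f z) (f z') := by
    ext i j
    fin_cases i <;> fin_cases j <;> simp [Uz]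
  have hS : (S0 β β' t b b' s).map f = S0 (f β) (f β') (f t) (f b) (f b') (f s) := by
    ext i j
    fin_cases i <;> fin_cases j <;> simp [S0]
  rw [Sg, Sg, Matrix.map_add _ (map_add f), Matrix.map_mul, Matrix.map_mul, transpose_map, hJ, hU,
    hS]

theorem Sg_diag : Sg 0 0 0 β β' 0 0 0 s = diagonal ![0, β, β', s] := by
  rw [Sg, Uz_zero, zero_smul, zero_add, transpose_one, Matrix.one_mul, Matrix.mul_one]
  ext i j
  fin_cases i <;> fin_cases j <;> simp [S0]

end Ring

variable {Λ : Type*} [Field Λ]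

/-- Multiply by `Uz (-w) (-w')`: with `V = Uz (z - w) (z' - w')`, `Vᵀ S0 V = S0'` kills `e₀`, so
`S0 (V e₀) = 0` and the block is invertible: `z = w`, `z' = w'`; then `S0 = S0'`. -/
theorem Sg_inj {r z z' β β' t b b' s w w' γ γ' u c c' p : Λ} (h3 : S3 β β' t b b' s ≠ 0)
    (h : Sg r z z' β β' t b b' s = Sg r w w' γ γ' u c c' p) :
    z = w ∧ β = γ ∧ t = u ∧ b = c ∧ s = p := by
  have h1 : (Uz (z - w) (z' - w'))ᵀ * S0 β β' t b b' s * Uz (z - w) (z' - w') =
      S0 γ γ' u c c' p := by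
    have h2 := congrArg (fun M => (Uz (-w) (-w'))ᵀ * M * Uz (-w) (-w')) (add_left_cancel h)
    simp only [← Matrix.mul_assoc, ← transpose_mul, Uz_mul] at h2
    simp only [Matrix.mul_assoc, Uz_mul, add_neg_cancel, Uz_zero, transpose_one, Matrix.one_mul,
      Matrix.mul_one, ← sub_eq_add_neg] at h2
    rw [Matrix.mul_assoc, h2]
  generalize hx : z - w = x at h1
  generalize z' - w' = x' at h1
  have e1 := congrFun (congrFun h1 1) 0
  have e2 := congrFun (congrFun h1 2) 0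
  have e3 := congrFun (congrFun h1 3) 0
  simp [Uz, S0, Matrix.mul_apply, Fin.sum_univ_four] at e1 e2 e3
  have h4 : (![x', x, x * x'] : Fin 3 → Λ) = 0 := by
    refine Matrix.eq_zero_of_mulVec_eq_zero h3 (funext fun i => ?_)
    fin_cases i <;> simp [Matrix.mulVec, dotProduct, Fin.sum_univ_three]
    · linear_combination e1 - x * e3
    · linear_combination e2 - x' * e3
    · linear_combination e3
  have h5 : x' = 0 := congrFun h4 0
  have h6 : x = 0 := congrFun h4 1
  rw [h5, h6, Uz_zero, transpose_one, Matrix.one_mul, Matrix.mul_one] at h1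
  exact ⟨sub_eq_zero.1 (hx.trans h6), congrFun (congrFun h1 1) 1, congrFun (congrFun h1 1) 2,
    congrFun (congrFun h1 1) 3, congrFun (congrFun h1 3) 3⟩

/-- `PhiX_map`, `lo_perm`, `hi_perm`, `bot_perm`: `φ (PhiX W H) i c = PhiX W H i (c ∘ π)` and
`φ (MA S) c j = MA S (c ∘ π) (π' j)` for the two transpositions, so `φ X = X P`, `φ Y = Y P` with
the permutation matrix `P` (`submatrix id π'`), and `φ (Y X⁻¹) = Y X⁻¹`. -/
theorem chart_fixed (φ : Λ →+* Λ) {W H : Matrix (Fin 3) (Fin 3) Λ}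
    (hW : W.map φ = W.submatrix (Equiv.swap 1 2) id) (hH : H.map φ = H.submatrix (Equiv.swap 1 2) id)
    {S : Matrix (Fin 4) (Fin 4) Λ} (hS : S.map φ = S.submatrix (Equiv.swap 1 2) (Equiv.swap 1 2))
    (hX : (PhiX W H * MA S).det ≠ 0) :
    (PhiY W H * MA S * (PhiX W H * MA S)⁻¹).map φ = PhiY W H * MA S * (PhiX W H * MA S)⁻¹ := by
  let e : Cu ≃ Cu := Equiv.arrowCongr (Equiv.swap (1 : Fin 3) 2) (Equiv.refl (Fin 2))
  have he : ∀ c, e c = c ∘ (Equiv.swap (1 : Fin 3) 2).symm := fun _ => rfl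
  have h1 : (PhiX W H).map φ = (PhiX W H).submatrix id e := by
    rw [(PhiX_map φ W H).1, hW, hH]
    ext i c
    rw [submatrix_apply, he]
    fin_cases i
    · exact (bot_perm _ c).1
    · exact hi_perm (fun i => H i 0) _ c
    · exact lo_perm (fun i => W i 1) _ c
    · exact lo_perm (fun i => W i 2) _ c
  have h2 : (PhiY W H).map φ = (PhiY W H).submatrix id e := by
    rw [(PhiX_map φ W H).2, hW, hH]
    ext i c
    rw [submatrix_apply, he]
    fin_cases i
    · exact (bot_perm _ c).2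
    · exact lo_perm (fun i => W i 0) _ c
    · exact hi_perm (fun i => -H i 1) _ c
    · exact hi_perm (fun i => -H i 2) _ c
  have h3 : (MA S).map φ = MA (S.map φ) := by
    ext c j
    rcases cu_cases c with rfl | rfl | rfl | rfl | rfl | rfl | rfl | rfl <;> fin_cases j <;>
      simp [MA]
  have h4 : ∀ x y z : Fin 2, e (cu x y z) = cu x z y := by
    intro x y z
    funext i
    fin_cases i <;> rfl
  have h5 : (MA S).map φ = (MA S).submatrix e (Equiv.swap 1 2) := by
    rw [h3, hS]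
    ext c j
    rcases cu_cases c with rfl | rfl | rfl | rfl | rfl | rfl | rfl | rfl <;>
      rw [submatrix_apply, h4] <;> fin_cases j <;> simp [MA, Equiv.swap_apply_def]
  have h6 : (PhiX W H * MA S).map φ = (PhiX W H * MA S).submatrix id (Equiv.swap 1 2) := by
    rw [Matrix.map_mul, h1, h5, submatrix_mul_equiv]
  have h7 : (PhiY W H * MA S).map φ = (PhiY W H * MA S).submatrix id (Equiv.swap 1 2) := by
    rw [Matrix.map_mul, h2, h5, submatrix_mul_equiv]
  generalize PhiX W H * MA S = X at hX h6 ⊢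
  generalize PhiY W H * MA S = Y at h7 ⊢
  have h8 : (Y * X⁻¹).map φ * X.map φ = Y.map φ := by
    rw [← Matrix.map_mul, Matrix.mul_assoc, nonsing_inv_mul _ hX.isUnit, Matrix.mul_one]
  have h9 : (Y * X⁻¹).map φ * X = Y := by
    rw [h6, h7] at h8
    ext i j
    have := congrFun (congrFun h8 i) (Equiv.swap 1 2 j)
    simpa only [Matrix.mul_apply, submatrix_apply, id, Equiv.swap_apply_self] using this
  calc (Y * X⁻¹).map φ = (Y * X⁻¹).map φ * X * X⁻¹ := by
        rw [Matrix.mul_assoc, mul_nonsing_inv _ hX.isUnit, Matrix.mul_one]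
    _ = Y * X⁻¹ := by rw [h9]

/-- `ZGoodS_diag`, `Sg_diag`.  If `H 0 0 ≠ 0` take `s = 0`.  Otherwise `h = H 1 0 ≠ 0`,
`H 2 0 = φ h` (the first column of `H` is not zero): take `s = 1`, `β = (φ h)⁻¹ ^ 2`. -/
theorem exists_Sg_ne (h2 : (2 : Λ) ≠ 0) (φ : Λ →+* Λ) (hφ : ∀ a, φ (φ a) = a)
    {W H : Matrix (Fin 3) (Fin 3) Λ} (h : Wᵀ * H = 1)
    (hH : H.map φ = H.submatrix (Equiv.swap 1 2) id) : ∃ β s : Λ, (s = 0 ∨ s = 1) ∧
      (PhiX W H * MA (Sg 0 0 0 β (φ β) 0 0 0 s)).det ≠ 0 := by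
  have hW : W.det ≠ 0 := fun h5 => by
    have h6 := congrArg Matrix.det h
    rw [det_mul, det_transpose, h5, zero_mul, det_one] at h6
    exact zero_ne_one h6
  have h20 : φ (H 1 0) = H 2 0 := by
    simpa using congrFun (congrFun hH 1) 0
  by_cases h0 : H 0 0 = 0
  · have h1 : H 1 0 ≠ 0 := fun h1 => by
      have h3 := congrFun (congrFun h 0) 0
      rw [h1, map_zero] at h20
      simp [Matrix.mul_apply, Fin.sum_univ_three, h0, h1, ← h20] at h3
    have h3 : φ (H 1 0) ≠ 0 := (map_ne_zero φ).2 h1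
    refine ⟨(φ (H 1 0))⁻¹ ^ 2, 1, Or.inr rfl, ?_⟩
    rw [Sg_diag, ZGoodS_diag h, map_pow, map_inv₀, hφ, ← h20, h0]
    refine mul_ne_zero hW ?_
    simp only [cons_val_one, cons_val_zero, cons_val, mul_one, ← mul_pow, mul_inv_cancel₀ h1,
      mul_inv_cancel₀ h3]
    rwa [one_pow, zero_pow two_ne_zero, sub_zero, one_add_one_eq_two]
  · refine ⟨0, 0, Or.inl rfl, ?_⟩
    rw [Sg_diag, ZGoodS_diag h]
    simp [h0, hW]

/-- as `ZGoodS_good`: `(A m + B m * S') * X = Zm * MA S`, `det_Zm_MA`, `det_Sg` -/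
theorem good_Sg {κ : Type*} [Field κ] (ι : κ →+* Λ) {W H : Matrix (Fin 3) (Fin 3) Λ}
    (h : Wᵀ * H = 1) {A B : Fin 5 → Matrix (Fin 4) (Fin 4) Λ}
    (hAB : ∀ m, Zm Λ m = A m * PhiX W H + B m * PhiY W H) {r t n : κ} (hn : ¬ IsSquare n)
    {z z' β β' b b' s : Λ} (hβ : β * β' = ι n)
    (hX : (PhiX W H * MA (Sg (ι r) z z' β β' (ι t) b b' s)).det ≠ 0)
    {S : Matrix (Fin 4) (Fin 4) κ}
    (hS : S.map ι = PhiY W H * MA (Sg (ι r) z z' β β' (ι t) b b' s) *
      (PhiX W H * MA (Sg (ι r) z z' β β' (ι t) b b' s))⁻¹) : S.IsSymm ∧ GoodM ι A B S := by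
  obtain ⟨h1, h2⟩ := ZGoodS_chart h (lag_MA (Sg_symm _ _ _ _ _ _ _ _ _)) hX
  rw [← hS] at h1 h2
  refine ⟨?_, _, inv_ne_zero hX, r, r - t, n, hn, fun m => ?_⟩
  · ext i j
    exact ι.injective (h1.apply i j)
  · have h3 := congrArg Matrix.det (h2 (A m) (B m))
    rw [← hAB, det_Zm_MA, det_Sg, det_mul, hβ] at h3
    rw [eq_inv_mul_iff_mul_eq₀ hX, mul_comm, ← h3]
    simp only [dq, map_mul, map_pow, map_add, map_sub, map_intCast]

end Pool.Agent.Lib.MP_775b3b_nt
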