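import Mathlib

/-! Polynomial functions on a finite vector space and their zeros. -/

namespace Pool.Agent.Lib.MP_775b3b_nt

open MvPolynomial

variable {F L : Type*} [Field F] [Field L] {ι : F →+* L} {n : ℕ}

/-- polynomial functions of degree at most `d` with values in an extension field -/
def PolyF (ι : F →+* L) (d : ℕ) (f : (Fin n → F) → L) : Prop :=
  ∃ p : MvPolynomial (Fin n) L, p.totalDegree ≤ d ∧ ∀ x, f x = eval (fun i => ι (x i)) p

theorem PolyF.const (c : L) (d : ℕ) : PolyF ι d (fun _ : Fin n → F => c) :=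
  ⟨C c, by simp, fun _ => by simp⟩

theorem PolyF.var (i : Fin n) : PolyF ι 1 (fun x : Fin n → F => ι (x i)) :=
  ⟨X i, by simp, fun _ => by simp⟩

variable {d d' : ℕ} {f g : (Fin n → F) → L}

theorem PolyF.mono (h : PolyF ι d f) (hd : d ≤ d') : PolyF ι d' f :=
  let ⟨p, h1, h2⟩ := h
  ⟨p, h1.trans hd, h2⟩

theorem PolyF.add (h : PolyF ι d f) (h' : PolyF ι d g) : PolyF ι d (fun x => f x + g x) :=
  let ⟨p, h1, h2⟩ := h
  let ⟨q, h3, h4⟩ := h'
  ⟨p + q, (totalDegree_add p q).trans (max_le h1 h3), fun x => by rw [map_add, ← h2, ← h4]⟩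

theorem PolyF.mul (h : PolyF ι d f) (h' : PolyF ι d' g) : PolyF ι (d + d') (fun x => f x * g x) :=
  let ⟨p, h1, h2⟩ := h
  let ⟨q, h3, h4⟩ := h'
  ⟨p * q, (totalDegree_mul p q).trans (add_le_add h1 h3), fun x => by rw [map_mul, ← h2, ← h4]⟩

theorem PolyF.cmul (c : L) (h : PolyF ι d f) : PolyF ι d (fun x => c * f x) := by
  simpa using (PolyF.const c 0).mul h

theorem PolyF.neg (h : PolyF ι d f) : PolyF ι d (fun x => -f x) := by
  simpa using h.cmul (-1)

theorem PolyF.sub (h : PolyF ι d f) (h' : PolyF ι d g) : PolyF ι d (fun x => f x - g x) := by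
  simpa [sub_eq_add_neg] using h.add h'.neg

theorem PolyF.sum {α : Type*} (s : Finset α) {f : α → (Fin n → F) → L}
    (h : ∀ a, PolyF ι d (f a)) : PolyF ι d (fun x => ∑ a ∈ s, f a x) := by
  classical
  induction s using Finset.induction_on with
  | empty => simpa using PolyF.const 0 d
  | insert a s ha ih => simpa [Finset.sum_insert ha] using (h a).add ih

theorem PolyF.prod {α : Type*} (s : Finset α) {f : α → (Fin n → F) → L}
    (h : ∀ a, PolyF ι d (f a)) : PolyF ι (s.card * d) (fun x => ∏ a ∈ s, f a x) := by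
  classical
  induction s using Finset.induction_on with
  | empty => simpa using PolyF.const 1 0
  | insert a s ha ih =>
    simpa [Finset.prod_insert ha, Finset.card_insert_of_notMem ha, add_mul, add_comm] using
      (h a).mul ih

theorem PolyF.det {m : Type*} [Fintype m] [DecidableEq m] {A : (Fin n → F) → Matrix m m L}
    (h : ∀ i j, PolyF ι d fun x => A x i j) :
    PolyF ι (Fintype.card m * d) fun x => (A x).det := by
  simp only [Matrix.det_apply']
  exact PolyF.sum _ fun σ => (PolyF.prod _ fun i => h (σ i) i).cmul _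

theorem PolyF.matmul {l m k : Type*} [Fintype m] {A : (Fin n → F) → Matrix l m L}
    {B : (Fin n → F) → Matrix m k L} (h : ∀ i j, PolyF ι d fun x => A x i j)
    (h' : ∀ i j, PolyF ι d' fun x => B x i j) (i : l) (j : k) :
    PolyF ι (d + d') fun x => (A x * B x) i j := by
  simp only [Matrix.mul_apply]
  exact PolyF.sum _ fun a => (h i a).mul (h' a j)

open Classical in
/-- Schwartz–Zippel -/
theorem PolyF.card_zero [Fintype F] (h : PolyF ι d f) (hx : ∃ x, f x ≠ 0) :
    (Finset.univ.filter fun x => f x = 0).card * Fintype.card F ≤ d * Fintype.card F ^ n := by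
  obtain ⟨p, h1, h2⟩ := h
  obtain ⟨x0, hx0⟩ := hx
  have hp : p ≠ 0 := by
    rintro rfl
    exact hx0 (by simpa using h2 x0)
  have hS : (Finset.univ.image ι).card = Fintype.card F := by
    rw [Finset.card_image_of_injective _ ι.injective, Finset.card_univ]
  have h3 := schwartz_zippel_totalDegree hp (Finset.univ.image ι)
  have h4 : (Finset.univ.filter fun x => f x = 0).card ≤
      ((Fintype.piFinset fun _ : Fin n => Finset.univ.image ι).filter
        fun y => eval y p = 0).card := by
    refine Finset.card_le_card_of_injOn (fun x i => ι (x i)) (fun x hx => ?_) fun x _ y _ hxy => ?_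
    · simp only [Finset.coe_filter, Finset.mem_univ, true_and, Set.mem_ofPred_eq,
        Fintype.mem_piFinset, Finset.mem_image] at hx ⊢
      exact ⟨fun i => ⟨_, rfl⟩, by rw [← h2, hx]⟩
    · exact funext fun i => ι.injective (congrFun hxy i)
  have h5 : (0 : ℚ≥0) < Fintype.card F := by exact_mod_cast Fintype.card_pos
  rw [hS, div_le_div_iff₀ (by positivity) h5] at h3
  have h6 : (((Finset.univ.filter fun x => f x = 0).card * Fintype.card F : ℕ) : ℚ≥0) ≤
      ((d * Fintype.card F ^ n : ℕ) : ℚ≥0) := by
    push_cast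
    refine le_trans (by gcongr) (h3.trans (by gcongr))
  exact_mod_cast h6

end Pool.Agent.Lib.MP_775b3b_nt
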