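import Pool.Agent.Lib.MP_775b3b_nt.YGood1
import Pool.Agent.Lib.MP_775b3b_nt.YPoly

/-! The number of good points in a twisted chart. -/

namespace Pool.Agent.Lib.MP_775b3b_nt

open Matrix

variable {κ Λ : Type*} [Field κ] [Field Λ]

/-- the member of the family with coordinates `x`, where `Λ = κ + κ i` -/
def SgX (ι : κ →+* Λ) (i : Λ) (x : Fin 9 → κ) : Matrix (Fin 4) (Fin 4) Λ :=
  Sg (ι (x 0)) (ι (x 3) + ι (x 4) * i) (ι (x 3) - ι (x 4) * i) (ι (x 5) + ι (x 6) * i)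
    (ι (x 5) - ι (x 6) * i) (ι (x 1)) (ι (x 7) + ι (x 8) * i) (ι (x 7) - ι (x 8) * i) (ι (x 2))

/-- the block determinant -/
def S3X (ι : κ →+* Λ) (i : Λ) (x : Fin 9 → κ) : Λ :=
  S3 (ι (x 5) + ι (x 6) * i) (ι (x 5) - ι (x 6) * i) (ι (x 1)) (ι (x 7) + ι (x 8) * i)
    (ι (x 7) - ι (x 8) * i) (ι (x 2))

theorem YGood2_p (ι : κ →+* Λ) (i : Λ) (a b : Fin 9) :
    PolyF ι 1 fun x : Fin 9 → κ => ι (x a) + ι (x b) * i := by
  simpa [mul_comm] using (PolyF.var (ι := ι) a).add ((PolyF.var b).cmul i)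

theorem YGood2_m (ι : κ →+* Λ) (i : Λ) (a b : Fin 9) :
    PolyF ι 1 fun x : Fin 9 → κ => ι (x a) - ι (x b) * i := by
  simpa [mul_comm] using (PolyF.var (ι := ι) a).sub ((PolyF.var b).cmul i)

theorem YGood2_U {ι : κ →+* Λ} {z z' : (Fin 9 → κ) → Λ} (h : PolyF ι 1 z) (h' : PolyF ι 1 z')
    (a b : Fin 4) : PolyF ι 2 fun x => Uz (z x) (z' x) a b := by
  have h0 := PolyF.const (ι := ι) (n := 9) (0 : Λ) 2
  have h1 := PolyF.const (ι := ι) (n := 9) (1 : Λ) 2
  have h2 := h.mono one_le_two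
  have h3 := h'.mono one_le_two
  have h4 : PolyF ι 2 fun x => z x * z' x := h.mul h'
  fin_cases a <;> fin_cases b <;> assumption

theorem YGood2_S0 {ι : κ →+* Λ} {β β' t b b' s : (Fin 9 → κ) → Λ} (h1 : PolyF ι 1 β)
    (h2 : PolyF ι 1 β') (h3 : PolyF ι 1 t) (h4 : PolyF ι 1 b) (h5 : PolyF ι 1 b')
    (h6 : PolyF ι 1 s) (a c : Fin 4) :
    PolyF ι 1 fun x => S0 (β x) (β' x) (t x) (b x) (b' x) (s x) a c := by
  have h0 := PolyF.const (ι := ι) (n := 9) (0 : Λ) 1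
  fin_cases a <;> fin_cases c <;> assumption

theorem YGood2_Sg (ι : κ →+* Λ) (i : Λ) (a b : Fin 4) : PolyF ι 5 fun x => SgX ι i x a b := by
  have hU := YGood2_U (YGood2_p ι i 3 4) (YGood2_m ι i 3 4)
  have hS := YGood2_S0 (YGood2_p ι i 5 6) (YGood2_m ι i 5 6) (PolyF.var 1) (YGood2_p ι i 7 8)
    (YGood2_m ι i 7 8) (PolyF.var 2)
  have h1 := PolyF.matmul
    (A := fun x : Fin 9 → κ => (Uz (ι (x 3) + ι (x 4) * i) (ι (x 3) - ι (x 4) * i))ᵀ)
    (fun a b => hU b a) hS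
  have h2 := PolyF.matmul h1 hU a b
  have h3 := ((PolyF.var (ι := ι) (0 : Fin 9)).mul (PolyF.const (J4 Λ a b) 0)).mono
    (show 1 + 0 ≤ 5 by omega)
  exact h3.add h2

theorem YGood2_ind (ι : κ →+* Λ) {i : Λ} {n₀ : κ} (hi : i ^ 2 = ι n₀) (hn : ¬ IsSquare n₀)
    {a b a' b' : κ} (h : ι a + ι b * i = ι a' + ι b' * i) : a = a' ∧ b = b' := by
  have hb : b = b' := by
    by_contra hb
    have h1 : b - b' ≠ 0 := sub_ne_zero.2 hb
    have h2 : ι (b - b') ≠ 0 := (map_ne_zero ι).2 h1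
    have h3 : i = ι ((a' - a) / (b - b')) := by
      rw [map_div₀, eq_div_iff h2, map_sub, map_sub]
      linear_combination h
    refine hn ⟨(a' - a) / (b - b'), ι.injective ?_⟩
    rw [map_mul, ← h3, ← hi, sq]
  subst hb
  exact ⟨ι.injective (add_right_cancel h), rfl⟩

/-- the entries of `Uz` have degree at most two, those of `S0` at most one: `PolyF.matmul`; the
entries of `MA` are constants or entries of `SgX` up to sign; `PolyF.det` -/
theorem polyF_detX (ι : κ →+* Λ) (i : Λ) (W H : Matrix (Fin 3) (Fin 3) Λ) :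
    PolyF ι 20 fun x => (PhiX W H * MA (SgX ι i x)).det := by
  have h0 := PolyF.const (ι := ι) (n := 9) (0 : Λ) 5
  have h1 := PolyF.const (ι := ι) (n := 9) (1 : Λ) 5
  have hM : ∀ c j, PolyF ι 5 fun x => MA (SgX ι i x) c j := by
    intro c j
    rcases cu_cases c with rfl | rfl | rfl | rfl | rfl | rfl | rfl | rfl
    · fin_cases j <;> assumption
    · fin_cases j <;> assumption
    · fin_cases j <;> assumption
    · fin_cases j <;> assumption
    · exact YGood2_Sg ι i 3 j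
    · exact (YGood2_Sg ι i 2 j).neg
    · exact (YGood2_Sg ι i 1 j).neg
    · exact YGood2_Sg ι i 0 j
  have h2 := PolyF.matmul (A := fun _ : Fin 9 → κ => PhiX W H)
    (fun a b => PolyF.const (ι := ι) (PhiX W H a b) 0) hM
  simpa using PolyF.det h2

theorem polyF_S3X (ι : κ →+* Λ) (i : Λ) : PolyF ι 3 (S3X ι i) := by
  have h1 := YGood2_p ι i 5 6
  have h2 := YGood2_m ι i 5 6
  have h3 := PolyF.var (ι := ι) (1 : Fin 9)
  have h4 := YGood2_p ι i 7 8
  have h5 := YGood2_m ι i 7 8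
  have h6 := PolyF.var (ι := ι) (2 : Fin 9)
  have h7 := PolyF.det (ι := ι) (d := 1) (A := fun x : Fin 9 → κ =>
    (!![ι (x 5) + ι (x 6) * i, ι (x 1), ι (x 7) + ι (x 8) * i;
      ι (x 1), ι (x 5) - ι (x 6) * i, ι (x 7) - ι (x 8) * i;
      ι (x 7) + ι (x 8) * i, ι (x 7) - ι (x 8) * i, ι (x 2)] : Matrix (Fin 3) (Fin 3) Λ))
    (fun a b => by fin_cases a <;> fin_cases b <;> assumption)
  exact h7.mono (by simp)

/-- `r` is determined: evaluate `det_Sg` at `(x, y) = (-r, 1)` for both points; the norm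
`x5^2 - n₀ x6^2` is not a square.  Then `Sg_inj`; `1, i` are independent over `κ` since `n₀` is
not a square. -/
theorem SgX_inj (ι : κ →+* Λ) {i : Λ} {n₀ : κ} (hi : i ^ 2 = ι n₀) (hn : ¬ IsSquare n₀)
    {x x' : Fin 9 → κ} (h3 : S3X ι i x ≠ 0) (hx' : ¬ IsSquare (x' 5 ^ 2 - n₀ * x' 6 ^ 2))
    (h : SgX ι i x = SgX ι i x') : x = x' := by
  have h0 : x 0 = x' 0 := by
    have h1 := congrArg (fun M => ((-ι (x 0)) • J4 Λ + (1 : Λ) • M).det) h
    simp only [SgX, det_Sg, dq] at h1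
    have h2 : (-ι (x 0) + ι (x' 0) * 1) ^ 2 * ι ((x' 0 - x 0 - x' 1) ^ 2 -
        (x' 5 ^ 2 - n₀ * x' 6 ^ 2)) = 0 := by
      simp only [map_sub, map_mul, map_pow, ← hi]
      linear_combination -h1
    rcases mul_eq_zero.1 h2 with h4 | h4
    · refine ι.injective ?_
      have h5 := pow_eq_zero_iff two_ne_zero |>.1 h4
      linear_combination -h5
    · refine absurd ⟨x' 0 - x 0 - x' 1, ?_⟩ hx'
      have h5 := (map_eq_zero ι).1 h4
      linear_combination -h5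
  unfold SgX at h
  rw [← h0] at h
  obtain ⟨h1, h2, h4, h5, h6⟩ := Sg_inj h3 h
  obtain ⟨a3, a4⟩ := YGood2_ind ι hi hn h1
  obtain ⟨a5, a6⟩ := YGood2_ind ι hi hn h2
  obtain ⟨a7, a8⟩ := YGood2_ind ι hi hn h5
  have a1 := ι.injective h4
  have a2 := ι.injective h6
  funext j
  fin_cases j <;> assumption

open Classical in
/-- Some value `a₀^2 - n₀ b₀^2` is not a square (`FiniteField.exists_root_sum_quadratic` with
`X^2 - C n` and `-n₀ X^2`, `FiniteField.exists_nonsquare`); multiplication by `a₀ + b₀ i`, that is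
`(a, b) ↦ (a a₀ + n₀ b b₀, a b₀ + a₀ b)`, is injective and maps the nonzero pairs with square norm
to pairs whose norm is not a square. -/
theorem card_norm_nonsq [Fintype κ] (h2 : (2 : κ) ≠ 0) {n₀ : κ} (hn : ¬ IsSquare n₀) :
    Fintype.card κ ^ 2 ≤ 2 * (Finset.univ.filter fun p : κ × κ =>
      ¬ IsSquare (p.1 ^ 2 - n₀ * p.2 ^ 2)).card + 1 := by
  have hn0 : n₀ ≠ 0 := by
    rintro rfl
    exact hn IsSquare.zero
  have hc : ringChar κ ≠ 2 := fun hc => h2 (by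
    have h3 := ringChar.Nat.cast_ringChar (R := κ)
    rwa [hc, Nat.cast_ofNat] at h3)
  obtain ⟨a₀, b₀, h0⟩ := FiniteField.exists_root_sum_quadratic
    (f := Polynomial.X ^ 2 - Polynomial.C n₀) (g := Polynomial.C (-n₀) * Polynomial.X ^ 2)
    (Polynomial.degree_X_pow_sub_C two_pos n₀)
    (Polynomial.degree_C_mul_X_pow 2 (neg_ne_zero.2 hn0)) (FiniteField.odd_card_of_char_ne_two hc)
  simp only [Polynomial.eval_sub, Polynomial.eval_pow, Polynomial.eval_X, Polynomial.eval_C,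
    Polynomial.eval_mul] at h0
  have h3 : a₀ ^ 2 - n₀ * b₀ ^ 2 = n₀ := by linear_combination h0
  have h4 : ((Finset.univ.filter fun p : κ × κ => IsSquare (p.1 ^ 2 - n₀ * p.2 ^ 2)).erase 0).card ≤
      (Finset.univ.filter fun p : κ × κ => ¬ IsSquare (p.1 ^ 2 - n₀ * p.2 ^ 2)).card := by
    refine Finset.card_le_card_of_injOn
      (fun p => (p.1 * a₀ + n₀ * p.2 * b₀, p.1 * b₀ + a₀ * p.2)) ?_ ?_
    · rintro ⟨a, b⟩ hp
      simp only [Finset.coe_erase, Finset.coe_filter, Finset.mem_univ, true_and, Set.mem_sdiff,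
        Set.mem_ofPred_eq, Set.mem_singleton_iff] at hp ⊢
      obtain ⟨⟨c, hc⟩, hp⟩ := hp
      rintro ⟨d, hd⟩
      have hc0 : c ≠ 0 := by
        rintro rfl
        by_cases hb : b = 0
        · refine hp (Prod.ext ?_ hb)
          rw [hb] at hc
          exact (pow_eq_zero_iff two_ne_zero).1 (by linear_combination hc)
        · refine hn ⟨a / b, ?_⟩
          field_simp
          linear_combination -hc
      refine hn ⟨d / c, ?_⟩
      field_simp
      linear_combination hd - n₀ * hc - (a ^ 2 - n₀ * b ^ 2) * h3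
    · rintro ⟨a, b⟩ - ⟨a', b'⟩ - he
      simp only [Prod.mk.injEq] at he ⊢
      obtain ⟨e1, e2⟩ := he
      constructor
      · refine mul_left_cancel₀ hn0 ?_
        linear_combination a₀ * e1 - n₀ * b₀ * e2 - (a - a') * h3
      · refine mul_left_cancel₀ hn0 ?_
        linear_combination a₀ * e2 - b₀ * e1 - (b - b') * h3
  have h5 := Finset.card_filter_add_card_filter_not (s := (Finset.univ : Finset (κ × κ)))
    fun p => IsSquare (p.1 ^ 2 - n₀ * p.2 ^ 2)
  have h6 := Finset.pred_card_le_card_erase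
    (s := Finset.univ.filter fun p : κ × κ => IsSquare (p.1 ^ 2 - n₀ * p.2 ^ 2)) (a := 0)
  rw [Finset.card_univ, Fintype.card_prod, ← sq] at h5
  omega

open Classical in
/-- `card_norm_nonsq`; the other seven coordinates are free -/
theorem card_norm_nonsq' [Fintype κ] (h2 : (2 : κ) ≠ 0) {n₀ : κ} (hn : ¬ IsSquare n₀) :
    Fintype.card κ ^ 9 ≤ 2 * (Finset.univ.filter fun x : Fin 9 → κ =>
      ¬ IsSquare (x 5 ^ 2 - n₀ * x 6 ^ 2)).card + Fintype.card κ ^ 7 := by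
  have h1 := card_norm_nonsq h2 hn
  have h3 : ((Finset.univ.filter fun p : κ × κ => ¬ IsSquare (p.1 ^ 2 - n₀ * p.2 ^ 2)) ×ˢ
      (Finset.univ : Finset (Fin 7 → κ))).card ≤ (Finset.univ.filter fun x : Fin 9 → κ =>
      ¬ IsSquare (x 5 ^ 2 - n₀ * x 6 ^ 2)).card := by
    refine Finset.card_le_card_of_injOn
      (fun p => ![p.2 0, p.2 1, p.2 2, p.2 3, p.2 4, p.1.1, p.1.2, p.2 5, p.2 6]) ?_ ?_
    · intro p hp
      simp only [Finset.coe_product, Finset.coe_filter, Finset.mem_univ, true_and, Set.mem_prod,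
        Set.mem_ofPred_eq] at hp ⊢
      exact hp.1
    · rintro ⟨⟨a, b⟩, y⟩ - ⟨⟨a', b'⟩, y'⟩ - he
      have e0 : y 0 = y' 0 := congrFun he 0
      have e1 : y 1 = y' 1 := congrFun he 1
      have e2 : y 2 = y' 2 := congrFun he 2
      have e3 : y 3 = y' 3 := congrFun he 3
      have e4 : y 4 = y' 4 := congrFun he 4
      have e5 : a = a' := congrFun he 5
      have e6 : b = b' := congrFun he 6
      have e7 : y 5 = y' 5 := congrFun he 7
      have e8 : y 6 = y' 6 := congrFun he 8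
      have e9 : y = y' := by
        funext j
        fin_cases j <;> assumption
      rw [e5, e6, e9]
  rw [Finset.card_product, Finset.card_univ, Fintype.card_fun, Fintype.card_fin] at h3
  calc Fintype.card κ ^ 9 = Fintype.card κ ^ 2 * Fintype.card κ ^ 7 := by ring
    _ ≤ _ := Nat.mul_le_mul_right _ h1
    _ ≤ _ := by
      rw [add_mul, one_mul, mul_assoc]
      omega

open Classical in
/-- `i = det W ≠ 0` has `φ i = -i` (`Matrix.det_permute`, `RingHom.map_det`), `i^2 = ι n₀`, `n₀` is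
not a square, every `a` is `ι u + ι v * i` (`(a + φ a) / 2`, `(a - φ a) / (2 i)` are fixed), and
`φ ∘ ι = ι`.  Remove from the set of `card_norm_nonsq'` the zeros of `polyF_detX` (not zero by
`exists_Sg_ne`) and `polyF_S3X` (value `1` at `x5 = x2 = 1`): `PolyF.card_zero`; at least
`(l^9 - l^7) / 2 - 23 l^8` points remain.  For these `chart_fixed` (`Sg_map`, `Sg_swap`) gives `S`,
`good_Sg`; the map `x ↦ S` is injective by `ZGoodS_inj`, `SgX_inj`. -/
theorem card_goodM (l : ℕ) [Fact l.Prime] (hl : 200 ≤ l) (ι : ZMod l →+* Λ) (φ : Λ →+* Λ)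
    (hφ : ∀ a, φ (φ a) = a) (hf : ∀ a, φ a = a → ∃ b, ι b = a) {W H : Matrix (Fin 3) (Fin 3) Λ}
    (h : Wᵀ * H = 1) (hW : W.map φ = W.submatrix (Equiv.swap 1 2) id)
    (hH : H.map φ = H.submatrix (Equiv.swap 1 2) id) {A B : Fin 5 → Matrix (Fin 4) (Fin 4) Λ}
    (hAB : ∀ m, Zm Λ m = A m * PhiX W H + B m * PhiY W H) :
    (l : ℝ) ^ 9 ≤ 5 * (Finset.univ.filter fun S : Matrix (Fin 4) (Fin 4) (ZMod l) =>
      S.IsSymm ∧ GoodM ι A B S).card := by
  have hι : ∀ a, φ (ι a) = ι a := fun a => RingHom.congr_fun (RingHom.ext_zmod (φ.comp ι) ι) a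
  have h2 : (2 : ZMod l) ≠ 0 := fun h2 => by
    have h3 := (ZMod.natCast_eq_zero_iff 2 l).1 (by exact_mod_cast h2)
    have h4 := Nat.le_of_dvd two_pos h3
    omega
  have h2' : (2 : Λ) ≠ 0 := by
    have h3 := (map_ne_zero ι).2 h2
    rwa [map_ofNat] at h3
  obtain ⟨i, hi0, hφi⟩ : ∃ i : Λ, i ≠ 0 ∧ φ i = -i := by
    refine ⟨W.det, fun h5 => ?_, ?_⟩
    · have h6 := congrArg Matrix.det h
      rw [det_mul, det_transpose, h5, zero_mul, det_one] at h6
      exact zero_ne_one h6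
    · rw [RingHom.map_det, RingHom.mapMatrix_apply, hW, det_permute,
        Equiv.Perm.sign_swap (by decide)]
      simp
  obtain ⟨n₀, hi⟩ := hf (i ^ 2) (by rw [map_pow, hφi, neg_sq])
  have hn : ¬ IsSquare n₀ := by
    rintro ⟨c, rfl⟩
    have h3 : φ i = i := by
      rcases sq_eq_sq_iff_eq_or_eq_neg.1 (show i ^ 2 = ι c ^ 2 by rw [← hi, map_mul, sq]) with
        e | e
      · rw [e, hι]
      · rw [e, map_neg, hι]
    refine mul_ne_zero h2' hi0 ?_
    linear_combination hφi - h3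
  have hp : ∀ a b, φ (ι a + ι b * i) = ι a - ι b * i := fun a b => by
    rw [map_add, map_mul, hι, hι, hφi]
    ring
  have hm : ∀ a b, φ (ι a - ι b * i) = ι a + ι b * i := fun a b => by
    rw [map_sub, map_mul, hι, hι, hφi]
    ring
  have hD := (polyF_detX ι i W H).card_zero (by
    obtain ⟨β, s, hs, hd⟩ := exists_Sg_ne h2' φ hφ h hH
    obtain ⟨u, hu⟩ := hf ((β + φ β) / 2) (by rw [map_div₀, map_add, hφ, map_ofNat, add_comm])
    obtain ⟨v, hv⟩ := hf ((β - φ β) / (2 * i)) (by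
      rw [map_div₀, map_sub, hφ, map_mul, map_ofNat, hφi]
      field_simp
      ring)
    obtain ⟨s₀, rfl⟩ : ∃ s₀, ι s₀ = s := hs.elim (fun e => ⟨0, by rw [e, map_zero]⟩)
      fun e => ⟨1, by rw [e, map_one]⟩
    have e1 : ι u + ι v * i = β := by
      rw [hu, hv]
      field_simp
      ring
    have e2 : ι u - ι v * i = φ β := by rw [← e1, hp]
    refine ⟨![0, 0, s₀, 0, 0, u, v, 0, 0], ?_⟩
    have e3 : SgX ι i ![0, 0, s₀, 0, 0, u, v, 0, 0] = Sg 0 0 0 β (φ β) 0 0 0 (ι s₀) := by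
      rw [← e2, ← e1]
      change Sg (ι 0) (ι 0 + ι 0 * i) (ι 0 - ι 0 * i) (ι u + ι v * i) (ι u - ι v * i) (ι 0)
        (ι 0 + ι 0 * i) (ι 0 - ι 0 * i) (ι s₀) = _
      rw [map_zero, zero_mul, add_zero, sub_zero]
    rwa [e3])
  have hE := (polyF_S3X ι i).card_zero ⟨![0, 0, 1, 0, 0, 1, 0, 0, 0], by
    change S3 (ι 1 + ι 0 * i) (ι 1 - ι 0 * i) (ι 0) (ι 0 + ι 0 * i) (ι 0 - ι 0 * i) (ι 1) ≠ 0
    simp [S3, det_fin_three]⟩
  have hN := card_norm_nonsq' h2 hn
  rw [ZMod.card] at hD hE hN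
  have hfix : ∀ x : Fin 9 → ZMod l, (PhiX W H * MA (SgX ι i x)).det ≠ 0 →
      ((PhiY W H * MA (SgX ι i x) * (PhiX W H * MA (SgX ι i x))⁻¹).map
        (Function.invFun ι)).map ι = PhiY W H * MA (SgX ι i x) * (PhiX W H * MA (SgX ι i x))⁻¹ := by
    intro x hx
    have h3 := chart_fixed φ hW hH (S := SgX ι i x)
      (by simp only [SgX, Sg_map, Sg_swap, hp, hm, hι]) hx
    ext a b
    exact Function.invFun_eq (hf _ (congrFun (congrFun h3 a) b))
  have h4 : (Finset.univ.filter fun x : Fin 9 → ZMod l => ¬ IsSquare (x 5 ^ 2 - n₀ * x 6 ^ 2) ∧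
      (PhiX W H * MA (SgX ι i x)).det ≠ 0 ∧ S3X ι i x ≠ 0).card ≤
      (Finset.univ.filter fun S : Matrix (Fin 4) (Fin 4) (ZMod l) =>
        S.IsSymm ∧ GoodM ι A B S).card := by
    refine Finset.card_le_card_of_injOn (fun x => (PhiY W H * MA (SgX ι i x) *
      (PhiX W H * MA (SgX ι i x))⁻¹).map (Function.invFun ι)) ?_ ?_
    · intro x hx
      simp only [Finset.coe_filter, Finset.mem_univ, true_and, Set.mem_ofPred_eq] at hx ⊢
      refine good_Sg ι h hAB hx.1 ?_ hx.2.1 (hfix x hx.2.1)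
      simp only [map_sub, map_mul, map_pow, hi]
      ring
    · intro x hx x' hx' he
      simp only [Finset.coe_filter, Finset.mem_univ, true_and, Set.mem_ofPred_eq] at hx hx'
      refine SgX_inj ι hi.symm hn hx.2.2 hx'.1
        (ZGoodS_inj h (Sg_symm ..) (Sg_symm ..) hx.2.1 hx'.2.1 ?_)
      rw [← hfix x hx.2.1, ← hfix x' hx'.2.1]
      exact congrArg (fun M => Matrix.map M ι) he
  have h5 : (Finset.univ.filter fun x : Fin 9 → ZMod l =>
      ¬ IsSquare (x 5 ^ 2 - n₀ * x 6 ^ 2)).card ≤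
      (Finset.univ.filter fun x : Fin 9 → ZMod l => ¬ IsSquare (x 5 ^ 2 - n₀ * x 6 ^ 2) ∧
        (PhiX W H * MA (SgX ι i x)).det ≠ 0 ∧ S3X ι i x ≠ 0).card +
      (Finset.univ.filter fun x : Fin 9 → ZMod l => (PhiX W H * MA (SgX ι i x)).det = 0).card +
      (Finset.univ.filter fun x : Fin 9 → ZMod l => S3X ι i x = 0).card := by
    refine le_trans (Finset.card_le_card fun x hx => ?_) ((Finset.card_union_le _ _).trans
      (Nat.add_le_add_right (Finset.card_union_le _ _) _))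
    simp only [Finset.mem_filter, Finset.mem_univ, true_and, Finset.mem_union] at hx ⊢
    tauto
  have hN' : l ^ 9 ≤ 2 * (Finset.univ.filter fun x : Fin 9 → ZMod l =>
      ¬ IsSquare (x 5 ^ 2 - n₀ * x 6 ^ 2)).card + l ^ 7 := by convert hN
  have h6 : l ^ 7 * 200 ≤ l ^ 9 := by
    calc l ^ 7 * 200 ≤ l ^ 7 * (l * l) := Nat.mul_le_mul_left _ (by nlinarith)
      _ = l ^ 9 := by ring
  have hD' := (Nat.mul_le_mul_left _ hl).trans hD
  have hE' := (Nat.mul_le_mul_left _ hl).trans hE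
  have h7 : l ^ 9 ≤ 5 * (Finset.univ.filter fun S : Matrix (Fin 4) (Fin 4) (ZMod l) =>
      S.IsSymm ∧ GoodM ι A B S).card := by omega
  exact_mod_cast h7

open Classical in
/-- `card_symm` -/
theorem card_badM (l : ℕ) [Fact l.Prime] (hl : 200 ≤ l) (ι : ZMod l →+* Λ) (φ : Λ →+* Λ)
    (hφ : ∀ a, φ (φ a) = a) (hf : ∀ a, φ a = a → ∃ b, ι b = a) {W H : Matrix (Fin 3) (Fin 3) Λ}
    (h : Wᵀ * H = 1) (hW : W.map φ = W.submatrix (Equiv.swap 1 2) id)
    (hH : H.map φ = H.submatrix (Equiv.swap 1 2) id) {A B : Fin 5 → Matrix (Fin 4) (Fin 4) Λ}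
    (hAB : ∀ m, Zm Λ m = A m * PhiX W H + B m * PhiY W H) :
    ((Finset.univ.filter fun S : Matrix (Fin 4) (Fin 4) (ZMod l) =>
      S.IsSymm ∧ ¬ GoodM ι A B S).card : ℝ) ≤ (1 - 1 / 5 / l) * (l : ℝ) ^ 10 := by
  have h1 := card_goodM l hl ι φ hφ hf h hW hH hAB
  have h3 := card_symm (κ := ZMod l)
  rw [ZMod.card] at h3
  have h6 : (Finset.univ.filter fun S : Matrix (Fin 4) (Fin 4) (ZMod l) =>
      S.IsSymm ∧ ¬ GoodM ι A B S).card +
      (Finset.univ.filter fun S : Matrix (Fin 4) (Fin 4) (ZMod l) =>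
        S.IsSymm ∧ GoodM ι A B S).card ≤ l ^ 10 := by
    rw [← Finset.card_union_of_disjoint (Finset.disjoint_filter.2 fun S _ a b => a.2 b.2), ← h3]
    refine Finset.card_le_card fun S hS => ?_
    simp only [Finset.mem_filter, Finset.mem_univ, true_and, Finset.mem_union] at hS ⊢
    exact hS.elim And.left And.left
  have h6' := (Nat.cast_le (α := ℝ)).2 h6
  push_cast at h6'
  have h7 : (l : ℝ) ≠ 0 := by
    have : 0 < l := by omega
    positivity
  have h8 : (1 - 1 / 5 / l) * (l : ℝ) ^ 10 = (l : ℝ) ^ 10 - (l : ℝ) ^ 9 / 5 := by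
    field_simp
  rw [h8]
  linarith

end Pool.Agent.Lib.MP_775b3b_nt
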