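import Pool.Agent.Lib.MP_775b3b_nt.YDefs
import Pool.Agent.Lib.MP_775b3b_nt.YFF
import Pool.Agent.Lib.MP_775b3b_nt.ZTy0
import Pool.Agent.Lib.MP_775b3b_nt.ZTy2

/-! Multiplicative places: units and squares. -/

namespace Pool.Agent.Lib.MP_775b3b_nt

open Cub MP_439fea_co WithZero

variable {e : ℤ × ℤ} {k : Type} [Field k] [NumberField k] {v : P k} {s : ℤ}

theorem YM1_six {l : ℕ} (hl : l.Prime) (h5 : 5 ≤ l) : ¬ l ∣ 6 := fun h => by
  rcases (Nat.Prime.dvd_mul hl (m := 2) (n := 3)).1 h with h | h <;>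
    have := Nat.le_of_dvd (by norm_num) h <;> omega

/-- `l ∤ A` (else `l ∣ B`, `l^2 ∣ disc`).  Take `s` with `2 A s + 3 B ≡ 0` modulo `l`; then
`4 A^2 (3 s^2 + A) ≡ disc`, `8 A^3 f(s) ≡ -B disc`, and
`(3 s^2 + 4 A) (3 s^2 + A)^2 - 27 (s^3 + A s - B) f(s) = disc`.  `Classical.epsilon_spec`. -/
theorem rtM_spec {l : ℕ} (hl : l.Prime) (h5 : 5 ≤ l) (h1 : (l : ℤ) ∣ disc e)
    (h2 : ¬ (l : ℤ) ^ 2 ∣ disc e) : ¬ (l : ℤ) ∣ rtM e l ∧ (l : ℤ) ∣ 3 * rtM e l ^ 2 + e.1 ∧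
      (l : ℤ) ∣ fv e (rtM e l) ∧ ¬ (l : ℤ) ^ 2 ∣ fv e (rtM e l) := by
  have : Fact l.Prime := ⟨hl⟩
  refine Classical.epsilon_spec (p := fun s : ℤ => ¬ (l : ℤ) ∣ s ∧ (l : ℤ) ∣ 3 * s ^ 2 + e.1 ∧
    (l : ℤ) ∣ fv e s ∧ ¬ (l : ℤ) ^ 2 ∣ fv e s) ?_
  have h6 : ((6 : ℕ) : ZMod l) ≠ 0 := fun h => YM1_six hl h5 ((ZMod.natCast_eq_zero_iff 6 l).1 h)
  rw [show (6 : ℕ) = 2 * 3 from rfl, Nat.cast_mul, Nat.cast_ofNat, Nat.cast_ofNat] at h6
  have n2 := left_ne_zero_of_mul h6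
  have n3 := right_ne_zero_of_mul h6
  have hd : 4 * (e.1 : ZMod l) ^ 3 + 27 * (e.2 : ZMod l) ^ 2 = 0 := by
    have := (ZMod.intCast_zmod_eq_zero_iff_dvd _ l).2 h1
    rw [disc] at this
    exact_mod_cast this
  have hA : (e.1 : ZMod l) ≠ 0 := fun hA => h2 (by
    have hB : (e.2 : ZMod l) = 0 := by
      have h3 : (3 : ZMod l) ^ 3 * (e.2 : ZMod l) ^ 2 = 0 := by
        rw [hA] at hd
        linear_combination hd
      exact pow_eq_zero_iff two_ne_zero |>.1 ((mul_eq_zero.1 h3).resolve_left (pow_ne_zero _ n3))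
    obtain ⟨a, ha⟩ := (ZMod.intCast_zmod_eq_zero_iff_dvd _ l).1 hA
    obtain ⟨b, hb⟩ := (ZMod.intCast_zmod_eq_zero_iff_dvd _ l).1 hB
    exact ⟨4 * l * a ^ 3 + 27 * b ^ 2, by rw [disc, ha, hb]; ring⟩)
  obtain ⟨s, hs⟩ := ZMod.intCast_surjective (-3 * (e.2 : ZMod l) / (2 * (e.1 : ZMod l)))
  have hs' : 2 * (e.1 : ZMod l) * s + 3 * e.2 = 0 := by
    rw [hs]
    field_simp
    ring
  have h3 : 3 * (s : ZMod l) ^ 2 + e.1 = 0 := by
    refine (mul_eq_zero.1 (?_ : (2 * (e.1 : ZMod l)) ^ 2 * _ = 0)).resolve_left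
      (pow_ne_zero _ (mul_ne_zero n2 hA))
    linear_combination hd + 3 * (2 * (e.1 : ZMod l) * s - 3 * e.2) * hs'
  have h4 : fv e (s : ZMod l) = 0 := by
    refine (mul_eq_zero.1 (?_ : (3 : ZMod l) * _ = 0)).resolve_left n3
    rw [fv]
    linear_combination s * h3 + hs'
  have h5 : (l : ℤ) ∣ 3 * s ^ 2 + e.1 := by
    rw [← ZMod.intCast_zmod_eq_zero_iff_dvd]
    exact_mod_cast h3
  refine ⟨s, fun h0 => hA ?_, h5, ?_, fun h0 => h2 ?_⟩
  · rw [(ZMod.intCast_zmod_eq_zero_iff_dvd _ l).2 h0] at h3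
    simpa using h3
  · rw [← ZMod.intCast_zmod_eq_zero_iff_dvd, ← fv_intCast]
    exact h4
  · have e1 : disc e = (3 * s ^ 2 + 4 * e.1) * (3 * s ^ 2 + e.1) ^ 2 -
        27 * (s ^ 3 + e.1 * s - e.2) * fv e s := by
      simp only [disc, fv, Int.cast_id]
      ring
    rw [e1]
    exact dvd_sub ((pow_dvd_pow_of_dvd h5 2).mul_left _) (h0.mul_left _)

/-- as `tyV_of`; `ordp_val_one`, `fv_intCast` -/
theorem tyM_of {l : ℕ} (hl : l.Prime) (h5 : 5 ≤ l) (h1 : (l : ℤ) ∣ disc e)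
    (h2 : ¬ (l : ℤ) ^ 2 ∣ disc e) (hv : val v (l : k) = exp (-1 : ℤ)) : TyM e v (rtM e l) := by
  have hv1 : val v (l : k) < 1 := by
    rw [hv, ← exp_zero, exp_lt_exp]
    norm_num
  obtain ⟨a1, ⟨n, hn⟩, ⟨m, hm⟩, a4⟩ := rtM_spec hl h5 h1 h2
  refine ⟨?_, ordp_val_one (p := ⟨l, hl⟩) v hv1 a1, ?_, ?_⟩
  · have h3 := ordp_val_one (p := ⟨l, hl⟩) (m := (6 : ℕ)) v hv1 fun h =>
      YM1_six hl h5 (Int.natCast_dvd_natCast.1 h)
    exact_mod_cast h3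
  · have h3 : 3 * (rtM e l : k) ^ 2 + (e.1 : k) = (l : k) * (n : k) := by
      exact_mod_cast congrArg (Int.cast : ℤ → k) hn
    rw [h3]
    exact lociso_mul_lt v hv1 (val_int_le v n)
  · have h3 : ¬ (l : ℤ) ∣ m := fun h3 => a4 (by rw [hm, sq]; exact mul_dvd_mul_left _ h3)
    rw [fv_intCast, hm, Int.cast_mul, map_mul, Int.cast_natCast, hv,
      ordp_val_one (p := ⟨l, hl⟩) v hv1 h3, mul_one]

theorem Over.tyM {k' : Type} [Field k'] [NumberField k'] {φ : k →+* k'} {w : P k'}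
    (h : Over φ w v) : TyM e w s ↔ TyM e v s := by
  have h1 := h.intCast 6
  have h2 := h.intCast (3 * s ^ 2 + e.1)
  push_cast at h1 h2
  rw [TyM, TyM, h1, h2, h.intCast, fv_intCast, fv_intCast (R := k), h.intCast]

theorem TyM.two (h : TyM e v s) : val v (2 : k) = 1 := by
  have h1 := h.1
  rw [show (6 : k) = 2 * 3 by norm_num] at h1
  refine le_antisymm (by simpa using val_int_le v 2) (not_lt.1 fun h2 => ?_)
  exact (lociso_mul_lt v h2 (by simpa using val_int_le v 3)).ne h1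

theorem TyM.three (h : TyM e v s) : val v (3 : k) = 1 := by
  have h1 := h.1
  rw [show (6 : k) = 2 * 3 by norm_num, map_mul, h.two, one_mul] at h1
  exact h1

theorem TyM.fv_ne (h : TyM e v s) : fv e (s : k) ≠ 0 := by
  intro h0
  have h1 := h.2.2.2
  rw [h0, map_zero] at h1
  exact exp_ne_zero h1.symm

theorem YM1_lt (h : TyM e v s) : val v (fv e (s : k)) < 1 := by
  rw [h.2.2.2, ← exp_zero, exp_lt_exp]
  norm_num

/-- as `TyV.ft` -/
theorem TyM.fm (h : TyM e v s) {κ : Type*} [Field κ] {ρ : (val v).integer →+* κ}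
    (hρ : RedAt v ρ) : FM e (s : κ) := by
  refine ⟨?_, ?_, ?_, ?_⟩
  · have h1 := (ZTy1_ne hρ h.1.le).2 h.1
    have h2 := rd_natCast ρ 6
    rw [Nat.cast_ofNat, Nat.cast_ofNat] at h2
    rwa [h2] at h1
  · rw [← rd_intCast ρ s]
    exact (ZTy1_ne hρ h.2.1.le).2 h.2.1
  · rw [← rd_intCast ρ s, fv_rd ρ (val_int_le v s), hρ.rd_eq_zero (YM1_lt h).le]
    exact YM1_lt h
  · have h1 := rd_intCast ρ (3 * s ^ 2 + e.1)
    push_cast at h1
    rw [← h1, hρ.rd_eq_zero h.2.2.1.le]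
    exact h.2.2.1

theorem YM1_dec (h : TyM e v s) {x : Cub e k} (hx : x ∈ Ov e v) (h2 : Sm v (x ^ 2)) :
    ∃ w ∈ Ov e v, x = x.c2 • tau e (s : k) + fv e (s : k) • w := by
  obtain ⟨κ, _, _, ρ, hρ⟩ := exists_redAt v
  have hs : val v (s : k) ≤ 1 := val_int_le v s
  rw [← hρ.rdC_eq_zero h2.mem, rdC_pow ρ hx] at h2
  have h3 : rdC ρ x = rdC ρ (x.c2 • tau e (s : k)) := by
    rw [rdC_smul ρ hx.2.2 (tau_mem_Ov hs), rdC_tau ρ hs, rd_intCast]
    exact (h.fm hρ).sq_zero h2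
  rw [hρ.rdC_eq_iff hx (smul_mem_Ov hx.2.2 (tau_mem_Ov hs))] at h3
  exact ⟨_, ZTy2_div h.2.2.2 h3, by rw [smul_inv_smul₀ h.fv_ne, add_sub_cancel]⟩

/-- With `f = f(s)`, `a = s - θ`, `c = x.c2`: modulo `v`, `x^2 = 0`, so `x = c τ + f w` with `w`
integral (`FM.sq_zero`, `ZTy2_div`), and `f⁻¹ x^2 a = c^2 τ + f (2 c w + w^2 a)`; its last
coordinate shows `val v c < 1`. -/
theorem TyM.sm_of_sq (h : TyM e v s) {x : Cub e k} (hx : x ∈ Ov e v)
    (h2 : Sm v ((fv e (s : k))⁻¹ • x ^ 2)) : Sm v x := by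
  have hs : val v (s : k) ≤ 1 := val_int_le v s
  have h3 : Sm v (x ^ 2) := by
    rw [← smul_inv_smul₀ h.fv_ne (x ^ 2)]
    exact Sm.smul_of_lt (YM1_lt h) h2.mem
  obtain ⟨w, hw, e1⟩ := YM1_dec h hx h3
  have hc := hx.2.2
  generalize x.c2 = c at e1 hc
  have e2 : (c * c) • tau e (s : k) = (fv e (s : k))⁻¹ • x ^ 2 * lin e (s : k) -
      fv e (s : k) • (c • w + c • w + w * w * lin e (s : k)) := by
    have e3 := lin_mul_tau (e := e) (s : k)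
    have e4 : algebraMap k (Cub e k) (fv e (s : k))⁻¹ * algebraMap k (Cub e k) (fv e (s : k)) =
        1 := by rw [← map_mul, inv_mul_cancel₀ h.fv_ne, map_one]
    rw [e1]
    simp only [Algebra.smul_def, map_mul]
    generalize algebraMap k (Cub e k) (fv e (s : k))⁻¹ = g at *
    generalize algebraMap k (Cub e k) (fv e (s : k)) = f at *
    generalize algebraMap k (Cub e k) c = C at *
    linear_combination (-(g * C * C * tau e (s : k)) - 2 * g * C * f * w) * e3 -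
      (C * C * tau e (s : k) + 2 * C * f * w + f * w * w * lin e (s : k)) * e4
  have h4 : Sm v ((c * c) • tau e (s : k)) := by
    rw [e2]
    exact (h2.mul_right (lin_mem_Ov hs)).sub (Sm.smul_of_lt (YM1_lt h) (add_mem
      (add_mem (smul_mem_Ov hc hw) (smul_mem_Ov hc hw)) (mul_mem (mul_mem hw hw) (lin_mem_Ov hs))))
  have h5 : val v (c * c) < 1 := by simpa [tau] using h4.2.2
  have h6 : val v c < 1 := lt_of_le_of_ne hc fun h0 => by simp [h0] at h5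
  rw [e1]
  exact (Sm.smul_of_lt h6 (tau_mem_Ov hs)).add (Sm.smul_of_lt (YM1_lt h) hw)

/-- `exists_prim`; if `val v c < 1` then `f⁻¹ (c y)^2 = (c^2 / f) y^2` is small -/
theorem TyM.mem_Ov_of_sq (h : TyM e v s) {y : Cub e k} (hy : y ^ 2 ∈ Ov e v) : y ∈ Ov e v := by
  by_cases h0 : y = 0
  · rw [h0]
    exact zero_mem _
  obtain ⟨c, hc, h1, h2⟩ := exists_prim v h0
  rcases lt_or_ge (val v c) 1 with h3 | h3
  · refine absurd (h.sm_of_sq h1 ?_) h2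
    rw [smul_pow, sq c, mul_smul, smul_comm, smul_comm (fv e (s : k))⁻¹]
    exact Sm.smul_of_lt h3 (by
      rw [smul_comm]
      exact ZTy2_div h.2.2.2 (Sm.smul_of_lt h3 hy))
  · rw [← inv_smul_smul₀ hc y]
    exact smul_mem_Ov (by rw [map_inv₀]; exact inv_le_one_of_one_le₀ h3) h1

/-- `FM.nm_eq` -/
theorem TyM.val_evr (h : TyM e v s) {u : Cub e k} (hu : u ∈ Ov e v) (hn : val v (nm u) = 1) :
    val v (evr (s : k) u) = 1 := by
  obtain ⟨κ, _, _, ρ, hρ⟩ := exists_redAt v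
  have h1 := (ZTy1_ne hρ hn.le).2 hn
  rw [← nm_rdC ρ hu, nm_eq_evr_mul (h.fm hρ).root, ZTy1_evr ρ hu] at h1
  exact (ZTy1_ne hρ (val_evr_le (val_int_le v s) hu)).1 (left_ne_zero_of_mul h1)

/-- as `TyV.evr_of_sqv` -/
theorem TyM.evr_of_sqv (h : TyM e v s) {u : (Cub e k)ˣ} (hu : (u : Cub e k) ∈ Ov e v)
    (hn : val v (nm (u : Cub e k)) = 1) (hs : u ∈ sqv e v) :
    ∃ y : k, val v (evr (s : k) (u : Cub e k) - y ^ 2) < 1 := by
  obtain ⟨κ, _, _, ρ, hρ⟩ := exists_redAt v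
  obtain ⟨z, hz⟩ := hs
  obtain ⟨h1, h2⟩ := hz.val_nm
  have h3 : ((z⁻¹ : (Cub e k)ˣ) : Cub e k) ∈ Ov e v := by
    refine h.mem_Ov_of_sq ?_
    have h4 : z⁻¹ ^ 2 = u * (u * z ^ 2)⁻¹ := by rw [mul_inv, mul_inv_cancel_left, inv_pow]
    rw [← Units.val_pow_eq_pow_val, h4, Units.val_mul]
    exact mul_mem hu (inv_mem_Ov h1 h2)
  have h4 : (u : Cub e k) = (u * z ^ 2 : (Cub e k)ˣ) * ((z⁻¹ : (Cub e k)ˣ) : Cub e k) ^ 2 := by
    rw [← Units.val_pow_eq_pow_val, ← Units.val_mul, inv_pow, mul_inv_cancel_right]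
  have h5 : rdC ρ (u : Cub e k) = rdC ρ ((z⁻¹ : (Cub e k)ˣ) : Cub e k) ^ 2 := by
    rw [h4, rdC_mul ρ h1 (pow_mem h3 2), (hρ.rdC_eq_iff h1 (one_mem _)).2 hz, rdC_one, one_mul,
      rdC_pow ρ h3]
  rw [← hρ.isSquare_iff (val_evr_le (val_int_le v s) hu), ← ZTy1_evr ρ hu, h5,
    evr_pow (h.fm hρ).root]
  exact IsSquare.sq _

/-- as `TyV.sqv_of_evr`, with `FM.isSquare` -/
theorem TyM.sqv_of_evr (h : TyM e v s) {u : (Cub e k)ˣ} (hu : (u : Cub e k) ∈ Ov e v)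
    (hn : val v (nm (u : Cub e k)) = 1) (hq : u ∈ nsq e k)
    (hy : ∃ y : k, val v (evr (s : k) (u : Cub e k) - y ^ 2) < 1) : u ∈ sqv e v := by
  obtain ⟨κ, _, _, ρ, hρ⟩ := exists_redAt v
  have h0 : nm (rdC ρ (u : Cub e k)) ≠ 0 := by
    rw [nm_rdC ρ hu]
    exact (ZTy1_ne hρ hn.le).2 hn
  obtain ⟨t, ht⟩ := (h.fm hρ).isSquare (u := rdC ρ (u : Cub e k)) (by
    obtain ⟨ν, hν⟩ := hq
    rw [nm_rdC ρ hu, hρ.isSquare_iff hn.le]
    exact ⟨ν, by rw [hν, sub_self, map_zero]; exact zero_lt_one⟩) h0 (by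
    rwa [ZTy1_evr ρ hu, hρ.isSquare_iff (val_evr_le (val_int_le v s) hu)])
  obtain ⟨y, h1, rfl⟩ := hρ.exists_rdC t
  rw [ht, nm_mul, nm_rdC ρ h1] at h0
  have h2 := (ZTy1_ne hρ (val_nm_le h1)).1 (left_ne_zero_of_mul h0)
  obtain ⟨z, rfl⟩ : IsUnit y := isUnit_iff.2 fun h3 => by simp [h3] at h2
  rw [← rdC_mul ρ h1 h1, hρ.rdC_eq_iff hu (mul_mem h1 h1)] at ht
  refine ⟨z⁻¹, ?_⟩
  convert ht.mul_right (pow_mem (inv_mem_Ov h1 h2) 2) using 1
  rw [sub_mul, ← sq, ← mul_pow, Units.mul_inv, one_pow, Units.val_mul, Units.val_pow_eq_pow_val]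

/-- If `u = τ z^2` is a unit of the order, `y = f z` has `y^2 = f u a`, so `y` is integral and
`y = c τ + f w`; then `u a^3 = f (c^2 + 2 c a w + a^2 w^2)` (use `a τ = f`) is small, so `a^3` is
small, but `(a^3).c2 = 3 s`. -/
theorem TyM.tau_not_mem (h : TyM e v s) : tauU e k s ∉ usv e v := by
  intro h0
  have hs : val v (s : k) ≤ 1 := val_int_le v s
  obtain ⟨z, h1, h2⟩ := mem_usv.1 h0
  have h7 := inv_mem_Ov h1 h2
  have h8 := Units.inv_mul (tauU e k s * z ^ 2)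
  generalize (((tauU e k s * z ^ 2)⁻¹ : (Cub e k)ˣ) : Cub e k) = u' at h7 h8
  rw [Units.val_mul, Units.val_pow_eq_pow_val, tauU_val h.fv_ne] at h1 h8
  have h3 : Sm v ((fv e (s : k) • (z : Cub e k)) ^ 2) := by
    have h4 : (fv e (s : k) • (z : Cub e k)) ^ 2 =
        fv e (s : k) • (lin e (s : k) * (tau e (s : k) * (z : Cub e k) ^ 2)) := by
      rw [← mul_assoc, lin_mul_tau, ← Algebra.smul_def, smul_pow, smul_smul, sq (fv e _)]
    rw [h4]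
    exact Sm.smul_of_lt (YM1_lt h) (mul_mem (lin_mem_Ov hs) h1)
  have h4 := h.mem_Ov_of_sq h3.mem
  obtain ⟨w, hw, e1⟩ := YM1_dec h h4 h3
  have hc := h4.2.2
  generalize (fv e (s : k) • (z : Cub e k)).c2 = c at e1 hc
  have e3 := lin_mul_tau (e := e) (s : k)
  have e2 : (z : Cub e k) * lin e (s : k) = algebraMap k (Cub e k) c + w * lin e (s : k) := by
    refine smul_right_injective _ h.fv_ne ?_
    simp only [← smul_mul_assoc, smul_add]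
    rw [e1]
    simp only [Algebra.smul_def]
    linear_combination algebraMap k (Cub e k) c * e3
  have h5 : (z : Cub e k) * lin e (s : k) ∈ Ov e v := by
    rw [e2]
    exact add_mem (algebraMap_mem_Ov hc) (mul_mem hw (lin_mem_Ov hs))
  have e4 : lin e (s : k) ^ 3 = u' * (fv e (s : k) • ((z : Cub e k) * lin e (s : k)) ^ 2) := by
    rw [Algebra.smul_def, ← e3]
    linear_combination (-lin e (s : k) ^ 3) * h8
  have h6 := ((Sm.smul_of_lt (YM1_lt h) (pow_mem h5 2)).mul_left h7).2.2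
  have e5 : (lin e (s : k) ^ 3).c2 = 3 * (s : k) := by
    simp [pow_succ, lin]
    ring
  rw [← e4, e5, map_mul, h.three, h.2.1, one_mul] at h6
  exact lt_irrefl _ h6

end Pool.Agent.Lib.MP_775b3b_nt
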