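import Pool.Agent.Lib.MP_775b3b_nt.YM1
import Pool.Agent.Lib.MP_775b3b_nt.ZTy4

/-! Multiplicative places: factorisation and the anisotropic form. -/

namespace Pool.Agent.Lib.MP_775b3b_nt

open Cub MP_439fea_co WithZero

/-- `τ(s)^2 / f(s) = f(s) / (s - θ)^2` -/
def rhoM (e : ℤ × ℤ) {k : Type*} [Field k] (s : k) : Cub e k := (fv e s)⁻¹ • tau e s ^ 2

variable {e : ℤ × ℤ} {k : Type} [Field k] [NumberField k] {v : P k} {s : ℤ}

omit [NumberField k] in
/-- `τ^2 = f'(s) τ - f(s) (θ + 2 s)` -/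
theorem rhoM_eq {t : k} (h : fv e t ≠ 0) : rhoM e t =
    ((3 * t ^ 2 + (e.1 : k)) / fv e t) • tau e t - (th + algebraMap k (Cub e k) (2 * t)) := by
  have h1 : tau e t = algebraMap k (Cub e k) (3 * t ^ 2 + (e.1 : k)) -
      lin e t * (th + algebraMap k (Cub e k) (2 * t)) := by
    ext
    · simp only [tau, lin, sub_c0, mul_c0, add_c0, add_c1, add_c2, algebraMap_c0, algebraMap_c1,
        algebraMap_c2, th_c0, th_c1, th_c2, Algebra.algebraMap_self, RingHom.id_apply]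
      ring
    · simp only [tau, lin, sub_c1, mul_c1, add_c0, add_c1, add_c2, algebraMap_c0, algebraMap_c1,
        algebraMap_c2, th_c0, th_c1, th_c2, Algebra.algebraMap_self, RingHom.id_apply]
      ring
    · simp only [tau, lin, sub_c2, mul_c2, add_c0, add_c1, add_c2, algebraMap_c0, algebraMap_c1,
        algebraMap_c2, th_c0, th_c1, th_c2, Algebra.algebraMap_self, RingHom.id_apply]
      ring
  have h2 : algebraMap k (Cub e k) (fv e t)⁻¹ * (lin e t * tau e t) = 1 := by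
    rw [lin_mul_tau, ← map_mul, inv_mul_cancel₀ h, map_one]
  rw [rhoM, div_eq_inv_mul, Algebra.smul_def, Algebra.smul_def, map_mul]
  linear_combination (algebraMap k (Cub e k) (fv e t)⁻¹ * tau e t) * h1 -
    (th + algebraMap k (Cub e k) (2 * t)) * h2

omit [NumberField k] in
theorem lin_mul_rhoM {t : k} (h : fv e t ≠ 0) : lin e t * rhoM e t = tau e t := by
  rw [rhoM, mul_smul_comm, sq, ← mul_assoc, lin_mul_tau, ← Algebra.smul_def, smul_smul,
    inv_mul_cancel₀ h, one_smul]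

omit [NumberField k] in
theorem nm_rhoM {t : k} (h : fv e t ≠ 0) : nm (rhoM e t) = fv e t := by
  rw [rhoM, nm_smul, nm_pow, nm_tau]
  field_simp

/-- `rhoM_eq`, `val_le_exp` -/
theorem TyM.rho_mem (h : TyM e v s) : rhoM e (s : k) ∈ Ov e v := by
  have hr : val v (s : k) ≤ 1 := val_int_le v s
  rw [rhoM_eq h.fv_ne]
  refine sub_mem (smul_mem_Ov ?_ (tau_mem_Ov hr)) (add_mem th_mem_Ov (algebraMap_mem_Ov ?_))
  · rw [map_div₀, h.2.2.2, div_le_one₀ exp_pos]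
    exact val_le_exp h.2.2.1
  · rw [map_mul, h.two, one_mul]
    exact hr

theorem YM2_div (h : TyM e v s) {κ : Type*} [Field κ] {ρ : (val v).integer →+* κ} (hρ : RedAt v ρ)
    {x : Cub e k} (hx : x ∈ Ov e v) (h0 : evr (s : κ) (rdC ρ x) = 0) :
    (fv e (s : k))⁻¹ • (x * tau e (s : k)) ∈ Ov e v ∧
      (fv e (s : k))⁻¹ • (x * tau e (s : k)) * lin e (s : k) = x := by
  have hr : val v (s : k) ≤ 1 := val_int_le v s
  have h1 := mul_tau (h.fm hρ).root (rdC ρ x)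
  rw [h0, zero_smul, ← rd_intCast ρ s, ← rdC_tau ρ hr, ← rdC_mul ρ hx (tau_mem_Ov hr),
    hρ.rdC_eq_zero (mul_mem hx (tau_mem_Ov hr))] at h1
  exact ⟨ZTy2_div h.2.2.2 h1, ZTy2_mul h.fv_ne ((mul_comm _ _).trans (lin_mul_tau (s : k)))⟩

/-- As `TyV.factor`.  If the norm vanishes modulo `v`, then (`FM.nm_eq`) either `evr s x = 0`, so
`x τ` is small (`mul_tau`) and `x / a = x τ / f` is integral, or `evr (-2 s) x = 0`, so `x a^2` is
small (`FM.mul_lin_sq`) and `x / ρ = x a^2 / f` is integral; `a` and `ρ` have norm `f`. -/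
theorem TyM.factor (h : TyM e v s) (n : ℕ) {x : Cub e k} (hx : x ∈ Ov e v)
    (hn : val v (nm x) = exp (-(n : ℤ))) : ∃ (u : Cub e k) (i j : ℕ), u ∈ Ov e v ∧
      val v (nm u) = 1 ∧ x = u * lin e (s : k) ^ i * rhoM e (s : k) ^ j ∧ i + j = n := by
  obtain ⟨κ, _, _, ρ, hρ⟩ := exists_redAt v
  have hF := h.fm hρ
  have hr : val v (s : k) ≤ 1 := val_int_le v s
  have hf := h.fv_ne
  have hl := lin_mem_Ov (e := e) hr
  induction n generalizing x with
  | zero => exact ⟨x, 0, 0, hx, by simpa using hn, by simp, rfl⟩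
  | succ n ih =>
    have h0 : nm (rdC ρ x) = 0 := by
      rw [nm_rdC ρ hx, hρ.rd_eq_zero (val_nm_le hx), hn, ← exp_zero, exp_lt_exp]
      omega
    rw [hF.nm_eq, mul_eq_zero, pow_eq_zero_iff two_ne_zero] at h0
    rcases h0 with h0 | h0
    · obtain ⟨h2, h3⟩ := YM2_div h hρ hx h0
      generalize (fv e (s : k))⁻¹ • (x * tau e (s : k)) = x' at h2 h3
      subst h3
      rw [nm_mul, nm_lin, map_mul, h.2.2.2] at hn
      obtain ⟨u, i, j, a1, a2, a3, a4⟩ := ih h2 (by rw [ZTy2_val hn]; congr 1; omega)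
      exact ⟨u, i + 1, j, a1, a2, by rw [a3]; ring, by omega⟩
    · have h1 := hF.mul_lin_sq (rdC ρ x)
      rw [h0, zero_smul, ← rd_intCast ρ s, ← rdC_lin ρ hr, ← rdC_pow ρ hl,
        ← rdC_mul ρ hx (pow_mem hl 2), hρ.rdC_eq_zero (mul_mem hx (pow_mem hl 2))] at h1
      have h2 := ZTy2_div h.2.2.2 h1
      have h3 := ZTy2_mul hf (x := x) (a := lin e (s : k) ^ 2) (b := rhoM e (s : k))
        (by rw [sq, mul_assoc, lin_mul_rhoM hf, lin_mul_tau])
      generalize (fv e (s : k))⁻¹ • (x * lin e (s : k) ^ 2) = x' at h2 h3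
      subst h3
      rw [nm_mul, nm_rhoM hf, map_mul, h.2.2.2] at hn
      obtain ⟨u, i, j, a1, a2, a3, a4⟩ := ih h2 (by rw [ZTy2_val hn]; congr 1; omega)
      exact ⟨u, i, j + 1, a1, a2, by rw [a3]; ring, by omega⟩

/-- as `TyV.usv_or`: `i + j` is even; if both are odd use `τ = a ρ` -/
theorem TyM.usv_or (h : TyM e v s) {d : (Cub e k)ˣ} (hd : d ∈ nsq e k) :
    d ∈ usv e v ∨ d * tauU e k s ∈ usv e v := by
  have hf := h.fv_ne
  have hd0 : (d : Cub e k) ≠ 0 := fun h0 => nm_ne_zero d (by rw [h0]; simp [nm])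
  obtain ⟨c, hc0, hc⟩ : ∃ c : k, c ≠ 0 ∧ c ^ 2 • (d : Cub e k) ∈ Ov e v := by
    obtain ⟨c, hc0, hc, -⟩ := exists_prim v hd0
    rcases le_total (val v c) 1 with h1 | h1
    · exact ⟨c, hc0, by rw [sq, mul_smul]; exact smul_mem_Ov h1 hc⟩
    · refine ⟨1, one_ne_zero, ?_⟩
      have h2 := smul_mem_Ov (a := c⁻¹) (by rw [map_inv₀]; exact inv_le_one_of_one_le₀ h1) hc
      rwa [smul_smul, inv_mul_cancel₀ hc0, ← one_pow 2] at h2
  obtain ⟨ν, hν⟩ := hd
  have hν0 : ν ≠ 0 := fun h0 => nm_ne_zero d (by rw [hν, h0]; simp)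
  have h1 : val v (nm (c ^ 2 • (d : Cub e k))) = exp (2 * -ord v (c ^ 3 * ν)) := by
    rw [nm_smul, hν, show (c ^ 2) ^ 3 * ν ^ 2 = (c ^ 3 * ν) ^ 2 by ring, map_pow,
      val_eq_exp v (mul_ne_zero (pow_ne_zero _ hc0) hν0), ← exp_nsmul]
    simp
  have h2 := val_nm_le hc
  rw [h1, ← exp_zero, exp_le_exp] at h2
  obtain ⟨u, i, j, a1, a2, a3, a4⟩ := h.factor (2 * (ord v (c ^ 3 * ν)).toNat) hc
    (by rw [h1]; congr 1; omega)
  obtain ⟨U, rfl⟩ : IsUnit u := isUnit_iff.2 fun h0 => by simp [h0] at a2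
  obtain ⟨A, hA⟩ : IsUnit (lin e (s : k)) := isUnit_iff.2 (by rw [nm_lin]; exact hf)
  obtain ⟨R, hR⟩ : IsUnit (rhoM e (s : k)) := isUnit_iff.2 (by rw [nm_rhoM hf]; exact hf)
  obtain ⟨C, hC⟩ : IsUnit (algebraMap k (Cub e k) c) := (IsUnit.mk0 c hc0).map _
  have h3 : d * C ^ 2 = U * A ^ i * R ^ j := by
    ext1
    simp only [Units.val_mul, Units.val_pow_eq_pow_val]
    rw [hR, hA, hC, ← a3, Algebra.smul_def, map_pow, mul_comm]
  have h4 : tauU e k s = A * R := by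
    ext1
    rw [tauU_val hf, Units.val_mul, hA, hR, lin_mul_rhoM hf]
  have hU : U ∈ usv e v := mem_usv.2 ⟨1, by simpa using a1, by simpa using a2⟩
  have hsq : ∀ z : (Cub e k)ˣ, z ^ 2 ∈ usv e v := fun z => sqv_le_usv (SQ_le_sqv (sq_mem_SQ z))
  have key : ∀ (z : (Cub e k)ˣ) (i j : ℕ), z * C ^ 2 = U * A ^ (i * 2) * R ^ (j * 2) →
      z ∈ usv e v := fun z i j hz => by
    rw [eq_mul_inv_of_mul_eq hz, pow_mul, pow_mul]
    exact mul_mem (mul_mem (mul_mem hU (hsq _)) (hsq _)) (inv_mem (hsq _))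
  rcases Nat.even_or_odd' j with ⟨j', rfl | rfl⟩
  · obtain ⟨i', rfl⟩ : ∃ i', i = i' * 2 := ⟨i / 2, by omega⟩
    exact Or.inl (key d i' j' (by rw [h3, mul_comm 2]))
  · obtain ⟨i', rfl⟩ : ∃ i', i = i' * 2 + 1 := ⟨i / 2, by omega⟩
    refine Or.inr (key _ (i' + 1) (j' + 1) ?_)
    rw [mul_right_comm, h3, h4, mul_comm 2, add_mul i', add_mul j', one_mul, pow_succ A (_ + 1),
      pow_succ R (_ + 1)]
    simp only [mul_assoc, mul_comm, mul_left_comm]

/-- As `TyV.val_form`.  If `evr s x` is a unit, the value is `evr s u * evr s x ^ 2` modulo `v`.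
Otherwise `x = y a` with `y = x τ / f` integral, `τ u x x = f • (u a y^2)`, and `FM.ff3` applies
since `a y = x` is not zero modulo `v`.  For `x = a` take `y = 1`. -/
theorem TyM.val_form (h : TyM e v s) {u : Cub e k} (hu : u ∈ Ov e v) (hn : val v (nm u) = 1)
    (hq : ∃ y : k, val v (nm u - y ^ 2) < 1) (hs : ∀ y : k, ¬ val v (evr (s : k) u - y ^ 2) < 1) :
    (∀ x ∈ Ov e v, ¬ Sm v x → (tau e (s : k) * u * x * x).c2 ≠ 0) ∧
      val v (tau e (s : k) * u * lin e (s : k) * lin e (s : k)).c2 = exp (-1 : ℤ) := by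
  have hr : val v (s : k) ≤ 1 := val_int_le v s
  obtain ⟨κ, _, _, ρ, hρ⟩ := exists_redAt v
  obtain ⟨q1, q2, q3⟩ := ZTy4_red hρ hu hn hq hs
  have hF := h.fm hρ
  have hl := lin_mem_Ov (e := e) hr
  have key : ∀ y ∈ Ov e v, ¬ Sm v (y * lin e (s : k)) →
      val v (tau e (s : k) * u * (y * lin e (s : k)) * (y * lin e (s : k))).c2 = exp (-1 : ℤ) := by
    intro y hy h0
    have hw : u * lin e (s : k) * y ^ 2 ∈ Ov e v := mul_mem (mul_mem hu hl) (pow_mem hy 2)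
    have h1 : val v (u * lin e (s : k) * y ^ 2).c2 = 1 := by
      refine le_antisymm hw.2.2 (not_lt.1 fun hlt => ?_)
      have h2 : (rdC ρ (u * lin e (s : k) * y ^ 2)).c2 = 0 := (hρ.rd_eq_zero hw.2.2).2 hlt
      rw [rdC_mul ρ (mul_mem hu hl) (pow_mem hy 2), rdC_mul ρ hu hl, rdC_pow ρ hy, rdC_lin ρ hr,
        rd_intCast] at h2
      refine hF.ff3 q1 q2 q3 (fun h3 => h0 ?_) h2
      rwa [← rd_intCast ρ s, ← rdC_lin ρ hr, ← rdC_mul ρ hl hy, hρ.rdC_eq_zero (mul_mem hl hy),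
        mul_comm] at h3
    have h2 : tau e (s : k) * u * (y * lin e (s : k)) * (y * lin e (s : k)) =
        fv e (s : k) • (u * lin e (s : k) * y ^ 2) := by
      rw [Algebra.smul_def, ← lin_mul_tau]
      ring
    rw [h2, smul_c2, smul_eq_mul, map_mul, h1, mul_one, h.2.2.2]
  refine ⟨fun x hx hsm h0 => ?_, ?_⟩
  · by_cases hc : evr (s : κ) (rdC ρ x) = 0
    · obtain ⟨h2, h3⟩ := YM2_div h hρ hx hc
      have h1 := key _ h2 (by rwa [h3])
      rw [h3, h0, map_zero] at h1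
      exact exp_ne_zero h1.symm
    · have ht := tau_mem_Ov (e := e) hr
      have hf := hF.root
      have h1 : (rdC ρ (tau e (s : k) * u * x * x)).c2 = 0 := by
        change rd ρ _ = 0
        rw [h0, rd_zero]
      rw [rdC_mul ρ (mul_mem (mul_mem ht hu) hx) hx, rdC_mul ρ (mul_mem ht hu) hx,
        rdC_mul ρ ht hu, rdC_tau ρ hr, rd_intCast, mul_assoc, mul_assoc, mul_comm, mul_tau hf,
        evr_mul hf, evr_mul hf, smul_c2] at h1
      have h3 : evr (s : κ) (rdC ρ u) ≠ 0 := fun h3 => q3 (h3 ▸ IsSquare.zero)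
      exact mul_ne_zero (mul_ne_zero h3 (mul_ne_zero hc hc)) one_ne_zero h1
  · have h1 := key 1 (one_mem _) fun h1 => by simpa [lin] using h1.2.1
    rwa [one_mul] at h1

theorem TyM.tyA (h : TyM e v s) : TyA e v s :=
  ⟨h.two, h.2.2.2, fun _ => h.val_evr, fun _ => h.evr_of_sqv, fun _ => h.sqv_of_evr,
    h.tau_not_mem, fun _ => h.usv_or, fun _ => h.val_form⟩

theorem TyV.tyA (h : TyV e v s) : TyA e v s :=
  ⟨h.1, h.2.1, fun _ => h.val_evr, fun _ => h.evr_of_sqv, fun _ => h.sqv_of_evr,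
    h.tau_not_mem, fun _ => h.usv_or, fun _ => h.val_form⟩

end Pool.Agent.Lib.MP_775b3b_nt
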