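import Pool.Agent.Lib.MP_775b3b_nt.YM2
import Pool.Agent.Lib.MP_775b3b_nt.ZTy3

/-! Multiplicative places: points of the twist. -/

namespace Pool.Agent.Lib.MP_775b3b_nt

open Cub MP_439fea_co WithZero

variable {e : ℤ × ℤ} {k : Type} [Field k] [NumberField k] {v : P k} {s : ℤ}

theorem YM3_pre {d x y : k} (hd : val v d = exp (-1 : ℤ))
    (hxy : y ^ 2 = x ^ 3 + (e.1 : k) * d ^ 2 * x + (e.2 : k) * d ^ 3) {δ : (Cub e k)ˣ}
    (hδ : (δ : Cub e k) = algebraMap k (Cub e k) x - d • th) :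
    d ≠ 0 ∧ (δ : Cub e k) = d • lin e (x / d) ∧ y ^ 2 = d ^ 3 * fv e (x / d) ∧ y ≠ 0 ∧
      δ ∈ nsq e k := by
  have hd0 : d ≠ 0 := by
    rintro rfl
    rw [map_zero] at hd
    exact exp_ne_zero hd.symm
  have hδ' : (δ : Cub e k) = d • lin e (x / d) := by
    rw [hδ, lin_eq, smul_sub, Algebra.smul_def d (algebraMap k (Cub e k) (x / d)), ← map_mul,
      mul_div_cancel₀ _ hd0]
  have hF : y ^ 2 = d ^ 3 * fv e (x / d) := by
    rw [hxy, fv]
    field_simp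
  have h1 : nm (δ : Cub e k) = y ^ 2 := by rw [hδ', nm_smul, nm_lin, ← hF]
  exact ⟨hd0, hδ', hF, fun h2 => nm_ne_zero δ (by rw [h1, h2]; ring), y, h1⟩

theorem YM3_key (h : TyM e v s) {δ z : (Cub e k)ˣ} {w : Cub e k} (hδ : δ ∈ nsq e k)
    (hw : ((δ * z ^ 2 : (Cub e k)ˣ) : Cub e k) = w) (hO : w ∈ Ov e v) (hn : val v (nm w) = 1)
    (hy : ∃ y : k, val v (evr (s : k) w - y ^ 2) < 1) : δ ∈ sqv e v := by
  subst hw
  have h5 := h.sqv_of_evr hO hn (mul_mem hδ (SQ_le_nsq (sq_mem_SQ z))) hy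
  have h6 := mul_mem h5 (SQ_le_sqv (v := v) (sq_mem_SQ z⁻¹))
  rwa [mul_assoc, ← mul_pow, mul_inv_cancel, one_pow, mul_one] at h6

theorem YM3_div (h : TyM e v s) {a : k} (ha : val v a < 1) : val v (a / fv e (s : k)) ≤ 1 := by
  rw [map_div₀, h.2.2.2]
  exact (div_le_one₀ exp_pos).2 (val_le_exp ha)

theorem YM3_one (h : TyM e v s) {d : k} (hd : val v d = exp (-1 : ℤ)) :
    val v (d / fv e (s : k)) = 1 := by
  rw [map_div₀, h.2.2.2, hd, div_self exp_ne_zero]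

/-- `X = x / d ≡ s`.  With `f = f(s)`: `f(X) = f + (X - s) (f'(s) + (X - s) (X + 2 s))`, so
`f(X) / f ≡ 1`, and `d / f ≡ (y / (d f))^2` since `y^2 = d^3 f(X)`.  `δ τ = d f u` with
`u = 1 + ((X - s) / f) τ` integral, `nm u = f(X) / f`, `evr s u ≡ 1`; apply `TyM.sqv_of_evr` to
`δ τ / f^2 = (d / f) u` (`ZTy3_sc`; `δ ∈ nsq` as `nm δ = y^2`). -/
theorem TyM.pt_near (h : TyM e v s) {d x y : k} (hd : val v d = exp (-1 : ℤ))
    (hxy : y ^ 2 = x ^ 3 + (e.1 : k) * d ^ 2 * x + (e.2 : k) * d ^ 3) {δ : (Cub e k)ˣ}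
    (hδ : (δ : Cub e k) = algebraMap k (Cub e k) x - d • th) (hX : val v (x / d - s) < 1) :
    (∃ t : k, val v (d / fv e (s : k) - t ^ 2) < 1) ∧ δ * tauU e k s ∈ sqv e v := by
  obtain ⟨hd0, hδ', hF, -, hq⟩ := YM3_pre hd hxy hδ
  generalize x / d = X at hδ' hF hX
  have hf := h.fv_ne
  have hs : val v (s : k) ≤ 1 := val_int_le v s
  have hc := YM3_one h hd
  have ht := YM3_div h hX
  have hX1 : val v X ≤ 1 := by simpa using Valuation.map_add_le _ hX.le hs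
  have h1 : val v (fv e X / fv e (s : k) - 1) < 1 := by
    have e1 : fv e X / fv e (s : k) - 1 = (3 * (s : k) ^ 2 + (e.1 : k) + (X - s) * (X + (s + s))) *
        ((X - s) / fv e (s : k)) := by
      field_simp
      simp only [fv]
      ring
    rw [e1]
    exact lociso_mul_lt v (Valuation.map_add_lt _ h.2.2.1 (lociso_mul_lt v hX
      (Valuation.map_add_le _ hX1 (Valuation.map_add_le _ hs hs)))) ht
  have h2 : val v (fv e X / fv e (s : k)) = 1 := by
    simpa using Valuation.map_one_add_of_lt _ h1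
  have h3 : val v (d / fv e (s : k) - (y / (d * fv e (s : k))) ^ 2) < 1 := by
    have e1 : d / fv e (s : k) - (y / (d * fv e (s : k))) ^ 2 =
        -((fv e X / fv e (s : k) - 1) * (d / fv e (s : k))) := by
      rw [div_pow, hF]
      field_simp
      ring
    rw [e1, Valuation.map_neg]
    exact lociso_mul_lt v h1 hc.le
  refine ⟨⟨_, h3⟩, ?_⟩
  obtain ⟨z, hz⟩ := ZTy3_sc (e := e) (inv_ne_zero hf)
  have e2 : ((δ * tauU e k s * z ^ 2 : (Cub e k)ˣ) : Cub e k) =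
      (d / fv e (s : k)) • (1 + ((X - s) / fv e (s : k)) • tau e (s : k)) := by
    have e3 : lin e X = lin e (s : k) + algebraMap k (Cub e k) (X - s) := by
      rw [lin_eq, lin_eq, map_sub]
      ring
    rw [Units.val_mul, Units.val_mul, Units.val_pow_eq_pow_val, hz, tauU_val hf, hδ', e3,
      smul_mul_assoc, add_mul, lin_mul_tau, ← map_pow, mul_comm, ← Algebra.smul_def,
      ← Algebra.smul_def, Algebra.algebraMap_eq_smul_one, smul_add, smul_add, smul_add, smul_smul,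
      smul_smul, smul_smul, smul_smul, smul_smul]
    congr 2 <;> field_simp
  refine YM3_key h (mul_mem hq (tauU_mem_nsq s)) e2
    (smul_mem_Ov hc.le (add_mem (one_mem _) (smul_mem_Ov ht (tau_mem_Ov hs)))) ?_
    ⟨y / (d * fv e (s : k)), ?_⟩
  · have e3 : nm ((δ * tauU e k s * z ^ 2 : (Cub e k)ˣ) : Cub e k) =
        (d / fv e (s : k)) ^ 3 * (fv e X / fv e (s : k)) := by
      rw [Units.val_mul, Units.val_mul, Units.val_pow_eq_pow_val, hz, tauU_val hf, hδ', nm_mul,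
        nm_mul, nm_pow, nm_smul, nm_lin, nm_tau, Algebra.algebraMap_eq_smul_one, nm_smul, nm_one]
      field_simp
    rw [← e2, e3, map_mul, map_pow, hc, h2, one_pow, one_mul]
  · have e3 : evr (s : k) ((d / fv e (s : k)) • (1 + ((X - s) / fv e (s : k)) • tau e (s : k))) -
        (y / (d * fv e (s : k))) ^ 2 = (d / fv e (s : k) - (y / (d * fv e (s : k))) ^ 2) +
          (3 * (s : k) ^ 2 + (e.1 : k)) * ((d / fv e (s : k)) * ((X - s) / fv e (s : k))) := by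
      simp only [evr, tau, smul_c0, smul_c1, smul_c2, add_c0, add_c1, add_c2, one_c0, one_c1, one_c2,
        smul_eq_mul]
      ring
    rw [e3]
    exact Valuation.map_add_lt _ h3 (lociso_mul_lt v h.2.2.1 (by rw [map_mul, hc, one_mul]; exact ht))

/-- `X = x / d ≡ -2 s`, `val v f(X) = exp (-n)` with `n` odd (`ZTy3_odd`).  `TyM.factor` gives
`X - θ = u a^i ρ^j`; apply `evr s` modulo `v`: `-3 s = evr s u * 0^i * (-3 s)^j`, so `i = 0`,
`j = n` and `evr s u` is a square.  `δ = (d / f) u a^2 ρ^(n + 1)`. -/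
theorem TyM.pt_far (h : TyM e v s) {d x y : k} (hd : val v d = exp (-1 : ℤ))
    (hxy : y ^ 2 = x ^ 3 + (e.1 : k) * d ^ 2 * x + (e.2 : k) * d ^ 3) {δ : (Cub e k)ˣ}
    (hδ : (δ : Cub e k) = algebraMap k (Cub e k) x - d • th) (hX : val v (x / d + 2 * s) < 1) :
    δ ∈ usv e v ∧ ((∃ t : k, val v (d / fv e (s : k) - t ^ 2) < 1) → δ ∈ sqv e v) := by
  obtain ⟨hd0, hδ', hF, hy, hq⟩ := YM3_pre hd hxy hδ
  generalize x / d = X at hδ' hF hX
  have hf := h.fv_ne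
  have hs : val v (s : k) ≤ 1 := val_int_le v s
  have hc := YM3_one h hd
  have hX1 : val v X ≤ 1 := by
    have h2 : val v (2 * (s : k)) ≤ 1 := by rw [map_mul, h.two, one_mul]; exact hs
    simpa using Valuation.map_sub_le _ hX.le h2
  have hL := lin_mem_Ov (e := e) hX1
  obtain ⟨m, hm⟩ := ZTy3_odd hd hy (by rw [← nm_lin]; exact val_nm_le hL) hF
  obtain ⟨u, i, j, a1, a2, a3, a4⟩ := h.factor (2 * m + 1) hL (by
    rw [nm_lin, hm, ← exp_nsmul]
    simp)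
  obtain ⟨κ, _, _, ρ, hρ⟩ := exists_redAt v
  have hfm := h.fm hρ
  have h3 : val v (-3 * (s : k)) = 1 := by
    rw [neg_mul, Valuation.map_neg, map_mul, h.three, h.2.1, one_mul]
  have h4 : rd ρ (-3 * (s : k)) ≠ 0 := (ZTy1_ne hρ h3.le).2 h3
  have h5 : evr (s : κ) (rdC ρ (lin e X)) = rd ρ (-3 * (s : k)) := by
    rw [ZTy1_evr ρ hL, hρ.rd_eq_iff (val_evr_le hs hL) h3.le]
    convert hX using 2
    simp only [evr, lin]
    ring
  have h6 : evr (s : κ) (rdC ρ (rhoM e (s : k))) = rd ρ (-3 * (s : k)) := by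
    rw [ZTy1_evr ρ h.rho_mem, hρ.rd_eq_iff (val_evr_le hs h.rho_mem) h3.le]
    convert lociso_mul_lt v h.2.2.1 (YM3_div h h.2.2.1) using 2
    rw [rhoM_eq hf]
    simp only [evr, tau, smul_c0, smul_c1, smul_c2, add_c0, add_c1, add_c2, sub_c0, sub_c1, sub_c2,
      th_c0, th_c1, th_c2, algebraMap_c0, algebraMap_c1, algebraMap_c2, Algebra.algebraMap_self,
      RingHom.id_apply, smul_eq_mul]
    ring
  have h7 : evr (s : κ) (rdC ρ (lin e (s : k))) = 0 := by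
    rw [rdC_lin ρ hs, rd_intCast]
    simp [evr, lin]
  have hA := lin_mem_Ov (e := e) hs
  rw [a3, rdC_mul ρ (mul_mem a1 (pow_mem hA _)) (pow_mem h.rho_mem _),
    rdC_mul ρ a1 (pow_mem hA _), rdC_pow ρ hA, rdC_pow ρ h.rho_mem, evr_mul hfm.root,
    evr_mul hfm.root, evr_pow hfm.root, evr_pow hfm.root, h6, h7] at h5
  obtain rfl : i = 0 := by
    by_contra hi
    rw [zero_pow hi, mul_zero, zero_mul] at h5
    exact h4 h5.symm
  obtain rfl : j = 2 * m + 1 := by omega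
  have h8 : IsSquare (evr (s : κ) (rdC ρ u)) := by
    generalize rd ρ (-3 * (s : k)) = t at h4 h5
    refine ⟨(t ^ m)⁻¹, ?_⟩
    have h9 : t ^ m ≠ 0 := pow_ne_zero _ h4
    field_simp
    apply mul_left_cancel₀ h4
    linear_combination h5
  obtain ⟨A, hA'⟩ : IsUnit (lin e (s : k)) := isUnit_iff.2 (by rw [nm_lin]; exact hf)
  obtain ⟨R, hR⟩ : IsUnit (rhoM e (s : k)) := isUnit_iff.2 (by rw [nm_rhoM hf]; exact hf)
  have e2 : ((δ * (A * R ^ (m + 1))⁻¹ ^ 2 : (Cub e k)ˣ) : Cub e k) = (d / fv e (s : k)) • u := by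
    rw [inv_pow, Units.val_mul, Units.mul_inv_eq_iff_eq_mul, Units.val_pow_eq_pow_val, Units.val_mul,
      Units.val_pow_eq_pow_val, hA', hR, hδ', a3]
    have e3 : (lin e (s : k) * rhoM e (s : k) ^ (m + 1)) ^ 2 =
        fv e (s : k) • rhoM e (s : k) ^ (2 * m + 1) := by
      rw [Algebra.smul_def, ← lin_mul_tau, ← lin_mul_rhoM hf]
      ring
    rw [e3, smul_mul_smul_comm, div_mul_cancel₀ _ hf, pow_zero, mul_one]
  have h9 : (d / fv e (s : k)) • u ∈ Ov e v := smul_mem_Ov hc.le a1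
  have h10 : val v (nm ((d / fv e (s : k)) • u)) = 1 := by
    rw [nm_smul, map_mul, map_pow, hc, a2, one_pow, one_mul]
  refine ⟨mem_usv.2 ⟨_, by rwa [e2], by rwa [e2]⟩, fun ht => YM3_key h hq e2 h9 h10 ?_⟩
  rw [← hρ.isSquare_iff hc.le] at ht
  rw [← hρ.isSquare_iff (val_evr_le hs h9), ← ZTy1_evr ρ h9, rdC_smul ρ hc.le a1]
  have e4 : ∀ (a : κ) (w : Cub e κ), evr (s : κ) (a • w) = a * evr (s : κ) w := fun a w => by
    simp only [evr, smul_c0, smul_c1, smul_c2, smul_eq_mul]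
    ring
  rw [e4]
  exact ht.mul h8

/-- `y ≠ 0` as `nm δ = y^2`.  If `1 < val v (x / d)` use `ZTy3_big`.  Otherwise `X = x / d` has
`val v f(X) < 1` (`ZTy3_odd`), and `f(X) ≡ (X - s)^2 (X + 2 s)`: `pt_near`, `pt_far`. -/
theorem TyM.pt (h : TyM e v s) {d x y : k} (hd : val v d = exp (-1 : ℤ))
    (hxy : y ^ 2 = x ^ 3 + (e.1 : k) * d ^ 2 * x + (e.2 : k) * d ^ 3) {δ : (Cub e k)ˣ}
    (hδ : (δ : Cub e k) = algebraMap k (Cub e k) x - d • th) :
    ((∃ t : k, val v (d / fv e (s : k) - t ^ 2) < 1) → δ ∈ Tv e v s) ∧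
      ((¬ ∃ t : k, val v (d / fv e (s : k) - t ^ 2) < 1) → δ ∈ usv e v) := by
  obtain ⟨-, -, hF, hy, -⟩ := YM3_pre hd hxy hδ
  rcases lt_or_ge 1 (val v (x / d)) with hX | hX
  · have h1 := ZTy3_big hy hX hxy hδ
    exact ⟨fun _ => sqv_le_Tv h1, fun _ => sqv_le_usv h1⟩
  have hs : val v (s : k) ≤ 1 := val_int_le v s
  have hFle : val v (fv e (x / d)) ≤ 1 := by
    rw [← nm_lin]
    exact val_nm_le (lin_mem_Ov hX)
  obtain ⟨j, hj⟩ := ZTy3_odd hd hy hFle hF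
  have hFlt : val v (fv e (x / d)) < 1 := by
    rw [hj]
    exact pow_lt_one₀ zero_le (by rw [← exp_zero, exp_lt_exp]; norm_num) (by omega)
  obtain ⟨κ, _, _, ρ, hρ⟩ := exists_redAt v
  have hfm := h.fm hρ
  have h1 : fv e (rd ρ (x / d)) = 0 := by
    rw [fv_rd ρ hX]
    exact (hρ.rd_eq_zero hFle).2 hFlt
  have h2 : (rd ρ (x / d) - s) ^ 2 * (rd ρ (x / d) + 2 * s) = 0 := by
    have h3 := hfm.root
    have h4 := hfm.der
    simp only [fv] at h1 h3
    linear_combination h1 - h3 - (rd ρ (x / d) - s) * h4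
  rcases mul_eq_zero.1 h2 with h3 | h3
  · have h4 := h.pt_near hd hxy hδ ((hρ.rd_eq_iff hX hs).1 (by
      rw [rd_intCast]
      exact sub_eq_zero.1 (pow_eq_zero_iff two_ne_zero |>.1 h3)))
    exact ⟨fun _ => Or.inr h4.2, fun h5 => absurd h4.1 h5⟩
  · have h4 := h.pt_far hd hxy hδ (by
      have h5 := (hρ.rd_eq_iff hX (val_int_le v (-(2 * s)))).1 (by
        rw [rd_intCast]
        push_cast
        exact eq_neg_of_add_eq_zero_left h3)
      push_cast at h5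
      rwa [sub_neg_eq_add] at h5)
    exact ⟨fun h5 => sqv_le_Tv (h4.2 h5), fun _ => h4.1⟩

end Pool.Agent.Lib.MP_775b3b_nt
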