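import Pool.Agent.Lib.MP_775b3b_nt.YGood2
import Pool.Agent.Lib.MP_775b3b_nt.YFF4
import Pool.Agent.Lib.MP_775b3b_nt.YTP
import Pool.Agent.Lib.MP_775b3b_nt.ZUBad

/-! The sifting sets at the primes whose Frobenius is a transposition. -/

namespace Pool.Agent.Lib.MP_775b3b_nt

open Cub MP_439fea_co WithZero Matrix

variable {K F : Type} [Field K] [NumberField K] [Field F] [NumberField F]

/-- `x ≡ n` modulo `v` for an integer `n` (surjectivity of `ℤ → ZMod l`, `rd_eq_iff`) -/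
theorem rd_over {φ : K →+* F} {w : P F} {v : P K} (ho : Over φ w v) {l : ℕ} [Fact l.Prime]
    {ρ₁ : (val v).integer →+* ZMod l} (h₁ : RedAt v ρ₁) {Λ : Type*} [Field Λ]
    {ρ : (val w).integer →+* Λ} (h : RedAt w ρ) (ι : ZMod l →+* Λ) {x : K} (hx : val v x ≤ 1) :
    rd ρ (φ x) = ι (rd ρ₁ x) := by
  obtain ⟨n, hn⟩ := ZMod.intCast_surjective (rd ρ₁ x)
  have h1 : val v (x - n) < 1 :=
    (h₁.rd_eq_iff hx (val_int_le v n)).1 (by rw [rd_intCast, hn])
  rw [← ho, map_sub, map_intCast] at h1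
  rw [(h.rd_eq_iff ((ho x).trans_le hx) (val_int_le w n)).2 h1, rd_intCast, ← hn, map_intCast]

/-- As `upoint_bad`, but `not_sqv_of_dbl` is applied in `K` at `v`.  Reducing `hq` modulo `w` gives
`ι (y m) = c' * ι (dq ..)` for the values `y m` of the quartic modulo `v` (`rd_over`); for `m = 0`,
`dq r t n 1 0 = 1`, so `c' = ι (y 0)` and `y m = y 0 * dq ..`. -/
theorem upoint_badM {φ : K →+* F} {w : P F} {v : P K} (ho : Over φ w v) {l : ℕ} [Fact l.Prime]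
    (h5 : 5 ≤ l) (hw : val w (l : F) = exp (-1 : ℤ)) {ρ₁ : (val v).integer →+* ZMod l}
    (h₁ : RedAt v ρ₁) {Λ : Type*} [Field Λ] {ρ : (val w).integer →+* Λ} (hρ : RedAt w ρ)
    (ι : ZMod l →+* Λ) {A B : Fin 5 → Matrix (Fin 4) (Fin 4) F}
    (hAB : ∀ m i j, val w (A m i j) ≤ 1 ∧ val w (B m i j) ≤ 1) {κ : F} (hκ : val w κ = 1)
    {e : ℤ × ℤ} (he : ¬ (l : ℤ) ^ 2 ∣ disc e) {N : ℕ} (hN : ¬ l ∣ N) {C T : ℝ} {d : (Cub e K)ˣ}
    {ν : K} {z : Nat.Primes → (Cub e K)ˣ} {ε : (K →+* ℂ) → Cub e ℂ} {j : ℕ} {v0 v1 v2 : Cub e K}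
    (hz : Loc d z) (h : Red N C T (d : Cub e K) ν z ε j v0 v1 v2) {g : ℤ} (hg : ¬ (l : ℤ) ∣ g)
    {Sm : Matrix (Fin 4) (Fin 4) ℚ} (hi : IntS g Sm)
    (hq : ∀ m, κ * φ (quart (d : Cub e K) v0 v1 v2 (pt5 m).1 (pt5 m).2) =
      g * (A m + B m * Sm.map (Rat.cast : ℚ → F)).det) (hesc : (l : ℤ) ∣ disc e → d ∈ sqv e v) :
    ¬ GoodM ι (fun m => (A m).map (rd ρ)) (fun m => (B m).map (rd ρ))
        (Sm.map fun x => rd ρ₁ (x : K)) ∧ RedS l g Sm (Sm.map fun x => rd ρ₁ (x : K)) := by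
  have hl : l.Prime := Fact.out
  have hvl : val v (l : K) = exp (-1 : ℤ) := by rw [← ho.natCast]; exact hw
  have hv : val v (l : K) < 1 := by
    rw [hvl, ← exp_zero, exp_lt_exp]
    norm_num
  have hg1 : val v (g : K) = 1 := ordp_val_one (p := ⟨l, hl⟩) v hv hg
  have hg0 : (g : ZMod l) ≠ 0 := fun h0 => hg ((ZMod.intCast_zmod_eq_zero_iff_dvd g l).1 h0)
  have hc : ∀ i j (n : ℤ), (n : ℚ) = g * Sm i j → (n : K) = g * (Sm i j : K) := by
    intro i j n hn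
    have h1 := congrArg (Rat.cast : ℚ → K) hn
    simpa only [Rat.cast_mul, Rat.cast_intCast] using h1
  have hS : ∀ i j, val v (Sm i j : K) ≤ 1 := by
    intro i j
    obtain ⟨n, hn⟩ := hi.entry i j
    have h1 := val_int_le v n
    rwa [hc i j n hn.symm, map_mul, hg1, one_mul] at h1
  have hS' : ∀ i j, val w ((Sm.map (Rat.cast : ℚ → F)) i j) ≤ 1 := by
    intro i j
    rw [Matrix.map_apply, ← map_ratCast φ, ho]
    exact hS i j
  refine ⟨fun hG => ?_, fun i j n hn => ?_⟩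
  · have hu : ((d * z ⟨l, hl⟩ ^ 2 : (Cub e K)ˣ) : Cub e K) ∈ Ov e v :=
      lociso_le (p := ⟨l, hl⟩) v hv (hz.2 ⟨l, hl⟩).1
    have hu' : (((d * z ⟨l, hl⟩ ^ 2)⁻¹ : (Cub e K)ˣ) : Cub e K) ∈ Ov e v :=
      lociso_le (p := ⟨l, hl⟩) v hv (hz.2 ⟨l, hl⟩).2
    have hx : ∀ x : Cub e K, InLat z ((N : K) • x) →
        (((z ⟨l, hl⟩)⁻¹ : (Cub e K)ˣ) : Cub e K) * x ∈ Ov e v := fun x hx =>
      InLat.mem_Ov (p := ⟨l, hl⟩) hv hN hx
    have hκ0 : rd ρ κ ≠ 0 := fun h0 => ((hρ.rd_eq_zero hκ.le).1 h0).ne hκ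
    obtain ⟨c, hc0, r, t, n, hn, hy⟩ := hG
    have hm : ∀ m, rd ρ κ * ι (rd ρ₁ (quart (d : Cub e K) v0 v1 v2 (pt5 m).1 (pt5 m).2)) =
        ι g * (c * ι (dq r t n ((pt5 m).1 : ZMod l) ((pt5 m).2 : ZMod l))) := by
      intro m
      have h1 := val_quart_le hu (hx _ h.l0) (hx _ h.l1) (hx _ h.l2) (pt5 m).1 (pt5 m).2
      have h2 := rd_matrix_mul ρ (fun i j => (hAB m i j).2) hS'
      have h3 : ∀ i j, val w ((A m + B m * Sm.map (Rat.cast : ℚ → F)) i j) ≤ 1 := fun i j =>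
        Valuation.map_add_le _ (hAB m i j).1 (h2.1 i j)
      have h4 := rd_det ρ h3
      have h5 : (A m + B m * Sm.map (Rat.cast : ℚ → F)).map (rd ρ) =
          (A m).map (rd ρ) + (B m).map (rd ρ) * (Sm.map fun x => rd ρ₁ (x : K)).map ι := by
        have h6 : (Sm.map fun x => rd ρ₁ (x : K)).map ι =
            (Sm.map (Rat.cast : ℚ → F)).map (rd ρ) := by
          ext i j
          simp only [Matrix.map_apply]
          rw [← map_ratCast φ, rd_over ho h₁ hρ ι (hS i j)]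
        rw [h6, ← h2.2]
        ext i j
        exact rd_add ρ (hAB m i j).1 (h2.1 i j)
      have h6 := congrArg (rd ρ) (hq m)
      rw [rd_mul ρ hκ.le ((ho _).trans_le h1), rd_over ho h₁ hρ ι h1,
        rd_mul ρ (val_int_le w g) h4.1, rd_intCast, h4.2, h5] at h6
      rw [h6, map_intCast, ← hy m]
    have h0 := hm 0
    rw [show dq r t n ((pt5 0).1 : ZMod l) ((pt5 0).2 : ZMod l) = 1 by simp [pt5, dq], map_one,
      mul_one] at h0
    have key := not_sqv_of_dbl h5 he hvl h₁ h.hyp hu hu' (hx _ h.l0) (hx _ h.l1) (hx _ h.l2)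
      ⟨rd ρ₁ (quart (d : Cub e K) v0 v1 v2 (pt5 0).1 (pt5 0).2), fun h1 => by
        rw [h1, map_zero, mul_zero] at h0
        exact mul_ne_zero ((map_ne_zero ι).2 hg0) hc0 h0.symm, r, t, n, hn, fun m => by
        apply ι.injective
        apply mul_left_cancel₀ hκ0
        rw [hm m, map_mul, ← mul_assoc (rd ρ κ), h0, mul_assoc]
        rfl⟩
    exact key.2 (hesc key.1)
  · rw [← rd_intCast ρ₁ n, hc i j n hn, rd_mul ρ₁ hg1.le (hS i j), rd_intCast]
    rfl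

/-- As `exists_bad`, with `TP.exists_res`, `exists_redAt_zmod` at `v` (`Res1 v`), `card_badM` and
`upoint_badM`. -/
theorem exists_badM (φ : K →+* F) {τ : F ≃ₐ[ℚ] F} {W H : Fin 7 → Matrix (Fin 3) (Fin 3) F}
    {A B : Fin 7 → Fin 5 → Matrix (Fin 4) (Fin 4) F} {κ : F} (hκ : κ ≠ 0)
    (hWH : ∀ s, (W s)ᵀ * H s = 1)
    (hAB : ∀ s m, Zm F m = A s m * PhiX (W s) (H s) + B s m * PhiY (W s) (H s))
    (hτ : ∀ s, (W s).map τ = (W s).submatrix (Equiv.swap 1 2) id ∧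
      (H s).map τ = (H s).submatrix (Equiv.swap 1 2) id) {N : ℕ} (hN : N ≠ 0) :
    ∃ L₀ : ℕ, ∀ (l : ℕ) (w : P F) (v : P K), L₀ < l → TP τ l w → Over φ w v → Res1 v →
      ∃ Bad : Fin 7 → Finset (Matrix (Fin 4) (Fin 4) (ZMod l)),
        (∀ s, ((Bad s).card : ℝ) ≤ (1 - 1 / 5 / l) * (l : ℝ) ^ 10) ∧
        ∀ (e : ℤ × ℤ) (C T : ℝ) (d : (Cub e K)ˣ) (ν : K) (z : Nat.Primes → (Cub e K)ˣ)
          (ε : (K →+* ℂ) → Cub e ℂ) (j : ℕ) (v0 v1 v2 : Cub e K) (s : Fin 7) (g : ℤ)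
          (Sm : Matrix (Fin 4) (Fin 4) ℚ), ¬ (l : ℤ) ^ 2 ∣ disc e → Loc d z →
          Red N C T (d : Cub e K) ν z ε j v0 v1 v2 → Sm.IsSymm → IntS g Sm →
          (∀ m, κ * φ (quart (d : Cub e K) v0 v1 v2 (pt5 m).1 (pt5 m).2) =
            g * (A s m + B s m * Sm.map (Rat.cast : ℚ → F)).det) →
          ((l : ℤ) ∣ disc e → d ∈ sqv e v) → ¬ (l : ℤ) ∣ g → ∃ X ∈ Bad s, RedS l g Sm X := by
  classical
  have E1 : ∀ᶠ l : ℕ in Filter.atTop, ∀ (s : Fin 7) (i j : Fin 3), l.Prime → ∀ w : P F,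
      val w (l : F) < 1 → val w (W s i j) ≤ 1 :=
    Filter.eventually_all.2 fun _ => Filter.eventually_all.2 fun _ =>
      Filter.eventually_all.2 fun _ => zubad_ev _
  have E2 : ∀ᶠ l : ℕ in Filter.atTop, ∀ (s : Fin 7) (i j : Fin 3), l.Prime → ∀ w : P F,
      val w (l : F) < 1 → val w (H s i j) ≤ 1 :=
    Filter.eventually_all.2 fun _ => Filter.eventually_all.2 fun _ =>
      Filter.eventually_all.2 fun _ => zubad_ev _
  have E3 : ∀ᶠ l : ℕ in Filter.atTop, ∀ (s : Fin 7) (m : Fin 5) (i j : Fin 4), l.Prime →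
      ∀ w : P F, val w (l : F) < 1 → val w (A s m i j) ≤ 1 :=
    Filter.eventually_all.2 fun _ => Filter.eventually_all.2 fun _ =>
      Filter.eventually_all.2 fun _ => Filter.eventually_all.2 fun _ => zubad_ev _
  have E4 : ∀ᶠ l : ℕ in Filter.atTop, ∀ (s : Fin 7) (m : Fin 5) (i j : Fin 4), l.Prime →
      ∀ w : P F, val w (l : F) < 1 → val w (B s m i j) ≤ 1 :=
    Filter.eventually_all.2 fun _ => Filter.eventually_all.2 fun _ =>
      Filter.eventually_all.2 fun _ => Filter.eventually_all.2 fun _ => zubad_ev _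
  obtain ⟨L₀, hL⟩ := Filter.eventually_atTop.1 ((E1.and E2).and ((E3.and E4).and
    (((zubad_ev κ).and (zubad_ev κ⁻¹)).and
      ((Filter.eventually_ge_atTop 200).and (Filter.eventually_gt_atTop N)))))
  refine ⟨L₀, fun l w v hlL hT ho hv1 => ?_⟩
  have hl := hT.prime
  have : Fact l.Prime := ⟨hl⟩
  have hw := hT.lt
  obtain ⟨⟨hW, hH⟩, ⟨hA, hB⟩, ⟨hκ1, hκ2⟩, h200, hNl⟩ := hL l hlL.le
  obtain ⟨Λ, _, ρ, ι, ψ, hρ, hψ, hψ2, hψ3⟩ := hT.exists_res
  obtain ⟨ρ₁, h₁⟩ := exists_redAt_zmod hl (by rw [← ho.natCast]; exact hw) hv1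
  have hκv : val w κ = 1 := by
    refine le_antisymm (hκ1 hl w hw) ?_
    have h1 := hκ2 hl w hw
    rwa [map_inv₀, inv_le_one₀ (zero_lt_iff.2 ((Valuation.ne_zero_iff _).2 hκ))] at h1
  refine ⟨fun s => Finset.univ.filter fun S : Matrix (Fin 4) (Fin 4) (ZMod l) => S.IsSymm ∧
    ¬ GoodM ι (fun m => (A s m).map (rd ρ)) (fun m => (B s m).map (rd ρ)) S, fun s => ?_, ?_⟩
  · obtain ⟨W', hW1, hW2⟩ := zubad_lift ρ (W s) fun i j => hW s i j hl w hw
    obtain ⟨H', hH1, hH2⟩ := zubad_lift ρ (H s) fun i j => hH s i j hl w hw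
    have hinj : Function.Injective (val w).integer.subtype := Subtype.val_injective
    have h1 : W'ᵀ * H' = 1 := by
      apply Matrix.map_injective hinj
      have h2 := hWH s
      rw [hW1, hH1, ← Matrix.transpose_map, ← Matrix.map_mul] at h2
      simp only [h2]
      exact (Matrix.map_one _ (map_zero _) (map_one _)).symm
    have h2 : (W'.map ρ)ᵀ * H'.map ρ = 1 := by
      rw [← Matrix.transpose_map, ← Matrix.map_mul, h1]
      exact Matrix.map_one _ (map_zero _) (map_one _)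
    have h5 : ∀ M : Matrix (Fin 3) (Fin 3) F, (∀ i j, val w (M i j) ≤ 1) →
        M.map τ = M.submatrix (Equiv.swap 1 2) id →
        (M.map (rd ρ)).map ψ = (M.map (rd ρ)).submatrix (Equiv.swap 1 2) id := by
      intro M hM hM'
      ext i j
      exact (hψ _ (hM i j)).symm.trans (congrArg (rd ρ) (congrFun (congrFun hM' i) j))
    have h6 := card_badM l h200 ι ψ hψ2 hψ3 h2
      (hW2 ▸ h5 _ (fun i j => hW s i j hl w hw) (hτ s).1)
      (hH2 ▸ h5 _ (fun i j => hH s i j hl w hw) (hτ s).2) (A := fun m => (A s m).map (rd ρ))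
      (B := fun m => (B s m).map (rd ρ)) fun m => by
        obtain ⟨A', hA1, hA2⟩ := zubad_lift ρ (A s m) fun i j => hA s m i j hl w hw
        obtain ⟨B', hB1, hB2⟩ := zubad_lift ρ (B s m) fun i j => hB s m i j hl w hw
        have h3 : Zm (val w).integer m = A' * PhiX W' H' + B' * PhiY W' H' := by
          apply Matrix.map_injective hinj
          have h4 := hAB s m
          rw [hW1, hH1, hA1, hB1, ← (PhiX_map _ W' H').1, ← (PhiX_map _ W' H').2,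
            ← Matrix.map_mul, ← Matrix.map_mul, ← Matrix.map_add _ (map_add _),
            ← zubad_Zm (val w).integer.subtype] at h4
          exact h4
        rw [hA2, hB2, ← (PhiX_map ρ W' H').1, ← (PhiX_map ρ W' H').2, ← Matrix.map_mul,
          ← Matrix.map_mul, ← Matrix.map_add _ (map_add _), ← h3, zubad_Zm]
    refine le_trans (Nat.cast_le.2 (Finset.card_le_card fun S hS => ?_)) h6
    simpa only [Finset.mem_filter] using hS
  · intro e C T d ν z ε j v0 v1 v2 s g Sm he hz hr hs hi hq hesc hg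
    have h1 := upoint_badM ho hT.five hT.unr h₁ hρ ι
      (fun m i j => ⟨hA s m i j hl w hw, hB s m i j hl w hw⟩) hκv he
      (Nat.not_dvd_of_pos_of_lt (Nat.pos_of_ne_zero hN) hNl) hz hr hg hi hq hesc
    exact ⟨_, Finset.mem_filter.2 ⟨Finset.mem_univ _, hs.map _, h1.1⟩, h1.2⟩

end Pool.Agent.Lib.MP_775b3b_nt
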