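import Pool.Agent.Lib.MP_775b3b_nt.ZStep
import Pool.Agent.Lib.MP_775b3b_nt.ZL2a
import Pool.Agent.Lib.MP_775b3b_nt.ZTy2

/-! The Selmer group over the cubic field. -/

namespace Pool.Agent.Lib.MP_775b3b_nt

open Cub MP_439fea_co WithZero

variable {e : ℤ × ℤ} {K : Type} [Field K] [NumberField K] (S : Setup K K)

include S in
/-- the Galois group has order three (`S.gal`, `S.finrank_eq`), `sqDesc_of_odd` -/
theorem Setup.sqDesc (v : P K) : SqDesc (algebraMap ℚ K) v := by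
  haveI := S.gal
  refine sqDesc_of_odd v (Odd.of_dvd_nat (n := 3) (by decide) ?_)
  rw [← S.finrank_eq, ← IsGalois.card_aut_eq_finrank]
  exact Subgroup.card_subgroup_dvd_card _

/-- `nsq`: `exists_nm_rn`.  `ι c ∈ Z e D K` by `uz_cor`, `uz_mem_Z`.  For a place `v₀` of `ℚ` take
`v` above it (`exists_above`, `over_und` with `x = 2` or `x = f(r)`); `L2_desc`, `Tv_desc`.
If `v₀` is above a prime `p ∉ D`: `mem_usq_Ord_iff` twice and `rn_mem_Ord`. -/
theorem Setup.cor_mem_Z {D : Finset ℕ} (h : Nice e D K) {d : (Cub e K)ˣ} (hd : d ∈ Z e D K) :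
    S.cor e d ∈ Z e D ℚ := by
  have hn : S.cor e d ∈ nsq e ℚ := by
    obtain ⟨ν, hν⟩ := (mem_Z.1 hd).1
    obtain ⟨r, hr, -⟩ := S.exists_nm_rn hν
    exact ⟨r, hr⟩
  have hz : uz e (algebraMap ℚ K) (S.cor e d) ∈ Z e D K := by
    rw [S.uz_cor]
    exact mul_mem (mul_mem (uz_mem_Z _ hd) (uz_mem_Z _ hd)) (uz_mem_Z _ hd)
  refine mem_Z.2 ⟨hn, fun v hv => ?_, fun l hl v hv => ?_, fun v hv => ?_⟩
  · obtain ⟨w, rfl, hw⟩ := exists_above (k' := K) v
    have h2 : val w (2 : K) < 1 := by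
      have := (hw 2).2 hv
      rwa [map_ofNat] at this
    have hE := h.two w h2
    exact L2_desc (over_und w (x := 2) (by rw [map_ofNat]; exact hE.1)) hE hn
      ((mem_Z.1 hz).2.1 w h2)
  · obtain ⟨w, rfl, hw⟩ := exists_above (k' := K) v
    have h2 : val w (l : K) < 1 := by
      have := (hw l).2 hv
      rwa [map_natCast] at this
    have hT := h.ty l hl w h2
    exact Tv_desc (over_und w (x := fv e (rt e l : ℚ))
      (by rw [map_fv, map_intCast]; exact hT.2.1)) hT (S.sqDesc w) hn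
      ((mem_Z.1 hz).2.2.1 l hl w h2)
  · obtain ⟨p, hp, hpv⟩ := exists_prime_under v
    have h1 : d ∈ usq (Ord ⟨p, hp⟩ e K) := mem_usq_Ord_iff.2 fun w hw =>
      (mem_Z.1 hd).2.2.2 w fun l hl hl' => hv l hl
        ((val_natCast_lt_one_iff v hp hpv l).2 ((val_natCast_lt_one_iff w hp hw l).1 hl'))
    refine (mem_usq_Ord_iff (p := ⟨p, hp⟩)).1 ?_ v hpv
    obtain ⟨z, h2, h3⟩ := h1
    refine ⟨S.cor e z, ?_, ?_⟩
    · rw [← map_pow, ← map_mul]
      exact S.rn_mem_Ord h2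
    · rw [← map_pow, ← map_mul, ← map_inv]
      exact S.rn_mem_Ord h3

/-- `d ∈ TZ` by `cor_mem_Z`.  At `v ∣ l ∈ D₂`: if `d τ ∈ sqv e v` then so are the three conjugates
(`exists_aut`, `sqv_smul_iff`, `uz_tauU`), so `(ι cor d) τ^3 ∈ sqv`, `τ ∈ sqv`, against
`tau_not_mem`.  Hence `d ∈ Z e D₁ K`. -/
theorem Setup.bottom {D₁ D₂ : Finset ℕ} (h : Nice e (D₁ ∪ D₂) K)
    (hfix : ∀ l ∈ D₂, ∀ v : P K, val v (l : K) < 1 → ∀ g : K ≃ₐ[ℚ] K, g • v = v)
    (h1 : Z e D₁ K ⊓ S.TZ e ≤ SQ e K) (h2 : Z e (D₁ ∪ D₂) ℚ ≤ SQ e ℚ) :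
    Z e (D₁ ∪ D₂) K ≤ SQ e K := by
  intro d hd
  have hc : S.cor e d ∈ SQ e ℚ := h2 (S.cor_mem_Z h hd)
  obtain ⟨a1, a2, a3, a4⟩ := mem_Z.1 hd
  refine h1 ⟨mem_Z.2 ⟨a1, a2, fun l hl => a3 l (Finset.mem_union_left _ hl), fun v hv => ?_⟩, hc⟩
  by_cases h3 : ∃ l ∈ D₂, val v (l : K) < 1
  · obtain ⟨l, hl, hlv⟩ := h3
    have hl' := Finset.mem_union_right D₁ hl
    rcases a3 l hl' v hlv with h4 | h4
    · exact sqv_le_usv h4
    · refine absurd (sqv_le_usv ?_) (h.ty l hl' v hlv).tau_not_mem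
      have h5 : ∀ j, uz e (S.s j) d * tauU e K (rt e l) ∈ sqv e v := fun j => by
        obtain ⟨g, hg⟩ := S.exists_aut j
        have h6 := (sqv_smul_iff g v _).2 h4
        rwa [hfix l hl v hlv g, map_mul, uz_tauU, hg] at h6
      have h6 : uz e (S.s 0) d * uz e (S.s 1) d * uz e (S.s 2) d ∈ sqv e v := by
        rw [← S.uz_cor]
        exact SQ_le_sqv (uz_mem_SQ _ hc)
      have h7 := mul_mem (mul_mem (mul_mem (mul_mem (h5 0) (h5 1)) (h5 2)) (inv_mem h6))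
        (SQ_le_sqv (sq_mem_SQ (tauU e K (rt e l))⁻¹))
      generalize uz e (S.s 0) d = x at h7
      generalize uz e (S.s 1) d = y at h7
      generalize uz e (S.s 2) d = z at h7
      generalize tauU e K (rt e l) = t at h7 ⊢
      have h8 : x * t * (y * t) * (z * t) = x * y * z * (t * t ^ 2) :=
        Units.ext (by simp only [Units.val_mul, Units.val_pow_eq_pow_val]; ring)
      rwa [h8, mul_inv_cancel_comm, inv_pow, mul_inv_cancel_right] at h7
  · refine a4 v fun l hl hlv => ?_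
    rcases Finset.mem_union.1 hl with h4 | h4
    · exact hv l h4 hlv
    · exact h3 ⟨l, h4, hlv⟩

end Pool.Agent.Lib.MP_775b3b_nt
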