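import Pool.Agent.Lib.MP_775b3b_nt.LocIso
import Pool.Agent.Lib.MP_775b3b_nt.Hyp
import Pool.Agent.Lib.MP_439fea_co.Act

/-! Definitions for the rank zero theorem. -/

namespace Pool.Agent.Lib.MP_775b3b_nt

open Cub MP_439fea_co WithZero

section Poly

variable {R R' : Type*} [CommRing R] [CommRing R']

/-- `f(r) = r^3 + A r + B` -/
def fv (e : ℤ × ℤ) (r : R) : R := r ^ 3 + (e.1 : R) * r + (e.2 : R)

/-- `τ(r) = θ^2 + r θ + r^2 + A` -/
def tau (e : ℤ × ℤ) (r : R) : Cub e R := ⟨r ^ 2 + (e.1 : R), r, 1⟩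

/-- `r - θ` -/
def lin (e : ℤ × ℤ) (r : R) : Cub e R := ⟨r, -1, 0⟩

/-- formal value at `r` -/
def evr {e : ℤ × ℤ} (r : R) (x : Cub e R) : R := x.c0 + x.c1 * r + x.c2 * r ^ 2

variable {e : ℤ × ℤ}

theorem lin_mul_tau (r : R) : lin e r * tau e r = algebraMap R (Cub e R) (fv e r) := by
  ext
  · rw [algebraMap_c0]
    simp [lin, tau, fv]
    ring
  · rw [algebraMap_c1]
    simp [lin, tau]
    ring
  · rw [algebraMap_c2]
    simp [lin, tau]

theorem nm_lin (r : R) : nm (lin e r) = fv e r := by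
  simp [lin, nm, fv]
  ring

theorem nm_tau (r : R) : nm (tau e r) = fv e r ^ 2 := by
  simp [tau, nm, fv]
  ring

theorem lin_eq (r : R) : lin e r = algebraMap R (Cub e R) r - th := by
  ext <;> simp [lin]

theorem map_fv (f : R →+* R') (r : R) : f (fv e r) = fv e (f r) := by simp [fv]

theorem map_tau (f : R →+* R') (r : R) : map f (tau e r) = tau e (f r) := by
  ext <;> simp [tau]

theorem map_lin (f : R →+* R') (r : R) : map f (lin e r) = lin e (f r) := by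
  ext <;> simp [lin]

theorem fv_intCast (r : ℤ) : fv e (r : R) = ((fv e r : ℤ) : R) := by simp [fv]

/-- the quadratic twist -/
def tw (e : ℤ × ℤ) (d : ℤ) : ℤ × ℤ := (e.1 * d ^ 2, e.2 * d ^ 3)

/-- binary quartic form -/
def qev (c : Fin 5 → R) (x y : R) : R :=
  c 0 * x ^ 4 + c 1 * x ^ 3 * y + c 2 * x ^ 2 * y ^ 2 + c 3 * x * y ^ 3 + c 4 * y ^ 4

open Polynomial in
/-- the quartic polynomial -/
noncomputable def qpoly (c : Fin 5 → R) : R[X] :=
  C (c 0) * X ^ 4 + C (c 1) * X ^ 3 + C (c 2) * X ^ 2 + C (c 3) * X + C (c 4)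

/-- irreducible of degree four -/
def Irr4 (c : Fin 5 → R) : Prop := c 0 ≠ 0 ∧ Irreducible (qpoly c)

/-- the values at the five points are those of an irreducible quartic -/
def IrrV (y : Fin 5 → R) : Prop :=
  ∃ c, Irr4 c ∧ ∀ m, y m = qev c ((pt5 m).1 : R) ((pt5 m).2 : R)

end Poly

/-- `ℓ` is odd and the cubic has exactly one root modulo `ℓ`, which is simple -/
def Ty (e : ℤ × ℤ) (l : ℕ) : Prop :=
  l ≠ 2 ∧ (∃ r : ZMod l, fv e r = 0) ∧ ¬ IsSquare (-(disc e : ZMod l))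

/-- an integer `r` such that `l` exactly divides `f(r)` -/
noncomputable def rt (e : ℤ × ℤ) (l : ℕ) : ℤ :=
  Classical.epsilon fun r : ℤ => (l : ℤ) ∣ fv e r ∧ ¬ (l : ℤ) ^ 2 ∣ fv e r

section Units

variable {e : ℤ × ℤ} {k k' k'' : Type*} [Field k] [Field k'] [Field k'']

/-- the map on units -/
def uz (e : ℤ × ℤ) (f : k →+* k') : (Cub e k)ˣ →* (Cub e k')ˣ :=
  Units.map (map f : Cub e k →+* Cub e k').toMonoidHom

theorem uz_val (f : k →+* k') (d : (Cub e k)ˣ) : (uz e f d : Cub e k') = map f (d : Cub e k) := rfl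

theorem uz_uz (f : k →+* k') (g : k' →+* k'') (d : (Cub e k)ˣ) :
    uz e g (uz e f d) = uz e (g.comp f) d := Units.ext (map_map f g _)

theorem uz_mem_SQ (f : k →+* k') {d : (Cub e k)ˣ} (h : d ∈ SQ e k) : uz e f d ∈ SQ e k' := by
  obtain ⟨z, rfl⟩ := h
  exact ⟨uz e f z, map_mul _ _ _⟩

theorem uz_mem_nsq (f : k →+* k') {d : (Cub e k)ˣ} (h : d ∈ nsq e k) : uz e f d ∈ nsq e k' := by
  obtain ⟨ν, hν⟩ := h
  exact ⟨f ν, by rw [uz_val, nm_map, hν, map_pow]⟩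

theorem sq_mem_SQ (z : (Cub e k)ˣ) : z ^ 2 ∈ SQ e k := ⟨z, sq z⟩

theorem SQ_le_nsq : SQ e k ≤ nsq e k := by
  rintro d ⟨z, rfl⟩
  exact ⟨nm (z : Cub e k), by rw [Units.val_mul, nm_mul, sq]⟩

open Classical in
/-- `τ(r)` as a unit -/
noncomputable def tauU (e : ℤ × ℤ) (k : Type*) [Field k] (r : ℤ) : (Cub e k)ˣ :=
  if h : IsUnit (tau e (r : k)) then h.unit else 1

theorem tauU_val {r : ℤ} (h : fv e (r : k) ≠ 0) : (tauU e k r : Cub e k) = tau e (r : k) := by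
  have h1 : IsUnit (tau e (r : k)) := isUnit_iff.2 (by rw [nm_tau]; exact pow_ne_zero _ h)
  rw [tauU, dif_pos h1, IsUnit.unit_spec]

theorem tauU_zero {r : ℤ} (h : fv e (r : k) = 0) : tauU e k r = 1 := by
  rw [tauU, dif_neg]
  rw [isUnit_iff, nm_tau, h]
  simp

theorem uz_tauU (f : k →+* k') (r : ℤ) : uz e f (tauU e k r) = tauU e k' r := by
  have h1 : fv e (r : k') = f (fv e (r : k)) := by rw [map_fv, map_intCast]
  by_cases h : fv e (r : k) = 0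
  · rw [tauU_zero h, tauU_zero (by rw [h1, h, map_zero]), map_one]
  · ext1
    rw [uz_val, tauU_val h, tauU_val (by rw [h1]; exact (map_ne_zero f).2 h), map_tau, map_intCast]

theorem tauU_mem_nsq (r : ℤ) : tauU e k r ∈ nsq e k := by
  by_cases h : fv e (r : k) = 0
  · rw [tauU_zero h]
    exact one_mem _
  · exact ⟨fv e (r : k), by rw [tauU_val h, nm_tau]⟩

/-- the form of `d` is isotropic -/
def Iso (d : Cub e k) : Prop := ∃ x : Cub e k, x ≠ 0 ∧ Bf d x x = 0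

end Units

section Place

variable {e : ℤ × ℤ} {k : Type*} [Field k] [NumberField k]

/-- the order localised at the place `v` -/
noncomputable abbrev Ov (e : ℤ × ℤ) (v : P k) : Subring (Cub e k) := cubOf e (val v).integer

theorem mem_Ov {v : P k} {x : Cub e k} :
    x ∈ Ov e v ↔ val v x.c0 ≤ 1 ∧ val v x.c1 ≤ 1 ∧ val v x.c2 ≤ 1 := Iff.rfl

/-- all coordinates are in the maximal ideal -/
def Sm (v : P k) (x : Cub e k) : Prop := val v x.c0 < 1 ∧ val v x.c1 < 1 ∧ val v x.c2 < 1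

variable {v : P k} {x y : Cub e k}

theorem Sm.mem (h : Sm v x) : x ∈ Ov e v := ⟨h.1.le, h.2.1.le, h.2.2.le⟩

theorem Sm.zero : Sm v (0 : Cub e k) := by simp [Sm]

theorem Sm.add (h : Sm v x) (h' : Sm v y) : Sm v (x + y) :=
  ⟨Valuation.map_add_lt _ h.1 h'.1, Valuation.map_add_lt _ h.2.1 h'.2.1,
    Valuation.map_add_lt _ h.2.2 h'.2.2⟩

theorem Sm.neg (h : Sm v x) : Sm v (-x) := by
  simpa only [Sm, neg_c0, neg_c1, neg_c2, Valuation.map_neg] using h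

theorem Sm.sub (h : Sm v x) (h' : Sm v y) : Sm v (x - y) := by
  rw [sub_eq_add_neg]
  exact h.add h'.neg

theorem Sm.mul_left (h : Sm v y) (hx : x ∈ Ov e v) : Sm v (x * y) :=
  lociso_small v hx h.1 h.2.1 h.2.2

theorem Sm.mul_right (h : Sm v x) (hy : y ∈ Ov e v) : Sm v (x * y) := by
  rw [mul_comm]
  exact h.mul_left hy

theorem Sm.smul_of_lt {a : k} (ha : val v a < 1) (hx : x ∈ Ov e v) : Sm v (a • x) :=
  ⟨lociso_mul_lt v ha hx.1, lociso_mul_lt v ha hx.2.1, lociso_mul_lt v ha hx.2.2⟩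

theorem smul_mem_Ov {a : k} (ha : val v a ≤ 1) (hx : x ∈ Ov e v) : a • x ∈ Ov e v :=
  ⟨mul_mem (S := Subring k) ha hx.1, mul_mem (S := Subring k) ha hx.2.1,
    mul_mem (S := Subring k) ha hx.2.2⟩

theorem algebraMap_mem_Ov {a : k} (ha : val v a ≤ 1) : algebraMap k (Cub e k) a ∈ Ov e v :=
  ⟨ha, zero_mem (val v).integer, zero_mem (val v).integer⟩

theorem th_mem_Ov : (th : Cub e k) ∈ Ov e v := lociso_th _

theorem exists_lift_Ov (hx : x ∈ Ov e v) :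
    ∃ x' : Cub e (val v).integer, map (val v).integer.subtype x' = x :=
  ⟨⟨⟨_, hx.1⟩, ⟨_, hx.2.1⟩, ⟨_, hx.2.2⟩⟩, rfl⟩

theorem map_subtype_mem_Ov (x' : Cub e (val v).integer) :
    map (val v).integer.subtype x' ∈ Ov e v := ⟨x'.c0.2, x'.c1.2, x'.c2.2⟩

theorem val_nm_le (hx : x ∈ Ov e v) : val v (nm x) ≤ 1 := by
  obtain ⟨x', rfl⟩ := exists_lift_Ov hx
  rw [nm_map]
  exact (nm x').2

theorem adj_mem_Ov (hx : x ∈ Ov e v) : adj x ∈ Ov e v := by
  obtain ⟨x', rfl⟩ := exists_lift_Ov hx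
  rw [adj_map]
  exact map_subtype_mem_Ov _

theorem inv_mem_Ov {u : (Cub e k)ˣ} (hu : (u : Cub e k) ∈ Ov e v)
    (h : val v (nm (u : Cub e k)) = 1) : ((u⁻¹ : (Cub e k)ˣ) : Cub e k) ∈ Ov e v := by
  have h1 : ((u⁻¹ : (Cub e k)ˣ) : Cub e k) = (nm (u : Cub e k))⁻¹ • adj (u : Cub e k) := by
    refine Units.inv_eq_of_mul_eq_one_right ?_
    rw [mul_smul_comm, mul_adj, Algebra.algebraMap_eq_smul_one, smul_smul,
      inv_mul_cancel₀ (nm_ne_zero u), one_smul]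
  rw [h1]
  exact smul_mem_Ov (by rw [map_inv₀, h, inv_one]) (adj_mem_Ov hu)

theorem val_nm_eq_one {u : (Cub e k)ˣ} (hu : (u : Cub e k) ∈ Ov e v)
    (hu' : ((u⁻¹ : (Cub e k)ˣ) : Cub e k) ∈ Ov e v) : val v (nm (u : Cub e k)) = 1 := by
  have h1 := congrArg (val v) (nm_units_mul_inv u)
  rw [map_mul, map_one] at h1
  refine le_antisymm (val_nm_le hu) ?_
  calc (1 : ℤᵐ⁰) = _ := h1.symm
    _ ≤ val v (nm (u : Cub e k)) * 1 := mul_le_mul_right (val_nm_le hu') _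
    _ = _ := mul_one _

theorem Sm.val_nm (h : Sm v (x - 1)) : x ∈ Ov e v ∧ val v (nm x) = 1 := by
  have hx : x ∈ Ov e v := by simpa using add_mem h.mem (one_mem (Ov e v))
  refine ⟨hx, ?_⟩
  obtain ⟨h0, h1, h2⟩ := h
  simp only [sub_c0, sub_c1, sub_c2, one_c0, one_c1, one_c2, sub_zero] at h0 h1 h2
  have i0 : x.c0 ∈ (val v).integer := hx.1
  have i1 : x.c1 ∈ (val v).integer := hx.2.1
  have i2 : x.c2 ∈ (val v).integer := hx.2.2
  have iA := intCast_mem (val v).integer e.1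
  have iB := intCast_mem (val v).integer e.2
  have e1 : nm x = 1 + ((x.c0 - 1) * (x.c0 * x.c0 + x.c0 + 1) +
      (x.c1 * (e.1 * x.c0 * x.c1 - e.2 * x.c1 * x.c1) +
      x.c2 * (e.1 * e.1 * x.c0 * x.c2 - (e.1 + e.1) * x.c0 * x.c0 + (e.2 + e.2 + e.2) * x.c0 * x.c1 +
        e.2 * e.2 * x.c2 * x.c2 - e.1 * e.2 * x.c1 * x.c2))) := by
    simp only [nm]
    ring
  rw [e1]
  refine Valuation.map_one_add_of_lt _ (Valuation.map_add_lt _ (lociso_mul_lt v h0 ?_)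
    (Valuation.map_add_lt _ (lociso_mul_lt v h1 ?_) (lociso_mul_lt v h2 ?_)))
  all_goals
    rw [← Valuation.mem_integer_iff]
    repeat first
      | assumption | exact one_mem _ | apply sub_mem | apply add_mem | apply mul_mem

/-- unit of the local order times a square -/
noncomputable abbrev usv (e : ℤ × ℤ) (v : P k) : Subgroup (Cub e k)ˣ := usq (Ov e v)

theorem mem_usv {d : (Cub e k)ˣ} : d ∈ usv e v ↔ ∃ z : (Cub e k)ˣ,
    ((d * z ^ 2 : (Cub e k)ˣ) : Cub e k) ∈ Ov e v ∧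
      val v (nm ((d * z ^ 2 : (Cub e k)ˣ) : Cub e k)) = 1 :=
  ⟨fun ⟨z, h1, h2⟩ => ⟨z, h1, val_nm_eq_one h1 h2⟩, fun ⟨z, h1, h2⟩ => ⟨z, h1, inv_mem_Ov h1 h2⟩⟩

/-- local squares at an odd place -/
noncomputable def sqv (e : ℤ × ℤ) (v : P k) : Subgroup (Cub e k)ˣ where
  carrier := {d | ∃ z : (Cub e k)ˣ, Sm v (((d * z ^ 2 : (Cub e k)ˣ) : Cub e k) - 1)}
  one_mem' := ⟨1, by simpa using Sm.zero⟩
  mul_mem' := by
    rintro a b ⟨z, h1⟩ ⟨w, h2⟩
    refine ⟨z * w, ?_⟩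
    have h : a * b * (z * w) ^ 2 = a * z ^ 2 * (b * w ^ 2) := by
      rw [mul_pow, mul_mul_mul_comm]
    rw [h, Units.val_mul]
    have h3 := (h2.mul_left h1.val_nm.1).add h1
    convert h3 using 1
    ring
  inv_mem' := by
    rintro a ⟨z, h1⟩
    refine ⟨z⁻¹, ?_⟩
    have h : a⁻¹ * z⁻¹ ^ 2 = (a * z ^ 2)⁻¹ := by rw [mul_inv, inv_pow]
    rw [h]
    have h3 := (h1.mul_left (inv_mem_Ov h1.val_nm.1 h1.val_nm.2)).neg
    convert h3 using 1
    rw [mul_sub, Units.inv_mul]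
    ring

theorem mem_sqv {d : (Cub e k)ˣ} : d ∈ sqv e v ↔
    ∃ z : (Cub e k)ˣ, Sm v (((d * z ^ 2 : (Cub e k)ˣ) : Cub e k) - 1) := Iff.rfl

theorem sqv_le_usv : sqv e v ≤ usv e v := fun _ ⟨z, h⟩ => mem_usv.2 ⟨z, h.val_nm⟩

theorem SQ_le_sqv : SQ e k ≤ sqv e v := by
  rintro d ⟨z, rfl⟩
  refine ⟨z⁻¹, ?_⟩
  rw [← sq, ← mul_pow, mul_inv_cancel, one_pow, Units.val_one, sub_self]
  exact Sm.zero

/-- the local condition above two -/
noncomputable def L2 (e : ℤ × ℤ) (v : P k) : Subgroup (Cub e k)ˣ where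
  carrier := {d | val v (e.1 : k) < 1 → val v (e.2 : k) < 1 → ∃ z : (Cub e k)ˣ,
    ((d * z ^ 2 : (Cub e k)ˣ) : Cub e k) ∈ Ov e v ∧
      val v (nm ((d * z ^ 2 : (Cub e k)ˣ) : Cub e k)) = 1 ∧
      val v ((d * z ^ 2 : (Cub e k)ˣ) : Cub e k).c1 < 1}
  one_mem' := fun _ _ => ⟨1, by simp, by simp, by simp⟩
  mul_mem' := by
    intro a b ha hb hA hB
    obtain ⟨z, h1, h2, h3⟩ := ha hA hB
    obtain ⟨w, h4, h5, h6⟩ := hb hA hB
    refine ⟨z * w, ?_⟩
    have h : a * b * (z * w) ^ 2 = a * z ^ 2 * (b * w ^ 2) := by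
      rw [mul_pow, mul_mul_mul_comm]
    rw [h, Units.val_mul]
    refine ⟨mul_mem h1 h4, by rw [nm_mul, map_mul, h2, h5, one_mul], ?_⟩
    rw [mul_c1]
    refine Valuation.map_sub_lt _ (Valuation.map_sub_lt _ (Valuation.map_add_lt _ ?_
      (lociso_mul_lt v h3 h4.1)) (lociso_mul_lt v hA ?_)) (lociso_mul_lt v hB ?_)
    · rw [mul_comm]
      exact lociso_mul_lt v h6 h1.1
    · exact add_mem (S := Subring k) (mul_mem h1.2.1 h4.2.2) (mul_mem h1.2.2 h4.2.1)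
    · exact mul_mem (S := Subring k) h1.2.2 h4.2.2
  inv_mem' := by
    intro a ha hA hB
    obtain ⟨z, h1, h2, h3⟩ := ha hA hB
    refine ⟨z⁻¹, ?_⟩
    have h : a⁻¹ * z⁻¹ ^ 2 = (a * z ^ 2)⁻¹ := by rw [mul_inv, inv_pow]
    rw [h]
    generalize a * z ^ 2 = u at h1 h2 h3
    have h4 := inv_mem_Ov h1 h2
    refine ⟨h4, val_nm_eq_one h4 (by simpa using h1), ?_⟩
    have h5 : ((u⁻¹ : (Cub e k)ˣ) : Cub e k) = (nm (u : Cub e k))⁻¹ • adj (u : Cub e k) := by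
      refine Units.inv_eq_of_mul_eq_one_right ?_
      rw [mul_smul_comm, mul_adj, Algebra.algebraMap_eq_smul_one, smul_smul,
        inv_mul_cancel₀ (nm_ne_zero u), one_smul]
    rw [h5, smul_c1, smul_eq_mul, map_mul, map_inv₀, h2, inv_one, one_mul]
    refine Valuation.map_sub_lt _ ?_ (lociso_mul_lt v hB ((val v).integer.pow_mem h1.2.2 2))
    rw [Valuation.map_neg, mul_comm]
    exact lociso_mul_lt v h3 h1.1

theorem mem_L2 {d : (Cub e k)ˣ} : d ∈ L2 e v ↔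
    (val v (e.1 : k) < 1 → val v (e.2 : k) < 1 → ∃ z : (Cub e k)ˣ,
      ((d * z ^ 2 : (Cub e k)ˣ) : Cub e k) ∈ Ov e v ∧
        val v (nm ((d * z ^ 2 : (Cub e k)ˣ) : Cub e k)) = 1 ∧
        val v ((d * z ^ 2 : (Cub e k)ˣ) : Cub e k).c1 < 1) := Iff.rfl

theorem sqv_le_L2 : sqv e v ≤ L2 e v := fun _ ⟨z, h⟩ _ _ =>
  ⟨z, h.val_nm.1, h.val_nm.2, by simpa using h.2.1⟩

/-- the local condition at a twisting place -/
noncomputable def Tv (e : ℤ × ℤ) (v : P k) (r : ℤ) : Subgroup (Cub e k)ˣ where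
  carrier := {d | d ∈ sqv e v ∨ d * tauU e k r ∈ sqv e v}
  one_mem' := Or.inl (one_mem _)
  mul_mem' := by
    rintro a b (ha | ha) (hb | hb)
    · exact Or.inl (mul_mem ha hb)
    · exact Or.inr (by rw [mul_assoc]; exact mul_mem ha hb)
    · exact Or.inr (by rw [mul_right_comm]; exact mul_mem ha hb)
    · refine Or.inl ?_
      have h := mul_mem (mul_mem ha hb) (SQ_le_sqv (sq_mem_SQ (tauU e k r)⁻¹))
      rwa [mul_mul_mul_comm, ← sq, mul_assoc, ← mul_pow, mul_inv_cancel, one_pow, mul_one] at h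
  inv_mem' := by
    rintro a (ha | ha)
    · exact Or.inl (inv_mem ha)
    · refine Or.inr ?_
      have h := mul_mem (inv_mem ha) (SQ_le_sqv (sq_mem_SQ (tauU e k r)))
      rwa [mul_inv, sq, mul_assoc, inv_mul_cancel_left] at h

theorem mem_Tv {d : (Cub e k)ˣ} {r : ℤ} :
    d ∈ Tv e v r ↔ d ∈ sqv e v ∨ d * tauU e k r ∈ sqv e v := Iff.rfl

theorem sqv_le_Tv {r : ℤ} : sqv e v ≤ Tv e v r := fun _ h => Or.inl h

/-- Eisenstein at `v` -/
def Eis (e : ℤ × ℤ) (v : P k) : Prop := val v (e.1 : k) < 1 ∧ val v (e.2 : k) = exp (-1 : ℤ)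

/-- the condition at the places above two -/
def Eis2 (e : ℤ × ℤ) (v : P k) : Prop :=
  val v (2 : k) = exp (-1 : ℤ) ∧ val v (e.1 : k) ≤ exp (-2 : ℤ) ∧ val v (e.2 : k) = exp (-1 : ℤ)

theorem Eis2.eis (h : Eis2 e v) : Eis e v :=
  ⟨h.2.1.trans_lt (by rw [← exp_zero, exp_lt_exp]; norm_num), h.2.2⟩

/-- a twisting place: odd, one simple root `r`, and `f(r)` is a uniformiser -/
def TyV (e : ℤ × ℤ) (v : P k) (r : ℤ) : Prop :=
  val v (2 : k) = 1 ∧ val v (fv e (r : k)) = exp (-1 : ℤ) ∧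
    ∀ y : k, ¬ val v (y ^ 2 + (disc e : k)) < 1

/-- the unramified condition is automatic -/
def Auto (e : ℤ × ℤ) (v : P k) : Prop := nsq e k ≤ usv e v

/-- local isotropy -/
def LocIso (v : P k) (d : Cub e k) : Prop :=
  ∃ x y : Cub e k, val v (Bf d x y) = 1 ∧ val v (Bf d y y) ≤ 1 ∧ val v (Bf d x x) < val v 4

/-- the residue field is the prime field -/
def Res1 (v : P k) : Prop := ∀ y : k, val v y ≤ 1 → ∃ n : ℤ, val v (y - n) < 1

/-- integers that are squares modulo `v` are squares modulo `l` -/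
def SqZ (v : P k) (l : ℕ) : Prop :=
  ∀ n : ℤ, (∃ y : k, val v ((n : k) - y ^ 2) < 1) → IsSquare (n : ZMod l)

/-- `ρ` is the reduction modulo `v` -/
structure RedAt (v : P k) {κ : Type*} [CommRing κ] (ρ : (val v).integer →+* κ) : Prop where
  surj : Function.Surjective ρ
  ker : ∀ x, ρ x = 0 ↔ val v (x : k) < 1

open Classical in
/-- reduction as a function on the field (zero outside the valuation ring) -/
noncomputable def rd {v : P k} {κ : Type*} [CommRing κ] (ρ : (val v).integer →+* κ) (x : k) : κ :=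
  if h : val v x ≤ 1 then ρ ⟨x, h⟩ else 0

/-- reduction of coordinates -/
noncomputable def rdC {v : P k} {κ : Type*} [CommRing κ] (ρ : (val v).integer →+* κ)
    (x : Cub e k) : Cub e κ := ⟨rd ρ x.c0, rd ρ x.c1, rd ρ x.c2⟩

variable {k' : Type*} [Field k'] [NumberField k']

/-- `w` lies over `v` along `φ`, without ramification -/
def Over (φ : k →+* k') (w : P k') (v : P k) : Prop := ∀ x, val w (φ x) = val v x

omit [NumberField k] in
/-- units that become squares modulo `w` are squares -/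
def SqDesc (φ : k →+* k') (w : P k') : Prop := ∀ x : k, val w (φ x) = 1 →
  (∃ y : k', val w (φ x - y ^ 2) < 1) → ∃ y : k, val w (φ (x - y ^ 2)) < 1

/-- the Selmer group attached to the set `D` of twisting primes -/
noncomputable def Z (e : ℤ × ℤ) (D : Finset ℕ) (k : Type*) [Field k] [NumberField k] :
    Subgroup (Cub e k)ˣ :=
  nsq e k ⊓ ((⨅ (v : P k) (_ : val v (2 : k) < 1), L2 e v) ⊓
    ((⨅ l ∈ D, ⨅ (v : P k) (_ : val v (l : k) < 1), Tv e v (rt e l)) ⊓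
      ⨅ (v : P k) (_ : ∀ l ∈ D, ¬ val v (l : k) < 1), usv e v))

theorem mem_Z {D : Finset ℕ} {d : (Cub e k)ˣ} : d ∈ Z e D k ↔ d ∈ nsq e k ∧
    (∀ v : P k, val v (2 : k) < 1 → d ∈ L2 e v) ∧
    (∀ l ∈ D, ∀ v : P k, val v (l : k) < 1 → d ∈ Tv e v (rt e l)) ∧
      ∀ v : P k, (∀ l ∈ D, ¬ val v (l : k) < 1) → d ∈ usv e v := by
  simp only [Z, Subgroup.mem_inf, Subgroup.mem_iInf]

theorem SQ_le_Z {D : Finset ℕ} : SQ e k ≤ Z e D k := fun _ h =>
  mem_Z.2 ⟨SQ_le_nsq h, fun _ _ => sqv_le_L2 (SQ_le_sqv h), fun _ _ _ _ => sqv_le_Tv (SQ_le_sqv h),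
    fun _ _ => sqv_le_usv (SQ_le_sqv h)⟩

/-- trivial at all places above `l` -/
noncomputable def St (e : ℤ × ℤ) (k : Type*) [Field k] [NumberField k] (l : ℕ) :
    Subgroup (Cub e k)ˣ :=
  ⨅ (v : P k) (_ : val v (l : k) < 1), sqv e v

theorem mem_St {l : ℕ} {d : (Cub e k)ˣ} :
    d ∈ St e k l ↔ ∀ v : P k, val v (l : k) < 1 → d ∈ sqv e v := by
  simp only [St, Subgroup.mem_iInf]

/-- the group containing the classes of the points of the twist -/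
noncomputable def TT (e : ℤ × ℤ) (N : ℕ) (D : Finset ℕ) (k : Type*) [Field k] [NumberField k] :
    Subgroup (Cub e k)ˣ :=
  Sel N e k ⊓ ((⨅ (v : P k) (_ : val v (2 : k) < 1), L2 e v) ⊓
    ⨅ l ∈ D, ⨅ (v : P k) (_ : val v (l : k) < 1), Tv e v (rt e l))

theorem mem_TT {N : ℕ} {D : Finset ℕ} {d : (Cub e k)ˣ} : d ∈ TT e N D k ↔ d ∈ Sel N e k ∧
    (∀ v : P k, val v (2 : k) < 1 → d ∈ L2 e v) ∧
    ∀ l ∈ D, ∀ v : P k, val v (l : k) < 1 → d ∈ Tv e v (rt e l) := by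
  simp only [TT, Subgroup.mem_inf, Subgroup.mem_iInf]

/-- the standing local hypotheses over `k` for the set `D` -/
structure Nice (e : ℤ × ℤ) (D : Finset ℕ) (k : Type*) [Field k] [NumberField k] : Prop where
  pos : 0 < e.1
  two : ∀ v : P k, val v (2 : k) < 1 → Eis2 e v
  prime : ∀ l ∈ D, l.Prime
  ty : ∀ l ∈ D, ∀ v : P k, val v (l : k) < 1 → TyV e v (rt e l)

theorem Nice.mono {D D' : Finset ℕ} (h : Nice e D k) (hD : D' ⊆ D) : Nice e D' k :=
  ⟨h.pos, h.two, fun l hl => h.prime l (hD hl), fun l hl => h.ty l (hD hl)⟩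

theorem disc_ne_zero_of_pos (h : 0 < e.1) : disc e ≠ 0 := by
  unfold disc
  positivity

/-- every place above `l` is unramified of degree one -/
def Deg1 (k : Type*) [Field k] [NumberField k] (l : ℕ) : Prop :=
  ∀ v : P k, val v (l : k) < 1 → val v (l : k) = exp (-1 : ℤ) ∧ Res1 v

end Place

section Defect

variable {e : ℤ × ℤ} {k : Type*} [Field k]

/-- almost a unit at every prime, with defect `n` -/
def Dfc (n : ℕ) (d : (Cub e k)ˣ) : Prop := ∀ p, ∃ z : (Cub e k)ˣ,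
  ((d * z ^ 2 : (Cub e k)ˣ) : Cub e k) ∈ Ord p e k ∧
    (n : k) • (((d * z ^ 2)⁻¹ : (Cub e k)ˣ) : Cub e k) ∈ Ord p e k

/-- local data with defect `n` -/
def LocD (n : ℕ) (d : (Cub e k)ˣ) (z : Nat.Primes → (Cub e k)ˣ) : Prop :=
  (Set.range z).Finite ∧ ∀ p, ((d * z p ^ 2 : (Cub e k)ˣ) : Cub e k) ∈ Ord p e k ∧
    (n : k) • (((d * z p ^ 2)⁻¹ : (Cub e k)ˣ) : Cub e k) ∈ Ord p e k

/-- a nontrivial class with defect `n` which escapes the sieve by the primes of `Q` -/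
structure Esc [NumberField k] (n : ℕ) (Q : Finset ℕ) (d : (Cub e k)ˣ) : Prop where
  nsq : d ∈ nsq e k
  pos : d ∈ pos e k
  dfc : Dfc n d
  iso : Iso (d : Cub e k)
  nontriv : d ∉ SQ e k
  esc : ∀ l ∈ Q, Ty e l → d ∈ St e k l

end Defect

/-- the family of curves -/
def Fam (N : ℕ) (a b : ℤ) (e : ℤ × ℤ) : Prop :=
  0 < e.1 ∧ (N : ℤ) ^ 2 ∣ e.1 - a ∧ (N : ℤ) ^ 2 ∣ e.2 - b ∧
    ∀ p : ℕ, p.Prime → ¬ p ∣ N → ¬ (p : ℤ) ^ 2 ∣ disc e

end Pool.Agent.Lib.MP_775b3b_nt
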