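import Pool.Agent.Lib.MP_775b3b_nt.ZMix
import Pool.Agent.Lib.MP_775b3b_nt.ZLG
import Pool.Agent.Lib.MP_775b3b_nt.LGPrime

/-! Symmetric matrices of rank one modulo a prime in small boxes. -/

namespace Pool.Agent.Lib.MP_775b3b_nt

/-- pairs `i ≤ j` -/
abbrev UT := {ij : Fin 4 × Fin 4 // ij.1 ≤ ij.2}

open Classical in
/-- `MvPolynomial.schwartz_zippel_totalDegree` for the nonzero polynomial `∑ k u • X i * X j` of
total degree at most two; or directly: after choosing a variable that occurs, ... -/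
theorem card_quad_zero {p : ℕ} [Fact p.Prime] {k : UT → ZMod p} (hk : k ≠ 0) :
    (Finset.univ.filter fun v : Fin 4 → ZMod p =>
      ∑ u : UT, k u * (v u.1.1 * v u.1.2) = 0).card ≤ 2 * p ^ 3 := by
  have hp : 0 < p := (Fact.out : p.Prime).pos
  let Q : MvPolynomial (Fin 4) (ZMod p) :=
    ∑ u : UT, MvPolynomial.C (k u) * (MvPolynomial.X u.1.1 * MvPolynomial.X u.1.2)
  have hQ : Q ≠ 0 := fun h0 => hk (funext fun u => by
    have h1 := congrArg (MvPolynomial.coeff
      (Finsupp.single u.1.1 1 + Finsupp.single u.1.2 1)) h0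
    simp only [Q, MvPolynomial.coeff_sum, MvPolynomial.coeff_C_mul, MvPolynomial.X,
      MvPolynomial.monomial_mul, MvPolynomial.coeff_monomial, MvPolynomial.coeff_zero] at h1
    rw [Finset.sum_eq_single u] at h1
    · simpa using h1
    · intro w _ hw
      rw [if_neg, mul_zero]
      rw [Finsupp.single_add_single_eq_single_add_single one_ne_zero one_ne_zero]
      rintro (⟨h2, h3⟩ | ⟨-, h2, h3⟩ | ⟨h2, -⟩)
      · exact hw (Subtype.ext (Prod.ext h2 h3))
      · have h4 := w.2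
        have h5 := u.2
        exact hw (Subtype.ext (Prod.ext (by omega) (by omega)))
      · simp at h2
    · simp)
  have hd : Q.totalDegree ≤ 2 := MvPolynomial.totalDegree_finsetSum_le fun u _ =>
    (MvPolynomial.totalDegree_mul _ _).trans (by
      have := MvPolynomial.totalDegree_mul (MvPolynomial.X u.1.1 : MvPolynomial (Fin 4) (ZMod p))
        (MvPolynomial.X u.1.2)
      simpa using this)
  have h := MvPolynomial.schwartz_zippel_totalDegree hQ Finset.univ
  rw [Fintype.piFinset_univ, Finset.card_univ, ZMod.card] at h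
  have hp' : (0 : ℚ≥0) < p := by exact_mod_cast hp
  have h2 : ((Finset.univ.filter fun f : Fin 4 → ZMod p => MvPolynomial.eval f Q = 0).card : ℚ≥0) ≤
      2 * p ^ 3 := by
    rw [div_le_iff₀ (by positivity)] at h
    refine h.trans ?_
    have h4 : (Q.totalDegree : ℚ≥0) ≤ 2 := by exact_mod_cast hd
    rw [pow_succ' (p : ℚ≥0) 3, ← mul_assoc, div_mul_cancel₀ _ hp'.ne']
    gcongr
  have h3 : (Finset.univ.filter fun f : Fin 4 → ZMod p => MvPolynomial.eval f Q = 0).card ≤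
      2 * p ^ 3 := by exact_mod_cast h2
  refine le_trans (le_of_eq ?_) h3
  congr 1
  ext v
  simp [Q]

/-- `∑ t, ψ (t * c)` is `p` if `c = 0` and `0` otherwise -/
theorem char_sum_rk1 {p : ℕ} [Fact p.Prime] {k : UT → ZMod p} (hk : k ≠ 0) :
    ‖∑ i : ZMod p × (Fin 4 → ZMod p),
      ZMod.stdAddChar (∑ u : UT, k u * (i.1 * (i.2 u.1.1 * i.2 u.1.2)))‖ ≤ 2 * (p : ℝ) ^ 4 := by
  classical
  have h1 : ∀ v : Fin 4 → ZMod p, ∑ t : ZMod p,
      ZMod.stdAddChar (∑ u : UT, k u * (t * (v u.1.1 * v u.1.2))) =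
        if ∑ u : UT, k u * (v u.1.1 * v u.1.2) = 0 then (p : ℂ) else 0 := fun v => by
    have h2 := AddChar.sum_mulShift (∑ u : UT, k u * (v u.1.1 * v u.1.2))
      (ZMod.isPrimitive_stdAddChar p)
    rw [ZMod.card] at h2
    simp only [Nat.cast_ite, Nat.cast_zero] at h2
    rw [← h2]
    refine Finset.sum_congr rfl fun t _ => ?_
    rw [Finset.mul_sum]
    exact congrArg _ (Finset.sum_congr rfl fun u _ => by ring)
  rw [Fintype.sum_prod_type_right]
  simp only [h1]
  rw [← Finset.sum_filter, Finset.sum_const, nsmul_eq_mul, norm_mul, Complex.norm_natCast,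
    Complex.norm_natCast]
  have h3 : ((Finset.univ.filter fun v : Fin 4 → ZMod p =>
      ∑ u : UT, k u * (v u.1.1 * v u.1.2) = 0).card : ℝ) ≤ 2 * (p : ℝ) ^ 3 := by
    have := card_quad_zero hk
    exact_mod_cast this
  calc _ ≤ 2 * (p : ℝ) ^ 3 * p := by gcongr
    _ = _ := by ring

open Classical in
/-- `lgprime_rank` gives `X = t₀ v₀ v₀ᵀ`.  If `v₀ ≠ 0` take `(t₀ / c^2, c • v₀)`, `c ≠ 0`; if
`v₀ = 0` then `X = 0`, take `(c, 0)`. -/
theorem card_rk1_param {p : ℕ} [Fact p.Prime] {X : Matrix (Fin 4) (Fin 4) (ZMod p)} (h : Rk1 X) :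
    p - 1 ≤ (Finset.univ.filter fun i : ZMod p × (Fin 4 → ZMod p) =>
      ∀ a b, X a b = i.1 * (i.2 a * i.2 b)).card := by
  obtain ⟨v, hv⟩ := lgprime_rank (fun j k => X j k) (fun j k => h.1.apply j k) h.2
  obtain ⟨t, ht⟩ : ∃ t : ZMod p, ∀ a b, X a b = t * (v a * v b) :=
    ⟨_, fun a b => by rw [hv, lgprimeL, div_eq_inv_mul]⟩
  have hc : ((Finset.univ : Finset (ZMod p)).erase 0).card = p - 1 := by
    rw [Finset.card_erase_of_mem (Finset.mem_univ _), Finset.card_univ, ZMod.card]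
  rw [← hc]
  by_cases h0 : v = 0
  · refine Finset.card_le_card_of_injOn (fun c => (c, 0)) (fun c _ => ?_)
      fun c _ c' _ hcc => congrArg Prod.fst hcc
    simp [ht, h0]
  · obtain ⟨j, hj⟩ := Function.ne_iff.1 h0
    refine Finset.card_le_card_of_injOn (fun c => (t / c ^ 2, c • v)) (fun c hc0 => ?_)
      fun c _ c' _ hcc => mul_right_cancel₀ hj (congrFun (congrArg Prod.snd hcc) j)
    have hc1 : c ≠ 0 := by simpa using hc0
    simp only [Finset.coe_filter, Finset.mem_univ, true_and, Set.mem_ofPred_eq, Pi.smul_apply,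
      smul_eq_mul]
    intro a b
    rw [ht]
    field_simp

lemma ZEqui_inj {p : ℕ} {a b : ℤ} (ha : 0 ≤ a) (ha' : a < p) (hb : 0 ≤ b) (hb' : b < p)
    (h : (a : ZMod p) = b) : a = b := by
  rwa [ZMod.intCast_eq_intCast_iff', Int.emod_eq_of_lt ha ha', Int.emod_eq_of_lt hb hb'] at h

lemma ZEqui_card : Fintype.card UT = 10 := by decide

/-- `mixing` with `U = UT` (ten elements), `A` = image of the integer vectors with entries in
`[0, 2 L)` (injective since `2 L ≤ p`, so `card A = (2 L)^10`), `Λ = 2 p^4`.  Each `Y` gives at least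
`L^10 (p - 1)` triples `(a, b, i)` with `a - b = Y` in integers (at least `L` choices in each
coordinate), and these sets are disjoint.  `C = 2^21`. -/
theorem card_rk1_box : ∃ C : ℝ, 0 < C ∧ ∀ p : ℕ, p.Prime → ∀ L : ℕ, 1 ≤ L → 2 * L ≤ p →
    ∀ (X₀ : Matrix (Fin 4) (Fin 4) (ZMod p)) (Z : Finset (Matrix (Fin 4) (Fin 4) ℤ)),
      (∀ Y ∈ Z, Y.IsSymm ∧ (∀ i j, |Y i j| ≤ L) ∧ Rk1 (X₀ + Y.map (Int.cast : ℤ → ZMod p))) →
      (Z.card : ℝ) ≤ C * ((L : ℝ) ^ 10 / (p : ℝ) ^ 6 + (p : ℝ) ^ 3) := by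
  classical
  refine ⟨2 ^ 21, by positivity, fun p hp L hL hLp X₀ Z hZ => ?_⟩
  have := Fact.mk hp
  let A : Finset (UT → ZMod p) := (Fintype.piFinset fun _ : UT => Finset.Ico (0 : ℤ) (2 * L)).image
    fun a u => (a u : ZMod p)
  let B : Finset (UT → ℤ) := Fintype.piFinset fun _ : UT => Finset.Ico (0 : ℤ) L
  let par : Matrix (Fin 4) (Fin 4) ℤ → Finset (ZMod p × (Fin 4 → ZMod p)) := fun Y =>
    Finset.univ.filter fun i =>
      ∀ a b, (X₀ + Y.map (Int.cast : ℤ → ZMod p)) a b = i.1 * (i.2 a * i.2 b)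
  have hA : (A.card : ℝ) ≤ (2 * L) ^ 10 := by
    have h1 : A.card ≤ (2 * L) ^ 10 := Finset.card_image_le.trans (le_of_eq (by
      rw [Fintype.card_piFinset, Finset.prod_const, Finset.card_univ, ZEqui_card, Int.card_Ico]
      congr 1))
    exact_mod_cast h1
  have hB : B.card = L ^ 10 := by
    rw [Fintype.card_piFinset, Finset.prod_const, Finset.card_univ, ZEqui_card, Int.card_Ico]
    simp
  have hm := mixing (fun (i : ZMod p × (Fin 4 → ZMod p)) (u : UT) => i.1 * (i.2 u.1.1 * i.2 u.1.2))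
    (Λ := 2 * (p : ℝ) ^ 4) (by positivity) (fun k hk => char_sum_rk1 hk) A
    fun u => X₀ u.1.1 u.1.2
  have hLp' : 2 * (L : ℤ) ≤ p := by exact_mod_cast hLp
  have h1 : (((Z.sigma fun Y => B ×ˢ par Y).card : ℕ) : ℝ) ≤ _ :=
    le_trans (Nat.cast_le.2 (Finset.card_le_card_of_injOn
      (fun t => (fun u => ((t.2.1 u + max (t.1 u.1.1 u.1.2) 0 : ℤ) : ZMod p),
        fun u => ((t.2.1 u + max (-t.1 u.1.1 u.1.2) 0 : ℤ) : ZMod p), t.2.2)) (by
      rintro ⟨Y, c, i⟩ ht
      simp only [Finset.mem_coe, Finset.mem_sigma, Finset.mem_product, B, par,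
        Fintype.mem_piFinset, Finset.mem_Ico, Finset.mem_filter, Finset.mem_univ, true_and] at ht
      obtain ⟨hY, hc, hi⟩ := ht
      have hb := fun u : UT => abs_le.1 ((hZ Y hY).2.1 u.1.1 u.1.2)
      simp only [Finset.mem_coe, Finset.mem_filter, Finset.mem_product, Finset.mem_univ, and_true]
      refine ⟨⟨Finset.mem_image.2 ⟨fun u => c u + max (Y u.1.1 u.1.2) 0, ?_, rfl⟩,
        Finset.mem_image.2 ⟨fun u => c u + max (-Y u.1.1 u.1.2) 0, ?_, rfl⟩⟩, funext fun u => ?_⟩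
      · refine Fintype.mem_piFinset.2 fun u => Finset.mem_Ico.2 ?_
        have := hc u
        have := hb u
        omega
      · refine Fintype.mem_piFinset.2 fun u => Finset.mem_Ico.2 ?_
        have := hc u
        have := hb u
        omega
      · have h2 : c u + max (Y u.1.1 u.1.2) 0 - (c u + max (-Y u.1.1 u.1.2) 0) =
            Y u.1.1 u.1.2 := by omega
        rw [← hi, Pi.sub_apply, Pi.add_apply, add_sub_assoc, ← Int.cast_sub, h2]
        rfl) (by
      rintro ⟨Y, c, i⟩ ht ⟨Y', c', i'⟩ ht' he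
      simp only [Finset.mem_coe, Finset.mem_sigma, Finset.mem_product, B,
        Fintype.mem_piFinset, Finset.mem_Ico] at ht ht'
      obtain ⟨hY, hc, -⟩ := ht
      obtain ⟨hY', hc', -⟩ := ht'
      simp only [Prod.mk.injEq] at he
      obtain ⟨e1, e2, rfl⟩ := he
      have h3 : ∀ u : UT, Y u.1.1 u.1.2 = Y' u.1.1 u.1.2 ∧ c u = c' u := fun u => by
        have := hc u
        have := hc' u
        have := abs_le.1 ((hZ Y hY).2.1 u.1.1 u.1.2)
        have := abs_le.1 ((hZ Y' hY').2.1 u.1.1 u.1.2)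
        have := ZEqui_inj (by omega) (by omega) (by omega) (by omega) (congrFun e1 u)
        have := ZEqui_inj (by omega) (by omega) (by omega) (by omega) (congrFun e2 u)
        omega
      obtain rfl : c = c' := funext fun u => (h3 u).2
      obtain rfl : Y = Y' := by
        ext a b
        rcases le_total a b with hab | hab
        · exact (h3 ⟨(a, b), hab⟩).1
        · rw [← (hZ Y hY).1.apply a b, ← (hZ Y' hY').1.apply a b]
          exact (h3 ⟨(b, a), hab⟩).1
      rfl))) hm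
  have h2 : Z.card * (L ^ 10 * (p - 1)) ≤ (Z.sigma fun Y => B ×ˢ par Y).card := by
    rw [Finset.card_sigma, ← smul_eq_mul]
    refine Finset.card_nsmul_le_sum _ _ _ fun Y hY => ?_
    rw [Finset.card_product, hB]
    refine Nat.mul_le_mul_left _ ?_
    convert card_rk1_param (hZ Y hY).2.2
  have h2' : (Z.card : ℝ) * (L ^ 10 * ((p : ℝ) - 1)) ≤ (Z.sigma fun Y => B ×ˢ par Y).card := by
    have h4 : ((p - 1 : ℕ) : ℝ) = p - 1 := by rw [Nat.cast_sub hp.one_le, Nat.cast_one]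
    rw [← h4]
    exact_mod_cast h2
  have h5 := h2'.trans h1
  rw [ZEqui_card, Fintype.card_prod, Fintype.card_fun, ZMod.card, Fintype.card_fin] at h5
  push_cast at h5
  have hp2 : (2 : ℝ) ≤ p := by exact_mod_cast hp.two_le
  have hL1 : (1 : ℝ) ≤ L := by exact_mod_cast hL
  have h6 : (Z.card : ℝ) * (L ^ 10 * ((p : ℝ) / 2)) ≤
      ((2 * L) ^ 10) ^ 2 * (p * p ^ 4) / p ^ 10 + 2 * p ^ 4 * (2 * L) ^ 10 := by
    refine le_trans ?_ (h5.trans ?_)
    · gcongr
      linarith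
    · gcongr
  have h7 : (0 : ℝ) < L ^ 10 * ((p : ℝ) / 2) := by positivity
  refine le_of_mul_le_mul_right (h6.trans ?_) h7
  have h8 : ((2 * (L : ℝ)) ^ 10) ^ 2 * (p * p ^ 4) / p ^ 10 =
      2 ^ 21 * ((L : ℝ) ^ 10 / (p : ℝ) ^ 6) * (L ^ 10 * ((p : ℝ) / 2)) := by
    field_simp
  have h9 : 2 * (p : ℝ) ^ 4 * (2 * L) ^ 10 = 2 ^ 12 * (p : ℝ) ^ 3 * (L ^ 10 * ((p : ℝ) / 2)) := by
    ring
  rw [h8, h9, mul_add, add_mul]
  gcongr
  · norm_num
  · norm_num

end Pool.Agent.Lib.MP_775b3b_nt
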