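import Pool.Agent.Lib.MP_775b3b_nt.ZFF2

/-! Irreducible quartics come from nontrivial classes. -/

namespace Pool.Agent.Lib.MP_775b3b_nt

open Cub

variable {e : ℤ × ℤ} {κ : Type*} [Field κ]

theorem zff4_qpoly_smul (a : κ) (c : Fin 5 → κ) :
    qpoly (a • c) = Polynomial.C a * qpoly c := by
  simp only [qpoly, Pi.smul_apply, smul_eq_mul, map_mul]
  ring

theorem zff4_natDegree {c : Fin 5 → κ} (h : c 0 ≠ 0) : (qpoly c).natDegree = 4 := by
  unfold qpoly
  compute_degree!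

theorem zff4_natDegree2 {a0 : κ} (h : a0 ≠ 0) (a1 a2 : κ) :
    (Polynomial.C a0 * Polynomial.X ^ 2 + Polynomial.C a1 * Polynomial.X +
      Polynomial.C a2).natDegree = 2 := by
  compute_degree!

theorem Irr4.smul {c : Fin 5 → κ} (h : Irr4 c) {a : κ} (ha : a ≠ 0) : Irr4 (a • c) := by
  refine ⟨mul_ne_zero ha h.1, ?_⟩
  rw [zff4_qpoly_smul]
  exact (irreducible_isUnit_mul (Polynomial.isUnit_C.2 (IsUnit.mk0 a ha))).2 h.2

theorem IrrV.smul {y : Fin 5 → κ} (h : IrrV y) {a : κ} (ha : a ≠ 0) : IrrV (a • y) := by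
  obtain ⟨c, hc, hy⟩ := h
  refine ⟨a • c, hc.smul ha, fun m => ?_⟩
  simp only [Pi.smul_apply, smul_eq_mul, hy m, qev]
  ring

/-- `y = 0` gives `c 0 x^4 = 0`; otherwise `x / y` is a root of an irreducible polynomial of
degree four -/
theorem Irr4.no_root {c : Fin 5 → κ} (h : Irr4 c) {x y : κ} (h0 : qev c x y = 0) :
    x = 0 ∧ y = 0 := by
  by_cases hy : y = 0
  · subst hy
    refine ⟨?_, rfl⟩
    have h1 : c 0 * x ^ 4 = 0 := by
      rw [← h0, qev]
      ring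
    exact pow_eq_zero_iff (by norm_num) |>.1 ((mul_eq_zero.1 h1).resolve_left h.1)
  · exfalso
    have h1 : (qpoly c).IsRoot (x / y) := by
      rw [Polynomial.IsRoot.def]
      simp only [qpoly, Polynomial.eval_add, Polynomial.eval_mul, Polynomial.eval_C,
        Polynomial.eval_pow, Polynomial.eval_X]
      rw [qev] at h0
      field_simp
      linear_combination h0
    have h2 := Polynomial.natDegree_eq_of_degree_eq_some
      (Polynomial.degree_eq_one_of_irreducible_of_root h.2 h1)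
    rw [zff4_natDegree h.1] at h2
    norm_num at h2

/-- `qpoly c` would be a product of two polynomials of degree two (`a0 b0 = c 0 ≠ 0`) -/
theorem Irr4.no_fac (a0 a1 a2 b0 b1 b2 : κ) :
    ¬ Irr4 ![a0 * b0, a0 * b1 + a1 * b0, a0 * b2 + a1 * b1 + a2 * b0, a1 * b2 + a2 * b1,
      a2 * b2] := by
  rintro ⟨h0, h⟩
  have h1 : a0 * b0 ≠ 0 := h0
  have h2 : qpoly ![a0 * b0, a0 * b1 + a1 * b0, a0 * b2 + a1 * b1 + a2 * b0, a1 * b2 + a2 * b1,
      a2 * b2] = (Polynomial.C a0 * Polynomial.X ^ 2 + Polynomial.C a1 * Polynomial.X +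
      Polynomial.C a2) * (Polynomial.C b0 * Polynomial.X ^ 2 + Polynomial.C b1 * Polynomial.X +
      Polynomial.C b2) := by
    change Polynomial.C (a0 * b0) * Polynomial.X ^ 4 +
      Polynomial.C (a0 * b1 + a1 * b0) * Polynomial.X ^ 3 +
      Polynomial.C (a0 * b2 + a1 * b1 + a2 * b0) * Polynomial.X ^ 2 +
      Polynomial.C (a1 * b2 + a2 * b1) * Polynomial.X + Polynomial.C (a2 * b2) = _
    simp only [map_add, map_mul]
    ring
  rcases h.isUnit_or_isUnit h2 with h3 | h3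
  · have h4 := Polynomial.natDegree_eq_zero_of_isUnit h3
    rw [zff4_natDegree2 (left_ne_zero_of_mul h1)] at h4
    norm_num at h4
  · have h4 := Polynomial.natDegree_eq_zero_of_isUnit h3
    rw [zff4_natDegree2 (right_ne_zero_of_mul h1)] at h4
    norm_num at h4

/-- interpolation at the five points -/
theorem qev_inj (h6 : (6 : κ) ≠ 0) {c c' : Fin 5 → κ}
    (h : ∀ m, qev c ((pt5 m).1 : κ) ((pt5 m).2 : κ) = qev c' ((pt5 m).1 : κ) ((pt5 m).2 : κ)) :
    c = c' := by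
  have e0 := h 0
  have e1 := h 1
  have e2 := h 2
  have e3 := h 3
  have e4 := h 4
  have p0 : pt5 0 = (1, 0) := rfl
  have p1 : pt5 1 = (0, 1) := rfl
  have p2 : pt5 2 = (1, 1) := rfl
  have p3 : pt5 3 = (1, -1) := rfl
  have p4 : pt5 4 = (1, 2) := rfl
  rw [p0] at e0
  rw [p1] at e1
  rw [p2] at e2
  rw [p3] at e3
  rw [p4] at e4
  simp only [qev, Int.cast_one, Int.cast_zero, Int.cast_neg, Int.cast_ofNat] at e0 e1 e2 e3 e4
  have d0 : c 0 = c' 0 := by linear_combination e0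
  have d4 : c 4 = c' 4 := by linear_combination e1
  have d1 : c 1 = c' 1 := mul_left_cancel₀ h6 (by
    linear_combination 6 * e2 - 2 * e3 - e4 - 3 * d0 + 12 * d4)
  have d2 : c 2 = c' 2 := mul_left_cancel₀ h6 (by
    linear_combination 3 * e2 + 3 * e3 - 6 * d0 - 6 * d4)
  have d3 : c 3 = c' 3 := by linear_combination e2 - d0 - d1 - d2 - d4
  funext i
  fin_cases i
  · exact d0
  · exact d1
  · exact d2
  · exact d3
  · exact d4

/-- the coefficients of the quartic in terms of the five values of the second form -/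
def qc {R : Type*} [CommRing R] (n : Fin 5 → R) : Fin 5 → R :=
  ![n 0, 4 * n 1, 6 * n 2, -(8 * n 3), 4 * n 4]

/-- `Hyp.quart_eq` without the assumption on the characteristic (`Hyp.trace`) -/
theorem Hyp.quart_qev {u w0 w1 w2 : Cub e κ} {ν : κ} (H : Hyp u ν w0 w1 w2) (x y : κ) :
    quart u w0 w1 w2 x y =
      qev (qc ![Gv u w0 w0, Gv u w0 w1, Gv u w1 w1, Gv u w1 w2, Gv u w2 w2]) x y := by
  have h1 := H.trace
  change _ = Gv u w0 w0 * x ^ 4 + 4 * Gv u w0 w1 * x ^ 3 * y + 6 * Gv u w1 w1 * x ^ 2 * y ^ 2 +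
    -(8 * Gv u w1 w2) * x * y ^ 3 + 4 * Gv u w2 w2 * y ^ 4
  simp only [quart, Vq, Gv_eq_Bf, Bf_sub_left, Bf_sub_right, Bf_add_left, Bf_add_right,
    Bf_smul_left, Bf_smul_right, Bf_comm _ w1 w0, Bf_comm _ w2 w0, Bf_comm _ w2 w1] at h1 ⊢
  linear_combination (-2 * x ^ 2 * y ^ 2) * h1

theorem zff4_iso {u w0 w1 w2 : Cub e κ} {ν : κ} (H : Hyp u ν w0 w1 w2) (x y : κ) :
    Bf u (Vq w0 w1 w2 x y) (Vq w0 w1 w2 x y) = 0 := by
  simp only [Vq, Bf_sub_left, Bf_sub_right, Bf_add_left, Bf_add_right, Bf_smul_left,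
    Bf_smul_right, Bf_comm u w1 w0, Bf_comm u w2 w0, Bf_comm u w2 w1, H.h00, H.h01, H.h02, H.h11,
    H.h12, H.h22]
  ring

/-- first coordinate modulo `τ` -/
def zff4_a (r : κ) (x : Cub e κ) : κ := x.c0 - (r ^ 2 + (e.1 : κ)) * x.c2

/-- second coordinate modulo `τ` -/
def zff4_b (r : κ) (x : Cub e κ) : κ := x.c1 - r * x.c2

theorem zff4_form {r : κ} (hr : fv e r = 0) (u V : Cub e κ) :
    Gv u V V - r * Bf u V V = zff4_b r u * zff4_a r V ^ 2 +
      2 * (zff4_a r u - r * zff4_b r u) * zff4_a r V * zff4_b r V +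
      (-(r * zff4_a r u) - (e.1 : κ) * zff4_b r u) * zff4_b r V ^ 2 := by
  have hB : (e.2 : κ) = -(r ^ 3) - (e.1 : κ) * r := by
    rw [fv] at hr
    linear_combination hr
  simp only [Gv, Bf, zff4_a, zff4_b, mul_c0, mul_c1, mul_c2, th_c0, th_c1, th_c2, hB]
  ring

theorem zff4_fac (h6 : (6 : κ) ≠ 0) {c : Fin 5 → κ} (h : Irr4 c) {w0 w1 w2 : Cub e κ}
    (r p q p' q' : κ)
    (hQ : ∀ x y, qev c x y =
      (p * zff4_a r (Vq w0 w1 w2 x y) + q * zff4_b r (Vq w0 w1 w2 x y)) *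
        (p' * zff4_a r (Vq w0 w1 w2 x y) + q' * zff4_b r (Vq w0 w1 w2 x y))) : False := by
  refine Irr4.no_fac (p * zff4_a r w0 + q * zff4_b r w0) (2 * (p * zff4_a r w1 + q * zff4_b r w1))
    (-2 * (p * zff4_a r w2 + q * zff4_b r w2)) (p' * zff4_a r w0 + q' * zff4_b r w0)
    (2 * (p' * zff4_a r w1 + q' * zff4_b r w1)) (-2 * (p' * zff4_a r w2 + q' * zff4_b r w2)) ?_
  convert h using 1
  refine qev_inj h6 fun m => ?_
  rw [hQ]
  generalize ((pt5 m).1 : κ) = x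
  generalize ((pt5 m).2 : κ) = y
  have ha : zff4_a r (Vq w0 w1 w2 x y) =
      x ^ 2 * zff4_a r w0 + 2 * x * y * zff4_a r w1 - 2 * y ^ 2 * zff4_a r w2 := by
    simp only [zff4_a, Vq, sub_c0, sub_c2, add_c0, add_c2, smul_c0, smul_c2, smul_eq_mul]
    ring
  have hb : zff4_b r (Vq w0 w1 w2 x y) =
      x ^ 2 * zff4_b r w0 + 2 * x * y * zff4_b r w1 - 2 * y ^ 2 * zff4_b r w2 := by
    simp only [zff4_b, Vq, sub_c1, sub_c2, add_c1, add_c2, smul_c1, smul_c2, smul_eq_mul]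
    ring
  rw [ha, hb]
  simp only [qev, Matrix.cons_val_zero, Matrix.cons_val_one, Matrix.cons_val]
  ring

theorem zff4_one (h6 : (6 : κ) ≠ 0) {u w0 w1 w2 : Cub e κ} {ν : κ} (H : Hyp u ν w0 w1 w2)
    {c : Fin 5 → κ} (h : Irr4 c) (hQ : ∀ x y, quart u w0 w1 w2 x y = qev c x y) {r : κ}
    (hr : fv e r = 0) : ¬ IsSquare (evr r u) := by
  rintro ⟨s, hs⟩
  have h1 := nm_eq_evr_mul hr u
  rw [H.nu, hs] at h1
  have hs0 : s ≠ 0 := by
    rintro rfl
    exact pow_ne_zero 2 H.nu0 (by rw [h1]; ring)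
  have hm : zff4_a r u ^ 2 - r * zff4_a r u * zff4_b r u +
      (r ^ 2 + (e.1 : κ)) * zff4_b r u ^ 2 = (ν / s) ^ 2 := by
    change n2 r u = _
    field_simp
    linear_combination -h1
  generalize ν / s = m at hm
  have hF : ∀ x y, qev c x y = zff4_b r u * zff4_a r (Vq w0 w1 w2 x y) ^ 2 +
      2 * (zff4_a r u - r * zff4_b r u) * zff4_a r (Vq w0 w1 w2 x y) *
        zff4_b r (Vq w0 w1 w2 x y) +
      (-(r * zff4_a r u) - (e.1 : κ) * zff4_b r u) * zff4_b r (Vq w0 w1 w2 x y) ^ 2 := by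
    intro x y
    rw [← zff4_form hr, zff4_iso H, mul_zero, sub_zero, ← hQ, quart]
  by_cases hβ : zff4_b r u = 0
  · refine zff4_fac h6 h (w0 := w0) (w1 := w1) (w2 := w2) r 0 1 (2 * zff4_a r u)
      (-(r * zff4_a r u)) fun x y => ?_
    rw [hF, hβ]
    ring
  · refine zff4_fac h6 h (w0 := w0) (w1 := w1) (w2 := w2) r 1
      ((zff4_a r u - r * zff4_b r u + m) / zff4_b r u) (zff4_b r u)
      (zff4_a r u - r * zff4_b r u - m) fun x y => ?_
    rw [hF]
    generalize zff4_a r (Vq w0 w1 w2 x y) = ξ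
    generalize zff4_b r (Vq w0 w1 w2 x y) = η
    field_simp
    linear_combination (-η ^ 2) * hm

theorem zff4_two (h2 : (2 : κ) ≠ 0) {u w0 w1 w2 : Cub e κ} {ν : κ} (H : Hyp u ν w0 w1 w2)
    {c : Fin 5 → κ} (h : Irr4 c) (hQ : ∀ x y, quart u w0 w1 w2 x y = qev c x y) :
    ¬ IsSquare u := by
  rintro ⟨s, hs⟩
  have h1 : IsUnit s := by
    rw [isUnit_iff]
    intro h0
    refine pow_ne_zero 2 H.nu0 ?_
    rw [← H.nu, hs, nm_mul, h0, zero_mul]
  obtain ⟨z, hz⟩ := h1.exists_right_inv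
  have h3 : u * z * z = 1 := by
    rw [hs]
    calc s * s * z * z = (s * z) * (s * z) := by ring
      _ = 1 := by rw [hz, one_mul]
  have hB : Bf u z z = 0 := by rw [Bf, h3, one_c2]
  have hG : Gv u z z = 0 := by
    rw [Gv, show u * th * z * z = u * z * z * th by ring, h3, one_mul, th_c2]
  have hG' : ∀ a : κ, Gv u (a • z) (a • z) = 0 := fun a => by
    rw [Gv_eq_Bf, Bf_smul_left, Bf_smul_right, ← Gv_eq_Bf, hG, mul_zero, mul_zero]
  obtain ⟨a, b, d, hx⟩ : ∃ a b d : κ, z = a • w0 + b • w1 + d • w2 := ⟨_, _, _, H.expand z⟩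
  have h4 : 2 * a * d + b ^ 2 = 0 := by
    rw [hx] at hB
    simp only [Bf_add_left, Bf_add_right, Bf_smul_left, Bf_smul_right, Bf_comm u w1 w0,
      Bf_comm u w2 w0, Bf_comm u w2 w1, H.h00, H.h01, H.h02, H.h11, H.h12, H.h22] at hB
    linear_combination hB
  by_cases ha : a = 0
  · have hb : b = 0 := by
      rw [ha] at h4
      exact pow_eq_zero_iff (two_ne_zero) |>.1 (by linear_combination h4)
    have hd : d ≠ 0 := by
      rintro rfl
      rw [ha, hb, zero_smul, zero_smul, zero_smul, add_zero, add_zero] at hx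
      rw [hx, mul_zero] at h3
      exact zero_ne_one (congrArg Cub.c0 h3)
    have h5 : Vq w0 w1 w2 0 1 = (-2 / d) • z := by
      rw [hx, ha, hb, Vq]
      ext <;> simp <;> field_simp
    have h6 := hQ 0 1
    rw [quart, h5, hG'] at h6
    exact one_ne_zero (h.no_root h6.symm).2
  · have h5 : Vq w0 w1 w2 a (b / 2) = a • z := by
      have h7 : 2 * (b / 2) ^ 2 = -(a * d) := by
        field_simp
        linear_combination h4
      have h8 : 2 * a * (b / 2) = a * b := by field_simp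
      rw [hx, Vq, h7, h8]
      ext <;> simp <;> ring
    have h6 := hQ a (b / 2)
    rw [quart, h5, hG'] at h6
    exact ha (h.no_root h6.symm).1

theorem zff4_roots (h2 : (2 : κ) ≠ 0) {r : κ} (hr : fv e r = 0)
    (hd : IsSquare (-(disc e : κ))) : ∃ ρ : Fin 3 → κ, Roots e ρ := by
  obtain ⟨r', h'⟩ : ∃ r' : κ, r' ^ 2 + r * r' + r ^ 2 + (e.1 : κ) = 0 := by
    by_cases h0 : 3 * r ^ 2 + (e.1 : κ) = 0
    · exact ⟨r, by linear_combination h0⟩
    · obtain ⟨t, ht⟩ := hd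
      rw [neg_disc_eq hr] at ht
      refine ⟨(t / (3 * r ^ 2 + (e.1 : κ)) - r) / 2, ?_⟩
      have h3 : (t / (3 * r ^ 2 + (e.1 : κ))) ^ 2 = -(3 * r ^ 2) - 4 * (e.1 : κ) := by
        rw [div_pow, div_eq_iff (pow_ne_zero 2 h0)]
        linear_combination -ht
      generalize t / (3 * r ^ 2 + (e.1 : κ)) = w at h3
      field_simp
      linear_combination h3
  rw [fv] at hr
  refine ⟨![r, r', -r - r'], ?_, ?_, ?_⟩
  · change r + r' + (-r - r') = 0
    ring
  · change r * r' + r * (-r - r') + r' * (-r - r') = (e.1 : κ)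
    linear_combination -h'
  · change r * r' * (-r - r') = -(e.2 : κ)
    linear_combination hr - r * h'

/-- Write `Q x y = quart u w0 w1 w2 x y = qev c x y` for all `x y` with `Irr4 c` (`quart_qev`,
`qev_inj`), `V = Vq w0 w1 w2 x y`, `Bf u V V = 0` (`Hyp.h01`, `h12`, `h11`).
(1) Let `r` be a root.  `Q x y = Gv u V V - r Bf u V V = β ξ^2 + 2 (α - r β) ξ η + γ η^2` where
`α = u0 - (r^2 + A) u2`, `β = u1 - r u2`, `γ = -r α - (r^2 + A) β + r^2 β`,
`ξ = V0 - (r^2 + A) V2`, `η = V1 - r V2`, and `(α - r β)^2 - β γ = n2 r u`.  If `evr r u` is a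
square so is `n2 r u = m^2` (`nm u = ν^2 ≠ 0`), and the form factors: for `β ≠ 0` it is
`β⁻¹ (β ξ + (α - r β + m) η) (β ξ + (α - r β - m) η)`, for `β = 0` it is `η (2 α ξ + γ η)`.
`ξ, η` are quadratic forms in `x, y`; `qev_inj` and `Irr4.no_fac` give a contradiction.
(2) If there is no root, `u = s^2` (`ff_noroot_sq`), `x = s⁻¹` has `Bf u x x = 0 = Gv u x x`;
`Hyp.expand`: `x = a w0 + b w1 + c w2`, `2 a c + b^2 = 0`; if `a ≠ 0`, `Vq a (b / 2) = a • x`,
otherwise `b = 0`, `c ≠ 0`, `c • Vq 0 1 = -2 • x`; contradiction with `Irr4.no_root`.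
(3) If `-disc` is a square, with `neg_disc_eq`: either `3 r^2 + A = 0` and `r' = r` is a root of
`τ`, or `-3 r^2 - 4 A = t^2` and `r' = (t - r) / 2` is.  Then `Roots e ![r, r', -r - r']`,
`Roots.nm_eq`: `ν^2` is a product of three nonsquares (`isSquare_mul_of_not`). -/
theorem ff4 [Finite κ] (h6 : (6 : κ) ≠ 0) {u w0 w1 w2 : Cub e κ} {ν : κ} (H : Hyp u ν w0 w1 w2)
    (hI : IrrV fun m => quart u w0 w1 w2 ((pt5 m).1 : κ) ((pt5 m).2 : κ)) :
    (∃ r : κ, fv e r = 0) ∧ ¬ IsSquare (-(disc e : κ)) ∧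
      ∀ r : κ, fv e r = 0 → ¬ IsSquare (evr r u) := by
  have h2 : (2 : κ) ≠ 0 := fun h => h6 (by linear_combination 3 * h)
  obtain ⟨c, hc, hy⟩ := hI
  have hQ : ∀ x y, quart u w0 w1 w2 x y = qev c x y := by
    intro x y
    have h3 : qc ![Gv u w0 w0, Gv u w0 w1, Gv u w1 w1, Gv u w1 w2, Gv u w2 w2] = c :=
      qev_inj h6 fun m => (H.quart_qev _ _).symm.trans (hy m)
    rw [H.quart_qev, h3]
  have hex : ∃ r : κ, fv e r = 0 := by
    by_contra hne
    exact zff4_two h2 H hc hQ (ff_noroot_sq h2 (fun r hr => hne ⟨r, hr⟩) ⟨ν, by rw [H.nu, sq]⟩)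
  refine ⟨hex, fun hd => ?_, fun r hr => zff4_one h6 H hc hQ hr⟩
  obtain ⟨r, hr⟩ := hex
  obtain ⟨ρ, hρ⟩ := zff4_roots h2 hr hd
  have hn : ∀ i, ¬ IsSquare (evr (ρ i) u) := fun i => zff4_one h6 H hc hQ (hρ.root i)
  have h1 : ν ^ 2 = evr (ρ 0) u * evr (ρ 1) u * evr (ρ 2) u := by
    rw [← H.nu]
    exact hρ.nm_eq u
  obtain ⟨t, ht⟩ := isSquare_mul_of_not (hn 0) (hn 1)
  rw [ht] at h1
  have ht0 : t ≠ 0 := by
    rintro rfl
    exact pow_ne_zero 2 H.nu0 (by rw [h1]; ring)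
  refine hn 2 ⟨ν / t, ?_⟩
  field_simp
  linear_combination -h1

end Pool.Agent.Lib.MP_775b3b_nt
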