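import Pool.Agent.Lib.MP_775b3b_nt.ZEis
import Pool.Agent.Lib.MP_775b3b_nt.ZTy0

/-! The residue class of the family. -/

namespace Pool.Agent.Lib.MP_775b3b_nt

open Cub MP_439fea_co WithZero

variable (K : Type) [Field K] [NumberField K] [IsGalois ℚ K]

/-- All places above `p` are conjugate (`exists_smul_eq_of_prime`, `val_smul`).  If
`val v p ≤ exp (-2)` then `v^2 ∣ (p)` (`Val_le_iff_mem`), so `absNorm v ^ 2 ∣ p^3`
(`Ideal.absNorm_span_singleton`, `Algebra.norm_algebraMap`), `absNorm v = p`; `res1_of_absNorm`. -/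
theorem cubic_dichotomy (h3 : Module.finrank ℚ K = 3) {p : ℕ} (hp : p.Prime) :
    (∀ v : P K, val v (p : K) < 1 → val v (p : K) = exp (-1 : ℤ)) ∨
      ∀ v : P K, val v (p : K) < 1 → Res1 v := by
  by_cases h : ∀ v : P K, val v (p : K) < 1 → val v (p : K) = exp (-1 : ℤ)
  · exact Or.inl h
  refine Or.inr fun v hv => res1_of_absNorm ?_
  push Not at h
  obtain ⟨v0, h0, h1⟩ := h
  obtain ⟨g, rfl⟩ := exists_smul_eq_of_prime hp h0 hv
  have h2 : val (g • v0) (p : K) = val v0 (p : K) := by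
    rw [← val_smul g v0 (p : K)]
    congr 1
    exact (map_natCast g p).symm
  generalize g • v0 = v at hv h2
  rw [← h2] at h1
  have hp0 : (p : K) ≠ 0 := Nat.cast_ne_zero.2 hp.ne_zero
  have h4 : val v ((p : NumberField.RingOfIntegers K) : K) ≤ exp (-((2 : ℕ) : ℤ)) := by
    rw [show ((p : NumberField.RingOfIntegers K) : K) = (p : K) from map_natCast (algebraMap _ K) p]
    rw [val_eq_exp v hp0] at hv h1 ⊢
    rw [← exp_zero, exp_lt_exp] at hv
    rw [exp_le_exp]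
    have h5 : -ord v (p : K) ≠ -1 := fun h => h1 (by rw [h])
    omega
  rw [Val_le_iff_mem, ← Ideal.span_singleton_le_iff_mem] at h4
  have h5 := Ideal.absNorm_dvd_absNorm_of_le h4
  rw [map_pow, Ideal.absNorm_span_singleton,
    show (p : NumberField.RingOfIntegers K) = algebraMap ℤ _ (p : ℤ) by simp,
    Algebra.norm_algebraMap, NumberField.RingOfIntegers.rank, h3, Int.natAbs_pow,
    Int.natAbs_natCast] at h5
  obtain ⟨i, -, hi⟩ := (Nat.dvd_prime_pow hp).1 ((dvd_pow_self _ two_ne_zero).trans h5)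
  have h6 : i ≠ 0 := by
    rintro rfl
    rw [pow_zero, Ideal.absNorm_eq_one_iff] at hi
    exact v.isPrime.ne_top hi
  rw [hi, ← pow_mul, Nat.pow_dvd_pow_iff_le_right hp.one_lt] at h5
  rw [hi, show i = 1 by omega, pow_one]
  exact hp

/-- first case `(a, b) = (0, p)` (`eis_of`, `Eis.auto`); second case `a = -1` and `b` outside the
image of `x ↦ x - x^3` on `ZMod p` (not injective since `0, 1 ↦ 0`, so not surjective and `b ≠ 0`),
`auto_of_noroot` -/
theorem exists_class_prime (h3 : Module.finrank ℚ K = 3) {p : ℕ} (hp : p.Prime) :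
    ∃ a b : ℤ, ∀ e : ℤ × ℤ, (p : ℤ) ^ 2 ∣ e.1 - a → (p : ℤ) ^ 2 ∣ e.2 - b →
      ¬ (p : ℤ) ^ 2 ∣ e.2 ∧ ∀ v : P K, val v (p : K) < 1 → Auto e v := by
  have hd : (p : ℤ) ∣ (p : ℤ) ^ 2 := dvd_pow_self _ two_ne_zero
  rcases cubic_dichotomy K h3 hp with h | h
  · refine ⟨0, p, fun e hA hB => ⟨fun h1 => ?_, fun v hv =>
      (eis_of hp (h v hv) (hd.trans (by simpa using hA)) hB).auto⟩⟩
    have h2 : (p : ℤ) ^ 2 ∣ (p : ℤ) := by simpa using dvd_sub h1 hB
    have h4 := Int.le_of_dvd (by exact_mod_cast hp.pos) h2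
    have h5 : (2 : ℤ) ≤ p := by exact_mod_cast hp.two_le
    nlinarith
  · have : Fact p.Prime := ⟨hp⟩
    have hn : ¬ Function.Surjective fun x : ZMod p => x - x ^ 3 := by
      intro hs
      have h1 := Finite.injective_iff_surjective.2 hs (a₁ := 0) (a₂ := 1) (by simp)
      exact zero_ne_one h1
    obtain ⟨b, hb⟩ := not_forall.1 hn
    obtain ⟨b, rfl⟩ := ZMod.intCast_surjective b
    refine ⟨-1, b, fun e hA hB => ?_⟩
    have h1 : (e.1 : ZMod p) = -1 := by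
      have := (ZMod.intCast_zmod_eq_zero_iff_dvd _ p).2 (hd.trans hA)
      push_cast at this
      exact sub_eq_zero.1 this
    have h2 : (e.2 : ZMod p) = b := by
      have := (ZMod.intCast_zmod_eq_zero_iff_dvd _ p).2 (hd.trans hB)
      push_cast at this
      exact sub_eq_zero.1 this
    refine ⟨fun h4 => hb ⟨0, ?_⟩, fun v hv => auto_of_noroot hp hv (h v hv) fun r hr => hb ⟨r, ?_⟩⟩
    · rw [← h2, (ZMod.intCast_zmod_eq_zero_iff_dvd _ p).2 (hd.trans h4)]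
      simp
    · rw [fv, h1, h2] at hr
      linear_combination -hr

theorem zfam_crt (f : ℕ → ℤ) (s : Finset ℕ) (hs : ∀ p ∈ s, p.Prime) :
    ∃ a : ℤ, ∀ p ∈ s, (p : ℤ) ^ 2 ∣ a - f p := by
  induction s using Finset.induction_on with
  | empty => exact ⟨0, by simp⟩
  | insert q s hq ih =>
    obtain ⟨a, ha⟩ := ih fun p hp => hs p (Finset.mem_insert_of_mem hp)
    have hc : IsCoprime (∏ p ∈ s, (p : ℤ) ^ 2) ((q : ℤ) ^ 2) := by
      refine IsCoprime.prod_left fun p hp => IsCoprime.pow ?_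
      rw [Nat.isCoprime_iff_coprime, Nat.coprime_primes (hs p (Finset.mem_insert_of_mem hp))
        (hs q (Finset.mem_insert_self _ _))]
      rintro rfl
      exact hq hp
    obtain ⟨u, w, huw⟩ := hc
    refine ⟨a + (∏ p ∈ s, (p : ℤ) ^ 2) * (u * (f q - a)), fun p hp => ?_⟩
    rcases Finset.mem_insert.1 hp with rfl | hp
    · exact ⟨w * (a - f p), by linear_combination (f p - a) * huw⟩
    · rw [add_sub_right_comm]
      exact dvd_add (ha p hp) ((Finset.dvd_prod_of_mem (fun p : ℕ => (p : ℤ) ^ 2) hp).mul_right _)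

/-- Chinese remainder theorem over `N.primeFactors` with moduli `p^2`; for `p = 2` the class
`(0, 2)` (`eis2_of`) -/
theorem exists_class (h3 : Module.finrank ℚ K = 3)
    (h2 : ∀ v : P K, val v (2 : K) < 1 → val v (2 : K) = exp (-1 : ℤ)) {N : ℕ} (hN : N ≠ 0)
    (h2N : 2 ∣ N) : ∃ a b : ℤ, ∀ e : ℤ × ℤ, (N : ℤ) ^ 2 ∣ e.1 - a → (N : ℤ) ^ 2 ∣ e.2 - b →
      4 ∣ e.1 ∧ 4 ∣ e.2 - 2 ∧ ∀ p : ℕ, p.Prime → p ∣ N →
        ¬ (p : ℤ) ^ 2 ∣ e.2 ∧ ∀ v : P K, val v (p : K) < 1 → Auto e v := by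
  have key : ∀ p : ℕ, ∃ a b : ℤ, p.Prime → ∀ e : ℤ × ℤ, (p : ℤ) ^ 2 ∣ e.1 - a →
      (p : ℤ) ^ 2 ∣ e.2 - b → (p = 2 → 4 ∣ e.1 ∧ 4 ∣ e.2 - 2) ∧
        ¬ (p : ℤ) ^ 2 ∣ e.2 ∧ ∀ v : P K, val v (p : K) < 1 → Auto e v := by
    intro p
    by_cases hp : p.Prime
    · by_cases hp2 : p = 2
      · subst hp2
        refine ⟨0, 2, fun _ e hA hB => ?_⟩
        have hA' : (4 : ℤ) ∣ e.1 := by simpa using hA
        have hB' : (4 : ℤ) ∣ e.2 - 2 := by simpa using hB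
        refine ⟨fun _ => ⟨hA', hB'⟩, ?_, fun v hv =>
          (eis2_of (h2 v (by simpa using hv)) hA' hB').eis.auto⟩
        norm_num
        omega
      · obtain ⟨a, b, h⟩ := exists_class_prime K h3 hp
        exact ⟨a, b, fun _ e hA hB => ⟨fun h => absurd h hp2, h e hA hB⟩⟩
    · exact ⟨0, 0, fun h => absurd h hp⟩
  choose f g hfg using key
  obtain ⟨a, ha⟩ := zfam_crt f N.primeFactors fun p hp => Nat.prime_of_mem_primeFactors hp
  obtain ⟨b, hb⟩ := zfam_crt g N.primeFactors fun p hp => Nat.prime_of_mem_primeFactors hp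
  refine ⟨a, b, fun e hA hB => ?_⟩
  have h : ∀ p : ℕ, p.Prime → p ∣ N → (p = 2 → 4 ∣ e.1 ∧ 4 ∣ e.2 - 2) ∧
      ¬ (p : ℤ) ^ 2 ∣ e.2 ∧ ∀ v : P K, val v (p : K) < 1 → Auto e v := by
    intro p hp hpN
    have hm : p ∈ N.primeFactors := Nat.mem_primeFactors.2 ⟨hp, hpN, hN⟩
    have hd : (p : ℤ) ^ 2 ∣ (N : ℤ) ^ 2 := pow_dvd_pow_of_dvd (Int.natCast_dvd_natCast.2 hpN) 2
    refine hfg p hp e ?_ ?_
    · simpa using dvd_add (hd.trans hA) (ha p hm)
    · simpa using dvd_add (hd.trans hB) (hb p hm)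
  obtain ⟨h4, h5⟩ := (h 2 Nat.prime_two h2N).1 rfl
  exact ⟨h4, h5, fun p hp hpN => (h p hp hpN).2⟩

end Pool.Agent.Lib.MP_775b3b_nt
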