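import Pool.Agent.Lib.MP_775b3b_nt.ZLG
import Pool.Agent.Lib.MP_775b3b_nt.ZQSieve

/-! Many pencils have irreducible determinant. -/

namespace Pool.Agent.Lib.MP_775b3b_nt

open Matrix

variable {κ : Type*} [Field κ]

/-- normal form -/
def nfS (p r t s : κ) : Matrix (Fin 4) (Fin 4) κ :=
  !![0, 0, -1, 0; 0, -1, -p, 0; -1, -p, r, t; 0, 0, t, s]

/-- `det_eq_d4` -/
theorem det_nfS (p r t s x y : κ) :
    (x • J4 κ + y • nfS p r t s).det = qev ![1, 2 * p, p ^ 2 + r, 2 * t, s] x y := by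
  rw [det_eq_d4]
  simp [d4, J4, nfS, qev]
  ring

/-- Kronecker product, index `2 y + z` -/
def k2 (g h : Matrix (Fin 2) (Fin 2) κ) : Matrix (Fin 4) (Fin 4) κ :=
  !![g 0 0 * h 0 0, g 0 0 * h 0 1, g 0 1 * h 0 0, g 0 1 * h 0 1;
     g 0 0 * h 1 0, g 0 0 * h 1 1, g 0 1 * h 1 0, g 0 1 * h 1 1;
     g 1 0 * h 0 0, g 1 0 * h 0 1, g 1 1 * h 0 0, g 1 1 * h 0 1;
     g 1 0 * h 1 0, g 1 0 * h 1 1, g 1 1 * h 1 0, g 1 1 * h 1 1]

theorem k2_mul (g h g' h' : Matrix (Fin 2) (Fin 2) κ) :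
    k2 (g * g') (h * h') = k2 g h * k2 g' h' := by
  ext i j
  fin_cases i <;> fin_cases j <;>
    simp [k2, Matrix.mul_apply, Fin.sum_univ_four, Fin.sum_univ_two] <;> ring

theorem k2_orth (g h : Matrix (Fin 2) (Fin 2) κ) :
    (k2 g h)ᵀ * J4 κ * k2 g h = (g.det * h.det) • J4 κ := by
  ext i j
  fin_cases i <;> fin_cases j <;>
    simp [k2, J4, Matrix.mul_apply, Fin.sum_univ_four, Matrix.det_fin_two] <;> ring

/-- the matrix `-J S` -/
def zgoodaB (p r t s : κ) : Matrix (Fin 4) (Fin 4) κ :=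
  !![0, 0, -t, -s; -1, -p, r, t; 0, -1, -p, 0; 0, 0, 1, 0]

theorem zgooda_JJ : J4 κ * J4 κ = 1 := by
  ext i j
  fin_cases i <;> fin_cases j <;> simp [J4, Matrix.mul_apply, Fin.sum_univ_four]

theorem zgooda_B_eq (p r t s : κ) : zgoodaB p r t s = -(J4 κ * nfS p r t s) := by
  ext i j
  fin_cases i <;> fin_cases j <;> simp [J4, nfS, zgoodaB]

theorem zgooda_symm (p r t s : κ) : (nfS p r t s)ᵀ = nfS p r t s := by
  ext i j
  fin_cases i <;> fin_cases j <;> simp [nfS]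

theorem zgooda_cyc (p r t s : κ) (M : Matrix (Fin 4) (Fin 4) κ)
    (hc : M * zgoodaB p r t s = zgoodaB p r t s * M) (h0 : ∀ i, M i 0 = 0) : M = 0 := by
  have e : ∀ i j, (M * zgoodaB p r t s) i j = ∑ k, zgoodaB p r t s i k * M k j := fun i j => by
    rw [hc, Matrix.mul_apply]
  have h1 : ∀ i, M i 1 = 0 := fun i => by
    have := e i 0
    simp only [h0, mul_zero, Finset.sum_const_zero] at this
    simpa [zgoodaB, Matrix.mul_apply, Fin.sum_univ_four] using this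
  have h2 : ∀ i, M i 2 = 0 := fun i => by
    have := e i 1
    simp only [h1, mul_zero, Finset.sum_const_zero] at this
    simpa [zgoodaB, Matrix.mul_apply, Fin.sum_univ_four, h1] using this
  have h3 : ∀ i, M i 3 = 0 := fun i => by
    have := e i 2
    simp only [h2, mul_zero, Finset.sum_const_zero] at this
    simpa [zgoodaB, Matrix.mul_apply, Fin.sum_univ_four, h0, h1, h2] using this
  ext i j
  fin_cases j
  · exact h0 i
  · exact h1 i
  · exact h2 i
  · exact h3 i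

theorem zgooda_comm (B : Matrix (Fin 4) (Fin 4) κ) (g : Polynomial κ) :
    Polynomial.aeval B g * B = B * Polynomial.aeval B g := by
  have h1 : Polynomial.aeval B (g * Polynomial.X) = Polynomial.aeval B (Polynomial.X * g) := by
    rw [mul_comm]
  simpa using h1

theorem zgooda_B2 (p r t s : κ) : zgoodaB p r t s ^ 2 =
    !![0, t, t * p - s, 0; p, p ^ 2 - r, 2 * t - 2 * p * r, s - p * t;
      1, 2 * p, p ^ 2 - r, -t; 0, -1, -p, 0] := by
  ext i j
  fin_cases i <;> fin_cases j <;>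
    simp [zgoodaB, pow_two, Matrix.mul_apply, Fin.sum_univ_four] <;> ring

theorem zgooda_col (p r t s : κ) (i : Fin 4) :
    (zgoodaB p r t s ^ 3) i 0 = ![-t, r - p ^ 2, -(2 * p), 1] i ∧
    (zgoodaB p r t s ^ 4) i 0 = ![2 * t * p - s, p ^ 3 - 3 * p * r + 2 * t, 3 * p ^ 2 - r,
      -(2 * p)] i := by
  have h3 : zgoodaB p r t s ^ 3 = zgoodaB p r t s * zgoodaB p r t s ^ 2 := pow_succ' _ 2
  have h4 : zgoodaB p r t s ^ 4 = zgoodaB p r t s ^ 2 * zgoodaB p r t s ^ 2 := by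
    rw [← pow_add]
  rw [h3, h4, zgooda_B2]
  fin_cases i <;> simp [zgoodaB, Matrix.mul_apply, Fin.sum_univ_four] <;>
    (try constructor) <;> ring

open Polynomial in
theorem zgooda_ev (p r t s a b c d e : κ) (i : Fin 4) :
    (aeval (zgoodaB p r t s) (C a * X ^ 4 + C b * X ^ 3 + C c * X ^ 2 + C d * X + C e)) i 0 =
      a * ![2 * t * p - s, p ^ 3 - 3 * p * r + 2 * t, 3 * p ^ 2 - r, -(2 * p)] i +
      b * ![-t, r - p ^ 2, -(2 * p), 1] i + c * ![0, p, 1, 0] i + d * ![0, -1, 0, 0] i +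
      e * ![1, 0, 0, 0] i := by
  simp only [map_add, map_mul, map_pow, aeval_C, aeval_X, Algebra.algebraMap_eq_smul_one,
    smul_mul_assoc, one_mul, Matrix.add_apply, Matrix.smul_apply, smul_eq_mul,
    (zgooda_col p r t s i).1, (zgooda_col p r t s i).2, zgooda_B2]
  fin_cases i <;> simp [zgoodaB, Matrix.one_apply]

open Polynomial in
theorem zgooda_poly (p r t s : κ) (V : Matrix (Fin 4) (Fin 4) κ)
    (hc : V * zgoodaB p r t s = zgoodaB p r t s * V) :
    ∃ g : κ[X], V = aeval (zgoodaB p r t s) g := by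
  refine ⟨C 0 * X ^ 4 + C (V 3 0) * X ^ 3 + C (V 2 0 + 2 * p * V 3 0) * X ^ 2 +
    C (-V 1 0 + p * V 2 0 + (p ^ 2 + r) * V 3 0) * X + C (V 0 0 + t * V 3 0), ?_⟩
  refine sub_eq_zero.mp (zgooda_cyc p r t s _ ?_ fun i => ?_)
  · rw [Matrix.sub_mul, Matrix.mul_sub, hc, zgooda_comm]
  · rw [Matrix.sub_apply, zgooda_ev]
    fin_cases i <;> simp <;> ring

open Polynomial in
theorem zgooda_chi (p r t s : κ) :
    aeval (zgoodaB p r t s) (qpoly ![1, 2 * p, p ^ 2 + r, 2 * t, s]) = 0 := by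
  refine zgooda_cyc p r t s _ (zgooda_comm _ _) fun i => ?_
  unfold qpoly
  rw [zgooda_ev]
  fin_cases i <;> simp <;> ring

open Polynomial in
theorem zgooda_adj (p r t s : κ) (g : κ[X]) :
    (aeval (zgoodaB p r t s) g)ᵀ * J4 κ = J4 κ * aeval (zgoodaB p r t s) g := by
  have hB : (zgoodaB p r t s)ᵀ * J4 κ = J4 κ * zgoodaB p r t s := by
    ext i j
    fin_cases i <;> fin_cases j <;> simp [J4, zgoodaB, Matrix.mul_apply, Fin.sum_univ_four]
  have hn : ∀ n : ℕ, (zgoodaB p r t s ^ n)ᵀ * J4 κ = J4 κ * zgoodaB p r t s ^ n := by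
    intro n
    induction n with
    | zero => simp
    | succ n ih =>
      rw [pow_succ, Matrix.transpose_mul, Matrix.mul_assoc, ih, ← Matrix.mul_assoc, hB,
        Matrix.mul_assoc, ← pow_succ', pow_succ]
  induction g using Polynomial.induction_on' with
  | add a b ha hb => rw [map_add, Matrix.transpose_add, Matrix.add_mul, Matrix.mul_add, ha, hb]
  | monomial n a =>
    rw [aeval_monomial, Algebra.algebraMap_eq_smul_one, smul_mul_assoc, one_mul,
      Matrix.transpose_smul, Matrix.smul_mul, Matrix.mul_smul, hn]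

/-- `A = J S` with `S = nfS p r t s`, `J^2 = 1`; `V` commutes with `A`.  `e₀` is cyclic: `A e₀ = e₁`,
`e₂ = (A - p) e₁`, `e₃ = -(A - p) e₂ - r e₁ + t e₀`; so `V e₀ = g(A) e₀` for a polynomial `g` and
`V = g(A)`.  `Aᵀ J = J A` gives `Vᵀ J = J V`, so `V^2 = 1`.  `-A` is killed by the irreducible
`χ = qpoly c` (direct computation or Cayley-Hamilton); if `χ ∣ g' - 1` (with `V = g'(-A)`) then
`V = 1`; otherwise they are coprime, `V - 1` is invertible (Bezout) and `(V - 1)(V + 1) = 0`. -/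
theorem stab_nfS {p r t s : κ} (h : Irr4 ![1, 2 * p, p ^ 2 + r, 2 * t, s])
    {V : Matrix (Fin 4) (Fin 4) κ} (h1 : Vᵀ * J4 κ * V = J4 κ)
    (h2 : Vᵀ * nfS p r t s * V = nfS p r t s) : V = 1 ∨ V = -1 := by
  set B := zgoodaB p r t s with hB
  have hJJ := zgooda_JJ (κ := κ)
  have hBS : B = -(J4 κ * nfS p r t s) := zgooda_B_eq p r t s
  have hl : (J4 κ * Vᵀ * J4 κ) * V = 1 := by
    rw [Matrix.mul_assoc, Matrix.mul_assoc, ← Matrix.mul_assoc Vᵀ, h1, hJJ]
  have hr : V * (J4 κ * Vᵀ * J4 κ) = 1 := mul_eq_one_comm.mp hl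
  have hc : V * B = B * V := by
    have e : V * (J4 κ * nfS p r t s) = (J4 κ * nfS p r t s) * V := by
      calc V * (J4 κ * nfS p r t s) = V * (J4 κ * (Vᵀ * nfS p r t s * V)) := by rw [h2]
        _ = V * (J4 κ * (Vᵀ * (J4 κ * J4 κ) * nfS p r t s * V)) := by rw [hJJ, Matrix.mul_one]
        _ = (V * (J4 κ * Vᵀ * J4 κ)) * (J4 κ * nfS p r t s * V) := by
          simp only [Matrix.mul_assoc]
        _ = _ := by rw [hr, Matrix.one_mul]
    rw [hBS, Matrix.mul_neg, Matrix.neg_mul, e]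
  obtain ⟨g, hg⟩ := zgooda_poly p r t s V hc
  have hadj : Vᵀ * J4 κ = J4 κ * V := by rw [hg]; exact zgooda_adj p r t s g
  have hVV : V * V = 1 := by
    have e : J4 κ * (J4 κ * V * V) = J4 κ * J4 κ := by rw [← hadj, h1]
    rwa [← Matrix.mul_assoc, ← Matrix.mul_assoc, hJJ, Matrix.one_mul] at e
  have hχ := zgooda_chi p r t s
  have hmon : (qpoly ![1, 2 * p, p ^ 2 + r, 2 * t, s]).Monic := by
    unfold qpoly
    simp only [Matrix.cons_val_zero, map_one, one_mul]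
    monicity!
  have hmin := minpoly.eq_of_irreducible_of_monic h.2 hχ hmon
  have hd : qpoly ![1, 2 * p, p ^ 2 + r, 2 * t, s] ∣ (g - 1) * (g + 1) := by
    rw [hmin]
    refine minpoly.dvd κ _ ?_
    rw [map_mul, map_sub, map_add, map_one, ← hg, sub_mul, mul_add, hVV]
    simp [add_comm]
  rcases h.2.prime.dvd_or_dvd hd with ⟨q, hq⟩ | ⟨q, hq⟩
  · left
    have := congrArg (Polynomial.aeval (zgoodaB p r t s)) hq
    rw [map_mul, hχ, zero_mul, map_sub, map_one, ← hg] at this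
    exact sub_eq_zero.mp this
  · right
    have := congrArg (Polynomial.aeval (zgoodaB p r t s)) hq
    rw [map_mul, hχ, zero_mul, map_add, map_one, ← hg] at this
    exact eq_neg_of_add_eq_zero_left this

theorem zgooda_scal {g : Matrix (Fin 2) (Fin 2) κ} (hg : g.det = 1) (h1 : g 0 1 = 0)
    (h2 : g 1 0 = 0) (h3 : g 1 1 = g 0 0) : g = 1 ∨ g = -1 := by
  rw [Matrix.det_fin_two, h1, h3, zero_mul, sub_zero] at hg
  rcases mul_self_eq_one_iff.mp hg with h | h
  · left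
    ext i j
    fin_cases i <;> fin_cases j <;> simp [h1, h2, h3, h]
  · right
    ext i j
    fin_cases i <;> fin_cases j <;> simp [h1, h2, h3, h]

theorem k2_eq_one {g h : Matrix (Fin 2) (Fin 2) κ} (hg : g.det = 1) (hh : h.det = 1)
    (h1 : k2 g h = 1 ∨ k2 g h = -1) : (g = 1 ∨ g = -1) ∧ (h = 1 ∨ h = -1) := by
  obtain ⟨ε, hε, h1⟩ : ∃ ε : κ, ε ≠ 0 ∧ k2 g h = ε • (1 : Matrix (Fin 4) (Fin 4) κ) := by
    rcases h1 with h1 | h1
    · exact ⟨1, one_ne_zero, by rw [h1, one_smul]⟩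
    · exact ⟨-1, neg_ne_zero.mpr one_ne_zero, by rw [h1, neg_smul, one_smul]⟩
  have e00 : g 0 0 * h 0 0 = ε := by simpa [k2] using congrFun (congrFun h1 0) 0
  have e01 : g 0 0 * h 0 1 = 0 := by
    have := congrFun (congrFun h1 0) 1
    simpa [k2, -mul_eq_zero] using this
  have e10 : g 0 0 * h 1 0 = 0 := by
    have := congrFun (congrFun h1 1) 0
    simpa [k2, -mul_eq_zero] using this
  have e11 : g 0 0 * h 1 1 = ε := by simpa [k2] using congrFun (congrFun h1 1) 1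
  have e02 : g 0 1 * h 0 0 = 0 := by
    have := congrFun (congrFun h1 0) 2
    simpa [k2, -mul_eq_zero] using this
  have e20 : g 1 0 * h 0 0 = 0 := by
    have := congrFun (congrFun h1 2) 0
    simpa [k2, -mul_eq_zero] using this
  have e22 : g 1 1 * h 0 0 = ε := by simpa [k2] using congrFun (congrFun h1 2) 2
  have hg0 : g 0 0 ≠ 0 := left_ne_zero_of_mul (e00 ▸ hε)
  have hh0 : h 0 0 ≠ 0 := right_ne_zero_of_mul (e00 ▸ hε)
  have a1 : h 0 1 = 0 := (mul_eq_zero.mp e01).resolve_left hg0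
  have a2 : h 1 0 = 0 := (mul_eq_zero.mp e10).resolve_left hg0
  have a3 : g 0 1 = 0 := (mul_eq_zero.mp e02).resolve_right hh0
  have a4 : g 1 0 = 0 := (mul_eq_zero.mp e20).resolve_right hh0
  have a5 : h 1 1 = h 0 0 := mul_left_cancel₀ hg0 (e11.trans e00.symm)
  have a6 : g 1 1 = g 0 0 := mul_right_cancel₀ hh0 (e22.trans e00.symm)
  exact ⟨zgooda_scal hg a3 a4 a6, zgooda_scal hh a1 a2 a5⟩

theorem zgooda_k2_one : k2 (1 : Matrix (Fin 2) (Fin 2) κ) 1 = 1 := by
  ext i j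
  fin_cases i <;> fin_cases j <;> simp [k2]

theorem zgooda_det {g h : Matrix (Fin 2) (Fin 2) κ} (hg : g.det = 1) (hh : h.det = 1)
    (S : Matrix (Fin 4) (Fin 4) κ) (x y : κ) :
    (x • J4 κ + y • ((k2 g h)ᵀ * S * k2 g h)).det = (x • J4 κ + y • S).det := by
  have ho : (k2 g h)ᵀ * J4 κ * k2 g h = J4 κ := by rw [k2_orth, hg, hh, one_mul, one_smul]
  have hJ : (J4 κ).det = 1 := by
    have := det_nfS (0 : κ) 0 0 0 1 0
    simpa [qev] using this
  have hU : (k2 g h).det * (k2 g h).det = 1 := by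
    have := congrArg Matrix.det ho
    rwa [Matrix.det_mul, Matrix.det_mul, Matrix.det_transpose, hJ, mul_one] at this
  have e : x • J4 κ + y • ((k2 g h)ᵀ * S * k2 g h) =
      (k2 g h)ᵀ * (x • J4 κ + y • S) * k2 g h := by
    rw [Matrix.mul_add, Matrix.add_mul, Matrix.mul_smul, Matrix.mul_smul, Matrix.smul_mul,
      Matrix.smul_mul, ho]
  rw [e, Matrix.det_mul, Matrix.det_mul, Matrix.det_transpose, mul_right_comm, hU, one_mul]

theorem zgooda_fib {p r t s : κ} (hI : Irr4 ![1, 2 * p, p ^ 2 + r, 2 * t, s])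
    {g h g' h' : Matrix (Fin 2) (Fin 2) κ} (hg : g.det = 1) (hh : h.det = 1) (hg' : g'.det = 1)
    (hh' : h'.det = 1)
    (he : (k2 g' h')ᵀ * nfS p r t s * k2 g' h' = (k2 g h)ᵀ * nfS p r t s * k2 g h) :
    (g' = g ∨ g' = -g) ∧ (h' = h ∨ h' = -h) := by
  have ug : IsUnit g.det := by rw [hg]; exact isUnit_one
  have uh : IsUnit h.det := by rw [hh]; exact isUnit_one
  have dg : (g' * g⁻¹).det = 1 := by
    rw [Matrix.det_mul, Matrix.det_nonsing_inv, hg, hg']; simp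
  have dh : (h' * h⁻¹).det = 1 := by
    rw [Matrix.det_mul, Matrix.det_nonsing_inv, hh, hh']; simp
  have hU : k2 g h * k2 g⁻¹ h⁻¹ = 1 := by
    rw [← k2_mul, Matrix.mul_nonsing_inv _ ug, Matrix.mul_nonsing_inv _ uh, zgooda_k2_one]
  have h1 : (k2 (g' * g⁻¹) (h' * h⁻¹))ᵀ * J4 κ * k2 (g' * g⁻¹) (h' * h⁻¹) = J4 κ := by
    rw [k2_orth, dg, dh, one_mul, one_smul]
  have h2 : (k2 (g' * g⁻¹) (h' * h⁻¹))ᵀ * nfS p r t s * k2 (g' * g⁻¹) (h' * h⁻¹) =
      nfS p r t s := by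
    calc _ = (k2 g⁻¹ h⁻¹)ᵀ * ((k2 g' h')ᵀ * nfS p r t s * k2 g' h') * k2 g⁻¹ h⁻¹ := by
          rw [k2_mul, Matrix.transpose_mul]
          simp only [Matrix.mul_assoc]
      _ = (k2 g h * k2 g⁻¹ h⁻¹)ᵀ * nfS p r t s * (k2 g h * k2 g⁻¹ h⁻¹) := by
          rw [he, Matrix.transpose_mul]
          simp only [Matrix.mul_assoc]
      _ = _ := by rw [hU]; simp
  obtain ⟨a, b⟩ := k2_eq_one dg dh (stab_nfS hI h1 h2)
  have key : ∀ {u u' : Matrix (Fin 2) (Fin 2) κ}, IsUnit u.det →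
      (u' * u⁻¹ = 1 ∨ u' * u⁻¹ = -1) → (u' = u ∨ u' = -u) := by
    intro u u' hu h
    have e : u' = u' * u⁻¹ * u := by
      rw [Matrix.mul_assoc, Matrix.nonsing_inv_mul _ hu, Matrix.mul_one]
    rcases h with h | h
    · left; rw [e, h, Matrix.one_mul]
    · right; rw [e, h, Matrix.neg_mul, Matrix.one_mul]
  exact ⟨key ug a, key uh b⟩

open Classical in
theorem zgooda_SL (l : ℕ) [Fact l.Prime] : ((l : ℝ) - 1) * (l : ℝ) ^ 2 ≤
    (Finset.univ.filter fun g : Matrix (Fin 2) (Fin 2) (ZMod l) => g.det = 1).card := by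
  have hl : l.Prime := Fact.out
  have h : (((Finset.univ : Finset (ZMod l)).erase 0) ×ˢ (Finset.univ : Finset (ZMod l)) ×ˢ
      (Finset.univ : Finset (ZMod l))).card ≤
      (Finset.univ.filter fun g : Matrix (Fin 2) (Fin 2) (ZMod l) => g.det = 1).card := by
    refine Finset.card_le_card_of_injOn
      (fun z => !![z.1, z.2.1; z.2.2, (1 + z.2.1 * z.2.2) / z.1]) ?_ ?_
    · rintro ⟨a, b, c⟩ hz
      have ha : a ≠ 0 := by simpa using hz
      simp only [Finset.coe_filter, Finset.mem_univ, true_and, Set.mem_ofPred_eq,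
        Matrix.det_fin_two_of]
      field_simp
      ring
    · rintro ⟨a, b, c⟩ _ ⟨a', b', c'⟩ _ he
      have e1 := congrFun (congrFun he 0) 0
      have e2 := congrFun (congrFun he 0) 1
      have e3 := congrFun (congrFun he 1) 0
      simp at e1 e2 e3
      rw [e1, e2, e3]
  rw [Finset.card_product, Finset.card_product, Finset.card_erase_of_mem (Finset.mem_univ _),
    Finset.card_univ, ZMod.card] at h
  have h' : (((l - 1) * (l * l) : ℕ) : ℝ) ≤ _ := Nat.cast_le.mpr h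
  rw [Nat.cast_mul, Nat.cast_mul, Nat.cast_sub hl.one_le, Nat.cast_one, ← pow_two] at h'
  exact h'

open Classical in
/-- Map `(c, g, h)`, `c 0 = 1`, `Irr4 c`, `det g = det h = 1`, to `Uᵀ * nfS .. * U`, `U = k2 g h`
(`p = c 1 / 2`, `r = c 2 - p^2`, `t = c 3 / 2`, `s = c 4`; `det U ^ 2 = 1`).  The image determines `c`
(`qev_inj`), and `(g, h)` up to signs (`stab_nfS` for `V = k2 (g' g⁻¹) (h' h⁻¹)`, `k2_eq_one`), so
the fibres have at most four elements (`Finset.card_le_mul_card_image`).  There are at least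
`(l - 1) l^2` matrices of determinant one (`!![a, b; c, (1 + b c) / a]`, `a ≠ 0`), and
`(l^4 - l^2) / 4 * ((l - 1) l^2)^2 / 4 ≥ l^10 / 27` for `l ≥ 5`. -/
theorem card_goodA (l : ℕ) [Fact l.Prime] (h5 : 5 ≤ l) : (l : ℝ) ^ 10 ≤
    27 * (Finset.univ.filter fun S : Matrix (Fin 4) (Fin 4) (ZMod l) => S.IsSymm ∧ GoodA S).card := by
  have hl : l.Prime := Fact.out
  have h6 : (6 : ZMod l) ≠ 0 := by
    intro h
    have h' : ((6 : ℕ) : ZMod l) = 0 := by exact_mod_cast h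
    rw [ZMod.natCast_eq_zero_iff] at h'
    have := Nat.le_of_dvd (by norm_num) h'
    interval_cases l
    · norm_num at h'
    · norm_num at hl
  have h2 : (2 : ZMod l) ≠ 0 := by
    intro h
    apply h6
    have : (6 : ZMod l) = 2 * 3 := by norm_num
    rw [this, h, zero_mul]
  set I := Finset.univ.filter fun c : Fin 5 → ZMod l => c 0 = 1 ∧ Irr4 c with hI
  set SL := Finset.univ.filter fun g : Matrix (Fin 2) (Fin 2) (ZMod l) => g.det = 1 with hSL
  set G := Finset.univ.filter fun S : Matrix (Fin 4) (Fin 4) (ZMod l) => S.IsSymm ∧ GoodA S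
    with hG
  let nf : (Fin 5 → ZMod l) → Matrix (Fin 4) (Fin 4) (ZMod l) := fun c =>
    nfS (c 1 / 2) (c 2 - (c 1 / 2) ^ 2) (c 3 / 2) (c 4)
  have hc : ∀ c : Fin 5 → ZMod l, c 0 = 1 →
      ![1, 2 * (c 1 / 2), (c 1 / 2) ^ 2 + (c 2 - (c 1 / 2) ^ 2), 2 * (c 3 / 2), c 4] = c := by
    intro c h0
    ext i
    fin_cases i
    · simp [h0]
    · simp only [Fin.mk_one, Matrix.cons_val_one, Matrix.cons_val_zero]
      field_simp
    · simp
    · simp only [Fin.reduceFinMk, Matrix.cons_val]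
      field_simp
    · simp
  let f : (Fin 5 → ZMod l) × Matrix (Fin 2) (Fin 2) (ZMod l) × Matrix (Fin 2) (Fin 2) (ZMod l) →
      Matrix (Fin 4) (Fin 4) (ZMod l) := fun z => (k2 z.2.1 z.2.2)ᵀ * nf z.1 * k2 z.2.1 z.2.2
  have hdet : ∀ z ∈ I ×ˢ SL ×ˢ SL, ∀ x y : ZMod l, (x • J4 (ZMod l) + y • f z).det = qev z.1 x y := by
    rintro ⟨c, g, h⟩ hz x y
    simp only [hI, hSL, Finset.mem_product, Finset.mem_filter, Finset.mem_univ, true_and] at hz
    rw [zgooda_det hz.2.1 hz.2.2, det_nfS, hc c hz.1.1]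
  have himg : (I ×ˢ SL ×ˢ SL).image f ⊆ G := by
    intro S hS
    obtain ⟨z, hz, rfl⟩ := Finset.mem_image.mp hS
    refine Finset.mem_filter.mpr ⟨Finset.mem_univ _, ?_, z.1, ?_, hdet z hz⟩
    · simp only [f, nf, Matrix.IsSymm, Matrix.transpose_mul, Matrix.transpose_transpose,
        zgooda_symm, Matrix.mul_assoc]
    · simp only [hI, Finset.mem_product, Finset.mem_filter, Finset.mem_univ, true_and] at hz
      exact hz.1.2
  have hfib : (I ×ˢ SL ×ˢ SL).card ≤ 4 * ((I ×ˢ SL ×ˢ SL).image f).card := by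
    refine Finset.card_le_mul_card_image _ 4 fun S hS => ?_
    obtain ⟨⟨c, g, h⟩, hz, rfl⟩ := Finset.mem_image.mp hS
    have hsub : ((I ×ˢ SL ×ˢ SL).filter fun w => f w = f (c, g, h)) ⊆
        ({c} : Finset _) ×ˢ ({g, -g} : Finset _) ×ˢ ({h, -h} : Finset _) := by
      rintro ⟨c', g', h'⟩ hw0
      obtain ⟨hw, he⟩ := Finset.mem_filter.mp hw0
      have hcc : c' = c := qev_inj h6 fun m => by
        have e1 := hdet _ hw ((pt5 m).1 : ZMod l) ((pt5 m).2 : ZMod l)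
        have e2 := hdet _ hz ((pt5 m).1 : ZMod l) ((pt5 m).2 : ZMod l)
        rw [he] at e1
        exact e1.symm.trans e2
      subst hcc
      simp only [hI, hSL, Finset.mem_product, Finset.mem_filter, Finset.mem_univ, true_and]
        at hz hw
      have hirr : Irr4 ![1, 2 * (c' 1 / 2), (c' 1 / 2) ^ 2 + (c' 2 - (c' 1 / 2) ^ 2),
          2 * (c' 3 / 2), c' 4] := by rw [hc c' hz.1.1]; exact hz.1.2
      have := zgooda_fib hirr hz.2.1 hz.2.2 hw.2.1 hw.2.2 he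
      simp only [Finset.mem_product, Finset.mem_singleton, Finset.mem_insert, true_and]
      exact this
    refine (Finset.card_le_card hsub).trans ?_
    rw [Finset.card_product, Finset.card_product, Finset.card_singleton]
    have a1 : ({g, -g} : Finset _).card ≤ 2 := Finset.card_le_two
    have a2 : ({h, -h} : Finset _).card ≤ 2 := Finset.card_le_two
    calc _ ≤ 1 * (2 * 2) := Nat.mul_le_mul le_rfl (Nat.mul_le_mul a1 a2)
      _ = 4 := rfl
  have hs : ((l : ℝ) - 1) * (l : ℝ) ^ 2 ≤ SL.card := zgooda_SL l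
  have hi : (l : ℝ) ^ 4 - (l : ℝ) ^ 2 ≤ 4 * I.card := card_irr4 l
  have ht : (I.card : ℝ) * (SL.card * SL.card) ≤ 4 * G.card := by
    have := hfib.trans (Nat.mul_le_mul_left 4 (Finset.card_le_card himg))
    rw [Finset.card_product, Finset.card_product] at this
    exact_mod_cast this
  have hL : (5 : ℝ) ≤ l := by exact_mod_cast h5
  have b1 : 24 / 25 * (l : ℝ) ^ 4 ≤ 4 * I.card := by
    refine le_trans ?_ hi
    have : (25 : ℝ) ≤ (l : ℝ) ^ 2 := by nlinarith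
    nlinarith [sq_nonneg (l : ℝ)]
  have b2 : 4 / 5 * (l : ℝ) ^ 3 ≤ SL.card := by
    refine le_trans ?_ hs
    nlinarith [sq_nonneg (l : ℝ)]
  have b3 : (4 / 5 * (l : ℝ) ^ 3) * (4 / 5 * (l : ℝ) ^ 3) ≤ (SL.card : ℝ) * SL.card :=
    mul_le_mul b2 b2 (by positivity) (by positivity)
  have b4 : (24 / 25 * (l : ℝ) ^ 4) * ((4 / 5 * (l : ℝ) ^ 3) * (4 / 5 * (l : ℝ) ^ 3)) ≤
      (4 * I.card) * ((SL.card : ℝ) * SL.card) :=
    mul_le_mul b1 b3 (by positivity) (by positivity)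
  have b5 : (0 : ℝ) ≤ (l : ℝ) ^ 10 := by positivity
  nlinarith

end Pool.Agent.Lib.MP_775b3b_nt
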