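import Pool.Agent.Lib.MP_775b3b_nt.ZHasse
import Pool.Agent.Lib.MP_775b3b_nt.Iso
import Pool.Agent.Lib.MP_775b3b_nt.ZDefs

/-! Isotropy from local isotropy at all places but one. -/

namespace Pool.Agent.Lib.MP_775b3b_nt

open Cub MP_439fea_co WithZero

variable {e : ℤ × ℤ} {k : Type} [Field k] [NumberField k]

theorem ZIso1_small (w : P k) {p : k} (hp : val w p < 1) (y : k)
    {γ : WithZero (Multiplicative ℤ)} (hγ : γ ≠ 0) :
    ∃ M : ℕ, ∀ n : ℕ, M ≤ n → val w (p ^ n * y) < γ := by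
  obtain ⟨η, h1, h2⟩ := lgiso_small hγ (val w y)
  obtain ⟨M, hM⟩ := Val_exists_exp_le h1
  have h3 : val w p ≤ exp (-1 : ℤ) := by
    by_cases h0 : val w p = 0
    · rw [h0]
      exact zero_le
    · rw [← exp_log h0, ← exp_zero, exp_lt_exp] at hp
      rw [← exp_log h0, exp_le_exp]
      omega
  refine ⟨M, fun n hn => lt_of_le_of_lt ?_ h2⟩
  rw [map_mul, map_pow]
  refine mul_le_mul_left (((pow_le_pow_left' h3 n).trans ?_).trans hM) _
  rw [← exp_nsmul, exp_le_exp, nsmul_eq_mul]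
  omega

theorem ZIso1_big (a b : ℝ) {c : ℝ} (hc : 0 < c) :
    ∃ N : ℕ, ∀ m : ℕ, N ≤ m → 0 < a + m * (2 * b) + m * (m * c) := by
  obtain ⟨N, hN⟩ := exists_nat_gt ((|a| + 2 * |b|) / c + 1)
  refine ⟨N, fun m hm => ?_⟩
  have h1 : (N : ℝ) ≤ m := by exact_mod_cast hm
  have h2 : 0 ≤ (|a| + 2 * |b|) / c := by positivity
  have h3 : |a| + 2 * |b| < m * c := (div_lt_iff₀ hc).1 (by linarith)
  have h4 := neg_abs_le a
  have h5 := neg_abs_le b
  have h6 := abs_nonneg a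
  have h7 := mul_nonneg (show (0 : ℝ) ≤ m - 1 by linarith) (show 0 ≤ m * c + 2 * b by linarith)
  linarith

/-- `w₁` from `exists_pos_value`, `l` the prime under `w`, `x = x₀ + (l ^ M) • w₁` with `M` large:
`Bf x x = Bf x₀ x₀ + 2 l^M Bf x₀ w₁ + l^(2M) Bf w₁ w₁` -/
theorem exists_pos_odd {d : Cub e k} {ν : k} (hν0 : ν ≠ 0) {ε : (k →+* ℂ) → Cub e ℂ}
    (hε : Eps d ν ε) (w : P k) (hodd : ∃ x, val w (Bf d x x) = exp (-1 : ℤ)) :
    ∃ x, val w (Bf d x x) = exp (-1 : ℤ) ∧ ∀ σ : k →+* ℂ, 0 < (σ (Bf d x x)).re := by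
  obtain ⟨x₀, hx⟩ := hodd
  obtain ⟨w₁, hw⟩ := exists_pos_value hν0 hε
  obtain ⟨p, hp, hp'⟩ := exists_prime_under w
  obtain ⟨M₁, h1⟩ := ZIso1_small w hp' (2 * Bf d x₀ w₁) (exp_ne_zero (a := (-1 : ℤ)))
  obtain ⟨M₂, h2⟩ := ZIso1_small w hp' (Bf d w₁ w₁) (exp_ne_zero (a := (-1 : ℤ)))
  choose N hN using fun σ : k →+* ℂ =>
    ZIso1_big (σ (Bf d x₀ x₀)).re (σ (Bf d x₀ w₁)).re (hw σ)
  obtain ⟨n₀, hn₀⟩ := Finite.bddAbove_range N
  obtain ⟨n, hn⟩ : ∃ n, n = M₁ + M₂ + n₀ := ⟨_, rfl⟩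
  have hq : Bf d (x₀ + (p : k) ^ n • w₁) (x₀ + (p : k) ^ n • w₁) = Bf d x₀ x₀ +
      ((p : k) ^ n * (2 * Bf d x₀ w₁) + (p : k) ^ n * ((p : k) ^ n * Bf d w₁ w₁)) := by
    simp only [Bf_add_left, Bf_add_right, Bf_smul_left, Bf_smul_right, Bf_comm d w₁ x₀]
    ring
  refine ⟨x₀ + (p : k) ^ n • w₁, ?_, fun σ => ?_⟩
  · rw [hq, Valuation.map_add_eq_of_lt_left, hx]
    rw [hx]
    refine Valuation.map_add_lt _ (h1 n (by omega)) ?_
    rw [map_mul]
    refine (mul_le_of_le_one_left' ?_).trans_lt (h2 n (by omega))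
    rw [map_pow]
    exact pow_le_one' hp'.le n
  · have h3 : N σ ≤ p ^ n :=
      (hn₀ ⟨σ, rfl⟩).trans ((by omega : n₀ ≤ n).trans (Nat.lt_pow_self hp.one_lt).le)
    have h4 := hN σ _ h3
    rw [hq, ← Nat.cast_pow]
    simp only [map_add, map_mul, map_natCast, map_ofNat, Complex.add_re, Complex.mul_re,
      Complex.natCast_re, Complex.natCast_im, zero_mul, sub_zero, Complex.re_ofNat,
      Complex.im_ofNat]
    linarith

/-- the proof of `exists_isotropic` with the vector of `exists_pos_odd` and `hasseR1` -/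
theorem exists_isotropic1 {d : Cub e k} {ν : k} (hν : nm d = ν ^ 2) (hν0 : ν ≠ 0)
    {ε : (k →+* ℂ) → Cub e ℂ} (hε : Eps d ν ε) (w : P k) (h2 : val w (2 : k) = 1)
    (hloc : ∀ v : P k, v ≠ w → LocIso v d) (hodd : ∃ x, val w (Bf d x x) = exp (-1 : ℤ)) :
    Iso d := by
  obtain ⟨w', hwo, hw⟩ := exists_pos_odd hν0 hε w hodd
  obtain ⟨w₀, hw₀⟩ : ∃ w₀, w₀ = w := ⟨_, rfl⟩
  rw [← hw₀] at h2 hloc hwo
  clear hw₀ hodd w
  obtain ⟨w, rfl⟩ : ∃ w, w = w' := ⟨_, rfl⟩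
  have hb : Bf d w w ≠ 0 := by
    intro h0
    obtain ⟨σ⟩ : Nonempty (k →+* ℂ) := inferInstance
    have := hw σ
    rw [h0, map_zero] at this
    exact lt_irrefl _ this
  have hz : ∃ z : Cub e k, z - (Bf d z w / Bf d w w) • w ≠ 0 := by
    by_contra hc
    push Not at hc
    have h1 := sub_eq_zero.1 (hc 1)
    have h2 := sub_eq_zero.1 (hc th)
    have h3 := congrArg Cub.c0 h1
    have h4 := congrArg Cub.c1 h1
    have h5 := congrArg Cub.c1 h2
    simp only [one_c0, one_c1, th_c1, smul_c0, smul_c1, smul_eq_mul] at h3 h4 h5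
    rcases mul_eq_zero.1 h4.symm with h6 | h6
    · rw [h6, zero_mul] at h3
      exact one_ne_zero h3
    · rw [h6, mul_zero] at h5
      exact one_ne_zero h5
  obtain ⟨z, hz⟩ := hz
  set y := z - (Bf d z w / Bf d w w) • w with hy
  have hyw : Bf d y w = 0 := by
    rw [hy, Bf_sub_left, Bf_smul_left, div_mul_cancel₀ _ hb, sub_self]
  have hwy : Bf d w y = 0 := by rw [Bf_comm, hyw]
  clear_value y
  by_cases hc : Bf d y y = 0
  · exact ⟨y, hz, hc⟩
  obtain ⟨n, hn⟩ := exists_cross hν hν0 w y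
  obtain ⟨hnn, hn'⟩ := Bf_cross hν hν0 hn
  have hnw : Bf d n w = 0 := by rw [hn', det3_self_left, mul_zero]
  have hny : Bf d n y = 0 := by rw [hn', det3_self_right, mul_zero]
  have hwn : Bf d w n = 0 := by rw [Bf_comm, hnw]
  have hyn : Bf d y n = 0 := by rw [Bf_comm, hny]
  have hq : ∀ X Y Z : k, Bf d (X • w + Y • y + Z • n) (X • w + Y • y + Z • n) =
      Bf d w w * X ^ 2 + Bf d y y * (Y ^ 2 - Bf d w w * Z ^ 2) := by
    intro X Y Z
    simp only [Bf_add_left, Bf_add_right, Bf_smul_left, Bf_smul_right, hyw, hwy, hnw, hny, hwn, hyn,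
      hnn]
    ring
  have hq' : ∀ X Y Z : k, X • w + Y • y + Z • n = 0 → X = 0 ∧ Z = 0 := by
    intro X Y Z h0
    have h1 := congrArg (fun u => Bf d u w) h0
    have h2 := congrArg (fun u => Bf d u n) h0
    have h3 : ∀ u : Cub e k, Bf d 0 u = 0 := fun u => by simp [Bf]
    simp only [Bf_add_left, Bf_smul_left, hyw, hnw, hwn, hyn, hnn, hwy, h3] at h1 h2
    refine ⟨(mul_eq_zero.1 (by linear_combination h1)).resolve_right hb,
      (mul_eq_zero.1 (by linear_combination -h2)).resolve_right (mul_ne_zero hb hc)⟩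
  by_cases hsq : IsSquare (Bf d w w)
  · obtain ⟨m, hm⟩ := hsq
    refine ⟨(0 : k) • w + m • y + (1 : k) • n, fun h0 => one_ne_zero (hq' _ _ _ h0).2, ?_⟩
    rw [hq, hm]
    ring
  have hΔ : det3 w y n ≠ 0 := by
    intro h0
    have h1 := hn' n
    rw [h0, hnn, hwy] at h1
    exact mul_ne_zero hb hc (by linear_combination -h1)
  obtain ⟨r, t, hrt⟩ := hasseR1 (Units.mk0 _ hb)
    (fun ρ => by simpa using hw (Complex.ofRealHom.comp ρ)) w₀ h2
    ⟨-1, by rw [Units.val_mk0, hwo]; norm_num⟩ (Units.mk0 _ hc) fun v hv => by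
      obtain ⟨x, x', h1, h2, h3⟩ := hloc v hv
      obtain ⟨n', hn1⟩ := exists_cross hν hν0 x x'
      have hn2 := (Bf_cross hν hν0 hn1).1
      have hu : Bf d x x' ≠ 0 := by
        intro h0
        rw [h0, map_zero] at h1
        exact zero_ne_one h1
      obtain ⟨o, ho, e1⟩ := lgiso_near v (B := Bf d n' n') (pow_ne_zero 2 hu) (by
        rw [hn2, sub_sub_cancel_left, Valuation.map_neg, map_mul, map_pow, h1, one_pow, mul_one]
        exact (mul_le_of_le_one_right' h2).trans_lt h3)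
      have e2 : n' = (det3 n' y n / det3 w y n) • w + (det3 w n' n / det3 w y n) • y +
          (det3 w y n' / det3 w y n) • n := by
        simp only [div_eq_inv_mul, mul_smul, ← smul_add]
        rw [← cramer, smul_smul, inv_mul_cancel₀ hΔ, one_smul]
      refine mem_Nm_of_repr v _ _ (Units.mk0 _ hu ^ 2 * o) (mem_Sq.2 ⟨_, o, ho, rfl⟩)
        (det3 n' y n / det3 w y n) (det3 w n' n / det3 w y n) (det3 w y n' / det3 w y n) ?_
      rw [Units.val_mul, Units.val_pow_eq_pow_val, Units.val_mk0, Units.val_mk0, Units.val_mk0,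
        ← e1, ← hq, ← e2]
  rw [Units.val_mk0, Units.val_mk0] at hrt
  refine ⟨Bf d y y • w + (-(Bf d w w * t)) • y + r • n, fun h0 => hc (hq' _ _ _ h0).1, ?_⟩
  rw [hq]
  linear_combination (Bf d w w * Bf d y y) * hrt

end Pool.Agent.Lib.MP_775b3b_nt
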