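import Pool.Agent.Lib.MP_775b3b_nt.ZBot
import Pool.Agent.Lib.MP_775b3b_nt.ZTower
import Pool.Agent.Lib.MP_775b3b_nt.ZPt
import Pool.Agent.Lib.MP_775b3b_nt.ZPrime
import Pool.Agent.Lib.MP_775b3b_nt.ZFam
import Pool.Agent.Lib.MP_775b3b_nt.ZFamCnt
import Pool.Agent.Lib.MP_775b3b_nt.ZFin
import Pool.Agent.Lib.MP_775b3b_nt.ZQCount
import Pool.Agent.Lib.MP_775b3b_nt.ZUCount

/-! Assembly. -/

namespace Pool.Agent.Lib.MP_775b3b_nt

open Cub MP_439fea_co WithZero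

variable {K F : Type} [Field K] [NumberField K] [Field F] [NumberField F] [Algebra K F]

theorem nice_top (S : Setup K K) {e : ℤ × ℤ} {N : ℕ} {D : Finset ℕ} (hU : Unr F N)
    (h2 : ∀ w : P F, val w (2 : F) < 1 → val w (2 : F) = exp (-1 : ℤ)) (hA : 0 < e.1)
    (h4 : 4 ∣ e.1) (h4' : 4 ∣ e.2 - 2)
    (hD : ∀ l ∈ D, l.Prime ∧ ¬ l ∣ N ∧ Ty e l ∧
      ∀ w : P F, val w (l : F) < 1 → SqDesc (algebraMap K F) w) : Nice e D F := by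
  refine ⟨hA, fun w hw => eis2_of (h2 w hw) h4 h4', fun l hl => (hD l hl).1, fun l hl w hw => ?_⟩
  obtain ⟨hp, hN, hT, hd⟩ := hD l hl
  have h1 : val w (l : F) = exp (-1 : ℤ) := hU w ⟨l, hp⟩ hN hw
  have o1 : Over (algebraMap K F) w (und K w) := over_und w (x := (l : K)) (by simpa using h1)
  have h3 : val (und K w) (l : K) = exp (-1 : ℤ) := by rw [← o1.natCast, h1]
  have o2 : Over (algebraMap ℚ K) (und K w) (und ℚ (und K w)) :=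
    over_und _ (x := (l : ℚ)) (by simpa using h3)
  have h5 : val (und K w) (l : K) < 1 := by rwa [← o1.natCast]
  have h6 : val (und ℚ (und K w)) (l : ℚ) < 1 := by rwa [← o2.natCast]
  exact tyV_of hp hT h1 (SqZ.up o1 hp h5 (hd w hw)
    (SqZ.up o2 hp h6 (S.sqDesc _) (sqZ_of_res1 hp h6 (res1_rat _))))

theorem core [DecidableEq F] (S : Setup K K) {e : ℤ × ℤ} {N : ℕ} (h2N : 2 ∣ N) (hUK : Unr K N)
    (hU : Unr F N) (h2 : ∀ w : P F, val w (2 : F) < 1 → val w (2 : F) = exp (-1 : ℤ))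
    (htow : ∀ N', N ∣ N' → ∀ 𝒯 : Subgroup (Cub e F)ˣ, SQ e F ≤ 𝒯 → 𝒯 ≤ Sel N' e F →
      (∀ g : F ≃ₐ[K] F, ∀ d ∈ 𝒯, uz e (g : F →+* F) d ∈ 𝒯) →
      (∀ d₀ ∈ Sel N' e K, uz e (algebraMap K F) d₀ ∈ 𝒯 → d₀ ∈ SQ e K) → 𝒯 ≤ SQ e F)
    (hA : 0 < e.1) (h4 : 4 ∣ e.1) (h4' : 4 ∣ e.2 - 2)
    (hauto : ∀ p : ℕ, p.Prime → p ∣ N → ∀ v : P K, val v (p : K) < 1 → Auto e v)
    (hsq : ∀ p : ℕ, p.Prime → ¬ p ∣ N → ¬ (p : ℤ) ^ 2 ∣ disc e) {Q₁ Q₂ : Finset ℕ}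
    (hdis : Disjoint Q₁ Q₂)
    (hQ : ∀ l ∈ Q₁ ∪ Q₂, l.Prime ∧ ¬ l ∣ N ∧
      ∀ w : P F, val w (l : F) < 1 → SqDesc (algebraMap K F) w)
    (hfix : ∀ l ∈ Q₂, ∀ v : P K, val v (l : K) < 1 → ∀ g : K ≃ₐ[ℚ] K, g • v = v)
    (b1 : ¬ ∃ d : (Cub e K)ˣ, Esc 1 Q₁ d ∧ S.cor e d ∈ SQ e ℚ)
    (b2 : ¬ ∃ d : (Cub e ℚ)ˣ, Esc (∏ l ∈ Q₁, l) Q₂ d) :
    ∃ D ⊆ Q₁ ∪ Q₂,
      Module.finrank ℤ (crv (tw e ((2 * ∏ l ∈ D, l : ℕ) : ℤ)) F).toAffine.Point = 0 := by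
  have nF : ∀ D ⊆ Q₁ ∪ Q₂, (∀ l ∈ D, Ty e l) → Nice e D F := fun D hD hT =>
    nice_top S hU h2 hA h4 h4' fun l hl =>
      ⟨(hQ l (hD hl)).1, (hQ l (hD hl)).2.1, hT l hl, (hQ l (hD hl)).2.2⟩
  have nK : ∀ D ⊆ Q₁ ∪ Q₂, (∀ l ∈ D, Ty e l) → Nice e D K := fun D hD hT => (nF D hD hT).down
  have nQ : ∀ D ⊆ Q₁ ∪ Q₂, (∀ l ∈ D, Ty e l) → Nice e D ℚ := fun D hD hT => (nK D hD hT).down
  obtain ⟨D₁, hD₁, hT₁, hZ₁⟩ := exists_kill (fun D => Z e D K ⊓ S.TZ e) (St e K) (SQ e K) (Ty e) ∅ Q₁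
    (Finset.disjoint_empty_left _)
    (fun s hs h0 => by
      by_contra hc
      push Not at hc
      exact b1 ⟨s, (nK ∅ (Finset.empty_subset _) (by simp)).esc (by simp) hs.1 h0 hc, hs.2⟩)
    (fun D hD hT l hl hTl hn s hs hst => by
      rw [Finset.empty_union] at hn hs ⊢
      exact S.step (nK _ (Finset.insert_subset (Finset.mem_union_left _ hl)
        (hD.trans Finset.subset_union_left)) (Finset.forall_mem_insert _ _ _ |>.2 ⟨hTl, hT⟩))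
        hn hs hst)
  rw [Finset.empty_union] at hZ₁
  obtain ⟨D₂, hD₂, hT₂, hZ₂⟩ := exists_kill (fun D => Z e D ℚ) (St e ℚ) (SQ e ℚ) (Ty e) D₁ Q₂
    (hdis.mono_left hD₁)
    (fun s hs h0 => by
      by_contra hc
      push Not at hc
      exact b2 ⟨s, (nQ D₁ (hD₁.trans Finset.subset_union_left) hT₁).esc
        (fun l hl => Finset.dvd_prod_of_mem _ (hD₁ hl)) hs h0 hc⟩)
    (fun D hD hT l hl hTl hn s hs hst =>
      step_rat (nQ _ (Finset.insert_subset (Finset.mem_union_right _ hl)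
        (Finset.union_subset_union hD₁ hD)) (Finset.forall_mem_insert _ _ _ |>.2
          ⟨hTl, Finset.forall_mem_union.2 ⟨hT₁, hT⟩⟩)) hn hs hst)
  have hD : D₁ ∪ D₂ ⊆ Q₁ ∪ Q₂ := Finset.union_subset_union hD₁ hD₂
  have hT : ∀ l ∈ D₁ ∪ D₂, Ty e l := Finset.forall_mem_union.2 ⟨hT₁, hT₂⟩
  have hZ := S.bottom (nK _ hD hT) (fun l hl => hfix l (hD₂ hl)) hZ₁ hZ₂
  have hTT := htow (N * ∏ l ∈ D₁ ∪ D₂, l) (dvd_mul_right _ _) (TT e _ (D₁ ∪ D₂) F) SQ_le_TT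
    (fun d hd => (mem_TT.1 hd).1) (fun g d hd => uz_mem_TT _ hd)
    fun d₀ h0 h1 => hZ (mem_Z_of_TT hUK (nF _ hD hT) hauto hsq
      (fun l hl => (hQ l (hD hl)).2.2) h0 h1)
  refine ⟨_, hD, rank_zero_tw (disc_ne_zero_of_pos hA) ?_ fun x y hxy δ hδ => hTT ?_⟩
  · have : ∏ l ∈ D₁ ∪ D₂, l ≠ 0 := Finset.prod_ne_zero_iff.2 fun l hl => (hQ l (hD hl)).1.ne_zero
    exact_mod_cast mul_ne_zero two_ne_zero this
  · rw [Int.cast_natCast] at hxy hδ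
    exact pt_mem_TT hU h2N (nF _ hD hT) (fun l hl => (hQ l (hD hl)).2.1) hxy hδ

theorem squarefree_two_mul {D : Finset ℕ} (h : ∀ l ∈ D, l.Prime ∧ l ≠ 2) :
    Squarefree (2 * ∏ l ∈ D, l) := by
  have h2 : 2 ∉ D := fun h2 => (h 2 h2).2 rfl
  rw [← Finset.prod_insert (f := fun l : ℕ => l) h2]
  refine Finset.squarefree_prod_of_pairwise_isCoprime ?_ ?_
  · intro a ha b hb hab
    have pa : a.Prime := (Finset.mem_insert.1 ha).elim (fun h => h ▸ Nat.prime_two) fun h' => (h a h').1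
    have pb : b.Prime := (Finset.mem_insert.1 hb).elim (fun h => h ▸ Nat.prime_two) fun h' => (h b h').1
    exact Nat.coprime_iff_isRelPrime.1 ((Nat.coprime_primes pa pb).2 hab)
  · intro a ha
    exact ((Finset.mem_insert.1 ha).elim (fun h => h ▸ Nat.prime_two)
      fun h' => (h a h').1).squarefree

open Classical in
theorem many_rank_zero [DecidableEq F] [IsGalois ℚ F] [IsGalois ℚ K]
    (hK : Module.finrank ℚ K = 3) {j : ℕ} (hF : Module.finrank K F = 2 ^ j)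
    (hodd : Odd (NumberField.discr F)) : ∃ (m : ℕ) (c : ℝ) (T₀ : ℕ), 0 < c ∧
    ∀ T : ℕ, T₀ ≤ T → ∃ E ⊆ box T, c * (T : ℝ) ^ 5 ≤ E.card ∧ ∀ e ∈ E, ∃ d : ℕ, 1 ≤ d ∧
      d ≤ m ∧ Module.finrank ℤ (crv (tw e d) F).toAffine.Point = 0 ∧
      ∀ p : ℕ, p.Prime → ¬ ((p : ℤ) ^ 4 ∣ (tw e d).1 ∧ (p : ℤ) ^ 6 ∣ (tw e d).2) := by
  have : IsGalois K F := IsGalois.tower_top_of_isGalois ℚ K F
  obtain ⟨S⟩ := exists_setup K K hK
  obtain ⟨N₁, n1, h1⟩ := exists_unr K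
  obtain ⟨N₂, n2, h2⟩ := exists_unr F
  obtain ⟨N₃, n3, h3⟩ := tower_exact K j F hF
  obtain ⟨N, hN⟩ : ∃ N, N = N₁ * N₂ * N₃ * Nat.factorial 64 := ⟨_, rfl⟩
  have n0 : N ≠ 0 := by
    rw [hN]
    positivity
  have hsm : ∀ p : ℕ, p.Prime → p ≤ 64 → p ∣ N := fun p hp h =>
    hN ▸ (hp.dvd_factorial.2 h).mul_left _
  have d1 : N₁ ∣ N := hN ▸ ((dvd_mul_right _ _).mul_right _).mul_right _
  have d2 : N₂ ∣ N := hN ▸ ((dvd_mul_left _ _).mul_right _).mul_right _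
  have d3 : N₃ ∣ N := hN ▸ (dvd_mul_left _ _).mul_right _
  have h2N : 2 ∣ N := hsm 2 Nat.prime_two (by norm_num)
  have t2 := val_two_of_odd hodd
  have t2' : ∀ v : P K, val v (2 : K) < 1 → val v (2 : K) = exp (-1 : ℤ) := fun v hv => by
    simpa using unr_down (k := K) (k' := F) (l := 2) (by simpa using t2) v (by simpa using hv)
  obtain ⟨a, b, hab⟩ := exists_class K hK t2' n0 h2N
  obtain ⟨c, hc, T₁, hT₁⟩ := card_fam n0 hsm a b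
  obtain ⟨m₁, L₁, hm₁⟩ := countU2 S (ε := c / 4) (by positivity)
  obtain ⟨Q₁, c1, q1⟩ := exists_primes (fun l => l.Prime ∧ Deg1 F l)
    (fun Y => by
      obtain ⟨l, a1, a2, a3⟩ := exists_deg1 F Y
      exact ⟨l, a2, a1, a3⟩) m₁ (max L₁ N)
  obtain ⟨T₂, hT₂⟩ := hm₁ Q₁ c1 fun l hl =>
    ⟨(q1 l hl).2.1, (le_max_left _ _).trans_lt (q1 l hl).1, (q1 l hl).2.2.down⟩
  have p1 : ∏ l ∈ Q₁, l ≠ 0 := Finset.prod_ne_zero_iff.2 fun l hl => (q1 l hl).2.1.ne_zero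
  obtain ⟨m₂, L₂, hm₂⟩ := countQ2 p1 (ε := c / 4) (by positivity)
  have f3 : 3 ∣ Module.finrank ℚ F := by
    rw [← Module.finrank_mul_finrank ℚ K F, hK]
    exact dvd_mul_right _ _
  obtain ⟨Q₂, c2, q2⟩ := exists_primes (fun l => l.Prime ∧ ∀ w : P F, val w (l : F) < 1 →
      Nat.card (MulAction.stabilizer (F ≃ₐ[ℚ] F) w) = 3)
    (fun Y => by
      obtain ⟨l, a1, a2, a3⟩ := exists_stab_three F f3 Y
      exact ⟨l, a2, a1, a3⟩) m₂ (max (max L₂ N) (∏ l ∈ Q₁, l))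
  obtain ⟨T₃, hT₃⟩ := hm₂ Q₂ c2 fun l hl =>
    ⟨(q2 l hl).2.1, ((le_max_left _ _).trans (le_max_left _ _)).trans_lt (q2 l hl).1⟩
  have hdis : Disjoint Q₁ Q₂ := Finset.disjoint_left.2 fun l a1 a2 =>
    absurd (Nat.le_of_dvd (Nat.pos_of_ne_zero p1) (Finset.dvd_prod_of_mem _ a1))
      (not_le.2 ((le_max_right _ _).trans_lt (q2 l a2).1))
  have hQ : ∀ l ∈ Q₁ ∪ Q₂, l.Prime ∧ ¬ l ∣ N ∧
      ∀ w : P F, val w (l : F) < 1 → SqDesc (algebraMap K F) w := by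
    intro l hl
    rcases Finset.mem_union.1 hl with hl | hl
    · exact ⟨(q1 l hl).2.1, fun h => absurd (Nat.le_of_dvd (Nat.pos_of_ne_zero n0) h)
        (not_le.2 ((le_max_right _ _).trans_lt (q1 l hl).1)),
        fun w hw => sqDesc_of_res1 _ ((q1 l hl).2.2 w hw).2⟩
    · exact ⟨(q2 l hl).2.1, fun h => absurd (Nat.le_of_dvd (Nat.pos_of_ne_zero n0) h)
        (not_le.2 (((le_max_right _ _).trans (le_max_left _ _)).trans_lt (q2 l hl).1)),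
        fun w hw => sqDesc_of_three ((q2 l hl).2.2 w hw)⟩
  refine ⟨2 * ∏ l ∈ Q₁ ∪ Q₂, l, c / 2, max T₁ (max T₂ T₃), by positivity, fun T hT => ?_⟩
  let B₁ := (box T).filter fun e => ∃ d : (Cub e K)ˣ, Esc 1 Q₁ d ∧ S.cor e d ∈ SQ e ℚ
  let B₂ := (box T).filter fun e => ∃ d : (Cub e ℚ)ˣ, Esc (∏ l ∈ Q₁, l) Q₂ d
  have e1 := hT₁ T ((le_max_left _ _).trans hT)
  have e2 := hT₂ T (((le_max_left _ _).trans (le_max_right _ _)).trans hT) B₁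
    (Finset.filter_subset _ _) fun e he => (Finset.mem_filter.1 he).2
  have e3 := hT₃ T (((le_max_right _ _).trans (le_max_right _ _)).trans hT) B₂
    (Finset.filter_subset _ _) fun e he => (Finset.mem_filter.1 he).2
  refine ⟨(box T).filter (Fam N a b) \ (B₁ ∪ B₂),
    Finset.sdiff_subset.trans (Finset.filter_subset _ _), ?_, fun e he => ?_⟩
  · have e4 : (((box T).filter (Fam N a b)).card : ℝ) ≤
        ((box T).filter (Fam N a b) \ (B₁ ∪ B₂)).card + (B₁.card + B₂.card) := by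
      exact_mod_cast Finset.card_le_card_sdiff_add_card.trans
        (Nat.add_le_add_left (Finset.card_union_le _ _) _)
    linarith
  · obtain ⟨a1, a2⟩ := Finset.mem_sdiff.1 he
    obtain ⟨a3, a4, a5, a6, a7⟩ := Finset.mem_filter.1 a1
    obtain ⟨a8, a9, a10⟩ := hab e a5 a6
    obtain ⟨D, hD, hr⟩ := core S h2N (h1 N d1) (h2 N d2) t2 (fun N' h => h3 N' (d3.trans h) e) a4 a8
      a9 (fun p hp h => (a10 p hp h).2) a7 hdis hQ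
      (fun l hl => smul_eq_of_three hK hF (q2 l hl).2.2)
      (fun h => a2 (Finset.mem_union_left _ (Finset.mem_filter.2 ⟨a3, h⟩)))
      (fun h => a2 (Finset.mem_union_right _ (Finset.mem_filter.2 ⟨a3, h⟩)))
    have hs : Squarefree (2 * ∏ l ∈ D, l) := squarefree_two_mul fun l hl =>
      ⟨(hQ l (hD hl)).1, fun h => (hQ l (hD hl)).2.1 (h ▸ h2N)⟩
    refine ⟨_, Nat.pos_of_ne_zero hs.ne_zero, Nat.mul_le_mul_left _ (Nat.le_of_dvd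
      (Finset.prod_pos fun l hl => (hQ l hl).1.pos) (Finset.prod_dvd_prod_of_subset _ _ _ hD)), hr,
      tw_minimal hs fun p hp => ?_⟩
    by_cases h : p ∣ N
    · exact Or.inl (a10 p hp h).1
    · exact Or.inr (a7 p hp h)

end Pool.Agent.Lib.MP_775b3b_nt
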