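import Mathlib

/-! A mixing lemma. -/

namespace Pool.Agent.Lib.MP_775b3b_nt

open Classical in
/-- Orthogonality of the characters `k ↦ ψ (k · y)`. -/
theorem zmix_orth {p : ℕ} [Fact p.Prime] {U : Type} [Fintype U] (y : U → ZMod p) :
    ∑ k : U → ZMod p, (ZMod.stdAddChar (∑ u, k u * y u) : ℂ) =
      if y = 0 then (p : ℂ) ^ Fintype.card U else 0 := by
  have h1 : ∀ k : U → ZMod p, (ZMod.stdAddChar (∑ u, k u * y u) : ℂ) =
      ∏ u, (ZMod.stdAddChar (k u * y u) : ℂ) := by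
    intro k
    have : ∀ s : Finset U, (ZMod.stdAddChar (∑ u ∈ s, k u * y u) : ℂ) =
        ∏ u ∈ s, (ZMod.stdAddChar (k u * y u) : ℂ) := by
      intro s
      induction s using Finset.induction_on with
      | empty => simp
      | insert a s ha ih => rw [Finset.sum_insert ha, Finset.prod_insert ha,
          AddChar.map_add_eq_mul, ih]
    exact this _
  simp_rw [h1]
  have h2 := Finset.prod_univ_sum (fun _ : U => (Finset.univ : Finset (ZMod p)))
    (fun (u : U) (c : ZMod p) => (ZMod.stdAddChar (c * y u) : ℂ))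
  rw [Fintype.piFinset_univ] at h2
  rw [← h2]
  have h3 : ∀ u : U, ∑ c : ZMod p, (ZMod.stdAddChar (c * y u) : ℂ) =
      if y u = 0 then (p : ℂ) else 0 := by
    intro u
    have := AddChar.sum_mulShift (y u) (ZMod.isPrimitive_stdAddChar p)
    rw [this]
    split_ifs <;> simp [ZMod.card]
  simp_rw [h3]
  split_ifs with hy
  · subst hy
    simp
  · obtain ⟨u, hu⟩ := Function.ne_iff.mp hy
    exact Finset.prod_eq_zero (Finset.mem_univ u) (if_neg hu)

theorem zmix_conj {p : ℕ} [Fact p.Prime] (a : ZMod p) :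
    (starRingEnd ℂ) (ZMod.stdAddChar a : ℂ) = ZMod.stdAddChar (-a) := by
  have h1 : ‖(ZMod.stdAddChar a : ℂ)‖ = 1 := AddChar.norm_apply _ _
  have h2 : (ZMod.stdAddChar a : ℂ) * ZMod.stdAddChar (-a) = 1 := by
    rw [← AddChar.map_add_eq_mul]; simp
  have h3 : (ZMod.stdAddChar a : ℂ) * (starRingEnd ℂ) (ZMod.stdAddChar a : ℂ) = 1 := by
    rw [Complex.mul_conj, Complex.normSq_eq_norm_sq, h1]; simp
  have h4 : (ZMod.stdAddChar a : ℂ) ≠ 0 := by
    intro h; rw [h] at h1; simp at h1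
  exact mul_left_cancel₀ h4 (h3.trans h2.symm)

open Classical in
/-- Parseval for the indicator function of `A`. -/
theorem zmix_pars {p : ℕ} [Fact p.Prime] {U : Type} [Fintype U] (A : Finset (U → ZMod p)) :
    ∑ k : U → ZMod p, ‖∑ a ∈ A, (ZMod.stdAddChar (∑ u, k u * a u) : ℂ)‖ ^ 2 =
      (p : ℝ) ^ Fintype.card U * A.card := by
  have h : ∀ k : U → ZMod p, ((‖∑ a ∈ A, (ZMod.stdAddChar (∑ u, k u * a u) : ℂ)‖ ^ 2 : ℝ) : ℂ) =
      ∑ a ∈ A, ∑ b ∈ A, (ZMod.stdAddChar (∑ u, k u * (a - b) u) : ℂ) := by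
    intro k
    rw [← Complex.normSq_eq_norm_sq, ← Complex.mul_conj, map_sum, Finset.sum_mul_sum]
    refine Finset.sum_congr rfl fun a _ => Finset.sum_congr rfl fun b _ => ?_
    rw [zmix_conj, ← AddChar.map_add_eq_mul]
    congr 1
    simp only [Pi.sub_apply, mul_sub, Finset.sum_sub_distrib]
    ring
  have h2 : ((∑ k : U → ZMod p, ‖∑ a ∈ A, (ZMod.stdAddChar (∑ u, k u * a u) : ℂ)‖ ^ 2 : ℝ) : ℂ) =
      (((p : ℝ) ^ Fintype.card U * A.card : ℝ) : ℂ) := by
    rw [Complex.ofReal_sum]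
    simp_rw [h]
    rw [Finset.sum_comm]
    have : ∀ a ∈ A, ∑ k : U → ZMod p, ∑ b ∈ A, (ZMod.stdAddChar (∑ u, k u * (a - b) u) : ℂ) =
        (p : ℂ) ^ Fintype.card U := by
      intro a ha
      rw [Finset.sum_comm]
      simp_rw [zmix_orth, sub_eq_zero]
      rw [Finset.sum_ite_eq]
      simp [ha]
    rw [Finset.sum_congr rfl this]
    simp [mul_comm]
  exact_mod_cast h2

open Classical in
/-- With `ψ = ZMod.stdAddChar`, orthogonality: `∑ k : U → ZMod p, ψ (∑ u, k u * y u)` is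
`p ^ card U` for `y = 0` and `0` otherwise (`Finset.prod_univ_sum` and `AddChar.sum_mulShift`).
So `p ^ card U * N = ∑ k, ψ (k · x₀) ‖F k‖^2 conj (∑ i, ψ (k · x i))`, `F k = ∑ a ∈ A, ψ (k · a)`.
The term `k = 0` is `card A ^ 2 * card ι`, the others are bounded with
`∑ k, ‖F k‖^2 = p ^ card U * card A`. -/
theorem mixing {p : ℕ} [Fact p.Prime] {U ι : Type} [Fintype U] [Fintype ι]
    (x : ι → U → ZMod p) {Λ : ℝ} (hΛ : 0 ≤ Λ)
    (hx : ∀ k : U → ZMod p, k ≠ 0 → ‖∑ i, ZMod.stdAddChar (∑ u, k u * x i u)‖ ≤ Λ)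
    (A : Finset (U → ZMod p)) (x₀ : U → ZMod p) :
    (((A ×ˢ A ×ˢ (Finset.univ : Finset ι)).filter fun t => x t.2.2 = x₀ + t.1 - t.2.1).card : ℝ) ≤
      (A.card : ℝ) ^ 2 * Fintype.card ι / (p : ℝ) ^ Fintype.card U + Λ * A.card := by
  have hp : (0 : ℝ) < (p : ℝ) ^ Fintype.card U := by
    have : (0 : ℝ) < p := by exact_mod_cast (Fact.out : p.Prime).pos
    positivity
  set N := ((A ×ˢ A ×ˢ (Finset.univ : Finset ι)).filter
    fun t => x t.2.2 = x₀ + t.1 - t.2.1).card with hN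
  let F : (U → ZMod p) → ℂ := fun k => ∑ a ∈ A, (ZMod.stdAddChar (∑ u, k u * a u) : ℂ)
  let G : (U → ZMod p) → ℂ := fun k => ∑ i, (ZMod.stdAddChar (∑ u, k u * x i u) : ℂ)
  have h1 : ((p : ℂ) ^ Fintype.card U * N) = ∑ k : U → ZMod p,
      (ZMod.stdAddChar (∑ u, k u * x₀ u) : ℂ) * (F k * (starRingEnd ℂ) (F k)) *
        (starRingEnd ℂ) (G k) := by
    have e1 : ∀ k : U → ZMod p, (ZMod.stdAddChar (∑ u, k u * x₀ u) : ℂ) *
        (F k * (starRingEnd ℂ) (F k)) * (starRingEnd ℂ) (G k) =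
        ∑ t ∈ A ×ˢ A ×ˢ (Finset.univ : Finset ι),
          (ZMod.stdAddChar (∑ u, k u * (x₀ + t.1 - t.2.1 - x t.2.2) u) : ℂ) := by
      intro k
      simp only [F, G, map_sum, zmix_conj]
      rw [Finset.sum_product, Finset.sum_mul_sum A A, Finset.mul_sum A, Finset.sum_mul]
      refine Finset.sum_congr rfl fun a _ => ?_
      rw [Finset.sum_product, Finset.mul_sum A, Finset.sum_mul]
      refine Finset.sum_congr rfl fun b _ => ?_
      rw [Finset.mul_sum]
      refine Finset.sum_congr rfl fun i _ => ?_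
      rw [← AddChar.map_add_eq_mul, ← AddChar.map_add_eq_mul, ← AddChar.map_add_eq_mul]
      congr 1
      simp only [Pi.sub_apply, Pi.add_apply, mul_sub, mul_add, Finset.sum_sub_distrib,
        Finset.sum_add_distrib]
      ring
    simp_rw [e1]
    rw [Finset.sum_comm]
    simp_rw [zmix_orth, sub_eq_zero]
    rw [← Finset.sum_filter, Finset.sum_const, hN, nsmul_eq_mul, mul_comm]
    congr 2
    refine congrArg Finset.card ?_
    ext t
    simp only [Finset.mem_filter]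
    exact and_congr_right fun _ => eq_comm
  have h2 : (p : ℝ) ^ Fintype.card U * N ≤ ∑ k : U → ZMod p, ‖F k‖ ^ 2 * ‖G k‖ := by
    have : (p : ℝ) ^ Fintype.card U * N = ‖((p : ℂ) ^ Fintype.card U * N)‖ := by
      simp
    rw [this, h1]
    refine (norm_sum_le _ _).trans (le_of_eq (Finset.sum_congr rfl fun k _ => ?_))
    rw [norm_mul, norm_mul, norm_mul, AddChar.norm_apply, RCLike.norm_conj, RCLike.norm_conj]
    ring
  have h3 : ∑ k : U → ZMod p, ‖F k‖ ^ 2 * ‖G k‖ ≤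
      (A.card : ℝ) ^ 2 * Fintype.card ι + Λ * ((p : ℝ) ^ Fintype.card U * A.card) := by
    rw [← zmix_pars A, Finset.mul_sum, ← Finset.add_sum_erase _ _ (Finset.mem_univ 0)]
    have e0 : ‖F 0‖ ^ 2 * ‖G 0‖ = (A.card : ℝ) ^ 2 * Fintype.card ι := by
      simp [F, G]
    rw [e0]
    refine add_le_add le_rfl ?_
    refine le_trans (Finset.sum_le_sum fun k hk => ?_)
      (Finset.sum_le_sum_of_subset_of_nonneg (Finset.erase_subset _ _) fun k _ _ => by positivity)
    rw [mul_comm]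
    exact mul_le_mul_of_nonneg_right (hx k (Finset.ne_of_mem_erase hk)) (by positivity)
  have h4 := h2.trans h3
  rw [div_add' _ _ _ hp.ne', le_div_iff₀ hp]
  nlinarith [h4]

end Pool.Agent.Lib.MP_775b3b_nt
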