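import Pool.Agent.Lib.MP_775b3b_nt.ZRedD1
import Pool.Agent.Lib.MP_775b3b_nt.Red

/-! Short isotropic vectors with a defect. -/

namespace Pool.Agent.Lib.MP_775b3b_nt

open Cub NumberField

section aux

variable {k : Type*} [Field k] [NumberField k] {n : ℕ} {e : ℤ × ℤ} {T : ℝ} {d : (Cub e k)ˣ} {ν : k} {z : Nat.Primes → (Cub e k)ˣ}
  {ε : (k →+* ℂ) → Cub e ℂ}

theorem ZRedD2_lower (hT : 0 < T) (h : LocD n d z) (hε : Eps (d : Cub e k) ν ε) : ∃ δ : ℝ, 0 < δ ∧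
    ∀ x : Cub e k, InLat z x → x ≠ 0 → δ ≤ ‖fun σ => im T ε σ x‖ := by
  choose m hm hl using h.exists_mul
  let y : Fin 3 → Cub e k := ![1, th, th * th]
  let M : ℝ := ‖fun i σ => im T ε σ ((m (y i) : k) • y i)‖
  have hM : 0 ≤ M := norm_nonneg _
  refine ⟨1 / (3 * M + 1), by positivity, fun x hx h0 => ?_⟩
  obtain ⟨i, hi⟩ : ∃ i, Bf (d : Cub e k) x (y i) ≠ 0 := by
    by_contra hc
    push Not at hc
    have h2 : ((d : Cub e k) * x).c2 = 0 := by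
      have := hc 0
      rwa [Bf, show y 0 = 1 from rfl, mul_one] at this
    have h3 : (d : Cub e k) * x = 0 := by
      ext
      · rw [c0_eq, h2, mul_zero, add_zero]
        exact hc 2
      · rw [c1_eq]
        exact hc 1
      · exact h2
    exact h0 ((Units.mul_right_eq_zero d).1 h3)
  obtain ⟨σ, hσ⟩ := exists_one_le k (h.isIntegral_Bf hx (hl (y i))) (by
    rw [Bf_smul_right]
    exact mul_ne_zero (Nat.cast_ne_zero.2 (hm _)) hi)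
  rw [← hε.sB_im hT.ne'] at hσ
  have h1 : ‖im T ε σ x‖ ≤ ‖fun σ => im T ε σ x‖ := norm_le_pi_norm (fun σ => im T ε σ x) σ
  have h2 : ‖im T ε σ ((m (y i) : k) • y i)‖ ≤ M :=
    (norm_le_pi_norm (fun σ => im T ε σ ((m (y i) : k) • y i)) σ).trans
      (norm_le_pi_norm (fun i σ => im T ε σ ((m (y i) : k) • y i)) i)
  have h3 := hσ.trans ((norm_sB_le _ _).trans (mul_le_mul (mul_le_mul_of_nonneg_left h1
    zero_le_three) h2 (norm_nonneg _) (by positivity)))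
  rw [div_le_iff₀ (by positivity)]
  nlinarith [norm_nonneg fun σ => im T ε σ x]

theorem ZRedD2_min (hT : 0 < T) (h : LocD n d z) (hε : Eps (d : Cub e k) ν ε)
    (hx : ∃ x : Cub e k, x ≠ 0 ∧ Bf (d : Cub e k) x x = 0) :
    ∃ v : Cub e k, InLat z v ∧ v ≠ 0 ∧ Bf (d : Cub e k) v v = 0 ∧
      ∀ x : Cub e k, InLat z x → x ≠ 0 → Bf (d : Cub e k) x x = 0 →
        ‖fun σ => im T ε σ v‖ ≤ 2 * ‖fun σ => im T ε σ x‖ := by
  obtain ⟨δ, hδ, h1⟩ := ZRedD2_lower hT h hε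
  obtain ⟨x, h0, hx⟩ := hx
  obtain ⟨m, hm, hl⟩ := h.exists_mul x
  let S : Set ℝ := {t | ∃ x : Cub e k, (InLat z x ∧ x ≠ 0 ∧ Bf (d : Cub e k) x x = 0) ∧
    ‖fun σ => im T ε σ x‖ = t}
  have hS : S.Nonempty := ⟨_, (m : k) • x, ⟨hl, smul_ne_zero (Nat.cast_ne_zero.2 hm) h0, by
    rw [Bf_smul_left, Bf_smul_right, hx, mul_zero, mul_zero]⟩, rfl⟩
  have h2 : δ ∈ lowerBounds S := by
    rintro _ ⟨x, hx, rfl⟩
    exact h1 x hx.1 hx.2.1
  have h3 := le_csInf hS h2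
  obtain ⟨_, ⟨v, hv, rfl⟩, h4⟩ := exists_lt_of_csInf_lt hS (by linarith : sInf S < 2 * sInf S)
  exact ⟨v, hv.1, hv.2.1, hv.2.2, fun x a b c => h4.le.trans
    (mul_le_mul_of_nonneg_left (csInf_le ⟨δ, h2⟩ ⟨x, ⟨a, b, c⟩, rfl⟩) zero_le_two)⟩

end aux

/-- copy of `exists_short` (with `red_lower`, `red_min` for `LocD`); now `(n a) • v0` is in the
lattice (`LocD.dual`), so `τ v0 ≤ 2 n s` and `2^card C₁` becomes `(2 n)^card C₁` -/
theorem exists_shortD (k : Type*) [Field k] [NumberField k] {n : ℕ} (hn : n ≠ 0) :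
    ∃ (n₁ : ℕ) (C : ℝ), n₁ ≠ 0 ∧ 1 ≤ C ∧ ∀ (e : ℤ × ℤ) (T : ℝ), 0 < T →
    ∀ (d : (Cub e k)ˣ) (ν : k) (z : Nat.Primes → (Cub e k)ˣ) (ε : (k →+* ℂ) → Cub e ℂ),
    nm (d : Cub e k) = ν ^ 2 → LocD n d z → Eps (d : Cub e k) ν ε → Iso (d : Cub e k) →
    ∃ (v0 w : Cub e k) (τ : ℝ), InLat z v0 ∧ InLat z w ∧ Bf (d : Cub e k) v0 v0 = 0 ∧
      Bf (d : Cub e k) v0 w = n₁ ∧ 0 < τ ∧
      (∀ σ, ‖im T ε σ v0‖ ≤ τ ∧ τ ≤ C * ‖im T ε σ v0‖) ∧
      ∀ x : Cub e k, InLat z x → x ≠ 0 → Bf (d : Cub e k) x x = 0 →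
        ∃ σ, τ ≤ 2 * ‖im T ε σ x‖ := by
  classical
  obtain ⟨C₁, hC₁, hm⟩ := exists_mink k
  set c := Fintype.card (k →+* ℂ) with hc
  have n1 : (1 : ℝ) ≤ n := by exact_mod_cast Nat.one_le_iff_ne_zero.2 hn
  have c0 : 0 < c := Fintype.card_pos
  have hC : (1 : ℝ) ≤ (2 * (n : ℝ)) ^ c * C₁ := one_le_mul_of_one_le_of_one_le (one_le_pow₀ (by linarith)) hC₁
  refine ⟨⌈(2 * (n : ℝ)) ^ c * C₁⌉₊.factorial, (2 * (n : ℝ)) ^ c * C₁, Nat.factorial_ne_zero _, hC,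
    fun e T hT d ν z ε hν h hε hx => ?_⟩
  obtain ⟨v, hv, v0, hiso, hmin⟩ := ZRedD2_min hT h hε hx
  have ν0 : ν ≠ 0 := fun h0 => nm_ne_zero d (by rw [hν, h0, zero_pow two_ne_zero])
  have hpos : ∀ σ, 0 < ‖im T ε σ v‖ := fun σ => norm_pos_iff.2 (hε.im_ne_zero ν0 hT.ne' σ v0)
  set τ := ‖fun σ => im T ε σ v‖ with hτ
  have hle : ∀ σ, ‖im T ε σ v‖ ≤ τ := norm_le_pi_norm fun σ => im T ε σ v
  have τ0 : 0 < τ := (hpos (Classical.arbitrary _)).trans_le (hle _)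
  obtain ⟨b, hb, hb'⟩ := h.exists_ideal hv v0
  have N0 : 0 < Ideal.absNorm b := Nat.pos_of_ne_zero fun h0 => hb (Ideal.absNorm_eq_zero_iff.1 h0)
  have N1 : (1 : ℝ) ≤ Ideal.absNorm b := by exact_mod_cast N0
  set P := ∏ σ, ‖im T ε σ v‖ with hP
  have P0 : 0 < P := Finset.prod_pos fun σ _ => hpos σ
  obtain ⟨s, s0, hs⟩ : ∃ s : ℝ, 0 < s ∧ s ^ c = C₁ * P / Ideal.absNorm b :=
    ⟨_, Real.rpow_pos_of_pos (by positivity) _, Real.rpow_inv_natCast_pow (by positivity) c0.ne'⟩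
  obtain ⟨a, a0, ha, ha'⟩ := hm b hb (fun σ => s / ‖im T ε σ v‖)
    (fun σ => div_pos s0 (hpos σ)) (fun σ => by
      rw [show im T ε (ComplexEmbedding.conjugate σ) v = star (im T ε σ v) from
        funext (hε.im_conj σ v), norm_star]) (le_of_eq (by
      rw [Finset.prod_div_distrib, Finset.prod_const, Finset.card_univ, ← hc, ← hP, hs]
      field_simp))
  have h1 : τ ≤ 2 * (n : ℝ) * s := by
    rw [mul_assoc]
    refine (hmin ((n : k) • a • v) (h.dual fun y hy => ?_)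
      (smul_ne_zero (Nat.cast_ne_zero.2 hn) (smul_ne_zero a0 v0)) (by
      rw [smul_smul, Bf_smul_left, Bf_smul_right, hiso, mul_zero, mul_zero])).trans
      (mul_le_mul_of_nonneg_left ((pi_norm_le_iff_of_nonneg (by positivity)).2 fun σ => ?_)
        zero_le_two)
    · obtain ⟨r, hr, h2⟩ := (hb' _).2 ⟨y, hy, rfl⟩
      rw [Bf_smul_left, ← h2]
      exact ha r hr
    · rw [im_smul, im_smul, norm_smul, norm_smul, map_natCast, Complex.norm_natCast]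
      exact mul_le_mul_of_nonneg_left ((le_div_iff₀ (hpos σ)).1 (ha' σ)) (Nat.cast_nonneg n)
  have h2 : τ ^ c * Ideal.absNorm b ≤ (2 * (n : ℝ)) ^ c * C₁ * P := by
    have h3 := pow_le_pow_left₀ τ0.le h1 c
    rwa [mul_pow, hs, ← mul_div_assoc, le_div_iff₀ (by positivity), ← mul_assoc] at h3
  have h3 : ∀ σ, P ≤ τ ^ (c - 1) * ‖im T ε σ v‖ := fun σ => by
    rw [hP, ← Finset.prod_erase_mul _ _ (Finset.mem_univ σ)]
    refine mul_le_mul_of_nonneg_right ((Finset.prod_le_prod (fun _ _ => norm_nonneg _)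
      fun σ _ => hle σ).trans (le_of_eq ?_)) (norm_nonneg _)
    rw [Finset.prod_const, Finset.card_erase_of_mem (Finset.mem_univ _), Finset.card_univ]
  have h4 : τ ^ c = τ ^ (c - 1) * τ := by rw [← pow_succ, Nat.sub_add_cancel c0]
  have h5 : ∀ σ, τ * Ideal.absNorm b ≤ (2 * (n : ℝ)) ^ c * C₁ * ‖im T ε σ v‖ := fun σ => by
    refine le_of_mul_le_mul_left ?_ (pow_pos τ0 (c - 1))
    rw [← mul_assoc, ← h4, mul_left_comm]
    exact h2.trans (mul_le_mul_of_nonneg_left (h3 σ) (by positivity))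
  have h6 : (Ideal.absNorm b : ℝ) ≤ (2 * (n : ℝ)) ^ c * C₁ := by
    refine le_of_mul_le_mul_left ?_ τ0
    rw [mul_comm τ (_ * _)]
    exact (h5 (Classical.arbitrary _)).trans (mul_le_mul_of_nonneg_left (hle _) (by positivity))
  obtain ⟨q, hq⟩ := Nat.dvd_factorial N0 (Nat.cast_le.1 (h6.trans (Nat.le_ceil _)))
  obtain ⟨w, hw, hw'⟩ := (hb' (⌈(2 * (n : ℝ)) ^ c * C₁⌉₊.factorial : ℕ)).1 ⟨_, by
    rw [hq, Nat.cast_mul]
    exact b.mul_mem_right _ (Ideal.absNorm_mem b), map_natCast _ _⟩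
  refine ⟨v, w, τ, hv, hw, hiso, hw', τ0, fun σ => ⟨hle σ,
    (le_mul_of_one_le_right τ0.le N1).trans (h5 σ)⟩, fun x hx x0 hx' => ?_⟩
  obtain ⟨σ, hσ⟩ := Finite.exists_max fun σ => ‖im T ε σ x‖
  exact ⟨σ, (hmin x hx x0 hx').trans (mul_le_mul_of_nonneg_left
    ((pi_norm_le_iff_of_nonneg (norm_nonneg _)).2 hσ) zero_le_two)⟩

end Pool.Agent.Lib.MP_775b3b_nt
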