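import Pool.Agent.Lib.MP_775b3b_nt.ZDefs

/-! Reduction modulo a place. -/

namespace Pool.Agent.Lib.MP_775b3b_nt

open Cub MP_439fea_co WithZero

theorem zres_residue {k : Type*} [Field k] [NumberField k] (v : P k) :
    RedAt v (IsLocalRing.residue (val v).integer) :=
  ⟨IsLocalRing.residue_surjective, fun x => by
    rw [IsLocalRing.residue_eq_zero_iff, IsLocalRing.mem_maximalIdeal, mem_nonunits_iff]
    exact Valuation.Integer.not_isUnit_iff_valuation_lt_one⟩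

/-- `κ = IsLocalRing.ResidueField (val v).integer` (or `𝓞 k ⧸ v.asIdeal`, see `lociso_val`);
finiteness from `Val_reps v 1` -/
theorem exists_redAt {k : Type} [Field k] [NumberField k] (v : P k) :
    ∃ (κ : Type) (_ : Field κ) (_ : Finite κ) (ρ : (val v).integer →+* κ), RedAt v ρ := by
  refine ⟨IsLocalRing.ResidueField (val v).integer, inferInstance, ?_, _, zres_residue v⟩
  obtain ⟨R, -, hR⟩ := Val_reps v 1
  refine Finite.of_surjective (fun r : R => rd (IsLocalRing.residue (val v).integer) (r : k))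
    fun c => ?_
  obtain ⟨y, rfl⟩ := (zres_residue v).surj c
  obtain ⟨r, hr, h⟩ := hR y y.2
  have h1 : val v (y - r) < 1 := h.trans_lt (by rw [← exp_zero, exp_lt_exp]; norm_num)
  have h2 : val v r ≤ 1 := by
    rw [show r = y - (y - r) by ring]
    exact Valuation.map_sub_le _ y.2 h1.le
  refine ⟨⟨r, hr⟩, ?_⟩
  have h3 := ((zres_residue v).ker (y - ⟨r, h2⟩)).2 h1
  rw [map_sub, sub_eq_zero] at h3
  exact (dif_pos h2).trans h3.symm

variable {e : ℤ × ℤ} {k : Type*} [Field k] [NumberField k] {v : P k}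

/-- send `x` to the class of an integer `n` with `val v (x - n) < 1`; it is well defined by
`val_natCast_lt_one_iff` -/
theorem exists_redAt_zmod {l : ℕ} (hl : l.Prime) (hv : val v (l : k) < 1) (h : Res1 v) :
    ∃ ρ : (val v).integer →+* ZMod l, RedAt v ρ := by
  have := Fact.mk hl
  have h0 : ((l : ℕ) : IsLocalRing.ResidueField (val v).integer) = 0 := by
    rw [← map_natCast (IsLocalRing.residue (val v).integer)]
    exact ((zres_residue v).ker _).2 hv
  have : CharP (IsLocalRing.ResidueField (val v).integer) l :=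
    ringChar.of_eq (CharP.ringChar_of_prime_eq_zero hl h0)
  have hb : Function.Bijective
      (ZMod.castHom (dvd_refl l) (IsLocalRing.ResidueField (val v).integer)) := by
    refine ⟨RingHom.injective _, fun c => ?_⟩
    obtain ⟨y, rfl⟩ := (zres_residue v).surj c
    obtain ⟨n, hn⟩ := h y y.2
    have h3 := ((zres_residue v).ker (y - n)).2 hn
    rw [map_sub, sub_eq_zero, map_intCast] at h3
    exact ⟨n, by rw [map_intCast, h3]⟩
  let φ := RingEquiv.ofBijective _ hb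
  refine ⟨φ.symm.toRingHom.comp (IsLocalRing.residue _),
    φ.symm.surjective.comp (zres_residue v).surj, fun x => ?_⟩
  exact (map_eq_zero_iff φ.symm φ.symm.injective).trans ((zres_residue v).ker x)

theorem exists_unif (v : P k) : ∃ π : k, val v π = exp (-1 : ℤ) := by
  exact v.valuation_exists_uniformizer k

theorem val_int_le (v : P k) (n : ℤ) : val v (n : k) ≤ 1 := by
  exact intCast_mem (val v).integer n

theorem val_le_exp {x : k} (h : val v x < 1) : val v x ≤ exp (-1 : ℤ) := by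
  by_cases hx : x = 0
  · simp [hx]
  rw [val_eq_exp v hx] at h ⊢
  rw [← exp_zero, exp_lt_exp] at h
  exact exp_le_exp.2 (by omega)

/-- divide by a coordinate of maximal valuation -/
theorem exists_prim (v : P k) {x : Cub e k} (hx : x ≠ 0) :
    ∃ c : k, c ≠ 0 ∧ c • x ∈ Ov e v ∧ ¬ Sm v (c • x) := by
  have key : ∀ m : k, m ≠ 0 → val v x.c0 ≤ val v m → val v x.c1 ≤ val v m → val v x.c2 ≤ val v m →
      (m = x.c0 ∨ m = x.c1 ∨ m = x.c2) → ∃ c : k, c ≠ 0 ∧ c • x ∈ Ov e v ∧ ¬ Sm v (c • x) := by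
    intro m hm h0 h1 h2 h3
    have h4 : ∀ y, val v y ≤ val v m → val v (m⁻¹ * y) ≤ 1 := fun y hy => by
      rw [map_mul, map_inv₀, inv_mul_le_one₀ (zero_lt_iff.2 ((Valuation.ne_zero_iff _).2 hm))]
      exact hy
    refine ⟨m⁻¹, inv_ne_zero hm, ⟨h4 _ h0, h4 _ h1, h4 _ h2⟩, fun ⟨k0, k1, k2⟩ => ?_⟩
    have h5 : ¬ val v (m⁻¹ * m) < 1 := by rw [inv_mul_cancel₀ hm, map_one]; exact lt_irrefl _
    rcases h3 with h | h | h
    · exact h5 (by rw [h] at k0 ⊢; exact k0)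
    · exact h5 (by rw [h] at k1 ⊢; exact k1)
    · exact h5 (by rw [h] at k2 ⊢; exact k2)
  have hz : ∀ m : k, val v x.c0 ≤ val v m → val v x.c1 ≤ val v m → val v x.c2 ≤ val v m → m ≠ 0 := by
    rintro m h0 h1 h2 rfl
    rw [map_zero, le_zero_iff, Valuation.zero_iff] at h0 h1 h2
    exact hx (by ext <;> assumption)
  rcases le_total (val v x.c0) (val v x.c1) with h1 | h1
  · rcases le_total (val v x.c1) (val v x.c2) with h2 | h2
    · exact key _ (hz _ (h1.trans h2) h2 le_rfl) (h1.trans h2) h2 le_rfl (Or.inr (Or.inr rfl))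
    · exact key _ (hz _ h1 le_rfl h2) h1 le_rfl h2 (Or.inr (Or.inl rfl))
  · rcases le_total (val v x.c0) (val v x.c2) with h2 | h2
    · exact key _ (hz _ h2 (h1.trans h2) le_rfl) h2 (h1.trans h2) le_rfl (Or.inr (Or.inr rfl))
    · exact key _ (hz _ le_rfl h1 h2) le_rfl h1 h2 (Or.inl rfl)

theorem tau_mem_Ov {r : k} (hr : val v r ≤ 1) : tau e r ∈ Ov e v := by
  exact ⟨add_mem ((val v).integer.pow_mem hr 2) (intCast_mem _ _), hr, one_mem _⟩

theorem lin_mem_Ov {r : k} (hr : val v r ≤ 1) : lin e r ∈ Ov e v := by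
  exact ⟨hr, neg_mem (one_mem _), zero_mem _⟩

theorem val_evr_le {r : k} (hr : val v r ≤ 1) {x : Cub e k} (hx : x ∈ Ov e v) :
    val v (evr r x) ≤ 1 := by
  exact add_mem (S := Subring k) (add_mem hx.1 (mul_mem hx.2.1 hr))
    (mul_mem hx.2.2 ((val v).integer.pow_mem hr 2))

variable {κ : Type*} [CommRing κ] (ρ : (val v).integer →+* κ) {a b : k} {x y : Cub e k}

theorem rd_coe (a : (val v).integer) : rd ρ (a : k) = ρ a := by
  exact dif_pos a.2

theorem rd_add (ha : val v a ≤ 1) (hb : val v b ≤ 1) : rd ρ (a + b) = rd ρ a + rd ρ b := by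
  lift a to (val v).integer using ha
  lift b to (val v).integer using hb
  rw [rd_coe, rd_coe, ← map_add, ← rd_coe]
  rfl

theorem rd_sub (ha : val v a ≤ 1) (hb : val v b ≤ 1) : rd ρ (a - b) = rd ρ a - rd ρ b := by
  lift a to (val v).integer using ha
  lift b to (val v).integer using hb
  rw [rd_coe, rd_coe, ← map_sub, ← rd_coe]
  rfl

theorem rd_neg (a : k) : rd ρ (-a) = -rd ρ a := by
  by_cases ha : val v a ≤ 1
  · lift a to (val v).integer using ha
    rw [rd_coe, ← map_neg, ← rd_coe]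
    rfl
  · rw [rd, rd, dif_neg ha, dif_neg (by rwa [Valuation.map_neg]), neg_zero]

theorem rd_mul (ha : val v a ≤ 1) (hb : val v b ≤ 1) : rd ρ (a * b) = rd ρ a * rd ρ b := by
  lift a to (val v).integer using ha
  lift b to (val v).integer using hb
  rw [rd_coe, rd_coe, ← map_mul, ← rd_coe]
  rfl

theorem rd_pow (ha : val v a ≤ 1) (n : ℕ) : rd ρ (a ^ n) = rd ρ a ^ n := by
  lift a to (val v).integer using ha
  rw [rd_coe, ← map_pow, ← rd_coe]
  rfl

theorem rd_intCast (n : ℤ) : rd ρ (n : k) = n := by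
  exact (rd_coe ρ n).trans (map_intCast ρ n)

theorem rd_natCast (n : ℕ) : rd ρ (n : k) = n := by
  exact (rd_coe ρ n).trans (map_natCast ρ n)

theorem rd_zero : rd ρ (0 : k) = 0 := by
  exact (rd_coe ρ 0).trans (map_zero ρ)

theorem rd_one : rd ρ (1 : k) = 1 := by
  exact (rd_coe ρ 1).trans (map_one ρ)

/-- lift the matrix to the valuation ring, `RingHom.map_det` -/
theorem rd_det {n : Type*} [Fintype n] [DecidableEq n] {M : Matrix n n k}
    (hM : ∀ i j, val v (M i j) ≤ 1) : val v M.det ≤ 1 ∧ rd ρ M.det = (M.map (rd ρ)).det := by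
  let N : Matrix n n (val v).integer := Matrix.of fun i j => ⟨M i j, hM i j⟩
  have h1 : M.det = (N.det : k) := ((val v).integer.subtype.map_det N).symm
  have h2 : M.map (rd ρ) = ρ.mapMatrix N := Matrix.ext fun i j => rd_coe ρ (N i j)
  rw [h1, h2, rd_coe, ← ρ.map_det]
  exact ⟨N.det.2, rfl⟩

theorem rd_matrix_mul {l m n : Type*} [Fintype m] {M : Matrix l m k} {M' : Matrix m n k}
    (hM : ∀ i j, val v (M i j) ≤ 1) (hM' : ∀ i j, val v (M' i j) ≤ 1) :
    (∀ i j, val v ((M * M') i j) ≤ 1) ∧ (M * M').map (rd ρ) = M.map (rd ρ) * M'.map (rd ρ) := by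
  let N : Matrix l m (val v).integer := Matrix.of fun i j => ⟨M i j, hM i j⟩
  let N' : Matrix m n (val v).integer := Matrix.of fun i j => ⟨M' i j, hM' i j⟩
  have h1 : ∀ i j, (M * M') i j = ((N * N') i j : k) := fun i j =>
    congrFun (congrFun (Matrix.map_mul (L := N) (M := N') (f := (val v).integer.subtype)).symm i) j
  have h2 : M.map (rd ρ) = N.map ρ := Matrix.ext fun i j => rd_coe ρ (N i j)
  have h3 : M'.map (rd ρ) = N'.map ρ := Matrix.ext fun i j => rd_coe ρ (N' i j)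
  refine ⟨fun i j => h1 i j ▸ ((N * N') i j).2, ?_⟩
  rw [h2, h3, ← Matrix.map_mul]
  exact Matrix.ext fun i j => by rw [Matrix.map_apply, h1, rd_coe, Matrix.map_apply]

theorem rdC_map (x : Cub e (val v).integer) :
    rdC ρ (map (val v).integer.subtype x) = map ρ x := by
  ext
  · exact rd_coe ρ _
  · exact rd_coe ρ _
  · exact rd_coe ρ _

theorem rdC_add (hx : x ∈ Ov e v) (hy : y ∈ Ov e v) : rdC ρ (x + y) = rdC ρ x + rdC ρ y := by
  obtain ⟨x, rfl⟩ := exists_lift_Ov hx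
  obtain ⟨y, rfl⟩ := exists_lift_Ov hy
  rw [← map_add, rdC_map, rdC_map, rdC_map, map_add]

theorem rdC_sub (hx : x ∈ Ov e v) (hy : y ∈ Ov e v) : rdC ρ (x - y) = rdC ρ x - rdC ρ y := by
  obtain ⟨x, rfl⟩ := exists_lift_Ov hx
  obtain ⟨y, rfl⟩ := exists_lift_Ov hy
  rw [← map_sub, rdC_map, rdC_map, rdC_map, map_sub]

theorem rdC_mul (hx : x ∈ Ov e v) (hy : y ∈ Ov e v) : rdC ρ (x * y) = rdC ρ x * rdC ρ y := by
  obtain ⟨x, rfl⟩ := exists_lift_Ov hx
  obtain ⟨y, rfl⟩ := exists_lift_Ov hy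
  rw [← map_mul, rdC_map, rdC_map, rdC_map, map_mul]

theorem rdC_pow (hx : x ∈ Ov e v) (n : ℕ) : rdC ρ (x ^ n) = rdC ρ x ^ n := by
  obtain ⟨x, rfl⟩ := exists_lift_Ov hx
  rw [← map_pow, rdC_map, rdC_map, map_pow]

theorem rdC_smul (ha : val v a ≤ 1) (hx : x ∈ Ov e v) : rdC ρ (a • x) = rd ρ a • rdC ρ x := by
  ext
  · exact rd_mul ρ ha hx.1
  · exact rd_mul ρ ha hx.2.1
  · exact rd_mul ρ ha hx.2.2

theorem rdC_one : rdC ρ (1 : Cub e k) = 1 := by
  rw [← map_one (Cub.map (val v).integer.subtype), rdC_map, map_one]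

theorem rdC_th : rdC ρ (th : Cub e k) = th := by
  rw [← map_th (val v).integer.subtype, rdC_map, map_th]

theorem rdC_tau (ha : val v a ≤ 1) : rdC ρ (tau e a) = tau e (rd ρ a) := by
  lift a to (val v).integer using ha
  rw [rd_coe, ← map_tau, ← rdC_map, map_tau]
  rfl

theorem rdC_lin (ha : val v a ≤ 1) : rdC ρ (lin e a) = lin e (rd ρ a) := by
  lift a to (val v).integer using ha
  rw [rd_coe, ← map_lin, ← rdC_map, map_lin]
  rfl

theorem rdC_cross (hx : x ∈ Ov e v) (hy : y ∈ Ov e v) :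
    cross x y ∈ Ov e v ∧ rdC ρ (cross x y) = cross (rdC ρ x) (rdC ρ y) := by
  obtain ⟨x, rfl⟩ := exists_lift_Ov hx
  obtain ⟨y, rfl⟩ := exists_lift_Ov hy
  rw [cross_map, rdC_map, rdC_map, rdC_map, cross_map]
  exact ⟨map_subtype_mem_Ov _, rfl⟩

theorem nm_rdC (hx : x ∈ Ov e v) : nm (rdC ρ x) = rd ρ (nm x) := by
  obtain ⟨x, rfl⟩ := exists_lift_Ov hx
  rw [rdC_map, nm_map, nm_map]
  exact (rd_coe ρ _).symm

theorem evr_rdC (ha : val v a ≤ 1) (hx : x ∈ Ov e v) :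
    evr (rd ρ a) (rdC ρ x) = rd ρ (evr a x) := by
  have h2 : val v (a ^ 2) ≤ 1 := (val v).integer.pow_mem ha 2
  have h3 : val v (x.c1 * a) ≤ 1 := mul_mem (S := Subring k) hx.2.1 ha
  rw [evr, evr, rd_add ρ (add_mem (S := Subring k) hx.1 h3) (mul_mem (S := Subring k) hx.2.2 h2),
    rd_add ρ hx.1 h3, rd_mul ρ hx.2.1 ha, rd_mul ρ hx.2.2 h2, rd_pow ρ ha]
  rfl

theorem fv_rd (ha : val v a ≤ 1) : fv e (rd ρ a) = rd ρ (fv e a) := by
  have h := rd_coe ρ (fv e ⟨a, ha⟩)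
  rw [map_fv, ← rd_coe] at h
  exact h.symm.trans (congrArg _ (map_fv (val v).integer.subtype _))

variable {ρ}

theorem RedAt.rd_eq_zero (h : RedAt v ρ) (ha : val v a ≤ 1) : rd ρ a = 0 ↔ val v a < 1 := by
  rw [rd, dif_pos ha]
  exact h.ker _

theorem RedAt.rd_eq_iff (h : RedAt v ρ) (ha : val v a ≤ 1) (hb : val v b ≤ 1) :
    rd ρ a = rd ρ b ↔ val v (a - b) < 1 := by
  rw [← sub_eq_zero, ← rd_sub ρ ha hb]
  exact h.rd_eq_zero (Valuation.map_sub_le _ ha hb)

theorem RedAt.exists_rd (h : RedAt v ρ) (c : κ) : ∃ a : k, val v a ≤ 1 ∧ rd ρ a = c := by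
  obtain ⟨a, rfl⟩ := h.surj c
  exact ⟨a, a.2, rd_coe ρ a⟩

/-- if `val v (a - y^2) < 1` and `val v a ≤ 1` then `val v y ≤ 1` -/
theorem RedAt.isSquare_iff (h : RedAt v ρ) (ha : val v a ≤ 1) :
    IsSquare (rd ρ a) ↔ ∃ y : k, val v (a - y ^ 2) < 1 := by
  constructor
  · rintro ⟨c, hc⟩
    obtain ⟨y, hy, rfl⟩ := h.exists_rd c
    exact ⟨y, (h.rd_eq_iff ha ((val v).integer.pow_mem hy 2)).1 (by rw [hc, rd_pow ρ hy, sq])⟩
  · rintro ⟨y, hy⟩
    have h1 : val v (y ^ 2) ≤ 1 := by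
      rw [show y ^ 2 = a - (a - y ^ 2) by ring]
      exact Valuation.map_sub_le _ ha hy.le
    have h2 : val v y ≤ 1 := by
      rw [map_pow] at h1
      exact (pow_le_one_iff_of_nonneg zero_le two_ne_zero).1 h1
    exact ⟨rd ρ y, by rw [(h.rd_eq_iff ha h1).2 hy, rd_pow ρ h2, sq]⟩

theorem RedAt.rdC_eq_zero (h : RedAt v ρ) (hx : x ∈ Ov e v) : rdC ρ x = 0 ↔ Sm v x := by
  rw [Sm, ← h.rd_eq_zero hx.1, ← h.rd_eq_zero hx.2.1, ← h.rd_eq_zero hx.2.2]
  exact ⟨fun e => ⟨congrArg Cub.c0 e, congrArg Cub.c1 e, congrArg Cub.c2 e⟩,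
    fun e => Cub.ext e.1 e.2.1 e.2.2⟩

theorem RedAt.rdC_eq_iff (h : RedAt v ρ) (hx : x ∈ Ov e v) (hy : y ∈ Ov e v) :
    rdC ρ x = rdC ρ y ↔ Sm v (x - y) := by
  rw [← sub_eq_zero, ← rdC_sub ρ hx hy]
  exact h.rdC_eq_zero (sub_mem hx hy)

theorem RedAt.exists_rdC (h : RedAt v ρ) (c : Cub e κ) : ∃ x ∈ Ov e v, rdC ρ x = c := by
  obtain ⟨a0, h0, e0⟩ := h.exists_rd c.c0
  obtain ⟨a1, h1, e1⟩ := h.exists_rd c.c1
  obtain ⟨a2, h2, e2⟩ := h.exists_rd c.c2
  exact ⟨⟨a0, a1, a2⟩, ⟨h0, h1, h2⟩, Cub.ext e0 e1 e2⟩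

end Pool.Agent.Lib.MP_775b3b_nt
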