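import Pool.Agent.Lib.MP_775b3b_nt.ZLG
import Pool.Agent.Lib.MP_775b3b_nt.LGSum

/-! Sums of the weights. -/

namespace Pool.Agent.Lib.MP_775b3b_nt

open Finset

lemma zwt_tail {D : ℕ} (hD : 1 ≤ D) (n : ℕ) :
    ∑ d ∈ Ioc D n, ((d : ℝ) * √(d : ℝ))⁻¹ ≤ 2 / √(D : ℝ) := by
  have key : ∀ n : ℕ, D ≤ n →
      ∑ d ∈ Ioc D n, ((d : ℝ) * √(d : ℝ))⁻¹ ≤ 2 / √(D : ℝ) - 2 / √(n : ℝ) := fun n hn => by
    induction n, hn using Nat.le_induction with
    | base => simp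
    | succ x hx ih =>
      rw [sum_Ioc_succ_top hx]
      have hx0 : (0 : ℝ) < x := by exact_mod_cast hD.trans hx
      push_cast
      have ha : 0 < √(x : ℝ) := by positivity
      have hb : 0 < √((x : ℝ) + 1) := by positivity
      have h1 := Real.mul_self_sqrt (x := (x : ℝ) + 1) (by positivity)
      have h2 := Real.mul_self_sqrt hx0.le
      have h3 : √(x : ℝ) ≤ √((x : ℝ) + 1) := Real.sqrt_le_sqrt (by linarith)
      generalize √((x : ℝ) + 1) = b at *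
      generalize √(x : ℝ) = a at *
      have : (((x : ℝ) + 1) * b)⁻¹ ≤ 2 / a - 2 / b := by
        rw [← h1, div_sub_div _ _ ha.ne' hb.ne', inv_eq_one_div,
          div_le_div_iff₀ (by positivity) (by positivity)]
        have h4 : (b - a) * (b + a) = 1 := by linarith
        have h5 : a * (b + a) ≤ 2 * (b * b) := by nlinarith
        have h6 := mul_le_mul_of_nonneg_left h5 (mul_nonneg (sub_nonneg.2 h3) hb.le)
        have h7 : (b - a) * b * (a * (b + a)) = a * b := by linear_combination (a * b) * h4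
        nlinarith
      linarith
  rcases le_total D n with h | h
  · have := key n h
    have h2 : 0 ≤ 2 / √(n : ℝ) := by positivity
    linarith
  · rw [Ioc_eq_empty_of_le h, sum_empty]
    positivity

lemma zwt_inv_le {d : ℕ} (hd : d ≠ 0) : (√(d : ℝ))⁻¹ ≤ 1 :=
  inv_le_one_of_one_le₀ (Real.one_le_sqrt.2 (by exact_mod_cast Nat.one_le_iff_ne_zero.2 hd))

lemma zwt_split (D g : ℕ) :
    Wt g ≤ D + ∑ d ∈ g.divisors.filter (D < ·), (√(d : ℝ))⁻¹ := by
  rw [Wt, ← sum_filter_not_add_sum_filter _ (D < ·), add_le_add_iff_right]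
  refine (sum_le_card_nsmul _ _ 1 fun d hd =>
    zwt_inv_le (Nat.pos_of_mem_divisors (mem_filter.1 hd).1).ne').trans ?_
  rw [nsmul_eq_mul, mul_one, Nat.cast_le]
  refine (card_le_card (t := Ioc 0 D) fun d hd => ?_).trans (by simp)
  exact mem_Ioc.2 ⟨Nat.pos_of_mem_divisors (mem_filter.1 hd).1, not_lt.1 (mem_filter.1 hd).2⟩

lemma zwt_prime {l : ℕ} (hl : l.Prime) {m : ℕ} (hm : m ≠ 0) : Wt (l * m) ≤ 2 * Wt m := by
  have h1 : (l * m).divisors ⊆ m.divisors ∪ m.divisors.image (l * ·) := fun d hd => by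
    have hd' := Nat.dvd_of_mem_divisors hd
    by_cases h : l ∣ d
    · obtain ⟨e, rfl⟩ := h
      exact mem_union_right _ (mem_image_of_mem _
        (Nat.mem_divisors.2 ⟨Nat.dvd_of_mul_dvd_mul_left hl.pos hd', hm⟩))
    · exact mem_union_left _ (Nat.mem_divisors.2
        ⟨((hl.coprime_iff_not_dvd.2 h).symm.dvd_mul_left).1 hd', hm⟩)
  have h2 : ∑ d ∈ m.divisors.image (l * ·), (√(d : ℝ))⁻¹ ≤ Wt m := by
    rw [sum_image fun a _ b _ e => Nat.eq_of_mul_eq_mul_left hl.pos e]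
    refine sum_le_sum fun d hd => inv_anti₀ (Real.sqrt_pos.2 ?_) (Real.sqrt_le_sqrt ?_)
    · exact_mod_cast Nat.pos_of_mem_divisors hd
    · exact_mod_cast Nat.le_mul_of_pos_left d hl.pos
  have h3 := sum_union_inter (s₁ := m.divisors) (s₂ := m.divisors.image (l * ·))
    (f := fun d : ℕ => (√(d : ℝ))⁻¹)
  have h4 : 0 ≤ ∑ d ∈ m.divisors ∩ m.divisors.image (l * ·), (√(d : ℝ))⁻¹ := by positivity
  have h5 : Wt (l * m) ≤ _ := sum_le_sum_of_subset_of_nonneg h1 fun _ _ _ => by positivity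
  unfold Wt at *
  linarith

lemma zwt_sparse (E : Finset ℕ) (hE : ∀ g ∈ E, g ≠ 0) {y : ℕ} (hy : y ≠ 0) :
    ∑ g ∈ E, (√(g : ℝ))⁻¹ ≤ 2 * √(y : ℝ) + E.card / √(y : ℝ) := by
  rw [← sum_filter_add_sum_filter_not _ (· ≤ y)]
  refine add_le_add ((sum_le_sum_of_subset_of_nonneg (fun g hg => ?_)
    fun _ _ _ => by positivity).trans (lgsum_sqrt y)) ?_
  · exact mem_Ioc.2 ⟨Nat.pos_of_ne_zero (hE g (mem_filter.1 hg).1), (mem_filter.1 hg).2⟩
  · refine (sum_le_card_nsmul _ _ (√(y : ℝ))⁻¹ fun g hg => inv_anti₀ (by positivity)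
      (Real.sqrt_le_sqrt ?_)).trans ?_
    · exact_mod_cast (not_le.1 (mem_filter.1 hg).2).le
    · rw [nsmul_eq_mul, div_eq_mul_inv]
      exact mul_le_mul_of_nonneg_right (Nat.cast_le.2 (card_filter_le _ _)) (by positivity)

lemma zwt_exc {p₀ g : ℕ} (h : Exc p₀ g) :
    ∃ a b m : ℕ, a ∣ p₀.factorial ∧ g = a * b ^ 3 * m ^ 2 := by
  obtain ⟨u, m, e, hu⟩ := Nat.sq_mul_squarefree g
  obtain ⟨b, hb⟩ := Nat.gcd_dvd_left u p₀.factorial
  have hb' : Squarefree b := hu.squarefree_of_dvd (Dvd.intro_left _ hb.symm)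
  have key : ∀ p : ℕ, p.Prime → p ∣ b → p ∣ m := fun p hp hpb => by
    have h1 : ¬ p * p ∣ u := fun h => hp.not_isUnit (hu p h)
    have h2 : p ∣ u := hpb.trans (Dvd.intro_left _ hb.symm)
    have h3 : p₀ < p := not_le.1 fun h => h1 (by
      rw [hb]
      exact mul_dvd_mul (Nat.dvd_gcd h2 (Nat.dvd_factorial hp.pos h)) hpb)
    have h4 := h p hp h3 (e ▸ h2.mul_left _)
    by_contra h5
    rw [← e, (Nat.Coprime.pow 2 2 (hp.coprime_iff_not_dvd.2 h5)).dvd_mul_left, sq] at h4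
    exact h1 h4
  obtain ⟨m', rfl⟩ : b ∣ m := by
    rw [← Nat.prod_primeFactors_of_squarefree hb']
    exact Finset.prod_primes_dvd _ (fun p hp => (Nat.prime_of_mem_primeFactors hp).prime)
      fun p hp => key p (Nat.prime_of_mem_primeFactors hp) (Nat.dvd_of_mem_primeFactors hp)
  refine ⟨_, b, m', Nat.gcd_dvd_right u _, ?_⟩
  rw [← e]
  conv_lhs => rw [hb]
  ring

theorem Wt_nonneg (m : ℕ) : 0 ≤ Wt m := by
  unfold Wt
  positivity

theorem Wt_mono {a b : ℕ} (h : a ∣ b) (hb : b ≠ 0) : Wt a ≤ Wt b := by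
  exact sum_le_sum_of_subset_of_nonneg (Nat.divisors_subset_of_dvd hb h) fun _ _ _ => by positivity

/-- `lgsum_sub`, `Cnt.SS_finite`, `lgsum_prod`, `lgsum_div` -/
theorem cset_le_Wt : ∃ C : ℝ, 0 < C ∧ ∀ m : ℕ, m ≠ 0 →
    ((cset m).ncard : ℝ) ≤ C * Wt m * (m : ℝ) ^ 4 := by
  obtain ⟨c, hc, h⟩ := lgsum_prod
  refine ⟨(1 + c) ^ ⌈c ^ 2⌉₊, by positivity, fun m hm => ?_⟩
  exact ((Nat.cast_le (α := ℝ)).2 (Set.ncard_le_ncard (lgsum_sub m)
    (Cnt.SS_finite 4 hm))).trans ((h m hm).trans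
      (mul_le_mul_of_nonneg_right (lgsum_div hc hm) (by positivity)))

/-- `g = d m`: `∑ d, d⁻¹ ∑ m ≤ G / d, m^(-1/2) ≤ 2 √G ∑ d > D, d^(-3/2) ≤ 4 √G / √D`
(`lgsum_sqrt`) -/
theorem wt_sum_tail (D G : ℕ) (hD : 1 ≤ D) :
    ∑ g ∈ Icc 1 G, (∑ d ∈ g.divisors.filter (D < ·), (√(d : ℝ))⁻¹) / √(g : ℝ) ≤
      4 * √(G : ℝ) / √(D : ℝ) := by
  let f : ArithmeticFunction ℝ := ⟨fun d => if D < d then (d : ℝ)⁻¹ else 0, by simp⟩
  let g : ArithmeticFunction ℝ := ⟨fun d => (√d)⁻¹, by simp⟩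
  calc _ = ∑ n ∈ Ioc 0 G, (f * g) n := by
        refine sum_congr rfl fun n hn => ?_
        rw [ArithmeticFunction.mul_apply, sum_filter, sum_div,
          ← Nat.sum_divisorsAntidiagonal (fun d _ => (if D < d then (√d)⁻¹ else 0) / √n)]
        refine sum_congr rfl fun x hx => ?_
        change _ = (if D < x.1 then (x.1 : ℝ)⁻¹ else 0) * (√x.2)⁻¹
        split_ifs
        · rw [← (Nat.mem_divisorsAntidiagonal.1 hx).1, Nat.cast_mul, div_eq_mul_inv,
            Real.sqrt_mul (Nat.cast_nonneg _), mul_inv, ← mul_assoc, ← mul_inv,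
            Real.mul_self_sqrt (Nat.cast_nonneg _)]
        · simp
    _ ≤ ∑ d ∈ Ioc 0 G, 2 * √G * if D < d then ((d : ℝ) * √d)⁻¹ else 0 := by
        rw [ArithmeticFunction.sum_Ioc_mul_eq_sum_sum]
        refine sum_le_sum fun d hd => ?_
        have hd' : (0 : ℝ) < d := by exact_mod_cast (mem_Ioc.1 hd).1
        change (if D < d then (d : ℝ)⁻¹ else 0) * _ ≤ _
        split_ifs
        · have := (lgsum_sqrt (G / d)).trans (mul_le_mul_of_nonneg_left
            (Real.sqrt_le_sqrt Nat.cast_div_le) zero_le_two)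
          refine (mul_le_mul_of_nonneg_left this (inv_pos.2 hd').le).trans_eq ?_
          rw [Real.sqrt_div (Nat.cast_nonneg _)]
          field_simp
        · simp
    _ ≤ _ := by
        rw [← mul_sum, ← sum_filter]
        refine (mul_le_mul_of_nonneg_left ((sum_le_sum_of_subset_of_nonneg (t := Ioc D G)
          (fun d hd => mem_Ioc.2 ⟨(mem_filter.1 hd).2, (mem_Ioc.1 (mem_filter.1 hd).1).2⟩)
          fun _ _ _ => by positivity).trans (zwt_tail hD G)) (by positivity)).trans_eq ?_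
        ring

/-- the divisor `d = 1` and `wt_sum_tail 1` -/
theorem wt_sum (G : ℕ) : ∑ g ∈ Icc 1 G, Wt g / √(g : ℝ) ≤ 6 * √(G : ℝ) := by
  have h1 := wt_sum_tail 1 G le_rfl
  have h2 : ∑ s ∈ Icc 1 G, (√(s : ℝ))⁻¹ ≤ 2 * √G := lgsum_sqrt G
  rw [Nat.cast_one, Real.sqrt_one, div_one] at h1
  refine le_trans ?_ ((add_le_add h2 h1).trans_eq (by ring))
  rw [← sum_add_distrib]
  refine sum_le_sum fun g _ => ?_
  rw [inv_eq_one_div, ← add_div]
  exact div_le_div_of_nonneg_right (by simpa using zwt_split 1 g) (by positivity)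

/-- `g = l m`, `Wt (l m) ≤ 2 Wt m` (a divisor of `l m` is `d` or `l d` with `d ∣ m`) -/
theorem wt_sum_dvd {l : ℕ} (hl : l.Prime) (G : ℕ) :
    ∑ g ∈ (Icc 1 G).filter (l ∣ ·), Wt g / √(g : ℝ) ≤ 12 * √(G : ℝ) / l := by
  have hl0 : (0 : ℝ) < l := by exact_mod_cast hl.pos
  have h1 : (Icc 1 G).filter (l ∣ ·) ⊆ (Icc 1 (G / l)).image (l * ·) := fun g hg => by
    obtain ⟨h2, m, rfl⟩ := mem_filter.1 hg
    obtain ⟨h3, h4⟩ := mem_Icc.1 h2
    exact mem_image_of_mem _ (mem_Icc.2 ⟨Nat.pos_of_mul_pos_left h3,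
      (Nat.le_div_iff_mul_le hl.pos).2 (mul_comm l m ▸ h4)⟩)
  refine (sum_le_sum_of_subset_of_nonneg h1 fun g _ _ =>
    div_nonneg (Wt_nonneg g) (by positivity)).trans ?_
  rw [sum_image fun a _ b _ e => Nat.eq_of_mul_eq_mul_left hl.pos e]
  calc _ ≤ ∑ m ∈ Icc 1 (G / l), 2 / √l * (Wt m / √m) := by
        refine sum_le_sum fun m hm => ?_
        rw [Nat.cast_mul, Real.sqrt_mul hl0.le, div_mul_div_comm]
        exact div_le_div_of_nonneg_right
          (zwt_prime hl (Nat.one_le_iff_ne_zero.1 (mem_Icc.1 hm).1)) (by positivity)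
    _ ≤ 2 / √l * (6 * √((G : ℝ) / l)) := by
        rw [← mul_sum]
        exact mul_le_mul_of_nonneg_left ((wt_sum _).trans (mul_le_mul_of_nonneg_left
          (Real.sqrt_le_sqrt Nat.cast_div_le) (by norm_num))) (by positivity)
    _ = _ := by
        rw [Real.sqrt_div (Nat.cast_nonneg _), ← mul_div_assoc, div_mul_div_comm,
          Real.mul_self_sqrt hl0.le]
        ring

/-- Divisors `> D`: `wt_sum_tail`.  Divisors `≤ D` contribute at most `D * ∑ g ∈ E, g^(-1/2)`, and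
with `y = ⌊√G⌋`-like splitting: `∑ g ∈ E, g^(-1/2) ≤ 2 √y + card E / √y` for every `y ≥ 1`; take
`y = ⌈√G⌉₊`, which gives `O(G^(1/4)) ≤ ε' √G + C''`. -/
theorem wt_sum_sparse (c : ℝ) {ε : ℝ} (hε : 0 < ε) : ∃ C : ℝ, 0 ≤ C ∧ ∀ (G : ℕ) (E : Finset ℕ),
    E ⊆ Icc 1 G → (E.card : ℝ) ≤ c * √(G : ℝ) →
      ∑ g ∈ E, Wt g / √(g : ℝ) ≤ ε * √(G : ℝ) + C := by
  obtain ⟨D, hD⟩ := exists_nat_gt ((8 / ε) ^ 2)
  obtain ⟨y, hy⟩ := exists_nat_gt ((2 * D * |c| / ε) ^ 2)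
  have hD0 : (0 : ℝ) < D := lt_of_le_of_lt (by positivity) hD
  have hy0 : (0 : ℝ) < y := lt_of_le_of_lt (by positivity) hy
  have hD1 : 8 / ε ≤ √(D : ℝ) := Real.le_sqrt_of_sq_le hD.le
  have hy1 : 2 * D * |c| / ε ≤ √(y : ℝ) := Real.le_sqrt_of_sq_le hy.le
  rw [div_le_iff₀ hε] at hD1 hy1
  refine ⟨D * (2 * √y), by positivity, fun G E hE hc => ?_⟩
  have hG : 0 ≤ √(G : ℝ) := Real.sqrt_nonneg _
  have h1 := (sum_le_sum_of_subset_of_nonneg hE fun _ _ _ => by positivity).trans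
    (wt_sum_tail D G (by exact_mod_cast hD0))
  have h2 := mul_le_mul_of_nonneg_left (zwt_sparse E
    (fun g hg => Nat.one_le_iff_ne_zero.1 (mem_Icc.1 (hE hg)).1) (y := y)
    (by exact_mod_cast hy0.ne')) hD0.le
  have h3 : 4 * √(G : ℝ) / √(D : ℝ) ≤ ε / 2 * √G := by
    rw [div_le_iff₀ (by positivity)]
    nlinarith [mul_le_mul_of_nonneg_left hD1 hG]
  have h4 : (D : ℝ) * (E.card / √(y : ℝ)) ≤ ε / 2 * √G := by
    rw [← mul_div_assoc, div_le_iff₀ (by positivity)]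
    have := mul_le_mul_of_nonneg_left (hc.trans
      (mul_le_mul_of_nonneg_right (le_abs_self c) hG)) hD0.le
    nlinarith [mul_le_mul_of_nonneg_left hy1 hG]
  refine le_trans ?_ ((add_le_add h2 h1).trans (by linarith))
  rw [mul_sum, ← sum_add_distrib]
  refine sum_le_sum fun g _ => ?_
  rw [← div_eq_mul_inv, ← add_div]
  exact div_le_div_of_nonneg_right (zwt_split D g) (by positivity)

open Classical in
/-- `g = u m^2` with `u` squarefree (`Nat.sq_mul_squarefree`); `u₁ = gcd u (p₀ !)`, `u = u₁ u₂`;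
every prime of `u₂` is `> p₀` and divides `m`, so `u₂ ∣ m`, `g = u₁ u₂^3 m'^2`.  At most `p₀ !`
values of `u₁`, and `∑ u₂, √(G / u₂^3) ≤ 3 √G`. -/
theorem card_exc (p₀ : ℕ) : ∃ c : ℝ, ∀ G : ℕ,
    (((Icc 1 G).filter (Exc p₀)).card : ℝ) ≤ c * √(G : ℝ) := by
  refine ⟨p₀.factorial * 3, fun G => ?_⟩
  have h1 : (Icc 1 G).filter (Exc p₀) ⊆ (Icc 1 p₀.factorial).biUnion fun a =>
      (Icc 1 G).biUnion fun b => (Icc 1 (Nat.sqrt (G / b ^ 3))).image
        fun m => a * b ^ 3 * m ^ 2 := fun g hg => by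
    obtain ⟨h2, h3⟩ := mem_filter.1 hg
    obtain ⟨h4, h5⟩ := mem_Icc.1 h2
    obtain ⟨a, b, m, h6, rfl⟩ := zwt_exc h3
    have ha : 0 < a := Nat.pos_of_dvd_of_pos h6 p₀.factorial_pos
    have hb : 0 < b := Nat.pos_of_ne_zero fun h => by simp [h] at h4
    have hm : 0 < m := Nat.pos_of_ne_zero fun h => by simp [h] at h4
    have h7 : m ^ 2 * b ^ 3 ≤ G := by
      refine le_trans ?_ h5
      rw [mul_assoc, mul_comm (m ^ 2)]
      exact Nat.le_mul_of_pos_left _ ha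
    refine mem_biUnion.2 ⟨a, mem_Icc.2 ⟨ha, Nat.le_of_dvd p₀.factorial_pos h6⟩,
      mem_biUnion.2 ⟨b, mem_Icc.2 ⟨hb, ?_⟩, mem_image_of_mem _ (mem_Icc.2 ⟨hm, ?_⟩)⟩⟩
    · exact ((Nat.le_self_pow three_ne_zero b).trans
        (Nat.le_mul_of_pos_left _ (pow_pos hm 2))).trans h7
    · rw [Nat.le_sqrt', Nat.le_div_iff_mul_le (pow_pos hb 3)]
      exact h7
  have h2 : ((Icc 1 G).filter (Exc p₀)).card ≤
      p₀.factorial * ∑ b ∈ Icc 1 G, Nat.sqrt (G / b ^ 3) := by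
    refine (card_le_card h1).trans ((card_biUnion_le_card_mul _ _
      (∑ b ∈ Icc 1 G, Nat.sqrt (G / b ^ 3)) fun a _ =>
      card_biUnion_le.trans (sum_le_sum fun b _ => card_image_le.trans (le_of_eq ?_))).trans_eq ?_)
    · rw [Nat.card_Icc, Nat.add_sub_cancel]
    · rw [Nat.card_Icc, Nat.add_sub_cancel]
  have h3 : ∑ b ∈ Icc 1 G, ((b : ℝ) * √(b : ℝ))⁻¹ ≤ 3 := by
    refine (sum_le_sum_of_subset_of_nonneg (t := insert 1 (Ioc 1 G)) (fun b hb => ?_)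
      fun _ _ _ => by positivity).trans ?_
    · rw [mem_Icc] at hb
      rw [mem_insert, mem_Ioc]
      omega
    · have := zwt_tail le_rfl G
      rw [sum_insert (by simp)]
      simp only [Nat.cast_one, Real.sqrt_one, mul_one, inv_one, div_one] at this ⊢
      linarith
  refine (Nat.cast_le.2 h2).trans ?_
  rw [Nat.cast_mul, mul_assoc, Nat.cast_sum]
  refine mul_le_mul_of_nonneg_left (le_trans ?_
    (mul_le_mul_of_nonneg_right h3 (Real.sqrt_nonneg _))) (by positivity)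
  rw [sum_mul]
  refine sum_le_sum fun b hb => Real.nat_sqrt_le_real_sqrt.trans
    ((Real.sqrt_le_sqrt Nat.cast_div_le).trans_eq ?_)
  rw [Real.sqrt_div (Nat.cast_nonneg _), Nat.cast_pow, pow_succ, Real.sqrt_mul (by positivity),
    Real.sqrt_sq (Nat.cast_nonneg _), div_eq_inv_mul]

end Pool.Agent.Lib.MP_775b3b_nt
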