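import Pool.Agent.Lib.MP_775b3b_nt.ZEqui
import Pool.Agent.Lib.MP_775b3b_nt.ZWt
import Pool.Agent.Lib.MP_775b3b_nt.LGCount

/-! The sieve for a fixed denominator. -/

namespace Pool.Agent.Lib.MP_775b3b_nt

theorem sieveg_img {α β : Type*} [DecidableEq β] (Z : Finset α) (f : α → β) (K : ℝ)
    (h : ∀ b ∈ Z.image f, ((Z.filter fun a => f a = b).card : ℝ) ≤ K) :
    (Z.card : ℝ) ≤ (Z.image f).card * K := by
  rw [Finset.card_eq_sum_card_image f Z, Nat.cast_sum, ← nsmul_eq_mul]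
  exact Finset.sum_le_card_nsmul _ _ _ h

theorem sieveg_pow {M : ℝ} (hM : 0 ≤ M) {g : ℤ} (hg : g ≠ 0) :
    (g.natAbs : ℝ) ^ 4 * (M / |(g : ℝ)|) ^ (9 / 2 : ℝ) = M ^ (9 / 2 : ℝ) / √(g.natAbs : ℝ) := by
  rw [← Int.cast_abs, ← Nat.cast_natAbs]
  have hx : (0 : ℝ) < g.natAbs := by exact_mod_cast Int.natAbs_pos.2 hg
  generalize (g.natAbs : ℝ) = x at hx
  have h1 : x ^ (9 / 2 : ℝ) = x ^ 4 * √x := by
    rw [Real.sqrt_eq_rpow, ← Real.rpow_natCast, ← Real.rpow_add hx]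
    norm_num
  have h2 : 0 < √x := Real.sqrt_pos.2 hx
  rw [Real.div_rpow hM hx.le, h1]
  field_simp

theorem sieveg_Pd {d : Fin 4 → ℝ} (hd : ∀ i, 0 < d i) : 0 ≤ Pd d :=
  Finset.prod_nonneg fun ij _ => (add_pos one_pos (mul_pos (hd ij.1) (hd ij.2))).le

/-- `lg_count_fixed`, `cset_le_Wt` -/
theorem lg_all_fixed : ∃ C : ℝ, 0 < C ∧ ∀ (d : Fin 4 → ℝ), (∀ i, 0 < d i) → ∀ (M : ℝ) (g : ℤ)
    (Z : Finset (Matrix (Fin 4) (Fin 4) ℚ)), 0 ≤ M → (∀ S ∈ Z, LGHyp d M g S) →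
    (Z.card : ℝ) ≤ C * M ^ (9 / 2 : ℝ) * (Wt g.natAbs / √(g.natAbs : ℝ)) * Pd d := by
  obtain ⟨C₁, hC₁, h1⟩ := lg_count_fixed
  obtain ⟨C₂, hC₂, h2⟩ := cset_le_Wt
  refine ⟨C₁ * C₂, by positivity, fun d hd M g Z hM hZ => ?_⟩
  have hP := sieveg_Pd hd
  have hW := Wt_nonneg g.natAbs
  rcases Z.eq_empty_or_nonempty with rfl | ⟨S₀, h₀⟩
  · rw [Finset.card_empty, Nat.cast_zero]
    positivity
  have hg := (hZ S₀ h₀).ne
  refine (h1 d hd M g Z hM hZ).trans ?_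
  change _ * Pd d ≤ _
  refine mul_le_mul_of_nonneg_right ?_ hP
  calc _ ≤ C₁ * (C₂ * Wt g.natAbs * (g.natAbs : ℝ) ^ 4) * (M / |(g : ℝ)|) ^ (9 / 2 : ℝ) := by
        gcongr
        exact h2 _ (Int.natAbs_ne_zero.2 hg)
    _ = C₁ * C₂ * Wt g.natAbs * ((g.natAbs : ℝ) ^ 4 * (M / |(g : ℝ)|) ^ (9 / 2 : ℝ)) := by ring
    _ = _ := by
        rw [sieveg_pow hM hg]
        ring

/-- matrices with the same integer part, the same class modulo `g₁` and the same reductions -/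
theorem sieveg_fib {C : ℝ} {p : ℕ} (hp : p.Prime) (h6 : 6 ≤ p)
    (hC : ∀ L : ℕ, 1 ≤ L → 2 * L ≤ p →
      ∀ (X₀ : Matrix (Fin 4) (Fin 4) (ZMod p)) (Z : Finset (Matrix (Fin 4) (Fin 4) ℤ)),
      (∀ Y ∈ Z, Y.IsSymm ∧ (∀ i j, |Y i j| ≤ L) ∧ Rk1 (X₀ + Y.map (Int.cast : ℤ → ZMod p))) →
      (Z.card : ℝ) ≤ C * ((L : ℝ) ^ 10 / (p : ℝ) ^ 6 + (p : ℝ) ^ 3)) (hC0 : 0 ≤ C) {q : ℕ}
    (hq : 3 ≤ q) (hqp : q ≤ p) {g₁ : ℤ} (hg : ¬ (p : ℤ) ∣ g₁ * q) (hco : IsCoprime g₁ (q : ℤ))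
    (Z : Finset (Matrix (Fin 4) (Fin 4) ℚ)) (B : Matrix (Fin 4) (Fin 4) ℚ → Fin 4 → Fin 4 → ℤ)
    (hZ : ∀ S ∈ Z, S.IsSymm ∧ IntS (g₁ * p) S ∧ ∀ i j, ((g₁ * p : ℤ) : ℚ) * S i j = B S i j)
    (h1 : ∀ S ∈ Z, ∀ S' ∈ Z, ∀ i j, ⌊S i j⌋ = ⌊S' i j⌋ ∧
      Int.fract ((p : ℚ) * S i j) = Int.fract ((p : ℚ) * S' i j) ∧ (q : ℤ) ∣ B S i j - B S' i j) :
    (Z.card : ℝ) ≤ C * (2 ^ 10 * (p : ℝ) ^ 4 / (q : ℝ) ^ 10 + (p : ℝ) ^ 3) := by
  classical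
  have := Fact.mk hp
  rcases Z.eq_empty_or_nonempty with rfl | ⟨S₀, h₀⟩
  · rw [Finset.card_empty, Nat.cast_zero]
    positivity
  have hg0 : g₁ ≠ 0 := by
    rintro rfl
    exact hg (by simp)
  have hp0 : (0 : ℝ) < p := by exact_mod_cast hp.pos
  have hq0 : (0 : ℝ) < q := by exact_mod_cast (by omega : 0 < q)
  have hY : ∀ S ∈ Z, ∀ i j, ∃ y : ℤ, B S i j - B S₀ i j = g₁ * q * y := fun S hS i j => by
    obtain ⟨-, a2, a3⟩ := h1 S hS S₀ h₀ i j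
    obtain ⟨z, hz⟩ := Int.fract_eq_fract.1 a2
    refine hco.mul_dvd ⟨z, Int.cast_injective (α := ℚ) ?_⟩ a3
    push_cast
    rw [← (hZ S hS).2.2, ← (hZ S₀ h₀).2.2, ← hz]
    push_cast
    ring
  choose! Y hY using hY
  have hc : ((g₁ * q : ℤ) : ZMod p) ≠ 0 := by rwa [Ne, ZMod.intCast_zmod_eq_zero_iff_dvd]
  have hinj : Set.InjOn (fun S => Matrix.of (Y S)) Z := fun S hS S' hS' h => by
    ext i j
    have a1 : Y S i j = Y S' i j := congrFun (congrFun h i) j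
    have a2 : B S i j = B S' i j := by linear_combination hY S hS i j - hY S' hS' i j + g₁ * q * a1
    have a3 := (hZ S hS).2.2 i j
    rw [a2, ← (hZ S' hS').2.2 i j] at a3
    exact mul_left_cancel₀ (by exact_mod_cast mul_ne_zero hg0 (by exact_mod_cast hp.ne_zero)) a3
  have hsym : ∀ S ∈ Z, ∀ i j, B S j i = B S i j := fun S hS i j => Int.cast_injective (α := ℚ)
    (by rw [← (hZ S hS).2.2, ← (hZ S hS).2.2, (hZ S hS).1.apply i j])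
  have hL : p / q + 1 ≤ 2 * p / q := by
    have b0 : 0 < q := by omega
    rw [Nat.le_div_iff_mul_le b0]
    have := Nat.div_mul_le_self p q
    nlinarith
  have h2 := hC (p / q + 1) (Nat.le_add_left _ _) (by
      have := Nat.div_le_div_left hq (by norm_num) (a := p)
      omega)
    (Matrix.of fun i j => ((g₁ * q : ℤ) : ZMod p)⁻¹ * (B S₀ i j : ZMod p))
    (Z.image fun S => Matrix.of (Y S)) fun Y' hY' => by
      obtain ⟨S, hS, rfl⟩ := Finset.mem_image.1 hY'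
      have a0 : ∀ i j, (Matrix.of (fun i j => ((g₁ * q : ℤ) : ZMod p)⁻¹ * (B S₀ i j : ZMod p)) +
          (Matrix.of (Y S)).map (Int.cast : ℤ → ZMod p)) i j =
          ((g₁ * q : ℤ) : ZMod p)⁻¹ * (B S i j : ZMod p) := fun i j => by
        have a1 := congrArg (Int.cast : ℤ → ZMod p) (hY S hS i j)
        rw [Int.cast_sub, Int.cast_mul (g₁ * q)] at a1
        simp only [Matrix.add_apply, Matrix.of_apply, Matrix.map_apply]
        field_simp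
        linear_combination -a1
      refine ⟨Matrix.IsSymm.ext fun i j => ?_, fun i j => ?_, Matrix.IsSymm.ext fun i j => ?_,
        fun i j k l => ?_⟩
      · refine mul_left_cancel₀ (a := g₁ * q)
          (mul_ne_zero hg0 (by exact_mod_cast (by omega : q ≠ 0))) ?_
        simp only [Matrix.of_apply]
        rw [← hY S hS, ← hY S hS, hsym S hS, hsym S₀ h₀]
      · have a1 := Int.abs_sub_lt_one_of_floor_eq_floor (h1 S hS S₀ h₀ i j).1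
        have a2 : ((g₁ * p : ℤ) : ℚ) * (S i j - S₀ i j) = (g₁ * q * Y S i j : ℤ) := by
          rw [← hY S hS, mul_sub, (hZ S hS).2.2, (hZ S₀ h₀).2.2, Int.cast_sub]
        have a3 : (p : ℚ) * (S i j - S₀ i j) = q * Y S i j := by
          push_cast at a2
          exact mul_left_cancel₀ (a := (g₁ : ℚ)) (by exact_mod_cast hg0) (by linear_combination a2)
        have a4 : (q : ℚ) * |(Y S i j : ℚ)| ≤ p := by
          rw [← Nat.abs_cast q, ← abs_mul, ← a3, abs_mul, Nat.abs_cast]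
          exact mul_le_of_le_one_right (Nat.cast_nonneg _) a1.le
        have a5 : q * (Y S i j).natAbs ≤ p := by
          rw [← Int.cast_abs, ← Nat.cast_natAbs] at a4
          exact_mod_cast a4
        have a6 : (Y S i j).natAbs ≤ p / q := by
          rw [Nat.le_div_iff_mul_le (by omega), mul_comm]
          exact a5
        simp only [Matrix.of_apply]
        rw [← Int.natCast_natAbs]
        exact_mod_cast a6.trans (Nat.le_succ _)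
      · rw [a0, a0, hsym S hS]
      · simp only [a0]
        by_cases hkl : k = l
        · rw [hkl]
        obtain ⟨n, hn⟩ := lgprime_minor (hZ S hS).2.1 i j hkl
        have a1 : B S i k * B S j l - B S i l * B S j k = p * (g₁ * n) := by
          apply Int.cast_injective (α := ℚ)
          push_cast
          simp only [← (hZ S hS).2.2, ← hn]
          push_cast
          ring
        have a2 := congrArg (Int.cast : ℤ → ZMod p) a1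
        rw [Int.cast_mul (p : ℤ), Int.cast_natCast, ZMod.natCast_self, zero_mul] at a2
        push_cast at a2 ⊢
        linear_combination ((g₁ : ZMod p) * q)⁻¹ ^ 2 * a2
  rw [Finset.card_image_of_injOn hinj] at h2
  refine h2.trans (mul_le_mul_of_nonneg_left (add_le_add_left ?_ _) hC0)
  have h3 : ((p / q + 1 : ℕ) : ℝ) ≤ 2 * p / q :=
    le_trans (by exact_mod_cast hL) (Nat.cast_div_le.trans_eq (by push_cast; rfl))
  calc _ ≤ (2 * p / q : ℝ) ^ 10 / (p : ℝ) ^ 6 := by gcongr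
    _ = _ := by field_simp

/-- `sieve_cube` with a density depending on the prime -/
theorem sieveg_cube : ∃ C : ℝ, 0 < C ∧ ∀ (Q : Finset ℕ), Q.Nonempty → (∀ l ∈ Q, l.Prime ∧ 3 ≤ l) →
    ∀ β : ℕ → ℝ, (∀ l, 0 ≤ β l) → ∀ Bad : ∀ l : ℕ, Finset (Matrix (Fin 4) (Fin 4) (ZMod l)),
    (∀ l ∈ Q, ((Bad l).card : ℝ) ≤ β l * (l : ℝ) ^ 10) → (∀ l, β l ≤ 1) → ∀ (g : ℤ) (p : ℕ),
    p.Prime → 6 ≤ p →
    ∏ l ∈ Q, l ≤ p → (p : ℤ) ∣ g → ¬ (p : ℤ) ^ 2 ∣ g → (∀ l ∈ Q, ¬ (l : ℤ) ∣ g) →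
    ∀ (Z : Finset (Matrix (Fin 4) (Fin 4) ℚ)), (∀ S ∈ Z, S.IsSymm ∧ IntS g S ∧
      ∀ l ∈ Q, ∃ B ∈ Bad l, RedS l g S B) →
    (∀ S ∈ Z, ∀ S' ∈ Z, ∀ i j, ⌊S i j⌋ = ⌊S' i j⌋) →
    (Z.card : ℝ) ≤ C * Wt g.natAbs * (g.natAbs : ℝ) ^ 4 *
      (∏ l ∈ Q, β l + ((∏ l ∈ Q, l : ℕ) : ℝ) ^ 10 / p) := by
  classical
  obtain ⟨C₁, hC₁, h1⟩ := card_rk1_box
  obtain ⟨C₂, hC₂, h2⟩ := cset_le_Wt
  refine ⟨C₂ * C₁ * 2 ^ 10, by positivity,
    fun Q hQ hQp β hβ Bad hBad hβ1 g p hp h6 hqp hpg hpg' hQg Z hZ hfl => ?_⟩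
  obtain ⟨g₁, rfl⟩ := hpg
  rw [mul_comm (p : ℤ)] at *
  have hpi : Prime (p : ℤ) := Nat.prime_iff_prime_int.1 hp
  have hg1 : ¬ (p : ℤ) ∣ g₁ := fun h => hpg' (by rw [sq]; exact mul_dvd_mul_right h _)
  have hg0 : g₁ ≠ 0 := by
    rintro rfl
    exact hg1 (dvd_zero _)
  have hq3 : 3 ≤ ∏ l ∈ Q, l := by
    obtain ⟨l, hl⟩ := hQ
    exact (hQp l hl).2.trans (Nat.le_of_dvd (Finset.prod_pos fun l hl => (hQp l hl).1.pos)
      (Finset.dvd_prod_of_mem _ hl))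
  have hco : ∀ a : ℤ, a ∣ g₁ * p → IsCoprime a ((∏ l ∈ Q, l : ℕ) : ℤ) := fun a ha => by
    rw [Nat.cast_prod]
    exact IsCoprime.prod_right fun l hl =>
      (((Nat.prime_iff_prime_int.1 (hQp l hl).1).irreducible.coprime_iff_not_dvd.2
        fun h => hQg l hl (h.trans ha)).symm)
  have hpq : ¬ (p : ℤ) ∣ g₁ * (∏ l ∈ Q, l : ℕ) := fun h => (hpi.dvd_or_dvd h).elim hg1 fun h' =>
    hpi.not_isUnit ((hco p (dvd_mul_left _ _)).isUnit_of_dvd' dvd_rfl h')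
  choose! B hB using fun S (hS : S ∈ Z) => (hZ S hS).2.1.entry
  have hX : ∀ S : Matrix (Fin 4) (Fin 4) ℚ, ∀ l : Q, ∃ X : Matrix (Fin 4) (Fin 4) (ZMod l),
      S ∈ Z → X ∈ Bad l ∧ RedS l (g₁ * p) S X := fun S l => by
    by_cases hS : S ∈ Z
    · obtain ⟨X, a1, a2⟩ := (hZ S hS).2.2 l l.2
      exact ⟨X, fun _ => ⟨a1, a2⟩⟩
    · exact ⟨0, fun h => (hS h).elim⟩
  choose X hX using hX
  have h3 := sieveg_img Z (fun S => ((((1 * p : ℤ) : ℚ) • S).map Int.fract, X S)) _ fun b _ =>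
    sieveg_fib hp h6 (h1 p hp) hC₁.le hq3 hqp hpq (hco _ (dvd_mul_right _ _)) _ B
      (fun S hS => ⟨(hZ S (Finset.mem_filter.1 hS).1).1, (hZ S (Finset.mem_filter.1 hS).1).2.1,
        hB S (Finset.mem_filter.1 hS).1⟩)
      fun S hS S' hS' i j => by
        obtain ⟨a1, a2⟩ := Finset.mem_filter.1 hS
        obtain ⟨a3, a4⟩ := Finset.mem_filter.1 hS'
        obtain ⟨a5, a6⟩ := Prod.ext_iff.1 (a2.trans a4.symm)
        refine ⟨hfl S a1 S' a3 i j, by simpa using congrFun (congrFun a5 i) j, ?_⟩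
        rw [Nat.cast_prod]
        refine Finset.prod_dvd_of_coprime (fun a ha b hb hab => Nat.isCoprime_iff_coprime.2
          ((Nat.coprime_primes (hQp a ha).1 (hQp b hb).1).2 hab)) fun l hl => ?_
        have a7 : X S ⟨l, hl⟩ = X S' ⟨l, hl⟩ := congrFun a6 ⟨l, hl⟩
        rw [← ZMod.intCast_zmod_eq_zero_iff_dvd, Int.cast_sub, sub_eq_zero,
          (hX S ⟨l, hl⟩ a1).2 i j _ (hB S a1 i j).symm, (hX S' ⟨l, hl⟩ a3).2 i j _
          (hB S' a3 i j).symm, a7]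
  have hfin := cset_finite (g := (g₁.natAbs : ℤ)) (by simpa using hg0)
  have h4 : (Z.image fun S => ((((1 * p : ℤ) : ℚ) • S).map Int.fract, X S)).card ≤
      (cset (g₁.natAbs : ℤ)).ncard * ∏ l ∈ Q, (Bad l).card := by
    refine (Finset.card_le_card (t := hfin.toFinset ×ˢ Fintype.piFinset fun l : Q => Bad l)
      fun a ha => ?_).trans_eq ?_
    · obtain ⟨S, hS, rfl⟩ := Finset.mem_image.1 ha
      exact Finset.mem_product.2 ⟨hfin.mem_toFinset.2 ((lgprime_scale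
        (hpi.irreducible.coprime_iff_not_dvd.2 hg1).symm (hZ S hS).2.1 1).natAbs.fract_mem
          ((hZ S hS).1.smul _)), Fintype.mem_piFinset.2 fun l => (hX S l hS).1⟩
    · rw [Finset.card_product, Set.ncard_eq_toFinset_card _ hfin, Fintype.card_piFinset,
        Finset.prod_coe_sort Q fun l => (Bad l).card]
  have h5 : ((∏ l ∈ Q, (Bad l).card : ℕ) : ℝ) ≤ (∏ l ∈ Q, β l) * ((∏ l ∈ Q, l : ℕ) : ℝ) ^ 10 := by
    rw [Nat.cast_prod, Nat.cast_prod, ← Finset.prod_pow, ← Finset.prod_mul_distrib]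
    exact Finset.prod_le_prod (fun _ _ => Nat.cast_nonneg _) hBad
  have h6' := h2 _ (Int.natAbs_ne_zero.2 hg0)
  have h7 : Wt g₁.natAbs ≤ Wt (g₁ * p).natAbs :=
    Wt_mono (Int.natAbs_dvd_natAbs.2 (dvd_mul_right _ _))
      (Int.natAbs_ne_zero.2 (mul_ne_zero hg0 hpi.ne_zero))
  have h8 := Wt_nonneg g₁.natAbs
  have h9 : 0 ≤ ∏ l ∈ Q, β l := Finset.prod_nonneg fun l _ => hβ l
  have h10 : ∏ l ∈ Q, β l ≤ 1 := Finset.prod_le_one (fun l _ => hβ l) fun l _ => hβ1 l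
  have hp0 : (0 : ℝ) < p := by exact_mod_cast hp.pos
  have hq0 : (0 : ℝ) < (∏ l ∈ Q, l : ℕ) := by exact_mod_cast (by omega : 0 < ∏ l ∈ Q, l)
  have h11 := (Nat.cast_le (α := ℝ)).2 h4
  rw [Nat.cast_mul] at h11
  rw [Int.natAbs_mul, Int.natAbs_natCast] at h7 ⊢
  rw [Nat.cast_mul]
  generalize ((∏ l ∈ Q, l : ℕ) : ℝ) = q at *
  generalize ∏ l ∈ Q, β l = b at *
  calc _ ≤ _ := h3
    _ ≤ C₂ * Wt (g₁.natAbs * p) * (g₁.natAbs : ℝ) ^ 4 * (b * q ^ 10) *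
          (C₁ * (2 ^ 10 * (p : ℝ) ^ 4 / q ^ 10 + (p : ℝ) ^ 3)) := by
        refine mul_le_mul_of_nonneg_right (h11.trans (mul_le_mul (h6'.trans ?_) h5
          (Nat.cast_nonneg _) ((Nat.cast_nonneg _).trans (h6'.trans ?_)))) (by positivity) <;>
        gcongr
    _ = C₂ * C₁ * Wt (g₁.natAbs * p) * ((g₁.natAbs : ℝ) * p) ^ 4 *
          (2 ^ 10 * b + b * (q ^ 10 / p)) := by field_simp
    _ ≤ C₂ * C₁ * Wt (g₁.natAbs * p) * ((g₁.natAbs : ℝ) * p) ^ 4 *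
          (2 ^ 10 * b + 2 ^ 10 * (q ^ 10 / p)) := by
        have := h8.trans h7
        gcongr
        linarith
    _ = _ := by ring

/-- matrices with the same integer part.  `|g| = p g'`, `q = ∏ Q`.  Map `S` to
`((p • S).map fract, reductions)`; the first component is in `cset g'` (`lgprime_scale` with
`y = 1`, `IntS.natAbs`, `IntS.fract_mem`), the second in `Q.pi Bad`.  In a fibre, with
`B = g • S` integral (`IntS.entry`): `B - B₀` is divisible by `g'` and by `q`, so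
`B = B₀ + (g' q) • Y`, `|Y i j| < p / q`, `L = p / q + 1` has `2 L ≤ p`, `L ≤ 2 p / q`; `B` modulo `p`
has rank at most one (`lgprime_minor`), hence so has `(g' q)⁻¹ • B₀ + Y`; `card_rk1_box`. -/
theorem sieve_cube : ∃ C : ℝ, 0 < C ∧ ∀ (Q : Finset ℕ), Q.Nonempty → (∀ l ∈ Q, l.Prime ∧ 3 ≤ l) →
    ∀ β : ℝ, 0 ≤ β → ∀ Bad : ∀ l : ℕ, Finset (Matrix (Fin 4) (Fin 4) (ZMod l)),
    (∀ l ∈ Q, ((Bad l).card : ℝ) ≤ β * (l : ℝ) ^ 10) → β ≤ 1 → ∀ (g : ℤ) (p : ℕ), p.Prime → 6 ≤ p →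
    ∏ l ∈ Q, l ≤ p → (p : ℤ) ∣ g → ¬ (p : ℤ) ^ 2 ∣ g → (∀ l ∈ Q, ¬ (l : ℤ) ∣ g) →
    ∀ (Z : Finset (Matrix (Fin 4) (Fin 4) ℚ)), (∀ S ∈ Z, S.IsSymm ∧ IntS g S ∧
      ∀ l ∈ Q, ∃ B ∈ Bad l, RedS l g S B) →
    (∀ S ∈ Z, ∀ S' ∈ Z, ∀ i j, ⌊S i j⌋ = ⌊S' i j⌋) →
    (Z.card : ℝ) ≤ C * Wt g.natAbs * (g.natAbs : ℝ) ^ 4 *
      (β ^ Q.card + ((∏ l ∈ Q, l : ℕ) : ℝ) ^ 10 / p) := by
  obtain ⟨C, hC, h⟩ := sieveg_cube
  refine ⟨C, hC, fun Q hQ hQp β hβ Bad hBad hβ1 => ?_⟩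
  simpa only [Finset.prod_const] using h Q hQ hQp (fun _ => β) (fun _ => hβ) Bad hBad fun _ => hβ1

/-- reduction to matrices with the same integer part -/
theorem sieveg_floor : ∃ C : ℝ, 0 < C ∧ ∀ (d : Fin 4 → ℝ), (∀ i, 0 < d i) → ∀ (M : ℝ) (g : ℤ)
    (Z : Finset (Matrix (Fin 4) (Fin 4) ℚ)) (K : ℝ), 0 ≤ M → 0 ≤ K → (∀ S ∈ Z, LGHyp d M g S) →
    (∀ Z' ⊆ Z, (∀ S ∈ Z', ∀ S' ∈ Z', ∀ i j, ⌊S i j⌋ = ⌊S' i j⌋) → (Z'.card : ℝ) ≤ K) →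
    (Z.card : ℝ) ≤ C * K * (M / |(g : ℝ)|) ^ (9 / 2 : ℝ) * Pd d := by
  classical
  obtain ⟨C₁, hC₁, code, c1, c2⟩ := exists_code
  obtain ⟨C₂, hC₂, c3⟩ := card_code_le
  refine ⟨(2 * C₁ + 3) ^ (Finset.univ.filter fun ij : Fin 4 × Fin 4 => ij.1 ≤ ij.2).card *
    (16 * (C₂ * C₁ ^ (9 / 2 : ℝ))), by positivity, fun d hd M g Z K hM hK hZ hfl => ?_⟩
  set σ : Matrix (Fin 4) (Fin 4) ℚ → Matrix (Fin 4) (Fin 4) ℝ :=
    fun S => Matrix.of fun i j => (S i j : ℝ) / (d i * d j) with hσ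
  have hsy : ∀ S ∈ Z, (σ S).IsSymm := fun S hS => Matrix.IsSymm.ext fun i j => by
    simp only [hσ, Matrix.of_apply, (hZ S hS).symm.apply i j, mul_comm (d j)]
  have h4 : ((∏ ij ∈ Finset.univ.filter (fun ij : Fin 4 × Fin 4 => ij.1 ≤ ij.2),
      (2 * ⌊C₁ * (d ij.1 * d ij.2) + 1⌋₊ + 1) : ℕ) : ℝ) ≤
      (2 * C₁ + 3) ^ (Finset.univ.filter fun ij : Fin 4 × Fin 4 => ij.1 ≤ ij.2).card * Pd d := by
    rw [Pd, Nat.cast_prod, ← Finset.prod_const, ← Finset.prod_mul_distrib]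
    refine Finset.prod_le_prod (fun _ _ => Nat.cast_nonneg _) fun ij _ => ?_
    have hp := mul_pos (hd ij.1) (hd ij.2)
    have := Nat.floor_le (add_pos (mul_pos hC₁ hp) one_pos).le
    push_cast
    nlinarith
  set fl : Matrix (Fin 4) (Fin 4) ℚ → Matrix (Fin 4) (Fin 4) ℚ :=
    fun S => S.map fun x => (⌊x⌋ : ℚ) with hfl'
  have h0 : ∀ Z' ⊆ Z, (∀ S ∈ Z', ∀ S' ∈ Z', code (σ S) = code (σ S')) → (Z'.card : ℝ) ≤
      (2 * C₁ + 3) ^ (Finset.univ.filter fun ij : Fin 4 × Fin 4 => ij.1 ≤ ij.2).card * Pd d * K :=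
      fun Z' hZ' hc => by
    have b1 := sieveg_img Z' fl K fun b _ => by
      refine hfl _ ((Finset.filter_subset _ _).trans hZ') fun S hS S' hS' i j => ?_
      have b2 : fl S = fl S' := (Finset.mem_filter.1 hS).2.trans (Finset.mem_filter.1 hS').2.symm
      exact Int.cast_injective (α := ℚ) (congrFun (congrFun b2 i) j)
    refine b1.trans (mul_le_mul_of_nonneg_right (le_trans ?_ h4) hK)
    refine Nat.cast_le.2 (lgcount_fib (fun ij => C₁ * (d ij.1 * d ij.2) + 1) _ ?_ ?_ ?_)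
    · intro T hT
      obtain ⟨S, hS, rfl⟩ := Finset.mem_image.1 hT
      exact (hZ S (hZ' hS)).symm.map _
    · intro T hT T' hT'
      obtain ⟨S, hS, rfl⟩ := Finset.mem_image.1 hT
      obtain ⟨S', hS', rfl⟩ := Finset.mem_image.1 hT'
      ext i j
      simp [hfl']
    · intro T hT T' hT' i j
      obtain ⟨S, hS, rfl⟩ := Finset.mem_image.1 hT
      obtain ⟨S', hS', rfl⟩ := Finset.mem_image.1 hT'
      have := c2 _ _ (hsy S (hZ' hS)) (hsy S' (hZ' hS')) (hc S hS S' hS') i j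
      have hp := mul_pos (hd i) (hd j)
      simp only [hσ, Matrix.of_apply] at this
      rw [← sub_div, abs_div, abs_of_pos hp, div_le_iff₀ hp, abs_le] at this
      have a1 : ((⌊S i j⌋ : ℚ) : ℝ) ≤ S i j := by exact_mod_cast Int.floor_le _
      have a2 : (S i j : ℝ) < (⌊S i j⌋ : ℚ) + 1 := by
        exact_mod_cast Int.lt_floor_add_one (S i j)
      have a3 : ((⌊S' i j⌋ : ℚ) : ℝ) ≤ S' i j := by exact_mod_cast Int.floor_le _
      have a4 : (S' i j : ℝ) < (⌊S' i j⌋ : ℚ) + 1 := by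
        exact_mod_cast Int.lt_floor_add_one (S' i j)
      simp only [hfl', Matrix.map_apply]
      rw [abs_le]
      constructor <;> linarith [this.1, this.2]
  have h1 := sieveg_img Z (fun S => code (σ S)) _ fun a _ =>
    h0 _ (Finset.filter_subset _ _) fun S hS S' hS' =>
      (Finset.mem_filter.1 hS).2.trans (Finset.mem_filter.1 hS').2.symm
  have h2 : (Z.image fun S => code (σ S)).card ≤ 16 * (Z.image fun S => (code (σ S)).2).card := by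
    refine (Finset.card_le_card (t := Finset.univ ×ˢ Z.image fun S => (code (σ S)).2)
      fun a ha => ?_).trans_eq ?_
    · obtain ⟨S, hS, rfl⟩ := Finset.mem_image.1 ha
      exact Finset.mem_product.2 ⟨Finset.mem_univ _, Finset.mem_image_of_mem _ hS⟩
    · rw [Finset.card_product]
      simp
  have hμ : 0 ≤ M / |(g : ℝ)| := by positivity
  have h3 := c3 (C₁ * (M / |(g : ℝ)|)) (Z.image fun S => (code (σ S)).2) (by positivity)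
    fun m hm => by
      obtain ⟨S, hS, rfl⟩ := Finset.mem_image.1 hm
      exact c1 _ _ (hsy S hS) (hZ S hS).bd
  rw [Real.mul_rpow hC₁.le hμ] at h3
  have h5 := (Nat.cast_le (α := ℝ)).2 h2
  rw [Nat.cast_mul, Nat.cast_ofNat] at h5
  have hP := sieveg_Pd hd
  refine h1.trans ((mul_le_mul_of_nonneg_right (h5.trans (mul_le_mul_of_nonneg_left h3
    (by norm_num))) (by positivity)).trans_eq ?_)
  ring

/-- `lg_sieve_fixed` with a density depending on the prime -/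
theorem sieveg_fixed : ∃ C : ℝ, 0 < C ∧ ∀ (Q : Finset ℕ), Q.Nonempty →
    (∀ l ∈ Q, l.Prime ∧ 3 ≤ l) → ∀ β : ℕ → ℝ, (∀ l, 0 ≤ β l) →
    ∀ Bad : ∀ l : ℕ, Finset (Matrix (Fin 4) (Fin 4) (ZMod l)),
    (∀ l ∈ Q, ((Bad l).card : ℝ) ≤ β l * (l : ℝ) ^ 10) → (∀ l, β l ≤ 1) → ∀ (g : ℤ) (p : ℕ),
    p.Prime → 6 ≤ p →
    ∏ l ∈ Q, l ≤ p → (p : ℤ) ∣ g → ¬ (p : ℤ) ^ 2 ∣ g → (∀ l ∈ Q, ¬ (l : ℤ) ∣ g) →
    ∀ (d : Fin 4 → ℝ), (∀ i, 0 < d i) → ∀ (M : ℝ) (Z : Finset (Matrix (Fin 4) (Fin 4) ℚ)), 0 ≤ M →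
    (∀ S ∈ Z, LGHyp d M g S ∧ ∀ l ∈ Q, ∃ B ∈ Bad l, RedS l g S B) →
    (Z.card : ℝ) ≤ C * M ^ (9 / 2 : ℝ) * (Wt g.natAbs / √(g.natAbs : ℝ)) * Pd d *
      (∏ l ∈ Q, β l + ((∏ l ∈ Q, l : ℕ) : ℝ) ^ 10 / p) := by
  obtain ⟨C₁, hC₁, h1⟩ := sieveg_cube
  obtain ⟨C₂, hC₂, h2⟩ := sieveg_floor
  refine ⟨C₂ * C₁, by positivity,
    fun Q hQ hQp β hβ Bad hBad hβ1 g p hp h6 hqp hpg hpg' hQg d hd M Z hM hZ => ?_⟩
  have hg : g ≠ 0 := by
    rintro rfl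
    exact hpg' (dvd_zero _)
  have h9 : 0 ≤ ∏ l ∈ Q, β l := Finset.prod_nonneg fun l _ => hβ l
  have hW := Wt_nonneg g.natAbs
  refine (h2 d hd M g Z _ hM (by positivity) (fun S hS => (hZ S hS).1) fun Z' hZ' hfl =>
    h1 Q hQ hQp β hβ Bad hBad hβ1 g p hp h6 hqp hpg hpg' hQg Z' (fun S hS =>
      ⟨(hZ S (hZ' hS)).1.symm, (hZ S (hZ' hS)).1.int, (hZ S (hZ' hS)).2⟩) hfl).trans_eq ?_
  have h3 := sieveg_pow hM hg
  generalize (∏ l ∈ Q, β l + ((∏ l ∈ Q, l : ℕ) : ℝ) ^ 10 / p) = b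
  calc _ = C₂ * C₁ * Wt g.natAbs * ((g.natAbs : ℝ) ^ 4 * (M / |(g : ℝ)|) ^ (9 / 2 : ℝ)) *
        Pd d * b := by ring
    _ = _ := by
        rw [h3]
        ring

/-- as `lg_count_fixed`: map `S` to `(code S', S.map floor)`; for a given code the integer parts
are symmetric integer matrices within `C d i d j + 1` of each other (`lgcount_fib` applied to their
casts), and `sieve_cube` bounds the fibres -/
theorem lg_sieve_fixed : ∃ C : ℝ, 0 < C ∧ ∀ (Q : Finset ℕ), Q.Nonempty →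
    (∀ l ∈ Q, l.Prime ∧ 3 ≤ l) →
    ∀ β : ℝ, 0 ≤ β → ∀ Bad : ∀ l : ℕ, Finset (Matrix (Fin 4) (Fin 4) (ZMod l)),
    (∀ l ∈ Q, ((Bad l).card : ℝ) ≤ β * (l : ℝ) ^ 10) → β ≤ 1 → ∀ (g : ℤ) (p : ℕ), p.Prime → 6 ≤ p →
    ∏ l ∈ Q, l ≤ p → (p : ℤ) ∣ g → ¬ (p : ℤ) ^ 2 ∣ g → (∀ l ∈ Q, ¬ (l : ℤ) ∣ g) →
    ∀ (d : Fin 4 → ℝ), (∀ i, 0 < d i) → ∀ (M : ℝ) (Z : Finset (Matrix (Fin 4) (Fin 4) ℚ)), 0 ≤ M →
    (∀ S ∈ Z, LGHyp d M g S ∧ ∀ l ∈ Q, ∃ B ∈ Bad l, RedS l g S B) →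
    (Z.card : ℝ) ≤ C * M ^ (9 / 2 : ℝ) * (Wt g.natAbs / √(g.natAbs : ℝ)) * Pd d *
      (β ^ Q.card + ((∏ l ∈ Q, l : ℕ) : ℝ) ^ 10 / p) := by
  obtain ⟨C, hC, h⟩ := sieveg_fixed
  refine ⟨C, hC, fun Q hQ hQp β hβ Bad hBad hβ1 => ?_⟩
  simpa only [Finset.prod_const] using h Q hQ hQp (fun _ => β) (fun _ => hβ) Bad hBad fun _ => hβ1

end Pool.Agent.Lib.MP_775b3b_nt
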