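import Pool.Agent.Lib.MP_439fea_co.Act

/-! Two-sided bounds for the Dedekind zeta function near one, with finite sums. -/

namespace Pool.Agent.Lib.MP_775b3b_nt

open NumberField MP_439fea_co

variable (k : Type*) [Field k] [NumberField k]

/-- the terms of the zeta function at a real point -/
noncomputable def zzeta1_t (s : ℝ) (n : ℕ) : ℝ :=
  Nat.card {I : Ideal (𝓞 k) // Ideal.absNorm I = n} * (n : ℝ) ^ (-s)

lemma zzeta1_eq {s : ℝ} (hs : s ≠ 0) : dedekindZeta k s = ((∑' n, zzeta1_t k s n : ℝ) : ℂ) := by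
  rw [Complex.ofReal_tsum, dedekindZeta, LSeries]
  refine tsum_congr fun n => ?_
  rw [LSeries.term_of_ne_zero' (by exact_mod_cast hs), zzeta1_t, Complex.ofReal_mul,
    Complex.ofReal_cpow (Nat.cast_nonneg n), Complex.ofReal_neg, Complex.cpow_neg, div_eq_mul_inv]
  norm_cast

lemma zzeta1_near : ∃ ρ δ : ℝ, 0 < ρ ∧ 0 < δ ∧ ∀ s : ℝ, 1 < s → s < 1 + δ →
    Summable (zzeta1_t k s) ∧ ρ / (s - 1) < ∑' n, zzeta1_t k s n ∧
      ∑' n, zzeta1_t k s n ≤ 4 * ρ / (s - 1) := by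
  have hρ := dedekindZeta_residue_pos k
  have h1 : Filter.Tendsto (fun s : ℝ => (s - 1) * ∑' n, zzeta1_t k s n) (nhdsWithin 1 (Set.Ioi 1))
      (nhds (dedekindZeta_residue k)) := by
    rw [← Filter.tendsto_ofReal_iff]
    refine (tendsto_sub_one_mul_dedekindZeta_nhdsGT k).congr' ?_
    filter_upwards [self_mem_nhdsWithin] with s hs
    rw [zzeta1_eq k (zero_lt_one.trans hs).ne']
    norm_cast
  have h2 := h1.eventually (Ioo_mem_nhds (half_lt_self hρ) (lt_two_mul_self hρ))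
  obtain ⟨u, hu, h3⟩ := mem_nhdsGT_iff_exists_Ioo_subset.1 h2
  refine ⟨dedekindZeta_residue k / 2, u - 1, half_pos hρ, sub_pos.2 hu, fun s hs hs' => ?_⟩
  obtain ⟨h4, h5⟩ := h3 ⟨hs, by linarith⟩
  have h6 := sub_pos.2 hs
  refine ⟨?_, ?_, ?_⟩
  · by_contra h
    rw [tsum_eq_zero_of_not_summable h] at h4
    linarith
  · rw [div_lt_iff₀' h6]
    exact h4
  · rw [le_div_iff₀' h6]
    linarith

open Classical in
lemma zzeta1_sum (s : ℝ) (N : Finset ℕ) (T : Finset (Ideal (𝓞 k)))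
    (h : ∀ I, I ∈ T ↔ Ideal.absNorm I ∈ N) :
    ∑ I ∈ T, (Ideal.absNorm I : ℝ) ^ (-s) = ∑ n ∈ N, zzeta1_t k s n := by
  rw [← Finset.sum_fiberwise_of_maps_to (g := fun I => Ideal.absNorm I) fun I hI => (h I).1 hI]
  refine Finset.sum_congr rfl fun n hn => ?_
  rw [Finset.sum_congr rfl fun I hI => by rw [(Finset.mem_filter.1 hI).2], Finset.sum_const,
    nsmul_eq_mul, zzeta1_t, Nat.subtype_card (T.filter fun I => Ideal.absNorm I = n)]
  intro I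
  rw [Finset.mem_filter, h, and_iff_right_iff_imp]
  exact fun e => e ▸ hn

lemma zzeta1_ex (N : Finset ℕ) :
    ∃ T : Finset (Ideal (𝓞 k)), ∀ I, I ∈ T ↔ Ideal.absNorm I ∈ N :=
  ⟨(N.finite_toSet.biUnion fun n _ => Ideal.finite_setOfPred_absNorm_eq (S := 𝓞 k) n).toFinset,
    fun I => by simp⟩

/-- From `NumberField.Ideal.tendsto_norm_le_div_atTop₀` the number `A x` of nonzero ideals of norm
`≤ x` is `≤ C₀ x` for all `x ≥ 1`; the ideals with `2^j ≤ N < 2^(j+1)` contribute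
`≤ 2 C₀ 2^(j (1 - s))`, and `1 - 2^(1 - s) ≥ (s - 1) / 3` for `1 < s < 2`.  (Or use
`tendsto_sub_one_mul_dedekindZeta_nhdsGT`.) -/
theorem zeta_upper : ∃ C δ : ℝ, 0 < δ ∧ ∀ s : ℝ, 1 < s → s < 1 + δ →
    ∀ T : Finset (Ideal (𝓞 k)), (∀ I ∈ T, I ≠ ⊥) →
      ∑ I ∈ T, (Ideal.absNorm I : ℝ) ^ (-s) ≤ C / (s - 1) := by
  classical
  obtain ⟨ρ, δ, -, hδ, h⟩ := zzeta1_near k
  refine ⟨4 * ρ, δ, hδ, fun s hs hs' T _ => ?_⟩
  obtain ⟨h1, -, h2⟩ := h s hs hs'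
  obtain ⟨T', hT'⟩ := zzeta1_ex k (T.image fun I => Ideal.absNorm I)
  refine (Finset.sum_le_sum_of_subset_of_nonneg (t := T')
    (fun I hI => (hT' I).2 (Finset.mem_image_of_mem _ hI)) fun _ _ _ => by positivity).trans ?_
  rw [zzeta1_sum k s _ _ hT']
  exact (h1.sum_le_tsum _ fun n _ => by unfold zzeta1_t; positivity).trans h2

/-- `c₀ x ≤ A x ≤ C₀ x` for `x ≥ x₀`; with an integer `m ≥ max x₀ (2 C₀ / c₀)` there are at least
`c₀ m^(j+1) / 2` ideals with `m^j < N ≤ m^(j+1)`, `j ≥ 1`; the geometric series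
`∑ j, m^((j+1)(1-s))` is `≥ c' / (s - 1)` and a finite part of it is at least half of it. -/
theorem zeta_lower : ∃ c δ : ℝ, 0 < c ∧ 0 < δ ∧ ∀ s : ℝ, 1 < s → s < 1 + δ →
    ∃ T : Finset (Ideal (𝓞 k)), (∀ I ∈ T, I ≠ ⊥) ∧
      c / (s - 1) ≤ ∑ I ∈ T, (Ideal.absNorm I : ℝ) ^ (-s) := by
  classical
  obtain ⟨ρ, δ, hρ, hδ, h⟩ := zzeta1_near k
  refine ⟨ρ, δ, hρ, hδ, fun s hs hs' => ?_⟩
  obtain ⟨h1, h2, -⟩ := h s hs hs'
  obtain ⟨N, hN⟩ := (h1.hasSum.eventually (lt_mem_nhds h2)).exists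
  obtain ⟨T, hT⟩ := zzeta1_ex k N
  refine ⟨T.erase ⊥, fun I hI => Finset.ne_of_mem_erase hI, ?_⟩
  rw [Finset.sum_erase _ (by simp [(zero_lt_one.trans hs).ne']), zzeta1_sum k s _ _ hT]
  exact hN.le

end Pool.Agent.Lib.MP_775b3b_nt
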