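import Pool.Agent.Lib.MP_775b3b_nt.ZZeta1
import Pool.Agent.Lib.MP_775b3b_nt.IntP2

/-! Finite Euler products. -/

namespace Pool.Agent.Lib.MP_775b3b_nt

open NumberField MP_439fea_co

variable {k k' : Type*} [Field k] [NumberField k] [Field k'] [NumberField k']

theorem zzeta2_dvd {v w : P k} (h : v.asIdeal ∣ w.asIdeal) : v = w :=
  IsDedekindDomain.HeightOneSpectrum.ext
    (w.isMaximal.eq_of_le v.isPrime.ne_top (Ideal.le_of_dvd h)).symm

theorem zzeta2_mem (A : Finset (P k)) (v : P k) : v.asIdeal ∣ ∏ w ∈ A, w.asIdeal ↔ v ∈ A := by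
  refine ⟨fun h => ?_, fun h => Finset.dvd_prod_of_mem _ h⟩
  obtain ⟨w, hw, h1⟩ := v.prime.exists_mem_finset_dvd h
  rwa [zzeta2_dvd h1]

theorem zzeta2_two (v : P k) : (2 : ℝ) ≤ Ideal.absNorm v.asIdeal := by
  exact_mod_cast NumberField.HeightOneSpectrum.one_lt_absNorm v

theorem zzeta2_lt (v : P k) {s : ℝ} (hs : 0 < s) : (Ideal.absNorm v.asIdeal : ℝ) ^ (-s) < 1 :=
  Real.rpow_lt_one_of_one_lt_of_neg (by linarith [zzeta2_two v]) (by linarith)

theorem zzeta2_upper {s : ℝ} (hs : 0 < s) (V : Finset (P k)) : ∀ T : Finset (Ideal (𝓞 k)),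
    (∀ I ∈ T, I ≠ ⊥ ∧ ∀ v : P k, v.asIdeal ∣ I → v ∈ V) →
    ∑ I ∈ T, (Ideal.absNorm I : ℝ) ^ (-s) ≤
      ∏ v ∈ V, (1 - (Ideal.absNorm v.asIdeal : ℝ) ^ (-s))⁻¹ := by
  classical
  induction V using Finset.induction_on with
  | empty =>
    intro T hT
    have h1 : T ⊆ {⊤} := fun I hI => by
      rw [Finset.mem_singleton]
      by_contra h
      obtain ⟨M, hM, h2⟩ := Ideal.exists_le_maximal I h
      have h3 : M ≠ ⊥ := fun h3 => (hT I hI).1 (le_bot_iff.1 (h3 ▸ h2))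
      exact Finset.notMem_empty _ ((hT I hI).2 ⟨M, hM.isPrime, h3⟩ (Ideal.dvd_iff_le.2 h2))
    refine (Finset.sum_le_sum_of_subset_of_nonneg h1 fun _ _ _ => by positivity).trans ?_
    simp
  | insert v V hv ih =>
    intro T hT
    have h1 : ∀ I : Ideal (𝓞 k), ∃ (n : ℕ) (J : Ideal (𝓞 k)), I ≠ ⊥ →
        ¬ v.asIdeal ∣ J ∧ I = v.asIdeal ^ n * J := fun I => by
      by_cases h : I = ⊥
      · exact ⟨0, ⊥, fun h' => absurd h h'⟩
      · obtain ⟨n, J, h2⟩ := WfDvdMonoid.max_power_factor (a₀ := I) h v.irreducible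
        exact ⟨n, J, fun _ => h2⟩
    choose n J h1 using h1
    have hx0 : 0 ≤ (Ideal.absNorm v.asIdeal : ℝ) ^ (-s) := by positivity
    have hx1 := zzeta2_lt v hs
    have h2 := ih (T.image J) fun I' hI' => by
      obtain ⟨I, hI, rfl⟩ := Finset.mem_image.1 hI'
      obtain ⟨h3, h4⟩ := h1 I (hT I hI).1
      refine ⟨fun h => h3 (h ▸ dvd_zero _), fun w hw => ?_⟩
      have h5 := (hT I hI).2 w (h4 ▸ hw.mul_left _)
      refine (Finset.mem_insert.1 h5).resolve_left ?_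
      rintro rfl
      exact h3 hw
    have h3 : ∑ I ∈ T, (Ideal.absNorm I : ℝ) ^ (-s) =
        ∑ q ∈ T.image (fun I => (n I, J I)),
          ((Ideal.absNorm v.asIdeal : ℝ) ^ (-s)) ^ q.1 * (Ideal.absNorm q.2 : ℝ) ^ (-s) := by
      rw [Finset.sum_image fun I hI I' hI' h => by
        have e1 : n I = n I' := (Prod.ext_iff.1 h).1
        have e2 : J I = J I' := (Prod.ext_iff.1 h).2
        exact (h1 I (hT I hI).1).2.trans (e1 ▸ e2 ▸ (h1 I' (hT I' hI').1).2.symm)]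
      refine Finset.sum_congr rfl fun I hI => ?_
      conv_lhs => rw [(h1 I (hT I hI).1).2]
      rw [map_mul, map_pow, Nat.cast_mul, Nat.cast_pow,
        Real.mul_rpow (by positivity) (by positivity), Real.rpow_pow_comm (by positivity)]
    have h4 : T.image (fun I => (n I, J I)) ⊆ T.image n ×ˢ T.image J := fun q hq => by
      obtain ⟨I, hI, rfl⟩ := Finset.mem_image.1 hq
      exact Finset.mem_product.2 ⟨Finset.mem_image_of_mem _ hI, Finset.mem_image_of_mem _ hI⟩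
    rw [h3, Finset.prod_insert hv]
    refine (Finset.sum_le_sum_of_subset_of_nonneg h4 fun _ _ _ => by positivity).trans ?_
    rw [Finset.sum_product, ← Finset.sum_mul_sum (T.image n) (T.image J)
      (fun m => ((Ideal.absNorm v.asIdeal : ℝ) ^ (-s)) ^ m)
      (fun I => (Ideal.absNorm I : ℝ) ^ (-s))]
    refine mul_le_mul ?_ h2 (Finset.sum_nonneg fun _ _ => by positivity)
      (inv_nonneg.2 (by linarith))
    rw [← tsum_geometric_of_lt_one hx0 hx1]
    exact (summable_geometric_of_lt_one hx0 hx1).sum_le_tsum _ fun _ _ => by positivity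

theorem zzeta2_exp {x : ℝ} (h0 : 0 ≤ x) (h1 : x ≤ 1 / 2) : (1 - x)⁻¹ ≤ Real.exp (2 * x) := by
  refine le_trans ?_ (Real.add_one_le_exp _)
  rw [inv_le_iff_one_le_mul₀ (by linarith)]
  nlinarith

theorem zzeta2_exp2 {x : ℝ} (h0 : 0 ≤ x) (h1 : x ≤ 1 / 2) :
    (1 - x)⁻¹ ≤ Real.exp (2 * x ^ 2) * (1 + x) := by
  have h2 := zzeta2_exp (x := x ^ 2) (by positivity) (by nlinarith)
  have h3 : (1 - x)⁻¹ = (1 - x ^ 2)⁻¹ * (1 + x) := by
    have : 1 - x ≠ 0 := by linarith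
    have : 1 + x ≠ 0 := by linarith
    rw [show 1 - x ^ 2 = (1 - x) * (1 + x) by ring]
    field_simp
  rw [h3]
  exact mul_le_mul_of_nonneg_right h2 (by linarith)

/-- `Finset.prod_one_add`; `A ↦ ∏ v ∈ A, v.asIdeal` is injective on subsets (`v ∈ A` iff
`v.asIdeal` divides the product), `absNorm` is multiplicative -/
theorem euler_lower (V : Finset (P k)) (s : ℝ) : ∃ T : Finset (Ideal (𝓞 k)), (∀ I ∈ T, I ≠ ⊥) ∧
    ∏ v ∈ V, (1 + (Ideal.absNorm v.asIdeal : ℝ) ^ (-s)) =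
      ∑ I ∈ T, (Ideal.absNorm I : ℝ) ^ (-s) := by
  classical
  refine ⟨V.powerset.image fun A => ∏ v ∈ A, v.asIdeal, fun I hI => ?_, ?_⟩
  · obtain ⟨A, -, rfl⟩ := Finset.mem_image.1 hI
    exact Finset.prod_ne_zero_iff.2 fun v _ => v.ne_bot
  · rw [Finset.prod_one_add, Finset.sum_image fun A _ B _ h => Finset.ext fun v => by
      rw [← zzeta2_mem A, ← zzeta2_mem B, show ∏ v ∈ A, v.asIdeal = ∏ v ∈ B, v.asIdeal from h]]
    refine Finset.sum_congr rfl fun A _ => ?_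
    rw [map_prod, Nat.cast_prod, Real.finsetProd_rpow _ _ fun _ _ => by positivity]

/-- Induction on `V` for all `T` whose members have all their prime divisors in `V`: write
`I = v^n J` with `v ∤ J`, the map `I ↦ (n, J)` is injective, geometric series.  Take for `V` the
prime divisors of the members of `T`. -/
theorem euler_upper (T : Finset (Ideal (𝓞 k))) (hT : ∀ I ∈ T, I ≠ ⊥) {s : ℝ} (hs : 0 < s) :
    ∃ V : Finset (P k), ∑ I ∈ T, (Ideal.absNorm I : ℝ) ^ (-s) ≤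
      ∏ v ∈ V, (1 - (Ideal.absNorm v.asIdeal : ℝ) ^ (-s))⁻¹ := by
  have h := T.finite_toSet.biUnion (t := fun I => {v : P k | v.asIdeal ∣ I})
    fun I hI => Ideal.finite_factors (hT I hI)
  exact ⟨h.toFinset, zzeta2_upper hs _ T fun I hI => ⟨hT I hI, fun v hv =>
    h.mem_toFinset.2 (Set.mem_biUnion hI hv)⟩⟩

open Classical in
/-- With `x = N v ^ (-s) ≤ 1 / p ≤ 1 / 2`, `p` the prime under `v` (`p ∣ N v` by
`intp2_val_absNorm`, `val_natCast_lt_one_iff`): `(1 - x)⁻¹ ≤ (1 + x) exp (2 x^2)` and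
`(1 - x)⁻¹ ≤ exp (2 x)`.  If `N v` is not prime then `p^2 ≤ N v` (`N v` is a power of `p`, or: it is
the cardinality of a finite field of characteristic `p`).  At most `finrank ℚ k` places lie above
`p` (`ncard_over_prime_le`), and `∑ 1 / p^2 ≤ 1`, so `R = exp (finrank ℚ k * (4 + 2 Y))` works. -/
theorem euler_good (k : Type*) [Field k] [NumberField k] (Y : ℕ) : ∃ R : ℝ, 0 < R ∧
    ∀ s : ℝ, 1 < s → ∀ V : Finset (P k),
      ∏ v ∈ V, (1 - (Ideal.absNorm v.asIdeal : ℝ) ^ (-s))⁻¹ ≤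
        R * ∏ v ∈ V.filter (fun v => (Ideal.absNorm v.asIdeal).Prime ∧ Y < Ideal.absNorm v.asIdeal),
          (1 + (Ideal.absNorm v.asIdeal : ℝ) ^ (-s)) := by
  let w : ℕ → ℝ := fun n => 2 * (1 / (n : ℝ) ^ 2) + if n ≤ Y then 1 else 0
  have w0 : ∀ n, 0 ≤ w n := fun n => by
    simp only [w]
    split_ifs <;> positivity
  have ws : Summable w := by
    refine ((Real.summable_one_div_nat_pow.2 one_lt_two).mul_left 2).add
      (summable_of_ne_finset_zero (s := Finset.range (Y + 1)) fun n hn => if_neg ?_)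
    rw [Finset.mem_range] at hn
    omega
  refine ⟨Real.exp (Module.finrank ℚ k * ∑' n, w n), Real.exp_pos _, fun s hs V => ?_⟩
  have h1 : ∀ v : P k, ∃ p n : ℕ, 0 < n ∧ (p : 𝓞 k) ∈ v.asIdeal ∧ p.Prime ∧
      Ideal.absNorm v.asIdeal = p ^ n := fun v =>
    haveI := v.isMaximal
    Ideal.exists_prime_and_absNorm_eq_pow v.asIdeal
  choose p n hn hm hp he using h1
  have h2 : ∀ v : P k, (1 - (Ideal.absNorm v.asIdeal : ℝ) ^ (-s))⁻¹ ≤ Real.exp (w (p v)) *
      if (Ideal.absNorm v.asIdeal).Prime ∧ Y < Ideal.absNorm v.asIdeal then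
        1 + (Ideal.absNorm v.asIdeal : ℝ) ^ (-s) else 1 := fun v => by
    have a2 := zzeta2_two v
    have x0 : 0 ≤ (Ideal.absNorm v.asIdeal : ℝ) ^ (-s) := by positivity
    have x1 : (Ideal.absNorm v.asIdeal : ℝ) ^ (-s) ≤ 1 / Ideal.absNorm v.asIdeal := by
      rw [one_div, ← Real.rpow_neg_one]
      exact Real.rpow_le_rpow_of_exponent_le (by linarith) (by linarith)
    have x2 : (Ideal.absNorm v.asIdeal : ℝ) ^ (-s) ≤ 1 / 2 :=
      x1.trans (one_div_le_one_div_of_le two_pos a2)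
    have p0 : (0 : ℝ) < p v := by exact_mod_cast (hp v).pos
    have p1 : p v ≤ Ideal.absNorm v.asIdeal := by
      rw [he v]
      exact Nat.le_self_pow (hn v).ne' _
    have w1 : (0 : ℝ) ≤ if p v ≤ Y then 1 else 0 := by split_ifs <;> norm_num
    generalize (Ideal.absNorm v.asIdeal : ℝ) ^ (-s) = x at x0 x1 x2
    split_ifs with hg
    · refine (zzeta2_exp2 x0 x2).trans (mul_le_mul_of_nonneg_right (Real.exp_le_exp.2 ?_)
        (by linarith))
      have x3 : x ≤ 1 / p v := x1.trans (one_div_le_one_div_of_le p0 (by exact_mod_cast p1))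
      have x4 : x ^ 2 ≤ 1 / (p v : ℝ) ^ 2 := by
        rw [← one_pow 2, ← div_pow]
        exact pow_le_pow_left₀ x0 x3 2
      simp only [w]
      linarith
    · rw [mul_one]
      refine (zzeta2_exp x0 x2).trans (Real.exp_le_exp.2 ?_)
      by_cases hY : p v ≤ Y
      · have : (0 : ℝ) ≤ 1 / (p v : ℝ) ^ 2 := by positivity
        simp only [w, if_pos hY]
        linarith
      · have n2 : 2 ≤ n v := by
          by_contra h
          have h3 : n v = 1 := by have := hn v; omega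
          refine hg ?_
          rw [he v, h3, pow_one]
          exact ⟨hp v, not_le.1 hY⟩
        have p2 : p v ^ 2 ≤ Ideal.absNorm v.asIdeal := by
          rw [he v]
          exact Nat.pow_le_pow_right (hp v).pos n2
        have x3 : x ≤ 1 / (p v : ℝ) ^ 2 :=
          x1.trans (one_div_le_one_div_of_le (by positivity) (by exact_mod_cast p2))
        simp only [w]
        linarith
  have h3 : ∑ v ∈ V, w (p v) ≤ Module.finrank ℚ k * ∑' n, w n := by
    rw [Finset.sum_comp w p]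
    refine le_trans (Finset.sum_le_sum (g := fun q => (Module.finrank ℚ k : ℝ) * w q)
      fun q hq => ?_) ?_
    · obtain ⟨v, -, rfl⟩ := Finset.mem_image.1 hq
      rw [nsmul_eq_mul]
      refine mul_le_mul_of_nonneg_right (Nat.cast_le.2 ?_) (w0 _)
      refine le_trans ?_ (ncard_over_prime_le (k := k) ⟨p v, hp v⟩)
      rw [← Set.ncard_coe_finset]
      refine Set.ncard_le_ncard (fun u hu => ?_) (finite_over_prime ⟨p v, hp v⟩)
      have h4 : p u = p v := (Finset.mem_filter.1 hu).2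
      have h5 := (Val_lt_iff_mem u _).2 (hm u)
      rw [h4] at h5
      simpa using h5
    · rw [← Finset.mul_sum]
      exact mul_le_mul_of_nonneg_left (ws.sum_le_tsum _ fun _ _ => w0 _) (Nat.cast_nonneg _)
  refine (Finset.prod_le_prod (fun v _ => inv_nonneg.2 ?_) fun v _ => h2 v).trans ?_
  · linarith [zzeta2_lt v (zero_lt_one.trans hs)]
  · rw [Finset.prod_mul_distrib, ← Real.exp_sum, ← Finset.prod_filter]
    exact mul_le_mul_of_nonneg_right (Real.exp_le_exp.2 h3)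
      (Finset.prod_nonneg fun _ _ => by positivity)

/-- `(c / (s - 1))^2 ≤ R^2 (∏ ...)^2 = R^2 ∏ over the images ≤ R^2 C / (s - 1)` for all `s` close to
one, which is false -/
theorem zeta_key (Y : ℕ) (f g : P k → P k')
    (h : ∀ v : P k, (Ideal.absNorm v.asIdeal).Prime → Y < Ideal.absNorm v.asIdeal →
      Ideal.absNorm (f v).asIdeal = Ideal.absNorm v.asIdeal ∧
      Ideal.absNorm (g v).asIdeal = Ideal.absNorm v.asIdeal ∧ f v ≠ g v ∧
      ∀ v' : P k, (Ideal.absNorm v'.asIdeal).Prime → Y < Ideal.absNorm v'.asIdeal →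
        (f v = f v' ∨ f v = g v' ∨ g v = g v') → v = v') : False := by
  classical
  obtain ⟨c, δ, hc, hδ, h1⟩ := zeta_lower k
  obtain ⟨C, δ', hδ', h2⟩ := zeta_upper k'
  obtain ⟨R, hR, h3⟩ := euler_good k Y
  obtain ⟨ε, e0, e1, e2, e3⟩ : ∃ ε : ℝ, 0 < ε ∧ ε < δ ∧ ε < δ' ∧ ε < c ^ 2 / (R ^ 2 * (|C| + 1)) := by
    have h0 : 0 < min δ (min δ' (c ^ 2 / (R ^ 2 * (|C| + 1)))) :=
      lt_min hδ (lt_min hδ' (by positivity))
    obtain ⟨ε, a, b⟩ := exists_between h0
    exact ⟨ε, a, (lt_min_iff.1 b).1, (lt_min_iff.1 (lt_min_iff.1 b).2).1,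
      (lt_min_iff.1 (lt_min_iff.1 b).2).2⟩
  obtain ⟨T, hT, h4⟩ := h1 (1 + ε) (by linarith) (by linarith)
  obtain ⟨V, h5⟩ := euler_upper T hT (s := 1 + ε) (by linarith)
  have h6 := h4.trans (h5.trans (h3 (1 + ε) (by linarith) V))
  set G := V.filter fun v => (Ideal.absNorm v.asIdeal).Prime ∧ Y < Ideal.absNorm v.asIdeal with hG
  have hg : ∀ v ∈ G, (Ideal.absNorm v.asIdeal).Prime ∧ Y < Ideal.absNorm v.asIdeal :=
    fun v hv => (Finset.mem_filter.1 hv).2
  have hf1 : ∏ v ∈ G.image f, (1 + (Ideal.absNorm v.asIdeal : ℝ) ^ (-(1 + ε))) =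
      ∏ v ∈ G, (1 + (Ideal.absNorm v.asIdeal : ℝ) ^ (-(1 + ε))) := by
    rw [Finset.prod_image fun v hv v' hv' e =>
      (h v (hg v hv).1 (hg v hv).2).2.2.2 v' (hg v' hv').1 (hg v' hv').2 (Or.inl e)]
    exact Finset.prod_congr rfl fun v hv => by rw [(h v (hg v hv).1 (hg v hv).2).1]
  have hg1 : ∏ v ∈ G.image g, (1 + (Ideal.absNorm v.asIdeal : ℝ) ^ (-(1 + ε))) =
      ∏ v ∈ G, (1 + (Ideal.absNorm v.asIdeal : ℝ) ^ (-(1 + ε))) := by
    rw [Finset.prod_image fun v hv v' hv' e =>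
      (h v (hg v hv).1 (hg v hv).2).2.2.2 v' (hg v' hv').1 (hg v' hv').2 (Or.inr (Or.inr e))]
    exact Finset.prod_congr rfl fun v hv => by rw [(h v (hg v hv).1 (hg v hv).2).2.1]
  have hd : Disjoint (G.image f) (G.image g) := by
    refine Finset.disjoint_left.2 fun u hu hu' => ?_
    obtain ⟨v, hv, rfl⟩ := Finset.mem_image.1 hu
    obtain ⟨v', hv', e⟩ := Finset.mem_image.1 hu'
    have h7 := h v (hg v hv).1 (hg v hv).2
    have h8 := h7.2.2.2 v' (hg v' hv').1 (hg v' hv').2 (Or.inr (Or.inl e.symm))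
    exact h7.2.2.1 (h8 ▸ e.symm)
  obtain ⟨T', hT', h7⟩ := euler_lower (G.image f ∪ G.image g) (1 + ε)
  have h8 := h2 (1 + ε) (by linarith) (by linarith) T' hT'
  rw [← h7, Finset.prod_union hd, hf1, hg1] at h8
  rw [add_sub_cancel_left] at h6 h8
  generalize ∏ v ∈ G, (1 + (Ideal.absNorm v.asIdeal : ℝ) ^ (-(1 + ε))) = Q at h6 h8
  have h9 : (c / ε) ^ 2 ≤ R ^ 2 * (C / ε) := by
    refine (pow_le_pow_left₀ (by positivity) h6 2).trans ?_
    rw [mul_pow, sq Q]
    exact mul_le_mul_of_nonneg_left h8 (by positivity)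
  rw [lt_div_iff₀ (by positivity)] at e3
  rw [div_pow, div_le_iff₀ (by positivity),
    show R ^ 2 * (C / ε) * ε ^ 2 = ε * (R ^ 2 * C) by field_simp] at h9
  have h10 : ε * (R ^ 2 * C) ≤ ε * (R ^ 2 * (|C| + 1)) :=
    mul_le_mul_of_nonneg_left (mul_le_mul_of_nonneg_left (by linarith [le_abs_self C])
      (by positivity)) e0.le
  linarith

end Pool.Agent.Lib.MP_775b3b_nt
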